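import Pool.Agent.Work.MP_fbd21a_gt.Basic

/-! MODULE Pris. The prism identity (exact, for all tuples), twisted version.
prism a b φ (t0..tn) = Σ_i (-1)^i φ(a t0,..,a ti, b ti,..,b tn). -/

open Topology Filter Set

namespace PoolFbd

private def PT {E E' : Type*} (a b : E → E') {m : ℕ} (i : Fin (m + 1)) (t : Fin (m + 1) → E) :
    Fin (m + 1 + 1) → E' :=
  fun j => if j ≤ i.castSucc then a (t (i.predAbove j)) else b (t (i.predAbove j))

private theorem sA_val {m : ℕ} (p : Fin (m + 1)) (j : Fin m) :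
    ((p.succAbove j : Fin (m + 1)) : ℕ) = if (j : ℕ) < p then (j : ℕ) else j + 1 := by
  simp only [Fin.succAbove, Fin.lt_def, Fin.val_castSucc]
  split_ifs <;> simp

private theorem pA_val {m : ℕ} (i : Fin (m + 1)) (j : Fin (m + 1 + 1)) :
    ((i.predAbove j : Fin (m + 1)) : ℕ) = if (j : ℕ) ≤ i then (j : ℕ) else j - 1 := by
  simp only [Fin.predAbove, Fin.lt_def, Fin.val_castSucc]
  split_ifs <;> simp <;> omega

private theorem PT_pos {E E' : Type*} (a b : E → E') {m : ℕ} (i : Fin (m + 1))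
    (t : Fin (m + 1) → E) (j : Fin (m + 1 + 1)) (h : (j : ℕ) ≤ i) (x : Fin (m + 1))
    (hx : (x : ℕ) = j) : PT a b i t j = a (t x) := by
  have h1 : j ≤ i.castSucc := by simpa [Fin.le_def] using h
  have h2 : i.predAbove j = x := by
    ext
    rw [pA_val, if_pos h, hx]
  simp only [PT, h1, if_pos, h2]

private theorem PT_neg {E E' : Type*} (a b : E → E') {m : ℕ} (i : Fin (m + 1))
    (t : Fin (m + 1) → E) (j : Fin (m + 1 + 1)) (h : (i : ℕ) < j) (x : Fin (m + 1))
    (hx : (x : ℕ) = j - 1) : PT a b i t j = b (t x) := by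
  have h1 : ¬ (j ≤ i.castSucc) := by
    rw [Fin.le_def, Fin.val_castSucc]
    omega
  have h2 : i.predAbove j = x := by
    ext
    rw [pA_val, if_neg (by omega), hx]
  simp only [PT, h1, if_neg, not_false_eq_true, h2]

/-- removing a vertex before the break -/
private theorem PT_low {E E' : Type*} (a b : E → E') {m : ℕ} (i : Fin (m + 1)) (k : Fin (m + 1))
    (t : Fin (m + 1 + 1) → E) (h : (k : ℕ) < i) :
    (fun j => PT a b i.succ t (k.castSucc.succ.succAbove j)) =
      PT a b i (fun j => t (k.succ.succAbove j)) := by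
  funext j
  have hs := sA_val k.castSucc.succ j
  simp only [Fin.val_succ, Fin.val_castSucc] at hs
  by_cases hj : (j : ℕ) ≤ i
  · have hx : ((⟨j, by omega⟩ : Fin (m + 1)) : ℕ) = j := rfl
    rw [PT_pos a b i _ j hj ⟨j, by omega⟩ rfl]
    have hs2 := sA_val k.succ (⟨j, by omega⟩ : Fin (m + 1))
    simp only [Fin.val_succ] at hs2
    rw [PT_pos a b i.succ t _ (by rw [hs]; simp only [Fin.val_succ]; split_ifs <;> omega)
      (k.succ.succAbove (⟨j, by omega⟩ : Fin (m + 1))) (by rw [hs, hs2])]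
  · have hj2 := j.2
    rw [PT_neg a b i _ j (by omega) ⟨j - 1, by omega⟩ rfl]
    have hs2 := sA_val k.succ (⟨(j : ℕ) - 1, by omega⟩ : Fin (m + 1))
    simp only [Fin.val_succ] at hs2
    rw [PT_neg a b i.succ t _ (by rw [hs]; simp only [Fin.val_succ]; split_ifs <;> omega)
      (k.succ.succAbove (⟨(j : ℕ) - 1, by omega⟩ : Fin (m + 1)))
      (by rw [hs, hs2]; split_ifs <;> omega)]

/-- removing a vertex after the break -/
private theorem PT_high {E E' : Type*} (a b : E → E') {m : ℕ} (i : Fin (m + 1)) (k : Fin (m + 1))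
    (t : Fin (m + 1 + 1) → E) (h : (i : ℕ) ≤ k) :
    (fun j => PT a b i.castSucc t (k.succ.succ.succAbove j)) =
      PT a b i (fun j => t (k.succ.succAbove j)) := by
  funext j
  have hs := sA_val k.succ.succ j
  simp only [Fin.val_succ] at hs
  by_cases hj : (j : ℕ) ≤ i
  · rw [PT_pos a b i _ j hj ⟨j, by omega⟩ rfl]
    have hs2 := sA_val k.succ (⟨j, by omega⟩ : Fin (m + 1))
    simp only [Fin.val_succ] at hs2
    rw [PT_pos a b i.castSucc t _ (by rw [hs]; simp only [Fin.val_castSucc]; split_ifs <;> omega)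
      (k.succ.succAbove (⟨j, by omega⟩ : Fin (m + 1))) (by rw [hs, hs2]; split_ifs <;> omega)]
  · have hj2 := j.2
    rw [PT_neg a b i _ j (by omega) ⟨j - 1, by omega⟩ rfl]
    have hs2 := sA_val k.succ (⟨(j : ℕ) - 1, by omega⟩ : Fin (m + 1))
    simp only [Fin.val_succ] at hs2
    rw [PT_neg a b i.castSucc t _ (by rw [hs]; simp only [Fin.val_castSucc]; split_ifs <;> omega)
      (k.succ.succAbove (⟨(j : ℕ) - 1, by omega⟩ : Fin (m + 1)))
      (by rw [hs, hs2]; split_ifs <;> omega)]

/-- removing a vertex at the break -/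
private theorem PT_mid {E E' : Type*} (a b : E → E') {m : ℕ} (k : Fin (m + 1))
    (t : Fin (m + 1 + 1) → E) :
    (fun j => PT a b k.castSucc t (k.castSucc.succ.succAbove j)) =
      (fun j => PT a b k.succ t (k.castSucc.succ.succAbove j)) := by
  funext j
  have hs := sA_val k.castSucc.succ j
  simp only [Fin.val_succ, Fin.val_castSucc] at hs
  have hj2 := j.2
  by_cases hj : (j : ℕ) ≤ k
  · rw [if_pos (by omega)] at hs
    rw [PT_pos a b k.castSucc t _ (by rw [hs, Fin.val_castSucc]; omega) ⟨j, by omega⟩ (by rw [hs]),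
      PT_pos a b k.succ t _ (by rw [hs, Fin.val_succ]; omega) ⟨j, by omega⟩ (by rw [hs])]
  · rw [if_neg (by omega)] at hs
    rw [PT_neg a b k.castSucc t _ (by rw [hs, Fin.val_castSucc]; omega) ⟨j, by omega⟩
        (by rw [hs]; simp),
      PT_neg a b k.succ t _ (by rw [hs, Fin.val_succ]; omega) ⟨j, by omega⟩ (by rw [hs]; simp)]

private theorem PT_last {E E' : Type*} (a b : E → E') {m : ℕ} (t : Fin (m + 1) → E) :
    (fun j => PT a b (Fin.last m) t ((Fin.last m).succ.succAbove j)) = fun j => a (t j) := by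
  funext j
  have hs := sA_val (Fin.last m).succ j
  simp only [Fin.val_succ, Fin.val_last] at hs
  have hj2 := j.2
  rw [if_pos (by omega)] at hs
  rw [PT_pos a b (Fin.last m) t _ (by rw [hs, Fin.val_last]; omega) j hs.symm]

private theorem PT_shift {E E' : Type*} (a b : E → E') {m : ℕ} (i : Fin (m + 1))
    (t : Fin (m + 1 + 1) → E) :
    (fun j : Fin (m + 1 + 1) => PT a b i.succ t j.succ) = PT a b i (fun j => t j.succ) := by
  funext j
  have hj2 := j.2
  by_cases hj : (j : ℕ) ≤ i
  · rw [PT_pos a b i _ j hj ⟨j, by omega⟩ rfl,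
      PT_pos a b i.succ t j.succ (by simpa using hj) (Fin.succ ⟨j, by omega⟩) (by simp)]
  · rw [PT_neg a b i _ j (by omega) ⟨j - 1, by omega⟩ rfl,
      PT_neg a b i.succ t j.succ (by simp only [Fin.val_succ]; omega)
        (Fin.succ ⟨j - 1, by omega⟩) (by simp; omega)]

private theorem PT_first {E E' : Type*} (a b : E → E') {m : ℕ} (t : Fin (m + 1) → E) :
    (fun j : Fin (m + 1) => PT a b 0 t j.succ) = fun j => b (t j) := by
  funext j
  rw [PT_neg a b 0 t j.succ (by simp) j (by simp)]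

private theorem PT_at_zero {E E' : Type*} (a b : E → E') {m : ℕ} (i : Fin (m + 1))
    (t : Fin (m + 1) → E) : PT a b i t 0 = a (t 0) :=
  PT_pos a b i t 0 (by simp) 0 (by simp)

private theorem prism_def {E E' A : Type*} [AddCommGroup A] (a b : E → E') {n : ℕ}
    (φ : Coch E' A (n + 1)) (t : Fin (n + 1) → E) :
    prism a b φ t = ∑ i : Fin (n + 1), (-1 : ℤ) ^ (i : ℕ) • φ (PT a b i t) := rfl

theorem prism_zero {E E' A G : Type*} [AddCommGroup A] [CommGroup G] [DistribMulAction G A]
    (a b : E → E') (τ : E' → E' → G) (φ : Coch E' A 0) (t : Fin (0 + 1) → E) :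
    prism a b (dd τ φ) t = τ (a (t 0)) (b (t 0)) • pb b φ t - pb a φ t := by
  rw [prism_def]
  simp only [Fin.sum_univ_succ, Fin.val_zero, pow_zero, one_smul]
  simp only [Finset.univ_eq_empty, Finset.sum_empty, add_zero]
  have hd : dd τ φ (PT a b 0 t) = τ (PT a b 0 t 0) (PT a b 0 t 1) •
      φ (fun j => PT a b 0 t j.succ) + ∑ i : Fin (0 + 1), (-1 : ℤ) ^ ((i : ℕ) + 1) •
      φ (fun j => PT a b 0 t (i.succ.succAbove j)) := rfl
  rw [hd, PT_at_zero, PT_first, PT_neg a b 0 t 1 (by simp) 0 (by simp)]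
  have hl := PT_last a b t
  simp only [Fin.sum_univ_succ, Finset.univ_eq_empty, Finset.sum_empty, add_zero,
    Fin.val_zero, zero_add, pow_one, neg_smul, one_smul]
  have h2 : (fun j : Fin (0 + 1) => PT a b 0 t ((Fin.succ 0 : Fin (0 + 1 + 1)).succAbove j)) =
      fun j => a (t j) := hl
  rw [h2, sub_eq_add_neg]
  rfl

theorem prism_succ {E E' A G : Type*} [AddCommGroup A] [CommGroup G] [DistribMulAction G A]
    (a b : E → E') (τ : E' → E' → G) {n : ℕ} (φ : Coch E' A (n + 1)) (t : Fin (n + 1 + 1) → E) :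
    dd (pbt a τ) (prism a b φ) t + prism a b (dd τ φ) t =
      τ (a (t 0)) (b (t 0)) • pb b φ t - pb a φ t := by
  -- the double sums
  set X : Fin (n + 1 + 1) → Fin (n + 1 + 1) → A := fun i k =>
    (-1 : ℤ) ^ ((i : ℕ) + ((k : ℕ) + 1)) • φ (fun j => PT a b i t (k.succ.succAbove j)) with hX
  set Y : Fin (n + 1) → Fin (n + 1) → A := fun k i =>
    (-1 : ℤ) ^ (((k : ℕ) + 1) + (i : ℕ)) • φ (PT a b i (fun j => t (k.succ.succAbove j))) with hY
  have hXY : (∑ i, ∑ k, X i k) + (∑ k, ∑ i, Y k i) = - φ (fun j => a (t j)) := by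
    have s1 : ∀ i, ∑ k, X i k = X i i + ∑ k' : Fin (n + 1), X i (i.succAbove k') := fun i =>
      Fin.sum_univ_succAbove _ i
    simp only [s1, Finset.sum_add_distrib]
    rw [Finset.sum_comm (f := fun i k' => X i (i.succAbove k'))]
    have s2 : ∀ k' : Fin (n + 1), ∑ i : Fin (n + 1 + 1), X i (i.succAbove k') =
        X k'.succ (k'.succ.succAbove k') +
        ∑ i' : Fin (n + 1), X (k'.succ.succAbove i') ((k'.succ.succAbove i').succAbove k') :=
      fun k' => Fin.sum_univ_succAbove (fun i => X i (i.succAbove k')) k'.succ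
    simp only [s2, Finset.sum_add_distrib]
    have s3 : ∀ k' i' : Fin (n + 1),
        X (k'.succ.succAbove i') ((k'.succ.succAbove i').succAbove k') = - Y k' i' := by
      intro k' i'
      by_cases h : (i' : ℕ) ≤ k'
      · have e1 : k'.succ.succAbove i' = i'.castSucc := by
          ext; rw [sA_val]; simp only [Fin.val_succ, Fin.val_castSucc]; rw [if_pos (by omega)]
        have e2 : (i'.castSucc).succAbove k' = k'.succ := by
          ext; rw [sA_val]; simp only [Fin.val_succ, Fin.val_castSucc]; rw [if_neg (by omega)]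
        rw [e1, e2]
        simp only [hX, hY]
        rw [PT_high a b i' k' t h, ← neg_smul]
        congr 1
        simp only [Fin.val_castSucc, Fin.val_succ]
        ring
      · have e1 : k'.succ.succAbove i' = i'.succ := by
          ext; rw [sA_val]; simp only [Fin.val_succ]; rw [if_neg (by omega)]
        have e2 : (i'.succ).succAbove k' = k'.castSucc := by
          ext; rw [sA_val]; simp only [Fin.val_succ, Fin.val_castSucc]; rw [if_pos (by omega)]
        rw [e1, e2]
        simp only [hX, hY]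
        rw [PT_low a b i' k' t (by omega), ← neg_smul]
        congr 1
        simp only [Fin.val_castSucc, Fin.val_succ]
        ring
    simp only [s3, Finset.sum_neg_distrib]
    have s4 : ∀ k' : Fin (n + 1), k'.succ.succAbove k' = k'.castSucc := by
      intro k'
      ext; rw [sA_val]; simp
    simp only [s4]
    rw [Fin.sum_univ_castSucc (fun i => X i i)]
    have s5 : ∀ k' : Fin (n + 1), X k'.castSucc k'.castSucc = - X k'.succ k'.castSucc := by
      intro k'
      simp only [hX]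
      rw [PT_mid a b k' t, ← neg_smul]
      congr 1
      simp only [Fin.val_castSucc, Fin.val_succ]
      ring
    simp only [s5, Finset.sum_neg_distrib]
    have s6 : X (Fin.last (n + 1)) (Fin.last (n + 1)) = - φ (fun j => a (t j)) := by
      simp only [hX]
      rw [PT_last a b t]
      have : (-1 : ℤ) ^ (((Fin.last (n + 1) : Fin (n + 1 + 1)) : ℕ) +
          (((Fin.last (n + 1) : Fin (n + 1 + 1)) : ℕ) + 1)) = -1 := by
        rw [Fin.val_last]
        have : n + 1 + (n + 1 + 1) = 2 * (n + 1) + 1 := by ring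
        rw [this, pow_succ, pow_mul]
        simp
      rw [this, neg_smul, one_smul]
    rw [s6]
    abel
  have h1 : dd (pbt a τ) (prism a b φ) t = τ (a (t 0)) (a (t 1)) •
      (∑ i : Fin (n + 1), (-1 : ℤ) ^ (i : ℕ) • φ (PT a b i (fun j => t j.succ))) +
      ∑ k, ∑ i, Y k i := by
    have : dd (pbt a τ) (prism a b φ) t = τ (a (t 0)) (a (t 1)) •
      (∑ i : Fin (n + 1), (-1 : ℤ) ^ (i : ℕ) • φ (PT a b i (fun j => t j.succ))) +
      ∑ k : Fin (n + 1), (-1 : ℤ) ^ ((k : ℕ) + 1) • ∑ i : Fin (n + 1), (-1 : ℤ) ^ (i : ℕ) •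
        φ (PT a b i (fun j => t (k.succ.succAbove j))) := rfl
    rw [this]
    simp only [hY, Finset.smul_sum, smul_smul, ← pow_add]
  have h2 : prism a b (dd τ φ) t =
      (∑ i : Fin (n + 1 + 1), (-1 : ℤ) ^ (i : ℕ) • τ (PT a b i t 0) (PT a b i t 1) •
        φ (fun j => PT a b i t j.succ)) + ∑ i, ∑ k, X i k := by
    have : prism a b (dd τ φ) t = ∑ i : Fin (n + 1 + 1), (-1 : ℤ) ^ (i : ℕ) •
      (τ (PT a b i t 0) (PT a b i t 1) • φ (fun j => PT a b i t j.succ) +
      ∑ k : Fin (n + 1 + 1), (-1 : ℤ) ^ ((k : ℕ) + 1) •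
        φ (fun j => PT a b i t (k.succ.succAbove j))) := rfl
    rw [this]
    simp only [hX, smul_add, Finset.smul_sum, smul_smul, ← pow_add, Finset.sum_add_distrib]
  have h3 : (∑ i : Fin (n + 1 + 1), (-1 : ℤ) ^ (i : ℕ) • τ (PT a b i t 0) (PT a b i t 1) •
        φ (fun j => PT a b i t j.succ)) = τ (a (t 0)) (b (t 0)) • φ (fun j => b (t j)) -
        τ (a (t 0)) (a (t 1)) •
      (∑ i : Fin (n + 1), (-1 : ℤ) ^ (i : ℕ) • φ (PT a b i (fun j => t j.succ))) := by
    rw [Fin.sum_univ_succ]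
    have e0 : PT a b 0 t 1 = b (t 0) := PT_neg a b 0 t 1 (by simp) 0 (by simp)
    rw [PT_at_zero, e0, PT_first]
    have e1 : ∀ i : Fin (n + 1), (-1 : ℤ) ^ (i.succ : ℕ) •
        τ (PT a b i.succ t 0) (PT a b i.succ t 1) • φ (fun j => PT a b i.succ t j.succ) =
        - (τ (a (t 0)) (a (t 1)) • (-1 : ℤ) ^ (i : ℕ) • φ (PT a b i (fun j => t j.succ))) := by
      intro i
      rw [PT_at_zero, PT_shift, PT_pos a b i.succ t 1 (by simp) 1 (by simp),
        Fin.val_succ, pow_succ, smul_comm]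
      simp
    simp only [e1, Finset.sum_neg_distrib, ← Finset.smul_sum]
    simp [sub_eq_add_neg]
  rw [h1, h2, h3]
  have : pb b φ t = φ (fun j => b (t j)) := rfl
  rw [this]
  have : pb a φ t = φ (fun j => a (t j)) := rfl
  rw [this]
  have hXY' : (∑ i, ∑ k, X i k) = - φ (fun j => a (t j)) - (∑ k, ∑ i, Y k i) := by
    rw [← hXY]; abel
  rw [hXY']
  abel

end PoolFbd
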