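import Pool.Agent.Work.MP_fbd21a_gt.Cup

/-! MODULE CupL. Germ versions of the cup product facts.
cup_left / cup_right: if c (resp. φ) vanishes near x then so does the product (front and back faces
tend to the same diagonal point, tendsto_face).
cup_leib: at x in S the hypothesis of dd_cup_apply holds eventually: for each triple (i,j,k) of
indices IsTw pulled back along t ↦ (t i, t j, t k), finitely many triples (eventually_all).
Near Z everything vanishes since c does (LZ.dd and cup_left).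
cup_coc: product of a relative cocycle c of (S, Z) and a cocycle φ near S minus Z is a relative
(untwisted) cocycle of (S, Z).
cup_cob_left: if moreover c is a relative coboundary so is the product:
c = dd a + germ zero: c ∪ φ = dd (a ∪ φ) up to germs near S, a ∪ φ vanishes near Z.
In degree q = 0, Cob means zero near S.
cup_cob_right: if φ = dd τ ψ near S \ Z then c ∪ φ = ± dd (c ∪ ψ).
cup_add etc are pointwise. -/

open Topology Filter Set

namespace PoolFbd

variable {E R D : Type*} [TopologicalSpace E] [CommRing R] [AddCommGroup D] [Module R D]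
  {q p n : ℕ} {S Z : Set E} {τ : E → E → Rˣ}

private lemma cupl_zl (h : q + p = n) {c : Coch E R q} {x : E} (hc : ZeroAt c x)
    (φ : Coch E D p) : ZeroAt (cup h τ c φ) x := by
  have h1 : ∀ᶠ t in 𝓝 (fun _ : Fin (n + 1) => x),
      c (fun i : Fin (q + 1) => t ⟨i.1, by omega⟩) = 0 :=
    (tendsto_face (fun i : Fin (q + 1) => (⟨i.1, by omega⟩ : Fin (n + 1))) x).eventually hc
  filter_upwards [h1] with t ht
  simp only [cup, ht, zero_smul]

private lemma cupl_zr (h : q + p = n) (c : Coch E R q) {φ : Coch E D p} {x : E}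
    (hφ : ZeroAt φ x) : ZeroAt (cup h τ c φ) x := by
  have h1 : ∀ᶠ t in 𝓝 (fun _ : Fin (n + 1) => x),
      φ (fun j : Fin (p + 1) => t ⟨q + j.1, by omega⟩) = 0 :=
    (tendsto_face (fun j : Fin (p + 1) => (⟨q + j.1, by omega⟩ : Fin (n + 1))) x).eventually hφ
  filter_upwards [h1] with t ht
  simp only [cup, ht, smul_zero]

theorem cup_left (h : q + p = n) {c : Coch E R q} (hc : LZ S c) (φ : Coch E D p) :
    LZ S (cup h τ c φ) := fun x hx => cupl_zl h (hc x hx) φ

theorem cup_right (h : q + p = n) (c : Coch E R q) {φ : Coch E D p} (hφ : LZ S φ) :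
    LZ S (cup h τ c φ) := fun x hx => cupl_zr h c (hφ x hx)

/-- near `S` one of the factors vanishes -/
private lemma cupl_both (h : q + p = n) {c : Coch E R q} (hc : LZ Z c) {φ : Coch E D p}
    (hφ : LZ (S \ Z) φ) : LZ S (cup h τ c φ) := fun x hx => by
  by_cases hz : x ∈ Z
  · exact cupl_zl h (hc x hz) φ
  · exact cupl_zr h c (hφ x ⟨hx, hz⟩)

private lemma cupl_sign {m : ℕ} {φ : Coch E D m} (hφ : LZ S φ) (k : ℕ) :
    LZ S ((-1 : ℤ) ^ k • φ) := fun x hx => by
  filter_upwards [hφ x hx] with t ht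
  simp [ht]

theorem cup_leib (h : q + p = n) (h1 : q + 1 + p = n + 1) (h2 : q + (p + 1) = n + 1)
    (hτ : IsTw (S \ Z) τ) {c : Coch E R q} (hc : LZ Z c) (φ : Coch E D p) :
    LZ S (dd one (cup h τ c φ) -
      (cup h1 τ (dd (invt τ) c) φ + (-1 : ℤ) ^ q • cup h2 τ c (dd τ φ))) := by
  intro x hx
  by_cases hz : x ∈ Z
  · have a1 : ZeroAt (dd one (cup h τ c φ)) x := (cupl_zl h (hc x hz) φ).dd one
    have a2 : ZeroAt (cup h1 τ (dd (invt τ) c) φ) x := cupl_zl h1 ((hc x hz).dd (invt τ)) φ
    have a3 : ZeroAt (cup h2 τ c (dd τ φ)) x := cupl_zl h2 (hc x hz) _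
    filter_upwards [a1, a2, a3] with t b1 b2 b3
    simp [b1, b2, b3]
  · have h3 : ∀ i j k : Fin (n + 1 + 1), ∀ᶠ t in 𝓝 (fun _ : Fin (n + 1 + 1) => x),
        τ (t i) (t j) * τ (t j) (t k) = τ (t i) (t k) := fun i j k =>
      (tendsto_face (![i, j, k] : Fin 3 → Fin (n + 1 + 1)) x).eventually (hτ x ⟨hx, hz⟩)
    have h4 : ∀ᶠ t in 𝓝 (fun _ : Fin (n + 1 + 1) => x), ∀ i j k : Fin (n + 1 + 1),
        τ (t i) (t j) * τ (t j) (t k) = τ (t i) (t k) := by
      rw [eventually_all]
      intro i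
      rw [eventually_all]
      intro j
      rw [eventually_all]
      exact fun k => h3 i j k
    filter_upwards [h4] with t ht
    have := dd_cup_apply h h1 h2 τ c φ t ht
    simp only [Pi.sub_apply, Pi.add_apply, Pi.smul_apply, this, sub_self]

omit [TopologicalSpace E] in
theorem cup_add_left (h : q + p = n) (c c' : Coch E R q) (φ : Coch E D p) :
    cup h τ (c + c') φ = cup h τ c φ + cup h τ c' φ := by
  funext t
  simp only [cup, Pi.add_apply, add_smul]

omit [TopologicalSpace E] in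
theorem cup_add_right (h : q + p = n) (c : Coch E R q) (φ φ' : Coch E D p) :
    cup h τ c (φ + φ') = cup h τ c φ + cup h τ c φ' := by
  funext t
  simp only [cup, Pi.add_apply, smul_add]

omit [TopologicalSpace E] in
theorem cup_sub_right (h : q + p = n) (c : Coch E R q) (φ φ' : Coch E D p) :
    cup h τ c (φ - φ') = cup h τ c φ - cup h τ c φ' := by
  funext t
  simp only [cup, Pi.sub_apply, smul_sub]

omit [TopologicalSpace E] in
theorem cup_sub_left (h : q + p = n) (c c' : Coch E R q) (φ : Coch E D p) :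
    cup h τ (c - c') φ = cup h τ c φ - cup h τ c' φ := by
  funext t
  simp only [cup, Pi.sub_apply, sub_smul]

omit [TopologicalSpace E] in
theorem cup_smul_left (h : q + p = n) (r : R) (c : Coch E R q) (φ : Coch E D p) :
    cup h τ (r • c) φ = r • cup h τ c φ := by
  funext t
  simp only [cup, Pi.smul_apply, smul_eq_mul, mul_smul]

omit [TopologicalSpace E] in
theorem cup_smul_right (h : q + p = n) (r : R) (c : Coch E R q) (φ : Coch E D p) :
    cup h τ c (r • φ) = r • cup h τ c φ := by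
  funext t
  simp only [cup, Pi.smul_apply]
  rw [smul_comm (τ _ _) r, smul_comm _ r]

theorem cup_coc (h : q + p = n) (hτ : IsTw (S \ Z) τ) {c : Coch E R q} {φ : Coch E D p}
    (hc : Coc (invt τ) S Z c) (hφ : LZ (S \ Z) (dd τ φ)) : Coc one S Z (cup h τ c φ) := by
  refine ⟨cup_left h hc.1 φ, ?_⟩
  refine LZ.congr (cup_leib h (by omega) (by omega) hτ hc.1 φ) ?_
  exact (cup_left _ hc.2 φ).add (cupl_sign (cupl_both _ hc.1 hφ) q)

theorem cup_cob_left (h : q + p = n) (hτ : IsTw (S \ Z) τ) {c : Coch E R q} {φ : Coch E D p}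
    (hc : Cob (invt τ) S Z c) (hc' : LZ Z c) (hφ : LZ (S \ Z) (dd τ φ)) :
    Cob one S Z (cup h τ c φ) := by
  have _ := hc'
  cases q with
  | zero => exact Cob.of_LZ (cup_left h hc φ)
  | succ q =>
    obtain ⟨a, ha, ha2⟩ := hc
    obtain ⟨m, rfl⟩ : ∃ m, n = m + 1 := ⟨n - 1, by omega⟩
    have h0 : q + p = m := by omega
    refine ⟨cup h0 τ a φ, cup_left h0 ha φ, ?_⟩
    have e1 := cup_leib h0 (by omega) (by omega) hτ ha φ
    have e2 : LZ S (cup h τ (c - dd (invt τ) a) φ) := cup_left h ha2 φ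
    rw [cup_sub_left] at e2
    have e3 : LZ S ((-1 : ℤ) ^ q • cup (show q + (p + 1) = m + 1 by omega) τ a (dd τ φ)) :=
      cupl_sign (cupl_both _ ha hφ) q
    have e4 := (e2.sub e3).sub e1
    convert e4 using 1
    abel

theorem cup_cob_right (h : q + p = n) (hτ : IsTw (S \ Z) τ) {c : Coch E R q} {φ : Coch E D p}
    (hc : Coc (invt τ) S Z c) (hφ : Cob τ (S \ Z) ∅ φ) :
    Cob one S Z (cup h τ c φ) := by
  cases p with
  | zero => exact Cob.of_LZ (cupl_both h hc.1 hφ)
  | succ p =>
    obtain ⟨ψ, -, hψ⟩ := hφ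
    obtain ⟨m, rfl⟩ : ∃ m, n = m + 1 := ⟨n - 1, by omega⟩
    have h0 : q + p = m := by omega
    have e1 := cup_leib h0 (by omega) h hτ hc.1 ψ
    have e2 : LZ S (cup h τ c (φ - dd τ ψ)) := cupl_both h hc.1 hψ
    rw [cup_sub_right] at e2
    have e3 : LZ S (cup (show q + 1 + p = m + 1 by omega) τ (dd (invt τ) c) ψ) :=
      cup_left _ hc.2 ψ
    have e4 := e1.add e3
    rcases neg_one_pow_eq_or ℤ q with hs | hs
    · refine ⟨cup h0 τ c ψ, cup_left h0 hc.1 ψ, ?_⟩
      rw [hs, one_smul] at e4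
      have e5 := e2.sub e4
      convert e5 using 1
      abel
    · refine ⟨-cup h0 τ c ψ, (cup_left h0 hc.1 ψ).neg, ?_⟩
      rw [hs, neg_one_smul] at e4
      rw [dd_neg]
      have e5 := e2.add e4
      convert e5 using 1
      abel

end PoolFbd
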