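import Pool.Agent.Work.MP_fbd21a_gt.Basic

/-! MODULE DdDd. The twisted coboundary squares to zero. -/

open Topology Filter Set

namespace PoolFbd

private theorem face_comm {m : ℕ} (i j : Fin (m + 1)) (h : i ≤ j) (k : Fin m) :
    i.castSucc.succAbove (j.succAbove k) = j.succ.succAbove (i.succAbove k) := by
  have h' : (i : ℕ) ≤ j := h
  ext
  simp only [Fin.succAbove, Fin.lt_def, Fin.val_castSucc, Fin.val_succ]
  split_ifs <;> simp only [Fin.val_castSucc, Fin.val_succ] at * <;> omega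

private theorem alt_sum {E A : Type*} [AddCommGroup A] {m : ℕ} (φ : (Fin m → E) → A)
    (t : Fin (m + 1 + 1) → E) :
    ∑ p : Fin (m + 1 + 1) × Fin (m + 1), (-1 : ℤ) ^ ((p.1 : ℕ) + (p.2 : ℕ)) •
      φ (fun k => t (p.1.succAbove (p.2.succAbove k))) = 0 := by
  classical
  refine Finset.sum_involution (fun p _ => if h : (p.1 : ℕ) ≤ p.2 then
      (p.2.succ, ⟨p.1, by omega⟩) else (p.2.castSucc, ⟨(p.1 : ℕ) - 1, by omega⟩)) ?_ ?_ ?_ ?_
  · rintro ⟨i, j⟩ -
    by_cases h : (i : ℕ) ≤ j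
    · simp only [h, dif_pos]
      have hi : i = (⟨i, by omega⟩ : Fin (m + 1)).castSucc := by ext; simp
      have e : ∀ k : Fin m, i.succAbove (j.succAbove k) =
          j.succ.succAbove ((⟨i, by omega⟩ : Fin (m + 1)).succAbove k) := by
        intro k
        conv_lhs => rw [hi]
        exact face_comm _ _ (by simpa [Fin.le_def] using h) k
      simp only [e]
      rw [← add_smul]
      have : (-1 : ℤ) ^ ((i : ℕ) + (j : ℕ)) + (-1) ^ ((j.succ : ℕ) + (i : ℕ)) = 0 := by
        rw [Fin.val_succ]; ring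
      rw [this, zero_smul]
    · simp only [h, dif_neg, not_false_eq_true]
      have hj : (j : ℕ) ≤ (i : ℕ) - 1 := by omega
      have hi : i = (⟨(i : ℕ) - 1, by omega⟩ : Fin (m + 1)).succ := by
        ext; simp; omega
      have e : ∀ k : Fin m, i.succAbove (j.succAbove k) =
          j.castSucc.succAbove ((⟨(i : ℕ) - 1, by omega⟩ : Fin (m + 1)).succAbove k) := by
        intro k
        conv_lhs => rw [hi]
        exact (face_comm j _ (by simpa [Fin.le_def] using hj) k).symm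
      simp only [e]
      rw [← add_smul]
      have hpos : 1 ≤ (i : ℕ) := by omega
      obtain ⟨a, ha⟩ : ∃ a, (i : ℕ) = a + 1 := ⟨(i : ℕ) - 1, by omega⟩
      have : (-1 : ℤ) ^ ((i : ℕ) + (j : ℕ)) + (-1) ^ ((j.castSucc : ℕ) + ((i : ℕ) - 1)) = 0 := by
        rw [Fin.val_castSucc, ha]
        simp only [Nat.add_sub_cancel]
        ring
      rw [this, zero_smul]
  · rintro ⟨i, j⟩ - -
    by_cases h : (i : ℕ) ≤ j
    · simp only [h, dif_pos, ne_eq, Prod.mk.injEq, not_and]
      intro h1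
      exfalso
      have := congrArg Fin.val h1
      simp at this
      omega
    · simp only [h, dif_neg, not_false_eq_true, ne_eq, Prod.mk.injEq, not_and]
      intro h1
      exfalso
      have := congrArg Fin.val h1
      simp at this
      omega
  · intro p _
    exact Finset.mem_univ _
  · rintro ⟨i, j⟩ -
    by_cases h : (i : ℕ) ≤ j
    · have h2 : ¬ ((j.succ : ℕ) ≤ (i : ℕ)) := by simp; omega
      simp [h]
    · have h2 : (j : ℕ) ≤ (i : ℕ) - 1 := by omega
      simp [h, h2]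
      ext
      simp
      omega

theorem dd_dd_apply {E A G : Type*} [AddCommGroup A] [CommGroup G] [DistribMulAction G A]
    (τ : E → E → G) {n : ℕ} (φ : Coch E A n) (t : Fin (n + 1 + 1 + 1) → E)
    (h : τ (t 0) (t 1) * τ (t 1) (t 2) = τ (t 0) (t 2)) : dd τ (dd τ φ) t = 0 := by
  have key := alt_sum φ t
  rw [Fintype.sum_prod_type] at key
  rw [Fin.sum_univ_succ] at key
  have h0 : ∀ i : Fin (n + 1 + 1), ∑ j : Fin (n + 1 + 1), (-1 : ℤ) ^ ((i.succ : ℕ) + (j : ℕ)) •
      φ (fun k => t (i.succ.succAbove (j.succAbove k))) =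
      (-1 : ℤ) ^ ((i : ℕ) + 1) • φ (fun k => t ((i.succAbove k).succ)) +
      ∑ j : Fin (n + 1), (-1 : ℤ) ^ (((i : ℕ) + 1) + ((j : ℕ) + 1)) •
        φ (fun k => t (i.succ.succAbove (j.succ.succAbove k))) := by
    intro i
    rw [Fin.sum_univ_succ]
    simp [Fin.succ_succAbove_succ]
  simp only [h0, Finset.sum_add_distrib] at key
  simp only [Fin.zero_succAbove, Fin.val_zero, zero_add] at key
  rw [← add_assoc, ← Finset.sum_add_distrib] at key
  have hc : ∀ j : Fin (n + 1 + 1), (-1 : ℤ) ^ (j : ℕ) • φ (fun k => t (j.succAbove k).succ) +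
      (-1 : ℤ) ^ ((j : ℕ) + 1) • φ (fun k => t (j.succAbove k).succ) = 0 := by
    intro j
    rw [← add_smul, pow_succ]
    simp
  simp only [hc, Finset.sum_const_zero, zero_add] at key
  -- now expand
  have hsplit : ∀ i : Fin (n + 1 + 1), (-1 : ℤ) ^ ((i : ℕ) + 1) •
      dd τ φ (fun j => t (i.succ.succAbove j)) =
      (-1 : ℤ) ^ ((i : ℕ) + 1) • (τ (t (i.succ.succAbove 0)) (t (i.succ.succAbove 1)) •
        φ (fun k => t (i.succ.succAbove k.succ))) +
      ∑ j : Fin (n + 1), (-1 : ℤ) ^ (((i : ℕ) + 1) + ((j : ℕ) + 1)) •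
        φ (fun k => t (i.succ.succAbove (j.succ.succAbove k))) := by
    intro i
    simp only [dd, smul_add, Finset.smul_sum, smul_smul, ← pow_add]
  have hout : dd τ (dd τ φ) t = τ (t 0) (t 1) • dd τ φ (fun j => t j.succ) +
      ∑ i : Fin (n + 1 + 1), (-1 : ℤ) ^ ((i : ℕ) + 1) •
        dd τ φ (fun j => t (i.succ.succAbove j)) := rfl
  rw [hout]
  simp only [hsplit, Finset.sum_add_distrib]
  rw [key, add_zero, Fin.sum_univ_succ]
  have e1 : τ (t 0) (t 1) • dd τ φ (fun j => t j.succ) =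
      τ (t 0) (t 2) • φ (fun k => t k.succ.succ) +
      ∑ j : Fin (n + 1), (-1 : ℤ) ^ ((j : ℕ) + 1) • τ (t 0) (t 1) •
        φ (fun k => t (j.succ.succAbove k).succ) := by
    simp only [dd, smul_add, Finset.smul_sum]
    congr 1
    · rw [← mul_smul]
      have : τ (t 0) (t 1) * τ (t (Fin.succ 0)) (t (Fin.succ 1)) = τ (t 0) (t 2) := by
        rw [← h]; rfl
      rw [this]
    · refine Finset.sum_congr rfl fun j _ => ?_
      exact smul_comm _ _ _
  rw [e1]
  have e2 : ∀ j : Fin (n + 1), (-1 : ℤ) ^ ((j.succ : ℕ) + 1) •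
      (τ (t (j.succ.succ.succAbove 0)) (t (j.succ.succ.succAbove 1)) •
        φ (fun k => t (j.succ.succ.succAbove k.succ))) =
      - ((-1 : ℤ) ^ ((j : ℕ) + 1) • τ (t 0) (t 1) •
        φ (fun k => t (j.succ.succAbove k).succ)) := by
    intro j
    have a0 : j.succ.succ.succAbove (0 : Fin (n + 1 + 1)) = 0 := by
      rw [Fin.succAbove_of_castSucc_lt]
      · rfl
      · rw [Fin.lt_def]
        change 0 < (j : ℕ) + 1 + 1
        omega
    have a1 : j.succ.succ.succAbove (1 : Fin (n + 1 + 1)) = 1 := by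
      rw [Fin.succAbove_of_castSucc_lt]
      · rfl
      · rw [Fin.lt_def]
        change 1 < (j : ℕ) + 1 + 1
        omega
    rw [a0, a1]
    simp only [Fin.succ_succAbove_succ, Fin.val_succ]
    rw [pow_succ _ ((j : ℕ) + 1)]
    simp
  simp only [e2, Finset.sum_neg_distrib]
  have a2 : (Fin.succ 0 : Fin (n + 1 + 1 + 1)).succAbove (0 : Fin (n + 1 + 1)) = 0 := by
    rw [Fin.succAbove_of_castSucc_lt]
    · rfl
    · simp
  have a3 : (Fin.succ 0 : Fin (n + 1 + 1 + 1)).succAbove (1 : Fin (n + 1 + 1)) = 2 := by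
    rw [Fin.succAbove_of_le_castSucc]
    · rfl
    · simp
  rw [a2, a3]
  simp only [Fin.succ_succAbove_succ, Fin.zero_succAbove]
  simp
  abel

theorem LZ_dd_dd {E A G : Type*} [TopologicalSpace E] [AddCommGroup A] [CommGroup G]
    [DistribMulAction G A] {S : Set E} {τ : E → E → G} (hτ : IsTw S τ) {n : ℕ}
    (φ : Coch E A n) : LZ S (dd τ (dd τ φ)) := by
  intro x hx
  have h1 := (tendsto_face (fun j : Fin 3 => (⟨j.1, by omega⟩ : Fin (n + 1 + 1 + 1))) x).eventually
    (hτ x hx)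
  filter_upwards [h1] with t ht
  exact dd_dd_apply τ φ t ht

theorem LZ_dd_dd' {E A G : Type*} [TopologicalSpace E] [AddCommGroup A] [CommGroup G]
    [DistribMulAction G A] {S Z : Set E} {τ : E → E → G} (hτ : IsTw (S \ Z) τ) {n : ℕ}
    {ψ : Coch E A n} (hψ : LZ Z ψ) : LZ S (dd τ (dd τ ψ)) := by
  intro x hx
  by_cases hz : x ∈ Z
  · exact ((hψ x hz).dd τ).dd τ
  · exact LZ_dd_dd hτ ψ x ⟨hx, hz⟩

end PoolFbd
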