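import Pool.Agent.Work.MP_fbd21a_gt.OmCoc
import Pool.Agent.Work.MP_fbd21a_gt.DdDd
import Pool.Agent.Work.MP_fbd21a_gt.CupL

/-! MODULE OmMove. All the om n c with c in the open cube are cohomologous relative to bd n.
PROOF. Change one coordinate at a time (finite induction over the coordinates, Cob.trans):
it suffices that om n c - om n c' is a relative coboundary if c, c' differ only in coordinate j.
Write P_i(t) = st c_i (t_{i+1} i) - st c_i (t_i i). om n c - om n c' has j-th factor
w(t_{j+1}) - w(t_j) with w(y) = st (c j) (y j) - st (c' j) (y j), which vanishes for y_j near ±1. Let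
ψ(t0..t_{n-1}) = ∏_{i<j} P_i(t_i,t_{i+1}) * w(t_j) * ∏_{i>j} P_i(t_{i-1}, t_i)
(cup product of δs_0..δs_{j-1}, the 0-cochain w, δs_{j+1}..δs_{n-1}). Then
dd one ψ = (-1)^j (om n c - om n c') exactly, and ψ vanishes near bd n (near a face i ≠ j because of
P_i, near the faces of j because of w). The exact identity: as in om_dd, by induction on n
peeling off the last coordinate: if j < last, ψ_{n+1} = (ψ_n on t0..t_{n-1}) * (s(t_n) - s(t_{n-1})) and
the Leibniz computation of om_dd gives dd ψ_{n+1} = (dd ψ_n) * (s - s); if j = last,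
ψ(t0..tn) = om n c'' (t0..tn) * w(t_n) (last vertex), dd ψ = (-1)^n om n c'' (t0..tn) (w(t_{n+1}) - w(t_n)).
You may prefer to prove the theorem itself by induction on n with this peeling: cochain
φ of degree n on Q n ↦ φ'(t) = φ(prq t0..prq tn) * (s(t_{n+1}) - s(t_n)), which commutes with dd one and
maps cochains zero near bd n to cochains zero near bd (n+1). -/

open Topology Filter Set

namespace PoolFbd

/-- a function which is `0` near `-1` and `1` near `1` -/
def OmMove_good (f : ℝ → ℤ) : Prop :=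
  (∀ᶠ x in 𝓝 (-1 : ℝ), f x = 0) ∧ (∀ᶠ x in 𝓝 (1 : ℝ), f x = 1)

theorem OmMove_good.const {f : ℝ → ℤ} (hf : OmMove_good f) {x : ℝ} (hx : x = -1 ∨ x = 1) :
    ∀ᶠ y in 𝓝 x, f y = f x := by
  rcases hx with rfl | rfl
  · filter_upwards [hf.1] with y hy
    rw [hy, hf.1.self_of_nhds]
  · filter_upwards [hf.2] with y hy
    rw [hy, hf.2.self_of_nhds]

theorem OmMove_st {c : ℝ} (hc : c ∈ Ioo (-1 : ℝ) 1) : OmMove_good (st c) := by
  constructor
  · filter_upwards [OmCoc_st (c := c) (x := -1) hc.1.ne] with y hy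
    rw [hy]
    simp only [st]
    rw [if_neg (not_le.2 hc.1)]
  · filter_upwards [OmCoc_st (c := c) (x := 1) hc.2.ne'] with y hy
    rw [hy]
    simp only [st]
    rw [if_pos hc.2.le]

theorem OmMove_prq (n : ℕ) : Continuous (prq n) :=
  continuous_pi fun i => continuous_apply i.castSucc

/-- the two parts of the boundary -/
private lemma omm_bd (n : ℕ) : bd (n + 1) ⊆ {x | prq n x ∈ bd n} ∪
    {x : Q (n + 1) | (x (Fin.last n) : ℝ) = -1 ∨ (x (Fin.last n) : ℝ) = 1} := by
  rintro x ⟨i, hi⟩
  induction i using Fin.lastCases with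
  | last => exact Or.inr hi
  | cast j => exact Or.inl ⟨j, hi⟩

private lemma omm_g_bd (n : ℕ) (s : Fin n → ℝ → ℤ) (hs : ∀ i, OmMove_good (s i)) :
    LZ (bd n) (OmCoc_g n s) := by
  refine LZ.mono ?_ (OmCoc_g_supp n s)
  rintro x ⟨i, hi⟩
  exact ⟨i, (hs i).const hi⟩

private lemma omm_last (n : ℕ) (x : Q (n + 1)) {P : ℝ → Prop}
    (h : ∀ᶠ y in 𝓝 ((x (Fin.last n) : ℝ)), P y) {m : ℕ} (j : Fin m) :
    ∀ᶠ t in 𝓝 (fun _ : Fin m => x), P (t j (Fin.last n)) := by
  have hc : ContinuousAt (fun t : Fin m → Q (n + 1) =>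
      ((t j (Fin.last n) : Icc (-1 : ℝ) 1) : ℝ)) (fun _ => x) :=
    (continuous_subtype_val.comp ((continuous_apply (Fin.last n)).comp
      (continuous_apply j))).continuousAt
  exact hc.eventually h

/-- two product cochains of good families are cohomologous relative to the boundary -/
theorem OmMove_g (n : ℕ) (s s' : Fin n → ℝ → ℤ) (hs : ∀ i, OmMove_good (s i))
    (hs' : ∀ i, OmMove_good (s' i)) :
    Cob one univ (bd n) (OmCoc_g n s - OmCoc_g n s') := by
  induction n with
  | zero =>
    have e : OmCoc_g 0 s - OmCoc_g 0 s' = 0 := by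
      funext t
      simp [OmCoc_g]
    rw [e]
    exact Cob.zero _ _ _
  | succ n ih =>
    have ih' := ih (fun i => s i.castSucc) (fun i => s' i.castSucc)
      (fun i => hs i.castSucc) (fun i => hs' i.castSucc)
    set φ := OmCoc_g n (fun i => s i.castSucc) with hφ
    set φ' := OmCoc_g n (fun i => s' i.castSucc) with hφ'
    set F : Q (n + 1) → ℤ := fun y => s (Fin.last n) (y (Fin.last n)) with hF
    set F' : Q (n + 1) → ℤ := fun y => s' (Fin.last n) (y (Fin.last n)) with hF'
    have hn : n + (0 + 1) = n + 1 := by omega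
    have hprq : ∀ (T : Set (Q (n + 1))) (T' : Set (Q n)), (∀ x ∈ T, prq n x ∈ T') →
        ∀ x ∈ T, ContinuousAt (prq n) x ∧ prq n x ∈ T' :=
      fun T T' h x hx => ⟨(OmMove_prq n).continuousAt, h x hx⟩
    -- decomposition
    have hdec : OmCoc_g (n + 1) s - OmCoc_g (n + 1) s' =
        cup hn one (pb (prq n) (φ - φ')) (dd one (OmCoc_s0 F)) +
          cup hn one (pb (prq n) φ') (dd one (OmCoc_s0 (fun y => F y - F' y))) := by
      rw [OmCoc_g_succ, OmCoc_g_succ, ← hφ, ← hφ', ← hF, ← hF']
      have e1 : pb (prq n) (φ - φ') = pb (prq n) φ - pb (prq n) φ' := rfl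
      have e2 : dd one (OmCoc_s0 (fun y => F y - F' y)) =
          dd one (OmCoc_s0 F) - dd one (OmCoc_s0 F') := by
        rw [← dd_sub]
        rfl
      rw [e1, e2, cup_sub_left, cup_sub_right]
      abel
    rw [hdec]
    apply Cob.add
    · -- first part
      have hFB : LZ {x : Q (n + 1) | (x (Fin.last n) : ℝ) = -1 ∨ (x (Fin.last n) : ℝ) = 1}
          (dd one (OmCoc_s0 F)) := by
        intro x hx
        have h1 := (hs (Fin.last n)).const hx
        filter_upwards [omm_last n x h1 (0 : Fin (0 + 1 + 1)), omm_last n x h1 (1 : Fin (0 + 1 + 1))]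
          with t a b
        rw [OmCoc_ds]
        simp only [hF]
        rw [a, b, sub_self]
      cases n with
      | zero =>
        have h1 : LZ univ (φ - φ') := ih'
        exact Cob.of_LZ (cup_left hn (h1.pb (hprq univ univ (fun _ _ => mem_univ _))) _)
      | succ m =>
        obtain ⟨ψ, hψ1, hψ2⟩ := ih'
        have hm : m + (0 + 1) = m + 1 := by omega
        refine ⟨cup hm one (pb (prq (m + 1)) ψ) (dd one (OmCoc_s0 F)), ?_, ?_⟩
        · refine LZ.mono (omm_bd (m + 1)) (LZ.union ?_ ?_)
          · exact cup_left hm (hψ1.pb (hprq _ _ (fun x hx => hx))) _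
          · exact cup_right hm _ hFB
        · rw [OmCoc_peel hm hn]
          have e3 : dd one (pb (prq (m + 1)) ψ) = pb (prq (m + 1)) (dd one ψ) := rfl
          rw [e3, ← cup_sub_left]
          have e4 : pb (prq (m + 1)) (φ - φ') - pb (prq (m + 1)) (dd one ψ) =
              pb (prq (m + 1)) (φ - φ' - dd one ψ) := rfl
          rw [e4]
          exact cup_left hn (hψ2.pb (hprq univ univ (fun _ _ => mem_univ _))) _
    · -- second part
      have h0 : n + 0 = n := rfl
      have hleib := OmCoc_leib h0 (by omega) hn (pb (prq n) φ') (fun y => F y - F' y)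
      have e5 : dd one (pb (prq n) φ') = pb (prq n) (dd one φ') := rfl
      have e6 : dd one φ' = 0 := OmCoc_g_dd n _
      have e7 : ∀ (h : n + 1 + 0 = n + 1), cup h one (dd one (pb (prq n) φ'))
          (OmCoc_s0 (fun y => F y - F' y)) = 0 := by
        intro h
        rw [e5, e6]
        funext t
        simp [cup, pb]
      rw [e7, zero_add] at hleib
      have hwB : LZ {x : Q (n + 1) | (x (Fin.last n) : ℝ) = -1 ∨ (x (Fin.last n) : ℝ) = 1}
          (OmCoc_s0 (fun y => F y - F' y)) := by
        intro x hx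
        have h1 := (hs (Fin.last n)).const hx
        have h2 := (hs' (Fin.last n)).const hx
        have h3 : s (Fin.last n) (x (Fin.last n)) = s' (Fin.last n) (x (Fin.last n)) := by
          rcases hx with hx | hx
          · rw [hx, (hs (Fin.last n)).1.self_of_nhds, (hs' (Fin.last n)).1.self_of_nhds]
          · rw [hx, (hs (Fin.last n)).2.self_of_nhds, (hs' (Fin.last n)).2.self_of_nhds]
        filter_upwards [omm_last n x h1 (0 : Fin (0 + 1)), omm_last n x h2 (0 : Fin (0 + 1))]
          with t a b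
        simp only [OmCoc_s0, hF, hF']
        rw [a, b, h3, sub_self]
      have hbdz : LZ (bd (n + 1)) (cup h0 one (pb (prq n) φ')
          (OmCoc_s0 (fun y => F y - F' y))) := by
        refine LZ.mono (omm_bd n) (LZ.union ?_ ?_)
        · exact cup_left h0 ((omm_g_bd n _ (fun i => hs' i.castSucc)).pb
            (hprq _ _ (fun x hx => hx))) _
        · exact cup_right h0 _ hwB
      rcases neg_one_pow_eq_or ℤ n with hsg | hsg
      · refine ⟨_, hbdz, ?_⟩
        rw [hleib, hsg, one_smul, sub_self]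
        exact LZ.zero _
      · refine ⟨_, hbdz.neg, ?_⟩
        rw [dd_neg, hleib, hsg, neg_one_smul, neg_neg, sub_self]
        exact LZ.zero _

theorem OmMove_smulC {E : Type*} [TopologicalSpace E] {S Z : Set E} {n : ℕ} {g : Coch E ℤ n}
    (h : Cob one S Z g) {A : Type*} [AddCommGroup A] (a : A) : Cob one S Z (smulC g a) := by
  let F : ℤ →+ A := zmultiplesHom A a
  have hF : ∀ k : ℤ, F k = k • a := fun k => rfl
  have hcm : ∀ {m : ℕ} (f : Coch E ℤ m), smulC f a = cmap F f := by
    intro m f
    funext t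
    simp only [smulC, cmap, hF]
  have hG : ∀ (u : ℤˣ) (k : ℤ), F (u • k) = u • F k := by
    intro u k
    rw [hF, hF, Units.smul_def, Units.smul_def, smul_eq_mul, mul_smul]
  rw [hcm]
  cases n with
  | zero => exact LZ.cmap h F (map_zero F)
  | succ n =>
    obtain ⟨ψ, h1, h2⟩ := h
    refine ⟨cmap F ψ, h1.cmap F (map_zero F), ?_⟩
    rw [dd_cmap one ψ F hG]
    have e : cmap F g - cmap F (dd one ψ) = cmap F (g - dd one ψ) := by
      funext t
      simp only [cmap, Pi.sub_apply, map_sub]
    rw [e]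
    exact h2.cmap F (map_zero F)

theorem om_move (n : ℕ) {c c' : Fin n → ℝ} (hc : ∀ i, c i ∈ Ioo (-1 : ℝ) 1)
    (hc' : ∀ i, c' i ∈ Ioo (-1 : ℝ) 1) : Cob one univ (bd n) (om n c - om n c') := by
  rw [OmCoc_om, OmCoc_om]
  exact OmMove_g n _ _ (fun i => OmMove_st (hc i)) (fun i => OmMove_st (hc' i))

theorem om_move_smul (n : ℕ) {c c' : Fin n → ℝ} (hc : ∀ i, c i ∈ Ioo (-1 : ℝ) 1)
    (hc' : ∀ i, c' i ∈ Ioo (-1 : ℝ) 1) {A : Type} [AddCommGroup A] (a : A) :
    Cob one univ (bd n) (smulC (om n c) a - smulC (om n c') a) := by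
  have e : smulC (om n c) a - smulC (om n c') a = smulC (om n c - om n c') a := by
    funext t
    simp only [smulC, Pi.sub_apply, sub_smul]
  rw [e]
  exact OmMove_smulC (om_move n hc hc') a

end PoolFbd
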