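import Pool.Agent.Work.MP_fbd21a_gt.BoxThm
import Pool.Agent.Work.MP_fbd21a_gt.OmMove

/-! MODULE IntP. Properties of the integral Itg over the cube.
PROOFS. For a relative cocycle φ the defining a exists (box_ex) and is unique (box_uniq applied to
the difference). So Itg φ = a iff φ - om·a is a relative coboundary (Itg_eq); everything else
follows: additivity, R-linearity (r • (om·a) = om·(r•a); dd commutes with r • ), naturality under
additive maps F, Itg (om n c · a) = a by om_move_smul, vanishing on coboundaries. -/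

open Topology Filter Set

namespace PoolFbd

variable {n : ℕ} {A B : Type} [AddCommGroup A] [AddCommGroup B]

private theorem intp_smulC_sub {E : Type*} (g : Coch E ℤ n) (a b : A) :
    smulC g (a - b) = smulC g a - smulC g b := by
  funext t
  simp only [smulC, Pi.sub_apply, smul_sub]

private theorem intp_smulC_add {E : Type*} (g : Coch E ℤ n) (a b : A) :
    smulC g (a + b) = smulC g a + smulC g b := by
  funext t
  simp only [smulC, Pi.add_apply, smul_add]

private theorem intp_cmap_cob {E : Type*} [TopologicalSpace E] {S Z : Set E} {m : ℕ}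
    {φ : Coch E A m} (F : A →+ B) (h : Cob one S Z φ) : Cob one S Z (cmap F φ) := by
  have hF : ∀ (g : ℤˣ) (a : A), F (g • a) = g • F a := by
    intro g a
    rw [Units.smul_def, Units.smul_def, map_zsmul]
  cases m with
  | zero => exact LZ.cmap h F (map_zero F)
  | succ m =>
    obtain ⟨ψ, h1, h2⟩ := h
    refine ⟨cmap F ψ, h1.cmap F (map_zero F), ?_⟩
    rw [dd_cmap one ψ F hF]
    have e : cmap F φ - cmap F (dd one ψ) = cmap F (φ - dd one ψ) := by
      funext t
      simp only [cmap, Pi.sub_apply, map_sub]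
    rw [e]
    exact h2.cmap F (map_zero F)

theorem Itg_eq {φ : Coch (Q n) A n} {a : A} (h : Cob one univ (bd n) (φ - smulC (om n 0) a)) :
    Itg φ = a := by
  have hex : ∃ a : A, Cob one univ (bd n) (φ - smulC (om n 0) a) := ⟨a, h⟩
  have e : Itg φ = hex.choose := by
    unfold Itg
    rw [dif_pos hex]
  have h2 := hex.choose_spec
  rw [← e] at h2
  have h3 := h2.sub h
  have e2 : φ - smulC (om n 0) (Itg φ) - (φ - smulC (om n 0) a) =
      smulC (om n 0) (a - Itg φ) := by
    rw [intp_smulC_sub]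
    abel
  rw [e2] at h3
  have h4 := box_uniq h3
  rw [sub_eq_zero] at h4
  exact h4.symm

theorem Itg_spec {φ : Coch (Q n) A n} (hφ : Coc one univ (bd n) φ) :
    Cob one univ (bd n) (φ - smulC (om n 0) (Itg φ)) := by
  obtain ⟨a, ha⟩ := box_ex hφ
  rw [Itg_eq ha]
  exact ha

theorem Itg_cob {φ : Coch (Q n) A n} (h : Cob one univ (bd n) φ) : Itg φ = 0 := by
  apply Itg_eq
  have e : smulC (om n 0) (0 : A) = 0 := by
    funext t
    simp only [smulC, smul_zero, Pi.zero_apply]
  rw [e, sub_zero]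
  exact h

theorem Itg_zero_iff {φ : Coch (Q n) A n} (hφ : Coc one univ (bd n) φ) :
    Itg φ = 0 ↔ Cob one univ (bd n) φ := by
  refine ⟨fun h => ?_, Itg_cob⟩
  have h1 := Itg_spec hφ
  rw [h] at h1
  have e : smulC (om n 0) (0 : A) = 0 := by
    funext t
    simp only [smulC, smul_zero, Pi.zero_apply]
  rw [e, sub_zero] at h1
  exact h1

theorem Itg_add {φ ψ : Coch (Q n) A n} (hφ : Coc one univ (bd n) φ)
    (hψ : Coc one univ (bd n) ψ) : Itg (φ + ψ) = Itg φ + Itg ψ := by
  apply Itg_eq
  have e : φ + ψ - smulC (om n 0) (Itg φ + Itg ψ) =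
      (φ - smulC (om n 0) (Itg φ)) + (ψ - smulC (om n 0) (Itg ψ)) := by
    rw [intp_smulC_add]
    abel
  rw [e]
  exact (Itg_spec hφ).add (Itg_spec hψ)

theorem Itg_sub {φ ψ : Coch (Q n) A n} (hφ : Coc one univ (bd n) φ)
    (hψ : Coc one univ (bd n) ψ) : Itg (φ - ψ) = Itg φ - Itg ψ := by
  apply Itg_eq
  have e : φ - ψ - smulC (om n 0) (Itg φ - Itg ψ) =
      (φ - smulC (om n 0) (Itg φ)) - (ψ - smulC (om n 0) (Itg ψ)) := by
    rw [intp_smulC_sub]
    abel
  rw [e]
  exact (Itg_spec hφ).sub (Itg_spec hψ)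

theorem Itg_congr {φ ψ : Coch (Q n) A n} (hφ : Coc one univ (bd n) φ)
    (h : Cob one univ (bd n) (φ - ψ)) : Itg φ = Itg ψ := by
  symm
  apply Itg_eq
  have e : ψ - smulC (om n 0) (Itg φ) = (φ - smulC (om n 0) (Itg φ)) - (φ - ψ) := by abel
  rw [e]
  exact (Itg_spec hφ).sub h

theorem Itg_map (F : A →+ B) {φ : Coch (Q n) A n} (hφ : Coc one univ (bd n) φ) :
    Itg (cmap F φ) = F (Itg φ) := by
  apply Itg_eq
  have e : cmap F φ - smulC (om n 0) (F (Itg φ)) = cmap F (φ - smulC (om n 0) (Itg φ)) := by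
    funext t
    simp only [cmap, smulC, Pi.sub_apply, map_sub, map_zsmul]
  rw [e]
  exact intp_cmap_cob F (Itg_spec hφ)

theorem Itg_smul {R : Type} [CommRing R] [Module R A] (r : R) {φ : Coch (Q n) A n}
    (hφ : Coc one univ (bd n) φ) : Itg (r • φ) = r • Itg φ :=
  Itg_map (DistribSMul.toAddMonoidHom A r) hφ

theorem Itg_om {c : Fin n → ℝ} (hc : ∀ i, c i ∈ Ioo (-1 : ℝ) 1) (a : A) :
    Itg (smulC (om n c) a) = a := by
  apply Itg_eq
  refine om_move_smul n hc (fun i => ?_) a
  rw [Pi.zero_apply]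
  constructor <;> norm_num

end PoolFbd
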