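import Pool.Agent.Work.MP_fbd21a_gt.StDefs

/-! The rational Alexander polynomial of a group with a distinguished element (for a knot group: a
meridian). -/

set_option autoImplicit false

namespace PoolFbd

/-- The homomorphisms from the commutator subgroup of `G` to `ℚ`: the dual of the rationalised
abelianisation of `[G, G]`. For a knot group this is the dual of the first rational homology of
the infinite cyclic cover of the complement. -/
abbrev CommDual (G : Type) [Group G] : Type := Additive (commutator G) →+ ℚ

/-- The rational Alexander module is finite dimensional. -/
def FinAlex (G : Type) [Group G] : Prop := Module.Finite ℚ (CommDual G)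

/-- Conjugation `h ↦ m h m⁻¹` on the commutator subgroup. -/
def conjHom {G : Type} [Group G] (m : G) : Additive (commutator G) →+ Additive (commutator G) where
  toFun h := Additive.ofMul ⟨m * h.toMul.1 * m⁻¹,
    (inferInstance : (commutator G).Normal).conj_mem _ h.toMul.2 m⟩
  map_zero' := by
    apply Additive.toMul.injective
    apply Subtype.ext
    show m * 1 * m⁻¹ = 1
    rw [mul_one, mul_inv_cancel]
  map_add' a b := by
    apply Additive.toMul.injective
    apply Subtype.ext
    show m * (a.toMul.1 * b.toMul.1) * m⁻¹ = m * a.toMul.1 * m⁻¹ * (m * b.toMul.1 * m⁻¹)
    group

/-- The map that conjugation by `m` induces on `CommDual G`; for a knot group and a meridian `m`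
it is the deck transformation of the infinite cyclic cover. -/
def deck {G : Type} [Group G] (m : G) : CommDual G →ₗ[ℚ] CommDual G where
  toFun χ := χ.comp (conjHom m)
  map_add' _ _ := rfl
  map_smul' _ _ := rfl

open Classical in
/-- The rational Alexander polynomial, up to a unit of `ℚ[t, t⁻¹]`: the characteristic polynomial
of the deck transformation, if `CommDual G` is finite dimensional. -/
noncomputable def alexPoly (G : Type) [Group G] (m : G) : Polynomial ℚ :=
  if _ : Module.Finite ℚ (CommDual G) then (deck m).charpoly else 0

end PoolFbd
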