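import Pool.Agent.Work.MP_fbd21a_gt.Basic

/-! MODULE Cup. Leibniz rule for the twisted cup product
(c ∪ φ)(t0..tn) = c(t0..tq) • τ(t0,tq) • φ(tq..tn), c twisted by invt τ, φ twisted by τ. -/

open Topology Filter Set

namespace PoolFbd

private def dl (i j : ℕ) : ℕ := if j < i then j else j + 1

private theorem sA_val' {m : ℕ} (p : Fin (m + 1)) (j : Fin m) :
    ((p.succAbove j : Fin (m + 1)) : ℕ) = dl p j := by
  simp only [dl, Fin.succAbove, Fin.lt_def, Fin.val_castSucc]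
  split_ifs <;> simp

private theorem dd_nat {E A G : Type*} [AddCommGroup A] [CommGroup G] [DistribMulAction G A]
    (τ : E → E → G) {n : ℕ} (φ : Coch E A n) (v : ℕ → E) :
    dd τ φ (fun j => v j) = τ (v 0) (v 1) • φ (fun j => v (j + 1)) +
      ∑ i ∈ Finset.range (n + 1), (-1 : ℤ) ^ (i + 1) • φ (fun j => v (dl (i + 1) j)) := by
  rw [Finset.sum_range]
  simp only [dd, sA_val', Fin.val_succ]
  congr 1

private theorem dd_nat_one {E A : Type*} [AddCommGroup A]
    {n : ℕ} (φ : Coch E A n) (v : ℕ → E) :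
    dd one φ (fun j => v j) = φ (fun j => v (j + 1)) +
      ∑ i ∈ Finset.range (n + 1), (-1 : ℤ) ^ (i + 1) • φ (fun j => v (dl (i + 1) j)) := by
  rw [dd_nat]
  simp [one]

private theorem cup_nat {E R D : Type*} [CommRing R] [AddCommGroup D] [Module R D] {q p n : ℕ}
    (h : q + p = n) (τ : E → E → Rˣ) (c : Coch E R q) (φ : Coch E D p) (v : ℕ → E) :
    cup h τ c φ (fun j => v j) = c (fun k => v k) •
      (τ (v 0) (v q) • φ (fun j => v (q + j))) := rfl

theorem dd_cup_apply {E R D : Type*} [CommRing R] [AddCommGroup D] [Module R D] {q p n : ℕ}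
    (h : q + p = n) (h1 : q + 1 + p = n + 1) (h2 : q + (p + 1) = n + 1) (τ : E → E → Rˣ)
    (c : Coch E R q) (φ : Coch E D p) (t : Fin (n + 1 + 1) → E)
    (ht : ∀ i j k, τ (t i) (t j) * τ (t j) (t k) = τ (t i) (t k)) :
    dd one (cup h τ c φ) t =
      cup h1 τ (dd (invt τ) c) φ t + (-1 : ℤ) ^ q • cup h2 τ c (dd τ φ) t := by
  subst h
  obtain ⟨u, hu, hτ⟩ : ∃ u : ℕ → E, t = (fun j : Fin (q + p + 1 + 1) => u j) ∧
      ∀ i j k, τ (u i) (u j) * τ (u j) (u k) = τ (u i) (u k) := by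
    refine ⟨fun i => if hi : i < q + p + 1 + 1 then t ⟨i, hi⟩ else t 0, ?_, ?_⟩
    · funext j
      dsimp only
      rw [dif_pos j.2]
    · intro i j k
      dsimp only
      split_ifs <;> exact ht _ _ _
  subst hu
  rw [dd_nat_one, cup_nat h1, cup_nat h2, dd_nat (invt τ) c u, dd_nat τ φ (fun j => u (q + j))]
  have e0 : cup rfl τ c φ (fun j : Fin (q + p + 1) => u (j + 1)) = c (fun k => u (k + 1)) •
      (τ (u 1) (u (q + 1)) • φ (fun j => u (q + 1 + j))) := by
    rw [cup_nat rfl τ c φ (fun j => u (j + 1))]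
    have : ∀ j : ℕ, q + j + 1 = q + 1 + j := fun j => by omega
    simp only [this, zero_add]
  have e1 : ∀ i ∈ Finset.range q, (-1 : ℤ) ^ (i + 1) •
      cup rfl τ c φ (fun j : Fin (q + p + 1) => u (dl (i + 1) j)) =
      ((-1 : ℤ) ^ (i + 1) • c (fun k => u (dl (i + 1) k))) •
      (τ (u 0) (u (q + 1)) • φ (fun j => u (q + 1 + j))) := by
    intro i hi
    rw [Finset.mem_range] at hi
    rw [cup_nat rfl τ c φ (fun j => u (dl (i + 1) j))]
    have a1 : dl (i + 1) 0 = 0 := by simp [dl]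
    have a2 : dl (i + 1) q = q + 1 := by unfold dl; rw [if_neg (by omega)]
    have a3 : ∀ j : ℕ, dl (i + 1) (q + j) = q + 1 + j := fun j => by
      unfold dl; rw [if_neg (by omega)]; omega
    simp only [a1, a2, a3]
    rw [smul_assoc]
  have e2 : ∀ k : ℕ, (-1 : ℤ) ^ (q + k + 1) •
      cup rfl τ c φ (fun j : Fin (q + p + 1) => u (dl (q + k + 1) j)) =
      (-1 : ℤ) ^ q • (c (fun k => u k) • (τ (u 0) (u q) •
        ((-1 : ℤ) ^ (k + 1) • φ (fun j => u (q + dl (k + 1) j))))) := by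
    intro k
    rw [cup_nat rfl τ c φ (fun j => u (dl (q + k + 1) j))]
    have a1 : dl (q + k + 1) 0 = 0 := by simp [dl]
    have a2 : dl (q + k + 1) q = q := by unfold dl; rw [if_pos (by omega)]
    have a3 : ∀ j : ℕ, dl (q + k + 1) (q + j) = q + dl (k + 1) j := fun j => by
      unfold dl; split_ifs <;> omega
    have a4 : ∀ j : Fin (q + 1), dl (q + k + 1) j = j := fun j => by
      have := j.2
      unfold dl; rw [if_pos (by omega)]
    simp only [a1, a2, a3, a4]
    rw [smul_comm (τ (u 0) (u q)) ((-1 : ℤ) ^ (k + 1)), smul_comm (c _) ((-1 : ℤ) ^ (k + 1)),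
      smul_smul, ← pow_add]
    congr 2
  have e3 : c (fun k : Fin (q + 1) => u (dl (q + 1) k)) = c (fun k => u k) := by
    congr 1
    funext k
    have := k.2
    unfold dl; rw [if_pos (by omega)]
  have e4 : φ (fun j : Fin (p + 1) => u (q + (j + 1))) = φ (fun j => u (q + 1 + j)) := by
    congr 1
    funext j
    congr 1
    omega
  have hsum : ∑ i ∈ Finset.range (q + p + 1), (-1 : ℤ) ^ (i + 1) •
      cup rfl τ c φ (fun j : Fin (q + p + 1) => u (dl (i + 1) j)) =
      (∑ i ∈ Finset.range q, (-1 : ℤ) ^ (i + 1) •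
      cup rfl τ c φ (fun j : Fin (q + p + 1) => u (dl (i + 1) j))) +
      ∑ k ∈ Finset.range (p + 1), (-1 : ℤ) ^ (q + k + 1) •
      cup rfl τ c φ (fun j : Fin (q + p + 1) => u (dl (q + k + 1) j)) :=
    Finset.sum_range_add (fun i => (-1 : ℤ) ^ (i + 1) •
      cup rfl τ c φ (fun j : Fin (q + p + 1) => u (dl (i + 1) j))) q (p + 1)
  rw [e0, hsum, Finset.sum_congr rfl e1,
    Finset.sum_congr rfl (fun k _ => e2 k), Finset.sum_range_succ _ q, e3, e4]
  simp only [add_smul, Finset.sum_smul, smul_add, Finset.smul_sum, add_zero]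
  have f1 : (invt τ (u 0) (u 1) • c (fun k : Fin (q + 1) => u (k + 1))) •
      τ (u 0) (u (q + 1)) • φ (fun j => u (q + 1 + j)) = c (fun k => u (k + 1)) •
      (τ (u 1) (u (q + 1)) • φ (fun j => u (q + 1 + j))) := by
    rw [← hτ 0 1 (q + 1)]
    simp only [invt, Units.smul_def, smul_smul, smul_eq_mul, Units.val_mul]
    congr 1
    rw [mul_comm _ (c _), mul_assoc]
    congr 1
    rw [← mul_assoc]
    simp
  have f2 : ((-1 : ℤ) ^ (q + 1) • c (fun k : Fin (q + 1) => u k)) •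
      τ (u 0) (u (q + 1)) • φ (fun j => u (q + 1 + j)) = - ((-1 : ℤ) ^ q • (c (fun k => u k) •
      (τ (u 0) (u q) • τ (u q) (u (q + 1)) • φ (fun j => u (q + 1 + j))))) := by
    rw [← hτ 0 q (q + 1), mul_smul, pow_succ, smul_assoc]
    simp
  rw [f1, f2]
  abel

end PoolFbd
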