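import Pool.Agent.Work.MP_fbd21a_gt.Basic

/-! MODULE Glue. Cutting and gluing cochains (this replaces partitions of unity).
PROOF of glue_cut. Put D1 = S₁ \ S₂, D2 = S₂ \ S₁. If D2 = ∅ take A = univ, if D1 = ∅ take A = ∅,
else A = {y | infDist y D1 ≤ infDist y D2}. -/

open Topology Filter Set

namespace PoolFbd

theorem glue_cut {E : Type*} [PseudoMetricSpace E] {S₁ S₂ : Set E} (h : Sepd S₁ S₂) :
    ∃ A : Set E, (∀ x ∈ S₁ \ S₂, ∀ᶠ y in 𝓝 x, y ∈ A) ∧ (∀ x ∈ S₂ \ S₁, ∀ᶠ y in 𝓝 x, y ∉ A) := by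
  rcases (S₂ \ S₁).eq_empty_or_nonempty with h2 | h2
  · exact ⟨univ, fun x _ => by simp, fun x hx => by rw [h2] at hx; exact hx.elim⟩
  rcases (S₁ \ S₂).eq_empty_or_nonempty with h1 | h1
  · exact ⟨∅, fun x hx => by rw [h1] at hx; exact hx.elim, fun x _ => by simp⟩
  refine ⟨{y | Metric.infDist y (S₁ \ S₂) ≤ Metric.infDist y (S₂ \ S₁)}, fun x hx => ?_,
    fun x hx => ?_⟩
  · have a1 : Metric.infDist x (S₁ \ S₂) = 0 := Metric.infDist_zero_of_mem hx
    have a2 : 0 < Metric.infDist x (S₂ \ S₁) :=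
      (Metric.infDist_pos_iff_notMem_closure h2).1 (h.1 x hx)
    have a3 : Metric.infDist x (S₁ \ S₂) < Metric.infDist x (S₂ \ S₁) := by rw [a1]; exact a2
    have := (Metric.continuous_infDist_pt (S₁ \ S₂)).continuousAt.eventually_lt
      (Metric.continuous_infDist_pt (S₂ \ S₁)).continuousAt a3
    filter_upwards [this] with y hy
    exact hy.le
  · have a1 : Metric.infDist x (S₂ \ S₁) = 0 := Metric.infDist_zero_of_mem hx
    have a2 : 0 < Metric.infDist x (S₁ \ S₂) :=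
      (Metric.infDist_pos_iff_notMem_closure h1).1 (h.2 x hx)
    have a3 : Metric.infDist x (S₂ \ S₁) < Metric.infDist x (S₁ \ S₂) := by rw [a1]; exact a2
    have := (Metric.continuous_infDist_pt (S₂ \ S₁)).continuousAt.eventually_lt
      (Metric.continuous_infDist_pt (S₁ \ S₂)).continuousAt a3
    filter_upwards [this] with y hy
    simpa using hy

theorem glue {E A : Type*} [PseudoMetricSpace E] [AddCommGroup A] {S₁ S₂ : Set E}
    (h : Sepd S₁ S₂) {n : ℕ} (a b : Coch E A n) (hab : LZ (S₁ ∩ S₂) (a - b)) :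
    ∃ c : Coch E A n, LZ S₁ (c - a) ∧ LZ S₂ (c - b) := by
  classical
  obtain ⟨K, hK1, hK2⟩ := glue_cut h
  have ht : ∀ x : E, Tendsto (fun t : Fin (n + 1) → E => t 0) (𝓝 (fun _ => x)) (𝓝 x) :=
    fun x => (continuous_apply (0 : Fin (n + 1))).tendsto (fun _ => x)
  refine ⟨fun t => if t 0 ∈ K then a t else b t, fun x hx => ?_, fun x hx => ?_⟩
  · by_cases h2 : x ∈ S₂
    · filter_upwards [hab x ⟨hx, h2⟩] with t hab'
      have e : a t = b t := by simpa [sub_eq_zero] using hab'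
      simp only [Pi.sub_apply]
      split_ifs
      · simp
      · simp [e]
    · filter_upwards [(ht x).eventually (hK1 x ⟨hx, h2⟩)] with t htK
      simp [htK]
  · by_cases h1 : x ∈ S₁
    · filter_upwards [hab x ⟨h1, hx⟩] with t hab'
      have e : a t = b t := by simpa [sub_eq_zero] using hab'
      simp only [Pi.sub_apply]
      split_ifs
      · simp [e]
      · simp
    · filter_upwards [(ht x).eventually (hK2 x ⟨hx, h1⟩)] with t htK
      simp [htK]

theorem glue_zero {E A : Type*} [PseudoMetricSpace E] [AddCommGroup A] {S₁ S₂ Z : Set E}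
    (h : Sepd S₁ S₂) {n : ℕ} (a b : Coch E A n) (hab : LZ (S₁ ∩ S₂) (a - b))
    (hZ : Z ⊆ S₁ ∪ S₂) (ha : LZ (S₁ ∩ Z) a) (hb : LZ (S₂ ∩ Z) b) :
    ∃ c : Coch E A n, LZ S₁ (c - a) ∧ LZ S₂ (c - b) ∧ LZ Z c := by
  obtain ⟨c, h1, h2⟩ := glue h a b hab
  refine ⟨c, h1, h2, fun x hx => ?_⟩
  rcases hZ hx with h' | h'
  · filter_upwards [h1 x h', ha x ⟨h', hx⟩] with t e1 e2
    have : c t - a t = 0 := e1
    rw [e2, sub_zero] at this
    exact this
  · filter_upwards [h2 x h', hb x ⟨h', hx⟩] with t e1 e2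
    have : c t - b t = 0 := e1
    rw [e2, sub_zero] at this
    exact this

end PoolFbd
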