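import Pool.Agent.Work.MP_fbd21a_gt.Basic

/-! MODULE Unif. A germ which vanishes along a compact set vanishes at a uniform scale. -/

open Topology Filter Set

namespace PoolFbd

private theorem zeroAt_iff {E A : Type*} [PseudoMetricSpace E] [AddCommGroup A] {n : ℕ}
    {φ : Coch E A n} {x : E} (h : ZeroAt φ x) :
    ∃ ε > 0, ∀ t : Fin (n + 1) → E, (∀ i, dist (t i) x < ε) → φ t = 0 := by
  obtain ⟨ε, h0, h1⟩ := Metric.eventually_nhds_iff.1 h
  refine ⟨ε, h0, fun t ht => h1 ?_⟩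
  rw [dist_pi_lt_iff h0]
  exact ht

theorem LZ.unif {E A : Type*} [PseudoMetricSpace E] [AddCommGroup A] {S : Set E}
    (hS : IsCompact S) {n : ℕ} {φ : Coch E A n} (h : LZ S φ) :
    ∃ ε > 0, ∀ x ∈ S, ∀ t : Fin (n + 1) → E, (∀ i, dist (t i) x < ε) → φ t = 0 := by
  choose! r hr0 hr using fun (x : E) (hx : x ∈ S) => zeroAt_iff (h x hx)
  obtain ⟨δ, hδ, hL⟩ := lebesgue_number_lemma_of_metric (s := S)
    (c := fun x : S => Metric.ball (x : E) (r x / 2)) hS (fun _ => Metric.isOpen_ball)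
    (fun x hx => mem_iUnion.2 ⟨⟨x, hx⟩, Metric.mem_ball_self (half_pos (hr0 x hx))⟩)
  refine ⟨δ, hδ, fun x hx t ht => ?_⟩
  obtain ⟨y, hy⟩ := hL x hx
  refine hr y y.2 t fun i => ?_
  have h1 : t i ∈ Metric.ball (y : E) (r y / 2) := hy (Metric.mem_ball.2 (ht i))
  have h2 := Metric.mem_ball.1 h1
  have h3 := hr0 y y.2
  linarith

/-- A germ along a compact set vanishes near all points of a neighbourhood of it. -/
theorem LZ.thick {E A : Type*} [PseudoMetricSpace E] [AddCommGroup A] {S : Set E}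
    {n : ℕ} {φ : Coch E A n} (h : LZ S φ) : ∃ N : Set E, IsOpen N ∧ S ⊆ N ∧ LZ N φ := by
  refine ⟨{x | ZeroAt φ x}, ?_, fun x hx => h x hx, fun x hx => hx⟩
  rw [isOpen_iff_mem_nhds]
  intro x hx
  obtain ⟨ε, h0, h1⟩ := zeroAt_iff (hx : ZeroAt φ x)
  refine Filter.mem_of_superset (Metric.ball_mem_nhds x (half_pos h0)) fun y hy => ?_
  have hy' : dist y x < ε / 2 := hy
  change ∀ᶠ t in 𝓝 (fun _ : Fin (n + 1) => y), φ t = 0
  rw [Metric.eventually_nhds_iff]
  refine ⟨ε / 2, half_pos h0, fun t ht => h1 t fun i => ?_⟩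
  rw [dist_pi_lt_iff (half_pos h0)] at ht
  have := ht i
  have h3 := dist_triangle (t i) y x
  linarith

end PoolFbd
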