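import Pool.Agent.Work.MP_fbd21a_gt.Pris
import Pool.Agent.Work.MP_fbd21a_gt.Unif

/-! MODULE Contr. A compact set which contracts inside itself is acyclic. -/

open Topology Filter Set

namespace PoolFbd

private theorem LZ_prism_unif {E A : Type*} [PseudoMetricSpace E] [AddCommGroup A] {S : Set E}
    {m : ℕ} {χ : Coch E A (m + 1)} {ε : ℝ} (hε : 0 < ε)
    (hχ : ∀ x ∈ S, ∀ t : Fin (m + 1 + 1) → E, (∀ i, dist (t i) x < ε) → χ t = 0)
    {f g : E → E} (hf : Continuous f) (hg : Continuous g)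
    (hS : ∀ x ∈ S, f x ∈ S ∧ dist (g x) (f x) < ε) : LZ S (prism f g χ) := by
  intro x hx
  have h1 : ∀ᶠ y in 𝓝 x, dist (f y) (f x) < ε ∧ dist (g y) (f x) < ε := by
    refine Filter.Eventually.and ?_ ?_
    · exact (hf.dist continuous_const).continuousAt.eventually_lt continuousAt_const
        (by simpa using hε)
    · exact (hg.dist continuous_const).continuousAt.eventually_lt continuousAt_const (hS x hx).2
  have h2 : ∀ᶠ t in 𝓝 (fun _ : Fin (m + 1) => x), ∀ k : Fin (m + 1),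
      dist (f (t k)) (f x) < ε ∧ dist (g (t k)) (f x) < ε := by
    rw [eventually_all]
    exact fun k => ((continuous_apply k).tendsto (fun _ : Fin (m + 1) => x)).eventually h1
  filter_upwards [h2] with t ht
  have h3 : ∀ i : Fin (m + 1), χ (fun j => if j ≤ i.castSucc then f (t (i.predAbove j)) else
      g (t (i.predAbove j))) = 0 := by
    intro i
    refine hχ (f x) (hS x hx).1 _ fun j => ?_
    split_ifs
    · exact (ht _).1
    · exact (ht _).2
  simp [prism, h3]

private theorem step_zero {E A : Type*} [PseudoMetricSpace E] [AddCommGroup A] {S : Set E}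
    {φ : Coch E A 0} {ε : ℝ} (hε : 0 < ε)
    (hχ : ∀ x ∈ S, ∀ t : Fin (0 + 1 + 1) → E, (∀ i, dist (t i) x < ε) → dd one φ t = 0)
    {f g : E → E} (hf : Continuous f) (hg : Continuous g)
    (hS : ∀ x ∈ S, f x ∈ S ∧ dist (g x) (f x) < ε) : LZ S (pb g φ - pb f φ) := by
  intro x hx
  filter_upwards [LZ_prism_unif hε hχ hf hg hS x hx] with t ht
  rw [prism_zero] at ht
  simpa [one] using ht

private theorem step_succ {E A : Type*} [PseudoMetricSpace E] [AddCommGroup A] {S : Set E}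
    {n : ℕ} {φ : Coch E A (n + 1)} {ε : ℝ} (hε : 0 < ε)
    (hχ : ∀ x ∈ S, ∀ t : Fin (n + 1 + 1 + 1) → E, (∀ i, dist (t i) x < ε) → dd one φ t = 0)
    {f g : E → E} (hf : Continuous f) (hg : Continuous g)
    (hS : ∀ x ∈ S, f x ∈ S ∧ dist (g x) (f x) < ε) : Cob one S ∅ (pb g φ - pb f φ) := by
  refine ⟨prism f g φ, LZ.empty _, fun x hx => ?_⟩
  filter_upwards [LZ_prism_unif hε hχ hf hg hS x hx] with t ht
  have h1 := prism_succ f g one φ t
  rw [ht, add_zero, pbt_one] at h1
  simp only [Pi.sub_apply]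
  rw [h1]
  simp [one]

private theorem cst_dd {E A : Type*} [AddCommGroup A] (n : ℕ) (v : A) (t : Fin (n + 1 + 1) → E) :
    dd one (cst E n v) t = if Even (n + 1 + 1) then 0 else v := by
  have h : dd one (cst E n v) t = (∑ i : Fin (n + 1 + 1), (-1 : ℤ) ^ (i : ℕ)) • v := by
    rw [Fin.sum_univ_succ, add_smul, Finset.sum_smul]
    simp [dd, cst, one]
  rw [h, Fin.sum_neg_one_pow]
  split_ifs <;> simp

theorem acyc_of_contraction {E : Type*} [PseudoMetricSpace E] {S : Set E} (hS : IsCompact S)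
    {x₀ : E} (hx₀ : x₀ ∈ S) (c : ℝ → E → E) (hc : Continuous (fun p : ℝ × E => c p.1 p.2))
    (h0 : ∀ x, c 0 x = x) (h1 : ∀ x, c 1 x = x₀)
    (hcS : ∀ s ∈ Icc (0 : ℝ) 1, ∀ x ∈ S, c s x ∈ S) : Acyc S := by
  -- subdivision
  have hsub : ∀ ε : ℝ, 0 < ε → ∃ N : ℕ, 0 < N ∧ ∀ j < N, ∀ x ∈ S,
      dist (c ((j + 1 : ℕ) / N) x) (c ((j : ℕ) / N) x) < ε := by
    intro ε hε
    have hK : IsCompact (Icc (0 : ℝ) 1 ×ˢ S) := isCompact_Icc.prod hS
    have hu := hK.uniformContinuousOn_of_continuous hc.continuousOn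
    rw [Metric.uniformContinuousOn_iff] at hu
    obtain ⟨δ, hδ, hu⟩ := hu ε hε
    obtain ⟨N, hN⟩ := exists_nat_one_div_lt hδ
    refine ⟨N + 1, by omega, fun j hj x hx => ?_⟩
    have hNpos : (0 : ℝ) < ((N + 1 : ℕ) : ℝ) := by positivity
    have hj1 : (((j + 1 : ℕ) : ℝ) / (N + 1 : ℕ)) ∈ Icc (0 : ℝ) 1 :=
      ⟨by positivity, by rw [div_le_one hNpos]; exact_mod_cast (by omega : j + 1 ≤ N + 1)⟩
    have hj2 : (((j : ℕ) : ℝ) / (N + 1 : ℕ)) ∈ Icc (0 : ℝ) 1 :=
      ⟨by positivity, by rw [div_le_one hNpos]; exact_mod_cast (by omega : j ≤ N + 1)⟩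
    refine hu (((j + 1 : ℕ) : ℝ) / (N + 1 : ℕ), x) ⟨hj1, hx⟩ (((j : ℕ) : ℝ) / (N + 1 : ℕ), x)
      ⟨hj2, hx⟩ ?_
    rw [Prod.dist_eq, dist_self, max_eq_left dist_nonneg, Real.dist_eq]
    have : ((j + 1 : ℕ) : ℝ) / (N + 1 : ℕ) - ((j : ℕ) : ℝ) / (N + 1 : ℕ) = 1 / ((N : ℝ) + 1) := by
      push_cast
      ring
    rw [this, abs_of_pos (by positivity)]
    exact hN
  have hcc : ∀ s, Continuous (c s) := fun s =>
    hc.comp (continuous_const.prodMk continuous_id)
  refine ⟨⟨x₀, hx₀⟩, fun A _ => ⟨fun φ hφ => ?_, fun n φ hφ => ?_⟩⟩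
  · obtain ⟨ε, hε, hu⟩ := LZ.unif hS hφ
    obtain ⟨N, hN, hNs⟩ := hsub ε hε
    refine ⟨φ (fun _ => x₀), ?_⟩
    have hind : ∀ j ≤ N, LZ S (pb (c ((j : ℕ) / N)) φ - φ) := by
      intro j
      induction j with
      | zero =>
        intro _
        have : pb (c (((0 : ℕ) : ℝ) / N)) φ - φ = 0 := by
          funext t
          simp [pb, h0]
        rw [this]
        exact LZ.zero S
      | succ j ih =>
        intro hj
        have hj' : (((j : ℕ) : ℝ) / N) ∈ Icc (0 : ℝ) 1 :=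
          ⟨by positivity, by rw [div_le_one (by exact_mod_cast hN)]; exact_mod_cast (by omega : j ≤ N)⟩
        have h3 := step_zero hε hu (hcc ((j : ℕ) / N)) (hcc ((j + 1 : ℕ) / N))
          (fun x hx => ⟨hcS _ hj' x hx, hNs j (by omega) x hx⟩)
        exact LZ.trans h3 (ih (by omega))
    have h4 := (hind N le_rfl).symm
    have h5 : pb (c ((N : ℕ) / N)) φ = cst E 0 (φ (fun _ => x₀)) := by
      funext t
      have : ((N : ℕ) : ℝ) / N = 1 := div_self (by exact_mod_cast hN.ne')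
      simp only [pb, cst, this, h1]
    rwa [h5] at h4
  · obtain ⟨ε, hε, hu⟩ := LZ.unif hS hφ
    obtain ⟨N, hN, hNs⟩ := hsub ε hε
    have hind : ∀ j ≤ N, Cob one S ∅ (pb (c ((j : ℕ) / N)) φ - φ) := by
      intro j
      induction j with
      | zero =>
        intro _
        have : pb (c (((0 : ℕ) : ℝ) / N)) φ - φ = 0 := by
          funext t
          simp [pb, h0]
        rw [this]
        exact Cob.zero _ _ _
      | succ j ih =>
        intro hj
        have hj' : (((j : ℕ) : ℝ) / N) ∈ Icc (0 : ℝ) 1 :=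
          ⟨by positivity, by rw [div_le_one (by exact_mod_cast hN)]; exact_mod_cast (by omega : j ≤ N)⟩
        have h3 := step_succ hε hu (hcc ((j : ℕ) / N)) (hcc ((j + 1 : ℕ) / N))
          (fun x hx => ⟨hcS _ hj' x hx, hNs j (by omega) x hx⟩)
        exact Cob.trans h3 (ih (by omega))
    have h4 := hind N le_rfl
    have h5 : pb (c ((N : ℕ) / N)) φ = cst E (n + 1) (φ (fun _ => x₀)) := by
      funext t
      have : ((N : ℕ) : ℝ) / N = 1 := div_self (by exact_mod_cast hN.ne')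
      simp only [pb, cst, this, h1]
    rw [h5] at h4
    have h6 : dd one φ (fun _ => x₀) = 0 := (hφ x₀ hx₀).self_of_nhds
    have h7 : dd one φ (fun _ => x₀) = dd one (cst E (n + 1) (φ (fun _ => x₀))) (fun _ => x₀) := rfl
    rw [h7, cst_dd] at h6
    have h8 : Cob one S ∅ (cst E (n + 1) (φ (fun _ => x₀))) := by
      by_cases hn : Even (n + 1 + 1 + 1)
      · refine ⟨cst E n (φ (fun _ => x₀)), LZ.empty _, ?_⟩
        have : cst E (n + 1) (φ (fun _ => x₀)) - dd one (cst E n (φ (fun _ => x₀))) = 0 := by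
          funext t
          simp only [Pi.sub_apply, cst_dd]
          rw [if_neg (by rw [Nat.even_add_one] at hn; exact hn)]
          simp [cst]
        rw [this]
        exact LZ.zero S
      · rw [if_neg hn] at h6
        have : cst E (n + 1) (φ (fun _ => x₀)) = 0 := by
          funext t
          simpa [cst] using h6
        rw [this]
        exact Cob.zero _ _ _
    have h9 := h8.sub h4
    simpa using h9

end PoolFbd
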