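import Pool.Agent.Work.MP_fbd21a_gt.Pris

/-! MODULE Ret. Contiguous maps: two maps which agree on S and are continuous at the points of S
induce the same map in cohomology along S (twisted: up to the gauge transformation
y ↦ τ(f y, g y)). -/

open Topology Filter Set

namespace PoolFbd

private theorem LZ_prism {E E' A : Type*} [TopologicalSpace E] [TopologicalSpace E']
    [AddCommGroup A] {f g : E → E'} {S : Set E} {S' : Set E'}
    (hf : ∀ x ∈ S, ContinuousAt f x) (hg : ∀ x ∈ S, ContinuousAt g x)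
    (hfg : ∀ x ∈ S, f x = g x) (hS : ∀ x ∈ S, f x ∈ S') {n : ℕ} {χ : Coch E' A (n + 1)}
    (h : LZ S' χ) : LZ S (prism f g χ) := by
  intro x hx
  have ht : ∀ i : Fin (n + 1), Tendsto (fun (t : Fin (n + 1) → E) (j : Fin (n + 1 + 1)) =>
      if j ≤ i.castSucc then f (t (i.predAbove j)) else g (t (i.predAbove j)))
      (𝓝 (fun _ => x)) (𝓝 (fun _ => f x)) := by
    intro i
    rw [tendsto_pi_nhds]
    intro j
    have hj : Tendsto (fun t : Fin (n + 1) → E => t (i.predAbove j)) (𝓝 (fun _ => x)) (𝓝 x) :=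
      (continuous_apply (i.predAbove j)).tendsto (fun _ => x)
    by_cases hji : j ≤ i.castSucc
    · simp only [hji, if_true]
      exact (hf x hx).tendsto.comp hj
    · simp only [hji, if_false]
      rw [hfg x hx]
      exact (hg x hx).tendsto.comp hj
  have h2 : ∀ᶠ t in 𝓝 (fun _ : Fin (n + 1) => x), ∀ i : Fin (n + 1),
      χ (fun j => if j ≤ i.castSucc then f (t (i.predAbove j)) else g (t (i.predAbove j))) = 0 := by
    rw [eventually_all]
    exact fun i => (ht i).eventually (h (f x) (hS x hx))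
  filter_upwards [h2] with t h3
  simp [prism, h3]

theorem ret {E E' A G : Type*} [TopologicalSpace E] [TopologicalSpace E'] [AddCommGroup A]
    [CommGroup G] [DistribMulAction G A] {f g : E → E'} {S Z : Set E} {S' Z' : Set E'}
    (hf : ∀ x ∈ S ∪ Z, ContinuousAt f x) (hg : ∀ x ∈ S ∪ Z, ContinuousAt g x)
    (hfg : ∀ x ∈ S ∪ Z, f x = g x) (hS : ∀ x ∈ S, f x ∈ S') (hZ : ∀ x ∈ Z, f x ∈ Z')
    {τ : E' → E' → G} {n : ℕ} {φ : Coch E' A n} (hφ : Coc τ S' Z' φ) :
    Cob (pbt f τ) S Z (pb f φ - gau (fun y => τ (f y) (g y)) (pb g φ)) := by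
  have hd : LZ S (prism f g (dd τ φ)) :=
    LZ_prism (fun x hx => hf x (Or.inl hx)) (fun x hx => hg x (Or.inl hx))
      (fun x hx => hfg x (Or.inl hx)) hS hφ.2
  cases n with
  | zero =>
    intro x hx
    filter_upwards [hd x hx] with t ht
    rw [prism_zero, sub_eq_zero] at ht
    simp only [Pi.sub_apply, gau]
    rw [← ht, sub_self]
  | succ n =>
    refine ⟨-prism f g φ, ?_, ?_⟩
    · exact (LZ_prism (fun x hx => hf x (Or.inr hx)) (fun x hx => hg x (Or.inr hx))
        (fun x hx => hfg x (Or.inr hx)) hZ hφ.1).neg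
    · intro x hx
      filter_upwards [hd x hx] with t ht
      have h1 := prism_succ f g τ φ t
      rw [ht, add_zero] at h1
      rw [dd_neg]
      simp only [Pi.sub_apply, Pi.neg_apply, gau]
      rw [h1]
      abel

theorem ret_one {E E' A : Type*} [TopologicalSpace E] [TopologicalSpace E'] [AddCommGroup A]
    {f g : E → E'} {S Z : Set E} {S' Z' : Set E'}
    (hf : ∀ x ∈ S ∪ Z, ContinuousAt f x) (hg : ∀ x ∈ S ∪ Z, ContinuousAt g x)
    (hfg : ∀ x ∈ S ∪ Z, f x = g x) (hS : ∀ x ∈ S, f x ∈ S') (hZ : ∀ x ∈ Z, f x ∈ Z')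
    {n : ℕ} {φ : Coch E' A n} (hφ : Coc one S' Z' φ) :
    Cob one S Z (pb f φ - pb g φ) := by
  have h := ret hf hg hfg hS hZ hφ
  have e : gau (fun y => (one : E' → E' → ℤˣ) (f y) (g y)) (pb g φ) = pb g φ := by
    funext t
    simp [gau, one]
  rw [e, pbt_one] at h
  exact h

theorem taut_inj {E E' A : Type*} [TopologicalSpace E] [TopologicalSpace E'] [AddCommGroup A]
    {f : E → E'} {g : E' → E} {S Z : Set E} {S' Z' : Set E'}
    (hf : ∀ x ∈ S ∪ Z, ContinuousAt f x) (hg : ∀ x ∈ S' ∪ Z', ContinuousAt g x)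
    (hS : ∀ x ∈ S, f x ∈ S') (hZ : ∀ x ∈ Z, f x ∈ Z')
    (hS' : ∀ x ∈ S', g x ∈ S) (hZ' : ∀ x ∈ Z', g x ∈ Z)
    (hgf : ∀ x ∈ S ∪ Z, g (f x) = x)
    {n : ℕ} {φ : Coch E A n} (hφ : Coc one S Z φ) (h : Cob one S' Z' (pb g φ)) :
    Cob one S Z φ := by
  have h1 : Cob one S Z (pb f (pb g φ)) := by
    have := Cob.pb (f := f) (S := S) (Z := Z)
      (fun x hx => ⟨hf x (Or.inl hx), hS x hx⟩) (fun x hx => ⟨hf x (Or.inr hx), hZ x hx⟩) h
    rwa [pbt_one] at this
  have hmem : ∀ x ∈ S ∪ Z, f x ∈ S' ∪ Z' := fun x hx => hx.elim (fun h => Or.inl (hS x h))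
    (fun h => Or.inr (hZ x h))
  have h2 : Cob one S Z (pb id φ - pb (fun x => g (f x)) φ) :=
    ret_one (S' := S) (Z' := Z) (f := id) (g := fun x => g (f x))
      (fun x _ => continuousAt_id)
      (fun x hx => (hg (f x) (hmem x hx)).comp (hf x hx))
      (fun x hx => (hgf x hx).symm) (fun x hx => hx) (fun x hx => hx) hφ
  have h3 : φ = (pb id φ - pb (fun x => g (f x)) φ) + pb f (pb g φ) := by
    funext t
    simp [pb]
  rw [h3]
  exact h2.add h1

end PoolFbd
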