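import Pool.Agent.Work.MP_fbd21a_gt.QDefs
import Pool.Agent.Work.MP_fbd21a_gt.Cup
import Pool.Agent.Work.MP_fbd21a_gt.DdDd

/-! MODULE OmCoc. The explicit cochain om n c(t) = ∏_i (st c_i (t_{i+1}(i)) - st c_i (t_i(i))).
PROOFS. om_supp: if some coordinate x_i of x differs from c_i then the step function
y ↦ st c_i (y i) is constant near x, so the i-th factor vanishes for all t near x.
om_bd: -1 < c_i < 1, so points of bd n are such.
om_dd: exact identity dd one (om n c) = 0 for all tuples. om n c is the cup product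
δs_1 ∪ ... ∪ δs_n. Induct on n: om (n+1) c (t) = om n c' (prq (t_0..t_n)) * (s(t_{n+1}) - s(t_n)),
s y = st (c last) (y last) (Fin.prod_univ_castSucc). Removing the vertex i ≤ n or i = n+1:
Σ_{i ≤ n} (-1)^i om n c'(..t̂i..t_{n+1}) (s(t_{n+2}) - s(t_{n+1})) + (-1)^{n+1} om n c'(t0..tn)
(s(t_{n+2}) - s(t_n)) + (-1)^{n+2} om n c'(t0..tn)(s(t_{n+1}) - s(t_n)); the last two add up to
(-1)^{n+1} om n c'(t0..tn) (s(t_{n+2}) - s(t_{n+1})), so the total is
(dd one (om n c'))(t0..t_{n+1}) * (s(t_{n+2}) - s(t_{n+1})) = 0 by induction. (n = 0: om = 1 and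
dd one (om 0 c) (t0,t1) = 1 - 1 = 0.) -/

open Topology Filter Set

namespace PoolFbd

/-- a function as a 0-cochain -/
def OmCoc_s0 {E : Type*} (s : E → ℤ) : Coch E ℤ 0 := fun t => s (t 0)

theorem OmCoc_ds {E : Type*} (s : E → ℤ) (t : Fin (0 + 1 + 1) → E) :
    dd one (OmCoc_s0 s) t = s (t 1) - s (t 0) := by
  simp [dd, one, OmCoc_s0, sub_eq_add_neg]

theorem OmCoc_invt {E : Type*} : invt (one : E → E → ℤˣ) = one := by
  funext x y
  simp [invt, one]

/-- Leibniz rule for a function -/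
theorem OmCoc_leib {E : Type*} {q n : ℕ} (h : q + 0 = n) (h1 : q + 1 + 0 = n + 1)
    (h2 : q + (0 + 1) = n + 1) (c : Coch E ℤ q) (s : E → ℤ) :
    dd one (cup h one c (OmCoc_s0 s)) =
      cup h1 one (dd one c) (OmCoc_s0 s) + (-1 : ℤ) ^ q • cup h2 one c (dd one (OmCoc_s0 s)) := by
  funext t
  have := dd_cup_apply h h1 h2 one c (OmCoc_s0 s) t (fun _ _ _ => by simp [one])
  rw [this, OmCoc_invt]
  rfl

/-- cup product with the coboundary of a function commutes with `dd` -/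
theorem OmCoc_peel {E : Type*} {q n : ℕ} (h : q + (0 + 1) = n)
    (h1 : q + 1 + (0 + 1) = n + 1) (c : Coch E ℤ q) (s : E → ℤ) :
    dd one (cup h one c (dd one (OmCoc_s0 s))) =
      cup h1 one (dd one c) (dd one (OmCoc_s0 s)) := by
  have h2 : q + (0 + 1 + 1) = n + 1 := by omega
  have h3 : dd one (dd one (OmCoc_s0 s)) = 0 := by
    funext t
    exact dd_dd_apply one (OmCoc_s0 s) t (by simp [one])
  funext t
  have := dd_cup_apply h h1 h2 one c (dd one (OmCoc_s0 s)) t (fun _ _ _ => by simp [one])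
  rw [this, OmCoc_invt, h3]
  simp [cup]

/-- the product cochain of a family of functions of one variable -/
def OmCoc_g (n : ℕ) (s : Fin n → ℝ → ℤ) : Coch (Q n) ℤ n :=
  fun t => ∏ i : Fin n, (s i (t i.succ i) - s i (t i.castSucc i))

theorem OmCoc_g_succ (n : ℕ) (s : Fin (n + 1) → ℝ → ℤ) :
    OmCoc_g (n + 1) s = cup (show n + (0 + 1) = n + 1 by omega) one
      (pb (prq n) (OmCoc_g n (fun i => s i.castSucc)))
      (dd one (OmCoc_s0 (fun y : Q (n + 1) => s (Fin.last n) (y (Fin.last n))))) := by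
  funext t
  simp only [cup, OmCoc_ds, OmCoc_g, pb, prq]
  rw [Fin.prod_univ_castSucc]
  simp only [one, one_smul, smul_eq_mul]
  congr 1

theorem OmCoc_g_dd (n : ℕ) (s : Fin n → ℝ → ℤ) : dd one (OmCoc_g n s) = 0 := by
  induction n with
  | zero =>
    funext t
    simp [dd, one, OmCoc_g]
  | succ n ih =>
    rw [OmCoc_g_succ, OmCoc_peel _ (by omega)]
    have e : dd one (pb (prq n) (OmCoc_g n (fun i => s i.castSucc))) =
        pb (prq n) (dd one (OmCoc_g n (fun i => s i.castSucc))) := rfl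
    rw [e, ih]
    funext t
    simp [cup, pb]

theorem OmCoc_g_supp (n : ℕ) (s : Fin n → ℝ → ℤ) :
    LZ {x : Q n | ∃ i, ∀ᶠ y in 𝓝 ((x i : ℝ)), s i y = s i (x i)} (OmCoc_g n s) := by
  rintro x ⟨i, hi⟩
  have h1 : ∀ j : Fin (n + 1), ∀ᶠ t in 𝓝 (fun _ : Fin (n + 1) => x),
      s i (t j i) = s i (x i) := by
    intro j
    have hc : ContinuousAt (fun t : Fin (n + 1) → Q n => ((t j i : Icc (-1 : ℝ) 1) : ℝ))
        (fun _ => x) :=
      (continuous_subtype_val.comp ((continuous_apply i).comp (continuous_apply j))).continuousAt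
    exact hc.eventually hi
  filter_upwards [h1 i.succ, h1 i.castSucc] with t a b
  exact Finset.prod_eq_zero (Finset.mem_univ i) (by rw [a, b, sub_self])

theorem OmCoc_om (n : ℕ) (c : Fin n → ℝ) : om n c = OmCoc_g n (fun i => st (c i)) := rfl

theorem OmCoc_st {c x : ℝ} (h : x ≠ c) : ∀ᶠ y in 𝓝 x, st c y = st c x := by
  rcases lt_or_gt_of_ne h with h | h
  · filter_upwards [Iio_mem_nhds h] with y hy
    have hy' : y < c := hy
    simp only [st]
    rw [if_neg (not_le.2 hy'), if_neg (not_le.2 h)]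
  · filter_upwards [Ioi_mem_nhds h] with y hy
    have hy' : c < y := hy
    simp only [st]
    rw [if_pos hy'.le, if_pos (le_of_lt h)]

theorem om_supp (n : ℕ) (c : Fin n → ℝ) : LZ {x : Q n | ∃ i, (x i : ℝ) ≠ c i} (om n c) := by
  rintro x ⟨i, hi⟩
  exact OmCoc_g_supp n (fun i => st (c i)) x ⟨i, OmCoc_st hi⟩

theorem om_bd (n : ℕ) {c : Fin n → ℝ} (hc : ∀ i, c i ∈ Ioo (-1 : ℝ) 1) : LZ (bd n) (om n c) := by
  refine LZ.mono ?_ (om_supp n c)
  rintro x ⟨i, hi⟩
  refine ⟨i, ?_⟩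
  have h1 := (hc i).1
  have h2 := (hc i).2
  rcases hi with h | h
  · rw [h]; exact h1.ne
  · rw [h]; exact h2.ne'

theorem om_succ (n : ℕ) (c : Fin (n + 1) → ℝ) (t : Fin (n + 1 + 1) → Q (n + 1)) :
    om (n + 1) c t = om n (fun i => c i.castSucc) (fun j => prq n (t j.castSucc)) *
      (st (c (Fin.last n)) (t (Fin.last (n + 1)) (Fin.last n)) -
        st (c (Fin.last n)) (t (Fin.last n).castSucc (Fin.last n))) := by
  unfold om prq
  rw [Fin.prod_univ_castSucc]
  rfl

theorem om_dd (n : ℕ) (c : Fin n → ℝ) : dd one (om n c) = 0 := by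
  rw [OmCoc_om]
  exact OmCoc_g_dd n _

end PoolFbd
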