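import Pool.Agent.Work.MP_fbd21a_gt.Basic

/-! The cube `Q n = [-1,1]^n`, its boundary, the explicit fundamental cocycle, the integral. -/

open Topology Filter Set

namespace PoolFbd

/-- The cube `[-1,1]^n`. -/
abbrev Q (n : ℕ) := Fin n → Icc (-1 : ℝ) 1

/-- The boundary of the cube. -/
def bd (n : ℕ) : Set (Q n) := {x | ∃ i, (x i : ℝ) = -1 ∨ (x i : ℝ) = 1}

/-- The step function with jump at `c`. -/
noncomputable def st (c x : ℝ) : ℤ := open Classical in if c ≤ x then 1 else 0

/-- The explicit fundamental cocycle of the cube, supported near the point `c`. -/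
noncomputable def om (n : ℕ) (c : Fin n → ℝ) : Coch (Q n) ℤ n :=
  fun t => ∏ i : Fin n, (st (c i) (t i.succ i) - st (c i) (t i.castSucc i))

open Classical in
/-- The integral of a top degree relative cocycle of the cube. -/
noncomputable def Itg {n : ℕ} {A : Type} [AddCommGroup A] (φ : Coch (Q n) A n) : A :=
  if h : ∃ a : A, Cob one univ (bd n) (φ - smulC (om n 0) a) then h.choose else 0

/-- Relatively open boxes of the cube. -/
def obox {n : ℕ} (a b : Fin n → ℝ) : Set (Q n) := {x | ∀ i, a i < x i ∧ (x i : ℝ) < b i}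

/-- All faces of the cube `Q (n+1)` except the top face `x_last = 1`. -/
def bdm (n : ℕ) : Set (Q (n + 1)) :=
  {x | (∃ i : Fin n, (x i.castSucc : ℝ) = -1 ∨ (x i.castSucc : ℝ) = 1) ∨
    (x (Fin.last n) : ℝ) = -1}

/-- The top face. -/
def topf (n : ℕ) : Set (Q (n + 1)) := {x | (x (Fin.last n) : ℝ) = 1}

/-- Projection to the first coordinates. -/
def prq (n : ℕ) : Q (n + 1) → Q n := fun x i => x i.castSucc

/-- Inclusion of the top face. -/
def inq (n : ℕ) : Q n → Q (n + 1) := fun y => Fin.snoc (α := fun _ => Icc (-1 : ℝ) 1) y ⟨1, by norm_num⟩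

end PoolFbd
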