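import Pool.Agent.Work.MP_fbd21a_gt.Contr
import Pool.Agent.Work.MP_fbd21a_gt.QDefs

/-! MODULE AcBox. Closed boxes are acyclic.
PROOF. acyc_of_contraction with x₀ = a. In ℝ^n: c s x = (1 - s) x + s a, i.e.
c s x i = (1 - s) * x i + s * a i (Icc a b is convex; compact: isCompact_Icc).
In Q n: coordinates are in the interval [-1,1]; put u = max 0 (min 1 s) and
c s x i = ⟨(1 - u) * x i + u * a i, _⟩ (a convex combination of two elements of [-1,1]);
continuity: continuous_pi, Continuous.subtype_mk. Icc a b is compact in Q n (Q n is compact and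
Icc is closed: `isClosed_Icc`, order topology on the subtype; or show closedness by hand from the
real coordinates). -/

open Topology Filter Set

namespace PoolFbd

theorem acyc_box {n : ℕ} {a b : Fin n → ℝ} (hab : a ≤ b) : Acyc (Icc a b) := by
  refine acyc_of_contraction (E := Fin n → ℝ) isCompact_Icc (x₀ := a) (left_mem_Icc.2 hab)
    (fun s x => (1 - s) • x + s • a) ?_ ?_ ?_ ?_
  · fun_prop
  · intro x; simp
  · intro x; simp
  · intro s hs x hx
    exact convex_Icc a b hx (left_mem_Icc.2 hab) (by linarith [hs.2]) hs.1 (by ring)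

private noncomputable def acb_u (s : ℝ) : ℝ := max 0 (min 1 s)

private lemma acb_u0 (s : ℝ) : 0 ≤ acb_u s := le_max_left _ _

private lemma acb_u1 (s : ℝ) : acb_u s ≤ 1 := max_le zero_le_one (min_le_left _ _)

private noncomputable def acb_c {n : ℕ} (a : Q n) (s : ℝ) (x : Q n) : Q n := fun i =>
  ⟨(1 - acb_u s) * x i + acb_u s * a i, by
    have h0 := acb_u0 s
    have h1 := acb_u1 s
    have hx := (x i).2
    have ha := (a i).2
    constructor
    · nlinarith [hx.1, ha.1]
    · nlinarith [hx.2, ha.2]⟩

theorem acyc_Qbox {n : ℕ} {a b : Q n} (hab : a ≤ b) : Acyc (Icc a b) := by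
  refine acyc_of_contraction (E := Q n) isClosed_Icc.isCompact (x₀ := a) (left_mem_Icc.2 hab)
    (acb_c a) ?_ ?_ ?_ ?_
  · refine continuous_pi fun i => ?_
    apply Continuous.subtype_mk
    have hu : Continuous fun p : ℝ × Q n => acb_u p.1 := by
      unfold acb_u
      fun_prop
    have hx : Continuous fun p : ℝ × Q n => ((p.2 i : Icc (-1 : ℝ) 1) : ℝ) :=
      continuous_subtype_val.comp ((continuous_apply i).comp continuous_snd)
    exact ((continuous_const.sub hu).mul hx).add (hu.mul continuous_const)
  · intro x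
    funext i
    apply Subtype.ext
    simp [acb_c, acb_u]
  · intro x
    funext i
    apply Subtype.ext
    simp [acb_c, acb_u]
  · intro s hs x hx
    have hu : acb_u s = s := by
      unfold acb_u
      rw [min_eq_right hs.2, max_eq_right hs.1]
    constructor
    · intro i
      have h1 : (a i : ℝ) ≤ x i := hx.1 i
      show (a i : ℝ) ≤ (1 - acb_u s) * x i + acb_u s * a i
      rw [hu]
      nlinarith [hs.1, hs.2]
    · intro i
      have h1 : (a i : ℝ) ≤ x i := hx.1 i
      have h2 : (x i : ℝ) ≤ b i := hx.2 i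
      show (1 - acb_u s) * x i + acb_u s * a i ≤ (b i : ℝ)
      rw [hu]
      nlinarith [hs.1, hs.2]

theorem acyc_Q (n : ℕ) : Acyc (univ : Set (Q n)) := by
  have h : (univ : Set (Q n)) = Icc (fun _ => ⟨-1, by norm_num⟩) (fun _ => ⟨1, by norm_num⟩) := by
    symm
    rw [eq_univ_iff_forall]
    intro x
    exact ⟨fun i => (x i).2.1, fun i => (x i).2.2⟩
  rw [h]
  apply acyc_Qbox
  intro i
  show (-1 : ℝ) ≤ 1
  norm_num

end PoolFbd
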