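import Pool.Agent.Work.MP_fbd21a_gt.IntP

/-! MODULE Refl. Reflections and orientation reversing linear involutions of the cube.
reflq n i negates the i-th coordinate. Itg (pb (reflq n i) φ) = - Itg φ for relative cocycles φ.
PROOF. Both sides are additive and vanish on coboundaries (reflq is continuous and preserves
bd n: Cob.pb), and φ ~ om·a, so it suffices that pb (reflq n i) (om n 0) + om n 0 is a relative
coboundary. st 0 (-x) = 1 - s'(x), s'(x) = 1 if 0 < x, else 0. So pb r om has i-th factor
-(s'(t_{i+1} i) - s'(t_i i)) and pb r om + om has i-th factor w(t_{i+1}) - w(t_i) with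
w(y) = st 0 (y i) - s'(y i) = 1 if y i = 0, else 0: a step-like function which vanishes for y i near
±1: exactly the situation of OmMove (module OmMove: difference of two cochains om with different
step functions in coordinate i): = ± dd one ψ, ψ vanishing near bd n. (Another way:
s' is the limit of the steps at c > 0; if you prefer, prove the general form of OmMove with arbitrary
functions s_i : [-1,1] → ℤ which are 0 near -1 and 1 near 1, privately here.)
reflect3: the map (x0,x1,x2,x3) ↦ (-x0,-x1,-x2,x3) of Q 4 is a composition of three reflections. -/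

open Topology Filter Set

namespace PoolFbd

/-- Negation on the interval `[-1,1]`. -/
def negI (x : Icc (-1 : ℝ) 1) : Icc (-1 : ℝ) 1 := ⟨-x, by constructor <;> linarith [x.2.1, x.2.2]⟩

/-- Reflection in coordinate `i`. -/
def reflq (n : ℕ) (i : Fin n) : Q n → Q n := fun x => Function.update x i (negI (x i))

/-- The linear involution `(-,-,-,+)` of the four-cube. -/
def rho4 : Q 4 → Q 4 := fun x => ![negI (x 0), negI (x 1), negI (x 2), x 3]

/-- the step function jumping after `0` -/
private noncomputable def rfl_sp (x : ℝ) : ℤ := open Classical in if 0 < x then 1 else 0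

private lemma rfl_good : OmMove_good rfl_sp := by
  constructor
  · filter_upwards [Iio_mem_nhds (show (-1 : ℝ) < 0 by norm_num)] with y hy
    have hy' : y < 0 := hy
    simp only [rfl_sp]
    rw [if_neg (not_lt.2 hy'.le)]
  · filter_upwards [Ioi_mem_nhds (show (0 : ℝ) < 1 by norm_num)] with y hy
    have hy' : 0 < y := hy
    simp only [rfl_sp]
    rw [if_pos hy']

private lemma rfl_st (x : ℝ) : st 0 (-x) = 1 - rfl_sp x := by
  simp only [st, rfl_sp]
  by_cases h : 0 < x
  · rw [if_neg (by linarith), if_pos h, sub_self]
  · rw [if_pos (by linarith), if_neg h, sub_zero]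

private lemma rfl_negI : Continuous negI := by
  unfold negI
  exact (continuous_subtype_val.neg).subtype_mk _

private lemma rfl_cont (n : ℕ) (i : Fin n) : Continuous (reflq n i) :=
  continuous_id.update i (rfl_negI.comp (continuous_apply i))

private lemma rfl_bd (n : ℕ) (i : Fin n) {x : Q n} (hx : x ∈ bd n) : reflq n i x ∈ bd n := by
  obtain ⟨j, hj⟩ := hx
  refine ⟨j, ?_⟩
  unfold reflq
  by_cases h : j = i
  · subst h
    rw [Function.update_self]
    simp only [negI]
    rcases hj with hj | hj
    · right; rw [hj]; norm_num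
    · left; rw [hj]
  · rw [Function.update_of_ne h]
    exact hj

private lemma rfl_om (n : ℕ) (i : Fin n) :
    pb (reflq n i) (om n 0) = - OmCoc_g n (Function.update (fun _ => st 0) i rfl_sp) := by
  funext t
  simp only [pb, om, Pi.neg_apply, OmCoc_g, Pi.zero_apply]
  have h : ∀ j ∈ (Finset.univ : Finset (Fin n)),
      st 0 (reflq n i (t j.succ) j) - st 0 (reflq n i (t j.castSucc) j) =
      (if j = i then (-1 : ℤ) else 1) *
        ((Function.update (fun _ => st 0) i rfl_sp : Fin n → ℝ → ℤ) j (t j.succ j) -
          (Function.update (fun _ => st 0) i rfl_sp : Fin n → ℝ → ℤ) j (t j.castSucc j)) := by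
    intro j _
    by_cases hj : j = i
    · subst hj
      rw [if_pos rfl, Function.update_self]
      simp only [reflq, Function.update_self, negI, rfl_st]
      ring
    · rw [if_neg hj, Function.update_of_ne hj, one_mul]
      simp only [reflq, Function.update_of_ne hj]
  rw [Finset.prod_congr rfl h, Finset.prod_mul_distrib, Finset.prod_ite_eq']
  simp

private lemma rfl_coc {n : ℕ} (i : Fin n) {A : Type} [AddCommGroup A] {φ : Coch (Q n) A n}
    (hφ : Coc one univ (bd n) φ) : Coc one univ (bd n) (pb (reflq n i) φ) :=
  Coc.pb (τ := one) (S' := univ) (Z' := bd n)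
    (fun x _ => ⟨(rfl_cont n i).continuousAt, mem_univ _⟩)
    (fun x hx => ⟨(rfl_cont n i).continuousAt, rfl_bd n i hx⟩) hφ

theorem Itg_reflq {n : ℕ} (i : Fin n) {A : Type} [AddCommGroup A] {φ : Coch (Q n) A n}
    (hφ : Coc one univ (bd n) φ) : Itg (pb (reflq n i) φ) = - Itg φ := by
  apply Itg_eq
  have h1 := Itg_spec hφ
  have h2 : Cob one univ (bd n) (pb (reflq n i) (φ - smulC (om n 0) (Itg φ))) :=
    Cob.pb (τ := one) (S' := univ) (Z' := bd n)
      (fun x _ => ⟨(rfl_cont n i).continuousAt, mem_univ _⟩)
      (fun x hx => ⟨(rfl_cont n i).continuousAt, rfl_bd n i hx⟩) h1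
  have h3 : Cob one univ (bd n) (smulC (om n 0 -
      OmCoc_g n (Function.update (fun _ => st 0) i rfl_sp)) (Itg φ)) := by
    apply OmMove_smulC
    rw [OmCoc_om]
    apply OmMove_g
    · intro j
      exact OmMove_st (by simp)
    · intro j
      by_cases hj : j = i
      · subst hj
        rw [Function.update_self]
        exact rfl_good
      · rw [Function.update_of_ne hj]
        exact OmMove_st (by constructor <;> norm_num)
  have e : pb (reflq n i) φ - smulC (om n 0) (-Itg φ) =
      pb (reflq n i) (φ - smulC (om n 0) (Itg φ)) + smulC (om n 0 -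
      OmCoc_g n (Function.update (fun _ => st 0) i rfl_sp)) (Itg φ) := by
    have e1 : pb (reflq n i) (φ - smulC (om n 0) (Itg φ)) =
        pb (reflq n i) φ - smulC (pb (reflq n i) (om n 0)) (Itg φ) := rfl
    rw [e1, rfl_om]
    funext t
    simp only [smulC, Pi.sub_apply, Pi.add_apply, Pi.neg_apply, sub_smul, neg_smul, smul_neg]
    abel
  rw [e]
  exact h2.add h3

theorem Itg_rho4 {A : Type} [AddCommGroup A] {φ : Coch (Q 4) A 4}
    (hφ : Coc one univ (bd 4) φ) : Itg (pb rho4 φ) = - Itg φ := by
  have e : pb rho4 φ = pb (reflq 4 0) (pb (reflq 4 1) (pb (reflq 4 2) φ)) := by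
    have e1 : rho4 = fun x => reflq 4 2 (reflq 4 1 (reflq 4 0 x)) := by
      funext x j
      fin_cases j <;> simp [rho4, reflq, Function.update]
    rw [e1]
    rfl
  have h2 := rfl_coc 2 hφ
  have h1 := rfl_coc 1 h2
  rw [e, Itg_reflq 0 h1, Itg_reflq 1 h2, Itg_reflq 2 hφ]
  simp

end PoolFbd
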