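import Pool.Agent.Work.MP_fbd21a_gt.PDefs
import Pool.Agent.Work.MP_fbd21a_gt.IntP
import Pool.Agent.Work.MP_fbd21a_gt.CupL

/-! MODULE PDisj. Countable disjoint unions of open sets, U = ⋃ f i.
DECOMPOSITION LEMMA (prove it first, private): let c be zero near Uᶜ ∪ bd n, of degree q.
The set {x | c is zero near x} is open (eventually_eventually_nhds) and contains Uᶜ; its complement
is compact (Q n is compact) and covered by the f i, so by f 0, .., f (N-1) for some N. Put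
c_i t = if t 0 ∈ f i then c t else 0. Near a point of f i: c_i = c and c_j = 0 for j ≠ i (t 0 ∈ f i
eventually, disjointness). Near a point of Uᶜ all c_i are 0 (c = 0 near). Therefore c_i is zero
near (f i)ᶜ ∪ bd n, c - Σ_{i<N} c_i is zero near univ; c_i is a relative cocycle for f i if c is one
for U (dd c_i = dd c near f i, and 0 elsewhere); and c_i is a coboundary for f i if c is one for U.
PInj: φ pairs to zero with all c for U, so restricted to f i it pairs to zero with all c for f i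
(those are c for U). φ = dd ψ_i near f i (or φ zero near f i in degree 0); ψ t = ψ_i t if t 0 ∈ f i, 0 if
t 0 ∉ U; near a point of f i, ψ = ψ_i. PSur: l for U is a functional for each f i; φ_i; φ t = φ_i t if
t 0 ∈ f i. Itg (c ∪ φ) = Σ_{i<N} Itg (c_i ∪ φ_i) = Σ l (c_i) = l c (c - Σ c_i is zero near univ, so l
of it is 0). PTop: c_i = dd a_i near univ, a_i zero near (f i)ᶜ ∪ bd ⊇ Uᶜ ∪ bd: c ~ Σ dd a_i. -/

open Topology Filter Set

namespace PoolFbd

variable {R D : Type} [CommRing R] [AddCommGroup D] [Module R D] {n : ℕ} {f : ℕ → Set (Q n)}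

open Classical in
/-- cutting by the position of the first vertex -/
private noncomputable def pdisjCut {E A : Type*} [AddCommGroup A] (W : Set E) {n : ℕ}
    (c : Coch E A n) : Coch E A n := fun t => if t 0 ∈ W then c t else 0

private theorem pdisj_first {E : Type*} [TopologicalSpace E] {n : ℕ} {x : E} {P : E → Prop}
    (h : ∀ᶠ y in 𝓝 x, P y) : ∀ᶠ t in 𝓝 (fun _ : Fin (n + 1) => x), P (t 0) :=
  ((continuous_apply (0 : Fin (n + 1))).tendsto (fun _ : Fin (n + 1) => x)).eventually h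

private theorem pdisj_near {E A : Type*} [TopologicalSpace E] [AddCommGroup A] {W : Set E}
    (hW : IsOpen W) {m : ℕ} (c : Coch E A m) : LZ W (pdisjCut W c - c) := by
  classical
  intro x hx
  filter_upwards [pdisj_first (P := fun y => y ∈ W) (hW.mem_nhds hx)] with t ht
  simp only [pdisjCut, Pi.sub_apply]
  rw [if_pos ht, sub_self]

private theorem pdisj_far {E A : Type*} [TopologicalSpace E] [AddCommGroup A] {f : ℕ → Set E}
    (hf : ∀ i, IsOpen (f i)) (hd : Pairwise (fun i j => Disjoint (f i) (f j))) {K : Set E} {m : ℕ}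
    {c : Coch E A m} (hc : LZ ((⋃ i, f i)ᶜ ∪ K) c) (i : ℕ) :
    LZ ((f i)ᶜ ∪ K) (pdisjCut (f i) c) := by
  classical
  intro x hx
  by_cases hx' : x ∈ (⋃ i, f i)ᶜ ∪ K
  · filter_upwards [hc x hx'] with t ht
    simp only [pdisjCut, ht, ite_self]
  · have hxi : x ∉ f i := by
      rcases hx with h | h
      · exact h
      · exact absurd (Or.inr h) hx'
    have hxU : x ∈ ⋃ i, f i := by
      by_contra h
      exact hx' (Or.inl h)
    obtain ⟨k, hk⟩ := mem_iUnion.1 hxU
    have hki : k ≠ i := by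
      rintro rfl
      exact hxi hk
    filter_upwards [pdisj_first (P := fun y => y ∈ f k) ((hf k).mem_nhds hk)] with t ht
    have : t 0 ∉ f i := fun h => (disjoint_left.1 (hd hki)) ht h
    simp only [pdisjCut]
    rw [if_neg this]

private theorem pdisj_sum {A : Type*} [AddCommGroup A]
    (hf : ∀ i, IsOpen (f i)) (hd : Pairwise (fun i j => Disjoint (f i) (f j))) {m : ℕ}
    {c : Coch (Q n) A m} (hc : LZ ((⋃ i, f i)ᶜ ∪ bd n) c) :
    ∃ s : Finset ℕ, LZ univ (c - ∑ i ∈ s, pdisjCut (f i) c) := by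
  classical
  have hopen : IsOpen {x : Q n | ZeroAt c x} := by
    have h1 : IsOpen {t : Fin (m + 1) → Q n | ∀ᶠ t' in 𝓝 t, c t' = 0} :=
      isOpen_setOfPred_eventually_nhds
    exact h1.preimage (continuous_pi fun _ => continuous_id)
  have hK : IsCompact {x : Q n | ZeroAt c x}ᶜ := hopen.isClosed_compl.isCompact
  obtain ⟨s, hs⟩ := hK.elim_finite_subcover f hf (by
    intro x hx
    by_contra hcon
    exact hx (hc x (Or.inl hcon)))
  refine ⟨s, fun x _ => ?_⟩
  by_cases hz : ZeroAt c x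
  · have h1 : ∀ᶠ t in 𝓝 (fun _ : Fin (m + 1) => x), c t = 0 := hz
    filter_upwards [h1] with t ht
    rw [Pi.sub_apply, Finset.sum_apply, ht, zero_sub, neg_eq_zero]
    refine Finset.sum_eq_zero fun i _ => ?_
    simp only [pdisjCut, ht, ite_self]
  · obtain ⟨i, hi, hxi⟩ := mem_iUnion₂.1 (hs hz)
    filter_upwards [pdisj_first (P := fun y => y ∈ f i) ((hf i).mem_nhds hxi)] with t ht
    rw [Pi.sub_apply, Finset.sum_apply, Finset.sum_eq_single i]
    · simp only [pdisjCut]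
      rw [if_pos ht, sub_self]
    · intro k _ hk
      have : t 0 ∉ f k := fun h => (disjoint_left.1 (hd hk)) h ht
      simp only [pdisjCut]
      rw [if_neg this]
    · intro hc'
      exact absurd hi hc'

private theorem pdisj_glue {E A : Type*} [TopologicalSpace E] [AddCommGroup A] {f : ℕ → Set E}
    (hf : ∀ i, IsOpen (f i)) (hd : Pairwise (fun i j => Disjoint (f i) (f j))) {m : ℕ}
    (g : ℕ → Coch E A m) : ∃ ψ : Coch E A m, ∀ i, LZ (f i) (ψ - g i) := by
  classical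
  refine ⟨fun t => if h : ∃ i, t 0 ∈ f i then g h.choose t else 0, fun i x hx => ?_⟩
  filter_upwards [pdisj_first (P := fun y => y ∈ f i) ((hf i).mem_nhds hx)] with t ht
  have h : ∃ i, t 0 ∈ f i := ⟨i, ht⟩
  have hi : h.choose = i := by
    by_contra hne
    exact (disjoint_left.1 (hd hne)) h.choose_spec ht
  rw [Pi.sub_apply, dif_pos h, hi, sub_self]

private theorem pdisj_dd_sub {E R D : Type*} [CommRing R] [AddCommGroup D] [Module R D]
    (κ : E → E → Rˣ) {n : ℕ} (φ ψ : Coch E D n) : dd κ (φ - ψ) = dd κ φ - dd κ ψ :=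
  dd_sub κ φ ψ

private theorem pdisj_dd_sub' {E R : Type*} [CommRing R]
    (κ : E → E → Rˣ) {n : ℕ} (φ ψ : Coch E R n) : dd κ (φ - ψ) = dd κ φ - dd κ ψ :=
  dd_sub κ φ ψ

private theorem pdisj_mono {E R : Type*} [TopologicalSpace E] [CommRing R] {κ : E → E → Rˣ}
    {S Z Z' : Set E} {n : ℕ} {c : Coch E R n} (hZ : Z' ⊆ Z) (h : Coc κ S Z c) : Coc κ S Z' c :=
  ⟨h.1.mono hZ, h.2⟩

private theorem pdisj_cob_mono {E R : Type*} [TopologicalSpace E] [CommRing R] {κ : E → E → Rˣ}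
    {S Z Z' : Set E} {n : ℕ} {c : Coch E R n} (hZ : Z' ⊆ Z) (h : Cob κ S Z c) : Cob κ S Z' c := by
  cases n with
  | zero => exact h
  | succ n =>
    obtain ⟨ψ, a, b⟩ := h
    exact ⟨ψ, a.mono hZ, b⟩

private theorem pdisj_zsub (f : ℕ → Set (Q n)) (i : ℕ) :
    (⋃ i, f i)ᶜ ∪ bd n ⊆ (f i)ᶜ ∪ bd n :=
  union_subset_union_left _ (compl_subset_compl.2 (subset_iUnion f i))

private theorem pdisj_coc (hf : ∀ i, IsOpen (f i))
    (hd : Pairwise (fun i j => Disjoint (f i) (f j))) {κ : Q n → Q n → Rˣ} {m : ℕ}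
    {c : Coch (Q n) R m} (hc : Coc κ univ ((⋃ i, f i)ᶜ ∪ bd n) c) (i : ℕ) :
    Coc κ univ ((f i)ᶜ ∪ bd n) (pdisjCut (f i) c) := by
  have h1 := pdisj_far hf hd hc.1 i
  refine ⟨h1, fun x hx => ?_⟩
  by_cases hxi : x ∈ f i
  · have h2 := LZ.dd (A := R) (G := Rˣ) (pdisj_near (hf i) c) κ
    rw [pdisj_dd_sub'] at h2
    filter_upwards [h2 x hxi, hc.2 x hx] with t e1 e2
    rw [Pi.sub_apply, e2, sub_zero] at e1
    exact e1
  · exact LZ.dd (A := R) (G := Rˣ) h1 κ x (Or.inl hxi)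

private theorem pdisj_cob_smul_sum {κ : Q n → Q n → Rˣ} {m : ℕ} {Z : Set (Q n)} (s : Finset ℕ)
    (g : ℕ → Coch (Q n) R m) (hg : ∀ i ∈ s, Cob κ univ Z (g i)) :
    Cob κ univ Z (∑ i ∈ s, g i) := by
  classical
  induction s using Finset.induction_on with
  | empty =>
    rw [Finset.sum_empty]
    exact Cob.zero (A := R) (G := Rˣ) κ univ Z
  | insert a s ha ih =>
    rw [Finset.sum_insert ha]
    exact Cob.add (A := R) (G := Rˣ) (hg a (Finset.mem_insert_self a s))
      (ih fun i hi => hg i (Finset.mem_insert_of_mem hi))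

theorem pinj_disj (hf : ∀ i, IsOpen (f i)) (hd : Pairwise (fun i j => Disjoint (f i) (f j)))
    (h : ∀ i, PInj R D (f i)) : PInj R D (⋃ i, f i) := by
  intro τ hτ q p hqp φ hφ H
  have h1 : ∀ i, Cob τ (f i) ∅ φ := fun i =>
    h i τ (hτ.mono (subset_iUnion f i)) q p hqp φ (hφ.mono (subset_iUnion f i))
      (fun c hc => H c (pdisj_mono (pdisj_zsub f i) hc))
  cases p with
  | zero =>
    intro x hx
    obtain ⟨i, hi⟩ := mem_iUnion.1 hx
    exact h1 i x hi
  | succ m =>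
    choose ψ _ hψ using h1
    obtain ⟨ψ', hψ'⟩ := pdisj_glue hf hd ψ
    refine ⟨ψ', LZ.empty ψ', fun x hx => ?_⟩
    obtain ⟨i, hi⟩ := mem_iUnion.1 hx
    have h2 := (hψ' i).dd τ
    rw [pdisj_dd_sub] at h2
    filter_upwards [h2 x hi, hψ i x hi] with t e1 e2
    simp only [Pi.sub_apply] at e1 e2 ⊢
    rw [sub_eq_zero] at e1
    rw [e1]
    exact e2

theorem psur_disj (hf : ∀ i, IsOpen (f i)) (hd : Pairwise (fun i j => Disjoint (f i) (f j)))
    (h : ∀ i, PSur R D (f i)) : PSur R D (⋃ i, f i) := by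
  classical
  intro τ hτ q p hqp l hl
  have hsub : ∀ W : Set (Q n), (univ : Set (Q n)) \ (Wᶜ ∪ bd n) ⊆ W := by
    intro W x hx
    by_contra hxU
    exact hx.2 (Or.inl hxU)
  have h1 : ∀ i, ∃ φ : Coch (Q n) D p, LZ (f i) (dd τ φ) ∧ ∀ c : Coch (Q n) R q,
      Coc (invt τ) univ ((f i)ᶜ ∪ bd n) c → Itg (cup hqp τ c φ) = l c := fun i =>
    h i τ (hτ.mono (subset_iUnion f i)) q p hqp l (fun c hc hc' =>
      hl c (hc.mono (pdisj_zsub f i)) (pdisj_cob_mono (pdisj_zsub f i) hc'))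
  choose g hg1 hg2 using h1
  obtain ⟨φ, hφ⟩ := pdisj_glue hf hd g
  have hφc : LZ (⋃ i, f i) (dd τ φ) := by
    intro x hx
    obtain ⟨i, hi⟩ := mem_iUnion.1 hx
    have h2 := (hφ i).dd τ
    rw [pdisj_dd_sub] at h2
    exact LZ.congr h2 (hg1 i) x hi
  refine ⟨φ, hφc, fun c hc => ?_⟩
  obtain ⟨s, hs⟩ := pdisj_sum hf hd hc.1
  have hcoc : ∀ c : Coch (Q n) R q, Coc (invt τ) univ ((⋃ i, f i)ᶜ ∪ bd n) c →
      Coc one univ (bd n) (cup hqp τ c φ) := fun c hc =>
    (cup_coc hqp (hτ.mono (hsub _)) hc (hφc.mono (hsub _))).mono le_rfl subset_union_right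
  have hci : ∀ i, Coc (invt τ) univ ((⋃ i, f i)ᶜ ∪ bd n) (pdisjCut (f i) c) := fun i =>
    pdisj_mono (pdisj_zsub f i) (pdisj_coc hf hd hc i)
  have hi : ∀ i, Itg (cup hqp τ (pdisjCut (f i) c) φ) = l (pdisjCut (f i) c) := by
    intro i
    have hz : LZ univ (cup hqp τ (pdisjCut (f i) c) φ - cup hqp τ (pdisjCut (f i) c) (g i)) := by
      rw [← cup_sub_right]
      intro x _
      by_cases hx : x ∈ f i
      · exact cup_right hqp _ (hφ i) x hx
      · exact cup_left hqp ((pdisj_coc hf hd hc i).1.mono subset_union_left) _ x hx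
    rw [Itg_congr (hcoc _ (hci i)) (Cob.of_LZ hz), hg2 i _ (pdisj_coc hf hd hc i)]
  have hsum : ∀ s : Finset ℕ, Coc one univ (bd n) (cup hqp τ (∑ i ∈ s, pdisjCut (f i) c) φ) ∧
      Itg (cup hqp τ (∑ i ∈ s, pdisjCut (f i) c) φ) = l (∑ i ∈ s, pdisjCut (f i) c) := by
    intro s
    induction s using Finset.induction_on with
    | empty =>
      rw [Finset.sum_empty, map_zero]
      have hz : LZ univ (cup hqp τ (0 : Coch (Q n) R q) φ) := cup_left hqp (LZ.zero univ) φ
      refine ⟨⟨hz.mono (subset_univ _), hz.dd one⟩, Itg_cob (Cob.of_LZ hz)⟩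
    | insert a s ha ih =>
      rw [Finset.sum_insert ha, cup_add_left, map_add]
      refine ⟨(hcoc _ (hci a)).add ih.1, ?_⟩
      rw [Itg_add (hcoc _ (hci a)) ih.1, hi, ih.2]
  have hz2 : LZ univ (cup hqp τ c φ - cup hqp τ (∑ i ∈ s, pdisjCut (f i) c) φ) := by
    rw [← cup_sub_left]
    exact cup_left hqp hs φ
  rw [Itg_congr (hcoc c hc) (Cob.of_LZ hz2), (hsum s).2]
  have h3 := hl (c - ∑ i ∈ s, pdisjCut (f i) c) (hs.mono (subset_univ _))
    (Cob.of_LZ (A := R) (G := Rˣ) hs)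
  rw [map_sub, sub_eq_zero] at h3
  exact h3.symm

theorem ptop_disj (hf : ∀ i, IsOpen (f i)) (hd : Pairwise (fun i j => Disjoint (f i) (f j)))
    (h : ∀ i, PTop R (f i)) : PTop R (⋃ i, f i) := by
  intro τ hτ m hm c hc
  obtain ⟨s, hs⟩ := pdisj_sum hf hd hc.1
  have h1 : Cob (invt τ) univ ((⋃ i, f i)ᶜ ∪ bd n) (∑ i ∈ s, pdisjCut (f i) c) :=
    pdisj_cob_smul_sum s _ fun i _ => pdisj_cob_mono (pdisj_zsub f i)
      (h i τ (hτ.mono (subset_iUnion f i)) m hm _ (pdisj_coc hf hd hc i))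
  exact Cob.congr (A := R) (G := Rˣ) hs h1

end PoolFbd
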