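import Pool.Agent.Work.MP_fbd21a_gt.PDefs
import Pool.Agent.Work.MP_fbd21a_gt.IntP
import Pool.Agent.Work.MP_fbd21a_gt.CupL
import Pool.Agent.Work.MP_fbd21a_gt.Glue
import Pool.Agent.Work.MP_fbd21a_gt.DdDd

/-! MODULE PInjMV. Mayer-Vietoris step for the injectivity half. D is an injective R-module
(hypothesis Module.Baer R D; use Module.Baer.extension_property).
PROOF. Let φ be a cocycle of degree p near U ∪ V, pairing to zero with all c for U ∪ V. Restricted to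
U (resp. V) it pairs to zero with the c for U (a c for U is a c for U ∪ V: (U∪V)ᶜ ⊆ Uᶜ). So it is a
coboundary near U and near V. p = 0: φ zero near U and V, done.
p = m+1, q: φ = dd τ ψU near U, dd τ ψV near V. χ = ψU - ψV is a cocycle of degree m near U ∩ V.
Consider c in degree q+1, relative cocycle of (univ, (U∩V)ᶜ ∪ bd), and l(c) = Itg (c ∪ χ)
(degree (q+1) + m = n).
CLAIM: if c = dd a + germ zero near univ, a zero near Uᶜ ∪ bd, and c = dd b + germ zero,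
b zero near Vᶜ ∪ bd (dd = dd (invt τ)) then l(c) = 0. Indeed a - b is a relative cocycle of
(univ, (U∪V)ᶜ ∪ bd) in degree q, so Itg ((a-b) ∪ φ) = 0. c ∪ ψU = dd a ∪ ψU and
dd one (a ∪ ψU) = dd a ∪ ψU + (-1)^q a ∪ dd ψU with a ∪ ψU zero near Uᶜ ∪ bd, so
Itg (c ∪ ψU) = -(-1)^q Itg (a ∪ φ) (c ∪ ψU is a relative cocycle of (univ, bd): c vanishes off U ∩ V,
and ψU is only a cochain: so be careful: c ∪ ψU itself need not be a cocycle! c ∪ dd ψU = c ∪ φ ≠ 0.)
 Work with the difference: c ∪ χ = c ∪ ψU - c ∪ ψV is a cocycle, and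
c ∪ χ = [dd one (a ∪ ψU) - (-1)^q a ∪ φ] - [dd one (b ∪ ψV) - (-1)^q b ∪ φ] near univ
(near points off U: a = 0 there, c = 0 off U ∩ V; at points of U \ V: c = 0 near them, consistent), so
c ∪ χ = dd one (a ∪ ψU - b ∪ ψV) - (-1)^q (a-b) ∪ φ near univ, and Itg of it is 0.
LINEAR ALGEBRA: M = Coch R (q+1). In M × M let N be the submodule of all (c + x, c + y) with c a
relative cocycle of (univ,(U∩V)ᶜ∪bd), x in BU = {Cob (invt τ) univ (Uᶜ ∪ bd), LZ (Uᶜ ∪ bd)},
y in BV similarly, and L(c + x, c + y) = l(c), well defined by additivity and the CLAIM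
(if c + x = 0 = c + y then c ∈ BU ∩ BV). Extend L to M × M → D (injectivity of D): L(x, y) = lU x + lV y.
So lU vanishes on BU, lV on BV, l(c) = lU c + lV c. By PSur for U and V (degrees q+1, m): cocycles
α near U, β near V of degree m with Itg (c ∪ α) = lU c, Itg (c ∪ β) = - lV c. Then χ - α + β is a cocycle
near U ∩ V pairing to zero with all c, so by PInj (U ∩ V) it is a coboundary: m = 0: zero near
U ∩ V; m = k+1: = dd τ ξ near U ∩ V. Put ψU' = ψU - α - dd τ ξ, ψV' = ψV - β; they agree near U ∩ V,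
glue to ψ (Sepd.open), φ = dd τ ψ near U ∪ V. -/

open Topology Filter Set

namespace PoolFbd

/-- the extension lemma -/
private theorem pinjmv_ext {R D M : Type} [CommRing R] [AddCommGroup D] [Module R D]
    [AddCommGroup M] [Module R M] (hD : Module.Baer R D) (C BU BV : Submodule R M)
    (l : C →ₗ[R] D) (hl : ∀ c : C, (c : M) ∈ BU → (c : M) ∈ BV → l c = 0) :
    ∃ lU lV : M →ₗ[R] D, (∀ x ∈ BU, lU x = 0) ∧ (∀ x ∈ BV, lV x = 0) ∧
      ∀ c : C, l c = lU c + lV c := by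
  obtain ⟨f, hf⟩ : ∃ f : C →ₗ[R] (M ⧸ BU) × (M ⧸ BV),
      f = LinearMap.prod (BU.mkQ ∘ₗ C.subtype) (BV.mkQ ∘ₗ C.subtype) := ⟨_, rfl⟩
  have hfv : ∀ c : C, f c = (BU.mkQ (c : M), BV.mkQ (c : M)) := by
    intro c
    rw [hf]
    rfl
  have hker : LinearMap.ker f ≤ LinearMap.ker l := by
    intro c hc
    rw [LinearMap.mem_ker] at hc ⊢
    rw [hfv, Prod.mk_eq_zero] at hc
    exact hl c ((Submodule.Quotient.mk_eq_zero BU).1 hc.1) ((Submodule.Quotient.mk_eq_zero BV).1 hc.2)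
  have hinj : Function.Injective ((LinearMap.ker f).liftQ f le_rfl) := by
    rw [← LinearMap.ker_eq_bot, Submodule.ker_liftQ_eq_bot]
    exact le_rfl
  obtain ⟨g, hg⟩ := Module.Baer.extension_property hD ((LinearMap.ker f).liftQ f le_rfl) hinj
    ((LinearMap.ker f).liftQ l hker)
  refine ⟨g ∘ₗ LinearMap.inl R _ _ ∘ₗ BU.mkQ, g ∘ₗ LinearMap.inr R _ _ ∘ₗ BV.mkQ, ?_, ?_, ?_⟩
  · intro x hx
    show g (BU.mkQ x, 0) = 0
    have : BU.mkQ x = 0 := (Submodule.Quotient.mk_eq_zero BU).2 hx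
    rw [this]
    exact map_zero g
  · intro x hx
    show g (0, BV.mkQ x) = 0
    have : BV.mkQ x = 0 := (Submodule.Quotient.mk_eq_zero BV).2 hx
    rw [this]
    exact map_zero g
  · intro c
    show l c = g (BU.mkQ (c : M), 0) + g (0, BV.mkQ (c : M))
    rw [← map_add, Prod.mk_add_mk, add_zero, zero_add, ← hfv]
    have h1 := DFunLike.congr_fun hg (Submodule.Quotient.mk c)
    rw [LinearMap.comp_apply, Submodule.liftQ_apply, Submodule.liftQ_apply] at h1
    exact h1.symm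

section

variable {R D : Type} [CommRing R] [AddCommGroup D] [Module R D]

private theorem pinjmv_lz_smul {E A : Type*} [TopologicalSpace E] [AddCommGroup A] {R : Type*}
    [CommRing R] [Module R A] {S : Set E} {n : ℕ} {φ : Coch E A n} (r : R) (h : LZ S φ) :
    LZ S (r • φ) := fun x hx => by
  filter_upwards [h x hx] with t a
  simp [a]

private theorem pinjmv_dd_smul {E R : Type*} [CommRing R] (κ : E → E → Rˣ) {n : ℕ}
    (r : R) (c : Coch E R n) : dd κ (r • c) = r • dd κ c := by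
  funext t
  simp only [dd, Pi.smul_apply, smul_eq_mul, Units.smul_def, mul_add, Finset.mul_sum]
  congr 1
  · ring
  · refine Finset.sum_congr rfl fun i _ => ?_
    rw [mul_smul_comm]

private theorem pinjmv_dd_sub {E R D : Type*} [CommRing R] [AddCommGroup D] [Module R D]
    (κ : E → E → Rˣ) {n : ℕ} (φ ψ : Coch E D n) : dd κ (φ - ψ) = dd κ φ - dd κ ψ :=
  dd_sub κ φ ψ

private theorem pinjmv_dd_add {E R D : Type*} [CommRing R] [AddCommGroup D] [Module R D]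
    (κ : E → E → Rˣ) {n : ℕ} (φ ψ : Coch E D n) : dd κ (φ + ψ) = dd κ φ + dd κ ψ :=
  dd_add κ φ ψ

private theorem pinjmv_dd_zero {E R D : Type*} [CommRing R] [AddCommGroup D] [Module R D]
    (κ : E → E → Rˣ) {n : ℕ} : dd κ (0 : Coch E D n) = 0 :=
  dd_zero κ

private theorem pinjmv_dd_sub' {E R : Type*} [CommRing R]
    (κ : E → E → Rˣ) {n : ℕ} (φ ψ : Coch E R n) : dd κ (φ - ψ) = dd κ φ - dd κ ψ :=
  dd_sub κ φ ψ

private theorem pinjmv_coc_smul {E R : Type*} [TopologicalSpace E] [CommRing R] {κ : E → E → Rˣ}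
    {S Z : Set E} {n : ℕ} (r : R) {c : Coch E R n} (h : Coc κ S Z c) : Coc κ S Z (r • c) :=
  ⟨pinjmv_lz_smul r h.1, by rw [pinjmv_dd_smul]; exact pinjmv_lz_smul r h.2⟩

private theorem pinjmv_cob_smul {E R : Type*} [TopologicalSpace E] [CommRing R] {κ : E → E → Rˣ}
    {S Z : Set E} {n : ℕ} (r : R) {c : Coch E R n} (h : Cob κ S Z c) : Cob κ S Z (r • c) := by
  cases n with
  | zero => exact pinjmv_lz_smul r h
  | succ n =>
    obtain ⟨ψ, a, b⟩ := h
    refine ⟨r • ψ, pinjmv_lz_smul r a, ?_⟩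
    rw [pinjmv_dd_smul, ← smul_sub]
    exact pinjmv_lz_smul r b

private theorem pinjmv_mono {E R : Type*} [TopologicalSpace E] [CommRing R] {κ : E → E → Rˣ}
    {S Z Z' : Set E} {n : ℕ} {c : Coch E R n} (hZ : Z' ⊆ Z) (h : Coc κ S Z c) : Coc κ S Z' c :=
  ⟨h.1.mono hZ, h.2⟩

/-- the submodule of relative cocycles -/
private theorem pinjmv_cocmod {E R : Type*} [TopologicalSpace E] [CommRing R] (κ : E → E → Rˣ)
    (S Z : Set E) (n : ℕ) : ∃ C : Submodule R (Coch E R n), ∀ c, c ∈ C ↔ Coc κ S Z c :=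
  ⟨{ carrier := {c | Coc κ S Z c}
     add_mem' := fun {a b} ha hb => by
      have ha' : Coc κ S Z a := ha
      have hb' : Coc κ S Z b := hb
      exact Coc.add (A := R) (G := Rˣ) ha' hb'
     zero_mem' := by
      have h0 : Coc κ S Z (0 : Coch E R n) := Coc.zero κ S Z
      exact h0
     smul_mem' := fun r c hc => by
      have hc' : Coc κ S Z c := hc
      exact pinjmv_coc_smul r hc' }, fun _ => Iff.rfl⟩

/-- the submodule of relative coboundaries -/
private theorem pinjmv_cobmod {E R : Type*} [TopologicalSpace E] [CommRing R] (κ : E → E → Rˣ)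
    (S Z : Set E) (n : ℕ) : ∃ C : Submodule R (Coch E R n), ∀ c, c ∈ C ↔ Cob κ S Z c :=
  ⟨{ carrier := {c | Cob κ S Z c}
     add_mem' := fun {a b} ha hb => by
      have ha' : Cob κ S Z a := ha
      have hb' : Cob κ S Z b := hb
      exact Cob.add (A := R) (G := Rˣ) ha' hb'
     zero_mem' := by
      have h0 : Cob κ S Z (0 : Coch E R n) := Cob.zero κ S Z
      exact h0
     smul_mem' := fun r c hc => by
      have hc' : Cob κ S Z c := hc
      exact pinjmv_cob_smul r hc' }, fun _ => Iff.rfl⟩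

/-- product with a cochain, one Leibniz step -/
private theorem pinjmv_leib {N q m : ℕ} (hN : q + m = N) (h : q + (m + 1) = N + 1)
    (h' : q + 1 + m = N + 1) {U : Set (Q (N + 1))} {τ : Q (N + 1) → Q (N + 1) → Rˣ}
    (hτ : IsTw U τ) {φ : Coch (Q (N + 1)) D (m + 1)} {ψ : Coch (Q (N + 1)) D m}
    (hψ : LZ U (φ - dd τ ψ)) {c : Coch (Q (N + 1)) R (q + 1)} {a : Coch (Q (N + 1)) R q}
    (ha : LZ (Uᶜ ∪ bd (N + 1)) a) (hca : LZ univ (c - dd (invt τ) a)) :
    LZ univ (cup h' τ c ψ - (dd one (cup hN τ a ψ) - (-1 : ℤ) ^ q • cup h τ a φ)) := by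
  have hsub : (univ : Set (Q (N + 1))) \ (Uᶜ ∪ bd (N + 1)) ⊆ U := by
    intro x hx
    by_contra hxU
    exact hx.2 (Or.inl hxU)
  have h1 := cup_leib hN h' h (hτ.mono hsub) (S := univ) ha ψ
  have h2 : LZ univ (cup h' τ c ψ - cup h' τ (dd (invt τ) a) ψ) := by
    rw [← cup_sub_left]
    exact cup_left h' hca ψ
  have h3 : LZ univ (cup h τ a φ - cup h τ a (dd τ ψ)) := by
    rw [← cup_sub_right]
    intro x _
    by_cases hx : x ∈ U
    · exact cup_right h a hψ x hx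
    · exact cup_left h (ha.mono (subset_union_left)) _ x hx
  intro x hx
  filter_upwards [h1 x hx, h2 x hx, h3 x hx] with t e1 e2 e3
  simp only [Pi.sub_apply, Pi.add_apply, Pi.smul_apply] at e1 e2 e3 ⊢
  rw [sub_eq_zero] at e1 e2 e3
  rw [e1, e2, e3]
  abel

/-- the claim -/
private theorem pinjmv_claim {N q m : ℕ} (hN : q + m = N) (h : q + (m + 1) = N + 1)
    (h' : q + 1 + m = N + 1) {U V : Set (Q (N + 1))} {τ : Q (N + 1) → Q (N + 1) → Rˣ}
    (hτ : IsTw (U ∪ V) τ) {φ : Coch (Q (N + 1)) D (m + 1)} (hφ : LZ (U ∪ V) (dd τ φ))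
    (H : ∀ c : Coch (Q (N + 1)) R q, Coc (invt τ) univ ((U ∪ V)ᶜ ∪ bd (N + 1)) c →
      Itg (cup h τ c φ) = 0)
    {ψU ψV : Coch (Q (N + 1)) D m} (hψU : LZ U (φ - dd τ ψU)) (hψV : LZ V (φ - dd τ ψV))
    {c : Coch (Q (N + 1)) R (q + 1)} (hc : Coc (invt τ) univ ((U ∩ V)ᶜ ∪ bd (N + 1)) c)
    (hcU : Cob (invt τ) univ (Uᶜ ∪ bd (N + 1)) c) (hcV : Cob (invt τ) univ (Vᶜ ∪ bd (N + 1)) c) :
    Itg (cup h' τ c (ψU - ψV)) = 0 := by
  obtain ⟨a, ha, hca⟩ := hcU
  obtain ⟨b, hb, hcb⟩ := hcV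
  have hab : Coc (invt τ) univ ((U ∪ V)ᶜ ∪ bd (N + 1)) (a - b) := by
    constructor
    · refine (ha.mono ?_).sub (hb.mono ?_)
      · exact union_subset_union_left _ (compl_subset_compl.2 subset_union_left)
      · exact union_subset_union_left _ (compl_subset_compl.2 subset_union_right)
    · rw [pinjmv_dd_sub']
      intro x hx
      filter_upwards [hca x hx, hcb x hx] with t e1 e2
      simp only [Pi.sub_apply] at e1 e2 ⊢
      rw [sub_eq_zero] at e1 e2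
      rw [← e1, ← e2, sub_self]
  have hsub : (univ : Set (Q (N + 1))) \ ((U ∪ V)ᶜ ∪ bd (N + 1)) ⊆ U ∪ V := by
    intro x hx
    by_contra hxU
    exact hx.2 (Or.inl hxU)
  have hsub2 : (univ : Set (Q (N + 1))) \ ((U ∩ V)ᶜ ∪ bd (N + 1)) ⊆ U ∩ V := by
    intro x hx
    by_contra hxU
    exact hx.2 (Or.inl hxU)
  have hI := H _ hab
  have hcoc1 : Coc one univ (bd (N + 1)) (cup h τ (a - b) φ) :=
    (cup_coc h (hτ.mono hsub) hab (hφ.mono hsub)).mono le_rfl subset_union_right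
  have hχ : LZ (U ∩ V) (dd τ (ψU - ψV)) := by
    rw [pinjmv_dd_sub]
    intro x hx
    filter_upwards [hψU x hx.1, hψV x hx.2] with t e1 e2
    simp only [Pi.sub_apply] at e1 e2 ⊢
    rw [sub_eq_zero] at e1 e2
    rw [← e1, ← e2, sub_self]
  have hcoc2 : Coc one univ (bd (N + 1)) (cup h' τ c (ψU - ψV)) :=
    (cup_coc h' (hτ.mono (hsub2.trans (inter_subset_left.trans subset_union_left))) hc
      (hχ.mono hsub2)).mono le_rfl subset_union_right
  have hlU := pinjmv_leib hN h h' (hτ.mono subset_union_left) hψU ha hca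
  have hlV := pinjmv_leib hN h h' (hτ.mono subset_union_right) hψV hb hcb
  have hcob : Cob one univ (bd (N + 1))
      (cup h' τ c (ψU - ψV) - (-((-1 : ℤ) ^ q • cup h τ (a - b) φ))) := by
    refine ⟨cup hN τ a ψU - cup hN τ b ψV, ?_, ?_⟩
    · exact (cup_left hN (ha.mono subset_union_right) _).sub
        (cup_left hN (hb.mono subset_union_right) _)
    · rw [dd_sub (one : Q (N + 1) → Q (N + 1) → ℤˣ), cup_sub_right, cup_sub_left]
      intro x hx
      filter_upwards [hlU x hx, hlV x hx] with t e1 e2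
      simp only [Pi.sub_apply, Pi.neg_apply, Pi.smul_apply] at e1 e2 ⊢
      rw [sub_eq_zero] at e1 e2
      rw [e1, e2, smul_sub]
      abel
  have hcoc3 : Coc one univ (bd (N + 1)) ((-1 : ℤ) ^ q • cup h τ (a - b) φ) := by
    have hz := (Itg_zero_iff hcoc1).1 hI
    constructor
    · exact pinjmv_lz_smul _ hcoc1.1
    · have e : dd one ((-1 : ℤ) ^ q • cup h τ (a - b) φ) =
          (-1 : ℤ) ^ q • dd one (cup h τ (a - b) φ) := by
        rcases neg_one_pow_eq_or ℤ q with hq | hq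
        · rw [hq, one_smul, one_smul]
        · rw [hq, neg_one_smul, neg_one_smul, dd_neg]
      rw [e]
      exact pinjmv_lz_smul _ hcoc1.2
  rw [Itg_congr hcoc2 hcob]
  have e0 : Itg ((-1 : ℤ) ^ q • cup h τ (a - b) φ) = 0 := by
    rw [Itg_smul _ hcoc1, hI, smul_zero]
  have h4 := Itg_sub (Coc.zero one univ (bd (N + 1))) hcoc3
  rw [zero_sub, e0, sub_zero] at h4
  rw [h4]
  exact Itg_cob (Cob.zero one univ (bd (N + 1)))

private theorem pinjmv_main (hD : Module.Baer R D) {N q m : ℕ} (hN : q + m = N)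
    (h : q + (m + 1) = N + 1) {U V : Set (Q (N + 1))} (hU : IsOpen U) (hV : IsOpen V)
    (iUV : PInj R D (U ∩ V)) (sU : PSur R D U) (sV : PSur R D V)
    {τ : Q (N + 1) → Q (N + 1) → Rˣ}
    (hτ : IsTw (U ∪ V) τ) {φ : Coch (Q (N + 1)) D (m + 1)} (hφ : LZ (U ∪ V) (dd τ φ))
    (H : ∀ c : Coch (Q (N + 1)) R q, Coc (invt τ) univ ((U ∪ V)ᶜ ∪ bd (N + 1)) c →
      Itg (cup h τ c φ) = 0)
    {ψU ψV : Coch (Q (N + 1)) D m} (hψU : LZ U (φ - dd τ ψU)) (hψV : LZ V (φ - dd τ ψV)) :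
    ∃ ψ : Coch (Q (N + 1)) D m, LZ (U ∪ V) (φ - dd τ ψ) := by
  have h' : q + 1 + m = N + 1 := by omega
  have hsub2 : (univ : Set (Q (N + 1))) \ ((U ∩ V)ᶜ ∪ bd (N + 1)) ⊆ U ∩ V := by
    intro x hx
    by_contra hxU
    exact hx.2 (Or.inl hxU)
  have hχ : LZ (U ∩ V) (dd τ (ψU - ψV)) := by
    rw [pinjmv_dd_sub]
    intro x hx
    filter_upwards [hψU x hx.1, hψV x hx.2] with t e1 e2
    simp only [Pi.sub_apply] at e1 e2 ⊢
    rw [sub_eq_zero] at e1 e2
    rw [← e1, ← e2, sub_self]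
  have hτ2 : IsTw (univ \ ((U ∩ V)ᶜ ∪ bd (N + 1))) τ :=
    hτ.mono (hsub2.trans (inter_subset_left.trans subset_union_left))
  have hcoc : ∀ c : Coch (Q (N + 1)) R (q + 1),
      Coc (invt τ) univ ((U ∩ V)ᶜ ∪ bd (N + 1)) c → ∀ η : Coch (Q (N + 1)) D m,
      LZ (U ∩ V) (dd τ η) → Coc one univ (bd (N + 1)) (cup h' τ c η) := by
    intro c hc η hη
    exact (cup_coc h' hτ2 hc (hη.mono hsub2)).mono le_rfl subset_union_right
  -- the submodules
  obtain ⟨C, hC⟩ := pinjmv_cocmod (invt τ) univ ((U ∩ V)ᶜ ∪ bd (N + 1)) (q + 1)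
  obtain ⟨BU, hBU⟩ := pinjmv_cobmod (invt τ) univ (Uᶜ ∪ bd (N + 1)) (q + 1)
  obtain ⟨BV, hBV⟩ := pinjmv_cobmod (invt τ) univ (Vᶜ ∪ bd (N + 1)) (q + 1)
  obtain ⟨l, hl⟩ : ∃ l : C →ₗ[R] D, ∀ c : C, l c = Itg (cup h' τ (c : Coch (Q (N + 1)) R (q + 1))
      (ψU - ψV)) :=
    ⟨{ toFun := fun c => Itg (cup h' τ (c : Coch (Q (N + 1)) R (q + 1)) (ψU - ψV))
       map_add' := fun c c' => by
        show Itg (cup h' τ ((c : Coch (Q (N + 1)) R (q + 1)) + c') (ψU - ψV)) = _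
        rw [cup_add_left]
        exact Itg_add (hcoc _ ((hC _).1 c.2) _ hχ) (hcoc _ ((hC _).1 c'.2) _ hχ)
       map_smul' := fun r c => by
        show Itg (cup h' τ (r • (c : Coch (Q (N + 1)) R (q + 1))) (ψU - ψV)) = _
        rw [cup_smul_left]
        exact Itg_smul r (hcoc _ ((hC _).1 c.2) _ hχ) }, fun _ => rfl⟩
  obtain ⟨lU, lV, hlU, hlV, hsum⟩ := pinjmv_ext hD C BU BV l (fun c hcU hcV => by
    rw [hl]
    exact pinjmv_claim hN h h' hτ hφ H hψU hψV ((hC _).1 c.2) ((hBU _).1 hcU) ((hBV _).1 hcV))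
  obtain ⟨α, hα, hα'⟩ := sU τ (hτ.mono subset_union_left) (q + 1) m h' lU
    (fun c _ hc => hlU c ((hBU c).2 hc))
  obtain ⟨β, hβ, hβ'⟩ := sV τ (hτ.mono subset_union_right) (q + 1) m h' (-lV)
    (fun c _ hc => by
      rw [LinearMap.neg_apply, hlV c ((hBV c).2 hc), neg_zero])
  have hα2 : LZ (U ∩ V) (dd τ α) := hα.mono inter_subset_left
  have hβ2 : LZ (U ∩ V) (dd τ β) := hβ.mono inter_subset_right
  have hχαβ : LZ (U ∩ V) (dd τ (ψU - ψV - α + β)) := by
    rw [pinjmv_dd_add, pinjmv_dd_sub]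
    exact (hχ.sub hα2).add hβ2
  have hCU : (Uᶜ ∪ bd (N + 1)) ⊆ ((U ∩ V)ᶜ ∪ bd (N + 1)) :=
    union_subset_union_left _ (compl_subset_compl.2 inter_subset_left)
  have hCV : (Vᶜ ∪ bd (N + 1)) ⊆ ((U ∩ V)ᶜ ∪ bd (N + 1)) :=
    union_subset_union_left _ (compl_subset_compl.2 inter_subset_right)
  have hcob : Cob τ (U ∩ V) ∅ (ψU - ψV - α + β) := by
    refine iUV τ (hτ.mono (inter_subset_left.trans subset_union_left)) (q + 1) m h' _ hχαβ
      (fun c hc => ?_)
    rw [cup_add_right, cup_sub_right,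
      Itg_add ((hcoc c hc _ hχ).sub (hcoc c hc _ hα2)) (hcoc c hc _ hβ2),
      Itg_sub (hcoc c hc _ hχ) (hcoc c hc _ hα2),
      hα' c (pinjmv_mono hCU hc), hβ' c (pinjmv_mono hCV hc)]
    have h1 := hsum ⟨c, (hC c).2 hc⟩
    rw [hl] at h1
    rw [h1, LinearMap.neg_apply]
    abel
  obtain ⟨ζ, hζ1, hζ2⟩ : ∃ ζ : Coch (Q (N + 1)) D m, LZ (U ∩ V) (ψU - ψV - α + β - ζ) ∧
      LZ (U ∪ V) (dd τ ζ) := by
    cases m with
    | zero =>
      refine ⟨0, ?_, ?_⟩
      · rw [sub_zero]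
        exact hcob
      · rw [pinjmv_dd_zero]
        exact LZ.zero _
    | succ k =>
      obtain ⟨ξ, -, hξ⟩ := hcob
      exact ⟨dd τ ξ, hξ, LZ_dd_dd hτ ξ⟩
  obtain ⟨ψ, hψ1, hψ2⟩ := glue (Sepd.open hU hV) (ψU - α - ζ) (ψV - β) (by
    have e : ψU - α - ζ - (ψV - β) = ψU - ψV - α + β - ζ := by abel
    rw [e]
    exact hζ1)
  refine ⟨ψ, LZ.union ?_ ?_⟩
  · have h1 := hψ1.dd τ
    rw [pinjmv_dd_sub, pinjmv_dd_sub, pinjmv_dd_sub] at h1
    have hζ3 : LZ U (dd τ ζ) := hζ2.mono subset_union_left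
    intro x hx
    filter_upwards [h1 x hx, hψU x hx, hα x hx, hζ3 x hx] with t e1 e2 e3 e4
    simp only [Pi.sub_apply] at e1 e2 e3 e4 ⊢
    rw [e3, e4, sub_zero, sub_zero, sub_eq_zero] at e1
    rw [e1]
    exact e2
  · have h1 := hψ2.dd τ
    rw [pinjmv_dd_sub, pinjmv_dd_sub] at h1
    intro x hx
    filter_upwards [h1 x hx, hψV x hx, hβ x hx] with t e1 e2 e3
    simp only [Pi.sub_apply] at e1 e2 e3 ⊢
    rw [e3, sub_zero, sub_eq_zero] at e1
    rw [e1]
    exact e2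

end

theorem pinj_union {R D : Type} [CommRing R] [AddCommGroup D] [Module R D]
    (hD : Module.Baer R D) {n : ℕ} {U V : Set (Q n)} (hU : IsOpen U) (hV : IsOpen V)
    (iU : PInj R D U) (iV : PInj R D V) (iUV : PInj R D (U ∩ V)) (sU : PSur R D U)
    (sV : PSur R D V) : PInj R D (U ∪ V) := by
  intro τ hτ q p h φ hφ H
  have h1 : Cob τ U ∅ φ := iU τ (hτ.mono subset_union_left) q p h φ (hφ.mono subset_union_left)
    (fun c hc => H c (pinjmv_mono
      (union_subset_union_left _ (compl_subset_compl.2 subset_union_left)) hc))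
  have h2 : Cob τ V ∅ φ := iV τ (hτ.mono subset_union_right) q p h φ (hφ.mono subset_union_right)
    (fun c hc => H c (pinjmv_mono
      (union_subset_union_left _ (compl_subset_compl.2 subset_union_right)) hc))
  cases p with
  | zero => exact LZ.union h1 h2
  | succ m =>
    obtain ⟨N, rfl⟩ : ∃ N, n = N + 1 := ⟨q + m, by omega⟩
    obtain ⟨ψU, -, hψU⟩ := h1
    obtain ⟨ψV, -, hψV⟩ := h2
    obtain ⟨ψ, hψ⟩ := pinjmv_main hD (by omega : q + m = N) h hU hV iUV sU sV hτ hφ H hψU hψV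
    exact ⟨ψ, LZ.empty ψ, hψ⟩

end PoolFbd
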