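import Pool.Agent.Work.MP_fbd21a_gt.PDefs
import Pool.Agent.Work.MP_fbd21a_gt.IntP
import Pool.Agent.Work.MP_fbd21a_gt.CupL
import Pool.Agent.Work.MP_fbd21a_gt.Glue
import Pool.Agent.Work.MP_fbd21a_gt.DdDd

/-! MODULE PSurMV. Mayer-Vietoris step for the surjectivity half. D injective over R.
PROOF. l a functional in degree q for U ∪ V, q + p = n. It is also a functional for U and for V
(cochains for U are cochains for U ∪ V). PSur U, PSur V: φU near U, φV near V, representing l on the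
cocycles for U, V. On U ∩ V, φU - φV pairs to zero with all c for U ∩ V, so by PInj (U ∩ V) it is a
coboundary near U ∩ V: p = 0: zero; p = m+1: dd τ ξ. Replace φU by φU - dd τ ξ (this changes
nothing in the pairing: cup_cob_right; dd dd = 0 near U). Glue to φ near U ∪ V, a cocycle.
φ represents l on cocycles for U and for V. l' = l - pairing with φ (on cocycles for U ∪ V).
Let
C = cocycles c for U ∪ V (degree q). Using A = the cut set of glue_cut applied to the closed sets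
S₁ = Vᶜ... : write every cochain c zero near (U ∪ V)ᶜ ∪ bd as cU + cV, cU zero near Uᶜ ∪ bd,
cV zero near Vᶜ ∪ bd: the sets Uᶜ, Vᶜ are closed, take A with: A contains a neighbourhood of every
point of Uᶜ \ Vᶜ, and the complement of A a neighbourhood of every point of Vᶜ \ Uᶜ (glue_cut with
S₁ = Uᶜ, S₂ = Vᶜ); cV t = if t 0 ∈ A then c t else 0, cU = c - cV (both linear in c!). Near points of
Uᶜ: if also in Vᶜ, c = 0 near; else t 0 ∈ A so cU = 0. OK.
For c ∈ C put e(c) = dd (invt τ) cU, in degree q+1: it equals - dd cV near univ, so vanishes near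
Uᶜ ∪ Vᶜ ∪ bd: it is a cocycle for U ∩ V. The map e is R-linear. If e(c) is a coboundary for
U ∩ V, e(c) = dd a, a zero near (U∩V)ᶜ ∪ bd, then cU - a, cV + a are cocycles for U, V with
sum c, hence l'(c) = 0.
p = m+1: define on the submodule N = e(C) + B (B = coboundaries for U ∩ V vanishing near
(U∩V)ᶜ ∪ bd) of Coch R (q+1): λ(e(c) + b) = l'(c), well defined; extend to λ : Coch R (q+1) → D linear,
zero on B. PSur (U ∩ V) in degrees (q+1, m): η near U ∩ V of degree m with Itg (c' ∪ η) = λ c'.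
Let η' t = if t 0 ∈ A then 0 else η t and η'' = η' - η (so η'' = -η on A, 0 off A). Near points of
U \ V (these are in Vᶜ \ Uᶜ, so the complement of A) η'' = 0, near points of V \ U η' = 0. So dd τ η'' near U and dd τ η' near V
agree near U ∩ V; the cochain ζ obtained by gluing them (near U: dd η'', near V: dd η') is a
cocycle near U ∪ V of degree m+1 = p. Itg (c ∪ ζ) for c ∈ C: c = cU + cV,
c ∪ ζ = cU ∪ dd η'' + cV ∪ dd η' near univ = ± dd(..) ∓ (dd cU ∪ η'' + dd cV ∪ η')
= ± dd one (cU ∪ η'' + cV ∪ η') ∓ e(c) ∪ (η'' - η') = ... ± e(c) ∪ η. So for the right sign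
φ ± ζ represents l.
p = 0: q = n. Then l' is zero on C: for c ∈ C, e(c) has degree n+1, it is a coboundary for U ∩ V by
PTop (hypothesis hUV), so l'(c) = 0 as shown; φ represents l. -/

open Topology Filter Set

namespace PoolFbd

/-- the extension lemma -/
private theorem psurmv_ext {R D M M' : Type} [CommRing R] [AddCommGroup D] [Module R D]
    [AddCommGroup M] [Module R M] [AddCommGroup M'] [Module R M'] (hD : Module.Baer R D)
    (C : Submodule R M) (B : Submodule R M') (e : C →ₗ[R] M') (l : C →ₗ[R] D)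
    (hl : ∀ c : C, e c ∈ B → l c = 0) :
    ∃ lam : M' →ₗ[R] D, (∀ x ∈ B, lam x = 0) ∧ ∀ c : C, lam (e c) = l c := by
  obtain ⟨f, hf⟩ : ∃ f : C →ₗ[R] (M' ⧸ B), f = B.mkQ ∘ₗ e := ⟨_, rfl⟩
  have hfv : ∀ c : C, f c = B.mkQ (e c) := by
    intro c
    rw [hf]
    rfl
  have hker : LinearMap.ker f ≤ LinearMap.ker l := by
    intro c hc
    rw [LinearMap.mem_ker] at hc ⊢
    rw [hfv] at hc
    exact hl c ((Submodule.Quotient.mk_eq_zero B).1 hc)
  have hinj : Function.Injective ((LinearMap.ker f).liftQ f le_rfl) := by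
    rw [← LinearMap.ker_eq_bot, Submodule.ker_liftQ_eq_bot]
    exact le_rfl
  obtain ⟨g, hg⟩ := Module.Baer.extension_property hD ((LinearMap.ker f).liftQ f le_rfl) hinj
    ((LinearMap.ker f).liftQ l hker)
  refine ⟨g ∘ₗ B.mkQ, ?_, ?_⟩
  · intro x hx
    show g (B.mkQ x) = 0
    have : B.mkQ x = 0 := (Submodule.Quotient.mk_eq_zero B).2 hx
    rw [this]
    exact map_zero g
  · intro c
    show g (B.mkQ (e c)) = l c
    rw [← hfv]
    have h1 := DFunLike.congr_fun hg (Submodule.Quotient.mk c)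
    rw [LinearMap.comp_apply, Submodule.liftQ_apply, Submodule.liftQ_apply] at h1
    exact h1

section

variable {R D : Type} [CommRing R] [AddCommGroup D] [Module R D]

private theorem psurmv_lz_smul {E A : Type*} [TopologicalSpace E] [AddCommGroup A] {R : Type*}
    [CommRing R] [Module R A] {S : Set E} {n : ℕ} {φ : Coch E A n} (r : R) (h : LZ S φ) :
    LZ S (r • φ) := fun x hx => by
  filter_upwards [h x hx] with t a
  simp [a]

private theorem psurmv_dd_smul {E R : Type*} [CommRing R] (κ : E → E → Rˣ) {n : ℕ}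
    (r : R) (c : Coch E R n) : dd κ (r • c) = r • dd κ c := by
  funext t
  simp only [dd, Pi.smul_apply, smul_eq_mul, Units.smul_def, mul_add, Finset.mul_sum]
  congr 1
  · ring
  · refine Finset.sum_congr rfl fun i _ => ?_
    rw [mul_smul_comm]

private theorem psurmv_dd_sub {E R D : Type*} [CommRing R] [AddCommGroup D] [Module R D]
    (κ : E → E → Rˣ) {n : ℕ} (φ ψ : Coch E D n) : dd κ (φ - ψ) = dd κ φ - dd κ ψ :=
  dd_sub κ φ ψ

private theorem psurmv_dd_add {E R D : Type*} [CommRing R] [AddCommGroup D] [Module R D]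
    (κ : E → E → Rˣ) {n : ℕ} (φ ψ : Coch E D n) : dd κ (φ + ψ) = dd κ φ + dd κ ψ :=
  dd_add κ φ ψ

private theorem psurmv_dd_zero {E R D : Type*} [CommRing R] [AddCommGroup D] [Module R D]
    (κ : E → E → Rˣ) {n : ℕ} : dd κ (0 : Coch E D n) = 0 :=
  dd_zero κ

private theorem psurmv_dd_sub' {E R : Type*} [CommRing R]
    (κ : E → E → Rˣ) {n : ℕ} (φ ψ : Coch E R n) : dd κ (φ - ψ) = dd κ φ - dd κ ψ :=
  dd_sub κ φ ψ

private theorem psurmv_dd_add' {E R : Type*} [CommRing R]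
    (κ : E → E → Rˣ) {n : ℕ} (φ ψ : Coch E R n) : dd κ (φ + ψ) = dd κ φ + dd κ ψ :=
  dd_add κ φ ψ

private theorem psurmv_mono {E R : Type*} [TopologicalSpace E] [CommRing R] {κ : E → E → Rˣ}
    {S Z Z' : Set E} {n : ℕ} {c : Coch E R n} (hZ : Z' ⊆ Z) (h : Coc κ S Z c) : Coc κ S Z' c :=
  ⟨h.1.mono hZ, h.2⟩

private theorem psurmv_cob_mono {E R : Type*} [TopologicalSpace E] [CommRing R] {κ : E → E → Rˣ}
    {S Z Z' : Set E} {n : ℕ} {c : Coch E R n} (hZ : Z' ⊆ Z) (h : Cob κ S Z c) : Cob κ S Z' c := by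
  cases n with
  | zero => exact h
  | succ n =>
    obtain ⟨ψ, a, b⟩ := h
    exact ⟨ψ, a.mono hZ, b⟩

private theorem psurmv_coc_smul {E R : Type*} [TopologicalSpace E] [CommRing R] {κ : E → E → Rˣ}
    {S Z : Set E} {n : ℕ} (r : R) {c : Coch E R n} (h : Coc κ S Z c) : Coc κ S Z (r • c) :=
  ⟨psurmv_lz_smul r h.1, by rw [psurmv_dd_smul]; exact psurmv_lz_smul r h.2⟩

private theorem psurmv_cob_smul {E R : Type*} [TopologicalSpace E] [CommRing R] {κ : E → E → Rˣ}
    {S Z : Set E} {n : ℕ} (r : R) {c : Coch E R n} (h : Cob κ S Z c) : Cob κ S Z (r • c) := by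
  cases n with
  | zero => exact psurmv_lz_smul r h
  | succ n =>
    obtain ⟨ψ, a, b⟩ := h
    refine ⟨r • ψ, psurmv_lz_smul r a, ?_⟩
    rw [psurmv_dd_smul, ← smul_sub]
    exact psurmv_lz_smul r b

private theorem psurmv_cocmod {E R : Type*} [TopologicalSpace E] [CommRing R] (κ : E → E → Rˣ)
    (S Z : Set E) (n : ℕ) : ∃ C : Submodule R (Coch E R n), ∀ c, c ∈ C ↔ Coc κ S Z c :=
  ⟨{ carrier := {c | Coc κ S Z c}
     add_mem' := fun {a b} ha hb => by
      have ha' : Coc κ S Z a := ha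
      have hb' : Coc κ S Z b := hb
      exact Coc.add (A := R) (G := Rˣ) ha' hb'
     zero_mem' := by
      have h0 : Coc κ S Z (0 : Coch E R n) := Coc.zero κ S Z
      exact h0
     smul_mem' := fun r c hc => by
      have hc' : Coc κ S Z c := hc
      exact psurmv_coc_smul r hc' }, fun _ => Iff.rfl⟩

private theorem psurmv_cobmod {E R : Type*} [TopologicalSpace E] [CommRing R] (κ : E → E → Rˣ)
    (S Z : Set E) (n : ℕ) : ∃ C : Submodule R (Coch E R n), ∀ c, c ∈ C ↔ Cob κ S Z c :=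
  ⟨{ carrier := {c | Cob κ S Z c}
     add_mem' := fun {a b} ha hb => by
      have ha' : Cob κ S Z a := ha
      have hb' : Cob κ S Z b := hb
      exact Cob.add (A := R) (G := Rˣ) ha' hb'
     zero_mem' := by
      have h0 : Cob κ S Z (0 : Coch E R n) := Cob.zero κ S Z
      exact h0
     smul_mem' := fun r c hc => by
      have hc' : Cob κ S Z c := hc
      exact psurmv_cob_smul r hc' }, fun _ => Iff.rfl⟩

open Classical in
/-- cutting by the position of the first vertex -/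
private noncomputable def psurmvCut {E A : Type*} [AddCommGroup A] (W : Set E) {n : ℕ}
    (c : Coch E A n) : Coch E A n := fun t => if t 0 ∈ W then c t else 0

private theorem psurmv_cut_add {E A : Type*} [AddCommGroup A] (W : Set E) {n : ℕ}
    (c c' : Coch E A n) : psurmvCut W (c + c') = psurmvCut W c + psurmvCut W c' := by
  classical
  funext t
  simp only [psurmvCut, Pi.add_apply]
  split_ifs
  · rfl
  · rw [add_zero]

private theorem psurmv_cut_smul {E R : Type*} [CommRing R] (W : Set E) {n : ℕ} (r : R)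
    (c : Coch E R n) : psurmvCut W (r • c) = r • psurmvCut W c := by
  classical
  funext t
  simp only [psurmvCut, Pi.smul_apply]
  split_ifs
  · rfl
  · rw [smul_zero]

private theorem psurmv_first {E : Type*} [TopologicalSpace E] {n : ℕ} {x : E} {P : E → Prop}
    (h : ∀ᶠ y in 𝓝 x, P y) : ∀ᶠ t in 𝓝 (fun _ : Fin (n + 1) => x), P (t 0) :=
  ((continuous_apply (0 : Fin (n + 1))).tendsto (fun _ : Fin (n + 1) => x)).eventually h

private theorem psurmv_cutV {E A : Type*} [TopologicalSpace E] [AddCommGroup A] {W U V K : Set E}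
    (h2 : ∀ x ∈ Vᶜ \ Uᶜ, ∀ᶠ y in 𝓝 x, y ∉ W) {n : ℕ} {c : Coch E A n}
    (hc : LZ ((U ∪ V)ᶜ ∪ K) c) : LZ (Vᶜ ∪ K) (psurmvCut W c) := by
  classical
  intro x hx
  by_cases hx' : x ∈ (U ∪ V)ᶜ ∪ K
  · filter_upwards [hc x hx'] with t ht
    simp only [psurmvCut, ht, ite_self]
  · have hxV : x ∈ Vᶜ := by
      rcases hx with h | h
      · exact h
      · exact absurd (Or.inr h) hx'
    have hxU : x ∉ Uᶜ := by
      intro hU
      apply hx'
      left
      rintro (h | h)
      · exact hU h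
      · exact hxV h
    filter_upwards [psurmv_first (h2 x ⟨hxV, hxU⟩)] with t ht
    simp only [psurmvCut]
    rw [if_neg ht]

private theorem psurmv_cutU {E A : Type*} [TopologicalSpace E] [AddCommGroup A] {W U V K : Set E}
    (h1 : ∀ x ∈ Uᶜ \ Vᶜ, ∀ᶠ y in 𝓝 x, y ∈ W) {n : ℕ} {c : Coch E A n}
    (hc : LZ ((U ∪ V)ᶜ ∪ K) c) : LZ (Uᶜ ∪ K) (c - psurmvCut W c) := by
  classical
  intro x hx
  by_cases hx' : x ∈ (U ∪ V)ᶜ ∪ K
  · filter_upwards [hc x hx'] with t ht
    simp only [psurmvCut, Pi.sub_apply, ht, ite_self, sub_zero]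
  · have hxU : x ∈ Uᶜ := by
      rcases hx with h | h
      · exact h
      · exact absurd (Or.inr h) hx'
    have hxV : x ∉ Vᶜ := by
      intro hV
      apply hx'
      left
      rintro (h | h)
      · exact hxU h
      · exact hV h
    filter_upwards [psurmv_first (h1 x ⟨hxU, hxV⟩)] with t ht
    simp only [psurmvCut, Pi.sub_apply]
    rw [if_pos ht, sub_self]

private theorem psurmv_sub {n : ℕ} (W : Set (Q n)) :
    (univ : Set (Q n)) \ (Wᶜ ∪ bd n) ⊆ W := by
  intro x hx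
  by_contra hxU
  exact hx.2 (Or.inl hxU)

/-- the boundary cocycle of the first part -/
private theorem psurmv_e {n q : ℕ} {U V W : Set (Q n)}
    (h1 : ∀ x ∈ Uᶜ \ Vᶜ, ∀ᶠ y in 𝓝 x, y ∈ W) (h2 : ∀ x ∈ Vᶜ \ Uᶜ, ∀ᶠ y in 𝓝 x, y ∉ W)
    {τ : Q n → Q n → Rˣ} (hτ : IsTw (U ∪ V) τ) {c : Coch (Q n) R q}
    (hc : Coc (invt τ) univ ((U ∪ V)ᶜ ∪ bd n) c) :
    Coc (invt τ) univ ((U ∩ V)ᶜ ∪ bd n) (dd (invt τ) (c - psurmvCut W c)) ∧
      LZ univ (dd (invt τ) (c - psurmvCut W c) + dd (invt τ) (psurmvCut W c)) := by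
  have hcU := psurmv_cutU h1 hc.1
  have hcV := psurmv_cutV h2 hc.1
  have hsum : LZ univ (dd (invt τ) (c - psurmvCut W c) + dd (invt τ) (psurmvCut W c)) := by
    rw [psurmv_dd_sub']
    have : dd (invt τ) c - dd (invt τ) (psurmvCut W c) + dd (invt τ) (psurmvCut W c) =
      dd (invt τ) c := by abel
    rw [this]
    exact hc.2
  have hV' : LZ (Vᶜ) (dd (invt τ) (c - psurmvCut W c)) := by
    intro x hx
    have h3 := LZ.dd (A := R) (G := Rˣ) (hcV.mono (subset_union_left : Vᶜ ⊆ Vᶜ ∪ bd n)) (invt τ)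
    filter_upwards [hsum x (mem_univ x), h3 x hx] with t e1 e2
    rw [Pi.add_apply, e2, add_zero] at e1
    exact e1
  have hU' := LZ.dd (A := R) (G := Rˣ) hcU (invt τ)
  refine ⟨⟨?_, ?_⟩, hsum⟩
  · rintro x (hx | hx)
    · rw [compl_inter] at hx
      rcases hx with hx | hx
      · exact hU' x (Or.inl hx)
      · exact hV' x hx
    · exact hU' x (Or.inr hx)
  · exact LZ_dd_dd' (A := R) (G := Rˣ)
      ((hτ.mono ((psurmv_sub U).trans subset_union_left)).inv) hcU

/-- cocycles whose boundary cocycle is a coboundary -/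
private theorem psurmv_split {n q p : ℕ} (h : q + p = n) {U V W : Set (Q n)}
    (h1 : ∀ x ∈ Uᶜ \ Vᶜ, ∀ᶠ y in 𝓝 x, y ∈ W) (h2 : ∀ x ∈ Vᶜ \ Uᶜ, ∀ᶠ y in 𝓝 x, y ∉ W)
    {τ : Q n → Q n → Rˣ} (hτ : IsTw (U ∪ V) τ) {φ : Coch (Q n) D p}
    (hφ : LZ (U ∪ V) (dd τ φ)) (l : Coch (Q n) R q →ₗ[R] D)
    (hlU : ∀ c, Coc (invt τ) univ (Uᶜ ∪ bd n) c → Itg (cup h τ c φ) = l c)
    (hlV : ∀ c, Coc (invt τ) univ (Vᶜ ∪ bd n) c → Itg (cup h τ c φ) = l c)
    {c : Coch (Q n) R q} (hc : Coc (invt τ) univ ((U ∪ V)ᶜ ∪ bd n) c)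
    (he : Cob (invt τ) univ ((U ∩ V)ᶜ ∪ bd n) (dd (invt τ) (c - psurmvCut W c))) :
    Itg (cup h τ c φ) = l c := by
  obtain ⟨a, ha, hea⟩ := he
  have hcU := psurmv_cutU h1 hc.1
  have hcV := psurmv_cutV h2 hc.1
  have hsum := (psurmv_e h1 h2 hτ hc).2
  have k1 : Coc (invt τ) univ (Uᶜ ∪ bd n) (c - psurmvCut W c - a) := by
    refine ⟨hcU.sub (ha.mono (union_subset_union_left _
      (compl_subset_compl.2 inter_subset_left))), ?_⟩
    rw [psurmv_dd_sub']
    exact hea
  have k2 : Coc (invt τ) univ (Vᶜ ∪ bd n) (psurmvCut W c + a) := by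
    refine ⟨hcV.add (ha.mono (union_subset_union_left _
      (compl_subset_compl.2 inter_subset_right))), ?_⟩
    rw [psurmv_dd_add']
    intro x hx
    filter_upwards [hea x hx, hsum x hx] with t e1 e2
    simp only [Pi.sub_apply, Pi.add_apply] at e1 e2 ⊢
    rw [sub_eq_zero] at e1
    rw [← e1, add_comm]
    exact e2
  have hUV1 : (U ∪ V)ᶜ ∪ bd n ⊆ Uᶜ ∪ bd n :=
    union_subset_union_left _ (compl_subset_compl.2 subset_union_left)
  have hUV2 : (U ∪ V)ᶜ ∪ bd n ⊆ Vᶜ ∪ bd n :=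
    union_subset_union_left _ (compl_subset_compl.2 subset_union_right)
  have m1 : Coc one univ (bd n) (cup h τ (c - psurmvCut W c - a) φ) :=
    (cup_coc h (hτ.mono (psurmv_sub _)) (psurmv_mono hUV1 k1) (hφ.mono (psurmv_sub _))).mono
      le_rfl subset_union_right
  have m2 : Coc one univ (bd n) (cup h τ (psurmvCut W c + a) φ) :=
    (cup_coc h (hτ.mono (psurmv_sub _)) (psurmv_mono hUV2 k2) (hφ.mono (psurmv_sub _))).mono
      le_rfl subset_union_right
  have ec : c = (c - psurmvCut W c - a) + (psurmvCut W c + a) := by abel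
  have e1 : cup h τ c φ = cup h τ (c - psurmvCut W c - a) φ + cup h τ (psurmvCut W c + a) φ := by
    rw [← cup_add_left, ← ec]
  rw [e1, Itg_add m1 m2, hlU _ k1, hlV _ k2, ← map_add, ← ec]

/-- the correction term -/
private theorem psurmv_corr {N q m : ℕ} (hN : q + m = N) (h : q + (m + 1) = N + 1)
    (h' : q + 1 + m = N + 1) {U V W : Set (Q (N + 1))} (hU : IsOpen U) (hV : IsOpen V)
    (h1 : ∀ x ∈ Uᶜ \ Vᶜ, ∀ᶠ y in 𝓝 x, y ∈ W) (h2 : ∀ x ∈ Vᶜ \ Uᶜ, ∀ᶠ y in 𝓝 x, y ∉ W)
    {τ : Q (N + 1) → Q (N + 1) → Rˣ} (hτ : IsTw (U ∪ V) τ) {η : Coch (Q (N + 1)) D m}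
    (hη : LZ (U ∩ V) (dd τ η)) :
    ∃ ζ : Coch (Q (N + 1)) D (m + 1), LZ (U ∪ V) (dd τ ζ) ∧
      ∀ c : Coch (Q (N + 1)) R q, Coc (invt τ) univ ((U ∪ V)ᶜ ∪ bd (N + 1)) c →
        Itg (cup h τ c ζ) = (-1 : ℤ) ^ q •
          Itg (cup h' τ (dd (invt τ) (c - psurmvCut W c)) η) := by
  classical
  obtain ⟨η', hη'⟩ : ∃ η' : Coch (Q (N + 1)) D m, η' = η - psurmvCut W η := ⟨_, rfl⟩
  -- near U minus V the cochain psurmvCut W η vanishes, near V minus U the cochain η'
  have v1 : LZ (U \ V) (psurmvCut W η) := by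
    intro x hx
    have hx' : x ∈ Vᶜ \ Uᶜ := ⟨hx.2, fun hc => hc hx.1⟩
    filter_upwards [psurmv_first (h2 x hx')] with t ht
    simp only [psurmvCut]
    rw [if_neg ht]
  have v2 : LZ (V \ U) η' := by
    intro x hx
    have hx' : x ∈ Uᶜ \ Vᶜ := ⟨hx.2, fun hc => hc hx.1⟩
    filter_upwards [psurmv_first (h1 x hx')] with t ht
    simp only [hη', psurmvCut, Pi.sub_apply]
    rw [if_pos ht, sub_self]
  obtain ⟨ζ, hζ1, hζ2⟩ := glue (Sepd.open hU hV) (dd τ (-psurmvCut W η)) (dd τ η') (by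
    rw [← psurmv_dd_sub]
    have e : -psurmvCut W η - η' = -η := by
      rw [hη']
      abel
    rw [e]
    have e2 : dd τ (-η) = -dd τ η := dd_neg τ η
    rw [e2]
    exact hη.neg)
  refine ⟨ζ, LZ.union ?_ ?_, fun c hc => ?_⟩
  · have k1 := hζ1.dd τ
    rw [psurmv_dd_sub] at k1
    exact LZ.congr k1 (LZ_dd_dd (hτ.mono subset_union_left) _)
  · have k1 := hζ2.dd τ
    rw [psurmv_dd_sub] at k1
    exact LZ.congr k1 (LZ_dd_dd (hτ.mono subset_union_right) _)
  have hcU := psurmv_cutU h1 hc.1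
  have hcV := psurmv_cutV h2 hc.1
  obtain ⟨hcoc, hsum⟩ := psurmv_e h1 h2 hτ hc
  have l1 := cup_leib hN h' h (S := univ) (hτ.mono ((psurmv_sub U).trans subset_union_left))
    hcU (-psurmvCut W η)
  have l2 := cup_leib hN h' h (S := univ) (hτ.mono ((psurmv_sub V).trans subset_union_right))
    hcV η'
  have z1 : LZ univ (cup h τ (c - psurmvCut W c) ζ -
      cup h τ (c - psurmvCut W c) (dd τ (-psurmvCut W η))) := by
    rw [← cup_sub_right]
    intro x _
    by_cases hx : x ∈ U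
    · exact cup_right h _ hζ1 x hx
    · exact cup_left h (hcU.mono subset_union_left) _ x hx
  have z2 : LZ univ (cup h τ (psurmvCut W c) ζ - cup h τ (psurmvCut W c) (dd τ η')) := by
    rw [← cup_sub_right]
    intro x _
    by_cases hx : x ∈ V
    · exact cup_right h _ hζ2 x hx
    · exact cup_left h (hcV.mono subset_union_left) _ x hx
  have z3 : LZ univ (cup h' τ (dd (invt τ) (c - psurmvCut W c) +
      dd (invt τ) (psurmvCut W c)) η') := cup_left h' hsum η'
  have ec : cup h τ c ζ = cup h τ (c - psurmvCut W c) ζ + cup h τ (psurmvCut W c) ζ := by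
    rw [← cup_add_left, sub_add_cancel]
  -- identity near everything
  have key : LZ univ ((-1 : ℤ) ^ q • cup h τ c ζ -
      cup h' τ (dd (invt τ) (c - psurmvCut W c)) η -
      dd one (cup hN τ (c - psurmvCut W c) (-psurmvCut W η) + cup hN τ (psurmvCut W c) η')) := by
    have e3 : cup h' τ (dd (invt τ) (c - psurmvCut W c)) η =
        cup h' τ (dd (invt τ) (c - psurmvCut W c)) η' -
          cup h' τ (dd (invt τ) (c - psurmvCut W c)) (-psurmvCut W η) := by
      rw [← cup_sub_right, hη']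
      congr 1
      abel
    rw [ec, e3, dd_add]
    rw [cup_add_left] at z3
    intro x hx
    filter_upwards [l1 x hx, l2 x hx, z1 x hx, z2 x hx, z3 x hx] with t a1 a2 a3 a4 a5
    simp only [Pi.sub_apply, Pi.add_apply, Pi.smul_apply] at a1 a2 a3 a4 a5 ⊢
    rw [sub_eq_zero] at a1 a2 a3 a4
    rw [add_eq_zero_iff_eq_neg] at a5
    rw [a1, a2, a3, a4, a5, smul_add]
    abel
  have hζc : LZ (U ∪ V) (dd τ ζ) := by
    refine LZ.union ?_ ?_
    · have k1 := hζ1.dd τ
      rw [psurmv_dd_sub] at k1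
      exact LZ.congr k1 (LZ_dd_dd (hτ.mono subset_union_left) _)
    · have k1 := hζ2.dd τ
      rw [psurmv_dd_sub] at k1
      exact LZ.congr k1 (LZ_dd_dd (hτ.mono subset_union_right) _)
  have m1 : Coc one univ (bd (N + 1)) (cup h τ c ζ) :=
    (cup_coc h (hτ.mono (psurmv_sub _)) hc (hζc.mono (psurmv_sub _))).mono le_rfl
      subset_union_right
  have m2 : Coc one univ (bd (N + 1)) (cup h' τ (dd (invt τ) (c - psurmvCut W c)) η) :=
    (cup_coc h' (hτ.mono ((psurmv_sub _).trans (inter_subset_left.trans subset_union_left)))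
      hcoc (hη.mono (psurmv_sub _))).mono le_rfl subset_union_right
  have m3 : Coc one univ (bd (N + 1)) ((-1 : ℤ) ^ q • cup h τ c ζ) := by
    constructor
    · exact psurmv_lz_smul _ m1.1
    · have e : dd one ((-1 : ℤ) ^ q • cup h τ c ζ) = (-1 : ℤ) ^ q • dd one (cup h τ c ζ) := by
        rcases neg_one_pow_eq_or ℤ q with hq | hq
        · rw [hq, one_smul, one_smul]
        · rw [hq, neg_one_smul, neg_one_smul, dd_neg]
      rw [e]
      exact psurmv_lz_smul _ m1.2
  have hcob : Cob one univ (bd (N + 1)) ((-1 : ℤ) ^ q • cup h τ c ζ -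
      cup h' τ (dd (invt τ) (c - psurmvCut W c)) η) := by
    refine ⟨cup hN τ (c - psurmvCut W c) (-psurmvCut W η) + cup hN τ (psurmvCut W c) η', ?_, key⟩
    exact (cup_left hN (hcU.mono subset_union_right) _).add
      (cup_left hN (hcV.mono subset_union_right) _)
  have hI := Itg_congr m3 hcob
  rw [Itg_smul _ m1] at hI
  rw [← hI, smul_smul]
  rcases neg_one_pow_eq_or ℤ q with hq | hq
  · rw [hq, one_mul, one_smul]
  · rw [hq]
    simp

end

theorem psur_union {R D : Type} [CommRing R] [AddCommGroup D] [Module R D]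
    (hD : Module.Baer R D) {n : ℕ} {U V : Set (Q n)} (hU : IsOpen U) (hV : IsOpen V)
    (iUV : PInj R D (U ∩ V)) (sU : PSur R D U)
    (sV : PSur R D V) (sUV : PSur R D (U ∩ V)) (hUV : PTop R (U ∩ V)) : PSur R D (U ∪ V) := by
  intro τ hτ q p h l hl
  have hUV1 : (U ∪ V)ᶜ ∪ bd n ⊆ Uᶜ ∪ bd n :=
    union_subset_union_left _ (compl_subset_compl.2 subset_union_left)
  have hUV2 : (U ∪ V)ᶜ ∪ bd n ⊆ Vᶜ ∪ bd n :=
    union_subset_union_left _ (compl_subset_compl.2 subset_union_right)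
  have hUV3 : Uᶜ ∪ bd n ⊆ (U ∩ V)ᶜ ∪ bd n :=
    union_subset_union_left _ (compl_subset_compl.2 inter_subset_left)
  have hUV4 : Vᶜ ∪ bd n ⊆ (U ∩ V)ᶜ ∪ bd n :=
    union_subset_union_left _ (compl_subset_compl.2 inter_subset_right)
  have hτU : IsTw U τ := hτ.mono subset_union_left
  have hτV : IsTw V τ := hτ.mono subset_union_right
  have hτI : IsTw (U ∩ V) τ := hτ.mono (inter_subset_left.trans subset_union_left)
  obtain ⟨φU, hφU, hφU'⟩ := sU τ hτU q p h l
    (fun c hc hc' => hl c (hc.mono hUV1) (psurmv_cob_mono hUV1 hc'))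
  obtain ⟨φV, hφV, hφV'⟩ := sV τ hτV q p h l
    (fun c hc hc' => hl c (hc.mono hUV2) (psurmv_cob_mono hUV2 hc'))
  have hdiff : LZ (U ∩ V) (dd τ (φU - φV)) := by
    rw [psurmv_dd_sub]
    exact (hφU.mono inter_subset_left).sub (hφV.mono inter_subset_right)
  have hcobd : Cob τ (U ∩ V) ∅ (φU - φV) := by
    refine iUV τ hτI q p h _ hdiff (fun c hc => ?_)
    have m1 : Coc one univ (bd n) (cup h τ c φU) :=
      (cup_coc h (hτI.mono (psurmv_sub _)) hc
        (hφU.mono ((psurmv_sub _).trans inter_subset_left))).mono le_rfl subset_union_right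
    have m2 : Coc one univ (bd n) (cup h τ c φV) :=
      (cup_coc h (hτI.mono (psurmv_sub _)) hc
        (hφV.mono ((psurmv_sub _).trans inter_subset_right))).mono le_rfl subset_union_right
    rw [cup_sub_right, Itg_sub m1 m2, hφU' c (psurmv_mono hUV3 hc), hφV' c (psurmv_mono hUV4 hc),
      sub_self]
  obtain ⟨ζ, hζ1, hζ2, hζ3⟩ : ∃ ζ : Coch (Q n) D p, LZ (U ∩ V) (φU - φV - ζ) ∧
      LZ (U ∪ V) (dd τ ζ) ∧ ∀ c : Coch (Q n) R q, Coc (invt τ) univ ((U ∪ V)ᶜ ∪ bd n) c →
        Itg (cup h τ c ζ) = 0 := by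
    cases p with
    | zero =>
      refine ⟨0, ?_, ?_, fun c hc => ?_⟩
      · rw [sub_zero]
        exact hcobd
      · rw [psurmv_dd_zero]
        exact LZ.zero _
      · exact Itg_cob (Cob.of_LZ (cup_right h c (LZ.zero univ)))
    | succ k =>
      obtain ⟨ξ, -, hξ⟩ := hcobd
      refine ⟨dd τ ξ, hξ, LZ_dd_dd hτ ξ, fun c hc => ?_⟩
      have hcr : Cob τ (univ \ ((U ∪ V)ᶜ ∪ bd n)) ∅ (dd τ ξ) := by
        refine ⟨ξ, LZ.empty ξ, ?_⟩
        rw [sub_self]
        exact LZ.zero _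
      exact Itg_cob ((cup_cob_right h (hτ.mono (psurmv_sub _)) hc hcr).mono le_rfl
        subset_union_right)
  obtain ⟨φ, hφ1, hφ2⟩ := glue (Sepd.open hU hV) (φU - ζ) φV (by
    have e : φU - ζ - φV = φU - φV - ζ := by abel
    rw [e]
    exact hζ1)
  have hφc : LZ (U ∪ V) (dd τ φ) := by
    refine LZ.union ?_ ?_
    · have k1 := hφ1.dd τ
      rw [psurmv_dd_sub, psurmv_dd_sub] at k1
      exact LZ.congr k1 (hφU.sub (hζ2.mono subset_union_left))
    · have k1 := hφ2.dd τ
      rw [psurmv_dd_sub] at k1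
      exact LZ.congr k1 hφV
  have hrepU : ∀ c, Coc (invt τ) univ (Uᶜ ∪ bd n) c → Itg (cup h τ c φ) = l c := by
    intro c hc
    have m1 : Coc one univ (bd n) (cup h τ c φ) :=
      (cup_coc h (hτ.mono (psurmv_sub _)) (psurmv_mono hUV1 hc)
        (hφc.mono (psurmv_sub _))).mono le_rfl subset_union_right
    have m2 : Coc one univ (bd n) (cup h τ c φU) :=
      (cup_coc h (hτU.mono (psurmv_sub _)) hc
        (hφU.mono (psurmv_sub _))).mono le_rfl subset_union_right
    have m3 : Coc one univ (bd n) (cup h τ c ζ) :=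
      (cup_coc h (hτ.mono (psurmv_sub _)) (psurmv_mono hUV1 hc)
        (hζ2.mono (psurmv_sub _))).mono le_rfl subset_union_right
    have hz : LZ univ (cup h τ c φ - cup h τ c (φU - ζ)) := by
      rw [← cup_sub_right]
      intro x _
      by_cases hx : x ∈ U
      · exact cup_right h _ hφ1 x hx
      · exact cup_left h (hc.1.mono subset_union_left) _ x hx
    rw [Itg_congr m1 (Cob.of_LZ hz), cup_sub_right, Itg_sub m2 m3,
      hζ3 c (psurmv_mono hUV1 hc), sub_zero, hφU' c hc]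
  have hrepV : ∀ c, Coc (invt τ) univ (Vᶜ ∪ bd n) c → Itg (cup h τ c φ) = l c := by
    intro c hc
    have m1 : Coc one univ (bd n) (cup h τ c φ) :=
      (cup_coc h (hτ.mono (psurmv_sub _)) (psurmv_mono hUV2 hc)
        (hφc.mono (psurmv_sub _))).mono le_rfl subset_union_right
    have hz : LZ univ (cup h τ c φ - cup h τ c φV) := by
      rw [← cup_sub_right]
      intro x _
      by_cases hx : x ∈ V
      · exact cup_right h _ hφ2 x hx
      · exact cup_left h (hc.1.mono subset_union_left) _ x hx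
    rw [Itg_congr m1 (Cob.of_LZ hz), hφV' c hc]
  obtain ⟨W, h1, h2⟩ := glue_cut (Sepd.closed hU.isClosed_compl hV.isClosed_compl)
  cases p with
  | zero =>
    refine ⟨φ, hφc, fun c hc => ?_⟩
    refine psurmv_split h h1 h2 hτ hφc l hrepU hrepV hc ?_
    exact hUV τ hτI (q + 1) (by omega) _ (psurmv_e h1 h2 hτ hc).1
  | succ m =>
    obtain ⟨N, rfl⟩ : ∃ N, n = N + 1 := ⟨q + m, by omega⟩
    have hN : q + m = N := by omega
    have h' : q + 1 + m = N + 1 := by omega
    have hco : ∀ c : Coch (Q (N + 1)) R q, Coc (invt τ) univ ((U ∪ V)ᶜ ∪ bd (N + 1)) c →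
        ∀ φ : Coch (Q (N + 1)) D (m + 1), LZ (U ∪ V) (dd τ φ) →
        Coc one univ (bd (N + 1)) (cup h τ c φ) := fun c hc φ hφc =>
      (cup_coc h (hτ.mono (psurmv_sub _)) hc (hφc.mono (psurmv_sub _))).mono le_rfl
        subset_union_right
    obtain ⟨C, hC⟩ := psurmv_cocmod (invt τ) univ ((U ∪ V)ᶜ ∪ bd (N + 1)) q
    obtain ⟨B, hB⟩ := psurmv_cobmod (invt τ) univ ((U ∩ V)ᶜ ∪ bd (N + 1)) (q + 1)
    obtain ⟨l', hl'⟩ : ∃ l' : C →ₗ[R] D, ∀ c : C, l' c = l (c : Coch (Q (N + 1)) R q) -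
        Itg (cup h τ (c : Coch (Q (N + 1)) R q) φ) :=
      ⟨{ toFun := fun c => l (c : Coch (Q (N + 1)) R q) -
          Itg (cup h τ (c : Coch (Q (N + 1)) R q) φ)
         map_add' := fun c c' => by
          show l ((c : Coch (Q (N + 1)) R q) + (c' : Coch (Q (N + 1)) R q)) -
            Itg (cup h τ ((c : Coch (Q (N + 1)) R q) + (c' : Coch (Q (N + 1)) R q)) φ) = _
          rw [cup_add_left, Itg_add (hco _ ((hC _).1 c.2) _ hφc) (hco _ ((hC _).1 c'.2) _ hφc),
            map_add]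
          abel
         map_smul' := fun r c => by
          show l (r • (c : Coch (Q (N + 1)) R q)) -
            Itg (cup h τ (r • (c : Coch (Q (N + 1)) R q)) φ) = _
          rw [cup_smul_left, Itg_smul r (hco _ ((hC _).1 c.2) _ hφc), map_smul, ← smul_sub]
          rfl }, fun _ => rfl⟩
    obtain ⟨e, he⟩ : ∃ e : C →ₗ[R] Coch (Q (N + 1)) R (q + 1), ∀ c : C, e c =
        dd (invt τ) ((c : Coch (Q (N + 1)) R q) - psurmvCut W (c : Coch (Q (N + 1)) R q)) :=
      ⟨{ toFun := fun c => dd (invt τ) ((c : Coch (Q (N + 1)) R q) -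
          psurmvCut W (c : Coch (Q (N + 1)) R q))
         map_add' := fun c c' => by
          show dd (invt τ) ((c : Coch (Q (N + 1)) R q) + (c' : Coch (Q (N + 1)) R q) -
            psurmvCut W ((c : Coch (Q (N + 1)) R q) + (c' : Coch (Q (N + 1)) R q))) = _
          rw [psurmv_cut_add, ← psurmv_dd_add']
          congr 1
          abel
         map_smul' := fun r c => by
          show dd (invt τ) (r • (c : Coch (Q (N + 1)) R q) -
            psurmvCut W (r • (c : Coch (Q (N + 1)) R q))) = _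
          rw [psurmv_cut_smul, ← smul_sub, psurmv_dd_smul]
          rfl }, fun _ => rfl⟩
    obtain ⟨lam, hlam1, hlam2⟩ := psurmv_ext hD C B e l' (fun c hc => by
      rw [he, hB] at hc
      rw [hl', sub_eq_zero]
      exact (psurmv_split h h1 h2 hτ hφc l hrepU hrepV ((hC _).1 c.2) hc).symm)
    obtain ⟨η, hη, hη'⟩ := sUV τ hτI (q + 1) m h' lam (fun c _ hc => hlam1 c ((hB c).2 hc))
    obtain ⟨θ, hθ1, hθ2⟩ := psurmv_corr hN h h' hU hV h1 h2 hτ hη
    have hθ3 : LZ (U ∪ V) (dd τ ((-1 : ℤ) ^ q • θ)) := by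
      rcases neg_one_pow_eq_or ℤ q with hq | hq
      · rw [hq, one_smul]
        exact hθ1
      · rw [hq, neg_one_smul]
        have e2 : dd τ (-θ) = -dd τ θ := dd_neg τ θ
        rw [e2]
        exact hθ1.neg
    refine ⟨φ + (-1 : ℤ) ^ q • θ, ?_, fun c hc => ?_⟩
    · rw [psurmv_dd_add]
      exact hφc.add hθ3
    · have e4 : cup h τ c ((-1 : ℤ) ^ q • θ) = (-1 : ℤ) ^ q • cup h τ c θ := by
        rcases neg_one_pow_eq_or ℤ q with hq | hq
        · rw [hq, one_smul, one_smul]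
        · rw [hq, neg_one_smul, neg_one_smul]
          have := cup_sub_right h (τ := τ) c 0 θ
          rw [zero_sub] at this
          rw [this]
          have e0 : cup h τ c (0 : Coch (Q (N + 1)) D (m + 1)) = 0 := by
            have h5 := cup_sub_right h (τ := τ) c (0 : Coch (Q (N + 1)) D (m + 1)) 0
            rw [sub_self, sub_self] at h5
            exact h5
          rw [e0, zero_sub]
      rw [cup_add_right, Itg_add (hco c hc _ hφc) (hco c hc _ hθ3), e4,
        Itg_smul _ (hco c hc _ hθ1), hθ2 c hc, smul_smul]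
      have e5 : ((-1 : ℤ) ^ q * (-1 : ℤ) ^ q) = 1 := by
        rw [← mul_pow]
        norm_num
      rw [e5, one_smul, hη' _ (psurmv_e h1 h2 hτ hc).1]
      have h6 := hlam2 ⟨c, (hC c).2 hc⟩
      rw [he, hl'] at h6
      rw [h6]
      abel

end PoolFbd
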