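import Pool.Agent.Work.MP_fbd21a_gt.Basic

/-! MODULE Gauge. Twists are trivial on acyclic sets; trivial twists can be gauged away. -/

open Topology Filter Set

namespace PoolFbd

theorem tw_trivial {E : Type*} [TopologicalSpace E] {S : Set E} (hS : Acyc S) {G : Type}
    [CommGroup G] {τ : E → E → G} (hτ : IsTw S τ) : ∃ σ : E → G, ∀ x ∈ S,
      ∀ᶠ t in 𝓝 (fun _ : Fin 2 => x), τ (t 0) (t 1) = (σ (t 0))⁻¹ * σ (t 1) := by
  have h1 := (hS.2 (Additive G)).2 0 (fun t => Additive.ofMul (τ (t 0) (t 1))) ?_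
  · obtain ⟨ψ, -, hψ⟩ := h1
    refine ⟨fun y => (ψ (fun _ => y)).toMul, fun x hx => ?_⟩
    filter_upwards [hψ x hx] with t ht
    have e : dd one ψ t = ψ (fun _ => t 1) - ψ (fun _ => t 0) := by
      have a1 : (fun j : Fin (0 + 1) => t j.succ) = fun _ => t 1 := by
        funext j
        obtain ⟨j, hj⟩ := j
        obtain rfl : j = 0 := by omega
        rfl
      have a2 : (fun j : Fin (0 + 1) => t ((Fin.succ 0 : Fin (0 + 1 + 1)).succAbove j)) =
          fun _ => t 0 := by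
        funext j
        obtain ⟨j, hj⟩ := j
        obtain rfl : j = 0 := by omega
        rfl
      simp only [dd, one, one_smul, Fin.sum_univ_succ, Finset.univ_eq_empty, Finset.sum_empty,
        add_zero, Fin.val_zero, zero_add, pow_one, neg_smul]
      rw [a1, a2, sub_eq_add_neg]
    have h2 : Additive.ofMul (τ (t 0) (t 1)) - dd one ψ t = 0 := ht
    rw [e, sub_eq_zero] at h2
    have h3 := congrArg Additive.toMul h2
    rw [toMul_ofMul, toMul_sub] at h3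
    rw [h3, div_eq_inv_mul]
  · intro x hx
    filter_upwards [hτ x hx] with t ht
    have e1 : (fun j : Fin (0 + 1 + 1) => t ((Fin.succ 0 : Fin (0 + 1 + 1 + 1)).succAbove j)) 0 =
        t 0 := rfl
    have e2 : (fun j : Fin (0 + 1 + 1) => t ((Fin.succ 0 : Fin (0 + 1 + 1 + 1)).succAbove j)) 1 =
        t 2 := rfl
    have e3 : (fun j : Fin (0 + 1 + 1) =>
        t ((Fin.succ (Fin.succ 0) : Fin (0 + 1 + 1 + 1)).succAbove j)) 0 = t 0 := rfl
    have e4 : (fun j : Fin (0 + 1 + 1) =>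
        t ((Fin.succ (Fin.succ 0) : Fin (0 + 1 + 1 + 1)).succAbove j)) 1 = t 1 := rfl
    have e5 : t (Fin.succ (0 : Fin (0 + 1 + 1))) = t 1 := rfl
    have e6 : t (Fin.succ (1 : Fin (0 + 1 + 1))) = t 2 := rfl
    simp only [dd, one, one_smul, Fin.sum_univ_succ, Finset.univ_eq_empty, Finset.sum_empty,
      add_zero, Fin.val_zero, zero_add, pow_one, neg_smul, Fin.val_succ] at e1 e2 e3 e4 ⊢
    rw [e1, e2, e3, e4, e5, e6, ← ht]
    simp

private theorem dd_gau_at {E A G : Type*} [TopologicalSpace E] [AddCommGroup A] [CommGroup G]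
    [DistribMulAction G A] {x : E} {τ : E → E → G} {σ : E → G}
    (hσ : ∀ᶠ t in 𝓝 (fun _ : Fin 2 => x), τ (t 0) (t 1) = (σ (t 0))⁻¹ * σ (t 1))
    {n : ℕ} (φ : Coch E A n) : ZeroAt (dd one (gau σ φ) - gau σ (dd τ φ)) x := by
  have h1 := (tendsto_face (fun j : Fin 2 => (⟨j.1, by omega⟩ : Fin (n + 1 + 1))) x).eventually hσ
  filter_upwards [h1] with t ht
  have ht' : τ (t 0) (t 1) = (σ (t 0))⁻¹ * σ (t 1) := ht
  have a0 : ∀ i : Fin (n + 1), i.succ.succAbove (0 : Fin (n + 1)) = 0 := by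
    intro i
    exact Fin.succ_succAbove_zero i
  have e1 : dd one (gau σ φ) t = σ (t 1) • φ (fun j => t j.succ) +
      ∑ i : Fin (n + 1), (-1 : ℤ) ^ ((i : ℕ) + 1) • σ (t 0) •
        φ (fun j => t (i.succ.succAbove j)) := by
    simp only [dd, one, one_smul, gau, a0]
    rfl
  have e2 : gau σ (dd τ φ) t = σ (t 1) • φ (fun j => t j.succ) +
      ∑ i : Fin (n + 1), (-1 : ℤ) ^ ((i : ℕ) + 1) • σ (t 0) •
        φ (fun j => t (i.succ.succAbove j)) := by
    simp only [gau, dd, smul_add, Finset.smul_sum]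
    congr 1
    · rw [← mul_smul, ht', mul_inv_cancel_left]
    · exact Finset.sum_congr rfl fun i _ => smul_comm _ _ _
  rw [Pi.sub_apply, e1, e2, sub_self]

theorem dd_gau {E A G : Type*} [TopologicalSpace E] [AddCommGroup A] [CommGroup G]
    [DistribMulAction G A] {S : Set E} {τ : E → E → G} {σ : E → G}
    (hσ : ∀ x ∈ S, ∀ᶠ t in 𝓝 (fun _ : Fin 2 => x), τ (t 0) (t 1) = (σ (t 0))⁻¹ * σ (t 1))
    {n : ℕ} (φ : Coch E A n) : LZ S (dd one (gau σ φ) - gau σ (dd τ φ)) :=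
  fun x hx => dd_gau_at (hσ x hx) φ

private theorem gau_inv {E A G : Type*} [AddCommGroup A] [CommGroup G] [DistribMulAction G A]
    (σ : E → G) {n : ℕ} (φ : Coch E A n) : gau (fun y => (σ y)⁻¹) (gau σ φ) = φ := by
  funext t
  simp [gau]

private theorem gau_inv' {E A G : Type*} [AddCommGroup A] [CommGroup G] [DistribMulAction G A]
    (σ : E → G) {n : ℕ} (φ : Coch E A n) : gau σ (gau (fun y => (σ y)⁻¹) φ) = φ := by
  funext t
  simp [gau]

private theorem LZ_gau_iff {E A G : Type*} [TopologicalSpace E] [AddCommGroup A] [CommGroup G]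
    [DistribMulAction G A] {S : Set E} (σ : E → G) {n : ℕ} (φ : Coch E A n) :
    LZ S φ ↔ LZ S (gau σ φ) := by
  refine ⟨fun h => h.gau σ, fun h => ?_⟩
  have := h.gau (fun y => (σ y)⁻¹)
  rwa [gau_inv] at this

private theorem dd_gau' {E A G : Type*} [TopologicalSpace E] [AddCommGroup A] [CommGroup G]
    [DistribMulAction G A] {S Z : Set E} {τ : E → E → G} {σ : E → G}
    (hσ : ∀ x ∈ S \ Z, ∀ᶠ t in 𝓝 (fun _ : Fin 2 => x), τ (t 0) (t 1) = (σ (t 0))⁻¹ * σ (t 1))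
    {n : ℕ} {φ : Coch E A n} (hφ : LZ Z φ) : LZ S (dd one (gau σ φ) - gau σ (dd τ φ)) := by
  intro x hx
  by_cases hz : x ∈ Z
  · exact (((hφ.gau σ).dd one).sub ((hφ.dd τ).gau σ)) x hz
  · exact dd_gau_at (hσ x ⟨hx, hz⟩) φ

theorem gau_coc {E A G : Type*} [TopologicalSpace E] [AddCommGroup A] [CommGroup G]
    [DistribMulAction G A] {S Z : Set E} {τ : E → E → G} {σ : E → G}
    (hσ : ∀ x ∈ S \ Z, ∀ᶠ t in 𝓝 (fun _ : Fin 2 => x), τ (t 0) (t 1) = (σ (t 0))⁻¹ * σ (t 1))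
    {n : ℕ} (φ : Coch E A n) : Coc τ S Z φ ↔ Coc one S Z (gau σ φ) := by
  constructor
  · intro h
    refine ⟨h.1.gau σ, ?_⟩
    exact LZ.congr (dd_gau' hσ h.1) (h.2.gau σ)
  · intro h
    have h1 : LZ Z φ := (LZ_gau_iff σ φ).2 h.1
    refine ⟨h1, (LZ_gau_iff σ _).2 ?_⟩
    exact LZ.congr (dd_gau' hσ h1).symm h.2

theorem gau_cob {E A G : Type*} [TopologicalSpace E] [AddCommGroup A] [CommGroup G]
    [DistribMulAction G A] {S Z : Set E} {τ : E → E → G} {σ : E → G}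
    (hσ : ∀ x ∈ S \ Z, ∀ᶠ t in 𝓝 (fun _ : Fin 2 => x), τ (t 0) (t 1) = (σ (t 0))⁻¹ * σ (t 1))
    {n : ℕ} {φ : Coch E A n} (hφ : LZ Z φ) : Cob τ S Z φ ↔ Cob one S Z (gau σ φ) := by
  cases n with
  | zero => exact LZ_gau_iff σ φ
  | succ n =>
    constructor
    · rintro ⟨ψ, h1, h2⟩
      refine ⟨gau σ ψ, h1.gau σ, ?_⟩
      have h3 := (h2.gau σ).sub (dd_gau' hσ h1)
      rw [gau_sub] at h3
      have e : gau σ φ - gau σ (dd τ ψ) - (dd one (gau σ ψ) - gau σ (dd τ ψ)) =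
          gau σ φ - dd one (gau σ ψ) := by abel
      rwa [e] at h3
    · rintro ⟨ψ', h1, h2⟩
      refine ⟨gau (fun y => (σ y)⁻¹) ψ', h1.gau _, (LZ_gau_iff σ _).2 ?_⟩
      have h3 := h2.add (dd_gau' hσ (h1.gau (fun y => (σ y)⁻¹)))
      rw [gau_inv'] at h3
      rw [gau_sub]
      have e : gau σ φ - dd one ψ' + (dd one ψ' - gau σ (dd τ (gau (fun y => (σ y)⁻¹) ψ'))) =
          gau σ φ - gau σ (dd τ (gau (fun y => (σ y)⁻¹) ψ')) := by abel
      rwa [e] at h3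

end PoolFbd
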