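import Pool.Agent.Work.MP_fbd21a_gt.DdDd

/-! MODULE AcExh. An increasing union of closed acyclic sets, each in the interior of the next, is
acyclic (this gives open boxes from closed boxes). -/

open Topology Filter Set

namespace PoolFbd

theorem acyc_exhaust {E : Type*} [PseudoMetricSpace E] (C : ℕ → Set E)
    (hC : ∀ k, IsClosed (C k)) (hint : ∀ k, C k ⊆ interior (C (k + 1)))
    (hac : ∀ k, Acyc (C k)) : Acyc (⋃ k, C k) := by
  classical
  have hmono : Monotone C := monotone_nat_of_le_succ fun k => (hint k).trans interior_subset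
  obtain ⟨x₀, hx₀⟩ := (hac 0).1
  refine ⟨⟨x₀, mem_iUnion.2 ⟨0, hx₀⟩⟩, fun A _ => ⟨fun φ hφ => ?_, fun n φ hφ => ?_⟩⟩
  · choose a ha using fun k => ((hac k).2 A).1 φ (hφ.mono (subset_iUnion C k))
    have hval : ∀ k, φ (fun _ => x₀) = a k := by
      intro k
      have e1 : φ (fun _ => x₀) - a k = 0 :=
        (ha k x₀ (hmono (Nat.zero_le k) hx₀)).self_of_nhds
      rwa [sub_eq_zero] at e1
    refine ⟨a 0, fun x hx => ?_⟩
    obtain ⟨k, hk⟩ := mem_iUnion.1 hx
    have := ha k x hk
    rw [← hval k, hval 0] at this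
    exact this
  · have hstep : ∀ (k : ℕ) (ψ : Coch E A n), LZ (C k) (φ - dd one ψ) →
        ∃ ψ' : Coch E A n, LZ (C (k + 1)) (φ - dd one ψ') ∧ LZ (C k) (ψ' - ψ) := by
      intro k ψ hψ
      obtain ⟨ψ', -, hψ'⟩ := ((hac (k + 1)).2 A).2 n φ (hφ.mono (subset_iUnion C (k + 1)))
      have hd : LZ (C k) (dd one (ψ' - ψ)) := by
        rw [dd_sub]
        have := hψ.sub (hψ'.mono (hmono (Nat.le_succ k)))
        have e : φ - dd one ψ - (φ - dd one ψ') = dd one ψ' - dd one ψ := by abel
        rwa [e] at this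
      obtain ⟨ρ, h1, h2⟩ : ∃ ρ : Coch E A n, LZ (C (k + 1)) (dd one ρ) ∧
          LZ (C k) (ψ' - ρ - ψ) := by
        cases n with
        | zero =>
          obtain ⟨a, ha⟩ := ((hac k).2 A).1 _ hd
          refine ⟨cst E 0 a, ?_, ?_⟩
          · have : dd one (cst E 0 a) = 0 := by
              funext t
              simp [dd, cst, one]
            rw [this]
            exact LZ.zero _
          · have e : ψ' - ψ - cst E 0 a = ψ' - cst E 0 a - ψ := by abel
            rwa [e] at ha
        | succ m =>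
          obtain ⟨χ, -, hχ⟩ := ((hac k).2 A).2 m _ hd
          refine ⟨dd one χ, LZ_dd_dd (IsTw.one _) χ, ?_⟩
          have e : ψ' - ψ - dd one χ = ψ' - dd one χ - ψ := by abel
          rwa [e] at hχ
      refine ⟨ψ' - ρ, ?_, h2⟩
      have h3 := hψ'.add h1
      rw [dd_sub]
      have e : φ - dd one ψ' + dd one ρ = φ - (dd one ψ' - dd one ρ) := by abel
      rwa [e] at h3
    choose! F hF1 hF2 using hstep
    obtain ⟨ψ0, -, hψ0⟩ := ((hac 0).2 A).2 n φ (hφ.mono (subset_iUnion C 0))
    let s : ℕ → Coch E A n := fun k => Nat.rec ψ0 (fun k ψ => F k ψ) k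
    have hs0 : s 0 = ψ0 := rfl
    have hss : ∀ k, s (k + 1) = F k (s k) := fun k => rfl
    have hs : ∀ k, LZ (C k) (φ - dd one (s k)) := by
      intro k
      induction k with
      | zero => exact hψ0
      | succ k ih =>
        rw [hss]
        exact hF1 k (s k) ih
    have hd : ∀ k, LZ (C k) (s (k + 1) - s k) := by
      intro k
      rw [hss]
      exact hF2 k (s k) (hs k)
    let kk : E → ℕ := fun y => if h : ∃ k, y ∈ C k then Nat.find h else 0
    refine ⟨fun t => s (kk (t 0)) t, LZ.empty _, fun x hx => ?_⟩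
    have hex : ∃ k, x ∈ C k := mem_iUnion.1 hx
    set m := Nat.find hex with hm
    have hxm : x ∈ C m := Nat.find_spec hex
    have h1 : ∀ᶠ y in 𝓝 x, y ∈ C (m + 1) := mem_interior_iff_mem_nhds.1 (hint m hxm)
    have h2 : ∀ᶠ y in 𝓝 x, ∀ j < m, y ∉ C j := by
      rcases Nat.eq_zero_or_pos m with h0 | h0
      · exact Eventually.of_forall fun y j hj => by omega
      · have h3 : x ∉ C (m - 1) := Nat.find_min hex (by omega)
        have h4 : ∀ᶠ y in 𝓝 x, y ∉ C (m - 1) := (hC (m - 1)).isOpen_compl.mem_nhds h3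
        filter_upwards [h4] with y hy j hj hyj
        exact hy (hmono (by omega : j ≤ m - 1) hyj)
    have h3 : ∀ᶠ y in 𝓝 x, kk y = m ∨ kk y = m + 1 := by
      filter_upwards [h1, h2] with y hy1 hy2
      have hey : ∃ k, y ∈ C k := ⟨m + 1, hy1⟩
      have hkk : kk y = Nat.find hey := dif_pos hey
      have a1 : Nat.find hey ≤ m + 1 := Nat.find_min' hey hy1
      have a2 : m ≤ Nat.find hey := by
        by_contra hlt
        push Not at hlt
        exact hy2 _ hlt (Nat.find_spec hey)
      rw [hkk]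
      omega
    have h4 : ZeroAt ((fun t => s (kk (t 0)) t) - s m) x := by
      have h5 : ∀ᶠ t in 𝓝 (fun _ : Fin (n + 1) => x), kk (t 0) = m ∨ kk (t 0) = m + 1 :=
        ((continuous_apply (0 : Fin (n + 1))).tendsto (fun _ => x)).eventually h3
      filter_upwards [h5, hd m x hxm] with t ht1 ht2
      simp only [Pi.sub_apply] at ht2 ⊢
      rcases ht1 with h | h
      · rw [h, sub_self]
      · rw [h, ht2]
    have h6 := hs m x hxm
    have h7 := h4.dd one
    filter_upwards [h6, h7] with t k1 k2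
    rw [dd_sub] at k2
    simp only [Pi.sub_apply] at k1 k2 ⊢
    rw [sub_eq_zero] at k2
    rw [k2]
    exact k1

end PoolFbd
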