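import Pool.Agent.Work.MP_fbd21a_gt.AcBox
import Pool.Agent.Work.MP_fbd21a_gt.AcExh

/-! MODULE Oacyc. Nonempty relatively open boxes of the cube are acyclic, and nonempty open boxes of
ℝ^n intersected with a half space as well.
PROOF. acyc_exhaust. For obox a b ∋ p: C k = Icc (lo k) (hi k), lo k i = the maximum of -1 and
a i + (p i - a i)/(k+2) as an element of [-1,1] ... : if a i < -1 the lower bound is eventually -1; to
have C k ⊆ interior C (k+1) for every k choose lo k i = max (-1) (a i + (p i - a i)/(k+2)) if a i ≥ -1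
and lo k i = -1 if a i < -1 (Icc with lower end -1 in the subtype [-1,1] is no condition, its interior
contains everything); same for b. Then C k ⊆ {x | ∀ i, lo (k+1) i < x i or lo (k+1) i = -1 = bottom}
= open subset of C (k+1). p ∈ C k, the union is obox a b, C k is closed, Acyc by acyc_Qbox.
For open boxes of ℝ^n: C k = Icc (a + 1/(k+N)..) similarly (acyc_box); the half space version
(coordinate 0 ≥ 0) with boxes [0, h - ..] in coordinate 0: the set is
{y | (∀ i, a i < y i ∧ y i < b i) ∧ 0 ≤ y 0}: take closed boxes with lower end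
max 0 (..) in coordinate 0; here the ambient space is the subtype {y // 0 ≤ y 0}. -/

open Topology Filter Set

namespace PoolFbd

private theorem tends_aux (a d : ℝ) : Tendsto (fun k : ℕ => a + d / ((k : ℝ) + 2)) atTop (𝓝 a) := by
  have h : Tendsto (fun k : ℕ => d / ((k : ℝ) + 2)) atTop (𝓝 0) := by
    refine Tendsto.div_atTop tendsto_const_nhds ?_
    exact tendsto_atTop_add_const_right _ _ tendsto_natCast_atTop_atTop
  simpa using h.const_add a

private theorem div_lt_aux {d : ℝ} (hd : 0 < d) (k : ℕ) :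
    d / (((k + 1 : ℕ) : ℝ) + 2) < d / ((k : ℝ) + 2) := by
  refine div_lt_div_of_pos_left hd (by positivity) ?_
  push_cast
  linarith

private theorem div_le_aux {d : ℝ} (hd : 0 < d) (k : ℕ) : d / ((k : ℝ) + 2) ≤ d := by
  refine div_le_self hd.le ?_
  have : (0 : ℝ) ≤ k := Nat.cast_nonneg k
  linarith

private theorem acyc_open {E : Type*} [PseudoMetricSpace E] {m : ℕ} (v : E → (Fin m → ℝ))
    (hv : Continuous v) (p : E)
    (hbox : ∀ L H : Fin m → ℝ, L ≤ v p → v p ≤ H → Acyc {x | ∀ i, L i ≤ v x i ∧ v x i ≤ H i})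
    {a b : Fin m → ℝ} (hp : ∀ i, a i < v p i ∧ v p i < b i) :
    Acyc {x | ∀ i, a i < v x i ∧ v x i < b i} := by
  have hvi : ∀ i, Continuous fun x => v x i := fun i => (continuous_apply i).comp hv
  set C : ℕ → Set E := fun k => {x | ∀ i, a i + (v p i - a i) / ((k : ℝ) + 2) ≤ v x i ∧
    v x i ≤ b i + (v p i - b i) / ((k : ℝ) + 2)} with hC
  have hU : {x | ∀ i, a i < v x i ∧ v x i < b i} = ⋃ k, C k := by
    ext x
    simp only [mem_setOf_eq, mem_iUnion, hC]
    constructor
    · intro hx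
      have h1 : ∀ᶠ k : ℕ in atTop, ∀ i, a i + (v p i - a i) / ((k : ℝ) + 2) ≤ v x i ∧
          v x i ≤ b i + (v p i - b i) / ((k : ℝ) + 2) := by
        rw [eventually_all]
        intro i
        refine Filter.Eventually.and ?_ ?_
        · filter_upwards [(tends_aux (a i) (v p i - a i)).eventually (gt_mem_nhds (hx i).1)]
            with k hk using hk.le
        · filter_upwards [(tends_aux (b i) (v p i - b i)).eventually (lt_mem_nhds (hx i).2)]
            with k hk using hk.le
      exact h1.exists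
    · rintro ⟨k, hk⟩ i
      have hk0 : (0 : ℝ) < (k : ℝ) + 2 := by positivity
      have h1 : 0 < (v p i - a i) / ((k : ℝ) + 2) := div_pos (by linarith [(hp i).1]) hk0
      have h2 : (v p i - b i) / ((k : ℝ) + 2) < 0 := div_neg_of_neg_of_pos
        (by linarith [(hp i).2]) hk0
      exact ⟨by linarith [(hk i).1], by linarith [(hk i).2]⟩
  rw [hU]
  refine acyc_exhaust C ?_ ?_ ?_
  · intro k
    have : C k = ⋂ i, ({x | a i + (v p i - a i) / ((k : ℝ) + 2) ≤ v x i} ∩
        {x | v x i ≤ b i + (v p i - b i) / ((k : ℝ) + 2)}) := by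
      ext x
      simp [hC]
    rw [this]
    exact isClosed_iInter fun i => (isClosed_le continuous_const (hvi i)).inter
      (isClosed_le (hvi i) continuous_const)
  · intro k
    have ho : IsOpen (⋂ i, ({x | a i + (v p i - a i) / (((k + 1 : ℕ) : ℝ) + 2) < v x i} ∩
        {x | v x i < b i + (v p i - b i) / (((k + 1 : ℕ) : ℝ) + 2)})) :=
      isOpen_iInter_of_finite fun i => (isOpen_lt continuous_const (hvi i)).inter
        (isOpen_lt (hvi i) continuous_const)
    have hsub : (⋂ i, ({x | a i + (v p i - a i) / (((k + 1 : ℕ) : ℝ) + 2) < v x i} ∩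
        {x | v x i < b i + (v p i - b i) / (((k + 1 : ℕ) : ℝ) + 2)})) ⊆ C (k + 1) := by
      intro x hx i
      have := mem_iInter.1 hx i
      exact ⟨this.1.le, this.2.le⟩
    refine subset_trans ?_ (interior_maximal hsub ho)
    intro x hx
    rw [mem_iInter]
    intro i
    have h1 := div_lt_aux (d := v p i - a i) (by linarith [(hp i).1]) k
    have h2 := div_lt_aux (d := b i - v p i) (by linarith [(hp i).2]) k
    have h3 : (b i - v p i) / (((k + 1 : ℕ) : ℝ) + 2) = -((v p i - b i) / (((k + 1 : ℕ) : ℝ) + 2)) := by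
      rw [← neg_div, neg_sub]
    have h4 : (b i - v p i) / ((k : ℝ) + 2) = -((v p i - b i) / ((k : ℝ) + 2)) := by
      rw [← neg_div, neg_sub]
    rw [h3, h4] at h2
    have := hx i
    refine ⟨?_, ?_⟩
    · show a i + (v p i - a i) / (((k + 1 : ℕ) : ℝ) + 2) < v x i
      linarith [this.1]
    · show v x i < b i + (v p i - b i) / (((k + 1 : ℕ) : ℝ) + 2)
      linarith [this.2]
  · intro k
    refine hbox (fun i => a i + (v p i - a i) / ((k : ℝ) + 2))
      (fun i => b i + (v p i - b i) / ((k : ℝ) + 2)) (fun i => ?_) (fun i => ?_)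
    · show a i + (v p i - a i) / ((k : ℝ) + 2) ≤ v p i
      have := div_le_aux (d := v p i - a i) (by linarith [(hp i).1]) k
      linarith
    · show v p i ≤ b i + (v p i - b i) / ((k : ℝ) + 2)
      have := div_le_aux (d := b i - v p i) (by linarith [(hp i).2]) k
      have h4 : (b i - v p i) / ((k : ℝ) + 2) = -((v p i - b i) / ((k : ℝ) + 2)) := by
        rw [← neg_div, neg_sub]
      rw [h4] at this
      linarith

theorem acyc_obox {n : ℕ} {a b : Fin n → ℝ} (h : (obox a b : Set (Q n)).Nonempty) :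
    Acyc (obox a b : Set (Q n)) := by
  obtain ⟨p, hp⟩ := h
  have hv : Continuous (fun (x : Q n) (i : Fin n) => ((x i : Icc (-1 : ℝ) 1) : ℝ)) :=
    continuous_pi fun i => continuous_subtype_val.comp (continuous_apply i)
  refine acyc_open (fun (x : Q n) (i : Fin n) => ((x i : Icc (-1 : ℝ) 1) : ℝ)) hv p ?_ hp
  intro L H hL hH
  have hL' : ∀ i, L i ≤ (p i : ℝ) := hL
  have hH' : ∀ i, (p i : ℝ) ≤ H i := hH
  have e : {x : Q n | ∀ i, L i ≤ (x i : ℝ) ∧ (x i : ℝ) ≤ H i} =
      Icc (fun i => (⟨max (-1) (L i), le_max_left _ _, max_le (by norm_num)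
        ((hL' i).trans (p i).2.2)⟩ : Icc (-1 : ℝ) 1))
        (fun i => (⟨min 1 (H i), le_min (by norm_num) ((p i).2.1.trans (hH' i)),
          min_le_left _ _⟩ : Icc (-1 : ℝ) 1)) := by
    ext x
    rw [mem_Icc, Pi.le_def, Pi.le_def]
    simp only [mem_setOf_eq, ← Subtype.coe_le_coe]
    constructor
    · intro hx
      exact ⟨fun i => max_le (x i).2.1 (hx i).1, fun i => le_min (x i).2.2 (hx i).2⟩
    · rintro ⟨h1, h2⟩ i
      exact ⟨(le_max_right _ _).trans (h1 i), (h2 i).trans (min_le_right _ _)⟩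
  rw [e]
  apply acyc_Qbox
  intro i
  show max (-1) (L i) ≤ min 1 (H i)
  exact (max_le (p i).2.1 (hL' i)).trans (le_min (p i).2.2 (hH' i))

theorem acyc_Rbox {n : ℕ} {a b : Fin n → ℝ} (h : ∀ i, a i < b i) :
    Acyc {y : Fin n → ℝ | ∀ i, a i < y i ∧ y i < b i} := by
  refine acyc_open (fun y : Fin n → ℝ => y) continuous_id (fun i => (a i + b i) / 2) ?_ ?_
  · intro L H hL hH
    have e : {y : Fin n → ℝ | ∀ i, L i ≤ y i ∧ y i ≤ H i} = Icc L H := by
      ext y
      rw [mem_Icc, Pi.le_def, Pi.le_def]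
      simp only [mem_setOf_eq]
      exact ⟨fun h => ⟨fun i => (h i).1, fun i => (h i).2⟩, fun h i => ⟨h.1 i, h.2 i⟩⟩
    rw [e]
    exact acyc_box (hL.trans hH)
  · intro i
    have := h i
    constructor
    · show a i < (a i + b i) / 2
      linarith
    · show (a i + b i) / 2 < b i
      linarith

private noncomputable def clp (s : ℝ) : ℝ := max 0 (min 1 s)

private lemma clp0 (s : ℝ) : 0 ≤ clp s := le_max_left _ _

private lemma clp1 (s : ℝ) : clp s ≤ 1 := max_le zero_le_one (min_le_left _ _)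

private lemma clp_cont : Continuous clp := by
  unfold clp
  fun_prop

private theorem acyc_half {m : ℕ} (p : {y : Fin (m + 1) → ℝ // 0 ≤ y 0})
    (L H : Fin (m + 1) → ℝ) (hL : L ≤ p.1) (hH : p.1 ≤ H) :
    Acyc {y : {y : Fin (m + 1) → ℝ // 0 ≤ y 0} | ∀ i, L i ≤ y.1 i ∧ y.1 i ≤ H i} := by
  have hcl : IsClosed {y : Fin (m + 1) → ℝ | 0 ≤ y 0} :=
    isClosed_le continuous_const (continuous_apply 0)
  have hce : IsClosedEmbedding (Subtype.val : {y : Fin (m + 1) → ℝ // 0 ≤ y 0} → _) :=
    hcl.isClosedEmbedding_subtypeVal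
  have e : {y : {y : Fin (m + 1) → ℝ // 0 ≤ y 0} | ∀ i, L i ≤ y.1 i ∧ y.1 i ≤ H i} =
      Subtype.val ⁻¹' (Icc L H) := by
    ext y
    rw [mem_preimage, mem_Icc, Pi.le_def, Pi.le_def]
    simp only [mem_setOf_eq]
    exact ⟨fun h => ⟨fun i => (h i).1, fun i => (h i).2⟩, fun h i => ⟨h.1 i, h.2 i⟩⟩
  rw [e]
  refine acyc_of_contraction (hce.isCompact_preimage isCompact_Icc) (x₀ := p) ⟨hL, hH⟩
    (fun s x => ⟨(1 - clp s) • x.1 + clp s • p.1, ?_⟩) ?_ ?_ ?_ ?_
  · have h1 := clp0 s
    have h2 := clp1 s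
    have h3 := x.2
    have h4 := p.2
    show 0 ≤ (1 - clp s) * x.1 0 + clp s * p.1 0
    have : 0 ≤ 1 - clp s := by linarith
    positivity
  · refine Continuous.subtype_mk ?_ _
    have h1 : Continuous fun q : ℝ × {y : Fin (m + 1) → ℝ // 0 ≤ y 0} => clp q.1 :=
      clp_cont.comp continuous_fst
    have h2 : Continuous fun q : ℝ × {y : Fin (m + 1) → ℝ // 0 ≤ y 0} => q.2.1 :=
      continuous_subtype_val.comp continuous_snd
    exact ((continuous_const.sub h1).smul h2).add (h1.smul continuous_const)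
  · intro x
    apply Subtype.ext
    simp [clp]
  · intro x
    apply Subtype.ext
    simp [clp]
  · intro s hs x hx
    exact convex_Icc L H hx ⟨hL, hH⟩ (by linarith [clp1 s]) (clp0 s) (by ring)

theorem acyc_Hbox {n : ℕ} {a b : Fin (n + 1) → ℝ} (h : ∀ i, a i < b i) (hb : 0 < b 0) :
    Acyc {y : {y : Fin (n + 1) → ℝ // 0 ≤ y 0} | ∀ i, a i < y.1 i ∧ y.1 i < b i} := by
  have hm : max (a 0) 0 < b 0 := max_lt (h 0) hb
  have h1 : a 0 ≤ max (a 0) 0 := le_max_left _ _
  have h2 : 0 ≤ max (a 0) 0 := le_max_right _ _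
  let q : Fin (n + 1) → ℝ := fun i => if i = 0 then (max (a 0) 0 + b 0) / 2 else (a i + b i) / 2
  have hq : 0 ≤ q 0 := by
    simp only [q, if_true]
    linarith
  refine acyc_open (fun y : {y : Fin (n + 1) → ℝ // 0 ≤ y 0} => y.1) continuous_subtype_val
    ⟨q, hq⟩ ?_ ?_
  · intro L H hL hH
    exact acyc_half ⟨q, hq⟩ L H hL hH
  · intro i
    show a i < q i ∧ q i < b i
    by_cases hi : i = 0
    · subst hi
      simp only [q, if_true]
      exact ⟨by linarith, by linarith⟩
    · have := h i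
      simp only [q, hi, if_false]
      exact ⟨by linarith, by linarith⟩

end PoolFbd
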