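import Pool.Agent.Work.MP_fbd21a_gt.BoxThm
import Pool.Agent.Work.MP_fbd21a_gt.Glue
import Pool.Agent.Work.MP_fbd21a_gt.OmMove

/-! MODULE SubBox. Compactly supported cohomology of an open box O = obox a b inside the cube,
-1 ≤ a_i < b_i ≤ 1: H^*(Q n, complement of O) is A·om n c in degree n, c = the centre of O, else 0.
PROOF. Let C = {x | ∀ i, a i ≤ x i ≤ b i} (closed), dC = C \ O. f, g : Q n → Q n,
g y i = a i + (y i + 1)(b i - a i)/2 (affine map of the cube onto C),
f x i = clamp to [-1,1] of -1 + 2 (x i - a i)/(b i - a i); continuous, f (g y) = y, g (f x) = x for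
x in C, f maps C to the cube and dC to bd n, g maps bd n to dC.
Let φ be a relative cocycle of (univ, Oᶜ). Then pb g φ is a relative cocycle of (univ, bd n):
by box_low it is a coboundary if m ≠ n, so (taut_inj) φ is a coboundary on (C, dC). If m = n:
pb g φ - om n 0·a is a coboundary, so is pb g (φ - om n c·a), because pb g (om n c) = om n 0
exactly on all tuples (st (c i) (g y i) = st 0 (y i) since g is increasing with g 0 = c); and
φ - om n c·a is a relative cocycle of (univ, Oᶜ) (om_supp, om_dd). So it is a coboundary on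
(C, dC). Finally a relative cocycle φ of (univ, Oᶜ) which is a coboundary on (C, dC) is a
coboundary on (univ, Oᶜ): m = 0 clear; φ = dd χ near C, χ zero near dC; glue χ (near C) and 0
(near the closed set Oᶜ), C ∩ Oᶜ = dC. (O is open.) -/

open Topology Filter Set

namespace PoolFbd

private def sbC {n : ℕ} (a b : Fin n → ℝ) : Set (Q n) := {x | ∀ i, a i ≤ x i ∧ (x i : ℝ) ≤ b i}

/-- the affine map of the cube onto the box -/
private noncomputable def sbg {n : ℕ} (a b : Fin n → ℝ) : Q n → Q n :=
  fun y i => projIcc (-1 : ℝ) 1 (by norm_num) (a i + ((y i : ℝ) + 1) * (b i - a i) / 2)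

/-- the inverse map, clamped -/
private noncomputable def sbf {n : ℕ} (a b : Fin n → ℝ) : Q n → Q n :=
  fun x i => projIcc (-1 : ℝ) 1 (by norm_num) (-1 + 2 * ((x i : ℝ) - a i) / (b i - a i))

private theorem sb_coord (n : ℕ) (i : Fin n) : Continuous (fun x : Q n => (x i : ℝ)) :=
  continuous_subtype_val.comp (continuous_apply i)

private theorem sbg_cont {n : ℕ} (a b : Fin n → ℝ) : Continuous (sbg a b) := by
  refine continuous_pi fun i => continuous_projIcc.comp ?_
  exact continuous_const.add ((((sb_coord n i).add continuous_const).mul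
    continuous_const).div_const _)

private theorem sbf_cont {n : ℕ} (a b : Fin n → ℝ) : Continuous (sbf a b) := by
  refine continuous_pi fun i => continuous_projIcc.comp ?_
  exact continuous_const.add ((continuous_const.mul ((sb_coord n i).sub
    continuous_const)).div_const _)

section

variable {n : ℕ} {a b : Fin n → ℝ} (hab : ∀ i, a i < b i) (ha : ∀ i, -1 ≤ a i)
  (hb : ∀ i, b i ≤ 1)

include hab ha hb in
private theorem sbg_val (y : Q n) (i : Fin n) :
    ((sbg a b y i : Icc (-1 : ℝ) 1) : ℝ) = a i + ((y i : ℝ) + 1) * (b i - a i) / 2 := by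
  have h1 := (y i).2
  have h2 := hab i
  have h3 := ha i
  have h4 := hb i
  unfold sbg
  rw [projIcc_of_mem (by norm_num)]
  constructor
  · nlinarith [h1.1]
  · nlinarith [h1.2]

include hab in
private theorem sbf_val {x : Q n} (hx : x ∈ sbC a b) (i : Fin n) :
    ((sbf a b x i : Icc (-1 : ℝ) 1) : ℝ) = -1 + 2 * ((x i : ℝ) - a i) / (b i - a i) := by
  have h1 := hx i
  have h2 := hab i
  have h5 : 0 < b i - a i := by linarith
  unfold sbf
  rw [projIcc_of_mem (by norm_num)]
  constructor
  · have : 0 ≤ 2 * ((x i : ℝ) - a i) / (b i - a i) := by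
      apply div_nonneg _ h5.le
      linarith [h1.1]
    linarith
  · have : 2 * ((x i : ℝ) - a i) / (b i - a i) ≤ 2 := by
      rw [div_le_iff₀ h5]
      linarith [h1.2]
    linarith

include hab ha hb in
private theorem sbg_mem (y : Q n) : sbg a b y ∈ sbC a b := by
  intro i
  have h1 := (y i).2
  have h2 := hab i
  rw [sbg_val hab ha hb]
  constructor
  · nlinarith [h1.1]
  · nlinarith [h1.2]

include hab ha hb in
private theorem sbgf {x : Q n} (hx : x ∈ sbC a b) : sbg a b (sbf a b x) = x := by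
  funext i
  apply Subtype.ext
  rw [sbg_val hab ha hb, sbf_val hab hx]
  have h5 : b i - a i ≠ 0 := by
    have := hab i
    linarith
  field_simp
  ring

include hab ha hb in
private theorem sbg_bd {y : Q n} (hy : y ∈ bd n) : sbg a b y ∈ sbC a b \ obox a b := by
  refine ⟨sbg_mem hab ha hb y, fun h => ?_⟩
  obtain ⟨i, hi⟩ := hy
  have h1 := h i
  rw [sbg_val hab ha hb] at h1
  rcases hi with hi | hi
  · rw [hi] at h1
    have := h1.1
    linarith
  · rw [hi] at h1
    have := h1.2
    linarith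

include hab in
private theorem sbf_bd {x : Q n} (hx : x ∈ sbC a b \ obox a b) : sbf a b x ∈ bd n := by
  by_contra hcon
  apply hx.2
  intro i
  have h1 := hx.1 i
  have h2 := hab i
  have h5 : 0 < b i - a i := by linarith
  have h3 : ((sbf a b x i : Icc (-1 : ℝ) 1) : ℝ) ≠ -1 ∧
      ((sbf a b x i : Icc (-1 : ℝ) 1) : ℝ) ≠ 1 :=
    ⟨fun h => hcon ⟨i, Or.inl h⟩, fun h => hcon ⟨i, Or.inr h⟩⟩
  rw [sbf_val hab hx.1] at h3
  refine ⟨lt_of_le_of_ne h1.1 fun h => h3.1 ?_, lt_of_le_of_ne h1.2 fun h => h3.2 ?_⟩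
  · rw [← h]
    simp
  · rw [h]
    field_simp
    ring

private theorem sbC_closed (a b : Fin n → ℝ) : IsClosed (sbC a b) := by
  have e : sbC a b = ⋂ i, {x : Q n | a i ≤ x i ∧ (x i : ℝ) ≤ b i} := by
    ext x
    rw [mem_iInter]
    rfl
  rw [e]
  exact isClosed_iInter fun i => (isClosed_Icc (a := a i) (b := b i)).preimage (sb_coord n i)

private theorem sbO_open (a b : Fin n → ℝ) : IsOpen (obox a b : Set (Q n)) := by
  have e : (obox a b : Set (Q n)) = ⋂ i, {x : Q n | a i < x i ∧ (x i : ℝ) < b i} := by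
    ext x
    rw [mem_iInter]
    rfl
  rw [e]
  exact isOpen_iInter_of_finite fun i => (isOpen_Ioo (a := a i) (b := b i)).preimage (sb_coord n i)

private theorem sb_oc (a b : Fin n → ℝ) : (obox a b : Set (Q n)) ⊆ sbC a b := fun _ h i =>
  ⟨(h i).1.le, (h i).2.le⟩

private theorem sb_ext {A : Type} [AddCommGroup A] {m : ℕ} {φ : Coch (Q n) A m}
    (hφ : Coc one univ (obox a b)ᶜ φ) (h : Cob one (sbC a b) (sbC a b \ obox a b) φ) :
    Cob one univ (obox a b)ᶜ φ := by
  have hcov : (univ : Set (Q n)) ⊆ sbC a b ∪ (obox a b)ᶜ := by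
    intro x _
    by_cases hx : x ∈ (obox a b : Set (Q n))
    · exact Or.inl (sb_oc a b hx)
    · exact Or.inr hx
  cases m with
  | zero => exact (LZ.union h hφ.1).mono hcov
  | succ k =>
    obtain ⟨χ, hχ1, hχ2⟩ := h
    obtain ⟨χ', h2, h3⟩ := glue (Sepd.closed (sbC_closed a b) (sbO_open a b).isClosed_compl) χ 0
      (by rw [sub_zero]; exact hχ1)
    rw [sub_zero] at h3
    refine ⟨χ', h3, LZ.mono hcov (LZ.union ?_ ?_)⟩
    · have h4 := h2.dd one
      rw [dd_sub] at h4
      intro x hx
      filter_upwards [h4 x hx, hχ2 x hx] with t e1 e2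
      rw [Pi.sub_apply, sub_eq_zero] at e1
      rw [Pi.sub_apply] at e2 ⊢
      rw [e1]
      exact e2
    · exact hφ.1.sub (h3.dd one)

include hab ha hb in
private theorem sb_main {A : Type} [AddCommGroup A] {m : ℕ} {φ : Coch (Q n) A m}
    (hφ : Coc one univ (obox a b)ᶜ φ) (h : Cob one univ (bd n) (pb (sbg a b) φ)) :
    Cob one univ (obox a b)ᶜ φ := by
  refine sb_ext hφ ?_
  refine taut_inj (f := sbf a b) (g := sbg a b) (S' := univ) (Z' := bd n) ?_ ?_ ?_ ?_ ?_ ?_ ?_
    (hφ.mono (subset_univ _) (fun x hx => hx.2)) h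
  · exact fun x _ => (sbf_cont a b).continuousAt
  · exact fun x _ => (sbg_cont a b).continuousAt
  · exact fun x _ => mem_univ _
  · exact fun x hx => sbf_bd hab hx
  · exact fun y _ => sbg_mem hab ha hb y
  · exact fun y hy => sbg_bd hab ha hb hy
  · rintro x (hx | hx)
    · exact sbgf hab ha hb hx
    · exact sbgf hab ha hb hx.1

include hab ha hb in
private theorem sb_pb {A : Type} [AddCommGroup A] {m : ℕ} {φ : Coch (Q n) A m}
    (hφ : Coc one univ (obox a b)ᶜ φ) : Coc one univ (bd n) (pb (sbg a b) φ) := by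
  have h := Coc.pb (f := sbg a b) (S := univ) (Z := bd n)
    (fun x _ => ⟨(sbg_cont a b).continuousAt, mem_univ _⟩)
    (fun x hx => ⟨(sbg_cont a b).continuousAt, (sbg_bd hab ha hb hx).2⟩) hφ
  rw [pbt_one] at h
  exact h

end

theorem subbox_low {n m : ℕ} (h : m ≠ n) {a b : Fin n → ℝ} (hab : ∀ i, a i < b i)
    (ha : ∀ i, -1 ≤ a i) (hb : ∀ i, b i ≤ 1) {A : Type} [AddCommGroup A] {φ : Coch (Q n) A m}
    (hφ : Coc one univ (obox a b)ᶜ φ) : Cob one univ (obox a b)ᶜ φ :=
  sb_main hab ha hb hφ (box_low h (sb_pb hab ha hb hφ))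

theorem subbox_ex {n : ℕ} {a b : Fin n → ℝ} (hab : ∀ i, a i < b i)
    (ha : ∀ i, -1 ≤ a i) (hb : ∀ i, b i ≤ 1) {A : Type} [AddCommGroup A] {φ : Coch (Q n) A n}
    (hφ : Coc one univ (obox a b)ᶜ φ) :
    ∃ r : A, Cob one univ (obox a b)ᶜ (φ - smulC (om n (fun i => (a i + b i) / 2)) r) := by
  classical
  obtain ⟨r, hr⟩ := box_ex (sb_pb hab ha hb hφ)
  refine ⟨r, ?_⟩
  have hpb : pb (sbg a b) (om n (fun i => (a i + b i) / 2)) = om n 0 := by
    funext t
    show ∏ i : Fin n, (st ((a i + b i) / 2) ((sbg a b (t i.succ) i : Icc (-1 : ℝ) 1) : ℝ) -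
      st ((a i + b i) / 2) ((sbg a b (t i.castSucc) i : Icc (-1 : ℝ) 1) : ℝ)) =
      ∏ i : Fin n, (st 0 (t i.succ i) - st 0 (t i.castSucc i))
    refine Finset.prod_congr rfl fun i _ => ?_
    have hst : ∀ y : Q n, st ((a i + b i) / 2) ((sbg a b y i : Icc (-1 : ℝ) 1) : ℝ) =
        st 0 (y i) := by
      intro y
      have h2 := hab i
      have hiff : (a i + b i) / 2 ≤ ((sbg a b y i : Icc (-1 : ℝ) 1) : ℝ) ↔ (0 : ℝ) ≤ y i := by
        rw [sbg_val hab ha hb]
        constructor
        · intro h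
          by_contra hcon
          rw [not_le] at hcon
          nlinarith
        · intro h
          nlinarith
      unfold st
      simp only [hiff]
    rw [hst, hst]
  have hsub : (obox a b : Set (Q n))ᶜ ⊆ {x : Q n | ∃ i, (x i : ℝ) ≠ (a i + b i) / 2} := by
    intro x hx
    by_contra hcon
    apply hx
    intro i
    have hxi : (x i : ℝ) = (a i + b i) / 2 := by
      by_contra h
      exact hcon ⟨i, h⟩
    have h2 := hab i
    rw [hxi]
    constructor <;> linarith
  have hcoc : Coc one univ (obox a b)ᶜ (smulC (om n (fun i => (a i + b i) / 2)) r) := by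
    constructor
    · intro x hx
      filter_upwards [om_supp n (fun i => (a i + b i) / 2) x (hsub hx)] with t ht
      simp only [smulC]
      rw [ht, zero_smul]
    · have e : dd one (smulC (om n (fun i => (a i + b i) / 2)) r) = 0 := by
        have h1 := dd_cmap (one : Q n → Q n → ℤˣ) (om n (fun i => (a i + b i) / 2))
          (zmultiplesHom A r) (by
            intro g m
            rw [Units.smul_def, Units.smul_def, map_zsmul])
        rw [om_dd] at h1
        have h2 : (cmap (zmultiplesHom A r) (0 : Coch (Q n) ℤ (n + 1))) = 0 := by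
          funext t
          simp [cmap]
        rw [h2] at h1
        exact h1
      rw [e]
      exact LZ.zero _
  refine sb_main hab ha hb (hφ.sub hcoc) ?_
  have e : pb (sbg a b) (φ - smulC (om n (fun i => (a i + b i) / 2)) r) =
      pb (sbg a b) φ - smulC (om n 0) r := by
    rw [← hpb]
    rfl
  rw [e]
  exact hr

end PoolFbd
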