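import Pool.Agent.Work.MP_fbd21a_gt.PDefs
import Pool.Agent.Work.MP_fbd21a_gt.SubBox
import Pool.Agent.Work.MP_fbd21a_gt.Oacyc
import Pool.Agent.Work.MP_fbd21a_gt.Gauge
import Pool.Agent.Work.MP_fbd21a_gt.Glue
import Pool.Agent.Work.MP_fbd21a_gt.DdDd

/-! MODULE PTopMV. Vanishing above the dimension: boxes and unions of two.
PROOF of ptop_box. Empty box: c vanishes near univ, Cob.of_LZ. Nonempty: trivialise the twist near U by
acyc_obox and tw_trivial (gau_coc, gau_cob with S \ Z ⊆ U); Uᶜ ∪ bd n is the complement of the open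
box O = obox a' b', a' i = max (a i) (-1), b' i = min (b i) 1; subbox_low with m ≠ n.
PROOF of ptop_union. c a cocycle for U ∪ V of degree m > n. Take the cut set A of glue_cut for the
closed sets S₁ = Uᶜ, S₂ = Vᶜ, cV t = if t 0 ∈ A then c t else 0, cU = c - cV. Then cU vanishes near
Uᶜ ∪ bd, cV near Vᶜ ∪ bd (near points of Uᶜ ∩ Vᶜ and of bd, c itself vanishes). e = dd (invt τ) cU
vanishes near Uᶜ ∪ bd and near Vᶜ (there e = - dd cV + dd c), so it is a cocycle for U ∩ V of degree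
m+1 > n (dd dd: LZ_dd_dd'), hence e = dd a near univ, a zero near (U∩V)ᶜ ∪ bd. cU - a is a cocycle for
U, cV + a one for V (near univ dd cV = dd c - dd cU), so both are coboundaries, and coboundaries
for U or V are coboundaries for U ∪ V (Cob.mono), add. -/

open Topology Filter Set

namespace PoolFbd

private theorem ptopmv_box {n : ℕ} {a b : Fin n → ℝ} (h : (obox a b : Set (Q n)).Nonempty) :
    (∀ i, max (a i) (-1) < min (b i) 1) ∧ (obox a b : Set (Q n))ᶜ ∪ bd n =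
      (obox (fun i => max (a i) (-1)) (fun i => min (b i) 1))ᶜ := by
  obtain ⟨x, hx⟩ := h
  refine ⟨fun i => ?_, ?_⟩
  · have h1 := hx i
    have h2 := (x i).2
    rw [max_lt_iff, lt_min_iff, lt_min_iff]
    exact ⟨⟨h1.1.trans h1.2, h1.1.trans_le h2.2⟩, h2.1.trans_lt h1.2, by norm_num⟩
  · ext y
    constructor
    · rintro (hy | hy) hy'
      · apply hy
        intro i
        have := hy' i
        simp only [max_lt_iff, lt_min_iff] at this
        exact ⟨this.1.1, this.2.1⟩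
      · obtain ⟨i, hi⟩ := hy
        have := hy' i
        simp only [max_lt_iff, lt_min_iff] at this
        rcases hi with hi | hi
        · exact absurd this.1.2 (by rw [hi]; exact lt_irrefl _)
        · exact absurd this.2.2 (by rw [hi]; exact lt_irrefl _)
    · intro hy
      by_contra hcon
      apply hy
      rw [mem_union, not_or, mem_compl_iff, not_not] at hcon
      obtain ⟨h1, h2⟩ := hcon
      intro i
      simp only [max_lt_iff, lt_min_iff]
      have h3 := h1 i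
      have h4 := (y i).2
      refine ⟨⟨h3.1, lt_of_le_of_ne h4.1 fun he => h2 ⟨i, Or.inl he.symm⟩⟩,
        h3.2, lt_of_le_of_ne h4.2 fun he => h2 ⟨i, Or.inr he⟩⟩

private theorem ptopmv_sub {n : ℕ} (W : Set (Q n)) :
    (univ : Set (Q n)) \ (Wᶜ ∪ bd n) ⊆ W := by
  intro x hx
  by_contra hxU
  exact hx.2 (Or.inl hxU)

theorem ptop_box {R : Type} [CommRing R] {n : ℕ} (a b : Fin n → ℝ) :
    PTop R (obox a b : Set (Q n)) := by
  intro τ hτ m hm c hc
  by_cases hne : (obox a b : Set (Q n)).Nonempty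
  · obtain ⟨hab, heq⟩ := ptopmv_box hne
    obtain ⟨σ, hσ⟩ := tw_trivial (acyc_obox hne) hτ
    obtain ⟨ρ, hρ⟩ : ∃ ρ : Q n → Rˣ, ρ = fun y => (σ y)⁻¹ := ⟨_, rfl⟩
    have hσ' : ∀ x ∈ (univ : Set (Q n)) \ ((obox a b)ᶜ ∪ bd n),
        ∀ᶠ t in 𝓝 (fun _ : Fin 2 => x), invt τ (t 0) (t 1) = (ρ (t 0))⁻¹ * ρ (t 1) := by
      intro x hx
      filter_upwards [hσ x (ptopmv_sub _ hx)] with t ht
      simp only [invt, hρ]
      rw [ht, mul_inv, inv_inv]
    rw [gau_cob (A := R) (G := Rˣ) hσ' hc.1]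
    have hc' := (gau_coc (A := R) (G := Rˣ) hσ' c).1 hc
    rw [heq] at hc' ⊢
    exact subbox_low (by omega) hab (fun i => le_max_right _ _) (fun i => min_le_right _ _) hc'
  · rw [not_nonempty_iff_eq_empty] at hne
    rw [hne, compl_empty, univ_union] at hc ⊢
    exact Cob.of_LZ (A := R) (G := Rˣ) hc.1

section

variable {R : Type} [CommRing R]

private theorem ptopmv_dd_sub' {E R : Type*} [CommRing R]
    (κ : E → E → Rˣ) {n : ℕ} (φ ψ : Coch E R n) : dd κ (φ - ψ) = dd κ φ - dd κ ψ :=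
  dd_sub κ φ ψ

private theorem ptopmv_dd_add' {E R : Type*} [CommRing R]
    (κ : E → E → Rˣ) {n : ℕ} (φ ψ : Coch E R n) : dd κ (φ + ψ) = dd κ φ + dd κ ψ :=
  dd_add κ φ ψ

private theorem ptopmv_cob_mono {E R : Type*} [TopologicalSpace E] [CommRing R] {κ : E → E → Rˣ}
    {S Z Z' : Set E} {n : ℕ} {c : Coch E R n} (hZ : Z' ⊆ Z) (h : Cob κ S Z c) : Cob κ S Z' c := by
  cases n with
  | zero => exact h
  | succ n =>
    obtain ⟨ψ, a, b⟩ := h
    exact ⟨ψ, a.mono hZ, b⟩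

open Classical in
/-- cutting by the position of the first vertex -/
private noncomputable def ptopmvCut {E A : Type*} [AddCommGroup A] (W : Set E) {n : ℕ}
    (c : Coch E A n) : Coch E A n := fun t => if t 0 ∈ W then c t else 0

private theorem ptopmv_first {E : Type*} [TopologicalSpace E] {n : ℕ} {x : E} {P : E → Prop}
    (h : ∀ᶠ y in 𝓝 x, P y) : ∀ᶠ t in 𝓝 (fun _ : Fin (n + 1) => x), P (t 0) :=
  ((continuous_apply (0 : Fin (n + 1))).tendsto (fun _ : Fin (n + 1) => x)).eventually h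

private theorem ptopmv_cutV {E A : Type*} [TopologicalSpace E] [AddCommGroup A] {W U V K : Set E}
    (h2 : ∀ x ∈ Vᶜ \ Uᶜ, ∀ᶠ y in 𝓝 x, y ∉ W) {n : ℕ} {c : Coch E A n}
    (hc : LZ ((U ∪ V)ᶜ ∪ K) c) : LZ (Vᶜ ∪ K) (ptopmvCut W c) := by
  classical
  intro x hx
  by_cases hx' : x ∈ (U ∪ V)ᶜ ∪ K
  · filter_upwards [hc x hx'] with t ht
    simp only [ptopmvCut, ht, ite_self]
  · have hxV : x ∈ Vᶜ := by
      rcases hx with h | h
      · exact h
      · exact absurd (Or.inr h) hx'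
    have hxU : x ∉ Uᶜ := by
      intro hU
      apply hx'
      left
      rintro (h | h)
      · exact hU h
      · exact hxV h
    filter_upwards [ptopmv_first (h2 x ⟨hxV, hxU⟩)] with t ht
    simp only [ptopmvCut]
    rw [if_neg ht]

private theorem ptopmv_cutU {E A : Type*} [TopologicalSpace E] [AddCommGroup A] {W U V K : Set E}
    (h1 : ∀ x ∈ Uᶜ \ Vᶜ, ∀ᶠ y in 𝓝 x, y ∈ W) {n : ℕ} {c : Coch E A n}
    (hc : LZ ((U ∪ V)ᶜ ∪ K) c) : LZ (Uᶜ ∪ K) (c - ptopmvCut W c) := by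
  classical
  intro x hx
  by_cases hx' : x ∈ (U ∪ V)ᶜ ∪ K
  · filter_upwards [hc x hx'] with t ht
    simp only [ptopmvCut, Pi.sub_apply, ht, ite_self, sub_zero]
  · have hxU : x ∈ Uᶜ := by
      rcases hx with h | h
      · exact h
      · exact absurd (Or.inr h) hx'
    have hxV : x ∉ Vᶜ := by
      intro hV
      apply hx'
      left
      rintro (h | h)
      · exact hxU h
      · exact hV h
    filter_upwards [ptopmv_first (h1 x ⟨hxU, hxV⟩)] with t ht
    simp only [ptopmvCut, Pi.sub_apply]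
    rw [if_pos ht, sub_self]

/-- the boundary cocycle of the first part -/
private theorem ptopmv_e {n q : ℕ} {U V W : Set (Q n)}
    (h1 : ∀ x ∈ Uᶜ \ Vᶜ, ∀ᶠ y in 𝓝 x, y ∈ W) (h2 : ∀ x ∈ Vᶜ \ Uᶜ, ∀ᶠ y in 𝓝 x, y ∉ W)
    {τ : Q n → Q n → Rˣ} (hτ : IsTw (U ∪ V) τ) {c : Coch (Q n) R q}
    (hc : Coc (invt τ) univ ((U ∪ V)ᶜ ∪ bd n) c) :
    Coc (invt τ) univ ((U ∩ V)ᶜ ∪ bd n) (dd (invt τ) (c - ptopmvCut W c)) ∧
      LZ univ (dd (invt τ) (c - ptopmvCut W c) + dd (invt τ) (ptopmvCut W c)) := by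
  have hcU := ptopmv_cutU h1 hc.1
  have hcV := ptopmv_cutV h2 hc.1
  have hsum : LZ univ (dd (invt τ) (c - ptopmvCut W c) + dd (invt τ) (ptopmvCut W c)) := by
    rw [ptopmv_dd_sub']
    have : dd (invt τ) c - dd (invt τ) (ptopmvCut W c) + dd (invt τ) (ptopmvCut W c) =
      dd (invt τ) c := by abel
    rw [this]
    exact hc.2
  have hV' : LZ (Vᶜ) (dd (invt τ) (c - ptopmvCut W c)) := by
    intro x hx
    have h3 := LZ.dd (A := R) (G := Rˣ) (hcV.mono (subset_union_left : Vᶜ ⊆ Vᶜ ∪ bd n)) (invt τ)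
    filter_upwards [hsum x (mem_univ x), h3 x hx] with t e1 e2
    rw [Pi.add_apply, e2, add_zero] at e1
    exact e1
  have hU' := LZ.dd (A := R) (G := Rˣ) hcU (invt τ)
  refine ⟨⟨?_, ?_⟩, hsum⟩
  · rintro x (hx | hx)
    · rw [compl_inter] at hx
      rcases hx with hx | hx
      · exact hU' x (Or.inl hx)
      · exact hV' x hx
    · exact hU' x (Or.inr hx)
  · exact LZ_dd_dd' (A := R) (G := Rˣ)
      ((hτ.mono ((ptopmv_sub U).trans subset_union_left)).inv) hcU

end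

theorem ptop_union {R : Type} [CommRing R] {n : ℕ} {U V : Set (Q n)} (hU : IsOpen U)
    (hV : IsOpen V) (tU : PTop R U) (tV : PTop R V) (tUV : PTop R (U ∩ V)) : PTop R (U ∪ V) := by
  intro τ hτ m hm c hc
  obtain ⟨W, h1, h2⟩ := glue_cut (Sepd.closed hU.isClosed_compl hV.isClosed_compl)
  obtain ⟨hcoc, hsum⟩ := ptopmv_e h1 h2 hτ hc
  obtain ⟨a, ha, hea⟩ := tUV τ (hτ.mono (inter_subset_left.trans subset_union_left)) (m + 1)
    (by omega) _ hcoc
  have hcU := ptopmv_cutU h1 hc.1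
  have hcV := ptopmv_cutV h2 hc.1
  have k1 : Coc (invt τ) univ (Uᶜ ∪ bd n) (c - ptopmvCut W c - a) := by
    refine ⟨hcU.sub (ha.mono (union_subset_union_left _
      (compl_subset_compl.2 inter_subset_left))), ?_⟩
    rw [ptopmv_dd_sub']
    exact hea
  have k2 : Coc (invt τ) univ (Vᶜ ∪ bd n) (ptopmvCut W c + a) := by
    refine ⟨hcV.add (ha.mono (union_subset_union_left _
      (compl_subset_compl.2 inter_subset_right))), ?_⟩
    rw [ptopmv_dd_add']
    intro x hx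
    filter_upwards [hea x hx, hsum x hx] with t e1 e2
    simp only [Pi.sub_apply, Pi.add_apply] at e1 e2 ⊢
    rw [sub_eq_zero] at e1
    rw [← e1, add_comm]
    exact e2
  have hUV1 : (U ∪ V)ᶜ ∪ bd n ⊆ Uᶜ ∪ bd n :=
    union_subset_union_left _ (compl_subset_compl.2 subset_union_left)
  have hUV2 : (U ∪ V)ᶜ ∪ bd n ⊆ Vᶜ ∪ bd n :=
    union_subset_union_left _ (compl_subset_compl.2 subset_union_right)
  have b1 := ptopmv_cob_mono hUV1 (tU τ (hτ.mono subset_union_left) m hm _ k1)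
  have b2 := ptopmv_cob_mono hUV2 (tV τ (hτ.mono subset_union_right) m hm _ k2)
  have b3 := Cob.add (A := R) (G := Rˣ) b1 b2
  have ec : (c - ptopmvCut W c - a) + (ptopmvCut W c + a) = c := by abel
  rw [ec] at b3
  exact b3

end PoolFbd
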