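import Mathlib

/-! MODULE TopInd (MATHLIB ONLY). Induction principle for open subsets of a compact metric space.
PROOF. Step 1: P holds for finite unions of members of B: by induction on m for all unions
B_1 ∪ ... ∪ B_m: (B_1 ∪ ... ∪ B_(m-1)) ∪ B_m, the intersection is the union of the m-1 members
B_i ∩ B_m of the basis. So also for L ∩ L' with L, L' finite unions (it is a finite union of members).
Step 2: U open. If U is the whole space it is compact, a finite union. Otherwise let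
d(x) = infDist x Uᶜ (continuous, positive exactly on U, bounded), M > 0 with d < 2^M..; for k : ℕ let
K_k = {x | 2^(-k-1) ≤ d(x)·s ≤ 2^(-k)} (s > 0 small with d·s ≤ 1), compact, contained in the open set
V_k = {x | 2^(-k-1.4) < d(x)·s < 2^(-k+0.4)} (use e.g. the constants 3/4·2^(-k-1) and 5/4·2^(-k):
then V_k ∩ V_(k+2) = ∅ since 5/4·2^(-k-2) < 3/4·2^(-k-1)). Let L_k be a finite union of
members of B with K_k ⊆ L_k ⊆ V_k (compactness). ⋃ K_k = U. W = ⋃ L_(2k), W' = ⋃ L_(2k+1) are
disjoint unions, W ∪ W' = U, and W ∩ W' = ⋃_(j,k) L_(2j) ∩ L_(2k+1) is a disjoint union (disjoint in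
(j,k)), reindex ℕ × ℕ by ℕ. So P W, P W', P (W ∩ W'), hence P U. -/

open Topology Filter Set

namespace PoolFbd

/-- union of a list of sets -/
private def ti_uni {X : Type*} : List (Set X) → Set X
  | [] => ∅
  | V :: l => V ∪ ti_uni l

private lemma ti_uni_map {X : Type*} (V : Set X) (l : List (Set X)) :
    ti_uni (l.map (V ∩ ·)) = V ∩ ti_uni l := by
  induction l with
  | nil => simp [ti_uni]
  | cons W l ih => simp only [List.map_cons, ti_uni, ih, inter_union_distrib_left]

private lemma ti_uni_append {X : Type*} (l l' : List (Set X)) :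
    ti_uni (l ++ l') = ti_uni l ∪ ti_uni l' := by
  induction l with
  | nil => simp [ti_uni]
  | cons W l ih => simp only [List.cons_append, ti_uni, ih, union_assoc]

private lemma ti_open {X : Type*} [TopologicalSpace X] (l : List (Set X))
    (h : ∀ V ∈ l, IsOpen V) : IsOpen (ti_uni l) := by
  induction l with
  | nil => exact isOpen_empty
  | cons W l ih =>
    exact (h W (by simp)).union (ih fun V hV => h V (List.mem_cons_of_mem _ hV))

private def TiFU {X : Type*} (B : Set (Set X)) (U : Set X) : Prop :=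
  ∃ l : List (Set X), (∀ V ∈ l, V ∈ B) ∧ ti_uni l = U

private lemma ti_inter {X : Type*} (B : Set (Set X))
    (hI : ∀ U ∈ B, ∀ V ∈ B, U ∩ V ∈ B) {U U' : Set X} (h : TiFU B U) (h' : TiFU B U') :
    TiFU B (U ∩ U') := by
  obtain ⟨l, hl, rfl⟩ := h
  obtain ⟨l', hl', rfl⟩ := h'
  induction l with
  | nil => exact ⟨[], by simp, by simp [ti_uni]⟩
  | cons W l ih =>
    obtain ⟨m, hm, hm2⟩ := ih fun V hV => hl V (List.mem_cons_of_mem _ hV)
    refine ⟨l'.map (W ∩ ·) ++ m, ?_, ?_⟩
    · intro V hV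
      rw [List.mem_append] at hV
      rcases hV with hV | hV
      · rw [List.mem_map] at hV
        obtain ⟨V', hV', rfl⟩ := hV
        exact hI W (hl W (by simp)) V' (hl' V' hV')
      · exact hm V hV
    · rw [ti_uni_append, ti_uni_map, hm2, ti_uni, union_inter_distrib_right]

private lemma ti_P {X : Type*} [TopologicalSpace X] (B : Set (Set X))
    (hB : ∀ U ∈ B, IsOpen U) (hI : ∀ U ∈ B, ∀ V ∈ B, U ∩ V ∈ B) (h0 : ∅ ∈ B)
    (P : Set X → Prop) (hP : ∀ U ∈ B, P U)
    (hU : ∀ U V : Set X, IsOpen U → IsOpen V → P U → P V → P (U ∩ V) → P (U ∪ V))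
    {U : Set X} (h : TiFU B U) : P U := by
  obtain ⟨l, hl, rfl⟩ := h
  obtain ⟨n, hn⟩ : ∃ n, l.length = n := ⟨_, rfl⟩
  induction n generalizing l with
  | zero =>
    rw [List.length_eq_zero_iff] at hn
    subst hn
    exact hP ∅ h0
  | succ n ih =>
    cases l with
    | nil => simp at hn
    | cons W l =>
      have hl' : ∀ V ∈ l, V ∈ B := fun V hV => hl V (List.mem_cons_of_mem _ hV)
      have hW : W ∈ B := hl W (by simp)
      have hlen : l.length = n := by simpa using hn
      refine hU W (ti_uni l) (hB W hW) (ti_open l fun V hV => hB V (hl' V hV)) (hP W hW)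
        (ih l hl' hlen) ?_
      rw [← ti_uni_map]
      apply ih
      · intro V hV
        rw [List.mem_map] at hV
        obtain ⟨V', hV', rfl⟩ := hV
        exact hI W hW V' (hl' V' hV')
      · simpa using hlen

private lemma ti_cover {X : Type*} [TopologicalSpace X] (B : Set (Set X))
    (hB : ∀ U ∈ B, IsOpen U)
    (hbas : ∀ (x : X) (U : Set X), IsOpen U → x ∈ U → ∃ V ∈ B, x ∈ V ∧ V ⊆ U)
    {K V : Set X} (hK : IsCompact K) (hV : IsOpen V) (hKV : K ⊆ V) :
    ∃ L, TiFU B L ∧ K ⊆ L ∧ L ⊆ V := by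
  refine hK.induction_on (p := fun K => ∃ L, TiFU B L ∧ K ⊆ L ∧ L ⊆ V) ?_ ?_ ?_ ?_
  · exact ⟨∅, ⟨[], by simp, rfl⟩, empty_subset _, empty_subset _⟩
  · rintro s t hst ⟨L, h1, h2, h3⟩
    exact ⟨L, h1, hst.trans h2, h3⟩
  · rintro s t ⟨L, ⟨l, hl, rfl⟩, h2, h3⟩ ⟨L', ⟨l', hl', rfl⟩, h2', h3'⟩
    refine ⟨ti_uni l ∪ ti_uni l', ⟨l ++ l', ?_, ti_uni_append l l'⟩,
      union_subset_union h2 h2', union_subset h3 h3'⟩
    intro W hW
    rw [List.mem_append] at hW
    exact hW.elim (hl W) (hl' W)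
  · intro x hx
    obtain ⟨W, hW, hxW, hWV⟩ := hbas x V hV (hKV hx)
    refine ⟨W, mem_nhdsWithin_of_mem_nhds ((hB W hW).mem_nhds hxW), W, ⟨[W], ?_, ?_⟩,
      subset_refl _, hWV⟩
    · intro V' hV'
      rw [List.mem_singleton] at hV'
      rw [hV']; exact hW
    · simp [ti_uni]

theorem top_ind {X : Type*} [MetricSpace X] [CompactSpace X] (B : Set (Set X))
    (hB : ∀ U ∈ B, IsOpen U) (hI : ∀ U ∈ B, ∀ V ∈ B, U ∩ V ∈ B)
    (hbas : ∀ (x : X) (U : Set X), IsOpen U → x ∈ U → ∃ V ∈ B, x ∈ V ∧ V ⊆ U) (h0 : ∅ ∈ B)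
    (P : Set X → Prop) (hP : ∀ U ∈ B, P U)
    (hU : ∀ U V : Set X, IsOpen U → IsOpen V → P U → P V → P (U ∩ V) → P (U ∪ V))
    (hD : ∀ f : ℕ → Set X, (∀ i, IsOpen (f i)) → Pairwise (fun i j => Disjoint (f i) (f j)) →
      (∀ i, P (f i)) → P (⋃ i, f i)) : ∀ U : Set X, IsOpen U → P U := by
  intro U hUo
  by_cases huniv : U = univ
  · obtain ⟨L, hL, h1, h2⟩ := ti_cover B hB hbas isCompact_univ isOpen_univ (subset_refl _)
    rw [huniv, ← subset_antisymm h2 h1]
    exact ti_P B hB hI h0 P hP hU hL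
  have hne : (Uᶜ).Nonempty := by
    rw [nonempty_compl]; exact huniv
  -- the distance function
  let f : X → ℝ := fun x => min 1 (Metric.infDist x Uᶜ)
  have hf : Continuous f := continuous_const.min (Metric.continuous_infDist_pt _)
  have hfpos : ∀ x, 0 < f x ↔ x ∈ U := by
    intro x
    constructor
    · intro hx
      by_contra hcon
      have h1 : Metric.infDist x Uᶜ = 0 := Metric.infDist_zero_of_mem hcon
      have h2 : f x ≤ 0 := by
        simp only [f, h1]
        exact min_le_right _ _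
      linarith
    · intro hx
      apply lt_min one_pos
      rw [← hUo.isClosed_compl.notMem_iff_infDist_pos hne]
      exact fun h => h hx
  have hf1 : ∀ x, f x ≤ 1 := fun x => min_le_left _ _
  let a : ℕ → ℝ := fun k => (1 / 2 : ℝ) ^ k
  have ha : ∀ k, a (k + 1) = a k / 2 := fun k => by simp only [a]; rw [pow_succ]; ring
  have hapos : ∀ k, 0 < a k := fun k => by simp only [a]; positivity
  have hamono : ∀ i j, i ≤ j → a j ≤ a i := fun i j hij =>
    pow_le_pow_of_le_one (by norm_num) (by norm_num) hij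
  let K : ℕ → Set X := fun k => {x | a (k + 1) ≤ f x ∧ f x ≤ a k}
  let V : ℕ → Set X := fun k => {x | 3 / 4 * a (k + 1) < f x ∧ f x < 5 / 4 * a k}
  have hKc : ∀ k, IsCompact (K k) := fun k =>
    ((isClosed_le continuous_const hf).inter (isClosed_le hf continuous_const)).isCompact
  have hVo : ∀ k, IsOpen (V k) := fun k =>
    (isOpen_lt continuous_const hf).inter (isOpen_lt hf continuous_const)
  have hKV : ∀ k, K k ⊆ V k := by
    rintro k x ⟨h1, h2⟩
    exact ⟨by linarith [hapos (k + 1)], by linarith [hapos k]⟩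
  have hVU : ∀ k, V k ⊆ U := by
    rintro k x ⟨h1, h2⟩
    rw [← hfpos]
    linarith [hapos (k + 1)]
  have hUK : ∀ x ∈ U, ∃ k, x ∈ K k := by
    intro x hx
    obtain ⟨n, h1, h2⟩ := exists_nat_pow_near_of_lt_one ((hfpos x).2 hx) (hf1 x)
      (show (0 : ℝ) < 1 / 2 by norm_num) (by norm_num)
    exact ⟨n, h1.le, h2⟩
  have hVd : ∀ i j, i + 2 ≤ j → Disjoint (V i) (V j) := by
    intro i j hij
    rw [Set.disjoint_left]
    rintro x ⟨h1, h2⟩ ⟨h3, h4⟩
    have h5 : a j ≤ a (i + 2) := hamono _ _ hij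
    have h6 : a (i + 2) = a (i + 1) / 2 := ha (i + 1)
    linarith [hapos (i + 1)]
  choose L hL1 hL2 hL3 using fun k => ti_cover B hB hbas (hKc k) (hVo k) (hKV k)
  have hLo : ∀ k, IsOpen (L k) := by
    intro k
    obtain ⟨l, hl, hl2⟩ := hL1 k
    rw [← hl2]
    exact ti_open l fun V hV => hB V (hl V hV)
  have hLd : ∀ i j, i + 2 ≤ j → Disjoint (L i) (L j) := fun i j hij =>
    (hVd i j hij).mono (hL3 i) (hL3 j)
  have hLd' : ∀ i j, (i + 2 ≤ j ∨ j + 2 ≤ i) → Disjoint (L i) (L j) := by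
    intro i j hij
    rcases hij with h | h
    · exact hLd i j h
    · exact (hLd j i h).symm
  have hPL : ∀ k, P (L k) := fun k => ti_P B hB hI h0 P hP hU (hL1 k)
  have hW : P (⋃ j, L (2 * j)) := by
    apply hD _ (fun j => hLo _) _ (fun j => hPL _)
    intro i j hij
    apply hLd'
    omega
  have hW' : P (⋃ j, L (2 * j + 1)) := by
    apply hD _ (fun j => hLo _) _ (fun j => hPL _)
    intro i j hij
    apply hLd'
    omega
  have hWW : P ((⋃ j, L (2 * j)) ∩ ⋃ j, L (2 * j + 1)) := by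
    have e : (⋃ j, L (2 * j)) ∩ (⋃ j, L (2 * j + 1)) =
        ⋃ m : ℕ, L (2 * (Nat.unpair m).1) ∩ L (2 * (Nat.unpair m).2 + 1) := by
      ext x
      simp only [mem_inter_iff, mem_iUnion]
      constructor
      · rintro ⟨⟨i, hi⟩, ⟨j, hj⟩⟩
        refine ⟨Nat.pair i j, ?_⟩
        rw [Nat.unpair_pair]
        exact ⟨hi, hj⟩
      · rintro ⟨m, h1, h2⟩
        exact ⟨⟨_, h1⟩, ⟨_, h2⟩⟩
    rw [e]
    apply hD _ (fun m => (hLo _).inter (hLo _))
    · intro m m' hmm
      have h1 : (Nat.unpair m).1 ≠ (Nat.unpair m').1 ∨ (Nat.unpair m).2 ≠ (Nat.unpair m').2 := by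
        by_contra hcon
        push Not at hcon
        apply hmm
        rw [← Nat.pair_unpair m, ← Nat.pair_unpair m', hcon.1, hcon.2]
      rcases h1 with h1 | h1
      · refine (hLd' (2 * (Nat.unpair m).1) (2 * (Nat.unpair m').1) ?_).mono inter_subset_left
          inter_subset_left
        omega
      · refine (hLd' (2 * (Nat.unpair m).2 + 1) (2 * (Nat.unpair m').2 + 1) ?_).mono
          inter_subset_right inter_subset_right
        omega
    · intro m
      exact ti_P B hB hI h0 P hP hU (ti_inter B hI (hL1 _) (hL1 _))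
  have hUeq : U = (⋃ j, L (2 * j)) ∪ ⋃ j, L (2 * j + 1) := by
    apply subset_antisymm
    · intro x hx
      obtain ⟨k, hk⟩ := hUK x hx
      have hxL := hL2 k hk
      rcases Nat.even_or_odd' k with ⟨m, rfl | rfl⟩
      · exact Or.inl (mem_iUnion.2 ⟨m, hxL⟩)
      · exact Or.inr (mem_iUnion.2 ⟨m, hxL⟩)
    · apply union_subset
      · exact iUnion_subset fun j => (hL3 _).trans (hVU _)
      · exact iUnion_subset fun j => (hL3 _).trans (hVU _)
  rw [hUeq]
  exact hU _ _ (isOpen_iUnion fun j => hLo _) (isOpen_iUnion fun j => hLo _) hW hW' hWW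

end PoolFbd
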