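import Pool.Agent.Work.MP_fbd21a_gt.PBox
import Pool.Agent.Work.MP_fbd21a_gt.PInjMV
import Pool.Agent.Work.MP_fbd21a_gt.PSurMV
import Pool.Agent.Work.MP_fbd21a_gt.PTopMV
import Pool.Agent.Work.MP_fbd21a_gt.PDisj
import Pool.Agent.Work.MP_fbd21a_gt.TopInd

/-! MODULE PDThm. Poincaré duality for all open subsets of the cube: top_ind with B = the set of all
obox a b (open; closed under intersections: max and min of the bounds; a basis of the topology; empty
box: a = b = 0 if n > 0... for n = 0 take care: obox of Q 0 is everything, so add ∅ to B by hand,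
B = {∅} ∪ boxes; P ∅ is trivial, see the case U = ∅ in PBox), and
P U = PInj R D U ∧ PSur R D U ∧ PTop R U. -/

open Topology Filter Set

namespace PoolFbd

private theorem pdthm_empty {R D : Type} [CommRing R] [AddCommGroup D] [Module R D] {n : ℕ} :
    PInj R D (∅ : Set (Q n)) ∧ PSur R D (∅ : Set (Q n)) ∧ PTop R (∅ : Set (Q n)) := by
  refine ⟨?_, ?_, ?_⟩
  · intro τ hτ q p h φ hφ H
    exact Cob.of_LZ (A := D) (G := Rˣ) (fun _ hx => hx.elim)
  · intro τ hτ q p h l hl
    refine ⟨0, fun _ hx => hx.elim, fun c hc => ?_⟩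
    have hz : LZ univ c := by
      refine hc.1.mono ?_
      rw [compl_empty, univ_union]
    have h0 : Itg (cup h τ c (0 : Coch (Q n) D p)) = 0 :=
      Itg_cob (Cob.of_LZ (cup_right h c (LZ.zero univ)))
    rw [h0]
    exact (hl c hc.1 (Cob.of_LZ (A := R) (G := Rˣ) hz)).symm
  · intro τ hτ m hm c hc
    have hz : LZ univ c := by
      refine hc.1.mono ?_
      rw [compl_empty, univ_union]
    exact Cob.of_LZ (A := R) (G := Rˣ) hz

private theorem pdthm_open {n : ℕ} (a b : Fin n → ℝ) : IsOpen (obox a b : Set (Q n)) := by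
  have e : (obox a b : Set (Q n)) = ⋂ i, {x : Q n | a i < x i ∧ (x i : ℝ) < b i} := by
    ext x
    rw [mem_iInter]
    rfl
  rw [e]
  refine isOpen_iInter_of_finite fun i => ?_
  have hc : Continuous (fun x : Q n => (x i : ℝ)) := continuous_subtype_val.comp (continuous_apply i)
  exact (isOpen_Ioo (a := a i) (b := b i)).preimage hc

theorem pd {R D : Type} [CommRing R] [AddCommGroup D] [Module R D] (hD : Module.Baer R D)
    {n : ℕ} (U : Set (Q n)) (hU : IsOpen U) : PInj R D U ∧ PSur R D U := by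
  have key := top_ind (X := Q n) ({∅} ∪ {U | ∃ a b : Fin n → ℝ, U = obox a b}) ?_ ?_ ?_ ?_
    (fun U => PInj R D U ∧ PSur R D U ∧ PTop R U) ?_ ?_ ?_ U hU
  · exact ⟨key.1, key.2.1⟩
  · rintro U (hU | ⟨a, b, rfl⟩)
    · rw [mem_singleton_iff] at hU
      rw [hU]
      exact isOpen_empty
    · exact pdthm_open a b
  · rintro U (hU | ⟨a, b, rfl⟩) V hV
    · rw [mem_singleton_iff] at hU
      left
      rw [mem_singleton_iff, hU, empty_inter]
    · rcases hV with hV | ⟨a', b', rfl⟩
      · rw [mem_singleton_iff] at hV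
        left
        rw [mem_singleton_iff, hV, inter_empty]
      · right
        refine ⟨fun i => max (a i) (a' i), fun i => min (b i) (b' i), ?_⟩
        ext x
        constructor
        · rintro ⟨h1, h2⟩ i
          exact ⟨max_lt (h1 i).1 (h2 i).1, lt_min (h1 i).2 (h2 i).2⟩
        · intro h
          exact ⟨fun i => ⟨(le_max_left _ _).trans_lt (h i).1, (h i).2.trans_le (min_le_left _ _)⟩,
            fun i => ⟨(le_max_right _ _).trans_lt (h i).1, (h i).2.trans_le (min_le_right _ _)⟩⟩
  · intro x U hU hx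
    obtain ⟨ε, hε, hball⟩ := Metric.isOpen_iff.1 hU x hx
    refine ⟨obox (fun i => (x i : ℝ) - ε) (fun i => (x i : ℝ) + ε), Or.inr ⟨_, _, rfl⟩, ?_, ?_⟩
    · intro i
      constructor <;> linarith
    · intro y hy
      apply hball
      rw [Metric.mem_ball, dist_pi_lt_iff hε]
      intro i
      have := hy i
      rw [Subtype.dist_eq, Real.dist_eq, abs_lt]
      constructor <;> linarith [this.1, this.2]
  · left
    rfl
  · rintro U (hU | ⟨a, b, rfl⟩)
    · rw [mem_singleton_iff] at hU
      rw [hU]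
      exact pdthm_empty
    · exact ⟨pinj_box a b, psur_box a b, ptop_box a b⟩
  · intro U V hU hV h1 h2 h3
    exact ⟨pinj_union hD hU hV h1.1 h2.1 h3.1 h1.2.1 h2.2.1,
      psur_union hD hU hV h3.1 h1.2.1 h2.2.1 h3.2.1 h3.2.2, ptop_union hU hV h1.2.2 h2.2.2 h3.2.2⟩
  · intro f hf hd h
    exact ⟨pinj_disj hf hd fun i => (h i).1, psur_disj hf hd fun i => (h i).2.1,
      ptop_disj hf hd fun i => (h i).2.2⟩

end PoolFbd
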