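import Pool.Agent.Work.MP_fbd21a_gt.Refl
import Pool.Agent.Work.MP_fbd21a_gt.AcBox
import Pool.Agent.Work.MP_fbd21a_gt.DdDd
import Pool.Agent.Work.MP_fbd21a_gt.Ret

/-! MODULE Sgn. Every continuous self map rb of the four-cube which agrees with rho4 on the boundary
reverses the sign of the integral.
PROOF. φ a relative 4-cocycle of (univ, bd 4). φ = dd one ψ near univ (acyc_Q), ψ of degree 3,
a cocycle near bd 4. pb rb φ = dd one (pb rb ψ), pb rho4 φ = dd one (pb rho4 ψ) near univ, so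
pb rb φ - pb rho4 φ = dd one (pb rb ψ - pb rho4 ψ) near univ, and by ret_one (S = bd 4, Z = ∅, S' = bd 4;
rb and rho4 are continuous and agree on bd 4, mapping bd 4 to itself) pb rb ψ - pb rho4 ψ = dd one χ near
bd 4. So the difference is dd one (pb rb ψ - pb rho4 ψ - dd one χ), a relative coboundary.
Itg_congr and Itg_rho4. -/

open Topology Filter Set

namespace PoolFbd

theorem Itg_sgn {rb : Q 4 → Q 4} (hc : Continuous rb) (hb : ∀ x ∈ bd 4, rb x = rho4 x)
    {A : Type} [AddCommGroup A] {φ : Coch (Q 4) A 4} (hφ : Coc one univ (bd 4) φ) :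
    Itg (pb rb φ) = - Itg φ := by
  have hneg : Continuous negI := by
    unfold negI
    exact (continuous_subtype_val.neg).subtype_mk _
  have hrc : Continuous rho4 := by
    refine continuous_pi fun j => ?_
    fin_cases j
    · exact hneg.comp (continuous_apply 0)
    · exact hneg.comp (continuous_apply 1)
    · exact hneg.comp (continuous_apply 2)
    · exact continuous_apply 3
  have hrb : ∀ x ∈ bd 4, rho4 x ∈ bd 4 := by
    have key : ∀ y : Icc (-1 : ℝ) 1, ((y : ℝ) = -1 ∨ (y : ℝ) = 1) →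
        ((negI y : ℝ) = -1 ∨ (negI y : ℝ) = 1) := by
      intro y hy
      simp only [negI]
      rcases hy with h | h
      · right; rw [h]; norm_num
      · left; rw [h]
    rintro x ⟨j, hj⟩
    fin_cases j
    · exact ⟨0, key _ hj⟩
    · exact ⟨1, key _ hj⟩
    · exact ⟨2, key _ hj⟩
    · exact ⟨3, hj⟩
  obtain ⟨ψ, -, hψ⟩ := (acyc_Q 4).2 A |>.2 3 φ hφ.2
  have hψc : Coc one (bd 4) ∅ ψ := by
    refine ⟨LZ.empty _, ?_⟩
    have h1 : LZ (bd 4) (φ - dd one ψ) := hψ.mono (subset_univ _)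
    exact LZ.congr h1.symm hφ.1
  have h1 : LZ univ (pb rb φ - dd one (pb rb ψ)) :=
    LZ.pb (S' := univ) (fun x _ => ⟨hc.continuousAt, mem_univ _⟩) hψ
  have h2 : LZ univ (pb rho4 φ - dd one (pb rho4 ψ)) :=
    LZ.pb (S' := univ) (fun x _ => ⟨hrc.continuousAt, mem_univ _⟩) hψ
  have h3 := ret_one (f := rb) (g := rho4) (S := bd 4) (Z := ∅) (S' := bd 4) (Z' := ∅)
    (fun x _ => hc.continuousAt) (fun x _ => hrc.continuousAt)
    (fun x hx => hb x (by simpa using hx)) (fun x hx => by rw [hb x hx]; exact hrb x hx)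
    (fun x hx => hx.elim) hψc
  obtain ⟨χ, -, hχ⟩ := h3
  have hdd : dd one (dd one χ) = 0 := by
    funext t
    exact dd_dd_apply one χ t (by simp [one])
  have hcob : Cob one univ (bd 4) (pb rb φ - pb rho4 φ) := by
    refine ⟨pb rb ψ - pb rho4 ψ - dd one χ, hχ, ?_⟩
    rw [dd_sub, dd_sub, hdd, sub_zero]
    have h4 := h1.sub h2
    convert h4 using 1
    abel
  have hcoc : Coc one univ (bd 4) (pb rb φ) :=
    Coc.pb (τ := one) (S' := univ) (Z' := bd 4)
      (fun x _ => ⟨hc.continuousAt, mem_univ _⟩)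
      (fun x hx => ⟨hc.continuousAt, by rw [hb x hx]; exact hrb x hx⟩) hφ
  rw [Itg_congr hcoc hcob, Itg_rho4 hφ]

end PoolFbd
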