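import Pool.Agent.Work.MP_fbd21a_gt.SphH
import Pool.Agent.Work.MP_fbd21a_gt.Refl
import Pool.Agent.Work.MP_fbd21a_gt.Sgn

/-! MODULE SphI. The integral over the boundary sphere.
PROOFS. Itg3 χ = Itg (dd one (pb rad χ)); pb rad χ is a cocycle near bd 4 if χ is one on E3 (Coc.pb,
rad_cont_bd), dd one of it is a relative 4-cocycle of (univ, bd 4) (LZ_dd_dd). Additivity etc. from
IntP. itg3_cob: χ = dd one s near univ: pb rad χ - dd one (pb rad s) vanishes near bd 4, so
dd one (pb rad χ) = dd one (that) near univ is a relative coboundary (use dd dd = 0).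
itg3_ext: θ on Q 4, cocycle near bd 4: θ and pb rad (pb io θ) differ by a coboundary dd one s near bd 4
(ret_one, io (rad x) = x on bd 4), so θ - pb rad (pb io θ) - dd one s vanishes near bd 4 and
dd one θ - dd one (pb rad ..) is a relative coboundary.
itg3_eq_zero: bd_H3 and pull back by io.
itg3_rho: χ∘rho3: pb rad (pb rho3 χ) = pb rho (pb rad χ) near bd 4 up to coboundary (rad (rho x) =
rho3 (rad x) for x ≠ 0, exactly), so the 4-forms agree near bd and dd one (pb rho θ) = pb rho (dd one θ):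
Itg_rho4 (rho = rho4 by rfl). The statement: Itg3 (pb rho3 χ) = - Itg3 χ.
itg3_gen: a generator: there is an integral 3-cocycle with Itg3 = 1 for every coefficient:
take om 4 0 = dd one θ near univ (acyc_Q), χ = pb io θ, itg3_ext and Itg_om. -/

open Topology Filter Set

namespace PoolFbd

variable {A B : Type} [AddCommGroup A] [AddCommGroup B]

private theorem sphi_io : ∀ x ∈ (univ : Set E3), ContinuousAt io x ∧ io x ∈ bd 4 :=
  fun x _ => ⟨continuous_subtype_val.continuousAt, x.2⟩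

private theorem sphi_rad : ∀ x ∈ (bd 4 : Set (Q 4)), ContinuousAt rad x ∧ rad x ∈ (univ : Set E3) :=
  fun _ hx => ⟨rad_cont_bd hx, mem_univ _⟩

omit [AddCommGroup A] in
private theorem sphi_pbpb {m : ℕ} (χ : Coch E3 A m) : pb io (pb rad χ) = χ := by
  funext t
  simp only [pb, rad_io]

private theorem sphi_pb {m : ℕ} {χ : Coch E3 A m} (hχ : LZ univ (dd one χ)) :
    LZ (bd 4) (dd one (pb rad χ)) := by
  have h : Coc one univ ∅ χ := ⟨LZ.empty χ, hχ⟩
  exact (Coc.pb (f := rad) (S := bd 4) (Z := ∅) sphi_rad (fun x hx => hx.elim) h).2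

private theorem sphi_coc {m : ℕ} {φ : Coch (Q 4) A m} (hφ : LZ (bd 4) (dd one φ)) :
    Coc one univ (bd 4) (dd one φ) :=
  ⟨hφ, LZ_dd_dd (IsTw.one univ) φ⟩

private theorem sphi_key {a b : Coch (Q 4) A 3} (h : Cob one (bd 4) ∅ (a - b)) :
    Cob one univ (bd 4) (dd one a - dd one b) := by
  obtain ⟨s, -, hs⟩ := h
  refine ⟨a - b - dd one s, hs, ?_⟩
  have h1 : LZ univ (dd one (dd one s)) := LZ_dd_dd (IsTw.one univ) s
  have e : dd one a - dd one b - dd one (a - b - dd one s) = dd one (dd one s) := by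
    rw [dd_sub, dd_sub]
    abel
  rw [e]
  exact h1

theorem itg3_add {χ χ' : Coch E3 A 3} (h : LZ univ (dd one χ)) (h' : LZ univ (dd one χ')) :
    Itg3 (χ + χ') = Itg3 χ + Itg3 χ' := by
  have e : dd one (pb rad (χ + χ')) = dd one (pb rad χ) + dd one (pb rad χ') := by
    rw [← dd_add]
    rfl
  unfold Itg3
  rw [e]
  exact Itg_add (sphi_coc (sphi_pb h)) (sphi_coc (sphi_pb h'))

theorem itg3_sub {χ χ' : Coch E3 A 3} (h : LZ univ (dd one χ)) (h' : LZ univ (dd one χ')) :
    Itg3 (χ - χ') = Itg3 χ - Itg3 χ' := by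
  have e : dd one (pb rad (χ - χ')) = dd one (pb rad χ) - dd one (pb rad χ') := by
    rw [← dd_sub]
    rfl
  unfold Itg3
  rw [e]
  exact Itg_sub (sphi_coc (sphi_pb h)) (sphi_coc (sphi_pb h'))

theorem itg3_cob {χ : Coch E3 A 3} (h : Cob one univ ∅ χ) : Itg3 χ = 0 := by
  have h1 : Cob one (bd 4) ∅ (pb rad χ) :=
    Cob.pb (f := rad) (S := bd 4) (Z := ∅) sphi_rad (fun x hx => hx.elim) h
  have h2 : Cob one (bd 4) ∅ (pb rad χ - 0) := by
    rw [sub_zero]
    exact h1
  have h3 := sphi_key h2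
  rw [dd_zero, sub_zero] at h3
  exact Itg_cob h3

private theorem sphi_cob_coc {χ : Coch E3 A 3} (h : Cob one univ ∅ χ) : LZ univ (dd one χ) := by
  obtain ⟨s, -, hs⟩ := h
  have h1 : LZ univ (dd one (χ - dd one s)) := hs.dd one
  have h2 : LZ univ (dd one (dd one s)) := LZ_dd_dd (IsTw.one univ) s
  have h3 := h1.add h2
  rw [dd_sub, sub_add_cancel] at h3
  exact h3

theorem itg3_congr {χ χ' : Coch E3 A 3} (h : LZ univ (dd one χ)) (h' : Cob one univ ∅ (χ - χ')) :
    Itg3 χ = Itg3 χ' := by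
  have h1 := itg3_sub h (sphi_cob_coc h')
  rw [itg3_cob h', sub_zero, sub_sub_cancel] at h1
  exact h1.symm

theorem itg3_eq_zero {χ : Coch E3 A 3} (hχ : LZ univ (dd one χ)) (h : Itg3 χ = 0) :
    Cob one univ ∅ χ := by
  have h1 : Cob one (bd 4) ∅ (pb rad χ) := bd_H3 (sphi_pb hχ) h
  have := Cob.pb (f := io) (S := univ) (Z := ∅) sphi_io (fun x hx => hx.elim) h1
  rwa [pbt_one, sphi_pbpb] at this

theorem itg3_map (F : A →+ B) {χ : Coch E3 A 3} (hχ : LZ univ (dd one χ)) :
    Itg3 (cmap F χ) = F (Itg3 χ) := by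
  have e : dd one (pb rad (cmap F χ)) = cmap F (dd one (pb rad χ)) := by
    rw [← dd_cmap one (pb rad χ) F (fun g a => by rw [Units.smul_def, Units.smul_def, map_zsmul])]
    rfl
  unfold Itg3
  rw [e]
  exact Itg_map F (sphi_coc (sphi_pb hχ))

theorem itg3_smul {R : Type} [CommRing R] [Module R A] (r : R) {χ : Coch E3 A 3}
    (hχ : LZ univ (dd one χ)) : Itg3 (r • χ) = r • Itg3 χ :=
  itg3_map (DistribSMul.toAddMonoidHom A r) hχ

theorem itg3_ext {θ : Coch (Q 4) A 3} (hθ : LZ (bd 4) (dd one θ)) :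
    Itg (dd one θ) = Itg3 (pb io θ) := by
  have h : Coc one (bd 4) ∅ θ := ⟨LZ.empty θ, hθ⟩
  have h1 : Cob one (bd 4) ∅ (pb id θ - pb (fun x => io (rad x)) θ) := by
    refine ret_one (f := id) (g := fun x => io (rad x)) (S := bd 4) (Z := ∅) (S' := bd 4)
      (Z' := ∅) (fun x _ => continuousAt_id) (fun x hx => ?_) (fun x hx => ?_)
      (fun x hx => hx) (fun x hx => hx) h
    · rcases hx with hx | hx
      · exact (continuous_subtype_val.continuousAt (x := rad x)).comp (rad_cont_bd hx)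
      · exact hx.elim
    · rcases hx with hx | hx
      · exact (io_rad hx).symm
      · exact hx.elim
  have h2 : Cob one univ (bd 4) (dd one θ - dd one (pb rad (pb io θ))) := sphi_key h1
  exact Itg_congr (sphi_coc hθ) h2

private theorem sphi_nrm_rho (x : Q 4) : nrm (rho x) = nrm x := by
  unfold nrm
  rw [Pi.norm_def, Pi.norm_def]
  congr 1
  congr 1
  funext i
  apply NNReal.eq
  rw [coe_nnnorm, coe_nnnorm, Real.norm_eq_abs, Real.norm_eq_abs]
  fin_cases i <;> simp [rho, neg1]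

private theorem sphi_uniq {x : Q 4} (hx : 0 < nrm x) {y : E3}
    (h : ∀ i, (x i : ℝ) = nrm x * (y.1 i : ℝ)) : rad x = y := by
  apply Subtype.ext
  funext i
  apply Subtype.ext
  have h1 := rad_spec hx i
  rw [h i] at h1
  exact (mul_left_cancel₀ hx.ne' h1).symm

private theorem sphi_rad_rho {x : Q 4} (hx : 0 < nrm x) : rad (rho x) = rho3 (rad x) := by
  apply sphi_uniq
  · rw [sphi_nrm_rho]
    exact hx
  · intro i
    rw [sphi_nrm_rho]
    have h := rad_spec hx i
    fin_cases i <;> simp [rho3, rho, neg1] at h ⊢ <;> exact h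

theorem itg3_rho {χ : Coch E3 A 3} (hχ : LZ univ (dd one χ)) :
    Itg3 (pb rho3 χ) = - Itg3 χ := by
  have hl : LZ (bd 4) (pb rho (pb rad χ) - pb rad (pb rho3 χ)) := by
    intro x hx
    have h1 : ∀ᶠ y in 𝓝 x, 0 < nrm y := by
      apply nrm_cont.continuousAt.eventually
      apply lt_mem_nhds
      rw [(nrm_bd x).2 hx]
      exact one_pos
    have h2 : ∀ᶠ t in 𝓝 (fun _ : Fin (3 + 1) => x), ∀ j, 0 < nrm (t j) := by
      rw [eventually_all]
      intro j
      exact ((continuous_apply j).tendsto (fun _ : Fin (3 + 1) => x)).eventually h1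
    filter_upwards [h2] with t ht
    have e : (fun j => rad (rho (t j))) = (fun j => rho3 (rad (t j))) := by
      funext j
      exact sphi_rad_rho (ht j)
    simp only [Pi.sub_apply, pb]
    rw [e, sub_self]
  have hc : Cob one (bd 4) ∅ (pb rho (pb rad χ) - pb rad (pb rho3 χ)) := Cob.of_LZ hl
  have h3 := sphi_key hc
  have e1 : dd one (pb rho (pb rad χ)) = pb rho4 (dd one (pb rad χ)) := rfl
  have h4 := Itg_rho4 (sphi_coc (sphi_pb hχ))
  unfold Itg3
  rw [← h4, ← e1]
  have hcoc : LZ (bd 4) (dd one (pb rho (pb rad χ))) := by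
    rw [e1]
    refine LZ.pb (S' := bd 4) (fun x hx => ⟨?_, rho_bd x hx⟩) (sphi_pb hχ)
    apply Continuous.continuousAt
    apply continuous_pi
    intro i
    have hn : Continuous negI := by
      unfold negI
      exact (continuous_subtype_val.neg).subtype_mk _
    fin_cases i
    · exact hn.comp (continuous_apply 0)
    · exact hn.comp (continuous_apply 1)
    · exact hn.comp (continuous_apply 2)
    · exact continuous_apply 3
  exact (Itg_congr (sphi_coc hcoc) h3).symm

theorem itg3_gen : ∃ χ : Coch E3 ℤ 3, LZ univ (dd one χ) ∧ Itg3 χ = 1 := by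
  have hz : ∀ i : Fin 4, (0 : Fin 4 → ℝ) i ∈ Ioo (-1 : ℝ) 1 := fun i => by
    rw [Pi.zero_apply]
    constructor <;> norm_num
  have h0 : LZ univ (dd one (om 4 0)) := by
    rw [om_dd]
    exact LZ.zero _
  obtain ⟨θ, -, hθ⟩ := ((acyc_Q 4).2 ℤ).2 3 (om 4 0) h0
  have hb : LZ (bd 4) (om 4 0) := om_bd 4 hz
  have h1 : LZ (bd 4) (dd one θ) := by
    have := hb.sub (hθ.mono (subset_univ (bd 4)))
    rwa [sub_sub_cancel] at this
  refine ⟨pb io θ, ?_, ?_⟩
  · have : LZ univ (pb io (dd one θ)) := LZ.pb sphi_io h1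
    exact this
  · rw [← itg3_ext h1]
    have h2 : Cob one univ (bd 4) (om 4 0 - dd one θ) := Cob.of_LZ hθ
    have hc : Coc one univ (bd 4) (om 4 0) := ⟨hb, h0⟩
    rw [← Itg_congr hc h2]
    have e : om 4 0 = smulC (om 4 0) (1 : ℤ) := by
      funext t
      simp [smulC]
    rw [e]
    exact Itg_om hz 1

end PoolFbd
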