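import Pool.Agent.Work.MP_fbd21a_gt.Cone
import Pool.Agent.Work.MP_fbd21a_gt.PDThm
import Pool.Agent.Work.MP_fbd21a_gt.SphI
import Pool.Agent.Work.MP_fbd21a_gt.CupL

/-! MODULE Pd3. Duality for the complement of a closed set K in the sphere E3, degrees (2, 1).
U = coneU K, τ_U = pbt rad τ; pbt io τ_U = τ (rad (io x) = x). Note the trivial identity
dd for the inverse twist; PInj and PSur of `pd` for U (q = 3, p = 1).
CUT: for x with LZ K x, x̂ t = if nrm (t 0) > 1/2 then x (rad ∘ t) else 0 vanishes near Uᶜ (near y ≠ 0 with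
rad y ∈ K as x vanishes near rad y; near 0), near bd 4 it is pb rad x, and pb io x̂ = x near univ.
psur3: l : Coch E3 R 2 →ₗ D vanishing on relative coboundaries. In M = Coch (Q 4) R 3 take the submodule
N of all e with: e = dd (invt τ_U) b + germ zero near univ, for some b vanishing near Uᶜ with LZ (bd 4) (dd b)
(i.e. pb io b a relative cocycle of (E3,K)), e zero near Uᶜ ∪ bd; λ(e) = l (pb io b). Well defined: if
dd (b - b') = 0 near univ then b - b' is a relative cocycle of (univ, Uᶜ), a coboundary by cone_van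
(IsTw of the inverse twist: IsTw.inv), and pb io of it is a relative coboundary of (E3, K): l = 0.
λ is R-linear, vanishes on relative coboundaries e = dd a of (univ, Uᶜ ∪ bd) (b = a, pb io a = 0 germ).
Extend by Baer to M. PSur: a_U near U with Itg (cup e a_U) = λ e. Put a = pb io a_U (a cocycle near Kᶜ).
For a relative cocycle x of (E3, K): e = dd (invt τ_U) x̂, Itg (cup e a_U) = Itg (dd one (x̂ ∪ a_U))
= Itg3 (pb io (x̂ ∪ a_U)) = Itg3 (x ∪ a) (itg3_ext), and it is λ e = l x.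
pinj3: a on E3, cocycle near Kᶜ, pairing to zero. a_U = pb rad a, a cocycle near U. For a relative cocycle c
of (univ, Uᶜ ∪ bd) of degree 3: c = dd b near univ, b zero near Uᶜ (cone_van, c is a relative
cocycle of (univ, Uᶜ)); b is a cocycle near bd. Itg (c ∪ a_U) = Itg3 (pb io b ∪ a) = 0. PInj: a_U is a
coboundary near U; pull back by io. -/

open Topology Filter Set

namespace PoolFbd

section aux
variable {R D : Type} [CommRing R] [AddCommGroup D] [Module R D] {K : Set E3} {τ : E3 → E3 → Rˣ}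

private theorem pd3_pbt {G : Type} (τ : E3 → E3 → G) : pbt io (pbt rad τ) = τ := by
  funext x y
  simp only [pbt, rad_io]

private theorem pd3_pbpb {A : Type} {n : ℕ} (φ : Coch E3 A n) : pb io (pb rad φ) = φ := by
  funext t
  simp only [pb, rad_io]

private theorem pd3_nrm (x : E3) : nrm (io x) = 1 := (nrm_bd (io x)).2 x.2

private theorem pd3_io_cont : Continuous io := continuous_subtype_val

private theorem pd3_ioU {x : E3} (hx : x ∉ K) : io x ∈ coneU K :=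
  ⟨by rw [pd3_nrm]; exact one_pos, by rw [rad_io]; exact hx⟩

private theorem pd3_ioUc {x : E3} (hx : x ∈ K) : io x ∈ (coneU K)ᶜ := by
  rintro ⟨-, b⟩
  rw [rad_io] at b
  exact b hx

private theorem pd3_dd_smul (σ : Q 4 → Q 4 → Rˣ) {n : ℕ} (r : R) (φ : Coch (Q 4) R n) :
    dd σ (r • φ) = r • dd σ φ := by
  funext t
  simp only [dd, Pi.smul_apply, smul_add, Finset.smul_sum]
  congr 1
  · exact smul_comm _ _ _
  · exact Finset.sum_congr rfl fun i _ => smul_comm _ _ _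

private theorem pd3_lz_smul {S : Set (Q 4)} {n : ℕ} (r : R) {φ : Coch (Q 4) R n}
    (h : LZ S φ) : LZ S (r • φ) := fun x hx => by
  filter_upwards [h x hx] with t ht
  rw [Pi.smul_apply, ht, smul_zero]

/-- The coboundary as a linear map. -/
private def pd3_ddL (σ : Q 4 → Q 4 → Rˣ) (n : ℕ) :
    Coch (Q 4) R n →ₗ[R] Coch (Q 4) R (n + 1) where
  toFun := dd σ
  map_add' := dd_add σ
  map_smul' := pd3_dd_smul σ

/-- The germs which vanish. -/
private def pd3_Z (n : ℕ) : Submodule R (Coch (Q 4) R n) where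
  carrier := {e | LZ univ e}
  add_mem' h1 h2 := LZ.add h1 h2
  zero_mem' := LZ.zero univ
  smul_mem' r _ h := pd3_lz_smul r h

/-- Cochains vanishing near the complement of the cone, cocycles near the boundary. -/
private def pd3_B (K : Set E3) (τ : E3 → E3 → Rˣ) : Submodule R (Coch (Q 4) R 2) where
  carrier := {b | LZ (coneU K)ᶜ b ∧ LZ (bd 4) (dd (invt (pbt rad τ)) b)}
  add_mem' h1 h2 := ⟨h1.1.add h2.1, by
    have e := h1.2.add h2.2
    rw [← dd_add (A := R) (G := Rˣ)] at e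
    exact e⟩
  zero_mem' := ⟨LZ.zero _, by
    have e : LZ (bd 4) (0 : Coch (Q 4) R (2 + 1)) := LZ.zero _
    rw [← dd_zero (A := R) (G := Rˣ) (invt (pbt rad τ))] at e
    exact e⟩
  smul_mem' r _ h := ⟨pd3_lz_smul r h.1, by rw [pd3_dd_smul]; exact pd3_lz_smul r h.2⟩

/-- Pull back to the sphere as a linear map. -/
private def pd3_io (n : ℕ) : Coch (Q 4) R n →ₗ[R] Coch E3 R n where
  toFun := pb io
  map_add' _ _ := rfl
  map_smul' _ _ := rfl

private theorem pd3_tw (hτ : IsTw Kᶜ τ) :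
    IsTw (univ \ (coneU K)ᶜ) (pbt rad τ) :=
  (cone_tw hτ).mono fun x hx => not_not.1 hx.2

private theorem pd3_stokes (hτ : IsTw Kᶜ τ) {b : Coch (Q 4) R 2}
    (hb : LZ (coneU K)ᶜ b) (hb' : LZ (bd 4) (dd (invt (pbt rad τ)) b)) {φ : Coch (Q 4) D 1}
    (hφ : LZ (coneU K) (dd (pbt rad τ) φ)) {e : Coch (Q 4) R 3}
    (he : LZ univ (e - dd (invt (pbt rad τ)) b)) :
    Itg (cup (rfl : 3 + 1 = 4) (pbt rad τ) e φ) =
      Itg3 (cup (rfl : 2 + 1 = 3) τ (pb io b) (pb io φ)) := by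
  have e1 := cup_leib (rfl : 2 + 1 = 3) (rfl : 2 + 1 + 1 = 3 + 1) (rfl : 2 + (1 + 1) = 3 + 1)
    (pd3_tw hτ) hb φ
  have e2 : LZ univ (cup (rfl : 2 + (1 + 1) = 3 + 1) (pbt rad τ) b (dd (pbt rad τ) φ)) := by
    intro x _
    by_cases hx : x ∈ coneU K
    · exact cup_right _ b hφ x hx
    · exact cup_left _ hb _ x hx
  have e3 : LZ univ (cup (rfl : 3 + 1 = 3 + 1) (pbt rad τ) (e - dd (invt (pbt rad τ)) b) φ) :=
    cup_left _ he φ
  rw [cup_sub_left] at e3
  have hkey : LZ univ (cup (rfl : 3 + 1 = 3 + 1) (pbt rad τ) e φ -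
      dd one (cup (rfl : 2 + 1 = 3) (pbt rad τ) b φ)) := by
    have e4 := (e3.sub e1).sub e2
    rw [neg_one_sq, one_smul] at e4
    convert e4 using 1
    abel
  have heb : LZ (bd 4) e := by
    have e5 := (he.mono (subset_univ (bd 4))).add hb'
    rwa [sub_add_cancel] at e5
  have hec : LZ (coneU K)ᶜ e := by
    have e5 := (he.mono (subset_univ (coneU K)ᶜ)).add (hb.dd (invt (pbt rad τ)))
    rwa [sub_add_cancel] at e5
  have hed : LZ univ (dd (invt (pbt rad τ)) e) := by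
    have e5 := he.dd (invt (pbt rad τ))
    rw [dd_sub] at e5
    have e6 := e5.add (LZ_dd_dd' (S := univ) (pd3_tw hτ).inv hb)
    rwa [sub_add_cancel] at e6
  have hcoc : Coc one univ (bd 4) (cup (rfl : 3 + 1 = 4) (pbt rad τ) e φ) := by
    have e5 : Coc one univ ((coneU K)ᶜ ∪ bd 4) (cup (rfl : 3 + 1 = 4) (pbt rad τ) e φ) := by
      refine cup_coc _ ((pd3_tw hτ).mono ?_) ⟨hec.union heb, hed⟩ (hφ.mono ?_)
      · exact fun x hx => ⟨hx.1, fun h => hx.2 (Or.inl h)⟩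
      · exact fun x hx => by_contra fun h => hx.2 (Or.inl h)
    exact e5.mono (subset_refl _) subset_union_right
  have hθ : LZ (bd 4) (dd one (cup (rfl : 2 + 1 = 3) (pbt rad τ) b φ)) := by
    have e5 : LZ (bd 4) (cup (rfl : 3 + 1 = 3 + 1) (pbt rad τ) e φ) := cup_left _ heb φ
    have e6 := e5.sub (hkey.mono (subset_univ (bd 4)))
    rwa [sub_sub_cancel] at e6
  have s1 : Itg (cup (rfl : 3 + 1 = 4) (pbt rad τ) e φ) =
      Itg (dd one (cup (rfl : 2 + 1 = 3) (pbt rad τ) b φ)) :=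
    Itg_congr hcoc (Cob.of_LZ hkey)
  rw [s1, itg3_ext hθ]
  have s2 : pb io (cup (rfl : 2 + 1 = 3) (pbt rad τ) b φ) =
      cup (rfl : 2 + 1 = 3) (pbt io (pbt rad τ)) (pb io b) (pb io φ) := rfl
  rw [s2, pd3_pbt]

open Classical in
/-- Extension of a cochain of the sphere by the radial projection, cut off near the origin. -/
private noncomputable def pd3_hat (x : Coch E3 R 2) : Coch (Q 4) R 2 :=
  fun t => if 1 / 2 < nrm (t 0) then pb rad x t else 0

private theorem pd3_hat_io (x : Coch E3 R 2) : pb io (pd3_hat x) = x := by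
  funext t
  simp only [pb, pd3_hat, pd3_nrm, rad_io]
  rw [if_pos (by norm_num)]

private theorem pd3_hat_bd (x : Coch E3 R 2) : LZ (bd 4) (pd3_hat x - pb rad x) := by
  intro y hy
  have h1 : ∀ᶠ z in 𝓝 y, 1 / 2 < nrm z := by
    refine nrm_cont.continuousAt.eventually (lt_mem_nhds ?_)
    rw [(nrm_bd y).2 hy]
    norm_num
  have h2 : ∀ᶠ t in 𝓝 (fun _ : Fin (2 + 1) => y), 1 / 2 < nrm (t 0) :=
    ((continuous_apply (0 : Fin (2 + 1))).tendsto (fun _ : Fin (2 + 1) => y)).eventually h1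
  filter_upwards [h2] with t ht
  simp only [Pi.sub_apply, pd3_hat, if_pos ht, sub_self]

private theorem pd3_hat_zero {x : Coch E3 R 2} (hx : LZ K x) :
    LZ (coneU K)ᶜ (pd3_hat x) := by
  intro y hy
  by_cases h0 : 0 < nrm y
  · have h1 : rad y ∈ K := by_contra fun h => hy ⟨h0, h⟩
    have h2 := (tendsto_pb (n := 2 + 1) (rad_cont h0)).eventually (hx (rad y) h1)
    filter_upwards [h2] with t ht
    simp only [pd3_hat]
    split_ifs
    · exact ht
    · rfl
  · have h1 : ∀ᶠ z in 𝓝 y, nrm z < 1 / 2 := by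
      refine nrm_cont.continuousAt.eventually (gt_mem_nhds ?_)
      have := (nrm_le y).1
      have h3 : nrm y = 0 := le_antisymm (not_lt.1 h0) this
      rw [h3]
      norm_num
    have h2 : ∀ᶠ t in 𝓝 (fun _ : Fin (2 + 1) => y), nrm (t 0) < 1 / 2 :=
      ((continuous_apply (0 : Fin (2 + 1))).tendsto (fun _ : Fin (2 + 1) => y)).eventually h1
    filter_upwards [h2] with t ht
    simp only [pd3_hat]
    rw [if_neg (not_lt.2 ht.le)]

private theorem pd3_hat_mem {x : Coch E3 R 2} (hx : Coc (invt τ) univ K x) :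
    pd3_hat x ∈ pd3_B K τ := by
  refine ⟨pd3_hat_zero hx.1, ?_⟩
  have e1 := (pd3_hat_bd x).dd (invt (pbt rad τ))
  rw [dd_sub] at e1
  have e2 : LZ (bd 4) (dd (invt (pbt rad τ)) (pb rad x)) := by
    have e3 : LZ (bd 4) (pb rad (dd (invt τ) x)) :=
      hx.2.pb fun y hy => ⟨rad_cont_bd hy, mem_univ _⟩
    exact e3
  have e4 := e1.add e2
  rwa [sub_add_cancel] at e4

/-- Extension of a functional from a submodule, modulo a submodule of the target. -/
private theorem pd3_ext (hD : Module.Baer R D) {M₁ M₂ : Type} [AddCommGroup M₁] [AddCommGroup M₂]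
    [Module R M₁] [Module R M₂] (δ : M₁ →ₗ[R] M₂) (Z : Submodule R M₂) (l₀ : M₁ →ₗ[R] D)
    (h : ∀ b, δ b ∈ Z → l₀ b = 0) :
    ∃ l' : M₂ →ₗ[R] D, ∀ b e, e - δ b ∈ Z → l' e = l₀ b := by
  let d : M₁ →ₗ[R] (M₂ ⧸ Z) := Z.mkQ ∘ₗ δ
  have hker : LinearMap.ker d ≤ LinearMap.ker l₀ := by
    intro b hb
    rw [LinearMap.mem_ker] at hb ⊢
    exact h b ((Submodule.Quotient.mk_eq_zero _).1 hb)
  obtain ⟨Λ, hΛ⟩ := Module.Baer.extension_property hD ((LinearMap.ker d).liftQ d le_rfl)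
    (LinearMap.ker_eq_bot.1 (Submodule.ker_liftQ_eq_bot _ _ _ le_rfl))
    ((LinearMap.ker d).liftQ l₀ hker)
  refine ⟨Λ ∘ₗ Z.mkQ, fun b e he => ?_⟩
  have h1 := LinearMap.congr_fun hΛ (Submodule.Quotient.mk b)
  have h2 : Λ (d b) = l₀ b := h1
  have h3 : Z.mkQ e = d b := (Submodule.Quotient.eq _).2 he
  rw [LinearMap.comp_apply, h3, h2]

/-- The extended functional. -/
private theorem pd3_fun (hD : Module.Baer R D) (hK : IsClosed K) (hτ : IsTw Kᶜ τ)
    (l : Coch E3 R 2 →ₗ[R] D)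
    (hl : ∀ x : Coch E3 R 2, LZ K x → Cob (invt τ) univ K x → l x = 0) :
    ∃ l' : Coch (Q 4) R 3 →ₗ[R] D, ∀ b : Coch (Q 4) R 2, LZ (coneU K)ᶜ b →
      LZ (bd 4) (dd (invt (pbt rad τ)) b) → ∀ e : Coch (Q 4) R 3,
      LZ univ (e - dd (invt (pbt rad τ)) b) → l' e = l (pb io b) := by
  obtain ⟨l', hl'⟩ := pd3_ext hD ((pd3_ddL (invt (pbt rad τ)) 2) ∘ₗ (pd3_B K τ).subtype)
    (pd3_Z 3) (l ∘ₗ (pd3_io 2) ∘ₗ (pd3_B K τ).subtype) (by
      intro b hb
      have h2 : LZ univ (dd (invt (pbt rad τ)) (b : Coch (Q 4) R 2)) := hb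
      have h3 : Cob (pbt rad (invt τ)) univ (coneU K)ᶜ (b : Coch (Q 4) R 2) :=
        cone_van hK hτ.inv ⟨b.2.1, h2⟩
      have h4 := Cob.pb (A := R) (G := Rˣ) (τ := pbt rad (invt τ)) (S := univ) (Z := K)
        (S' := univ) (Z' := (coneU K)ᶜ) (f := io) (φ := (b : Coch (Q 4) R 2))
        (fun x _ => ⟨pd3_io_cont.continuousAt, mem_univ _⟩)
        (fun x hx => ⟨pd3_io_cont.continuousAt, pd3_ioUc hx⟩) h3
      rw [pd3_pbt] at h4
      have h5 : LZ K (pb io (b : Coch (Q 4) R 2)) :=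
        b.2.1.pb fun x hx => ⟨pd3_io_cont.continuousAt, pd3_ioUc hx⟩
      exact hl _ h5 h4)
  exact ⟨l', fun b h1 h2 e he => hl' ⟨b, h1, h2⟩ e he⟩

end aux

theorem psur3 {R D : Type} [CommRing R] [AddCommGroup D] [Module R D] (hD : Module.Baer R D)
    {K : Set E3} (hK : IsClosed K) {τ : E3 → E3 → Rˣ} (hτ : IsTw Kᶜ τ)
    (l : Coch E3 R 2 →ₗ[R] D)
    (hl : ∀ x : Coch E3 R 2, LZ K x → Cob (invt τ) univ K x → l x = 0) :
    ∃ a : Coch E3 D 1, LZ Kᶜ (dd τ a) ∧ ∀ x : Coch E3 R 2, Coc (invt τ) univ K x →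
      Itg3 (cup (rfl : 2 + 1 = 3) τ x a) = l x := by

  have hU := coneU_open hK
  have htw := cone_tw (K := K) hτ
  obtain ⟨l', hl'⟩ := pd3_fun hD hK hτ l hl
  obtain ⟨φ, hφ1, hφ2⟩ := (pd (D := D) hD (coneU K) hU).2 (pbt rad τ) htw 3 1 rfl l' (by
    intro c hc1 hc2
    obtain ⟨a, ha1, ha2⟩ := hc2
    have hc3 : LZ (bd 4) (dd (invt (pbt rad τ)) a) :=
      LZ.dd (A := R) (G := Rˣ) (ha1.mono subset_union_right) (invt (pbt rad τ))
    rw [hl' a (ha1.mono subset_union_left) hc3 c ha2]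
    have h1 : LZ univ (pb io a) :=
      (ha1.mono (subset_union_right (s := (coneU K)ᶜ))).pb
        fun x _ => ⟨pd3_io_cont.continuousAt, x.2⟩
    exact hl _ (h1.mono (subset_univ K)) (Cob.of_LZ (A := R) (G := Rˣ) h1))
  refine ⟨pb io φ, ?_, ?_⟩
  · have h1 : LZ Kᶜ (pb io (dd (pbt rad τ) φ)) :=
      hφ1.pb fun x hx => ⟨pd3_io_cont.continuousAt, pd3_ioU hx⟩
    have h2 : pb io (dd (pbt rad τ) φ) = dd (pbt io (pbt rad τ)) (pb io φ) := rfl
    rw [h2, pd3_pbt] at h1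
    exact h1
  · intro x hx
    have hmem := pd3_hat_mem hx
    have hz : LZ univ (dd (invt (pbt rad τ)) (pd3_hat x) - dd (invt (pbt rad τ)) (pd3_hat x)) := by
      rw [sub_self]
      exact LZ.zero _
    have h1 := pd3_stokes hτ hmem.1 hmem.2 hφ1 hz
    have h2 := hl' _ hmem.1 hmem.2 _ hz
    rw [pd3_hat_io] at h1 h2
    rw [← h1, ← h2]
    refine hφ2 _ ⟨(LZ.dd (A := R) (G := Rˣ) hmem.1 (invt (pbt rad τ))).union hmem.2, ?_⟩
    exact LZ_dd_dd' (S := univ) (pd3_tw hτ).inv hmem.1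

theorem pinj3 {R D : Type} [CommRing R] [AddCommGroup D] [Module R D] (hD : Module.Baer R D)
    {K : Set E3} (hK : IsClosed K) {τ : E3 → E3 → Rˣ} (hτ : IsTw Kᶜ τ)
    {a : Coch E3 D 1} (ha : LZ Kᶜ (dd τ a)) (h : ∀ x : Coch E3 R 2, Coc (invt τ) univ K x →
      Itg3 (cup (rfl : 2 + 1 = 3) τ x a) = 0) : Cob τ Kᶜ ∅ a := by

  have hU := coneU_open hK
  have htw := cone_tw (K := K) hτ
  have h1 : LZ (coneU K) (dd (pbt rad τ) (pb rad a)) := by
    have h2 : LZ (coneU K) (pb rad (dd τ a)) := ha.pb fun x hx => ⟨rad_cont hx.1, hx.2⟩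
    exact h2
  have h2 := (pd (D := D) hD (coneU K) hU).1 (pbt rad τ) htw 3 1 rfl (pb rad a) h1 (by
    intro c hc
    have h3 : Cob (pbt rad (invt τ)) univ (coneU K)ᶜ c :=
      cone_van hK hτ.inv ⟨hc.1.mono subset_union_left, hc.2⟩
    obtain ⟨b, hb1, hb2⟩ := h3
    have hb3 : LZ (bd 4) (dd (invt (pbt rad τ)) b) := by
      have h4 := (hc.1.mono (subset_union_right (s := (coneU K)ᶜ))).sub
        (hb2.mono (subset_univ (bd 4)))
      rwa [sub_sub_cancel] at h4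
    rw [pd3_stokes hτ hb1 hb3 h1 hb2, pd3_pbpb]
    refine h _ ⟨hb1.pb fun x hx => ⟨pd3_io_cont.continuousAt, pd3_ioUc hx⟩, ?_⟩
    have h5 : LZ univ (pb io (dd (invt (pbt rad τ)) b)) :=
      hb3.pb fun x _ => ⟨pd3_io_cont.continuousAt, x.2⟩
    have h6 : pb io (dd (invt (pbt rad τ)) b) = dd (pbt io (pbt rad (invt τ))) (pb io b) := rfl
    rw [h6, pd3_pbt] at h5
    exact h5)
  have h3 : Cob (pbt io (pbt rad τ)) Kᶜ ∅ (pb io (pb rad a)) :=
    Cob.pb (τ := pbt rad τ) (S := Kᶜ) (Z := ∅) (S' := coneU K) (Z' := ∅) (f := io)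
      (fun x hx => ⟨pd3_io_cont.continuousAt, pd3_ioU hx⟩) (fun x hx => absurd hx (by simp)) h2
  rwa [pd3_pbt, pd3_pbpb] at h3

end PoolFbd
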