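import Pool.Agent.Work.MP_fbd21a_gt.IsOne
import Pool.Agent.Work.MP_fbd21a_gt.Pd3

/-! MODULE AbChi. H^1 of the complement of K with coefficients in ℚ/ℤ is generated by the crossing number.
k_H2: x a relative 2-cocycle of (E3, K) (trivial twist, coefficients A): x = dd one y near univ (e3_H2), y is a cocycle
near K, y = c k + dd one w near K (kK), so x - c dd one k = dd one (y - c k - dd one w) with a cochain zero near K.
ab_chi: e = IS S R (dd one k) = ± 1, d = e • Itg3 (cup (dd one k) a). pinj3 with R = ℤ, D = AddCircle 1, the trivial twist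
(invt one = one: funext, inv_one; IsTw.one) for a - smulC nC d: for x ~ c dd one k: Itg3 (cup x (a - ..)) =
c • (Itg3 (cup (dd one k) a) - e • d) = 0 (itg3_sub, itg3_smul, cup_coc, cup_cob_left, itg3_cob, lk_one).
ab_inj: if smulC nC d is a coboundary near Kᶜ, then 0 = Itg3 (cup (dd one k) (smulC nC d)) = e • d (cup_cob_right with
S = univ, Z = K). -/

open Topology Filter Set

namespace PoolFbd

variable {K S R : Set E3} {g u : Fin 2 → Coch E3 ℤ 1} {k : Coch E3 ℤ 1}
  {α β : Matrix (Fin 2) (Fin 2) ℤ}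

private theorem acx_ddsmul {A : Type} [AddCommGroup A] {n : ℕ} (g : Coch E3 ℤ n) (a : A) :
    dd one (smulC g a) = smulC (dd one g) a := by
  funext t
  show (one (t 0) (t 1) : ℤˣ) • (g (fun j => t j.succ) • a) +
      ∑ i : Fin (n + 1), (-1 : ℤ) ^ ((i : ℕ) + 1) • (g (fun j => t (i.succ.succAbove j)) • a) =
    ((one (t 0) (t 1) : ℤˣ) • g (fun j => t j.succ) +
      ∑ i : Fin (n + 1), (-1 : ℤ) ^ ((i : ℕ) + 1) • g (fun j => t (i.succ.succAbove j))) • a
  rw [add_smul, Finset.sum_smul]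
  congr 1
  · simp [one]
  · exact Finset.sum_congr rfl fun i _ => by rw [smul_assoc]

private theorem acx_eq {A : Type} [AddCommGroup A] {T : Set E3} {n : ℕ} {φ ψ : Coch E3 A n}
    (h : LZ T φ) (e : ψ = φ) : LZ T ψ := e ▸ h

theorem k_H2 (h : Geo3 K S R g u k α β) {A : Type} [AddCommGroup A] {x : Coch E3 A 2}
    (hx : Coc one univ K x) : ∃ c : A, Cob one univ K (x - smulC (dd one k) c) := by
  obtain ⟨y, -, hy⟩ := e3_H2 hx.2
  have h1 : LZ K (dd one y) := by
    have h2 := hx.1.sub (hy.mono (subset_univ K))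
    rwa [sub_sub_cancel] at h2
  obtain ⟨v, w, -, hw⟩ := (h.kK.2.2 A).2.1 y h1
  have hs : (∑ i, smulC ((![k] : Fin 1 → Coch E3 ℤ 1) i) (v i)) = smulC k (v 0) := by simp
  rw [hs] at hw
  refine ⟨v 0, y - smulC k (v 0) - dd one w, hw, ?_⟩
  rw [dd_sub, dd_sub, acx_ddsmul]
  have h3 := LZ_dd_dd (IsTw.one univ) w
  exact acx_eq (hy.add h3) (by abel)

private theorem acx_ncoc (h : Geo3 K S R g u k α β) {A : Type} [AddCommGroup A] (d : A) :
    LZ Kᶜ (dd one (smulC (nC S R) d)) := by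
  rw [acx_ddsmul]
  intro x hx
  filter_upwards [ns_ad h x hx] with t ht
  show ((one (t 0) (t 1) : ℤˣ) • nS S R (t 1) (t 2) +
    ∑ i : Fin 2, (-1 : ℤ) ^ ((i : ℕ) + 1) •
      nS S R (t (i.succ.succAbove 0)) (t (i.succ.succAbove 1))) • d = 0
  rw [Fin.sum_univ_two]
  have e1 : ((0 : Fin 2).succ.succAbove 0 : Fin 3) = 0 := rfl
  have e2 : ((0 : Fin 2).succ.succAbove 1 : Fin 3) = 2 := rfl
  have e3 : ((1 : Fin 2).succ.succAbove 0 : Fin 3) = 0 := rfl
  have e4 : ((1 : Fin 2).succ.succAbove 1 : Fin 3) = 1 := rfl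
  rw [e1, e2, e3, e4]
  have h2 : (one (t 0) (t 1) : ℤˣ) • nS S R (t 1) (t 2) +
      ((-1 : ℤ) ^ (((0 : Fin 2) : ℕ) + 1) • nS S R (t 0) (t 2) +
        (-1 : ℤ) ^ (((1 : Fin 2) : ℕ) + 1) • nS S R (t 0) (t 1)) = 0 := by
    rw [← ht]
    simp [one]
  rw [h2, zero_smul]

private theorem acx_k (h : Geo3 K S R g u k α β) : Coc (invt (one : E3 → E3 → ℤˣ)) univ K (dd one k) := by
  have h2 : (invt (one : E3 → E3 → ℤˣ)) = one := by
    funext x y
    simp [invt, one]
  rw [h2]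
  exact ⟨h.kK.2.1 0, LZ_dd_dd (IsTw.one univ) k⟩

private theorem acx_inv : (invt (one : E3 → E3 → ℤˣ)) = one := by
  funext x y
  simp [invt, one]

private theorem acx_diff {A : Type} [AddCommGroup A] {T : Set E3} {n : ℕ} {φ : Coch E3 A n}
    (h : LZ Tᶜ φ) : LZ (univ \ T) φ := h.mono (fun _ hx => hx.2)

theorem ab_chi (h : Geo3 K S R g u k α β) {a : Coch E3 (AddCircle (1 : ℚ)) 1}
    (ha : LZ Kᶜ (dd one a)) : ∃ d : AddCircle (1 : ℚ), Cob one Kᶜ ∅ (a - smulC (nC S R) d) := by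
  set I : AddCircle (1 : ℚ) := Itg3 (cup (rfl : 2 + 1 = 3) (one : E3 → E3 → ℤˣ) (dd one k) a)
    with hI
  refine ⟨IS S R (dd one k) • I, ?_⟩
  set d : AddCircle (1 : ℚ) := IS S R (dd one k) • I with hd
  have hb : LZ Kᶜ (dd one (a - smulC (nC S R) d)) := by
    rw [dd_sub]
    exact ha.sub (acx_ncoc h d)
  have hee : IS S R (dd one k) * IS S R (dd one k) = (1 : ℤ) := by
    rcases is_one h with h1 | h1 <;> rw [h1] <;> norm_num
  have hk0 : Itg3 (cup (rfl : 2 + 1 = 3) (one : E3 → E3 → ℤˣ) (dd one k)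
      (a - smulC (nC S R) d)) = 0 := by
    rw [cup_sub_right, itg3_sub (cup_coc _ (IsTw.one _) (acx_k h) (acx_diff ha)).2
      (cup_coc _ (IsTw.one _) (acx_k h) (acx_diff (acx_ncoc h d))).2, lk_one h d, ← hI, hd,
      ← mul_smul, hee, one_smul, sub_self]
  refine pinj3 (R := ℤ) baer_c h.cK (τ := (one : E3 → E3 → ℤˣ)) (IsTw.one _) hb ?_
  intro x hx
  obtain ⟨c, hc⟩ := k_H2 h (x := x) (by
    rw [acx_inv] at hx
    exact hx)
  have hsm : (smulC (dd one k) c : Coch E3 ℤ 2) = c • dd one k := by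
    funext t
    show dd one k t • c = c • dd one k t
    rw [smul_eq_mul, smul_eq_mul, mul_comm]
  rw [hsm] at hc
  have hcK : LZ K (x - c • dd one k) := by
    obtain ⟨ψ, h1, h2⟩ := hc
    have h3 := (h2.mono (subset_univ K)).add (h1.dd one)
    rwa [sub_add_cancel] at h3
  have hck : Coc (invt (one : E3 → E3 → ℤˣ)) univ K (x - c • dd one k) := by
    rw [← hsm]
    refine hx.sub ?_
    rw [acx_inv]
    refine ⟨?_, ?_⟩
    · intro x hx
      filter_upwards [(h.kK.2.1 0) x hx] with t ht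
      show dd one k t • c = 0
      have h1 : dd one k t = 0 := ht
      rw [h1, zero_smul]
    · rw [acx_ddsmul]
      intro x hx
      filter_upwards [(LZ_dd_dd (IsTw.one univ) k) x hx] with t ht
      show dd one (dd one k) t • c = 0
      rw [ht, zero_smul]
  have h1 : cup (rfl : 2 + 1 = 3) (one : E3 → E3 → ℤˣ) x (a - smulC (nC S R) d) =
      cup (rfl : 2 + 1 = 3) (one : E3 → E3 → ℤˣ) (x - c • dd one k) (a - smulC (nC S R) d) +
      c • cup (rfl : 2 + 1 = 3) (one : E3 → E3 → ℤˣ) (dd one k) (a - smulC (nC S R) d) := by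
    rw [← cup_smul_left, ← cup_add_left, sub_add_cancel]
  have hkc := (cup_coc (rfl : 2 + 1 = 3) (IsTw.one _) (acx_k h) (acx_diff hb)).2
  rw [h1, itg3_add (cup_coc _ (IsTw.one _) hck (acx_diff hb)).2, itg3_smul c hkc, hk0, smul_zero,
    add_zero]
  · refine itg3_cob ((cup_cob_left _ (IsTw.one _) ?_ hcK (acx_diff hb)).mono (subset_refl _)
      (empty_subset K))
    rw [acx_inv]
    exact hc
  · rw [← cup_smul_left]
    refine (cup_coc _ (IsTw.one _) (Z := K) ?_ (acx_diff hb)).2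
    have h2 := hx.sub hck
    rwa [sub_sub_cancel] at h2

theorem ab_inj (h : Geo3 K S R g u k α β) {d : AddCircle (1 : ℚ)}
    (hd : Cob one Kᶜ ∅ (smulC (nC S R) d)) : d = 0 := by
  have h1 : Cob one univ K (cup (rfl : 2 + 1 = 3) (one : E3 → E3 → ℤˣ) (dd one k)
      (smulC (nC S R) d)) := cup_cob_right _ (IsTw.one _) (acx_k h)
        (hd.mono (fun _ hx => hx.2) (subset_refl _))
  have h2 := itg3_cob (h1.mono (subset_refl _) (empty_subset K))
  rw [lk_one h d] at h2
  rcases is_one h with h3 | h3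
  · rwa [h3, one_smul] at h2
  · rw [h3, neg_smul, one_smul, neg_eq_zero] at h2
    exact h2

end PoolFbd
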