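import Pool.Agent.Work.MP_fbd21a_gt.AbChi

/-! MODULE AbZ. The abelianisation of the knot group and the normalised path cocycle.
PROOF. n₀ x y = nS (ι x) (ι y) is additive near X (ns_ad pulled back along the continuous ι, ι x ∉ K). hg.lift: l, s with
l (g₀ x y) = n₀ x y + s y - s x near the diagonal.
(1) For χ : G →* Multiplicative (AddCircle 1): a t = toAdd (χ (g₀ (κ (t 0)) (κ (t 1)))) is a cocycle near Kᶜ
(IsTw univ g₀, κ continuous at points of Kᶜ; target commutative). ab_chi: a = smulC nC d + dd one w near Kᶜ. Pull back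
by ι (κ ι = id): χ (g₀ x y) = n₀ x y • d + w (ι y) - w (ι x) near the diagonal of X. hg.chain with W = both formulas:
toAdd (χ γ) = (toAdd (l γ)) • d by induction along the chain (chP): the terms s and w telescope as c 0 = c n = x₀.
(2) ker l ⊆ commutator: if l γ = 1 then χ γ = 1 for all χ; characters separate points of Additive (Abelianization G)
(CharacterModule.exists_character_apply_ne_zero_of_ne_zero or CharacterModule.eq_zero_of_character_apply); hence the
class of γ in Abelianization G is 1. The converse: Abelianization.commutator_subset_ker.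
(3) l is onto: otherwise there is a prime p dividing all toAdd (l γ) (subgroup of ℤ generated by c ≠ ± 1;
Int.subgroup_cyclic / AddSubgroup.. ; p = any prime if c = 0). d = 1/p in AddCircle 1, p • d = 0, d ≠ 0. Near the
diagonal of X: n₀ x y • d = (s x - s y) • d. Pull back to E3 by κ (ι κ = id on Kᶜ): smulC nC d is a coboundary near Kᶜ:
contradiction to ab_inj.
(4) m with l m = ofAdd 1, g x y = m ^ (s x - s x₀) * g₀ x y * m ^ (-(s y - s x₀)). chP g c n =
m ^ (s (c 0) - s x₀) * chP g₀ c n * m ^ (-(s (c n) - s x₀)) by induction. -/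

open Topology Filter Set

namespace PoolFbd

variable {K S R : Set E3} {g u : Fin 2 → Coch E3 ℤ 1} {k : Coch E3 ℤ 1}
  {α β : Matrix (Fin 2) (Fin 2) ℤ}

private theorem az_ev {X : Type} [TopologicalSpace X] {ι : X → E3} {κ : E3 → X}
    (hC : CEmb K ι κ) (x : X) {n : ℕ} {P : (Fin n → E3) → Prop}
    (hP : ∀ᶠ t in 𝓝 (fun _ : Fin n => ι x), P t) :
    ∀ᶠ t in 𝓝 (fun _ : Fin n => x), P (fun j => ι (t j)) :=
  (tendsto_pb (hC.ci.continuousAt (x := x))).eventually hP

private theorem az_ev' {X : Type} [TopologicalSpace X] {ι : X → E3} {κ : E3 → X}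
    (hC : CEmb K ι κ) {x : E3} (hx : x ∉ K) {n : ℕ} {P : (Fin n → X) → Prop}
    (hP : ∀ᶠ t in 𝓝 (fun _ : Fin n => κ x), P t) :
    ∀ᶠ t in 𝓝 (fun _ : Fin n => x), P (fun j => κ (t j)) :=
  (tendsto_pb (hC.ck x hx)).eventually hP

private theorem az_dd1 {A : Type} [AddCommGroup A] (a : Coch E3 A 1) (t : Fin 3 → E3) :
    dd one a t = a ![t 1, t 2] - a ![t 0, t 2] + a ![t 0, t 1] := by
  show (one (t 0) (t 1) : ℤˣ) • a (fun j => t j.succ) +
    ∑ i : Fin 2, (-1 : ℤ) ^ ((i : ℕ) + 1) • a (fun j => t (i.succ.succAbove j)) = _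
  rw [Fin.sum_univ_two]
  have e1 : (fun j : Fin 2 => t ((0 : Fin 2).succ.succAbove j)) = ![t 0, t 2] := by
    funext j
    fin_cases j <;> rfl
  have e2 : (fun j : Fin 2 => t ((1 : Fin 2).succ.succAbove j)) = ![t 0, t 1] := by
    funext j
    fin_cases j <;> rfl
  have e3 : (fun j : Fin 2 => t j.succ) = ![t 1, t 2] := by
    funext j
    fin_cases j <;> rfl
  have e4 : (-1 : ℤ) ^ (((0 : Fin 2) : ℕ) + 1) = -1 := by norm_num
  have e5 : (-1 : ℤ) ^ (((1 : Fin 2) : ℕ) + 1) = 1 := by norm_num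
  rw [e4, e5]
  show (one (t 0) (t 1) : ℤˣ) • a (fun j => t j.succ) + ((-1 : ℤ) •
      a (fun j : Fin 2 => t ((0 : Fin 2).succ.succAbove j)) + (1 : ℤ) •
      a (fun j : Fin 2 => t ((1 : Fin 2).succ.succAbove j))) = _
  rw [e1, e2, e3, neg_smul, one_smul, one_smul, one, one_smul]
  abel

private theorem az_dd0 {A : Type} [AddCommGroup A] (ψ : Coch E3 A 0) (t : Fin 2 → E3) :
    dd one ψ t = ψ (fun _ => t 1) - ψ (fun _ => t 0) := by
  show (one (t 0) (t 1) : ℤˣ) • ψ (fun j => t j.succ) +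
    ∑ i : Fin 1, (-1 : ℤ) ^ ((i : ℕ) + 1) • ψ (fun j => t (i.succ.succAbove j)) = _
  rw [Fin.sum_univ_one]
  have e1 : (fun j : Fin 1 => t ((0 : Fin 1).succ.succAbove j)) = fun _ => t 0 := by
    funext j
    fin_cases j
    rfl
  have e3 : (fun j : Fin 1 => t j.succ) = fun _ => t 1 := by
    funext j
    fin_cases j
    rfl
  have e4 : (-1 : ℤ) ^ (((0 : Fin 1) : ℕ) + 1) = -1 := by norm_num
  rw [e4]
  show (one (t 0) (t 1) : ℤˣ) • ψ (fun j => t j.succ) + (-1 : ℤ) •
      ψ (fun j : Fin 1 => t ((0 : Fin 1).succ.succAbove j)) = _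
  rw [e1, e3, neg_smul, one_smul, one, one_smul]
  abel

private theorem az_char (h : Geo3 K S R g u k α β) {X G : Type} [TopologicalSpace X] [Group G]
    {ι : X → E3} {κ : E3 → X} (hC : CEmb K ι κ) {x₀ : X} {g₀ : X → X → G} (hg : PCo x₀ g₀)
    {l : G →* Multiplicative ℤ} {s : X → ℤ}
    (hl : ∀ x, ∀ᶠ t in 𝓝 (fun _ : Fin 2 => x), Multiplicative.toAdd (l (g₀ (t 0) (t 1))) =
      nS S R (ι (t 0)) (ι (t 1)) + s (t 1) - s (t 0))
    (χ : G →* Multiplicative (AddCircle (1 : ℚ))) :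
    ∃ d : AddCircle (1 : ℚ), ∀ γ, Multiplicative.toAdd (χ γ) =
      Multiplicative.toAdd (l γ) • d := by
  set a : Coch E3 (AddCircle (1 : ℚ)) 1 := fun t =>
    Multiplicative.toAdd (χ (g₀ (κ (t 0)) (κ (t 1)))) with ha
  have hac : LZ Kᶜ (dd one a) := by
    intro x hx
    filter_upwards [az_ev' hC hx (hg.coc (κ x) (mem_univ _))] with t ht
    rw [az_dd1]
    show Multiplicative.toAdd (χ (g₀ (κ (t 1)) (κ (t 2)))) -
      Multiplicative.toAdd (χ (g₀ (κ (t 0)) (κ (t 2)))) +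
      Multiplicative.toAdd (χ (g₀ (κ (t 0)) (κ (t 1)))) = 0
    rw [← ht, map_mul χ, toAdd_mul]
    abel
  obtain ⟨d, ψ, -, hψ⟩ := ab_chi h hac
  refine ⟨d, fun γ => ?_⟩
  set w : X → AddCircle (1 : ℚ) := fun x => ψ (fun _ => ι x) with hw
  have h1 : ∀ x, ∀ᶠ t in 𝓝 (fun _ : Fin 2 => x),
      Multiplicative.toAdd (χ (g₀ (t 0) (t 1))) =
        nS S R (ι (t 0)) (ι (t 1)) • d + w (t 1) - w (t 0) ∧
      Multiplicative.toAdd (l (g₀ (t 0) (t 1))) =
        nS S R (ι (t 0)) (ι (t 1)) + s (t 1) - s (t 0) := by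
    intro x
    filter_upwards [az_ev hC x (hψ (ι x) (hC.iK x)), hl x] with t ht ht2
    refine ⟨?_, ht2⟩
    have h2 : (Multiplicative.toAdd (χ (g₀ (κ (ι (t 0))) (κ (ι (t 1))))) -
      nS S R (ι (t 0)) (ι (t 1)) • d) - dd one ψ (fun j => ι (t j)) = 0 := ht
    rw [az_dd0, hC.ki, hC.ki] at h2
    have h3 := sub_eq_zero.1 h2
    rw [sub_eq_iff_eq_add] at h3
    rw [h3]
    simp only [hw]
    abel
  obtain ⟨N, c, hc0, hcN, hcW, hγ⟩ := hg.chain (fun x y =>
    Multiplicative.toAdd (χ (g₀ x y)) = nS S R (ι x) (ι y) • d + w y - w x ∧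
      Multiplicative.toAdd (l (g₀ x y)) = nS S R (ι x) (ι y) + s y - s x) h1 γ
  have key : ∀ j, j ≤ N → Multiplicative.toAdd (χ (chP g₀ c j)) =
      Multiplicative.toAdd (l (chP g₀ c j)) • d + (w (c j) - w (c 0)) -
        (s (c j) - s (c 0)) • d := by
    intro j
    induction j with
    | zero =>
      intro _
      have h1 : chP g₀ c 0 = 1 := rfl
      rw [h1, map_one χ, map_one l, toAdd_one, toAdd_one, sub_self, sub_self, zero_smul]
      abel
    | succ j ih =>
      intro hj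
      have h1 := ih (by omega)
      obtain ⟨h2, h3⟩ := hcW j (by omega)
      have h4 : chP g₀ c (j + 1) = chP g₀ c j * g₀ (c j) (c (j + 1)) := rfl
      rw [h4, map_mul χ, map_mul l, toAdd_mul, toAdd_mul, h1, h2, h3]
      simp only [add_smul, sub_smul]
      abel
  have h2 := key N le_rfl
  rw [← hγ, hcN, hc0, sub_self, sub_self, zero_smul] at h2
  rw [h2]
  abel

private theorem az_onto (h : Geo3 K S R g u k α β) {X G : Type} [TopologicalSpace X] [Group G]
    {ι : X → E3} {κ : E3 → X} (hC : CEmb K ι κ) {g₀ : X → X → G}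
    {l : G →* Multiplicative ℤ} {s : X → ℤ}
    (hl : ∀ x, ∀ᶠ t in 𝓝 (fun _ : Fin 2 => x), Multiplicative.toAdd (l (g₀ (t 0) (t 1))) =
      nS S R (ι (t 0)) (ι (t 1)) + s (t 1) - s (t 0)) :
    ∃ m : G, l m = Multiplicative.ofAdd 1 := by
  let L : Additive G →+ ℤ :=
    { toFun := fun y => Multiplicative.toAdd (l (Additive.toMul y))
      map_zero' := by simp
      map_add' := fun a b => by simp }
  obtain ⟨a, ha⟩ := Int.subgroup_cyclic L.range
  have hdiv : ∀ γ : G, a ∣ Multiplicative.toAdd (l γ) := by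
    intro γ
    have h1 : L (Additive.ofMul γ) ∈ L.range := ⟨_, rfl⟩
    rw [ha, AddSubgroup.mem_closure_singleton] at h1
    obtain ⟨z, hz⟩ := h1
    exact ⟨z, by rw [mul_comm, ← smul_eq_mul]; exact hz.symm⟩
  by_cases hu : a.natAbs = 1
  · have h1 : (1 : ℤ) ∈ L.range := by
      rw [ha, AddSubgroup.mem_closure_singleton]
      rcases Int.natAbs_eq_iff.1 hu with h2 | h2
      · exact ⟨1, by rw [h2]; norm_num⟩
      · exact ⟨-1, by rw [h2]; norm_num⟩
    obtain ⟨y, hy⟩ := h1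
    refine ⟨Additive.toMul y, ?_⟩
    apply Multiplicative.toAdd.injective
    exact hy
  · exfalso
    obtain ⟨p, hp, hpa⟩ := Int.exists_prime_and_dvd hu
    have hp0 : (p : ℚ) ≠ 0 := by
      exact_mod_cast hp.ne_zero
    set d : AddCircle (1 : ℚ) := ((1 / (p : ℚ) : ℚ) : AddCircle (1 : ℚ)) with hd
    have hpd : p • d = 0 := by
      rw [hd, ← AddCircle.coe_zsmul]
      rw [AddCircle.coe_eq_zero_iff]
      refine ⟨1, ?_⟩
      simp [hp0]
    have hd0 : d ≠ 0 := by
      rw [hd, Ne, AddCircle.coe_eq_zero_iff]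
      rintro ⟨z, hz⟩
      rw [zsmul_eq_mul, mul_one, eq_div_iff hp0] at hz
      have h2 : z * p = 1 := by exact_mod_cast hz
      exact hp.not_isUnit (IsUnit.of_mul_eq_one z (by rw [mul_comm]; exact h2))
    apply hd0
    apply ab_inj h
    refine ⟨fun t => -(s (κ (t 0)) • d), LZ.empty _, ?_⟩
    intro x hx
    filter_upwards [az_ev' hC hx (hl (κ x)), ev_all_coord (n := 2) (geo_evnotK h hx)] with t ht hK
    show nS S R (t 0) (t 1) • d - dd one (fun t : Fin 1 → E3 => -(s (κ (t 0)) • d)) t = 0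
    rw [az_dd0]
    have h1 : Multiplicative.toAdd (l (g₀ (κ (t 0)) (κ (t 1)))) =
      nS S R (ι (κ (t 0))) (ι (κ (t 1))) + s (κ (t 1)) - s (κ (t 0)) := ht
    rw [hC.ik _ (hK 0), hC.ik _ (hK 1)] at h1
    obtain ⟨z, hz⟩ := hpa.trans (hdiv (g₀ (κ (t 0)) (κ (t 1))))
    have h2 : Multiplicative.toAdd (l (g₀ (κ (t 0)) (κ (t 1)))) • d = 0 := by
      rw [hz, mul_comm, mul_smul, hpd, smul_zero]
    rw [h1, sub_smul, add_smul] at h2
    rw [← h2]
    abel

theorem ab_z (h : Geo3 K S R g u k α β) {X G : Type} [TopologicalSpace X] [Group G]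
    {ι : X → E3} {κ : E3 → X} (hC : CEmb K ι κ) {x₀ : X} {g₀ : X → X → G} (hg : PCo x₀ g₀) :
    ∃ (g' : X → X → G) (l : G →* Multiplicative ℤ) (m : G),
      NCo x₀ (fun x y => nS S R (ι x) (ι y)) g' l m := by
  have hn : IsAd univ (fun x y => nS S R (ι x) (ι y)) := by
    intro x _
    exact az_ev hC x (P := fun t : Fin 3 → E3 => nS S R (t 0) (t 1) + nS S R (t 1) (t 2) =
      nS S R (t 0) (t 2)) (ns_ad h (ι x) (hC.iK x))
  obtain ⟨l, s, hl⟩ := hg.lift _ hn
  obtain ⟨m, hm⟩ := az_onto h hC hl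
  refine ⟨fun x y => m ^ (s x - s x₀) * g₀ x y * m ^ (-(s y - s x₀)), l, m, ?_⟩
  refine ⟨le_antisymm ?_ (Abelianization.commutator_subset_ker l), hm, ?_, ?_, ?_⟩
  · intro γ hγ
    rw [← Abelianization.ker_of, MonoidHom.mem_ker]
    by_contra hne
    have h1 : (Additive.ofMul (Abelianization.of γ) : Additive (Abelianization G)) ≠ 0 := by
      intro h2
      exact hne (Additive.ofMul.injective h2)
    obtain ⟨c, hc⟩ := CharacterModule.exists_character_apply_ne_zero_of_ne_zero h1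
    let χ : G →* Multiplicative (AddCircle (1 : ℚ)) :=
      { toFun := fun γ => Multiplicative.ofAdd (c (Additive.ofMul (Abelianization.of γ)))
        map_one' := by
          rw [map_one, ofMul_one, map_zero, ofAdd_zero]
        map_mul' := fun a b => by
          rw [map_mul, ofMul_mul, map_add, ofAdd_add] }
    obtain ⟨d, hd⟩ := az_char h hC hg hl χ
    have h2 := hd γ
    have h3 : l γ = 1 := hγ
    rw [h3, toAdd_one, zero_smul] at h2
    exact hc h2
  · intro x hx
    filter_upwards [hg.coc x hx] with t ht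
    rw [← ht]
    have h1 : m ^ (-(s (t 1) - s x₀)) * m ^ (s (t 1) - s x₀) = 1 := by
      rw [← zpow_add, neg_add_cancel, zpow_zero]
    calc m ^ (s (t 0) - s x₀) * g₀ (t 0) (t 1) * m ^ (-(s (t 1) - s x₀)) *
        (m ^ (s (t 1) - s x₀) * g₀ (t 1) (t 2) * m ^ (-(s (t 2) - s x₀)))
        = m ^ (s (t 0) - s x₀) * g₀ (t 0) (t 1) * (m ^ (-(s (t 1) - s x₀)) *
          m ^ (s (t 1) - s x₀)) * g₀ (t 1) (t 2) * m ^ (-(s (t 2) - s x₀)) := by
          simp only [mul_assoc]
      _ = _ := by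
          rw [h1, mul_one]
          simp only [mul_assoc]
  · intro W hW γ
    obtain ⟨N, c, hc0, hcN, hcW, hγ⟩ := hg.chain W hW γ
    refine ⟨N, c, hc0, hcN, hcW, ?_⟩
    have key : ∀ j, chP (fun x y => m ^ (s x - s x₀) * g₀ x y * m ^ (-(s y - s x₀))) c j =
        m ^ (s (c 0) - s x₀) * chP g₀ c j * m ^ (-(s (c j) - s x₀)) := by
      intro j
      induction j with
      | zero =>
        show (1 : G) = m ^ (s (c 0) - s x₀) * 1 * m ^ (-(s (c 0) - s x₀))
        rw [mul_one, ← zpow_add, add_neg_cancel, zpow_zero]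
      | succ j ih =>
        show chP (fun x y => m ^ (s x - s x₀) * g₀ x y * m ^ (-(s y - s x₀))) c j *
          (m ^ (s (c j) - s x₀) * g₀ (c j) (c (j + 1)) * m ^ (-(s (c (j + 1)) - s x₀))) =
          m ^ (s (c 0) - s x₀) * (chP g₀ c j * g₀ (c j) (c (j + 1))) *
            m ^ (-(s (c (j + 1)) - s x₀))
        rw [ih]
        have h1 : m ^ (-(s (c j) - s x₀)) * m ^ (s (c j) - s x₀) = 1 := by
          rw [← zpow_add, neg_add_cancel, zpow_zero]
        calc _ = m ^ (s (c 0) - s x₀) * chP g₀ c j * (m ^ (-(s (c j) - s x₀)) *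
              m ^ (s (c j) - s x₀)) * g₀ (c j) (c (j + 1)) *
                m ^ (-(s (c (j + 1)) - s x₀)) := by
              simp only [mul_assoc]
          _ = _ := by
              rw [h1, mul_one]
              simp only [mul_assoc]
    rw [key N, hc0, hcN, sub_self, neg_zero, zpow_zero, one_mul, mul_one]
    exact hγ
  · intro x
    filter_upwards [hl x] with t ht
    show Multiplicative.toAdd (l (m ^ (s (t 0) - s x₀) * g₀ (t 0) (t 1) *
      m ^ (-(s (t 1) - s x₀)))) = nS S R (ι (t 0)) (ι (t 1))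
    rw [map_mul l, map_mul l, map_zpow l, map_zpow l, hm, toAdd_mul, toAdd_mul, ht]
    simp only [toAdd_zpow, toAdd_ofAdd, smul_eq_mul, mul_one]
    ring

end PoolFbd
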