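import Pool.Agent.Work.MP_fbd21a_gt.Glue
import Pool.Agent.Work.MP_fbd21a_gt.DdDd

/-! MODULE AcUnion. Mayer-Vietoris for acyclic sets. -/

open Topology Filter Set

namespace PoolFbd

private theorem dd_cst_zero {E A : Type*} [AddCommGroup A] (a : A) :
    dd one (cst E 0 a) = 0 := by
  funext t
  simp [dd, cst, one]

private theorem cst_eq {E A : Type*} [TopologicalSpace E] [AddCommGroup A] {x : E} {a b : A}
    {n : ℕ} {φ : Coch E A n} (h1 : ZeroAt (φ - cst E n a) x) (h2 : ZeroAt (φ - cst E n b) x) :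
    a = b := by
  have e1 : φ (fun _ => x) - a = 0 := h1.self_of_nhds
  have e2 : φ (fun _ => x) - b = 0 := h2.self_of_nhds
  rw [sub_eq_zero] at e1 e2
  rw [← e1, ← e2]

theorem Acyc.union {E : Type*} [PseudoMetricSpace E] {S T : Set E} (h : Sepd S T)
    (hS : Acyc S) (hT : Acyc T) (hST : Acyc (S ∩ T)) : Acyc (S ∪ T) := by
  refine ⟨hS.1.mono subset_union_left, fun A _ => ⟨fun φ hφ => ?_, fun n φ hφ => ?_⟩⟩
  · obtain ⟨a, ha⟩ := (hS.2 A).1 φ (hφ.mono subset_union_left)
    obtain ⟨b, hb⟩ := (hT.2 A).1 φ (hφ.mono subset_union_right)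
    obtain ⟨x, hx⟩ := hST.1
    have e : a = b := cst_eq (ha x hx.1) (hb x hx.2)
    subst e
    exact ⟨a, ha.union hb⟩
  · obtain ⟨ψ, -, hψ⟩ := (hS.2 A).2 n φ (hφ.mono subset_union_left)
    obtain ⟨ψ', -, hψ'⟩ := (hT.2 A).2 n φ (hφ.mono subset_union_right)
    have hdiff : LZ (S ∩ T) (dd one (ψ - ψ')) := by
      rw [dd_sub]
      have := (hψ'.mono (inter_subset_right (s := S) (t := T))).sub
        (hψ.mono (inter_subset_left (s := S) (t := T)))
      have e : φ - dd one ψ' - (φ - dd one ψ) = dd one ψ - dd one ψ' := by abel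
      rwa [e] at this
    -- after modification the primitives agree on the intersection
    obtain ⟨ρ, h1, h2⟩ : ∃ ρ : Coch E A n, LZ S (dd one ρ) ∧ LZ (S ∩ T) (ψ - ρ - ψ') := by
      cases n with
      | zero =>
        obtain ⟨a, ha⟩ := (hST.2 A).1 _ hdiff
        refine ⟨cst E 0 a, by rw [dd_cst_zero]; exact LZ.zero S, ?_⟩
        have e : ψ - ψ' - cst E 0 a = ψ - cst E 0 a - ψ' := by abel
        rwa [e] at ha
      | succ m =>
        obtain ⟨χ, -, hχ⟩ := (hST.2 A).2 m _ hdiff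
        refine ⟨dd one χ, LZ_dd_dd (IsTw.one S) χ, ?_⟩
        have e : ψ - ψ' - dd one χ = ψ - dd one χ - ψ' := by abel
        rwa [e] at hχ
    obtain ⟨c, hc1, hc2⟩ := glue h (ψ - ρ) ψ' h2
    refine ⟨c, LZ.empty _, LZ.union ?_ ?_⟩
    · have h3 := (hψ.add h1).sub (hc1.dd one)
      rw [dd_sub, dd_sub] at h3
      have e : φ - dd one ψ + dd one ρ - (dd one c - (dd one ψ - dd one ρ)) =
        φ - dd one c := by abel
      rwa [e] at h3
    · have h3 := hψ'.sub (hc2.dd one)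
      rw [dd_sub] at h3
      have e : φ - dd one ψ' - (dd one c - dd one ψ') = φ - dd one c := by abel
      rwa [e] at h3

end PoolFbd
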