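import Pool.Agent.Work.MP_fbd21a_gt.Basic

/-! MODULE Acom. Anticommutativity of the cup product of two relative integral 1-cocycles.
PROOF. ψ(x,y) = u(x,y) v(x,y), a 1-cochain vanishing near Z. Near S, u(x,z) = u(x,y) + u(y,z) and the
same for v, so (dd one ψ)(x,y,z) = u(y,z)v(y,z) - u(x,z)v(x,z) + u(x,y)v(x,y)
= - u(x,y)v(y,z) - u(y,z)v(x,y) = -(u ∪ v)(x,y,z) - (v ∪ u)(x,y,z). -/

open Topology Filter Set

namespace PoolFbd

/-- Untwisted cup product of two integral 1-cochains. -/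
def cup11 {E : Type*} (u v : Coch E ℤ 1) : Coch E ℤ 2 := fun t => u ![t 0, t 1] * v ![t 1, t 2]

private theorem dd_one1 {E A : Type*} [AddCommGroup A] (u : Coch E A 1) (t : Fin 3 → E) :
    dd one u t = u ![t 1, t 2] - u ![t 0, t 2] + u ![t 0, t 1] := by
  have a0 : (fun j : Fin (1 + 1) => t j.succ) = ![t 1, t 2] := by
    funext j; fin_cases j <;> rfl
  have a1 : (fun j : Fin (1 + 1) => t ((Fin.succ 0 : Fin (1 + 1 + 1)).succAbove j)) =
      ![t 0, t 2] := by
    funext j; fin_cases j <;> rfl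
  have a2 : (fun j : Fin (1 + 1) => t ((Fin.succ (Fin.succ 0) : Fin (1 + 1 + 1)).succAbove j)) =
      ![t 0, t 1] := by
    funext j; fin_cases j <;> rfl
  have h : dd one u t = u (fun j : Fin (1 + 1) => t j.succ) +
      ∑ i : Fin (1 + 1), (-1 : ℤ) ^ ((i : ℕ) + 1) • u (fun j => t (i.succ.succAbove j)) := by
    simp only [dd, one, one_smul]
  rw [h]
  simp only [Fin.sum_univ_succ, Finset.univ_eq_empty, Finset.sum_empty, add_zero]
  rw [a0, a1, a2]
  simp
  abel

private theorem dd_one2 {E A : Type*} [AddCommGroup A] (u : Coch E A 2) (t : Fin 4 → E) :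
    dd one u t = u ![t 1, t 2, t 3] - u ![t 0, t 2, t 3] + u ![t 0, t 1, t 3] -
      u ![t 0, t 1, t 2] := by
  have a0 : (fun j : Fin (2 + 1) => t j.succ) = ![t 1, t 2, t 3] := by
    funext j; fin_cases j <;> rfl
  have a1 : (fun j : Fin (2 + 1) => t ((Fin.succ 0 : Fin (2 + 1 + 1)).succAbove j)) =
      ![t 0, t 2, t 3] := by
    funext j; fin_cases j <;> rfl
  have a2 : (fun j : Fin (2 + 1) => t ((Fin.succ (Fin.succ 0) : Fin (2 + 1 + 1)).succAbove j)) =
      ![t 0, t 1, t 3] := by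
    funext j; fin_cases j <;> rfl
  have a3 : (fun j : Fin (2 + 1) =>
      t ((Fin.succ (Fin.succ (Fin.succ 0)) : Fin (2 + 1 + 1)).succAbove j)) =
      ![t 0, t 1, t 2] := by
    funext j; fin_cases j <;> rfl
  have h : dd one u t = u (fun j : Fin (2 + 1) => t j.succ) +
      ∑ i : Fin (2 + 1), (-1 : ℤ) ^ ((i : ℕ) + 1) • u (fun j => t (i.succ.succAbove j)) := by
    simp only [dd, one, one_smul]
  rw [h]
  simp only [Fin.sum_univ_succ, Finset.univ_eq_empty, Finset.sum_empty, add_zero]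
  rw [a0, a1, a2, a3]
  simp [pow_succ]
  abel

private theorem pair_eq {E : Type*} (s : Fin (1 + 1) → E) : ![s 0, s 1] = s := by
  funext j; fin_cases j <;> rfl

theorem acom {E : Type*} [TopologicalSpace E] {S Z : Set E} {u v : Coch E ℤ 1}
    (hu : Coc one S Z u) (hv : Coc one S Z v) : Cob one S Z (cup11 u v + cup11 v u) := by
  refine ⟨fun t => - (u t * v t), fun x hx => ?_, fun x hx => ?_⟩
  · filter_upwards [hu.1 x hx] with t ht
    simp [ht]
  · filter_upwards [hu.2 x hx, hv.2 x hx] with t h1 h2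
    rw [dd_one1] at h1 h2
    simp only [Pi.sub_apply, Pi.add_apply, cup11]
    rw [dd_one1]
    have e1 : u ![t 0, t 2] = u ![t 0, t 1] + u ![t 1, t 2] := by linarith
    have e2 : v ![t 0, t 2] = v ![t 0, t 1] + v ![t 1, t 2] := by linarith
    rw [e1, e2]
    ring

theorem cup11_coc {E : Type*} [TopologicalSpace E] {S Z : Set E} {u v : Coch E ℤ 1}
    (hu : Coc one S Z u) (hv : Coc one S Z v) : Coc one S Z (cup11 u v) := by
  refine ⟨fun x hx => ?_, fun x hx => ?_⟩
  · have h1 := (tendsto_face (fun j : Fin 2 => (⟨j.1, by omega⟩ : Fin (2 + 1))) x).eventually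
      (hu.1 x hx)
    filter_upwards [h1] with t ht
    have e : (fun j : Fin 2 => t (⟨j.1, by omega⟩ : Fin (2 + 1))) = ![t 0, t 1] := by
      funext j; fin_cases j <;> rfl
    rw [e] at ht
    simp [cup11, ht]
  · have h1 := (tendsto_face (fun j : Fin 3 => (⟨j.1, by omega⟩ : Fin (2 + 1 + 1))) x).eventually
      (hu.2 x hx)
    have h2 := (tendsto_face (fun j : Fin 3 => (⟨j.1 + 1, by omega⟩ : Fin (2 + 1 + 1)))
      x).eventually (hv.2 x hx)
    filter_upwards [h1, h2] with t k1 k2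
    rw [dd_one1] at k1 k2
    have e1 : u ![t 1, t 2] - u ![t 0, t 2] + u ![t 0, t 1] = 0 := k1
    have e2 : v ![t 2, t 3] - v ![t 1, t 3] + v ![t 1, t 2] = 0 := k2
    rw [dd_one2]
    have f : cup11 u v ![t 1, t 2, t 3] - cup11 u v ![t 0, t 2, t 3] +
        cup11 u v ![t 0, t 1, t 3] - cup11 u v ![t 0, t 1, t 2] =
        u ![t 1, t 2] * v ![t 2, t 3] - u ![t 0, t 2] * v ![t 2, t 3] +
        u ![t 0, t 1] * v ![t 1, t 3] - u ![t 0, t 1] * v ![t 1, t 2] := rfl
    rw [f]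
    have g1 : u ![t 0, t 2] = u ![t 0, t 1] + u ![t 1, t 2] := by linarith
    have g2 : v ![t 1, t 3] = v ![t 1, t 2] + v ![t 2, t 3] := by linarith
    rw [g1, g2]
    ring

end PoolFbd
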