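import Mathlib

/-! MODULE AlgRk (MATHLIB ONLY). The rank bound, pure algebra.
V, W rational vector spaces, B : abelian group (integral classes), i : B → V, j : B → W additive with every
v ∈ V of the form N • v ∈ range i for some N ≥ 1 (same for W, j), q : V → W → ℚ bilinear, integral on
B × B, with no nonzero y ∈ W orthogonal to all of V; and among any 5 elements of B two are congruent
modulo 2B + ker-ish: differ by 2 y + z with q(i _, j z) = 0... Precisely h5: for x : Fin 5 → B there are
i ≠ j and y, z : B with x i - x j = 2 • y + z and q (v) (jj z) = 0 for all v.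
CLAIM: dim W ≤ 2. -/

namespace PoolFbd

private theorem alg_rk_bits : ∀ i j : Fin 5, i ≠ j →
    ∃ k : Fin 3, (i.val / 2 ^ k.val) % 2 ≠ (j.val / 2 ^ k.val) % 2 := by decide

theorem alg_rk {V W B : Type*} [AddCommGroup V] [Module ℚ V] [AddCommGroup W] [Module ℚ W]
    [AddCommGroup B] (q : V →ₗ[ℚ] W →ₗ[ℚ] ℚ) (ii : B →+ V) (jj : B →+ W)
    (hV : ∀ v : V, ∃ N : ℕ, 0 < N ∧ ∃ b : B, (N : ℚ) • v = ii b)
    (hW : ∀ w : W, ∃ N : ℕ, 0 < N ∧ ∃ b : B, (N : ℚ) • w = jj b)
    (hint : ∀ a b : B, ∃ m : ℤ, q (ii a) (jj b) = m)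
    (hnd : ∀ w : W, (∀ v : V, q v w = 0) → w = 0)
    (h5 : ∀ x : Fin 5 → B, ∃ i j, i ≠ j ∧ ∃ y z : B, x i - x j = 2 • y + z ∧
      ∀ v : V, q v (jj z) = 0) :
    Module.rank ℚ W ≤ 2 := by
  classical
  by_contra hcon
  have h3 : ((3 : ℕ) : Cardinal) ≤ Module.rank ℚ W := by
    have h2 : ((2 : ℕ) : Cardinal) < Module.rank ℚ W := by
      push_cast
      exact not_le.mp hcon
    have := Order.succ_le_of_lt h2
    rw [← Cardinal.nat_succ] at this
    exact this
  obtain ⟨s, hs, hli⟩ := exists_finset_linearIndependent_of_le_rank h3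
  -- an indexed version
  let e : Fin 3 ≃ s := (Finset.equivFinOfCardEq hs).symm
  let w : Fin 3 → W := fun k => (e k : W)
  have hw : LinearIndependent ℚ w := hli.comp e e.injective
  -- the evaluation map is surjective
  let f : V →ₗ[ℚ] (Fin 3 → ℚ) := LinearMap.pi fun k => (q.flip (w k))
  have hf : ∀ v k, f v k = q v (w k) := fun v k => rfl
  have hsurj : LinearMap.range f = ⊤ := by
    by_contra hne
    obtain ⟨g, hg0, hg⟩ := Submodule.exists_le_ker_of_lt_top _ (lt_top_iff_ne_top.mpr hne)
    apply hg0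
    have hzero : ∑ k, g (Pi.single k 1) • w k = 0 := by
      apply hnd
      intro v
      have h1 : g (f v) = 0 := hg (LinearMap.mem_range_self f v)
      have h2 : f v = ∑ k, (q v (w k)) • (Pi.single k (1 : ℚ) : Fin 3 → ℚ) := by
        ext l
        rw [Finset.sum_apply]
        simp only [Pi.smul_apply, Pi.single_apply, smul_eq_mul, mul_ite, mul_one, mul_zero]
        rw [Finset.sum_ite_eq]
        simp [hf]
      rw [h2, map_sum] at h1
      rw [map_sum]
      rw [← h1]
      refine Finset.sum_congr rfl fun k _ => ?_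
      rw [map_smul, map_smul, smul_eq_mul, smul_eq_mul, mul_comm]
    have hc := (Fintype.linearIndependent_iff.mp hw) _ hzero
    refine LinearMap.pi_ext' fun k => ?_
    ext
    simpa using hc k
  have hex : ∀ l : Fin 3, ∃ v : V, f v = Pi.single l 1 := fun l => by
    have : (Pi.single l 1 : Fin 3 → ℚ) ∈ LinearMap.range f := by rw [hsurj]; trivial
    exact this
  choose v hv using hex
  choose N hN a ha using fun l => hV (v l)
  choose N' hN' b hb using fun k => hW (w k)
  -- the integral map
  choose Φ hΦ using fun x l => hint (a l) x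
  let P : B →+ (Fin 3 → ℤ) :=
    { toFun := Φ
      map_zero' := by
        funext l
        have := hΦ 0 l
        rw [map_zero, map_zero] at this
        exact_mod_cast this.symm
      map_add' := by
        intro x y
        funext l
        have h1 := hΦ (x + y) l
        rw [map_add, map_add, hΦ x l, hΦ y l] at h1
        rw [Pi.add_apply]
        exact_mod_cast h1.symm }
  have hP : ∀ x l, ((P x l : ℤ) : ℚ) = q (ii (a l)) (jj x) := fun x l => (hΦ x l).symm
  let L : B →ₗ[ℤ] (Fin 3 → ℤ) := P.toIntLinearMap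
  have hL : ∀ x l, ((L x l : ℤ) : ℚ) = q (ii (a l)) (jj x) := fun x l => hP x l
  have hLb : ∀ k l, L (b k) l = if l = k then (N l * N' k : ℤ) else 0 := by
    intro k l
    have h1 := hL (b k) l
    rw [← ha l, ← hb k, map_smul, map_smul, LinearMap.smul_apply] at h1
    have h2 : q (v l) (w k) = (Pi.single l 1 : Fin 3 → ℚ) k := by rw [← hf, hv]
    rw [h2, Pi.single_apply] at h1
    by_cases hkl : l = k
    · subst hkl
      rw [if_pos rfl] at h1 ⊢
      simp only [smul_eq_mul, mul_one] at h1
      have h3 : ((L (b l) l : ℤ) : ℚ) = ((N l * N' l : ℤ) : ℚ) := by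
        rw [h1]; push_cast; ring
      exact_mod_cast h3
    · rw [if_neg (fun h => hkl h.symm)] at h1
      rw [if_neg hkl]
      simp only [smul_zero] at h1
      exact_mod_cast h1
  -- the image lattice
  let M : Submodule ℤ (Fin 3 → ℤ) := LinearMap.range L
  obtain ⟨n, β⟩ := Submodule.basisOfPid (Pi.basisFun ℤ (Fin 3)) M
  have hn : 3 ≤ n := by
    let m : Fin 3 → M := fun k => ⟨L (b k), LinearMap.mem_range_self L (b k)⟩
    have hm : LinearIndependent ℤ m := by
      rw [Fintype.linearIndependent_iff]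
      intro g hg k
      have h1 := congrArg (fun t : M => (t : Fin 3 → ℤ) k) hg
      simp only [AddSubmonoidClass.coe_finset_sum, Submodule.coe_smul, Finset.sum_apply,
        Pi.smul_apply, smul_eq_mul, ZeroMemClass.coe_zero, Pi.zero_apply, m, hLb, mul_ite,
        mul_zero, Finset.sum_ite_eq, Finset.mem_univ, if_true] at h1
      have h2 : (N k * N' k : ℤ) ≠ 0 := by
        have := hN k
        have := hN' k
        positivity
      exact (mul_eq_zero.mp h1).resolve_right h2
    haveI : Module.Finite ℤ M := Module.Finite.of_basis β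
    have h1 := hm.fintype_card_le_finrank
    rw [Module.finrank_eq_card_basis β] at h1
    simpa using h1
  -- five elements
  have hxs : ∀ i : Fin 5, ∃ x : B, L x =
      ((β.equivFun.symm fun k => (((i.val / 2 ^ k.val) % 2 : ℕ) : ℤ) : M) : Fin 3 → ℤ) := by
    intro i
    exact (β.equivFun.symm fun k => (((i.val / 2 ^ k.val) % 2 : ℕ) : ℤ) : M).2
  choose x hx using hxs
  obtain ⟨i, j, hij, y, z, hxy, hz⟩ := h5 x
  obtain ⟨k, hk⟩ := alg_rk_bits i j hij
  have hLz : L z = 0 := by
    funext l
    have h1 := hL z l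
    rw [hz] at h1
    rw [Pi.zero_apply]
    exact_mod_cast h1
  have h1 : L (x i) - L (x j) = 2 • L y := by
    rw [← map_sub, hxy, map_add, hLz, add_zero, map_nsmul]
  let my : M := ⟨L y, LinearMap.mem_range_self L y⟩
  have h2 : (β.equivFun.symm fun k => (((i.val / 2 ^ k.val) % 2 : ℕ) : ℤ) : M) -
      (β.equivFun.symm fun k => (((j.val / 2 ^ k.val) % 2 : ℕ) : ℤ) : M) = 2 • my := by
    apply Subtype.ext
    rw [Submodule.coe_sub, ← hx i, ← hx j, h1]
    simp [my]
  have h3 := congrArg (fun t : M => β.equivFun t ⟨k.val, lt_of_lt_of_le k.isLt hn⟩) h2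
  simp only [map_sub, LinearEquiv.apply_symm_apply, map_nsmul, Pi.sub_apply, Pi.smul_apply] at h3
  rw [nsmul_eq_mul] at h3
  have hu : (i.val / 2 ^ k.val) % 2 < 2 := Nat.mod_lt _ (by norm_num)
  have hv' : (j.val / 2 ^ k.val) % 2 < 2 := Nat.mod_lt _ (by norm_num)
  revert h3 hk hu hv'
  generalize (i.val / 2 ^ k.val) % 2 = u'
  generalize (j.val / 2 ^ k.val) % 2 = v'
  generalize β.equivFun my ⟨k.val, lt_of_lt_of_le k.isLt hn⟩ = t'
  intro hk h3 hu hv'
  have h4 : (u' : ℤ) - (v' : ℤ) = 2 * t' := by simpa using h3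
  clear h3
  omega

/-- A rational vector space of dimension at most two with a complex structure is generated over
`ℚ[J]` by one vector. -/
theorem alg_J {W : Type*} [AddCommGroup W] [Module ℚ W] (h : Module.rank ℚ W ≤ 2)
    (J : W →ₗ[ℚ] W) (hJ : ∀ w, J (J w) = - w) :
    ∃ w₀ : W, ∀ w : W, ∃ a b : ℚ, w = a • w₀ + b • J w₀ := by
  classical
  by_cases h0 : ∀ w : W, w = 0
  · exact ⟨0, fun w => ⟨0, 0, by rw [h0 w]; simp⟩⟩
  push Not at h0
  obtain ⟨w₀, hw₀⟩ := h0
  refine ⟨w₀, ?_⟩
  have hli : LinearIndependent ℚ ![w₀, J w₀] := by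
    rw [LinearIndependent.pair_iff]
    intro s t hst
    have h1 : t = 0 := by
      by_contra ht
      -- J w₀ = c w₀
      have h2 : J w₀ = (-s / t) • w₀ := by
        have h3 : t • J w₀ = (-s) • w₀ := by
          rw [neg_smul]
          exact eq_neg_of_add_eq_zero_right hst
        rw [div_eq_inv_mul, mul_smul, ← h3, smul_smul, inv_mul_cancel₀ ht, one_smul]
      have h4 : J (J w₀) = ((-s / t) * (-s / t)) • w₀ := by
        rw [h2, map_smul, h2, smul_smul]
      rw [hJ] at h4
      have h5 : ((-s / t) * (-s / t) + 1) • w₀ = 0 := by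
        rw [add_smul, one_smul, ← h4]
        simp
      rcases smul_eq_zero.mp h5 with h6 | h6
      · nlinarith [mul_self_nonneg (-s / t)]
      · exact hw₀ h6
    subst h1
    rw [zero_smul, add_zero] at hst
    exact ⟨(smul_eq_zero.mp hst).resolve_right hw₀, rfl⟩
  have hfin : Module.Finite ℚ W := by
    rw [← Module.rank_lt_aleph0_iff]
    exact lt_of_le_of_lt h (by exact_mod_cast Cardinal.nat_lt_aleph0 2)
  have hle : Module.finrank ℚ W ≤ 2 := Module.finrank_le_of_rank_le (by exact_mod_cast h)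
  have hge : 2 ≤ Module.finrank ℚ W := by
    have := hli.fintype_card_le_finrank
    simpa using this
  have hspan := hli.span_eq_top_of_card_eq_finrank' (by simp; omega)
  intro w
  have hwm : w ∈ Submodule.span ℚ (Set.range ![w₀, J w₀]) := by rw [hspan]; trivial
  rw [Matrix.range_cons, Matrix.range_cons, Matrix.range_empty, Set.union_empty,
    Set.singleton_union, Submodule.mem_span_pair] at hwm
  obtain ⟨a, b, hab⟩ := hwm
  exact ⟨a, b, hab.symm⟩

end PoolFbd
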