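import Pool.Agent.Work.MP_fbd21a_gt.Basic

/-! Scalars and coefficient maps on relative cocycles and coboundaries (sign twists). -/

open Topology Filter Set

namespace PoolFbd

variable {E : Type*} {A B R : Type*} [AddCommGroup A] [AddCommGroup B] [CommRing R]
  [Module R A]

theorem cl_unit_smul (u : ℤˣ) (r : R) (a : A) : u • (r • a) = r • (u • a) := by
  rcases Int.units_eq_one_or u with h | h
  · rw [h, one_smul, one_smul]
  · rw [h, Units.smul_def, Units.smul_def]
    simp

theorem cl_unit_map (F : A →+ B) (u : ℤˣ) (a : A) : F (u • a) = u • F a := by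
  rcases Int.units_eq_one_or u with h | h
  · rw [h, one_smul, one_smul]
  · rw [h, Units.smul_def, Units.smul_def]
    simp

theorem cl_dd_smul (τ : E → E → ℤˣ) {n : ℕ} (r : R) (φ : Coch E A n) :
    dd τ (r • φ) = r • dd τ φ := by
  funext t
  simp only [dd, Pi.smul_apply, smul_add, Finset.smul_sum, cl_unit_smul]
  congr 1
  refine Finset.sum_congr rfl fun i _ => ?_
  exact smul_comm _ _ _

theorem cl_dd_map (τ : E → E → ℤˣ) {n : ℕ} (F : A →+ B) (φ : Coch E A n) :
    dd τ (cmap F φ) = cmap F (dd τ φ) := dd_cmap τ φ F (cl_unit_map F)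

variable [TopologicalSpace E] {τ : E → E → ℤˣ} {S Z : Set E} {n : ℕ}

theorem cl_lz_smul (r : R) {φ : Coch E A n} (h : LZ S φ) : LZ S (r • φ) := fun x hx => by
  filter_upwards [h x hx] with t ht
  rw [Pi.smul_apply, ht, smul_zero]

theorem cl_coc_smul (r : R) {φ : Coch E A n} (h : Coc τ S Z φ) : Coc τ S Z (r • φ) :=
  ⟨cl_lz_smul r h.1, by rw [cl_dd_smul]; exact cl_lz_smul r h.2⟩

theorem cl_cob_smul (r : R) {φ : Coch E A n} (h : Cob τ S Z φ) : Cob τ S Z (r • φ) := by
  cases n with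
  | zero => exact cl_lz_smul r h
  | succ n =>
    obtain ⟨ψ, a, b⟩ := h
    refine ⟨r • ψ, cl_lz_smul r a, ?_⟩
    rw [cl_dd_smul, ← smul_sub]
    exact cl_lz_smul r b

theorem cl_coc_map (F : A →+ B) {φ : Coch E A n} (h : Coc τ S Z φ) : Coc τ S Z (cmap F φ) :=
  ⟨h.1.cmap F (map_zero F), by rw [cl_dd_map]; exact h.2.cmap F (map_zero F)⟩

omit [TopologicalSpace E] in
theorem cl_map_sub (F : A →+ B) (φ ψ : Coch E A n) : cmap F (φ - ψ) = cmap F φ - cmap F ψ := by
  funext t
  simp [cmap]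

omit [TopologicalSpace E] in
theorem cl_map_add (F : A →+ B) (φ ψ : Coch E A n) : cmap F (φ + ψ) = cmap F φ + cmap F ψ := by
  funext t
  simp [cmap]

theorem cl_cob_map (F : A →+ B) {φ : Coch E A n} (h : Cob τ S Z φ) : Cob τ S Z (cmap F φ) := by
  cases n with
  | zero => exact LZ.cmap h F (map_zero F)
  | succ n =>
    obtain ⟨ψ, a, b⟩ := h
    refine ⟨cmap F ψ, a.cmap F (map_zero F), ?_⟩
    rw [cl_dd_map, ← cl_map_sub]
    exact b.cmap F (map_zero F)

theorem cl_lz_inj (F : A →+ B) (hF : Function.Injective F) {φ : Coch E A n}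
    (h : LZ S (cmap F φ)) : LZ S φ := fun x hx => by
  filter_upwards [h x hx] with t ht
  have h1 : F (φ t) = 0 := ht
  exact hF (by rw [h1, map_zero])

theorem cl_coc_inj (F : A →+ B) (hF : Function.Injective F) {φ : Coch E A n}
    (h : Coc τ S Z (cmap F φ)) : Coc τ S Z φ := by
  refine ⟨cl_lz_inj F hF h.1, cl_lz_inj F hF ?_⟩
  rw [← cl_dd_map]
  exact h.2

theorem cl_cob_sum {ι : Type*} (s : Finset ι) (f : ι → Coch E A n)
    (h : ∀ i ∈ s, Cob τ S Z (f i)) : Cob τ S Z (∑ i ∈ s, f i) := by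
  classical
  induction s using Finset.induction_on with
  | empty => rw [Finset.sum_empty]; exact Cob.zero τ S Z
  | insert a s ha ih =>
    rw [Finset.sum_insert ha]
    exact (h a (Finset.mem_insert_self _ _)).add
      (ih fun i hi => h i (Finset.mem_insert_of_mem hi))

end PoolFbd
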