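import Pool.Agent.Work.MP_fbd21a_gt.CDefs

/-! MODULE Coef5. Facts on the coefficients R5 = Z_5, K5 = Q_5, D5 = Q_5/Z_5.
baer5: D5 is divisible over the principal ideal domain R5, so it satisfies Baer's criterion: an ideal is
(a), a map g : (a) → D5 is x a ↦ x • g(a); choose d with a • d = g(a) (a ≠ 0: divide a lift in K5 by a;
a = 0: d = 0) and extend by 1 ↦ d.
cogen5: m ≠ 0 in an R5-module M. The annihilator of m is a proper ideal, contained in (5); define on
R5 m the map x m ↦ x • (class of 1/5): well defined since x ∈ (5) kills the class of 1/5, nonzero at m;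
extend by baer5 (Module.Baer.extension_property).
dbl_*: doubling is bijective (2 is a unit in Z_5).
sq_neg_one: c with c² = -1 and c ≡ 2 mod 5, and then 18 + c = 25 * unit (Hensel at 57).
prim5: for s₁, s₂ in K5 there are u, v in R5 not both divisible by 5 with u s₁ + v s₂ = 0. -/

open Topology Filter Set

namespace PoolFbd

theorem al5_inj : Function.Injective al5 := by
  intro a b h
  have h1 : ((a : K5)) = b := h
  exact Subtype.coe_injective h1

theorem mk5_zero_iff (x : K5) : mk5 x = 0 ↔ ∃ r : R5, al5 r = x := by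
  unfold mk5
  rw [Submodule.mkQ_apply, Submodule.Quotient.mk_eq_zero, LinearMap.mem_range]
  rfl

theorem mk5_surj : Function.Surjective mk5 := Submodule.mkQ_surjective _

private theorem smul5 (a : R5) (y : K5) : a • y = (a : K5) * y := by
  rw [Algebra.smul_def, PadicInt.algebraMap_apply]

private theorem coe_five : (((5 : R5)) : K5) = (5 : K5) := PadicInt.coe_natCast 5

theorem baer5 : Module.Baer R5 D5 := by
  intro I g
  obtain ⟨a, rfl⟩ : ∃ a, I = Ideal.span {a} := (IsPrincipalIdealRing.principal I).principal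
  have ha : a ∈ Ideal.span {a} := Ideal.mem_span_singleton_self a
  obtain ⟨y, hy⟩ := mk5_surj (g ⟨a, ha⟩)
  by_cases h0 : a = 0
  · refine ⟨0, fun x hx => ?_⟩
    have hx0 : x = 0 := by subst h0; simpa using hx
    subst hx0
    have : (⟨0, hx⟩ : Ideal.span {a}) = 0 := rfl
    rw [this, map_zero, map_zero]
  · have hd : a • mk5 ((a : K5)⁻¹ * y) = g ⟨a, ha⟩ := by
      rw [← map_smul, ← hy, smul5, mul_inv_cancel_left₀]
      exact PadicInt.coe_ne_zero.mpr h0
    refine ⟨LinearMap.toSpanSingleton R5 D5 (mk5 ((a : K5)⁻¹ * y)), fun x hx => ?_⟩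
    obtain ⟨c, rfl⟩ := Ideal.mem_span_singleton'.mp hx
    rw [LinearMap.toSpanSingleton_apply, mul_smul, hd, ← map_smul]
    rfl

theorem baer_self (k : Type) [Field k] : Module.Baer k k := by
  intro I g
  by_cases h : (1 : k) ∈ I
  · refine ⟨LinearMap.toSpanSingleton k k (g ⟨1, h⟩), fun x hx => ?_⟩
    rw [LinearMap.toSpanSingleton_apply, ← map_smul]
    congr 1
    apply Subtype.ext
    change x • (1 : k) = x
    rw [smul_eq_mul, mul_one]
  · refine ⟨0, fun x hx => ?_⟩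
    have hx0 : x = 0 := by
      by_contra hne
      apply h
      have := I.mul_mem_left x⁻¹ hx
      rwa [inv_mul_cancel₀ hne] at this
    subst hx0
    have : (⟨0, hx⟩ : I) = 0 := rfl
    rw [this, map_zero, map_zero]

private theorem not_unit5 {x : R5} (h : ¬ IsUnit x) : (5 : R5) ∣ x := by
  have h1 := PadicInt.not_isUnit_iff.mp h
  have h2 := (PadicInt.norm_lt_one_iff_dvd x).mp h1
  exact_mod_cast h2

private theorem unit5_iff (x : R5) : IsUnit x ↔ ¬ (5 : R5) ∣ x := by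
  constructor
  · intro h h1
    have h2 : ((5 : ℕ) : R5) ∣ x := by exact_mod_cast h1
    have h3 := (PadicInt.norm_lt_one_iff_dvd x).mpr h2
    exact PadicInt.not_isUnit_iff.mpr h3 h
  · intro h
    by_contra hc
    exact h (not_unit5 hc)

private theorem nat_unit5 (n : ℕ) (hn : Nat.Coprime 5 n) : IsUnit (n : R5) :=
  PadicInt.isUnit_iff.mpr (PadicInt.norm_natCast_eq_one_iff.mpr hn)

private theorem add_unit5 (n : ℕ) (hn : Nat.Coprime 5 n) (e : R5) : IsUnit ((n : R5) + 5 * e) := by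
  rw [unit5_iff]
  intro h
  have h1 := (unit5_iff _).mp (nat_unit5 n hn)
  exact h1 ((dvd_add_left (dvd_mul_right 5 e)).mp h)

theorem cogen5 {M : Type} [AddCommGroup M] [Module R5 M] {m : M} (hm : m ≠ 0) :
    ∃ l : M →ₗ[R5] D5, l m ≠ 0 := by
  -- the class of 1/5
  have h5 : (5 : K5) ≠ 0 := by norm_num
  have he0 : mk5 ((5 : K5)⁻¹) ≠ 0 := by
    intro h
    obtain ⟨r, hr⟩ := (mk5_zero_iff _).mp h
    have h1 : (r : K5) = (5 : K5)⁻¹ := hr
    have h2 : (((5 * r : R5)) : K5) = ((1 : R5) : K5) := by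
      rw [PadicInt.coe_mul, coe_five, h1, mul_inv_cancel₀ h5, PadicInt.coe_one]
    have h3 : (5 : R5) * r = 1 := Subtype.coe_injective h2
    have h4 : IsUnit (5 : R5) := IsUnit.of_mul_eq_one _ h3
    exact (unit5_iff _).mp h4 dvd_rfl
  have he5 : ∀ x : R5, (5 : R5) ∣ x → x • mk5 ((5 : K5)⁻¹) = 0 := by
    rintro x ⟨t, rfl⟩
    rw [← map_smul, mk5_zero_iff]
    refine ⟨t, ?_⟩
    rw [smul5, PadicInt.coe_mul, coe_five]
    change (t : K5) = _
    field_simp
  let f : R5 →ₗ[R5] M := LinearMap.toSpanSingleton R5 M m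
  let e : R5 →ₗ[R5] D5 := LinearMap.toSpanSingleton R5 D5 (mk5 ((5 : K5)⁻¹))
  have hker : LinearMap.ker f ≤ LinearMap.ker e := by
    intro x hx
    rw [LinearMap.mem_ker] at hx ⊢
    change x • m = 0 at hx
    change x • mk5 ((5 : K5)⁻¹) = 0
    apply he5
    apply not_unit5
    rintro ⟨u, rfl⟩
    apply hm
    have h1 : ((u⁻¹ : R5ˣ) : R5) • ((u : R5) • m) = 0 := by rw [hx, smul_zero]
    rwa [smul_smul, Units.inv_mul, one_smul] at h1
  have hinj : Function.Injective ((LinearMap.ker f).liftQ f le_rfl) := by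
    rw [← LinearMap.ker_eq_bot]
    exact Submodule.ker_liftQ_eq_bot _ _ _ le_rfl
  obtain ⟨h, hh⟩ := baer5.extension_property ((LinearMap.ker f).liftQ f le_rfl) hinj
    ((LinearMap.ker f).liftQ e hker)
  refine ⟨h, ?_⟩
  have h1 := LinearMap.congr_fun hh (Submodule.Quotient.mk (1 : R5))
  rw [LinearMap.comp_apply, Submodule.liftQ_apply, Submodule.liftQ_apply] at h1
  have h2 : f 1 = m := by
    change (1 : R5) • m = m
    rw [one_smul]
  have h3 : e 1 = mk5 ((5 : K5)⁻¹) := one_smul R5 (mk5 ((5 : K5)⁻¹))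
  rw [h2, h3] at h1
  rw [h1]
  exact he0

theorem half5 : ∃ h : R5, h + h = 1 := by
  obtain ⟨u, hu⟩ := nat_unit5 2 (by norm_num)
  refine ⟨((u⁻¹ : R5ˣ) : R5), ?_⟩
  rw [← two_mul]
  have : (2 : R5) = u := by rw [hu]; norm_num
  rw [this, Units.mul_inv]

private theorem dbl_mod (A : Type*) [AddCommGroup A] [Module R5 A] :
    Function.Bijective (fun a : A => a + a) := by
  obtain ⟨h, hh⟩ := half5
  have key : ∀ a : A, h • (a + a) = a := by
    intro a
    rw [smul_add, ← add_smul, hh, one_smul]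
  constructor
  · intro a b hab
    have h1 : a + a = b + b := hab
    rw [← key a, ← key b, h1]
  · intro b
    refine ⟨h • b, ?_⟩
    change h • b + h • b = b
    rw [← add_smul, hh, one_smul]

theorem dbl_R5 : Function.Bijective (fun a : R5 => a + a) := dbl_mod R5

theorem dbl_K5 : Function.Bijective (fun a : K5 => a + a) := dbl_mod K5

theorem dbl_D5 : Function.Bijective (fun a : D5 => a + a) := dbl_mod D5

theorem dbl_Q : Function.Bijective (fun a : ℚ => a + a) := by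
  constructor
  · intro a b h
    have h1 : a + a = b + b := h
    linarith
  · intro b
    exact ⟨b / 2, by change b / 2 + b / 2 = b; ring⟩

theorem sq_neg_one : ∃ c : R5, c * c = -1 ∧ (5 : R5) ∣ c - 2 ∧ ∃ u : R5ˣ, 18 + c = 25 * (u : R5) := by
  have hF : ∀ z : R5, (Polynomial.aeval z) (Polynomial.X ^ 2 + 1 : Polynomial R5) = z * z + 1 := by
    intro z
    simp [sq]
  have hF' : ∀ z : R5, (Polynomial.aeval z)
      (Polynomial.derivative (Polynomial.X ^ 2 + 1 : Polynomial R5)) = 2 * z := by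
    intro z
    simp only [Polynomial.derivative_add, Polynomial.derivative_X_pow, Polynomial.derivative_one,
      add_zero, map_mul, Polynomial.aeval_C, Polynomial.aeval_X, map_pow]
    norm_num
  have hu : ‖(2 * 57 : R5)‖ = 1 := by
    have h1 := PadicInt.norm_natCast_eq_one_iff (p := 5) (n := 114)
    have h2 : ((114 : ℕ) : R5) = 2 * 57 := by norm_num
    rw [← h2]
    exact h1.mpr (by norm_num)
  have hlt : ‖(57 * 57 + 1 : R5)‖ < 1 := by
    rw [PadicInt.norm_lt_one_iff_dvd]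
    refine ⟨650, ?_⟩
    norm_num
  obtain ⟨c, hc1, hc2, -, -⟩ := hensels_lemma (p := 5) (F := (Polynomial.X ^ 2 + 1 : Polynomial R5))
    (a := (57 : R5)) (by rw [hF, hF', hu]; simpa using hlt)
  rw [hF] at hc1
  rw [hF', hu] at hc2
  have hcc : c * c = -1 := eq_neg_of_add_eq_zero_left hc1
  obtain ⟨e, he⟩ := (PadicInt.norm_lt_one_iff_dvd _).mp hc2
  have hw : IsUnit (c + 57) := by
    have h1 := add_unit5 114 (by norm_num) e
    have h2 : c + 57 = ((114 : ℕ) : R5) + 5 * e := by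
      have h3 : c = 57 + ((5 : ℕ) : R5) * e := by rw [← he]; ring
      rw [h3]
      push_cast
      ring
    rwa [h2]
  obtain ⟨w, hw⟩ := hw
  have h1 : (c - 57) * (w : R5) = -3250 := by
    rw [hw]
    have : (c - 57) * (c + 57) = c * c - 3249 := by ring
    rw [this, hcc]
    norm_num
  have h2 : c - 57 = 125 * (-26 * ((w⁻¹ : R5ˣ) : R5)) := by
    calc c - 57 = (c - 57) * (w : R5) * ((w⁻¹ : R5ˣ) : R5) := by
          rw [mul_assoc, Units.mul_inv, mul_one]
      _ = 125 * (-26 * ((w⁻¹ : R5ˣ) : R5)) := by rw [h1]; ring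
  refine ⟨c, hcc, ?_, ?_⟩
  · refine ⟨11 + 25 * (-26 * ((w⁻¹ : R5ˣ) : R5)), ?_⟩
    have : c = 57 + 125 * (-26 * ((w⁻¹ : R5ˣ) : R5)) := by rw [← h2]; ring
    rw [this]
    ring
  · obtain ⟨v, hv⟩ := add_unit5 3 (by norm_num) (-26 * ((w⁻¹ : R5ˣ) : R5))
    refine ⟨v, ?_⟩
    rw [hv]
    have : c = 57 + 125 * (-26 * ((w⁻¹ : R5ˣ) : R5)) := by rw [← h2]; ring
    rw [this]
    push_cast
    ring

private theorem prim5_aux (s₁ s₂ : K5) (h : ‖s₁‖ ≤ ‖s₂‖) : ∃ v : R5, s₁ + v • s₂ = 0 := by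
  by_cases h2 : s₂ = 0
  · subst h2
    rw [norm_zero] at h
    have h1 : s₁ = 0 := norm_le_zero_iff.mp h
    exact ⟨0, by rw [h1, smul_zero, add_zero]⟩
  · have ht : ‖-(s₁ / s₂)‖ ≤ 1 := by
      rw [norm_neg, norm_div]
      exact div_le_one_of_le₀ h (norm_nonneg _)
    obtain ⟨v, hv⟩ : ∃ v : R5, (v : K5) = -(s₁ / s₂) := ⟨⟨-(s₁ / s₂), ht⟩, rfl⟩
    refine ⟨v, ?_⟩
    rw [smul5, hv, neg_mul, div_mul_cancel₀ _ h2, add_neg_cancel]

theorem prim5 (s₁ s₂ : K5) : ∃ u v : R5, ¬ ((5 : R5) ∣ u ∧ (5 : R5) ∣ v) ∧ u • s₁ + v • s₂ = 0 := by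
  have h1 : ¬ (5 : R5) ∣ 1 := (unit5_iff 1).mp isUnit_one
  rcases le_total ‖s₁‖ ‖s₂‖ with h | h
  · obtain ⟨v, hv⟩ := prim5_aux s₁ s₂ h
    exact ⟨1, v, fun hh => h1 hh.1, by rw [one_smul]; exact hv⟩
  · obtain ⟨u, hu⟩ := prim5_aux s₂ s₁ h
    exact ⟨u, 1, fun hh => h1 hh.2, by rw [one_smul, add_comm]; exact hu⟩

end PoolFbd
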