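import Pool.Agent.Work.MP_fbd21a_gt.Kap
import Pool.Agent.Work.MP_fbd21a_gt.Coef5
import Pool.Agent.Work.MP_fbd21a_gt.CLin

/-! MODULE Aniso. Anisotropy of the linking form on the c-part, from the arithmetic hypothesis har.
PROOF. b K5-valued, zero near K, in the c-part, dd τ b = al5 βb near univ, Itg3 (βb ∪ mk5 b) = 0.
βb is in the c-part (al5 injective) and Coc τ univ K βb (al5 (dd βb) = dd dd b = 0: LZ_dd_dd' with Z = K).
y = cmap mk5 b: relative cocycle in the c-part with D5 coefficients. c1_vec: d : Fin 2 → D5 with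
gau σ y ~ Σ g_i d_i on (R, K): gau σ y - Σ g_i d_i = dd one ψ̄ near R, ψ̄ zero near K. Lift d_i to v_i ∈ K5 and ψ̄ to
ψ : K5-valued, zero where ψ̄ is. b₁ = gau σ b. b₁ - Σ g_i v_i - dd one ψ has mk5 = 0 near R: it equals al5 ξ near R,
ξ : R5-valued 1-cochain zero near K. dd one ξ = gau σ βb near R (al5 injective; dd one b₁ = al5 (gau σ βb) near R
by cg_dd; g_i cocycles): hypothesis of kap_int for x = βb.
θ b₁ = 0 near S (cg_theta): Σ θ(g_i v_i) + dd θψ + al5 (θ ξ) = 0 near S, so by th_lin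
al5 (θ ξ) ~ - Σ_j u_j (v M)_j on (S, K) over K5. θ ξ is a relative cocycle of (S, K) over R5 (dd θξ = θ (gau σ βb) =
0 near S by cg_theta), rel_H1: θ ξ ~ Σ u_j p_j, p_j ∈ R5, and rel_H1u over K5: al5 p_j = - (v M)_j.
kap_int: 0 = (2 kap) • (p 0 • Σ_i α i 1 • d i - p 1 • Σ_i α i 0 • d i), d_i = mk5 v_i.
har (the arithmetic hypothesis) gives: all v_i ∈ R5, i.e. d_i = 0. Then gau σ y = dd one ψ̄ near R:
c1_zero: Cob τ univ K y. -/

open Topology Filter Set

namespace PoolFbd

section aux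
variable {K S R : Set E3} {g u : Fin 2 → Coch E3 ℤ 1} {k : Coch E3 ℤ 1}
    {α β : Matrix (Fin 2) (Fin 2) ℤ} {c : R5} {A B : Type} [AddCommGroup A] [Module R5 A]
    [AddCommGroup B] [Module R5 B]

private theorem an_rhoS (h : Geo3 K S R g u k α β) : ∀ z ∈ S, rho3 z ∈ R := by
  intro z hz
  refine h.S'R ?_
  change rho3 (rho3 z) ∈ S
  rw [rho3_rho3]
  exact hz

private theorem an_tht_lz (h : Geo3 K S R g u k α β) {n : ℕ} {φ : Coch E3 A n} (h1 : LZ R φ) :
    LZ S (tht c φ) := by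
  have e3 : LZ S (pb rho3 φ) := h1.pb fun z hz => ⟨rho3_cont.continuousAt, an_rhoS h z hz⟩
  intro z hz
  filter_upwards [h1 z (h.SR hz), e3 z hz] with t a b
  simp only [tht, Pi.add_apply, Pi.smul_apply, a, b, smul_zero, add_zero]

private theorem an_tht_sub {n : ℕ} (φ ψ : Coch E3 A n) :
    tht c (φ - ψ) = tht c φ - tht c ψ := by
  funext t
  simp only [tht, Pi.add_apply, Pi.sub_apply, Pi.smul_apply, pb, smul_sub]
  abel

private theorem an_tht_map (F : A →ₗ[R5] B) {n : ℕ} (φ : Coch E3 A n) :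
    tht c (cmap F φ) = cmap F (tht c φ) := by
  funext t
  simp only [tht, Pi.add_apply, Pi.smul_apply, pb, cmap, map_add, map_smul]

private theorem an_gau_map (F : A →ₗ[R5] B) (σ : E3 → ℤˣ) {n : ℕ} (φ : Coch E3 A n) :
    gau σ (cmap F φ) = cmap F (gau σ φ) := by
  funext t
  simp only [gau, cmap]
  rw [Units.smul_def, Units.smul_def, map_zsmul]

private theorem an_map_sub (F : A →ₗ[R5] B) {n : ℕ} (φ ψ : Coch E3 A n) :
    cmap F (φ - ψ) = cmap F φ - cmap F ψ := by
  funext t
  simp only [cmap, Pi.sub_apply, map_sub]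

private theorem an_dd_map (τ : E3 → E3 → ℤˣ) (F : A →ₗ[R5] B) {n : ℕ} (φ : Coch E3 A n) :
    dd τ (cmap F φ) = cmap F (dd τ φ) := cl_dd_map τ F.toAddMonoidHom φ

private theorem an_map_smulC (F : A →ₗ[R5] B) {n : ℕ} (φ : Coch E3 ℤ n) (a : A) :
    cmap F (smulC φ a) = smulC φ (F a) := by
  funext t
  simp only [cmap, smulC, map_zsmul]

private theorem an_smulC_lz {T : Set E3} {n : ℕ} {φ : Coch E3 ℤ n} (h : LZ T φ) (a : A) :
    LZ T (smulC φ a) := fun x hx => by
  filter_upwards [h x hx] with t ht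
  rw [smulC, ht, zero_smul]

private theorem an_smulC_dd {n : ℕ} (φ : Coch E3 ℤ n) (a : A) :
    dd one (smulC φ a) = smulC (dd one φ) a :=
  cl_dd_map (A := ℤ) (B := A) one ((AddMonoidHom.flip (smulAddHom ℤ A)) a) φ

/-- Lift of a cochain through a surjection, zero where the given cochain is zero. -/
private theorem an_lift {n : ℕ} (ψb : Coch E3 D5 n) :
    ∃ ψ : Coch E3 K5 n, cmap mk5 ψ = ψb ∧ ∀ t, ψb t = 0 → ψ t = 0 := by
  classical
  refine ⟨fun t => if ψb t = 0 then 0 else (mk5_surj (ψb t)).choose, ?_, ?_⟩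
  · funext t
    simp only [cmap]
    split_ifs with h
    · rw [map_zero, h]
    · exact (mk5_surj (ψb t)).choose_spec
  · intro t ht
    simp only [if_pos ht]

/-- The integral part. -/
private theorem an_int {n : ℕ} (e : Coch E3 K5 n) :
    ∃ ξ : Coch E3 R5 n, (∀ t, mk5 (e t) = 0 → al5 (ξ t) = e t) ∧ ∀ t, e t = 0 → ξ t = 0 := by
  classical
  refine ⟨fun t => if h : ∃ r, al5 r = e t then h.choose else 0, ?_, ?_⟩
  · intro t ht
    have h := (mk5_zero_iff _).1 ht
    simp only [dif_pos h]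
    exact h.choose_spec
  · intro t ht
    have h : ∃ r, al5 r = e t := ⟨0, by rw [ht, map_zero]⟩
    simp only [dif_pos h]
    apply al5_inj
    rw [h.choose_spec, ht, map_zero]

end aux

theorem aniso {K S R : Set E3} {g u : Fin 2 → Coch E3 ℤ 1} {k : Coch E3 ℤ 1}
    {α β : Matrix (Fin 2) (Fin 2) ℤ} {c : R5} (h : Geo3 K S R g u k α β) (hc : c * c = -1)
    {kap : ℤ} (hkap : ∀ (D : Type) [AddCommGroup D] [Module R5 D] (ξ : Coch E3 R5 1)
      (x : Coch E3 R5 2) (y : Coch E3 D 1) (p : Fin 2 → R5) (v : Fin 2 → D), LZ K ξ →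
      Coc (tauS S R) univ K x → CPart (epsR S R) rho3 c x →
      LZ R (gau (sigR S R) x - dd one ξ) → Coc (tauS S R) univ K y →
      CPart (epsR S R) rho3 c y → Cob one S K (tht c ξ - ∑ j, smulC (u j) (p j)) →
      Cob one R K (gau (sigR S R) y - ∑ i, smulC (g i) (v i)) →
      Itg3 (cup (rfl : 2 + 1 = 3) (upt R5 (tauS S R)) x y) =
        (2 * kap) • (p 0 • (∑ i, α i 1 • v i) - p 1 • (∑ i, α i 0 • v i)))
    (har : ∀ (v : Fin 2 → K5) (p : Fin 2 → R5),
      (∀ j, al5 (p j) = - ∑ i, al5 (mat5 c α β i j) * v i) →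
      (2 * kap) • (p 0 • (∑ i, α i 1 • mk5 (v i)) - p 1 • (∑ i, α i 0 • mk5 (v i))) = 0 →
      ∀ i, mk5 (v i) = 0)
    (b : Coch E3 K5 1) (βb : Coch E3 R5 2) (hb : LZ K b) (hβ : LZ K βb)
    (hd : LZ univ (dd (tauS S R) b - cmap al5 βb)) (hbc : CPart (epsR S R) rho3 c b)
    (hI : Itg3 (cup (rfl : 2 + 1 = 3) (upt R5 (tauS S R)) βb (cmap mk5 b)) = 0) :
    Cob (tauS S R) univ K (cmap mk5 b) := by

  have hbr := b
  -- the class `βb`
  have hβc : CPart (epsR S R) rho3 c βb := by
    have h1 := cg_ddc h hb hbc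
    have h2 : CPart (epsR S R) rho3 c (cmap al5 βb) := cpart_congr rho3_cont hd.symm h1
    have h3 : cmap al5 (Jop (epsR S R) rho3 βb - c • βb) =
        Jop (epsR S R) rho3 (cmap al5 βb) - c • cmap al5 βb := by
      funext t
      simp only [cmap, Jop, Pi.sub_apply, Pi.smul_apply, map_sub, map_smul]
      rw [Units.smul_def, Units.smul_def, map_zsmul]
    have h4 : LZ univ (cmap al5 (Jop (epsR S R) rho3 βb - c • βb)) := by
      rw [h3]
      exact h2
    exact cl_lz_inj al5.toAddMonoidHom al5_inj h4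
  have htw : IsTw (univ \ K) (tauS S R) := (tau_tw h).mono fun x hx => hx.2
  have hβd : Coc (tauS S R) univ K βb := by
    refine ⟨hβ, ?_⟩
    have h1 := hd.dd (tauS S R)
    rw [dd_sub] at h1
    have h2 := (LZ_dd_dd' (S := univ) htw hb).sub h1
    rw [sub_sub_cancel, an_dd_map] at h2
    exact cl_lz_inj al5.toAddMonoidHom al5_inj h2
  -- the class `y`
  have hyK : LZ K (cmap mk5 b) := hb.cmap mk5 (map_zero _)
  have hy : Coc (tauS S R) univ K (cmap mk5 b) := by
    refine ⟨hyK, ?_⟩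
    have h1 : LZ univ (cmap mk5 (dd (tauS S R) b - cmap al5 βb)) := hd.cmap mk5 (map_zero _)
    have h2 : cmap mk5 (cmap al5 βb) = 0 := by
      funext t
      exact (mk5_zero_iff _).2 ⟨βb t, rfl⟩
    rw [an_map_sub, h2, sub_zero, ← an_dd_map] at h1
    exact h1
  have hyc : CPart (epsR S R) rho3 c (cmap mk5 b) := cpart_map mk5 hbc
  obtain ⟨d, hd1, hd2⟩ := c1_vec h hc hy hyc
  obtain ⟨ψb, hψ1, hψ2⟩ := id hd2
  obtain ⟨ψ, hψa, hψb⟩ := an_lift ψb
  have hψK : LZ K ψ := fun x hx => by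
    filter_upwards [hψ1 x hx] with t ht
    exact hψb t ht
  choose v hv using fun i => mk5_surj (d i)
  set G := ∑ i, smulC (g i) (v i) with hG
  set e := gau (sigR S R) b - G - dd one ψ with he
  have hGK : LZ K G := by
    rw [hG, Fin.sum_univ_two]
    exact (an_smulC_lz (h.gK 0) _).add (an_smulC_lz (h.gK 1) _)
  have heK : LZ K e := ((hb.gau _).sub hGK).sub (hψK.dd one)
  have heR : LZ R (cmap mk5 e) := by
    have h1 : cmap mk5 e = gau (sigR S R) (cmap mk5 b) - ∑ i, smulC (g i) (d i) -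
        dd one ψb := by
      rw [he, an_map_sub, an_map_sub, ← an_gau_map, ← an_dd_map, hψa]
      congr 2
      rw [hG, Fin.sum_univ_two, Fin.sum_univ_two, ← hv 0, ← hv 1, ← an_map_smulC,
        ← an_map_smulC]
      funext t
      simp only [cmap, Pi.add_apply, map_add]
    rw [h1]
    exact hψ2
  obtain ⟨ξ, hξ1, hξ2⟩ := an_int e
  have hξR : LZ R (cmap al5 ξ - e) := fun x hx => by
    filter_upwards [heR x hx] with t ht
    rw [Pi.sub_apply]
    change al5 (ξ t) - e t = 0
    rw [hξ1 t ht, sub_self]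
  have hξK : LZ K ξ := fun x hx => by
    filter_upwards [heK x hx] with t ht
    exact hξ2 t ht
  -- the coboundary of `ξ`
  have hGd : LZ R (dd one G) := by
    rw [hG, Fin.sum_univ_two, dd_add, an_smulC_dd, an_smulC_dd]
    exact (an_smulC_lz (h.gR.2.1 0) _).add (an_smulC_lz (h.gR.2.1 1) _)
  have hξd : LZ R (gau (sigR S R) βb - dd one ξ) := by
    have h1 : LZ R (cmap al5 (gau (sigR S R) βb - dd one ξ)) := by
      rw [an_map_sub, ← an_gau_map, ← an_dd_map]
      have h2 : LZ R (dd one (cmap al5 ξ) - (dd one (gau (sigR S R) b) - dd one G -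
          dd one (dd one ψ))) := by
        have h6 := hξR.dd one
        rw [dd_sub, he, dd_sub, dd_sub] at h6
        exact h6
      have h3 : LZ R (gau (sigR S R) (dd (tauS S R) b) - dd one (gau (sigR S R) b)) :=
        cg_dd h hb
      have h4 : LZ R (gau (sigR S R) (dd (tauS S R) b) - gau (sigR S R) (cmap al5 βb)) := by
        have h6 : LZ R (gau (sigR S R) (dd (tauS S R) b - cmap al5 βb)) :=
          (hd.mono (subset_univ R)).gau _
        rw [gau_sub] at h6
        exact h6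
      have h5 : LZ R (dd one (dd one ψ)) := LZ_dd_dd (IsTw.one R) ψ
      have h6 := (((h3.sub h4).sub h2).add hGd).add h5
      have h7 : gau (sigR S R) (cmap al5 βb) - dd one (cmap al5 ξ) =
          (gau (sigR S R) (dd (tauS S R) b) - dd one (gau (sigR S R) b) -
          (gau (sigR S R) (dd (tauS S R) b) - gau (sigR S R) (cmap al5 βb)) -
          (dd one (cmap al5 ξ) - (dd one (gau (sigR S R) b) - dd one G -
          dd one (dd one ψ)))) + dd one G + dd one (dd one ψ) := by abel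
      rw [h7]
      exact h6
    exact cl_lz_inj al5.toAddMonoidHom al5_inj h1
  -- the restriction to `S`
  have hθc : Coc one S K (tht c ξ) := by
    refine ⟨th_lz h hξK, ?_⟩
    rw [th_dd]
    have e1 := cg_theta h hc hβ hβc
    have e2 := an_tht_lz (c := c) h hξd
    rw [an_tht_sub] at e2
    have e5 := e1.sub e2
    rwa [sub_sub_cancel] at e5
  obtain ⟨p, hp⟩ := rel_H1 h.KS h.uS h.uK h.kK hθc
  have hp5 : Cob one S K (cmap al5 (tht c ξ) - ∑ j, smulC (u j) (al5 (p j))) := by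
    have h1 := cl_cob_map (τ := one) al5.toAddMonoidHom hp
    have h2 : cmap al5.toAddMonoidHom (tht c ξ - ∑ j, smulC (u j) (p j)) =
        cmap al5 (tht c ξ) - ∑ j, smulC (u j) (al5 (p j)) := by
      have h3 : cmap al5.toAddMonoidHom (tht c ξ - ∑ j, smulC (u j) (p j)) =
        cmap al5 (tht c ξ - ∑ j, smulC (u j) (p j)) := rfl
      have h5 : cmap al5 (∑ j, smulC (u j) (p j)) = ∑ j, smulC (u j) (al5 (p j)) := by
        rw [Fin.sum_univ_two, Fin.sum_univ_two, ← an_map_smulC, ← an_map_smulC]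
        exact cl_map_add al5.toAddMonoidHom _ _
      rw [h3, an_map_sub, h5]
    rw [h2] at h1
    exact h1
  have hth := th_lin (c := c) h v
  have hbθ := cg_theta h hc hb hbc
  have hsum : Cob one S K (cmap al5 (tht c ξ) + ∑ j, smulC (u j) (∑ i, mat5 c α β i j • v i)) := by
    rw [← an_tht_map]
    have h1 : LZ S (tht c (cmap al5 ξ) - (tht c (gau (sigR S R) b) - tht c G -
        dd one (tht c ψ))) := by
      have h4 := an_tht_lz (c := c) h hξR
      rw [he, an_tht_sub, an_tht_sub, an_tht_sub, ← th_dd] at h4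
      exact h4
    have h2 : Cob one S K (dd one (tht c ψ)) :=
      ⟨tht c ψ, th_lz h hψK, by rw [sub_self]; exact LZ.zero _⟩
    have h3 : Cob one S K ((tht c (cmap al5 ξ) - (tht c (gau (sigR S R) b) - tht c G -
        dd one (tht c ψ))) + tht c (gau (sigR S R) b)) := Cob.of_LZ (h1.add hbθ)
    have h4 : Cob one S K (tht c G - ∑ j, smulC (u j) (∑ i, mat5 c α β i j • v i)) := hth
    have h5 := (h3.sub h2).sub h4
    have h6 : tht c (cmap al5 ξ) + ∑ j, smulC (u j) (∑ i, mat5 c α β i j • v i) =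
        ((tht c (cmap al5 ξ) - (tht c (gau (sigR S R) b) - tht c G -
        dd one (tht c ψ))) + tht c (gau (sigR S R) b)) - dd one (tht c ψ) -
        (tht c G - ∑ j, smulC (u j) (∑ i, mat5 c α β i j • v i)) := by abel
    rw [h6]
    exact h5
  have hpv : ∀ j, al5 (p j) = - ∑ i, al5 (mat5 c α β i j) * v i := by
    have h1 := hsum.sub hp5
    have h2 : cmap al5 (tht c ξ) + ∑ j, smulC (u j) (∑ i, mat5 c α β i j • v i) -
        (cmap al5 (tht c ξ) - ∑ j, smulC (u j) (al5 (p j))) =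
        ∑ j, smulC (u j) (∑ i, mat5 c α β i j • v i + al5 (p j)) := by
      have hs : ∀ (φ : Coch E3 ℤ 1) (x y : K5), smulC φ (x + y) = smulC φ x + smulC φ y := by
        intro φ x y
        funext t
        simp only [smulC, Pi.add_apply, smul_add]
      simp only [hs, Finset.sum_add_distrib]
      abel
    rw [h2] at h1
    have h3 := rel_H1u h.uS h1
    intro j
    have h4 := congrFun h3 j
    have h5 : ∑ i, mat5 c α β i j • v i + al5 (p j) = 0 := h4
    rw [eq_neg_of_add_eq_zero_right h5]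
    rfl
  have hfin := hkap D5 ξ βb (cmap mk5 b) p d hξK hβd hβc hξd hy hyc hp hd2
  rw [hI] at hfin
  have hd0 := har v p hpv (by
    simp only [hv]
    exact hfin.symm)
  have hd00 : ∀ i, d i = 0 := fun i => by rw [← hv i]; exact hd0 i
  refine c1_zero h hc hy hyc ?_
  have h1 : ∑ i, smulC (g i) (d i) = 0 := by
    rw [Fin.sum_univ_two, hd00 0, hd00 1]
    funext t
    simp only [smulC, Pi.add_apply, smul_zero, add_zero, Pi.zero_apply]
  rw [h1, sub_zero] at hd2
  exact hd2

end PoolFbd
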