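import Pool.Agent.Work.MP_fbd21a_gt.GeoDefs
import Pool.Agent.Work.MP_fbd21a_gt.Coef5

/-! MODULE Arith. Arithmetic of the two matrices. M = alM + c beM = 5 M' with
M' = ((-1-2c)/5, (5+5c)/5; (-4-3c)/5, (11+12c)/5), integral when c ≡ 2 mod 5; det M = 18 + c = 25 * unit.
ar_5v: v M = 0 in D5 ⇒ multiply by the adjugate of M, which is 5 times the adjugate of M':
det M = 25 unit, M adj(M') = 5 unit, so 5 v = 0.
ar_har: v ∈ K5², p_j = -(vM)_j ∈ R5. Then 5 v_i ∈ R5 (as above): v_i = x_i/5. Put D(v) = 5 (v0² + v0 v1 - 3 v1²).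
The quantity p 0 (vα)_1 - p 1 (vα)_0 with p = -(vα + c vβ) equals c ((vα)_0 (vβ)_1 - (vα)_1 (vβ)_0) = c D(v)
(check: alM J beMᵀ = (5, 3; 2, -15)), = c (x0² + x0 x1 - 3 x1²)/5 in K5. 2 kap c is a unit of R5 (kap not divisible by 5, c² = -1),
so mk5 of it being 0 means 5 divides x0² + x0 x1 - 3 x1² in Z_5; modulo 5 (PadicInt.toZMod) this form is
anisotropic (decide over ZMod 5): 5 divides x0, x1, so v_i ∈ R5. Careful with the smul of α i j : ℤ on D5 and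
that mk5 is R5-linear (mk5 (v) with integer and R5 multiples). -/

open Topology Filter Set

namespace PoolFbd

/-- The matrix alpha. -/
def alM : Matrix (Fin 2) (Fin 2) ℤ := ![![-1, 5], ![-4, 11]]

/-- The matrix beta. -/
def beM : Matrix (Fin 2) (Fin 2) ℤ := ![![-2, 5], ![-3, 12]]

private theorem ar_m00 (c : R5) : mat5 c alM beM 0 0 = -1 - 2 * c := by
  simp [mat5, alM, beM]
  ring

private theorem ar_m01 (c : R5) : mat5 c alM beM 0 1 = 5 + 5 * c := by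
  simp [mat5, alM, beM]
  ring

private theorem ar_m10 (c : R5) : mat5 c alM beM 1 0 = -4 - 3 * c := by
  simp [mat5, alM, beM]
  ring

private theorem ar_m11 (c : R5) : mat5 c alM beM 1 1 = 11 + 12 * c := by
  simp [mat5, alM, beM]
  ring

theorem ar_div {c : R5} (hc2 : (5 : R5) ∣ c - 2) : ∀ i j, (5 : R5) ∣ mat5 c alM beM i j := by
  obtain ⟨e, he⟩ := hc2
  have hc : c = 2 + 5 * e := by rw [← he]; ring
  intro i j
  fin_cases i <;> fin_cases j
  · refine ⟨-1 - 2 * e, ?_⟩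
    refine (ar_m00 c).trans ?_
    rw [hc]; ring
  · refine ⟨3 + 5 * e, ?_⟩
    refine (ar_m01 c).trans ?_
    rw [hc]; ring
  · refine ⟨-2 - 3 * e, ?_⟩
    refine (ar_m10 c).trans ?_
    rw [hc]; ring
  · refine ⟨7 + 12 * e, ?_⟩
    refine (ar_m11 c).trans ?_
    rw [hc]; ring

private theorem ar_det_eq {c : R5} (hc : c * c = -1) : (mat5 c alM beM).det = 18 + c := by
  rw [Matrix.det_fin_two, ar_m00, ar_m01, ar_m10, ar_m11]
  linear_combination (-9 : R5) * hc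

theorem ar_det {c : R5} (hc : c * c = -1) : (mat5 c alM beM).det ≠ 0 ∧
    (mat5 (-c) alM beM).det ≠ 0 := by
  have h325 : (325 : R5) ≠ 0 := by
    have : ((325 : ℕ) : R5) ≠ 0 := Nat.cast_ne_zero.2 (by norm_num)
    exact_mod_cast this
  constructor
  · rw [ar_det_eq hc]
    intro h
    apply h325
    have h1 : c = -18 := by linear_combination h
    rw [h1] at hc
    linear_combination hc
  · rw [ar_det_eq (by rw [neg_mul_neg]; exact hc)]
    intro h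
    apply h325
    have h1 : c = 18 := by linear_combination -h
    rw [h1] at hc
    linear_combination hc

private theorem ar_split {c : R5} (hc : c * c = -1) (hc2 : (5 : R5) ∣ c - 2)
    (hcu : ∃ u : R5ˣ, 18 + c = 25 * (u : R5)) : ∃ (a b d e : R5) (u : R5ˣ),
    mat5 c alM beM 0 0 = 5 * a ∧ mat5 c alM beM 0 1 = 5 * b ∧ mat5 c alM beM 1 0 = 5 * d ∧
      mat5 c alM beM 1 1 = 5 * e ∧ a * e - b * d = u := by
  obtain ⟨a, ha⟩ := ar_div hc2 0 0
  obtain ⟨b, hb⟩ := ar_div hc2 0 1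
  obtain ⟨d, hd⟩ := ar_div hc2 1 0
  obtain ⟨e, he⟩ := ar_div hc2 1 1
  obtain ⟨u, hu⟩ := hcu
  refine ⟨a, b, d, e, u, ha, hb, hd, he, ?_⟩
  have h25 : (25 : R5) ≠ 0 := by
    have : ((25 : ℕ) : R5) ≠ 0 := Nat.cast_ne_zero.2 (by norm_num)
    exact_mod_cast this
  apply mul_left_cancel₀ h25
  rw [← hu, ← ar_det_eq hc, Matrix.det_fin_two, ha, hb, hd, he]
  ring

private theorem ar_unit_smul {A : Type*} [AddCommGroup A] [Module R5 A] {u : R5ˣ} {v : A}
    (h : (5 * (u : R5)) • v = 0) : (5 : R5) • v = 0 := by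
  have h1 : ((u⁻¹ : R5ˣ) : R5) • ((5 * (u : R5)) • v) = 0 := by rw [h, smul_zero]
  rw [smul_smul] at h1
  have h2 : ((u⁻¹ : R5ˣ) : R5) * (5 * (u : R5)) = 5 := by
    rw [mul_left_comm, Units.inv_mul, mul_one]
  rwa [h2] at h1

theorem ar_5v {c : R5} (hc : c * c = -1) (hc2 : (5 : R5) ∣ c - 2)
    (hcu : ∃ u : R5ˣ, 18 + c = 25 * (u : R5)) (v : Fin 2 → D5)
    (hv : ∀ j, ∑ i, mat5 c alM beM i j • v i = 0) : ∀ i, (5 : R5) • v i = 0 := by
  obtain ⟨a, b, d, e, u, h00, h01, h10, h11, hu⟩ := ar_split hc hc2 hcu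
  have e0 := hv 0
  have e1 := hv 1
  rw [Fin.sum_univ_two, h00, h10] at e0
  rw [Fin.sum_univ_two, h01, h11] at e1
  intro i
  apply ar_unit_smul (u := u)
  fin_cases i
  · have h : (5 * (u : R5)) • v 0 = e • ((5 * a) • v 0 + (5 * d) • v 1) -
        d • ((5 * b) • v 0 + (5 * e) • v 1) := by
      rw [← hu]
      simp only [smul_add, smul_smul]
      module
    rw [e0, e1, smul_zero, smul_zero, sub_zero] at h
    exact h
  · have h : (5 * (u : R5)) • v 1 = a • ((5 * b) • v 0 + (5 * e) • v 1) -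
        b • ((5 * a) • v 0 + (5 * d) • v 1) := by
      rw [← hu]
      simp only [smul_add, smul_smul]
      module
    rw [e0, e1, smul_zero, smul_zero, sub_zero] at h
    exact h

private theorem ar_dvd_iff (x : R5) : (5 : R5) ∣ x ↔ PadicInt.toZMod x = (0 : ZMod 5) := by
  rw [← RingHom.mem_ker, PadicInt.ker_toZMod, PadicInt.maximalIdeal_eq_span_p,
    Ideal.mem_span_singleton]
  norm_num

private theorem ar_form {x y : R5} (h : (5 : R5) ∣ x * x + x * y - 3 * (y * y)) :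
    (5 : R5) ∣ x ∧ (5 : R5) ∣ y := by
  rw [ar_dvd_iff] at h ⊢
  rw [ar_dvd_iff]
  simp only [map_sub, map_add, map_mul, map_ofNat] at h
  generalize PadicInt.toZMod x = a at h ⊢
  generalize PadicInt.toZMod y = b at h ⊢
  revert a b
  decide

private theorem ar_smul (a : R5) (y : K5) : a • y = al5 a * y := by
  rw [Algebra.smul_def]
  rfl

private theorem ar_al5_mul (a b : R5) : al5 (a * b) = al5 a * al5 b := PadicInt.coe_mul a b

private theorem ar_prime5 : Prime (5 : R5) := by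
  have := PadicInt.prime_p (p := 5)
  exact_mod_cast this

theorem ar_har {c : R5} (hc : c * c = -1) (hc2 : (5 : R5) ∣ c - 2)
    (hcu : ∃ u : R5ˣ, 18 + c = 25 * (u : R5)) {kap : ℤ} (hk : ¬ (5 : ℤ) ∣ kap)
    (v : Fin 2 → K5) (p : Fin 2 → R5)
    (hp : ∀ j, al5 (p j) = - ∑ i, al5 (mat5 c alM beM i j) * v i)
    (h0 : (2 * kap) • (p 0 • (∑ i, alM i 1 • mk5 (v i)) - p 1 • (∑ i, alM i 0 • mk5 (v i))) = 0) :
    ∀ i, mk5 (v i) = 0 := by
  obtain ⟨a, b, d, e, u, h00, h01, h10, h11, hu⟩ := ar_split hc hc2 hcu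
  have p0 := hp 0
  have p1 := hp 1
  rw [Fin.sum_univ_two] at p0 p1
  have q0 := p0
  have q1 := p1
  rw [h00, h10, ar_al5_mul, ar_al5_mul] at q0
  rw [h01, h11, ar_al5_mul, ar_al5_mul] at q1
  have h5 : al5 5 = 5 := PadicInt.coe_natCast 5
  have hu5 : al5 (u : R5) ≠ 0 := by
    intro h
    have h1 : al5 (u : R5) = al5 0 := by rw [h, map_zero]
    exact u.ne_zero (al5_inj h1)
  have hua : al5 (u : R5) = al5 a * al5 e - al5 b * al5 d := by
    rw [← hu, map_sub, ar_al5_mul, ar_al5_mul]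
  have huinv : al5 ((u⁻¹ : R5ˣ) : R5) = (al5 (u : R5))⁻¹ := by
    refine eq_inv_of_mul_eq_one_left ?_
    rw [← ar_al5_mul, Units.inv_mul]
    exact PadicInt.coe_one
  rw [h5] at q0 q1
  obtain ⟨x0, hx0⟩ : ∃ x : R5, al5 x = 5 * v 0 := by
    refine ⟨((u⁻¹ : R5ˣ) : R5) * (d * p 1 - e * p 0), ?_⟩
    rw [ar_al5_mul, huinv, map_sub, ar_al5_mul, ar_al5_mul, q0, q1, inv_mul_eq_iff_eq_mul₀ hu5,
      hua]
    ring
  obtain ⟨x1, hx1⟩ : ∃ x : R5, al5 x = 5 * v 1 := by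
    refine ⟨((u⁻¹ : R5ˣ) : R5) * (b * p 0 - a * p 1), ?_⟩
    rw [ar_al5_mul, huinv, map_sub, ar_al5_mul, ar_al5_mul, q0, q1, inv_mul_eq_iff_eq_mul₀ hu5,
      hua]
    ring
  have h55 : (5 : K5) ≠ 0 := by norm_num
  have hv0 : v 0 = al5 x0 / 5 := by rw [hx0]; field_simp
  have hv1 : v 1 = al5 x1 / 5 := by rw [hx1]; field_simp
  rw [ar_m00, ar_m10] at p0
  rw [ar_m01, ar_m11] at p1
  have a0 : al5 (-1 - 2 * c) = -1 - 2 * al5 c := by
    show (((-1 - 2 * c : R5)) : K5) = _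
    push_cast
    rfl
  have a1 : al5 (-4 - 3 * c) = -4 - 3 * al5 c := by
    show (((-4 - 3 * c : R5)) : K5) = _
    push_cast
    rfl
  have a2 : al5 (5 + 5 * c) = 5 + 5 * al5 c := by
    show (((5 + 5 * c : R5)) : K5) = _
    push_cast
    rfl
  have a3 : al5 (11 + 12 * c) = 11 + 12 * al5 c := by
    show (((11 + 12 * c : R5)) : K5) = _
    push_cast
    rfl
  rw [a0, a1] at p0
  rw [a2, a3] at p1
  have hal : alM 0 0 = -1 ∧ alM 0 1 = 5 ∧ alM 1 0 = -4 ∧ alM 1 1 = 11 :=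
    ⟨rfl, rfl, rfl, rfl⟩
  rw [Fin.sum_univ_two, Fin.sum_univ_two, hal.1, hal.2.1, hal.2.2.1, hal.2.2.2] at h0
  have e1 : (5 : ℤ) • mk5 (v 0) + (11 : ℤ) • mk5 (v 1) = mk5 (5 * v 0 + 11 * v 1) := by
    rw [← map_zsmul, ← map_zsmul, ← map_add, zsmul_eq_mul, zsmul_eq_mul]
    norm_num
  have e2 : (-1 : ℤ) • mk5 (v 0) + (-4 : ℤ) • mk5 (v 1) = mk5 (-v 0 - 4 * v 1) := by
    rw [← map_zsmul, ← map_zsmul, ← map_add, zsmul_eq_mul, zsmul_eq_mul]
    congr 1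
    push_cast
    ring
  rw [e1, e2, ← map_smul, ← map_smul, ← map_sub, ← map_zsmul, ar_smul, ar_smul, p0, p1,
    mk5_zero_iff] at h0
  obtain ⟨r, hr⟩ := h0
  rw [zsmul_eq_mul, hv0, hv1] at hr
  have key : ((2 * kap : ℤ) : R5) * c * (x0 * x0 + x0 * x1 - 3 * (x1 * x1)) = 5 * r := by
    apply al5_inj
    rw [ar_al5_mul, ar_al5_mul, ar_al5_mul 5 r, map_sub, map_add, ar_al5_mul x0, ar_al5_mul x0,
      ar_al5_mul 3, ar_al5_mul x1, h5, hr]
    have b1 : al5 ((2 * kap : ℤ) : R5) = ((2 * kap : ℤ) : K5) := PadicInt.coe_intCast _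
    have b2 : al5 3 = 3 := PadicInt.coe_natCast 3
    rw [b1, b2]
    field_simp
    ring
  have hdvd : (5 : R5) ∣ ((2 * kap : ℤ) : R5) * c * (x0 * x0 + x0 * x1 - 3 * (x1 * x1)) :=
    ⟨r, key⟩
  have hn1 : ¬ (5 : R5) ∣ ((2 * kap : ℤ) : R5) := by
    rw [ar_dvd_iff, map_intCast, ZMod.intCast_zmod_eq_zero_iff_dvd]
    intro h
    have h' : (5 : ℤ) ∣ 2 * kap := by exact_mod_cast h
    exact hk ((Int.isCoprime_iff_gcd_eq_one.2 (by norm_num : Int.gcd 5 2 = 1)).dvd_of_dvd_mul_left h')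
  have hn2 : ¬ (5 : R5) ∣ c := by
    intro h
    have h1 : (5 : R5) ∣ 1 := by
      have h2 : (5 : R5) ∣ c * c := h.mul_left c
      rw [hc] at h2
      exact (dvd_neg.1 h2)
    exact ar_prime5.not_isUnit (isUnit_of_dvd_one h1)
  rcases ar_prime5.dvd_or_dvd hdvd with h | h
  · rcases ar_prime5.dvd_or_dvd h with h | h
    · exact absurd h hn1
    · exact absurd h hn2
  obtain ⟨⟨y0, hy0⟩, ⟨y1, hy1⟩⟩ := ar_form h
  intro i
  rw [mk5_zero_iff]
  fin_cases i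
  · refine ⟨y0, ?_⟩
    show al5 y0 = v 0
    rw [hv0, hy0, ar_al5_mul, h5]
    field_simp
  · refine ⟨y1, ?_⟩
    show al5 y1 = v 1
    rw [hv1, hy1, ar_al5_mul, h5]
    field_simp

end PoolFbd
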