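import Pool.Agent.Work.MP_fbd21a_gt.AxGen

/-! MODULE AxCls. The relative 1-classes of (S ∪ S', K) and of the curves g i.
ax_uh: Û j = glue of u j (near S) and 0 (near S'); they agree near S ∩ S' = K.
ax_cls: rel_H1 for (S, K) with coefficients A; for (S', K) pull back by rho3.
ax_g: hα : g i ~ Σ α i j u j near S, absolute; both sides vanish near K, so relative: the potential ψ is locally constant
near K, constant a there (kK: K is connected), ψ - a (compare rel_of_abs if present in GrRel or KOne, or prove it here).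
Near S': pull back hβ by rho3: g i = pb rho3 (pb rho3 (g i)) ~ Σ β i j pb rho3 (u j). Casting to LR: cmap of the ring map
ℤ → LR, smulC (g i) (1 : LR) and lin2 written as Σ smulC (u j) (α i j : LR). ax_g': the same for pb rho3 (g i), with α and β
exchanged: near S (hβ), near S' (hα pulled back). -/

open Topology Filter Set LaurentPolynomial

namespace PoolFbd

variable {K S R : Set E3} {g u : Fin 2 → Coch E3 ℤ 1} {k : Coch E3 ℤ 1}
  {α β : Matrix (Fin 2) (Fin 2) ℤ}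

private theorem axcls_dd_smulC {A : Type} [AddCommGroup A] {n : ℕ} (g : Coch E3 ℤ n) (a : A) :
    dd one (smulC g a) = smulC (dd one g) a := by
  funext t
  show (one (t 0) (t 1) : ℤˣ) • (g (fun j => t j.succ) • a) +
      ∑ i : Fin (n + 1), (-1 : ℤ) ^ ((i : ℕ) + 1) • (g (fun j => t (i.succ.succAbove j)) • a) =
    ((one (t 0) (t 1) : ℤˣ) • g (fun j => t j.succ) +
      ∑ i : Fin (n + 1), (-1 : ℤ) ^ ((i : ℕ) + 1) • g (fun j => t (i.succ.succAbove j))) • a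
  rw [add_smul, Finset.sum_smul]
  congr 1
  · simp [one]
  · exact Finset.sum_congr rfl fun i _ => by rw [smul_assoc]

private theorem axcls_LZ_smulC {A : Type} [AddCommGroup A] {T : Set E3} {n : ℕ}
    {g : Coch E3 ℤ n} (h : LZ T g) (a : A) : LZ T (smulC g a) :=
  fun x hx => by
    filter_upwards [h x hx] with t ht
    simp [smulC, ht]

private theorem axcls_pbpb {A : Type*} {n : ℕ} (φ : Coch E3 A n) : pb rho3 (pb rho3 φ) = φ := by
  funext t
  show φ (fun j => rho3 (rho3 (t j))) = φ t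
  congr 1
  funext j
  exact rho3_rho3 (t j)

private theorem axcls_toS (x : E3) {S : Set E3} (hx : x ∈ S) : rho3 x ∈ rho3 ⁻¹' S := by
  show rho3 (rho3 x) ∈ S
  rw [rho3_rho3]
  exact hx

private theorem axcls_rhoK (h : Geo3 K S R g u k α β) (x : E3) (hx : x ∈ K) : rho3 x ∈ K :=
  (geo_memK h x).1 hx

private theorem axcls_lzK (h : Geo3 K S R g u k α β) {A : Type} [AddCommGroup A] {n : ℕ}
    {φ : Coch E3 A n} (hφ : LZ K φ) : LZ K (pb rho3 φ) :=
  hφ.pb fun x hx => ⟨rho3_cont.continuousAt, axcls_rhoK h x hx⟩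

private theorem axcls_cobpb (h : Geo3 K S R g u k α β) {A : Type} [AddCommGroup A] {n : ℕ}
    {φ : Coch E3 A n} (hφ : Cob one S K φ) : Cob one (rho3 ⁻¹' S) K (pb rho3 φ) := by
  have h1 := hφ.pb (f := rho3) (S := rho3 ⁻¹' S) (Z := K)
    (fun x hx => ⟨rho3_cont.continuousAt, hx⟩)
    (fun x hx => ⟨rho3_cont.continuousAt, axcls_rhoK h x hx⟩)
  rwa [pbt_one] at h1

private theorem axcls_rel (h : Geo3 K S R g u k α β) {A : Type} [AddCommGroup A]
    {φ : Coch E3 A 1} (hφ : LZ K φ) (h1 : Cob one S ∅ φ) : Cob one S K φ := by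
  obtain ⟨ψ, -, hψ⟩ := h1
  have h2 : LZ K (dd one ψ) := by
    have h3 := hφ.sub (hψ.mono h.KS)
    rwa [sub_sub_cancel] at h3
  obtain ⟨a, ha⟩ := (h.kK.2.2 A).1 ψ h2
  refine ⟨ψ - cst E3 0 a, ha, ?_⟩
  have e : dd one (cst E3 0 a) = (0 : Coch E3 A 1) := by
    funext t
    simp [dd, cst, one]
  rw [dd_sub, e, sub_zero]
  exact hψ

private theorem axcls_cobmap {A B : Type} [AddCommGroup A] [AddCommGroup B] {S Z : Set E3}
    (F : A →+ B) {φ : Coch E3 A 1} (h : Cob one S Z φ) : Cob one S Z (cmap F φ) := by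
  obtain ⟨ψ, h1, h2⟩ := h
  refine ⟨cmap F ψ, h1.cmap F (map_zero F), ?_⟩
  have e := dd_cmap (one : E3 → E3 → ℤˣ) ψ F (fun w a => by
    rw [Units.smul_def, Units.smul_def, map_zsmul])
  rw [e]
  have e2 : cmap F φ - cmap F (dd one ψ) = cmap F (φ - dd one ψ) := by
    funext t
    show F (φ t) - F (dd one ψ t) = F (φ t - dd one ψ t)
    rw [map_sub]
  rw [e2]
  exact h2.cmap F (map_zero F)

private theorem axcls_cast (G : Coch E3 ℤ 1) (w : Fin 2 → Coch E3 ℤ 1) (m : Fin 2 → ℤ) :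
    cmap (Int.castAddHom LR) (G - ∑ j, smulC (w j) (m j)) =
      smulC G (1 : LR) - ∑ j, smulC (w j) ((m j : ℤ) : LR) := by
  funext t
  show ((G t - (∑ j, smulC (w j) (m j)) t : ℤ) : LR) =
    G t • (1 : LR) - (∑ j, smulC (w j) ((m j : ℤ) : LR)) t
  rw [Finset.sum_apply, Finset.sum_apply, Fin.sum_univ_two, Fin.sum_univ_two]
  show ((G t - (w 0 t • m 0 + w 1 t • m 1) : ℤ) : LR) =
    G t • (1 : LR) - (w 0 t • ((m 0 : ℤ) : LR) + w 1 t • ((m 1 : ℤ) : LR))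
  rw [smul_eq_mul, smul_eq_mul, zsmul_eq_mul, zsmul_eq_mul, zsmul_eq_mul]
  push_cast
  ring

private theorem axcls_pbsum {A : Type} [AddCommGroup A] (φ : Coch E3 A 1)
    (w : Fin 2 → Coch E3 ℤ 1) (m : Fin 2 → A) :
    pb rho3 (φ - ∑ j, smulC (w j) (m j)) =
      pb rho3 φ - ∑ j, smulC (pb rho3 (w j)) (m j) := by
  funext t
  show φ (fun j => rho3 (t j)) - (∑ j, smulC (w j) (m j)) (fun j => rho3 (t j)) =
    φ (fun j => rho3 (t j)) - (∑ j, smulC (pb rho3 (w j)) (m j)) t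
  rw [Finset.sum_apply, Finset.sum_apply]
  rfl

private theorem axcls_core (h : Geo3 K S R g u k α β) {G : Coch E3 ℤ 1} (hG : LZ K G)
    {m : Fin 2 → ℤ} (h1 : Cob one S ∅ (G - lin2 u m)) :
    Cob one S K (smulC G (1 : LR) - ∑ j, smulC (u j) ((m j : ℤ) : LR)) ∧
    Cob one (rho3 ⁻¹' S) K
      (smulC (pb rho3 G) (1 : LR) - ∑ j, smulC (pb rho3 (u j)) ((m j : ℤ) : LR)) := by
  have hK : LZ K (G - lin2 u m) := by
    refine hG.sub ?_
    show LZ K (∑ j, smulC (u j) (m j))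
    rw [Fin.sum_univ_two]
    exact (axcls_LZ_smulC (h.uK 0) _).add (axcls_LZ_smulC (h.uK 1) _)
  have h2 : Cob one S K (G - ∑ j, smulC (u j) (m j)) := axcls_rel h hK h1
  constructor
  · have h3 := axcls_cobmap (Int.castAddHom LR) h2
    rwa [axcls_cast] at h3
  · have h3 := axcls_cobmap (Int.castAddHom LR) (axcls_cobpb h h2)
    rwa [axcls_pbsum, axcls_cast] at h3

theorem ax_uh (h : Geo3 K S R g u k α β) : ∃ U : Fin 2 → Coch E3 LR 1, (∀ j, LZ K (U j)) ∧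
    (∀ j, LZ (S ∪ rho3 ⁻¹' S) (dd one (U j))) ∧ (∀ j, LZ S (U j - smulC (u j) (1 : LR))) ∧
    ∀ j, LZ (rho3 ⁻¹' S) (U j) := by
  have hsep : Sepd S (rho3 ⁻¹' S) := Sepd.closed h.cS (h.cS.preimage rho3_cont)
  have key : ∀ j, ∃ U : Coch E3 LR 1, LZ K U ∧ LZ (S ∪ rho3 ⁻¹' S) (dd one U) ∧
      LZ S (U - smulC (u j) (1 : LR)) ∧ LZ (rho3 ⁻¹' S) U := by
    intro j
    have hu : LZ K (smulC (u j) (1 : LR)) := axcls_LZ_smulC (h.uK j) _
    obtain ⟨c, h1, h2, h3⟩ := glue_zero (Z := K) hsep (smulC (u j) (1 : LR)) 0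
      (by rw [h.SS, sub_zero]; exact hu) (fun x hx => Or.inl (h.KS hx))
      (hu.mono fun x hx => hx.2) (LZ.zero _)
    rw [sub_zero] at h2
    refine ⟨c, h3, LZ.union ?_ (h2.dd one), h1, h2⟩
    have h4 := h1.dd one
    rw [dd_sub, axcls_dd_smulC] at h4
    exact LZ.congr h4 (axcls_LZ_smulC (h.uS.2.1 j) _)
  choose U h1 h2 h3 h4 using key
  exact ⟨U, h1, h2, h3, h4⟩

theorem ax_cls (h : Geo3 K S R g u k α β) {V : Coch E3 LR 1} (hV : LZ K V)
    (hc : LZ (S ∪ rho3 ⁻¹' S) (dd one V)) : ∃ a b : Fin 2 → LR,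
      Cob one S K (V - ∑ j, smulC (u j) (a j)) ∧
      Cob one (rho3 ⁻¹' S) K (V - ∑ j, smulC (pb rho3 (u j)) (b j)) := by
  obtain ⟨a, ha⟩ := rel_H1 h.KS h.uS h.uK h.kK
    (φ := V) ⟨hV, hc.mono fun x hx => Or.inl hx⟩
  have hc2 : LZ S (dd one (pb rho3 V)) := by
    have e : dd one (pb rho3 V) = pb rho3 (dd one V) := dd_pb rho3 one V
    rw [e]
    exact hc.pb fun x hx => ⟨rho3_cont.continuousAt, Or.inr (axcls_toS x hx)⟩
  obtain ⟨b, hb⟩ := rel_H1 h.KS h.uS h.uK h.kK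
    (φ := pb rho3 V) ⟨axcls_lzK h hV, hc2⟩
  refine ⟨a, b, ha, ?_⟩
  have h3 := axcls_cobpb h hb
  rwa [axcls_pbsum, axcls_pbpb] at h3

theorem ax_g (h : Geo3 K S R g u k α β) (i : Fin 2) :
    Cob one S K (smulC (g i) (1 : LR) - ∑ j, smulC (u j) ((α i j : ℤ) : LR)) ∧
    Cob one (rho3 ⁻¹' S) K
      (smulC (g i) (1 : LR) - ∑ j, smulC (pb rho3 (u j)) ((β i j : ℤ) : LR)) := by
  refine ⟨(axcls_core h (h.gK i) (h.hα i)).1, ?_⟩
  have h1 := (axcls_core h (axcls_lzK h (h.gK i)) (h.hβ i)).2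
  rwa [axcls_pbpb] at h1

theorem ax_g' (h : Geo3 K S R g u k α β) (i : Fin 2) :
    Cob one S K (smulC (pb rho3 (g i)) (1 : LR) - ∑ j, smulC (u j) ((β i j : ℤ) : LR)) ∧
    Cob one (rho3 ⁻¹' S) K
      (smulC (pb rho3 (g i)) (1 : LR) - ∑ j, smulC (pb rho3 (u j)) ((α i j : ℤ) : LR)) :=
  ⟨(axcls_core h (axcls_lzK h (h.gK i)) (h.hβ i)).1, (axcls_core h (h.gK i) (h.hα i)).2⟩

end PoolFbd
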