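import Pool.Agent.Work.MP_fbd21a_gt.Basic

/-! The fundamental group of a path connected Euclidean neighbourhood retract through germs of group
valued cocycles. -/

open Topology Filter Set

namespace PoolFbd

/-- Euclidean neighbourhood retract data for `X`. -/
structure Enr {X E : Type} [TopologicalSpace X] [NormedAddCommGroup E] [NormedSpace ℝ E]
    (i : X → E) (q : E → X) (U : Set E) : Prop where
  ci : Continuous i
  oU : IsOpen U
  iU : ∀ x, i x ∈ U
  cq : ContinuousOn q U
  qi : ∀ x, q (i x) = x

/-- Additive cocycles near `S`. -/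
def IsAd {X : Type*} [TopologicalSpace X] (S : Set X) (n : X → X → ℤ) : Prop :=
  ∀ x ∈ S, ∀ᶠ t in 𝓝 (fun _ : Fin 3 => x), n (t 0) (t 1) + n (t 1) (t 2) = n (t 0) (t 2)

/-- Products along a chain of points. -/
def chP {X G : Type*} [Group G] (g : X → X → G) (c : ℕ → X) : ℕ → G
  | 0 => 1
  | n + 1 => chP g c n * g (c n) (c (n + 1))

/-- A group valued cocycle `g` on `X` which describes the group `G` as the fundamental group of
`X` based at `x₀`. -/
structure PCo {X G : Type} [TopologicalSpace X] [Group G] (x₀ : X) (g : X → X → G) : Prop where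
  coc : IsTw univ g
  chain : ∀ W : X → X → Prop, (∀ x, ∀ᶠ t in 𝓝 (fun _ : Fin 2 => x), W (t 0) (t 1)) →
    ∀ γ : G, ∃ (n : ℕ) (c : ℕ → X), c 0 = x₀ ∧ c n = x₀ ∧ (∀ i < n, W (c i) (c (i + 1))) ∧
      γ = chP g c n
  lift : ∀ n : X → X → ℤ, IsAd univ n → ∃ (l : G →* Multiplicative ℤ) (s : X → ℤ),
    ∀ x, ∀ᶠ t in 𝓝 (fun _ : Fin 2 => x),
      Multiplicative.toAdd (l (g (t 0) (t 1))) = n (t 0) (t 1) + s (t 1) - s (t 0)

section
variable {X E : Type} [TopologicalSpace X] [PathConnectedSpace X] [NormedAddCommGroup E]
  [NormedSpace ℝ E] {i : X → E} {q : E → X} {U : Set E}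

open Classical in
/-- The image of the straight segment if possible. -/
noncomputable def segP (h : Enr i q U) (x y : X) : Path x y :=
  if hs : ∀ t : unitInterval, AffineMap.lineMap (i x) (i y) (t : ℝ) ∈ U then
    { toFun := fun t => q (AffineMap.lineMap (i x) (i y) (t : ℝ))
      continuous_toFun := by
        have h1 : Continuous fun t : unitInterval =>
            (AffineMap.lineMap (i x) (i y) (t : ℝ) : E) := by
          simp only [AffineMap.lineMap_apply]
          fun_prop
        exact h.cq.comp_continuous h1 hs
      source' := by simp [h.qi]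
      target' := by simp [h.qi] }
  else PathConnectedSpace.somePath x y

open Classical in
/-- Paths from the base point. -/
noncomputable def bpP (x₀ x : X) : Path x₀ x :=
  if h : x = x₀ then (Path.refl x₀).cast rfl h else PathConnectedSpace.somePath x₀ x

/-- The cocycle: from the base point to `y`, straight to `x`, back to the base point. -/
noncomputable def gPC (h : Enr i q U) (x₀ x y : X) : FundamentalGroup X x₀ :=
  FundamentalGroup.fromPath (Path.Homotopic.Quotient.mk
    (((bpP x₀ y).trans (segP h y x)).trans (bpP x₀ x).symm))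

end

end PoolFbd
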