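import Pool.Agent.Work.MP_fbd21a_gt.GeoDefs
import Pool.Agent.Work.MP_fbd21a_gt.PiDefs

/-! Definitions for the infinite cyclic cover of the knot complement. -/

open Topology Filter Set LaurentPolynomial

namespace PoolFbd

/-- Rational Laurent polynomials. -/
abbrev LR := LaurentPolynomial ℚ

/-- Two-sided rational sequences; `T` acts by the shift. -/
def DZ := ℤ → ℚ

noncomputable instance : AddCommGroup DZ := inferInstanceAs (AddCommGroup (ℤ → ℚ))

noncomputable instance : Module ℚ DZ := inferInstanceAs (Module ℚ (ℤ → ℚ))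

/-- The shift. -/
noncomputable def shf (n : ℤ) : DZ →ₗ[ℚ] DZ where
  toFun f := fun k : ℤ => (f (k + n) : ℚ)
  map_add' f f' := rfl
  map_smul' c f := rfl

/-- The shifts as a representation of the integers. -/
noncomputable def shfHom : Multiplicative ℤ →* Module.End ℚ DZ where
  toFun n := shf n.toAdd
  map_one' := by
    refine LinearMap.ext fun f => ?_
    funext k
    show f (k + 0) = f k
    rw [add_zero]
  map_mul' a b := by
    refine LinearMap.ext fun f => ?_
    funext k
    show f (k + (a.toAdd + b.toAdd)) = f (k + a.toAdd + b.toAdd)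
    rw [add_assoc]

/-- The action of Laurent polynomials on sequences. -/
noncomputable def actL : LR →ₐ[ℚ] Module.End ℚ DZ := AddMonoidAlgebra.lift ℚ _ ℤ shfHom

noncomputable instance : Module LR DZ := Module.compHom DZ actL.toRingHom

/-- The unit `T ^ n`. -/
noncomputable def tU (n : ℤ) : LRˣ where
  val := T n
  inv := T (-n)
  val_inv := by rw [← T_add, add_neg_cancel, T_zero]
  inv_val := by rw [← T_add, neg_add_cancel, T_zero]

open Classical in
/-- Indicator of the region `R \ rho3 S`. -/
noncomputable def nuR (S R : Set E3) : E3 → ℤ := fun x => if x ∈ R ∧ rho3 x ∉ S then 1 else 0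

open Classical in
/-- The crossing number with `S`. -/
noncomputable def nS (S R : Set E3) : E3 → E3 → ℤ :=
  fun x y => if x ∈ nearS S then nuR S R x - nuR S R y else 0

/-- The crossing number as a cochain. -/
noncomputable def nC (S R : Set E3) : Coch E3 ℤ 1 := fun t => nS S R (t 0) (t 1)

open Classical in
/-- Potential of the crossing number near `R`. -/
noncomputable def bR (S R : Set E3) : E3 → ℤ := fun x => if x ∈ nearS S then 1 - nuR S R x else 0

open Classical in
/-- Potential of the crossing number near `rho3 R`. -/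
noncomputable def bR' (S R : Set E3) : E3 → ℤ := fun x => if x ∈ nearS S then - nuR S R x else 0

/-- The local system of the infinite cyclic cover. -/
noncomputable def tT (S R : Set E3) : E3 → E3 → LRˣ := fun x y => tU (nS S R x y)

/-- Trivialisation of the inverse of `tT` near `R`. -/
noncomputable def sR (S R : Set E3) : E3 → LRˣ := fun x => tU (-(bR S R x))

/-- Trivialisation of the inverse of `tT` near `rho3 R`. -/
noncomputable def sR' (S R : Set E3) : E3 → LRˣ := fun x => tU (-(bR' S R x))

/-- `Z` is the image of the class `V` of `(S ∪ rho3 S, K)` under the connecting map. -/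
def ZRep (K S R : Set E3) (V : Coch E3 LR 1) (Z : Coch E3 LR 2) : Prop :=
  LZ K Z ∧ LZ R (gau (sR S R) Z - dd one V) ∧ LZ (rho3 ⁻¹' R) Z

/-- Identification of a space `X` with the complement of `K`. -/
structure CEmb {X : Type} [TopologicalSpace X] (K : Set E3) (ι : X → E3) (κ : E3 → X) :
    Prop where
  ci : Continuous ι
  iK : ∀ x, ι x ∉ K
  ck : ∀ x ∉ K, ContinuousAt κ x
  ki : ∀ x, κ (ι x) = x
  ik : ∀ x ∉ K, ι (κ x) = x

/-- A normalised path cocycle: `l` is the abelianisation, `m` a meridian, and `l ∘ g` is the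
given integral cocycle `n`. -/
structure NCo {X G : Type} [TopologicalSpace X] [Group G] (x₀ : X) (n : X → X → ℤ)
    (g : X → X → G) (l : G →* Multiplicative ℤ) (m : G) : Prop where
  ker : l.ker = commutator G
  lm : l m = Multiplicative.ofAdd 1
  coc : IsTw univ g
  chain : ∀ W : X → X → Prop, (∀ x, ∀ᶠ t in 𝓝 (fun _ : Fin 2 => x), W (t 0) (t 1)) →
    ∀ γ : G, ∃ (N : ℕ) (c : ℕ → X), c 0 = x₀ ∧ c N = x₀ ∧ (∀ i < N, W (c i) (c (i + 1))) ∧
      γ = chP g c N
  ln : ∀ x, ∀ᶠ t in 𝓝 (fun _ : Fin 2 => x),
    Multiplicative.toAdd (l (g (t 0) (t 1))) = n (t 0) (t 1)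

open Classical in
/-- The twisted cocycle of a homomorphism from the commutator subgroup to `ℚ`. -/
noncomputable def zC {X G : Type} [Group G] (g : X → X → G) (l : G →* Multiplicative ℤ) (m : G)
    (χ : Additive (commutator G) →+ ℚ) : Coch X DZ 1 := fun t => fun k : ℤ =>
  if hk : m ^ k * g (t 0) (t 1) * m ^ (-(k + Multiplicative.toAdd (l (g (t 0) (t 1))))) ∈
      commutator G then χ (Additive.ofMul ⟨_, hk⟩) else 0

end PoolFbd
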