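import Pool.Agent.Work.MP_fbd21a_gt.AxCls
import Pool.Agent.Work.MP_fbd21a_gt.Arith
import Pool.Agent.Work.MP_fbd21a_gt.Pd3

/-! MODULE AxFun. Two rational numbers determine a twisted class of degree one.
U j from ax_uh, Z j represents U j (zr_exists), Z' j represents pb rho3 (U j) (near S' it is smulC (pb rho3 (u j)) 1, near S
it is zero). For a twisted cocycle a put x j = Itg3 (cup (Z j) a), y j = Itg3 (cup (Z' j) a) in DZ.
ax_val: if Z₀ represents V, V ~ Σ smulC (u j) (a j) on (S, K) and ~ Σ smulC (pb rho3 (u j)) (b j) on (S', K), then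
Z₀ - Σ a j Z j - Σ b j Z' j represents V - Σ a j U j - Σ b j pb rho3 (U j), a coboundary of (S ∪ S', K) (glue the potentials,
both zero near K = S ∩ S'), so by zr_cob it is a relative coboundary and Itg3 (cup Z₀ a) = Σ a j • x j + Σ b j • y j
(cup_cob_left, itg3_cob, itg3_add, itg3_smul, cup_coc, zr_coc).
RELATIONS: W = smulC (g i) 1 = V: zr_R and ax_g: (1) Σ α i j x j + β i j y j = 0. W = smulC (pb rho3 (g i)) 1, V = glue of
T(-1) • W (near S) and W (near S'): zr_R', ax_g': (2) Σ (T(-1) β i j) x j + α i j y j = 0. In coordinates k (t_smul,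
int_smul): Σ α i j x_j(k) + β i j y_j(k) = 0 and Σ β i j x_j(k-1) + α i j y_j(k) = 0. With alM = (-1,5;-4,11),
beM = (-2,5;-3,12) (determinants 9 and -9): y(k) = 0 gives x(k) = 0 by (1) and then y(k+1) = 0 by (2); y(k) = 0 gives
x(k-1) = 0 by (2) and then y(k-1) = 0 by (1). So y(0) = 0 implies x = y = 0 (Int.induction_on). By zr_gen, ax_cls and
ax_val all pairings vanish: pinj3 with baer_dz. -/

open Topology Filter Set LaurentPolynomial

namespace PoolFbd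

variable {K S R : Set E3} {g u : Fin 2 → Coch E3 ℤ 1} {k : Coch E3 ℤ 1}

theorem ax_rec {x y : Fin 2 → ℤ → ℚ}
    (h1 : ∀ i k, ∑ j, ((alM i j : ℚ) * x j k + (beM i j : ℚ) * y j k) = 0)
    (h2 : ∀ i k, ∑ j, ((beM i j : ℚ) * x j (k - 1) + (alM i j : ℚ) * y j k) = 0)
    (h0 : ∀ j, y j 0 = 0) : ∀ j k, x j k = 0 ∧ y j k = 0 := by
  have a0 : ∀ k, -x 0 k + 5 * x 1 k - 2 * y 0 k + 5 * y 1 k = 0 := fun k => by
    have h3 := h1 0 k
    rw [Fin.sum_univ_two] at h3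
    simp only [alM, beM] at h3
    norm_num at h3
    linarith
  have a1 : ∀ k, -4 * x 0 k + 11 * x 1 k - 3 * y 0 k + 12 * y 1 k = 0 := fun k => by
    have h3 := h1 1 k
    rw [Fin.sum_univ_two] at h3
    simp only [alM, beM] at h3
    norm_num at h3
    linarith
  have b0 : ∀ k, -2 * x 0 (k - 1) + 5 * x 1 (k - 1) - y 0 k + 5 * y 1 k = 0 := fun k => by
    have h3 := h2 0 k
    rw [Fin.sum_univ_two] at h3
    simp only [alM, beM] at h3
    norm_num at h3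
    linarith
  have b1 : ∀ k, -3 * x 0 (k - 1) + 12 * x 1 (k - 1) - 4 * y 0 k + 11 * y 1 k = 0 := fun k => by
    have h3 := h2 1 k
    rw [Fin.sum_univ_two] at h3
    simp only [alM, beM] at h3
    norm_num at h3
    linarith
  have cA : ∀ k, y 0 k = 0 ∧ y 1 k = 0 → x 0 k = 0 ∧ x 1 k = 0 := fun k hk => by
    have e0 := a0 k
    have e1 := a1 k
    rw [hk.1, hk.2] at e0 e1
    constructor <;> linarith
  have cB : ∀ k, y 0 k = 0 ∧ y 1 k = 0 → x 0 (k - 1) = 0 ∧ x 1 (k - 1) = 0 := fun k hk => by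
    have e0 := b0 k
    have e1 := b1 k
    rw [hk.1, hk.2] at e0 e1
    constructor <;> linarith
  have cC : ∀ k, x 0 (k - 1) = 0 ∧ x 1 (k - 1) = 0 → y 0 k = 0 ∧ y 1 k = 0 := fun k hk => by
    have e0 := b0 k
    have e1 := b1 k
    rw [hk.1, hk.2] at e0 e1
    constructor <;> linarith
  have cD : ∀ k, x 0 k = 0 ∧ x 1 k = 0 → y 0 k = 0 ∧ y 1 k = 0 := fun k hk => by
    have e0 := a0 k
    have e1 := a1 k
    rw [hk.1, hk.2] at e0 e1
    constructor <;> linarith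
  have hy : ∀ k : ℤ, y 0 k = 0 ∧ y 1 k = 0 := by
    intro k
    induction k using Int.induction_on with
    | zero => exact ⟨h0 0, h0 1⟩
    | succ i ih =>
      apply cC
      rw [add_sub_cancel_right]
      exact cA _ ih
    | pred i ih =>
      apply cD
      exact cB _ ih
  intro j k
  fin_cases j
  · exact ⟨(cA k (hy k)).1, (hy k).1⟩
  · exact ⟨(cA k (hy k)).2, (hy k).2⟩

private theorem af_pb' {A : Type} [AddCommGroup A] {T : Set E3} {n : ℕ} {φ : Coch E3 A n}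
    (h : LZ T φ) : LZ (rho3 ⁻¹' T) (pb rho3 φ) :=
  LZ.pb (fun _ hx => ⟨rho3_cont.continuousAt, hx⟩) h

private theorem af_pb {A : Type} [AddCommGroup A] {T : Set E3} {n : ℕ} {φ : Coch E3 A n}
    (h : LZ (rho3 ⁻¹' T) φ) : LZ T (pb rho3 φ) :=
  LZ.pb (fun x hx => ⟨rho3_cont.continuousAt, by
    show rho3 (rho3 x) ∈ T
    rwa [rho3_rho3]⟩) h

private theorem af_dd {A : Type} [AddCommGroup A] {n : ℕ} (φ : Coch E3 A n) :
    pb rho3 (dd one φ) = dd one (pb rho3 φ) := (dd_pb rho3 one φ).symm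

private theorem af_ddsmul {A : Type} [AddCommGroup A] {n : ℕ} (g : Coch E3 ℤ n) (a : A) :
    dd one (smulC g a) = smulC (dd one g) a := by
  funext t
  show (one (t 0) (t 1) : ℤˣ) • (g (fun j => t j.succ) • a) +
      ∑ i : Fin (n + 1), (-1 : ℤ) ^ ((i : ℕ) + 1) • (g (fun j => t (i.succ.succAbove j)) • a) =
    ((one (t 0) (t 1) : ℤˣ) • g (fun j => t j.succ) +
      ∑ i : Fin (n + 1), (-1 : ℤ) ^ ((i : ℕ) + 1) • g (fun j => t (i.succ.succAbove j))) • a
  rw [add_smul, Finset.sum_smul]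
  congr 1
  · simp [one]
  · exact Finset.sum_congr rfl fun i _ => by rw [smul_assoc]

private theorem af_smulC {A : Type} [AddCommGroup A] {T : Set E3} {n : ℕ} {g : Coch E3 ℤ n}
    (h : LZ T g) (a : A) : LZ T (smulC g a) := fun x hx => by
  filter_upwards [h x hx] with t ht
  show g t • a = 0
  rw [ht, zero_smul]

/-- The pairing with `a`. -/
private noncomputable def pr (S R : Set E3) (a : Coch E3 DZ 1) (Z : Coch E3 LR 2) : DZ :=
  Itg3 (cup (R := LR) (rfl : 2 + 1 = 3) (tT S R) Z a)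

section
variable {α β : Matrix (Fin 2) (Fin 2) ℤ} {a : Coch E3 DZ 1} {Z Z' : Coch E3 LR 2}

private theorem pr_tw (h : Geo3 K S R g u k α β) : IsTw (univ \ K) (tT S R) :=
  (tt_tw h).mono fun _ hx => hx.2

private theorem pr_coc (h : Geo3 K S R g u k α β) (ha : LZ Kᶜ (dd (tT S R) a))
    (hZ : Coc (invt (tT S R)) univ K Z) :
    LZ univ (dd one (cup (R := LR) (rfl : 2 + 1 = 3) (tT S R) Z a)) :=
  (cup_coc (R := LR) (D := DZ) (rfl : 2 + 1 = 3) (pr_tw h) hZ (ha.mono fun _ hx => hx.2)).2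

private theorem pr_add (h : Geo3 K S R g u k α β) (ha : LZ Kᶜ (dd (tT S R) a))
    (hZ : Coc (invt (tT S R)) univ K Z) (hZ' : Coc (invt (tT S R)) univ K Z') :
    pr S R a (Z + Z') = pr S R a Z + pr S R a Z' := by
  unfold pr
  rw [cup_add_left]
  exact itg3_add (pr_coc h ha hZ) (pr_coc h ha hZ')

private theorem pr_sub (h : Geo3 K S R g u k α β) (ha : LZ Kᶜ (dd (tT S R) a))
    (hZ : Coc (invt (tT S R)) univ K Z) (hZ' : Coc (invt (tT S R)) univ K Z') :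
    pr S R a (Z - Z') = pr S R a Z - pr S R a Z' := by
  unfold pr
  rw [cup_sub_left]
  exact itg3_sub (pr_coc h ha hZ) (pr_coc h ha hZ')

private theorem pr_smul (h : Geo3 K S R g u k α β) (ha : LZ Kᶜ (dd (tT S R) a))
    (c : LR) (hZ : Coc (invt (tT S R)) univ K Z) :
    pr S R a (c • Z) = c • pr S R a Z := by
  unfold pr
  rw [cup_smul_left]
  exact itg3_smul (R := LR) c (pr_coc h ha hZ)

private theorem pr_cob (h : Geo3 K S R g u k α β) (ha : LZ Kᶜ (dd (tT S R) a))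
    (hZ : Coc (invt (tT S R)) univ K Z) (hc : Cob (invt (tT S R)) univ K Z) :
    pr S R a Z = 0 := by
  unfold pr
  exact itg3_cob ((cup_cob_left (R := LR) (D := DZ) (rfl : 2 + 1 = 3) (pr_tw h) hc hZ.1
    (ha.mono fun _ hx => hx.2)).mono (subset_refl _) (empty_subset K))

end

section
variable {α β : Matrix (Fin 2) (Fin 2) ℤ} {U : Fin 2 → Coch E3 LR 1} {Z Z' : Fin 2 → Coch E3 LR 2}

private theorem af_smulcoc (c : LR) {Z : Coch E3 LR 2} (hZ : ∃ V, ZRep K S R V Z)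
    (h : Geo3 K S R g u k α β) : Coc (invt (tT S R)) univ K (c • Z) := by
  obtain ⟨V, hV⟩ := hZ
  exact zr_coc h (zr_smul c hV)

private theorem ax_val (h : Geo3 K S R g u k α β) {a : Coch E3 DZ 1}
    (ha : LZ Kᶜ (dd (tT S R) a))
    (hUK : ∀ j, LZ K (U j))
    (hUS : ∀ j, LZ S (U j - smulC (u j) (1 : LR))) (hUS' : ∀ j, LZ (rho3 ⁻¹' S) (U j))
    (hZ : ∀ j, ZRep K S R (U j) (Z j)) (hZ' : ∀ j, ZRep K S R (pb rho3 (U j)) (Z' j))
    {V : Coch E3 LR 1} {Z₀ : Coch E3 LR 2} {c d : Fin 2 → LR} (hV : LZ K V)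
    (h1 : Cob one S K (V - ∑ j, smulC (u j) (c j)))
    (h2 : Cob one (rho3 ⁻¹' S) K (V - ∑ j, smulC (pb rho3 (u j)) (d j)))
    (hZ₀ : ZRep K S R V Z₀) :
    pr S R a Z₀ = ∑ j, (c j • pr S R a (Z j) + d j • pr S R a (Z' j)) := by
  have hU'K : ∀ j, LZ K (pb rho3 (U j)) := fun j =>
    (hUK j).pb fun x hx => ⟨rho3_cont.continuousAt, (geo_memK h x).1 hx⟩
  have hsm : ∀ (e : LR) (w : Coch E3 ℤ 1), e • smulC w (1 : LR) = smulC w e := by
    intro e w
    funext t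
    show e * (w t • (1 : LR)) = w t • e
    rw [mul_smul_comm, mul_one]
  have hN : ∀ j : Fin 2, ZRep K S R (c j • U j + d j • pb rho3 (U j)) (c j • Z j + d j • Z' j) :=
    fun j => zr_add (zr_smul _ (hZ j)) (zr_smul _ (hZ' j))
  have hNK : ∀ j : Fin 2, LZ K (c j • U j + d j • pb rho3 (U j)) := fun j =>
    (axr_smul _ (hUK j)).add (axr_smul _ (hU'K j))
  have hNS : ∀ j : Fin 2, LZ S (smulC (u j) (c j) - (c j • U j + d j • pb rho3 (U j))) := by
    intro j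
    have h3 : LZ S (pb rho3 (U j)) := af_pb (hUS' j)
    have h4 := axr_smul (c j) (hUS j)
    rw [smul_sub, hsm] at h4
    exact axr_eq (h4.add (axr_smul (d j) h3)).neg (by abel)
  have hNS' : ∀ j : Fin 2, LZ (rho3 ⁻¹' S)
      (smulC (pb rho3 (u j)) (d j) - (c j • U j + d j • pb rho3 (U j))) := by
    intro j
    have h3 : LZ (rho3 ⁻¹' S) (pb rho3 (U j) - smulC (pb rho3 (u j)) (1 : LR)) := af_pb' (hUS j)
    have h4 := axr_smul (d j) h3
    rw [smul_sub, hsm] at h4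
    exact axr_eq (h4.add (axr_smul (c j) (hUS' j))).neg (by abel)
  rw [Fin.sum_univ_two] at h1 h2 ⊢
  have hM := zr_sub hZ₀ (zr_add (hN 0) (hN 1))
  have hc1 : Cob one S K (V - (c 0 • U 0 + d 0 • pb rho3 (U 0) +
      (c 1 • U 1 + d 1 • pb rho3 (U 1)))) := by
    refine Cob.trans (G := ℤˣ) h1 (Cob.of_LZ ?_)
    exact axr_eq ((hNS 0).add (hNS 1)) (by abel)
  have hc2 : Cob one (rho3 ⁻¹' S) K (V - (c 0 • U 0 + d 0 • pb rho3 (U 0) +
      (c 1 • U 1 + d 1 • pb rho3 (U 1)))) := by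
    refine Cob.trans (G := ℤˣ) h2 (Cob.of_LZ ?_)
    exact axr_eq ((hNS' 0).add (hNS' 1)) (by abel)
  have hcob := zr_cob h (hV.sub ((hNK 0).add (hNK 1))) (axr_cobU h hc1 hc2) hM
  have h3 := pr_cob h ha (zr_coc h hM) hcob
  rw [pr_sub h ha (zr_coc h hZ₀) (zr_coc h (zr_add (hN 0) (hN 1))),
    pr_add h ha (zr_coc h (hN 0)) (zr_coc h (hN 1)),
    pr_add h ha (af_smulcoc _ ⟨_, hZ 0⟩ h) (af_smulcoc _ ⟨_, hZ' 0⟩ h),
    pr_add h ha (af_smulcoc _ ⟨_, hZ 1⟩ h) (af_smulcoc _ ⟨_, hZ' 1⟩ h),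
    pr_smul h ha _ (zr_coc h (hZ 0)), pr_smul h ha _ (zr_coc h (hZ' 0)),
    pr_smul h ha _ (zr_coc h (hZ 1)), pr_smul h ha _ (zr_coc h (hZ' 1))] at h3
  exact sub_eq_zero.1 h3

private theorem af_cocg (h : Geo3 K S R g u k α β) (i : Fin 2) :
    LZ R (dd one (smulC (g i) (1 : LR))) := by
  rw [af_ddsmul]
  exact af_smulC (h.gR.2.1 i) 1

private theorem af_cocg' (h : Geo3 K S R g u k α β) (i : Fin 2) :
    LZ (rho3 ⁻¹' R) (dd one (smulC (pb rho3 (g i)) (1 : LR))) := by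
  rw [af_ddsmul, ← af_dd]
  exact af_smulC (af_pb' (h.gR.2.1 i)) 1

end

private theorem af_coord (c : ℤ) (x : DZ) (k : ℤ) :
    (((T (-1) : LR) * ((c : ℤ) : LR)) • x : DZ) k = (c : ℚ) * x (k - 1) := by
  rw [mul_smul, t_smul, int_smul]
  rfl

theorem ax_fun (h : Geo3 K S R g u k alM beM) : ∃ Z : Fin 2 → Coch E3 LR 2,
    (∀ j, Coc (invt (tT S R)) univ K (Z j)) ∧
    ∀ a : Coch E3 DZ 1, LZ Kᶜ (dd (tT S R) a) →
      (∀ j, (Itg3 (cup (rfl : 2 + 1 = 3) (tT S R) (Z j) a) : DZ) 0 = 0) →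
      Cob (tT S R) Kᶜ ∅ a := by
  have hSR' : S ⊆ rho3 ⁻¹' R := fun x hx => h.S'R (by
    show rho3 (rho3 x) ∈ S
    rwa [rho3_rho3])
  have hS'R' : rho3 ⁻¹' S ⊆ rho3 ⁻¹' R := fun x hx => h.SR hx
  have hsub : S ∪ rho3 ⁻¹' S ⊆ R := union_subset h.SR h.S'R
  obtain ⟨U, hUK, hUc, hUS, hUS'⟩ := ax_uh h
  have hU'K : ∀ j, LZ K (pb rho3 (U j)) := fun j =>
    (hUK j).pb fun x hx => ⟨rho3_cont.continuousAt, (geo_memK h x).1 hx⟩
  have hU'c : ∀ j, LZ (S ∪ rho3 ⁻¹' S) (dd one (pb rho3 (U j))) := by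
    intro j
    rw [← af_dd]
    refine LZ.union (af_pb ((hUc j).mono subset_union_right))
      (af_pb' ((hUc j).mono subset_union_left))
  choose Z hZ using fun j => zr_exists h (hUK j) (hUc j)
  choose Z' hZ' using fun j => zr_exists h (hU'K j) (hU'c j)
  refine ⟨Z', fun j => zr_coc h (hZ' j), ?_⟩
  intro a ha h0
  have hrel1 : ∀ i, (0 : DZ) = ∑ j, (((alM i j : ℤ) : LR) • pr S R a (Z j) +
      ((beM i j : ℤ) : LR) • pr S R a (Z' j)) := by
    intro i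
    have hWK : LZ K (smulC (g i) (1 : LR)) := af_smulC (h.gK i) 1
    have hWc := af_cocg h i
    obtain ⟨Z₀, hZ₀⟩ := zr_exists h hWK (hWc.mono hsub)
    have h1 := zr_R h hWK hWK hWc (by rw [sub_self]; exact Cob.zero (G := ℤˣ) _ _ _) hZ₀
    have h2 := ax_val h ha hUK hUS hUS' hZ hZ' hWK (ax_g h i).1 (ax_g h i).2 hZ₀
    rw [pr_cob h ha (zr_coc h hZ₀) h1] at h2
    exact h2
  have hrel2 : ∀ i, (0 : DZ) = ∑ j, (((T (-1) : LR) * ((beM i j : ℤ) : LR)) • pr S R a (Z j) +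
      ((alM i j : ℤ) : LR) • pr S R a (Z' j)) := by
    intro i
    set W : Coch E3 LR 1 := smulC (pb rho3 (g i)) (1 : LR) with hW
    have hWK : LZ K W := af_smulC ((h.gK i).pb fun x hx =>
      ⟨rho3_cont.continuousAt, (geo_memK h x).1 hx⟩) 1
    have hWc : LZ (rho3 ⁻¹' R) (dd one W) := af_cocg' h i
    obtain ⟨V, hV1, hV2⟩ := glue (Sepd.closed h.cS (isd_cS' h)) ((T (-1) : LR) • W) W (by
      rw [h.SS]
      exact (axr_smul _ hWK).sub hWK)
    have hVK : LZ K V := LZ.congr (hV2.mono (geo_KS' h)) hWK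
    have hVc : LZ (S ∪ rho3 ⁻¹' S) (dd one V) := by
      refine LZ.union ?_ ?_
      · have h1 : LZ S (dd one (V - (T (-1) : LR) • W)) := LZ.dd (G := ℤˣ) hV1 one
        rw [dd_sub, axr_dd_smul] at h1
        exact LZ.congr h1 (axr_smul _ (hWc.mono hSR'))
      · have h1 : LZ (rho3 ⁻¹' S) (dd one (V - W)) := LZ.dd (G := ℤˣ) hV2 one
        rw [dd_sub] at h1
        exact LZ.congr h1 (hWc.mono hS'R')
    obtain ⟨Z₀, hZ₀⟩ := zr_exists h hVK hVc
    have h1 := zr_R' h hVK hWK hWc (Cob.of_LZ (G := ℤˣ) hV1) (Cob.of_LZ (G := ℤˣ) hV2) hZ₀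
    have h3 : Cob one S K (V - ∑ j, smulC (u j) ((T (-1) : LR) * ((beM i j : ℤ) : LR))) := by
      obtain ⟨p, hp1, hp2⟩ := (ax_g' h i).1
      refine ⟨(T (-1) : LR) • p, axr_smul _ hp1, ?_⟩
      have h4 := axr_smul (T (-1)) hp2
      have h5 : (T (-1) : LR) • ∑ j, smulC (u j) ((beM i j : ℤ) : LR) =
          ∑ j, smulC (u j) ((T (-1) : LR) * ((beM i j : ℤ) : LR)) := by
        rw [Finset.smul_sum]
        refine Finset.sum_congr rfl fun j _ => ?_
        funext t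
        exact mul_smul_comm _ _ _
      rw [smul_sub, smul_sub, h5, ← axr_dd_smul] at h4
      exact axr_eq (hV1.add h4) (by abel)
    have h4 : Cob one (rho3 ⁻¹' S) K
        (V - ∑ j, smulC (pb rho3 (u j)) ((alM i j : ℤ) : LR)) :=
      Cob.trans (G := ℤˣ) (Cob.of_LZ (G := ℤˣ) hV2) (ax_g' h i).2
    have h2 := ax_val h ha hUK hUS hUS' hZ hZ' hVK h3 h4 hZ₀
    rw [pr_cob h ha (zr_coc h hZ₀) h1] at h2
    exact h2
  have hall := ax_rec (x := fun j k => (pr S R a (Z j) : DZ) k)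
    (y := fun j k => (pr S R a (Z' j) : DZ) k) (by
      intro i k
      have h1 := congrFun (hrel1 i) k
      rw [Fin.sum_univ_two] at h1 ⊢
      rw [dz_add, dz_add, dz_add, int_smul, int_smul, int_smul, int_smul] at h1
      exact h1.symm) (by
      intro i k
      have h1 := congrFun (hrel2 i) k
      rw [Fin.sum_univ_two] at h1 ⊢
      rw [dz_add, dz_add, dz_add, af_coord, af_coord, int_smul, int_smul] at h1
      exact h1.symm) h0
  have hx0 : ∀ j, pr S R a (Z j) = 0 := fun j => by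
    funext k
    exact (hall j k).1
  have hy0 : ∀ j, pr S R a (Z' j) = 0 := fun j => by
    funext k
    exact (hall j k).2
  refine pinj3 (R := LR) (D := DZ) baer_dz h.cK (tt_tw h) ha ?_
  intro x hx
  obtain ⟨V, Z₀, hVK, hVc, hZ₀, hc⟩ := zr_gen h hx
  obtain ⟨c, d, h1, h2⟩ := ax_cls h hVK hVc
  have h3 := ax_val h ha hUK hUS hUS' hZ hZ' hVK h1 h2 hZ₀
  rw [Fin.sum_univ_two, hx0, hx0, hy0, hy0, smul_zero, smul_zero, smul_zero, smul_zero,
    add_zero, add_zero] at h3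
  have h4 : Coc (invt (tT S R)) univ K (x - Z₀) := Coc.sub (G := LRˣ) hx (zr_coc h hZ₀)
  have h5 := pr_cob h ha h4 hc
  rw [pr_sub h ha hx (zr_coc h hZ₀), h3, sub_zero] at h5
  exact h5

end PoolFbd
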