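import Pool.Agent.Work.MP_fbd21a_gt.Ret
import Pool.Agent.Work.MP_fbd21a_gt.DdDd

/-! MODULE GrRel. Cohomology of the pair (S, K), K circle-like with class k, S graph-like with
classes u j vanishing near K, K ⊆ S. (H^1(S) → H^1(K) is zero.)
PROOFS. rel_H0: φ constant near S, zero near K which is nonempty. rel_H1: φ - Σ u_j v_j = dd ψ near S;
near K it vanishes, so ψ is constant there; subtract the constant. rel_H1u: forget Z.
rel_H2: φ = dd ψ near S; ψ is a cocycle near K, ψ - k·a = dd χ near K;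
φ - (dd k)·a = dd (ψ - k·a - dd χ) near S and ψ - k·a - dd χ vanishes near K.
rel_H2u: (dd k)·a = dd ψ near S, ψ zero near K. k·a - ψ is a cocycle near S, so it is
Σ u_j v_j + dd χ near S; near K this gives k·a = dd χ, so a = 0.
rel_H3: φ = dd ψ near S (degree 3 → Grph with n = 1), ψ is a 2-cocycle near K so ψ = dd χ near K;
φ = dd (ψ - dd χ). dd dd = 0: LZ_dd_dd (IsTw.one _). -/

open Topology Filter Set

namespace PoolFbd

variable {E : Type*} [TopologicalSpace E] {S K : Set E} {r : ℕ} {u : Fin r → Coch E ℤ 1}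
  {k : Coch E ℤ 1} {A : Type} [AddCommGroup A]

private theorem grel_dd_cst (a : A) : dd one (cst E 0 a) = (0 : Coch E A 1) := by
  funext t
  simp [dd, cst, one]

private theorem grel_dd_smulC {n : ℕ} (g : Coch E ℤ n) (a : A) :
    dd one (smulC g a) = smulC (dd one g) a := by
  funext t
  show (one (t 0) (t 1) : ℤˣ) • (g (fun j => t j.succ) • a) +
      ∑ i : Fin (n + 1), (-1 : ℤ) ^ ((i : ℕ) + 1) • (g (fun j => t (i.succ.succAbove j)) • a) =
    ((one (t 0) (t 1) : ℤˣ) • g (fun j => t j.succ) +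
      ∑ i : Fin (n + 1), (-1 : ℤ) ^ ((i : ℕ) + 1) • g (fun j => t (i.succ.succAbove j))) • a
  rw [add_smul, Finset.sum_smul]
  congr 1
  · simp [one]
  · exact Finset.sum_congr rfl fun i _ => by rw [smul_assoc]

private theorem grel_LZ_smulC {n : ℕ} {g : Coch E ℤ n} (h : LZ K g) (a : A) : LZ K (smulC g a) :=
  fun x hx => by
    filter_upwards [h x hx] with t ht
    simp [smulC, ht]

private theorem grel_LZ_sum {n : ℕ} {ι : Type*} (s : Finset ι) (f : ι → Coch E A n)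
    (h : ∀ i ∈ s, LZ K (f i)) : LZ K (∑ i ∈ s, f i) := by
  classical
  induction s using Finset.induction_on with
  | empty =>
    rw [Finset.sum_empty]
    exact LZ.zero K
  | insert i s hi ih =>
    rw [Finset.sum_insert hi]
    exact (h i (Finset.mem_insert_self i s)).add
      (ih fun j hj => h j (Finset.mem_insert_of_mem hj))

private theorem grel_sum_one {n : ℕ} (k : Coch E ℤ n) (v : Fin 1 → A) :
    (∑ i, smulC ((![k] : Fin 1 → Coch E ℤ n) i) (v i)) = smulC k (v 0) := by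
  simp

theorem rel_H0 (hKS : K ⊆ S) (hS : Grph S u) (hK : K.Nonempty) {φ : Coch E A 0}
    (hφ : Coc one S K φ) : LZ S φ := by
  obtain ⟨a, ha⟩ := ((hS.2.2 A).1) φ hφ.2
  obtain ⟨x, hx⟩ := hK
  have h1 : φ (fun _ => x) = 0 := (hφ.1 x hx).self_of_nhds
  have h2 : (φ - cst E 0 a) (fun _ => x) = 0 := (ha x (hKS hx)).self_of_nhds
  have h3 : a = 0 := by
    simp only [Pi.sub_apply, h1, cst, zero_sub, neg_eq_zero] at h2
    exact h2
  subst h3
  have : φ - cst E 0 0 = φ := by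
    funext t
    simp [cst]
  rwa [this] at ha

theorem rel_H1 (hKS : K ⊆ S) (hS : Grph S u) (hu : ∀ j, LZ K (u j)) (hK : Grph K ![k])
    {φ : Coch E A 1} (hφ : Coc one S K φ) :
    ∃ v : Fin r → A, Cob one S K (φ - ∑ j, smulC (u j) (v j)) := by
  obtain ⟨v, ψ, -, hψ⟩ := (hS.2.2 A).2.1 φ hφ.2
  have h1 : LZ K (∑ j, smulC (u j) (v j)) :=
    grel_LZ_sum _ _ fun j _ => grel_LZ_smulC (hu j) (v j)
  have h2 : LZ K (dd one ψ) := by
    have h3 := (hφ.1.sub h1).sub (hψ.mono hKS)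
    rwa [sub_sub_cancel] at h3
  obtain ⟨a, ha⟩ := (hK.2.2 A).1 ψ h2
  refine ⟨v, ψ - cst E 0 a, ha, ?_⟩
  rw [dd_sub, grel_dd_cst, sub_zero]
  exact hψ

theorem rel_H1u (hS : Grph S u) {v : Fin r → A}
    (h : Cob one S K (∑ j, smulC (u j) (v j))) : v = 0 :=
  (hS.2.2 A).2.2.1 v (h.mono (subset_refl S) (empty_subset K))

theorem rel_H2 (hKS : K ⊆ S) (hS : Grph S u) (hK : Grph K ![k])
    {φ : Coch E A 2} (hφ : Coc one S K φ) :
    ∃ a : A, Cob one S K (φ - smulC (dd one k) a) := by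
  obtain ⟨ψ, -, hψ⟩ := (hS.2.2 A).2.2.2 0 φ hφ.2
  have h2 : LZ K (dd one ψ) := by
    have h3 := hφ.1.sub (hψ.mono hKS)
    rwa [sub_sub_cancel] at h3
  obtain ⟨v, χ, -, hχ⟩ := (hK.2.2 A).2.1 ψ h2
  rw [grel_sum_one] at hχ
  refine ⟨v 0, ψ - smulC k (v 0) - dd one χ, hχ, ?_⟩
  rw [dd_sub, dd_sub, grel_dd_smulC]
  have h4 := hψ.add (LZ_dd_dd (IsTw.one S) χ)
  convert h4 using 1
  abel

theorem rel_H2u (hKS : K ⊆ S) (hS : Grph S u) (hu : ∀ j, LZ K (u j)) (hK : Grph K ![k])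
    {a : A} (h : Cob one S K (smulC (dd one k) a)) : a = 0 := by
  obtain ⟨ψ, hψK, hψ⟩ := h
  have h1 : LZ S (dd one (smulC k a - ψ)) := by
    rw [dd_sub, grel_dd_smulC]
    exact hψ
  obtain ⟨v, χ, -, hχ⟩ := (hS.2.2 A).2.1 _ h1
  have h2 : LZ K (∑ j, smulC (u j) (v j)) :=
    grel_LZ_sum _ _ fun j _ => grel_LZ_smulC (hu j) (v j)
  have h3 : LZ K (smulC k a - dd one χ) := by
    have h4 := ((hχ.mono hKS).add hψK).add h2
    convert h4 using 1
    abel
  have h5 : (fun _ : Fin 1 => a) = 0 := by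
    refine (hK.2.2 A).2.2.1 (fun _ => a) ?_
    rw [grel_sum_one]
    exact ⟨χ, LZ.empty χ, h3⟩
  exact congrFun h5 0

theorem rel_H3 (hKS : K ⊆ S) (hS : Grph S u) (hK : Grph K ![k])
    {φ : Coch E A 3} (hφ : Coc one S K φ) : Cob one S K φ := by
  obtain ⟨ψ, -, hψ⟩ := (hS.2.2 A).2.2.2 1 φ hφ.2
  have h2 : LZ K (dd one ψ) := by
    have h3 := hφ.1.sub (hψ.mono hKS)
    rwa [sub_sub_cancel] at h3
  obtain ⟨χ, -, hχ⟩ := (hK.2.2 A).2.2.2 0 ψ h2
  refine ⟨ψ - dd one χ, hχ, ?_⟩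
  rw [dd_sub]
  have h4 := hψ.add (LZ_dd_dd (IsTw.one S) χ)
  convert h4 using 1
  abel

end PoolFbd
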