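import Pool.Agent.Work.MP_fbd21a_gt.AxRep
import Pool.Agent.Work.MP_fbd21a_gt.GrRel

/-! MODULE AxGen. Every twisted relative 2-class of (E3, K) comes from a class of (S ∪ S', K).
Notation as in AxRep. coc_K: a cocycle A near S restricts to a coboundary near K (uS: A ~ Σ smulC (u j) (v j), and
uK: the u j vanish near K); the same for S' (pull back by rho3; rho3⁻¹ K = K).
zr_gen: x a relative 2-cocycle for τ'. gau σ x is a (trivially twisted) 2-cocycle near R (zr_dd), so gau σ x = dd one A near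
R (gR, degree 2). Near K: dd one A = 0 (x is zero near K), A = smulC k c + dd one w near K (kK); replace A by A - dd one w:
A = smulC k c near K. Similarly gau σ' x = dd one A' near R' (pull back by rho3 of gR), A' = smulC k c' near K.
Near S: gau σ x = T(-1) • gau σ' x (br_S; near K both vanish), so A - T(-1) • A' is a cocycle near S, near K it is
smulC k (c - T(-1) c'), a coboundary by coc_K, so c = T(-1) c' (kK, uniqueness). Near S': A - A' is a cocycle, c = c'. So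
c = T(-1) c, c = 0 (lr_dom), and A, A' vanish near K. φ' = gau σ'⁻¹ A' (zero near K), Z = x - dd τ' φ': near R'
gau σ' Z = dd one A' - dd one A' = 0; near R gau σ Z = dd one A - dd one (gau (σ σ'⁻¹) A') = dd one V with V = A - gau (σ σ'⁻¹) A'.
V is zero near K and a cocycle near S ∪ S' ⊆ R ∩ R' (gau σ Z is zero there). -/

open Topology Filter Set LaurentPolynomial

namespace PoolFbd

variable {K S R : Set E3} {g u : Fin 2 → Coch E3 ℤ 1} {k : Coch E3 ℤ 1}
  {α β : Matrix (Fin 2) (Fin 2) ℤ}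

private theorem ag_pb {A : Type} [AddCommGroup A] {T : Set E3} {n : ℕ} {φ : Coch E3 A n}
    (h : LZ (rho3 ⁻¹' T) φ) : LZ T (pb rho3 φ) :=
  LZ.pb (fun x hx => ⟨rho3_cont.continuousAt, by
    show rho3 (rho3 x) ∈ T
    rwa [rho3_rho3]⟩) h

private theorem ag_pb' {A : Type} [AddCommGroup A] {T : Set E3} {n : ℕ} {φ : Coch E3 A n}
    (h : LZ T φ) : LZ (rho3 ⁻¹' T) (pb rho3 φ) :=
  LZ.pb (fun _ hx => ⟨rho3_cont.continuousAt, hx⟩) h

private theorem ag_pbpb {A : Type} {n : ℕ} (φ : Coch E3 A n) : pb rho3 (pb rho3 φ) = φ := by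
  funext t
  show φ (fun j => rho3 (rho3 (t j))) = φ t
  congr 1
  funext j
  exact rho3_rho3 _

private theorem ag_dd {A : Type} [AddCommGroup A] {n : ℕ} (φ : Coch E3 A n) :
    pb rho3 (dd one φ) = dd one (pb rho3 φ) := (dd_pb rho3 one φ).symm

private theorem ag_sumz {A : Type} [AddCommGroup A] (h : Geo3 K S R g u k α β) (v : Fin 2 → A) :
    LZ K (∑ j, smulC (u j) (v j)) := by
  rw [Fin.sum_univ_two]
  refine LZ.add ?_ ?_
  · intro x hx
    filter_upwards [h.uK 0 x hx] with t ht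
    show u 0 t • v 0 = 0
    rw [ht, zero_smul]
  · intro x hx
    filter_upwards [h.uK 1 x hx] with t ht
    show u 1 t • v 1 = 0
    rw [ht, zero_smul]

private theorem ag_cocS (h : Geo3 K S R g u k α β) {A : Type} [AddCommGroup A] {φ : Coch E3 A 1}
    (hφ : LZ S (dd one φ)) : Cob one K ∅ φ := by
  obtain ⟨v, ψ, -, hψ⟩ := (h.uS.2.2 A).2.1 φ hφ
  refine ⟨ψ, LZ.empty _, ?_⟩
  exact axr_eq ((hψ.mono h.KS).add (ag_sumz h v)) (by abel)

theorem coc_K (h : Geo3 K S R g u k α β) {A : Type} [AddCommGroup A] {φ : Coch E3 A 1}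
    (hφ : LZ S (dd one φ) ∨ LZ (rho3 ⁻¹' S) (dd one φ)) : Cob one K ∅ φ := by
  rcases hφ with h1 | h1
  · exact ag_cocS h h1
  · have h2 : LZ S (dd one (pb rho3 φ)) := by
      rw [← ag_dd]
      exact ag_pb h1
    have h3 := ag_cocS h h2
    have h4 := Cob.pb (f := rho3) (S := K) (Z := (∅ : Set E3)) (S' := K) (Z' := (∅ : Set E3))
      (fun x hx => ⟨rho3_cont.continuousAt, (geo_memK h x).1 hx⟩) (fun _ hx => hx.elim) h3
    rw [ag_pbpb, pbt_one] at h4
    exact h4

private theorem ag_R (h : Geo3 K S R g u k α β) {Y : Coch E3 LR 2} (hY : LZ R (dd one Y)) :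
    ∃ A : Coch E3 LR 1, LZ R (Y - dd one A) := by
  obtain ⟨A, -, hA⟩ := (h.gR.2.2 LR).2.2.2 0 Y hY
  exact ⟨A, hA⟩

private theorem ag_R' (h : Geo3 K S R g u k α β) {Y : Coch E3 LR 2}
    (hY : LZ (rho3 ⁻¹' R) (dd one Y)) :
    ∃ A : Coch E3 LR 1, LZ (rho3 ⁻¹' R) (Y - dd one A) := by
  obtain ⟨A, hA⟩ := ag_R h (Y := pb rho3 Y) (by
    rw [← ag_dd]
    exact ag_pb hY)
  refine ⟨pb rho3 A, ?_⟩
  have h1 := ag_pb' hA
  have h2 : pb rho3 (pb rho3 Y - dd one A) = Y - dd one (pb rho3 A) := by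
    rw [← ag_dd]
    conv_rhs => rw [← ag_pbpb Y]
    rfl
  rwa [h2] at h1

private theorem ag_K (h : Geo3 K S R g u k α β) {A : Coch E3 LR 1} (hA : LZ K (dd one A)) :
    ∃ (w : Coch E3 LR 0) (c : LR), LZ K (A - dd one w - smulC k c) := by
  obtain ⟨v, w, -, hw⟩ := (h.kK.2.2 LR).2.1 A hA
  have hs : (∑ i, smulC ((![k] : Fin 1 → Coch E3 ℤ 1) i) (v i)) = smulC k (v 0) := by simp
  rw [hs] at hw
  refine ⟨w, v 0, ?_⟩
  rw [sub_right_comm]
  exact hw

private theorem ag_Ku (h : Geo3 K S R g u k α β) {c : LR} (hc : Cob one K ∅ (smulC k c)) :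
    c = 0 := by
  have h1 : (fun _ : Fin 1 => c) = 0 := by
    refine (h.kK.2.2 LR).2.2.1 (fun _ => c) ?_
    have hs : (∑ i, smulC ((![k] : Fin 1 → Coch E3 ℤ 1) i) ((fun _ : Fin 1 => c) i)) =
        smulC k c := by simp
    rw [hs]
    exact hc
  exact congrFun h1 0

private theorem ag_ddw {T : Set E3} {Y : Coch E3 LR 2} {A : Coch E3 LR 1} (w : Coch E3 LR 0)
    (hA : LZ T (Y - dd one A)) : LZ T (Y - dd one (A - dd one w)) := by
  rw [dd_sub]
  exact axr_eq (hA.add (LZ_dd_dd (G := ℤˣ) (IsTw.one T) w)) (by abel)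

theorem zr_gen (h : Geo3 K S R g u k α β) {x : Coch E3 LR 2}
    (hx : Coc (invt (tT S R)) univ K x) : ∃ (V : Coch E3 LR 1) (Z : Coch E3 LR 2),
      LZ K V ∧ LZ (S ∪ rho3 ⁻¹' S) (dd one V) ∧ ZRep K S R V Z ∧
      Cob (invt (tT S R)) univ K (x - Z) := by
  have hSR' : S ⊆ rho3 ⁻¹' R := fun x hx => h.S'R (by
    show rho3 (rho3 x) ∈ S
    rwa [rho3_rho3])
  have hS'R' : rho3 ⁻¹' S ⊆ rho3 ⁻¹' R := fun x hx => h.SR hx
  have hd : LZ R (dd one (gau (sR S R) x)) := by
    have h1 := axr_lzgau (hx.2.mono (subset_univ R)) (sR S R)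
    exact axr_eq (h1.sub (zr_dd h hx.1)) (by abel)
  have hd' : LZ (rho3 ⁻¹' R) (dd one (gau (sR' S R) x)) := by
    have h1 := axr_lzgau (hx.2.mono (subset_univ (rho3 ⁻¹' R))) (sR' S R)
    exact axr_eq (h1.sub (zr_dd' h hx.1)) (by abel)
  have hK1 : LZ K (gau (sR S R) x) := axr_lzgau hx.1 _
  have hK2 : LZ K (gau (sR' S R) x) := axr_lzgau hx.1 _
  obtain ⟨A₀, hA₀⟩ := ag_R h hd
  obtain ⟨B₀, hB₀⟩ := ag_R' h hd'
  obtain ⟨w, c, hw⟩ := ag_K h (A := A₀) (by
    exact axr_eq (hK1.sub (hA₀.mono (axr_KR h))) (by abel))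
  obtain ⟨w', c', hw'⟩ := ag_K h (A := B₀) (by
    exact axr_eq (hK2.sub (hB₀.mono (axr_KR' h))) (by abel))
  have hA := ag_ddw w hA₀
  have hB := ag_ddw w' hB₀
  generalize A₀ - dd one w = A at hA hw
  generalize B₀ - dd one w' = B at hB hw'
  -- near S
  have hS1 : LZ S (gau (sR S R) x - (T (-1) : LR) • gau (sR' S R) x) := by
    refine axr_both (K := K) ?_ (hK1.sub (axr_smul _ hK2))
    intro y hy
    filter_upwards [ev_coord (n := 3) (br_S h y hy) 0] with t ht
    show ((sR S R (t 0) : LRˣ) : LR) * x t - (T (-1) : LR) * (((sR' S R (t 0) : LRˣ) : LR) * x t) = 0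
    have h3 : sR S R (t 0) = tU (-1) * sR' S R (t 0) := by
      unfold sR sR'
      rw [← tu_add, ht]
      congr 1
      ring
    have h4 : ((sR S R (t 0) : LRˣ) : LR) = T (-1) * ((sR' S R (t 0) : LRˣ) : LR) := by
      rw [h3, Units.val_mul]
      rfl
    rw [h4, mul_assoc, sub_self]
  have hS2 : LZ (rho3 ⁻¹' S) (gau (sR S R) x - gau (sR' S R) x) := by
    refine axr_both (K := K) ?_ (hK1.sub hK2)
    intro y hy
    filter_upwards [ev_coord (n := 3) (br_S' h y hy) 0] with t ht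
    show ((sR S R (t 0) : LRˣ) : LR) * x t - ((sR' S R (t 0) : LRˣ) : LR) * x t = 0
    have h3 : sR S R (t 0) = sR' S R (t 0) := by
      unfold sR sR'
      rw [ht.1, ht.2]
    rw [h3, sub_self]
  have hc1 : c = T (-1) * c' := by
    have h1 : LZ S (dd one (A - (T (-1) : LR) • B)) := by
      rw [dd_sub, axr_dd_smul]
      have h2 := axr_smul (T (-1)) (hB.mono hSR')
      rw [smul_sub] at h2
      exact axr_eq ((hS1.sub (hA.mono h.SR)).add h2) (by abel)
    have h2 := coc_K h (Or.inl h1)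
    have h3 : LZ K (smulC k (c - T (-1) * c') - (A - (T (-1) : LR) • B)) := by
      have h4 := axr_smul (T (-1)) hw'
      rw [smul_sub] at h4
      have h5 : smulC k (c - T (-1) * c') = smulC k c - (T (-1) : LR) • smulC k c' := by
        funext t
        show k t • (c - T (-1) * c') = k t • c - T (-1) * (k t • c')
        rw [smul_sub, mul_smul_comm]
      rw [h5]
      exact axr_eq (h4.sub hw) (by abel)
    have h4 := ag_Ku h (Cob.congr (G := ℤˣ) h3 h2)
    exact sub_eq_zero.1 h4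
  have hc2 : c = c' := by
    have h1 : LZ (rho3 ⁻¹' S) (dd one (A - B)) := by
      rw [dd_sub]
      exact axr_eq ((hS2.sub (hA.mono h.S'R)).add (hB.mono hS'R')) (by abel)
    have h2 := coc_K h (Or.inr h1)
    have h3 : LZ K (smulC k (c - c') - (A - B)) := by
      have h5 : smulC k (c - c') = smulC k c - smulC k c' := by
        funext t
        exact smul_sub _ _ _
      rw [h5]
      exact axr_eq (hw'.sub hw) (by abel)
    have h4 := ag_Ku h (Cob.congr (G := ℤˣ) h3 h2)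
    exact sub_eq_zero.1 h4
  have hc0 : c = 0 := lr_dom c (by rw [← hc2] at hc1; exact hc1)
  have hc0' : c' = 0 := by rw [← hc2, hc0]
  have hk0 : smulC k (0 : LR) = 0 := by
    funext t
    exact smul_zero _
  rw [hc0, hk0, sub_zero] at hw
  rw [hc0', hk0, sub_zero] at hw'
  set φ : Coch E3 LR 1 := gau (fun x => (sR' S R x)⁻¹) B with hφ
  have hφK : LZ K φ := axr_lzgau hw' _
  have hZR' : LZ (rho3 ⁻¹' R) (x - dd (invt (tT S R)) φ) := by
    apply axr_gau (σ := sR' S R)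
    have h3 := zr_dd' h hφK
    rw [hφ, axr_gaugau'] at h3
    rw [axr_gausub]
    exact axr_eq (hB.sub h3) (by abel)
  have hZR : LZ R (gau (sR S R) (x - dd (invt (tT S R)) φ) - dd one (A - gau (sR S R) φ)) := by
    have h3 := zr_dd h hφK
    rw [axr_gausub, dd_sub]
    exact axr_eq (hA.sub h3) (by abel)
  refine ⟨A - gau (sR S R) φ, x - dd (invt (tT S R)) φ, hw.sub (axr_lzgau hφK _), ?_,
    ⟨hx.1.sub (axr_lzdd hφK _), hZR, hZR'⟩, φ, hφK, ?_⟩
  · have hsub : S ∪ rho3 ⁻¹' S ⊆ R := union_subset h.SR h.S'R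
    have hsub' : S ∪ rho3 ⁻¹' S ⊆ rho3 ⁻¹' R := union_subset hSR' hS'R'
    have h1 := axr_lzgau (hZR'.mono hsub') (sR S R)
    exact axr_eq (h1.sub (hZR.mono hsub)) (by abel)
  · rw [sub_sub_cancel, sub_self]
    exact LZ.zero _

end PoolFbd
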