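import Pool.Agent.Work.MP_fbd21a_gt.SphRad
import Pool.Agent.Work.MP_fbd21a_gt.IntP
import Pool.Agent.Work.MP_fbd21a_gt.Ret

/-! MODULE SphH. Cohomology of the boundary sphere, in the ambient cube (near bd 4) and as the space E3.
PROOFS. bd_H1: φ a 1-cocycle near bd 4. dd one φ is a relative 2-cocycle of (univ, bd 4) (dd dd = 0),
by box_low = dd one v near univ, v zero near bd 4. φ - v is a cocycle near univ, = dd one s (acyc_Q), so
φ = dd one s near bd 4. bd_H2 the same in degree 2 (box_low for degree 3 ≠ 4). bd_H0: degree 0: the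
same with box_low in degree 1; φ - v is constant near univ.
bd_H3: φ of degree 3, cocycle near bd 4, with Itg (dd one φ) = 0: dd one φ is a relative coboundary by
Itg_zero_iff, the same argument.
e3_H0..: transfer by taut_inj / ret_one with io : E3 → Q 4 and rad : Q 4 → E3
(rad_cont_bd, rad_io, io_rad): χ a cocycle on E3, pb rad χ is a cocycle near bd 4, ...,
pb io (pb rad χ) = χ exactly. e3_conn1 is e3_H0 and e3_H1 packaged. -/

open Topology Filter Set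

namespace PoolFbd

variable {A : Type} [AddCommGroup A]

private theorem sphh_low {m : ℕ} {φ : Coch (Q 4) A m} (hφ : LZ (bd 4) (dd one φ))
    (h : Cob one univ (bd 4) (dd one φ)) :
    ∃ v : Coch (Q 4) A m, LZ (bd 4) v ∧ LZ univ (dd one (φ - v)) := by
  obtain ⟨v, hv, hv2⟩ := h
  refine ⟨v, hv, ?_⟩
  rw [dd_sub]
  exact hv2

private theorem sphh_coc {m : ℕ} {φ : Coch (Q 4) A m} (hφ : LZ (bd 4) (dd one φ)) :
    Coc one univ (bd 4) (dd one φ) :=
  ⟨hφ, LZ_dd_dd (IsTw.one univ) φ⟩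

private theorem sphh_succ {m : ℕ} {φ : Coch (Q 4) A (m + 1)} (hφ : LZ (bd 4) (dd one φ))
    (h : Cob one univ (bd 4) (dd one φ)) : Cob one (bd 4) ∅ φ := by
  obtain ⟨v, hv, hv2⟩ := sphh_low hφ h
  have h1 : Cob one univ ∅ (φ - v) := ((acyc_Q 4).2 A).2 m (φ - v) hv2
  have h2 : Cob one (bd 4) ∅ (φ - v) := h1.mono (subset_univ _) (Subset.refl _)
  have h3 : Cob one (bd 4) ∅ v := Cob.of_LZ hv
  have := h2.add h3
  rwa [sub_add_cancel] at this

theorem bd_H0 {φ : Coch (Q 4) A 0} (hφ : LZ (bd 4) (dd one φ)) :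
    ∃ a : A, LZ (bd 4) (φ - cst (Q 4) 0 a) := by
  obtain ⟨v, hv, hv2⟩ := sphh_low hφ (box_low (by norm_num) (sphh_coc hφ))
  obtain ⟨a, ha⟩ := ((acyc_Q 4).2 A).1 (φ - v) hv2
  refine ⟨a, ?_⟩
  have := (ha.mono (subset_univ (bd 4))).add hv
  convert this using 1
  abel

theorem bd_H1 {φ : Coch (Q 4) A 1} (hφ : LZ (bd 4) (dd one φ)) : Cob one (bd 4) ∅ φ :=
  sphh_succ hφ (box_low (by norm_num) (sphh_coc hφ))

theorem bd_H2 {φ : Coch (Q 4) A 2} (hφ : LZ (bd 4) (dd one φ)) : Cob one (bd 4) ∅ φ :=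
  sphh_succ hφ (box_low (by norm_num) (sphh_coc hφ))

theorem bd_H3 {φ : Coch (Q 4) A 3} (hφ : LZ (bd 4) (dd one φ)) (h : Itg (dd one φ) = 0) :
    Cob one (bd 4) ∅ φ :=
  sphh_succ hφ ((Itg_zero_iff (sphh_coc hφ)).1 h)

private theorem sphh_pb {m : ℕ} {χ : Coch E3 A m} (hχ : LZ univ (dd one χ)) :
    LZ (bd 4) (dd one (pb rad χ)) := by
  have h : Coc one univ ∅ χ := ⟨LZ.empty χ, hχ⟩
  exact (Coc.pb (f := rad) (S := bd 4) (Z := ∅) (fun x hx => ⟨rad_cont_bd hx, mem_univ _⟩)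
    (fun x hx => hx.elim) h).2

private theorem sphh_io : ∀ x ∈ (univ : Set E3), ContinuousAt io x ∧ io x ∈ bd 4 :=
  fun x _ => ⟨continuous_subtype_val.continuousAt, x.2⟩

private theorem sphh_pbpb {m : ℕ} (χ : Coch E3 A m) : pb io (pb rad χ) = χ := by
  funext t
  simp only [pb, rad_io]

private theorem sphh_back {m : ℕ} {χ : Coch E3 A m} (h : Cob one (bd 4) ∅ (pb rad χ)) :
    Cob one univ ∅ χ := by
  have := Cob.pb (f := io) (S := univ) (Z := ∅) sphh_io (fun x hx => hx.elim) h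
  rwa [pbt_one, sphh_pbpb] at this

theorem e3_conn1 : Conn1 (univ : Set E3) := by
  refine ⟨⟨⟨⟨fun _ => ⟨1, by norm_num⟩, ⟨0, Or.inr rfl⟩⟩, mem_univ _⟩, ?_⟩, ?_⟩
  · intro A _ φ hφ
    obtain ⟨a, ha⟩ := bd_H0 (sphh_pb hφ)
    refine ⟨a, ?_⟩
    have h1 : LZ univ (pb io (pb rad φ - cst (Q 4) 0 a)) := LZ.pb sphh_io ha
    have e : pb io (pb rad φ - cst (Q 4) 0 a) = φ - cst E3 0 a := by
      funext t
      simp only [pb, Pi.sub_apply, rad_io, cst]
    rwa [e] at h1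
  · intro A _ φ hφ
    exact sphh_back (bd_H1 (sphh_pb hφ))

theorem e3_H2 {χ : Coch E3 A 2} (hχ : LZ univ (dd one χ)) : Cob one univ ∅ χ :=
  sphh_back (bd_H2 (sphh_pb hχ))

end PoolFbd
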