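import Pool.Agent.Work.MP_fbd21a_gt.TmBas

/-! MODULE TmCompl. The complement of a tame set is connected (for locally constant functions).
PROOF. Nonempty: if F = univ and p ∈ F then M \ F is empty for the M of tame_conn0 (but Conn0 sets are
nonempty); if F is empty use that E is nonempty (Conn0 univ). Let φ be locally constant near Fᶜ.
For z ∈ F let m(z) = constant value of φ on M_z \ F (tame_conn0; pointwise values). Define
φ' t = φ t if t 0 ∉ F, else m(t 0). Near z ∈ F, φ' is constant on M_z: for y ∈ M_z ∩ F, m(y) = the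
value on M_y \ F, which meets M_z \ F (shrink M_y inside M_z). Near q ∉ F: φ' = φ (F closed). So φ' is
locally constant, hence constant near univ, and φ as well near Fᶜ. -/

open Topology Filter Set

namespace PoolFbd

theorem tame_compl {E : Type*} [TopologicalSpace E] (hE : Conn0 (univ : Set E)) {F : Set E}
    (hF : Tame F) : Conn0 Fᶜ := by
  classical
  have hne : (Fᶜ).Nonempty := by
    obtain ⟨x, -⟩ := hE.1
    by_cases hx : x ∈ F
    · obtain ⟨M, -, -, -, hM⟩ := tame_conn0 hF hx isOpen_univ (mem_univ _)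
      obtain ⟨y, hy⟩ := hM.1
      exact ⟨y, hy.2⟩
    · exact ⟨x, hx⟩
  refine ⟨hne, fun A _ φ hφ => ?_⟩
  -- the value at a point of `F`
  have hloc : ∀ z ∈ F, ∃ (M : Set E) (a : A), IsOpen M ∧ z ∈ M ∧ Conn0 (M \ F) ∧
      ∀ x ∈ M \ F, φ (fun _ => x) = a := by
    intro z hz
    obtain ⟨M, hM, hzM, -, hc⟩ := tame_conn0 hF hz isOpen_univ (mem_univ _)
    obtain ⟨a, ha⟩ := hc.2 A φ (hφ.mono fun x hx => hx.2)
    exact ⟨M, a, hM, hzM, hc, fun x hx => conn0_pt ha hx⟩
  choose! Mz az hMo hzM hMc hMa using hloc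
  set g : E → A := fun y => if y ∈ F then az y else φ (fun _ => y) with hg
  have hgF : ∀ z ∈ F, ∀ y ∈ Mz z, g y = az z := by
    intro z hz y hy
    by_cases hyF : y ∈ F
    · have e : g y = az y := if_pos hyF
      rw [e]
      obtain ⟨M', hM', hyM', hsub, hc'⟩ := tame_conn0 hF hyF
        ((hMo z hz).inter (hMo y hyF)) ⟨hy, hzM y hyF⟩
      obtain ⟨w, hw⟩ := hc'.1
      have e1 := hMa z hz w ⟨(hsub hw.1).1, hw.2⟩
      have e2 := hMa y hyF w ⟨(hsub hw.1).2, hw.2⟩
      exact e2.symm.trans e1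
    · have e : g y = φ (fun _ => y) := if_neg hyF
      rw [e]
      exact hMa z hz y ⟨hy, hyF⟩
  have hgC : ∀ x ∉ F, ∀ᶠ t in 𝓝 (fun _ : Fin (0 + 1) => x), g (t 0) = φ t := by
    intro x hx
    filter_upwards [ev_coord (n := 0 + 1) (hF.1.isOpen_compl.eventually_mem hx) 0] with t ht
    have e : g (t 0) = φ (fun _ => t 0) := if_neg ht
    rw [e, ← fin1_eta t]
  obtain ⟨a, ha⟩ := hE.2 A (fun t => g (t 0)) (by
    intro x _
    by_cases hx : x ∈ F
    · filter_upwards [ev_all_coord (n := 0 + 1 + 1) ((hMo x hx).eventually_mem (hzM x hx))]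
        with t ht
      rw [dd_deg_zero]
      simp only [one, one_smul]
      rw [hgF x hx _ (ht 0), hgF x hx _ (ht 1), sub_self]
    · filter_upwards [hφ x hx, ev_all_coord (n := 0 + 1 + 1)
        (hF.1.isOpen_compl.eventually_mem hx)] with t ht hm
      rw [dd_deg_zero] at ht ⊢
      have e0 : g (t 0) = φ (fun _ => t 0) := if_neg (hm 0)
      have e1 : g (t 1) = φ (fun _ => t 1) := if_neg (hm 1)
      simp only [one, one_smul] at ht ⊢
      rw [e0, e1]
      exact ht)
  refine ⟨a, fun x hx => ?_⟩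
  filter_upwards [hgC x hx, ha x (mem_univ _)] with t h1 h2
  have h3 : g (t 0) - a = 0 := h2
  have h4 : φ t - a = 0 := by rw [← h1]; exact h3
  exact h4

end PoolFbd
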