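import Pool.Agent.Work.MP_fbd21a_gt.GeoDefs
import Pool.Agent.Work.MP_fbd21a_gt.TmCompl
import Pool.Agent.Work.MP_fbd21a_gt.SphH

/-! MODULE GeoTw. The sign local system of the knot complement.
Write S' = rho3⁻¹ S, R' = rho3⁻¹ R. rho3 (rho3 x) = x (rho3_rho3: coordinates), rho3 continuous.
eps_anti: for x ∉ K: rho3 x ∈ R \ S' iff x ∈ R' \ S; if x ∈ R \ S' then x ∉ R' \ S (x ∈ R' would give
x ∈ R ∩ R' = S ∪ S'); if x ∉ R \ S' then x ∈ R' \ S: either x ∉ R, so x ∈ R' (cover) and x ∉ S ⊆ R; or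
x ∈ R ∩ S' \ K, x ∉ S since S ∩ S' = K.
eps_loc: ε is locally constant at x ∉ S ∪ S': x lies in exactly one of the closed sets R, R'.
LOCAL FORM: near x ∉ S ∪ S', tauS = 1 (ε locally constant, ε² = 1); near x ∈ S \ K: x ∈ nearS S (open;
infDist x S = 0 < infDist x S' since S' is closed, nonempty, x ∉ S'), tauS(x,y) = ε x ε y; near x ∈ S' \ K:
not in nearS, tauS = 1. Hence IsTw Kᶜ (tau_tw).
sig_triv: near x ∈ R \ K: x ∈ S \ K: sigR = ε; x ∈ S' \ K: sigR = 1, tauS = 1; x in neither: ε = 1 near x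
(x ∈ R \ R' so ε = +1 on a neighbourhood), sigR = 1, tauS = 1.
ktw_of_geo: equiv near x ∉ S ∪ S': tauS(rho,rho) = 1 = ε x ε y locally; x ∈ S \ K: rho3 x ∈ S' \ K so the left side
is 1, right side ε ε ε ε = 1; x ∈ S' \ K: left ε(rho x) ε(rho y) = ε x ε y (eps_anti twice), right ε x · 1 · ε y.
nt: if TrivBy tauS Kᶜ σ, then m(x) = σ(rho3 x) σ(x) ε(x) is locally constant on Kᶜ by equiv, constant
(tame_compl with e3_conn1, sign_const) but m(rho3 x) = - m(x): contradiction (Kᶜ nonempty). -/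

open Topology Filter Set

namespace PoolFbd

theorem rho3_rho3 (x : E3) : rho3 (rho3 x) = x := by
  apply Subtype.ext
  funext i
  apply Subtype.ext
  show ((rho (rho x.1)) i : ℝ) = x.1 i
  fin_cases i <;> simp [rho, neg1]

theorem rho3_cont : Continuous rho3 := by
  refine Continuous.subtype_mk ?_ _
  have hc : ∀ i : Fin 4, Continuous fun x : E3 => x.1 i := fun i =>
    (continuous_apply i).comp continuous_subtype_val
  have hn : ∀ i : Fin 4, Continuous fun x : E3 => neg1 (x.1 i) := fun i =>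
    Continuous.subtype_mk (continuous_subtype_val.comp (hc i)).neg _
  refine continuous_pi fun i => ?_
  fin_cases i
  · exact hn 0
  · exact hn 1
  · exact hn 2
  · exact hc 3

theorem geo_evtwo {E : Type*} [TopologicalSpace E] {x : E} {P : E → E → Prop}
    (h : ∀ᶠ t in 𝓝 (fun _ : Fin 2 => x), P (t 0) (t 1)) {n : ℕ} (i j : Fin n) :
    ∀ᶠ t in 𝓝 (fun _ : Fin n => x), P (t i) (t j) := by
  have := (tendsto_face (![i, j] : Fin 2 → Fin n) x).eventually h
  simpa using this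

theorem geo_evrho {x : E3} {P : E3 → E3 → Prop}
    (h : ∀ᶠ t in 𝓝 (fun _ : Fin 2 => rho3 x), P (t 0) (t 1)) :
    ∀ᶠ t in 𝓝 (fun _ : Fin 2 => x), P (rho3 (t 0)) (rho3 (t 1)) :=
  (tendsto_pb (f := rho3) rho3_cont.continuousAt).eventually h

private theorem um (e : ℤˣ) : e * e = 1 := Int.units_mul_self e

private theorem ui (e : ℤˣ) : e⁻¹ = e := Int.units_inv_eq_self e

variable {K S R : Set E3} {g u : Fin 2 → Coch E3 ℤ 1} {k : Coch E3 ℤ 1}
  {α β : Matrix (Fin 2) (Fin 2) ℤ}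

theorem eps_anti (h : Geo3 K S R g u k α β) {x : E3} (hx : x ∉ K) :
    epsR S R (rho3 x) = - epsR S R x := by
  unfold epsR
  rw [rho3_rho3]
  by_cases h1 : x ∈ R ∧ rho3 x ∉ S
  · have h2 : ¬ (rho3 x ∈ R ∧ x ∉ S) := by
      rintro ⟨h3, h4⟩
      have h5 : x ∈ R ∩ rho3 ⁻¹' R := ⟨h1.1, h3⟩
      rw [h.inter] at h5
      exact h5.elim h4 h1.2
    rw [if_pos h1, if_neg h2]
  · have h2 : rho3 x ∈ R ∧ x ∉ S := by
      by_cases hxR : x ∈ R
      · have h3 : rho3 x ∈ S := by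
          by_contra h4
          exact h1 ⟨hxR, h4⟩
        refine ⟨h.SR h3, fun h4 => hx ?_⟩
        rw [← h.SS]
        exact ⟨h4, h3⟩
      · have h3 : x ∈ R ∪ rho3 ⁻¹' R := by
          rw [h.cover]
          exact mem_univ x
        exact ⟨h3.resolve_left hxR, fun h4 => hxR (h.SR h4)⟩
    rw [if_neg h1, if_pos h2, neg_neg]

private theorem ev_notS (h : Geo3 K S R g u k α β) {x : E3} (hx : x ∉ S) :
    ∀ᶠ y in 𝓝 x, y ∉ S := h.cS.isOpen_compl.mem_nhds hx

private theorem ev_notS' (h : Geo3 K S R g u k α β) {x : E3} (hx : rho3 x ∉ S) :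
    ∀ᶠ y in 𝓝 x, rho3 y ∉ S := (h.cS.preimage rho3_cont).isOpen_compl.mem_nhds hx

theorem eps_loc (h : Geo3 K S R g u k α β) {x : E3} (hx : x ∉ S) (hx' : rho3 x ∉ S) :
    ∀ᶠ y in 𝓝 x, epsR S R y = epsR S R x := by
  by_cases hxR : x ∈ R
  · have h1 : rho3 x ∉ R := by
      intro h2
      have h5 : x ∈ R ∩ rho3 ⁻¹' R := ⟨hxR, h2⟩
      rw [h.inter] at h5
      exact h5.elim hx hx'
    have h2 : ∀ᶠ y in 𝓝 x, rho3 y ∉ R := (h.cR.preimage rho3_cont).isOpen_compl.mem_nhds h1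
    filter_upwards [h2, ev_notS' h hx'] with y h3 h4
    have h5 : y ∈ R ∪ rho3 ⁻¹' R := by
      rw [h.cover]
      exact mem_univ y
    have h6 : y ∈ R := h5.resolve_right h3
    unfold epsR
    rw [if_pos ⟨h6, h4⟩, if_pos ⟨hxR, hx'⟩]
  · have h2 : ∀ᶠ y in 𝓝 x, y ∉ R := h.cR.isOpen_compl.mem_nhds hxR
    filter_upwards [h2] with y h3
    unfold epsR
    rw [if_neg (fun h => h3 h.1), if_neg (fun h => hxR h.1)]

theorem eps_R (h : Geo3 K S R g u k α β) {x : E3} (hx : x ∈ R) (hx1 : x ∉ S) (hx' : rho3 x ∉ S) :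
    ∀ᶠ y in 𝓝 x, epsR S R y = 1 := by
  filter_upwards [eps_loc h hx1 hx'] with y hy
  rw [hy]
  exact if_pos ⟨hx, hx'⟩

theorem geo_neK (h : Geo3 K S R g u k α β) : K.Nonempty := h.kK.1

theorem geo_KS' (h : Geo3 K S R g u k α β) : K ⊆ rho3 ⁻¹' S := by
  rw [← h.SS]
  exact inter_subset_right

theorem near_S (h : Geo3 K S R g u k α β) {x : E3} (hx : x ∈ S) (hxK : x ∉ K) :
    ∀ᶠ y in 𝓝 x, y ∈ nearS S := by
  have h1 : x ∉ rho3 ⁻¹' S := by
    intro h2
    exact hxK (h.SS ▸ ⟨hx, h2⟩)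
  have h2 : Metric.infDist x S = 0 := Metric.infDist_zero_of_mem hx
  have h3 : 0 < Metric.infDist x (rho3 ⁻¹' S) :=
    ((h.cS.preimage rho3_cont).notMem_iff_infDist_pos ((geo_neK h).mono (geo_KS' h))).1 h1
  have h4 : Metric.infDist x S < Metric.infDist x (rho3 ⁻¹' S) := by rw [h2]; exact h3
  exact (Metric.continuous_infDist_pt S).continuousAt.eventually_lt
    (Metric.continuous_infDist_pt _).continuousAt h4

theorem near_S' (h : Geo3 K S R g u k α β) {x : E3} (hx : rho3 x ∈ S) (hxK : x ∉ K) :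
    ∀ᶠ y in 𝓝 x, y ∉ nearS S := by
  have h1 : x ∉ S := by
    intro h2
    exact hxK (h.SS ▸ ⟨h2, hx⟩)
  have h2 : Metric.infDist x (rho3 ⁻¹' S) = 0 := Metric.infDist_zero_of_mem hx
  have h3 : 0 < Metric.infDist x S :=
    (h.cS.notMem_iff_infDist_pos ((geo_neK h).mono h.KS)).1 h1
  have h4 : Metric.infDist x (rho3 ⁻¹' S) < Metric.infDist x S := by rw [h2]; exact h3
  have h5 := (Metric.continuous_infDist_pt (rho3 ⁻¹' S)).continuousAt.eventually_lt
    (Metric.continuous_infDist_pt S).continuousAt h4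
  filter_upwards [h5] with y hy hy2
  exact absurd hy (not_lt.2 (le_of_lt hy2))

private theorem tau_a (h : Geo3 K S R g u k α β) {x : E3} (hx : x ∉ S) (hx' : rho3 x ∉ S) :
    ∀ᶠ t in 𝓝 (fun _ : Fin 2 => x), tauS S R (t 0) (t 1) = 1 := by
  filter_upwards [ev_all_coord (n := 2) (eps_loc h hx hx')] with t ht
  unfold tauS
  split_ifs
  · rw [ht 0, ht 1, um]
  · rfl

private theorem tau_b (h : Geo3 K S R g u k α β) {x : E3} (hx : x ∈ S) (hxK : x ∉ K) :
    ∀ᶠ t in 𝓝 (fun _ : Fin 2 => x), tauS S R (t 0) (t 1) = epsR S R (t 0) * epsR S R (t 1) := by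
  filter_upwards [ev_coord (n := 2) (near_S h hx hxK) 0] with t ht
  exact if_pos ht

private theorem tau_c (h : Geo3 K S R g u k α β) {x : E3} (hx : rho3 x ∈ S) (hxK : x ∉ K) :
    ∀ᶠ t in 𝓝 (fun _ : Fin 2 => x), tauS S R (t 0) (t 1) = 1 := by
  filter_upwards [ev_coord (n := 2) (near_S' h hx hxK) 0] with t ht
  exact if_neg ht

theorem tau_tw (h : Geo3 K S R g u k α β) : IsTw Kᶜ (tauS S R) := by
  intro x hx
  by_cases h1 : x ∈ S
  · have h2 := tau_b h h1 hx
    filter_upwards [geo_evtwo (P := fun y z => tauS S R y z = epsR S R y * epsR S R z) h2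
        (n := 3) 0 1,
      geo_evtwo (P := fun y z => tauS S R y z = epsR S R y * epsR S R z) h2 (n := 3) 1 2,
      geo_evtwo (P := fun y z => tauS S R y z = epsR S R y * epsR S R z) h2 (n := 3) 0 2]
      with t a b c
    rw [a, b, c, mul_assoc, ← mul_assoc (epsR S R (t 1)), um, one_mul]
  · have h2 : ∀ᶠ t in 𝓝 (fun _ : Fin 2 => x), tauS S R (t 0) (t 1) = 1 := by
      by_cases h3 : rho3 x ∈ S
      · exact tau_c h h3 hx
      · exact tau_a h h1 h3
    filter_upwards [geo_evtwo (P := fun y z => tauS S R y z = 1) h2 (n := 3) 0 1,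
      geo_evtwo (P := fun y z => tauS S R y z = 1) h2 (n := 3) 1 2,
      geo_evtwo (P := fun y z => tauS S R y z = 1) h2 (n := 3) 0 2] with t a b c
    rw [a, b, c, one_mul]

theorem sig_triv (h : Geo3 K S R g u k α β) : TrivBy (tauS S R) (R \ K) (sigR S R) := by
  rintro x ⟨hxR, hxK⟩
  by_cases h1 : x ∈ S
  · filter_upwards [tau_b h h1 hxK, ev_all_coord (n := 2) (near_S h h1 hxK)] with t a b
    unfold sigR
    rw [a, if_pos (b 0), if_pos (b 1), ui]
  · by_cases h3 : rho3 x ∈ S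
    · filter_upwards [tau_c h h3 hxK, ev_all_coord (n := 2) (near_S' h h3 hxK)] with t a b
      unfold sigR
      rw [a, if_neg (b 0), if_neg (b 1), ui, one_mul]
    · filter_upwards [tau_a h h1 h3, ev_all_coord (n := 2) (eps_R h hxR h1 h3)] with t a b
      unfold sigR
      rw [a, b 0, b 1]
      split_ifs <;> simp

theorem geo_evnotK (h : Geo3 K S R g u k α β) {x : E3} (hx : x ∉ K) :
    ∀ᶠ y in 𝓝 x, y ∉ K := h.cK.isOpen_compl.mem_nhds hx

theorem geo_memK (h : Geo3 K S R g u k α β) (x : E3) : x ∈ K ↔ rho3 x ∈ K := by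
  have := h.Kinv
  constructor
  · intro hx
    rw [← this] at hx
    exact hx
  · intro hx
    rw [← this]
    exact hx

theorem geo_equiv (h : Geo3 K S R g u k α β) {x : E3} (hx : x ∉ K) :
    ∀ᶠ t in 𝓝 (fun _ : Fin 2 => x), tauS S R (rho3 (t 0)) (rho3 (t 1)) =
      epsR S R (t 0) * tauS S R (t 0) (t 1) * epsR S R (t 1) := by
  have hx2 : rho3 x ∉ K := fun h2 => hx ((geo_memK h x).2 h2)
  by_cases h1 : x ∈ S
  · have h2 : rho3 (rho3 x) ∈ S := by rw [rho3_rho3]; exact h1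
    filter_upwards [tau_b h h1 hx, geo_evrho (P := fun y z => tauS S R y z = 1) (tau_c h h2 hx2)]
      with t a b
    rw [a, b, ← mul_assoc, um, one_mul, um]
  · by_cases h3 : rho3 x ∈ S
    · filter_upwards [tau_c h h3 hx,
        geo_evrho (P := fun y z => tauS S R y z = epsR S R y * epsR S R z) (tau_b h h3 hx2),
        ev_all_coord (n := 2) (geo_evnotK h hx)] with t a b c
      rw [a, b, eps_anti h (c 0), eps_anti h (c 1), mul_one, neg_mul_neg]
    · have h4 : rho3 (rho3 x) ∉ S := by rw [rho3_rho3]; exact h1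
      filter_upwards [tau_a h h1 h3, geo_evrho (P := fun y z => tauS S R y z = 1) (tau_a h h3 h4),
        ev_all_coord (n := 2) (eps_loc h h1 h3)] with t a b c
      rw [a, b, c 0, c 1, mul_one, um]

theorem ktw_of_geo (h : Geo3 K S R g u k α β) (ht : Tame K) (hc : IsPreconnected K) :
    KTw K (tauS S R) (epsR S R) := by
  refine ⟨ht, hc, h.kK.1, geo_memK h, tau_tw h, ?_, fun x hx => geo_equiv h hx,
    fun x hx => eps_anti h hx⟩
  rintro ⟨σ, hσ⟩
  have hc0 : Conn0 Kᶜ := tame_compl e3_conn1.1 ht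
  obtain ⟨e, he⟩ := sign_const hc0 (s := fun x => σ (rho3 x) * σ x * epsR S R x) (by
    intro x hx
    have hx2 : rho3 x ∉ K := fun h2 => hx ((geo_memK h x).2 h2)
    have h1 := ev_pair (hσ x hx)
    have h2 := ev_pair (geo_evrho (P := fun y z => tauS S R y z = (σ y)⁻¹ * σ z)
      (hσ (rho3 x) hx2))
    have h3 := ev_pair (geo_equiv h hx)
    filter_upwards [h1, h2, h3] with y a b c
    simp only [Matrix.cons_val_zero, Matrix.cons_val_one] at a b c
    rw [a, b, ui, ui] at c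
    -- σ(ρx) σ(ρy) = ε x (σ x σ y) ε y
    have c2 : (σ (rho3 x) * σ x * epsR S R x) * (σ (rho3 y) * σ y * epsR S R y) = 1 := by
      have : (σ (rho3 x) * σ x * epsR S R x) * (σ (rho3 y) * σ y * epsR S R y) =
          (σ (rho3 x) * σ (rho3 y)) * (epsR S R x * (σ x * σ y) * epsR S R y) := by
        ac_rfl
      rw [this, c, um]
    have c3 := congrArg (fun z => (σ (rho3 x) * σ x * epsR S R x) * z) c2
    simp only [mul_one] at c3
    rw [← mul_assoc, um, one_mul] at c3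
    exact c3)
  obtain ⟨x, hx⟩ := hc0.1
  have hx2 : rho3 x ∈ Kᶜ := fun h2 => hx ((geo_memK h x).2 h2)
  have e1 : σ (rho3 x) * σ x * epsR S R x = e := he x hx
  have e2 : σ (rho3 (rho3 x)) * σ (rho3 x) * epsR S R (rho3 x) = e := he (rho3 x) hx2
  rw [rho3_rho3, eps_anti h hx, mul_neg, mul_comm (σ x), e1] at e2
  exact absurd e2 (by
    rcases Int.units_eq_one_or e with h | h <;> rw [h] <;> decide)

end PoolFbd
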