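import Pool.Agent.Work.MP_fbd21a_gt.LrBaer
import Pool.Agent.Work.MP_fbd21a_gt.GeoTw

/-! MODULE AxLoc. Local form of the crossing number (compare the proofs in GeoTw for the sign twist; near_S,
near_S', eps_loc can be used or adapted: epsR = 1 iff nuR = 1).
Write S' = rho3⁻¹ S, R' = rho3⁻¹ R. nuR is locally constant at x ∉ S ∪ S', nuR = 1 near R \ (S ∪ S'), 0 near R' \ (S ∪ S').
Near x ∉ S ∪ S': nS = 0. Near x ∈ S \ K: all points are in nearS: nS x y = nuR x - nuR y. Near x ∈ S' \ K: nS = 0, and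
bR = bR' = 0 there. bR: near R \ (S ∪ S'): nuR = 1 so bR = 0; bR' near R' \ (S ∪ S'): nuR = 0 so bR' = 0. -/

open Topology Filter Set

namespace PoolFbd

variable {K S R : Set E3} {g u : Fin 2 → Coch E3 ℤ 1} {k : Coch E3 ℤ 1}
  {α β : Matrix (Fin 2) (Fin 2) ℤ}

private theorem nu_eps (x : E3) : nuR S R x = if epsR S R x = 1 then 1 else 0 := by
  unfold nuR epsR
  by_cases h : x ∈ R ∧ rho3 x ∉ S
  · rw [if_pos h, if_pos h, if_pos rfl]
  · rw [if_neg h, if_neg h, if_neg (by decide)]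

private theorem nu_loc (h : Geo3 K S R g u k α β) {x : E3} (hx : x ∉ S) (hx' : rho3 x ∉ S) :
    ∀ᶠ y in 𝓝 x, nuR S R y = nuR S R x := by
  filter_upwards [eps_loc h hx hx'] with y hy
  rw [nu_eps, nu_eps, hy]

private theorem nu_R (h : Geo3 K S R g u k α β) {x : E3} (hx : x ∈ R) (hx1 : x ∉ S)
    (hx' : rho3 x ∉ S) : ∀ᶠ y in 𝓝 x, nuR S R y = 1 := by
  filter_upwards [nu_loc h hx1 hx'] with y hy
  rw [hy]
  exact if_pos ⟨hx, hx'⟩

private theorem nu_R' (h : Geo3 K S R g u k α β) {x : E3} (hx : rho3 x ∈ R) (hx1 : x ∉ S)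
    (hx' : rho3 x ∉ S) : ∀ᶠ y in 𝓝 x, nuR S R y = 0 := by
  filter_upwards [nu_loc h hx1 hx'] with y hy
  rw [hy]
  refine if_neg fun h1 => ?_
  have h5 : x ∈ R ∩ rho3 ⁻¹' R := ⟨h1.1, hx⟩
  rw [h.inter] at h5
  exact h5.elim hx1 hx'

private theorem ns_a (h : Geo3 K S R g u k α β) {x : E3} (hx : x ∉ S) (hx' : rho3 x ∉ S) :
    ∀ᶠ t in 𝓝 (fun _ : Fin 2 => x), nS S R (t 0) (t 1) = 0 := by
  filter_upwards [ev_all_coord (n := 2) (nu_loc h hx hx')] with t ht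
  unfold nS
  split_ifs
  · rw [ht 0, ht 1, sub_self]
  · rfl

private theorem ns_b (h : Geo3 K S R g u k α β) {x : E3} (hx : x ∈ S) (hxK : x ∉ K) :
    ∀ᶠ t in 𝓝 (fun _ : Fin 2 => x), nS S R (t 0) (t 1) = nuR S R (t 0) - nuR S R (t 1) := by
  filter_upwards [ev_coord (n := 2) (near_S h hx hxK) 0] with t ht
  exact if_pos ht

private theorem ns_c (h : Geo3 K S R g u k α β) {x : E3} (hx : rho3 x ∈ S) (hxK : x ∉ K) :
    ∀ᶠ t in 𝓝 (fun _ : Fin 2 => x), nS S R (t 0) (t 1) = 0 := by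
  filter_upwards [ev_coord (n := 2) (near_S' h hx hxK) 0] with t ht
  exact if_neg ht

theorem ns_ad (h : Geo3 K S R g u k α β) : IsAd Kᶜ (nS S R) := by
  intro x hx
  by_cases h1 : x ∈ S
  · have h2 := ns_b h h1 hx
    filter_upwards [geo_evtwo (P := fun y z => nS S R y z = nuR S R y - nuR S R z) h2
        (n := 3) 0 1,
      geo_evtwo (P := fun y z => nS S R y z = nuR S R y - nuR S R z) h2 (n := 3) 1 2,
      geo_evtwo (P := fun y z => nS S R y z = nuR S R y - nuR S R z) h2 (n := 3) 0 2]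
      with t a b c
    rw [a, b, c]
    ring
  · have h2 : ∀ᶠ t in 𝓝 (fun _ : Fin 2 => x), nS S R (t 0) (t 1) = 0 := by
      by_cases h3 : rho3 x ∈ S
      · exact ns_c h h3 hx
      · exact ns_a h h1 h3
    filter_upwards [geo_evtwo (P := fun y z => nS S R y z = 0) h2 (n := 3) 0 1,
      geo_evtwo (P := fun y z => nS S R y z = 0) h2 (n := 3) 1 2,
      geo_evtwo (P := fun y z => nS S R y z = 0) h2 (n := 3) 0 2] with t a b c
    rw [a, b, c, add_zero]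

theorem tt_tw (h : Geo3 K S R g u k α β) : IsTw Kᶜ (tT S R) := by
  intro x hx
  filter_upwards [ns_ad h x hx] with t ht
  unfold tT
  rw [← tu_add, ht]

theorem ns_R (h : Geo3 K S R g u k α β) : ∀ x ∈ R \ K, ∀ᶠ t in 𝓝 (fun _ : Fin 2 => x),
    nS S R (t 0) (t 1) = bR S R (t 1) - bR S R (t 0) := by
  rintro x ⟨hxR, hxK⟩
  by_cases h1 : x ∈ S
  · filter_upwards [ns_b h h1 hxK, ev_all_coord (n := 2) (near_S h h1 hxK)] with t a b
    unfold bR
    rw [a, if_pos (b 0), if_pos (b 1)]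
    ring
  · by_cases h3 : rho3 x ∈ S
    · filter_upwards [ns_c h h3 hxK, ev_all_coord (n := 2) (near_S' h h3 hxK)] with t a b
      unfold bR
      rw [a, if_neg (b 0), if_neg (b 1), sub_self]
    · filter_upwards [ns_a h h1 h3, ev_all_coord (n := 2) (nu_R h hxR h1 h3)] with t a b
      unfold bR
      rw [a, b 0, b 1]
      split_ifs <;> simp

theorem ns_R' (h : Geo3 K S R g u k α β) : ∀ x ∈ rho3 ⁻¹' R \ K,
    ∀ᶠ t in 𝓝 (fun _ : Fin 2 => x), nS S R (t 0) (t 1) = bR' S R (t 1) - bR' S R (t 0) := by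
  rintro x ⟨hxR, hxK⟩
  by_cases h1 : x ∈ S
  · filter_upwards [ns_b h h1 hxK, ev_all_coord (n := 2) (near_S h h1 hxK)] with t a b
    unfold bR'
    rw [a, if_pos (b 0), if_pos (b 1)]
    ring
  · by_cases h3 : rho3 x ∈ S
    · filter_upwards [ns_c h h3 hxK, ev_all_coord (n := 2) (near_S' h h3 hxK)] with t a b
      unfold bR'
      rw [a, if_neg (b 0), if_neg (b 1), sub_self]
    · filter_upwards [ns_a h h1 h3, ev_all_coord (n := 2) (nu_R' h hxR h1 h3)] with t a b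
      unfold bR'
      rw [a, b 0, b 1]
      split_ifs <;> simp

theorem br_S (h : Geo3 K S R g u k α β) : ∀ x ∈ S \ K, ∀ᶠ y in 𝓝 x,
    bR S R y = bR' S R y + 1 := by
  rintro x ⟨hx, hxK⟩
  filter_upwards [near_S h hx hxK] with y hy
  unfold bR bR'
  rw [if_pos hy, if_pos hy]
  ring

theorem br_S' (h : Geo3 K S R g u k α β) : ∀ x ∈ rho3 ⁻¹' S \ K, ∀ᶠ y in 𝓝 x,
    bR S R y = 0 ∧ bR' S R y = 0 := by
  rintro x ⟨hx, hxK⟩
  filter_upwards [near_S' h hx hxK] with y hy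
  unfold bR bR'
  rw [if_neg hy, if_neg hy]
  exact ⟨rfl, rfl⟩

/-- `sR` trivialises the inverse twist near `R \ K`. -/
theorem sr_triv (h : Geo3 K S R g u k α β) : ∀ x ∈ R \ K, ∀ᶠ t in 𝓝 (fun _ : Fin 2 => x),
    invt (tT S R) (t 0) (t 1) = (sR S R (t 0))⁻¹ * sR S R (t 1) := by
  intro x hx
  filter_upwards [ns_R h x hx] with t ht
  unfold invt tT sR
  rw [← tu_neg, ← tu_neg, ← tu_add, ht]
  congr 1
  ring

theorem sr_triv' (h : Geo3 K S R g u k α β) : ∀ x ∈ rho3 ⁻¹' R \ K,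
    ∀ᶠ t in 𝓝 (fun _ : Fin 2 => x),
    invt (tT S R) (t 0) (t 1) = (sR' S R (t 0))⁻¹ * sR' S R (t 1) := by
  intro x hx
  filter_upwards [ns_R' h x hx] with t ht
  unfold invt tT sR'
  rw [← tu_neg, ← tu_neg, ← tu_add, ht]
  congr 1
  ring

end PoolFbd
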