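import Pool.Agent.Work.MP_fbd21a_gt.GeoTw
import Pool.Agent.Work.MP_fbd21a_gt.Glue
import Pool.Agent.Work.MP_fbd21a_gt.SphI

/-! MODULE ISdef. Integration over S of a relative 2-cocycle of (S, K), defined through the sphere.
Write S' = rho3⁻¹ S, R' = rho3⁻¹ R.
PROOFS. is_ex: V zero near K: V' = glue of V (near S) and 0 (near S'); dd one V' vanishes near S ∪ S' = R ∩ R'
(V a cocycle near S), glue dd one V' (near R) and 0 (near R') to X.
is_uniq: two choices (V',X), (V'',X'): D = V' - V'' vanishes near S ∪ S'; glue D (near R) and 0 (near R') to D';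
X - X' = dd one D' near univ (near R: dd V' - dd V'', near R': 0). X, X' are cocycles near univ.
itg3_congr. Additivity: add the data. is_cob: V = dd one a near S, a zero near K (degree 1): a' = glue
of a (near S), 0 (near S'); V' = dd one a' and X = 0 are admissible data (LZ R (0 - dd dd a')).
is_map: apply F to the data, itg3_map. is_congr: V, V1 equal near S up to a relative coboundary. -/

open Topology Filter Set

namespace PoolFbd

/-- `a` is the integral of `V` over `S`. -/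
def ISval (S R : Set E3) {A : Type} [AddCommGroup A] (V : Coch E3 A 2) (a : A) : Prop :=
  ∃ (V' : Coch E3 A 2) (X : Coch E3 A 3), LZ S (V' - V) ∧ LZ (rho3 ⁻¹' S) V' ∧
    LZ R (X - dd one V') ∧ LZ (rho3 ⁻¹' R) X ∧ Itg3 X = a

open Classical in
/-- The integral over `S`. -/
noncomputable def IS (S R : Set E3) {A : Type} [AddCommGroup A] (V : Coch E3 A 2) : A :=
  if h : ∃ a, ISval S R V a then h.choose else 0

variable {K S R : Set E3} {g u : Fin 2 → Coch E3 ℤ 1} {k : Coch E3 ℤ 1}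
  {α β : Matrix (Fin 2) (Fin 2) ℤ} {A B : Type} [AddCommGroup A] [AddCommGroup B]

theorem isd_cS' (h : Geo3 K S R g u k α β) : IsClosed (rho3 ⁻¹' S) :=
  h.cS.preimage rho3_cont

theorem isd_cR' (h : Geo3 K S R g u k α β) : IsClosed (rho3 ⁻¹' R) :=
  h.cR.preimage rho3_cont

theorem isd_univ (h : Geo3 K S R g u k α β) {n : ℕ} {φ : Coch E3 A n} (h1 : LZ R φ)
    (h2 : LZ (rho3 ⁻¹' R) φ) : LZ univ φ := by
  rw [← h.cover]
  exact h1.union h2

theorem isd_glueS (h : Geo3 K S R g u k α β) {n : ℕ} {φ : Coch E3 A n} (h1 : LZ K φ) :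
    ∃ ψ : Coch E3 A n, LZ S (ψ - φ) ∧ LZ (rho3 ⁻¹' S) ψ := by
  obtain ⟨ψ, a, b⟩ := glue (Sepd.closed h.cS (isd_cS' h)) φ (0 : Coch E3 A n) (by
    rw [h.SS, sub_zero]
    exact h1)
  rw [sub_zero] at b
  exact ⟨ψ, a, b⟩

theorem isd_glueR (h : Geo3 K S R g u k α β) {n : ℕ} {φ : Coch E3 A n} (h1 : LZ S φ)
    (h2 : LZ (rho3 ⁻¹' S) φ) :
    ∃ ψ : Coch E3 A n, LZ R (ψ - φ) ∧ LZ (rho3 ⁻¹' R) ψ := by
  obtain ⟨ψ, a, b⟩ := glue (Sepd.closed h.cR (isd_cR' h)) φ (0 : Coch E3 A n) (by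
    rw [h.inter, sub_zero]
    exact h1.union h2)
  rw [sub_zero] at b
  exact ⟨ψ, a, b⟩

theorem isd_coc (h : Geo3 K S R g u k α β) {V' : Coch E3 A 2} {X : Coch E3 A 3}
    (h1 : LZ R (X - dd one V')) (h2 : LZ (rho3 ⁻¹' R) X) : LZ univ (dd one X) := by
  refine isd_univ h ?_ (h2.dd one)
  have h3 := h1.dd one
  rw [dd_sub] at h3
  have h4 := h3.add (LZ_dd_dd (IsTw.one R) V')
  rwa [sub_add_cancel] at h4

theorem isd_ex (h : Geo3 K S R g u k α β) {V : Coch E3 A 2} (hV : Coc one S K V) :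
    ∃ a, ISval S R V a := by
  obtain ⟨V', h1, h2⟩ := isd_glueS h hV.1
  have h3 : LZ S (dd one V') := by
    have h4 := h1.dd one
    rw [dd_sub] at h4
    have h5 := h4.add hV.2
    rwa [sub_add_cancel] at h5
  obtain ⟨X, h4, h5⟩ := isd_glueR h h3 (h2.dd one)
  exact ⟨Itg3 X, V', X, h1, h2, h4, h5, rfl⟩

theorem is_uniq (h : Geo3 K S R g u k α β) {V : Coch E3 A 2} {a b : A}
    (ha : ISval S R V a) (hb : ISval S R V b) : a = b := by

  obtain ⟨V', X, a1, a2, a3, a4, a5⟩ := ha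
  obtain ⟨W', Y, b1, b2, b3, b4, b5⟩ := hb
  have hD1 : LZ S (V' - W') := by
    have h1 := a1.sub b1
    rwa [sub_sub_sub_cancel_right] at h1
  obtain ⟨D, d1, d2⟩ := isd_glueR h hD1 (a2.sub b2)
  have hXY : LZ univ (X - Y - dd one D) := by
    refine isd_univ h ?_ ((a4.sub b4).sub (d2.dd one))
    have h1 := d1.dd one
    rw [dd_sub, dd_sub] at h1
    have h2 := (a3.sub b3).sub h1
    convert h2 using 1
    abel
  rw [← a5, ← b5]
  exact itg3_congr (isd_coc h a3 a4) ⟨D, LZ.empty D, hXY⟩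

theorem is_spec (h : Geo3 K S R g u k α β) {V : Coch E3 A 2} (hV : Coc one S K V) :
    ISval S R V (IS S R V) := by

  have h1 := isd_ex h hV
  unfold IS
  rw [dif_pos h1]
  exact h1.choose_spec

theorem is_eq (h : Geo3 K S R g u k α β) {V : Coch E3 A 2} {a : A} (ha : ISval S R V a) :
    IS S R V = a := by

  have h1 : ∃ a, ISval S R V a := ⟨a, ha⟩
  unfold IS
  rw [dif_pos h1]
  exact is_uniq h h1.choose_spec ha

theorem is_add (h : Geo3 K S R g u k α β) {V W : Coch E3 A 2} (hV : Coc one S K V)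
    (hW : Coc one S K W) : IS S R (V + W) = IS S R V + IS S R W := by

  obtain ⟨V', X, a1, a2, a3, a4, a5⟩ := is_spec h hV
  obtain ⟨W', Y, b1, b2, b3, b4, b5⟩ := is_spec h hW
  refine is_eq h ⟨V' + W', X + Y, ?_, a2.add b2, ?_, a4.add b4, ?_⟩
  · have h1 := a1.add b1
    convert h1 using 1
    abel
  · have h1 := a3.add b3
    rw [dd_add]
    convert h1 using 1
    abel
  · rw [itg3_add (isd_coc h a3 a4) (isd_coc h b3 b4), a5, b5]

theorem is_cob (h : Geo3 K S R g u k α β) {V : Coch E3 A 2} (hV : Cob one S K V) :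
    IS S R V = 0 := by

  obtain ⟨a, h1, h2⟩ := hV
  obtain ⟨a', b1, b2⟩ := isd_glueS h h1
  refine is_eq h ⟨dd one a', 0, ?_, b2.dd one, ?_, LZ.zero _, itg3_cob (Cob.zero _ _ _)⟩
  · have h3 := b1.dd one
    rw [dd_sub] at h3
    have h4 := h3.sub h2
    convert h4 using 1
    abel
  · rw [zero_sub]
    exact (LZ_dd_dd (IsTw.one R) a').neg

theorem is_congr (h : Geo3 K S R g u k α β) {V W : Coch E3 A 2} (hV : Coc one S K V)
    (hVW : Cob one S K (V - W)) : IS S R V = IS S R W := by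

  have h1 : Coc one S K (V - W) := by
    obtain ⟨ψ, a, b⟩ := hVW
    refine ⟨?_, ?_⟩
    · have h2 := (b.mono h.KS).add (a.dd one)
      rwa [sub_add_cancel] at h2
    · have h2 := (b.dd one)
      rw [dd_sub] at h2
      have h3 := h2.add (LZ_dd_dd (IsTw.one S) ψ)
      rwa [sub_add_cancel] at h3
  have h2 : Coc one S K W := by
    have h3 := hV.sub h1
    rwa [sub_sub_cancel] at h3
  have h3 := is_add h h2 h1
  rw [add_sub_cancel, is_cob h hVW, add_zero] at h3
  exact h3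

theorem is_map (h : Geo3 K S R g u k α β) (F : A →+ B) {V : Coch E3 A 2} (hV : Coc one S K V) :
    IS S R (cmap F V) = F (IS S R V) := by

  obtain ⟨V', X, a1, a2, a3, a4, a5⟩ := is_spec h hV
  have hF : ∀ {n : ℕ} (φ ψ : Coch E3 A n), cmap F (φ - ψ) = cmap F φ - cmap F ψ := by
    intro n φ ψ
    funext t
    simp [cmap]
  have hG : ∀ {n : ℕ} (φ : Coch E3 A n), dd one (cmap F φ) = cmap F (dd one φ) := by
    intro n φ
    exact dd_cmap one φ F (fun g a => by rw [Units.smul_def, map_zsmul, Units.smul_def])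
  refine is_eq h ⟨cmap F V', cmap F X, ?_, a2.cmap F (map_zero F), ?_, a4.cmap F (map_zero F), ?_⟩
  · rw [← hF]
    exact a1.cmap F (map_zero F)
  · rw [hG, ← hF]
    exact a3.cmap F (map_zero F)
  · rw [itg3_map F (isd_coc h a3 a4), a5]

end PoolFbd
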