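import Pool.Agent.Work.MP_fbd21a_gt.AxLoc
import Pool.Agent.Work.MP_fbd21a_gt.ISdef
import Pool.Agent.Work.MP_fbd21a_gt.Glue
import Pool.Agent.Work.MP_fbd21a_gt.Gauge

/-! MODULE AxRep. The connecting map from classes of (S ∪ S', K) to twisted 2-classes of (E3, K).
Write S' = rho3⁻¹ S, R' = rho3⁻¹ R, τ' = invt (tT S R), σ = sR, σ' = sR'. For a cochain φ zero near K:
gau σ (dd τ' φ) = dd one (gau σ φ) near R, gau σ' (dd τ' φ) = dd one (gau σ' φ) near R' (sr_triv, sr_triv', dd_gau off K; near K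
both sides vanish).
zr_exists: Z = glue of gau σ⁻¹ (dd one V) (near R) and 0 (near R'); they agree near R ∩ R' = S ∪ S'; Z zero near K.
zr_coc: near R: gau σ (dd τ' Z) = dd one (gau σ Z) = dd one (dd one V) = 0, near R': Z = 0.
zr_cob: V = dd one p near S ∪ S', p zero near K. V' = V - dd one p is zero near S ∪ S'; φ = glue of gau σ⁻¹ V' (near R) and
0 (near R'), zero near K. Z - dd τ' φ is zero near R (apply gau σ: dd one V - dd one V' = dd one (dd one p) = 0) and near R'.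
zr_sub: Z - Z' represents V - V'. zr_R: Z' = 0 represents W; Z - 0 represents V - W: zr_cob.
zr_R': φ = gau (σ'⁻¹) W; dd τ' φ is zero near R' (gau σ' of it is dd one W) and near R gau σ (dd τ' φ) = dd one V₀ with
V₀ = gau (σ σ'⁻¹) W; near S \ K: σ σ'⁻¹ = tU (-(bR - bR')) = tU (-1) (br_S), near S' \ K it is 1 (br_S'). So dd τ' φ, a relative
coboundary, represents V₀, and V - V₀ is a coboundary of (S ∪ S', K): the two coboundaries near S and near S' (potentials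
zero near K = S ∩ S') glue. Then zr_cob for Z - dd τ' φ. -/

open Topology Filter Set LaurentPolynomial

namespace PoolFbd

variable {K S R : Set E3} {g u : Fin 2 → Coch E3 ℤ 1} {k : Coch E3 ℤ 1}
  {α β : Matrix (Fin 2) (Fin 2) ℤ} {V V' W : Coch E3 LR 1} {Z Z' : Coch E3 LR 2}

/-- combine near `K` and away from `K` -/
theorem axr_both {A : Type} [AddCommGroup A] {K Q : Set E3} {n : ℕ} {φ : Coch E3 A n}
    (h1 : LZ (Q \ K) φ) (h2 : LZ K φ) : LZ Q φ := by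
  intro x hx
  by_cases hk : x ∈ K
  · exact h2 x hk
  · exact h1 x ⟨hx, hk⟩

theorem axr_eq {A : Type} [AddCommGroup A] {T : Set E3} {n : ℕ} {φ ψ : Coch E3 A n}
    (h : LZ T φ) (e : ψ = φ) : LZ T ψ := e ▸ h

theorem axr_gau {Q : Set E3} {n : ℕ} {σ : E3 → LRˣ} {φ : Coch E3 LR n}
    (h : LZ Q (gau σ φ)) : LZ Q φ := by
  intro x hx
  filter_upwards [h x hx] with t ht
  have h1 : σ (t 0) • φ t = 0 := ht
  have h2 : (σ (t 0))⁻¹ • (σ (t 0) • φ t) = φ t := inv_smul_smul _ _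
  rw [← h2, h1, smul_zero]

theorem axr_gaugau {n : ℕ} (σ τ : E3 → LRˣ) (φ : Coch E3 LR n) :
    gau σ (gau τ φ) = gau (fun x => σ x * τ x) φ := by
  funext t
  show σ (t 0) • (τ (t 0) • φ t) = (σ (t 0) * τ (t 0)) • φ t
  rw [mul_smul]

theorem axr_gaugau' {n : ℕ} (σ : E3 → LRˣ) (φ : Coch E3 LR n) :
    gau σ (gau (fun x => (σ x)⁻¹) φ) = φ := by
  funext t
  show σ (t 0) • ((σ (t 0))⁻¹ • φ t) = φ t
  rw [smul_inv_smul]

theorem axr_KR' (h : Geo3 K S R g u k α β) : K ⊆ rho3 ⁻¹' R := fun _ hx => h.SR (geo_KS' h hx)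

theorem axr_KR (h : Geo3 K S R g u k α β) : K ⊆ R := fun _ hx => h.SR (h.KS hx)

theorem axr_cobU (h : Geo3 K S R g u k α β) {A : Type} [AddCommGroup A] {n : ℕ}
    {φ : Coch E3 A (n + 1)} (h1 : Cob one S K φ) (h2 : Cob one (rho3 ⁻¹' S) K φ) :
    Cob one (S ∪ rho3 ⁻¹' S) K φ := by
  obtain ⟨p, a1, a2⟩ := h1
  obtain ⟨p', b1, b2⟩ := h2
  obtain ⟨q, c1, c2⟩ := glue (Sepd.closed h.cS (isd_cS' h)) p p' (by
    rw [h.SS]
    exact a1.sub b1)
  refine ⟨q, ?_, ?_⟩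
  · exact LZ.congr (c1.mono h.KS) a1
  · refine LZ.union ?_ ?_
    · have h3 := a2.sub (c1.dd one)
      rw [dd_sub] at h3
      exact axr_eq h3 (by abel)
    · have h3 := b2.sub (c2.dd one)
      rw [dd_sub] at h3
      exact axr_eq h3 (by abel)

theorem axr_lzgau {Q : Set E3} {n : ℕ} {φ : Coch E3 LR n} (h : LZ Q φ) (σ : E3 → LRˣ) :
    LZ Q (gau σ φ) := LZ.gau (G := LRˣ) h σ

theorem axr_lzdd {Q : Set E3} {n : ℕ} {φ : Coch E3 LR n} (h : LZ Q φ) (τ : E3 → E3 → LRˣ) :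
    LZ Q (dd τ φ) := LZ.dd (G := LRˣ) h τ

theorem axr_gausub (σ : E3 → LRˣ) {n : ℕ} (φ ψ : Coch E3 LR n) :
    gau σ (φ - ψ) = gau σ φ - gau σ ψ := gau_sub (G := LRˣ) σ φ ψ

theorem axr_gauadd (σ : E3 → LRˣ) {n : ℕ} (φ ψ : Coch E3 LR n) :
    gau σ (φ + ψ) = gau σ φ + gau σ ψ := gau_add (G := LRˣ) σ φ ψ

theorem zr_dd (h : Geo3 K S R g u k α β) {n : ℕ} {φ : Coch E3 LR n} (hφ : LZ K φ) :
    LZ R (gau (sR S R) (dd (invt (tT S R)) φ) - dd one (gau (sR S R) φ)) := by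
  have h1 := dd_gau (G := LRˣ) (sr_triv h) φ
  have h2 : LZ K (dd one (gau (sR S R) φ)) := LZ.dd (G := ℤˣ) (axr_lzgau hφ _) one
  have h3 : LZ K (gau (sR S R) (dd (invt (tT S R)) φ)) := axr_lzgau (axr_lzdd hφ _) _
  exact axr_both (LZ.symm h1) (h3.sub h2)

theorem zr_dd' (h : Geo3 K S R g u k α β) {n : ℕ} {φ : Coch E3 LR n} (hφ : LZ K φ) :
    LZ (rho3 ⁻¹' R) (gau (sR' S R) (dd (invt (tT S R)) φ) - dd one (gau (sR' S R) φ)) := by
  have h1 := dd_gau (G := LRˣ) (sr_triv' h) φ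
  have h2 : LZ K (dd one (gau (sR' S R) φ)) := LZ.dd (G := ℤˣ) (axr_lzgau hφ _) one
  have h3 : LZ K (gau (sR' S R) (dd (invt (tT S R)) φ)) := axr_lzgau (axr_lzdd hφ _) _
  exact axr_both (LZ.symm h1) (h3.sub h2)

theorem zr_exists (h : Geo3 K S R g u k α β) (hV : LZ K V)
    (hc : LZ (S ∪ rho3 ⁻¹' S) (dd one V)) : ∃ Z, ZRep K S R V Z := by
  have h1 : LZ (S ∪ rho3 ⁻¹' S) (gau (fun x => (sR S R x)⁻¹) (dd one V)) := axr_lzgau hc _
  obtain ⟨Z, a, b⟩ := isd_glueR h (h1.mono subset_union_left) (h1.mono subset_union_right)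
  refine ⟨Z, b.mono (axr_KR' h), ?_, b⟩
  have h2 := axr_lzgau a (sR S R)
  rw [axr_gausub, axr_gaugau'] at h2
  exact h2

theorem zr_coc (h : Geo3 K S R g u k α β) (hZ : ZRep K S R V Z) :
    Coc (invt (tT S R)) univ K Z := by
  refine ⟨hZ.1, isd_univ h ?_ (axr_lzdd hZ.2.2 _)⟩
  apply axr_gau (σ := sR S R)
  have h1 : LZ R (dd one (gau (sR S R) Z - dd one V)) := LZ.dd (G := ℤˣ) hZ.2.1 one
  rw [dd_sub] at h1
  have h2 := (zr_dd h hZ.1).add (h1.add (LZ_dd_dd (G := ℤˣ) (IsTw.one R) V))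
  exact axr_eq h2 (by abel)

theorem zr_add (hZ : ZRep K S R V Z) (hZ' : ZRep K S R V' Z') :
    ZRep K S R (V + V') (Z + Z') := by
  refine ⟨hZ.1.add hZ'.1, ?_, hZ.2.2.add hZ'.2.2⟩
  rw [axr_gauadd, dd_add]
  exact axr_eq (hZ.2.1.add hZ'.2.1) (by abel)

theorem zr_sub (hZ : ZRep K S R V Z) (hZ' : ZRep K S R V' Z') :
    ZRep K S R (V - V') (Z - Z') := by
  refine ⟨hZ.1.sub hZ'.1, ?_, hZ.2.2.sub hZ'.2.2⟩
  rw [axr_gausub, dd_sub]
  exact axr_eq (hZ.2.1.sub hZ'.2.1) (by abel)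

theorem axr_smul {Q : Set E3} {n : ℕ} {φ : Coch E3 LR n} (c : LR) (h : LZ Q φ) :
    LZ Q (c • φ) := by
  intro x hx
  filter_upwards [h x hx] with t ht
  show c • φ t = 0
  rw [ht, smul_zero]

theorem axr_dd_smul {n : ℕ} (c : LR) (φ : Coch E3 LR n) : dd one (c • φ) = c • dd one φ := by
  funext t
  show (one (t 0) (t 1) : ℤˣ) • (c • φ (fun j => t j.succ)) +
      ∑ i : Fin (n + 1), (-1 : ℤ) ^ ((i : ℕ) + 1) • (c • φ (fun j => t (i.succ.succAbove j))) =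
    c • ((one (t 0) (t 1) : ℤˣ) • φ (fun j => t j.succ) +
      ∑ i : Fin (n + 1), (-1 : ℤ) ^ ((i : ℕ) + 1) • φ (fun j => t (i.succ.succAbove j)))
  rw [smul_add, Finset.smul_sum]
  congr 1
  · simp [one]
  · refine Finset.sum_congr rfl fun i _ => ?_
    rw [smul_eq_mul, smul_eq_mul, mul_smul_comm]

theorem zr_smul (c : LR) (hZ : ZRep K S R V Z) : ZRep K S R (c • V) (c • Z) := by
  refine ⟨axr_smul c hZ.1, ?_, axr_smul c hZ.2.2⟩
  rw [axr_dd_smul]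
  have h1 : gau (sR S R) (c • Z) = c • gau (sR S R) Z := by
    funext t
    show ((sR S R (t 0) : LRˣ) : LR) * (c * Z t) = c * (((sR S R (t 0) : LRˣ) : LR) * Z t)
    ring
  rw [h1, ← smul_sub]
  exact axr_smul c hZ.2.1

theorem zr_cob (h : Geo3 K S R g u k α β) (hV : LZ K V) (hc : Cob one (S ∪ rho3 ⁻¹' S) K V)
    (hZ : ZRep K S R V Z) : Cob (invt (tT S R)) univ K Z := by
  obtain ⟨p, hp, hVp⟩ := hc
  have h1 : LZ (S ∪ rho3 ⁻¹' S) (gau (fun x => (sR S R x)⁻¹) (V - dd one p)) :=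
    axr_lzgau hVp _
  obtain ⟨φ, a, b⟩ := isd_glueR h (h1.mono subset_union_left) (h1.mono subset_union_right)
  have hφK : LZ K φ := b.mono (axr_KR' h)
  refine ⟨φ, hφK, isd_univ h ?_ (hZ.2.2.sub (axr_lzdd b _))⟩
  apply axr_gau (σ := sR S R)
  have h2 : LZ R (dd one (gau (sR S R) (φ - gau (fun x => (sR S R x)⁻¹) (V - dd one p)))) :=
    LZ.dd (G := ℤˣ) (axr_lzgau a (sR S R)) one
  rw [axr_gausub, axr_gaugau', dd_sub, dd_sub] at h2
  have h3 := zr_dd h hφK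
  have h4 := ((hZ.2.1.sub h3).sub h2).add (LZ_dd_dd (G := ℤˣ) (IsTw.one R) p)
  rw [axr_gausub]
  exact axr_eq h4 (by abel)

theorem zr_R (h : Geo3 K S R g u k α β) (hV : LZ K V) (hW : LZ K W) (hWc : LZ R (dd one W))
    (hVW : Cob one (S ∪ rho3 ⁻¹' S) K (V - W)) (hZ : ZRep K S R V Z) :
    Cob (invt (tT S R)) univ K Z := by
  have h0 : ZRep K S R W 0 := by
    refine ⟨LZ.zero _, ?_, LZ.zero _⟩
    have h1 : gau (sR S R) (0 : Coch E3 LR 2) = 0 := by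
      funext t
      show ((sR S R (t 0) : LRˣ) : LR) * 0 = 0
      rw [mul_zero]
    rw [h1, zero_sub]
    exact hWc.neg
  have h1 := zr_sub hZ h0
  rw [sub_zero] at h1
  exact zr_cob h (hV.sub hW) hVW h1

theorem zr_R' (h : Geo3 K S R g u k α β) (hV : LZ K V) (hW : LZ K W)
    (hWc : LZ (rho3 ⁻¹' R) (dd one W)) (h1 : Cob one S K (V - (T (-1) : LR) • W))
    (h2 : Cob one (rho3 ⁻¹' S) K (V - W)) (hZ : ZRep K S R V Z) :
    Cob (invt (tT S R)) univ K Z := by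
  set φ : Coch E3 LR 1 := gau (fun x => (sR' S R x)⁻¹) W with hφ
  have hφK : LZ K φ := axr_lzgau hW _
  set V₀ : Coch E3 LR 1 := gau (sR S R) φ with hV₀
  have hV₀K : LZ K V₀ := axr_lzgau hφK _
  have hrep : ZRep K S R V₀ (dd (invt (tT S R)) φ) := by
    refine ⟨axr_lzdd hφK _, zr_dd h hφK, ?_⟩
    apply axr_gau (σ := sR' S R)
    have h3 := zr_dd' h hφK
    rw [hφ, axr_gaugau'] at h3
    have h4 := h3.add hWc
    rw [sub_add_cancel] at h4
    exact h4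
  have hS : LZ S (V₀ - (T (-1) : LR) • W) := by
    refine axr_both (K := K) ?_ (hV₀K.sub (axr_smul _ hW))
    intro x hx
    filter_upwards [ev_coord (n := 2) (br_S h x hx) 0] with t ht
    show ((sR S R (t 0) : LRˣ) : LR) * ((((sR' S R (t 0))⁻¹ : LRˣ) : LR) * W t) -
      (T (-1) : LR) * W t = 0
    have h3 : sR S R (t 0) * (sR' S R (t 0))⁻¹ = tU (-1) := by
      unfold sR sR'
      rw [← tu_neg, ← tu_add, ht]
      congr 1
      ring
    have h4 : ((sR S R (t 0) : LRˣ) : LR) * (((sR' S R (t 0))⁻¹ : LRˣ) : LR) = T (-1) := by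
      rw [← Units.val_mul, h3]
      rfl
    rw [← mul_assoc, h4, sub_self]
  have hS' : LZ (rho3 ⁻¹' S) (V₀ - W) := by
    refine axr_both (K := K) ?_ (hV₀K.sub hW)
    intro x hx
    filter_upwards [ev_coord (n := 2) (br_S' h x hx) 0] with t ht
    show ((sR S R (t 0) : LRˣ) : LR) * ((((sR' S R (t 0))⁻¹ : LRˣ) : LR) * W t) - W t = 0
    have h3 : sR S R (t 0) * (sR' S R (t 0))⁻¹ = 1 := by
      unfold sR sR'
      rw [ht.1, ht.2, mul_inv_cancel]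
    rw [← mul_assoc, ← Units.val_mul, h3, Units.val_one, one_mul, sub_self]
  have hcob : Cob one (S ∪ rho3 ⁻¹' S) K (V - V₀) := by
    refine axr_cobU h ?_ ?_
    · exact Cob.trans (G := ℤˣ) h1 (Cob.of_LZ hS.symm)
    · exact Cob.trans (G := ℤˣ) h2 (Cob.of_LZ hS'.symm)
  have h3 := zr_cob h (hV.sub hV₀K) hcob (zr_sub hZ hrep)
  have h4 : Cob (invt (tT S R)) univ K (dd (invt (tT S R)) φ) :=
    ⟨φ, hφK, by rw [sub_self]; exact LZ.zero _⟩
  have h5 := Cob.add (G := LRˣ) h3 h4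
  rw [sub_add_cancel] at h5
  exact h5

end PoolFbd
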