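import Pool.Agent.Work.MP_fbd21a_gt.LrBaer

/-! MODULE Shap. Homomorphisms from the commutator subgroup give twisted cocycles.
Write N(x,y) = toAdd (l (g x y)). The element m^k g(x,y) m^(-(k + N(x,y))) is in the kernel of l, the commutator
subgroup, for all x, y, k (l m = ofAdd 1). zc_add, zc_smul: immediate.
zc_coc: near the diagonal g x y * g y z = g x z, N(x,z) = N(x,y) + N(y,z), N = n:
m^k g(x,z) m^(-(k+N(x,z))) = (m^k g(x,y) m^(-(k+N(x,y)))) (m^(k+N(x,y)) g(y,z) m^(-(k+N(x,y)+N(y,z)))), so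
z(x,z)(k) = z(x,y)(k) + z(y,z)(k + n(x,y)) = z(x,y)(k) + (tU (n x y) • z(y,z))(k); dd in degree 1 on (x,y,z) is
τ(x,y) z(y,z) - z(x,z) + z(x,y).
zc_inj: z(x,y)(k) = s(y)(k + n(x,y)) - s(x)(k) near the diagonal (s a DZ-valued function, ψ (fun _ => x)). For
γ ∈ commutator take a chain c 0, .., c N for W = this formula, N(x,y) = n(x,y). With g_i = g (c i) (c (i+1)), n_i = N(..),
P_j = chP g c j, M_j = toAdd (l P_j) = Σ_{i<j} n_i: P_j m^(-M_j) ∈ commutator and by induction
χ (P_j m^(-M_j)) = s(c j)(M_j) - s(c 0)(0): P_(j+1) m^(-M_(j+1)) = (P_j m^(-M_j)) (m^(M_j) g_j m^(-(M_j + n_j))).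
For j = N: M_N = toAdd (l γ) = 0, c N = c 0 = x₀: χ γ = 0. -/

open Topology Filter Set

namespace PoolFbd

variable {X G : Type} [TopologicalSpace X] [Group G] {x₀ : X} {n : X → X → ℤ} {g : X → X → G}
  {l : G →* Multiplicative ℤ} {m : G}

open Classical in
/-- Extension of `χ` by zero. -/
private noncomputable def shX (χ : Additive (commutator G) →+ ℚ) (a : G) : ℚ :=
  if ha : a ∈ commutator G then χ (Additive.ofMul ⟨a, ha⟩) else 0

/-- The normalised element. -/
private def shU (l : G →* Multiplicative ℤ) (m γ : G) (k : ℤ) : G :=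
  m ^ k * γ * m ^ (-(k + Multiplicative.toAdd (l γ)))

omit [TopologicalSpace X] in
private theorem sh_zC (χ : Additive (commutator G) →+ ℚ) (t : Fin 2 → X) (k : ℤ) :
    (zC g l m χ t : DZ) k = shX χ (shU l m (g (t 0) (t 1)) k) := rfl

private theorem shX_mul (χ : Additive (commutator G) →+ ℚ) {a b : G} (ha : a ∈ commutator G)
    (hb : b ∈ commutator G) : shX χ (a * b) = shX χ a + shX χ b := by
  unfold shX
  rw [dif_pos ha, dif_pos hb, dif_pos (mul_mem ha hb), ← map_add]
  rfl

private theorem shU_mem (hk : l.ker = commutator G) (hm : l m = Multiplicative.ofAdd 1) (γ : G)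
    (k : ℤ) : shU l m γ k ∈ commutator G := by
  rw [← hk, MonoidHom.mem_ker]
  unfold shU
  rw [map_mul, map_mul, map_zpow, map_zpow, hm]
  apply Multiplicative.toAdd.injective
  simp only [toAdd_mul, toAdd_zpow, toAdd_ofAdd, toAdd_one, smul_eq_mul, mul_one]
  ring

private theorem shU_mul (γ δ : G) (k : ℤ) : shU l m (γ * δ) k =
    shU l m γ k * shU l m δ (k + Multiplicative.toAdd (l γ)) := by
  unfold shU
  have h1 : m ^ (-(k + Multiplicative.toAdd (l γ))) * m ^ (k + Multiplicative.toAdd (l γ)) = 1 := by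
    rw [← zpow_add, neg_add_cancel, zpow_zero]
  have h2 : -(k + Multiplicative.toAdd (l (γ * δ))) =
      -(k + Multiplicative.toAdd (l γ) + Multiplicative.toAdd (l δ)) := by
    rw [map_mul, toAdd_mul]
    ring
  rw [h2]
  calc m ^ k * (γ * δ) * m ^ (-(k + Multiplicative.toAdd (l γ) + Multiplicative.toAdd (l δ)))
      = m ^ k * γ * 1 * δ *
        m ^ (-(k + Multiplicative.toAdd (l γ) + Multiplicative.toAdd (l δ))) := by group
    _ = _ := by
      rw [← h1]
      simp only [mul_assoc]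

theorem zc_add (χ χ' : Additive (commutator G) →+ ℚ) :
    zC g l m (χ + χ') = zC g l m χ + zC g l m χ' := by
  funext t
  funext k
  show shX (χ + χ') (shU l m (g (t 0) (t 1)) k) =
    shX χ (shU l m (g (t 0) (t 1)) k) + shX χ' (shU l m (g (t 0) (t 1)) k)
  unfold shX
  split_ifs
  · rfl
  · rw [add_zero]

theorem zc_smul (c : ℚ) (χ : Additive (commutator G) →+ ℚ) :
    zC g l m (c • χ) = c • zC g l m χ := by
  funext t
  funext k
  show shX (c • χ) (shU l m (g (t 0) (t 1)) k) =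
    c • shX χ (shU l m (g (t 0) (t 1)) k)
  unfold shX
  split_ifs
  · rfl
  · rw [smul_zero]

theorem zc_coc (h : NCo x₀ n g l m) (χ : Additive (commutator G) →+ ℚ) :
    LZ univ (dd (fun x y => tU (n x y)) (zC g l m χ)) := by
  intro x hx
  filter_upwards [h.coc x hx, (tendsto_face (![0, 1] : Fin 2 → Fin 3) x).eventually (h.ln x)]
    with t ht hn
  have hn' : Multiplicative.toAdd (l (g (t 0) (t 1))) = n (t 0) (t 1) := hn
  funext k
  show ((tU (n (t 0) (t 1)) • zC g l m χ (fun j => t j.succ) +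
    ∑ i : Fin 2, (-1 : ℤ) ^ ((i : ℕ) + 1) • zC g l m χ (fun j => t (i.succ.succAbove j)) : DZ)) k = 0
  rw [Fin.sum_univ_two]
  have e1 : (fun j : Fin 2 => t ((0 : Fin 2).succ.succAbove j)) = ![t 0, t 2] := by
    funext j
    fin_cases j <;> rfl
  have e2 : (fun j : Fin 2 => t ((1 : Fin 2).succ.succAbove j)) = ![t 0, t 1] := by
    funext j
    fin_cases j <;> rfl
  have e3 : (fun j : Fin 2 => t j.succ) = ![t 1, t 2] := by
    funext j
    fin_cases j <;> rfl
  have e4 : (-1 : ℤ) ^ (((0 : Fin 2) : ℕ) + 1) = -1 := by norm_num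
  have e5 : (-1 : ℤ) ^ (((1 : Fin 2) : ℕ) + 1) = 1 := by norm_num
  rw [e4, e5]
  show ((tU (n (t 0) (t 1)) • zC g l m χ (fun j => t j.succ) + (
    (-1 : ℤ) • zC g l m χ (fun j : Fin 2 => t ((0 : Fin 2).succ.succAbove j)) +
    (1 : ℤ) • zC g l m χ (fun j : Fin 2 => t ((1 : Fin 2).succ.succAbove j))) : DZ)) k = 0
  rw [e1, e2, e3, neg_smul, one_smul, one_smul, dz_add, dz_add, tu_smul]
  show shX χ (shU l m (g (t 1) (t 2)) (k + n (t 0) (t 1))) +
    (-(shX χ (shU l m (g (t 0) (t 2)) k)) + shX χ (shU l m (g (t 0) (t 1)) k)) = 0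
  rw [← ht, shU_mul, shX_mul χ (shU_mem h.ker h.lm _ _) (shU_mem h.ker h.lm _ _), hn']
  ring

theorem zc_inj (h : NCo x₀ n g l m) (χ : Additive (commutator G) →+ ℚ)
    (h0 : Cob (fun x y => tU (n x y)) univ ∅ (zC g l m χ)) : χ = 0 := by
  obtain ⟨ψ, -, hψ⟩ := h0
  set s : X → DZ := fun x => ψ (fun _ => x) with hs
  have hW : ∀ x, ∀ᶠ t in 𝓝 (fun _ : Fin 2 => x),
      (∀ k : ℤ, shX χ (shU l m (g (t 0) (t 1)) k) =
        (s (t 1)) (k + n (t 0) (t 1)) - (s (t 0)) k) ∧
      Multiplicative.toAdd (l (g (t 0) (t 1))) = n (t 0) (t 1) := by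
    intro x
    filter_upwards [hψ x (mem_univ x), h.ln x] with t ht hn
    refine ⟨fun k => ?_, hn⟩
    have h1 : zC g l m χ t - (tU (n (t 0) (t 1)) • ψ (fun j => t j.succ) +
      ∑ i : Fin 1, (-1 : ℤ) ^ ((i : ℕ) + 1) • ψ (fun j => t (i.succ.succAbove j))) = 0 := ht
    rw [Fin.sum_univ_one] at h1
    have e1 : (fun j : Fin 1 => t ((0 : Fin 1).succ.succAbove j)) = fun _ => t 0 := by
      funext j
      fin_cases j
      rfl
    have e3 : (fun j : Fin 1 => t j.succ) = fun _ => t 1 := by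
      funext j
      fin_cases j
      rfl
    have e4 : (-1 : ℤ) ^ (((0 : Fin 1) : ℕ) + 1) = -1 := by norm_num
    rw [e4] at h1
    have h1' : zC g l m χ t = tU (n (t 0) (t 1)) • ψ (fun j : Fin 1 => t j.succ) +
      (-1 : ℤ) • ψ (fun j : Fin 1 => t ((0 : Fin 1).succ.succAbove j)) := sub_eq_zero.1 h1
    rw [e1, e3, neg_smul, one_smul] at h1'
    have h2 : (zC g l m χ t : DZ) k =
        (tU (n (t 0) (t 1)) • s (t 1) + -(s (t 0)) : DZ) k := by rw [h1']
    rw [dz_add, tu_smul, sh_zC] at h2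
    rw [h2]
    exact (sub_eq_add_neg _ _).symm
  refine AddMonoidHom.ext fun y => ?_
  obtain ⟨N, c, hc0, hcN, hcW, hγ⟩ := h.chain (fun a b =>
    (∀ k : ℤ, shX χ (shU l m (g a b) k) = (s b) (k + n a b) - (s a) k) ∧
      Multiplicative.toAdd (l (g a b)) = n a b) hW ((Additive.toMul y : commutator G) : G)
  have key : ∀ j, j ≤ N → shX χ (shU l m (chP g c j) 0) =
      (s (c j)) (Multiplicative.toAdd (l (chP g c j))) - (s (c 0)) 0 := by
    intro j
    induction j with
    | zero =>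
      intro _
      have h1 : chP g c 0 = 1 := rfl
      have h2 : shU l m (1 : G) 0 = 1 := by
        unfold shU
        rw [map_one, toAdd_one]
        simp
      rw [h1, h2, map_one, toAdd_one, sub_self]
      unfold shX
      rw [dif_pos (one_mem _)]
      exact map_zero χ
    | succ j ih =>
      intro hj
      have h1 := ih (by omega)
      obtain ⟨h2, h3⟩ := hcW j (by omega)
      have h4 : chP g c (j + 1) = chP g c j * g (c j) (c (j + 1)) := rfl
      rw [h4, shU_mul, shX_mul χ (shU_mem h.ker h.lm _ _) (shU_mem h.ker h.lm _ _), h1, h2,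
        map_mul, toAdd_mul, h3, zero_add]
      ring
  have h1 := key N le_rfl
  have hmem : ((Additive.toMul y : commutator G) : G) ∈ commutator G := (Additive.toMul y).2
  have hl : l ((Additive.toMul y : commutator G) : G) = 1 := by
    have h5 : commutator G ≤ l.ker := h.ker.ge
    exact h5 hmem
  rw [← hγ, hl, toAdd_one, hcN, hc0, sub_self] at h1
  have h2 : shU l m ((Additive.toMul y : commutator G) : G) 0 =
      ((Additive.toMul y : commutator G) : G) := by
    unfold shU
    rw [hl, toAdd_one]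
    simp
  rw [h2] at h1
  unfold shX at h1
  rw [dif_pos hmem] at h1
  exact h1

end PoolFbd
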