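import Pool.Agent.Work.MP_fbd21a_gt.AxFun
import Pool.Agent.Work.MP_fbd21a_gt.AbZ
import Pool.Agent.Work.MP_fbd21a_gt.Shap

/-! MODULE AxThm. The rational Alexander module has dimension at most two.
PROOF. ab_z gives g', l, m. For χ: a χ = pb κ (zC g' l m χ) is a cocycle for tT S R near Kᶜ: near x ∉ K the map κ is
continuous at x and ι (κ y) = y for y near x (Kᶜ open: h.cK), so the twist tU (nS (ι κ t0) (ι κ t1)) is tT (t0) (t1) there
(zc_coc, LZ.pb). Θ χ j = (Itg3 (cup (Z j) (a χ))) 0 with Z from ax_fun: additive and ℚ-linear in χ (zc_add, zc_smul,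
cup_add_right, itg3_add with cup_coc; for a rational number q: itg3_map for the additive map f ↦ q • f of DZ and
cup (Z j) (q • a) = q • cup (Z j) a pointwise: the LR-action commutes with rational scalars, actL is an algebra map).
Injective: Θ χ = 0 gives Cob (tT S R) Kᶜ ∅ (a χ), pull back by ι (continuous, ι x ∉ K, κ (ι x) = x):
Cob (fun x y => tU (nS (ι x) (ι y))) univ ∅ (zC g' l m χ), zc_inj. Then Module.Finite.of_injective and
LinearMap.finrank_le_finrank_of_injective into Fin 2 → ℚ. -/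

open Topology Filter Set LaurentPolynomial

namespace PoolFbd

variable {K S R : Set E3} {g u : Fin 2 → Coch E3 ℤ 1} {k : Coch E3 ℤ 1}

private theorem axthm_comm (r : LR) (c : ℚ) (f : DZ) : r • (c • f) = c • (r • f) :=
  map_smul (actL r) c f

private theorem axthm_cup {p q n : ℕ} (hn : q + p = n) (τ : E3 → E3 → LRˣ) (z : Coch E3 LR q)
    (c : ℚ) (φ : Coch E3 DZ p) : cup hn τ z (c • φ) = c • cup hn τ z φ := by
  funext t
  simp only [cup, Pi.smul_apply, Units.smul_def]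
  rw [axthm_comm, axthm_comm]

private theorem axthm_coc (h : Geo3 K S R g u k alM beM) {X G : Type} [TopologicalSpace X]
    [Group G] {ι : X → E3} {κ : E3 → X} (hC : CEmb K ι κ) {x₀ : X} {g' : X → X → G}
    {l : G →* Multiplicative ℤ} {m : G}
    (hN : NCo x₀ (fun x y => nS S R (ι x) (ι y)) g' l m)
    (χ : Additive (commutator G) →+ ℚ) : LZ Kᶜ (dd (tT S R) (pb κ (zC g' l m χ))) := by
  have h1 := zc_coc hN χ
  have h2 : LZ Kᶜ (pb κ (dd (fun x y => tU (nS S R (ι x) (ι y))) (zC g' l m χ))) :=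
    h1.pb fun x hx => ⟨hC.ck x hx, mem_univ _⟩
  intro x hx
  have h3 : ∀ᶠ y in 𝓝 x, y ∉ K := h.cK.isOpen_compl.mem_nhds hx
  have h4 : ∀ᶠ t in 𝓝 (fun _ : Fin (1 + 1 + 1) => x), t 0 ∉ K :=
    ((continuous_apply (0 : Fin (1 + 1 + 1))).tendsto (fun _ => x)).eventually h3
  have h5 : ∀ᶠ t in 𝓝 (fun _ : Fin (1 + 1 + 1) => x), t 1 ∉ K :=
    ((continuous_apply (1 : Fin (1 + 1 + 1))).tendsto (fun _ => x)).eventually h3
  filter_upwards [h2 x hx, h4, h5] with t e0 e1 e2
  rw [← e0]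
  show tU (nS S R (t 0) (t 1)) • pb κ (zC g' l m χ) (fun j => t j.succ) +
      ∑ i : Fin (1 + 1), (-1 : ℤ) ^ ((i : ℕ) + 1) •
        pb κ (zC g' l m χ) (fun j => t (i.succ.succAbove j)) =
    tU (nS S R (ι (κ (t 0))) (ι (κ (t 1)))) • pb κ (zC g' l m χ) (fun j => t j.succ) +
      ∑ i : Fin (1 + 1), (-1 : ℤ) ^ ((i : ℕ) + 1) •
        pb κ (zC g' l m χ) (fun j => t (i.succ.succAbove j))
  rw [hC.ik _ e1, hC.ik _ e2]

theorem alex_bound (h : Geo3 K S R g u k alM beM) {X G : Type} [TopologicalSpace X] [Group G]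
    {ι : X → E3} {κ : E3 → X} (hC : CEmb K ι κ) {x₀ : X} {g₀ : X → X → G} (hg : PCo x₀ g₀) :
    Module.Finite ℚ (Additive (commutator G) →+ ℚ) ∧
      Module.finrank ℚ (Additive (commutator G) →+ ℚ) ≤ 2 := by
  obtain ⟨g', l, m, hN⟩ := ab_z h hC hg
  obtain ⟨Z, hZ, hZ2⟩ := ax_fun h
  have hU : (univ : Set E3) \ K = Kᶜ := (Set.compl_eq_univ_sdiff K).symm
  have htw : IsTw (univ \ K) (tT S R) := by rw [hU]; exact tt_tw h
  have hcoc : ∀ (χ : Additive (commutator G) →+ ℚ) (j : Fin 2),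
      LZ univ (dd one (cup (rfl : 2 + 1 = 3) (tT S R) (Z j) (pb κ (zC g' l m χ)))) := by
    intro χ j
    refine (cup_coc (Z := K) (rfl : 2 + 1 = 3) htw (hZ j) ?_).2
    rw [hU]
    exact axthm_coc h hC hN χ
  let Th : (Additive (commutator G) →+ ℚ) →ₗ[ℚ] (Fin 2 → ℚ) :=
    { toFun := fun χ j =>
        (Itg3 (cup (rfl : 2 + 1 = 3) (tT S R) (Z j) (pb κ (zC g' l m χ))) : DZ) 0
      map_add' := fun χ χ' => by
        funext j
        have e1 : pb κ (zC g' l m (χ + χ')) = pb κ (zC g' l m χ) + pb κ (zC g' l m χ') := by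
          rw [zc_add]
          rfl
        show (Itg3 (cup (rfl : 2 + 1 = 3) (tT S R) (Z j) (pb κ (zC g' l m (χ + χ')))) : DZ) 0 = _
        rw [e1, cup_add_right, itg3_add (hcoc χ j) (hcoc χ' j)]
        rfl
      map_smul' := fun c χ => by
        funext j
        have e1 : pb κ (zC g' l m (c • χ)) = c • pb κ (zC g' l m χ) := by
          rw [zc_smul]
          rfl
        show (Itg3 (cup (rfl : 2 + 1 = 3) (tT S R) (Z j) (pb κ (zC g' l m (c • χ)))) : DZ) 0 = _
        rw [e1, axthm_cup, itg3_smul c (hcoc χ j)]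
        rfl }
  have hinj : Function.Injective Th := by
    rw [injective_iff_map_eq_zero]
    intro χ hχ
    have h1 : ∀ j, (Itg3 (cup (rfl : 2 + 1 = 3) (tT S R) (Z j)
        (pb κ (zC g' l m χ))) : DZ) 0 = 0 := fun j => congrFun hχ j
    have h2 := hZ2 _ (axthm_coc h hC hN χ) h1
    have h3 := Cob.pb (A := DZ) (G := LRˣ) (f := ι) (S := univ) (Z := ∅) (S' := Kᶜ) (Z' := ∅)
      (fun x _ => ⟨hC.ci.continuousAt, hC.iK x⟩) (fun x hx => hx.elim) h2
    have h4 : pb ι (pb κ (zC g' l m χ)) = zC g' l m χ := by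
      funext t
      show zC g' l m χ (fun j => κ (ι (t j))) = zC g' l m χ t
      congr 1
      funext j
      exact hC.ki (t j)
    rw [h4] at h3
    exact zc_inj hN χ h3
  refine ⟨Module.Finite.of_injective Th hinj, ?_⟩
  have h5 := LinearMap.finrank_le_finrank_of_injective hinj
  rwa [Module.finrank_fin_fun] at h5

end PoolFbd
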