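import Pool.Agent.Work.MP_fbd21a_gt.Ret

/-! MODULE Retr. A retract of an acyclic set is acyclic, and acyclicity is a homeomorphism
invariant (for subsets of possibly different ambient spaces; the maps need only be defined as
functions of the ambient spaces and continuous at the points of the sets). -/

open Topology Filter Set

namespace PoolFbd

theorem acyc_homeo {E E' : Type*} [TopologicalSpace E] [TopologicalSpace E'] {S : Set E}
    {T : Set E'} (hS : Acyc S) (g : E → E') (f : E' → E) (hg : ∀ x ∈ S, ContinuousAt g x)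
    (hf : ∀ y ∈ T, ContinuousAt f y) (hgS : ∀ x ∈ S, g x ∈ T) (hfT : ∀ y ∈ T, f y ∈ S)
    (hgf : ∀ y ∈ T, g (f y) = y) : Acyc T := by
  obtain ⟨⟨x₀, hx₀⟩, hac⟩ := hS
  have hcl : ∀ {A : Type} [AddCommGroup A] {n : ℕ} (φ : Coch E' A n), LZ T (dd one φ) →
      LZ S (dd one (pb g φ)) ∧ Cob one T ∅ (φ - pb f (pb g φ)) := by
    intro A _ n φ hφ
    refine ⟨?_, ?_⟩
    · have := hφ.pb (f := g) (S := S) (fun x hx => ⟨hg x hx, hgS x hx⟩)
      rwa [← dd_pb, pbt_one] at this
    · have := ret_one (S := T) (Z := ∅) (S' := T) (Z' := ∅) (f := id) (g := fun y => g (f y))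
        (fun x _ => continuousAt_id)
        (fun x hx => by
          rw [union_empty] at hx
          exact (hg (f x) (hfT x hx)).comp (hf x hx))
        (fun x hx => by
          rw [union_empty] at hx
          exact (hgf x hx).symm) (fun x hx => hx) (fun x hx => hx) (φ := φ)
        ⟨LZ.empty φ, hφ⟩
      exact this
  refine ⟨⟨g x₀, hgS x₀ hx₀⟩, fun A _ => ⟨fun φ hφ => ?_, fun n φ hφ => ?_⟩⟩
  · obtain ⟨h1, h2⟩ := hcl φ hφ
    obtain ⟨a, ha⟩ := (hac A).1 _ h1
    refine ⟨a, ?_⟩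
    have h3 := ha.pb (f := f) (S := T) (fun y hy => ⟨hf y hy, hfT y hy⟩)
    have e : φ - cst E' 0 a = (φ - pb f (pb g φ)) + pb f (pb g φ - cst E 0 a) := by
      funext t
      simp [pb, cst]
    rw [e]
    exact LZ.add h2 h3
  · obtain ⟨h1, h2⟩ := hcl φ hφ
    have h3 := (hac A).2 n _ h1
    have h4 := Cob.pb (f := f) (S := T) (Z := ∅) (fun y hy => ⟨hf y hy, hfT y hy⟩)
      (fun y hy => hy.elim) h3
    rw [pbt_one] at h4
    have e : φ = (φ - pb f (pb g φ)) + pb f (pb g φ) := by abel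
    rw [e]
    exact h2.add h4

theorem acyc_retract {E : Type*} [TopologicalSpace E] {S T : Set E} (hS : Acyc S)
    (hTS : T ⊆ S) (r : E → E) (hr : ∀ x ∈ S, ContinuousAt r x) (hrS : ∀ x ∈ S, r x ∈ T)
    (hrT : ∀ x ∈ T, r x = x) : Acyc T :=
  acyc_homeo hS r id hr (fun _ _ => continuousAt_id) hrS (fun y hy => hTS hy) hrT

end PoolFbd
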