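import Pool.Agent.Work.MP_fbd21a_gt.AcBox
import Pool.Agent.Work.MP_fbd21a_gt.Retr

/-! MODULE BMinus. The union bdm n of all faces of Q (n+1) except the top face is acyclic.
PROOF. acyc_retract with S = univ (acyc_Q), T = bdm n and the radial retraction from the point
P = (0,..,0,3): for x = (y, z), y the first n coordinates, z the last, put
‖y‖ = max |y_i| (0 if n = 0), lam x = 4 / max (4 ‖y‖) (3 - z) (denominator ≥ 2),
r x = P + lam x • (x - P), i.e. coordinates lam * y_i and 3 + lam * (z - 3), clamped to [-1,1]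
(projIcc) so that r is total; they are in [-1,1] anyway: |lam y_i| ≤ 1, and
-1 ≤ 3 - 4 (3 - z)/max(..) ; 3 + lam (z-3) ≤ z ≤ 1 as lam ≥ 1 (4‖y‖ ≤ 4, 3 - z ≤ 4).
r x ∈ bdm: if the max is 4‖y‖ then a coordinate is ±1, else the last one is 3 - 4 = -1.
On bdm: ‖y‖ = 1 or z = -1 gives max = 4, lam = 1, r x = x. Continuity: coordinatewise; use the
sup norm of the vector fun i => (y i : ℝ) in Fin n → ℝ (`norm_le`, `pi_norm_le_iff_of_nonneg`). -/

open Topology Filter Set

namespace PoolFbd

private noncomputable def bmi_y {n : ℕ} (x : Q (n + 1)) : Fin n → ℝ := fun i => (x i.castSucc : ℝ)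

private noncomputable def bmi_m {n : ℕ} (x : Q (n + 1)) : ℝ :=
  max (4 * ‖bmi_y x‖) (3 - (x (Fin.last n) : ℝ))

private noncomputable def bmi_r {n : ℕ} (x : Q (n + 1)) : Q (n + 1) :=
  fun i => projIcc (-1 : ℝ) 1 (by norm_num)
    (if i = Fin.last n then 3 + 4 / bmi_m x * ((x i : ℝ) - 3) else 4 / bmi_m x * (x i : ℝ))

private lemma bmi_cont {n : ℕ} : Continuous (bmi_r : Q (n + 1) → Q (n + 1)) := by
  have hx : ∀ i : Fin (n + 1), Continuous fun x : Q (n + 1) => ((x i : Icc (-1 : ℝ) 1) : ℝ) :=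
    fun i => continuous_subtype_val.comp (continuous_apply i)
  have hy : Continuous (bmi_y : Q (n + 1) → Fin n → ℝ) := continuous_pi fun i => hx i.castSucc
  have hm : Continuous (bmi_m : Q (n + 1) → ℝ) :=
    (continuous_const.mul hy.norm).max (continuous_const.sub (hx (Fin.last n)))
  have hm0 : ∀ x : Q (n + 1), bmi_m x ≠ 0 := by
    intro x
    have h1 := le_max_right (4 * ‖bmi_y x‖) (3 - (x (Fin.last n) : ℝ))
    have h2 := (x (Fin.last n)).2.2
    have h3 : 2 ≤ bmi_m x := by unfold bmi_m; linarith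
    linarith
  have hd : Continuous fun x : Q (n + 1) => 4 / bmi_m x := continuous_const.div hm hm0
  refine continuous_pi fun i => continuous_projIcc.comp ?_
  by_cases h : i = Fin.last n
  · simp only [if_pos h]
    exact continuous_const.add (hd.mul ((hx i).sub continuous_const))
  · simp only [if_neg h]
    exact hd.mul (hx i)

private lemma bmi_norm_le {n : ℕ} (x : Q (n + 1)) : ‖bmi_y x‖ ≤ 1 := by
  rw [pi_norm_le_iff_of_nonneg zero_le_one]
  intro i
  rw [Real.norm_eq_abs, abs_le]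
  exact (x i.castSucc).2

private lemma bmi_m_le {n : ℕ} (x : Q (n + 1)) : bmi_m x ≤ 4 := by
  unfold bmi_m
  apply max_le
  · linarith [bmi_norm_le x]
  · linarith [(x (Fin.last n)).2.1]

private lemma bmi_m_ge {n : ℕ} (x : Q (n + 1)) : 2 ≤ bmi_m x := by
  have h1 := le_max_right (4 * ‖bmi_y x‖) (3 - (x (Fin.last n) : ℝ))
  have h2 := (x (Fin.last n)).2.2
  unfold bmi_m
  linarith

private lemma bmi_mem {n : ℕ} (x : Q (n + 1)) : bmi_r x ∈ bdm n := by
  have hm2 := bmi_m_ge x
  have hm0 : 0 < bmi_m x := by linarith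
  rcases le_total (3 - (x (Fin.last n) : ℝ)) (4 * ‖bmi_y x‖) with h | h
  · -- a side face
    have hm : bmi_m x = 4 * ‖bmi_y x‖ := max_eq_left h
    have hν : 0 < ‖bmi_y x‖ := by linarith
    obtain ⟨i, hi⟩ : ∃ i, ‖bmi_y x‖ ≤ ‖bmi_y x i‖ := by
      by_contra hcon
      push Not at hcon
      exact lt_irrefl _ ((pi_norm_lt_iff hν).2 hcon)
    have hi2 : |(x i.castSucc : ℝ)| = ‖bmi_y x‖ := le_antisymm (norm_le_pi_norm (bmi_y x) i) hi
    left
    refine ⟨i, ?_⟩
    have hne : i.castSucc ≠ Fin.last n := (Fin.castSucc_lt_last i).ne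
    have hval : (4 / bmi_m x * (x i.castSucc : ℝ)) = -1 ∨ (4 / bmi_m x * (x i.castSucc : ℝ)) = 1 := by
      rw [hm]
      rcases abs_cases ((x i.castSucc : ℝ)) with ⟨h1, _⟩ | ⟨h1, _⟩
      · right
        rw [h1] at hi2
        rw [hi2]
        field_simp
      · left
        rw [h1] at hi2
        have h5 : (x i.castSucc : ℝ) = -‖bmi_y x‖ := by linarith
        rw [h5]
        field_simp
    have hr : (bmi_r x i.castSucc : ℝ) = 4 / bmi_m x * (x i.castSucc : ℝ) := by
      unfold bmi_r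
      rw [if_neg hne, projIcc_of_mem (by norm_num : (-1 : ℝ) ≤ 1)]
      rcases hval with h6 | h6 <;> rw [h6] <;> constructor <;> norm_num
    rw [hr]
    exact hval
  · right
    have hm : bmi_m x = 3 - (x (Fin.last n) : ℝ) := max_eq_right h
    have hval : 3 + 4 / bmi_m x * ((x (Fin.last n) : ℝ) - 3) = -1 := by
      have h7 : (x (Fin.last n) : ℝ) - 3 = -bmi_m x := by linarith
      rw [h7]
      field_simp
      ring
    unfold bmi_r
    rw [if_pos rfl, hval, projIcc_of_mem (by norm_num : (-1 : ℝ) ≤ 1)]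
    constructor <;> norm_num

private lemma bmi_fix {n : ℕ} {x : Q (n + 1)} (hx : x ∈ bdm n) : bmi_r x = x := by
  have hm : bmi_m x = 4 := by
    apply le_antisymm (bmi_m_le x)
    rcases hx with ⟨i, hi⟩ | h
    · have h1 : (1 : ℝ) ≤ ‖bmi_y x‖ := by
        have h2 := norm_le_pi_norm (bmi_y x) i
        have h3 : ‖bmi_y x i‖ = 1 := by
          show |(x i.castSucc : ℝ)| = 1
          rcases hi with h4 | h4 <;> rw [h4] <;> norm_num
        rw [h3] at h2
        exact h2
      have h5 := le_max_left (4 * ‖bmi_y x‖) (3 - (x (Fin.last n) : ℝ))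
      unfold bmi_m
      linarith
    · have h5 := le_max_right (4 * ‖bmi_y x‖) (3 - (x (Fin.last n) : ℝ))
      unfold bmi_m
      linarith
  funext i
  unfold bmi_r
  rw [hm, div_self (by norm_num : (4 : ℝ) ≠ 0), one_mul, one_mul]
  by_cases h : i = Fin.last n
  · rw [if_pos h]
    have e : 3 + ((x i : ℝ) - 3) = (x i : ℝ) := by ring
    rw [e]
    exact projIcc_val _ _
  · rw [if_neg h]
    exact projIcc_val _ _

theorem acyc_bdm (n : ℕ) : Acyc (bdm n) :=
  acyc_retract (acyc_Q (n + 1)) (subset_univ _) bmi_r (fun _ _ => bmi_cont.continuousAt)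
    (fun x _ => bmi_mem x) (fun _ hx => bmi_fix hx)

end PoolFbd
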