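import Pool.Agent.Work.MP_fbd21a_gt.QDefs

/-! Definitions for part 2: punctured neighbourhoods, sign local systems, the operator J. -/

open Topology Filter Set

namespace PoolFbd

section
variable {E : Type*} [TopologicalSpace E]

/-- Nonempty, and locally constant functions near `U` are constant. -/
def Conn0 (U : Set E) : Prop := U.Nonempty ∧ ∀ (A : Type) [AddCommGroup A] (φ : Coch E A 0),
  LZ U (dd one φ) → ∃ a : A, LZ U (φ - cst E 0 a)

/-- Moreover the first cohomology vanishes. -/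
def Conn1 (U : Set E) : Prop := Conn0 U ∧ ∀ (A : Type) [AddCommGroup A] (φ : Coch E A 1),
  LZ U (dd one φ) → Cob one U ∅ φ

/-- The sign twist `τ` is trivialised by `σ` near `U`. -/
def TrivBy (τ : E → E → ℤˣ) (U : Set E) (σ : E → ℤˣ) : Prop :=
  ∀ x ∈ U, ∀ᶠ t in 𝓝 (fun _ : Fin 2 => x), τ (t 0) (t 1) = (σ (t 0))⁻¹ * σ (t 1)

/-- The sign twist `τ` is trivial near `U`. -/
def TrivOn (τ : E → E → ℤˣ) (U : Set E) : Prop := ∃ σ, TrivBy τ U σ

/-- The sign twist `τ` (defined off `F`) is trivial off `F` near the point `p` of `F`. -/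
def TrivAt (τ : E → E → ℤˣ) (F : Set E) (p : E) : Prop :=
  ∃ N, IsOpen N ∧ p ∈ N ∧ TrivOn τ (N \ F)

/-- `M` is a good neighbourhood in which `F` looks like a subset of codimension two: `M \ F` is
the union of two acyclic open sets meeting in two disjoint acyclic open sets, and the points of
`F ∩ M` have small neighbourhoods with the same structure. -/
structure PNb (F M P₁ P₂ Q₁ Q₂ : Set E) : Prop where
  oM : IsOpen M
  o1 : IsOpen P₁
  o2 : IsOpen P₂
  q1 : IsOpen Q₁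
  q2 : IsOpen Q₂
  hM : M \ F = P₁ ∪ P₂
  hQ : P₁ ∩ P₂ = Q₁ ∪ Q₂
  disj : Disjoint Q₁ Q₂
  a1 : Acyc P₁
  a2 : Acyc P₂
  b1 : Acyc Q₁
  b2 : Acyc Q₂
  sub : ∀ p ∈ F ∩ M, ∀ N, IsOpen N → p ∈ N → ∃ M', IsOpen M' ∧ p ∈ M' ∧ M' ⊆ N ∩ M ∧
    Acyc (M' ∩ P₁) ∧ Acyc (M' ∩ P₂) ∧ Acyc (M' ∩ Q₁) ∧ Acyc (M' ∩ Q₂)

/-- `F` is closed and every point of `F` has arbitrarily small good neighbourhoods. -/
def Tame (F : Set E) : Prop := IsClosed F ∧ ∀ p ∈ F, ∀ N, IsOpen N → p ∈ N →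
  ∃ M P₁ P₂ Q₁ Q₂, p ∈ M ∧ M ⊆ N ∧ PNb F M P₁ P₂ Q₁ Q₂

end

/-- A sign twist as a twist by units of `R`. -/
def upt {E : Type*} (R : Type*) [CommRing R] (τ : E → E → ℤˣ) : E → E → Rˣ :=
  fun x y => Units.map (Int.castRingHom R).toMonoidHom (τ x y)

/-- The operator `J`. -/
def Jop {E A : Type*} [SMul ℤˣ A] (η : E → ℤˣ) (r : E → E) {n : ℕ} (φ : Coch E A n) :
    Coch E A n := fun t => η (t 0) • φ (fun j => r (t j))

/-- The boundary sphere of the four-cube as a space. -/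
abbrev E3 := {x : Q 4 // x ∈ bd 4}

/-- Inclusion of the boundary sphere. -/
def io : E3 → Q 4 := Subtype.val

/-- The four-cube involution on the boundary sphere. -/
def neg1 (x : Icc (-1 : ℝ) 1) : Icc (-1 : ℝ) 1 := ⟨-x, by constructor <;> linarith [x.2.1, x.2.2]⟩

/-- The linear involution `(-,-,-,+)` of the four-cube. -/
def rho : Q 4 → Q 4 := fun x => ![neg1 (x 0), neg1 (x 1), neg1 (x 2), x 3]

theorem rho_bd (x : Q 4) (hx : x ∈ bd 4) : rho x ∈ bd 4 := by
  obtain ⟨i, hi⟩ := hx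
  refine ⟨i, ?_⟩
  fin_cases i <;> simp only [rho, neg1, Fin.zero_eta, Fin.mk_one, Fin.reduceFinMk,
    Matrix.cons_val_zero, Matrix.cons_val_one, Matrix.cons_val] at hi ⊢ <;>
    rcases hi with h | h <;> simp [h]

/-- The involution of the boundary sphere. -/
def rho3 : E3 → E3 := fun x => ⟨rho x.1, rho_bd x.1 x.2⟩

/-- Supremum norm of a point of the four-cube. -/
noncomputable def nrm (x : Q 4) : ℝ := ‖(fun i => (x i : ℝ) : Fin 4 → ℝ)‖

open Classical in
/-- Radial projection of the four-cube to its boundary (base point for the origin). -/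
noncomputable def rad : Q 4 → E3 := fun x =>
  if h : ∃ y : E3, ∀ i, (x i : ℝ) = nrm x * (y.1 i : ℝ) ∧ 0 < nrm x then h.choose
  else ⟨fun _ => ⟨1, by norm_num⟩, ⟨0, Or.inr rfl⟩⟩

/-- Integral of a 3-cocycle of the boundary sphere. -/
noncomputable def Itg3 {A : Type} [AddCommGroup A] (χ : Coch E3 A 3) : A :=
  Itg (dd one (pb rad χ))

end PoolFbd
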