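import Pool.Agent.Work.MP_fbd21a_gt.StDefs
import Pool.Agent.Work.MP_fbd21a_gt.TmDefs

/-! MODULE BallQ (MATHLIB ONLY essentially). The radial homeomorphism between the four-cube and the
round ball, compatible with the boundaries and the involutions, and of the boundary spheres.
h x = (N(x) / ‖x‖₂) x for x ≠ 0, h 0 = 0, N = sup norm; inverse y ↦ (‖y‖₂ / N(y)) y. ‖h x‖₂ = N(x). Continuous at 0
because ‖h x‖₂ = N(x). (Alternatively gaugeRescaleHomeomorph.) rho is the same linear map in both models. -/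

open Topology Filter Set

namespace PoolFbd

/-- the supremum norm on the Euclidean space -/
private noncomputable def bqN : Seminorm ℝ (EuclideanSpace ℝ (Fin 4)) :=
  (normSeminorm ℝ (Fin 4 → ℝ)).comp (EuclideanSpace.equiv (Fin 4) ℝ).toLinearEquiv.toLinearMap

private theorem bqN_apply (v : EuclideanSpace ℝ (Fin 4)) :
    bqN v = ‖(fun i => v i : Fin 4 → ℝ)‖ := rfl

private theorem bq_homeo : ∃ H : EuclideanSpace ℝ (Fin 4) ≃ₜ EuclideanSpace ℝ (Fin 4),
    (∀ v, ‖H v‖ = ‖(fun i => v i : Fin 4 → ℝ)‖) ∧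
    ∀ v, H v = (‖(fun i => v i : Fin 4 → ℝ)‖ / ‖v‖) • v := by
  have hcont : Continuous bqN := by
    change Continuous fun v => ‖EuclideanSpace.equiv (Fin 4) ℝ v‖
    exact (EuclideanSpace.equiv (Fin 4) ℝ).continuous.norm
  have h0 : bqN.ball 0 1 ∈ 𝓝 (0 : EuclideanSpace ℝ (Fin 4)) := by
    rw [Seminorm.ball_zero_eq]
    exact (isOpen_lt hcont continuous_const).mem_nhds (by simp)
  have hb : Bornology.IsVonNBounded ℝ (bqN.ball 0 1) := by
    rw [NormedSpace.isVonNBounded_iff]
    refine (Metric.isBounded_closedBall (x := (0 : EuclideanSpace ℝ (Fin 4))) (r := 2)).subset ?_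
    intro v hv
    rw [Seminorm.mem_ball_zero, bqN_apply] at hv
    rw [mem_closedBall_zero_iff, EuclideanSpace.norm_eq, Real.sqrt_le_left (by norm_num)]
    have h1 : ∀ i, ‖v i‖ ^ 2 ≤ 1 := by
      intro i
      have h2 := norm_le_pi_norm (fun i => v i : Fin 4 → ℝ) i
      have h3 := norm_nonneg (v i)
      have h4 : ‖v i‖ < 1 := lt_of_le_of_lt h2 hv
      nlinarith
    have h2 := Finset.sum_le_sum (s := (Finset.univ : Finset (Fin 4))) fun i _ => h1 i
    simp at h2
    simp
    linarith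
  have hb' : Bornology.IsVonNBounded ℝ (Metric.ball (0 : EuclideanSpace ℝ (Fin 4)) 1) := by
    rw [NormedSpace.isVonNBounded_iff]
    exact Metric.isBounded_ball
  have hg : gauge (bqN.ball 0 1) = bqN := Seminorm.gauge_ball _
  refine ⟨gaugeRescaleHomeomorph (bqN.ball 0 1) (Metric.ball 0 1) (Seminorm.convex_ball _ _ _) h0 hb
    (convex_ball _ _) (Metric.ball_mem_nhds _ one_pos) hb', fun v => ?_, fun v => ?_⟩
  · change ‖gaugeRescale (bqN.ball 0 1) (Metric.ball 0 1) v‖ = _
    rw [← gauge_unit_ball, gauge_gaugeRescale _ (absorbent_nhds_zero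
      (Metric.ball_mem_nhds _ one_pos)) hb', hg]
    rfl
  · change gaugeRescale (bqN.ball 0 1) (Metric.ball 0 1) v = _
    rw [gaugeRescale_def, gauge_unit_ball, hg]
    rfl

/-- a point of the cube as a vector -/
private noncomputable def bqv (x : Q 4) : EuclideanSpace ℝ (Fin 4) :=
  WithLp.toLp 2 (fun i => (x i : ℝ))

private theorem bqv_cont : Continuous bqv := by
  unfold bqv
  refine (PiLp.continuous_toLp 2 _).comp ?_
  fun_prop

private theorem bqv_le (x : Q 4) : ‖(fun i => bqv x i : Fin 4 → ℝ)‖ ≤ 1 := by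
  rw [pi_norm_le_iff_of_nonneg zero_le_one]
  intro i
  change ‖(x i : ℝ)‖ ≤ 1
  rw [Real.norm_eq_abs, abs_le]
  exact ⟨(x i).2.1, (x i).2.2⟩

private theorem bqv_bd (x : Q 4) : x ∈ bd 4 ↔ ‖(fun i => bqv x i : Fin 4 → ℝ)‖ = 1 := by
  constructor
  · rintro ⟨i, hi⟩
    refine le_antisymm (bqv_le x) ?_
    have h1 := norm_le_pi_norm (fun i => bqv x i : Fin 4 → ℝ) i
    have h2 : ‖bqv x i‖ = 1 := by
      change ‖(x i : ℝ)‖ = 1
      rcases hi with h | h <;> rw [h] <;> norm_num
    rwa [h2] at h1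
  · intro h
    by_contra hc
    have h1 : ‖(fun i => bqv x i : Fin 4 → ℝ)‖ < 1 := by
      rw [pi_norm_lt_iff one_pos]
      intro i
      change ‖(x i : ℝ)‖ < 1
      rw [Real.norm_eq_abs, abs_lt]
      refine ⟨lt_of_le_of_ne (x i).2.1 fun h2 => hc ⟨i, Or.inl h2.symm⟩,
        lt_of_le_of_ne (x i).2.2 fun h2 => hc ⟨i, Or.inr h2⟩⟩
    exact absurd h h1.ne

private theorem bqv_rho (x : Q 4) : bqv (rho x) = rhoE (bqv x) := by
  ext i
  fin_cases i <;> rfl

private theorem bq_inv (v : EuclideanSpace ℝ (Fin 4)) (hv : ‖(fun i => v i : Fin 4 → ℝ)‖ ≤ 1) :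
    ∀ i, v i ∈ Icc (-1 : ℝ) 1 := by
  intro i
  have h1 := norm_le_pi_norm (fun i => v i : Fin 4 → ℝ) i
  have h2 : |v i| ≤ 1 := h1.trans hv
  exact ⟨(abs_le.1 h2).1, (abs_le.1 h2).2⟩

private theorem rhoE_sup (v : EuclideanSpace ℝ (Fin 4)) :
    ‖(fun i => rhoE v i : Fin 4 → ℝ)‖ = ‖(fun i => v i : Fin 4 → ℝ)‖ := by
  have key : ∀ (a b : Fin 4 → ℝ), (∀ i, ‖a i‖ = ‖b i‖) → ‖a‖ ≤ ‖b‖ := by
    intro a b hab
    rw [pi_norm_le_iff_of_nonneg (norm_nonneg _)]
    intro i
    rw [hab]
    exact norm_le_pi_norm b i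
  have h1 : ∀ i, ‖rhoE v i‖ = ‖v i‖ := by
    intro i
    fin_cases i
    · exact norm_neg _
    · exact norm_neg _
    · exact norm_neg _
    · rfl
  exact le_antisymm (key _ _ h1) (key _ _ fun i => (h1 i).symm)

theorem ballq_exists : ∃ (h : Q 4 ≃ₜ Ball4) (h3 : E3 ≃ₜ Sph3), (∀ x : E3, h (io x) = sIn (h3 x)) ∧
    (∀ x : Q 4, x ∈ bd 4 ↔ h x ∈ range sIn) ∧ (∀ x : E3, h3 (rho3 x) = rhoS (h3 x)) ∧
    ∀ x : Sph3, rho3 (h3.symm x) = h3.symm (rhoS x) := by
  obtain ⟨H, hN, hH⟩ := bq_homeo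
  have hsym : ∀ y, ‖(fun i => H.symm y i : Fin 4 → ℝ)‖ = ‖y‖ := by
    intro y
    rw [← hN, H.apply_symm_apply]
  have hrho : ∀ v, H (rhoE v) = rhoE (H v) := by
    intro v
    rw [hH, hH, rhoE_sup, rhoE_norm]
    ext i
    fin_cases i
    · change _ * -(v 0) = -(_ * v 0)
      ring
    · change _ * -(v 1) = -(_ * v 1)
      ring
    · change _ * -(v 2) = -(_ * v 2)
      ring
    · rfl
  let back : (y : EuclideanSpace ℝ (Fin 4)) → ‖y‖ ≤ 1 → Q 4 := fun y hy i =>
    ⟨H.symm y i, bq_inv _ (by rw [hsym]; exact hy) i⟩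
  have hback : ∀ y hy, bqv (back y hy) = H.symm y := by
    intro y hy
    ext i
    rfl
  have hback2 : ∀ (x : Q 4) hy, back (H (bqv x)) hy = x := by
    intro x hy
    funext i
    apply Subtype.ext
    change H.symm (H (bqv x)) i = x i
    rw [H.symm_apply_apply]
    rfl
  have hmem : ∀ x : Q 4, ‖H (bqv x)‖ ≤ 1 := fun x => by
    rw [hN]
    exact bqv_le x
  let h : Q 4 ≃ₜ Ball4 :=
    { toFun := fun x => ⟨H (bqv x), by rw [mem_closedBall_zero_iff]; exact hmem x⟩
      invFun := fun y => back y.1 (mem_closedBall_zero_iff.1 y.2)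
      left_inv := fun x => hback2 x (hmem x)
      right_inv := fun y => by
        apply Subtype.ext
        exact (congrArg H (hback y.1 (mem_closedBall_zero_iff.1 y.2))).trans (H.apply_symm_apply _)
      continuous_toFun := (H.continuous.comp bqv_cont).subtype_mk
        (fun x => by rw [mem_closedBall_zero_iff]; exact hmem x)
      continuous_invFun := by
        refine continuous_pi fun i => ?_
        refine Continuous.subtype_mk ?_ _
        have : Continuous fun y : Ball4 => H.symm y.1 := H.symm.continuous.comp continuous_subtype_val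
        exact (EuclideanSpace.proj (𝕜 := ℝ) i).continuous.comp this }
  have hbdH : ∀ x : Q 4, x ∈ bd 4 ↔ ‖H (bqv x)‖ = 1 := fun x => by
    rw [hN]
    exact bqv_bd x
  let h3 : E3 ≃ₜ Sph3 :=
    { toFun := fun x => ⟨H (bqv x.1), by rw [mem_sphere_zero_iff_norm]; exact (hbdH x.1).1 x.2⟩
      invFun := fun y => ⟨back y.1 (le_of_eq (mem_sphere_zero_iff_norm.1 y.2)), by
        rw [hbdH, hback y.1 (le_of_eq (mem_sphere_zero_iff_norm.1 y.2)), H.apply_symm_apply]
        exact mem_sphere_zero_iff_norm.1 y.2⟩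
      left_inv := fun x => Subtype.ext (hback2 x.1 (hmem x.1))
      right_inv := fun y => by
        apply Subtype.ext
        exact (congrArg H (hback y.1 (le_of_eq (mem_sphere_zero_iff_norm.1 y.2)))).trans
          (H.apply_symm_apply _)
      continuous_toFun := (H.continuous.comp (bqv_cont.comp continuous_subtype_val)).subtype_mk
        (fun x => by rw [mem_sphere_zero_iff_norm]; exact (hbdH x.1).1 x.2)
      continuous_invFun := by
        refine Continuous.subtype_mk ?_ _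
        refine continuous_pi fun i => ?_
        refine Continuous.subtype_mk ?_ _
        have : Continuous fun y : Sph3 => H.symm y.1 := H.symm.continuous.comp continuous_subtype_val
        exact (EuclideanSpace.proj (𝕜 := ℝ) i).continuous.comp this }
  have hr : ∀ x : E3, h3 (rho3 x) = rhoS (h3 x) := by
    intro x
    apply Subtype.ext
    change H (bqv (rho x.1)) = rhoE (H (bqv x.1))
    rw [bqv_rho, hrho]
  refine ⟨h, h3, fun x => rfl, fun x => ?_, hr, fun x => ?_⟩
  · rw [hbdH]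
    constructor
    · intro h1
      exact ⟨⟨H (bqv x), by rw [mem_sphere_zero_iff_norm]; exact h1⟩, rfl⟩
    · rintro ⟨y, hy⟩
      have h1 : y.1 = H (bqv x) := congrArg Subtype.val hy
      rw [← h1]
      exact mem_sphere_zero_iff_norm.1 y.2
  · rw [Homeomorph.eq_symm_apply, hr, Homeomorph.apply_symm_apply]

end PoolFbd
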