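import Pool.Agent.Work.MP_fbd21a_gt.Glue
import Pool.Agent.Work.MP_fbd21a_gt.DdDd

/-! Auxiliary lemmas for the modules GrUnion, GrInter, GrTwo, GrHomeo. -/

open Topology Filter Set

namespace PoolFbd

section noTop

variable {E : Type*} {A : Type*} [AddCommGroup A]

theorem gaux_dd_cst (a : A) : dd one (cst E 0 a) = (0 : Coch E A 1) := by
  funext t
  simp [dd, cst, one]

theorem gaux_dd_smulC {n : ℕ} (g : Coch E ℤ n) (a : A) :
    dd one (smulC g a) = smulC (dd one g) a := by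
  funext t
  show (one (t 0) (t 1) : ℤˣ) • (g (fun j => t j.succ) • a) +
      ∑ i : Fin (n + 1), (-1 : ℤ) ^ ((i : ℕ) + 1) • (g (fun j => t (i.succ.succAbove j)) • a) =
    ((one (t 0) (t 1) : ℤˣ) • g (fun j => t j.succ) +
      ∑ i : Fin (n + 1), (-1 : ℤ) ^ ((i : ℕ) + 1) • g (fun j => t (i.succ.succAbove j))) • a
  rw [add_smul, Finset.sum_smul]
  congr 1
  · simp [one]
  · exact Finset.sum_congr rfl fun i _ => by rw [smul_assoc]

theorem gaux_smulC_sub {n : ℕ} (g g' : Coch E ℤ n) (a : A) :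
    smulC (g - g') a = smulC g a - smulC g' a := by
  funext t
  simp [smulC, sub_smul]

theorem gaux_sum_one {n : ℕ} (k : Coch E ℤ n) (v : Fin 1 → A) :
    (∑ i, smulC ((![k] : Fin 1 → Coch E ℤ n) i) (v i)) = smulC k (v 0) := by
  simp

theorem gaux_sum_two {n : ℕ} (k k' : Coch E ℤ n) (v : Fin 2 → A) :
    (∑ i, smulC ((![k, k'] : Fin 2 → Coch E ℤ n) i) (v i)) = smulC k (v 0) + smulC k' (v 1) := by
  simp [Fin.sum_univ_two]

end noTop

variable {E : Type*} [TopologicalSpace E] {S K : Set E} {A : Type*} [AddCommGroup A]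

theorem gaux_LZ_smulC {n : ℕ} {g : Coch E ℤ n} (h : LZ K g) (a : A) : LZ K (smulC g a) :=
  fun x hx => by
    filter_upwards [h x hx] with t ht
    simp [smulC, ht]

theorem gaux_LZ_sum {n : ℕ} {ι : Type*} (s : Finset ι) (f : ι → Coch E A n)
    (h : ∀ i ∈ s, LZ K (f i)) : LZ K (∑ i ∈ s, f i) := by
  classical
  induction s using Finset.induction_on with
  | empty =>
    rw [Finset.sum_empty]
    exact LZ.zero K
  | insert i s hi ih =>
    rw [Finset.sum_insert hi]
    exact (h i (Finset.mem_insert_self i s)).add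
      (ih fun j hj => h j (Finset.mem_insert_of_mem hj))

theorem gaux_Cob_sum {n : ℕ} {ι : Type*} (s : Finset ι) (f : ι → Coch E A n) {Z : Set E}
    (h : ∀ i ∈ s, Cob one S Z (f i)) : Cob one S Z (∑ i ∈ s, f i) := by
  classical
  induction s using Finset.induction_on with
  | empty =>
    rw [Finset.sum_empty]
    exact Cob.zero one S Z
  | insert i s hi ih =>
    rw [Finset.sum_insert hi]
    exact (h i (Finset.mem_insert_self i s)).add
      (ih fun j hj => h j (Finset.mem_insert_of_mem hj))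

theorem gaux_Cob_smulC {n : ℕ} {g : Coch E ℤ n} (h : Cob one S ∅ g) (a : A) :
    Cob one S ∅ (smulC g a) := by
  cases n with
  | zero => exact gaux_LZ_smulC h a
  | succ n =>
    obtain ⟨ψ, -, hψ⟩ := h
    refine ⟨smulC ψ a, LZ.empty _, ?_⟩
    rw [gaux_dd_smulC, ← gaux_smulC_sub]
    exact gaux_LZ_smulC hψ a

theorem gaux_eq {n : ℕ} {Z : Set E} {φ ψ : Coch E A n} (h : Cob one S Z φ) (e : φ = ψ) :
    Cob one S Z ψ := e ▸ h

/-- being a cocycle only depends on the class -/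
theorem gaux_coc_of_cob {n : ℕ} {φ φ' : Coch E A (n + 1)} (h : Cob one S ∅ (φ' - φ))
    (h' : LZ S (dd one φ)) : LZ S (dd one φ') := by
  obtain ⟨ψ, -, hψ⟩ := h
  have h1 := ((hψ.dd (one : E → E → ℤˣ)).add (LZ_dd_dd (IsTw.one S) ψ)).add h'
  rw [dd_sub, dd_sub] at h1
  convert h1 using 1
  abel

/-- two constants which agree near a common point -/
theorem gaux_cst_eq {T : Set E} {φ : Coch E A 0} {a b : A} (ha : LZ S (φ - cst E 0 a))
    (hb : LZ T (φ - cst E 0 b)) (hne : (S ∩ T).Nonempty) : a = b := by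
  obtain ⟨x, hx, hx'⟩ := hne
  have h1 : (φ - cst E 0 a) (fun _ => x) = 0 := (ha x hx).self_of_nhds
  have h2 : (φ - cst E 0 b) (fun _ => x) = 0 := (hb x hx').self_of_nhds
  have h3 : φ (fun _ => x) - a = 0 := h1
  have h4 : φ (fun _ => x) - b = 0 := h2
  rw [sub_eq_zero] at h3 h4
  rw [← h3, h4]

/-- the two potentials agree -/
theorem gaux_glue {E : Type*} [PseudoMetricSpace E] {S T : Set E} (h : Sepd S T) {n : ℕ}
    {φ : Coch E A (n + 1)} {ψ ψ' : Coch E A n} (h1 : LZ S (φ - dd one ψ))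
    (h2 : LZ T (φ - dd one ψ')) (h3 : LZ (S ∩ T) (ψ - ψ')) : Cob one (S ∪ T) ∅ φ := by
  obtain ⟨c, hc1, hc2⟩ := glue h ψ ψ' h3
  refine ⟨c, LZ.empty c, LZ.union ?_ ?_⟩
  · have h4 := h1.sub (hc1.dd (one : E → E → ℤˣ))
    rw [dd_sub] at h4
    convert h4 using 1
    abel
  · have h4 := h2.sub (hc2.dd (one : E → E → ℤˣ))
    rw [dd_sub] at h4
    convert h4 using 1
    abel

/-- exact on two sets with acyclic intersection -/
theorem gaux_exact {E : Type*} [PseudoMetricSpace E] {A : Type} [AddCommGroup A] {S T : Set E}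
    (h : Sepd S T) (hST : Acyc (S ∩ T)) {n : ℕ} {φ : Coch E A (n + 1)}
    (h1 : Cob one S ∅ φ) (h2 : Cob one T ∅ φ) : Cob one (S ∪ T) ∅ φ := by
  obtain ⟨ψ, -, hψ⟩ := h1
  obtain ⟨ψ', -, hψ'⟩ := h2
  have h3 : LZ (S ∩ T) (dd one (ψ - ψ')) := by
    have h4 := (hψ'.mono inter_subset_right).sub (hψ.mono inter_subset_left)
    rw [dd_sub]
    convert h4 using 1
    abel
  cases n with
  | zero =>
    obtain ⟨a, ha⟩ := (hST.2 A).1 _ h3
    refine gaux_glue h (ψ := ψ - cst E 0 a) (ψ' := ψ') ?_ hψ' ?_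
    · rw [dd_sub, gaux_dd_cst, sub_zero]
      exact hψ
    · convert ha using 1
      abel
  | succ n =>
    obtain ⟨χ, -, hχ⟩ := (hST.2 A).2 n _ h3
    refine gaux_glue h (ψ := ψ - dd one χ) (ψ' := ψ') ?_ hψ' ?_
    · have h5 := hψ.add (LZ_dd_dd (IsTw.one S) χ)
      rw [dd_sub]
      convert h5 using 1
      abel
    · convert hχ using 1
      abel

end PoolFbd
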