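import Pool.Agent.Work.MP_fbd21a_gt.Ret
import Pool.Agent.Work.MP_fbd21a_gt.GrAux

/-! MODULE GrHomeo. Grph is a homeomorphism invariant; the classes may be changed by coboundaries.
PROOF of grph_homeo. As acyc_homeo (module Retr): for φ near T, pb F φ is a cocycle near S
(F : E → E' maps S to T), φ - pb f (pb F φ) is a coboundary near T (ret_one), and
pb f (Σ g_i v_i + coboundary) is what we want. For the uniqueness: Σ pb f (g_i) v_i a coboundary near T
implies pb F of it is one near S, and pb F (pb f g_i) - g_i is a coboundary near S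
(ret_one, f (F x) = x on S). -/

open Topology Filter Set

namespace PoolFbd

private theorem grhomeo_ret {E E' : Type*} [TopologicalSpace E] [TopologicalSpace E'] {S : Set E}
    {T : Set E'} (F : E → E') (f : E' → E)
    (hF : ∀ x ∈ S, ContinuousAt F x) (hf : ∀ y ∈ T, ContinuousAt f y)
    (hfT : ∀ y ∈ T, f y ∈ S) (hFf : ∀ y ∈ T, F (f y) = y)
    {A : Type*} [AddCommGroup A] {n : ℕ} {φ : Coch E' A n} (hφ : LZ T (dd one φ)) :
    Cob one T ∅ (φ - pb f (pb F φ)) := by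
  have h1 := ret_one (f := (id : E' → E')) (g := fun y => F (f y)) (S := T) (Z := ∅) (S' := T)
    (Z' := ∅) (fun x _ => continuousAt_id) (fun x hx => by
      rw [union_empty] at hx
      exact ContinuousAt.comp (hF _ (hfT x hx)) (hf x hx)) (fun x hx => by
      rw [union_empty] at hx
      exact (hFf x hx).symm) (fun x hx => hx) (fun x hx => hx) (φ := φ) ⟨LZ.empty φ, hφ⟩
  exact h1

theorem grph_homeo {E E' : Type*} [TopologicalSpace E] [TopologicalSpace E'] {S : Set E}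
    {T : Set E'} {r : ℕ} {g : Fin r → Coch E ℤ 1} (hS : Grph S g) (F : E → E') (f : E' → E)
    (hF : ∀ x ∈ S, ContinuousAt F x) (hf : ∀ y ∈ T, ContinuousAt f y)
    (hFS : ∀ x ∈ S, F x ∈ T) (hfT : ∀ y ∈ T, f y ∈ S) (hFf : ∀ y ∈ T, F (f y) = y)
    (hfF : ∀ x ∈ S, f (F x) = x) : Grph T (fun i => pb f (g i)) := by
  have hFS' : ∀ x ∈ S, ContinuousAt F x ∧ F x ∈ T := fun x hx => ⟨hF x hx, hFS x hx⟩
  have hfT' : ∀ x ∈ T, ContinuousAt f x ∧ f x ∈ S := fun x hx => ⟨hf x hx, hfT x hx⟩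
  have hpb : ∀ {A : Type} [AddCommGroup A] {n : ℕ} {φ : Coch E' A n}, LZ T (dd one φ) →
      LZ S (dd one (pb F φ)) := fun hφ => LZ.pb hFS' hφ
  have hpbC : ∀ {A : Type} [AddCommGroup A] {n : ℕ} {φ : Coch E A n}, Cob one S ∅ φ →
      Cob one T ∅ (pb f φ) := fun hφ => Cob.pb hfT' (fun x hx => hx.elim) hφ
  have hpbC' : ∀ {A : Type} [AddCommGroup A] {n : ℕ} {φ : Coch E' A n}, Cob one T ∅ φ →
      Cob one S ∅ (pb F φ) := fun hφ => Cob.pb hFS' (fun x hx => hx.elim) hφ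
  have hsum : ∀ {A : Type} [AddCommGroup A] (v : Fin r → A),
      pb f (∑ i, smulC (g i) (v i)) = ∑ i, smulC (pb f (g i)) (v i) := by
    intro A _ v
    funext t
    simp [pb, smulC, Finset.sum_apply]
  have hsum' : ∀ {A : Type} [AddCommGroup A] (v : Fin r → A),
      pb F (∑ i, smulC (pb f (g i)) (v i)) = ∑ i, smulC (pb F (pb f (g i))) (v i) := by
    intro A _ v
    funext t
    simp [pb, smulC, Finset.sum_apply]
  refine ⟨?_, ?_, fun A _ => ⟨?_, ?_, ?_, ?_⟩⟩
  · obtain ⟨x, hx⟩ := hS.1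
    exact ⟨F x, hFS x hx⟩
  · intro i
    exact LZ.pb hfT' (hS.2.1 i)
  · intro φ hφ
    obtain ⟨a, ha⟩ := (hS.2.2 A).1 _ (hpb hφ)
    refine ⟨a, ?_⟩
    have h1 : LZ T (φ - pb f (pb F φ)) := grhomeo_ret F f hF hf hfT hFf hφ
    have h2 : LZ T (pb f (pb F φ - cst E 0 a)) := LZ.pb hfT' ha
    have h3 := h1.add h2
    convert h3 using 1
    funext t
    simp [pb, cst]
  · intro φ hφ
    obtain ⟨v, hv⟩ := (hS.2.2 A).2.1 _ (hpb hφ)
    refine ⟨v, ?_⟩
    have h1 := grhomeo_ret F f hF hf hfT hFf hφ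
    have h2 := h1.add (hpbC hv)
    have e : pb f (pb F φ - ∑ i, smulC (g i) (v i)) =
        pb f (pb F φ) - ∑ i, smulC (pb f (g i)) (v i) := by
      rw [← hsum]
      rfl
    rw [e] at h2
    refine gaux_eq h2 ?_
    abel
  · intro v hv
    refine (hS.2.2 A).2.2.1 v ?_
    have h1 := hpbC' hv
    rw [hsum'] at h1
    have h2 : Cob one S ∅ (∑ i, smulC (g i - pb F (pb f (g i))) (v i)) :=
      gaux_Cob_sum _ _ fun i _ => gaux_Cob_smulC
        (grhomeo_ret f F hf hF hFS hfF (hS.2.1 i)) (v i)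
    have h3 := h2.add h1
    rw [← Finset.sum_add_distrib] at h3
    refine gaux_eq h3 ?_
    refine Finset.sum_congr rfl fun i _ => ?_
    rw [gaux_smulC_sub]
    abel
  · intro n φ hφ
    have h1 := grhomeo_ret F f hF hf hfT hFf hφ
    have h2 := h1.add (hpbC ((hS.2.2 A).2.2.2 n _ (hpb hφ)))
    refine gaux_eq h2 ?_
    abel

theorem grph_congr {E : Type*} [TopologicalSpace E] {S : Set E} {r : ℕ}
    {g g' : Fin r → Coch E ℤ 1} (hS : Grph S g) (h : ∀ i, Cob one S ∅ (g' i - g i)) :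
    Grph S g' := by
  refine ⟨hS.1, ?_, fun A _ => ⟨(hS.2.2 A).1, ?_, ?_, (hS.2.2 A).2.2.2⟩⟩
  · intro i
    exact gaux_coc_of_cob (h i) (hS.2.1 i)
  · intro φ hφ
    obtain ⟨v, hv⟩ := (hS.2.2 A).2.1 φ hφ
    refine ⟨v, ?_⟩
    have h2 : Cob one S ∅ (∑ i, smulC (g' i - g i) (v i)) :=
      gaux_Cob_sum _ _ fun i _ => gaux_Cob_smulC (h i) (v i)
    have h3 := hv.sub h2
    have e : ∑ i, smulC (g' i - g i) (v i) =
        ∑ i, smulC (g' i) (v i) - ∑ i, smulC (g i) (v i) := by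
      rw [← Finset.sum_sub_distrib]
      exact Finset.sum_congr rfl fun i _ => gaux_smulC_sub _ _ _
    rw [e] at h3
    refine gaux_eq h3 ?_
    abel
  · intro v hv
    refine (hS.2.2 A).2.2.1 v ?_
    have h2 : Cob one S ∅ (∑ i, smulC (g' i - g i) (v i)) :=
      gaux_Cob_sum _ _ fun i _ => gaux_Cob_smulC (h i) (v i)
    have h3 := hv.sub h2
    have e : ∑ i, smulC (g' i - g i) (v i) =
        ∑ i, smulC (g' i) (v i) - ∑ i, smulC (g i) (v i) := by
      rw [← Finset.sum_sub_distrib]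
      exact Finset.sum_congr rfl fun i _ => gaux_smulC_sub _ _ _
    rw [e] at h3
    refine gaux_eq h3 ?_
    abel

end PoolFbd
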