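import Pool.Agent.Work.MP_fbd21a_gt.AcUnion
import Pool.Agent.Work.MP_fbd21a_gt.GrAux

/-! MODULE GrUnion. Union of two circle-like sets with acyclic intersection.
PROOF. Mayer-Vietoris as in AcUnion. H^1: φ - g·a = dd ψ near S, φ - g'·b = dd ψ' near T.
φ - G·a - G'·b is exact near S (G ~ g, G' ~ 0 there) and near T; the potentials differ by a constant
near S ∩ T (acyclic): adjust and glue. Uniqueness: restrict to S and T.
H^(n+2) and H^0 as in AcUnion. -/

open Topology Filter Set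

namespace PoolFbd

theorem grph_union {E : Type*} [PseudoMetricSpace E] {S T : Set E} (h : Sepd S T)
    {g g' : Coch E ℤ 1} (hS : Grph S ![g]) (hT : Grph T ![g']) (hST : Acyc (S ∩ T))
    (G G' : Coch E ℤ 1) (hG : LZ (S ∪ T) (dd one G)) (hG' : LZ (S ∪ T) (dd one G'))
    (h1 : Cob one S ∅ (G - g)) (h2 : Cob one T ∅ G) (h3 : Cob one S ∅ G')
    (h4 : Cob one T ∅ (G' - g')) : Grph (S ∪ T) ![G, G'] := by
  refine ⟨hS.1.inl, ?_, fun A _ => ⟨?_, ?_, ?_, ?_⟩⟩
  · intro i
    fin_cases i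
    · exact hG
    · exact hG'
  · intro φ hφ
    obtain ⟨a, ha⟩ := (hS.2.2 A).1 φ (hφ.mono subset_union_left)
    obtain ⟨b, hb⟩ := (hT.2.2 A).1 φ (hφ.mono subset_union_right)
    have hab := gaux_cst_eq ha hb hST.1
    subst hab
    exact ⟨a, ha.union hb⟩
  · intro φ hφ
    obtain ⟨v, hv⟩ := (hS.2.2 A).2.1 φ (hφ.mono subset_union_left)
    obtain ⟨w, hw⟩ := (hT.2.2 A).2.1 φ (hφ.mono subset_union_right)
    rw [gaux_sum_one] at hv hw
    refine ⟨![v 0, w 0], ?_⟩
    rw [gaux_sum_two]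
    show Cob one (S ∪ T) ∅ (φ - (smulC G (v 0) + smulC G' (w 0)))
    refine gaux_exact h hST ?_ ?_
    · have h5 := (hv.sub (gaux_Cob_smulC h1 (v 0))).sub (gaux_Cob_smulC h3 (w 0))
      rw [gaux_smulC_sub] at h5
      refine gaux_eq h5 ?_
      abel
    · have h5 := (hw.sub (gaux_Cob_smulC h4 (w 0))).sub (gaux_Cob_smulC h2 (v 0))
      rw [gaux_smulC_sub] at h5
      refine gaux_eq h5 ?_
      abel
  · intro v hv
    rw [gaux_sum_two] at hv
    have h5 : (fun _ : Fin 1 => v 0) = 0 := by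
      refine (hS.2.2 A).2.2.1 (fun _ => v 0) ?_
      rw [gaux_sum_one]
      have h6 := ((hv.mono subset_union_left (subset_refl ∅)).sub
        (gaux_Cob_smulC h3 (v 1))).sub (gaux_Cob_smulC h1 (v 0))
      rw [gaux_smulC_sub] at h6
      refine gaux_eq h6 ?_
      abel
    have h7 : (fun _ : Fin 1 => v 1) = 0 := by
      refine (hT.2.2 A).2.2.1 (fun _ => v 1) ?_
      rw [gaux_sum_one]
      have h6 := ((hv.mono subset_union_right (subset_refl ∅)).sub
        (gaux_Cob_smulC h2 (v 0))).sub (gaux_Cob_smulC h4 (v 1))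
      rw [gaux_smulC_sub] at h6
      refine gaux_eq h6 ?_
      abel
    funext i
    fin_cases i
    · exact congrFun h5 0
    · exact congrFun h7 0
  · intro n φ hφ
    exact gaux_exact h hST ((hS.2.2 A).2.2.2 n φ (hφ.mono subset_union_left))
      ((hT.2.2 A).2.2.2 n φ (hφ.mono subset_union_right))

end PoolFbd
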