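import Pool.Agent.Work.MP_fbd21a_gt.S0G
import Pool.Agent.Work.MP_fbd21a_gt.GrHomeo
import Pool.Agent.Work.MP_fbd21a_gt.GrUnion
import Pool.Agent.Work.MP_fbd21a_gt.Retr

/-! MODULE BaseG. Transport to E3: the basic Geo3 data for the unknotted surface.
up_grph: for closed H ⊆ cub: Grph H g → Grph (up H) (pb inv0 (g i)) (grph_homeo with F = kap : V3 → E3,
f = inv0 : E3 → V3; kap_inv0, inv0_kap). up_acyc similarly by acyc_homeo.
rho_grph: Grph S g → Grph (rho3⁻¹ S) (pb rho3 (g i)).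
LOCAL EQUALITIES: gp = pb inv0 gP near up Hp and um = pb inv0 gM near up Hm: at points with x0 > 0 clear; at points
with x0 = 0: v = inv0 x has some |v i| = 5, there gP resp. gM vanishes near v (gP: v ∈ Hp; v 1 ≠ 0 or
|v 0| = 5 or v 2 = 5; gM: v ∈ Hm, v 2 ≤ 0 or... |v i| = 5 excludes the arch). Also gp = 0 near points with
x0 ≤ 0 whose inv0 lies.. : gp = 0 near every point of rho3⁻¹ (up Hm) (x0 ≤ 0; x0 < 0: condition false; x0 = 0:
v = inv0 x, rho3 x ∈ up Hm, x0 = 0, so v ∈ Dpv and gP vanishes near v). um = 0 near rho3⁻¹ (up Hp), so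
pb rho3 um = 0 near up Hp. um, gp vanish near rho3⁻¹ Sk and near Kk.
base_R: grph_union with S = up Hp, T = rho3⁻¹ up Hm, intersection up Dpv (rk_mid), G = gp, G' = pb rho3 um.
base_S: up_grph grph_S0 and the local equalities (grph_congr). base_K: k = pb inv0 kV. -/

open Topology Filter Set

namespace PoolFbd

theorem up_grph {H : Set V3} (hH : IsClosed H) (hc : H ⊆ cub) {r : ℕ} {g : Fin r → Coch V3 ℤ 1}
    (h : Grph H g) : Grph (up H) (fun i => pb inv0 (g i)) :=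
  grph_homeo h kap inv0 (fun _ _ => kap_cont.continuousAt) (fun _ _ => inv0_cont.continuousAt)
    (fun v hv => ⟨kap_nonneg v, by rw [inv0_kap (hc hv)]; exact hv⟩) (fun _ hy => hy.2)
    (fun _ hy => kap_inv0 hy.1) (fun v hv => inv0_kap (hc hv))

theorem up_acyc {H : Set V3} (hH : IsClosed H) (hc : H ⊆ cub) (h : Acyc H) : Acyc (up H) :=
  acyc_homeo h kap inv0 (fun _ _ => kap_cont.continuousAt) (fun _ _ => inv0_cont.continuousAt)
    (fun v hv => ⟨kap_nonneg v, by rw [inv0_kap (hc hv)]; exact hv⟩) (fun _ hy => hy.2)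
    (fun _ hy => kap_inv0 hy.1)

theorem rho_grph {S : Set E3} {r : ℕ} {g : Fin r → Coch E3 ℤ 1} (h : Grph S g) :
    Grph (rho3 ⁻¹' S) (fun i => pb rho3 (g i)) :=
  grph_homeo h rho3 rho3 (fun _ _ => rho3_cont.continuousAt) (fun _ _ => rho3_cont.continuousAt)
    (fun x hx => by change rho3 (rho3 x) ∈ S; rw [rho3_rho3]; exact hx) (fun _ hy => hy)
    (fun y _ => rho3_rho3 y) (fun y _ => rho3_rho3 y)

theorem bg_st {v : ℝ} (hv : v ≠ 0) : ∀ᶠ w in 𝓝 v, st 0 w = st 0 v := by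
  rcases lt_or_gt_of_ne hv with h | h
  · filter_upwards [isOpen_Iio.mem_nhds h] with w hw
    unfold st
    rw [if_neg (not_le.mpr hw), if_neg (not_le.mpr h)]
  · filter_upwards [isOpen_Ioi.mem_nhds h] with w hw
    unfold st
    rw [if_pos (le_of_lt hw), if_pos h.le]

private theorem bg_coord (v : V3) (i : Fin 2) (j : Fin 3) :
    Tendsto (fun t : Fin 2 → V3 => t i j) (𝓝 (fun _ => v)) (𝓝 (v j)) :=
  ((continuous_apply j).comp (continuous_apply i)).tendsto (fun _ : Fin 2 => v)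

theorem bg_gP {v : V3} (h : v 1 ≠ 0 ∨ 2 < |v 0| ∨ 2 < v 2) : ZeroAt gP v := by
  unfold ZeroAt
  rcases h with h | h | h
  · filter_upwards [(bg_coord v 0 1).eventually (bg_st h), (bg_coord v 1 1).eventually (bg_st h)]
      with t h1 h2
    unfold gP
    rw [h1, h2, sub_self, ite_self]
  · filter_upwards [(bg_coord v 0 0).abs.eventually_const_lt h] with t h1
    unfold gP
    rw [if_neg]
    rintro ⟨h2, -⟩
    linarith
  · filter_upwards [(bg_coord v 0 2).eventually_const_lt h] with t h1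
    unfold gP
    rw [if_neg]
    rintro ⟨-, h2⟩
    linarith

theorem bg_gM {v : V3} (h : v 0 ≠ 0 ∨ v 2 < 1 / 2) : ZeroAt gM v := by
  unfold ZeroAt
  rcases h with h | h
  · filter_upwards [(bg_coord v 0 0).eventually (bg_st h), (bg_coord v 1 0).eventually (bg_st h)]
      with t h1 h2
    unfold gM
    rw [h1, h2, sub_self, ite_self]
  · filter_upwards [(bg_coord v 0 2).eventually_lt_const h] with t h1
    unfold gM
    rw [if_neg]
    intro h2
    linarith

theorem bg_x0 (x : E3) : Tendsto (fun t : Fin 2 → E3 => ((t 0).1 0 : ℝ))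
    (𝓝 (fun _ => x)) (𝓝 (x.1 0 : ℝ)) := by
  have h0 : Continuous fun x : E3 => (x.1 0 : ℝ) :=
    continuous_subtype_val.comp ((continuous_apply 0).comp continuous_subtype_val)
  have h1 : Continuous fun t : Fin 2 → E3 => t 0 := continuous_apply 0
  exact (h0.comp h1).tendsto (fun _ : Fin 2 => x)

open Classical in
/-- A class of the first copy. -/
private theorem bg_neg {x : E3} (hx : (x.1 0 : ℝ) < 0) (g : Coch V3 ℤ 1) :
    ZeroAt (fun t : Fin (1 + 1) → E3 => if 0 < ((t 0).1 0 : ℝ) then g (fun j => inv0 (t j))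
      else 0) x := by
  unfold ZeroAt
  filter_upwards [(bg_x0 x).eventually_lt_const hx] with t ht
  rw [if_neg (not_lt.mpr ht.le)]

open Classical in
theorem bg_van {x : E3} {g : Coch V3 ℤ 1} (hg : ZeroAt g (inv0 x)) :
    ZeroAt (fun t : Fin (1 + 1) → E3 => if 0 < ((t 0).1 0 : ℝ) then g (fun j => inv0 (t j))
      else 0) x := by
  unfold ZeroAt at hg ⊢
  filter_upwards [(tendsto_pb inv0_cont.continuousAt).eventually hg] with t ht
  rw [ht, ite_self]

private theorem bg_pbvan {x : E3} {g : Coch V3 ℤ 1} (hg : ZeroAt g (inv0 x)) :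
    ZeroAt (pb inv0 g) x := by
  unfold ZeroAt at hg ⊢
  filter_upwards [(tendsto_pb inv0_cont.continuousAt).eventually hg] with t ht
  exact ht

open Classical in
private theorem bg_pos {x : E3} (hx : 0 < (x.1 0 : ℝ)) (g : Coch V3 ℤ 1) :
    ZeroAt ((fun t : Fin (1 + 1) → E3 => if 0 < ((t 0).1 0 : ℝ) then g (fun j => inv0 (t j))
      else 0) - pb inv0 g) x := by
  unfold ZeroAt
  filter_upwards [(bg_x0 x).eventually_const_lt hx] with t ht
  rw [Pi.sub_apply, if_pos ht]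
  exact sub_self _

/-- On the seam. -/
private theorem bg_five {v : V3} {i : Fin 3} (h : |v i| = 5) : |v 0| = 5 ∨ |v 1| = 5 ∨ |v 2| = 5 := by
  fin_cases i
  · exact Or.inl h
  · exact Or.inr (Or.inl h)
  · exact Or.inr (Or.inr h)

private theorem bg_gP_seam {v : V3} (h : |v 0| = 5 ∨ |v 1| = 5 ∨ |v 2| = 5) (h2 : -5 < v 2) :
    ZeroAt gP v := by
  rcases h with h | h | h
  · exact bg_gP (Or.inr (Or.inl (by linarith)))
  · refine bg_gP (Or.inl ?_)
    intro h0
    rw [h0, abs_zero] at h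
    norm_num at h
  · rcases abs_cases (v 2) with ⟨h3, -⟩ | ⟨h3, -⟩
    · exact bg_gP (Or.inr (Or.inr (by linarith)))
    · exfalso; linarith

private theorem bg_gM_seam {v : V3} (hv : v ∈ Hm) (h : |v 0| = 5 ∨ |v 1| = 5 ∨ |v 2| = 5) :
    ZeroAt gM v := by
  rcases hv.2 with h1 | ⟨h1, h2, h3, -⟩
  · exact bg_gM (Or.inr (by linarith))
  · rcases h with h | h | h
    · exfalso; linarith
    · exfalso; linarith
    · rcases abs_cases (v 2) with ⟨h4, -⟩ | ⟨h4, -⟩
      · exfalso; linarith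
      · exact bg_gM (Or.inr (by linarith))

private theorem bg_gp_m {x : E3} (hx : rho3 x ∈ up Hm) : ZeroAt gp x := by
  have h0 : 0 ≤ ((rho3 x).1 0 : ℝ) := hx.1
  rw [x0_rho] at h0
  rcases eq_or_lt_of_le (by linarith : (x.1 0 : ℝ) ≤ 0) with h | h
  · have h1 : inv0 (rho3 x) ∈ Hm := hx.2
    rw [inv0_rho h] at h1
    obtain ⟨i, hi⟩ := (inv0_bdry x).mp h
    refine bg_van (bg_gP_seam (bg_five hi) ?_)
    have h2 : -(inv0 x 2) ≤ 0 ∨ (|inv0 x 0| ≤ 3 ∧ -(inv0 x 2) ≤ 3 ∧ |-(inv0 x 1)| ≤ 1 ∧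
      (1 ≤ |inv0 x 0| ∨ 1 ≤ -(inv0 x 2))) := h1.2
    rcases h2 with h2 | ⟨-, h2, -⟩ <;> linarith
  · exact bg_neg h gP

private theorem bg_um_p {x : E3} (hx : rho3 x ∈ up Hp) : ZeroAt um x := by
  have h0 : 0 ≤ ((rho3 x).1 0 : ℝ) := hx.1
  rw [x0_rho] at h0
  rcases eq_or_lt_of_le (by linarith : (x.1 0 : ℝ) ≤ 0) with h | h
  · have h1 : inv0 (rho3 x) ∈ Hp := hx.2
    rw [inv0_rho h] at h1
    have h2 : 0 ≤ -(inv0 x 2) := h1.2.1
    exact bg_van (bg_gM (Or.inr (by linarith)))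
  · exact bg_neg h gM

private theorem bg_kk {x : E3} (hx : x ∈ Kk) : ZeroAt gp x ∧ ZeroAt um x := by
  have h1 : inv0 x ∈ K0v := hx.2
  obtain ⟨h2, h3, h4⟩ := h1
  refine ⟨bg_van (bg_gP_seam (h4.elim Or.inl fun h => Or.inr (Or.inl h)) ?_),
    bg_van (bg_gM (Or.inr ?_))⟩
  · rw [h3]; norm_num
  · rw [h3]; norm_num

theorem gp_zero : LZ (rho3 ⁻¹' (up Hm) ∪ rho3 ⁻¹' Sk ∪ Kk) gp := by
  rintro x ((hx | hx) | hx)
  · exact bg_gp_m hx
  · exact bg_gp_m ⟨hx.1, hx.2.2⟩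
  · exact (bg_kk hx).1

theorem um_zero : LZ (rho3 ⁻¹' (up Hp) ∪ rho3 ⁻¹' Sk ∪ Kk) um := by
  rintro x ((hx | hx) | hx)
  · exact bg_um_p hx
  · exact bg_um_p ⟨hx.1, hx.2.1⟩
  · exact (bg_kk hx).2

private theorem bg_gp_eq : LZ (up Hp) (gp - pb inv0 gP) := by
  intro x hx
  rcases eq_or_lt_of_le hx.1 with h | h
  · obtain ⟨i, hi⟩ := (inv0_bdry x).mp h.symm
    have h1 : ZeroAt gP (inv0 x) := bg_gP_seam (bg_five hi) (by
      have : 0 ≤ inv0 x 2 := hx.2.2.1
      linarith)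
    have h2 : ZeroAt gp x := bg_van h1
    have h3 : ZeroAt (pb inv0 gP) x := bg_pbvan h1
    unfold ZeroAt at h2 h3 ⊢
    filter_upwards [h2, h3] with t a b
    rw [Pi.sub_apply, a, b, sub_self]
  · exact bg_pos h gP

private theorem bg_um_eq : LZ (up Hm) (um - pb inv0 gM) := by
  intro x hx
  rcases eq_or_lt_of_le hx.1 with h | h
  · obtain ⟨i, hi⟩ := (inv0_bdry x).mp h.symm
    have h1 : ZeroAt gM (inv0 x) := bg_gM_seam hx.2 (bg_five hi)
    have h2 : ZeroAt um x := bg_van h1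
    have h3 : ZeroAt (pb inv0 gM) x := bg_pbvan h1
    unfold ZeroAt at h2 h3 ⊢
    filter_upwards [h2, h3] with t a b
    rw [Pi.sub_apply, a, b, sub_self]
  · exact bg_pos h gM

private theorem bg_pbcoc {H : Set V3} {g : Coch V3 ℤ 1} (h : LZ H (dd one g)) :
    LZ (up H) (dd one (pb inv0 g)) := by
  have e : dd one (pb inv0 g) = pb inv0 (dd one g) := dd_pb inv0 one g
  rw [e]
  exact LZ.pb (fun x hx => ⟨inv0_cont.continuousAt, hx.2⟩) h

private theorem bg_cocP : LZ (up Hp) (dd one gp) := by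
  have h1 : LZ Hp (dd one gP) := grph_Hp.2.1 0
  have h2 : LZ (up Hp) (dd one (gp - pb inv0 gP)) := bg_gp_eq.dd _
  rw [dd_sub] at h2
  exact h2.congr (bg_pbcoc h1)

private theorem bg_cocM : LZ (up Hm) (dd one um) := by
  have h1 : LZ Hm (dd one gM) := grph_Hm.2.1 0
  have h2 : LZ (up Hm) (dd one (um - pb inv0 gM)) := bg_um_eq.dd _
  rw [dd_sub] at h2
  exact h2.congr (bg_pbcoc h1)

theorem gp_coc : LZ (Rk ∪ Sig) (dd one gp) := by
  have hR : LZ Rk (dd one gp) :=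
    LZ.union bg_cocP (LZ.dd (fun x hx => bg_gp_m hx) _)
  refine LZ.union hR (hR.mono ?_)
  rintro x (hx | hx)
  · exact sk_rk hx
  · exact sk_rk' hx

theorem um_coc : LZ Sig (dd one um) ∧ LZ Rk (dd one (pb rho3 um)) := by
  constructor
  · rintro x (hx | hx)
    · exact bg_cocM x ⟨hx.1, hx.2.2⟩
    · exact (um_zero x (Or.inl (Or.inr hx))).dd _
  · have e : dd one (pb rho3 um) = pb rho3 (dd one um) := dd_pb rho3 one um
    rw [e]
    refine LZ.union ?_ ?_
    · refine LZ.pb (S' := rho3 ⁻¹' up Hp) (fun x hx => ⟨rho3_cont.continuousAt, ?_⟩)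
        (LZ.dd (fun x hx => bg_um_p hx) _)
      change rho3 (rho3 x) ∈ up Hp
      rw [rho3_rho3]
      exact hx
    · exact LZ.pb (S' := up Hm) (fun x hx => ⟨rho3_cont.continuousAt, hx⟩) bg_cocM

private theorem bg_vec1 {E E' : Type*} (f : E → E') (g : Coch E' ℤ 1) :
    (fun i => pb f ((![g] : Fin 1 → Coch E' ℤ 1) i)) = ![pb f g] := by
  funext i
  fin_cases i
  rfl

private theorem bg_hpc : Hp ⊆ cub := fun _ h => h.1

private theorem bg_hmc : Hm ⊆ cub := fun _ h => h.1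

theorem base_R : Grph Rk ![gp, pb rho3 um] := by
  have hS : Grph (up Hp) ![pb inv0 gP] := by
    have := up_grph hp_closed bg_hpc grph_Hp
    rwa [bg_vec1] at this
  have hT : Grph (rho3 ⁻¹' up Hm) ![pb rho3 (pb inv0 gM)] := by
    have := rho_grph (up_grph hm_closed bg_hmc grph_Hm)
    have e : (fun i => pb rho3 (pb inv0 ((![gM] : Fin 1 → Coch V3 ℤ 1) i))) =
        ![pb rho3 (pb inv0 gM)] := by
      funext i
      fin_cases i
      rfl
    rwa [e] at this
  have hST : Acyc (up Hp ∩ rho3 ⁻¹' up Hm) := by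
    rw [rk_mid]
    exact up_acyc dp_closed (fun _ h => h.1) acyc_Dp
  refine grph_union (Sepd.closed (up_closed hp_closed)
    ((up_closed hm_closed).preimage rho3_cont)) hS hT hST gp (pb rho3 um)
    (gp_coc.mono subset_union_left) um_coc.2 (Cob.of_LZ bg_gp_eq)
    (Cob.of_LZ (fun x hx => bg_gp_m hx)) (Cob.of_LZ ?_) (Cob.of_LZ ?_)
  · refine LZ.pb (S' := rho3 ⁻¹' up Hp) (fun x hx => ⟨rho3_cont.continuousAt, ?_⟩)
      (fun x hx => bg_um_p hx)
    change rho3 (rho3 x) ∈ up Hp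
    rw [rho3_rho3]
    exact hx
  · have e : pb rho3 um - pb rho3 (pb inv0 gM) = pb rho3 (um - pb inv0 gM) := rfl
    rw [e]
    exact LZ.pb (S' := up Hm) (fun x hx => ⟨rho3_cont.continuousAt, hx⟩) bg_um_eq

theorem base_S : Grph Sk ![gp, um] := by
  have h := up_grph (hp_closed.inter hm_closed) (fun v (hv : v ∈ Hp ∩ Hm) => hv.1.1) grph_S0
  refine grph_congr h ?_
  intro i
  fin_cases i
  · exact Cob.of_LZ (bg_gp_eq.mono (show Sk ⊆ up Hp from fun x hx => ⟨hx.1, hx.2.1⟩))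
  · exact Cob.of_LZ (bg_um_eq.mono (show Sk ⊆ up Hm from fun x hx => ⟨hx.1, hx.2.2⟩))

theorem base_K : Grph Kk ![pb inv0 kV] := by
  have h := up_grph k0_closed (fun v (hv : v ∈ K0v) => hv.1) grph_K0
  rwa [bg_vec1] at h

end PoolFbd
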