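import Mathlib

/-! Germs of Alexander-Spanier cochains along subsets of a space, with twisted coefficients.
Definitions and first lemmas. -/

open Topology Filter Set

namespace PoolFbd

/-- `n`-cochains: all functions of `(n+1)`-tuples of points. -/
abbrev Coch (E A : Type*) (n : ℕ) := (Fin (n + 1) → E) → A

section defs
variable {E E' A B G : Type*}

/-- `φ` vanishes on all tuples close to the diagonal point `x`. -/
def ZeroAt [TopologicalSpace E] [Zero A] {n : ℕ} (φ : Coch E A n) (x : E) : Prop :=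
  ∀ᶠ t in 𝓝 (fun _ : Fin (n + 1) => x), φ t = 0

/-- `φ` vanishes near the diagonal points over `S`. -/
def LZ [TopologicalSpace E] [Zero A] {n : ℕ} (S : Set E) (φ : Coch E A n) : Prop :=
  ∀ x ∈ S, ZeroAt φ x

/-- `τ` is a local system (a multiplicative 1-cocycle) near `S`. -/
def IsTw [TopologicalSpace E] [Mul G] (S : Set E) (τ : E → E → G) : Prop :=
  ∀ x ∈ S, ∀ᶠ t in 𝓝 (fun _ : Fin 3 => x), τ (t 0) (t 1) * τ (t 1) (t 2) = τ (t 0) (t 2)

/-- The twisted coboundary; values are taken in the fibre over the first vertex. -/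
def dd [AddCommGroup A] [SMul G A] (τ : E → E → G) {n : ℕ} (φ : Coch E A n) :
    Coch E A (n + 1) :=
  fun t => τ (t 0) (t 1) • φ (fun j => t j.succ) +
    ∑ i : Fin (n + 1), (-1 : ℤ) ^ ((i : ℕ) + 1) • φ (fun j => t (i.succ.succAbove j))

/-- The trivial twist. -/
def one : E → E → ℤˣ := fun _ _ => 1

/-- Relative cocycles of the pair `(S, Z)`. -/
def Coc [TopologicalSpace E] [AddCommGroup A] [SMul G A] (τ : E → E → G) (S Z : Set E) {n : ℕ}
    (φ : Coch E A n) : Prop := LZ Z φ ∧ LZ S (dd τ φ)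

/-- Relative coboundaries of the pair `(S, Z)`. -/
def Cob [TopologicalSpace E] [AddCommGroup A] [SMul G A] (τ : E → E → G) (S Z : Set E) :
    ∀ {n : ℕ}, Coch E A n → Prop
  | 0, φ => LZ S φ
  | (_ + 1), φ => ∃ ψ, LZ Z ψ ∧ LZ S (φ - dd τ ψ)

/-- Pull back. -/
def pb (f : E → E') {n : ℕ} (φ : Coch E' A n) : Coch E A n := fun t => φ (fun j => f (t j))

/-- Pull back of a twist. -/
def pbt (f : E → E') (τ : E' → E' → G) : E → E → G := fun x y => τ (f x) (f y)

/-- Gauge transformation. -/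
def gau [SMul G A] (σ : E → G) {n : ℕ} (φ : Coch E A n) : Coch E A n := fun t => σ (t 0) • φ t

/-- The prism operator for two maps. -/
def prism [AddCommGroup A] (a b : E → E') {n : ℕ} (φ : Coch E' A (n + 1)) : Coch E A n :=
  fun t => ∑ i : Fin (n + 1), (-1 : ℤ) ^ (i : ℕ) •
    φ (fun j => if j ≤ i.castSucc then a (t (i.predAbove j)) else b (t (i.predAbove j)))

/-- Apply a map to the coefficients. -/
def cmap (F : A → B) {n : ℕ} (φ : Coch E A n) : Coch E B n := fun t => F (φ t)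

/-- Constant cochain. -/
def cst (E : Type*) (n : ℕ) (a : A) : Coch E A n := fun _ => a

/-- An integral cochain times a coefficient. -/
def smulC [AddCommGroup A] {n : ℕ} (g : Coch E ℤ n) (a : A) : Coch E A n := fun t => g t • a

/-- The cup product of an `R`-valued cochain `c` (twisted by the inverse of `τ`) and a
`D`-valued cochain (twisted by `τ`), in degree `n = q + p`. -/
def cup {R D : Type*} [CommRing R] [AddCommGroup D] [Module R D] {q p n : ℕ} (h : q + p = n)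
    (τ : E → E → Rˣ) (c : Coch E R q) (φ : Coch E D p) : Coch E D n :=
  fun t => c (fun i => t ⟨i.1, by omega⟩) •
    (τ (t 0) (t ⟨q, by omega⟩) • φ (fun j => t ⟨q + j.1, by omega⟩))

/-- The two differences are separated (true for two closed sets and for two open sets). -/
def Sepd [TopologicalSpace E] (S₁ S₂ : Set E) : Prop :=
  (∀ x ∈ S₁ \ S₂, x ∉ closure (S₂ \ S₁)) ∧ (∀ x ∈ S₂ \ S₁, x ∉ closure (S₁ \ S₂))

/-- The inverse twist. -/
def invt [Inv G] (τ : E → E → G) : E → E → G := fun x y => (τ x y)⁻¹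

/-- `S` has the cohomology of a graph: `H^0` constant, `H^1` free on the integral classes
`g i`, nothing in degrees at least two (untwisted coefficients in small groups). -/
def Grph [TopologicalSpace E] (S : Set E) {r : ℕ} (g : Fin r → Coch E ℤ 1) : Prop :=
  S.Nonempty ∧ (∀ i, LZ S (dd one (g i))) ∧ ∀ (A : Type) [AddCommGroup A],
    (∀ φ : Coch E A 0, LZ S (dd one φ) → ∃ a : A, LZ S (φ - cst E 0 a)) ∧
    (∀ φ : Coch E A 1, LZ S (dd one φ) →
      ∃ v : Fin r → A, Cob one S ∅ (φ - ∑ i, smulC (g i) (v i))) ∧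
    (∀ v : Fin r → A, Cob one S ∅ (∑ i, smulC (g i) (v i)) → v = 0) ∧
    ∀ (n : ℕ) (φ : Coch E A (n + 2)), LZ S (dd one φ) → Cob one S ∅ φ

/-- `S` has the cohomology of a point (untwisted coefficients in small groups). -/
def Acyc [TopologicalSpace E] (S : Set E) : Prop :=
  S.Nonempty ∧ ∀ (A : Type) [AddCommGroup A],
    (∀ φ : Coch E A 0, LZ S (dd one φ) → ∃ a : A, LZ S (φ - cst E 0 a)) ∧
    ∀ (n : ℕ) (φ : Coch E A (n + 1)), LZ S (dd one φ) → Cob one S ∅ φ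

end defs

section lemmas
variable {E E' : Type*} [TopologicalSpace E] [TopologicalSpace E'] {A B G : Type*}
  [AddCommGroup A] [AddCommGroup B] [CommGroup G] [DistribMulAction G A] [DistribMulAction G B]

omit [AddCommGroup A] in
theorem LZ.mono [Zero A] {S T : Set E} {n : ℕ} {φ : Coch E A n} (h : S ⊆ T) (hφ : LZ T φ) :
    LZ S φ := fun x hx => hφ x (h hx)

theorem LZ.zero (S : Set E) {n : ℕ} : LZ S (0 : Coch E A n) :=
  fun _ _ => Eventually.of_forall fun _ => rfl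

theorem LZ.empty {n : ℕ} (φ : Coch E A n) : LZ (∅ : Set E) φ := fun _ hx => hx.elim

theorem LZ.add {S : Set E} {n : ℕ} {φ ψ : Coch E A n} (h₁ : LZ S φ) (h₂ : LZ S ψ) :
    LZ S (φ + ψ) := fun x hx => by
  filter_upwards [h₁ x hx, h₂ x hx] with t a b
  simp [a, b]

theorem LZ.neg {S : Set E} {n : ℕ} {φ : Coch E A n} (h₁ : LZ S φ) :
    LZ S (-φ) := fun x hx => by
  filter_upwards [h₁ x hx] with t a
  simp [a]

theorem LZ.sub {S : Set E} {n : ℕ} {φ ψ : Coch E A n} (h₁ : LZ S φ) (h₂ : LZ S ψ) :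
    LZ S (φ - ψ) := fun x hx => by
  filter_upwards [h₁ x hx, h₂ x hx] with t a b
  simp [a, b]

theorem LZ.symm {S : Set E} {n : ℕ} {φ ψ : Coch E A n} (h : LZ S (φ - ψ)) :
    LZ S (ψ - φ) := by
  have := h.neg
  simpa using this

theorem LZ.trans {S : Set E} {n : ℕ} {φ ψ χ : Coch E A n} (h₁ : LZ S (φ - ψ))
    (h₂ : LZ S (ψ - χ)) : LZ S (φ - χ) := by
  have := h₁.add h₂
  simpa using this

theorem LZ.congr {S : Set E} {n : ℕ} {φ ψ : Coch E A n} (h : LZ S (φ - ψ)) (h₂ : LZ S ψ) :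
    LZ S φ := by
  have := h.add h₂
  simpa using this

theorem LZ.union {S T : Set E} {n : ℕ} {φ : Coch E A n} (h₁ : LZ S φ) (h₂ : LZ T φ) :
    LZ (S ∪ T) φ := fun x hx => hx.elim (h₁ x) (h₂ x)

theorem LZ.cmap {S : Set E} {n : ℕ} {φ : Coch E A n} (h : LZ S φ) (F : A → B) (hF : F 0 = 0) :
    LZ S (cmap F φ) := fun x hx => by
  filter_upwards [h x hx] with t a
  simp [PoolFbd.cmap, a, hF]

theorem LZ.gau {S : Set E} {n : ℕ} {φ : Coch E A n} (h : LZ S φ) (σ : E → G) :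
    LZ S (gau σ φ) := fun x hx => by
  filter_upwards [h x hx] with t a
  simp [PoolFbd.gau, a]

theorem tendsto_face {n m : ℕ} (f : Fin m → Fin n) (x : E) :
    Tendsto (fun (t : Fin n → E) (j : Fin m) => t (f j)) (𝓝 (fun _ => x)) (𝓝 (fun _ => x)) := by
  have h : Continuous (fun (t : Fin n → E) (j : Fin m) => t (f j)) :=
    continuous_pi fun j => continuous_apply (f j)
  exact h.tendsto (fun _ => x)

theorem tendsto_pb {n : ℕ} {f : E → E'} {x : E} (hf : ContinuousAt f x) :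
    Tendsto (fun (t : Fin n → E) (j : Fin n) => f (t j)) (𝓝 (fun _ => x))
      (𝓝 (fun _ => f x)) := by
  rw [tendsto_pi_nhds]
  intro j
  exact hf.tendsto.comp ((continuous_apply j).tendsto (fun _ => x))

theorem LZ.pb {S : Set E} {S' : Set E'} {n : ℕ} {φ : Coch E' A n} {f : E → E'}
    (hf : ∀ x ∈ S, ContinuousAt f x ∧ f x ∈ S') (h : LZ S' φ) : LZ S (pb f φ) := fun x hx =>
  (tendsto_pb (hf x hx).1).eventually (h (f x) (hf x hx).2)

theorem ZeroAt.dd {n : ℕ} {φ : Coch E A n} {x : E} (h : ZeroAt φ x) (τ : E → E → G) :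
    ZeroAt (dd τ φ) x := by
  have h1 : ∀ᶠ t in 𝓝 (fun _ : Fin (n + 1 + 1) => x), φ (fun j => t j.succ) = 0 :=
    (tendsto_face (fun j => Fin.succ j) x).eventually h
  have h2 : ∀ᶠ t in 𝓝 (fun _ : Fin (n + 1 + 1) => x), ∀ i : Fin (n + 1),
      φ (fun j => t (i.succ.succAbove j)) = 0 := by
    rw [eventually_all]
    exact fun i => (tendsto_face (fun j => i.succ.succAbove j) x).eventually h
  filter_upwards [h1, h2] with t a b
  simp [PoolFbd.dd, a, b]

theorem LZ.dd {S : Set E} {n : ℕ} {φ : Coch E A n} (h : LZ S φ) (τ : E → E → G) :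
    LZ S (dd τ φ) := fun x hx => (h x hx).dd τ

omit [TopologicalSpace E] in
theorem dd_add (τ : E → E → G) {n : ℕ} (φ ψ : Coch E A n) : dd τ (φ + ψ) = dd τ φ + dd τ ψ := by
  funext t
  simp only [dd, Pi.add_apply, smul_add, Finset.sum_add_distrib]
  abel

omit [TopologicalSpace E] in
theorem dd_zero (τ : E → E → G) {n : ℕ} : dd τ (0 : Coch E A n) = 0 := by
  funext t
  simp [dd]

omit [TopologicalSpace E] in
theorem dd_neg (τ : E → E → G) {n : ℕ} (φ : Coch E A n) : dd τ (-φ) = - dd τ φ := by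
  funext t
  simp only [dd, Pi.neg_apply, smul_neg, Finset.sum_neg_distrib]
  abel

omit [TopologicalSpace E] in
theorem dd_sub (τ : E → E → G) {n : ℕ} (φ ψ : Coch E A n) : dd τ (φ - ψ) = dd τ φ - dd τ ψ := by
  rw [sub_eq_add_neg, dd_add, dd_neg, sub_eq_add_neg]

omit [TopologicalSpace E] [TopologicalSpace E'] in
theorem dd_pb (f : E → E') (τ : E' → E' → G) {n : ℕ} (φ : Coch E' A n) :
    dd (pbt f τ) (pb f φ) = pb f (dd τ φ) := rfl

omit [TopologicalSpace E] in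
theorem dd_cmap (τ : E → E → G) {n : ℕ} (φ : Coch E A n) (F : A →+ B)
    (hF : ∀ (g : G) (a : A), F (g • a) = g • F a) :
    dd τ (cmap F φ) = cmap F (dd τ φ) := by
  funext t
  simp [dd, cmap, hF, map_add, map_sum, map_zsmul]

omit [TopologicalSpace E] in
theorem dd_triv {n : ℕ} (φ : Coch E A n) : dd (fun _ _ => (1 : G)) φ = dd one φ := by
  funext t
  simp [dd, one]

omit [TopologicalSpace E] in
theorem gau_add (σ : E → G) {n : ℕ} (φ ψ : Coch E A n) : gau σ (φ + ψ) = gau σ φ + gau σ ψ := by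
  funext t
  simp [gau]

omit [TopologicalSpace E] in
theorem gau_sub (σ : E → G) {n : ℕ} (φ ψ : Coch E A n) : gau σ (φ - ψ) = gau σ φ - gau σ ψ := by
  funext t
  simp [gau, smul_sub]

theorem Cob.of_LZ {τ : E → E → G} {S Z : Set E} {n : ℕ} {φ : Coch E A n} (h : LZ S φ) :
    Cob τ S Z φ := by
  cases n with
  | zero => exact h
  | succ n => exact ⟨0, LZ.zero Z, by rw [dd_zero, sub_zero]; exact h⟩

theorem Cob.zero (τ : E → E → G) (S Z : Set E) {n : ℕ} : Cob τ S Z (0 : Coch E A n) :=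
  Cob.of_LZ (LZ.zero S)

theorem Cob.add {τ : E → E → G} {S Z : Set E} {n : ℕ} {φ φ' : Coch E A n}
    (h : Cob τ S Z φ) (h' : Cob τ S Z φ') : Cob τ S Z (φ + φ') := by
  cases n with
  | zero => exact LZ.add h h'
  | succ n =>
    obtain ⟨ψ, a, b⟩ := h
    obtain ⟨ψ', a', b'⟩ := h'
    refine ⟨ψ + ψ', a.add a', ?_⟩
    have := b.add b'
    rw [dd_add]
    convert this using 1
    abel

theorem Cob.neg {τ : E → E → G} {S Z : Set E} {n : ℕ} {φ : Coch E A n}
    (h : Cob τ S Z φ) : Cob τ S Z (-φ) := by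
  cases n with
  | zero => exact LZ.neg h
  | succ n =>
    obtain ⟨ψ, a, b⟩ := h
    refine ⟨-ψ, a.neg, ?_⟩
    have := b.neg
    rw [dd_neg]
    convert this using 1
    abel

theorem Cob.sub {τ : E → E → G} {S Z : Set E} {n : ℕ} {φ φ' : Coch E A n}
    (h : Cob τ S Z φ) (h' : Cob τ S Z φ') : Cob τ S Z (φ - φ') := by
  rw [sub_eq_add_neg]; exact h.add h'.neg

theorem Cob.symm {τ : E → E → G} {S Z : Set E} {n : ℕ} {φ ψ : Coch E A n}
    (h : Cob τ S Z (φ - ψ)) : Cob τ S Z (ψ - φ) := by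
  have := h.neg
  simpa using this

theorem Cob.trans {τ : E → E → G} {S Z : Set E} {n : ℕ} {φ ψ χ : Coch E A n}
    (h₁ : Cob τ S Z (φ - ψ)) (h₂ : Cob τ S Z (ψ - χ)) : Cob τ S Z (φ - χ) := by
  have := h₁.add h₂
  simpa using this

theorem Cob.congr {τ : E → E → G} {S Z : Set E} {n : ℕ} {φ ψ : Coch E A n}
    (h₁ : LZ S (φ - ψ)) (h₂ : Cob τ S Z ψ) : Cob τ S Z φ := by
  have := (Cob.of_LZ (τ := τ) (Z := Z) h₁).add h₂
  simpa using this

theorem Cob.mono {τ : E → E → G} {S S' Z Z' : Set E} {n : ℕ} {φ : Coch E A n}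
    (hS : S' ⊆ S) (hZ : Z' ⊆ Z) (h : Cob τ S Z φ) : Cob τ S' Z' φ := by
  cases n with
  | zero => exact LZ.mono hS h
  | succ n =>
    obtain ⟨ψ, a, b⟩ := h
    exact ⟨ψ, a.mono hZ, b.mono hS⟩

theorem Coc.mono {τ : E → E → G} {S S' Z Z' : Set E} {n : ℕ} {φ : Coch E A n}
    (hS : S' ⊆ S) (hZ : Z' ⊆ Z) (h : Coc τ S Z φ) : Coc τ S' Z' φ :=
  ⟨h.1.mono hZ, h.2.mono hS⟩

theorem Coc.add {τ : E → E → G} {S Z : Set E} {n : ℕ} {φ ψ : Coch E A n}
    (h : Coc τ S Z φ) (h' : Coc τ S Z ψ) : Coc τ S Z (φ + ψ) :=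
  ⟨h.1.add h'.1, by rw [dd_add]; exact h.2.add h'.2⟩

theorem Coc.neg {τ : E → E → G} {S Z : Set E} {n : ℕ} {φ : Coch E A n}
    (h : Coc τ S Z φ) : Coc τ S Z (-φ) :=
  ⟨h.1.neg, by rw [dd_neg]; exact h.2.neg⟩

theorem Coc.sub {τ : E → E → G} {S Z : Set E} {n : ℕ} {φ ψ : Coch E A n}
    (h : Coc τ S Z φ) (h' : Coc τ S Z ψ) : Coc τ S Z (φ - ψ) :=
  ⟨h.1.sub h'.1, by rw [dd_sub]; exact h.2.sub h'.2⟩

theorem Coc.zero (τ : E → E → G) (S Z : Set E) {n : ℕ} : Coc τ S Z (0 : Coch E A n) :=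
  ⟨LZ.zero Z, by rw [dd_zero]; exact LZ.zero S⟩

theorem Coc.pb {τ : E' → E' → G} {S Z : Set E} {S' Z' : Set E'} {n : ℕ} {φ : Coch E' A n}
    {f : E → E'} (hS : ∀ x ∈ S, ContinuousAt f x ∧ f x ∈ S')
    (hZ : ∀ x ∈ Z, ContinuousAt f x ∧ f x ∈ Z') (h : Coc τ S' Z' φ) :
    Coc (pbt f τ) S Z (pb f φ) :=
  ⟨h.1.pb hZ, by rw [dd_pb]; exact h.2.pb hS⟩

theorem Cob.pb {τ : E' → E' → G} {S Z : Set E} {S' Z' : Set E'} {n : ℕ} {φ : Coch E' A n}
    {f : E → E'} (hS : ∀ x ∈ S, ContinuousAt f x ∧ f x ∈ S')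
    (hZ : ∀ x ∈ Z, ContinuousAt f x ∧ f x ∈ Z') (h : Cob τ S' Z' φ) :
    Cob (pbt f τ) S Z (pb f φ) := by
  cases n with
  | zero => exact LZ.pb hS h
  | succ n =>
    obtain ⟨ψ, a, b⟩ := h
    exact ⟨PoolFbd.pb f ψ, a.pb hZ, b.pb hS⟩

omit [TopologicalSpace E] [TopologicalSpace E'] [AddCommGroup A] in
theorem pbt_one (f : E → E') : pbt f (one : E' → E' → ℤˣ) = one := rfl

theorem IsTw.mono {S T : Set E} {τ : E → E → G} (h : S ⊆ T) (hτ : IsTw T τ) : IsTw S τ :=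
  fun x hx => hτ x (h hx)

theorem IsTw.one (S : Set E) : IsTw S (PoolFbd.one : E → E → ℤˣ) :=
  fun _ _ => Eventually.of_forall fun _ => rfl

theorem IsTw.pbt {S : Set E} {S' : Set E'} {τ : E' → E' → G} {f : E → E'}
    (hf : ∀ x ∈ S, ContinuousAt f x ∧ f x ∈ S') (h : IsTw S' τ) : IsTw S (pbt f τ) :=
  fun x hx => (tendsto_pb (hf x hx).1).eventually (h (f x) (hf x hx).2)

theorem IsTw.inv {S : Set E} {τ : E → E → G} (hτ : IsTw S τ) :
    IsTw S (invt τ) := fun x hx => by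
  filter_upwards [hτ x hx] with t ht
  simp only [invt]
  rw [← ht, mul_inv]

theorem Sepd.closed {S T : Set E} (hS : IsClosed S) (hT : IsClosed T) : Sepd S T := by
  refine ⟨fun x hx h => hx.2 ?_, fun x hx h => hx.2 ?_⟩
  · exact hT.closure_subset (closure_mono sdiff_subset h)
  · exact hS.closure_subset (closure_mono sdiff_subset h)

theorem Sepd.open {S T : Set E} (hS : IsOpen S) (hT : IsOpen T) : Sepd S T := by
  refine ⟨fun x hx h => ?_, fun x hx h => ?_⟩
  · obtain ⟨y, hy, hy'⟩ := mem_closure_iff.1 h S hS hx.1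
    exact hy'.2 hy
  · obtain ⟨y, hy, hy'⟩ := mem_closure_iff.1 h T hT hx.1
    exact hy'.2 hy

end lemmas

end PoolFbd
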