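import Pool.Agent.Work.MP_fbd21a_gt.BoxRel
import Pool.Agent.Work.MP_fbd21a_gt.OmCoc

/-! MODULE BoxFace. Passage to the top face.
bd (n+1) = bdm n ∪ topf n, bdm n ∩ topf n = image of bd n under inq, inq maps Q n onto topf n.
PROOF of face_zero: ψ relative cocycle of (bd (n+1), bdm n) of degree m whose restriction
pb (inq n) ψ is a relative coboundary of (univ, bd n). By taut_inj with f = prq n, g = inq n
(S = topf n, Z = topf n ∩ bdm n, S' = univ, Z' = bd n; both maps are continuous; inq (prq x) = x on
topf n; prq maps topf ∩ bdm into bd n) ψ is a coboundary on (topf, topf ∩ bdm):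
m = 0: ψ vanishes near topf, and near bdm. m = k+1: ψ = dd one χ near topf, χ zero near
topf ∩ bdm; glue χ (near topf) and 0 (near bdm) (both closed; Sepd.closed; glue) to χ'; then
ψ - dd one χ' vanishes near topf ∪ bdm = bd (ψ vanishes near bdm).
PROOF of face_om: the cochain Φ t = om n c' (prq t0..prq tn) * st (c last) (t_n last) has
dd one Φ = (-1)^n om (n+1) c exactly (as in om_dd; the last vertex carries the step function),
vanishes near bdm n and pb (inq n) Φ = om n c' (the step function is 1 on the top face, c last < 1). -/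

open Topology Filter Set

namespace PoolFbd

private theorem boxface_inq_cont (n : ℕ) : Continuous (inq n) := by
  refine continuous_pi fun i => ?_
  refine Fin.lastCases ?_ (fun i => ?_) i
  · simp only [inq, Fin.snoc_last]
    exact continuous_const
  · simp only [inq, Fin.snoc_castSucc]
    exact continuous_apply i

private theorem boxface_prq_cont (n : ℕ) : Continuous (prq n) :=
  continuous_pi fun i => continuous_apply i.castSucc

private theorem boxface_inq_last (n : ℕ) (y : Q n) : ((inq n y (Fin.last n)) : ℝ) = 1 := by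
  simp only [inq, Fin.snoc_last]

private theorem boxface_inq_cast (n : ℕ) (y : Q n) (i : Fin n) : inq n y i.castSucc = y i := by
  simp only [inq, Fin.snoc_castSucc]

private theorem boxface_prq_inq (n : ℕ) (y : Q n) : prq n (inq n y) = y := by
  funext i
  exact boxface_inq_cast n y i

private theorem boxface_inq_prq (n : ℕ) {x : Q (n + 1)} (hx : x ∈ topf n) :
    inq n (prq n x) = x := by
  funext i
  refine Fin.lastCases ?_ (fun i => ?_) i
  · apply Subtype.ext
    rw [boxface_inq_last]
    exact hx.symm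
  · rw [boxface_inq_cast]
    rfl

private theorem boxface_inq_bdm (n : ℕ) {y : Q n} (hy : y ∈ bd n) : inq n y ∈ bdm n := by
  obtain ⟨i, hi⟩ := hy
  left
  refine ⟨i, ?_⟩
  rw [boxface_inq_cast]
  exact hi

private theorem boxface_topf_sub (n : ℕ) : topf n ⊆ bd (n + 1) := fun _ hx =>
  ⟨Fin.last n, Or.inr hx⟩

private theorem boxface_bd_sub (n : ℕ) : bd (n + 1) ⊆ topf n ∪ bdm n := by
  rintro x ⟨i, hi⟩
  revert hi
  refine Fin.lastCases ?_ (fun i => ?_) i
  · rintro (hi | hi)
    · exact Or.inr (Or.inr hi)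
    · exact Or.inl hi
  · intro hi
    exact Or.inr (Or.inl ⟨i, hi⟩)

private theorem boxface_coord_cont (n : ℕ) (i : Fin n) : Continuous (fun x : Q n => (x i : ℝ)) :=
  continuous_subtype_val.comp (continuous_apply i)

private theorem boxface_topf_closed (n : ℕ) : IsClosed (topf n) :=
  isClosed_eq (boxface_coord_cont (n + 1) (Fin.last n)) continuous_const

private theorem boxface_bdm_closed (n : ℕ) : IsClosed (bdm n) := by
  have e : bdm n = (⋃ i : Fin n, ({x : Q (n + 1) | (x i.castSucc : ℝ) = -1} ∪
      {x : Q (n + 1) | (x i.castSucc : ℝ) = 1})) ∪ {x : Q (n + 1) | (x (Fin.last n) : ℝ) = -1} := by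
    ext x
    rw [mem_union, mem_iUnion]
    rfl
  rw [e]
  refine IsClosed.union (isClosed_iUnion_of_finite fun i => ?_) ?_
  · exact (isClosed_eq (boxface_coord_cont _ _) continuous_const).union
      (isClosed_eq (boxface_coord_cont _ _) continuous_const)
  · exact isClosed_eq (boxface_coord_cont _ _) continuous_const

theorem face_zero (n : ℕ) {A : Type} [AddCommGroup A] {m : ℕ} {ψ : Coch (Q (n + 1)) A m}
    (hψ : Coc one (bd (n + 1)) (bdm n) ψ) (h : Cob one univ (bd n) (pb (inq n) ψ)) :
    Cob one (bd (n + 1)) (bdm n) ψ := by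
  have h1 : Cob one (topf n) (topf n ∩ bdm n) ψ := by
    refine taut_inj (f := prq n) (g := inq n) (S' := univ) (Z' := bd n) ?_ ?_ ?_ ?_ ?_ ?_ ?_
      (hψ.mono (boxface_topf_sub n) inter_subset_right) h
    · exact fun x _ => (boxface_prq_cont n).continuousAt
    · exact fun x _ => (boxface_inq_cont n).continuousAt
    · exact fun x _ => mem_univ _
    · rintro x ⟨hx1, hx2⟩
      rcases hx2 with ⟨i, hi⟩ | hx2
      · exact ⟨i, hi⟩
      · have h3 : (x (Fin.last n) : ℝ) = 1 := hx1
        rw [h3] at hx2
        norm_num at hx2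
    · exact fun y _ => boxface_inq_last n y
    · exact fun y hy => ⟨boxface_inq_last n y, boxface_inq_bdm n hy⟩
    · rintro x (hx | hx)
      · exact boxface_inq_prq n hx
      · exact boxface_inq_prq n hx.1
  cases m with
  | zero => exact (LZ.union h1 hψ.1).mono (boxface_bd_sub n)
  | succ k =>
    obtain ⟨χ, hχ1, hχ2⟩ := h1
    obtain ⟨χ', h2, h3⟩ := glue (Sepd.closed (boxface_topf_closed n) (boxface_bdm_closed n)) χ 0
      (by rw [sub_zero]; exact hχ1)
    rw [sub_zero] at h3
    refine ⟨χ', h3, LZ.mono (boxface_bd_sub n) (LZ.union ?_ ?_)⟩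
    · have h4 := h2.dd one
      rw [dd_sub] at h4
      intro x hx
      filter_upwards [h4 x hx, hχ2 x hx] with t e1 e2
      rw [Pi.sub_apply, sub_eq_zero] at e1
      rw [Pi.sub_apply] at e2 ⊢
      rw [e1]
      exact e2
    · exact hψ.1.sub (h3.dd one)

theorem face_coc (n : ℕ) {A : Type} [AddCommGroup A] {m : ℕ} {ψ : Coch (Q (n + 1)) A m}
    (hψ : Coc one (bd (n + 1)) (bdm n) ψ) : Coc one univ (bd n) (pb (inq n) ψ) := by
  have h := Coc.pb (f := inq n) (S := univ) (Z := bd n)
    (fun x _ => ⟨(boxface_inq_cont n).continuousAt, boxface_topf_sub n (boxface_inq_last n x)⟩)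
    (fun x hx => ⟨(boxface_inq_cont n).continuousAt, boxface_inq_bdm n hx⟩) hψ
  rw [pbt_one] at h
  exact h

theorem face_om (n : ℕ) {c : Fin (n + 1) → ℝ} (hc : ∀ i, c i ∈ Ioo (-1 : ℝ) 1) :
    ∃ Φ : Coch (Q (n + 1)) ℤ n, LZ (bdm n) Φ ∧ dd one Φ = (-1 : ℤ) ^ n • om (n + 1) c ∧
      pb (inq n) Φ = om n (fun i => c i.castSucc) := by
  classical
  obtain ⟨c', hc'⟩ : ∃ c' : Fin n → ℝ, c' = fun i => c i.castSucc := ⟨_, rfl⟩
  refine ⟨fun t => om n c' (fun j => prq n (t j)) *
    st (c (Fin.last n)) (t (Fin.last n) (Fin.last n)), ?_, ?_, ?_⟩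
  · rintro x (⟨i, hi⟩ | hx)
    · have h1 : LZ {x | prq n x ∈ bd n} (pb (prq n) (om n c')) :=
        LZ.pb (S' := bd n) (fun x hx => ⟨(boxface_prq_cont n).continuousAt, hx⟩)
          (om_bd n (fun i => by rw [hc']; exact hc _))
      filter_upwards [h1 x ⟨i, hi⟩] with t ht
      have ht' : om n c' (fun j => prq n (t j)) = 0 := ht
      rw [ht', zero_mul]
    · have h1 : ∀ᶠ y in 𝓝 x, ((y (Fin.last n)) : ℝ) < c (Fin.last n) := by
        have h2 := (boxface_coord_cont (n + 1) (Fin.last n)).continuousAt (x := x)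
        refine h2.eventually_lt continuousAt_const ?_
        show ((x (Fin.last n)) : ℝ) < c (Fin.last n)
        rw [hx]
        exact (hc _).1
      have h3 : ∀ᶠ t in 𝓝 (fun _ : Fin (n + 1) => x),
          ((t (Fin.last n) (Fin.last n)) : ℝ) < c (Fin.last n) :=
        ((continuous_apply (Fin.last n)).tendsto (fun _ : Fin (n + 1) => x)).eventually h1
      filter_upwards [h3] with t ht
      have : st (c (Fin.last n)) (t (Fin.last n) (Fin.last n)) = 0 := by
        unfold st
        rw [if_neg (not_le.2 ht)]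
      rw [this, mul_zero]
  · funext t
    have h0 := congrFun (om_dd n c') (fun j => prq n (t j))
    rw [Pi.zero_apply] at h0
    unfold dd at h0
    rw [Fin.sum_univ_castSucc] at h0
    rw [Pi.smul_apply, om_succ]
    unfold dd
    rw [Fin.sum_univ_castSucc]
    have hk : ∀ i : Fin n, (i.castSucc.succ).succAbove (Fin.last n) = Fin.last (n + 1) := by
      intro i
      rw [Fin.succAbove_of_le_castSucc, Fin.succ_last]
      rw [Fin.le_def]
      simp only [Fin.val_succ, Fin.val_castSucc, Fin.val_last]
      omega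
    have hl : ∀ j : Fin (n + 1), ((Fin.last n).succ).succAbove j = j.castSucc := by
      intro j
      rw [Fin.succ_last, Fin.succAbove_last]
    have h1 : (fun j : Fin (n + 1) => t (((Fin.last n).succ).succAbove j)) =
        fun j => t j.castSucc := by
      funext j
      rw [hl]
    have h2 : (fun j : Fin (n + 1) => prq n (t (((Fin.last n).succ).succAbove j))) =
        fun j => prq n (t j.castSucc) := by
      funext j
      rw [hl]
    rw [h2] at h0
    have e3 : (-1 : ℤ) ^ (((Fin.last n : Fin (n + 1)) : ℕ) + 1) = -(-1) ^ n := by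
      rw [Fin.val_last, pow_succ]
      ring
    rw [e3] at h0 ⊢
    simp only [one, one_smul, smul_eq_mul] at h0 ⊢
    rw [h2, hl (Fin.last n), Fin.succ_last, ← hc']
    have h5 : ∑ x : Fin n, (-1 : ℤ) ^ ((x.castSucc : ℕ) + 1) *
        (om n c' (fun j => prq n (t (x.castSucc.succ.succAbove j))) *
          st (c (Fin.last n)) ((t (x.castSucc.succ.succAbove (Fin.last n)) (Fin.last n)) : ℝ)) =
        (∑ x : Fin n, (-1 : ℤ) ^ ((x.castSucc : ℕ) + 1) *
          om n c' (fun j => prq n (t (x.castSucc.succ.succAbove j)))) *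
          st (c (Fin.last n)) ((t (Fin.last (n + 1)) (Fin.last n)) : ℝ) := by
      rw [Finset.sum_mul]
      refine Finset.sum_congr rfl fun x _ => ?_
      rw [hk x, mul_assoc]
    rw [h5]
    linear_combination (st (c (Fin.last n)) ((t (Fin.last (n + 1)) (Fin.last n)) : ℝ)) * h0
  · funext t
    have e1 : st (c (Fin.last n)) 1 = 1 := by
      unfold st
      rw [if_pos (hc _).2.le]
    show om n c' (fun j => prq n (inq n (t j))) *
      st (c (Fin.last n)) (inq n (t (Fin.last n)) (Fin.last n)) = _
    rw [boxface_inq_last, e1, mul_one]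
    simp only [boxface_prq_inq]
    rw [hc']

end PoolFbd
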