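import Pool.Agent.Work.MP_fbd21a_gt.BMinus
import Pool.Agent.Work.MP_fbd21a_gt.AcUnion

/-! MODULE BoxRel. If S and Z ⊆ S are acyclic then H^*(S, Z) = 0; applied to (Q (n+1), bdm n); and
the first reduction for the pair (Q (n+1), bd (n+1)).
PROOF of acyc_pair. Degree 0: φ = cst a near S, zero near Z nonempty, so a = 0. Degree m+1:
φ = dd one ψ near S, ψ is a cocycle near Z; m = 0: ψ = cst a near Z, use ψ - cst a; m = k+1: ψ = dd one χ
near Z, use ψ - dd one χ.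
PROOF of box_red. φ in degree m+1 relative cocycle of (univ, bd): φ = dd one ψ near univ (acyc_Q);
near bdm ψ is a cocycle (φ vanishes near bd ⊇ bdm), so as above it may be changed to vanish near
bdm. -/

open Topology Filter Set

namespace PoolFbd

private theorem boxrel_dd_cst {E : Type*} {A : Type*} [AddCommGroup A] (a : A) :
    dd (one : E → E → ℤˣ) (cst E 0 a) = 0 := by
  funext t
  simp [dd, cst, one]

/-- a cocycle near an acyclic set can be corrected to zero by a global cocycle -/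
private theorem boxrel_fix {E : Type*} [TopologicalSpace E] {Z : Set E} (hZ : Acyc Z) {A : Type}
    [AddCommGroup A] {m : ℕ} {ψ : Coch E A m} (hψ : LZ Z (dd one ψ)) :
    ∃ ζ : Coch E A m, LZ Z (ψ - ζ) ∧ ∀ S : Set E, LZ S (dd one ζ) := by
  cases m with
  | zero =>
    obtain ⟨a, ha⟩ := (hZ.2 A).1 ψ hψ
    refine ⟨cst E 0 a, ha, fun S => ?_⟩
    rw [boxrel_dd_cst]
    exact LZ.zero S
  | succ k =>
    obtain ⟨χ, -, hχ⟩ := (hZ.2 A).2 k ψ hψ
    exact ⟨dd one χ, hχ, fun S => LZ_dd_dd (IsTw.one S) χ⟩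

theorem acyc_pair {E : Type*} [TopologicalSpace E] {S Z : Set E} (hS : Acyc S) (hZ : Acyc Z)
    (hZS : Z ⊆ S) {A : Type} [AddCommGroup A] {m : ℕ} {φ : Coch E A m}
    (hφ : Coc one S Z φ) : Cob one S Z φ := by
  cases m with
  | zero =>
    obtain ⟨a, ha⟩ := (hS.2 A).1 φ hφ.2
    obtain ⟨x, hx⟩ := hZ.1
    have h1 := ha x (hZS hx)
    have h2 := hφ.1 x hx
    obtain ⟨t, ht1, ht2⟩ := (h1.and h2).exists
    rw [Pi.sub_apply, ht2, zero_sub, neg_eq_zero] at ht1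
    have ha0 : a = 0 := ht1
    rw [ha0] at ha
    have e : φ - cst E 0 (0 : A) = φ := by
      funext t
      simp [cst]
    rw [e] at ha
    exact ha
  | succ m =>
    obtain ⟨ψ, -, hψ⟩ := (hS.2 A).2 m φ hφ.2
    have h1 : LZ Z (dd one ψ) := by
      intro x hx
      filter_upwards [hψ x (hZS hx), hφ.1 x hx] with t e1 e2
      rw [Pi.sub_apply, e2, zero_sub, neg_eq_zero] at e1
      exact e1
    obtain ⟨ζ, hζ1, hζ2⟩ := boxrel_fix hZ h1
    refine ⟨ψ - ζ, hζ1, ?_⟩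
    rw [dd_sub]
    intro x hx
    filter_upwards [hψ x hx, hζ2 S x hx] with t e1 e2
    rw [Pi.sub_apply] at e1
    rw [Pi.sub_apply, Pi.sub_apply, e2, sub_zero]
    exact e1

theorem box_red (n : ℕ) {A : Type} [AddCommGroup A] {m : ℕ} {φ : Coch (Q (n + 1)) A (m + 1)}
    (hφ : Coc one univ (bd (n + 1)) φ) :
    ∃ ψ : Coch (Q (n + 1)) A m, LZ univ (φ - dd one ψ) ∧ Coc one (bd (n + 1)) (bdm n) ψ := by
  obtain ⟨ψ, -, hψ⟩ := ((acyc_Q (n + 1)).2 A).2 m φ hφ.2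
  have hsub : bdm n ⊆ bd (n + 1) := by
    rintro x (⟨i, hi⟩ | h)
    · exact ⟨i.castSucc, hi⟩
    · exact ⟨Fin.last n, Or.inl h⟩
  have h1 : LZ (bdm n) (dd one ψ) := by
    intro x hx
    filter_upwards [hψ x (mem_univ x), hφ.1 x (hsub hx)] with t e1 e2
    rw [Pi.sub_apply, e2, zero_sub, neg_eq_zero] at e1
    exact e1
  obtain ⟨ζ, hζ1, hζ2⟩ := boxrel_fix (acyc_bdm n) h1
  refine ⟨ψ - ζ, ?_, hζ1, ?_⟩
  · rw [dd_sub]
    intro x hx
    filter_upwards [hψ x hx, hζ2 univ x hx] with t e1 e2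
    rw [Pi.sub_apply] at e1
    rw [Pi.sub_apply, Pi.sub_apply, e2, sub_zero]
    exact e1
  · rw [dd_sub]
    intro x hx
    filter_upwards [hψ x (mem_univ x), hφ.1 x hx, hζ2 univ x (mem_univ x)] with t e1 e2 e3
    rw [Pi.sub_apply, e2, zero_sub, neg_eq_zero] at e1
    rw [Pi.sub_apply, e1, e3, sub_zero]

end PoolFbd
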