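import Pool.Agent.Work.MP_fbd21a_gt.BoxFace

/-! MODULE BoxThm. Cohomology of the pair (Q n, bd n): zero in degrees ≠ n, and H^n = A · om.
Induction on n. n = 0: Q 0 is a point, bd 0 = ∅, om 0 c = 1: acyc_Q 0 (degree 0: constants; the only
tuple is constant, uniqueness since the filter is nontrivial).
Step n → n+1. Degree 0: φ = cst a near univ and zero near bd (n+1), nonempty: φ = 0.
Degree m+1: box_red gives ψ. If m ≠ n: pb (inq n) ψ is a coboundary (face_coc, induction), so ψ is
a coboundary of (bd, bdm) (face_zero): m = 0: ψ zero near bd; else ψ = dd χ near bd, χ zero near bdm;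
φ = dd (ψ - dd χ) near univ and ψ - dd χ vanishes near bd.
m = n: pb (inq n) ψ - om·a is a coboundary for some a; Φ of face_om; ψ - Φ·a is a relative cocycle of
(bd, bdm) (dd Φ = ± om vanishes near bd) with coboundary restriction, so it is a coboundary and
φ - dd (Φ·a) = φ - (-1)^n om·a is a relative coboundary: take a' = (-1)^n a.
Uniqueness: om(n+1)·a = dd ψ near univ with ψ zero near bd. Then (-1)^n·Φ·a - ψ is a relative cocycle of
(univ, bdm), so (acyc_pair with acyc_Q, acyc_bdm) a relative coboundary of (univ, bdm); pull back by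
inq n (inq maps bd n into bdm n ∩ topf, and ψ vanishes near topf): (-1)^n om n·a is a
coboundary of (univ, bd n) so a = 0 by induction. -/

open Topology Filter Set

namespace PoolFbd

private theorem boxthm_dd_smulC {E : Type*} {A : Type} [AddCommGroup A] {n : ℕ}
    (g : Coch E ℤ n) (a : A) : dd (one : E → E → ℤˣ) (smulC g a) = smulC (dd one g) a := by
  have h1 := dd_cmap (one : E → E → ℤˣ) g (zmultiplesHom A a) (by
    intro g m
    rw [Units.smul_def, Units.smul_def, map_zsmul])
  exact h1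

private theorem boxthm_smulC_lz {E : Type*} [TopologicalSpace E] {A : Type} [AddCommGroup A]
    {n : ℕ} {S : Set E} {g : Coch E ℤ n} (hg : LZ S g) (a : A) : LZ S (smulC g a) := fun x hx => by
  filter_upwards [hg x hx] with t ht
  simp only [smulC]
  rw [ht, zero_smul]

private theorem boxthm_smulC_smulC {E : Type*} {A : Type} [AddCommGroup A] {n : ℕ}
    (g : Coch E ℤ n) (k : ℕ) (a : A) :
    smulC ((-1 : ℤ) ^ k • g) ((-1 : ℤ) ^ k • a) = smulC g a := by
  funext t
  simp only [smulC, Pi.smul_apply, smul_smul, smul_eq_mul]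
  congr 1
  have : (-1 : ℤ) ^ k * (-1 : ℤ) ^ k = 1 := by
    rw [← mul_pow]
    norm_num
  calc (-1 : ℤ) ^ k * g t * (-1 : ℤ) ^ k = ((-1 : ℤ) ^ k * (-1 : ℤ) ^ k) * g t := by ring
    _ = g t := by rw [this, one_mul]

private theorem boxthm_zero (i : ℕ) : ∀ j : Fin i, (0 : Fin i → ℝ) j ∈ Ioo (-1 : ℝ) 1 := by
  intro j
  rw [Pi.zero_apply]
  constructor <;> norm_num

private theorem boxthm_bdm_sub (n : ℕ) : bdm n ⊆ bd (n + 1) := by
  rintro x (⟨i, hi⟩ | h)
  · exact ⟨i.castSucc, hi⟩
  · exact ⟨Fin.last n, Or.inl h⟩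

private theorem boxthm_const {E : Type*} [TopologicalSpace E] {A : Type} [AddCommGroup A] {m : ℕ}
    {x : E} {a : A} (h : ZeroAt (cst E m a) x) : a = 0 := by
  obtain ⟨t, ht⟩ := Filter.Eventually.exists h
  exact ht

/-- a cochain of the pair (bd, bdm) which is a coboundary can be corrected -/
private theorem boxthm_lift {E : Type*} [TopologicalSpace E] {A : Type} [AddCommGroup A] {k : ℕ}
    {S Z : Set E} {ψ : Coch E A k} (h : Cob one S Z ψ) :
    ∃ ψ' : Coch E A k, LZ S ψ' ∧ LZ univ (dd one ψ - dd one ψ') := by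
  cases k with
  | zero =>
    refine ⟨ψ, h, ?_⟩
    rw [sub_self]
    exact LZ.zero _
  | succ j =>
    obtain ⟨χ, -, hχ⟩ := h
    refine ⟨ψ - dd one χ, hχ, ?_⟩
    rw [dd_sub, sub_sub_cancel]
    exact LZ_dd_dd (IsTw.one univ) χ

private theorem boxthm_inq_cont (n : ℕ) : Continuous (inq n) := by
  refine continuous_pi fun i => ?_
  refine Fin.lastCases ?_ (fun i => ?_) i
  · simp only [inq, Fin.snoc_last]
    exact continuous_const
  · simp only [inq, Fin.snoc_castSucc]
    exact continuous_apply i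

private theorem boxthm_all (n : ℕ) :
    (∀ m : ℕ, m ≠ n → ∀ (A : Type) [AddCommGroup A] (φ : Coch (Q n) A m),
      Coc one univ (bd n) φ → Cob one univ (bd n) φ) ∧
    (∀ (A : Type) [AddCommGroup A] (φ : Coch (Q n) A n), Coc one univ (bd n) φ →
      ∃ a : A, Cob one univ (bd n) (φ - smulC (om n 0) a)) ∧
    (∀ (A : Type) [AddCommGroup A] (a : A), Cob one univ (bd n) (smulC (om n 0) a) → a = 0) := by
  induction n with
  | zero =>
    have hbd : bd 0 = ∅ := by
      ext x
      constructor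
      · rintro ⟨i, -⟩
        exact i.elim0
      · exact fun h => h.elim
    have hom : ∀ (A : Type) [AddCommGroup A] (a : A), smulC (om 0 0) a = cst (Q 0) 0 a := by
      intro A _ a
      funext t
      simp [smulC, om, cst]
    refine ⟨?_, ?_, ?_⟩
    · intro m hm A _ φ hφ
      obtain ⟨k, rfl⟩ := Nat.exists_eq_succ_of_ne_zero hm
      rw [hbd]
      exact ((acyc_Q 0).2 A).2 k φ hφ.2
    · intro A _ φ hφ
      obtain ⟨a, ha⟩ := ((acyc_Q 0).2 A).1 φ hφ.2
      refine ⟨a, ?_⟩
      rw [hom]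
      exact ha
    · intro A _ a ha
      rw [hom] at ha
      have h1 : LZ univ (cst (Q 0) 0 a) := ha
      exact boxthm_const (h1 (fun i => i.elim0) (mem_univ _))
  | succ n ih =>
    obtain ⟨ih1, ih2, ih3⟩ := ih
    obtain ⟨Φ, hΦ1, hΦ2, hΦ3⟩ := face_om n (boxthm_zero (n + 1))
    have hΦ3' : pb (inq n) Φ = om n 0 := hΦ3
    refine ⟨?_, ?_, ?_⟩
    · intro m hm A _ φ hφ
      cases m with
      | zero =>
        obtain ⟨a, ha⟩ := ((acyc_Q (n + 1)).2 A).1 φ hφ.2
        have hx : (fun _ => ⟨1, by norm_num⟩ : Q (n + 1)) ∈ bd (n + 1) := ⟨0, Or.inr rfl⟩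
        have h1 : ZeroAt (cst (Q (n + 1)) 0 a) (fun _ => ⟨1, by norm_num⟩ : Q (n + 1)) := by
          filter_upwards [ha _ (mem_univ (fun _ => ⟨1, by norm_num⟩ : Q (n + 1))),
            hφ.1 _ hx] with t e1 e2
          rw [Pi.sub_apply, e2, zero_sub, neg_eq_zero] at e1
          exact e1
        have ha0 := boxthm_const h1
        rw [ha0] at ha
        have e : φ - cst (Q (n + 1)) 0 (0 : A) = φ := by
          funext t
          simp [cst]
        rw [e] at ha
        exact ha
      | succ k =>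
        obtain ⟨ψ, hψ1, hψ2⟩ := box_red n hφ
        have h1 := ih1 k (by omega) A _ (face_coc n hψ2)
        obtain ⟨ψ', h2, h3⟩ := boxthm_lift (face_zero n hψ2 h1)
        refine ⟨ψ', h2, ?_⟩
        exact LZ.trans hψ1 h3
    · intro A _ φ hφ
      obtain ⟨ψ, hψ1, hψ2⟩ := box_red n hφ
      obtain ⟨a, ha⟩ := ih2 A _ (face_coc n hψ2)
      have hdd : dd one (smulC Φ a) = smulC (om (n + 1) 0) ((-1 : ℤ) ^ n • a) := by
        rw [boxthm_dd_smulC, hΦ2]
        funext t
        simp only [smulC, Pi.smul_apply, smul_smul, smul_eq_mul]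
        rw [mul_comm]
      have h1 : Coc one (bd (n + 1)) (bdm n) (ψ - smulC Φ a) := by
        refine ⟨hψ2.1.sub (boxthm_smulC_lz hΦ1 a), ?_⟩
        rw [dd_sub, hdd]
        exact hψ2.2.sub (boxthm_smulC_lz (om_bd (n + 1) (boxthm_zero (n + 1))) _)
      have e1 : pb (inq n) (ψ - smulC Φ a) = pb (inq n) ψ - smulC (om n 0) a := by
        rw [← hΦ3']
        rfl
      obtain ⟨ψ', h2, h3⟩ := boxthm_lift (face_zero n h1 (by rw [e1]; exact ha))
      refine ⟨(-1 : ℤ) ^ n • a, ψ', h2, ?_⟩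
      rw [dd_sub, hdd] at h3
      have e2 : φ - smulC (om (n + 1) 0) ((-1 : ℤ) ^ n • a) - dd one ψ' =
          (φ - dd one ψ) + (dd one ψ - smulC (om (n + 1) 0) ((-1 : ℤ) ^ n • a) - dd one ψ') := by
        abel
      rw [e2]
      exact hψ1.add h3
    · intro A _ a ha
      obtain ⟨ψ, hψ1, hψ2⟩ := ha
      obtain ⟨θ, hθ⟩ : ∃ θ, θ = smulC Φ ((-1 : ℤ) ^ n • a) - ψ := ⟨_, rfl⟩
      have h1 : Coc one univ (bdm n) θ := by
        rw [hθ]
        refine ⟨(boxthm_smulC_lz hΦ1 _).sub (hψ1.mono (boxthm_bdm_sub n)), ?_⟩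
        rw [dd_sub, boxthm_dd_smulC, hΦ2, boxthm_smulC_smulC]
        exact hψ2
      have h2 := acyc_pair (acyc_Q (n + 1)) (acyc_bdm n) (subset_univ _) h1
      have hmem : ∀ y : Q n, inq n y ∈ bd (n + 1) := by
        intro y
        refine ⟨Fin.last n, Or.inr ?_⟩
        simp only [inq, Fin.snoc_last]
      have h3 : Cob (pbt (inq n) one) univ (bd n) (pb (inq n) θ) := by
        refine Cob.pb (fun x _ => ⟨(boxthm_inq_cont n).continuousAt, mem_univ _⟩)
          (fun x hx => ⟨(boxthm_inq_cont n).continuousAt, ?_⟩) h2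
        obtain ⟨i, hi⟩ := hx
        left
        refine ⟨i, ?_⟩
        simp only [inq, Fin.snoc_castSucc]
        exact hi
      rw [pbt_one] at h3
      have e1 : pb (inq n) θ = smulC (om n 0) ((-1 : ℤ) ^ n • a) - pb (inq n) ψ := by
        rw [hθ, ← hΦ3']
        rfl
      have h4 : LZ univ (pb (inq n) ψ) :=
        LZ.pb (fun x _ => ⟨(boxthm_inq_cont n).continuousAt, hmem x⟩) hψ1
      rw [e1] at h3
      have h5 : Cob one univ (bd n) (smulC (om n 0) ((-1 : ℤ) ^ n • a)) := by
        have h6 := h3.add (Cob.of_LZ (τ := one) (Z := bd n) h4)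
        rw [sub_add_cancel] at h6
        exact h6
      have h7 := ih3 A _ h5
      rcases neg_one_pow_eq_or ℤ n with hn | hn
      · rw [hn, one_smul] at h7
        exact h7
      · rw [hn, neg_one_smul, neg_eq_zero] at h7
        exact h7

theorem box_low {n m : ℕ} (h : m ≠ n) {A : Type} [AddCommGroup A] {φ : Coch (Q n) A m}
    (hφ : Coc one univ (bd n) φ) : Cob one univ (bd n) φ :=
  (boxthm_all n).1 m h A φ hφ

theorem box_ex {n : ℕ} {A : Type} [AddCommGroup A] {φ : Coch (Q n) A n}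
    (hφ : Coc one univ (bd n) φ) : ∃ a : A, Cob one univ (bd n) (φ - smulC (om n 0) a) :=
  (boxthm_all n).2.1 A φ hφ

theorem box_uniq {n : ℕ} {A : Type} [AddCommGroup A] {a : A}
    (h : Cob one univ (bd n) (smulC (om n 0) a)) : a = 0 :=
  (boxthm_all n).2.2 A a h

end PoolFbd
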