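import Pool.Agent.Work.MP_fbd21a_gt.TmDefs
import Pool.Agent.Work.MP_fbd21a_gt.AcUnion

/-! MODULE TmBas. Small facts on the definitions of TmDefs.
conn0_pt: for φ as in Conn0 and values: LZ U (φ - cst a) gives φ (fun _ => x) = a for x in U
(a property which holds eventually near the point holds at the point: `Filter.Eventually.self_of_nhds`).
conn0_union: open sets U, V with Conn0 and U ∩ V nonempty: Conn0 (U ∪ V).
pnb_conn0: M \ F = P₁ ∪ P₂ is Conn0 and nonempty.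
tame_conn0: punctured neighbourhoods with Conn0, arbitrarily small.
sign_const: a function U → ℤˣ which is locally constant near a Conn0 set is constant on it (apply
Conn0 with A = Additive ℤˣ). loc. constant: ∀ x ∈ U, ∀ᶠ y in 𝓝 x, s y = s x.
trivBy_ratio: two trivialisations of the same twist near U have locally constant ratio near U.
triv_glue: trivialisations σ₁ near P₁ and σ₂ near P₂ (open sets) which agree on P₁ ∩ P₂ glue:
σ y = if y ∈ P₁ then σ₁ y else σ₂ y. -/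

open Topology Filter Set

namespace PoolFbd

variable {E : Type*} [TopologicalSpace E]

omit [TopologicalSpace E] in
theorem dd_deg_zero {A G : Type*} [AddCommGroup A] [SMul G A] (τ : E → E → G) (φ : Coch E A 0)
    (t : Fin (0 + 1 + 1) → E) :
    dd τ φ t = τ (t 0) (t 1) • φ (fun _ => t 1) - φ (fun _ => t 0) := by
  have a1 : (fun j : Fin (0 + 1) => t j.succ) = fun _ => t 1 := by
    funext j
    obtain ⟨j, hj⟩ := j
    obtain rfl : j = 0 := by omega
    rfl
  have a2 : (fun j : Fin (0 + 1) => t ((Fin.succ 0 : Fin (0 + 1 + 1)).succAbove j)) =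
      fun _ => t 0 := by
    funext j
    obtain ⟨j, hj⟩ := j
    obtain rfl : j = 0 := by omega
    rfl
  simp only [dd, Fin.sum_univ_succ, Finset.univ_eq_empty, Finset.sum_empty,
    add_zero, Fin.val_zero, zero_add, pow_one, neg_smul, one_smul]
  rw [a1, a2, sub_eq_add_neg]

theorem ev_coord {n : ℕ} {x : E} {P : E → Prop} (h : ∀ᶠ y in 𝓝 x, P y) (i : Fin n) :
    ∀ᶠ t in 𝓝 (fun _ : Fin n => x), P (t i) :=
  ((continuous_apply i).tendsto (fun _ => x)).eventually h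

theorem ev_all_coord {n : ℕ} {x : E} {P : E → Prop} (h : ∀ᶠ y in 𝓝 x, P y) :
    ∀ᶠ t in 𝓝 (fun _ : Fin n => x), ∀ i, P (t i) :=
  eventually_all.2 fun i => ev_coord h i

theorem ev_diag {n : ℕ} {x : E} {P : (Fin n → E) → Prop}
    (h : ∀ᶠ t in 𝓝 (fun _ : Fin n => x), P t) : ∀ᶠ y in 𝓝 x, P (fun _ => y) := by
  have hc : Continuous (fun (y : E) (_ : Fin n) => y) := continuous_pi fun _ => continuous_id
  exact (hc.tendsto x).eventually h

theorem ev_pair {x : E} {P : (Fin 2 → E) → Prop}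
    (h : ∀ᶠ t in 𝓝 (fun _ : Fin 2 => x), P t) : ∀ᶠ y in 𝓝 x, P ![x, y] := by
  have hc : Continuous (fun (y : E) => (![x, y] : Fin 2 → E)) := by
    refine continuous_pi fun i => ?_
    fin_cases i
    · exact continuous_const
    · exact continuous_id
  have e : (![x, x] : Fin 2 → E) = fun _ => x := by
    funext i
    fin_cases i <;> rfl
  have := hc.tendsto x
  rw [e] at this
  exact this.eventually h

theorem fin1_eta {E : Type*} (t : Fin (0 + 1) → E) : t = fun _ => t 0 := by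
  funext j
  obtain ⟨j, hj⟩ := j
  obtain rfl : j = 0 := by omega
  rfl

theorem conn0_pt {A : Type*} [AddCommGroup A] {U : Set E} {φ : Coch E A 0} {a : A}
    (h : LZ U (φ - cst E 0 a)) {x : E} (hx : x ∈ U) : φ (fun _ => x) = a := by
  have h1 : (φ - cst E 0 a) (fun _ => x) = 0 := (h x hx).self_of_nhds
  have h2 : φ (fun _ => x) - a = 0 := h1
  exact sub_eq_zero.1 h2

theorem acyc_conn0 {U : Set E} (h : Acyc U) : Conn0 U :=
  ⟨h.1, fun A _ φ hφ => (h.2 A).1 φ hφ⟩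

theorem acyc_conn1 {U : Set E} (h : Acyc U) : Conn1 U :=
  ⟨acyc_conn0 h, fun A _ φ hφ => (h.2 A).2 0 φ hφ⟩

theorem sign_const {U : Set E} (h : Conn0 U) {s : E → ℤˣ}
    (hs : ∀ x ∈ U, ∀ᶠ y in 𝓝 x, s y = s x) : ∃ e : ℤˣ, ∀ x ∈ U, s x = e := by
  obtain ⟨a, ha⟩ := h.2 (Additive ℤˣ) (fun t => Additive.ofMul (s (t 0))) (by
    intro x hx
    filter_upwards [ev_all_coord (n := 0 + 1 + 1) (hs x hx)] with t ht
    rw [dd_deg_zero]
    simp only [one, one_smul]
    rw [ht 0, ht 1, sub_self])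
  refine ⟨a.toMul, fun x hx => ?_⟩
  have := conn0_pt ha hx
  have h2 : Additive.ofMul (s x) = a := this
  rw [← h2, toMul_ofMul]

theorem conn0_union {U V : Set E} (hU : Conn0 U) (hV : Conn0 V) (hUV : (U ∩ V).Nonempty) :
    Conn0 (U ∪ V) := by
  refine ⟨hU.1.mono subset_union_left, fun A _ φ hφ => ?_⟩
  obtain ⟨a, ha⟩ := hU.2 A φ (hφ.mono subset_union_left)
  obtain ⟨b, hb⟩ := hV.2 A φ (hφ.mono subset_union_right)
  obtain ⟨x, hxU, hxV⟩ := hUV
  have e : a = b := (conn0_pt ha hxU).symm.trans (conn0_pt hb hxV)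
  subst e
  exact ⟨a, ha.union hb⟩

theorem pnb_conn0 {F M P₁ P₂ Q₁ Q₂ : Set E} (h : PNb F M P₁ P₂ Q₁ Q₂) : Conn0 (M \ F) := by
  rw [h.hM]
  refine conn0_union (acyc_conn0 h.a1) (acyc_conn0 h.a2) ?_
  rw [h.hQ]
  exact h.b1.1.mono subset_union_left

theorem tame_conn0 {F : Set E} (hF : Tame F) {p : E} (hp : p ∈ F) {N : Set E} (hN : IsOpen N)
    (hpN : p ∈ N) : ∃ M, IsOpen M ∧ p ∈ M ∧ M ⊆ N ∧ Conn0 (M \ F) := by
  obtain ⟨M, P₁, P₂, Q₁, Q₂, hpM, hMN, h⟩ := hF.2 p hp N hN hpN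
  exact ⟨M, h.oM, hpM, hMN, pnb_conn0 h⟩

theorem trivBy_ratio {τ : E → E → ℤˣ} {U : Set E} {σ σ' : E → ℤˣ} (h : TrivBy τ U σ)
    (h' : TrivBy τ U σ') : ∀ x ∈ U, ∀ᶠ y in 𝓝 x, σ y * σ' y = σ x * σ' x := by
  intro x hx
  filter_upwards [ev_pair (h x hx), ev_pair (h' x hx)] with y h1 h2
  have e1 : τ x y = (σ x)⁻¹ * σ y := h1
  have e2 : τ x y = (σ' x)⁻¹ * σ' y := h2
  have e3 : (σ x)⁻¹ * σ y = (σ' x)⁻¹ * σ' y := e1.symm.trans e2
  rcases Int.units_eq_one_or (σ x) with a | a <;> rcases Int.units_eq_one_or (σ y) with b | b <;>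
    rcases Int.units_eq_one_or (σ' x) with c | c <;>
    rcases Int.units_eq_one_or (σ' y) with d | d <;>
    rw [a, b, c, d] at e3 ⊢ <;> first | rfl | (revert e3; decide)

theorem triv_glue {τ : E → E → ℤˣ} {P₁ P₂ : Set E} (h1 : IsOpen P₁) (h2 : IsOpen P₂)
    {σ₁ σ₂ : E → ℤˣ} (hs1 : TrivBy τ P₁ σ₁) (hs2 : TrivBy τ P₂ σ₂)
    (hag : ∀ x ∈ P₁ ∩ P₂, σ₁ x = σ₂ x) : TrivOn τ (P₁ ∪ P₂) := by
  classical
  refine ⟨fun y => if y ∈ P₁ then σ₁ y else σ₂ y, fun x hx => ?_⟩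
  rcases hx with hx | hx
  · filter_upwards [hs1 x hx, ev_all_coord (n := 2) (h1.eventually_mem hx)] with t ht hm
    rw [ht, if_pos (hm 0), if_pos (hm 1)]
  · have key : ∀ y ∈ P₂, (if y ∈ P₁ then σ₁ y else σ₂ y) = σ₂ y := by
      intro y hy
      split_ifs with h
      · exact hag y ⟨h, hy⟩
      · rfl
    filter_upwards [hs2 x hx, ev_all_coord (n := 2) (h2.eventually_mem hx)] with t ht hm
    rw [ht, key _ (hm 0), key _ (hm 1)]

theorem trivBy_mono {τ : E → E → ℤˣ} {U V : Set E} {σ : E → ℤˣ} (h : TrivBy τ U σ)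
    (hV : V ⊆ U) : TrivBy τ V σ := fun x hx => h x (hV hx)

theorem trivBy_smul {τ : E → E → ℤˣ} {U : Set E} {σ : E → ℤˣ} (h : TrivBy τ U σ) (e : ℤˣ) :
    TrivBy τ U (fun x => e * σ x) := by
  intro x hx
  filter_upwards [h x hx] with t ht
  rw [ht, mul_inv, mul_mul_mul_comm, inv_mul_cancel, one_mul]

/-- A nonempty topologically preconnected set is Conn0: the diagonal values of a locally constant
germ form a locally constant function on the set. -/
theorem conn0_of_preconn {U : Set E} (h : IsPreconnected U) (hne : U.Nonempty) : Conn0 U := by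
  refine ⟨hne, fun A _ φ hφ => ?_⟩
  obtain ⟨x₀, hx₀⟩ := hne
  set g : E → A := fun y => φ (fun _ => y) with hg
  have hloc : ∀ x ∈ U, ∀ᶠ y in 𝓝 x, g y = g x := by
    intro x hx
    filter_upwards [ev_pair (hφ x hx)] with y hy
    have h1 : dd one φ ![x, y] = 0 := hy
    rw [dd_deg_zero] at h1
    simp only [one, one_smul] at h1
    exact sub_eq_zero.1 h1
  have hconst : ∀ x ∈ U, g x = g x₀ := by
    by_contra hcon
    push Not at hcon
    obtain ⟨x₁, hx₁, hne⟩ := hcon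
    have hu : IsOpen {y | ∀ᶠ z in 𝓝 y, g z = g x₀} := isOpen_setOfPred_eventually_nhds
    have hv : IsOpen {y | ∀ᶠ z in 𝓝 y, g z ≠ g x₀} := isOpen_setOfPred_eventually_nhds
    obtain ⟨z, -, hz1, hz2⟩ := h _ _ hu hv (by
      intro x hx
      by_cases hxa : g x = g x₀
      · left
        filter_upwards [hloc x hx] with y hy
        rw [hy, hxa]
      · right
        filter_upwards [hloc x hx] with y hy
        rw [hy]
        exact hxa) ⟨x₀, hx₀, hloc x₀ hx₀⟩ ⟨x₁, hx₁, by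
          filter_upwards [hloc x₁ hx₁] with y hy
          rw [hy]
          exact hne⟩
    exact hz2.self_of_nhds hz1.self_of_nhds
  refine ⟨g x₀, fun x hx => ?_⟩
  filter_upwards [ev_coord (n := 0 + 1) (hloc x hx) 0] with t ht
  have e : φ t = g (t 0) := by
    rw [hg]
    exact congrArg φ (fin1_eta t)
  rw [Pi.sub_apply, e, ht, hconst x hx]
  simp [cst]

/-- Finitely many of the open sets `U p`, `p ∈ F`, cover the compact set `F` at a uniform scale. -/
theorem cover_choice {E : Type*} [PseudoMetricSpace E] {F : Set E} (hF : IsCompact F)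
    (U : E → Set E) (hU : ∀ p ∈ F, IsOpen (U p) ∧ p ∈ U p) :
    ∃ (ε : ℝ) (s : Finset E) (i : E → E), 0 < ε ∧ (∀ p ∈ s, p ∈ F) ∧
      ∀ y z, z ∈ F → dist y z < ε → i y ∈ s ∧ Metric.ball y ε ⊆ U (i y) := by
  classical
  obtain ⟨t, ht, hcov⟩ := hF.elim_nhds_subcover U fun p hp => (hU p hp).1.mem_nhds (hU p hp).2
  obtain ⟨δ, hδ, hL⟩ := lebesgue_number_lemma_of_metric (s := F) (c := fun p : t => U p) hF
    (fun p => (hU p (ht p p.2)).1) (fun x hx => by
      obtain ⟨p, hp, hxp⟩ := mem_iUnion₂.1 (hcov hx)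
      exact mem_iUnion.2 ⟨⟨p, hp⟩, hxp⟩)
  have key : ∀ y : E, ∃ p : E, ∀ z, z ∈ F → dist y z < δ / 2 →
      p ∈ t ∧ Metric.ball y (δ / 2) ⊆ U p := by
    intro y
    by_cases hy : ∃ z, z ∈ F ∧ dist y z < δ / 2
    · obtain ⟨z, hz, hyz⟩ := hy
      obtain ⟨p, hp⟩ := hL z hz
      refine ⟨p, fun _ _ _ => ⟨p.2, fun w hw => hp ?_⟩⟩
      rw [Metric.mem_ball] at hw ⊢
      have := dist_triangle w y z
      linarith
    · exact ⟨y, fun z hz hyz => absurd ⟨z, hz, hyz⟩ hy⟩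
  choose i hi using key
  exact ⟨δ / 2, t, i, half_pos hδ, ht, hi⟩

end PoolFbd
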