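import Pool.Agent.Work.MP_fbd21a_gt.KapDefs
import Pool.Agent.Work.MP_fbd21a_gt.AcBox
import Pool.Agent.Work.MP_fbd21a_gt.AcUnion
import Pool.Agent.Work.MP_fbd21a_gt.TmBas

/-! Boxes of three-space and unions of boxes. -/

open Topology Filter Set

namespace PoolFbd

/-- The closed box `[a,b] × [c,d] × [e,f]`. -/
def bx (a b c d e f : ℝ) : Set V3 :=
  {v | (a ≤ v 0 ∧ v 0 ≤ b) ∧ (c ≤ v 1 ∧ v 1 ≤ d) ∧ (e ≤ v 2 ∧ v 2 ≤ f)}

theorem bx_eq (a b c d e f : ℝ) : bx a b c d e f = Icc ![a, c, e] ![b, d, f] := by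
  ext v
  simp only [bx, mem_setOf_eq, mem_Icc, Pi.le_def, Fin.forall_fin_succ, Matrix.cons_val_zero,
    Fin.succ_zero_eq_one, Matrix.cons_val_one, Fin.succ_one_eq_two]
  constructor
  · rintro ⟨⟨h1, h2⟩, ⟨h3, h4⟩, h5, h6⟩
    exact ⟨⟨h1, h3, h5, fun i => i.elim0⟩, ⟨h2, h4, h6, fun i => i.elim0⟩⟩
  · rintro ⟨⟨h1, h3, h5, -⟩, ⟨h2, h4, h6, -⟩⟩
    exact ⟨⟨h1, h2⟩, ⟨h3, h4⟩, h5, h6⟩

theorem bx_acyc {a b c d e f : ℝ} (h1 : a ≤ b) (h2 : c ≤ d) (h3 : e ≤ f) :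
    Acyc (bx a b c d e f) := by
  rw [bx_eq]
  apply acyc_box
  intro i
  fin_cases i
  · exact h1
  · exact h2
  · exact h3

theorem bx_closed (a b c d e f : ℝ) : IsClosed (bx a b c d e f) := by
  rw [bx_eq]
  exact isClosed_Icc

theorem bx_inter (a b c d e f a' b' c' d' e' f' : ℝ) :
    bx a b c d e f ∩ bx a' b' c' d' e' f' =
      bx (max a a') (min b b') (max c c') (min d d') (max e e') (min f f') := by
  ext v
  simp only [bx, mem_inter_iff, mem_setOf_eq, max_le_iff, le_min_iff]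
  tauto

theorem bx_empty {a b c d e f : ℝ} (h : b < a ∨ d < c ∨ f < e) : bx a b c d e f = ∅ := by
  ext v
  simp only [bx, mem_setOf_eq, mem_empty_iff_false, iff_false]
  rintro ⟨⟨h1, h2⟩, ⟨h3, h4⟩, h5, h6⟩
  rcases h with h | h | h <;> linarith

theorem ac2 {X Y : Set V3} (cX : IsClosed X) (cY : IsClosed Y) (hX : Acyc X) (hY : Acyc Y)
    (hXY : Acyc (X ∩ Y)) : Acyc (X ∪ Y) := Acyc.union (Sepd.closed cX cY) hX hY hXY

/-- Three sets, the last two disjoint. -/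
theorem ac3 {X Y Z : Set V3} (cX : IsClosed X) (cY : IsClosed Y) (cZ : IsClosed Z)
    (hX : Acyc X) (hY : Acyc Y) (hZ : Acyc Z) (hXY : Acyc (X ∩ Y)) (hXZ : Acyc (X ∩ Z))
    (hYZ : Y ∩ Z = ∅) : Acyc ((X ∪ Y) ∪ Z) := by
  refine ac2 (cX.union cY) cZ (ac2 cX cY hX hY hXY) hZ ?_
  rw [union_inter_distrib_right, hYZ, union_empty]
  exact hXZ

/-- The five faces of an open box: `T` meets everything, `A, A'` and `B, B'` are opposite. -/
theorem ac5 {T A A' B B' : Set V3} (cT : IsClosed T) (cA : IsClosed A) (cA' : IsClosed A')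
    (cB : IsClosed B) (cB' : IsClosed B') (hT : Acyc T) (hA : Acyc A) (hA' : Acyc A')
    (hB : Acyc B) (hB' : Acyc B') (hAA : A ∩ A' = ∅) (hBB : B ∩ B' = ∅)
    (TA : Acyc (T ∩ A)) (TA' : Acyc (T ∩ A')) (TB : Acyc (T ∩ B)) (TB' : Acyc (T ∩ B'))
    (AB : Acyc (A ∩ B)) (A'B : Acyc (A' ∩ B)) (AB' : Acyc (A ∩ B')) (A'B' : Acyc (A' ∩ B'))
    (TAB : Acyc ((T ∩ B) ∩ (A ∩ B))) (TA'B : Acyc ((T ∩ B) ∩ (A' ∩ B)))
    (TAB' : Acyc ((T ∩ B') ∩ (A ∩ B'))) (TA'B' : Acyc ((T ∩ B') ∩ (A' ∩ B'))) :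
    Acyc ((((T ∪ A) ∪ A') ∪ B) ∪ B') := by
  have hd : ∀ X, (A ∩ X) ∩ (A' ∩ X) = ∅ := by
    intro X
    rw [← subset_empty_iff, ← hAA]
    exact fun v hv => ⟨hv.1.1, hv.2.1⟩
  refine ac2 (((cT.union cA).union cA').union cB) cB' ?_ hB' ?_
  · refine ac2 ((cT.union cA).union cA') cB (ac3 cT cA cA' hT hA hA' TA TA' hAA) hB ?_
    rw [union_inter_distrib_right, union_inter_distrib_right]
    exact ac3 (cT.inter cB) (cA.inter cB) (cA'.inter cB) TB AB A'B TAB TA'B (hd B)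
  · rw [union_inter_distrib_right, union_inter_distrib_right, union_inter_distrib_right, hBB,
      union_empty]
    exact ac3 (cT.inter cB') (cA.inter cB') (cA'.inter cB') TB' AB' A'B' TAB' TA'B' (hd B')

/-- The function `st 0` is constant near positive and near negative points. -/
theorem st_pos {x : ℝ} (h : 0 < x) : st 0 x = 1 := if_pos h.le

theorem st_neg {x : ℝ} (h : x < 0) : st 0 x = 0 := if_neg (not_le.2 h)

/-- Coordinates near a point. -/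
theorem ev_lt {n : ℕ} {x : V3} (j : Fin 3) {a : ℝ} (h : x j < a) (i : Fin n) :
    ∀ᶠ t in 𝓝 (fun _ : Fin n => x), t i j < a :=
  ev_coord ((continuous_apply j).continuousAt.eventually_lt continuousAt_const h) i

theorem ev_gt {n : ℕ} {x : V3} (j : Fin 3) {a : ℝ} (h : a < x j) (i : Fin n) :
    ∀ᶠ t in 𝓝 (fun _ : Fin n => x), a < t i j :=
  ev_coord (continuousAt_const.eventually_lt (continuous_apply j).continuousAt h) i

end PoolFbd
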