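import Pool.Agent.Work.MP_fbd21a_gt.TauDefs

/-! Coefficients: the 5-adic integers, the 5-adic numbers and their quotient. -/

open Topology Filter Set

namespace PoolFbd

instance fact5 : Fact (Nat.Prime 5) := ⟨by norm_num⟩

/-- 5-adic integers. -/
abbrev R5 := ℤ_[5]

/-- 5-adic numbers. -/
abbrev K5 := ℚ_[5]

/-- The injective hull of the residue field. -/
abbrev D5 := K5 ⧸ LinearMap.range (Algebra.linearMap R5 K5)

/-- The quotient map. -/
noncomputable def mk5 : K5 →ₗ[R5] D5 := Submodule.mkQ _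

/-- The inclusion. -/
noncomputable def al5 : R5 →ₗ[R5] K5 := Algebra.linearMap R5 K5

/-- `J φ = c φ` near all points. -/
def CPart {E A : Type*} [TopologicalSpace E] [AddCommGroup A] [Module R5 A] (η : E → ℤˣ)
    (r : E → E) (c : R5) {n : ℕ} (φ : Coch E A n) : Prop := LZ univ (Jop η r φ - c • φ)

/-- The facts on the knot complement in dimension three which are used in dimension four. -/
structure KFacts (K : Set E3) (τ₃ : E3 → E3 → ℤˣ) (η₃ : E3 → ℤˣ) (c : R5) : Prop where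
  /-- anisotropy of the linking form on the c-part -/
  aniso : ∀ (b : Coch E3 K5 1) (β : Coch E3 R5 2), LZ K b → LZ K β →
    LZ univ (dd τ₃ b - cmap al5 β) → CPart η₃ rho3 c b →
    Itg3 (cup (rfl : 2 + 1 = 3) (upt R5 τ₃) β (cmap mk5 b)) = 0 →
    Cob τ₃ univ K (cmap mk5 b)
  /-- two classes independent modulo five -/
  two : ∃ z₁ z₂ : Coch E3 R5 2, Coc τ₃ univ K z₁ ∧ Coc τ₃ univ K z₂ ∧
    CPart η₃ rho3 c z₁ ∧ CPart η₃ rho3 c z₂ ∧
    ∀ u v : R5, Cob τ₃ univ K (u • z₁ + v • z₂) → (5 : R5) ∣ u ∧ (5 : R5) ∣ v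
  /-- no rational first cohomology with compact support -/
  rat : ∀ φ : Coch E3 ℚ 1, Coc τ₃ univ K φ → Cob τ₃ univ K φ

end PoolFbd
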