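import Pool.Agent.Work.MP_fbd21a_gt.JOp
import Pool.Agent.Work.MP_fbd21a_gt.Coef5

/-! MODULE Cpr. The projector to the c-part, cpr φ = h • (φ - c • J φ), h + h = 1, c² = -1.
PROOFS. For φ vanishing near Z (closed, r preserves Z, η anti-invariant off Z): J J φ = -φ near univ (j_j),
so J (cpr φ) = h (Jφ + c φ) = c h (φ - c Jφ) (c² = -1) near univ. If J φ = c φ near univ then
cpr φ = h (φ + φ) = φ. Linear over R5; compatible with dd, coefficient maps. cpart_* : closure properties. -/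

open Topology Filter Set

namespace PoolFbd

/-- The projector to the c-part. -/
noncomputable def cpr {E A : Type*} [AddCommGroup A] [Module R5 A] (η : E → ℤˣ) (r : E → E)
    (c h : R5) {n : ℕ} (φ : Coch E A n) : Coch E A n := h • (φ - c • Jop η r φ)

variable {E : Type*} [TopologicalSpace E] {A : Type*} [AddCommGroup A] [Module R5 A]
  {τ : E → E → ℤˣ} {η : E → ℤˣ} {r : E → E} {S Z : Set E} {n : ℕ} {c h : R5}

omit [Module R5 A] in
private theorem cpr_lzsmul {R : Type*} [CommRing R] [Module R A] (a : R) {φ : Coch E A n}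
    (hφ : LZ S φ) : LZ S (a • φ) := fun x hx => by
  filter_upwards [hφ x hx] with t ht
  rw [Pi.smul_apply, ht, smul_zero]

private theorem cpr_ucomm (u : ℤˣ) (a : R5) (x : A) : a • (u • x) = u • (a • x) := by
  rcases Int.units_eq_one_or u with h | h
  · rw [h, one_smul, one_smul]
  · rw [h, Units.smul_def, Units.smul_def]
    simp

private theorem cpr_ddsmul (a : R5) (φ : Coch E A n) : dd τ (a • φ) = a • dd τ φ := by
  have := dd_cmap τ φ (DistribMulAction.toAddMonoidHom A a)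
    (fun g x => by
      show a • (g • x) = g • (a • x)
      exact cpr_ucomm g a x)
  exact this

private theorem cpr_sub (φ ψ : Coch E A n) :
    cpr η r c h (φ - ψ) = cpr η r c h φ - cpr η r c h ψ := by
  unfold cpr
  rw [j_sub]
  module

theorem cpr_cpart (hc : c * c = -1) (hh : h + h = 1) (hr : Continuous r)
    (hrr : ∀ x, r (r x) = x) (hZc : IsClosed Z) (hanti : ∀ x ∈ Zᶜ, η (r x) = - η x)
    {φ : Coch E A n} (hφ : LZ Z φ) : CPart η r c (cpr η r c h φ) := by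
  have _ := hh
  unfold CPart cpr
  have h1 := cpr_lzsmul (-(h * c)) (j_j hr hrr hZc hanti hφ)
  have h2 : Jop η r (h • (φ - c • Jop η r φ)) - c • h • (φ - c • Jop η r φ) =
      -(h * c) • (Jop η r (Jop η r φ) + φ) := by
    rw [j_smul, j_sub, j_smul]
    have e : c • h • (φ - c • Jop η r φ) = (h * c) • φ - (h * (c * c)) • Jop η r φ := by
      module
    rw [e, hc]
    module
  rw [h2]
  exact h1

theorem cpr_id (hc : c * c = -1) (hh : h + h = 1) {φ : Coch E A n} (hφ : CPart η r c φ) :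
    LZ univ (cpr η r c h φ - φ) := by
  have h1 := cpr_lzsmul (-(h * c)) hφ
  have h2 : cpr η r c h φ - φ = -(h * c) • (Jop η r φ - c • φ) := by
    unfold cpr
    have e : -(h * c) • (Jop η r φ - c • φ) = (h * (c * c)) • φ - (h * c) • Jop η r φ := by
      module
    have e2 : φ = (h + h) • φ := by rw [hh, one_smul]
    rw [e, hc]
    conv_lhs => rhs; rw [e2]
    module
  rw [h2]
  exact h1

theorem cpr_lz (hr : Continuous r) (hS : ∀ x ∈ S, r x ∈ S) {φ : Coch E A n} (hφ : LZ S φ) :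
    LZ S (cpr η r c h φ) :=
  cpr_lzsmul h (hφ.sub (cpr_lzsmul c (j_lz hr hS hφ)))

theorem cpr_dd (hr : Continuous r) (hZ : ∀ x ∈ Z, r x ∈ Z)
    (heq : ∀ x ∈ S \ Z, ∀ᶠ t in 𝓝 (fun _ : Fin 2 => x),
      τ (r (t 0)) (r (t 1)) = η (t 0) * τ (t 0) (t 1) * η (t 1))
    {φ : Coch E A n} (hφ : LZ Z φ) :
    LZ S (dd τ (cpr η r c h φ) - cpr η r c h (dd τ φ)) := by
  have h1 := cpr_lzsmul (-(h * c)) (j_dd hr hZ heq hφ)
  have h2 : dd τ (cpr η r c h φ) - cpr η r c h (dd τ φ) =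
      -(h * c) • (dd τ (Jop η r φ) - Jop η r (dd τ φ)) := by
    unfold cpr
    rw [cpr_ddsmul, dd_sub, cpr_ddsmul]
    module
  rw [h2]
  exact h1

theorem cpr_coc (hr : Continuous r) (hS : ∀ x ∈ S, r x ∈ S) (hZ : ∀ x ∈ Z, r x ∈ Z)
    (heq : ∀ x ∈ S \ Z, ∀ᶠ t in 𝓝 (fun _ : Fin 2 => x),
      τ (r (t 0)) (r (t 1)) = η (t 0) * τ (t 0) (t 1) * η (t 1))
    {φ : Coch E A n} (hφ : Coc τ S Z φ) : Coc τ S Z (cpr η r c h φ) :=
  ⟨cpr_lz hr hZ hφ.1, LZ.congr (cpr_dd hr hZ heq hφ.1) (cpr_lz hr hS hφ.2)⟩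

theorem cpr_cob (hr : Continuous r) (hS : ∀ x ∈ S, r x ∈ S) (hZ : ∀ x ∈ Z, r x ∈ Z)
    (heq : ∀ x ∈ S \ Z, ∀ᶠ t in 𝓝 (fun _ : Fin 2 => x),
      τ (r (t 0)) (r (t 1)) = η (t 0) * τ (t 0) (t 1) * η (t 1))
    {φ : Coch E A n} (hφ : Cob τ S Z φ) : Cob τ S Z (cpr η r c h φ) := by
  cases n with
  | zero => exact cpr_lz hr hS hφ
  | succ n =>
    obtain ⟨ψ, h1, h2⟩ := hφ
    refine ⟨cpr η r c h ψ, cpr_lz hr hZ h1, ?_⟩
    have h3 : LZ S (cpr η r c h φ - cpr η r c h (dd τ ψ)) := by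
      rw [← cpr_sub]
      exact cpr_lz hr hS h2
    exact h3.trans (cpr_dd hr hZ heq h1).symm

theorem cpr_map {B : Type*} [AddCommGroup B] [Module R5 B] (G : A →ₗ[R5] B) (φ : Coch E A n) :
    cmap G (cpr η r c h φ) = cpr η r c h (cmap G φ) := by
  funext t
  show G (h • (φ t - c • (η (t 0) • φ (fun j => r (t j))))) =
    h • (G (φ t) - c • (η (t 0) • G (φ (fun j => r (t j)))))
  rw [map_smul, map_sub, map_smul]
  congr 3
  rw [Units.smul_def, Units.smul_def, map_zsmul]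

theorem cpr_congr (hr : Continuous r) {φ ψ : Coch E A n} (h1 : LZ univ (φ - ψ)) :
    LZ univ (cpr η r c h φ - cpr η r c h ψ) := by
  rw [← cpr_sub]
  exact cpr_lz hr (fun _ _ => mem_univ _) h1

theorem cpart_congr (hr : Continuous r) {φ ψ : Coch E A n} (h1 : LZ univ (φ - ψ))
    (h2 : CPart η r c ψ) : CPart η r c φ := by
  have h3 : Jop η r φ - c • φ = (Jop η r (φ - ψ) - c • (φ - ψ)) + (Jop η r ψ - c • ψ) := by
    rw [j_sub]
    module
  unfold CPart
  rw [h3]
  exact ((j_lz hr (fun _ _ => mem_univ _) h1).sub (cpr_lzsmul c h1)).add h2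

theorem cpart_map {B : Type*} [AddCommGroup B] [Module R5 B] (G : A →ₗ[R5] B) {φ : Coch E A n}
    (h1 : CPart η r c φ) : CPart η r c (cmap G φ) := by
  have h2 := LZ.cmap h1 G (map_zero G)
  have h3 : cmap G (Jop η r φ - c • φ) = Jop η r (cmap G φ) - c • cmap G φ := by
    funext t
    show G (η (t 0) • φ (fun j => r (t j)) - c • φ t) =
      η (t 0) • G (φ (fun j => r (t j))) - c • G (φ t)
    rw [map_sub, Units.smul_def, Units.smul_def, map_zsmul, LinearMap.map_smul G c (φ t)]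
  unfold CPart
  rw [← h3]
  exact h2

theorem cpart_add {φ ψ : Coch E A n} (h1 : CPart η r c φ) (h2 : CPart η r c ψ) :
    CPart η r c (φ + ψ) := by
  have h3 : Jop η r (φ + ψ) - c • (φ + ψ) = (Jop η r φ - c • φ) + (Jop η r ψ - c • ψ) := by
    rw [j_add]
    module
  unfold CPart
  rw [h3]
  exact h1.add h2

theorem cpart_smul (a : R5) {φ : Coch E A n} (h1 : CPart η r c φ) :
    CPart η r c (a • φ) := by
  have h3 : Jop η r (a • φ) - c • (a • φ) = a • (Jop η r φ - c • φ) := by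
    rw [j_smul]
    module
  unfold CPart
  rw [h3]
  exact cpr_lzsmul a h1

end PoolFbd
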