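import Pool.Agent.Work.MP_fbd21a_gt.GeoTw
import Pool.Agent.Work.MP_fbd21a_gt.Cpr
import Pool.Agent.Work.MP_fbd21a_gt.Glue
import Pool.Agent.Work.MP_fbd21a_gt.Gauge

/-! MODULE CGlue. Cochains in the c-part on E3 = untwisted cochains φ₁ near R with θ φ₁ = 0 near S.
ε = epsR S R, σ = sigR S R, τ = tauS S R, θ = tht c, S' = rho3⁻¹ S, R' = rho3⁻¹ R. All cochains vanish near K.
cg_dd: gau σ (dd τ φ) = dd one (gau σ φ) near R for φ zero near K (sig_triv and dd_gau on R \ K; both
vanish near K).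
cg_theta: φ zero near K with J φ = c φ near univ (J = Jop ε rho3). Near x ∈ S \ K: σ = ε near x, σ = 1
near rho3 x. J φ = c φ: ε(t0) φ(rho t) = c φ(t), so φ(t) = -c ε(t0) φ(rho t), and
(gau σ φ)(t) = ε(t0) φ(t) = -c φ(rho t) = -c (gau σ φ)(rho t). Near K all vanish.
cg_glue: given φ₁ zero near K with θ φ₁ = 0 near S. a = gau σ φ₁, b = -c • Jop ε rho3 a. Near S \ K:
a = ε φ₁, b(t) = -c ε(t0) φ₁(rho t) = ε(t0) φ₁(t). Near S' \ K: a = φ₁, σ(rho t0) = ε(rho t0) = -ε(t0), so
b(t) = c φ₁(rho t), and φ₁(rho t) = -c φ₁(t) (the condition at rho t near S) so b = φ₁ (c² = -1).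
Near K both vanish. So a = b near S ∪ S' = R ∩ R'; glue (closed): φ = a near R, b near R'.
J φ = c φ: near R: (J φ)(t) = ε(t0) φ(rho t) = ε(t0) b(rho t) = ε(t0) (-c) ε(rho t0) a(t) = c a(t). Near R':
(J φ)(t) = ε(t0) a(rho t), c b(t) = -c² ε(t0) a(rho t). (Near K everything vanishes, off K eps_anti.)
gau σ φ = φ₁ near R since σ² = 1.
cg_uniq: φ zero near K, J φ = c φ, gau σ φ = 0 near R: φ = 0 near R, and near R' φ(t) = -c ε(t0) φ(rho t) = 0. -/

open Topology Filter Set

namespace PoolFbd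

variable {K S R : Set E3} {g u : Fin 2 → Coch E3 ℤ 1} {k : Coch E3 ℤ 1}
  {α β : Matrix (Fin 2) (Fin 2) ℤ} {A : Type} [AddCommGroup A] [Module R5 A] {c : R5} {n : ℕ}

private theorem cgu (u : ℤˣ) (a : A) : u • u • a = a := by
  rw [smul_smul, Int.units_mul_self, one_smul]

private theorem cgc (u : ℤˣ) (a : R5) (x : A) : u • (a • x) = a • (u • x) := by
  rcases Int.units_eq_one_or u with h | h
  · rw [h, one_smul, one_smul]
  · rw [h, Units.smul_def, Units.smul_def]
    simp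

private theorem cgn (u : ℤˣ) (a : A) : (-u) • a = -(u • a) := by
  rw [Units.smul_def, Units.smul_def, Units.val_neg, neg_smul]

private theorem cgcc (hc : c * c = -1) (x : A) : c • c • x = -x := by
  rw [smul_smul, hc, neg_one_smul]

private theorem ev_pb {P : (Fin (n + 1) → E3) → Prop} {x : E3}
    (h : ∀ᶠ t in 𝓝 (fun _ : Fin (n + 1) => rho3 x), P t) :
    ∀ᶠ t in 𝓝 (fun _ : Fin (n + 1) => x), P (fun j => rho3 (t j)) :=
  (tendsto_pb (f := rho3) rho3_cont.continuousAt).eventually h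

private theorem cg_sigsig (φ : Coch E3 A n) : gau (sigR S R) (gau (sigR S R) φ) = φ := by
  funext t
  exact cgu _ _

private theorem sig_S (h : Geo3 K S R g u k α β) {x : E3} (hx : x ∈ S) (hxK : x ∉ K) :
    ∀ᶠ y in 𝓝 x, sigR S R y = epsR S R y := by
  filter_upwards [near_S h hx hxK] with y hy
  exact if_pos hy

private theorem sig_S' (h : Geo3 K S R g u k α β) {x : E3} (hx : rho3 x ∈ S) (hxK : x ∉ K) :
    ∀ᶠ y in 𝓝 x, sigR S R y = 1 := by
  filter_upwards [near_S' h hx hxK] with y hy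
  exact if_neg hy

theorem cg_dd (h : Geo3 K S R g u k α β) {φ : Coch E3 A n} (hφ : LZ K φ) :
    LZ R (gau (sigR S R) (dd (tauS S R) φ) - dd one (gau (sigR S R) φ)) := by
  intro x hx
  by_cases hxK : x ∈ K
  · exact (((hφ.dd (tauS S R)).gau (sigR S R)).sub ((hφ.gau (sigR S R)).dd one)) x hxK
  · exact (dd_gau (S := R \ K) (sig_triv h) φ).symm x ⟨hx, hxK⟩

theorem cg_theta (h : Geo3 K S R g u k α β) (hc : c * c = -1) {φ : Coch E3 A n} (hφ : LZ K φ)
    (hφc : CPart (epsR S R) rho3 c φ) : LZ S (tht c (gau (sigR S R) φ)) := by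
  intro x hx
  by_cases hxK : x ∈ K
  · have hx2 : rho3 x ∈ K := (geo_memK h x).1 hxK
    filter_upwards [hφ x hxK, ev_pb (hφ (rho3 x) hx2)] with t a b
    show sigR S R (t 0) • φ t + c • (sigR S R (rho3 (t 0)) • φ (fun j => rho3 (t j))) = 0
    rw [a, b]
    simp
  · have hx2 : rho3 x ∉ K := fun h2 => hxK ((geo_memK h x).2 h2)
    have hx3 : rho3 (rho3 x) ∈ S := by rw [rho3_rho3]; exact hx
    filter_upwards [ev_coord (n := n + 1) (sig_S h hx hxK) 0,
      ev_pb (ev_coord (n := n + 1) (sig_S' h hx3 hx2) 0), hφc x (mem_univ x)] with t a b d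
    show sigR S R (t 0) • φ t + c • (sigR S R (rho3 (t 0)) • φ (fun j => rho3 (t j))) = 0
    have d' : epsR S R (t 0) • φ (fun j => rho3 (t j)) - c • φ t = 0 := d
    have d2 : φ (fun j => rho3 (t j)) = epsR S R (t 0) • (c • φ t) := by
      rw [← sub_eq_zero.1 d', cgu]
    rw [a, b, one_smul, d2, cgc, cgcc hc, add_neg_cancel]

theorem cg_glue (h : Geo3 K S R g u k α β) (hc : c * c = -1) {φ₁ : Coch E3 A n}
    (hφ : LZ K φ₁) (hθ : LZ S (tht c φ₁)) : ∃ φ : Coch E3 A n, LZ K φ ∧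
      CPart (epsR S R) rho3 c φ ∧ LZ R (gau (sigR S R) φ - φ₁) := by
  set a : Coch E3 A n := gau (sigR S R) φ₁ with ha
  set b : Coch E3 A n := fun t => -(c • (epsR S R (t 0) • a (fun j => rho3 (t j)))) with hb
  have haK : LZ K a := hφ.gau _
  have hbK : LZ K b := by
    intro x hx
    filter_upwards [ev_pb (haK (rho3 x) ((geo_memK h x).1 hx))] with t ht
    show -(c • (epsR S R (t 0) • a (fun j => rho3 (t j)))) = 0
    rw [ht]
    simp
  have hab : LZ (R ∩ rho3 ⁻¹' R) (a - b) := by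
    rw [h.inter]
    intro x hx
    by_cases hxK : x ∈ K
    · exact (haK.sub hbK) x hxK
    have hx2 : rho3 x ∉ K := fun h2 => hxK ((geo_memK h x).2 h2)
    rcases hx with hx | hx
    · have hx3 : rho3 (rho3 x) ∈ S := by rw [rho3_rho3]; exact hx
      filter_upwards [ev_coord (n := n + 1) (sig_S h hx hxK) 0,
        ev_pb (ev_coord (n := n + 1) (sig_S' h hx3 hx2) 0), hθ x hx] with t s1 s2 s3
      show sigR S R (t 0) • φ₁ t - -(c • (epsR S R (t 0) •
        (sigR S R (rho3 (t 0)) • φ₁ (fun j => rho3 (t j))))) = 0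
      have s4 : φ₁ t + c • φ₁ (fun j => rho3 (t j)) = 0 := s3
      rw [s1, s2, one_smul, ← cgc, sub_neg_eq_add, ← smul_add, s4, smul_zero]
    · have hx' : rho3 x ∈ S := hx
      filter_upwards [ev_coord (n := n + 1) (sig_S' h hx' hxK) 0,
        ev_pb (ev_coord (n := n + 1) (sig_S h hx' hx2) 0), ev_pb (hθ (rho3 x) hx'),
        ev_coord (n := n + 1) (geo_evnotK h hxK) 0] with t s1 s2 s3 s5
      show sigR S R (t 0) • φ₁ t - -(c • (epsR S R (t 0) •
        (sigR S R (rho3 (t 0)) • φ₁ (fun j => rho3 (t j))))) = 0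
      have s4 : φ₁ (fun j => rho3 (t j)) + c • φ₁ (fun j => rho3 (rho3 (t j))) = 0 := s3
      simp only [rho3_rho3] at s4
      have s6 : φ₁ (fun j => rho3 (t j)) = -(c • φ₁ t) := eq_neg_of_add_eq_zero_left s4
      rw [s1, s2, one_smul, eps_anti h s5, s6, smul_neg, cgn, neg_neg, cgu, cgcc hc, neg_neg,
        sub_self]
  obtain ⟨φ, h1, h2⟩ := glue (Sepd.closed h.cR (h.cR.preimage rho3_cont)) a b hab
  have hφK : LZ K φ := LZ.congr (h1.mono (h.KS.trans h.SR)) haK
  refine ⟨φ, hφK, ?_, ?_⟩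
  · intro x _
    by_cases hxK : x ∈ K
    · filter_upwards [hφK x hxK, ev_pb (hφK (rho3 x) ((geo_memK h x).1 hxK))] with t s1 s2
      show epsR S R (t 0) • φ (fun j => rho3 (t j)) - c • φ t = 0
      rw [s1, s2]
      simp
    · have hxU : x ∈ R ∪ rho3 ⁻¹' R := by
        rw [h.cover]
        exact mem_univ x
      rcases hxU with hx | hx
      · have hx3 : rho3 x ∈ rho3 ⁻¹' R := by
          show rho3 (rho3 x) ∈ R
          rw [rho3_rho3]
          exact hx
        filter_upwards [h1 x hx, ev_pb (h2 (rho3 x) hx3),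
          ev_coord (n := n + 1) (geo_evnotK h hxK) 0] with t s1 s2 s5
        have s3 : φ t = a t := sub_eq_zero.1 s1
        have s4 : φ (fun j => rho3 (t j)) = -(c • (epsR S R (rho3 (t 0)) •
          a (fun j => rho3 (rho3 (t j))))) := sub_eq_zero.1 s2
        simp only [rho3_rho3] at s4
        show epsR S R (t 0) • φ (fun j => rho3 (t j)) - c • φ t = 0
        rw [s3, s4, eps_anti h s5, cgn, smul_neg, smul_neg, smul_neg, neg_neg, cgc, cgu, sub_self]
      · filter_upwards [h2 x hx, ev_pb (h1 (rho3 x) hx)] with t s1 s2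
        have s3 : φ t = -(c • (epsR S R (t 0) • a (fun j => rho3 (t j)))) := sub_eq_zero.1 s1
        have s4 : φ (fun j => rho3 (t j)) = a (fun j => rho3 (t j)) := sub_eq_zero.1 s2
        show epsR S R (t 0) • φ (fun j => rho3 (t j)) - c • φ t = 0
        rw [s3, s4, smul_neg, cgcc hc, neg_neg, sub_self]
  · have := h1.gau (sigR S R)
    rw [gau_sub, ha, cg_sigsig] at this
    exact this

/-- The coboundary preserves the c-part. -/
theorem cg_ddc (h : Geo3 K S R g u k α β) {φ : Coch E3 A n} (hφ : LZ K φ)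
    (hφc : CPart (epsR S R) rho3 c φ) : CPart (epsR S R) rho3 c (dd (tauS S R) φ) := by
  have h1 : LZ univ (dd (tauS S R) (Jop (epsR S R) rho3 φ) -
      Jop (epsR S R) rho3 (dd (tauS S R) φ)) :=
    j_dd (Z := K) rho3_cont (fun x hx => (geo_memK h x).1 hx)
      (fun x hx => geo_equiv h hx.2) hφ
  have h2 : LZ univ (dd (tauS S R) (Jop (epsR S R) rho3 φ - c • φ)) := LZ.dd hφc _
  have h3 : dd (tauS S R) (c • φ) = c • dd (tauS S R) φ := by
    have := dd_cmap (tauS S R) φ (DistribSMul.toAddMonoidHom A c)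
      (fun g x => (cgc g c x).symm)
    exact this
  rw [dd_sub, h3] at h2
  exact LZ.trans h1.symm h2

theorem cg_uniq (h : Geo3 K S R g u k α β) (hc : c * c = -1) {φ : Coch E3 A n} (hφ : LZ K φ)
    (hφc : CPart (epsR S R) rho3 c φ) (h1 : LZ R (gau (sigR S R) φ)) : LZ univ φ := by
  have _ := hφ
  have h2 : LZ R φ := by
    have := h1.gau (sigR S R)
    rwa [cg_sigsig] at this
  intro x _
  have hxU : x ∈ R ∪ rho3 ⁻¹' R := by
    rw [h.cover]
    exact mem_univ x
  rcases hxU with hx | hx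
  · exact h2 x hx
  · filter_upwards [ev_pb (h2 (rho3 x) hx), hφc x (mem_univ x)] with t s1 s2
    have s3 : epsR S R (t 0) • φ (fun j => rho3 (t j)) - c • φ t = 0 := s2
    rw [s1, smul_zero, zero_sub, neg_eq_zero] at s3
    have s4 := cgcc hc (φ t)
    rw [s3, smul_zero] at s4
    exact neg_eq_zero.1 s4.symm

/-- A c-part cochain is a twisted cocycle iff its untwisted version near R is a cocycle. -/
theorem cg_coc (h : Geo3 K S R g u k α β) (hc : c * c = -1) {φ : Coch E3 A n} (hφ : LZ K φ)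
    (hφc : CPart (epsR S R) rho3 c φ) :
    LZ univ (dd (tauS S R) φ) ↔ LZ R (dd one (gau (sigR S R) φ)) := by
  constructor
  · intro h1
    exact LZ.congr (cg_dd h hφ).symm ((h1.mono (subset_univ R)).gau (sigR S R))
  · intro h1
    refine cg_uniq h hc (hφ.dd _) ?_ (LZ.congr (cg_dd h hφ) h1)
    exact cg_ddc h hφ hφc

end PoolFbd
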