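import Pool.Agent.Work.MP_fbd21a_gt.CDefs
import Pool.Agent.Work.MP_fbd21a_gt.CupL
import Pool.Agent.Work.MP_fbd21a_gt.DdDd

/-! MODULE JOp. Formal properties of the operator J φ (t) = η(t0) • φ(r∘t) for a continuous involution r
preserving F, η(r x) = - η x and τ(r x, r y) = η x τ(x,y) η y off F.
j_dd: for φ vanishing near Z ⊇ F∩S... : dd τ (J φ) = J (dd τ φ) near S if equiv holds on S \ Z and φ vanishes near
Z (and r maps Z to Z so that J φ vanishes there): first face: τ(t0,t1) η(t1) φ(r t1..) = η(t0) τ(r t0, r t1) φ(r t1..).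
j_coc, j_cob: J preserves relative cocycles and coboundaries of (S, Z) when r preserves S and Z.
j_j: J (J φ) = - φ near univ for φ vanishing near Z ⊇ F.
j_cup: J c ∪ J φ = pb r (c ∪ φ) near S when c vanishes near Z (off Z use equiv for the pair (t0,tq)).
All of them are pointwise computations on tuples close to a diagonal point.
upt lemmas: the twist upt R τ acts on an R-module as τ does through ℤ. -/

open Topology Filter Set

namespace PoolFbd

section
variable {E : Type*} {R A : Type*} [CommRing R] [AddCommGroup A] [Module R A]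

theorem upt_smul (τ : E → E → ℤˣ) (x y : E) (a : A) : upt R τ x y • a = τ x y • a := by
  unfold upt
  rcases Int.units_eq_one_or (τ x y) with h | h
  · rw [h, map_one, one_smul, one_smul]
  · rw [h, Units.smul_def, Units.smul_def]
    simp

theorem dd_upt (τ : E → E → ℤˣ) {n : ℕ} (φ : Coch E A n) : dd (upt R τ) φ = dd τ φ := by
  funext t
  unfold dd
  rw [upt_smul]

theorem invt_upt (τ : E → E → ℤˣ) : invt (upt R τ) = upt R τ := by
  funext x y
  unfold invt upt
  rw [← map_inv]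
  congr 1
  rcases Int.units_eq_one_or (τ x y) with h | h
  · rw [h, inv_one]
  · rw [h]; rfl

theorem coc_upt [TopologicalSpace E] (τ : E → E → ℤˣ) (S Z : Set E) {n : ℕ} (φ : Coch E A n) :
    Coc (upt R τ) S Z φ ↔ Coc τ S Z φ := by
  unfold Coc
  rw [dd_upt]

theorem cob_upt [TopologicalSpace E] (τ : E → E → ℤˣ) (S Z : Set E) {n : ℕ} (φ : Coch E A n) :
    Cob (upt R τ) S Z φ ↔ Cob τ S Z φ := by
  cases n with
  | zero => exact Iff.rfl
  | succ n =>
    unfold Cob
    simp only [dd_upt]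

theorem istw_upt [TopologicalSpace E] {τ : E → E → ℤˣ} {S : Set E} (h : IsTw S τ) :
    IsTw S (upt R τ) := by
  intro x hx
  filter_upwards [h x hx] with t ht
  unfold upt
  rw [← map_mul, ht]
end

private theorem jop_sq (u : ℤˣ) {A : Type*} [AddCommGroup A] (a : A) : u • u • a = a := by
  rw [smul_smul]
  rcases Int.units_eq_one_or u with h | h
  · rw [h, one_mul, one_smul]
  · rw [h]
    have : (-1 : ℤˣ) * -1 = 1 := by decide
    rw [this, one_smul]

section
variable {E : Type*} [TopologicalSpace E] {A : Type*} [AddCommGroup A] {τ : E → E → ℤˣ}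
  {η : E → ℤˣ} {r : E → E} {S Z : Set E} {n : ℕ}

theorem j_add (φ ψ : Coch E A n) : Jop η r (φ + ψ) = Jop η r φ + Jop η r ψ := by
  funext t
  simp only [Jop, Pi.add_apply, smul_add]

theorem j_sub (φ ψ : Coch E A n) : Jop η r (φ - ψ) = Jop η r φ - Jop η r ψ := by
  funext t
  simp only [Jop, Pi.sub_apply, smul_sub]

theorem j_smul {R : Type*} [CommRing R] [Module R A] (a : R) (φ : Coch E A n) :
    Jop η r (a • φ) = a • Jop η r φ := by
  funext t
  simp only [Jop, Pi.smul_apply]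
  rcases Int.units_eq_one_or (η (t 0)) with h | h
  · rw [h, one_smul, one_smul]
  · rw [h, Units.smul_def, Units.smul_def]
    simp

private theorem j_zeroAt (hr : Continuous r) {x : E} {φ : Coch E A n} (h : ZeroAt φ (r x)) :
    ZeroAt (Jop η r φ) x := by
  have h1 := (tendsto_pb (n := n + 1) (hr.continuousAt (x := x))).eventually h
  filter_upwards [h1] with t ht
  show η (t 0) • φ (fun j => r (t j)) = 0
  rw [ht, smul_zero]

theorem j_lz (hr : Continuous r) (hS : ∀ x ∈ S, r x ∈ S) {φ : Coch E A n} (h : LZ S φ) :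
    LZ S (Jop η r φ) := fun x hx => j_zeroAt hr (h (r x) (hS x hx))

theorem j_dd (hr : Continuous r) (hZ : ∀ x ∈ Z, r x ∈ Z)
    (heq : ∀ x ∈ S \ Z, ∀ᶠ t in 𝓝 (fun _ : Fin 2 => x),
      τ (r (t 0)) (r (t 1)) = η (t 0) * τ (t 0) (t 1) * η (t 1))
    {φ : Coch E A n} (h : LZ Z φ) : LZ S (dd τ (Jop η r φ) - Jop η r (dd τ φ)) := by
  intro x hx
  by_cases hxZ : x ∈ Z
  · have h1 : ZeroAt (dd τ (Jop η r φ)) x := (j_zeroAt hr (h (r x) (hZ x hxZ))).dd τ
    have h2 : ZeroAt (Jop η r (dd τ φ)) x := j_zeroAt hr ((h (r x) (hZ x hxZ)).dd τ)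
    filter_upwards [h1, h2] with t e1 e2
    rw [Pi.sub_apply, e1, e2, sub_zero]
  · have h1 := (tendsto_face (fun j : Fin 2 => (⟨j.1, by omega⟩ : Fin (n + 1 + 1))) x).eventually
      (heq x ⟨hx, hxZ⟩)
    filter_upwards [h1] with t ht
    have ht' : τ (r (t 0)) (r (t 1)) = η (t 0) * τ (t 0) (t 1) * η (t 1) := ht
    rw [Pi.sub_apply, sub_eq_zero]
    show τ (t 0) (t 1) • (η (t (Fin.succ 0)) • φ (fun j => r (t j.succ))) +
        ∑ i : Fin (n + 1), (-1 : ℤ) ^ ((i : ℕ) + 1) •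
          (η (t (i.succ.succAbove 0)) • φ (fun j => r (t (i.succ.succAbove j)))) =
      η (t 0) • (τ (r (t 0)) (r (t 1)) • φ (fun j => r (t j.succ)) +
        ∑ i : Fin (n + 1), (-1 : ℤ) ^ ((i : ℕ) + 1) • φ (fun j => r (t (i.succ.succAbove j))))
    rw [smul_add, Finset.smul_sum]
    congr 1
    · rw [ht', Fin.succ_zero_eq_one, mul_assoc, mul_smul, jop_sq, mul_smul]
    · refine Finset.sum_congr rfl fun i _ => ?_
      rw [Fin.succ_succAbove_zero, smul_comm]

theorem j_coc (hr : Continuous r) (hS : ∀ x ∈ S, r x ∈ S) (hZ : ∀ x ∈ Z, r x ∈ Z)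
    (heq : ∀ x ∈ S \ Z, ∀ᶠ t in 𝓝 (fun _ : Fin 2 => x),
      τ (r (t 0)) (r (t 1)) = η (t 0) * τ (t 0) (t 1) * η (t 1))
    {φ : Coch E A n} (h : Coc τ S Z φ) : Coc τ S Z (Jop η r φ) :=
  ⟨j_lz hr hZ h.1, LZ.congr (j_dd hr hZ heq h.1) (j_lz hr hS h.2)⟩

theorem j_cob (hr : Continuous r) (hS : ∀ x ∈ S, r x ∈ S) (hZ : ∀ x ∈ Z, r x ∈ Z)
    (heq : ∀ x ∈ S \ Z, ∀ᶠ t in 𝓝 (fun _ : Fin 2 => x),
      τ (r (t 0)) (r (t 1)) = η (t 0) * τ (t 0) (t 1) * η (t 1))
    {φ : Coch E A n} (h : Cob τ S Z φ) : Cob τ S Z (Jop η r φ) := by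
  cases n with
  | zero => exact j_lz hr hS h
  | succ n =>
    obtain ⟨ψ, h1, h2⟩ := h
    refine ⟨Jop η r ψ, j_lz hr hZ h1, ?_⟩
    have h3 : LZ S (Jop η r φ - Jop η r (dd τ ψ)) := by
      rw [← j_sub]
      exact j_lz hr hS h2
    exact h3.trans (j_dd hr hZ heq h1).symm

theorem j_j (hr : Continuous r) (hrr : ∀ x, r (r x) = x) (hZc : IsClosed Z)
    (hanti : ∀ x ∈ Zᶜ, η (r x) = - η x) {φ : Coch E A n} (h : LZ Z φ) :
    LZ univ (Jop η r (Jop η r φ) + φ) := by
  intro x _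
  have key : ∀ t : Fin (n + 1) → E, (Jop η r (Jop η r φ) + φ) t =
      η (t 0) • η (r (t 0)) • φ t + φ t := by
    intro t
    show η (t 0) • (η (r (t 0)) • φ (fun j => r (r (t j)))) + φ t = _
    simp only [hrr]
  by_cases hx : x ∈ Z
  · filter_upwards [h x hx] with t ht
    rw [key, ht, smul_zero, smul_zero, add_zero]
  · have h1 : ∀ᶠ t in 𝓝 (fun _ : Fin (n + 1) => x), t 0 ∈ Zᶜ :=
      ((continuous_apply (0 : Fin (n + 1))).tendsto (fun _ : Fin (n + 1) => x)).eventually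
        (hZc.isOpen_compl.mem_nhds hx)
    filter_upwards [h1] with t ht
    rw [key, hanti _ ht]
    have h2 : (-η (t 0)) • φ t = -(η (t 0) • φ t) := by
      rw [Units.smul_def, Units.smul_def, Units.val_neg, neg_smul]
    rw [h2, smul_neg, jop_sq, neg_add_cancel]

theorem j_cup {R D : Type*} [CommRing R] [AddCommGroup D] [Module R D] {q p m : ℕ}
    (hqp : q + p = m) (hr : Continuous r) (hZ : ∀ x ∈ Z, r x ∈ Z)
    (heq : ∀ x ∈ Zᶜ, ∀ᶠ t in 𝓝 (fun _ : Fin 2 => x),
      τ (r (t 0)) (r (t 1)) = η (t 0) * τ (t 0) (t 1) * η (t 1))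
    {c : Coch E R q} (hc : LZ Z c) (φ : Coch E D p) :
    LZ univ (cup hqp (upt R τ) (Jop η r c) (Jop η r φ) - pb r (cup hqp (upt R τ) c φ)) := by
  intro x _
  have e1 : ∀ t : Fin (m + 1) → E, cup hqp (upt R τ) (Jop η r c) (Jop η r φ) t =
      (η (t 0) • c (fun i => r (t ⟨i.1, by omega⟩))) •
        (τ (t 0) (t ⟨q, by omega⟩) • (η (t ⟨q, by omega⟩) •
          φ (fun j => r (t ⟨q + j.1, by omega⟩)))) := by
    intro t
    unfold cup
    rw [upt_smul]
    rfl
  have e2 : ∀ t : Fin (m + 1) → E, pb r (cup hqp (upt R τ) c φ) t =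
      c (fun i => r (t ⟨i.1, by omega⟩)) •
        (τ (r (t 0)) (r (t ⟨q, by omega⟩)) • φ (fun j => r (t ⟨q + j.1, by omega⟩))) := by
    intro t
    unfold pb cup
    rw [upt_smul]
  by_cases hx : x ∈ Z
  · have h0 := (tendsto_pb (n := q + 1) (hr.continuousAt (x := x))).eventually (hc (r x) (hZ x hx))
    have h1 := (tendsto_face (fun i : Fin (q + 1) => (⟨i.1, by omega⟩ : Fin (m + 1))) x).eventually
      h0
    filter_upwards [h1] with t ht
    have ht' : c (fun i => r (t ⟨i.1, by omega⟩)) = 0 := ht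
    rw [Pi.sub_apply, e1, e2, ht', smul_zero, zero_smul, zero_smul, sub_zero]
  · have h1 := (tendsto_face (fun j : Fin 2 => (if j = 0 then 0 else ⟨q, by omega⟩ :
      Fin (m + 1))) x).eventually (heq x hx)
    filter_upwards [h1] with t ht
    have ht' : τ (r (t 0)) (r (t ⟨q, by omega⟩)) =
        η (t 0) * τ (t 0) (t ⟨q, by omega⟩) * η (t ⟨q, by omega⟩) := ht
    rw [Pi.sub_apply, e1, e2, ht', sub_eq_zero, mul_smul, mul_smul]
    generalize τ (t 0) (t ⟨q, by omega⟩) • (η (t ⟨q, by omega⟩) •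
          φ (fun j => r (t ⟨q + j.1, by omega⟩))) = y
    generalize c (fun i => r (t ⟨i.1, by omega⟩)) = z
    rcases Int.units_eq_one_or (η (t 0)) with h | h
    · rw [h, one_smul, one_smul]
    · rw [h, Units.smul_def, Units.smul_def]
      simp
end

end PoolFbd
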