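import Pool.Agent.Work.MP_fbd21a_gt.CLin
import Pool.Agent.Work.MP_fbd21a_gt.JOp
import Pool.Agent.Work.MP_fbd21a_gt.IntP

/-! Bilinearity of the pairing `Itg (c ∪ φ)` for sign twists. -/

open Topology Filter Set

namespace PoolFbd

variable {m q p : ℕ} {R D : Type} [CommRing R] [AddCommGroup D] [Module R D]
  {τ : Q m → Q m → ℤˣ} {Z : Set (Q m)}

theorem cj_coc (hqp : q + p = m) (hZ : bd m ⊆ Z) (hτ : IsTw (univ \ Z) τ) {c : Coch (Q m) R q}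
    {φ : Coch (Q m) D p} (hc : Coc τ univ Z c) (hφ : LZ (univ \ Z) (dd τ φ)) :
    Coc one univ (bd m) (cup hqp (upt R τ) c φ) := by
  refine (cup_coc hqp (istw_upt hτ) ?_ ?_).mono le_rfl hZ
  · rw [invt_upt, coc_upt]
    exact hc
  · rw [dd_upt]
    exact hφ

theorem cj_add_left (hqp : q + p = m) (hZ : bd m ⊆ Z) (hτ : IsTw (univ \ Z) τ)
    {c c' : Coch (Q m) R q} {φ : Coch (Q m) D p} (hc : Coc τ univ Z c) (hc' : Coc τ univ Z c')
    (hφ : LZ (univ \ Z) (dd τ φ)) :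
    Itg (cup hqp (upt R τ) (c + c') φ) =
      Itg (cup hqp (upt R τ) c φ) + Itg (cup hqp (upt R τ) c' φ) := by
  rw [cup_add_left, Itg_add (cj_coc hqp hZ hτ hc hφ) (cj_coc hqp hZ hτ hc' hφ)]

theorem cj_sub_left (hqp : q + p = m) (hZ : bd m ⊆ Z) (hτ : IsTw (univ \ Z) τ)
    {c c' : Coch (Q m) R q} {φ : Coch (Q m) D p} (hc : Coc τ univ Z c) (hc' : Coc τ univ Z c')
    (hφ : LZ (univ \ Z) (dd τ φ)) :
    Itg (cup hqp (upt R τ) (c - c') φ) =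
      Itg (cup hqp (upt R τ) c φ) - Itg (cup hqp (upt R τ) c' φ) := by
  rw [cup_sub_left, Itg_sub (cj_coc hqp hZ hτ hc hφ) (cj_coc hqp hZ hτ hc' hφ)]

theorem cj_add_right (hqp : q + p = m) (hZ : bd m ⊆ Z) (hτ : IsTw (univ \ Z) τ)
    {c : Coch (Q m) R q} {φ φ' : Coch (Q m) D p} (hc : Coc τ univ Z c)
    (hφ : LZ (univ \ Z) (dd τ φ)) (hφ' : LZ (univ \ Z) (dd τ φ')) :
    Itg (cup hqp (upt R τ) c (φ + φ')) =
      Itg (cup hqp (upt R τ) c φ) + Itg (cup hqp (upt R τ) c φ') := by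
  rw [cup_add_right, Itg_add (cj_coc hqp hZ hτ hc hφ) (cj_coc hqp hZ hτ hc hφ')]

theorem cj_sub_right (hqp : q + p = m) (hZ : bd m ⊆ Z) (hτ : IsTw (univ \ Z) τ)
    {c : Coch (Q m) R q} {φ φ' : Coch (Q m) D p} (hc : Coc τ univ Z c)
    (hφ : LZ (univ \ Z) (dd τ φ)) (hφ' : LZ (univ \ Z) (dd τ φ')) :
    Itg (cup hqp (upt R τ) c (φ - φ')) =
      Itg (cup hqp (upt R τ) c φ) - Itg (cup hqp (upt R τ) c φ') := by
  rw [cup_sub_right, Itg_sub (cj_coc hqp hZ hτ hc hφ) (cj_coc hqp hZ hτ hc hφ')]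

theorem cj_smul_left (hqp : q + p = m) (hZ : bd m ⊆ Z) (hτ : IsTw (univ \ Z) τ) (r : R)
    {c : Coch (Q m) R q} {φ : Coch (Q m) D p} (hc : Coc τ univ Z c)
    (hφ : LZ (univ \ Z) (dd τ φ)) :
    Itg (cup hqp (upt R τ) (r • c) φ) = r • Itg (cup hqp (upt R τ) c φ) := by
  rw [cup_smul_left, Itg_smul r (cj_coc hqp hZ hτ hc hφ)]

theorem cj_smul_right (hqp : q + p = m) (hZ : bd m ⊆ Z) (hτ : IsTw (univ \ Z) τ) (r : R)
    {c : Coch (Q m) R q} {φ : Coch (Q m) D p} (hc : Coc τ univ Z c)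
    (hφ : LZ (univ \ Z) (dd τ φ)) :
    Itg (cup hqp (upt R τ) c (r • φ)) = r • Itg (cup hqp (upt R τ) c φ) := by
  rw [cup_smul_right, Itg_smul r (cj_coc hqp hZ hτ hc hφ)]

theorem cj_cob_left (hqp : q + p = m) (hZ : bd m ⊆ Z) (hτ : IsTw (univ \ Z) τ)
    {c : Coch (Q m) R q} {φ : Coch (Q m) D p} (hc : Cob τ univ Z c) (hc' : LZ Z c)
    (hφ : LZ (univ \ Z) (dd τ φ)) : Itg (cup hqp (upt R τ) c φ) = 0 := by
  refine Itg_cob ((cup_cob_left hqp (istw_upt hτ) ?_ hc' ?_).mono le_rfl hZ)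
  · rw [invt_upt, cob_upt]
    exact hc
  · rw [dd_upt]
    exact hφ

theorem cj_cob_right (hqp : q + p = m) (hZ : bd m ⊆ Z) (hτ : IsTw (univ \ Z) τ)
    {c : Coch (Q m) R q} {φ : Coch (Q m) D p} (hc : Coc τ univ Z c)
    (hφ : Cob τ (univ \ Z) ∅ φ) : Itg (cup hqp (upt R τ) c φ) = 0 := by
  refine Itg_cob ((cup_cob_right hqp (istw_upt hτ) ?_ ?_).mono le_rfl hZ)
  · rw [invt_upt, coc_upt]
    exact hc
  · rw [cob_upt]
    exact hφ

/-- The pairing only depends on the class of the first factor. -/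
theorem cj_congr_left (hqp : q + p = m) (hZ : bd m ⊆ Z) (hτ : IsTw (univ \ Z) τ)
    {c c' : Coch (Q m) R q} {φ : Coch (Q m) D p} (hc : Coc τ univ Z c) (hc' : Coc τ univ Z c')
    (h : Cob τ univ Z (c - c')) (hφ : LZ (univ \ Z) (dd τ φ)) :
    Itg (cup hqp (upt R τ) c φ) = Itg (cup hqp (upt R τ) c' φ) := by
  rw [← sub_eq_zero, ← cj_sub_left hqp hZ hτ hc hc' hφ]
  exact cj_cob_left hqp hZ hτ h (hc.1.sub hc'.1) hφ

/-- The pairing only depends on the class of the second factor. -/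
theorem cj_congr_right (hqp : q + p = m) (hZ : bd m ⊆ Z) (hτ : IsTw (univ \ Z) τ)
    {c : Coch (Q m) R q} {φ φ' : Coch (Q m) D p} (hc : Coc τ univ Z c)
    (hφ : LZ (univ \ Z) (dd τ φ)) (hφ' : LZ (univ \ Z) (dd τ φ'))
    (h : Cob τ (univ \ Z) ∅ (φ - φ')) :
    Itg (cup hqp (upt R τ) c φ) = Itg (cup hqp (upt R τ) c φ') := by
  rw [← sub_eq_zero, ← cj_sub_right hqp hZ hτ hc hφ hφ']
  exact cj_cob_right hqp hZ hτ hc h

/-- Coefficient maps. -/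
theorem cj_map {R' D' : Type} [CommRing R'] [AddCommGroup D'] [Module R' D'] (hqp : q + p = m)
    (hZ : bd m ⊆ Z) (hτ : IsTw (univ \ Z) τ) (f : R →+* R') (g : D →+ D')
    (hfg : ∀ (r : R) (d : D), g (r • d) = f r • g d)
    {c : Coch (Q m) R q} {φ : Coch (Q m) D p} (hc : Coc τ univ Z c)
    (hφ : LZ (univ \ Z) (dd τ φ)) :
    Itg (cup hqp (upt R' τ) (cmap f c) (cmap g φ)) = g (Itg (cup hqp (upt R τ) c φ)) := by
  rw [← Itg_map g (cj_coc hqp hZ hτ hc hφ)]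
  congr 1
  funext t
  simp only [cup, cmap]
  rw [hfg, upt_smul, upt_smul, cl_unit_map]

end PoolFbd
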