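import Pool.Agent.Work.MP_fbd21a_gt.TmDefs
import Pool.Agent.Work.MP_fbd21a_gt.Oacyc
import Pool.Agent.Work.MP_fbd21a_gt.Retr
import Pool.Agent.Work.MP_fbd21a_gt.AcUnion

/-! MODULE ChTame. A closed set which is locally flat of codimension two (also at boundary points of the
ambient space) is tame.
PROOF. Write H = {y : Fin (n+3) → ℝ // 0 ≤ y 0}, u = coordinate n+1, v = coordinate n+2 (the last two).
For p ∈ F and an open N ∋ p take the chart φ and an open box B = {y | ∀ i, a i < y i ∧ y i < b i} (in H) around φ p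
with B ⊆ φ.target ∩ φ.symm ⁻¹' N (neighbourhoods in H of a point contain such boxes: sup metric on Fin (n+3) → ℝ).
M = φ.symm '' B = φ.source ∩ φ ⁻¹' B, open. P₁, P₂, Q₁, Q₂ = φ.symm '' of B ∩ {u > 0 or v ≠ 0}, B ∩ {u < 0 or v ≠ 0},
B ∩ {v > 0}, B ∩ {v < 0}. M \ F = P₁ ∪ P₂ (points with (u,v) ≠ 0), P₁ ∩ P₂ = Q₁ ∪ Q₂.
Acyclicity in H: B ∩ {v > 0}, B ∩ {v < 0}, B ∩ {u > 0}, B ∩ {u < 0} and the intersections of a u-condition and a
v-condition are boxes (acyc_Hbox, the centre has u = v = 0; replace one bound by 0; 0 < b 0 as (φ p) 0 ≥ 0).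
B ∩ {u > 0 or v ≠ 0} = (B ∩ {v > 0} ∪ B ∩ {u > 0}) ∪ B ∩ {v < 0}: Acyc.union twice with Sepd.open. Transport by acyc_homeo
(g = φ.symm, f = φ). Clause sub: the same construction with a smaller box B' around φ p', B' ⊆ B ∩ φ.symm⁻¹ N';
M' = φ.symm '' B', M' ∩ P₁ = φ.symm '' (B' ∩ {u > 0 or v ≠ 0}) etc. A private lemma for a box B' ⊆ φ.target with centre
having u = v = 0 serves both. -/

open Topology Filter Set

namespace PoolFbd

private abbrev ctH (n : ℕ) := {y : Fin (n + 3) → ℝ // 0 ≤ y 0}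

private def ctu (n : ℕ) : Fin (n + 3) := Fin.castSucc (Fin.last (n + 1))

private def ctv (n : ℕ) : Fin (n + 3) := Fin.last (n + 2)

private theorem ctu_ne (n : ℕ) : ctu n ≠ 0 := by
  intro h
  have := congrArg Fin.val h
  simp [ctu] at this

private theorem ctv_ne (n : ℕ) : ctv n ≠ 0 := by
  intro h
  have := congrArg Fin.val h
  simp [ctv] at this

private theorem ctuv_ne (n : ℕ) : ctu n ≠ ctv n := by
  intro h
  have := congrArg Fin.val h
  simp [ctu, ctv] at this

/-- Boxes in the half space. -/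
private def ctB {n : ℕ} (a b : Fin (n + 3) → ℝ) : Set (ctH n) := {y | ∀ i, a i < y.1 i ∧ y.1 i < b i}

private theorem ctB_pos {n : ℕ} {a b : Fin (n + 3) → ℝ} {j : Fin (n + 3)} (hj : a j ≤ 0) :
    ctB a b ∩ {y | 0 < y.1 j} = ctB (Function.update a j 0) b := by
  ext y
  constructor
  · rintro ⟨h1, h2⟩ i
    by_cases hi : i = j
    · subst hi
      rw [Function.update_self]
      exact ⟨h2, (h1 i).2⟩
    · rw [Function.update_of_ne hi]
      exact h1 i
  · intro h1
    have hj' := h1 j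
    rw [Function.update_self] at hj'
    refine ⟨fun i => ?_, hj'.1⟩
    by_cases hi : i = j
    · subst hi
      exact ⟨lt_of_le_of_lt hj hj'.1, hj'.2⟩
    · have := h1 i
      rwa [Function.update_of_ne hi] at this

private theorem ctB_neg {n : ℕ} {a b : Fin (n + 3) → ℝ} {j : Fin (n + 3)} (hj : 0 ≤ b j) :
    ctB a b ∩ {y | y.1 j < 0} = ctB a (Function.update b j 0) := by
  ext y
  constructor
  · rintro ⟨h1, h2⟩ i
    by_cases hi : i = j
    · subst hi
      rw [Function.update_self]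
      exact ⟨(h1 i).1, h2⟩
    · rw [Function.update_of_ne hi]
      exact h1 i
  · intro h1
    have hj' := h1 j
    rw [Function.update_self] at hj'
    refine ⟨fun i => ?_, hj'.2⟩
    by_cases hi : i = j
    · subst hi
      exact ⟨hj'.1, lt_of_lt_of_le hj'.2 hj⟩
    · have := h1 i
      rwa [Function.update_of_ne hi] at this

private theorem ctB_acyc {n : ℕ} {a b : Fin (n + 3) → ℝ} (h : ∀ i, a i < b i) (hb : 0 < b 0) :
    Acyc (ctB a b) := acyc_Hbox (n := n + 2) h hb

/-- Sign conditions. -/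
private def ctP {n : ℕ} (s : Bool) (j : Fin (n + 3)) : Set (ctH n) :=
  if s then {y | 0 < y.1 j} else {y | y.1 j < 0}

private theorem ctP_open {n : ℕ} (s : Bool) (j : Fin (n + 3)) : IsOpen (ctP (n := n) s j) := by
  have hc : Continuous fun y : ctH n => y.1 j := (continuous_apply j).comp continuous_subtype_val
  cases s
  · exact isOpen_lt hc continuous_const
  · exact isOpen_lt continuous_const hc

/-- One sign condition. -/
private theorem ctB_one {n : ℕ} {a b : Fin (n + 3) → ℝ} (hb : 0 < b 0)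
    (h : ∀ i, a i < b i) (s : Bool) {j : Fin (n + 3)} (hj0 : j ≠ 0) (haj : a j < 0)
    (hbj : 0 < b j) : ∃ a' b' : Fin (n + 3) → ℝ, ctB a b ∩ ctP s j = ctB a' b' ∧
      (∀ i, a' i < b' i) ∧ 0 < b' 0 ∧ ∀ i, i ≠ j → a' i = a i ∧ b' i = b i := by
  cases s
  · refine ⟨a, Function.update b j 0, ctB_neg hbj.le, ?_, ?_, ?_⟩
    · intro i
      by_cases hi : i = j
      · subst hi
        rw [Function.update_self]
        exact haj
      · rw [Function.update_of_ne hi]
        exact h i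
    · rw [Function.update_of_ne hj0.symm]
      exact hb
    · intro i hi
      exact ⟨rfl, Function.update_of_ne hi _ _⟩
  · refine ⟨Function.update a j 0, b, ctB_pos haj.le, ?_, hb, ?_⟩
    · intro i
      by_cases hi : i = j
      · subst hi
        rw [Function.update_self]
        exact hbj
      · rw [Function.update_of_ne hi]
        exact h i
    · intro i hi
      exact ⟨Function.update_of_ne hi _ _, rfl⟩

private theorem ctB_open {n : ℕ} (a b : Fin (n + 3) → ℝ) : IsOpen (ctB a b) := by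
  have e : ctB a b = ⋂ i, ({y : ctH n | a i < y.1 i} ∩ {y : ctH n | y.1 i < b i}) := by
    ext y
    simp [ctB]
  rw [e]
  have hc : ∀ i, Continuous fun y : ctH n => y.1 i := fun i =>
    (continuous_apply i).comp continuous_subtype_val
  exact isOpen_iInter_of_finite fun i => (isOpen_lt continuous_const (hc i)).inter
    (isOpen_lt (hc i) continuous_const)

/-- The four basic facts for a box whose centre has `u = v = 0`. -/
private theorem ct_box {n : ℕ} {a b : Fin (n + 3) → ℝ} (h : ∀ i, a i < b i) (hb : 0 < b 0)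
    (hau : a (ctu n) < 0) (hbu : 0 < b (ctu n)) (hav : a (ctv n) < 0) (hbv : 0 < b (ctv n)) :
    Acyc (ctB a b ∩ ctP true (ctv n)) ∧ Acyc (ctB a b ∩ ctP false (ctv n)) ∧
      ∀ s : Bool, Acyc (ctB a b ∩ (ctP s (ctu n) ∪ (ctP true (ctv n) ∪ ctP false (ctv n)))) := by
  have hv : ∀ t : Bool, Acyc (ctB a b ∩ ctP t (ctv n)) := by
    intro t
    obtain ⟨a', b', e, h1, h2, -⟩ := ctB_one hb h t (ctv_ne n) hav hbv
    rw [e]
    exact ctB_acyc h1 h2
  refine ⟨hv true, hv false, fun s => ?_⟩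
  have hu : Acyc (ctB a b ∩ ctP s (ctu n)) := by
    obtain ⟨a', b', e, h1, h2, -⟩ := ctB_one hb h s (ctu_ne n) hau hbu
    rw [e]
    exact ctB_acyc h1 h2
  have huv : ∀ t : Bool, Acyc (ctB a b ∩ ctP s (ctu n) ∩ ctP t (ctv n)) := by
    intro t
    obtain ⟨a', b', e, h1, h2, h3⟩ := ctB_one hb h s (ctu_ne n) hau hbu
    rw [e]
    obtain ⟨h4, h5⟩ := h3 (ctv n) (ctuv_ne n).symm
    obtain ⟨a'', b'', e', h1', h2', -⟩ := ctB_one h2 h1 t (ctv_ne n) (by rw [h4]; exact hav)
      (by rw [h5]; exact hbv)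
    rw [e']
    exact ctB_acyc h1' h2'
  have ho := ctB_open (n := n) a b
  have step1 : Acyc (ctB a b ∩ ctP s (ctu n) ∪ ctB a b ∩ ctP true (ctv n)) := by
    refine Acyc.union (Sepd.open (ho.inter (ctP_open _ _)) (ho.inter (ctP_open _ _))) hu (hv true) ?_
    have e : ctB a b ∩ ctP s (ctu n) ∩ (ctB a b ∩ ctP true (ctv n)) =
        ctB a b ∩ ctP s (ctu n) ∩ ctP true (ctv n) := by
      ext y
      constructor
      · rintro ⟨h1, h2⟩
        exact ⟨h1, h2.2⟩
      · rintro ⟨h1, h2⟩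
        exact ⟨h1, h1.1, h2⟩
    rw [e]
    exact huv true
  have step2 : Acyc ((ctB a b ∩ ctP s (ctu n) ∪ ctB a b ∩ ctP true (ctv n)) ∪
      ctB a b ∩ ctP false (ctv n)) := by
    refine Acyc.union (Sepd.open ((ho.inter (ctP_open _ _)).union (ho.inter (ctP_open _ _)))
      (ho.inter (ctP_open _ _))) step1 (hv false) ?_
    have e : (ctB a b ∩ ctP s (ctu n) ∪ ctB a b ∩ ctP true (ctv n)) ∩
        (ctB a b ∩ ctP false (ctv n)) = ctB a b ∩ ctP s (ctu n) ∩ ctP false (ctv n) := by
      ext y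
      constructor
      · rintro ⟨h1 | h1, h2⟩
        · exact ⟨h1, h2.2⟩
        · exfalso
          have h3 : 0 < y.1 (ctv n) := h1.2
          have h4 : y.1 (ctv n) < 0 := h2.2
          linarith
      · rintro ⟨h1, h2⟩
        exact ⟨Or.inl h1, h1.1, h2⟩
    rw [e]
    exact huv false
  have e : ctB a b ∩ (ctP s (ctu n) ∪ (ctP true (ctv n) ∪ ctP false (ctv n))) =
      (ctB a b ∩ ctP s (ctu n) ∪ ctB a b ∩ ctP true (ctv n)) ∪ ctB a b ∩ ctP false (ctv n) := by
    rw [inter_union_distrib_left, inter_union_distrib_left, union_assoc]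
  rw [e]
  exact step2

/-- Small boxes. -/
private theorem ct_small {n : ℕ} {W : Set (ctH n)} (hW : IsOpen W) {q : ctH n} (hq : q ∈ W)
    (hu : q.1 (ctu n) = 0) (hv : q.1 (ctv n) = 0) : ∃ a b : Fin (n + 3) → ℝ, q ∈ ctB a b ∧
      ctB a b ⊆ W ∧ (∀ i, a i < b i) ∧ 0 < b 0 ∧ a (ctu n) < 0 ∧ 0 < b (ctu n) ∧
      a (ctv n) < 0 ∧ 0 < b (ctv n) := by
  obtain ⟨ε, hε, hb⟩ := Metric.isOpen_iff.mp hW q hq
  refine ⟨fun i => q.1 i - ε, fun i => q.1 i + ε, ?_, ?_, ?_, ?_, ?_, ?_, ?_, ?_⟩
  · intro i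
    constructor
    · change q.1 i - ε < q.1 i
      linarith
    · change q.1 i < q.1 i + ε
      linarith
  · intro y hy
    apply hb
    rw [Metric.mem_ball, Subtype.dist_eq, dist_pi_lt_iff hε]
    intro i
    rw [Real.dist_eq, abs_lt]
    have h1 : q.1 i - ε < y.1 i := (hy i).1
    have h2 : y.1 i < q.1 i + ε := (hy i).2
    constructor <;> linarith
  · intro i
    change q.1 i - ε < q.1 i + ε
    linarith
  · have := q.2
    change 0 < q.1 0 + ε
    linarith
  · change q.1 (ctu n) - ε < 0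
    rw [hu]
    linarith
  · change 0 < q.1 (ctu n) + ε
    rw [hu]
    linarith
  · change q.1 (ctv n) - ε < 0
    rw [hv]
    linarith
  · change 0 < q.1 (ctv n) + ε
    rw [hv]
    linarith

private theorem ct_trans {E : Type*} [TopologicalSpace E] {n : ℕ}
    (φ : OpenPartialHomeomorph E (ctH n)) {T : Set (ctH n)} (hT : T ⊆ φ.target) (h : Acyc T) :
    Acyc (φ.source ∩ φ ⁻¹' T) := by
  refine acyc_homeo h φ.symm φ (fun x hx => φ.continuousAt_symm (hT hx))
    (fun y hy => φ.continuousAt hy.1) (fun x hx => ⟨φ.map_target (hT hx), ?_⟩)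
    (fun y hy => hy.2) (fun y hy => φ.left_inv hy.1)
  change φ (φ.symm x) ∈ T
  rw [φ.right_inv (hT hx)]
  exact hx

theorem chart_tame {E : Type*} [PseudoMetricSpace E] {n : ℕ} {F : Set E} (hF : IsClosed F)
    (h : ∀ p ∈ F, ∃ φ : OpenPartialHomeomorph E {y : Fin (n + 3) → ℝ // 0 ≤ y 0},
      p ∈ φ.source ∧ ∀ x ∈ φ.source, (x ∈ F ↔
        (φ x).1 (Fin.castSucc (Fin.last (n + 1))) = 0 ∧ (φ x).1 (Fin.last (n + 2)) = 0)) :
    Tame F := by
  refine ⟨hF, fun p hp N hN hpN => ?_⟩
  obtain ⟨φ, hpφ, hφ⟩ := h p hp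
  have hφ' : ∀ x ∈ φ.source, (x ∈ F ↔ (φ x).1 (ctu n) = 0 ∧ (φ x).1 (ctv n) = 0) := hφ
  obtain ⟨hu, hv⟩ := (hφ' p hpφ).mp hp
  obtain ⟨a, b, hq, hBW, h1, h2, h3, h4, h5, h6⟩ := ct_small
    (W := φ.target ∩ φ.symm ⁻¹' N) (φ.isOpen_inter_preimage_symm hN) (q := φ p)
    ⟨φ.map_source hpφ, by change φ.symm (φ p) ∈ N; rw [φ.left_inv hpφ]; exact hpN⟩ hu hv
  have hBt : ctB a b ⊆ φ.target := fun y hy => (hBW hy).1
  obtain ⟨c1, c2, c3⟩ := ct_box h1 h2 h3 h4 h5 h6
  have ho := ctB_open (n := n) a b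
  let R : Bool → Set (ctH n) := fun s => ctP s (ctu n) ∪ (ctP true (ctv n) ∪ ctP false (ctv n))
  have hRo : ∀ s, IsOpen (R s) := fun s =>
    (ctP_open _ _).union ((ctP_open _ _).union (ctP_open _ _))
  refine ⟨φ.source ∩ φ ⁻¹' ctB a b, φ.source ∩ φ ⁻¹' (ctB a b ∩ R true),
    φ.source ∩ φ ⁻¹' (ctB a b ∩ R false), φ.source ∩ φ ⁻¹' (ctB a b ∩ ctP true (ctv n)),
    φ.source ∩ φ ⁻¹' (ctB a b ∩ ctP false (ctv n)), ⟨hpφ, hq⟩, ?_, ?_⟩
  · rintro x ⟨hx, hxB⟩
    have := (hBW hxB).2
    change φ.symm (φ x) ∈ N at this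
    rwa [φ.left_inv hx] at this
  · constructor
    · exact φ.isOpen_inter_preimage ho
    · exact φ.isOpen_inter_preimage (ho.inter (hRo _))
    · exact φ.isOpen_inter_preimage (ho.inter (hRo _))
    · exact φ.isOpen_inter_preimage (ho.inter (ctP_open _ _))
    · exact φ.isOpen_inter_preimage (ho.inter (ctP_open _ _))
    · -- hM
      ext x
      constructor
      · rintro ⟨⟨hx, hxB⟩, hxF⟩
        rw [hφ' x hx] at hxF
        rcases lt_trichotomy ((φ x).1 (ctv n)) 0 with h7 | h7 | h7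
        · exact Or.inl ⟨hx, hxB, Or.inr (Or.inr h7)⟩
        · rcases lt_trichotomy ((φ x).1 (ctu n)) 0 with h8 | h8 | h8
          · exact Or.inr ⟨hx, hxB, Or.inl h8⟩
          · exact absurd ⟨h8, h7⟩ hxF
          · exact Or.inl ⟨hx, hxB, Or.inl h8⟩
        · exact Or.inl ⟨hx, hxB, Or.inr (Or.inl h7)⟩
      · have key : ∀ (s : Bool), x ∈ φ.source ∩ φ ⁻¹' (ctB a b ∩ R s) →
            x ∈ (φ.source ∩ φ ⁻¹' ctB a b) \ F := by
          rintro s ⟨hx, hxB, hxR⟩
          refine ⟨⟨hx, hxB⟩, fun hxF => ?_⟩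
          obtain ⟨h7, h8⟩ := (hφ' x hx).mp hxF
          rcases hxR with h9 | h9 | h9
          · cases s
            · have h10 : (φ x).1 (ctu n) < 0 := h9
              linarith
            · have h10 : 0 < (φ x).1 (ctu n) := h9
              linarith
          · have h10 : 0 < (φ x).1 (ctv n) := h9
            linarith
          · have h10 : (φ x).1 (ctv n) < 0 := h9
            linarith
        rintro (hx | hx)
        · exact key true hx
        · exact key false hx
    · -- hQ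
      ext x
      constructor
      · rintro ⟨⟨hx, hxB, h7⟩, ⟨-, -, h8⟩⟩
        rcases h7 with h7 | h7 | h7
        · rcases h8 with h8 | h8 | h8
          · exfalso
            have h9 : 0 < (φ x).1 (ctu n) := h7
            have h10 : (φ x).1 (ctu n) < 0 := h8
            linarith
          · exact Or.inl ⟨hx, hxB, h8⟩
          · exact Or.inr ⟨hx, hxB, h8⟩
        · exact Or.inl ⟨hx, hxB, h7⟩
        · exact Or.inr ⟨hx, hxB, h7⟩
      · rintro (⟨hx, hxB, h7⟩ | ⟨hx, hxB, h7⟩)
        · exact ⟨⟨hx, hxB, Or.inr (Or.inl h7)⟩, ⟨hx, hxB, Or.inr (Or.inl h7)⟩⟩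
        · exact ⟨⟨hx, hxB, Or.inr (Or.inr h7)⟩, ⟨hx, hxB, Or.inr (Or.inr h7)⟩⟩
    · -- disj
      rw [Set.disjoint_left]
      rintro x ⟨-, -, h7⟩ ⟨-, -, h8⟩
      have h9 : 0 < (φ x).1 (ctv n) := h7
      have h10 : (φ x).1 (ctv n) < 0 := h8
      linarith
    · exact ct_trans φ (fun y hy => hBt hy.1) (c3 true)
    · exact ct_trans φ (fun y hy => hBt hy.1) (c3 false)
    · exact ct_trans φ (fun y hy => hBt hy.1) c1
    · exact ct_trans φ (fun y hy => hBt hy.1) c2
    · -- sub
      rintro p' ⟨hp'F, hp'φ, hp'B⟩ N' hN' hp'N'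
      obtain ⟨hu', hv'⟩ := (hφ' p' hp'φ).mp hp'F
      obtain ⟨a', b', hq', hBW', h1', h2', h3', h4', h5', h6'⟩ := ct_small
        (W := (φ.target ∩ φ.symm ⁻¹' N') ∩ ctB a b)
        ((φ.isOpen_inter_preimage_symm hN').inter ho) (q := φ p')
        ⟨⟨φ.map_source hp'φ, by change φ.symm (φ p') ∈ N'; rw [φ.left_inv hp'φ]; exact hp'N'⟩,
          hp'B⟩ hu' hv'
      have hBt' : ctB a' b' ⊆ φ.target := fun y hy => (hBW' hy).1.1
      obtain ⟨d1, d2, d3⟩ := ct_box h1' h2' h3' h4' h5' h6'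
      have key : ∀ T : Set (ctH n), φ.source ∩ φ ⁻¹' ctB a' b' ∩ (φ.source ∩ φ ⁻¹' (ctB a b ∩ T)) =
          φ.source ∩ φ ⁻¹' (ctB a' b' ∩ T) := by
        intro T
        ext x
        constructor
        · rintro ⟨⟨hx, hxB⟩, ⟨-, -, hxT⟩⟩
          exact ⟨hx, hxB, hxT⟩
        · rintro ⟨hx, hxB, hxT⟩
          exact ⟨⟨hx, hxB⟩, ⟨hx, (hBW' hxB).2, hxT⟩⟩
      refine ⟨φ.source ∩ φ ⁻¹' ctB a' b', φ.isOpen_inter_preimage (ctB_open _ _),
        ⟨hp'φ, hq'⟩, ?_, ?_, ?_, ?_, ?_⟩
      · rintro x ⟨hx, hxB⟩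
        have h7 := hBW' hxB
        refine ⟨?_, hx, h7.2⟩
        have h8 := h7.1.2
        change φ.symm (φ x) ∈ N' at h8
        rwa [φ.left_inv hx] at h8
      · rw [key]
        exact ct_trans φ (fun y hy => hBt' hy.1) (d3 true)
      · rw [key]
        exact ct_trans φ (fun y hy => hBt' hy.1) (d3 false)
      · rw [key]
        exact ct_trans φ (fun y hy => hBt' hy.1) d1
      · rw [key]
        exact ct_trans φ (fun y hy => hBt' hy.1) d2

/-- The open embedding of the space into the half space. -/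
private noncomputable def ctE (n : ℕ) : OpenPartialHomeomorph (Fin (n + 3) → ℝ) (ctH n) where
  toFun y := ⟨Function.update y 0 (Real.exp (y 0)), by
    rw [Function.update_self]; exact (Real.exp_pos _).le⟩
  invFun y := Function.update y.1 0 (Real.log (y.1 0))
  source := univ
  target := {y | 0 < y.1 0}
  map_source' y _ := by
    change 0 < Function.update y 0 (Real.exp (y 0)) 0
    rw [Function.update_self]
    exact Real.exp_pos _
  map_target' y _ := mem_univ _
  left_inv' y _ := by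
    change Function.update (Function.update y 0 (Real.exp (y 0))) 0
      (Real.log (Function.update y 0 (Real.exp (y 0)) 0)) = y
    rw [Function.update_self, Real.log_exp, Function.update_idem, Function.update_eq_self]
  right_inv' y hy := by
    apply Subtype.ext
    change Function.update (Function.update y.1 0 (Real.log (y.1 0))) 0
      (Real.exp (Function.update y.1 0 (Real.log (y.1 0)) 0)) = y.1
    have hy' : 0 < y.1 0 := hy
    rw [Function.update_self, Real.exp_log hy', Function.update_idem, Function.update_eq_self]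
  open_source := isOpen_univ
  open_target := isOpen_lt continuous_const ((continuous_apply 0).comp continuous_subtype_val)
  continuousOn_toFun := by
    refine Continuous.continuousOn (Continuous.subtype_mk ?_ _)
    exact Continuous.update continuous_id 0 (Real.continuous_exp.comp (continuous_apply 0))
  continuousOn_invFun := by
    have h1 : ContinuousOn (fun y : ctH n => Real.log (y.1 0)) {y | 0 < y.1 0} :=
      ContinuousOn.log ((continuous_apply 0).comp continuous_subtype_val).continuousOn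
        fun y hy => ne_of_gt hy
    refine continuousOn_pi.mpr fun i => ?_
    by_cases hi : i = 0
    · subst hi
      simp only [Function.update_self]
      exact h1
    · simp only [Function.update_of_ne hi]
      exact ((continuous_apply i).comp continuous_subtype_val).continuousOn

/-- Version for manifolds without boundary (compose with the open embedding
`y ↦ (exp (y 0), y 1, ...)` of `ℝ^(n+3)` into the half space). -/
theorem chart_tame' {E : Type*} [PseudoMetricSpace E] {n : ℕ} {F : Set E} (hF : IsClosed F)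
    (h : ∀ p ∈ F, ∃ φ : OpenPartialHomeomorph E (Fin (n + 3) → ℝ),
      p ∈ φ.source ∧ ∀ x ∈ φ.source, (x ∈ F ↔
        φ x (Fin.castSucc (Fin.last (n + 1))) = 0 ∧ φ x (Fin.last (n + 2)) = 0)) :
    Tame F := by
  refine chart_tame (n := n) hF fun p hp => ?_
  obtain ⟨φ, hpφ, hφ⟩ := h p hp
  refine ⟨φ.trans (ctE n), ?_, ?_⟩
  · rw [OpenPartialHomeomorph.trans_source]
    exact ⟨hpφ, mem_univ _⟩
  · intro x hx
    rw [OpenPartialHomeomorph.trans_source] at hx
    rw [hφ x hx.1]
    have e1 : ((φ.trans (ctE n)) x).1 (Fin.castSucc (Fin.last (n + 1))) =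
        φ x (Fin.castSucc (Fin.last (n + 1))) :=
      Function.update_of_ne (ctu_ne n) (Real.exp (φ x 0)) (φ x)
    have e2 : ((φ.trans (ctE n)) x).1 (Fin.last (n + 2)) =
        φ x (Fin.last (n + 2)) :=
      Function.update_of_ne (ctv_ne n) (Real.exp (φ x 0)) (φ x)
    rw [e1, e2]

end PoolFbd
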