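import Pool.Agent.Work.MP_fbd21a_gt.NuDefs

/-! Local flatness of surfaces, knots and pairs in the sphere `E3`. -/

open Topology Filter Set

namespace PoolFbd

/-- `S` is a locally flat surface at `p`. -/
def SFlat (S : Set E3) (p : E3) : Prop := ∃ ψ : OpenPartialHomeomorph E3 V3, p ∈ ψ.source ∧
  ∀ x ∈ ψ.source, (x ∈ S ↔ ψ x 2 = 0)

/-- `K` is a locally flat curve at `p`. -/
def KFlat (K : Set E3) (p : E3) : Prop := ∃ ψ : OpenPartialHomeomorph E3 V3, p ∈ ψ.source ∧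
  ∀ x ∈ ψ.source, (x ∈ K ↔ ψ x 1 = 0 ∧ ψ x 2 = 0)

/-- `(S, K)` is a locally flat pair (surface and curve) at `p`. -/
def PFlat (S K : Set E3) (p : E3) : Prop := ∃ ψ : OpenPartialHomeomorph E3 V3, p ∈ ψ.source ∧
  ∀ x ∈ ψ.source, (x ∈ S ↔ ψ x 2 = 0) ∧ (x ∈ K ↔ ψ x 1 = 0 ∧ ψ x 2 = 0)

/-- The closed annuli. -/
def anD : Set E3 := {x | ∃ l, ∃ s ∈ Icc (0 : ℝ) 1, x = nuD l s}

/-- The closed annulus around the notch. -/
def anB : Set E3 := {x | ∃ l, ∃ s ∈ Icc (0 : ℝ) 1, x = nuB l s}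

/-- Its image in the second copy. -/
def anB' : Set E3 := {x | ∃ l, ∃ s ∈ Icc (0 : ℝ) 1, x = nuB' l s}

end PoolFbd
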