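import Pool.Agent.Work.MP_fbd21a_gt.StDefs
import Pool.Agent.Work.MP_fbd21a_gt.FlDefs
import Pool.Agent.Work.MP_fbd21a_gt.ChTame

/-! MODULE ChTrans. Transfer of charts between the round and the cube models.
half_homeo: EuclideanHalfSpace 4 ≃ₜ {y : Fin 4 → ℝ // 0 ≤ y 0}, identity on coordinates.
surf_tame: compose the charts of F with h and with half_homeo, chart_tame with n = 1 (F' = h ⁻¹' F closed in Q 4).
knot_trans: for a homeomorphism h3 : E3 ≃ₜ Sph3 the charts of K (KFlat) give charts of h3 '' K. -/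

open Topology Filter Set

namespace PoolFbd

private noncomputable def half_homeo :
    EuclideanHalfSpace 4 ≃ₜ {y : Fin 4 → ℝ // 0 ≤ y 0} where
  toFun x := ⟨(EuclideanSpace.equiv (Fin 4) ℝ) x.1, x.2⟩
  invFun y := ⟨(EuclideanSpace.equiv (Fin 4) ℝ).symm y.1, y.2⟩
  left_inv x := Subtype.ext ((EuclideanSpace.equiv (Fin 4) ℝ).symm_apply_apply x.1)
  right_inv y := Subtype.ext ((EuclideanSpace.equiv (Fin 4) ℝ).apply_symm_apply y.1)
  continuous_toFun := ((EuclideanSpace.equiv (Fin 4) ℝ).continuous.comp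
    continuous_subtype_val).subtype_mk _
  continuous_invFun := ((EuclideanSpace.equiv (Fin 4) ℝ).symm.continuous.comp
    continuous_subtype_val).subtype_mk _

theorem surf_tame {F : Set Ball4} (hF : IsClosed F)
    (hf : ∀ p ∈ F, ∃ φ : OpenPartialHomeomorph Ball4 (EuclideanHalfSpace 4), p ∈ φ.source ∧
      ∀ x ∈ φ.source, (x ∈ F ↔ (φ x).1 2 = 0 ∧ (φ x).1 3 = 0)) (h : Q 4 ≃ₜ Ball4) :
    Tame (h ⁻¹' F) := by
  refine chart_tame (n := 1) (hF.preimage h.continuous) fun p hp => ?_
  obtain ⟨φ, hpφ, hφ⟩ := hf (h p) hp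
  refine ⟨h.toOpenPartialHomeomorph.trans
    (φ.trans half_homeo.toOpenPartialHomeomorph), ?_, ?_⟩
  · simp only [OpenPartialHomeomorph.trans_source, mem_inter_iff, mem_preimage,
      Homeomorph.toOpenPartialHomeomorph_source, mem_univ, and_true, true_and]
    exact hpφ
  · intro x hx
    have hx' : h x ∈ φ.source := by
      simp only [OpenPartialHomeomorph.trans_source, mem_inter_iff, mem_preimage,
        Homeomorph.toOpenPartialHomeomorph_source, mem_univ, and_true, true_and] at hx
      exact hx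
    exact hφ (h x) hx'

theorem knot_trans {K : Set E3} (hK : ∀ p ∈ K, KFlat K p) (h3 : E3 ≃ₜ Sph3) :
    FlatKnot (h3 '' K) := by
  rintro _ ⟨p, hp, rfl⟩
  obtain ⟨ψ, hpψ, hψ⟩ := hK p hp
  refine ⟨h3.symm.toOpenPartialHomeomorph.trans
    (ψ.trans (EuclideanSpace.equiv (Fin 3) ℝ).symm.toHomeomorph.toOpenPartialHomeomorph), ?_, ?_⟩
  · simp only [OpenPartialHomeomorph.trans_source, mem_inter_iff, mem_preimage,
      Homeomorph.toOpenPartialHomeomorph_source, mem_univ, and_true, true_and]
    show h3.symm (h3 p) ∈ ψ.source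
    rw [h3.symm_apply_apply]
    exact hpψ
  · intro x hx
    have hx' : h3.symm x ∈ ψ.source := by
      simp only [OpenPartialHomeomorph.trans_source, mem_inter_iff, mem_preimage,
        Homeomorph.toOpenPartialHomeomorph_source, mem_univ, and_true, true_and] at hx
      exact hx
    have h1 : x ∈ h3 '' K ↔ h3.symm x ∈ K := by
      rw [Homeomorph.image_eq_preimage_symm]
      rfl
    rw [h1]
    exact hψ (h3.symm x) hx'

end PoolFbd
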