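import Pool.Agent.Work.MP_fbd21a_gt.SphRad
import Pool.Agent.Work.MP_fbd21a_gt.Pris
import Pool.Agent.Work.MP_fbd21a_gt.Unif
import Pool.Agent.Work.MP_fbd21a_gt.DdDd

/-! MODULE Cone. The open cone U = {x | 0 < nrm x, rad x ∉ K} over the complement of the closed set
K ⊆ E3 has no cohomology with compact support (in the half open direction): H^*(Q 4, Uᶜ; τ_U) = 0, for the
twist τ_U = pbt rad τ.
PROOF. c a relative cocycle of (univ, Uᶜ) of degree m. Uᶜ is closed (= {0} ∪ cone over K), contains 0.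
By LZ.unif: ε > 0 with: c t = 0 if all entries of t are ε-close to one point of Uᶜ; dd τ_U c t = 0 if all entries of t
are ε-close to one point of univ. a_j(x) = (1 - j/N) x, j = 0..N, N > 2/ε (coordinatewise; sup distance
dist (a_j x) (a_(j+1) x) ≤ 1/N). a_0 = id, a_N = 0 (the constant map to the origin).
For t with all entries within ε/4 of x: the mixed tuples (a_j t0..a_j ti, a_(j+1) ti..) are ε-close to
a_j x. So prism_succ gives, with τ_U(a_j y, a_(j+1) y) = τ(rad y, rad y) = 1 (for y ∈ U; for j+1 = N or y ∉ U the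
cochain vanishes near the points involved, so this factor is irrelevant) and pbt a_j τ_U = τ_U on U (rad (s y) = rad y
for s > 0): near points of U: dd τ_U (prism a_j a_(j+1) c) = pb a_(j+1) c - pb a_j c for j + 1 < N, and for j = N - 1
choose N so large that all tuples with entries in the ball of radius 2/N around 0 are in the zero region: then
pb a_(N-1) c = 0 already. So use only j < N - 1. ψ = Σ_{j < N-1} prism a_j a_(j+1) c vanishes near Uᶜ (a_j maps Uᶜ to
itself) and c = - dd τ_U ψ near univ. Degree 0: c y = c (a_1 y) = ... = 0 by prism_zero. -/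

open Topology Filter Set

namespace PoolFbd

/-- The open cone over the complement of `K`. -/
def coneU (K : Set E3) : Set (Q 4) := {x | 0 < nrm x ∧ rad x ∉ K}

theorem coneU_open {K : Set E3} (hK : IsClosed K) : IsOpen (coneU K) := by

  rw [isOpen_iff_mem_nhds]
  rintro x ⟨h1, h2⟩
  have e1 : ∀ᶠ y in 𝓝 x, 0 < nrm y := nrm_cont.continuousAt.eventually (lt_mem_nhds h1)
  have e2 : ∀ᶠ y in 𝓝 x, rad y ∈ Kᶜ := (rad_cont h1).eventually (hK.isOpen_compl.mem_nhds h2)
  filter_upwards [e1, e2] with y a b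
  exact ⟨a, b⟩

theorem cone_tw {K : Set E3} {G : Type*} [CommGroup G] {τ : E3 → E3 → G} (hτ : IsTw Kᶜ τ) :
    IsTw (coneU K) (pbt rad τ) := by

  exact IsTw.pbt (fun x hx => ⟨rad_cont hx.1, hx.2⟩) hτ

/-- Scaling. -/
private noncomputable def csc (s : ℝ) : Q 4 → Q 4 :=
  fun x i => Set.projIcc (-1 : ℝ) 1 (by norm_num) (s * x i)

private theorem csc_val {s : ℝ} (h0 : 0 ≤ s) (h1 : s ≤ 1) (x : Q 4) (i : Fin 4) :
    (csc s x i : ℝ) = s * x i := by
  have a := (x i).2.1
  have b := (x i).2.2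
  unfold csc
  rw [Set.projIcc_of_mem _ ⟨by nlinarith, by nlinarith⟩]

private theorem csc_cont (s : ℝ) : Continuous (csc s) := by
  refine continuous_pi fun i => continuous_projIcc.comp ?_
  exact continuous_const.mul (continuous_subtype_val.comp (continuous_apply i))

private theorem csc_one (x : Q 4) : csc 1 x = x := by
  funext i
  apply Subtype.ext
  rw [csc_val zero_le_one le_rfl, one_mul]

private theorem csc_dist {s s' : ℝ} (h0 : 0 ≤ s) (h1 : s ≤ 1) (h0' : 0 ≤ s') (h1' : s' ≤ 1)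
    (x : Q 4) : dist (csc s x) (csc s' x) ≤ |s - s'| := by
  rw [dist_pi_le_iff (abs_nonneg _)]
  intro i
  rw [Subtype.dist_eq, csc_val h0 h1, csc_val h0' h1', Real.dist_eq, ← sub_mul, abs_mul]
  have a : |(x i : ℝ)| ≤ 1 := abs_le.2 ⟨(x i).2.1, (x i).2.2⟩
  nlinarith [abs_nonneg (s - s')]

private theorem csc_nrm {s : ℝ} (h0 : 0 ≤ s) (h1 : s ≤ 1) (x : Q 4) :
    nrm (csc s x) = s * nrm x := by
  unfold nrm
  have : (fun i => (csc s x i : ℝ) : Fin 4 → ℝ) = s • (fun i => (x i : ℝ) : Fin 4 → ℝ) := by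
    funext i
    rw [csc_val h0 h1]
    rfl
  rw [this, norm_smul, Real.norm_eq_abs, abs_of_nonneg h0]

private theorem csc_rad {s : ℝ} (h0 : 0 < s) (h1 : s ≤ 1) {x : Q 4} (hx : 0 < nrm x) :
    rad (csc s x) = rad x := by
  have h2 : 0 < nrm (csc s x) := by
    rw [csc_nrm h0.le h1]
    positivity
  apply Subtype.ext
  funext i
  apply Subtype.ext
  have e1 := rad_spec h2 i
  have e2 := rad_spec hx i
  rw [csc_nrm h0.le h1, csc_val h0.le h1, e2, mul_assoc] at e1
  exact (mul_left_cancel₀ hx.ne' (mul_left_cancel₀ h0.ne' e1)).symm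

private theorem csc_compl (K : Set E3) {s : ℝ} (h0 : 0 < s) (h1 : s ≤ 1) {x : Q 4}
    (hx : x ∈ (coneU K)ᶜ) : csc s x ∈ (coneU K)ᶜ := by
  rintro ⟨a, b⟩
  apply hx
  rw [csc_nrm h0.le h1] at a
  have h2 : 0 < nrm x := by
    rcases (nrm_le x).1.lt_or_eq with h | h
    · exact h
    · rw [← h, mul_zero] at a
      exact absurd a (lt_irrefl 0)
  exact ⟨h2, by rw [csc_rad h0 h1 h2] at b; exact b⟩

/-- Near `x` the mixed tuples are close to `f x`. -/
private theorem cone_pris {A : Type} [AddCommGroup A] {T : Set (Q 4)}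
    {m : ℕ} {χ : Coch (Q 4) A (m + 1)} {ε : ℝ} (hε : 0 < ε)
    (hχ : ∀ x ∈ T, ∀ t : Fin (m + 1 + 1) → Q 4, (∀ i, dist (t i) x < ε) → χ t = 0)
    {f g : Q 4 → Q 4} (hf : Continuous f) (hg : Continuous g)
    (hfg : ∀ x, dist (g x) (f x) < ε) {x : Q 4} (hx : f x ∈ T) : ZeroAt (prism f g χ) x := by
  have h1 : ∀ᶠ y in 𝓝 x, dist (f y) (f x) < ε ∧ dist (g y) (f x) < ε := by
    refine Filter.Eventually.and ?_ ?_
    · exact (hf.dist continuous_const).continuousAt.eventually_lt continuousAt_const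
        (by simpa using hε)
    · exact (hg.dist continuous_const).continuousAt.eventually_lt continuousAt_const (hfg x)
  have h2 : ∀ᶠ t in 𝓝 (fun _ : Fin (m + 1) => x), ∀ k : Fin (m + 1),
      dist (f (t k)) (f x) < ε ∧ dist (g (t k)) (f x) < ε := by
    rw [eventually_all]
    exact fun k => ((continuous_apply k).tendsto (fun _ : Fin (m + 1) => x)).eventually h1
  filter_upwards [h2] with t ht
  have h3 : ∀ i : Fin (m + 1), χ (fun j => if j ≤ i.castSucc then f (t (i.predAbove j)) else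
      g (t (i.predAbove j))) = 0 := by
    intro i
    refine hχ (f x) hx _ fun j => ?_
    split_ifs
    · exact (ht _).1
    · exact (ht _).2
  simp [prism, h3]

/-- Near points of the cone the twist is invariant under scaling. -/
private theorem cone_inv {K : Set E3} {G : Type*} [CommGroup G] {τ : E3 → E3 → G}
    (hτ : IsTw Kᶜ τ) {s s' : ℝ} (h0 : 0 < s) (h1 : s ≤ 1) (h0' : 0 < s') (h1' : s' ≤ 1)
    {x : Q 4} (hx : x ∈ coneU K) {n : ℕ} :
    ∀ᶠ t in 𝓝 (fun _ : Fin n => x), ∀ i j : Fin n,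
      pbt (csc s) (pbt rad τ) (t i) (t j) = pbt rad τ (t i) (t j) ∧
      pbt rad τ (csc s (t i)) (csc s' (t i)) = 1 := by
  have e1 : ∀ᶠ y in 𝓝 x, 0 < nrm y := nrm_cont.continuousAt.eventually (lt_mem_nhds hx.1)
  have e2 : ∀ᶠ y in 𝓝 x, τ (rad y) (rad y) = 1 := by
    have h2 := hτ (rad x) hx.2
    have h3 : Tendsto (fun y : Q 4 => (fun _ : Fin 3 => rad y)) (𝓝 x)
        (𝓝 (fun _ : Fin 3 => rad x)) := by
      rw [tendsto_pi_nhds]
      exact fun _ => rad_cont hx.1
    filter_upwards [h3.eventually h2] with y hy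
    exact mul_eq_left.1 hy
  have e3 : ∀ᶠ t in 𝓝 (fun _ : Fin n => x), ∀ k : Fin n, 0 < nrm (t k) ∧
      τ (rad (t k)) (rad (t k)) = 1 := by
    rw [eventually_all]
    exact fun k => ((continuous_apply k).tendsto (fun _ : Fin n => x)).eventually (e1.and e2)
  filter_upwards [e3] with t ht i j
  refine ⟨?_, ?_⟩
  · simp only [pbt, csc_rad h0 h1 (ht i).1, csc_rad h0 h1 (ht j).1]
  · simp only [pbt, csc_rad h0 h1 (ht i).1, csc_rad h0' h1' (ht i).1, (ht i).2]

private theorem cone_step {K : Set E3} {G : Type*} [CommGroup G] {A : Type}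
    [AddCommGroup A] [DistribMulAction G A] {τ : E3 → E3 → G} (hτ : IsTw Kᶜ τ) {m : ℕ}
    {c : Coch (Q 4) A m} {ε : ℝ} (hε : 0 < ε)
    (hc1 : ∀ x ∈ (coneU K)ᶜ, ∀ t : Fin (m + 1) → Q 4, (∀ i, dist (t i) x < ε) → c t = 0)
    (hc2 : ∀ x ∈ (univ : Set (Q 4)), ∀ t : Fin (m + 1 + 1) → Q 4, (∀ i, dist (t i) x < ε) →
      dd (pbt rad τ) c t = 0)
    {s s' : ℝ} (h0 : 0 < s) (h1 : s ≤ 1) (h0' : 0 < s') (h1' : s' ≤ 1) (hs : |s' - s| < ε) :
    Cob (pbt rad τ) univ (coneU K)ᶜ (pb (csc s') c - pb (csc s) c) := by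
  have hfg : ∀ x, dist (csc s' x) (csc s x) < ε := fun x =>
    lt_of_le_of_lt (csc_dist h0'.le h1' h0.le h1 x) hs
  have hz : ∀ x ∈ (coneU K)ᶜ, ∀ r : ℝ, 0 < r → r ≤ 1 → ZeroAt (pb (csc r) c) x := by
    intro x hx r r0 r1
    have h2 : ∀ᶠ t in 𝓝 (fun _ : Fin (m + 1) => csc r x), c t = 0 := by
      have h3 : ∀ᶠ t in 𝓝 (fun _ : Fin (m + 1) => csc r x), ∀ k, dist (t k) (csc r x) < ε := by
        rw [eventually_all]
        intro k
        exact ((continuous_apply k).tendsto (fun _ : Fin (m + 1) => csc r x)).eventually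
          (Metric.ball_mem_nhds _ hε)
      filter_upwards [h3] with t ht
      exact hc1 _ (csc_compl K r0 r1 hx) t ht
    exact (tendsto_pb (csc_cont r).continuousAt).eventually h2
  cases m with
  | zero =>
    intro x _
    by_cases hx : x ∈ coneU K
    · have h2 := cone_pris (T := univ) hε hc2 (csc_cont s) (csc_cont s') hfg (mem_univ (csc s x))
      filter_upwards [h2, cone_inv hτ h0 h1 h0' h1' hx (n := 0 + 1)] with t a b
      rw [prism_zero, (b 0 0).2, one_smul] at a
      exact a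
    · filter_upwards [hz x hx s h0 h1, hz x hx s' h0' h1'] with t a b
      rw [Pi.sub_apply, a, b, sub_zero]
  | succ m =>
    refine ⟨prism (csc s) (csc s') c, fun x hx => ?_, fun x _ => ?_⟩
    · exact cone_pris hε hc1 (csc_cont s) (csc_cont s') hfg (csc_compl K h0 h1 hx)
    · by_cases hx : x ∈ coneU K
      · have h2 := cone_pris (T := univ) hε hc2 (csc_cont s) (csc_cont s') hfg
          (mem_univ (csc s x))
        filter_upwards [h2, cone_inv hτ h0 h1 h0' h1' hx (n := m + 1 + 1)] with t a b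
        have h3 := prism_succ (csc s) (csc s') (pbt rad τ) c t
        rw [a, add_zero, (b 0 0).2, one_smul] at h3
        have h4 : dd (pbt (csc s) (pbt rad τ)) (prism (csc s) (csc s') c) t =
            dd (pbt rad τ) (prism (csc s) (csc s') c) t := by
          simp only [dd, (b 0 1).1]
        rw [h4] at h3
        rw [Pi.sub_apply, Pi.sub_apply, h3, sub_self]
      · have h2 : ZeroAt (prism (csc s) (csc s') c) x :=
          cone_pris hε hc1 (csc_cont s) (csc_cont s') hfg (csc_compl K h0 h1 hx)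
        filter_upwards [hz x hx s h0 h1, hz x hx s' h0' h1', h2.dd (pbt rad τ)] with t a b d
        rw [Pi.sub_apply, Pi.sub_apply, a, b, d, sub_zero, sub_zero]

theorem cone_van {K : Set E3} (hK : IsClosed K) {G : Type*} [CommGroup G] {A : Type}
    [AddCommGroup A] [DistribMulAction G A] {τ : E3 → E3 → G} (hτ : IsTw Kᶜ τ) {m : ℕ}
    {c : Coch (Q 4) A m} (hc : Coc (pbt rad τ) univ (coneU K)ᶜ c) :
    Cob (pbt rad τ) univ (coneU K)ᶜ c := by

  have hcl : IsCompact (coneU K)ᶜ := (coneU_open hK).isClosed_compl.isCompact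
  obtain ⟨ε₁, he1, hu1⟩ := LZ.unif hcl hc.1
  obtain ⟨ε₂, he2, hu2⟩ := LZ.unif isCompact_univ hc.2
  set ε := min ε₁ ε₂ with hεd
  have hε : 0 < ε := lt_min he1 he2
  have hc1 : ∀ x ∈ (coneU K)ᶜ, ∀ t : Fin (m + 1) → Q 4, (∀ i, dist (t i) x < ε) → c t = 0 :=
    fun x hx t ht => hu1 x hx t fun i => lt_of_lt_of_le (ht i) (min_le_left _ _)
  have hc2 : ∀ x ∈ (univ : Set (Q 4)), ∀ t : Fin (m + 1 + 1) → Q 4, (∀ i, dist (t i) x < ε) →
      dd (pbt rad τ) c t = 0 :=
    fun x hx t ht => hu2 x hx t fun i => lt_of_lt_of_le (ht i) (min_le_right _ _)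
  obtain ⟨M, hM⟩ := exists_nat_one_div_lt hε
  have hMp : (0 : ℝ) < (M : ℝ) + 1 := by positivity
  have hind : ∀ j ≤ M, Cob (pbt rad τ) univ (coneU K)ᶜ
      (pb (csc (((M : ℝ) + 1 - j) / (M + 1))) c - c) := by
    intro j
    induction j with
    | zero =>
      intro _
      have h1 : ((M : ℝ) + 1 - (0 : ℕ)) / (M + 1) = 1 := by
        rw [Nat.cast_zero, sub_zero, div_self hMp.ne']
      have h2 : pb (csc (((M : ℝ) + 1 - (0 : ℕ)) / (M + 1))) c - c = 0 := by
        rw [h1]
        funext t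
        simp only [pb, csc_one, Pi.sub_apply, sub_self, Pi.zero_apply]
      rw [h2]
      exact Cob.zero _ _ _
    | succ j ih =>
      intro hj
      have hj' : (j : ℝ) + 1 ≤ M := by exact_mod_cast hj
      have hj0 : (0 : ℝ) ≤ j := Nat.cast_nonneg j
      have a1 : 0 < ((M : ℝ) + 1 - j) / (M + 1) := by
        apply div_pos _ hMp
        linarith
      have a2 : ((M : ℝ) + 1 - j) / (M + 1) ≤ 1 := by
        rw [div_le_one hMp]
        linarith
      have b1 : 0 < ((M : ℝ) + 1 - (j + 1 : ℕ)) / (M + 1) := by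
        apply div_pos _ hMp
        push_cast
        linarith
      have b2 : ((M : ℝ) + 1 - (j + 1 : ℕ)) / (M + 1) ≤ 1 := by
        rw [div_le_one hMp]
        push_cast
        linarith
      have h3 : |((M : ℝ) + 1 - (j + 1 : ℕ)) / (M + 1) - ((M : ℝ) + 1 - j) / (M + 1)| < ε := by
        rw [← sub_div]
        have : ((M : ℝ) + 1 - (j + 1 : ℕ)) - ((M : ℝ) + 1 - j) = -1 := by
          push_cast
          ring
        rw [this, abs_div, abs_neg, abs_one, abs_of_pos hMp]
        exact hM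
      exact (cone_step hτ hε hc1 hc2 a1 a2 b1 b2 h3).trans (ih (by omega))
  have h4 := hind M le_rfl
  have h5 : pb (csc (((M : ℝ) + 1 - M) / (M + 1))) c = 0 := by
    funext t
    have e1 : ((M : ℝ) + 1 - M) / (M + 1) = 1 / ((M : ℝ) + 1) := by
      congr 1
      ring
    rw [e1]
    have e0 : 0 ≤ 1 / ((M : ℝ) + 1) := by positivity
    have e2 : 1 / ((M : ℝ) + 1) ≤ 1 := by
      rw [div_le_one hMp]
      have := Nat.cast_nonneg (α := ℝ) M
      linarith
    refine hc1 (csc 0 (t 0)) ?_ _ fun i => ?_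
    · rintro ⟨a, -⟩
      rw [csc_nrm le_rfl zero_le_one, zero_mul] at a
      exact lt_irrefl 0 a
    · have e3 : csc 0 (t 0) = csc 0 (t i) := by
        funext l
        apply Subtype.ext
        rw [csc_val le_rfl zero_le_one, csc_val le_rfl zero_le_one, zero_mul, zero_mul]
      rw [e3]
      refine lt_of_le_of_lt (csc_dist e0 e2 le_rfl zero_le_one (t i)) ?_
      rw [sub_zero, abs_of_nonneg e0]
      exact hM
  rw [h5, zero_sub] at h4
  have h6 := h4.neg
  rwa [neg_neg] at h6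

end PoolFbd
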