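import Pool.Agent.Work.MP_fbd21a_gt.SphH
import Pool.Agent.Work.MP_fbd21a_gt.TmBas

/-! MODULE Count2. At most four classes in H^2_c of the interior complement modulo two.
PROOF. x_i = dd one s_i near univ (acyc_Q), s_i is a 1-cocycle near F ∪ bd 4 (x_i vanishes there).
By hypothesis s_i - s_j = dd one a near F for some i ≠ j; near bd 4 s_i - s_j = dd one b (bd_H1). a - b is
locally constant near F ∩ bd 4, so constant there (hconn); subtract the constant from a; glue a (near F)
and b (near bd): s_i - s_j = dd one g near F ∪ bd 4, and x_i - x_j = dd one (s_i - s_j - dd one g) near univ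
with s_i - s_j - dd one g zero near F ∪ bd 4. -/

open Topology Filter Set

namespace PoolFbd

private theorem c2_dd_cst {E : Type*} {A : Type*} [AddCommGroup A] (a : A) :
    dd (one : E → E → ℤˣ) (cst E 0 a) = 0 := by
  funext t
  rw [dd_deg_zero]
  simp [one, cst]

theorem count2 {F : Set (Q 4)} (hF : IsClosed F) (hconn : Conn0 (F ∩ bd 4))
    (h4 : ∀ s : Fin 5 → Coch (Q 4) (ZMod 2) 1, (∀ i, LZ F (dd one (s i))) →
      ∃ i j, i ≠ j ∧ Cob one F ∅ (s i - s j))
    (x : Fin 5 → Coch (Q 4) (ZMod 2) 2) (hx : ∀ i, Coc one univ (F ∪ bd 4) (x i)) :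
    ∃ i j, i ≠ j ∧ Cob one univ (F ∪ bd 4) (x i - x j) := by
  have hs : ∀ i, ∃ s : Coch (Q 4) (ZMod 2) 1, LZ univ (x i - dd one s) := by
    intro i
    obtain ⟨s, -, hs⟩ := ((acyc_Q 4).2 (ZMod 2)).2 1 (x i) (hx i).2
    exact ⟨s, hs⟩
  choose s hs using hs
  have hsZ : ∀ i, LZ (F ∪ bd 4) (dd one (s i)) := by
    intro i
    exact LZ.congr ((hs i).symm.mono (subset_univ _)) (hx i).1
  obtain ⟨i, j, hij, a, -, ha⟩ := h4 s (fun i => (hsZ i).mono subset_union_left)
  obtain ⟨b, -, hb⟩ := bd_H1 (φ := s i - s j)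
    (by rw [dd_sub]; exact ((hsZ i).sub (hsZ j)).mono subset_union_right)
  have hab : LZ (F ∩ bd 4) (dd one (a - b)) := by
    rw [dd_sub]
    exact LZ.trans (ha.mono inter_subset_left).symm (hb.mono inter_subset_right)
  obtain ⟨c, hc⟩ := hconn.2 (ZMod 2) (a - b) hab
  have ha' : LZ F (s i - s j - dd one (a - cst (Q 4) 0 c)) := by
    rw [dd_sub, c2_dd_cst, sub_zero]
    exact ha
  obtain ⟨g, hg1, hg2⟩ := glue (Sepd.closed hF (bd_closed 4)) (a - cst (Q 4) 0 c) b
    (by
      have e : a - cst (Q 4) 0 c - b = a - b - cst (Q 4) 0 c := by abel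
      rw [e]; exact hc)
  refine ⟨i, j, hij, s i - s j - dd one g, ?_, ?_⟩
  · apply LZ.union
    · refine LZ.trans ha' ?_
      rw [← dd_sub]
      exact hg1.symm.dd _
    · refine LZ.trans hb ?_
      rw [← dd_sub]
      exact hg2.symm.dd _
  · have h1 := (hs i).sub (hs j)
    have h2 : LZ univ (dd one (dd one g)) := LZ_dd_dd (IsTw.one univ) g
    have h3 := h1.add h2
    rw [dd_sub, dd_sub]
    convert h3 using 1
    abel

end PoolFbd
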