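import Mathlib

/-! Polar coordinates for the square norm of the plane. -/

open Topology Filter Set

namespace PoolFbd

/-- The square norm. -/
noncomputable def sqN (w : ℂ) : ℝ := max |w.re| |w.im|

theorem sqN_cont : Continuous sqN := by
  unfold sqN
  exact Complex.continuous_re.abs.max Complex.continuous_im.abs

theorem sqN_pos {w : ℂ} (h : w ≠ 0) : 0 < sqN w := by
  by_contra hc
  push Not at hc
  apply h
  have h1 : |w.re| ≤ 0 := (le_max_left _ _).trans hc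
  have h2 : |w.im| ≤ 0 := (le_max_right _ _).trans hc
  apply Complex.ext
  · exact abs_nonpos_iff.mp h1
  · exact abs_nonpos_iff.mp h2

theorem sqN_mul {r : ℝ} (hr : 0 ≤ r) (w : ℂ) : sqN ((r : ℂ) * w) = r * sqN w := by
  unfold sqN
  rw [Complex.re_ofReal_mul, Complex.im_ofReal_mul, abs_mul, abs_mul, abs_of_nonneg hr,
    mul_max_of_nonneg _ _ hr]

/-- The point of the unit square in the direction `c e^{iθ}`. -/
noncomputable def sqE (c : ℂ) (θ : ℝ) : ℂ :=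
  (((sqN (c * Complex.exp (θ * Complex.I)))⁻¹ : ℝ) : ℂ) * (c * Complex.exp (θ * Complex.I))

private theorem sq_ne {c : ℂ} (hc : c ≠ 0) (θ : ℝ) : c * Complex.exp (θ * Complex.I) ≠ 0 :=
  mul_ne_zero hc (Complex.exp_ne_zero _)

theorem sqE_cont {c : ℂ} (hc : c ≠ 0) : Continuous (sqE c) := by
  unfold sqE
  have h1 : Continuous fun θ : ℝ => c * Complex.exp (θ * Complex.I) := by fun_prop
  exact (Complex.continuous_ofReal.comp ((sqN_cont.comp h1).inv₀
    fun θ => (sqN_pos (sq_ne hc θ)).ne')).mul h1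

theorem sqE_N {c : ℂ} (hc : c ≠ 0) (θ : ℝ) : sqN (sqE c θ) = 1 := by
  have h := sqN_pos (sq_ne hc θ)
  unfold sqE
  rw [sqN_mul (inv_nonneg.mpr h.le), inv_mul_cancel₀ h.ne']

theorem sqE_arg {c : ℂ} (hc : c ≠ 0) {θ : ℝ} (hθ : θ ∈ Ioo (-Real.pi) Real.pi) {r : ℝ}
    (hr : 0 < r) : ((r : ℂ) * sqE c θ) / c ∈ Complex.slitPlane ∧
      Complex.arg (((r : ℂ) * sqE c θ) / c) = θ := by
  have h := sqN_pos (sq_ne hc θ)
  have e : ((r : ℂ) * sqE c θ) / c =
      ((r * (sqN (c * Complex.exp (θ * Complex.I)))⁻¹ : ℝ) : ℂ) *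
        Complex.exp (θ * Complex.I) := by
    unfold sqE
    rw [div_eq_iff hc]
    push_cast
    ring
  have hpos : 0 < r * (sqN (c * Complex.exp (θ * Complex.I)))⁻¹ := mul_pos hr (inv_pos.mpr h)
  have harg : Complex.arg (((r : ℂ) * sqE c θ) / c) = θ := by
    rw [e, Complex.arg_real_mul _ hpos, Complex.exp_mul_I]
    exact Complex.arg_cos_add_sin_mul_I ⟨hθ.1, hθ.2.le⟩
  refine ⟨?_, harg⟩
  rw [Complex.mem_slitPlane_iff_arg, harg]
  refine ⟨hθ.2.ne, ?_⟩
  rw [e]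
  exact mul_ne_zero (Complex.ofReal_ne_zero.mpr hpos.ne') (Complex.exp_ne_zero _)

theorem sqE_inv {c : ℂ} (hc : c ≠ 0) {w : ℂ} (hw : w / c ∈ Complex.slitPlane) :
    ((sqN w : ℝ) : ℂ) * sqE c (Complex.arg (w / c)) = w := by
  have hw0 : w / c ≠ 0 := Complex.slitPlane_ne_zero hw
  have hn : 0 < ‖w / c‖ := norm_pos_iff.mpr hw0
  have hwne : w ≠ 0 := by
    rintro rfl
    exact hw0 (zero_div c)
  have e : c * Complex.exp ((Complex.arg (w / c) : ℝ) * Complex.I) =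
      ((‖w / c‖⁻¹ : ℝ) : ℂ) * w := by
    have h1 := Complex.norm_mul_exp_arg_mul_I (w / c)
    have h2 : Complex.exp ((Complex.arg (w / c) : ℝ) * Complex.I) =
        ((‖w / c‖⁻¹ : ℝ) : ℂ) * (w / c) := by
      rw [Complex.ofReal_inv, eq_inv_mul_iff_mul_eq₀ (Complex.ofReal_ne_zero.mpr hn.ne')]
      exact h1
    rw [h2]
    field_simp
  unfold sqE
  rw [e, sqN_mul (inv_nonneg.mpr hn.le)]
  have hN := sqN_pos hwne
  rw [mul_inv, inv_inv]
  push_cast
  have h3 : ((sqN w : ℝ) : ℂ) ≠ 0 := Complex.ofReal_ne_zero.mpr hN.ne'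
  have h4 : ((‖w / c‖ : ℝ) : ℂ) ≠ 0 := Complex.ofReal_ne_zero.mpr hn.ne'
  field_simp

theorem sq_arg_cont {X : Type*} [TopologicalSpace X] {f : X → ℂ} {s : Set X}
    (hf : ContinuousOn f s) (h : ∀ x ∈ s, f x ∈ Complex.slitPlane) :
    ContinuousOn (fun x => Complex.arg (f x)) s := by
  intro x hx
  exact (Complex.continuousAt_arg (h x hx)).comp_continuousWithinAt (hf x hx)

end PoolFbd
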