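import Pool.Agent.Work.MP_fbd21a_gt.FlDefs
import Pool.Agent.Work.MP_fbd21a_gt.SqPol

/-! MODULE CylC (MATHLIB ONLY essentially). Product charts of the boundary of the four-cube.
Let i, j, k, l be the four coordinates in some order, p ∈ E3 with |p k| < 1 and |p l| < 1. Then max(|p i|, |p j|) = 1.
With the complex number c = p i + I p j ≠ 0 the chart is
  ψ x = (arg ((x i + I x j) / c), x k, x l) on {x | |x k| < 1, |x l| < 1, (x i + I x j)/c ∈ Complex.slitPlane}, onto
  {(θ, a, b) | -π < θ < π, |a| < 1, |b| < 1}, with inverse (θ, a, b) ↦ x, x k = a, x l = b,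
  (x i + I x j) = c e^{iθ} / N(c e^{iθ}), N(w) = max |re w| |im w|. -/

open Topology Filter Set

namespace PoolFbd

private noncomputable def cyw (i j : Fin 4) (x : E3) : ℂ := ⟨(x.1 i : ℝ), (x.1 j : ℝ)⟩

private theorem cy_coord (m : Fin 4) : Continuous fun x : E3 => (x.1 m : ℝ) :=
  continuous_subtype_val.comp ((continuous_apply m).comp continuous_subtype_val)

private theorem cyw_cont (i j : Fin 4) : Continuous (cyw i j) := by
  have h : cyw i j = fun x : E3 => (((x.1 i : ℝ)) : ℂ) + (((x.1 j : ℝ)) : ℂ) * Complex.I := by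
    funext v
    exact Complex.mk_eq_add_mul_I _ _
  rw [h]
  exact (Complex.continuous_ofReal.comp (cy_coord i)).add
    ((Complex.continuous_ofReal.comp (cy_coord j)).mul continuous_const)

private theorem cy_re {c : ℂ} (hc : c ≠ 0) (θ : ℝ) : (sqE c θ).re ∈ Icc (-1 : ℝ) 1 := by
  have h := sqE_N hc θ
  have h1 : |(sqE c θ).re| ≤ 1 := by
    rw [← h]
    exact le_max_left _ _
  rw [abs_le] at h1
  exact h1

private theorem cy_im {c : ℂ} (hc : c ≠ 0) (θ : ℝ) : (sqE c θ).im ∈ Icc (-1 : ℝ) 1 := by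
  have h := sqE_N hc θ
  have h1 : |(sqE c θ).im| ≤ 1 := by
    rw [← h]
    exact le_max_right _ _
  rw [abs_le] at h1
  exact h1

private theorem cy_le : (-1 : ℝ) ≤ 1 := by norm_num

open Classical in
/-- The inverse chart as a map to the cube. -/
private noncomputable def cyq {c : ℂ} (hc : c ≠ 0) (i j k : Fin 4) (v : V3) : Q 4 := fun m =>
  if m = i then ⟨(sqE c (v 0)).re, cy_re hc _⟩ else if m = j then ⟨(sqE c (v 0)).im, cy_im hc _⟩
  else if m = k then projIcc (-1) 1 cy_le (v 1) else projIcc (-1) 1 cy_le (v 2)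

private theorem cyq_i {c : ℂ} (hc : c ≠ 0) (i j k : Fin 4) (v : V3) :
    (cyq hc i j k v i : ℝ) = (sqE c (v 0)).re := by
  unfold cyq
  rw [if_pos rfl]

private theorem cyq_j {c : ℂ} (hc : c ≠ 0) {i j : Fin 4} (k : Fin 4) (hij : j ≠ i) (v : V3) :
    (cyq hc i j k v j : ℝ) = (sqE c (v 0)).im := by
  unfold cyq
  rw [if_neg hij, if_pos rfl]

private theorem cyq_k {c : ℂ} (hc : c ≠ 0) {i j k : Fin 4} (hki : k ≠ i) (hkj : k ≠ j) (v : V3) :
    cyq hc i j k v k = projIcc (-1) 1 cy_le (v 1) := by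
  unfold cyq
  rw [if_neg hki, if_neg hkj, if_pos rfl]

private theorem cyq_l {c : ℂ} (hc : c ≠ 0) {i j k l : Fin 4} (hli : l ≠ i) (hlj : l ≠ j)
    (hlk : l ≠ k) (v : V3) : cyq hc i j k v l = projIcc (-1) 1 cy_le (v 2) := by
  unfold cyq
  rw [if_neg hli, if_neg hlj, if_neg hlk]

private theorem cyq_bd {c : ℂ} (hc : c ≠ 0) {i j : Fin 4} (k : Fin 4) (hij : j ≠ i) (v : V3) :
    cyq hc i j k v ∈ bd 4 := by
  have h := sqE_N hc (v 0)
  unfold sqN at h
  rcases max_choice |(sqE c (v 0)).re| |(sqE c (v 0)).im| with h1 | h1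
  · rw [h1] at h
    refine ⟨i, ?_⟩
    rw [cyq_i]
    rcases eq_or_eq_neg_of_abs_eq h with h2 | h2
    · exact Or.inr h2
    · exact Or.inl h2
  · rw [h1] at h
    refine ⟨j, ?_⟩
    rw [cyq_j hc k hij]
    rcases eq_or_eq_neg_of_abs_eq h with h2 | h2
    · exact Or.inr h2
    · exact Or.inl h2

private theorem cyq_cont {c : ℂ} (hc : c ≠ 0) (i j k : Fin 4) : Continuous (cyq hc i j k) := by
  have h0 : Continuous fun v : V3 => sqE c (v 0) := (sqE_cont hc).comp (continuous_apply 0)
  refine continuous_pi fun m => ?_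
  unfold cyq
  by_cases h1 : m = i
  · simp only [h1, if_true]
    exact Continuous.subtype_mk (Complex.continuous_re.comp h0) _
  · simp only [h1, if_false]
    by_cases h2 : m = j
    · simp only [h2, if_true]
      exact Continuous.subtype_mk (Complex.continuous_im.comp h0) _
    · simp only [h2, if_false]
      by_cases h3 : m = k
      · simp only [h3, if_true]
        exact continuous_projIcc.comp (continuous_apply 1)
      · simp only [h3, if_false]
        exact continuous_projIcc.comp (continuous_apply 2)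

private theorem cy_proj {t : ℝ} (h : |t| ≤ 1) : (projIcc (-1) 1 cy_le t : ℝ) = t := by
  rw [abs_le] at h
  rw [projIcc_of_mem cy_le ⟨h.1, h.2⟩]

/-- On the source the square norm is one. -/
private theorem cy_one {i j k l : Fin 4} (hcov : ∀ m, m = i ∨ m = j ∨ m = k ∨ m = l) {x : E3}
    (hk : |(x.1 k : ℝ)| < 1) (hl : |(x.1 l : ℝ)| < 1) : sqN (cyw i j x) = 1 := by
  have hle : ∀ m, |(x.1 m : ℝ)| ≤ 1 := fun m => abs_le.mpr (x.1 m).2
  apply le_antisymm
  · exact max_le (hle i) (hle j)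
  · obtain ⟨m, hm⟩ := x.2
    have hm' : |(x.1 m : ℝ)| = 1 := by
      rcases hm with h | h
      · rw [h]; norm_num
      · rw [h]; norm_num
    rcases hcov m with rfl | rfl | rfl | rfl
    · rw [← hm']
      exact le_max_left _ _
    · rw [← hm']
      exact le_max_right _ _
    · linarith
    · linarith

private noncomputable def cyO {c : ℂ} (hc : c ≠ 0) {i j k l : Fin 4}
    (hcov : ∀ m, m = i ∨ m = j ∨ m = k ∨ m = l) (hji : j ≠ i) (hki : k ≠ i) (hkj : k ≠ j)
    (hli : l ≠ i) (hlj : l ≠ j) (hlk : l ≠ k) : OpenPartialHomeomorph E3 V3 where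
  toFun x := ![Complex.arg (cyw i j x / c), (x.1 k : ℝ), (x.1 l : ℝ)]
  invFun v := ⟨cyq hc i j k v, cyq_bd hc k hji v⟩
  source := {x | (|(x.1 k : ℝ)| < 1 ∧ |(x.1 l : ℝ)| < 1) ∧ cyw i j x / c ∈ Complex.slitPlane}
  target := {v | v 0 ∈ Ioo (-Real.pi) Real.pi ∧ |v 1| < 1 ∧ |v 2| < 1}
  map_source' x hx := by
    have h1 := Complex.mem_slitPlane_iff_arg.mp hx.2
    exact ⟨⟨Complex.neg_pi_lt_arg _, lt_of_le_of_ne (Complex.arg_le_pi _) h1.1⟩, hx.1.1, hx.1.2⟩
  map_target' v hv := by
    refine ⟨⟨?_, ?_⟩, ?_⟩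
    · change |(cyq hc i j k v k : ℝ)| < 1
      rw [cyq_k hc hki hkj, cy_proj hv.2.1.le]
      exact hv.2.1
    · change |(cyq hc i j k v l : ℝ)| < 1
      rw [cyq_l hc hli hlj hlk, cy_proj hv.2.2.le]
      exact hv.2.2
    · have h1 := (sqE_arg hc hv.1 one_pos).1
      have e : cyw i j ⟨cyq hc i j k v, cyq_bd hc k hji v⟩ = ((1 : ℝ) : ℂ) * sqE c (v 0) := by
        rw [Complex.ofReal_one, one_mul]
        apply Complex.ext
        · exact cyq_i hc i j k v
        · exact cyq_j hc k hji v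
      change cyw i j ⟨cyq hc i j k v, cyq_bd hc k hji v⟩ / c ∈ Complex.slitPlane
      rw [e]
      exact h1
  left_inv' x hx := by
    have h1 := sqE_inv hc hx.2
    rw [cy_one hcov hx.1.1 hx.1.2, Complex.ofReal_one, one_mul] at h1
    apply Subtype.ext
    funext m
    apply Subtype.ext
    rcases hcov m with rfl | rfl | rfl | rfl
    · change (cyq hc m j k _ m : ℝ) = _
      rw [cyq_i]
      exact congrArg Complex.re h1
    · change (cyq hc i m k _ m : ℝ) = _
      rw [cyq_j hc k hji]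
      exact congrArg Complex.im h1
    · change (cyq hc i j m _ m : ℝ) = _
      rw [cyq_k hc hki hkj]
      exact cy_proj hx.1.1.le
    · change (cyq hc i j k _ m : ℝ) = _
      rw [cyq_l hc hli hlj hlk]
      exact cy_proj hx.1.2.le
  right_inv' v hv := by
    have h1 := (sqE_arg hc hv.1 one_pos).2
    have e : cyw i j ⟨cyq hc i j k v, cyq_bd hc k hji v⟩ = ((1 : ℝ) : ℂ) * sqE c (v 0) := by
      rw [Complex.ofReal_one, one_mul]
      apply Complex.ext
      · exact cyq_i hc i j k v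
      · exact cyq_j hc k hji v
    funext m
    fin_cases m
    · change Complex.arg (cyw i j ⟨cyq hc i j k v, cyq_bd hc k hji v⟩ / c) = v 0
      rw [e]
      exact h1
    · change (cyq hc i j k v k : ℝ) = v 1
      rw [cyq_k hc hki hkj]
      exact cy_proj hv.2.1.le
    · change (cyq hc i j k v l : ℝ) = v 2
      rw [cyq_l hc hli hlj hlk]
      exact cy_proj hv.2.2.le
  open_source := ((isOpen_lt (cy_coord k).abs continuous_const).inter
    (isOpen_lt (cy_coord l).abs continuous_const)).inter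
    (Complex.isOpen_slitPlane.preimage ((cyw_cont i j).div_const c))
  open_target := (isOpen_Ioo.preimage (continuous_apply 0)).inter
    ((isOpen_lt (continuous_apply 1).abs continuous_const).inter
    (isOpen_lt (continuous_apply 2).abs continuous_const))
  continuousOn_toFun := by
    refine continuousOn_pi.mpr fun m => ?_
    fin_cases m
    · exact sq_arg_cont ((cyw_cont i j).div_const c).continuousOn fun _ hx => hx.2
    · exact (cy_coord k).continuousOn
    · exact (cy_coord l).continuousOn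
  continuousOn_invFun := (Continuous.subtype_mk (cyq_cont hc i j k) _).continuousOn

theorem cyl_chart (i j k l : Fin 4) (hσ : Function.Injective ![i, j, k, l]) (p : E3)
    (hk : |(p.1 k : ℝ)| < 1) (hl : |(p.1 l : ℝ)| < 1) :
    ∃ ψ : OpenPartialHomeomorph E3 V3, p ∈ ψ.source ∧ ∀ x ∈ ψ.source,
      ψ x 1 = (x.1 k : ℝ) ∧ ψ x 2 = (x.1 l : ℝ) := by
  have hne : ∀ a b : Fin 4, a ≠ b → (![i, j, k, l] : Fin 4 → Fin 4) a ≠ ![i, j, k, l] b :=
    fun a b hab h => hab (hσ h)
  have hsur : Function.Surjective ![i, j, k, l] := Finite.surjective_of_injective hσ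
  have hcov : ∀ m, m = i ∨ m = j ∨ m = k ∨ m = l := by
    intro m
    obtain ⟨a, ha⟩ := hsur m
    fin_cases a
    · exact Or.inl ha.symm
    · exact Or.inr (Or.inl ha.symm)
    · exact Or.inr (Or.inr (Or.inl ha.symm))
    · exact Or.inr (Or.inr (Or.inr ha.symm))
  have h1 := cy_one hcov hk hl
  have hc : cyw i j p ≠ 0 := by
    intro h0
    rw [h0] at h1
    simp [sqN] at h1
  refine ⟨cyO hc hcov (hne 1 0 (by decide)) (hne 2 0 (by decide)) (hne 2 1 (by decide))
    (hne 3 0 (by decide)) (hne 3 1 (by decide)) (hne 3 2 (by decide)), ⟨⟨hk, hl⟩, ?_⟩,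
    fun x _ => ⟨rfl, rfl⟩⟩
  rw [div_self hc]
  exact Complex.one_mem_slitPlane

end PoolFbd
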