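import Pool.Agent.Work.MP_fbd21a_gt.JRes
import Pool.Agent.Work.MP_fbd21a_gt.Ret

/-! MODULE Ext3. Extending twisted cochains from the sphere E3 to the cube near bd 4.
ext3 τ z (t) = τ(t0, io (rad t0)) • z(rad ∘ t).
PROOFS. Near x ∈ bd 4 \ F write x' = io (rad x); io ∘ rad is continuous at x and fixes x, so
near x: τ(x,y) = τ(x,x') τ(x',y') τ(y',y) (IsTw, SymTw.tw, four points close to x), τ(x',y') = τ₃(rad x, rad y)
(SymTw.res at rad x, rad_cont_bd), τ(x,x) = 1. ext3_dd: the zeroth face of dd τ (ext3 z) is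
τ(t0,t1) τ(t1,t1') • z(rad t1..) = τ(t0,t0') τ₃(rad t0, rad t1) • z(..). Near x ∈ bd 4 ∩ F everything vanishes
(z vanishes near rad x ∈ K, so does ext3 z near x).
ext3_res: near Kᶜ τ(io x, io x) = 1, rad (io x) = x; near K both vanish.
ext3_cob: `ret` with f = id, g = io ∘ rad, S = S' = bd 4, Z = Z' = F ∩ bd 4 (pbt id τ = τ by rfl).
ext3_tr: pb io v = dd τ₃ s near univ, s zero near K: ext3 (pb io v) = ext3 (dd τ₃ s) = dd τ (ext3 s)
near bd 4 (degree 0: pb io v zero near univ); combine with ext3_cob. -/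

open Topology Filter Set

namespace PoolFbd

/-- Extension of a twisted cochain of the sphere to the cube near the boundary. -/
noncomputable def ext3 {A : Type} [AddCommGroup A] (τ : Q 4 → Q 4 → ℤˣ) {n : ℕ}
    (z : Coch E3 A n) : Coch (Q 4) A n :=
  fun t => τ (t 0) (io (rad (t 0))) • z (fun j => rad (t j))

variable {F : Set (Q 4)} {rb : Q 4 → Q 4} {K : Set E3} {τ : Q 4 → Q 4 → ℤˣ} {η : Q 4 → ℤˣ}
  {τ₃ : E3 → E3 → ℤˣ} {η₃ : E3 → ℤˣ} {A : Type} [AddCommGroup A] {n : ℕ}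

private theorem ext3_zeroAt {x : Q 4} (hx : x ∈ bd 4) {z : Coch E3 A n}
    (hz : ZeroAt z (rad x)) : ZeroAt (ext3 τ z) x := by
  have h := (tendsto_pb (n := n + 1) (rad_cont_bd hx)).eventually hz
  filter_upwards [h] with t ht
  simp only [ext3]
  rw [ht, smul_zero]

private theorem ext3_lz_univ {z : Coch E3 A n} (hz : LZ univ z) : LZ (bd 4) (ext3 τ z) :=
  fun x hx => ext3_zeroAt hx (hz (rad x) (mem_univ _))

private theorem ext3_sub (z z' : Coch E3 A n) : ext3 τ (z - z') = ext3 τ z - ext3 τ z' := by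
  funext t
  simp only [ext3, Pi.sub_apply, smul_sub]

private theorem ext3_iorad {x : Q 4} (hx : x ∈ bd 4) : ContinuousAt (fun y => io (rad y)) x :=
  (continuous_subtype_val.continuousAt (x := rad x)).comp (rad_cont_bd hx)

theorem ext3_lz (hS : Surf4 F rb K) {z : Coch E3 A n} (hz : LZ K z) :
    LZ (F ∩ bd 4) (ext3 τ z) := by
  intro x hx
  apply ext3_zeroAt hx.2
  apply hz
  rw [hS.fk, io_rad hx.2]
  exact hx.1

theorem ext3_dd (hS : Surf4 F rb K) (hT : SymTw F rb τ η τ₃ η₃) {z : Coch E3 A n}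
    (hz : LZ K z) : LZ (bd 4) (dd τ (ext3 τ z) - ext3 τ (dd τ₃ z)) := by
  intro x hx
  by_cases hxF : x ∈ F
  · have h1 : ZeroAt z (rad x) := by
      apply hz
      rw [hS.fk, io_rad hx]
      exact hxF
    have h2 : ZeroAt (dd τ (ext3 τ z)) x := (ext3_zeroAt hx h1).dd τ
    have h3 : ZeroAt (ext3 τ (dd τ₃ z)) x := ext3_zeroAt hx (h1.dd τ₃)
    filter_upwards [h2, h3] with t e1 e2
    rw [Pi.sub_apply, e1, e2, sub_zero]
  · have hir : Tendsto (fun y => io (rad y)) (𝓝 x) (𝓝 x) := by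
      have h9 : Tendsto (fun y => io (rad y)) (𝓝 x) (𝓝 (io (rad x))) := (ext3_iorad hx).tendsto
      rwa [io_rad hx] at h9
    have h0 : ∀ j : Fin (n + 1 + 1), Tendsto (fun t : Fin (n + 1 + 1) → Q 4 => t j)
        (𝓝 (fun _ => x)) (𝓝 x) := fun j => (continuous_apply j).tendsto (fun _ => x)
    have htw := hT.tw x hxF
    have T1 : Tendsto (fun t : Fin (n + 1 + 1) → Q 4 => (![t 0, t 1, io (rad (t 1))] : Fin 3 → Q 4))
        (𝓝 (fun _ => x)) (𝓝 (fun _ => x)) := by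
      rw [tendsto_pi_nhds]
      intro j
      fin_cases j
      · exact h0 0
      · exact h0 1
      · exact hir.comp (h0 1)
    have T2 : Tendsto (fun t : Fin (n + 1 + 1) → Q 4 => (![t 0, io (rad (t 0)), io (rad (t 1))] : Fin 3 → Q 4))
        (𝓝 (fun _ => x)) (𝓝 (fun _ => x)) := by
      rw [tendsto_pi_nhds]
      intro j
      fin_cases j
      · exact h0 0
      · exact hir.comp (h0 0)
      · exact hir.comp (h0 1)
    have hres := hT.res (rad x) (by
      have : (rad x).1 = x := io_rad hx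
      rw [this]
      exact hxF)
    have T3 : Tendsto (fun t : Fin (n + 1 + 1) → Q 4 => (fun j : Fin 2 => rad (t ⟨j.1, by omega⟩)))
        (𝓝 (fun _ => x)) (𝓝 (fun _ => rad x)) := by
      rw [tendsto_pi_nhds]
      intro j
      exact (rad_cont_bd hx).tendsto.comp (h0 _)
    filter_upwards [T1.eventually htw, T2.eventually htw, T3.eventually hres] with t e1 e2 e3
    have e1' : τ (t 0) (t 1) * τ (t 1) (io (rad (t 1))) = τ (t 0) (io (rad (t 1))) := e1
    have e2' : τ (t 0) (io (rad (t 0))) * τ (io (rad (t 0))) (io (rad (t 1))) =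
      τ (t 0) (io (rad (t 1))) := e2
    have e3' : τ (io (rad (t 0))) (io (rad (t 1))) = τ₃ (rad (t 0)) (rad (t 1)) := e3
    have hA : τ (t 0) (t 1) • ext3 τ z (fun j => t j.succ) =
        τ (t 0) (io (rad (t 0))) • (τ₃ (rad (t 0)) (rad (t 1)) • z (fun j => rad (t j.succ))) := by
      show τ (t 0) (t 1) • (τ (t 1) (io (rad (t 1))) • z (fun j => rad (t j.succ))) = _
      rw [smul_smul, smul_smul, e1', ← e2', e3']
    have hB : ∀ i : Fin (n + 1), (-1 : ℤ) ^ ((i : ℕ) + 1) • ext3 τ z (fun j => t (i.succ.succAbove j)) =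
        τ (t 0) (io (rad (t 0))) • ((-1 : ℤ) ^ ((i : ℕ) + 1) • z (fun j => rad (t (i.succ.succAbove j)))) := by
      intro i
      simp only [ext3]
      rw [Fin.succ_succAbove_zero, smul_comm]
    rw [Pi.sub_apply, sub_eq_zero]
    show τ (t 0) (t 1) • ext3 τ z (fun j => t j.succ) +
      ∑ i : Fin (n + 1), (-1 : ℤ) ^ ((i : ℕ) + 1) • ext3 τ z (fun j => t (i.succ.succAbove j)) =
      τ (t 0) (io (rad (t 0))) • (τ₃ (rad (t 0)) (rad (t 1)) • z (fun j => rad (t j.succ)) +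
      ∑ i : Fin (n + 1), (-1 : ℤ) ^ ((i : ℕ) + 1) • z (fun j => rad (t (i.succ.succAbove j))))
    rw [hA, Finset.sum_congr rfl (fun i _ => hB i), ← Finset.smul_sum, ← smul_add]

private theorem ext3_one (hT : SymTw F rb τ η τ₃ η₃) {y : E3} (hy : io y ∉ F) :
    ∀ᶠ u in 𝓝 y, τ (io u) (io u) = 1 := by
  have htw := hT.tw (io y) hy
  have T : Tendsto (fun (u : E3) (_ : Fin 3) => io u) (𝓝 y) (𝓝 (fun _ => io y)) := by
    rw [tendsto_pi_nhds]
    intro j
    exact (continuous_subtype_val (p := fun x : Q 4 => x ∈ bd 4)).tendsto y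
  filter_upwards [T.eventually htw] with u hu
  have hu' : τ (io u) (io u) * τ (io u) (io u) = τ (io u) (io u) := hu
  exact mul_eq_left.1 hu'

theorem ext3_res (hS : Surf4 F rb K) (hT : SymTw F rb τ η τ₃ η₃) {z : Coch E3 A n}
    (hz : LZ K z) : LZ univ (pb io (ext3 τ z) - z) := by
  intro y _
  have key : ∀ t : Fin (n + 1) → E3, (pb io (ext3 τ z) - z) t =
      τ (io (t 0)) (io (t 0)) • z t - z t := by
    intro t
    simp only [Pi.sub_apply, pb, ext3, rad_io]
  by_cases hy : y ∈ K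
  · filter_upwards [hz y hy] with t ht
    rw [key, ht, smul_zero, sub_zero]
  · have h1 := ext3_one hT (y := y) (fun h => hy ((hS.fk y).2 h))
    have h2 := ((continuous_apply 0).tendsto (fun _ : Fin (n + 1) => y)).eventually h1
    filter_upwards [h2] with t ht
    rw [key, ht, one_smul, sub_self]

theorem ext3_coc (hS : Surf4 F rb K) (hT : SymTw F rb τ η τ₃ η₃) {z : Coch E3 A n}
    (hz : Coc τ₃ univ K z) : Coc τ (bd 4) (F ∩ bd 4) (ext3 τ z) :=
  ⟨ext3_lz hS hz.1, LZ.congr (ext3_dd hS hT hz.1) (ext3_lz_univ hz.2)⟩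

theorem res_coc_bd (hS : Surf4 F rb K) (hT : SymTw F rb τ η τ₃ η₃) {v : Coch (Q 4) A n}
    (hv : Coc τ (bd 4) (F ∩ bd 4) v) : Coc τ₃ univ K (pb io v) := by
  have hio : ∀ y : E3, ContinuousAt io y := fun y => continuous_subtype_val.continuousAt
  have h1 : LZ K (pb io v) :=
    LZ.pb (S' := F ∩ bd 4) (fun y hy => ⟨hio y, (hS.fk y).1 hy, y.2⟩) hv.1
  refine ⟨h1, ?_⟩
  intro y _
  by_cases hy : y ∈ K
  · exact (h1 y hy).dd τ₃
  · have hres := hT.res y (fun h => hy ((hS.fk y).2 h))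
    have h2 := (tendsto_face (fun j : Fin 2 => (⟨j.1, by omega⟩ : Fin (n + 1 + 1))) y).eventually hres
    have h3 : ZeroAt (pb io (dd τ v)) y :=
      (tendsto_pb (hio y)).eventually (hv.2 (io y) y.2)
    filter_upwards [h2, h3] with t e2 e3
    have e2' : τ (io (t 0)) (io (t 1)) = τ₃ (t 0) (t 1) := e2
    rw [← e3]
    simp only [dd, pb]
    rw [e2']

theorem ext3_cob (hS : Surf4 F rb K) (hT : SymTw F rb τ η τ₃ η₃) {v : Coch (Q 4) A n}
    (hv : Coc τ (bd 4) (F ∩ bd 4) v) : Cob τ (bd 4) (F ∩ bd 4) (v - ext3 τ (pb io v)) := by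
  have hb : ∀ x ∈ (bd 4 : Set (Q 4)) ∪ (F ∩ bd 4), x ∈ bd 4 := fun x hx => hx.elim id (fun h => h.2)
  have h := ret (f := id) (g := fun x => io (rad x)) (S := bd 4) (Z := F ∩ bd 4) (S' := bd 4)
    (Z' := F ∩ bd 4) (fun x _ => continuousAt_id) (fun x hx => ext3_iorad (hb x hx))
    (fun x hx => (io_rad (hb x hx)).symm) (fun x hx => hx) (fun x hx => hx) hv
  exact h

theorem ext3_tr (hS : Surf4 F rb K) (hT : SymTw F rb τ η τ₃ η₃) {v : Coch (Q 4) A n}
    (hv : Coc τ (bd 4) (F ∩ bd 4) v) (h : Cob τ₃ univ K (pb io v)) :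
    Cob τ (bd 4) (F ∩ bd 4) v := by
  have h0 := ext3_cob hS hT hv
  cases n with
  | zero =>
    have h1 : LZ (bd 4) (ext3 τ (pb io v)) := ext3_lz_univ h
    exact LZ.congr h0 h1
  | succ n =>
    obtain ⟨s, hs1, hs2⟩ := h
    have h1 : LZ (bd 4) (ext3 τ (pb io v) - ext3 τ (dd τ₃ s)) := by
      rw [← ext3_sub]
      exact ext3_lz_univ hs2
    have h2 : LZ (bd 4) (ext3 τ (pb io v) - dd τ (ext3 τ s)) := h1.trans (ext3_dd hS hT hs1).symm
    have h3 : Cob τ (bd 4) (F ∩ bd 4) (ext3 τ (pb io v)) := ⟨ext3 τ s, ext3_lz hS hs1, h2⟩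
    have h4 := h0.add h3
    rwa [sub_add_cancel] at h4

end PoolFbd
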