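import Pool.Agent.Work.MP_fbd21a_gt.Pris
import Pool.Agent.Work.MP_fbd21a_gt.Unif
import Pool.Agent.Work.MP_fbd21a_gt.DdDd

/-! MODULE FinR. Every relative cocycle of a compact pair is cohomologous to one with finitely many
values (sign twists).
PROOF. By LZ.unif there is ε with dd τ φ = 0 on all tuples ε-close to a point of S and φ = 0 on all tuples
ε-close to a point of Z. Let N be a finite ε/2-net of S (compactness) and r : E → E with
r y ∈ N and dist y (r y) < ε/2 for all y within ε/4.. of S (any value in N ∪ {some point} otherwise; if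
S is empty everything is trivial): precisely choose for y with infDist y S small a net point within
ε/2 + small; use a net of scale ε/8. Let ψ = prism id r φ (if deg φ = n+1). For a tuple t with all
entries within ε/8 of x ∈ S, the mixed tuples (t0..ti, r ti..r tn) are ε-close to x, so by
prism_succ φ - gau (fun y => τ y (r y)) (pb r φ) = - dd τ ψ near S; ψ vanishes near Z. In degree 0:
φ y = τ(y, r y) • φ(r y) near S by prism_zero. Put φ' = gau .. (pb r φ). Its values are
± φ (tuples of net points): a finite set. φ' vanishes near Z; dd τ φ' = dd τ φ + dd dd τ ψ = 0 near S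
(LZ_dd_dd' with IsTw (S \ Z) τ, ψ zero near Z). -/

open Topology Filter Set

namespace PoolFbd

private theorem LZ_prism_eps {E A : Type*} [PseudoMetricSpace E] [AddCommGroup A] {T : Set E}
    {m : ℕ} {χ : Coch E A (m + 1)} {ε : ℝ}
    (hχ : ∀ x ∈ T, ∀ t : Fin (m + 1 + 1) → E, (∀ i, dist (t i) x < ε) → χ t = 0)
    {f g : E → E} (hfg : ∀ x ∈ T, ∀ᶠ y in 𝓝 x, dist (f y) x < ε ∧ dist (g y) x < ε) :
    LZ T (prism f g χ) := by
  intro x hx
  have h2 : ∀ᶠ t in 𝓝 (fun _ : Fin (m + 1) => x), ∀ k : Fin (m + 1),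
      dist (f (t k)) x < ε ∧ dist (g (t k)) x < ε := by
    rw [eventually_all]
    exact fun k => ((continuous_apply k).tendsto (fun _ : Fin (m + 1) => x)).eventually (hfg x hx)
  filter_upwards [h2] with t ht
  have h3 : ∀ i : Fin (m + 1), χ (fun j => if j ≤ i.castSucc then f (t (i.predAbove j)) else
      g (t (i.predAbove j))) = 0 := by
    intro i
    refine hχ x hx _ fun j => ?_
    split_ifs
    · exact (ht _).1
    · exact (ht _).2
  simp [prism, h3]

theorem fin_range {E A : Type*} [PseudoMetricSpace E] [AddCommGroup A] {S Z : Set E}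
    (hS : IsCompact S) (hZ : IsCompact Z) (hZS : Z ⊆ S) {τ : E → E → ℤˣ} (hτ : IsTw (S \ Z) τ)
    {n : ℕ} {φ : Coch E A n} (hφ : Coc τ S Z φ) :
    ∃ φ' : Coch E A n, (range φ').Finite ∧ Coc τ S Z φ' ∧ Cob τ S Z (φ - φ') := by
  classical
  rcases S.eq_empty_or_nonempty with hSe | ⟨s₀, hs₀⟩
  · refine ⟨0, (Set.finite_singleton (0 : A)).subset ?_, Coc.zero _ _ _, Cob.of_LZ ?_⟩
    · rintro _ ⟨t, rfl⟩
      rfl
    · rw [hSe]
      exact LZ.empty _
  obtain ⟨ε₁, h1, hu1⟩ := LZ.unif hS hφ.2
  obtain ⟨ε₂, h2, hu2⟩ := LZ.unif hZ hφ.1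
  obtain ⟨ε, hε, he1, he2⟩ : ∃ ε : ℝ, 0 < ε ∧ ε ≤ ε₁ ∧ ε ≤ ε₂ :=
    ⟨min ε₁ ε₂, lt_min h1 h2, min_le_left _ _, min_le_right _ _⟩
  obtain ⟨N, -, hNf, hNc⟩ := hS.finite_cover_balls (half_pos hε)
  let r : E → E := fun y => if h : ∃ p ∈ N, dist y p < ε / 2 then h.choose else s₀
  have hrN : ∀ y, r y ∈ insert s₀ N := by
    intro y
    by_cases h : ∃ p ∈ N, dist y p < ε / 2
    · have : r y = h.choose := dif_pos h
      rw [this]
      exact Or.inr h.choose_spec.1
    · have : r y = s₀ := dif_neg h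
      rw [this]
      exact Or.inl rfl
  have hr : ∀ x ∈ S, ∀ᶠ y in 𝓝 x, dist (id y) x < ε ∧ dist (r y) x < ε := by
    intro x hx
    obtain ⟨p, hp, hxp⟩ := mem_iUnion₂.1 (hNc hx)
    have a1 : ∀ᶠ y in 𝓝 x, dist y p < ε / 2 := Metric.isOpen_ball.mem_nhds hxp
    have a2 : ∀ᶠ y in 𝓝 x, dist y x < ε / 2 := Metric.ball_mem_nhds x (half_pos hε)
    filter_upwards [a1, a2] with y b1 b2
    have h : ∃ p ∈ N, dist y p < ε / 2 := ⟨p, hp, b1⟩
    have e : r y = h.choose := dif_pos h
    have h3 := h.choose_spec.2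
    rw [← e] at h3
    refine ⟨by simp only [id]; linarith, ?_⟩
    have := dist_triangle_left (r y) x y
    linarith
  have hd : LZ S (prism id r (dd τ φ)) :=
    LZ_prism_eps (fun x hx t ht => hu1 x hx t fun i => (ht i).trans_le he1) hr
  have hcob : Cob τ S Z (φ - gau (fun y => τ y (r y)) (pb r φ)) := by
    cases n with
    | zero =>
      intro x hx
      filter_upwards [hd x hx] with t ht
      rw [prism_zero, sub_eq_zero] at ht
      simp only [Pi.sub_apply, gau]
      have e : pb id φ t = φ t := rfl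
      rw [e, id] at ht
      rw [ht, sub_self]
    | succ n =>
      refine ⟨-prism id r φ, ?_, ?_⟩
      · exact (LZ_prism_eps (fun x hx t ht => hu2 x hx t fun i => (ht i).trans_le he2)
          (fun x hx => hr x (hZS hx))).neg
      · intro x hx
        filter_upwards [hd x hx] with t ht
        have h3 := prism_succ id r τ φ t
        rw [ht, add_zero] at h3
        have e : pbt id τ = τ := rfl
        have e' : pb id φ t = φ t := rfl
        rw [e, e', id] at h3
        rw [dd_neg]
        simp only [Pi.sub_apply, Pi.neg_apply, gau]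
        rw [h3]
        abel
  refine ⟨gau (fun y => τ y (r y)) (pb r φ), ?_, ⟨?_, ?_⟩, hcob⟩
  · have hf : (insert s₀ N).Finite := hNf.insert s₀
    have h3 : ((univ : Set ℤˣ) ×ˢ (Set.pi univ (fun _ : Fin (n + 1) => insert s₀ N))).Finite :=
      (Set.toFinite univ).prod (Set.Finite.pi fun _ => hf)
    refine (h3.image fun p => p.1 • φ p.2).subset ?_
    rintro _ ⟨t, rfl⟩
    exact ⟨(τ (t 0) (r (t 0)), fun j => r (t j)), ⟨mem_univ _, fun j _ => hrN _⟩, rfl⟩
  · refine LZ.gau ?_ _
    intro x hx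
    have h3 : ∀ᶠ t in 𝓝 (fun _ : Fin (n + 1) => x), ∀ k : Fin (n + 1), dist (r (t k)) x < ε := by
      rw [eventually_all]
      exact fun k => ((continuous_apply k).tendsto (fun _ : Fin (n + 1) => x)).eventually
        ((hr x (hZS hx)).mono fun y hy => hy.2)
    filter_upwards [h3] with t ht
    exact hu2 x hx _ fun i => (ht i).trans_le he2
  · have h3 : LZ S (dd τ (φ - gau (fun y => τ y (r y)) (pb r φ))) := by
      cases n with
      | zero => exact LZ.dd hcob τ
      | succ n =>
        obtain ⟨ψ, b1, b2⟩ := hcob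
        have b3 := LZ_dd_dd' hτ b1
        have b4 := (b2.dd τ).add b3
        rw [dd_sub] at b4
        simpa using b4
    have h4 := hφ.2.sub h3
    rw [dd_sub] at h4
    simpa using h4

end PoolFbd
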