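import Pool.Agent.Work.MP_fbd21a_gt.RkK
import Pool.Agent.Work.MP_fbd21a_gt.Coef5

/-! MODULE FinRel. A primitive relation between any two integral classes in the c-part, over Q_5.
PROOF. e from rkk; s_i = Itg (cup (2+2=4) (upt K5 τ) e (cmap al5 z_i)) ∈ K5. prim5: u, v not both divisible
by 5 with u • s₁ + v • s₂ = 0. w = cmap al5 (u • z₁ + v • z₂). It is in the c-part and
Itg (cup e w) = 0. CLAIM: Itg (cup x w) = 0 for every K5-valued relative cocycle x of
(univ, F ∪ bd 4): x = x₊ + x₋, x₊ = h(x - c J x), x₋ = h(x + c J x). J x₊ = c x₊, so x₊ ~ s • e (rkk) and the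
pairing is s • 0. For x₋: J x₋ = -c x₋ near univ; j_int (R = D = K5): Itg (J x₋ ∪ J w) = - Itg (x₋ ∪ w), the left
side is -c • c • Itg (x₋ ∪ w) = Itg (x₋ ∪ w); so 2 Itg = 0.
PInj K5 K5 for U = Fᶜ (pd, baer_self K5): Cob τ Fᶜ ∅ w. lv_inj (dbl_K5): Cob τ univ F w. -/

open Topology Filter Set

namespace PoolFbd

theorem finrel {F : Set (Q 4)} {rb : Q 4 → Q 4} {K : Set E3} {τ : Q 4 → Q 4 → ℤˣ} {η : Q 4 → ℤˣ}
    {τ₃ : E3 → E3 → ℤˣ} {η₃ : E3 → ℤˣ} {c : R5} (hc : c * c = -1) (hS : Surf4 F rb K)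
    (hT : SymTw F rb τ η τ₃ η₃) {e : Coch (Q 4) K5 2} (he : Coc τ univ (F ∪ bd 4) e)
    (hec : CPart η rb c e) (hsp : ∀ x : Coch (Q 4) K5 2, Coc τ univ (F ∪ bd 4) x →
        Cob τ univ (F ∪ bd 4) (Jop η rb x - c • x) → ∃ s : K5,
          Cob τ univ (F ∪ bd 4) (x - s • e))
    {z₁ z₂ : Coch (Q 4) R5 2} (h1 : Coc τ univ F z₁) (h2 : Coc τ univ F z₂)
    (hc1 : CPart η rb c z₁) (hc2 : CPart η rb c z₂) :
    ∃ u v : R5, ¬ ((5 : R5) ∣ u ∧ (5 : R5) ∣ v) ∧
      Cob τ univ F (cmap al5 (u • z₁ + v • z₂)) := by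
  have hFcl : IsClosed F := hS.tame.1
  have hZc : IsClosed (F ∪ bd 4) := hFcl.union (bd_closed 4)
  have hZ : bd 4 ⊆ F ∪ bd 4 := subset_union_right
  have hτ : IsTw (univ \ (F ∪ bd 4)) τ := hT.tw.mono fun _ hx hF => hx.2 (Or.inl hF)
  have hrZ : ∀ x ∈ F ∪ bd 4, rb x ∈ F ∪ bd 4 := by
    rintro x (hx | hx)
    · exact Or.inl ((hS.inv x).mp hx)
    · right
      rw [hS.bdry x hx]
      exact rho_bd x hx
  have heq : ∀ x ∈ univ \ (F ∪ bd 4), ∀ᶠ t in 𝓝 (fun _ : Fin 2 => x),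
      τ (rb (t 0)) (rb (t 1)) = η (t 0) * τ (t 0) (t 1) * η (t 1) :=
    fun x hx => hT.equiv x fun hF => hx.2 (Or.inl hF)
  have hanti : ∀ x ∈ (F ∪ bd 4)ᶜ, η (rb x) = - η x :=
    fun x hx => hT.anti x fun hF => hx (Or.inl hF)
  have hcc : (c : K5) * (c : K5) = -1 := by
    rw [← PadicInt.coe_mul, hc, PadicInt.coe_neg, PadicInt.coe_one]
  have hsm' : ∀ (r : R5) (a : K5), r • a = (r : K5) * a := by
    intro r a
    rw [Algebra.smul_def, PadicInt.algebraMap_apply]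
  have hsm : ∀ (r : R5) (φ : Coch (Q 4) K5 2), r • φ = (r : K5) • φ := by
    intro r φ
    funext t
    rw [Pi.smul_apply, Pi.smul_apply, hsm', smul_eq_mul]
  have hU : ∀ {φ : Coch (Q 4) K5 2}, Coc τ univ F φ → LZ (univ \ (F ∪ bd 4)) (dd τ φ) :=
    fun h => h.2.mono (subset_univ _)
  -- the classes over K5
  have g1 : Coc τ univ F (cmap al5 z₁) := cl_coc_map al5.toAddMonoidHom h1
  have g2 : Coc τ univ F (cmap al5 z₂) := cl_coc_map al5.toAddMonoidHom h2
  obtain ⟨u, v, huv, hrel⟩ := prim5 (Itg (cup (rfl : 2 + 2 = 4) (upt K5 τ) e (cmap al5 z₁)))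
    (Itg (cup (rfl : 2 + 2 = 4) (upt K5 τ) e (cmap al5 z₂)))
  refine ⟨u, v, huv, ?_⟩
  obtain ⟨w, hw⟩ : ∃ w : Coch (Q 4) K5 2, w = cmap al5 (u • z₁ + v • z₂) := ⟨_, rfl⟩
  rw [← hw]
  have hwc : Coc τ univ F w := by
    rw [hw]
    exact cl_coc_map al5.toAddMonoidHom ((cl_coc_smul u h1).add (cl_coc_smul v h2))
  have hwp : CPart η rb c w := by
    rw [hw]
    exact cpart_map al5 (cpart_add (cpart_smul u hc1) (cpart_smul v hc2))
  have hw2 : w = (u : K5) • cmap al5 z₁ + (v : K5) • cmap al5 z₂ := by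
    rw [hw, ← hsm, ← hsm]
    funext t
    simp only [cmap, Pi.add_apply, Pi.smul_apply, map_add, map_smul]
  have hew : Itg (cup (rfl : 2 + 2 = 4) (upt K5 τ) e w) = 0 := by
    rw [hw2, cj_add_right rfl hZ hτ he (hU (cl_coc_smul _ g1)) (hU (cl_coc_smul _ g2)),
      cj_smul_right rfl hZ hτ _ he (hU g1), cj_smul_right rfl hZ hτ _ he (hU g2),
      smul_eq_mul, smul_eq_mul, ← hsm', ← hsm']
    exact hrel
  have key : ∀ x : Coch (Q 4) K5 2, Coc τ univ (F ∪ bd 4) x →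
      Itg (cup (rfl : 2 + 2 = 4) (upt K5 τ) x w) = 0 := by
    intro x hx
    have hJx : Coc τ univ (F ∪ bd 4) (Jop η rb x) :=
      j_coc hS.cont (fun _ _ => mem_univ _) hrZ heq hx
    have hJJ : LZ univ (Jop η rb (Jop η rb x) + x) := j_j hS.cont hS.invol hZc hanti hx.1
    obtain ⟨xp, hxp⟩ : ∃ xp : Coch (Q 4) K5 2,
        xp = (1 / 2 : K5) • (x - (c : K5) • Jop η rb x) := ⟨_, rfl⟩
    obtain ⟨xm, hxm⟩ : ∃ xm : Coch (Q 4) K5 2,
        xm = (1 / 2 : K5) • (x + (c : K5) • Jop η rb x) := ⟨_, rfl⟩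
    have hxpc : Coc τ univ (F ∪ bd 4) xp := by
      rw [hxp]
      exact cl_coc_smul _ (hx.sub (cl_coc_smul _ hJx))
    have hxmc : Coc τ univ (F ∪ bd 4) xm := by
      rw [hxm]
      exact cl_coc_smul _ (hx.add (cl_coc_smul _ hJx))
    have hsum : x = xp + xm := by
      rw [hxp, hxm]
      funext t
      simp only [Pi.add_apply, Pi.sub_apply, Pi.smul_apply, smul_eq_mul]
      ring
    -- the plus part
    have hp : Itg (cup (rfl : 2 + 2 = 4) (upt K5 τ) xp w) = 0 := by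
      have hcob : Cob τ univ (F ∪ bd 4) (Jop η rb xp - c • xp) := by
        apply Cob.of_LZ
        intro p hp
        filter_upwards [hJJ p hp] with t ht
        have h3 : Jop η rb (Jop η rb x) t + x t = 0 := ht
        rw [hsm, hxp, j_smul, j_sub, j_smul]
        simp only [Pi.sub_apply, Pi.smul_apply, smul_eq_mul]
        linear_combination (-(1 / 2) * (c : K5)) * h3 + (1 / 2 * Jop η rb x t) * hcc
      obtain ⟨s, hs⟩ := hsp xp hxpc hcob
      rw [cj_congr_left rfl hZ hτ hxpc (cl_coc_smul s he) hs (hU hwc),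
        cj_smul_left rfl hZ hτ s he (hU hwc), hew, smul_zero]
    -- the minus part
    have hm : Itg (cup (rfl : 2 + 2 = 4) (upt K5 τ) xm w) = 0 := by
      have h3 := j_int hS hT (rfl : 2 + 2 = 4) hxmc
        (show LZ Fᶜ (dd τ w) from hwc.2.mono (subset_univ _))
      have hJm : Coc τ univ (F ∪ bd 4) (Jop η rb xm) :=
        j_coc hS.cont (fun _ _ => mem_univ _) hrZ heq hxmc
      have e1 : Itg (cup (rfl : 2 + 2 = 4) (upt K5 τ) (Jop η rb xm) (Jop η rb w)) =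
          Itg (cup (rfl : 2 + 2 = 4) (upt K5 τ) (Jop η rb xm) ((c : K5) • w)) := by
        have hcw : LZ univ (Jop η rb w - (c : K5) • w) := by
          rw [← hsm]
          exact hwp
        have hcwc : LZ (univ \ (F ∪ bd 4)) (dd τ ((c : K5) • w)) := hU (cl_coc_smul _ hwc)
        have hJw : LZ (univ \ (F ∪ bd 4)) (dd τ (Jop η rb w)) := by
          have h5 : LZ (univ \ (F ∪ bd 4)) (dd τ (Jop η rb w - (c : K5) • w)) :=
            (hcw.dd τ).mono (subset_univ _)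
          rw [dd_sub] at h5
          exact h5.congr hcwc
        exact cj_congr_right rfl hZ hτ hJm hJw hcwc (Cob.of_LZ (hcw.mono (subset_univ _)))
      have e2 : Itg (cup (rfl : 2 + 2 = 4) (upt K5 τ) (Jop η rb xm) w) =
          Itg (cup (rfl : 2 + 2 = 4) (upt K5 τ) ((-(c : K5)) • xm) w) := by
        refine cj_congr_left rfl hZ hτ hJm (cl_coc_smul _ hxmc) (Cob.of_LZ ?_) (hU hwc)
        intro p hp
        filter_upwards [hJJ p hp] with t ht
        have h3 : Jop η rb (Jop η rb x) t + x t = 0 := ht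
        rw [hxm, j_smul, j_add, j_smul]
        simp only [Pi.sub_apply, Pi.add_apply, Pi.smul_apply, smul_eq_mul]
        linear_combination (1 / 2 * (c : K5)) * h3 + (1 / 2 * Jop η rb x t) * hcc
      rw [e1, cj_smul_right rfl hZ hτ _ hJm (hU hwc), e2,
        cj_smul_left rfl hZ hτ _ hxmc (hU hwc), smul_eq_mul, smul_eq_mul] at h3
      have h4 : (2 : K5) * Itg (cup (rfl : 2 + 2 = 4) (upt K5 τ) xm w) = 0 := by
        linear_combination h3 + Itg (cup (rfl : 2 + 2 = 4) (upt K5 τ) xm w) * hcc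
      rcases mul_eq_zero.mp h4 with h5 | h5
      · exact absurd h5 (by norm_num)
      · exact h5
    rw [hsum, cj_add_left rfl hZ hτ hxpc hxmc (hU hwc), hp, hm, add_zero]
  have hpd := (pd (baer_self K5) Fᶜ hFcl.isOpen_compl).1 (upt K5 τ) (istw_upt hT.tw) 2 2 rfl
    w (by rw [dd_upt]; exact hwc.2.mono (subset_univ _)) (by
      intro x hx
      rw [invt_upt, coc_upt, compl_compl] at hx
      exact key x hx)
  rw [cob_upt] at hpd
  exact lv_inj hS.tame hFcl.isCompact hT.tw hT.nt dbl_K5 hwc hpd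

end PoolFbd
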