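import Pool.Agent.Work.MP_fbd21a_gt.JOp
import Pool.Agent.Work.MP_fbd21a_gt.SphI

/-! MODULE JInt. J reverses the sign of the pairing in the four-cube.
PROOF of j_int. j_cup (Z = F ∪ bd 4 or F): cup (J c) (J φ) = pb rb (cup c φ) near univ; cup c φ is a
relative 4-cocycle of (univ, bd 4) (cup_coc with Z = F ∪ bd 4; istw_upt, SymTw.tw), Itg_sgn
(rho = rho4 by rfl) and Itg_congr. Note rb preserves bd 4 (it is rho there).
j_int_cpart: if c₁ is in the c-part up to a relative coboundary and φ any cocycle off F, then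
Itg (cup c₁ (J φ)) = c • Itg (cup c₁ φ): J c₁ ~ c c₁ gives c Itg (c₁ ∪ J φ) = Itg (J c₁ ∪ J φ) = - Itg (c₁ ∪ φ);
multiply by c and use c² = -1 (coboundaries of the first factor do not matter: cup_cob_left, J φ is
a cocycle off F: j_coc with Z = ∅, S = Fᶜ). -/

open Topology Filter Set

namespace PoolFbd

variable {F : Set (Q 4)} {rb : Q 4 → Q 4} {K : Set E3} {τ : Q 4 → Q 4 → ℤˣ} {η : Q 4 → ℤˣ}
  {τ₃ : E3 → E3 → ℤˣ} {η₃ : E3 → ℤˣ}

private theorem jint_bd (hS : Surf4 F rb K) {x : Q 4} (hx : x ∈ bd 4) : rb x ∈ bd 4 := by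
  rw [hS.bdry x hx]
  exact rho_bd x hx

private theorem jint_Z (hS : Surf4 F rb K) : ∀ x ∈ F ∪ bd 4, rb x ∈ F ∪ bd 4 := by
  rintro x (hx | hx)
  · exact Or.inl ((hS.inv x).1 hx)
  · exact Or.inr (jint_bd hS hx)

private theorem jint_cup (hT : SymTw F rb τ η τ₃ η₃) {R D : Type} [CommRing R]
    [AddCommGroup D] [Module R D] {q p : ℕ} (hqp : q + p = 4) {c : Coch (Q 4) R q}
    (hc : Coc τ univ (F ∪ bd 4) c) {φ : Coch (Q 4) D p} (hφ : LZ Fᶜ (dd τ φ)) :
    Coc one univ (bd 4) (cup hqp (upt R τ) c φ) := by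
  have hsub : univ \ (F ∪ bd 4) ⊆ Fᶜ := fun x hx h => hx.2 (Or.inl h)
  have h1 := cup_coc (S := univ) (Z := F ∪ bd 4) (τ := upt R τ) hqp
    ((istw_upt hT.tw).mono hsub) (c := c) (φ := φ)
    (by rw [invt_upt]; exact (coc_upt τ _ _ c).2 hc)
    (by rw [dd_upt]; exact hφ.mono hsub)
  exact h1.mono (le_refl _) subset_union_right

theorem j_int (hS : Surf4 F rb K) (hT : SymTw F rb τ η τ₃ η₃) {R D : Type} [CommRing R]
    [AddCommGroup D] [Module R D] {q p : ℕ} (hqp : q + p = 4) {c : Coch (Q 4) R q}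
    (hc : Coc τ univ (F ∪ bd 4) c) {φ : Coch (Q 4) D p} (hφ : LZ Fᶜ (dd τ φ)) :
    Itg (cup hqp (upt R τ) (Jop η rb c) (Jop η rb φ)) = - Itg (cup hqp (upt R τ) c φ) := by
  have h1 := j_cup (τ := τ) (η := η) (r := rb) (Z := F ∪ bd 4) hqp hS.cont (jint_Z hS)
    (fun x hx => hT.equiv x (fun h => hx (Or.inl h))) hc.1 φ
  have h2 := jint_cup hT hqp hc hφ
  have hb : ∀ x ∈ bd 4, rb x = rho4 x := fun x hx => by
    rw [hS.bdry x hx]; rfl
  have h3 : Coc one univ (bd 4) (pb rb (cup hqp (upt R τ) c φ)) :=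
    Coc.pb (τ := one) (S' := univ) (Z' := bd 4)
      (fun x _ => ⟨hS.cont.continuousAt, mem_univ _⟩)
      (fun x hx => ⟨hS.cont.continuousAt, jint_bd hS hx⟩) h2
  rw [← Itg_sgn hS.cont hb h2]
  exact (Itg_congr h3 (Cob.of_LZ h1.symm)).symm

theorem j_int_cpart (hS : Surf4 F rb K) (hT : SymTw F rb τ η τ₃ η₃) {R D : Type} [CommRing R]
    [AddCommGroup D] [Module R D] {q p : ℕ} (hqp : q + p = 4) {a : R} (ha : a * a = -1)
    {c : Coch (Q 4) R q} (hc : Coc τ univ (F ∪ bd 4) c)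
    (hca : Cob τ univ (F ∪ bd 4) (Jop η rb c - a • c)) {φ : Coch (Q 4) D p}
    (hφ : LZ Fᶜ (dd τ φ)) :
    Itg (cup hqp (upt R τ) c (Jop η rb φ)) = a • Itg (cup hqp (upt R τ) c φ) := by
  have hJφ : LZ Fᶜ (dd τ (Jop η rb φ)) := (j_coc (S := Fᶜ) (Z := ∅) hS.cont
    (fun x hx h => hx ((hS.inv x).2 h)) (fun x hx => hx.elim)
    (fun x hx => hT.equiv x hx.1) ⟨LZ.empty φ, hφ⟩).2
  have hJc : Coc τ univ (F ∪ bd 4) (Jop η rb c) := j_coc (S := univ) (Z := F ∪ bd 4) hS.cont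
    (fun _ _ => mem_univ _) (jint_Z hS) (fun x hx => hT.equiv x (fun h => hx.2 (Or.inl h))) hc
  have h1 := jint_cup hT hqp hc hJφ
  have h2 := jint_cup hT hqp hJc hJφ
  have hsub : univ \ (F ∪ bd 4) ⊆ Fᶜ := fun x hx h => hx.2 (Or.inl h)
  have hlz : LZ (F ∪ bd 4) (Jop η rb c - a • c) := by
    refine hJc.1.sub ?_
    intro x hx
    filter_upwards [hc.1 x hx] with t ht
    rw [Pi.smul_apply, ht, smul_zero]
  have h3 : Cob one univ (bd 4) (cup hqp (upt R τ) (Jop η rb c - a • c) (Jop η rb φ)) := by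
    have := cup_cob_left (S := univ) (Z := F ∪ bd 4) (τ := upt R τ) hqp
      ((istw_upt hT.tw).mono hsub) (c := Jop η rb c - a • c) (φ := Jop η rb φ)
      (by rw [invt_upt]; exact (cob_upt τ _ _ _).2 hca) hlz
      (by rw [dd_upt]; exact hJφ.mono hsub)
    exact this.mono (le_refl _) subset_union_right
  have e1 : cup hqp (upt R τ) (Jop η rb c - a • c) (Jop η rb φ) =
      cup hqp (upt R τ) (Jop η rb c) (Jop η rb φ) - a • cup hqp (upt R τ) c (Jop η rb φ) := by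
    rw [cup_sub_left, cup_smul_left]
  rw [e1] at h3
  have h4 := Itg_congr h2 h3
  rw [Itg_smul a h1, j_int hS hT hqp hc hφ] at h4
  have h5 : a • (a • Itg (cup hqp (upt R τ) c (Jop η rb φ))) =
      - Itg (cup hqp (upt R τ) c (Jop η rb φ)) := by
    rw [smul_smul, ha, neg_smul, one_smul]
  rw [← h4, smul_neg] at h5
  exact (neg_injective h5).symm

end PoolFbd
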