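import Pool.Agent.Work.MP_fbd21a_gt.TmV1
import Pool.Agent.Work.MP_fbd21a_gt.Unif

/-! MODULE Lv. Twisted classes off F versus classes with support off F (local vanishing).
PROOF of lv_surj. v1_glob with N = univ: φ₁ = φ - dd τ ψ vanishes near N' \ F. Choose open N₁ with
F ⊆ N₁, closure N₁ ⊆ N' (F compact; e.g. a thickening). φ' t = if t 0 ∈ N₁ then 0 else φ₁ t. Near F φ' = 0;
near a point of N' \ F both φ₁ and φ' vanish; near a point outside N' t 0 ∉ N₁. So φ' = φ₁ near Fᶜ,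
φ - φ' = dd τ ψ near Fᶜ; dd τ φ' vanishes near F and near Fᶜ (dd τ φ = 0, dd dd = 0 there).
PROOF of lv_inj. φ vanishes near a neighbourhood N of F (LZ.thick), φ = dd τ ψ near Fᶜ, so ψ is a
twisted 1-cocycle near N \ F, = dd τ χ near N' \ F. ψ₁ = ψ - dd τ χ vanishes near N' \ F, cut it off as
above: ψ' = ψ₁ near Fᶜ, ψ' = 0 near F. Then φ = dd τ ψ' near Fᶜ (dd dd = 0) and near F (both 0). -/

open Topology Filter Set

namespace PoolFbd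

variable {E : Type*} [PseudoMetricSpace E] {F : Set E} {τ : E → E → ℤˣ} {A : Type}
  [AddCommGroup A]

private theorem lv_cut (hF : IsClosed F) {N : Set E} (hN : IsOpen N) {n : ℕ}
    {φ : Coch E A n} (hφ : LZ (N \ F) φ) :
    ∃ c : Coch E A n, LZ N c ∧ LZ Fᶜ (c - φ) := by
  obtain ⟨c, h1, h2⟩ := glue (Sepd.open hN hF.isOpen_compl) (0 : Coch E A n) φ (by
    intro x hx
    filter_upwards [hφ x ⟨hx.1, hx.2⟩] with t ht
    rw [Pi.sub_apply, ht, Pi.zero_apply, sub_zero])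
  rw [sub_zero] at h1
  exact ⟨c, h1, h2⟩

private theorem lv_univ {N : Set E} (hFN : F ⊆ N) {n : ℕ}
    {φ : Coch E A n} (h1 : LZ N φ) (h2 : LZ Fᶜ φ) : LZ univ φ := by
  intro x _
  by_cases hx : x ∈ F
  · exact h1 x (hFN hx)
  · exact h2 x hx

theorem lv_surj (hF : Tame F) (hFc : IsCompact F) (hτ : IsTw Fᶜ τ)
    (hn : ∀ p ∈ F, ¬ TrivAt τ F p) (h2 : Function.Bijective (fun a : A => a + a))
    {φ : Coch E A 1} (hφ : LZ Fᶜ (dd τ φ)) :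
    ∃ φ' : Coch E A 1, Coc τ univ F φ' ∧ Cob τ Fᶜ ∅ (φ - φ') := by
  obtain ⟨ψ, N', hN', hFN', -, hψ⟩ := v1_glob hF hFc hτ hn h2 isOpen_univ (subset_univ F)
    (hφ.mono (show univ \ F ⊆ Fᶜ from fun x hx => hx.2))
  obtain ⟨c, hc1, hc2⟩ := lv_cut hF.1 hN' hψ
  refine ⟨c, ⟨hc1.mono hFN', lv_univ hFN' (hc1.dd τ) ?_⟩, ψ, LZ.empty ψ, ?_⟩
  · have h3 := hc2.dd τ
    rw [dd_sub, dd_sub] at h3
    have h4 := (h3.add hφ).sub (LZ_dd_dd hτ ψ)
    convert h4 using 1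
    abel
  · have h3 := hc2.symm
    convert h3 using 1
    abel

theorem lv_inj (hF : Tame F) (hFc : IsCompact F) (hτ : IsTw Fᶜ τ)
    (hn : ∀ p ∈ F, ¬ TrivAt τ F p) (h2 : Function.Bijective (fun a : A => a + a))
    {φ : Coch E A 2} (hφ : Coc τ univ F φ) (h : Cob τ Fᶜ ∅ φ) : Cob τ univ F φ := by
  obtain ⟨ψ, -, hψ⟩ := h
  obtain ⟨N, hN, hFN, hNφ⟩ := LZ.thick hφ.1
  have hd : LZ (N \ F) (dd τ ψ) := by
    have h3 : LZ (N \ F) (φ - dd τ ψ) := hψ.mono (show N \ F ⊆ Fᶜ from fun x hx => hx.2)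
    have h4 := (hNφ.mono (show N \ F ⊆ N from fun x hx => hx.1)).sub h3
    rwa [sub_sub_cancel] at h4
  obtain ⟨χ, N', hN', hFN', hN'N, hχ⟩ := v1_glob hF hFc hτ hn h2 hN hFN hd
  obtain ⟨c, hc1, hc2⟩ := lv_cut hF.1 hN' hχ
  refine ⟨c, hc1.mono hFN', lv_univ hFN' ((hNφ.mono hN'N).sub (hc1.dd τ)) ?_⟩
  have h3 := hc2.dd τ
  rw [dd_sub, dd_sub] at h3
  have h4 := (hψ.sub h3).add (LZ_dd_dd hτ χ)
  convert h4 using 1
  abel

end PoolFbd
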