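import Pool.Agent.Work.MP_fbd21a_gt.Lam
import Pool.Agent.Work.MP_fbd21a_gt.JInt
import Pool.Agent.Work.MP_fbd21a_gt.Lv
import Pool.Agent.Work.MP_fbd21a_gt.PDThm
import Pool.Agent.Work.MP_fbd21a_gt.Ext3
import Pool.Agent.Work.MP_fbd21a_gt.Glue

/-! MODULE SurjZ. Step (ii): integral 2-classes of the knot complement in the c-part extend over the
complement of F.
PROOF. z with Coc τ₃ univ K z, CPart z. z₁ = ext3 τ z (module Ext3): relative cocycle of
(bd 4, F ∩ bd 4), pb io z₁ = z near univ (ext3_coc, ext3_res). Glue z₁ (near bd 4)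
and 0 (near F) to w (Sepd.closed, bd_closed, tame closed). e = dd τ w: relative 3-cocycle of
(univ, F ∪ bd 4).
CLAIM: e is a relative coboundary. Otherwise cogen5 for M = Coch (Q 4) R5 3 modulo the submodule of the
relative coboundaries of (univ, F ∪ bd) vanishing near F ∪ bd gives l : Coch (Q 4) R5 3 →ₗ D5 vanishing
on them with l e ≠ 0. PSur R5 D5 for U = Fᶜ (pd baer5), twist upt R5 τ (invt_upt, coc_upt, cob_upt;
Uᶜ ∪ bd = F ∪ bd), q = 3, p = 1: a₀ with LZ Fᶜ (dd τ a₀), Itg (cup e a₀) = l e ≠ 0. lv_surj (dbl_D5, SymTw.nt,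
F compact): a₁ with Coc τ univ F a₁, Cob τ Fᶜ ∅ (a₀ - a₁); Itg (cup e a₁) = Itg (cup e a₀)
(cup_cob_right, Itg_congr). a = cpr a₁. J e - c e is a relative coboundary: J w - c w is a cocycle
near bd ∪ F vanishing near F whose restriction to E3 is J z - c z = 0 near univ, so near bd 4 it is a
coboundary relative to F ∩ bd (ext3_tr; degree 2), = dd τ g with g zero near F ∩ bd; glue g (near bd) and 0
(near F): J w - c w = dd τ g' near bd ∪ F; hence dd τ (J w - c w) = J e - c e (near univ, j_dd) is a relative coboundary.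
j_int_cpart: Itg (cup e (J a₁)) = c • Itg (cup e a₁), so Itg (cup e a) = h•(1 - c c)•Itg (cup e a₁) =
Itg (cup e a₁) ≠ 0. But pb io a is a coboundary on (E3, K) by `lam`, so by `stokes`
Itg (cup e a) = Itg3 (cup z (pb io a)) = 0 (cup_cob_right on E3 with S = univ, Z = K: z relative
cocycle, pb io a = dd τ₃ s near Kᶜ; itg3_cob). Contradiction.
So e = dd τ v near univ, v zero near F ∪ bd; z' = w - v: Coc τ univ F, pb io z' = z near univ.
Finally replace z' by cpr z': CPart, restriction cpr z = z near univ (res_j, cpr_id). -/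

open Topology Filter Set

namespace PoolFbd

section gen
variable {E : Type*} [TopologicalSpace E] {A : Type*} [AddCommGroup A] [Module R5 A]
  {τ : E → E → ℤˣ} {S : Set E} {n : ℕ}

private theorem sz_lzsmul (a : R5) {φ : Coch E A n} (hφ : LZ S φ) : LZ S (a • φ) :=
  fun x hx => by
  filter_upwards [hφ x hx] with t ht
  rw [Pi.smul_apply, ht, smul_zero]

private theorem sz_ucomm (u : ℤˣ) (a : R5) (x : A) : a • (u • x) = u • (a • x) := by
  rcases Int.units_eq_one_or u with h | h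
  · rw [h, one_smul, one_smul]
  · rw [h, Units.smul_def, Units.smul_def]
    simp

omit [TopologicalSpace E] in
private theorem sz_ddsmul (a : R5) (φ : Coch E A n) : dd τ (a • φ) = a • dd τ φ := by
  have := dd_cmap τ φ (DistribMulAction.toAddMonoidHom A a)
    (fun g x => by
      show a • (g • x) = g • (a • x)
      exact sz_ucomm g a x)
  exact this

private theorem sz_cobsmul (a : R5) {Z : Set E} {φ : Coch E A n} (h : Cob τ S Z φ) :
    Cob τ S Z (a • φ) := by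
  cases n with
  | zero => exact sz_lzsmul a h
  | succ n =>
    obtain ⟨ψ, h1, h2⟩ := h
    refine ⟨a • ψ, sz_lzsmul a h1, ?_⟩
    rw [sz_ddsmul, ← smul_sub]
    exact sz_lzsmul a h2
end gen

/-- the submodule of relative coboundaries -/
private def szN (τ : Q 4 → Q 4 → ℤˣ) (Z : Set (Q 4)) : Submodule R5 (Coch (Q 4) R5 3) where
  carrier := {v | LZ Z v ∧ Cob τ univ Z v}
  add_mem' := fun ha hb => ⟨ha.1.add hb.1, ha.2.add hb.2⟩
  zero_mem' := ⟨LZ.zero Z, Cob.zero τ univ Z⟩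
  smul_mem' := fun a _ hb => ⟨sz_lzsmul a hb.1, sz_cobsmul a hb.2⟩

private theorem sz_functional {τ : Q 4 → Q 4 → ℤˣ} {Z : Set (Q 4)} {e : Coch (Q 4) R5 3}
    (hne : ¬ Cob τ univ Z e) :
    ∃ l : Coch (Q 4) R5 3 →ₗ[R5] D5, l e ≠ 0 ∧
      ∀ v : Coch (Q 4) R5 3, LZ Z v → Cob τ univ Z v → l v = 0 := by
  have hm : (szN τ Z).mkQ e ≠ 0 := by
    intro h
    rw [Submodule.mkQ_apply, Submodule.Quotient.mk_eq_zero] at h
    exact hne h.2
  obtain ⟨l, hl⟩ := cogen5 hm
  refine ⟨l.comp (szN τ Z).mkQ, hl, fun v h1 h2 => ?_⟩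
  rw [LinearMap.comp_apply]
  have : (szN τ Z).mkQ v = 0 := by
    rw [Submodule.mkQ_apply, Submodule.Quotient.mk_eq_zero]
    exact ⟨h1, h2⟩
  rw [this, map_zero]

private theorem sz_neg1 : Continuous neg1 := by
  unfold neg1
  exact (continuous_subtype_val.neg).subtype_mk _

private theorem sz_rho : Continuous rho := by
  apply continuous_pi
  intro i
  fin_cases i
  · exact sz_neg1.comp (continuous_apply 0)
  · exact sz_neg1.comp (continuous_apply 1)
  · exact sz_neg1.comp (continuous_apply 2)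
  · exact continuous_apply 3

private theorem sz_rho3 : Continuous rho3 :=
  (sz_rho.comp continuous_subtype_val).subtype_mk _

private theorem sz_io : ∀ x ∈ (univ : Set E3), ContinuousAt io x ∧ io x ∈ (univ : Set (Q 4)) :=
  fun _ _ => ⟨continuous_subtype_val.continuousAt, mem_univ _⟩

private theorem sz_iob : ∀ x ∈ (univ : Set E3), ContinuousAt io x ∧ io x ∈ bd 4 :=
  fun x _ => ⟨continuous_subtype_val.continuousAt, x.2⟩

section main
variable {F : Set (Q 4)} {rb : Q 4 → Q 4} {K : Set E3} {τ : Q 4 → Q 4 → ℤˣ} {η : Q 4 → ℤˣ}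
    {τ₃ : E3 → E3 → ℤˣ} {η₃ : E3 → ℤˣ} {c : R5}

private theorem sz_cprr (hS : Surf4 F rb K) (hT : SymTw F rb τ η τ₃ η₃) (h : R5)
    {A : Type} [AddCommGroup A] [Module R5 A] {n : ℕ} {φ : Coch (Q 4) A n} (hφ : LZ F φ) :
    LZ univ (pb io (cpr η rb c h φ) - cpr η₃ rho3 c h (pb io φ)) := by
  have h1 := sz_lzsmul (-(h * c)) (res_j hS hT hφ)
  have e : pb io (cpr η rb c h φ) - cpr η₃ rho3 c h (pb io φ) =
      -(h * c) • (pb io (Jop η rb φ) - Jop η₃ rho3 (pb io φ)) := by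
    have e1 : pb io (cpr η rb c h φ) = h • (pb io φ - c • pb io (Jop η rb φ)) := rfl
    rw [e1]
    unfold cpr
    module
  rw [e]
  exact h1

private theorem sz_glue (hS : Surf4 F rb K) {A : Type} [AddCommGroup A] {n : ℕ}
    {g : Coch (Q 4) A n} (hg : LZ (F ∩ bd 4) g) :
    ∃ g' : Coch (Q 4) A n, LZ (bd 4) (g' - g) ∧ LZ F g' := by
  obtain ⟨g', h1, h2⟩ := glue (Sepd.closed (bd_closed 4) hS.tame.1) g 0 (by
    rw [sub_zero, inter_comm]
    exact hg)
  rw [sub_zero] at h2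
  exact ⟨g', h1, h2⟩

/-- the difference `J e - c e` is a relative coboundary -/
private theorem sz_je (hS : Surf4 F rb K) (hT : SymTw F rb τ η τ₃ η₃) {z : Coch E3 R5 2}
    (hzc : CPart η₃ rho3 c z) {w : Coch (Q 4) R5 2} (hwF : LZ F w)
    (hwb : LZ (bd 4) (dd τ w)) (hwr : LZ univ (pb io w - z)) :
    Cob τ univ (F ∪ bd 4) (Jop η rb (dd τ w) - c • dd τ w) := by
  have hFF : ∀ x ∈ F, rb x ∈ F := fun x hx => (hS.inv x).1 hx
  have hbb : ∀ x ∈ (bd 4 : Set (Q 4)), rb x ∈ bd 4 := fun x hx => by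
    rw [hS.bdry x hx]
    exact rho_bd x hx
  have hTw : IsTw (univ \ F) τ := hT.tw.mono (fun x hx => hx.2)
  obtain ⟨y, hy⟩ : ∃ y, y = Jop η rb w - c • w := ⟨_, rfl⟩
  have hyF : LZ F y := by
    rw [hy]
    exact (j_lz hS.cont hFF hwF).sub (sz_lzsmul c hwF)
  have hjd : LZ univ (dd τ (Jop η rb w) - Jop η rb (dd τ w)) :=
    j_dd hS.cont hFF (fun x hx => hT.equiv x hx.2) hwF
  have hyd : LZ univ (dd τ y - (Jop η rb (dd τ w) - c • dd τ w)) := by
    rw [hy, dd_sub, sz_ddsmul, sub_sub_sub_cancel_right]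
    exact hjd
  have hyb : LZ (bd 4) (dd τ y) := by
    refine LZ.congr (hyd.mono (subset_univ _)) ?_
    exact (j_lz hS.cont hbb hwb).sub (sz_lzsmul c hwb)
  have hyc : Coc τ (bd 4) (F ∩ bd 4) y := ⟨hyF.mono inter_subset_left, hyb⟩
  have hyr : LZ univ (pb io y) := by
    have h1 : LZ univ (pb io (Jop η rb w) - Jop η₃ rho3 (pb io w)) := res_j hS hT hwF
    have h2 : LZ univ (Jop η₃ rho3 (pb io w - z)) :=
      j_lz sz_rho3 (fun _ _ => mem_univ _) hwr
    rw [j_sub] at h2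
    have h3 : LZ univ (pb io (Jop η rb w) - c • z) := (h1.trans h2).trans hzc
    have h4 : LZ univ (c • (pb io w - z)) := sz_lzsmul c hwr
    rw [smul_sub] at h4
    have h5 := h3.trans h4.symm
    rw [hy]
    exact h5
  obtain ⟨g, hg1, hg2⟩ := ext3_tr hS hT hyc (Cob.of_LZ hyr)
  obtain ⟨g', hg3, hg4⟩ := sz_glue hS hg1
  refine ⟨y - dd τ g', ?_, ?_⟩
  · apply LZ.union
    · exact hyF.sub (hg4.dd τ)
    · have h1 : LZ (bd 4) (dd τ (g' - g)) := hg3.dd τ
      rw [dd_sub] at h1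
      exact hg2.trans h1.symm
  · have h1 : LZ univ (dd τ (dd τ g')) := LZ_dd_dd' hTw hg4
    have h2 := hyd.symm.add h1
    rw [dd_sub]
    convert h2 using 1
    abel

theorem surjz {F : Set (Q 4)} {rb : Q 4 → Q 4} {K : Set E3} {τ : Q 4 → Q 4 → ℤˣ} {η : Q 4 → ℤˣ}
    {τ₃ : E3 → E3 → ℤˣ} {η₃ : E3 → ℤˣ} {c : R5} (hc : c * c = -1) (hS : Surf4 F rb K)
    (hT : SymTw F rb τ η τ₃ η₃) (hK' : KTw K τ₃ η₃) (hK : KFacts K τ₃ η₃ c) {z : Coch E3 R5 2}
    (hz : Coc τ₃ univ K z) (hzc : CPart η₃ rho3 c z) :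
    ∃ z' : Coch (Q 4) R5 2, Coc τ univ F z' ∧ CPart η rb c z' ∧ LZ univ (pb io z' - z) := by
  obtain ⟨h, hh⟩ := half5
  have hFF : ∀ x ∈ F, rb x ∈ F := fun x hx => (hS.inv x).1 hx
  have hTw : IsTw (univ \ F) τ := hT.tw.mono (fun x hx => hx.2)
  have hTwZ : IsTw (univ \ (F ∪ bd 4)) τ := hT.tw.mono (fun x hx h => hx.2 (Or.inl h))
  have heqF : ∀ x ∈ univ \ F, ∀ᶠ t in 𝓝 (fun _ : Fin 2 => x),
      τ (rb (t 0)) (rb (t 1)) = η (t 0) * τ (t 0) (t 1) * η (t 1) := fun x hx => hT.equiv x hx.2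
  have hz1 : Coc τ (bd 4) (F ∩ bd 4) (ext3 τ z) := ext3_coc hS hT hz
  have hz1r : LZ univ (pb io (ext3 τ z) - z) := ext3_res hS hT hz.1
  obtain ⟨w, hw1, hwF⟩ := sz_glue hS hz1.1
  have hwb : LZ (bd 4) (dd τ w) := by
    have h1 : LZ (bd 4) (dd τ (w - ext3 τ z)) := hw1.dd τ
    rw [dd_sub] at h1
    exact LZ.congr h1 hz1.2
  have hwr : LZ univ (pb io w - z) := by
    have h1 : LZ univ (pb io (w - ext3 τ z)) := LZ.pb sz_iob hw1
    exact LZ.trans (ψ := pb io (ext3 τ z)) h1 hz1r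
  have heZ : LZ (F ∪ bd 4) (dd τ w) := (hwF.dd τ).union hwb
  have hec : Coc τ univ (F ∪ bd 4) (dd τ w) := ⟨heZ, LZ_dd_dd' hTw hwF⟩
  have claim : Cob τ univ (F ∪ bd 4) (dd τ w) := by
    by_contra hne
    obtain ⟨l, hl1, hl2⟩ := sz_functional hne
    have hU : IsOpen Fᶜ := hS.tame.1.isOpen_compl
    have hps := (pd baer5 Fᶜ hU).2 (upt R5 τ) (istw_upt hT.tw) 3 1 rfl l (by
      intro v h1 h2
      rw [compl_compl] at h1 h2
      rw [invt_upt] at h2
      exact hl2 v h1 ((cob_upt τ _ _ v).1 h2))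
    obtain ⟨a₀, ha₀, hI⟩ := hps
    rw [dd_upt] at ha₀
    have hI0 := hI (dd τ w) (by
      rw [compl_compl, invt_upt]
      exact (coc_upt τ _ _ _).2 hec)
    obtain ⟨a₁, ha₁, hd₁⟩ := lv_surj hS.tame hS.tame.1.isCompact hT.tw hT.nt dbl_D5 ha₀
    have hecu : Coc (invt (upt R5 τ)) univ (F ∪ bd 4) (dd τ w) := by
      rw [invt_upt]
      exact (coc_upt τ _ _ _).2 hec
    have hsub : (univ \ (F ∪ bd 4) : Set (Q 4)) ⊆ Fᶜ := fun x hx hF => hx.2 (Or.inl hF)
    have hcocc : ∀ φ : Coch (Q 4) D5 1, LZ Fᶜ (dd τ φ) →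
        Coc one univ (bd 4) (cup (rfl : 3 + 1 = 4) (upt R5 τ) (dd τ w) φ) := by
      intro φ hφ
      refine Coc.mono (Subset.refl _) subset_union_right
        (cup_coc (Z := F ∪ bd 4) rfl (istw_upt hTwZ) hecu ?_)
      rw [dd_upt]
      exact hφ.mono hsub
    have hI1 : Itg (cup (rfl : 3 + 1 = 4) (upt R5 τ) (dd τ w) a₀) =
        Itg (cup (rfl : 3 + 1 = 4) (upt R5 τ) (dd τ w) a₁) := by
      apply Itg_congr (hcocc a₀ ha₀)
      rw [← cup_sub_right]
      refine Cob.mono (Subset.refl _) subset_union_right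
        (cup_cob_right (Z := F ∪ bd 4) rfl (istw_upt hTwZ) hecu ?_)
      rw [cob_upt]
      exact hd₁.mono hsub (Subset.refl _)
    have ha₁' : LZ Fᶜ (dd τ a₁) := ha₁.2.mono (subset_univ _)
    have hja : Coc τ univ F (Jop η rb a₁) :=
      j_coc hS.cont (fun _ _ => mem_univ _) hFF heqF ha₁
    have hjce : Cob τ univ (F ∪ bd 4) (Jop η rb (dd τ w) - c • dd τ w) :=
      sz_je hS hT hzc hwF hwb hwr
    have hIJ := j_int_cpart hS hT (R := R5) (D := D5) (q := 3) (p := 1) rfl hc hec hjce ha₁'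
    have hIa : Itg (cup (rfl : 3 + 1 = 4) (upt R5 τ) (dd τ w) (cpr η rb c h a₁)) =
        Itg (cup (rfl : 3 + 1 = 4) (upt R5 τ) (dd τ w) a₁) := by
      have e1 : cup (rfl : 3 + 1 = 4) (upt R5 τ) (dd τ w) (cpr η rb c h a₁) =
          h • (cup (rfl : 3 + 1 = 4) (upt R5 τ) (dd τ w) a₁ -
            c • cup (rfl : 3 + 1 = 4) (upt R5 τ) (dd τ w) (Jop η rb a₁)) := by
        unfold cpr
        rw [cup_smul_right, cup_sub_right, cup_smul_right]
      have c1 := hcocc a₁ ha₁'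
      have c2 := hcocc (Jop η rb a₁) (hja.2.mono (subset_univ _))
      have c3 : Coc one univ (bd 4) (c • cup (rfl : 3 + 1 = 4) (upt R5 τ) (dd τ w) (Jop η rb a₁)) := by
        refine ⟨sz_lzsmul c c2.1, ?_⟩
        rw [sz_ddsmul]
        exact sz_lzsmul c c2.2
      rw [e1, Itg_smul h (c1.sub c3), Itg_sub c1 c3, Itg_smul c c2, hIJ, smul_smul, hc,
        neg_one_smul, sub_neg_eq_add, smul_add, ← add_smul, hh, one_smul]
    have hlam : Cob τ₃ univ K (pb io (cpr η rb c h a₁)) := by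
      apply lam hc hS hT hK
      · exact cpr_coc hS.cont (fun _ _ => mem_univ _) hFF heqF ha₁
      · exact cpr_cpart hc hh hS.cont hS.invol hS.tame.1 hT.anti ha₁.1
    have hac : Coc τ univ F (cpr η rb c h a₁) :=
      cpr_coc hS.cont (fun _ _ => mem_univ _) hFF heqF ha₁
    have hst := stokes hS hT (R := R5) (D := D5) (q := 2) (p := 1) rfl rfl hwF hwb
      (φ := cpr η rb c h a₁) (hac.2.mono (subset_univ _))
    have hz3 : Itg3 (cup (rfl : 2 + 1 = 3) (upt R5 τ₃) (pb io w) (pb io (cpr η rb c h a₁))) = 0 := by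
      apply itg3_cob
      have hwK : Coc τ₃ univ K (pb io w) :=
        res_coc_bd hS hT ⟨hwF.mono inter_subset_left, hwb⟩
      refine Cob.mono (Subset.refl _) (empty_subset _)
        (cup_cob_right (Z := K) rfl (istw_upt (hK'.tw.mono (fun x hx => hx.2))) ?_ ?_)
      · rw [invt_upt]
        exact (coc_upt τ₃ _ _ _).2 hwK
      · rw [cob_upt]
        exact hlam.mono (subset_univ _) (empty_subset _)
    apply hl1
    rw [← hI0, hI1, ← hIa]
    exact hst.trans hz3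
  obtain ⟨v, hv1, hv2⟩ := claim
  have hz' : Coc τ univ F (w - v) := by
    refine ⟨hwF.sub (hv1.mono subset_union_left), ?_⟩
    rw [dd_sub]
    exact hv2
  have hzr : LZ univ (pb io (w - v) - z) := by
    have h1 : LZ univ (pb io v) := LZ.pb sz_iob (hv1.mono subset_union_right)
    have h2 := hwr.sub h1
    have e : pb io (w - v) - z = pb io w - z - pb io v := by
      have e1 : pb io (w - v) = pb io w - pb io v := rfl
      rw [e1]
      abel
    rw [e]
    exact h2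
  refine ⟨cpr η rb c h (w - v), cpr_coc hS.cont (fun _ _ => mem_univ _) hFF heqF hz',
    cpr_cpart hc hh hS.cont hS.invol hS.tame.1 hT.anti hz'.1, ?_⟩
  have h1 := sz_cprr (c := c) hS hT h hz'.1
  have h2 : LZ univ (cpr η₃ rho3 c h (pb io (w - v)) - cpr η₃ rho3 c h z) :=
    cpr_congr sz_rho3 hzr
  exact (h1.trans h2).trans (cpr_id hc hh hzc)
end main

end PoolFbd
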