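import Pool.Agent.Work.MP_fbd21a_gt.TauRes

/-! MODULE TauEta. The lift factor η of the four-dimensional involution.
PROOF. τ from tau_res. pbt rb τ is a twist near Fᶜ, nowhere trivial along F: if TrivBy (pbt rb τ) (N \ F) σ,
p ∈ N, then τ is trivialised near rb '' N \ F by σ ∘ rb (rb is a continuous involution preserving F), so
TrivAt τ F (rb p). tw_uniq on Q 4: η with τ(rb x, rb y) τ(x,y) = η x η y near Fᶜ, i.e. field equiv.
RESTRICTION: for x ∈ Kᶜ in E3, near x: with rb (io x) = io (rho3 x) (Surf4.bdry):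
τ₃(rho3 x, rho3 y) = τ(rb io x, rb io y) = η(io x) τ₃(x,y) η(io y), and it is η₃ x τ₃(x,y) η₃ y, so
x ↦ η(io x) η₃ x is locally constant near Kᶜ, hence a constant e on Kᶜ (tame_compl on E3,
sign_const). Replace η by e η: field resη (and equiv persists).
ANTI: applying equiv at x and at rb x: τ(x,y) = τ(rb rb x, rb rb y) = η(rb x) τ(rb x, rb y) η(rb y)
= η(rb x) η(x) τ(x,y) η(y) η(rb y) near x ∈ Fᶜ, so x ↦ η(rb x) η(x) is locally constant near Fᶜ, constant
by tame_compl on Q 4; at a point io x, x ∈ Kᶜ (nonempty: tame_compl on E3): η(rb io x) η(io x) =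
η(io (rho3 x)) η₃ x = η₃(rho3 x) η₃ x = -1 (rho3 x ∈ Kᶜ). So η(rb x) = - η x on Fᶜ. -/

open Topology Filter Set

namespace PoolFbd

private theorem taueta_a1 {a b c d : ℤˣ} (h : a * b = c⁻¹ * d) : a = c * b * d := by
  rcases Int.units_eq_one_or a with h1 | h1 <;> rcases Int.units_eq_one_or b with h2 | h2 <;>
    rcases Int.units_eq_one_or c with h3 | h3 <;> rcases Int.units_eq_one_or d with h4 | h4 <;>
    rw [h1, h2, h3, h4] at h ⊢ <;> first | rfl | (revert h; decide)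

private theorem taueta_a2 {p q u v w : ℤˣ} (h : p * u * q = v * u * w) :
    q * w = p * v := by
  have key : ∀ p q u v w : ℤˣ, p * u * q = v * u * w → q * w = p * v := by decide
  exact key p q u v w h

private theorem taueta_a3 {p q u v w : ℤˣ} (h : u = p * (v * u * w) * q) :
    q * w = p * v := by
  have key : ∀ p q u v w : ℤˣ, u = p * (v * u * w) * q → q * w = p * v := by decide
  exact key p q u v w h

private theorem taueta_a4 {e a b : ℤˣ} (h : a * b = e) : e * a = b := by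
  rcases Int.units_eq_one_or e with h1 | h1 <;> rcases Int.units_eq_one_or a with h2 | h2 <;>
    rcases Int.units_eq_one_or b with h3 | h3 <;>
    rw [h1, h2, h3] at h ⊢ <;> first | rfl | (revert h; decide)

private theorem taueta_a5 {a b : ℤˣ} (h : a * b = -1) : a = -b := by
  rcases Int.units_eq_one_or a with h2 | h2 <;>
    rcases Int.units_eq_one_or b with h3 | h3 <;>
    rw [h2, h3] at h ⊢ <;> first | rfl | (revert h; decide)

theorem tau_eta {F : Set (Q 4)} {rb : Q 4 → Q 4} {K : Set E3} (hS : Surf4 F rb K)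
    {τ₃ : E3 → E3 → ℤˣ} {η₃ : E3 → ℤˣ} (hK : KTw K τ₃ η₃) {τ : Q 4 → Q 4 → ℤˣ}
    (hτ : IsTw Fᶜ τ) (hn : ¬ TrivOn τ (bd 4 \ F)) :
    ∃ (τ' : Q 4 → Q 4 → ℤˣ) (η : Q 4 → ℤˣ), SymTw F rb τ' η τ₃ η₃ := by
  haveI : CompactSpace E3 := taures_compact
  obtain ⟨τ', htw, hnt, hres⟩ := tau_res hS hK hτ hn
  have hKF : ∀ x : E3, x ∈ Kᶜ ↔ io x ∈ Fᶜ := fun x => not_congr (hS.fk x)
  have hrbF : ∀ x ∈ Fᶜ, rb x ∈ Fᶜ := fun x hx h => hx ((hS.inv x).2 h)
  have hrbc : ∀ x, ContinuousAt rb x := fun x => hS.cont.continuousAt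
  have hpbt : IsTw Fᶜ (pbt rb τ') := htw.pbt fun x hx => ⟨hrbc x, hrbF x hx⟩
  have hpbn : ∀ p ∈ F, ¬ TrivAt (pbt rb τ') F p := by
    rintro p hp ⟨N, hN, hpN, σ, hσ⟩
    refine hnt (rb p) ((hS.inv p).1 hp) ⟨rb ⁻¹' N, hN.preimage hS.cont, ?_,
      fun x => σ (rb x), fun x hx => ?_⟩
    · show rb (rb p) ∈ N
      rw [hS.invol]
      exact hpN
    · have hx' : rb x ∈ N \ F := ⟨hx.1, fun h => hx.2 ((hS.inv x).2 h)⟩
      filter_upwards [(tendsto_pb (n := 2) (hrbc x)).eventually (hσ (rb x) hx')] with t ht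
      have ht' : τ' (rb (rb (t 0))) (rb (rb (t 1))) = (σ (rb (t 0)))⁻¹ * σ (rb (t 1)) := ht
      rw [hS.invol, hS.invol] at ht'
      exact ht'
  obtain ⟨η, hη⟩ := tw_uniq (acyc_conn1 (acyc_Q 4)) hS.tame hpbt htw hpbn hnt
  have hequiv : ∀ x ∈ Fᶜ, ∀ᶠ t in 𝓝 (fun _ : Fin 2 => x),
      τ' (rb (t 0)) (rb (t 1)) = η (t 0) * τ' (t 0) (t 1) * η (t 1) := by
    intro x hx
    filter_upwards [hη x hx] with t ht
    exact taueta_a1 ht
  -- the restriction to the sphere
  have hrho : Continuous rho3 := by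
    have h1 : Continuous (fun x : E3 => rb (io x)) := hS.cont.comp continuous_subtype_val
    refine Continuous.subtype_mk ?_ _
    have e : (fun x : E3 => rho x.1) = fun x : E3 => rb (io x) := by
      funext x
      exact (hS.bdry x.1 x.2).symm
    rw [e]
    exact h1
  have hrio : ∀ y : E3, rb (io y) = io (rho3 y) := fun y => hS.bdry y.1 y.2
  have hrhoK : ∀ x ∈ Kᶜ, rho3 x ∈ Kᶜ := fun x hx h => hx ((hK.inv x).2 h)
  have hc0 : Conn0 Kᶜ := tame_compl e3_conn1.1 hK.tame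
  have hloc : ∀ x ∈ Kᶜ, ∀ᶠ y in 𝓝 x, η (io y) * η₃ y = η (io x) * η₃ x := by
    intro x hx
    have hx' : io x ∈ Fᶜ := (hKF x).1 hx
    have c1 : ContinuousAt io x := continuous_subtype_val.continuousAt
    have e1 := ev_pair (hK.equiv x hx)
    have e2 := ev_pair ((tendsto_pb (n := 2) (hrho.continuousAt (x := x))).eventually
      (hres (rho3 x) ((hKF _).1 (hrhoK x hx))))
    have e3 := ev_pair (hres x hx')
    have e4 := ev_pair ((tendsto_pb (n := 2) c1).eventually (hequiv (io x) hx'))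
    filter_upwards [e1, e2, e3, e4] with y f1 f2 f3 f4
    have f1' : τ₃ (rho3 x) (rho3 y) = η₃ x * τ₃ x y * η₃ y := f1
    have f2' : τ' (io (rho3 x)) (io (rho3 y)) = τ₃ (rho3 x) (rho3 y) := f2
    have f3' : τ' (io x) (io y) = τ₃ x y := f3
    have f4' : τ' (rb (io x)) (rb (io y)) = η (io x) * τ' (io x) (io y) * η (io y) := f4
    rw [hrio, hrio, f2', f1', f3'] at f4'
    exact taueta_a2 f4'.symm
  obtain ⟨e, he⟩ := sign_const hc0 (s := fun x => η (io x) * η₃ x) hloc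
  have hee : e * e = 1 := Int.units_mul_self e
  -- anti-invariance
  have hF0 : Conn0 Fᶜ := tame_compl (acyc_conn0 (acyc_Q 4)) hS.tame
  have hloc2 : ∀ x ∈ Fᶜ, ∀ᶠ y in 𝓝 x, η (rb y) * η y = η (rb x) * η x := by
    intro x hx
    have e1 := ev_pair (hequiv x hx)
    have e2 := ev_pair ((tendsto_pb (n := 2) (hrbc x)).eventually (hequiv (rb x) (hrbF x hx)))
    filter_upwards [e1, e2] with y f1 f2
    have f1' : τ' (rb x) (rb y) = η x * τ' x y * η y := f1
    have f2' : τ' (rb (rb x)) (rb (rb y)) = η (rb x) * τ' (rb x) (rb y) * η (rb y) := f2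
    rw [hS.invol, hS.invol, f1'] at f2'
    exact taueta_a3 f2'
  obtain ⟨e', he'⟩ := sign_const hF0 (s := fun x => η (rb x) * η x) hloc2
  obtain ⟨x₀, hx₀⟩ := hc0.1
  have hm : e' = -1 := by
    have h1 := he' (io x₀) ((hKF x₀).1 hx₀)
    have h2 := he x₀ hx₀
    have h3 := he (rho3 x₀) (hrhoK x₀ hx₀)
    have h4 := hK.anti x₀ hx₀
    rw [hrio] at h1
    rw [h4] at h3
    rw [← h1]
    have k2 := taueta_a4 h2
    have k3 := taueta_a4 h3
    have k4 : η (io x₀) = e * η₃ x₀ := by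
      rw [← k2, ← mul_assoc, hee, one_mul]
    have k5 : η (io (rho3 x₀)) = e * -η₃ x₀ := by
      rw [← k3, ← mul_assoc, hee, one_mul]
    rw [k4, k5]
    have k6 : η₃ x₀ * η₃ x₀ = 1 := Int.units_mul_self _
    rw [mul_mul_mul_comm, hee, one_mul, neg_mul, k6]
  refine ⟨τ', fun x => e * η x, htw, hnt, hres, ?_, ?_, ?_⟩
  · intro x hx
    filter_upwards [hequiv x hx] with t ht
    rw [ht]
    have k : e * η (t 0) * τ' (t 0) (t 1) * (e * η (t 1)) =
        (e * e) * (η (t 0) * τ' (t 0) (t 1) * η (t 1)) := by ac_rfl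
    rw [k, hee, one_mul]
  · intro x hx
    have h1 := he' x hx
    rw [hm] at h1
    show e * η (rb x) = -(e * η x)
    rw [taueta_a5 h1, mul_neg]
  · intro x hx
    exact taueta_a4 (he x ((hKF x).2 hx))

end PoolFbd
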