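import Pool.Agent.Work.MP_fbd21a_gt.PDThm
import Pool.Agent.Work.MP_fbd21a_gt.SphH
import Pool.Agent.Work.MP_fbd21a_gt.Coef5
import Pool.Agent.Work.MP_fbd21a_gt.TmBas

/-! MODULE TauEx. Existence of the sign local system on the complement of F in the four-cube.
PROOF. All coefficients ZMod 2, trivial twists (dd_triv: the twist 1 in units of ZMod 2 gives dd one).
k is a 1-cocycle near K = F ∩ bd 4 which is not cohomologous near K to a cocycle near F.
w: glue dd one k (near bd 4) and 0 (near F) (both closed; on bd ∩ F both vanish): w = dd one k near bd,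
w = 0 near F. e = dd one w, a relative 3-cocycle of (univ, F ∪ bd).
e is not a relative coboundary: e = dd one v near univ, v zero near F ∪ bd ⇒ w - v is a 2-cocycle near
univ, = dd one s (acyc_Q). Near F: dd one s = 0. Near bd: dd one k = dd one s, so k - s is a cocycle
near bd, = dd one χ there (bd_H1); so near K, k - s = dd one χ and s is a cocycle near F:
contradiction to hno.
Linear functional: the relative coboundaries (which vanish near F ∪ bd) form a subspace of the
ZMod 2 vector space Coch (Q 4) (ZMod 2) 3 not containing e, so there is a linear l with l e = 1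
vanishing on it (e.g. `Submodule.exists_le_ker_of_notMem`, or Module.Baer extension).
PSur (ZMod 2) (ZMod 2) for U = Fᶜ (pd; ZMod 2 is a field so every module is injective: Baer), τ = 1,
q = 3, p = 1: f of degree 1, cocycle near Fᶜ, Itg (cup e f) = l e = 1.
τ x y = (-1)^(f x y) ∈ ℤˣ (f x y = 0 ↦ 1, 1 ↦ -1: a homomorphism Multiplicative (ZMod 2) → ℤˣ,
injective). IsTw Fᶜ τ. If τ were trivialised by σ near bd 4 \ F then f = dd one g near bd 4 \ F. Then
e ∪ f = dd one (w ∪ f) near univ (w zero near F, f a cocycle off F), and near bd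
w ∪ f = w ∪ dd g = ± dd one (w ∪ g) (w is a cocycle near bd and zero near F, so only bd \ F
matters). So w ∪ f ∓ dd one (w ∪ g) vanishes near bd, and e ∪ f = dd one (w ∪ f ∓ dd one (w ∪ g)) is
a relative coboundary, Itg = 0 ≠ 1. -/

open Topology Filter Set

namespace PoolFbd

/-- the trivial twist in units of `ZMod 2` -/
private def tex1 : Q 4 → Q 4 → (ZMod 2)ˣ := fun _ _ => 1

private theorem tex_dd {n : ℕ} (φ : Coch (Q 4) (ZMod 2) n) : dd tex1 φ = dd one φ := dd_triv φ

private theorem tex_inv : invt tex1 = tex1 := by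
  funext x y
  unfold invt tex1
  exact inv_one

private theorem tex_tw (S : Set (Q 4)) : IsTw S tex1 := fun _ _ =>
  Eventually.of_forall fun _ => mul_one _

private theorem tex_cob {S Z : Set (Q 4)} {n : ℕ} {φ : Coch (Q 4) (ZMod 2) n} :
    Cob tex1 S Z φ ↔ Cob one S Z φ := by
  cases n with
  | zero => exact Iff.rfl
  | succ n =>
    unfold Cob
    simp only [tex_dd]

/-- the sign of a class -/
private def texsg (a : ZMod 2) : ℤˣ := if a = 0 then 1 else -1

private theorem texsg_add : ∀ a b c : ZMod 2, a + b = c → texsg a * texsg b = texsg c := by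
  decide

private theorem texsg_triv : ∀ (a : ZMod 2) (u v : ℤˣ), texsg a = u⁻¹ * v →
    a = (if v = 1 then 0 else 1) - (if u = 1 then 0 else 1) := by
  decide

private theorem tex_coc1 {S : Set (Q 4)} {f : Coch (Q 4) (ZMod 2) 1} (hf : LZ S (dd one f)) :
    IsTw S (fun x y => texsg (f ![x, y])) := by
  intro x hx
  filter_upwards [hf x hx] with t ht
  apply texsg_add
  have e1 : (fun j : Fin (1 + 1) => t j.succ) = ![t 1, t 2] := by
    funext j
    fin_cases j <;> rfl
  have e2 : (fun j : Fin (1 + 1) => t ((0 : Fin (1 + 1)).succ.succAbove j)) = ![t 0, t 2] := by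
    funext j
    fin_cases j <;> rfl
  have e3 : (fun j : Fin (1 + 1) => t ((1 : Fin (1 + 1)).succ.succAbove j)) = ![t 0, t 1] := by
    funext j
    fin_cases j <;> rfl
  have h1 : dd one f t = f ![t 1, t 2] + (-f ![t 0, t 2] + f ![t 0, t 1]) := by
    unfold dd
    rw [Fin.sum_univ_two, e1, e2, e3]
    simp [one]
  rw [h1] at ht
  linear_combination ht

private theorem tex_smul {S : Set (Q 4)} {n : ℕ} (q : ℕ) {φ : Coch (Q 4) (ZMod 2) n}
    (h : LZ S φ) : LZ S ((-1 : ℤ) ^ q • φ) := fun x hx => by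
  filter_upwards [h x hx] with t ht
  rw [Pi.smul_apply, ht, smul_zero]

/-- the product of a cochain vanishing near `F` and one vanishing near `S \ F` vanishes near `S` -/
private theorem tex_zero {S F : Set (Q 4)} {q p n : ℕ} (h : q + p = n)
    {c : Coch (Q 4) (ZMod 2) q} (hc : LZ F c) {φ : Coch (Q 4) (ZMod 2) p} (hφ : LZ (S \ F) φ) :
    LZ S (cup h tex1 c φ) := by
  intro x hx
  by_cases hF : x ∈ F
  · exact cup_left h hc φ x hF
  · exact cup_right h c hφ x ⟨hx, hF⟩

theorem tau_exists {F : Set (Q 4)} (hF : IsClosed F) (k : Coch (Q 4) (ZMod 2) 1)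
    (hk : LZ (F ∩ bd 4) (dd one k))
    (hno : ∀ φ : Coch (Q 4) (ZMod 2) 1, LZ F (dd one φ) → ¬ Cob one (F ∩ bd 4) ∅ (k - φ)) :
    ∃ τ : Q 4 → Q 4 → ℤˣ, IsTw Fᶜ τ ∧ ¬ TrivOn τ (bd 4 \ F) := by
  classical
  -- the cochain w
  obtain ⟨w, hw1, hw2⟩ := glue (Sepd.closed (bd_closed 4) hF) (dd one k) 0
    (by
      rw [sub_zero, inter_comm]
      exact hk)
  rw [sub_zero] at hw2
  have hddk : LZ (bd 4) (dd one (dd one k)) := LZ_dd_dd (IsTw.one _) k
  have he1 : LZ (bd 4) (dd one w) := by
    have h1 := hw1.dd one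
    rw [dd_sub] at h1
    exact LZ.congr h1 hddk
  have he2 : LZ F (dd one w) := hw2.dd one
  have heZ : LZ (F ∪ bd 4) (dd one w) := he2.union he1
  have hdde : LZ univ (dd one (dd one w)) := LZ_dd_dd (IsTw.one _) w
  -- e is not a relative coboundary
  have hnc : ¬ Cob one univ (F ∪ bd 4) (dd one w) := by
    rintro ⟨v, hv1, hv2⟩
    have h1 : LZ univ (dd one (w - v)) := by
      rw [dd_sub]
      exact hv2
    obtain ⟨s, -, hs⟩ := ((acyc_Q 4).2 (ZMod 2)).2 1 (w - v) h1
    have hsF : LZ F (dd one s) := by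
      have h2 := ((hw2.sub (hv1.mono subset_union_left)).sub (hs.mono (subset_univ F)))
      rwa [sub_sub_cancel] at h2
    refine hno s hsF ?_
    have h3 : LZ (bd 4) (dd one (k - s)) := by
      rw [dd_sub]
      have h4 := (hs.mono (subset_univ (bd 4))).sub hw1
      have h5 := h4.add (hv1.mono subset_union_right)
      have e : w - v - dd one s - (w - dd one k) + v = dd one k - dd one s := by abel
      rwa [e] at h5
    exact (bd_H1 h3).mono inter_subset_right (le_refl _)
  -- the functional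
  let W : Submodule (ZMod 2) (Coch (Q 4) (ZMod 2) 3) :=
    { carrier := {c | LZ (F ∪ bd 4) c ∧ Cob one univ (F ∪ bd 4) c}
      add_mem' := fun h h' => ⟨h.1.add h'.1, h.2.add h'.2⟩
      zero_mem' := ⟨LZ.zero _, Cob.zero _ _ _⟩
      smul_mem' := by
        intro a c hc
        rcases (show a = 0 ∨ a = 1 by revert a; decide) with rfl | rfl
        · rw [zero_smul]
          exact ⟨LZ.zero _, Cob.zero _ _ _⟩
        · rw [one_smul]
          exact hc }
  have hW : dd one w ∉ W := fun h => hnc h.2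
  obtain ⟨l, hl1, hl2⟩ := W.exists_le_ker_of_notMem hW
  have hBaer : Module.Baer (ZMod 2) (ZMod 2) := baer_self (ZMod 2)
  obtain ⟨-, hsur⟩ := pd hBaer Fᶜ hF.isOpen_compl
  obtain ⟨f, hf1, hf2⟩ := hsur tex1 (tex_tw _) 3 1 rfl l (by
    intro c hc1 hc2
    rw [compl_compl] at hc1 hc2
    rw [tex_inv, tex_cob] at hc2
    exact hl2 (show c ∈ W from ⟨hc1, hc2⟩))
  rw [tex_dd] at hf1
  have hItg : Itg (cup (rfl : 3 + 1 = 4) tex1 (dd one w) f) ≠ 0 := by
    rw [hf2 (dd one w) ⟨by rw [compl_compl]; exact heZ, by rw [tex_inv, tex_dd]; exact hdde⟩]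
    exact hl1
  refine ⟨fun x y => texsg (f ![x, y]), tex_coc1 hf1, ?_⟩
  rintro ⟨σ, hσ⟩
  apply hItg
  -- f is a coboundary near bd minus F
  set g : Coch (Q 4) (ZMod 2) 0 := fun t => if σ (t 0) = 1 then 0 else 1 with hg
  have hfg : LZ (bd 4 \ F) (f - dd one g) := by
    intro x hx
    filter_upwards [hσ x hx] with t ht
    have ht' : texsg (f ![t 0, t 1]) = (σ (t 0))⁻¹ * σ (t 1) := ht
    have h1 := texsg_triv _ _ _ ht'
    have e1 : (![t 0, t 1] : Fin (1 + 1) → Q 4) = t := by
      funext j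
      fin_cases j <;> rfl
    rw [e1] at h1
    rw [Pi.sub_apply, dd_deg_zero, h1]
    simp only [hg, one, one_smul]
    exact sub_self _
  -- the primitive
  set θ : Coch (Q 4) (ZMod 2) 3 := cup (rfl : 2 + 1 = 3) tex1 w f with hθ
  set θ' : Coch (Q 4) (ZMod 2) 2 := cup (rfl : 2 + 0 = 2) tex1 w g with hθ'
  have h1 : LZ univ (dd one θ - cup (rfl : 3 + 1 = 4) tex1 (dd one w) f) := by
    have hleib := cup_leib (S := univ) (Z := F) (τ := tex1) (rfl : 2 + 1 = 3)
      (rfl : 2 + 1 + 1 = 3 + 1) (rfl : 2 + (1 + 1) = 3 + 1) (tex_tw _) hw2 f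
    rw [tex_inv, tex_dd, tex_dd] at hleib
    have hz : LZ univ (cup (rfl : 2 + (1 + 1) = 3 + 1) tex1 w (dd one f)) :=
      tex_zero _ hw2 (hf1.mono fun x hx => hx.2)
    have h2 := hleib.add (tex_smul 2 hz)
    refine LZ.congr ?_ h2
    have e : ∀ (a b d : Coch (Q 4) (ZMod 2) 4), a - b - (a - (b + d) + d) = 0 := by
      intro a b d; abel
    rw [e]
    exact LZ.zero _
  have h2 : LZ (bd 4) (dd one θ' - cup (rfl : 2 + 1 = 3) tex1 w (dd one g)) := by
    have hleib := cup_leib (S := bd 4) (Z := F) (τ := tex1) (rfl : 2 + 0 = 2)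
      (rfl : 2 + 1 + 0 = 2 + 1) (rfl : 2 + (0 + 1) = 2 + 1) (tex_tw _) hw2 g
    rw [tex_inv, tex_dd, tex_dd] at hleib
    have hz : LZ (bd 4) (cup (rfl : 2 + 1 + 0 = 2 + 1) tex1 (dd one w) g) := cup_left _ he1 g
    have h3 := hleib.add hz
    refine LZ.congr ?_ h3
    have e : ∀ (a b d : Coch (Q 4) (ZMod 2) 3),
        a - d - (a - (b + (-1 : ℤ) ^ 2 • d) + b) = 0 := by
      intro a b d
      rw [neg_one_sq, one_smul]
      abel
    rw [e]
    exact LZ.zero _
  have h3 : LZ (bd 4) (θ - dd one θ') := by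
    have h4 : LZ (bd 4) (cup (rfl : 2 + 1 = 3) tex1 w (f - dd one g)) := tex_zero _ hw2 hfg
    rw [cup_sub_right] at h4
    have h5 := h4.sub h2
    have e : θ - cup (rfl : 2 + 1 = 3) tex1 w (dd one g) -
        (dd one θ' - cup (rfl : 2 + 1 = 3) tex1 w (dd one g)) = θ - dd one θ' := by abel
    rwa [e] at h5
  have h6 : Cob one univ (bd 4) (cup (rfl : 3 + 1 = 4) tex1 (dd one w) f) := by
    refine ⟨θ - dd one θ', h3, ?_⟩
    rw [dd_sub]
    have h7 : LZ univ (dd one (dd one θ')) := LZ_dd_dd (IsTw.one _) θ'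
    have h8 := h1.symm.add h7
    have e : ∀ (a b d : Coch (Q 4) (ZMod 2) 4), a - b + d = a - (b - d) := by
      intro a b d; abel
    rwa [e] at h8
  exact Itg_cob h6

end PoolFbd
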