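import Pool.Agent.Work.MP_fbd21a_gt.FinRel
import Pool.Agent.Work.MP_fbd21a_gt.SurjZ
import Pool.Agent.Work.MP_fbd21a_gt.TauEx
import Pool.Agent.Work.MP_fbd21a_gt.TauEta

/-! MODULE Final4. The four-dimensional contradiction.
PROOF. tau_exists (F closed; k, hk, hno) and tau_eta give τ', η with SymTw (call them τ, η).
KFacts.two: z₁, z₂ on E3; surjz: extensions z₁', z₂'. rkq (hconn: F ∩ bd 4 = io '' K is the continuous image of
the connected set K: conn0_of_preconn), rkk, finrel: u, v not both divisible by 5 and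
cmap al5 w = dd τ ψ near univ, ψ : K5-valued, zero near F, w = u z₁' + v z₂'.
ψ' = cpr ψ: CPart, zero near F, dd τ ψ' = cmap al5 w near univ (cpr_dd, and cmap al5 w is in the c-part:
cpr_id). a = cmap mk5 ψ': Coc τ univ F a (dd τ a = mk5 (al5 ..) = 0), CPart a. lam: Cob τ₃ univ K (pb io a):
cmap mk5 (pb io ψ') = dd τ₃ g near univ with g : Coch E3 D5 0 zero near K. Lift g to g' : K5-valued, zero
where g is zero. Then pb io ψ' - dd τ₃ g' has values in the image of al5 near univ: = cmap al5 ξ near univ,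
ξ : Coch E3 R5 1, LZ K ξ (al5_inj, choose ξ t = 0 if the value is 0). al5 (dd τ₃ ξ) = dd τ₃ (pb io ψ') (dd dd g' = 0
near univ: LZ_dd_dd' with Z = K) = pb io (cmap al5 w) near univ (res_dd), so dd τ₃ ξ = pb io w =
u z₁ + v z₂ near univ: Cob τ₃ univ K (u • z₁ + v • z₂), so 5 divides u and v: contradiction. -/

open Topology Filter Set

namespace PoolFbd

private theorem fin4_lzsmul {E : Type*} [TopologicalSpace E] {A : Type*} [AddCommGroup A]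
    [Module R5 A] {S : Set E} {n : ℕ} (a : R5) {φ : Coch E A n} (hφ : LZ S φ) : LZ S (a • φ) :=
  fun x hx => by
  filter_upwards [hφ x hx] with t ht
  rw [Pi.smul_apply, ht, smul_zero]

private theorem fin4_us {A B : Type*} [AddCommGroup A] [AddCommGroup B] [Module R5 A] [Module R5 B]
    (G : A →ₗ[R5] B) (g : ℤˣ) (a : A) : G (g • a) = g • G a := by
  rw [Units.smul_def, Units.smul_def, map_zsmul]

private theorem fin4_dd {E A B : Type*} [AddCommGroup A] [AddCommGroup B] [Module R5 A]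
    [Module R5 B] (G : A →ₗ[R5] B) (τ : E → E → ℤˣ) {n : ℕ} (φ : Coch E A n) :
    dd τ (cmap G φ) = cmap G (dd τ φ) :=
  dd_cmap τ φ G.toAddMonoidHom (fun g a => fin4_us G g a)

private theorem fin4_sec : ∃ s : D5 → K5, s 0 = 0 ∧ ∀ d, mk5 (s d) = d := by
  classical
  refine ⟨fun d => if d = 0 then 0 else (mk5_surj d).choose, by simp, fun d => ?_⟩
  by_cases hd : d = 0
  · simp [hd]
  · simp only [hd, if_false]
    exact (mk5_surj d).choose_spec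

private theorem fin4_g : ∃ g : K5 → R5, g 0 = 0 ∧ ∀ x, mk5 x = 0 → al5 (g x) = x := by
  classical
  refine ⟨fun x => if hx : ∃ r : R5, al5 r = x then hx.choose else 0, ?_, fun x hx => ?_⟩
  · have h0 : ∃ r : R5, al5 r = 0 := ⟨0, map_zero _⟩
    simp only
    rw [dif_pos h0]
    apply al5_inj
    rw [h0.choose_spec, map_zero]
  · have h1 := (mk5_zero_iff x).1 hx
    simp only
    rw [dif_pos h1]
    exact h1.choose_spec

private theorem fin4_io : ∀ x ∈ (univ : Set E3), ContinuousAt io x ∧ io x ∈ (univ : Set (Q 4)) :=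
  fun _ _ => ⟨continuous_subtype_val.continuousAt, mem_univ _⟩

private theorem fin4_conn {F : Set (Q 4)} {rb : Q 4 → Q 4} {K : Set E3} {τ₃ : E3 → E3 → ℤˣ}
    {η₃ : E3 → ℤˣ} (hS : Surf4 F rb K) (hK' : KTw K τ₃ η₃) : Conn0 (F ∩ bd 4) := by
  have e : F ∩ bd 4 = io '' K := by
    ext x
    constructor
    · rintro ⟨h1, h2⟩
      exact ⟨⟨x, h2⟩, (hS.fk _).2 h1, rfl⟩
    · rintro ⟨y, hy, rfl⟩
      exact ⟨(hS.fk y).1 hy, y.2⟩
  rw [e]
  apply conn0_of_preconn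
  · exact hK'.conn.image _ continuous_subtype_val.continuousOn
  · exact hK'.ne.image _

theorem final4 {F : Set (Q 4)} {rb : Q 4 → Q 4} {K : Set E3}
    {τ₃ : E3 → E3 → ℤˣ} {η₃ : E3 → ℤˣ} {c : R5} (hc : c * c = -1) (hS : Surf4 F rb K)
    (hK' : KTw K τ₃ η₃) (hK : KFacts K τ₃ η₃ c)
    (k : Coch (Q 4) (ZMod 2) 1) (hk : LZ (F ∩ bd 4) (dd one k))
    (hno : ∀ φ : Coch (Q 4) (ZMod 2) 1, LZ F (dd one φ) → ¬ Cob one (F ∩ bd 4) ∅ (k - φ))
    (h4 : ∀ s : Fin 5 → Coch (Q 4) (ZMod 2) 1, (∀ i, LZ F (dd one (s i))) →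
      ∃ i j, i ≠ j ∧ Cob one F ∅ (s i - s j)) : False := by
  obtain ⟨τ₀, hτ₀, hn₀⟩ := tau_exists hS.tame.1 k hk hno
  obtain ⟨τ, η, hT⟩ := tau_eta hS hK' hτ₀ hn₀
  obtain ⟨z₁, z₂, hz₁, hz₂, hzc₁, hzc₂, htwo⟩ := hK.two
  obtain ⟨y₁, hy₁, hyc₁, hyr₁⟩ := surjz hc hS hT hK' hK hz₁ hzc₁
  obtain ⟨y₂, hy₂, hyc₂, hyr₂⟩ := surjz hc hS hT hK' hK hz₂ hzc₂
  obtain ⟨x₀, hx₀, hsp₀⟩ := rkq hS hT hK (fin4_conn hS hK') h4
  obtain ⟨e, he, hec, hsp⟩ := rkk hc hS hT hx₀ hsp₀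
  obtain ⟨u, v, huv, ψ, hψF, hψ⟩ := finrel hc hS hT he hec hsp hy₁ hy₂ hyc₁ hyc₂
  obtain ⟨h, hh⟩ := half5
  obtain ⟨s, hs0, hs⟩ := fin4_sec
  obtain ⟨g, hg0, hg⟩ := fin4_g
  have hFF : ∀ x ∈ F, rb x ∈ F := fun x hx => (hS.inv x).1 hx
  have heqF : ∀ x ∈ univ \ F, ∀ᶠ t in 𝓝 (fun _ : Fin 2 => x),
      τ (rb (t 0)) (rb (t 1)) = η (t 0) * τ (t 0) (t 1) * η (t 1) := fun x hx => hT.equiv x hx.2
  obtain ⟨w, hw⟩ : ∃ w, w = u • y₁ + v • y₂ := ⟨_, rfl⟩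
  rw [← hw] at hψ
  have hwc : CPart η rb c (cmap al5 w) := by
    rw [hw]
    exact cpart_map al5 (cpart_add (cpart_smul u hyc₁) (cpart_smul v hyc₂))
  obtain ⟨ψ', hψ'⟩ : ∃ ψ', ψ' = cpr η rb c h ψ := ⟨_, rfl⟩
  have hψ'F : LZ F ψ' := by
    rw [hψ']
    exact cpr_lz hS.cont hFF hψF
  have hψ'c : CPart η rb c ψ' := by
    rw [hψ']
    exact cpr_cpart hc hh hS.cont hS.invol hS.tame.1 hT.anti hψF
  have hψ'd : LZ univ (dd τ ψ' - cmap al5 w) := by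
    have h1 : LZ univ (dd τ ψ' - cpr η rb c h (dd τ ψ)) := by
      rw [hψ']
      exact cpr_dd hS.cont hFF heqF hψF
    have h2 : LZ univ (cpr η rb c h (dd τ ψ) - cpr η rb c h (cmap al5 w)) :=
      cpr_congr hS.cont hψ.symm
    exact (h1.trans h2).trans (cpr_id hc hh hwc)
  have haF : LZ F (cmap mk5 ψ') := LZ.cmap hψ'F mk5 (map_zero mk5)
  have had : LZ univ (dd τ (cmap mk5 ψ')) := by
    rw [fin4_dd]
    intro x hx
    filter_upwards [hψ'd x hx] with t ht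
    rw [Pi.sub_apply, sub_eq_zero] at ht
    show mk5 (dd τ ψ' t) = 0
    rw [ht, mk5_zero_iff]
    exact ⟨w t, rfl⟩
  obtain ⟨γ, hγK, hγ⟩ := lam hc hS hT hK ⟨haF, had⟩ (cpart_map mk5 hψ'c)
  have hsγK : LZ K (cmap s γ) := LZ.cmap hγK s hs0
  have hsγ : cmap mk5 (cmap s γ) = γ := by
    funext t
    exact hs (γ t)
  obtain ⟨x, hx⟩ : ∃ x, x = pb io ψ' - dd τ₃ (cmap s γ) := ⟨_, rfl⟩
  have hxm : LZ univ (cmap mk5 x) := by
    have e1 : cmap mk5 x = pb io (cmap mk5 ψ') - dd τ₃ γ := by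
      have e2 : dd τ₃ γ = cmap mk5 (dd τ₃ (cmap s γ)) := by
        rw [← fin4_dd, hsγ]
      rw [e2, hx]
      funext t
      exact map_sub mk5 _ _
    rw [e1]
    exact hγ
  have hxK : LZ K x := by
    rw [hx]
    exact (res_lz hS hψ'F).sub (hsγK.dd τ₃)
  obtain ⟨ξ, hξ⟩ : ∃ ξ, ξ = cmap g x := ⟨_, rfl⟩
  have hξK : LZ K ξ := by
    rw [hξ]
    exact LZ.cmap hxK g hg0
  have hxξ : LZ univ (x - cmap al5 ξ) := by
    intro y hy
    filter_upwards [hxm y hy] with t ht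
    rw [Pi.sub_apply, hξ]
    show x t - al5 (g (x t)) = 0
    rw [hg _ ht, sub_self]
  have hTw3 : IsTw (univ \ K) τ₃ := hK'.tw.mono (fun x hx => hx.2)
  have h1 : LZ univ (dd τ₃ x - dd τ₃ (pb io ψ')) := by
    have h2 : LZ univ (dd τ₃ (dd τ₃ (cmap s γ))) := LZ_dd_dd' hTw3 hsγK
    have e1 : dd τ₃ x - dd τ₃ (pb io ψ') = - dd τ₃ (dd τ₃ (cmap s γ)) := by
      rw [hx, dd_sub]
      abel
    rw [e1]
    exact h2.neg
  have h2 : LZ univ (dd τ₃ (pb io ψ') - pb io (dd τ ψ')) := res_dd hS hT hψ'F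
  have h3 : LZ univ (pb io (dd τ ψ' - cmap al5 w)) := LZ.pb fin4_io hψ'd
  have h4' : LZ univ (dd τ₃ x - pb io (cmap al5 w)) := (h1.trans h2).trans h3
  have h5 : LZ univ (dd τ₃ (x - cmap al5 ξ)) := hxξ.dd τ₃
  rw [dd_sub] at h5
  have h6 : LZ univ (pb io (cmap al5 w) - dd τ₃ (cmap al5 ξ)) := h4'.symm.trans h5
  rw [fin4_dd] at h6
  have h7 : LZ univ (pb io w - dd τ₃ ξ) := by
    intro y hy
    filter_upwards [h6 y hy] with t ht
    apply al5_inj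
    rw [map_zero, Pi.sub_apply, map_sub]
    exact ht
  have h8 : LZ univ (u • (pb io y₁ - z₁)) := fin4_lzsmul u hyr₁
  have h9 : LZ univ (v • (pb io y₂ - z₂)) := fin4_lzsmul v hyr₂
  have h10 : LZ univ (u • z₁ + v • z₂ - dd τ₃ ξ) := by
    have h11 := h7.sub (h8.add h9)
    have e1 : pb io w = u • pb io y₁ + v • pb io y₂ := by
      rw [hw]
      rfl
    rw [e1] at h11
    rw [smul_sub, smul_sub] at h11
    have e2 : u • z₁ + v • z₂ - dd τ₃ ξ = u • pb io y₁ + v • pb io y₂ - dd τ₃ ξ -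
        (u • pb io y₁ - u • z₁ + (v • pb io y₂ - v • z₂)) := by
      abel
    rw [e2]
    exact h11
  exact huv (htwo u v ⟨ξ, hξK, h10⟩)

end PoolFbd
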