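import Pool.Agent.Work.MP_fbd21a_gt.FlDefs

/-! MODULE FlComb. Combining charts: S locally flat in the sphere at p, f : S → S a homeomorphism, (S, K')
a flat pair at f p, K = f⁻¹ K': then K is locally flat at p.
PROOF. ψ chart at p, ψ' chart at f p. U = {(a,b) | (a,b,0) ∈ ψ.target, f (ψ.symm (a,b,0)) ∈ ψ'.source}, open in ℝ × ℝ
(ψ.symm (a,b,0) ∈ S; f continuous on S). ω (a,b) = first two coordinates of ψ' (f (ψ.symm (a,b,0))) (third one is 0).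
U' = {(a,b) | (a,b,0) ∈ ψ'.target, f' (ψ'.symm (a,b,0)) ∈ ψ.source}, ω' similarly with f'. ω : U → U' and ω' : U' → U are
inverse to each other and continuous on the open sets U, U'. The chart is φ x = (ω (ψ x 0, ψ x 1), ψ x 2) on
{x ∈ ψ.source | (ψ x 0, ψ x 1) ∈ U}, with inverse (a,b,z) ↦ ψ.symm (ω' (a,b), z) on {(a,b) ∈ U', (ω' (a,b), z) ∈ ψ.target}.
x ∈ K: then x ∈ S, ψ x 2 = 0, x = ψ.symm (ψ x 0, ψ x 1, 0), f x ∈ K' iff ψ' (f x) 1 = 0. -/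

open Topology Filter Set

namespace PoolFbd

private def fcj (w : ℝ × ℝ) : V3 := ![w.1, w.2, 0]

private theorem fcj_cont : Continuous fcj := by
  refine continuous_pi fun i => ?_
  fin_cases i
  · exact continuous_fst
  · exact continuous_snd
  · exact continuous_const

private theorem fcj_eq {v : V3} (h : v 2 = 0) : fcj (v 0, v 1) = v := by
  funext i
  fin_cases i
  · rfl
  · rfl
  · exact h.symm

private def fcm (ψ ψ' : OpenPartialHomeomorph E3 V3) (f : E3 → E3) (w : ℝ × ℝ) : ℝ × ℝ :=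
  (ψ' (f (ψ.symm (fcj w))) 0, ψ' (f (ψ.symm (fcj w))) 1)

private def fcs (ψ ψ' : OpenPartialHomeomorph E3 V3) (f : E3 → E3) : Set (ℝ × ℝ) :=
  {w | fcj w ∈ ψ.target ∧ f (ψ.symm (fcj w)) ∈ ψ'.source}

private theorem fc_S {S : Set E3} {ψ : OpenPartialHomeomorph E3 V3}
    (hψ : ∀ x ∈ ψ.source, (x ∈ S ↔ ψ x 2 = 0)) {w : ℝ × ℝ} (hw : fcj w ∈ ψ.target) :
    ψ.symm (fcj w) ∈ S := by
  rw [hψ _ (ψ.map_target hw), ψ.right_inv hw]
  rfl

private theorem fc_cont0 {S : Set E3} {ψ : OpenPartialHomeomorph E3 V3} {f : E3 → E3}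
    (hψ : ∀ x ∈ ψ.source, (x ∈ S ↔ ψ x 2 = 0)) (hf : ContinuousOn f S) :
    ContinuousOn (fun w => f (ψ.symm (fcj w))) {w | fcj w ∈ ψ.target} := by
  have h1 : ContinuousOn (fun w => ψ.symm (fcj w)) {w | fcj w ∈ ψ.target} :=
    ψ.continuousOn_symm.comp fcj_cont.continuousOn fun _ hw => hw
  exact hf.comp h1 fun _ hw => fc_S hψ hw

private theorem fc_open {S : Set E3} {ψ ψ' : OpenPartialHomeomorph E3 V3} {f : E3 → E3}
    (hψ : ∀ x ∈ ψ.source, (x ∈ S ↔ ψ x 2 = 0)) (hf : ContinuousOn f S) :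
    IsOpen (fcs ψ ψ' f) :=
  (fc_cont0 hψ hf).isOpen_inter_preimage (ψ.open_target.preimage fcj_cont) ψ'.open_source

private theorem fc_cont {S : Set E3} {ψ ψ' : OpenPartialHomeomorph E3 V3} {f : E3 → E3}
    (hψ : ∀ x ∈ ψ.source, (x ∈ S ↔ ψ x 2 = 0)) (hf : ContinuousOn f S) :
    ContinuousOn (fcm ψ ψ' f) (fcs ψ ψ' f) := by
  have h1 : ContinuousOn (fun w => ψ' (f (ψ.symm (fcj w)))) (fcs ψ ψ' f) :=
    ψ'.continuousOn.comp ((fc_cont0 hψ hf).mono fun _ hw => hw.1) fun _ hw => hw.2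
  exact ((continuous_apply 0).comp_continuousOn h1).prodMk
    ((continuous_apply 1).comp_continuousOn h1)

private theorem fc_inv {S : Set E3} {ψ ψ' : OpenPartialHomeomorph E3 V3} {f f' : E3 → E3}
    (hψ : ∀ x ∈ ψ.source, (x ∈ S ↔ ψ x 2 = 0)) (hψ' : ∀ x ∈ ψ'.source, (x ∈ S ↔ ψ' x 2 = 0))
    (hS : MapsTo f S S) (h1 : ∀ x ∈ S, f' (f x) = x) {w : ℝ × ℝ} (hw : w ∈ fcs ψ ψ' f) :
    fcm ψ ψ' f w ∈ fcs ψ' ψ f' ∧ fcm ψ' ψ f' (fcm ψ ψ' f w) = w := by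
  have hx : ψ.symm (fcj w) ∈ S := fc_S hψ hw.1
  have hfx : f (ψ.symm (fcj w)) ∈ S := hS hx
  have h2 : fcj (fcm ψ ψ' f w) = ψ' (f (ψ.symm (fcj w))) := fcj_eq ((hψ' _ hw.2).mp hfx)
  have h3 : ψ'.symm (fcj (fcm ψ ψ' f w)) = f (ψ.symm (fcj w)) := by
    rw [h2, ψ'.left_inv hw.2]
  refine ⟨⟨?_, ?_⟩, ?_⟩
  · rw [h2]
    exact ψ'.map_source hw.2
  · rw [h3, h1 _ hx]
    exact ψ.map_target hw.1
  · change (ψ (f' (ψ'.symm (fcj (fcm ψ ψ' f w)))) 0, ψ (f' (ψ'.symm (fcj (fcm ψ ψ' f w)))) 1) = w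
    rw [h3, h1 _ hx, ψ.right_inv hw.1]
    rfl

/-- The change of the first two coordinates. -/
private def fcO {S : Set E3} (ψ ψ' : OpenPartialHomeomorph E3 V3) (f f' : E3 → E3)
    (hψ : ∀ x ∈ ψ.source, (x ∈ S ↔ ψ x 2 = 0)) (hψ' : ∀ x ∈ ψ'.source, (x ∈ S ↔ ψ' x 2 = 0))
    (hf : ContinuousOn f S) (hf' : ContinuousOn f' S)
    (hS : MapsTo f S S) (hS' : MapsTo f' S S) (h1 : ∀ x ∈ S, f' (f x) = x)
    (h2 : ∀ x ∈ S, f (f' x) = x) : OpenPartialHomeomorph V3 V3 where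
  toFun v := ![(fcm ψ ψ' f (v 0, v 1)).1, (fcm ψ ψ' f (v 0, v 1)).2, v 2]
  invFun v := ![(fcm ψ' ψ f' (v 0, v 1)).1, (fcm ψ' ψ f' (v 0, v 1)).2, v 2]
  source := {v | (v 0, v 1) ∈ fcs ψ ψ' f}
  target := {v | (v 0, v 1) ∈ fcs ψ' ψ f'}
  map_source' v hv := (fc_inv hψ hψ' hS h1 hv).1
  map_target' v hv := (fc_inv hψ' hψ hS' h2 hv).1
  left_inv' v hv := by
    have h3 := (fc_inv hψ hψ' hS h1 hv).2
    funext i
    fin_cases i
    · exact congrArg Prod.fst h3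
    · exact congrArg Prod.snd h3
    · rfl
  right_inv' v hv := by
    have h3 := (fc_inv hψ' hψ hS' h2 hv).2
    funext i
    fin_cases i
    · exact congrArg Prod.fst h3
    · exact congrArg Prod.snd h3
    · rfl
  open_source := (fc_open hψ hf).preimage ((continuous_apply 0).prodMk (continuous_apply 1))
  open_target := (fc_open hψ' hf').preimage ((continuous_apply 0).prodMk (continuous_apply 1))
  continuousOn_toFun := by
    have h3 : ContinuousOn (fun v : V3 => fcm ψ ψ' f (v 0, v 1)) {v | (v 0, v 1) ∈ fcs ψ ψ' f} :=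
      (fc_cont hψ hf).comp ((continuous_apply 0).prodMk (continuous_apply 1)).continuousOn
        fun _ hv => hv
    refine continuousOn_pi.mpr fun i => ?_
    fin_cases i
    · exact continuous_fst.comp_continuousOn h3
    · exact continuous_snd.comp_continuousOn h3
    · exact (continuous_apply 2).continuousOn
  continuousOn_invFun := by
    have h3 : ContinuousOn (fun v : V3 => fcm ψ' ψ f' (v 0, v 1)) {v | (v 0, v 1) ∈ fcs ψ' ψ f'} :=
      (fc_cont hψ' hf').comp ((continuous_apply 0).prodMk (continuous_apply 1)).continuousOn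
        fun _ hv => hv
    refine continuousOn_pi.mpr fun i => ?_
    fin_cases i
    · exact continuous_fst.comp_continuousOn h3
    · exact continuous_snd.comp_continuousOn h3
    · exact (continuous_apply 2).continuousOn

theorem flat_comb {S K K' : Set E3} {f f' : E3 → E3} (hf : ContinuousOn f S)
    (hf' : ContinuousOn f' S) (hS : MapsTo f S S) (hS' : MapsTo f' S S)
    (h1 : ∀ x ∈ S, f' (f x) = x) (h2 : ∀ x ∈ S, f (f' x) = x) (hKS : K ⊆ S)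
    (hK : ∀ x ∈ S, (x ∈ K ↔ f x ∈ K')) {p : E3} (hp : p ∈ S) (s1 : SFlat S p)
    (s2 : PFlat S K' (f p)) : KFlat K p := by
  obtain ⟨ψ, hpψ, hψ⟩ := s1
  obtain ⟨ψ', hpψ', hψ'⟩ := s2
  have hψ1 : ∀ x ∈ ψ'.source, (x ∈ S ↔ ψ' x 2 = 0) := fun x hx => (hψ' x hx).1
  refine ⟨ψ.trans (fcO ψ ψ' f f' hψ hψ1 hf hf' hS hS' h1 h2), ?_, ?_⟩
  · rw [OpenPartialHomeomorph.trans_source]
    refine ⟨hpψ, ?_⟩
    change (ψ p 0, ψ p 1) ∈ fcs ψ ψ' f
    have h3 : fcj (ψ p 0, ψ p 1) = ψ p := fcj_eq ((hψ p hpψ).mp hp)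
    refine ⟨?_, ?_⟩
    · rw [h3]
      exact ψ.map_source hpψ
    · rw [h3, ψ.left_inv hpψ]
      exact hpψ'
  · intro x hx
    rw [OpenPartialHomeomorph.trans_source] at hx
    have hxs : (ψ x 0, ψ x 1) ∈ fcs ψ ψ' f := hx.2
    change x ∈ K ↔ ψ' (f (ψ.symm (fcj (ψ x 0, ψ x 1)))) 1 = 0 ∧ ψ x 2 = 0
    constructor
    · intro hxK
      have hxS : x ∈ S := hKS hxK
      have h4 : ψ x 2 = 0 := (hψ x hx.1).mp hxS
      have h3 : fcj (ψ x 0, ψ x 1) = ψ x := fcj_eq h4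
      have h5 := hxs.2
      rw [h3, ψ.left_inv hx.1] at h5 ⊢
      exact ⟨((hψ' _ h5).2.mp ((hK x hxS).mp hxK)).1, h4⟩
    · rintro ⟨h6, h4⟩
      have hxS : x ∈ S := (hψ x hx.1).mpr h4
      have h3 : fcj (ψ x 0, ψ x 1) = ψ x := fcj_eq h4
      have h5 := hxs.2
      rw [h3, ψ.left_inv hx.1] at h5 h6
      exact (hK x hxS).mpr ((hψ' _ h5).2.mpr ⟨h6, (hψ1 _ h5).mp (hS hxS)⟩)

end PoolFbd
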