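import Pool.Agent.Work.MP_fbd21a_gt.KapF

/-! MODULE UpF. The subsets of E3: closedness and intersections.
up_closed: H closed → up H closed. hp_closed etc: the sets are closed in V3 (finite unions/intersections
of closed conditions; max/abs continuous).
rk_cover: every x or rho3 x has x0 ≥ 0; inv0 x ∈ cub = Hp ∪ Hm.
rk_inter: x ∈ Rk ∩ rho3⁻¹ Rk. x0 > 0: x ∈ up Hp (second part of Rk needs x0 ≤ 0) and rho3 x ∈ Rk via
x ∈ up Hm (rho3 (rho3 x) = x): x ∈ Sk. x0 < 0: same for rho3 x. x0 = 0: inv0 x = v, inv0 (rho3 x) = (X,-Y,-Z);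
some |v i| = 5. All four memberships possible: up Hp says Z ≥ 0, rho3⁻¹ up Hm says -Z ≤ 0 or arch (the arch does
not meet the boundary of the cube except... |X| ≤ 3, |Y| ≤ 1, Z ≤ 3: then Z' = -Z = -5 or |v i| = 5 impossible
with these bounds unless Z = -5, excluded for the arch part (then the first alternative Z' ≤ 0 holds)). So in
Rk: Z ≥ 0; in rho3⁻¹ Rk: -Z ≥ 0: Z = 0, v ∈ Hp ∩ Hm: (Z = 0, |X| = 5 or |Y| = 5), so x ∈ Kk ⊆ Sk.
sk_inter: Sk ∩ rho3⁻¹ Sk: x0 ≥ 0 and -x0 ≥ 0: x0 = 0, Z ≥ 0 .. Z = 0 : Kk. Conversely Kk ⊆ both.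
All other facts are similar case distinctions. -/

open Topology Filter Set

namespace PoolFbd

private theorem cc (i : Fin 3) : Continuous fun v : V3 => v i := continuous_apply i

private theorem ca (i : Fin 3) : Continuous fun v : V3 => |v i| := (continuous_apply i).abs

theorem cub_closed : IsClosed cub := by
  have : cub = ⋂ i, {v : V3 | |v i| ≤ 5} := by
    ext v
    simp [cub]
  rw [this]
  exact isClosed_iInter fun i => isClosed_le (ca i) continuous_const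

theorem hp_closed : IsClosed Hp :=
  cub_closed.inter ((isClosed_le continuous_const (cc 2)).inter
    ((isClosed_le continuous_const (ca 0)).union ((isClosed_le continuous_const (cc 2)).union
      ((isClosed_le continuous_const (ca 1)).union
        ((isClosed_le (ca 0) continuous_const).inter (isClosed_le (cc 2) continuous_const))))))

theorem hm_closed : IsClosed Hm :=
  cub_closed.inter ((isClosed_le (cc 2) continuous_const).union
    ((isClosed_le (ca 0) continuous_const).inter ((isClosed_le (cc 2) continuous_const).inter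
      ((isClosed_le (ca 1) continuous_const).inter ((isClosed_le continuous_const (ca 0)).union
        (isClosed_le continuous_const (cc 2)))))))

theorem k0_closed : IsClosed K0v :=
  cub_closed.inter ((isClosed_eq (cc 2) continuous_const).inter
    ((isClosed_eq (ca 0) continuous_const).union (isClosed_eq (ca 1) continuous_const)))

theorem dp_closed : IsClosed Dpv :=
  cub_closed.inter ((isClosed_le continuous_const (cc 2)).inter
    ((isClosed_eq (cc 2) continuous_const).union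
    ((isClosed_eq (ca 0) continuous_const).union (isClosed_eq (ca 1) continuous_const))))

theorem up_closed {H : Set V3} (hH : IsClosed H) : IsClosed (up H) :=
  (isClosed_le continuous_const (e3_coord_cont 0)).inter (hH.preimage inv0_cont)

theorem rk_closed : IsClosed Rk :=
  (up_closed hp_closed).union ((up_closed hm_closed).preimage rho3_cont)

theorem sk_closed : IsClosed Sk := up_closed (hp_closed.inter hm_closed)

theorem kk_closed : IsClosed Kk := up_closed k0_closed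

theorem sig_closed : IsClosed Sig := sk_closed.union (sk_closed.preimage rho3_cont)

theorem sig_rho : rho3 ⁻¹' Sig = Sig := by
  ext x
  show rho3 x ∈ Sk ∨ rho3 (rho3 x) ∈ Sk ↔ x ∈ Sk ∨ rho3 x ∈ Sk
  rw [rho3_rho3]
  exact or_comm

theorem cub_cases {v : V3} (hv : v ∈ cub) : v ∈ Hp ∨ v ∈ Hm := by
  by_cases h0 : v 2 ≤ 0
  · exact Or.inr ⟨hv, Or.inl h0⟩
  push Not at h0
  by_cases h1 : 3 ≤ |v 0|
  · exact Or.inl ⟨hv, h0.le, Or.inl h1⟩
  by_cases h2 : 3 ≤ v 2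
  · exact Or.inl ⟨hv, h0.le, Or.inr (Or.inl h2)⟩
  by_cases h3 : 1 ≤ |v 1|
  · exact Or.inl ⟨hv, h0.le, Or.inr (Or.inr (Or.inl h3))⟩
  by_cases h4 : |v 0| ≤ 1 ∧ v 2 ≤ 1
  · exact Or.inl ⟨hv, h0.le, Or.inr (Or.inr (Or.inr h4))⟩
  push Not at h1 h2 h3 h4
  refine Or.inr ⟨hv, Or.inr ⟨h1.le, h2.le, h3.le, ?_⟩⟩
  by_cases h5 : |v 0| ≤ 1
  · exact Or.inr (h4 h5).le
  · push Not at h5
    exact Or.inl h5.le

theorem mem_rk (x : E3) : x ∈ Rk ↔ (0 ≤ (x.1 0 : ℝ) ∧ inv0 x ∈ Hp) ∨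
    (0 ≤ -(x.1 0 : ℝ) ∧ inv0 (rho3 x) ∈ Hm) := by
  show (0 ≤ (x.1 0 : ℝ) ∧ inv0 x ∈ Hp) ∨ (0 ≤ ((rho3 x).1 0 : ℝ) ∧ inv0 (rho3 x) ∈ Hm) ↔ _
  rw [x0_rho]

theorem mem_rk' (x : E3) : rho3 x ∈ Rk ↔ (0 ≤ -(x.1 0 : ℝ) ∧ inv0 (rho3 x) ∈ Hp) ∨
    (0 ≤ (x.1 0 : ℝ) ∧ inv0 x ∈ Hm) := by
  rw [mem_rk, rho3_rho3, x0_rho, neg_neg]

theorem mem_sk (x : E3) : x ∈ Sk ↔ 0 ≤ (x.1 0 : ℝ) ∧ inv0 x ∈ Hp ∧ inv0 x ∈ Hm := Iff.rfl

theorem mem_sk' (x : E3) : rho3 x ∈ Sk ↔ 0 ≤ -(x.1 0 : ℝ) ∧ inv0 (rho3 x) ∈ Hp ∧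
    inv0 (rho3 x) ∈ Hm := by
  rw [mem_sk, x0_rho]

theorem rk_cover : Rk ∪ rho3 ⁻¹' Rk = univ := by
  rw [eq_univ_iff_forall]
  intro x
  show x ∈ Rk ∨ rho3 x ∈ Rk
  rw [mem_rk, mem_rk']
  rcases le_total 0 (x.1 0 : ℝ) with h | h
  · rcases cub_cases (inv0_cub x) with h1 | h1
    · exact Or.inl (Or.inl ⟨h, h1⟩)
    · exact Or.inr (Or.inr ⟨h, h1⟩)
  · have h' : 0 ≤ -(x.1 0 : ℝ) := by linarith
    rcases cub_cases (inv0_cub (rho3 x)) with h1 | h1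
    · exact Or.inr (Or.inl ⟨h', h1⟩)
    · exact Or.inl (Or.inr ⟨h', h1⟩)

/-- On the common boundary of the two cubes. -/
theorem bdry_cases {x : E3} (h : 0 ≤ (x.1 0 : ℝ)) (h' : 0 ≤ -(x.1 0 : ℝ)) :
    |inv0 x 0| = 5 ∨ |inv0 x 1| = 5 ∨ |inv0 x 2| = 5 := by
  obtain ⟨i, hi⟩ := (inv0_bdry x).1 (by linarith)
  fin_cases i
  · exact Or.inl hi
  · exact Or.inr (Or.inl hi)
  · exact Or.inr (Or.inr hi)

theorem rk_inter : Rk ∩ rho3 ⁻¹' Rk = Sig := by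
  ext x
  show x ∈ Rk ∧ rho3 x ∈ Rk ↔ x ∈ Sk ∨ rho3 x ∈ Sk
  rw [mem_rk, mem_rk', mem_sk, mem_sk']
  constructor
  · rintro ⟨⟨h1, h2⟩ | ⟨h1, h2⟩, ⟨h3, h4⟩ | ⟨h3, h4⟩⟩
    · left
      refine ⟨h1, h2, inv0_cub x, Or.inl ?_⟩
      have h5 : 0 ≤ inv0 (rho3 x) 2 := h4.2.1
      rw [inv0_Z] at h5
      linarith
    · exact Or.inl ⟨h1, h2, h4⟩
    · exact Or.inr ⟨h1, h4, h2⟩
    · left
      have hb := bdry_cases h3 h1
      obtain ⟨-, h2⟩ := h2
      rw [inv0_X, inv0_Y, inv0_Z, abs_neg] at h2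
      refine ⟨h3, ?_, h4⟩
      obtain ⟨-, h4⟩ := h4
      rcases h2 with h2 | ⟨h2, h5, h6, -⟩
      · rcases h4 with h4 | ⟨h4, h7, h8, -⟩
        · have hz : inv0 x 2 = 0 := by linarith
          rcases hb with hb | hb | hb
          · exact ⟨inv0_cub x, by linarith, Or.inl (by rw [hb]; norm_num)⟩
          · exact ⟨inv0_cub x, by linarith, Or.inr (Or.inr (Or.inl (by rw [hb]; norm_num)))⟩
          · rw [hz, abs_zero] at hb
            norm_num at hb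
        · exfalso
          rcases hb with hb | hb | hb
          · linarith
          · linarith
          · rw [abs_of_nonneg (by linarith)] at hb
            linarith
      · exfalso
        rcases hb with hb | hb | hb
        · linarith
        · linarith
        · rcases h4 with h4 | ⟨-, h7, -, -⟩
          · rw [abs_of_nonpos h4] at hb
            linarith
          · rcases abs_cases (inv0 x 2) with ⟨ha, -⟩ | ⟨ha, -⟩ <;> linarith
  · rintro (⟨h1, h2, h3⟩ | ⟨h1, h2, h3⟩)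
    · exact ⟨Or.inl ⟨h1, h2⟩, Or.inr ⟨h1, h3⟩⟩
    · exact ⟨Or.inr ⟨h1, h3⟩, Or.inl ⟨h1, h2⟩⟩

theorem sk_inter : Sk ∩ rho3 ⁻¹' Sk = Kk := by
  ext x
  show x ∈ Sk ∧ rho3 x ∈ Sk ↔ 0 ≤ (x.1 0 : ℝ) ∧ inv0 x ∈ K0v
  rw [mem_sk, mem_sk']
  constructor
  · rintro ⟨⟨h1, h2, -⟩, ⟨h4, h5, -⟩⟩
    have h6 : 0 ≤ inv0 (rho3 x) 2 := h5.2.1
    rw [inv0_Z] at h6
    have h7 : 0 ≤ inv0 x 2 := h2.2.1
    have hz : inv0 x 2 = 0 := by linarith
    refine ⟨h1, inv0_cub x, hz, ?_⟩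
    rcases bdry_cases h1 h4 with hb | hb | hb
    · exact Or.inl hb
    · exact Or.inr hb
    · rw [hz, abs_zero] at hb
      norm_num at hb
  · rintro ⟨h1, h2, h3, h4⟩
    have h0 : (x.1 0 : ℝ) = 0 := (inv0_bdry x).2 (by
      rcases h4 with h | h
      · exact ⟨0, h⟩
      · exact ⟨1, h⟩)
    have hp : ∀ v : V3, v ∈ cub → v 2 = 0 → (|v 0| = 5 ∨ |v 1| = 5) → v ∈ Hp ∧ v ∈ Hm := by
      intro v a b c
      refine ⟨⟨a, b.ge, ?_⟩, a, Or.inl b.le⟩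
      rcases c with c | c
      · exact Or.inl (by rw [c]; norm_num)
      · exact Or.inr (Or.inr (Or.inl (by rw [c]; norm_num)))
    refine ⟨⟨h1, hp _ h2 h3 h4⟩, by rw [h0, neg_zero], hp _ (inv0_cub _) ?_ ?_⟩
    · rw [inv0_Z, h3, neg_zero]
    · rw [inv0_X, inv0_Y, abs_neg]
      exact h4

theorem kk_rho : rho3 ⁻¹' Kk = Kk := by
  rw [← sk_inter]
  ext x
  show rho3 x ∈ Sk ∧ rho3 (rho3 x) ∈ Sk ↔ x ∈ Sk ∧ rho3 x ∈ Sk
  rw [rho3_rho3]
  exact and_comm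

theorem kk_sk : Kk ⊆ Sk := by
  rw [← sk_inter]
  exact inter_subset_left

theorem sk_rk : Sk ⊆ Rk := fun _ hx => Or.inl ⟨hx.1, hx.2.1⟩

theorem sk_rk' : rho3 ⁻¹' Sk ⊆ Rk := fun _ hx => Or.inr ⟨hx.1, hx.2.2⟩

theorem rk_mid : up Hp ∩ rho3 ⁻¹' up Hm = up Dpv := by
  ext x
  show (0 ≤ (x.1 0 : ℝ) ∧ inv0 x ∈ Hp) ∧ (0 ≤ ((rho3 x).1 0 : ℝ) ∧ inv0 (rho3 x) ∈ Hm) ↔
    0 ≤ (x.1 0 : ℝ) ∧ inv0 x ∈ Dpv
  rw [x0_rho]
  constructor
  · rintro ⟨⟨h1, h2⟩, ⟨h3, h4⟩⟩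
    refine ⟨h1, inv0_cub x, h2.2.1, ?_⟩
    rcases bdry_cases h1 h3 with hb | hb | hb
    · exact Or.inr (Or.inl hb)
    · exact Or.inr (Or.inr hb)
    · rw [abs_of_nonneg h2.2.1] at hb
      exact Or.inl hb
  · rintro ⟨h1, h2, h3, h4⟩
    have h0 : (x.1 0 : ℝ) = 0 := (inv0_bdry x).2 (by
      rcases h4 with h | h | h
      · exact ⟨2, by rw [h]; norm_num⟩
      · exact ⟨0, h⟩
      · exact ⟨1, h⟩)
    refine ⟨⟨h1, h2, h3, ?_⟩, by rw [h0, neg_zero], inv0_cub _, Or.inl ?_⟩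
    · rcases h4 with h | h | h
      · exact Or.inr (Or.inl (by rw [h]; norm_num))
      · exact Or.inl (by rw [h]; norm_num)
      · exact Or.inr (Or.inr (Or.inl (by rw [h]; norm_num)))
    · rw [inv0_Z]
      linarith

end PoolFbd
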