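import Pool.Agent.Work.MP_fbd21a_gt.NuDefs
import Pool.Agent.Work.MP_fbd21a_gt.UpF

/-! MODULE NuB. nuB and nuB' are annuli of Sig.
PROOF. For l in [0,6]: (bX, bZ) runs through the boundary of [-1,1] × [0,1]: (-1,l) for l ≤ 1, (l-2, 1) for 1 ≤ l ≤ 3,
(1, 4-l) for 3 ≤ l ≤ 4, (5-l, 0) for l ≥ 4; injective on [0,6), equal values at 0 and 6 (continuity of
l ↦ bX (6 fract l): continuous on ℝ since bX 0 = bX 6, bZ 0 = bZ 6: `ContinuousOn.comp_fract`, or
`Int.fract` lemmas, or write near every l₀). The points v = (bX, s - 1/2, bZ) lie in cub with |v i| ≤ 1, and in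
Hp ∩ Hm: |X| ≤ 1, 0 ≤ Z ≤ 1 (Hp, last alternative), and Z = 0 or |X| = 1 or Z = 1 (Hm). kap is injective on cub
(inv0_kap). So nuB l s ∈ up (Hp ∩ Hm) = Sk (kap_nonneg). Injectivity of nuB: s from Y, then fract l = fract l'.
opn: O = {x | 0 < x0 ∧ |inv0 x 0| < 2 ∧ |inv0 x 1| < 1/2 ∧ inv0 x 2 < 2}, open. If x ∈ O ∩ Sig then x ∈ Sk
(x0 > 0: rho3 x ∉ Sk), v = inv0 x ∈ Hp gives |X| ≤ 1, 0 ≤ Z ≤ 1, v ∈ Hm gives Z = 0 or |X| = 1 or Z = 1 (1 ≤ |X| or 1 ≤ Z):
a point of the rectangle boundary, = (bX l, bZ l) for some l ∈ [0,6). x = kap v (kap_inv0). Conversely clear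
(kap v has x0 = 1 > 0 for |v i| ≤ 1). nuB' = rho3 ∘ nuB: rho3 is a homeomorphism with rho3⁻¹ Sig = Sig.
rect_surj: the surjectivity statement on the rectangle used above. -/

open Topology Filter Set

namespace PoolFbd

theorem nb_r1 {l : ℝ} (h0 : 0 ≤ l) (h1 : l ≤ 1) : bX l = -1 ∧ bZ l = l := by
  unfold bX bZ
  rw [min_eq_left (by linarith : l - 2 ≤ 5 - l), min_eq_right (by linarith : l - 2 ≤ 1),
    max_eq_left (by linarith : l - 2 ≤ -1), min_eq_left (by linarith : l ≤ 4 - l),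
    min_eq_right h1, max_eq_right h0]
  exact ⟨rfl, rfl⟩

theorem nb_r2 {l : ℝ} (h0 : 1 ≤ l) (h1 : l ≤ 3) : bX l = l - 2 ∧ bZ l = 1 := by
  unfold bX bZ
  rw [min_eq_left (by linarith : l - 2 ≤ 5 - l), min_eq_right (by linarith : l - 2 ≤ 1),
    max_eq_right (by linarith : -1 ≤ l - 2), min_eq_left (le_min h0 (by linarith : 1 ≤ 4 - l)),
    max_eq_right (by norm_num)]
  exact ⟨rfl, rfl⟩

theorem nb_r3 {l : ℝ} (h0 : 3 ≤ l) (h1 : l ≤ 4) : bX l = 1 ∧ bZ l = 4 - l := by
  unfold bX bZ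
  rw [min_eq_left (le_min (by linarith : 1 ≤ l - 2) (by linarith : 1 ≤ 5 - l)),
    max_eq_right (by norm_num : (-1 : ℝ) ≤ 1), min_eq_right (by linarith : 4 - l ≤ l),
    min_eq_right (by linarith : 4 - l ≤ 1), max_eq_right (by linarith : 0 ≤ 4 - l)]
  exact ⟨rfl, rfl⟩

theorem nb_r4 {l : ℝ} (h0 : 4 ≤ l) (h1 : l ≤ 6) : bX l = 5 - l ∧ bZ l = 0 := by
  unfold bX bZ
  rw [min_eq_right (by linarith : 5 - l ≤ l - 2), min_eq_right (by linarith : 5 - l ≤ 1),
    max_eq_right (by linarith : -1 ≤ 5 - l), min_eq_right (by linarith : 4 - l ≤ l),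
    min_eq_right (by linarith : 4 - l ≤ 1), max_eq_left (by linarith : 4 - l ≤ 0)]
  exact ⟨rfl, rfl⟩

theorem rect_mem (l : ℝ) : |bX l| ≤ 1 ∧ 0 ≤ bZ l ∧ bZ l ≤ 1 ∧ (0 ≤ l → l ≤ 6 →
    bZ l = 0 ∨ |bX l| = 1 ∨ bZ l = 1) := by
  refine ⟨?_, ?_, ?_, ?_⟩
  · rw [abs_le]
    exact ⟨le_max_left _ _, max_le (by norm_num) (min_le_left _ _)⟩
  · exact le_max_left _ _
  · exact max_le (by norm_num) (min_le_left _ _)
  · intro h0 h6
    rcases le_total l 1 with h1 | h1
    · right; left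
      rw [(nb_r1 h0 h1).1]
      norm_num
    · rcases le_total l 3 with h3 | h3
      · right; right
        exact (nb_r2 h1 h3).2
      · rcases le_total l 4 with h4 | h4
        · right; left
          rw [(nb_r3 h3 h4).1]
          norm_num
        · left
          exact (nb_r4 h4 h6).2

private theorem nb_cases {l : ℝ} (h0 : 0 ≤ l) (h6 : l < 6) :
    (0 ≤ l ∧ l ≤ 1 ∧ bX l = -1 ∧ bZ l = l) ∨ (1 ≤ l ∧ l ≤ 3 ∧ bX l = l - 2 ∧ bZ l = 1) ∨
    (3 ≤ l ∧ l ≤ 4 ∧ bX l = 1 ∧ bZ l = 4 - l) ∨ (4 ≤ l ∧ l < 6 ∧ bX l = 5 - l ∧ bZ l = 0) := by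
  rcases le_total l 1 with h1 | h1
  · exact Or.inl ⟨h0, h1, nb_r1 h0 h1⟩
  · rcases le_total l 3 with h3 | h3
    · exact Or.inr (Or.inl ⟨h1, h3, nb_r2 h1 h3⟩)
    · rcases le_total l 4 with h4 | h4
      · exact Or.inr (Or.inr (Or.inl ⟨h3, h4, nb_r3 h3 h4⟩))
      · exact Or.inr (Or.inr (Or.inr ⟨h4, h6, nb_r4 h4 h6.le⟩))

theorem rect_inj {l l' : ℝ} (h0 : 0 ≤ l) (h6 : l < 6) (h0' : 0 ≤ l') (h6' : l' < 6)
    (hX : bX l = bX l') (hZ : bZ l = bZ l') : l = l' := by
  rcases nb_cases h0 h6 with ⟨a1, a2, a3, a4⟩ | ⟨a1, a2, a3, a4⟩ | ⟨a1, a2, a3, a4⟩ |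
    ⟨a1, a2, a3, a4⟩ <;>
  rcases nb_cases h0' h6' with ⟨b1, b2, b3, b4⟩ | ⟨b1, b2, b3, b4⟩ | ⟨b1, b2, b3, b4⟩ |
    ⟨b1, b2, b3, b4⟩ <;>
  rw [a3, b3] at hX <;> rw [a4, b4] at hZ <;> linarith

theorem rect_surj {x z : ℝ} (hx : |x| ≤ 1) (hz : 0 ≤ z) (hz1 : z ≤ 1)
    (h : z = 0 ∨ |x| = 1 ∨ z = 1) : ∃ l, 0 ≤ l ∧ l < 6 ∧ bX l = x ∧ bZ l = z := by
  rw [abs_le] at hx
  rcases h with rfl | h | rfl
  · rcases hx.1.eq_or_lt with h1 | h1
    · refine ⟨0, le_rfl, by norm_num, ?_, ?_⟩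
      · rw [(nb_r1 le_rfl (by norm_num)).1, h1]
      · rw [(nb_r1 le_rfl (by norm_num)).2]
    · refine ⟨5 - x, by linarith, by linarith, ?_, ?_⟩
      · rw [(nb_r4 (by linarith) (by linarith)).1]; ring
      · rw [(nb_r4 (by linarith) (by linarith)).2]
  · rcases eq_or_eq_neg_of_abs_eq h with rfl | rfl
    · refine ⟨4 - z, by linarith, by linarith, ?_, ?_⟩
      · rw [(nb_r3 (by linarith) (by linarith)).1]
      · rw [(nb_r3 (by linarith) (by linarith)).2]; ring
    · refine ⟨z, by linarith, by linarith, ?_, ?_⟩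
      · rw [(nb_r1 (by linarith) (by linarith)).1]
      · rw [(nb_r1 (by linarith) (by linarith)).2]
  · refine ⟨x + 2, by linarith, by linarith, ?_, ?_⟩
    · rw [(nb_r2 (by linarith) (by linarith)).1]; ring
    · rw [(nb_r2 (by linarith) (by linarith)).2]

private theorem nb_bX_cont : Continuous bX := by
  unfold bX
  fun_prop

private theorem nb_bZ_cont : Continuous bZ := by
  unfold bZ
  fun_prop

theorem nb_vec_cub {a b c : ℝ} (ha : |a| ≤ 1) (hb : |b| ≤ 1) (hc : |c| ≤ 1) :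
    (![a, b, c] : V3) ∈ cub := by
  intro i
  fin_cases i
  · change |a| ≤ 5; linarith
  · change |b| ≤ 5; linarith
  · change |c| ≤ 5; linarith

theorem nb_frac (l : ℝ) : 0 ≤ 6 * Int.fract l ∧ 6 * Int.fract l < 6 := by
  have h1 := Int.fract_nonneg l
  have h2 := Int.fract_lt_one l
  constructor <;> linarith

theorem nb_mem_sk (l : ℝ) {s : ℝ} (hs : s ∈ Icc (0 : ℝ) 1) : nuB l s ∈ Sk := by
  obtain ⟨h1, h2, h3, h4⟩ := rect_mem (6 * Int.fract l)
  have hY : |s - 1 / 2| ≤ 1 := by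
    rw [abs_le]
    constructor <;> linarith [hs.1, hs.2]
  have hcub : (![bX (6 * Int.fract l), s - 1 / 2, bZ (6 * Int.fract l)] : V3) ∈ cub :=
    nb_vec_cub h1 hY (by rw [abs_le]; constructor <;> linarith)
  refine ⟨kap_nonneg _, ?_⟩
  unfold nuB
  rw [inv0_kap hcub]
  refine ⟨⟨hcub, h2, Or.inr (Or.inr (Or.inr ⟨h1, h3⟩))⟩, hcub, ?_⟩
  have hY2 : |s - 1 / 2| ≤ 1 / 2 := by
    rw [abs_le]
    constructor <;> linarith [hs.1, hs.2]
  rcases h4 (nb_frac l).1 (nb_frac l).2.le with h5 | h5 | h5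
  · left
    exact h5.le
  · right
    refine ⟨?_, ?_, ?_, Or.inl ?_⟩
    · change |bX _| ≤ 3; linarith
    · change bZ _ ≤ 3; linarith
    · change |s - 1 / 2| ≤ 1; linarith
    · exact h5.ge
  · right
    refine ⟨?_, ?_, ?_, Or.inr ?_⟩
    · change |bX _| ≤ 3; linarith
    · change bZ _ ≤ 3; linarith
    · change |s - 1 / 2| ≤ 1; linarith
    · exact h5.ge

private theorem nb_cont : ContinuousOn (fun p : ℝ × ℝ => nuB p.1 p.2) (univ ×ˢ Icc 0 1) := by
  have hX : Continuous (fun l : ℝ => bX (6 * Int.fract l)) := by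
    have h1 : ContinuousOn (fun l : ℝ => bX (6 * l)) (Icc 0 1) :=
      (nb_bX_cont.comp (continuous_const.mul continuous_id)).continuousOn
    refine ContinuousOn.comp_fract'' h1 ?_
    rw [mul_zero, mul_one, (nb_r1 le_rfl (by norm_num)).1, (nb_r4 (by norm_num) le_rfl).1]
    norm_num
  have hZ : Continuous (fun l : ℝ => bZ (6 * Int.fract l)) := by
    have h1 : ContinuousOn (fun l : ℝ => bZ (6 * l)) (Icc 0 1) :=
      (nb_bZ_cont.comp (continuous_const.mul continuous_id)).continuousOn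
    refine ContinuousOn.comp_fract'' h1 ?_
    rw [mul_zero, mul_one, (nb_r1 le_rfl (by norm_num)).2, (nb_r4 (by norm_num) le_rfl).2]
  refine Continuous.continuousOn (kap_cont.comp ?_)
  refine continuous_pi fun i => ?_
  fin_cases i
  · exact hX.comp continuous_fst
  · exact continuous_snd.sub continuous_const
  · exact hZ.comp continuous_fst

theorem ann_nuB : Ann Sig nuB := by
  refine ⟨sig_closed, nb_cont, fun l s hs => Or.inl (nb_mem_sk l hs), ?_, ?_, ?_⟩
  · intro l s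
    unfold nuB
    rw [Int.fract_add_one]
  · intro l l' s hs s' hs' heq
    obtain ⟨h1, h2, h3, -⟩ := rect_mem (6 * Int.fract l)
    obtain ⟨h1', h2', h3', -⟩ := rect_mem (6 * Int.fract l')
    have hY : |s - 1 / 2| ≤ 1 := by
      rw [abs_le]
      constructor <;> linarith [hs.1, hs.2]
    have hY' : |s' - 1 / 2| ≤ 1 := by
      rw [abs_le]
      constructor <;> linarith [hs'.1, hs'.2]
    have hcub : (![bX (6 * Int.fract l), s - 1 / 2, bZ (6 * Int.fract l)] : V3) ∈ cub :=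
      nb_vec_cub h1 hY (by rw [abs_le]; constructor <;> linarith)
    have hcub' : (![bX (6 * Int.fract l'), s' - 1 / 2, bZ (6 * Int.fract l')] : V3) ∈ cub :=
      nb_vec_cub h1' hY' (by rw [abs_le]; constructor <;> linarith)
    have h5 := congrArg inv0 heq
    unfold nuB at h5
    rw [inv0_kap hcub, inv0_kap hcub'] at h5
    have e0 : bX (6 * Int.fract l) = bX (6 * Int.fract l') := congrFun h5 0
    have e1 : s - 1 / 2 = s' - 1 / 2 := congrFun h5 1
    have e2 : bZ (6 * Int.fract l) = bZ (6 * Int.fract l') := congrFun h5 2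
    refine ⟨by linarith, ?_⟩
    have h6 := rect_inj (nb_frac l).1 (nb_frac l).2 (nb_frac l').1 (nb_frac l').2 e0 e2
    have h7 : Int.fract l' = Int.fract l := by linarith
    obtain ⟨n, hn⟩ := Int.fract_eq_fract.mp h7
    exact ⟨n, by linarith⟩
  · refine ⟨{x : E3 | 0 < (x.1 0 : ℝ) ∧ |inv0 x 0| < 2 ∧ |inv0 x 1| < 1 / 2 ∧ inv0 x 2 < 2},
      ?_, ?_⟩
    · have hi : ∀ i, Continuous fun x : E3 => inv0 x i := fun i =>
        (continuous_apply i).comp inv0_cont
      have h0 : Continuous fun x : E3 => (x.1 0 : ℝ) :=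
        continuous_subtype_val.comp ((continuous_apply 0).comp continuous_subtype_val)
      exact (isOpen_lt continuous_const h0).inter ((isOpen_lt (hi 0).abs continuous_const).inter
        ((isOpen_lt (hi 1).abs continuous_const).inter (isOpen_lt (hi 2) continuous_const)))
    · ext x
      constructor
      · rintro ⟨⟨hx0, hX, hY, hZ⟩, hSig⟩
        have hsk : x ∈ Sk := by
          rcases hSig with h | h
          · exact h
          · exfalso
            have h1 : 0 ≤ ((rho3 x).1 0 : ℝ) := h.1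
            rw [x0_rho] at h1
            linarith
        obtain ⟨-, ⟨hcub, hz0, hHp⟩, -, hHm⟩ := hsk
        have h1 : |inv0 x 0| ≤ 1 ∧ inv0 x 2 ≤ 1 := by
          rcases hHp with h | h | h | h
          · linarith
          · linarith
          · linarith
          · exact h
        have h2 : inv0 x 2 = 0 ∨ |inv0 x 0| = 1 ∨ inv0 x 2 = 1 := by
          rcases hHm with h | ⟨-, -, -, h | h⟩
          · exact Or.inl (le_antisymm h hz0)
          · exact Or.inr (Or.inl (le_antisymm h1.1 h))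
          · exact Or.inr (Or.inr (le_antisymm h1.2 h))
        obtain ⟨l, hl0, hl6, hlX, hlZ⟩ := rect_surj h1.1 hz0 h1.2 h2
        rw [abs_lt] at hY
        refine ⟨l / 6, inv0 x 1 + 1 / 2, ⟨by linarith [hY.1], by linarith [hY.2]⟩, ?_⟩
        have hfr : Int.fract (l / 6) = l / 6 := by
          rw [Int.fract_eq_self]
          constructor
          · positivity
          · rw [div_lt_one (by norm_num)]
            exact hl6
        unfold nuB
        rw [hfr, show 6 * (l / 6) = l by ring, hlX, hlZ, ← kap_inv0 hx0.le]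
        congr 1
        rw [kap_inv0 hx0.le]
        funext i
        fin_cases i
        · rfl
        · change inv0 x 1 = inv0 x 1 + 1 / 2 - 1 / 2
          ring
        · rfl
      · rintro ⟨l, s, hs, rfl⟩
        have hs' : s ∈ Icc (0 : ℝ) 1 := ⟨hs.1.le, hs.2.le⟩
        refine ⟨?_, Or.inl (nb_mem_sk l hs')⟩
        obtain ⟨h1, h2, h3, h4⟩ := rect_mem (6 * Int.fract l)
        have hY : |s - 1 / 2| < 1 / 2 := by
          rw [abs_lt]
          constructor <;> linarith [hs.1, hs.2]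
        have hZ' : |bZ (6 * Int.fract l)| ≤ 1 := by
          rw [abs_le]
          constructor <;> linarith
        have hcub : (![bX (6 * Int.fract l), s - 1 / 2, bZ (6 * Int.fract l)] : V3) ∈ cub :=
          nb_vec_cub h1 (by linarith) hZ'
        have hinv : inv0 (nuB l s) = ![bX (6 * Int.fract l), s - 1 / 2, bZ (6 * Int.fract l)] :=
          inv0_kap hcub
        refine ⟨?_, ?_, ?_, ?_⟩
        · refine lt_of_le_of_ne (kap_nonneg _) ?_
          intro h5
          obtain ⟨i, hi⟩ := (kap_x0_zero hcub).mp h5.symm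
          fin_cases i
          · change |bX _| = 5 at hi; linarith
          · change |s - 1 / 2| = 5 at hi; linarith
          · change |bZ _| = 5 at hi; linarith
        · rw [hinv]
          change |bX _| < 2
          linarith
        · rw [hinv]
          exact hY
        · rw [hinv]
          change bZ _ < 2
          linarith

theorem ann_nuB' : Ann Sig nuB' := by
  have hinj : Function.Injective rho3 := fun x y hxy => by
    rw [← rho3_rho3 x, hxy, rho3_rho3]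
  have hsig : ∀ x : E3, rho3 x ∈ Sig ↔ x ∈ Sig := by
    intro x
    change x ∈ rho3 ⁻¹' Sig ↔ _
    rw [sig_rho]
  refine ⟨sig_closed, rho3_cont.comp_continuousOn nb_cont,
    fun l s hs => (hsig _).mpr (ann_nuB.mem l s hs), ?_, ?_, ?_⟩
  · intro l s
    exact congrArg rho3 (ann_nuB.per l s)
  · intro l l' s hs s' hs' heq
    exact ann_nuB.inj l l' s hs s' hs' (hinj heq)
  · obtain ⟨O, hO, hOS⟩ := ann_nuB.opn
    refine ⟨rho3 ⁻¹' O, hO.preimage rho3_cont, ?_⟩
    ext x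
    have h1 : x ∈ rho3 ⁻¹' O ∩ Sig ↔ rho3 x ∈ O ∩ Sig := by
      constructor
      · rintro ⟨a, b⟩
        exact ⟨a, (hsig x).mpr b⟩
      · rintro ⟨a, b⟩
        exact ⟨a, (hsig x).mp b⟩
    rw [h1, hOS]
    constructor
    · rintro ⟨l, s, hs, h⟩
      refine ⟨l, s, hs, ?_⟩
      change x = rho3 (nuB l s)
      rw [← h, rho3_rho3]
    · rintro ⟨l, s, hs, h⟩
      refine ⟨l, s, hs, ?_⟩
      rw [h]
      exact rho3_rho3 _

end PoolFbd
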