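import Pool.Agent.Work.MP_fbd21a_gt.NuDefs
import Pool.Agent.Work.MP_fbd21a_gt.UpF

/-! MODULE NuD. nuD is an annulus of Sig, and rho3 (nuD l s) = nuD (l + 1/2) s.
PROOF. For f = fract l ≤ 1/2: v = (s - 1/2, 20 f - 5, 0), in cub, in Hp ∩ Hm (Z = 0, |X| ≤ 1). At f = 1/2:
kap (s-1/2, 5, 0) = rho3 (kap (s-1/2, -5, 0)) (kap_rho), and at f → 1: rho3 (kap (s-1/2, 5, 0)) =
kap (s-1/2, -5, 0): continuity and periodicity. Injectivity: X = inv0 _ 0 in both cases (inv0_X) gives s; points with
f in (0,1/2) have x0 > 0, with f in (1/2,1) x0 < 0, f = 0, 1/2 have x0 = 0 and Y = -5, 5; then Y gives f.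
opn: O = {x | |inv0 x 0| < 1/2 ∧ (x0 < 0 ∨ inv0 x 2 < 1/2) ∧ (0 < x0 ∨ inv0 (rho3 x) 2 < 1/2)}, open. If x ∈ O ∩ Sig,
say x ∈ Sk, v = inv0 x: |X| < 1/2, Z < 1/2, v ∈ Hp: Z ≥ 0; v ∈ Hm: Z ≤ 0 or (1 ≤ |X| or 1 ≤ Z: excluded): Z = 0,
x = kap (X, Y, 0) = nuD l s with s = X + 1/2 ∈ (0,1), l = (Y+5)/20. If rho3 x ∈ Sk similarly.
nuD_rho: fract (l + 1/2) is fract l + 1/2 or fract l - 1/2; at the ends use the identities above. -/

open Topology Filter Set

namespace PoolFbd

theorem nd_cub {a b : ℝ} (ha : |a| ≤ 1) (hb : |b| ≤ 5) : (![a, b, 0] : V3) ∈ cub := by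
  intro i
  fin_cases i
  · change |a| ≤ 5; linarith
  · change |b| ≤ 5; linarith
  · change |(0 : ℝ)| ≤ 5; rw [abs_zero]; norm_num

theorem nd_flip {a b : ℝ} (ha : |a| ≤ 1) (hb : |b| = 5) :
    rho3 (kap ![a, b, 0]) = kap ![a, -b, 0] := by
  rw [kap_rho (nd_cub ha hb.le) ⟨1, hb⟩]
  congr 1
  funext i
  fin_cases i
  · rfl
  · rfl
  · change -(0 : ℝ) = 0
    exact neg_zero

theorem nd_sk {a b : ℝ} (ha : |a| ≤ 1) (hb : |b| ≤ 5) : kap ![a, b, 0] ∈ Sk := by
  refine ⟨kap_nonneg _, ?_⟩
  rw [inv0_kap (nd_cub ha hb)]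
  exact ⟨⟨nd_cub ha hb, le_rfl, Or.inr (Or.inr (Or.inr ⟨ha, zero_le_one⟩))⟩, nd_cub ha hb,
    Or.inl le_rfl⟩

theorem nd_low {l s : ℝ} (h : Int.fract l ≤ 1 / 2) :
    nuD l s = kap ![s - 1 / 2, 20 * Int.fract l - 5, 0] := by
  unfold nuD
  rw [if_pos h]

theorem nd_high {l s : ℝ} (h : 1 / 2 < Int.fract l) :
    nuD l s = rho3 (kap ![s - 1 / 2, 20 * Int.fract l - 15, 0]) := by
  unfold nuD
  rw [if_neg (not_le.mpr h)]

theorem nd_s {s : ℝ} (hs : s ∈ Icc (0 : ℝ) 1) : |s - 1 / 2| ≤ 1 := by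
  rw [abs_le]
  constructor <;> linarith [hs.1, hs.2]

theorem nd_yl {l : ℝ} (h : Int.fract l ≤ 1 / 2) : |20 * Int.fract l - 5| ≤ 5 := by
  have := Int.fract_nonneg l
  rw [abs_le]
  constructor <;> linarith

theorem nd_yh {l : ℝ} (h : 1 / 2 < Int.fract l) : |20 * Int.fract l - 15| < 5 := by
  have := Int.fract_lt_one l
  rw [abs_lt]
  constructor <;> linarith

private theorem nd_rinj : Function.Injective rho3 := fun x y hxy => by
  rw [← rho3_rho3 x, hxy, rho3_rho3]

theorem nd_mem (l : ℝ) {s : ℝ} (hs : s ∈ Icc (0 : ℝ) 1) : nuD l s ∈ Sig := by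
  rcases le_or_gt (Int.fract l) (1 / 2) with h | h
  · rw [nd_low h]
    exact Or.inl (nd_sk (nd_s hs) (nd_yl h))
  · rw [nd_high h]
    right
    change rho3 (rho3 _) ∈ Sk
    rw [rho3_rho3]
    exact nd_sk (nd_s hs) (nd_yh h).le

private theorem nd_cont : ContinuousOn (fun p : ℝ × ℝ => nuD p.1 p.2) (univ ×ˢ Icc 0 1) := by
  let cs : ℝ → ℝ := fun s => max 0 (min 1 s)
  have hcs : Continuous cs := by fun_prop
  have hcs1 : ∀ s, |cs s - 1 / 2| ≤ 1 := by
    intro s
    have h1 : 0 ≤ cs s := le_max_left _ _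
    have h2 : cs s ≤ 1 := max_le (by norm_num) (min_le_left _ _)
    rw [abs_le]
    constructor <;> linarith
  let f : ℝ → ℝ → E3 := fun s t => if t ≤ 1 / 2 then kap ![cs s - 1 / 2, 20 * t - 5, 0]
    else rho3 (kap ![cs s - 1 / 2, 20 * t - 15, 0])
  have hf : Continuous (Function.uncurry f) := by
    have h1 : Continuous fun p : ℝ × ℝ => kap ![cs p.1 - 1 / 2, 20 * p.2 - 5, 0] := by
      refine kap_cont.comp (continuous_pi fun i => ?_)
      fin_cases i
      · exact (hcs.comp continuous_fst).sub continuous_const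
      · exact (continuous_const.mul continuous_snd).sub continuous_const
      · exact continuous_const
    have h2 : Continuous fun p : ℝ × ℝ => rho3 (kap ![cs p.1 - 1 / 2, 20 * p.2 - 15, 0]) := by
      refine rho3_cont.comp (kap_cont.comp (continuous_pi fun i => ?_))
      fin_cases i
      · exact (hcs.comp continuous_fst).sub continuous_const
      · exact (continuous_const.mul continuous_snd).sub continuous_const
      · exact continuous_const
    refine Continuous.if_le h1 h2 continuous_snd continuous_const ?_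
    intro p hp
    rw [hp, show (20 : ℝ) * (1 / 2) - 5 = 5 by norm_num, show (20 : ℝ) * (1 / 2) - 15 = -5 by
      norm_num, nd_flip (hcs1 _) (by norm_num), neg_neg]
  have hf01 : ∀ s, f s 0 = f s 1 := by
    intro s
    change (if (0 : ℝ) ≤ 1 / 2 then _ else _) = (if (1 : ℝ) ≤ 1 / 2 then _ else _)
    rw [if_pos (by norm_num), if_neg (by norm_num), show (20 : ℝ) * 0 - 5 = -5 by norm_num,
      show (20 : ℝ) * 1 - 15 = 5 by norm_num, nd_flip (hcs1 _) (by norm_num)]
  have h3 : Continuous fun st : ℝ × ℝ => f st.1 (Int.fract st.2) :=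
    ContinuousOn.comp_fract' hf.continuousOn hf01
  have h4 : Continuous fun p : ℝ × ℝ => f p.2 (Int.fract p.1) :=
    h3.comp (continuous_snd.prodMk continuous_fst)
  refine h4.continuousOn.congr ?_
  rintro ⟨l, s⟩ ⟨-, hs⟩
  have hcss : cs s = s := by
    change max 0 (min 1 s) = s
    rw [min_eq_right hs.2, max_eq_right hs.1]
  change nuD l s = (if Int.fract l ≤ 1 / 2 then kap ![cs s - 1 / 2, 20 * Int.fract l - 5, 0]
    else rho3 (kap ![cs s - 1 / 2, 20 * Int.fract l - 15, 0]))
  rw [hcss]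
  rfl

private theorem nd_kapinj {a b a' b' : ℝ} (ha : |a| ≤ 1) (hb : |b| ≤ 5) (ha' : |a'| ≤ 1)
    (hb' : |b'| ≤ 5) (h : kap ![a, b, 0] = kap ![a', b', 0]) : a = a' ∧ b = b' := by
  have h1 := congrArg inv0 h
  rw [inv0_kap (nd_cub ha hb), inv0_kap (nd_cub ha' hb')] at h1
  exact ⟨congrFun h1 0, congrFun h1 1⟩

private theorem nd_cross {a b a' b' : ℝ} (ha' : |a'| ≤ 1)
    (hb' : |b'| < 5) (h : kap ![a, b, 0] = rho3 (kap ![a', b', 0])) : False := by
  have h1 : 0 ≤ ((kap ![a, b, 0]).1 0 : ℝ) := kap_nonneg _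
  rw [h, x0_rho] at h1
  have h2 := kap_nonneg ![a', b', 0]
  have h3 : ((kap ![a', b', 0]).1 0 : ℝ) = 0 := by linarith
  obtain ⟨i, hi⟩ := (kap_x0_zero (nd_cub ha' hb'.le)).mp h3
  fin_cases i
  · change |a'| = 5 at hi; linarith
  · change |b'| = 5 at hi; linarith
  · change |(0 : ℝ)| = 5 at hi
    rw [abs_zero] at hi
    norm_num at hi

theorem nd_x (l : ℝ) {s : ℝ} (hs : s ∈ Icc (0 : ℝ) 1) : inv0 (nuD l s) 0 = s - 1 / 2 := by
  rcases le_or_gt (Int.fract l) (1 / 2) with h | h
  · rw [nd_low h, inv0_kap (nd_cub (nd_s hs) (nd_yl h))]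
    rfl
  · rw [nd_high h, inv0_X, inv0_kap (nd_cub (nd_s hs) (nd_yh h).le)]
    rfl

/-- A point of `Sk` near the core of the plate. -/
theorem nd_plate {x : E3} (hx : x ∈ Sk) (hX : |inv0 x 0| < 1 / 2)
    (hZ : inv0 x 2 < 1 / 2) : x = kap ![inv0 x 0, inv0 x 1, 0] ∧ |inv0 x 1| ≤ 5 := by
  obtain ⟨hx0, ⟨hcub, hz0, -⟩, -, hHm⟩ := hx
  have h2 : inv0 x 2 = 0 := by
    rcases hHm with h | ⟨-, -, -, h | h⟩
    · exact le_antisymm h hz0
    · exfalso; linarith
    · exfalso; linarith
  refine ⟨?_, hcub 1⟩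
  conv_lhs => rw [← kap_inv0 hx0]
  congr 1
  funext i
  fin_cases i
  · rfl
  · rfl
  · exact h2

theorem ann_nuD : Ann Sig nuD := by
  refine ⟨sig_closed, nd_cont, fun l s hs => nd_mem l hs, ?_, ?_, ?_⟩
  · intro l s
    unfold nuD
    rw [Int.fract_add_one]
  · intro l l' s hs s' hs' heq
    have e1 := congrArg (fun x => inv0 x 0) heq
    simp only [nd_x l hs, nd_x l' hs'] at e1
    refine ⟨by linarith, ?_⟩
    have h7 : Int.fract l' = Int.fract l := by
      rcases le_or_gt (Int.fract l) (1 / 2) with h | h <;>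
        rcases le_or_gt (Int.fract l') (1 / 2) with h' | h'
      · rw [nd_low h, nd_low h'] at heq
        have := (nd_kapinj (nd_s hs) (nd_yl h) (nd_s hs') (nd_yl h') heq).2
        linarith
      · rw [nd_low h, nd_high h'] at heq
        exact (nd_cross (nd_s hs') (nd_yh h') heq).elim
      · rw [nd_high h, nd_low h'] at heq
        exact (nd_cross (nd_s hs) (nd_yh h) heq.symm).elim
      · rw [nd_high h, nd_high h'] at heq
        have := (nd_kapinj (nd_s hs) (nd_yh h).le (nd_s hs') (nd_yh h').le (nd_rinj heq)).2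
        linarith
    obtain ⟨n, hn⟩ := Int.fract_eq_fract.mp h7
    exact ⟨n, by linarith⟩
  · refine ⟨{x : E3 | |inv0 x 0| < 1 / 2 ∧ ((x.1 0 : ℝ) < 0 ∨ inv0 x 2 < 1 / 2) ∧
      (0 < (x.1 0 : ℝ) ∨ inv0 (rho3 x) 2 < 1 / 2)}, ?_, ?_⟩
    · have hi : ∀ i, Continuous fun x : E3 => inv0 x i := fun i =>
        (continuous_apply i).comp inv0_cont
      have h0 : Continuous fun x : E3 => (x.1 0 : ℝ) :=
        continuous_subtype_val.comp ((continuous_apply 0).comp continuous_subtype_val)
      exact (isOpen_lt (hi 0).abs continuous_const).inter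
        (((isOpen_lt h0 continuous_const).union (isOpen_lt (hi 2) continuous_const)).inter
        ((isOpen_lt continuous_const h0).union
          (isOpen_lt ((hi 2).comp rho3_cont) continuous_const)))
    · ext x
      constructor
      · rintro ⟨⟨hX, hZ, hZ'⟩, hSig⟩
        rcases hSig with hsk | hsk
        · have hx0 : 0 ≤ (x.1 0 : ℝ) := hsk.1
          have hz : inv0 x 2 < 1 / 2 := by
            rcases hZ with h | h
            · linarith
            · exact h
          obtain ⟨h1, h2⟩ := nd_plate hsk hX hz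
          rw [abs_lt] at hX
          rw [abs_le] at h2
          refine ⟨(inv0 x 1 + 5) / 20, inv0 x 0 + 1 / 2,
            ⟨by linarith [hX.1], by linarith [hX.2]⟩, ?_⟩
          have hfr : Int.fract ((inv0 x 1 + 5) / 20) = (inv0 x 1 + 5) / 20 := by
            rw [Int.fract_eq_self]
            constructor <;> linarith [h2.1, h2.2]
          rw [nd_low (by rw [hfr]; linarith [h2.2]), hfr,
            show inv0 x 0 + 1 / 2 - 1 / 2 = inv0 x 0 by ring,
            show 20 * ((inv0 x 1 + 5) / 20) - 5 = inv0 x 1 by ring]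
          exact h1
        · have hsk' : rho3 x ∈ Sk := hsk
          have hx0 : 0 ≤ ((rho3 x).1 0 : ℝ) := hsk'.1
          rw [x0_rho] at hx0
          have hz : inv0 (rho3 x) 2 < 1 / 2 := by
            rcases hZ' with h | h
            · linarith
            · exact h
          have hX' : |inv0 (rho3 x) 0| < 1 / 2 := by rw [inv0_X]; exact hX
          obtain ⟨h1, h2⟩ := nd_plate hsk' hX' hz
          have h1' : x = rho3 (kap ![inv0 (rho3 x) 0, inv0 (rho3 x) 1, 0]) := by
            rw [← h1, rho3_rho3]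
          have hX1 : |inv0 (rho3 x) 0| ≤ 1 := by linarith
          rw [abs_lt] at hX'
          have h2' := h2
          rw [abs_le] at h2
          rcases eq_or_lt_of_le h2.1 with h3 | h3
          · -- Y' = -5
            refine ⟨1 / 2, inv0 (rho3 x) 0 + 1 / 2,
              ⟨by linarith [hX'.1], by linarith [hX'.2]⟩, ?_⟩
            have hfr : Int.fract (1 / 2 : ℝ) = 1 / 2 := by
              rw [Int.fract_eq_self]
              constructor <;> norm_num
            rw [nd_low hfr.le, hfr, show inv0 (rho3 x) 0 + 1 / 2 - 1 / 2 = inv0 (rho3 x) 0 by ring,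
              show (20 : ℝ) * (1 / 2) - 5 = -(-5) by norm_num]
            conv_lhs => rw [h1']
            rw [← h3, nd_flip hX1 (by norm_num)]
          · rcases eq_or_lt_of_le h2.2 with h4 | h4
            · -- Y' = 5
              refine ⟨0, inv0 (rho3 x) 0 + 1 / 2,
                ⟨by linarith [hX'.1], by linarith [hX'.2]⟩, ?_⟩
              rw [nd_low (by rw [Int.fract_zero]; norm_num), Int.fract_zero,
                show inv0 (rho3 x) 0 + 1 / 2 - 1 / 2 = inv0 (rho3 x) 0 by ring,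
                show (20 : ℝ) * 0 - 5 = -5 by norm_num]
              conv_lhs => rw [h1']
              rw [h4, nd_flip hX1 (by norm_num)]
            · refine ⟨(inv0 (rho3 x) 1 + 15) / 20, inv0 (rho3 x) 0 + 1 / 2,
                ⟨by linarith [hX'.1], by linarith [hX'.2]⟩, ?_⟩
              have hfr : Int.fract ((inv0 (rho3 x) 1 + 15) / 20) = (inv0 (rho3 x) 1 + 15) / 20 := by
                rw [Int.fract_eq_self]
                constructor <;> linarith
              rw [nd_high (by rw [hfr]; linarith), hfr,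
                show inv0 (rho3 x) 0 + 1 / 2 - 1 / 2 = inv0 (rho3 x) 0 by ring,
                show 20 * ((inv0 (rho3 x) 1 + 15) / 20) - 15 = inv0 (rho3 x) 1 by ring]
              exact h1'
      · rintro ⟨l, s, hs, rfl⟩
        have hs' : s ∈ Icc (0 : ℝ) 1 := ⟨hs.1.le, hs.2.le⟩
        refine ⟨⟨?_, ?_, ?_⟩, nd_mem l hs'⟩
        · rw [nd_x l hs', abs_lt]
          constructor <;> linarith [hs.1, hs.2]
        · rcases le_or_gt (Int.fract l) (1 / 2) with h | h
          · right
            rw [nd_low h, inv0_kap (nd_cub (nd_s hs') (nd_yl h))]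
            change (0 : ℝ) < 1 / 2
            norm_num
          · rw [nd_high h]
            rcases eq_or_lt_of_le (kap_nonneg ![s - 1 / 2, 20 * Int.fract l - 15, 0]) with h0 | h0
            · right
              rw [inv0_rho h0.symm, inv0_kap (nd_cub (nd_s hs') (nd_yh h).le)]
              change -(0 : ℝ) < 1 / 2
              norm_num
            · left
              rw [x0_rho]
              linarith
        · rcases le_or_gt (Int.fract l) (1 / 2) with h | h
          · rw [nd_low h]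
            rcases eq_or_lt_of_le (kap_nonneg ![s - 1 / 2, 20 * Int.fract l - 5, 0]) with h0 | h0
            · right
              rw [inv0_rho h0.symm, inv0_kap (nd_cub (nd_s hs') (nd_yl h))]
              change -(0 : ℝ) < 1 / 2
              norm_num
            · left
              exact h0
          · right
            rw [nd_high h, rho3_rho3, inv0_kap (nd_cub (nd_s hs') (nd_yh h).le)]
            change (0 : ℝ) < 1 / 2
            norm_num

theorem nuD_rho (l : ℝ) {s : ℝ} (hs : s ∈ Icc (0 : ℝ) 1) : rho3 (nuD l s) = nuD (l + 1 / 2) s := by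
  have hf0 := Int.fract_nonneg l
  have hf1 := Int.fract_lt_one l
  have hl : l = Int.fract l + ⌊l⌋ := (Int.fract_add_floor l).symm
  rcases lt_or_ge (Int.fract l) (1 / 2) with h | h
  · have hfr : Int.fract (l + 1 / 2) = Int.fract l + 1 / 2 := by
      rw [Int.fract_eq_iff]
      refine ⟨by linarith, by linarith, ⌊l⌋, ?_⟩
      linarith
    rcases eq_or_lt_of_le hf0 with h0 | h0
    · rw [nd_low h.le, nd_low (by rw [hfr]; linarith), hfr, ← h0,
        show (20 : ℝ) * 0 - 5 = -5 by norm_num, nd_flip (nd_s hs) (by norm_num)]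
      congr 1
      norm_num
    · rw [nd_low h.le, nd_high (by rw [hfr]; linarith), hfr]
      ring_nf
  · have hfr : Int.fract (l + 1 / 2) = Int.fract l - 1 / 2 := by
      rw [Int.fract_eq_iff]
      refine ⟨by linarith, by linarith, ⌊l⌋ + 1, ?_⟩
      push_cast
      linarith
    rcases eq_or_lt_of_le h with h0 | h0
    · rw [nd_low h0.symm.le, nd_low (by rw [hfr]; linarith), hfr, ← h0,
        show (20 : ℝ) * (1 / 2) - 5 = 5 by norm_num, nd_flip (nd_s hs) (by norm_num)]
      congr 1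
      norm_num
    · rw [nd_high h0, rho3_rho3, nd_low (by rw [hfr]; linarith), hfr]
      ring_nf

end PoolFbd
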