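import Pool.Agent.Work.MP_fbd21a_gt.FlDefs
import Pool.Agent.Work.MP_fbd21a_gt.SqPol

/-! MODULE RecC. Chart of V3 adapted to the rectangle times a line: at v₀ with
N(v) = max |v 0| |2 v 2 - 1| nonzero at v₀, a chart with last coordinate N(v) - 1.
PROOF. w(v) = v 0 + I (2 v 2 - 1), c = w(v₀) ≠ 0, M(w) = max |re w| |im w|.
ψ v = (arg (w(v)/c), v 1, M(w(v)) - 1) on {v | w(v)/c ∈ slitPlane}, onto {(θ, y, r) | -π < θ < π, -1 < r}, with
inverse (θ, y, r) ↦ v with v 1 = y, w(v) = (1 + r) c e^{iθ} / M(c e^{iθ}). -/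

open Topology Filter Set

namespace PoolFbd

private noncomputable def rcw (v : V3) : ℂ := ⟨v 0, 2 * v 2 - 1⟩

private theorem rcw_cont : Continuous rcw := by
  have h : rcw = fun v : V3 => ((v 0 : ℝ) : ℂ) + ((2 * v 2 - 1 : ℝ) : ℂ) * Complex.I := by
    funext v
    exact Complex.mk_eq_add_mul_I _ _
  rw [h]
  fun_prop

private noncomputable def rcz (c : ℂ) (y : V3) : ℂ := ((1 + y 2 : ℝ) : ℂ) * sqE c (y 0)

private theorem rcwz (c : ℂ) (y : V3) : rcw ![(rcz c y).re, y 1, ((rcz c y).im + 1) / 2] =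
    rcz c y := by
  apply Complex.ext
  · rfl
  · change 2 * (((rcz c y).im + 1) / 2) - 1 = (rcz c y).im
    ring

private noncomputable def rcO (c : ℂ) (hc : c ≠ 0) : OpenPartialHomeomorph V3 V3 where
  toFun v := ![Complex.arg (rcw v / c), v 1, sqN (rcw v) - 1]
  invFun y := ![(rcz c y).re, y 1, ((rcz c y).im + 1) / 2]
  source := {v | rcw v / c ∈ Complex.slitPlane}
  target := {y | y 0 ∈ Ioo (-Real.pi) Real.pi ∧ -1 < y 2}
  map_source' v hv := by
    have h1 := Complex.mem_slitPlane_iff_arg.mp hv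
    refine ⟨⟨Complex.neg_pi_lt_arg _, lt_of_le_of_ne (Complex.arg_le_pi _) h1.1⟩, ?_⟩
    change -1 < sqN (rcw v) - 1
    have h2 : rcw v ≠ 0 := by
      intro h3
      rw [h3, zero_div] at h1
      exact h1.2 rfl
    linarith [sqN_pos h2]
  map_target' y hy := by
    have h1 := (sqE_arg hc hy.1 (r := 1 + y 2) (by linarith [hy.2])).1
    change rcw ![(rcz c y).re, y 1, ((rcz c y).im + 1) / 2] / c ∈ Complex.slitPlane
    rw [rcwz]
    exact h1
  left_inv' v hv := by
    have h1 : rcz c ![Complex.arg (rcw v / c), v 1, sqN (rcw v) - 1] = rcw v := by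
      change ((1 + (sqN (rcw v) - 1) : ℝ) : ℂ) * sqE c (Complex.arg (rcw v / c)) = rcw v
      rw [add_sub_cancel, sqE_inv hc hv]
    funext i
    fin_cases i
    · change (rcz c ![Complex.arg (rcw v / c), v 1, sqN (rcw v) - 1]).re = v 0
      rw [h1]
      rfl
    · rfl
    · change ((rcz c ![Complex.arg (rcw v / c), v 1, sqN (rcw v) - 1]).im + 1) / 2 = v 2
      rw [h1]
      change (2 * v 2 - 1 + 1) / 2 = v 2
      ring
  right_inv' y hy := by
    have hr : 0 < 1 + y 2 := by linarith [hy.2]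
    have h1 := (sqE_arg hc hy.1 hr).2
    funext i
    fin_cases i
    · change Complex.arg (rcw ![(rcz c y).re, y 1, ((rcz c y).im + 1) / 2] / c) = y 0
      rw [rcwz]
      exact h1
    · rfl
    · change sqN (rcw ![(rcz c y).re, y 1, ((rcz c y).im + 1) / 2]) - 1 = y 2
      rw [rcwz]
      unfold rcz
      rw [sqN_mul hr.le, sqE_N hc]
      ring
  open_source := Complex.isOpen_slitPlane.preimage (rcw_cont.div_const c)
  open_target := (isOpen_Ioo.preimage (continuous_apply 0)).inter
      (isOpen_lt continuous_const (continuous_apply 2))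
  continuousOn_toFun := by
    refine continuousOn_pi.mpr fun i => ?_
    fin_cases i
    · exact sq_arg_cont (rcw_cont.div_const c).continuousOn fun _ hx => hx
    · exact (continuous_apply 1).continuousOn
    · exact ((sqN_cont.comp rcw_cont).sub continuous_const).continuousOn
  continuousOn_invFun := by
    have hzc : Continuous (rcz c) :=
      (Complex.continuous_ofReal.comp (continuous_const.add (continuous_apply 2))).mul
        ((sqE_cont hc).comp (continuous_apply 0))
    refine Continuous.continuousOn (continuous_pi fun i => ?_)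
    fin_cases i
    · exact Complex.continuous_re.comp hzc
    · exact continuous_apply 1
    · exact ((Complex.continuous_im.comp hzc).add continuous_const).div_const 2

theorem rec_chart (v₀ : V3) (h : v₀ 0 ≠ 0 ∨ 2 * v₀ 2 - 1 ≠ 0) :
    ∃ ψ : OpenPartialHomeomorph V3 V3, v₀ ∈ ψ.source ∧ ∀ v ∈ ψ.source,
      ψ v 2 = max |v 0| |2 * v 2 - 1| - 1 := by
  have hc : rcw v₀ ≠ 0 := by
    intro h0
    have h1 : v₀ 0 = 0 := congrArg Complex.re h0
    have h2 : 2 * v₀ 2 - 1 = 0 := congrArg Complex.im h0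
    rcases h with h | h
    · exact h h1
    · exact h h2
  refine ⟨rcO (rcw v₀) hc, ?_, fun v _ => rfl⟩
  change rcw v₀ / rcw v₀ ∈ Complex.slitPlane
  rw [div_self hc]
  exact Complex.one_mem_slitPlane

end PoolFbd
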