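import Pool.Agent.Work.MP_fbd21a_gt.CylC
import Pool.Agent.Work.MP_fbd21a_gt.RecC
import Pool.Agent.Work.MP_fbd21a_gt.NuB
import Pool.Agent.Work.MP_fbd21a_gt.NuD

/-! MODULE FlSig. Local flatness of the surface Sig at the points needed, and of (Sig, Kk) at Kk.
PROOFS. pflat_kk: p ∈ Kk: x0 = 0 and x2 = 0 at p (inv0 p has Z = 0: (5/2) * 2 * x2 = 0; |X| = 5 or |Y| = 5 gives x0 = 0:
inv0_bdry). cyl_chart 3 1 0 2, restricted to the open set |x0| < 1/10 (OpenPartialHomeomorph.restrOpen): there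
|x0| < 1, |x2| < 1 (x2 from the chart; restrict also to |x2| < 1), so max |x1| |x3| = 1 and max |X| |Y| ≥ 19/4 > 3:
x ∈ Sk iff x0 ≥ 0 and Z = 0 (Hp: Z ≥ 0; Hm: Z ≤ 0, the arch alternative has |X| ≤ 3, |Y| ≤ 1), similarly
rho3 x ∈ Sk iff x0 ≤ 0 and Z = 0, so x ∈ Sig iff x2 = 0; x ∈ Kk iff x0 = 0 and x2 = 0.
sflat_d: p = nuD l s: x2 = 0, |X| ≤ 1/2, so |x3| < 1: cyl_chart 0 1 3 2, restricted to the open set
|inv0 x 0| < 1, |inv0 x 2| < 1: there x ∈ Sk iff x0 ≥ 0, Z = 0 (Hm: Z ≤ 0 or (1 ≤ |X| or 1 ≤ Z) excluded; Hp: Z = 0, |X| ≤ 1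
fine) and for rho3 x the same (|inv0 (rho3 x) 2| = |inv0 x 2|): x ∈ Sig iff x2 = 0 iff ψ x 2 = 0.
sflat_b: p = kap v₀, v₀ = (bX, s - 1/2, bZ), x0 = 1 at p. Chart kap/inv0 : {x | 0 < x0} ≃ interior of cub
(kap_cont, inv0_cont, inv0_kap, kap_inv0) followed by rec_chart v₀ (max |v₀ 0| |2 v₀ 2 - 1| = 1 by rect_mem), restricted
to |X| < 3, |Y| < 1, Z < 3: there x ∈ Sig iff x ∈ Sk (x0 > 0) iff 0 ≤ Z ≤ 1, |X| ≤ 1 and (Z ≤ 0 or 1 ≤ |X| or 1 ≤ Z) iff
max |X| |2Z - 1| = 1. sflat_b': compose with the homeomorphism rho3 (rho3 ⁻¹' Sig = Sig). -/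

open Topology Filter Set

namespace PoolFbd

private theorem fs_coord (m : Fin 4) : Continuous fun x : E3 => (x.1 m : ℝ) :=
  continuous_subtype_val.comp ((continuous_apply m).comp continuous_subtype_val)

private theorem fs_inv (i : Fin 3) : Continuous fun x : E3 => inv0 x i :=
  (continuous_apply i).comp inv0_cont

private theorem fs_x (x : E3) : inv0 x 0 = 5 / 2 * (2 - |(x.1 0 : ℝ)|) * (x.1 3 : ℝ) := rfl

private theorem fs_y (x : E3) : inv0 x 1 = 5 / 2 * (2 - |(x.1 0 : ℝ)|) * (x.1 1 : ℝ) := rfl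

private theorem fs_z (x : E3) : inv0 x 2 = 5 / 2 * (2 - |(x.1 0 : ℝ)|) * (x.1 2 : ℝ) := rfl

private theorem fs_rho2 (x : E3) : ((rho3 x).1 2 : ℝ) = -(x.1 2 : ℝ) := rfl

private theorem fs_pos (x : E3) : 0 < 5 / 2 * (2 - |(x.1 0 : ℝ)|) := by
  have h : |(x.1 0 : ℝ)| ≤ 1 := abs_le.mpr (x.1 0).2
  linarith

private theorem fs_z0 (x : E3) : inv0 x 2 = 0 ↔ (x.1 2 : ℝ) = 0 := by
  rw [fs_z, mul_eq_zero]
  constructor
  · rintro (h | h)
    · exact absurd h (fs_pos x).ne'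
    · exact h
  · exact Or.inr

private theorem fs_rhoz (x : E3) : inv0 (rho3 x) 2 = - inv0 x 2 := by
  rw [fs_z, fs_z, x0_rho, abs_neg, fs_rho2]
  ring

private theorem fs_sig (x : E3) : x ∈ Sig ↔ x ∈ Sk ∨ rho3 x ∈ Sk := Iff.rfl

/-- Near the knot. -/
private theorem fs_far {x : E3} (h0 : |(x.1 0 : ℝ)| < 1 / 10) (h2 : |(x.1 2 : ℝ)| < 1) :
    3 < |inv0 x 0| ∨ 3 < |inv0 x 1| := by
  have hc : (19 / 4 : ℝ) ≤ 5 / 2 * (2 - |(x.1 0 : ℝ)|) := by linarith
  have hp := fs_pos x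
  obtain ⟨m, hm⟩ := x.2
  have hm' : |(x.1 m : ℝ)| = 1 := by
    rcases hm with h | h
    · rw [h]; norm_num
    · rw [h]; norm_num
  fin_cases m
  · change |(x.1 0 : ℝ)| = 1 at hm'
    linarith
  · change |(x.1 1 : ℝ)| = 1 at hm'
    right
    rw [fs_y, abs_mul, abs_of_pos hp, hm', mul_one]
    linarith
  · change |(x.1 2 : ℝ)| = 1 at hm'
    linarith
  · change |(x.1 3 : ℝ)| = 1 at hm'
    left
    rw [fs_x, abs_mul, abs_of_pos hp, hm', mul_one]
    linarith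

private theorem fs_A {x : E3} (h0 : |(x.1 0 : ℝ)| < 1 / 10) (h2 : |(x.1 2 : ℝ)| < 1) :
    x ∈ Sk ↔ 0 ≤ (x.1 0 : ℝ) ∧ (x.1 2 : ℝ) = 0 := by
  have hfar := fs_far h0 h2
  rw [← fs_z0]
  constructor
  · rintro ⟨hx0, ⟨hcub, hz0, -⟩, -, hHm⟩
    refine ⟨hx0, ?_⟩
    rcases hHm with h | ⟨h3, -, h4, -⟩
    · exact le_antisymm h hz0
    · exfalso
      rcases hfar with h5 | h5 <;> linarith
  · rintro ⟨hx0, hz⟩
    refine ⟨hx0, ⟨inv0_cub x, hz.ge, ?_⟩, inv0_cub x, Or.inl hz.le⟩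
    rcases hfar with h5 | h5
    · exact Or.inl h5.le
    · exact Or.inr (Or.inr (Or.inl (by linarith)))

theorem pflat_kk {p : E3} (hp : p ∈ Kk) : PFlat Sig Kk p := by
  obtain ⟨hp0, hcub, hZ, hXY⟩ := hp
  have hx0 : (p.1 0 : ℝ) = 0 := by
    rw [inv0_bdry]
    rcases hXY with h | h
    · exact ⟨0, h⟩
    · exact ⟨1, h⟩
  have hx2 : (p.1 2 : ℝ) = 0 := (fs_z0 p).mp hZ
  obtain ⟨ψ, hpψ, hψ⟩ := cyl_chart 3 1 0 2 (by decide) p (by rw [hx0]; norm_num)
    (by rw [hx2]; norm_num)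
  have hO : IsOpen {x : E3 | |(x.1 0 : ℝ)| < 1 / 10 ∧ |(x.1 2 : ℝ)| < 1} :=
    (isOpen_lt (fs_coord 0).abs continuous_const).inter
      (isOpen_lt (fs_coord 2).abs continuous_const)
  refine ⟨ψ.restrOpen _ hO, ⟨hpψ, ?_, ?_⟩, ?_⟩
  · rw [hx0]; norm_num
  · rw [hx2]; norm_num
  · rintro x ⟨hxψ, h0, h2⟩
    obtain ⟨e1, e2⟩ := hψ x hxψ
    change (x ∈ Sig ↔ ψ x 2 = 0) ∧ (x ∈ Kk ↔ ψ x 1 = 0 ∧ ψ x 2 = 0)
    rw [e1, e2]
    have hA := fs_A h0 h2
    have hA' := fs_A (x := rho3 x) (by rw [x0_rho, abs_neg]; exact h0)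
      (by rw [fs_rho2, abs_neg]; exact h2)
    rw [x0_rho, fs_rho2] at hA'
    constructor
    · rw [fs_sig, hA, hA']
      constructor
      · rintro (h | h)
        · exact h.2
        · linarith [h.2]
      · intro h
        rcases le_total 0 (x.1 0 : ℝ) with h3 | h3
        · exact Or.inl ⟨h3, h⟩
        · exact Or.inr ⟨by linarith, by linarith⟩
    · constructor
      · rintro ⟨_, _, hZ', hXY'⟩
        refine ⟨?_, (fs_z0 x).mp hZ'⟩
        rw [inv0_bdry]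
        rcases hXY' with h | h
        · exact ⟨0, h⟩
        · exact ⟨1, h⟩
      · rintro ⟨h3, h4⟩
        have hz : inv0 x 2 = 0 := (fs_z0 x).mpr h4
        refine ⟨h3.ge, inv0_cub x, hz, ?_⟩
        obtain ⟨i, hi⟩ := (inv0_bdry x).mp h3
        fin_cases i
        · exact Or.inl hi
        · exact Or.inr hi
        · change |inv0 x 2| = 5 at hi
          rw [hz, abs_zero] at hi
          norm_num at hi

theorem sflat_kk {p : E3} (hp : p ∈ Kk) : SFlat Sig p := by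
  obtain ⟨ψ, h1, h2⟩ := pflat_kk hp
  exact ⟨ψ, h1, fun x hx => (h2 x hx).1⟩

private theorem fs_D {x : E3} (h0 : |inv0 x 0| < 1) (h2 : |inv0 x 2| < 1) :
    x ∈ Sk ↔ 0 ≤ (x.1 0 : ℝ) ∧ (x.1 2 : ℝ) = 0 := by
  rw [← fs_z0]
  rw [abs_lt] at h2
  constructor
  · rintro ⟨hx0, ⟨hcub, hz0, -⟩, -, hHm⟩
    refine ⟨hx0, ?_⟩
    rcases hHm with h | ⟨-, -, -, h3 | h3⟩
    · exact le_antisymm h hz0
    · exfalso; linarith
    · exfalso; linarith
  · rintro ⟨hx0, hz⟩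
    exact ⟨hx0, ⟨inv0_cub x, hz.ge, Or.inr (Or.inr (Or.inr ⟨h0.le, by rw [hz]; norm_num⟩))⟩,
      inv0_cub x, Or.inl hz.le⟩

theorem sflat_d {p : E3} (hp : p ∈ anD) : SFlat Sig p := by
  obtain ⟨l, s, hs, rfl⟩ := hp
  have hX : |inv0 (nuD l s) 0| ≤ 1 / 2 := by
    rw [nd_x l hs, abs_le]
    constructor <;> linarith [hs.1, hs.2]
  have hz : ((nuD l s).1 2 : ℝ) = 0 := by
    rcases le_or_gt (Int.fract l) (1 / 2) with h | h
    · rw [← fs_z0, nd_low h, inv0_kap (nd_cub (nd_s hs) (nd_yl h))]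
      rfl
    · rw [nd_high h, fs_rho2, neg_eq_zero, ← fs_z0,
        inv0_kap (nd_cub (nd_s hs) (nd_yh h).le)]
      rfl
  have hx3 : |((nuD l s).1 3 : ℝ)| < 1 := by
    have hpp : 5 / 2 ≤ 5 / 2 * (2 - |((nuD l s).1 0 : ℝ)|) := by
      have h : |((nuD l s).1 0 : ℝ)| ≤ 1 := abs_le.mpr ((nuD l s).1 0).2
      linarith
    rw [fs_x, abs_mul, abs_of_pos (fs_pos _)] at hX
    have h1 : 5 / 2 * |((nuD l s).1 3 : ℝ)| ≤
        5 / 2 * (2 - |((nuD l s).1 0 : ℝ)|) * |((nuD l s).1 3 : ℝ)| :=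
      mul_le_mul_of_nonneg_right hpp (abs_nonneg _)
    linarith
  obtain ⟨ψ, hpψ, hψ⟩ := cyl_chart 0 1 3 2 (by decide) (nuD l s) hx3 (by rw [hz]; norm_num)
  have hO : IsOpen {x : E3 | |inv0 x 0| < 1 ∧ |inv0 x 2| < 1} :=
    (isOpen_lt (fs_inv 0).abs continuous_const).inter
      (isOpen_lt (fs_inv 2).abs continuous_const)
  refine ⟨ψ.restrOpen _ hO, ⟨hpψ, by linarith, ?_⟩, ?_⟩
  · rw [(fs_z0 _).mpr hz]; norm_num
  · rintro x ⟨hxψ, h0, h2⟩
    obtain ⟨e1, e2⟩ := hψ x hxψ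
    change x ∈ Sig ↔ ψ x 2 = 0
    rw [e2]
    have hA := fs_D h0 h2
    have hA' := fs_D (x := rho3 x) (by rw [inv0_X]; exact h0)
      (by rw [fs_rhoz, abs_neg]; exact h2)
    rw [x0_rho, fs_rho2] at hA'
    rw [fs_sig, hA, hA']
    constructor
    · rintro (h | h)
      · exact h.2
      · linarith [h.2]
    · intro h
      rcases le_total 0 (x.1 0 : ℝ) with h3 | h3
      · exact Or.inl ⟨h3, h⟩
      · exact Or.inr ⟨by linarith, by linarith⟩

/-- The first copy as a chart. -/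
private noncomputable def fsK : OpenPartialHomeomorph E3 V3 where
  toFun := inv0
  invFun := kap
  source := {x | 0 < (x.1 0 : ℝ)}
  target := {v | (|v 0| < 5 ∧ |v 1| < 5) ∧ |v 2| < 5}
  map_source' x hx := by
    have hx' : 0 < (x.1 0 : ℝ) := hx
    have key : ∀ i, |inv0 x i| < 5 := by
      intro i
      refine lt_of_le_of_ne (inv0_cub x i) fun h => ?_
      have := (inv0_bdry x).mpr ⟨i, h⟩
      linarith
    exact ⟨⟨key 0, key 1⟩, key 2⟩
  map_target' v hv := by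
    have hcub : v ∈ cub := by
      intro i
      fin_cases i
      · exact hv.1.1.le
      · exact hv.1.2.le
      · exact hv.2.le
    refine lt_of_le_of_ne (kap_nonneg v) fun h => ?_
    obtain ⟨i, hi⟩ := (kap_x0_zero hcub).mp h.symm
    fin_cases i
    · exact absurd hi hv.1.1.ne
    · exact absurd hi hv.1.2.ne
    · exact absurd hi hv.2.ne
  left_inv' x hx := kap_inv0 (le_of_lt hx)
  right_inv' v hv := by
    apply inv0_kap
    intro i
    fin_cases i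
    · exact hv.1.1.le
    · exact hv.1.2.le
    · exact hv.2.le
  open_source := isOpen_lt continuous_const (fs_coord 0)
  open_target := ((isOpen_lt (continuous_apply 0).abs continuous_const).inter
    (isOpen_lt (continuous_apply 1).abs continuous_const)).inter
    (isOpen_lt (continuous_apply 2).abs continuous_const)
  continuousOn_toFun := inv0_cont.continuousOn
  continuousOn_invFun := kap_cont.continuousOn

private theorem fs_B {x : E3} (hx0 : 0 < (x.1 0 : ℝ)) (hX : |inv0 x 0| < 3) (hY : |inv0 x 1| < 1)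
    (hZ : inv0 x 2 < 3) : x ∈ Sig ↔ max |inv0 x 0| |2 * inv0 x 2 - 1| - 1 = 0 := by
  have hsig : x ∈ Sig ↔ x ∈ Sk := by
    rw [fs_sig]
    constructor
    · rintro (h | h)
      · exact h
      · exfalso
        have h1 : 0 ≤ ((rho3 x).1 0 : ℝ) := h.1
        rw [x0_rho] at h1
        linarith
    · exact Or.inl
  rw [hsig, sub_eq_zero]
  constructor
  · rintro ⟨-, ⟨-, hz0, hHp⟩, -, hHm⟩
    have h1 : |inv0 x 0| ≤ 1 ∧ inv0 x 2 ≤ 1 := by
      rcases hHp with h | h | h | h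
      · exfalso; linarith
      · exfalso; linarith
      · exfalso; linarith
      · exact h
    have h2 : |2 * inv0 x 2 - 1| ≤ 1 := by
      rw [abs_le]
      constructor <;> linarith [h1.2]
    apply le_antisymm (max_le h1.1 h2)
    rcases hHm with h | ⟨-, -, -, h | h⟩
    · refine le_trans ?_ (le_max_right _ _)
      rw [le_antisymm h hz0]
      norm_num
    · exact le_trans h (le_max_left _ _)
    · refine le_trans ?_ (le_max_right _ _)
      rw [le_antisymm h1.2 h]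
      norm_num
  · intro h
    have h1 : |inv0 x 0| ≤ 1 := (le_max_left _ _).trans h.le
    have h2 : |2 * inv0 x 2 - 1| ≤ 1 := (le_max_right _ _).trans h.le
    have h2' := h2
    rw [abs_le] at h2'
    refine ⟨hx0.le, ⟨inv0_cub x, by linarith [h2'.1], Or.inr (Or.inr (Or.inr ⟨h1, by
      linarith [h2'.2]⟩))⟩, inv0_cub x, ?_⟩
    rcases max_choice |inv0 x 0| |2 * inv0 x 2 - 1| with h3 | h3
    · rw [h3] at h
      exact Or.inr ⟨hX.le, hZ.le, hY.le, Or.inl h.ge⟩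
    · rw [h3] at h
      rcases eq_or_eq_neg_of_abs_eq h with h4 | h4
      · exact Or.inr ⟨hX.le, hZ.le, hY.le, Or.inr (by linarith)⟩
      · exact Or.inl (by linarith)

theorem sflat_b {p : E3} (hp : p ∈ anB) : SFlat Sig p := by
  obtain ⟨l, s, hs, rfl⟩ := hp
  obtain ⟨h1, h2, h3, h4⟩ := rect_mem (6 * Int.fract l)
  have h5 := h4 (nb_frac l).1 (nb_frac l).2.le
  have hY : |s - 1 / 2| ≤ 1 / 2 := by
    rw [abs_le]
    constructor <;> linarith [hs.1, hs.2]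
  have hcub : (![bX (6 * Int.fract l), s - 1 / 2, bZ (6 * Int.fract l)] : V3) ∈ cub :=
    nb_vec_cub h1 (by linarith) (by rw [abs_le]; constructor <;> linarith)
  have hinv : inv0 (nuB l s) = ![bX (6 * Int.fract l), s - 1 / 2, bZ (6 * Int.fract l)] :=
    inv0_kap hcub
  have hpos : 0 < ((nuB l s).1 0 : ℝ) := by
    refine lt_of_le_of_ne (kap_nonneg _) fun h => ?_
    obtain ⟨i, hi⟩ := (kap_x0_zero hcub).mp h.symm
    fin_cases i
    · change |bX _| = 5 at hi; linarith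
    · change |s - 1 / 2| = 5 at hi; linarith
    · change |bZ _| = 5 at hi
      rw [abs_of_nonneg h2] at hi
      linarith
  obtain ⟨ψ, hpψ, hψ⟩ := rec_chart (inv0 (nuB l s)) (by
    rw [hinv]
    change bX (6 * Int.fract l) ≠ 0 ∨ 2 * bZ (6 * Int.fract l) - 1 ≠ 0
    rcases h5 with h | h | h
    · right
      rw [h]
      norm_num
    · left
      intro h0
      rw [h0, abs_zero] at h
      norm_num at h
    · right
      rw [h]
      norm_num)
  have hO : IsOpen {x : E3 | |inv0 x 0| < 3 ∧ |inv0 x 1| < 1 ∧ inv0 x 2 < 3} :=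
    (isOpen_lt (fs_inv 0).abs continuous_const).inter
      ((isOpen_lt (fs_inv 1).abs continuous_const).inter
      (isOpen_lt (fs_inv 2) continuous_const))
  refine ⟨(fsK.trans ψ).restrOpen _ hO, ⟨?_, ?_, ?_, ?_⟩, ?_⟩
  · rw [OpenPartialHomeomorph.trans_source]
    exact ⟨hpos, hpψ⟩
  · rw [hinv]
    change |bX _| < 3
    linarith
  · rw [hinv]
    change |s - 1 / 2| < 1
    linarith
  · rw [hinv]
    change bZ _ < 3
    linarith
  · rintro x ⟨hxψ, h6, h7, h8⟩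
    rw [OpenPartialHomeomorph.trans_source] at hxψ
    have e := hψ (inv0 x) hxψ.2
    change x ∈ Sig ↔ ψ (inv0 x) 2 = 0
    rw [e]
    exact fs_B hxψ.1 h6 h7 h8

/-- The involution as a homeomorphism. -/
private noncomputable def fsR : E3 ≃ₜ E3 where
  toFun := rho3
  invFun := rho3
  left_inv := rho3_rho3
  right_inv := rho3_rho3
  continuous_toFun := rho3_cont
  continuous_invFun := rho3_cont

theorem sflat_b' {p : E3} (hp : p ∈ anB') : SFlat Sig p := by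
  obtain ⟨l, s, hs, rfl⟩ := hp
  obtain ⟨ψ, h1, h2⟩ := sflat_b (p := nuB l s) ⟨l, s, hs, rfl⟩
  refine ⟨fsR.toOpenPartialHomeomorph.trans ψ, ?_, ?_⟩
  · rw [OpenPartialHomeomorph.trans_source]
    refine ⟨mem_univ _, ?_⟩
    change rho3 (nuB' l s) ∈ ψ.source
    unfold nuB'
    rw [rho3_rho3]
    exact h1
  · intro x hx
    rw [OpenPartialHomeomorph.trans_source] at hx
    have h3 := h2 (rho3 x) hx.2
    have hsig : rho3 x ∈ Sig ↔ x ∈ Sig := by
      change x ∈ rho3 ⁻¹' Sig ↔ _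
      rw [sig_rho]
    rw [← hsig]
    exact h3

end PoolFbd
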