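import Pool.Agent.Work.MP_fbd21a_gt.CDefs

/-! Definitions for part 3A: a knot `K` on the genus two surface `S ∪ rho3 S`, which separates the
sphere `E3` into the regions `R` and `rho3 R`. -/

open Topology Filter Set

namespace PoolFbd

/-- Cast of the integral matrix combination `Σ_j m_j u_j`. -/
def lin2 (u : Fin 2 → Coch E3 ℤ 1) (m : Fin 2 → ℤ) : Coch E3 ℤ 1 := ∑ j, smulC (u j) (m j)

/-- Three-dimensional geometric data. -/
structure Geo3 (K S R : Set E3) (g u : Fin 2 → Coch E3 ℤ 1) (k : Coch E3 ℤ 1)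
    (α β : Matrix (Fin 2) (Fin 2) ℤ) : Prop where
  cK : IsClosed K
  cS : IsClosed S
  cR : IsClosed R
  KS : K ⊆ S
  SR : S ⊆ R
  S'R : rho3 ⁻¹' S ⊆ R
  cover : R ∪ rho3 ⁻¹' R = univ
  inter : R ∩ rho3 ⁻¹' R = S ∪ rho3 ⁻¹' S
  SS : S ∩ rho3 ⁻¹' S = K
  Kinv : rho3 ⁻¹' K = K
  gR : Grph R g
  uS : Grph S u
  kK : Grph K ![k]
  gK : ∀ i, LZ K (g i)
  uK : ∀ j, LZ K (u j)
  hα : ∀ i, Cob one S ∅ (g i - lin2 u (α i))
  hβ : ∀ i, Cob one S ∅ (pb rho3 (g i) - lin2 u (β i))

open Classical in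
/-- The region sign: `+1` on `R \ rho3 S`, `-1` elsewhere. -/
noncomputable def epsR (S R : Set E3) : E3 → ℤˣ := fun x => if x ∈ R ∧ rho3 x ∉ S then 1 else -1

/-- Points closer to `S` than to `rho3 S`. -/
def nearS (S : Set E3) : Set E3 := {x | Metric.infDist x S < Metric.infDist x (rho3 ⁻¹' S)}

open Classical in
/-- The sign local system of the complement of `K`: crossing `S` changes the sign. -/
noncomputable def tauS (S R : Set E3) : E3 → E3 → ℤˣ :=
  fun x y => if x ∈ nearS S then epsR S R x * epsR S R y else 1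

open Classical in
/-- Trivialisation of `tauS` near `R \ K`. -/
noncomputable def sigR (S R : Set E3) : E3 → ℤˣ := fun x => if x ∈ nearS S then epsR S R x else 1

/-- The map `θ φ = φ + c ρ^* φ` (used near `S`). -/
noncomputable def tht {A : Type*} [AddCommGroup A] [Module R5 A] (c : R5) {n : ℕ} (φ : Coch E3 A n) :
    Coch E3 A n := φ + c • pb rho3 φ

/-- The entries of `α + c β`. -/
noncomputable def mat5 (c : R5) (α β : Matrix (Fin 2) (Fin 2) ℤ) : Matrix (Fin 2) (Fin 2) R5 :=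
  fun i j => (α i j : R5) + c * (β i j : R5)

end PoolFbd
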