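import Pool.Agent.Work.MP_fbd21a_gt.HhF
import Pool.Agent.Work.MP_fbd21a_gt.Arith
import Pool.Agent.Work.MP_fbd21a_gt.GrRel

/-! MODULE GeoH. The geometric data of the knot Kn.
Note Sn = hi⁻¹ Sk ∩ Sig; Kn ⊆ Sig because hi x ∈ Kk ⊆ Sig implies x = hh (hi x) ∈ Sig.
SETS: closedness: Kn, Sn are preimages of closed subsets of Sig under hi restricted to the closed set Sig
(hi_cont; ContinuousOn.preimage_isClosed_of_isClosed). Kn ⊆ Sn ⊆ Sig ⊆ Rk; rho3⁻¹ Sn ⊆ Rk; rho3⁻¹ Kn = Kn (hi_rho, kk_rho);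
Sn ∩ rho3⁻¹ Sn = Kn (sk_inter); Rk ∩ rho3⁻¹ Rk = Sig = Sn ∪ rho3⁻¹ Sn (every x ∈ Sig has hi x ∈ Sk or rho3 (hi x) ∈ Sk).
CLASSES: r a retraction function onto Sig (near_ret). u = ![gp, um] pulled back: u j = pb (hi ∘ r) (![gp, um] j);
k = pb (hi ∘ r) (pb inv0 kV). Grph Sn u: grph_homeo with S = Sk, T = Sn, F = hh ∘ r, f = hi ∘ r (contAt_ret).
Grph Kn ![k] the same. u j vanishes near Kn (gp_zero, um_zero near Kk).
g: ![gp, pb rho3 um] on Rk (base_R) has to be modified to vanish near Kn: near Sn, pb (hh ∘ r) of it restricted to Sk is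
Σ α u + (terms pb rho3 gp, pb rho3 um which vanish near Sk), so gp ~ Σ_j α 0 j u j near Sn (pull hh_gp back by hi ∘ r, compose;
(hh ∘ r) ∘ (hi ∘ r) = r on.. ; ret_one), which vanishes near Kn: so the class restricted to Kn is a coboundary dd one s near
Kn and g 0 = gp - dd one s' with s' = s; similarly g 1. Grph Rk g by grph_congr. hα: as said (restricting hh_gp to Sn).
hβ: pb rho3 (g i) near Sn: pull back by rho3 the formula near rho3⁻¹ Sn: pb rho3 (pb (hi∘r) (pb rho3 gp)) ~ pb (hi∘r) gp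
near Sn (hi_rho) etc.: row 0: (-2, 5), row 1: (-3, 12). alM, beM rows: (-1,5),(-4,11) and (-2,5),(-3,12). -/

open Topology Filter Set

namespace PoolFbd

private theorem geh_pb_lin2 (f : E3 → E3) (w : Fin 2 → Coch E3 ℤ 1) (m : Fin 2 → ℤ) :
    pb f (lin2 w m) = lin2 (fun j => pb f (w j)) m := by
  funext t
  simp only [pb, lin2, Finset.sum_apply, smulC]

private theorem geh_lin2_lz {S : Set E3} {w : Fin 2 → Coch E3 ℤ 1} (h : ∀ j, LZ S (w j))
    (m : Fin 2 → ℤ) : LZ S (lin2 w m) :=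
  gaux_LZ_sum _ _ fun j _ => gaux_LZ_smulC (h j) (m j)

private theorem geh_lin2_sub (w w' : Fin 2 → Coch E3 ℤ 1) (m : Fin 2 → ℤ) :
    lin2 w m - lin2 w' m = ∑ j, smulC (w j - w' j) (m j) := by
  unfold lin2
  rw [← Finset.sum_sub_distrib]
  exact Finset.sum_congr rfl fun j _ => (gaux_smulC_sub _ _ _).symm

private theorem geh_lin2_cob {S : Set E3} {w w' : Fin 2 → Coch E3 ℤ 1}
    (h : ∀ j, Cob one S ∅ (w j - w' j)) (m : Fin 2 → ℤ) :
    Cob one S ∅ (lin2 w m - lin2 w' m) := by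
  rw [geh_lin2_sub]
  exact gaux_Cob_sum _ _ fun j _ => gaux_Cob_smulC (h j) (m j)

private theorem geh_pbcob {S T : Set E3} {f : E3 → E3}
    (hf : ∀ x ∈ S, ContinuousAt f x ∧ f x ∈ T) {φ : Coch E3 ℤ 1} (h : Cob one T ∅ φ) :
    Cob one S ∅ (pb f φ) :=
  Cob.pb hf (fun x hx => hx.elim) h

private theorem geh_ret {S T : Set E3} {f g : E3 → E3} (hf : ∀ x ∈ S, ContinuousAt f x)
    (hg : ∀ x ∈ S, ContinuousAt g x) (hfg : ∀ x ∈ S, f x = g x) (hS : ∀ x ∈ S, f x ∈ T)
    {φ : Coch E3 ℤ 1} (hφ : LZ T (dd one φ)) : Cob one S ∅ (pb f φ - pb g φ) := by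
  refine ret_one (S := S) (Z := ∅) (S' := T) (Z' := ∅) ?_ ?_ ?_ hS (fun x hx => hx.elim)
    ⟨LZ.empty φ, hφ⟩
  · intro x hx
    rw [union_empty] at hx
    exact hf x hx
  · intro x hx
    rw [union_empty] at hx
    exact hg x hx
  · intro x hx
    rw [union_empty] at hx
    exact hfg x hx

private theorem geh_sk_sig : Sk ⊆ Sig := subset_union_left

private theorem geh_sig_rk : Sig ⊆ Rk := union_subset sk_rk sk_rk'

private theorem geh_kk_sig : Kk ⊆ Sig := kk_sk.trans geh_sk_sig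

private theorem geh_sig_of_hi {x : E3} (h : hi x ∈ Sig) : x ∈ Sig := by
  have := hh_mem h
  rwa [hh_hi] at this

private theorem geh_kn_sig : Kn ⊆ Sig := fun _ hx => geh_sig_of_hi (geh_kk_sig hx)

private theorem geh_kn_sn : Kn ⊆ Sn := fun x hx => ⟨kk_sk hx, geh_kn_sig hx⟩

private theorem geh_sn_sig : Sn ⊆ Sig := fun _ hx => hx.2

private theorem geh_rho_sig {x : E3} : rho3 x ∈ Sig ↔ x ∈ Sig := by
  have := sig_rho
  constructor
  · intro h
    rw [← this]
    exact h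
  · intro h
    rw [← this] at h
    exact h

private theorem geh_kn_closed : IsClosed Kn := by
  have e : Kn = Sig ∩ hi ⁻¹' Kk := by
    ext x
    exact ⟨fun h => ⟨geh_kn_sig h, h⟩, fun h => h.2⟩
  rw [e]
  exact hi_cont.preimage_isClosed_of_isClosed sig_closed kk_closed

private theorem geh_sn_closed : IsClosed Sn := by
  have e : Sn = Sig ∩ hi ⁻¹' Sk := by
    ext x
    exact ⟨fun h => ⟨h.2, h.1⟩, fun h => ⟨h.2, h.1⟩⟩
  rw [e]
  exact hi_cont.preimage_isClosed_of_isClosed sig_closed sk_closed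

private theorem geh_sig_eq : Sig = Sn ∪ rho3 ⁻¹' Sn := by
  ext x
  constructor
  · intro hx
    rcases hi_mem hx with h | h
    · exact Or.inl ⟨h, hx⟩
    · right
      refine ⟨?_, geh_rho_sig.2 hx⟩
      show hi (rho3 x) ∈ Sk
      rw [← hi_rho]
      exact h
  · rintro (h | h)
    · exact h.2
    · exact geh_rho_sig.1 h.2

private theorem geh_ss : Sn ∩ rho3 ⁻¹' Sn = Kn := by
  ext x
  constructor
  · rintro ⟨h1, h2⟩
    have h3 : hi (rho3 x) ∈ Sk := h2.1
    rw [← hi_rho] at h3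
    have h4 : hi x ∈ Sk ∩ rho3 ⁻¹' Sk := ⟨h1.1, h3⟩
    rw [sk_inter] at h4
    exact h4
  · intro hx
    have h1 : hi x ∈ Kk := hx
    have h2 : hi x ∈ Sk ∩ rho3 ⁻¹' Sk := by
      rw [sk_inter]
      exact h1
    refine ⟨⟨h2.1, geh_kn_sig hx⟩, ?_, geh_rho_sig.2 (geh_kn_sig hx)⟩
    show hi (rho3 x) ∈ Sk
    rw [← hi_rho]
    exact h2.2

private theorem geh_kinv : rho3 ⁻¹' Kn = Kn := by
  ext x
  have h1 : rho3 (hi x) ∈ Kk ↔ hi x ∈ Kk := by
    have := kk_rho
    constructor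
    · intro h
      rw [← this]
      exact h
    · intro h
      rw [← this] at h
      exact h
  show hi (rho3 x) ∈ Kk ↔ hi x ∈ Kk
  rw [← hi_rho]
  exact h1

/-- the two classes of the handlebody -/
private noncomputable def gehG : Fin 2 → Coch E3 ℤ 1 := ![gp, pb rho3 um]

/-- the two classes of the surface -/
private noncomputable def gehW : Fin 2 → Coch E3 ℤ 1 := ![gp, um]

private theorem geh_W_coc (j : Fin 2) : LZ Sig (dd one (gehW j)) := by
  fin_cases j
  · exact gp_coc.mono subset_union_right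
  · exact um_coc.1

private theorem geh_G_coc (j : Fin 2) : LZ Sig (dd one (gehG j)) := by
  fin_cases j
  · exact gp_coc.mono subset_union_right
  · exact um_coc.2.mono geh_sig_rk

private theorem geh_W_kk (j : Fin 2) : LZ Kk (gehW j) := by
  fin_cases j
  · exact gp_zero.mono subset_union_right
  · exact um_zero.mono subset_union_right

private theorem geh_W_sk' (j : Fin 2) : LZ (rho3 ⁻¹' Sk) (gehW j) := by
  fin_cases j
  · exact gp_zero.mono (fun x hx => Or.inl (Or.inr hx))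
  · exact um_zero.mono (fun x hx => Or.inl (Or.inr hx))

private theorem geh_W'_sk (j : Fin 2) : LZ Sk (pb rho3 (gehW j)) := by
  refine LZ.pb (S' := rho3 ⁻¹' Sk) (fun x hx => ⟨rho3_cont.continuousAt, ?_⟩) (geh_W_sk' j)
  show rho3 (rho3 x) ∈ Sk
  rw [rho3_rho3]
  exact hx

private theorem geh_key {r : E3 → E3} (hr : ∀ x, r x ∈ Sig) (hr1 : ∀ x ∈ Sig, r x = x)
    (hr2 : ∀ x ∈ Sig, ContinuousAt r x) (i : Fin 2) :
    Cob one Sig ∅ (pb (fun y => hh (r y)) (gehG i) -
      (lin2 gehW (alM i) + lin2 (fun j => pb rho3 (gehW j)) (beM i))) := by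
  fin_cases i
  · have h := hh_gp hr hr1 hr2
    refine gaux_eq h ?_
    funext t
    simp [gehG, gehW, lin2, alM, beM, smulC, Fin.sum_univ_two]
    ring
  · have h := hh_um' hr hr1 hr2
    refine gaux_eq h ?_
    funext t
    simp [gehG, gehW, lin2, alM, beM, smulC, Fin.sum_univ_two]
    ring

theorem geo_knot : ∃ (g u : Fin 2 → Coch E3 ℤ 1) (k : Coch E3 ℤ 1),
    Geo3 Kn Sn Rk g u k alM beM := by
  have hne : Sig.Nonempty := by
    obtain ⟨x, hx⟩ := base_S.1
    exact ⟨x, geh_sk_sig hx⟩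
  obtain ⟨r, hr, hr1, hr2⟩ := near_ret sig_closed hne
  obtain ⟨a, ha⟩ : ∃ a : E3 → E3, a = fun y => hi (r y) := ⟨_, rfl⟩
  obtain ⟨b, hb⟩ : ∃ b : E3 → E3, b = fun y => hh (r y) := ⟨_, rfl⟩
  have hac : ∀ x ∈ Sig, ContinuousAt a x := by
    rw [ha]
    exact contAt_ret hr hr1 hr2 hi_cont
  have hbc : ∀ x ∈ Sig, ContinuousAt b x := by
    rw [hb]
    exact contAt_ret hr hr1 hr2 hh_cont
  have hae : ∀ x ∈ Sig, a x = hi x := fun x hx => by
    rw [ha]
    show hi (r x) = hi x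
    rw [hr1 x hx]
  have hbe : ∀ x ∈ Sig, b x = hh x := fun x hx => by
    rw [hb]
    show hh (r x) = hh x
    rw [hr1 x hx]
  have hasig : ∀ x ∈ Sig, a x ∈ Sig := fun x hx => by
    rw [hae x hx]
    exact hi_mem hx
  have hbsig : ∀ x ∈ Sig, b x ∈ Sig := fun x hx => by
    rw [hbe x hx]
    exact hh_mem hx
  have hab : ∀ x ∈ Sig, a (b x) = x := fun x hx => by
    rw [hae _ (hbsig x hx), hbe x hx, hi_hh]
  have hba : ∀ x ∈ Sig, b (a x) = x := fun x hx => by
    rw [hbe _ (hasig x hx), hae x hx, hh_hi]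
  have haSn : ∀ x ∈ Sn, a x ∈ Sk := fun x hx => by
    rw [hae x hx.2]
    exact hx.1
  have hbSk : ∀ x ∈ Sk, b x ∈ Sn := fun x hx => by
    have h1 := geh_sk_sig hx
    rw [hbe x h1]
    refine ⟨?_, hh_mem h1⟩
    show hi (hh x) ∈ Sk
    rw [hi_hh]
    exact hx
  have haKn : ∀ x ∈ Kn, a x ∈ Kk := fun x hx => by
    rw [hae x (geh_kn_sig hx)]
    exact hx
  have hbKk : ∀ x ∈ Kk, b x ∈ Kn := fun x hx => by
    rw [hbe x (geh_kk_sig hx)]
    show hi (hh x) ∈ Kk
    rw [hi_hh]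
    exact hx
  have hrS' : ∀ x ∈ rho3 ⁻¹' Sn, x ∈ Sig := fun x hx => geh_rho_sig.1 hx.2
  have haS' : ∀ x ∈ rho3 ⁻¹' Sn, a x ∈ rho3 ⁻¹' Sk := fun x hx => by
    rw [hae x (hrS' x hx)]
    show rho3 (hi x) ∈ Sk
    rw [hi_rho]
    exact hx.1
  have hkey := geh_key hr hr1 hr2
  rw [← hb] at hkey
  -- the class of G i near Sig
  have hGG : ∀ i, Cob one Sig ∅ (gehG i - pb a (pb b (gehG i))) := by
    intro i
    have h1 := geh_ret (S := Sig) (T := Sig) (f := id) (g := fun x => b (a x))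
      (fun x _ => continuousAt_id)
      (fun x hx => ContinuousAt.comp (hbc _ (hasig x hx)) (hac x hx))
      (fun x hx => (hba x hx).symm) (fun x hx => hx) (geh_G_coc i)
    exact h1
  have hGG2 : ∀ i, Cob one Sig ∅ (gehG i - (lin2 (fun j => pb a (gehW j)) (alM i) +
      lin2 (fun j => pb a (pb rho3 (gehW j))) (beM i))) := by
    intro i
    have h1 := geh_pbcob (f := a) (fun x hx => ⟨hac x hx, hasig x hx⟩) (hkey i)
    have h2 : pb a (pb b (gehG i) - (lin2 gehW (alM i) + lin2 (fun j => pb rho3 (gehW j)) (beM i))) =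
        pb a (pb b (gehG i)) - (lin2 (fun j => pb a (gehW j)) (alM i) +
          lin2 (fun j => pb a (pb rho3 (gehW j))) (beM i)) := by
      rw [← geh_pb_lin2 a, ← geh_pb_lin2 a]
      rfl
    rw [h2] at h1
    exact (hGG i).trans h1
  have hα' : ∀ i, Cob one Sn ∅ (gehG i - lin2 (fun j => pb a (gehW j)) (alM i)) := by
    intro i
    have h1 := (hGG2 i).mono geh_sn_sig (Subset.refl ∅)
    have h2 : LZ Sn (lin2 (fun j => pb a (pb rho3 (gehW j))) (beM i)) := by
      apply geh_lin2_lz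
      intro j
      exact LZ.pb (S' := Sk) (fun x hx => ⟨hac x hx.2, haSn x hx⟩) (geh_W'_sk j)
    refine gaux_eq (h1.add (Cob.of_LZ h2)) ?_
    abel
  have hβ' : ∀ i, Cob one Sn ∅ (pb rho3 (gehG i) - lin2 (fun j => pb a (gehW j)) (beM i)) := by
    intro i
    have h1 := (hGG2 i).mono (fun x (hx : x ∈ rho3 ⁻¹' Sn) => hrS' x hx) (Subset.refl ∅)
    have h2 : LZ (rho3 ⁻¹' Sn) (lin2 (fun j => pb a (gehW j)) (alM i)) := by
      apply geh_lin2_lz
      intro j
      exact LZ.pb (S' := rho3 ⁻¹' Sk) (fun x hx => ⟨hac x (hrS' x hx), haS' x hx⟩) (geh_W_sk' j)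
    have h3 : Cob one (rho3 ⁻¹' Sn) ∅
        (gehG i - lin2 (fun j => pb a (pb rho3 (gehW j))) (beM i)) := by
      refine gaux_eq (h1.add (Cob.of_LZ h2)) ?_
      abel
    have h4 : Cob one Sn ∅ (pb rho3 (gehG i - lin2 (fun j => pb a (pb rho3 (gehW j))) (beM i))) := by
      refine geh_pbcob (T := rho3 ⁻¹' Sn) (fun x hx => ⟨rho3_cont.continuousAt, ?_⟩) h3
      show rho3 (rho3 x) ∈ Sn
      rw [rho3_rho3]
      exact hx
    have h5 : pb rho3 (gehG i - lin2 (fun j => pb a (pb rho3 (gehW j))) (beM i)) =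
        pb rho3 (gehG i) - lin2 (fun j => pb rho3 (pb a (pb rho3 (gehW j)))) (beM i) := by
      rw [← geh_pb_lin2 rho3]
      rfl
    rw [h5] at h4
    have h6 : Cob one Sn ∅ (lin2 (fun j => pb rho3 (pb a (pb rho3 (gehW j)))) (beM i) -
        lin2 (fun j => pb a (gehW j)) (beM i)) := by
      apply geh_lin2_cob
      intro j
      have hx1 : ∀ x ∈ Sn, rho3 x ∈ Sig := fun x hx => geh_rho_sig.2 hx.2
      have h7 := geh_ret (S := Sn) (T := Sig) (f := fun x => rho3 (a (rho3 x))) (g := a)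
        (fun x hx => by
          apply ContinuousAt.comp (rho3_cont.continuousAt)
          exact ContinuousAt.comp (hac _ (hx1 x hx)) rho3_cont.continuousAt)
        (fun x hx => hac x hx.2)
        (fun x hx => by
          rw [hae _ (hx1 x hx), hae x hx.2, hi_rho, rho3_rho3])
        (fun x hx => geh_rho_sig.2 (hasig _ (hx1 x hx))) (geh_W_coc j)
      exact h7
    exact h4.trans h6
  have huK : ∀ j, LZ Kn (pb a (gehW j)) := fun j =>
    LZ.pb (S' := Kk) (fun x hx => ⟨hac x (geh_kn_sig hx), haKn x hx⟩) (geh_W_kk j)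
  have hGK : ∀ i, Cob one Kn ∅ (gehG i) := by
    intro i
    have h1 := (hα' i).mono geh_kn_sn (Subset.refl ∅)
    have h2 : LZ Kn (lin2 (fun j => pb a (gehW j)) (alM i)) := geh_lin2_lz huK _
    refine gaux_eq (h1.add (Cob.of_LZ h2)) ?_
    abel
  choose s _hs0 hs using hGK
  have hgG : ∀ (T : Set E3) (i : Fin 2), Cob one T ∅ ((gehG i - dd one (s i)) - gehG i) := by
    intro T i
    refine ⟨-s i, LZ.empty _, ?_⟩
    have e : (gehG i - dd one (s i)) - gehG i - dd one (-s i) = 0 := by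
      rw [dd_neg]
      abel
    rw [e]
    exact LZ.zero T
  refine ⟨fun i => gehG i - dd one (s i), fun j => pb a (gehW j), pb a (pb inv0 kV), ?_⟩
  exact {
    cK := geh_kn_closed
    cS := geh_sn_closed
    cR := rk_closed
    KS := geh_kn_sn
    SR := geh_sn_sig.trans geh_sig_rk
    S'R := fun x hx => geh_sig_rk (hrS' x hx)
    cover := rk_cover
    inter := by rw [rk_inter]; exact geh_sig_eq
    SS := geh_ss
    Kinv := geh_kinv
    gR := grph_congr base_R (fun i => hgG Rk i)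
    uS := by
      have h := grph_homeo (S := Sk) (T := Sn) base_S b a (fun x hx => hbc x (geh_sk_sig hx))
        (fun x hx => hac x hx.2) hbSk haSn (fun x hx => hba x hx.2)
        (fun x hx => hab x (geh_sk_sig hx))
      exact h
    kK := by
      have h := grph_homeo (S := Kk) (T := Kn) base_K b a (fun x hx => hbc x (geh_kk_sig hx))
        (fun x hx => hac x (geh_kn_sig hx)) hbKk haKn (fun x hx => hba x (geh_kn_sig hx))
        (fun x hx => hab x (geh_kk_sig hx))
      have e : (fun i => pb a ((![pb inv0 kV] : Fin 1 → Coch E3 ℤ 1) i)) =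
          ![pb a (pb inv0 kV)] := by
        funext i
        fin_cases i
        rfl
      rw [e] at h
      exact h
    gK := hs
    uK := huK
    hα := fun i => by
      refine gaux_eq ((hgG Sn i).add (hα' i)) ?_
      abel
    hβ := fun i => by
      have h1 : Cob one Sn ∅ (pb rho3 ((gehG i - dd one (s i)) - gehG i)) := by
        refine geh_pbcob (T := univ) (fun x _ => ⟨rho3_cont.continuousAt, mem_univ _⟩) (hgG univ i)
      refine gaux_eq (h1.add (hβ' i)) ?_
      have e : pb rho3 ((gehG i - dd one (s i)) - gehG i) =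
          pb rho3 (gehG i - dd one (s i)) - pb rho3 (gehG i) := rfl
      rw [e]
      abel }

end PoolFbd
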