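import Pool.Agent.Work.MP_fbd21a_gt.AcUnion
import Pool.Agent.Work.MP_fbd21a_gt.GrAux

/-! MODULE GrInter. Intersection of two circle-like sets with acyclic union.
PROOF. Splitting: every cochain φ is u - v near S ∩ T with u, v any total functions; if φ is a
cocycle near S ∩ T choose by glue_cut the set A and u t = if t 0 ∈ A then φ t else 0, v = u - φ.
(Any choice will do, e.g. u = φ, v = 0! Indeed u = φ, v = 0: then dd φ and 0 agree near S ∩ T.)
Glue dd one u (near S) and dd one v (near T) to w; w is a cocycle near S ∪ T (it is locally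
exact) of degree (deg φ) + 1 ≥ 1, so w = dd χ near S ∪ T. Then φS = u - χ is a cocycle near S,
φT = v - χ is a cocycle near T and φ = φS - φT near S ∩ T.
H^0: φS, φT constants. H^1: φS ~ g·a, φT ~ g'·b near S, T, so φ ~ g·a - g'·b.
H^(n+2): φS, φT exact. Uniqueness in H^1: g·a + g'·b = dd ψ near S ∩ T. Near S take g·a - dd ψ, near T
take - g'·b: they agree near S ∩ T; glue to a cocycle w near S ∪ T, w = dd χ. So g·a = dd (χ + ψ) near
S, a = 0, and g'·b = - dd χ near T, b = 0. -/

open Topology Filter Set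

namespace PoolFbd

/-- splitting of a cocycle near the intersection -/
private theorem grinter_split {E : Type*} [PseudoMetricSpace E] {S T : Set E} (h : Sepd S T)
    (hST : Acyc (S ∪ T)) {A : Type} [AddCommGroup A] {n : ℕ} {φ : Coch E A n}
    (hφ : LZ (S ∩ T) (dd one φ)) : ∃ φS φT : Coch E A n, φ = φS - φT ∧ LZ S (dd one φS) ∧
      LZ T (dd one φT) := by
  obtain ⟨w, hw1, hw2⟩ := glue h (dd one φ) 0 (by rwa [sub_zero])
  have hw : LZ (S ∪ T) (dd one w) := by
    refine LZ.union ?_ ?_
    · have h1 := (hw1.dd (one : E → E → ℤˣ)).add (LZ_dd_dd (IsTw.one S) φ)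
      rw [dd_sub] at h1
      convert h1 using 1
      abel
    · have h1 := hw2.dd (one : E → E → ℤˣ)
      rwa [sub_zero] at h1
  obtain ⟨χ, -, hχ⟩ := (hST.2 A).2 n w hw
  refine ⟨φ - χ, -χ, by abel, ?_, ?_⟩
  · have h1 := (hχ.mono (subset_union_left (s := S) (t := T))).sub hw1
    rw [dd_sub]
    convert h1 using 1
    abel
  · have h1 := (hχ.mono (subset_union_right (s := S) (t := T))).sub hw2
    rw [dd_neg]
    convert h1 using 1
    abel

theorem grph_inter {E : Type*} [PseudoMetricSpace E] {S T : Set E} (h : Sepd S T)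
    {g g' : Coch E ℤ 1} (hS : Grph S ![g]) (hT : Grph T ![g']) (hST : Acyc (S ∪ T))
    (hne : (S ∩ T).Nonempty) : Grph (S ∩ T) ![g, g'] := by
  refine ⟨hne, ?_, fun A _ => ⟨?_, ?_, ?_, ?_⟩⟩
  · intro i
    fin_cases i
    · exact (hS.2.1 0).mono inter_subset_left
    · exact (hT.2.1 0).mono inter_subset_right
  · intro φ hφ
    obtain ⟨φS, φT, rfl, h1, h2⟩ := grinter_split h hST hφ
    obtain ⟨a, ha⟩ := (hS.2.2 A).1 φS h1
    obtain ⟨b, hb⟩ := (hT.2.2 A).1 φT h2
    refine ⟨a - b, ?_⟩
    have h3 := (ha.mono (inter_subset_left (s := S) (t := T))).sub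
      (hb.mono (inter_subset_right (s := S) (t := T)))
    have e : cst E 0 (a - b) = cst E 0 a - cst E 0 b := rfl
    rw [e]
    convert h3 using 1
    abel
  · intro φ hφ
    obtain ⟨φS, φT, rfl, h1, h2⟩ := grinter_split h hST hφ
    obtain ⟨v, hv⟩ := (hS.2.2 A).2.1 φS h1
    obtain ⟨w, hw⟩ := (hT.2.2 A).2.1 φT h2
    rw [gaux_sum_one] at hv hw
    refine ⟨![v 0, -w 0], ?_⟩
    rw [gaux_sum_two]
    show Cob one (S ∩ T) ∅ (φS - φT - (smulC g (v 0) + smulC g' (-w 0)))
    have h3 := (hv.mono (inter_subset_left (s := S) (t := T)) (subset_refl ∅)).sub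
      (hw.mono (inter_subset_right (s := S) (t := T)) (subset_refl ∅))
    have e : smulC g' (-w 0) = -smulC g' (w 0) := by
      funext t
      simp [smulC]
    rw [e]
    refine gaux_eq h3 ?_
    abel
  · intro v hv
    rw [gaux_sum_two] at hv
    obtain ⟨ψ, -, hψ⟩ := hv
    obtain ⟨w, hw1, hw2⟩ := glue h (smulC g (v 0) - dd one ψ) (-smulC g' (v 1)) (by
      convert hψ using 1
      abel)
    have hw : LZ (S ∪ T) (dd one w) := by
      refine LZ.union ?_ ?_
      · have h1 := ((hw1.dd (one : E → E → ℤˣ)).add (gaux_LZ_smulC (hS.2.1 0) (v 0))).sub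
          (LZ_dd_dd (IsTw.one S) ψ)
        rw [dd_sub, dd_sub, gaux_dd_smulC] at h1
        have e : (![g] : Fin 1 → Coch E ℤ 1) 0 = g := rfl
        rw [e] at h1
        convert h1 using 1
        abel
      · have h1 := (hw2.dd (one : E → E → ℤˣ)).sub (gaux_LZ_smulC (hT.2.1 0) (v 1))
        rw [dd_sub, dd_neg, gaux_dd_smulC] at h1
        have e : (![g'] : Fin 1 → Coch E ℤ 1) 0 = g' := rfl
        rw [e] at h1
        convert h1 using 1
        abel
    obtain ⟨χ, -, hχ⟩ := (hST.2 A).2 0 w hw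
    have h5 : (fun _ : Fin 1 => v 0) = 0 := by
      refine (hS.2.2 A).2.2.1 (fun _ => v 0) ?_
      rw [gaux_sum_one]
      refine ⟨χ + ψ, LZ.empty _, ?_⟩
      have h6 := (hχ.mono (subset_union_left (s := S) (t := T))).sub hw1
      rw [dd_add]
      convert h6 using 1
      abel
    have h7 : (fun _ : Fin 1 => v 1) = 0 := by
      refine (hT.2.2 A).2.2.1 (fun _ => v 1) ?_
      rw [gaux_sum_one]
      refine ⟨-χ, LZ.empty _, ?_⟩
      have h6 := hw2.sub (hχ.mono (subset_union_right (s := S) (t := T)))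
      rw [dd_neg]
      convert h6 using 1
      abel
    funext i
    fin_cases i
    · exact congrFun h5 0
    · exact congrFun h7 0
  · intro n φ hφ
    obtain ⟨φS, φT, rfl, h1, h2⟩ := grinter_split h hST hφ
    exact (((hS.2.2 A).2.2.2 n φS h1).mono inter_subset_left (subset_refl ∅)).sub
      (((hT.2.2 A).2.2.2 n φT h2).mono inter_subset_right (subset_refl ∅))

end PoolFbd
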