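import Pool.Agent.Work.MP_fbd21a_gt.AcUnion
import Pool.Agent.Work.MP_fbd21a_gt.GrAux

/-! MODULE GrTwo. Union of two acyclic sets whose intersection is the disjoint union of two acyclic
sets: cohomology of a circle; g is any integral class whose two local potentials differ by 0 on C
and by e = ±1 on D.
PROOF. H^0: constant near S, near T, the constants agree on C. H^1: φ = dd ψ near S, dd ψ' near T,
ψ - ψ' = cst c1 near C and cst c2 near D; subtract c1 from ψ: c1 = 0, c2 = m. Then for a = e m the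
cochains ψ - u·a, ψ' - v·a are potentials of φ - g·a near S, T and their difference is 0 near C and
m - e·e m = 0 near D, so near S ∩ T = C ∪ D: glue. Uniqueness: g·a = dd ψ near S ∪ T. ψ - u·a is
locally constant near S, so cst cS; ψ - v·a = cst cT near T. On C: cS = cT, on D: e a = cT - cS = 0.
H^(n+2): φ = dd ψ, dd ψ'; ψ - ψ' is a cocycle of degree n+1 near C and near D, exact near each,
χ, χ'; glue χ and χ' (Sepd C D, C ∩ D = ∅) to χ'', replace ψ by ψ - dd χ'', glue.
Sepd S T, Sepd C D hold if all sets are closed (Sepd.closed). -/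

open Topology Filter Set

namespace PoolFbd

theorem grph_two {E : Type*} [PseudoMetricSpace E] {S T C D : Set E} (h : Sepd S T)
    (hS : Acyc S) (hT : Acyc T) (hC : Acyc C) (hD : Acyc D) (hCD : Sepd C D)
    (hdis : Disjoint C D) (hST : S ∩ T = C ∪ D) (g : Coch E ℤ 1) (u v : Coch E ℤ 0)
    (hu : LZ S (g - dd one u)) (hv : LZ T (g - dd one v)) (e : ℤ) (he : e = 1 ∨ e = -1)
    (hc : LZ C (u - v)) (hd : LZ D (u - v - cst E 0 e)) : Grph (S ∪ T) ![g] := by
  have hCS : C ⊆ S := fun x hx => ((hST.symm ▸ Or.inl hx : x ∈ S ∩ T)).1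
  have hCT : C ⊆ T := fun x hx => ((hST.symm ▸ Or.inl hx : x ∈ S ∩ T)).2
  have hDS : D ⊆ S := fun x hx => ((hST.symm ▸ Or.inr hx : x ∈ S ∩ T)).1
  have hDT : D ⊆ T := fun x hx => ((hST.symm ▸ Or.inr hx : x ∈ S ∩ T)).2
  have hne : (S ∩ T).Nonempty := by
    obtain ⟨x, hx⟩ := hC.1
    exact ⟨x, hCS hx, hCT hx⟩
  have hee : e * e = 1 := by
    rcases he with rfl | rfl <;> norm_num
  refine ⟨hS.1.inl, ?_, fun A _ => ⟨?_, ?_, ?_, ?_⟩⟩
  · intro i
    fin_cases i
    show LZ (S ∪ T) (dd one g)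
    refine LZ.union ?_ ?_
    · have h1 := (hu.dd (one : E → E → ℤˣ)).add (LZ_dd_dd (IsTw.one S) u)
      rw [dd_sub] at h1
      convert h1 using 1
      abel
    · have h1 := (hv.dd (one : E → E → ℤˣ)).add (LZ_dd_dd (IsTw.one T) v)
      rw [dd_sub] at h1
      convert h1 using 1
      abel
  · intro φ hφ
    obtain ⟨a, ha⟩ := (hS.2 A).1 φ (hφ.mono subset_union_left)
    obtain ⟨b, hb⟩ := (hT.2 A).1 φ (hφ.mono subset_union_right)
    have hab := gaux_cst_eq ha hb hne
    subst hab
    exact ⟨a, ha.union hb⟩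
  · intro φ hφ
    obtain ⟨ψ, -, hψ⟩ := (hS.2 A).2 0 φ (hφ.mono subset_union_left)
    obtain ⟨ψ', -, hψ'⟩ := (hT.2 A).2 0 φ (hφ.mono subset_union_right)
    have h3 : LZ (S ∩ T) (dd one (ψ - ψ')) := by
      have h4 := (hψ'.mono (inter_subset_right (s := S) (t := T))).sub
        (hψ.mono (inter_subset_left (s := S) (t := T)))
      rw [dd_sub]
      convert h4 using 1
      abel
    rw [hST] at h3
    obtain ⟨c1, hc1⟩ := (hC.2 A).1 _ (h3.mono subset_union_left)
    obtain ⟨c2, hc2⟩ := (hD.2 A).1 _ (h3.mono subset_union_right)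
    refine ⟨fun _ => e • (c2 - c1), ?_⟩
    rw [gaux_sum_one]
    refine gaux_glue h (ψ := ψ - cst E 0 c1 - smulC u (e • (c2 - c1)))
      (ψ' := ψ' - smulC v (e • (c2 - c1))) ?_ ?_ ?_
    · have h4 := hψ.sub (gaux_LZ_smulC hu (e • (c2 - c1)))
      rw [gaux_smulC_sub] at h4
      rw [dd_sub, dd_sub, gaux_dd_cst, gaux_dd_smulC]
      convert h4 using 1
      abel
    · have h4 := hψ'.sub (gaux_LZ_smulC hv (e • (c2 - c1)))
      rw [gaux_smulC_sub] at h4
      rw [dd_sub, gaux_dd_smulC]
      convert h4 using 1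
      abel
    · rw [hST]
      refine LZ.union ?_ ?_
      · have h4 := hc1.sub (gaux_LZ_smulC hc (e • (c2 - c1)))
        rw [gaux_smulC_sub] at h4
        convert h4 using 1
        abel
      · have h4 := hc2.sub (gaux_LZ_smulC hd (e • (c2 - c1)))
        rw [gaux_smulC_sub, gaux_smulC_sub] at h4
        have e1 : smulC (cst E 0 e) (e • (c2 - c1)) = cst E 0 c2 - cst E 0 c1 := by
          funext t
          show e • (e • (c2 - c1)) = c2 - c1
          rw [smul_smul, hee, one_smul]
        rw [e1] at h4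
        convert h4 using 1
        abel
  · intro w hw
    rw [gaux_sum_one] at hw
    obtain ⟨ψ, -, hψ⟩ := hw
    have h1 : LZ S (dd one (ψ - smulC u (w 0))) := by
      have h2 := (gaux_LZ_smulC hu (w 0)).sub (hψ.mono (subset_union_left (s := S) (t := T)))
      rw [gaux_smulC_sub] at h2
      rw [dd_sub, gaux_dd_smulC]
      convert h2 using 1
      abel
    have h1' : LZ T (dd one (ψ - smulC v (w 0))) := by
      have h2 := (gaux_LZ_smulC hv (w 0)).sub (hψ.mono (subset_union_right (s := S) (t := T)))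
      rw [gaux_smulC_sub] at h2
      rw [dd_sub, gaux_dd_smulC]
      convert h2 using 1
      abel
    obtain ⟨a, ha⟩ := (hS.2 A).1 _ h1
    obtain ⟨b, hb⟩ := (hT.2 A).1 _ h1'
    have hC1 : LZ C (ψ - smulC v (w 0) - cst E 0 a) := by
      have h2 := (ha.mono hCS).add (gaux_LZ_smulC hc (w 0))
      rw [gaux_smulC_sub] at h2
      convert h2 using 1
      abel
    have hab : a = b := by
      obtain ⟨x, hx⟩ := hC.1
      exact gaux_cst_eq hC1 hb ⟨x, hx, hCT hx⟩
    have hD1 : LZ D (ψ - smulC v (w 0) - cst E 0 (a + e • w 0)) := by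
      have h2 := (ha.mono hDS).add (gaux_LZ_smulC hd (w 0))
      rw [gaux_smulC_sub, gaux_smulC_sub] at h2
      have e1 : cst E 0 (a + e • w 0) = cst E 0 a + smulC (cst E 0 e) (w 0) := rfl
      rw [e1]
      convert h2 using 1
      abel
    have hab' : a + e • w 0 = b := by
      obtain ⟨x, hx⟩ := hD.1
      exact gaux_cst_eq hD1 hb ⟨x, hx, hDT hx⟩
    have h5 : e • w 0 = 0 := by
      rw [← hab] at hab'
      exact left_eq_add.1 hab'.symm
    have h6 : w 0 = 0 := by
      have := congrArg (fun z => e • z) h5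
      simpa [smul_smul, hee] using this
    funext i
    fin_cases i
    exact h6
  · intro n φ hφ
    obtain ⟨ψ, -, hψ⟩ := (hS.2 A).2 (n + 1) φ (hφ.mono subset_union_left)
    obtain ⟨ψ', -, hψ'⟩ := (hT.2 A).2 (n + 1) φ (hφ.mono subset_union_right)
    have h3 : LZ (S ∩ T) (dd one (ψ - ψ')) := by
      have h4 := (hψ'.mono (inter_subset_right (s := S) (t := T))).sub
        (hψ.mono (inter_subset_left (s := S) (t := T)))
      rw [dd_sub]
      convert h4 using 1
      abel
    rw [hST] at h3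
    obtain ⟨χ, -, hχ⟩ := (hC.2 A).2 n _ (h3.mono subset_union_left)
    obtain ⟨χ', -, hχ'⟩ := (hD.2 A).2 n _ (h3.mono subset_union_right)
    obtain ⟨θ, hθ1, hθ2⟩ := glue hCD χ χ' (by
      rw [hdis.inter_eq]
      exact LZ.empty _)
    refine gaux_glue h (ψ := ψ - dd one θ) (ψ' := ψ') ?_ hψ' ?_
    · have h5 := hψ.add (LZ_dd_dd (IsTw.one S) θ)
      rw [dd_sub]
      convert h5 using 1
      abel
    · rw [hST]
      refine LZ.union ?_ ?_
      · have h5 := hχ.sub (hθ1.dd (one : E → E → ℤˣ))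
        rw [dd_sub] at h5
        convert h5 using 1
        abel
      · have h5 := hχ'.sub (hθ2.dd (one : E → E → ℤˣ))
        rw [dd_sub] at h5
        convert h5 using 1
        abel

end PoolFbd
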