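import Pool.Agent.Work.MP_fbd21a_gt.Ret

/-! MODULE NearR. Retraction functions and intrinsic criteria.
near_ret: S closed nonempty in a metric space; choose r x = x for x ∈ S and otherwise a point of S with
dist x (r x) ≤ 2 infDist x S. Continuity at x ∈ S: dist (r y) x ≤ dist (r y) y + dist y x ≤ 3 dist y x.
intr_cob: φ a 1-cocycle near S, V : E → A such that for x₀ ∈ S, φ ![x,y] = V y - V x for x, y ∈ S close to x₀.
Then φ ~ pb r φ (ret_one with f = id, g = r) and pb r φ = dd one (V ∘ r) near S.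
intr_lz: two cocycles which agree on pairs of points of S near each point of S are cohomologous.
contAt_ret: f ContinuousOn S ⇒ f ∘ r is ContinuousAt every x ∈ S. -/

open Topology Filter Set

namespace PoolFbd

theorem near_ret {E : Type*} [PseudoMetricSpace E] {S : Set E} (hS : IsClosed S)
    (hne : S.Nonempty) : ∃ r : E → E, (∀ x, r x ∈ S) ∧ (∀ x ∈ S, r x = x) ∧
      ∀ x ∈ S, ContinuousAt r x := by
  classical
  have hex : ∀ x, ∃ y ∈ S, (x ∈ S → y = x) ∧ dist x y ≤ 2 * Metric.infDist x S := by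
    intro x
    by_cases hx : x ∈ S
    · refine ⟨x, hx, fun _ => rfl, ?_⟩
      rw [dist_self]
      exact mul_nonneg (by norm_num) Metric.infDist_nonneg
    · have hpos : 0 < Metric.infDist x S := (hS.notMem_iff_infDist_pos hne).mp hx
      obtain ⟨y, hy, hxy⟩ := (Metric.infDist_lt_iff hne).mp
        (show Metric.infDist x S < 2 * Metric.infDist x S by linarith)
      exact ⟨y, hy, fun h => absurd h hx, hxy.le⟩
  choose r hr1 hr2 hr3 using hex
  refine ⟨r, hr1, fun x hx => hr2 x hx, fun x hx => ?_⟩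
  rw [Metric.continuousAt_iff]
  intro ε hε
  refine ⟨ε / 3, by positivity, fun y hy => ?_⟩
  rw [hr2 x hx]
  have h1 : dist (r y) x ≤ dist (r y) y + dist y x := dist_triangle _ _ _
  have h2 : dist (r y) y ≤ 2 * dist y x := by
    rw [dist_comm]
    refine (hr3 y).trans ?_
    have := Metric.infDist_le_dist_of_mem (x := y) hx
    linarith
  linarith

theorem contAt_ret {E E' : Type*} [TopologicalSpace E] [TopologicalSpace E'] {S : Set E}
    {r : E → E} (hr : ∀ x, r x ∈ S) (hr1 : ∀ x ∈ S, r x = x) (hr2 : ∀ x ∈ S, ContinuousAt r x)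
    {f : E → E'} (hf : ContinuousOn f S) : ∀ x ∈ S, ContinuousAt (fun y => f (r y)) x := by
  intro x hx
  have h1 : Tendsto r (𝓝 x) (𝓝[S] x) := by
    rw [tendsto_nhdsWithin_iff]
    refine ⟨?_, Eventually.of_forall hr⟩
    have := (hr2 x hx).tendsto
    rwa [hr1 x hx] at this
  have h2 : Tendsto f (𝓝[S] x) (𝓝 (f x)) := hf x hx
  have h3 := h2.comp h1
  change Tendsto (fun y => f (r y)) (𝓝 x) (𝓝 (f (r x)))
  rw [hr1 x hx]
  exact h3

private theorem near_ev {E : Type*} [TopologicalSpace E] {S : Set E}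
    {r : E → E} (hr : ∀ x, r x ∈ S) (hr1 : ∀ x ∈ S, r x = x) {x : E} (hx : x ∈ S)
    (hr2 : ContinuousAt r x) :
    Tendsto (fun t : Fin 2 → E => (r (t 0), r (t 1))) (𝓝 (fun _ => x)) (𝓝[S ×ˢ S] (x, x)) := by
  rw [tendsto_nhdsWithin_iff]
  refine ⟨?_, Eventually.of_forall fun t => ⟨hr _, hr _⟩⟩
  have h1 : Tendsto r (𝓝 x) (𝓝 x) := by
    have := hr2.tendsto
    rwa [hr1 x hx] at this
  have h2 : ∀ i : Fin 2, Tendsto (fun t : Fin 2 → E => r (t i)) (𝓝 (fun _ => x)) (𝓝 x) :=
    fun i => h1.comp ((continuous_apply i).tendsto (fun _ => x))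
  rw [nhds_prod_eq]
  exact (h2 0).prodMk (h2 1)

theorem intr_cob {E A : Type*} [PseudoMetricSpace E] [AddCommGroup A] {S : Set E}
    (hS : IsClosed S) {φ : Coch E A 1} (hφ : LZ S (dd one φ)) (V : E → A)
    (h : ∀ x₀ ∈ S, ∀ᶠ p in 𝓝[S ×ˢ S] ((x₀, x₀) : E × E), φ ![p.1, p.2] = V p.2 - V p.1) :
    Cob one S ∅ φ := by
  rcases S.eq_empty_or_nonempty with rfl | hne
  · exact Cob.of_LZ (LZ.empty φ)
  obtain ⟨r, hr, hr1, hr2⟩ := near_ret hS hne
  have h1 : Cob one S ∅ (pb id φ - pb r φ) := by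
    refine ret_one (S' := S) (Z' := ∅) ?_ ?_ ?_ ?_ ?_ ⟨LZ.empty φ, hφ⟩
    · intro x _
      exact continuousAt_id
    · intro x hx
      rw [union_empty] at hx
      exact hr2 x hx
    · intro x hx
      rw [union_empty] at hx
      exact (hr1 x hx).symm
    · intro x hx
      exact hx
    · intro x hx
      exact hx.elim
  have h2 : Cob one S ∅ (pb r φ) := by
    refine ⟨fun t => V (r (t 0)), LZ.empty _, fun x hx => ?_⟩
    filter_upwards [(near_ev hr hr1 hx (hr2 x hx)).eventually (h x hx)] with t ht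
    have e1 : pb r φ t = φ ![r (t 0), r (t 1)] := by
      unfold pb
      congr 1
      funext j
      fin_cases j <;> rfl
    have e2 : dd one (fun t : Fin (0 + 1) → E => V (r (t 0))) t = V (r (t 1)) - V (r (t 0)) := by
      simp only [dd, Fin.sum_univ_succ, Finset.univ_eq_empty, Finset.sum_empty, one, one_smul,
        Fin.val_zero, zero_add, pow_one, neg_smul, add_zero]
      rw [sub_eq_add_neg]
      rfl
    rw [Pi.sub_apply, e1, e2, ht, sub_self]
  have e : φ = (pb id φ - pb r φ) + pb r φ := by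
    rw [sub_add_cancel]
    rfl
  rw [e]
  exact h1.add h2

end PoolFbd
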