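import Pool.Agent.Work.MP_fbd21a_gt.TwF
import Pool.Agent.Work.MP_fbd21a_gt.NearR
import Pool.Agent.Work.MP_fbd21a_gt.CLin

/-! MODULE PLF. Picard-Lefschetz formula: the m-fold twist changes the class x by m e θ, e the value of x on
the core, θ the class `crossing the core from s < 1/2 to s > 1/2`.
HYPOTHESES: r a retraction function onto Sg (near_ret). x, θ cocycles near Sg. U : ℝ → ℤ with U (l+1) = U l + e and
x ![ν l s, ν l' s'] = U l' - U l for (l,s), (l',s') close to any given (l₀,s₀), s, s' ∈ [0,1]. θ near the annulus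
is the step [1/2 ≤ s'] - [1/2 ≤ s] and θ is zero near the points of Sg outside the open annulus (intrinsically).
PROOF. intr_cob for φ = pb (T ∘ r) x - x - (m e) θ, T = twi ν m (a cocycle near Sg: Coc.pb with
contAt_ret, T ∘ r maps Sg to Sg), with V(ν l s) = U (l + m s) - U l - (if 1/2 ≤ s then m e else 0) (well defined:
U (l+1) = U l + e), V = 0 off the annulus; V = 0 also for s = 0 and s = 1 (U (l + m) - U l - m e = 0).
Check at x₀ ∈ Sg (pairs a, b ∈ Sg close to x₀; on Sg, r = id):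
(1) x₀ in the open annulus: a = ν l s, b = ν l' s' with (l,s), (l',s') close to (l₀,s₀) (openness and
injectivity: points of Sg close to ν l₀ s₀ are ν l s with (l,s) close to (l₀,s₀) modulo integers, by compactness:
private lemma). φ = [U(l' + m s') - U(l + m s)] - [U l' - U l] - m e (step' - step) = V b - V a.
(2) x₀ not in the closed annulus: T = id near x₀ in Sg, θ = 0: φ = 0 = V b - V a.
(3) x₀ = ν l₀ s₀ with s₀ = 0 or 1: for b ∈ Sg close to x₀, T b is close to x₀ too (T x₀ = x₀) and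
x ![b, T b] = V b: if b = ν l s with s close to s₀ = 0, T b = ν (l + m s) s, x ![b, T b] = U(l + m s) - U l; if s₀ = 1,
T b = ν (l - m (1 - s)) s, x ![b, T b] = U (l - m(1-s)) - U l = U(l + m s) - m e - U l; if b is off the annulus T b = b
and x ![b, b] = 0 = V b. The cocycle identity of x near x₀ gives
x ![T a, T b] - x ![a, b] = x ![b, T b] - x ![a, T a] = V b - V a, and θ = 0 there. -/

open Topology Filter Set

namespace PoolFbd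

private theorem pl_U {U : ℝ → ℤ} {e : ℤ} (hU : ∀ l, U (l + 1) = U l + e) (n : ℤ) (l : ℝ) :
    U (l + n) = U l + n * e := by
  have hnat : ∀ (k : ℕ) (l : ℝ), U (l + k) = U l + k * e := by
    intro k
    induction k with
    | zero => intro l; simp
    | succ k ih =>
      intro l
      have e1 : l + ((k + 1 : ℕ) : ℝ) = l + k + 1 := by push_cast; ring
      rw [e1, hU, ih]
      push_cast
      ring
  obtain ⟨k, rfl | rfl⟩ := n.eq_nat_or_neg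
  · exact_mod_cast hnat k l
  · have := hnat k (l - k)
    rw [sub_add_cancel] at this
    push_cast
    rw [← sub_eq_add_neg, this]
    ring

theorem pl_pair {X : Type*} [TopologicalSpace X] {c : X} {P : X → X → Prop}
    (hP : ∀ᶠ p in 𝓝 ((c, c) : X × X), P p.1 p.2) : ∃ W ∈ 𝓝 c, ∀ u ∈ W, ∀ v ∈ W, P u v := by
  rw [nhds_prod_eq] at hP
  obtain ⟨W, hW, h⟩ := Filter.mem_prod_self_iff.mp hP
  exact ⟨W, hW, fun u hu v hv => h (⟨hu, hv⟩ : (u, v) ∈ W ×ˢ W)⟩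

variable {E : Type*} [MetricSpace E] {Sg : Set E} {ν : ℝ → ℝ → E}

theorem pl_lift (h : Ann Sg ν) {l₀ s₀ : ℝ} (hs₀ : s₀ ∈ Icc (0 : ℝ) 1) {W : Set (ℝ × ℝ)}
    (hW : W ∈ 𝓝 (l₀, s₀)) : ∀ᶠ y in 𝓝 (ν l₀ s₀), (∃ l, ∃ s ∈ Icc (0 : ℝ) 1, y = ν l s) →
      ∃ l s, s ∈ Icc (0 : ℝ) 1 ∧ (l, s) ∈ W ∧ y = ν l s := by
  have hK : IsCompact ((Icc (l₀ - 1 / 2) (l₀ + 1 / 2) ×ˢ Icc (0 : ℝ) 1) \ interior W) :=
    (isCompact_Icc.prod isCompact_Icc).diff isOpen_interior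
  have hcl : IsClosed ((fun p : ℝ × ℝ => ν p.1 p.2) ''
      ((Icc (l₀ - 1 / 2) (l₀ + 1 / 2) ×ˢ Icc (0 : ℝ) 1) \ interior W)) :=
    (hK.image_of_continuousOn (h.cont.mono fun p hp => ⟨mem_univ _, hp.1.2⟩)).isClosed
  have hnot : ν l₀ s₀ ∉ (fun p : ℝ × ℝ => ν p.1 p.2) ''
      ((Icc (l₀ - 1 / 2) (l₀ + 1 / 2) ×ˢ Icc (0 : ℝ) 1) \ interior W) := by
    rintro ⟨⟨l, s⟩, ⟨⟨hl, hs⟩, hpW⟩, hp⟩
    obtain ⟨h1, n, h2⟩ := h.inj l l₀ s hs s₀ hs₀ hp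
    have h3 : (n : ℝ) < 1 := by
      have := hl.1
      change l₀ - 1 / 2 ≤ l at this
      linarith
    have h4 : (-1 : ℝ) < n := by
      have := hl.2
      change l ≤ l₀ + 1 / 2 at this
      linarith
    have h5 : n = 0 := by
      have h6 : n < 1 := by exact_mod_cast h3
      have h7 : -1 < n := by exact_mod_cast h4
      omega
    subst h5
    simp only [Int.cast_zero, add_zero] at h2
    subst h1
    subst h2
    exact hpW (mem_interior_iff_mem_nhds.mpr hW)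
  filter_upwards [hcl.isOpen_compl.mem_nhds hnot] with y hy hex
  obtain ⟨l, s, hs, rfl⟩ := hex
  -- shift l
  have hl1 : l - ⌊l - l₀ + 1 / 2⌋ ∈ Icc (l₀ - 1 / 2) (l₀ + 1 / 2) := by
    have h1 := Int.floor_le (l - l₀ + 1 / 2)
    have h2 := Int.lt_floor_add_one (l - l₀ + 1 / 2)
    constructor <;> linarith
  have hl2 : ν (l - ⌊l - l₀ + 1 / 2⌋) s = ν l s := by
    have := per_int h ⌊l - l₀ + 1 / 2⌋ (l - ⌊l - l₀ + 1 / 2⌋) s
    rw [sub_add_cancel] at this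
    exact this.symm
  refine ⟨l - ⌊l - l₀ + 1 / 2⌋, s, hs, ?_, hl2.symm⟩
  by_contra hcon
  apply hy
  refine ⟨(l - ⌊l - l₀ + 1 / 2⌋, s), ⟨⟨hl1, hs⟩, fun hc => hcon (interior_subset hc)⟩, hl2⟩

theorem pl_annclosed (h : Ann Sg ν) :
    IsClosed {x | ∃ l, ∃ s ∈ Icc (0 : ℝ) 1, x = ν l s} := by
  have e : {x | ∃ l, ∃ s ∈ Icc (0 : ℝ) 1, x = ν l s} =
      (fun p : ℝ × ℝ => ν p.1 p.2) '' (Icc 0 1 ×ˢ Icc 0 1) := by
    ext x
    constructor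
    · rintro ⟨l, s, hs, rfl⟩
      refine ⟨(Int.fract l, s), ⟨⟨Int.fract_nonneg l, (Int.fract_lt_one l).le⟩, hs⟩, ?_⟩
      change ν (Int.fract l) s = ν l s
      conv_rhs => rw [← Int.fract_add_floor l]
      rw [per_int h]
    · rintro ⟨p, ⟨_, hp⟩, rfl⟩
      exact ⟨p.1, p.2, hp, rfl⟩
  rw [e]
  exact ((isCompact_Icc.prod isCompact_Icc).image_of_continuousOn
    (h.cont.mono fun p hp => ⟨mem_univ _, hp.2⟩)).isClosed

open Classical in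
/-- The potential. -/
private noncomputable def plV (ν : ℝ → ℝ → E) (U : ℝ → ℤ) (e m : ℤ) : E → ℤ := fun x =>
  if h : ∃ p : ℝ × ℝ, p.2 ∈ Icc (0 : ℝ) 1 ∧ x = ν p.1 p.2 then
    U (h.choose.1 + m * h.choose.2) - U h.choose.1 - (if 1 / 2 ≤ h.choose.2 then m * e else 0)
  else 0

open Classical in
private theorem plV_nu (h : Ann Sg ν) {U : ℝ → ℤ} {e : ℤ} (hU : ∀ l, U (l + 1) = U l + e) (m : ℤ)
    (l : ℝ) {s : ℝ} (hs : s ∈ Icc (0 : ℝ) 1) :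
    plV ν U e m (ν l s) = U (l + m * s) - U l - (if 1 / 2 ≤ s then m * e else 0) := by
  have hex : ∃ p : ℝ × ℝ, p.2 ∈ Icc (0 : ℝ) 1 ∧ ν l s = ν p.1 p.2 := ⟨(l, s), hs, rfl⟩
  unfold plV
  rw [dif_pos hex]
  obtain ⟨h1, h2⟩ := hex.choose_spec
  obtain ⟨h3, n, h4⟩ := h.inj l _ s hs _ h1 h2
  rw [h4, ← h3]
  have e1 : l + n + m * s = l + m * s + n := by ring
  rw [e1, pl_U hU, pl_U hU]
  ring

private theorem plV_off {U : ℝ → ℤ} {e m : ℤ} {x : E}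
    (hx : ∀ l, ∀ s ∈ Icc (0 : ℝ) 1, x ≠ ν l s) : plV ν U e m x = 0 := by
  unfold plV
  rw [dif_neg]
  rintro ⟨p, h1, h2⟩
  exact hx _ _ h1 h2

private theorem pl_coc (h : Ann Sg ν) {r : E → E} (hr : ∀ x, r x ∈ Sg) (hr1 : ∀ x ∈ Sg, r x = x)
    (hr2 : ∀ x ∈ Sg, ContinuousAt r x) {x : Coch E ℤ 1} (hx : LZ Sg (dd one x)) (m : ℤ) :
    LZ Sg (dd one (pb (fun y => twi ν m (r y)) x)) := by
  have h1 : dd one (pb (fun y => twi ν m (r y)) x) = pb (fun y => twi ν m (r y)) (dd one x) :=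
    dd_pb _ one x
  rw [h1]
  exact LZ.pb (fun y hy => ⟨contAt_ret hr hr1 hr2 (tw_cont h m) y hy, tw_mem h m (hr y)⟩) hx

private theorem pl_dd {x : Coch E ℤ 1} (a b c : E) :
    dd one x ![a, b, c] = x ![b, c] - x ![a, c] + x ![a, b] := by
  have e0 : (fun j : Fin (1 + 1) => (![a, b, c] : Fin 3 → E) j.succ) = ![b, c] := by
    funext j; fin_cases j <;> rfl
  have e1 : (fun j : Fin (1 + 1) => (![a, b, c] : Fin 3 → E)
      ((Fin.succ (0 : Fin (1 + 1))).succAbove j)) = ![a, c] := by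
    funext j; fin_cases j <;> rfl
  have e2 : (fun j : Fin (1 + 1) => (![a, b, c] : Fin 3 → E)
      ((Fin.succ (1 : Fin (1 + 1))).succAbove j)) = ![a, b] := by
    funext j; fin_cases j <;> rfl
  have h : dd one x ![a, b, c] = (one : E → E → ℤˣ) a b • x (fun j => (![a, b, c] : Fin 3 → E) j.succ) +
      ∑ i : Fin (1 + 1), (-1 : ℤ) ^ ((i : ℕ) + 1) • x (fun j => (![a, b, c] : Fin 3 → E)
        (i.succ.succAbove j)) := rfl
  rw [h, Fin.sum_univ_two, e0, e1, e2]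
  simp only [one, one_smul, Fin.val_zero, Fin.val_one]
  norm_num
  ring

/-- The cocycle identity for triples near the diagonal. -/
private theorem pl_tri {x : Coch E ℤ 1} {x₀ : E} (hx : ZeroAt (dd one x) x₀) :
    ∃ W ∈ 𝓝 x₀, ∀ a ∈ W, ∀ b ∈ W, ∀ c ∈ W, x ![a, b] + x ![b, c] = x ![a, c] := by
  have hx' : ∀ᶠ t in 𝓝 (fun _ : Fin 3 => x₀), dd one x t = 0 := hx
  obtain ⟨ε, hε, hball⟩ := Metric.eventually_nhds_iff.mp hx'
  refine ⟨Metric.ball x₀ ε, Metric.ball_mem_nhds x₀ hε, fun a ha b hb c hc => ?_⟩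
  have h1 : dd one x ![a, b, c] = 0 := by
    apply hball
    rw [dist_pi_lt_iff hε]
    intro i
    fin_cases i
    · exact ha
    · exact hb
    · exact hc
  rw [pl_dd] at h1
  linarith

/-- Near a boundary point of the annulus the potential measures the displacement. -/
private theorem pl_bdry (h : Ann Sg ν) {x : Coch E ℤ 1} (U : ℝ → ℤ) (e : ℤ)
    (hU : ∀ l, U (l + 1) = U l + e) (m : ℤ) {l₀ s₀ : ℝ} (hs : s₀ = 0 ∨ s₀ = 1)
    (hxx : ZeroAt (dd one x) (ν l₀ s₀))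
    (hxU : ∀ᶠ p in 𝓝 (((l₀, s₀), (l₀, s₀)) : (ℝ × ℝ) × (ℝ × ℝ)),
      p.1.2 ∈ Icc (0 : ℝ) 1 → p.2.2 ∈ Icc (0 : ℝ) 1 →
        x ![ν p.1.1 p.1.2, ν p.2.1 p.2.2] = U p.2.1 - U p.1.1) :
    ∀ᶠ b in 𝓝 (ν l₀ s₀), x ![b, twi ν m b] = plV ν U e m b := by
  have hs₀ : s₀ ∈ Icc (0 : ℝ) 1 := by
    rcases hs with rfl | rfl <;> simp
  obtain ⟨W, hW, hxW⟩ := pl_pair (P := fun u v : ℝ × ℝ => u.2 ∈ Icc (0 : ℝ) 1 →
    v.2 ∈ Icc (0 : ℝ) 1 → x ![ν u.1 u.2, ν v.1 v.2] = U v.1 - U u.1) hxU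
  obtain ⟨W', hW', htri⟩ := pl_tri hxx
  have hdiag : ∀ b ∈ W', x ![b, b] = 0 := by
    intro b hb
    have := htri b hb b hb b hb
    linarith
  rcases hs with rfl | rfl
  · -- s₀ = 0
    have hW2 : {p : ℝ × ℝ | p ∈ W ∧ (p.1 + m * p.2, p.2) ∈ W ∧ p.2 < 1 / 2} ∈ 𝓝 ((l₀, 0) : ℝ × ℝ) := by
      have hc : Continuous (fun p : ℝ × ℝ => ((p.1 + m * p.2, p.2) : ℝ × ℝ)) := by fun_prop
      have h2 : Tendsto (fun p : ℝ × ℝ => ((p.1 + m * p.2, p.2) : ℝ × ℝ)) (𝓝 (l₀, 0))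
          (𝓝 (l₀, 0)) := by
        have := hc.tendsto (l₀, 0)
        simpa using this
      have h3 : ∀ᶠ p : ℝ × ℝ in 𝓝 (l₀, 0), p.2 < 1 / 2 :=
        (continuous_snd.tendsto ((l₀, 0) : ℝ × ℝ)).eventually_lt_const (by norm_num)
      exact (show ∀ᶠ p : ℝ × ℝ in 𝓝 (l₀, 0), _ from hW).and ((h2.eventually hW).and h3)
    filter_upwards [pl_lift h hs₀ hW2, hW'] with b hb hbW
    by_cases hN : ∃ l, ∃ s ∈ Icc (0 : ℝ) 1, b = ν l s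
    · obtain ⟨l, s, hs, ⟨h1, h2, h3⟩, rfl⟩ := hb hN
      rw [tw_nu h m l hs, plV_nu h hU m l hs]
      have h4 : ¬ (1 / 2 ≤ s) := not_le.mpr h3
      rw [if_neg h4, sub_zero]
      exact hxW _ h1 _ h2 hs hs
    · push Not at hN
      rw [tw_off m hN, plV_off hN, hdiag b hbW]
  · -- s₀ = 1
    have hW2 : {p : ℝ × ℝ | p ∈ W ∧ (p.1 - m * (1 - p.2), p.2) ∈ W ∧ 1 / 2 < p.2} ∈
        𝓝 ((l₀, 1) : ℝ × ℝ) := by
      have hc : Continuous (fun p : ℝ × ℝ => ((p.1 - m * (1 - p.2), p.2) : ℝ × ℝ)) := by fun_prop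
      have h2 : Tendsto (fun p : ℝ × ℝ => ((p.1 - m * (1 - p.2), p.2) : ℝ × ℝ)) (𝓝 (l₀, 1))
          (𝓝 (l₀, 1)) := by
        have := hc.tendsto (l₀, 1)
        simpa using this
      have h3 : ∀ᶠ p : ℝ × ℝ in 𝓝 (l₀, 1), 1 / 2 < p.2 :=
        (continuous_snd.tendsto ((l₀, 1) : ℝ × ℝ)).eventually_const_lt (by norm_num)
      exact (show ∀ᶠ p : ℝ × ℝ in 𝓝 (l₀, 1), _ from hW).and ((h2.eventually hW).and h3)
    filter_upwards [pl_lift h hs₀ hW2, hW'] with b hb hbW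
    by_cases hN : ∃ l, ∃ s ∈ Icc (0 : ℝ) 1, b = ν l s
    · obtain ⟨l, s, hs, ⟨h1, h2, h3⟩, rfl⟩ := hb hN
      have e1 : l + m * s = l - m * (1 - s) + m := by ring
      rw [tw_nu h m l hs, plV_nu h hU m l hs, if_pos h3.le, e1, per_int h, pl_U hU]
      rw [hxW _ h1 _ h2 hs hs]
      ring
    · push Not at hN
      rw [tw_off m hN, plV_off hN, hdiag b hbW]

theorem picard_lefschetz {E : Type*} [MetricSpace E] {Sg : Set E} {ν : ℝ → ℝ → E}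
    (h : Ann Sg ν) {r : E → E} (hr : ∀ x, r x ∈ Sg) (hr1 : ∀ x ∈ Sg, r x = x)
    (hr2 : ∀ x ∈ Sg, ContinuousAt r x) {x θ : Coch E ℤ 1} (hx : LZ Sg (dd one x))
    (hθ : LZ Sg (dd one θ)) (U : ℝ → ℤ) (e : ℤ) (hU : ∀ l, U (l + 1) = U l + e)
    (hxU : ∀ l₀, ∀ s₀ ∈ Icc (0 : ℝ) 1, ∀ᶠ p in 𝓝 (((l₀, s₀), (l₀, s₀)) : (ℝ × ℝ) × (ℝ × ℝ)),
      p.1.2 ∈ Icc (0 : ℝ) 1 → p.2.2 ∈ Icc (0 : ℝ) 1 →
        x ![ν p.1.1 p.1.2, ν p.2.1 p.2.2] = U p.2.1 - U p.1.1)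
    (hθ1 : ∀ l₀, ∀ s₀ ∈ Ioo (0 : ℝ) 1, ∀ᶠ p in 𝓝 (((l₀, s₀), (l₀, s₀)) : (ℝ × ℝ) × (ℝ × ℝ)),
      θ ![ν p.1.1 p.1.2, ν p.2.1 p.2.2] =
        (open Classical in (if 1 / 2 ≤ p.2.2 then 1 else 0) - (if 1 / 2 ≤ p.1.2 then 1 else 0)))
    (hθ2 : ∀ x₀ ∈ Sg, (∀ l, ∀ s ∈ Ioo (0 : ℝ) 1, x₀ ≠ ν l s) →
      ∀ᶠ p in 𝓝[Sg ×ˢ Sg] ((x₀, x₀) : E × E), θ ![p.1, p.2] = 0) (m : ℤ) :
    Cob one Sg ∅ (pb (fun y => twi ν m (r y)) x - x - (m * e) • θ) := by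
  have hcoc : LZ Sg (dd one (pb (fun y => twi ν m (r y)) x - x - (m * e) • θ)) := by
    rw [dd_sub, dd_sub, cl_dd_smul]
    exact ((pl_coc h hr hr1 hr2 hx m).sub hx).sub (cl_lz_smul _ hθ)
  refine intr_cob h.cl hcoc (plV ν U e m) fun x₀ hx₀ => ?_
  suffices hsuff : ∀ᶠ p in 𝓝[Sg ×ˢ Sg] ((x₀, x₀) : E × E),
      x ![twi ν m p.1, twi ν m p.2] - x ![p.1, p.2] - m * e * θ ![p.1, p.2] =
        plV ν U e m p.2 - plV ν U e m p.1 by
    filter_upwards [hsuff, self_mem_nhdsWithin] with p hp hpS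
    have e1 : (fun j : Fin (1 + 1) => twi ν m (r ((![p.1, p.2] : Fin 2 → E) j))) =
        ![twi ν m p.1, twi ν m p.2] := by
      funext j
      fin_cases j
      · change twi ν m (r p.1) = twi ν m p.1
        rw [hr1 _ hpS.1]
      · change twi ν m (r p.2) = twi ν m p.2
        rw [hr1 _ hpS.2]
    rw [← hp, Pi.sub_apply, Pi.sub_apply, Pi.smul_apply, smul_eq_mul]
    change x (fun j => twi ν m (r ((![p.1, p.2] : Fin 2 → E) j))) - _ - _ = _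
    rw [e1]
  by_cases hopen : ∃ l, ∃ s ∈ Ioo (0 : ℝ) 1, x₀ = ν l s
  · -- the open annulus
    obtain ⟨l₀, s₀, hs₀, rfl⟩ := hopen
    have hs₀' : s₀ ∈ Icc (0 : ℝ) 1 := ⟨hs₀.1.le, hs₀.2.le⟩
    obtain ⟨W1, hW1, hx1⟩ := pl_pair (P := fun u v : ℝ × ℝ => u.2 ∈ Icc (0 : ℝ) 1 →
      v.2 ∈ Icc (0 : ℝ) 1 → x ![ν u.1 u.2, ν v.1 v.2] = U v.1 - U u.1) (hxU l₀ s₀ hs₀')
    obtain ⟨W2, hW2, hx2⟩ := pl_pair (P := fun u v : ℝ × ℝ => u.2 ∈ Icc (0 : ℝ) 1 →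
      v.2 ∈ Icc (0 : ℝ) 1 → x ![ν u.1 u.2, ν v.1 v.2] = U v.1 - U u.1)
      (hxU (l₀ + m * s₀) s₀ hs₀')
    obtain ⟨W3, hW3, hx3⟩ := pl_pair (P := fun u v : ℝ × ℝ => θ ![ν u.1 u.2, ν v.1 v.2] =
      (open Classical in (if 1 / 2 ≤ v.2 then 1 else 0) - (if 1 / 2 ≤ u.2 then 1 else 0)))
      (hθ1 l₀ s₀ hs₀)
    have hW : {p : ℝ × ℝ | p ∈ W1 ∧ (p.1 + m * p.2, p.2) ∈ W2 ∧ p ∈ W3} ∈
        𝓝 ((l₀, s₀) : ℝ × ℝ) := by
      have hc : Continuous (fun p : ℝ × ℝ => ((p.1 + m * p.2, p.2) : ℝ × ℝ)) := by fun_prop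
      have h2 : Tendsto (fun p : ℝ × ℝ => ((p.1 + m * p.2, p.2) : ℝ × ℝ)) (𝓝 (l₀, s₀))
          (𝓝 (l₀ + m * s₀, s₀)) := hc.tendsto (l₀, s₀)
      exact (show ∀ᶠ p : ℝ × ℝ in 𝓝 (l₀, s₀), _ from hW1).and ((h2.eventually hW2).and
        (show ∀ᶠ p : ℝ × ℝ in 𝓝 (l₀, s₀), _ from hW3))
    obtain ⟨O, hO, hOS⟩ := h.opn
    have hmem : ν l₀ s₀ ∈ O := by
      have : ν l₀ s₀ ∈ O ∩ Sg := by
        rw [hOS]
        exact ⟨l₀, s₀, hs₀, rfl⟩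
      exact this.1
    have hone : ∀ᶠ y in 𝓝[Sg] (ν l₀ s₀), ∃ l s, s ∈ Icc (0 : ℝ) 1 ∧
        ((l, s) ∈ W1 ∧ (l + m * s, s) ∈ W2 ∧ (l, s) ∈ W3) ∧ y = ν l s := by
      filter_upwards [nhdsWithin_le_nhds (pl_lift h hs₀' hW),
        nhdsWithin_le_nhds (hO.mem_nhds hmem), self_mem_nhdsWithin] with y h1 h2 h3
      apply h1
      have h4 : y ∈ O ∩ Sg := ⟨h2, h3⟩
      rw [hOS] at h4
      obtain ⟨l, s, hs, rfl⟩ := h4
      exact ⟨l, s, ⟨hs.1.le, hs.2.le⟩, rfl⟩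
    rw [nhdsWithin_prod_eq]
    filter_upwards [hone.prod_mk hone] with p hp
    obtain ⟨⟨l, s, hs, ⟨h1, h2, h3⟩, e1⟩, ⟨l', s', hs', ⟨h1', h2', h3'⟩, e2⟩⟩ := hp
    rw [e1, e2, tw_nu h m l hs, tw_nu h m l' hs', plV_nu h hU m l hs, plV_nu h hU m l' hs',
      hx2 _ h2 _ h2' hs hs', hx1 _ h1 _ h1' hs hs', hx3 _ h3 _ h3']
    dsimp only
    split_ifs <;> ring
  · -- outside the open annulus
    push Not at hopen
    have hθ0 := hθ2 x₀ hx₀ hopen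
    by_cases hcl : ∃ l, ∃ s ∈ Icc (0 : ℝ) 1, x₀ = ν l s
    · obtain ⟨l₀, s₀, hs₀, rfl⟩ := hcl
      have hs01 : s₀ = 0 ∨ s₀ = 1 := by
        by_contra hc
        push Not at hc
        exact hopen l₀ s₀ ⟨lt_of_le_of_ne hs₀.1 (Ne.symm hc.1), lt_of_le_of_ne hs₀.2 hc.2⟩ rfl
      have hfix : twi ν m (ν l₀ s₀) = ν l₀ s₀ := by
        rw [tw_nu h m l₀ hs₀]
        rcases hs01 with rfl | rfl
        · simp
        · rw [mul_one, per_int h]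
      have hb := pl_bdry h U e hU m hs01 (hx _ hx₀) (hxU l₀ s₀ hs₀)
      obtain ⟨W', hW', htri⟩ := pl_tri (hx _ hx₀)
      have hT : ∀ᶠ b in 𝓝[Sg] (ν l₀ s₀), twi ν m b ∈ W' := by
        have h1 : Tendsto (twi ν m) (𝓝[Sg] (ν l₀ s₀)) (𝓝 (twi ν m (ν l₀ s₀))) :=
          tw_cont h m _ hx₀
        rw [hfix] at h1
        exact h1.eventually hW'
      have hone : ∀ᶠ b in 𝓝[Sg] (ν l₀ s₀), x ![b, twi ν m b] = plV ν U e m b ∧ b ∈ W' ∧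
          twi ν m b ∈ W' := by
        filter_upwards [nhdsWithin_le_nhds hb, nhdsWithin_le_nhds hW', hT] with b h1 h2 h3
        exact ⟨h1, h2, h3⟩
      rw [nhdsWithin_prod_eq] at hθ0 ⊢
      filter_upwards [hone.prod_mk hone, hθ0] with p hp hp2
      obtain ⟨⟨h1, h2, h3⟩, ⟨h1', h2', h3'⟩⟩ := hp
      have t1 := htri p.1 h2 p.2 h2' (twi ν m p.2) h3'
      have t2 := htri p.1 h2 (twi ν m p.1) h3 (twi ν m p.2) h3'
      rw [hp2, mul_zero, sub_zero, ← h1, ← h1']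
      linarith
    · have hN : ∀ᶠ b in 𝓝 x₀, b ∉ {x | ∃ l, ∃ s ∈ Icc (0 : ℝ) 1, x = ν l s} :=
        (pl_annclosed h).isOpen_compl.mem_nhds hcl
      have hone : ∀ᶠ b in 𝓝[Sg] x₀, twi ν m b = b ∧ plV ν U e m b = 0 := by
        filter_upwards [nhdsWithin_le_nhds hN] with b hb
        have hb' : ∀ l, ∀ s ∈ Icc (0 : ℝ) 1, b ≠ ν l s := by
          intro l s hs he
          exact hb ⟨l, s, hs, he⟩
        exact ⟨tw_off m hb', plV_off hb'⟩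
      rw [nhdsWithin_prod_eq] at hθ0 ⊢
      filter_upwards [hone.prod_mk hone, hθ0] with p hp hp2
      rw [hp.1.1, hp.2.1, hp.1.2, hp.2.2, hp2]
      ring

/-- A class which is invariant under the twist on the annulus. -/
theorem twist_inv {E : Type*} [MetricSpace E] {Sg : Set E} {ν : ℝ → ℝ → E}
    (h : Ann Sg ν) {r : E → E} (hr : ∀ x, r x ∈ Sg) (hr1 : ∀ x ∈ Sg, r x = x)
    (hr2 : ∀ x ∈ Sg, ContinuousAt r x) {x : Coch E ℤ 1} (hx : LZ Sg (dd one x)) (m : ℤ)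
    (hxT : ∀ x₀ ∈ Sg, ∀ᶠ p in 𝓝[Sg ×ˢ Sg] ((x₀, x₀) : E × E),
      x ![twi ν m p.1, twi ν m p.2] = x ![p.1, p.2]) :
    Cob one Sg ∅ (pb (fun y => twi ν m (r y)) x - x) := by
  have hcoc : LZ Sg (dd one (pb (fun y => twi ν m (r y)) x - x)) := by
    rw [dd_sub]
    exact (pl_coc h hr hr1 hr2 hx m).sub hx
  refine intr_cob h.cl hcoc (fun _ => 0) fun x₀ hx₀ => ?_
  filter_upwards [hxT x₀ hx₀, self_mem_nhdsWithin] with p hp hpS
  have e1 : (fun j : Fin (1 + 1) => twi ν m (r ((![p.1, p.2] : Fin 2 → E) j))) =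
      ![twi ν m p.1, twi ν m p.2] := by
    funext j
    fin_cases j
    · change twi ν m (r p.1) = twi ν m p.1
      rw [hr1 _ hpS.1]
    · change twi ν m (r p.2) = twi ν m p.2
      rw [hr1 _ hpS.2]
  rw [Pi.sub_apply]
  change x (fun j => twi ν m (r ((![p.1, p.2] : Fin 2 → E) j))) - _ = _
  rw [e1, hp, sub_self, sub_self]

end PoolFbd
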