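import Pool.Agent.Work.MP_fbd21a_gt.PLF
import Pool.Agent.Work.MP_fbd21a_gt.BaseG
import Pool.Agent.Work.MP_fbd21a_gt.NuB
import Pool.Agent.Work.MP_fbd21a_gt.NuD

/-! Common lemmas for TsB and TsD. -/

open Topology Filter Set

namespace PoolFbd

theorem tsc_pair {E : Type*} [TopologicalSpace E] {A : Type*} [Zero A] {x : Coch E A 1} {x₀ : E}
    (h : ZeroAt x x₀) : ∀ᶠ p in 𝓝 ((x₀, x₀) : E × E), x ![p.1, p.2] = 0 := by
  have hc : Continuous (fun p : E × E => (![p.1, p.2] : Fin 2 → E)) := by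
    refine continuous_pi fun i => ?_
    fin_cases i
    · exact continuous_fst
    · exact continuous_snd
  have h1 := hc.tendsto ((x₀, x₀) : E × E)
  have e : (![x₀, x₀] : Fin 2 → E) = fun _ => x₀ := by
    funext i
    fin_cases i <;> rfl
  change Tendsto _ _ (𝓝 (![x₀, x₀] : Fin 2 → E)) at h1
  rw [e] at h1
  exact h1.eventually h

/-- A class vanishing near the closed annulus is invariant under the twist. -/
theorem twist_inv_zero {E : Type*} [MetricSpace E] {Sg : Set E} {ν : ℝ → ℝ → E}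
    (h : Ann Sg ν) {r : E → E} (hr : ∀ x, r x ∈ Sg) (hr1 : ∀ x ∈ Sg, r x = x)
    (hr2 : ∀ x ∈ Sg, ContinuousAt r x) {x : Coch E ℤ 1} (hx : LZ Sg (dd one x)) (m : ℤ)
    (hz : ∀ l, ∀ s ∈ Icc (0 : ℝ) 1, ZeroAt x (ν l s)) :
    Cob one Sg ∅ (pb (fun y => twi ν m (r y)) x - x) := by
  refine twist_inv h hr hr1 hr2 hx m fun x₀ hx₀ => ?_
  by_cases hcl : ∃ l, ∃ s ∈ Icc (0 : ℝ) 1, x₀ = ν l s
  · obtain ⟨l₀, s₀, hs₀, rfl⟩ := hcl
    have h1 := tsc_pair (hz l₀ s₀ hs₀)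
    have h2 := tsc_pair (hz (l₀ + m * s₀) s₀ hs₀)
    have hT : Tendsto (twi ν m) (𝓝[Sg] (ν l₀ s₀)) (𝓝 (ν (l₀ + m * s₀) s₀)) := by
      have := tw_cont h m _ hx₀
      unfold ContinuousWithinAt at this
      rwa [tw_nu h m l₀ hs₀] at this
    have hT2 : Tendsto (fun p : E × E => (twi ν m p.1, twi ν m p.2))
        (𝓝[Sg ×ˢ Sg] ((ν l₀ s₀, ν l₀ s₀) : E × E))
        (𝓝 ((ν (l₀ + m * s₀) s₀, ν (l₀ + m * s₀) s₀) : E × E)) := by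
      rw [nhdsWithin_prod_eq, nhds_prod_eq]
      exact hT.prodMap hT
    filter_upwards [nhdsWithin_le_nhds h1, hT2.eventually h2] with p a b
    rw [a]
    exact b
  · have hN : ∀ᶠ b in 𝓝 x₀, b ∉ {x | ∃ l, ∃ s ∈ Icc (0 : ℝ) 1, x = ν l s} :=
      (pl_annclosed h).isOpen_compl.mem_nhds hcl
    have hone : ∀ᶠ b in 𝓝[Sg] x₀, twi ν m b = b := by
      filter_upwards [nhdsWithin_le_nhds hN] with b hb
      exact tw_off m fun l s hs he => hb ⟨l, s, hs, he⟩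
    rw [nhdsWithin_prod_eq]
    filter_upwards [hone.prod_mk hone] with p hp
    rw [hp.1, hp.2]

/-- The values of a class on pairs of points of the annulus near a point where the class is zero. -/
theorem tsc_nu {E : Type*} [MetricSpace E] {Sg : Set E} {ν : ℝ → ℝ → E}
    (h : Ann Sg ν) {x : Coch E ℤ 1} {l₀ s₀ : ℝ} (hs₀ : s₀ ∈ Icc (0 : ℝ) 1)
    (hz : ZeroAt x (ν l₀ s₀)) : ∀ᶠ p in 𝓝 (((l₀, s₀), (l₀, s₀)) : (ℝ × ℝ) × (ℝ × ℝ)),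
      p.1.2 ∈ Icc (0 : ℝ) 1 → p.2.2 ∈ Icc (0 : ℝ) 1 →
        x ![ν p.1.1 p.1.2, ν p.2.1 p.2.2] = 0 := by
  have h1 := tsc_pair hz
  have hc : Tendsto (fun p : ℝ × ℝ => ν p.1 p.2) (𝓝[univ ×ˢ Icc 0 1] (l₀, s₀))
      (𝓝 (ν l₀ s₀)) := h.cont _ ⟨mem_univ _, hs₀⟩
  have hc2 : Tendsto (fun p : (ℝ × ℝ) × (ℝ × ℝ) => (ν p.1.1 p.1.2, ν p.2.1 p.2.2))
      (𝓝[(univ ×ˢ Icc 0 1) ×ˢ (univ ×ˢ Icc 0 1)] (((l₀, s₀), (l₀, s₀)) : (ℝ × ℝ) × (ℝ × ℝ)))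
      (𝓝 ((ν l₀ s₀, ν l₀ s₀) : E × E)) := by
    rw [nhdsWithin_prod_eq, nhds_prod_eq]
    exact hc.prodMap hc
  have h2 := hc2.eventually h1
  rw [eventually_nhdsWithin_iff] at h2
  filter_upwards [h2] with p hp a b
  exact hp ⟨⟨mem_univ _, a⟩, ⟨mem_univ _, b⟩⟩

/-- The floor function is locally constant off the integers. -/
theorem tsc_floor {a l₀ : ℝ} (h : Int.fract (l₀ - a) ≠ 0) :
    ∀ᶠ l in 𝓝 l₀, ⌊l - a⌋ = ⌊l₀ - a⌋ := by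
  have h1 : ((⌊l₀ - a⌋ : ℤ) : ℝ) < l₀ - a := by
    have h2 := Int.floor_add_fract (l₀ - a)
    have h3 := Int.fract_nonneg (l₀ - a)
    rcases eq_or_lt_of_le h3 with h4 | h4
    · exact absurd h4.symm h
    · linarith
  have h5 := Int.lt_floor_add_one (l₀ - a)
  have h6 : ∀ᶠ l in 𝓝 l₀, l - a ∈ Ioo ((⌊l₀ - a⌋ : ℤ) : ℝ) ((⌊l₀ - a⌋ : ℤ) + 1) :=
    (continuous_id.sub continuous_const).continuousAt.eventually_mem (isOpen_Ioo.mem_nhds ⟨h1, h5⟩)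
  filter_upwards [h6] with l hl
  rw [Int.floor_eq_iff]
  exact ⟨hl.1.le, hl.2⟩

/-- The step function. -/
theorem tsc_st (x : ℝ) : st 0 x = (open Classical in if 0 ≤ x then 1 else 0) := rfl

/-- Pulling back by `rho3` turns one retraction function into another. -/
theorem tsc_ret {r : E3 → E3} (hr : ∀ x, r x ∈ Sig) (hr1 : ∀ x ∈ Sig, r x = x)
    (hr2 : ∀ x ∈ Sig, ContinuousAt r x) :
    (∀ x, rho3 (r (rho3 x)) ∈ Sig) ∧ (∀ x ∈ Sig, rho3 (r (rho3 x)) = x) ∧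
      ∀ x ∈ Sig, ContinuousAt (fun y => rho3 (r (rho3 y))) x := by
  have hsig : ∀ x : E3, rho3 x ∈ Sig ↔ x ∈ Sig := by
    intro x
    change x ∈ rho3 ⁻¹' Sig ↔ _
    rw [sig_rho]
  refine ⟨fun x => (hsig _).mpr (hr _), fun x hx => ?_, fun x hx => ?_⟩
  · rw [hr1 _ ((hsig x).mpr hx), rho3_rho3]
  · exact rho3_cont.continuousAt.comp (ContinuousAt.comp (g := r) (f := rho3)
      (hr2 _ ((hsig x).mpr hx)) rho3_cont.continuousAt)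

theorem tsc_sig (x : E3) : rho3 x ∈ Sig ↔ x ∈ Sig := by
  change x ∈ rho3 ⁻¹' Sig ↔ _
  rw [sig_rho]

theorem tsc_rho_sig {φ : Coch E3 ℤ 1} (h : Cob one Sig ∅ φ) : Cob one Sig ∅ (pb rho3 φ) :=
  Cob.pb (τ := one) (fun x hx => ⟨rho3_cont.continuousAt, (tsc_sig x).mpr hx⟩)
    (fun x hx => hx.elim) h

theorem tsc_um_coc : LZ Sig (dd one um) := um_coc.1

theorem tsc_sig_rk : Sig ⊆ Rk := by
  rintro x (hx | hx)
  · exact sk_rk hx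
  · exact sk_rk' hx

theorem tsc_gp_coc : LZ Sig (dd one gp) := gp_coc.mono subset_union_right

theorem tsc_um'_coc : LZ Sig (dd one (pb rho3 um)) := um_coc.2.mono tsc_sig_rk

theorem tsc_gp'_coc : LZ Sig (dd one (pb rho3 gp)) := by
  have e : dd one (pb rho3 gp) = pb rho3 (dd one gp) := dd_pb rho3 one gp
  rw [e]
  exact LZ.pb (fun x hx => ⟨rho3_cont.continuousAt, (tsc_sig x).mpr hx⟩) tsc_gp_coc

/-- Values of `gp` on pairs. -/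
theorem tsc_gp {a b : E3} (ha : 0 < (a.1 0 : ℝ)) (h : |inv0 a 0| ≤ 2) (h2 : inv0 a 2 ≤ 2) :
    gp ![a, b] = st 0 (inv0 b 1) - st 0 (inv0 a 1) := by
  unfold gp
  have h0 : 0 < (((![a, b] : Fin 2 → E3) 0).1 0 : ℝ) := ha
  rw [if_pos h0]
  unfold gP
  have h3 : |(fun j => inv0 ((![a, b] : Fin 2 → E3) j)) 0 0| ≤ 2 ∧
      (fun j => inv0 ((![a, b] : Fin 2 → E3) j)) 0 2 ≤ 2 := ⟨h, h2⟩
  rw [if_pos h3]
  rfl

/-- Values of `um` on pairs. -/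
theorem tsc_um {a b : E3} (ha : 0 < (a.1 0 : ℝ)) (h : 1 / 2 ≤ inv0 a 2) :
    um ![a, b] = st 0 (inv0 b 0) - st 0 (inv0 a 0) := by
  unfold um
  have h0 : 0 < (((![a, b] : Fin 2 → E3) 0).1 0 : ℝ) := ha
  rw [if_pos h0]
  unfold gM
  have h3 : 1 / 2 ≤ (fun j => inv0 ((![a, b] : Fin 2 → E3) j)) 0 2 := h
  rw [if_pos h3]
  rfl

theorem tsc_rho_zero {φ : Coch E3 ℤ 1} {x : E3} (h : ZeroAt φ (rho3 x)) :
    ZeroAt (pb rho3 φ) x :=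
  (tendsto_pb (f := rho3) rho3_cont.continuousAt).eventually h

end PoolFbd
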