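import Pool.Agent.Work.MP_fbd21a_gt.NuD
import Pool.Agent.Work.MP_fbd21a_gt.PLF
import Pool.Agent.Work.MP_fbd21a_gt.BaseG
import Pool.Agent.Work.MP_fbd21a_gt.TsC

/-! MODULE TsD. Action of the twist TD m on the classes gp, um and their rho3-transforms.
PROOF. θ = δX - um - pb rho3 um, δX t = st 0 (inv0 (t 1) 0) - st 0 (inv0 (t 0) 0) = dd one of the 0-cochain
st 0 (inv0 y 0), so θ ~ - um - pb rho3 um (everything a cocycle near Sig: um_coc and its transform).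
On the annulus um = 0 = pb rho3 um (Z = 0) and δX is the step of s - 1/2. At points of Sig outside the open
annulus θ is intrinsically zero: X = inv0 x 0 ≠ 0: all three vanish (inv0_X: X is rho3-invariant); X = 0: x ∈ Sk (or
rho3 x ∈ Sk), v with X = 0: Z = 0 (then x is in the open annulus, s = 1/2) or Z ≥ 1 (v ∈ Hm), where um = δX
(x0 > 0 as v is not on the boundary: |Y| ≤ 1, Z ≤ 3) and pb rho3 um = 0.
gp: picard_lefschetz, U l = ⌊l - 1/4⌋, e = 1: on the annulus gp is the step of Y = 20 fract l - 5 at l = 1/4 (there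
x0 = 1, |X| ≤ 2, Z ≤ 2), zero on the other parts (Y ≠ 0, or x0 ≤ 0.. near the seams gp_zero: Kk, rho3⁻¹ Sk).
pb rho3 gp: conjugate by rho3. um, pb rho3 um: twist_inv (zero on the annulus, the twist is the identity
elsewhere). -/

open Topology Filter Set

namespace PoolFbd

theorem TD_mem (m : ℤ) {x : E3} (hx : x ∈ Sig) : TD m x ∈ Sig := tw_mem ann_nuD m hx

theorem TD_rho (m : ℤ) (x : E3) : rho3 (TD m x) = TD m (rho3 x) :=
  tw_comm ann_nuD ann_nuD (fun x y hxy => by rw [← rho3_rho3 x, hxy, rho3_rho3]) (1 / 2)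
    (fun l s hs => nuD_rho l hs) m x

/-- The class `um` vanishes near the annulus. -/
private theorem td_um_zero (l : ℝ) {s : ℝ} (hs : s ∈ Icc (0 : ℝ) 1) : ZeroAt um (nuD l s) := by
  rcases le_or_gt (Int.fract l) (1 / 2) with h | h
  · rw [nd_low h]
    refine bg_van (bg_gM (Or.inr ?_))
    rw [inv0_kap (nd_cub (nd_s hs) (nd_yl h))]
    change (0 : ℝ) < 1 / 2
    norm_num
  · rw [nd_high h]
    refine um_zero _ (Or.inl (Or.inr ?_))
    change rho3 (rho3 _) ∈ Sk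
    rw [rho3_rho3]
    exact nd_sk (nd_s hs) (nd_yh h).le

private theorem td_um'_zero (l : ℝ) {s : ℝ} (hs : s ∈ Icc (0 : ℝ) 1) :
    ZeroAt (pb rho3 um) (nuD l s) := by
  apply tsc_rho_zero
  rw [nuD_rho l hs]
  exact td_um_zero _ hs

theorem tsd_um {r : E3 → E3} (hr : ∀ x, r x ∈ Sig) (hr1 : ∀ x ∈ Sig, r x = x)
    (hr2 : ∀ x ∈ Sig, ContinuousAt r x) (m : ℤ) :
    Cob one Sig ∅ (pb (fun y => TD m (r y)) um - um) :=
  twist_inv_zero ann_nuD hr hr1 hr2 tsc_um_coc m fun l _ hs => td_um_zero l hs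

theorem tsd_um' {r : E3 → E3} (hr : ∀ x, r x ∈ Sig) (hr1 : ∀ x ∈ Sig, r x = x)
    (hr2 : ∀ x ∈ Sig, ContinuousAt r x) (m : ℤ) :
    Cob one Sig ∅ (pb (fun y => TD m (r y)) (pb rho3 um) - pb rho3 um) :=
  twist_inv_zero ann_nuD hr hr1 hr2 tsc_um'_coc m fun l _ hs => td_um'_zero l hs

/-- The coboundary of the step in the `X` direction. -/
private noncomputable def tdX : Coch E3 ℤ 1 :=
  fun t => st 0 (inv0 (t 1) 0) - st 0 (inv0 (t 0) 0)

private theorem tdX_eq : tdX = dd one (fun t : Fin (0 + 1) → E3 => st 0 (inv0 (t 0) 0)) := by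
  funext t
  rw [dd_deg_zero]
  simp only [one, one_smul]
  rfl

private theorem td_coordc (i : Fin 3) : Continuous fun x : E3 => inv0 x i :=
  (continuous_apply i).comp inv0_cont

private theorem tdX_zero {x : E3} (h : inv0 x 0 ≠ 0) : ZeroAt tdX x := by
  have hc : ∀ i : Fin 2, Tendsto (fun t : Fin 2 → E3 => inv0 (t i) 0) (𝓝 (fun _ => x))
      (𝓝 (inv0 x 0)) := fun i =>
    ((td_coordc 0).comp (continuous_apply i)).tendsto (fun _ : Fin 2 => x)
  unfold ZeroAt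
  filter_upwards [(hc 0).eventually (bg_st h), (hc 1).eventually (bg_st h)] with t a b
  unfold tdX
  rw [a, b, sub_self]

private noncomputable def tdT : Coch E3 ℤ 1 := tdX - um - pb rho3 um

private theorem tdT_coc : LZ Sig (dd one tdT) := by
  unfold tdT
  rw [dd_sub, dd_sub, tdX_eq]
  exact ((LZ_dd_dd (IsTw.one Sig) _).sub tsc_um_coc).sub tsc_um'_coc

/-- Near a point of `Sk` on the arch with `X = 0` the class `um` is the step. -/
private theorem td_arch {x : E3} (hx : x ∈ Sk) (hX : inv0 x 0 = 0) (hZ : inv0 x 2 ≠ 0) :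
    ZeroAt (tdX - um) x := by
  obtain ⟨hx0, ⟨hcub, hz0, hHp⟩, -, hHm⟩ := hx
  have h1 : inv0 x 2 ≤ 3 ∧ |inv0 x 1| ≤ 1 ∧ 1 ≤ inv0 x 2 := by
    rcases hHm with h | ⟨-, h1, h2, h | h⟩
    · exact absurd (le_antisymm h hz0) hZ
    · rw [hX, abs_zero] at h
      exfalso
      linarith
    · exact ⟨h1, h2, h⟩
  have hpos : 0 < (x.1 0 : ℝ) := by
    refine lt_of_le_of_ne hx0 ?_
    intro h0
    obtain ⟨i, hi⟩ := (inv0_bdry x).mp h0.symm
    fin_cases i
    · change |inv0 x 0| = 5 at hi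
      rw [hX, abs_zero] at hi
      norm_num at hi
    · change |inv0 x 1| = 5 at hi
      linarith [h1.2.1]
    · change |inv0 x 2| = 5 at hi
      rw [abs_of_nonneg hz0] at hi
      linarith [h1.1]
  have hc : Tendsto (fun t : Fin 2 → E3 => inv0 (t 0) 2) (𝓝 (fun _ => x)) (𝓝 (inv0 x 2)) :=
    ((td_coordc 2).comp (continuous_apply 0)).tendsto (fun _ : Fin 2 => x)
  unfold ZeroAt
  filter_upwards [(bg_x0 x).eventually_const_lt hpos,
    hc.eventually_const_lt (show (1 / 2 : ℝ) < inv0 x 2 by linarith [h1.2.2])] with t a b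
  have e : t = ![t 0, t 1] := by
    funext i
    fin_cases i <;> rfl
  rw [Pi.sub_apply]
  have h2 : um t = st 0 (inv0 (t 1) 0) - st 0 (inv0 (t 0) 0) := by
    conv_lhs => rw [e]
    exact tsc_um a b.le
  rw [h2]
  exact sub_self _

private theorem td_zsub {x : E3} {φ ψ : Coch E3 ℤ 1} (h1 : ZeroAt φ x) (h2 : ZeroAt ψ x) :
    ZeroAt (φ - ψ) x := by
  unfold ZeroAt at h1 h2 ⊢
  filter_upwards [h1, h2] with t a b
  rw [Pi.sub_apply, a, b, sub_self]

/-- A point of `Sk` with `X = 0` and `Z = 0` is on the core of the annulus. -/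
private theorem td_core {x : E3} (hx : x ∈ Sk) (hX : inv0 x 0 = 0) (hZ : inv0 x 2 = 0) :
    ∃ l, x = nuD l (1 / 2) := by
  obtain ⟨h1, h2⟩ := nd_plate hx (by rw [hX, abs_zero]; norm_num) (by rw [hZ]; norm_num)
  rw [abs_le] at h2
  refine ⟨(inv0 x 1 + 5) / 20, ?_⟩
  have hfr : Int.fract ((inv0 x 1 + 5) / 20) = (inv0 x 1 + 5) / 20 := by
    rw [Int.fract_eq_self]
    constructor <;> linarith [h2.1, h2.2]
  rw [nd_low (by rw [hfr]; linarith [h2.2]), hfr,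
    show 20 * ((inv0 x 1 + 5) / 20) - 5 = inv0 x 1 by ring,
    show (1 / 2 : ℝ) - 1 / 2 = inv0 x 0 by rw [hX]; norm_num]
  exact h1

private theorem tdT_off {x₀ : E3} (hx₀ : x₀ ∈ Sig)
    (h : ∀ l, ∀ s ∈ Ioo (0 : ℝ) 1, x₀ ≠ nuD l s) : ZeroAt tdT x₀ := by
  by_cases hX : inv0 x₀ 0 = 0
  · rcases hx₀ with hx | hx
    · have hZ : inv0 x₀ 2 ≠ 0 := by
        intro hZ
        obtain ⟨l, hl⟩ := td_core hx hX hZ
        exact h l (1 / 2) ⟨by norm_num, by norm_num⟩ hl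
      refine td_zsub (td_arch hx hX hZ) (tsc_rho_zero (um_zero _ (Or.inl (Or.inr ?_))))
      change rho3 (rho3 x₀) ∈ Sk
      rw [rho3_rho3]
      exact hx
    · have hx' : rho3 x₀ ∈ Sk := hx
      have hX' : inv0 (rho3 x₀) 0 = 0 := by rw [inv0_X]; exact hX
      have hZ : inv0 (rho3 x₀) 2 ≠ 0 := by
        intro hZ
        obtain ⟨l, hl⟩ := td_core hx' hX' hZ
        have h1 : x₀ = nuD (l + 1 / 2) (1 / 2) := by
          rw [← nuD_rho l ⟨by norm_num, by norm_num⟩, ← hl, rho3_rho3]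
        exact h _ (1 / 2) ⟨by norm_num, by norm_num⟩ h1
      have h1 : ZeroAt (pb rho3 (tdX - um)) x₀ := tsc_rho_zero (td_arch hx' hX' hZ)
      have h2 : ZeroAt um x₀ := um_zero _ (Or.inl (Or.inr hx))
      have h3 := td_zsub h1 h2
      have e : tdT = pb rho3 (tdX - um) - um := by
        funext t
        unfold tdT
        simp only [pb, Pi.sub_apply, tdX, inv0_X]
        ring
      rw [e]
      exact h3
  · refine td_zsub (td_zsub (tdX_zero hX) (bg_van (bg_gM (Or.inl hX)))) (tsc_rho_zero ?_)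
    exact bg_van (bg_gM (Or.inl (by rw [inv0_X]; exact hX)))

private theorem tdT_step (l₀ : ℝ) {s₀ : ℝ} (hs₀ : s₀ ∈ Ioo (0 : ℝ) 1) :
    ∀ᶠ p in 𝓝 (((l₀, s₀), (l₀, s₀)) : (ℝ × ℝ) × (ℝ × ℝ)),
      tdT ![nuD p.1.1 p.1.2, nuD p.2.1 p.2.2] =
        (open Classical in (if 1 / 2 ≤ p.2.2 then 1 else 0) - (if 1 / 2 ≤ p.1.2 then 1 else 0)) := by
  have hs₀' : s₀ ∈ Icc (0 : ℝ) 1 := ⟨hs₀.1.le, hs₀.2.le⟩
  have c1 : Tendsto (fun p : (ℝ × ℝ) × (ℝ × ℝ) => p.1.2)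
      (𝓝 (((l₀, s₀), (l₀, s₀)) : (ℝ × ℝ) × (ℝ × ℝ))) (𝓝 s₀) :=
    (continuous_snd.comp continuous_fst).tendsto (((l₀, s₀), (l₀, s₀)) : (ℝ × ℝ) × (ℝ × ℝ))
  have c2 : Tendsto (fun p : (ℝ × ℝ) × (ℝ × ℝ) => p.2.2)
      (𝓝 (((l₀, s₀), (l₀, s₀)) : (ℝ × ℝ) × (ℝ × ℝ))) (𝓝 s₀) :=
    (continuous_snd.comp continuous_snd).tendsto (((l₀, s₀), (l₀, s₀)) : (ℝ × ℝ) × (ℝ × ℝ))
  have hnb : ∀ᶠ s in 𝓝 s₀, s ∈ Ioo (0 : ℝ) 1 := isOpen_Ioo.mem_nhds hs₀
  filter_upwards [c1.eventually hnb, c2.eventually hnb,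
    tsc_nu ann_nuD hs₀' (td_um_zero l₀ hs₀'), tsc_nu ann_nuD hs₀' (td_um'_zero l₀ hs₀')]
    with p h1 h2 h3 h4
  have h1' : p.1.2 ∈ Icc (0 : ℝ) 1 := ⟨h1.1.le, h1.2.le⟩
  have h2' : p.2.2 ∈ Icc (0 : ℝ) 1 := ⟨h2.1.le, h2.2.le⟩
  unfold tdT
  rw [Pi.sub_apply, Pi.sub_apply, h3 h1' h2', h4 h1' h2', sub_zero, sub_zero]
  change st 0 (inv0 (nuD p.2.1 p.2.2) 0) - st 0 (inv0 (nuD p.1.1 p.1.2) 0) = _
  rw [nd_x _ h1', nd_x _ h2']
  unfold st
  congr 1
  · split_ifs with h3 h4 h4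
    · rfl
    · exfalso; linarith
    · exfalso; linarith
    · rfl
  · split_ifs with h3 h4 h4
    · rfl
    · exfalso; linarith
    · exfalso; linarith
    · rfl

private theorem td_gp_step (l₀ : ℝ) {s₀ : ℝ} (hs₀ : s₀ ∈ Icc (0 : ℝ) 1) :
    ∀ᶠ p in 𝓝 (((l₀, s₀), (l₀, s₀)) : (ℝ × ℝ) × (ℝ × ℝ)),
      p.1.2 ∈ Icc (0 : ℝ) 1 → p.2.2 ∈ Icc (0 : ℝ) 1 →
        gp ![nuD p.1.1 p.1.2, nuD p.2.1 p.2.2] = ⌊p.2.1 - 1 / 4⌋ - ⌊p.1.1 - 1 / 4⌋ := by
  have c1 : Tendsto (fun p : (ℝ × ℝ) × (ℝ × ℝ) => p.1.1)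
      (𝓝 (((l₀, s₀), (l₀, s₀)) : (ℝ × ℝ) × (ℝ × ℝ))) (𝓝 l₀) :=
    (continuous_fst.comp continuous_fst).tendsto (((l₀, s₀), (l₀, s₀)) : (ℝ × ℝ) × (ℝ × ℝ))
  have c2 : Tendsto (fun p : (ℝ × ℝ) × (ℝ × ℝ) => p.2.1)
      (𝓝 (((l₀, s₀), (l₀, s₀)) : (ℝ × ℝ) × (ℝ × ℝ))) (𝓝 l₀) :=
    (continuous_fst.comp continuous_snd).tendsto (((l₀, s₀), (l₀, s₀)) : (ℝ × ℝ) × (ℝ × ℝ))
  by_cases hf : Int.fract l₀ = 1 / 4
  · have hl₀ : l₀ = ⌊l₀⌋ + 1 / 4 := by
      have := Int.floor_add_fract l₀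
      linarith
    have key : ∀ᶠ l in 𝓝 l₀, ∀ s ∈ Icc (0 : ℝ) 1, 0 < ((nuD l s).1 0 : ℝ) ∧
        |inv0 (nuD l s) 0| ≤ 2 ∧ inv0 (nuD l s) 2 ≤ 2 ∧
        st 0 (inv0 (nuD l s) 1) = ⌊l - 1 / 4⌋ - ⌊l₀⌋ + 1 := by
      have h1 : ∀ᶠ l in 𝓝 l₀, l ∈ Ioo (l₀ - 1 / 6) (l₀ + 1 / 6) :=
        isOpen_Ioo.mem_nhds ⟨by linarith, by linarith⟩
      filter_upwards [h1] with l hl s hs
      have hfr : Int.fract l = l - ⌊l₀⌋ := by
        rw [Int.fract_eq_iff]
        refine ⟨by linarith [hl.1], by linarith [hl.2], ⌊l₀⌋, by ring⟩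
      have hlow : Int.fract l ≤ 1 / 2 := by
        rw [hfr]
        linarith [hl.2]
      have hY : |20 * Int.fract l - 5| < 5 := by
        rw [hfr, abs_lt]
        constructor <;> linarith [hl.1, hl.2]
      have hcub := nd_cub (nd_s hs) (nd_yl hlow)
      rw [nd_low hlow, inv0_kap hcub]
      refine ⟨?_, ?_, ?_, ?_⟩
      · refine lt_of_le_of_ne (kap_nonneg _) ?_
        intro h5
        obtain ⟨i, hi⟩ := (kap_x0_zero hcub).mp h5.symm
        have hss := nd_s hs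
        fin_cases i
        · change |s - 1 / 2| = 5 at hi; linarith
        · change |20 * Int.fract l - 5| = 5 at hi; linarith
        · change |(0 : ℝ)| = 5 at hi
          rw [abs_zero] at hi
          norm_num at hi
      · change |s - 1 / 2| ≤ 2
        linarith [nd_s hs]
      · change (0 : ℝ) ≤ 2
        norm_num
      · change st 0 (20 * Int.fract l - 5) = _
        rw [hfr]
        unfold st
        split_ifs with h3
        · have h4 : ⌊l - 1 / 4⌋ = ⌊l₀⌋ := by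
            rw [Int.floor_eq_iff]
            constructor <;> linarith [hl.2]
          rw [h4]
          ring
        · have h4 : ⌊l - 1 / 4⌋ = ⌊l₀⌋ - 1 := by
            rw [Int.floor_eq_iff]
            push Not at h3
            push_cast
            constructor <;> linarith [hl.1]
          rw [h4]
          ring
    filter_upwards [c1.eventually key, c2.eventually key] with p h1 h2 a b
    obtain ⟨h3, h4, h5, h6⟩ := h1 p.1.2 a
    obtain ⟨-, -, -, h7⟩ := h2 p.2.2 b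
    rw [tsc_gp h3 h4 h5, h6, h7]
    ring
  · have hne : Int.fract (l₀ - 1 / 4) ≠ 0 := by
      intro h0
      apply hf
      have h1 := Int.floor_add_fract (l₀ - 1 / 4)
      rw [h0, add_zero] at h1
      rw [Int.fract_eq_iff]
      refine ⟨by norm_num, by norm_num, ⌊l₀ - 1 / 4⌋, by linarith⟩
    have hz : ZeroAt gp (nuD l₀ s₀) := by
      rcases le_or_gt (Int.fract l₀) (1 / 2) with h | h
      · rw [nd_low h]
        refine bg_van (bg_gP (Or.inl ?_))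
        rw [inv0_kap (nd_cub (nd_s hs₀) (nd_yl h))]
        change 20 * Int.fract l₀ - 5 ≠ 0
        intro h7
        apply hf
        linarith
      · rw [nd_high h]
        refine gp_zero _ (Or.inl (Or.inr ?_))
        change rho3 (rho3 _) ∈ Sk
        rw [rho3_rho3]
        exact nd_sk (nd_s hs₀) (nd_yh h).le
    filter_upwards [tsc_nu ann_nuD hs₀ hz, c1.eventually (tsc_floor hne),
      c2.eventually (tsc_floor hne)] with p h1 h2 h3 a b
    rw [h1 a b, h2, h3, sub_self]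

theorem tsd_gp {r : E3 → E3} (hr : ∀ x, r x ∈ Sig) (hr1 : ∀ x ∈ Sig, r x = x)
    (hr2 : ∀ x ∈ Sig, ContinuousAt r x) (m : ℤ) :
    Cob one Sig ∅ (pb (fun y => TD m (r y)) gp - (gp - m • um - m • pb rho3 um)) := by
  have h1 : Cob one Sig ∅ (pb (fun y => twi nuD m (r y)) gp - gp - (m * 1) • tdT) := by
    refine picard_lefschetz ann_nuD hr hr1 hr2 tsc_gp_coc tdT_coc (fun l => ⌊l - 1 / 4⌋) 1 ?_ ?_
      ?_ ?_ m
    · intro l
      have e : l + 1 - 1 / 4 = l - 1 / 4 + 1 := by ring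
      rw [e, Int.floor_add_one]
    · intro l₀ s₀ hs₀
      exact td_gp_step l₀ hs₀
    · intro l₀ s₀ hs₀
      exact tdT_step l₀ hs₀
    · intro x₀ hx₀ h
      exact nhdsWithin_le_nhds (tsc_pair (tdT_off hx₀ h))
  have h2 : Cob one Sig ∅ tdX :=
    ⟨fun t : Fin (0 + 1) → E3 => st 0 (inv0 (t 0) 0), LZ.empty _, by
      rw [← tdX_eq, sub_self]
      exact LZ.zero _⟩
  have h3 := h1.add (cl_cob_smul m h2)
  have e : pb (fun y => TD m (r y)) gp - (gp - m • um - m • pb rho3 um) =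
      pb (fun y => twi nuD m (r y)) gp - gp - (m * 1) • tdT + m • tdX := by
    funext t
    simp only [pb, tdT, TD, Pi.add_apply, Pi.sub_apply, Pi.smul_apply, smul_eq_mul]
    ring
  rw [e]
  exact h3

theorem tsd_gp' {r : E3 → E3} (hr : ∀ x, r x ∈ Sig) (hr1 : ∀ x ∈ Sig, r x = x)
    (hr2 : ∀ x ∈ Sig, ContinuousAt r x) (m : ℤ) :
    Cob one Sig ∅ (pb (fun y => TD m (r y)) (pb rho3 gp) -
      (pb rho3 gp - m • um - m • pb rho3 um)) := by
  obtain ⟨a, b, c⟩ := tsc_ret hr hr1 hr2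
  have h := tsc_rho_sig (tsd_gp a b c m)
  have e : pb (fun y => TD m (r y)) (pb rho3 gp) - (pb rho3 gp - m • um - m • pb rho3 um) =
      pb rho3 (pb (fun y => TD m (rho3 (r (rho3 y)))) gp - (gp - m • um - m • pb rho3 um)) := by
    funext t
    simp only [pb, Pi.sub_apply, Pi.smul_apply, smul_eq_mul, TD_rho, rho3_rho3]
    ring
  rw [e]
  exact h

end PoolFbd
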