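import Pool.Agent.Work.MP_fbd21a_gt.TsB
import Pool.Agent.Work.MP_fbd21a_gt.TsD
import Pool.Agent.Work.MP_fbd21a_gt.CLin

/-! MODULE HhF. Properties of hh and hi, and the matrices.
PROOFS. hh_hi, hi_hh: tw_add, tw_zero, TB_add, TB_zero. Continuity on Sig, invariance of Sig, commutation with rho3.
hh_gp: write P = fun y => hh (r y). pb P x = pb (TD 1 ∘ r) (pb (TB (-1) ∘ r) (pb (TD (-2) ∘ r) (pb (TB 2 ∘ r) x)))
exactly (all maps send Sig to Sig, where r = id). Cob.pb along each T ∘ r (contAt_ret; maps Sig to Sig). Compute with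
classes gp, um, gp' = pb rho3 gp, um' = pb rho3 um:
gp → gp → gp + 2 um + 2 um' → -gp + 2 um - 2 gp' + 2 um' → -gp + 5 um - 2 gp' + 5 um'.
um' → um' + 2 gp' → 4 um + 2 gp' + 5 um' → -4 gp + 4 um - 3 gp' + 5 um' → -4 gp + 11 um - 3 gp' + 12 um'. -/

open Topology Filter Set

namespace PoolFbd

private theorem hf_TD_add (m m' : ℤ) (x : E3) : TD m (TD m' x) = TD (m + m') x :=
  tw_add ann_nuD m m' x

private theorem hf_TD_zero (x : E3) : TD 0 x = x := tw_zero ann_nuD x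

private theorem hf_TD_cont (m : ℤ) : ContinuousOn (TD m) Sig := tw_cont ann_nuD m

theorem hh_hi (x : E3) : hh (hi x) = x := by
  unfold hh hi
  rw [hf_TD_add, show (1 : ℤ) + -1 = 0 by norm_num, hf_TD_zero, TB_add,
    show (-1 : ℤ) + 1 = 0 by norm_num, TB_zero, hf_TD_add, show (-2 : ℤ) + 2 = 0 by norm_num,
    hf_TD_zero, TB_add, show (2 : ℤ) + -2 = 0 by norm_num, TB_zero]

theorem hi_hh (x : E3) : hi (hh x) = x := by
  unfold hh hi
  rw [TB_add, show (-2 : ℤ) + 2 = 0 by norm_num, TB_zero, hf_TD_add,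
    show (2 : ℤ) + -2 = 0 by norm_num, hf_TD_zero, TB_add, show (1 : ℤ) + -1 = 0 by norm_num,
    TB_zero, hf_TD_add, show (-1 : ℤ) + 1 = 0 by norm_num, hf_TD_zero]

theorem hh_mem {x : E3} (hx : x ∈ Sig) : hh x ∈ Sig :=
  TB_mem _ (TD_mem _ (TB_mem _ (TD_mem _ hx)))

theorem hi_mem {x : E3} (hx : x ∈ Sig) : hi x ∈ Sig :=
  TD_mem _ (TB_mem _ (TD_mem _ (TB_mem _ hx)))

theorem hh_cont : ContinuousOn hh Sig :=
  (TB_cont 2).comp ((hf_TD_cont (-2)).comp ((TB_cont (-1)).comp (hf_TD_cont 1)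
    fun _ hx => TD_mem _ hx) fun _ hx => TB_mem _ (TD_mem _ hx))
    fun _ hx => TD_mem _ (TB_mem _ (TD_mem _ hx))

theorem hi_cont : ContinuousOn hi Sig :=
  (hf_TD_cont (-1)).comp ((TB_cont 1).comp ((hf_TD_cont 2).comp (TB_cont (-2))
    fun _ hx => TB_mem _ hx) fun _ hx => TD_mem _ (TB_mem _ hx))
    fun _ hx => TB_mem _ (TD_mem _ (TB_mem _ hx))

theorem hh_rho (x : E3) : rho3 (hh x) = hh (rho3 x) := by
  unfold hh
  rw [TB_rho, TD_rho, TB_rho, TD_rho]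

theorem hi_rho (x : E3) : rho3 (hi x) = hi (rho3 x) := by
  unfold hi
  rw [TD_rho, TB_rho, TD_rho, TB_rho]

/-- Combination of the four classes. -/
private noncomputable def hf_comb (a b c d : ℤ) : Coch E3 ℤ 1 :=
  a • gp + b • um + c • pb rho3 gp + d • pb rho3 um

private theorem hf_B {r : E3 → E3} (hr : ∀ x, r x ∈ Sig) (hr1 : ∀ x ∈ Sig, r x = x)
    (hr2 : ∀ x ∈ Sig, ContinuousAt r x) (m : ℤ) {φ : Coch E3 ℤ 1} {a b c d : ℤ}
    (h : Cob one Sig ∅ (φ - hf_comb a b c d)) :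
    Cob one Sig ∅ (pb (fun y => TB m (r y)) φ - hf_comb (a + m * b) b (c + m * d) d) := by
  have h1 : Cob one Sig ∅ (pb (fun y => TB m (r y)) (φ - hf_comb a b c d)) :=
    Cob.pb (τ := one) (fun y hy => ⟨contAt_ret hr hr1 hr2 (TB_cont m) y hy, TB_mem m (hr y)⟩)
      (fun y hy => hy.elim) h
  have h2 := ((cl_cob_smul a (tsb_gp hr hr1 hr2 m)).add
    (cl_cob_smul b (tsb_um hr hr1 hr2 m))).add ((cl_cob_smul c (tsb_gp' hr hr1 hr2 m)).add
    (cl_cob_smul d (tsb_um' hr hr1 hr2 m)))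
  have e : pb (fun y => TB m (r y)) φ - hf_comb (a + m * b) b (c + m * d) d =
      pb (fun y => TB m (r y)) (φ - hf_comb a b c d) +
      (a • (pb (fun y => TB m (r y)) gp - gp) +
        b • (pb (fun y => TB m (r y)) um - (um + m • gp)) +
        (c • (pb (fun y => TB m (r y)) (pb rho3 gp) - pb rho3 gp) +
        d • (pb (fun y => TB m (r y)) (pb rho3 um) - (pb rho3 um + m • pb rho3 gp)))) := by
    funext t
    simp only [hf_comb, pb, Pi.add_apply, Pi.sub_apply, Pi.smul_apply, smul_eq_mul]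
    ring
  rw [e]
  exact h1.add h2

private theorem hf_D {r : E3 → E3} (hr : ∀ x, r x ∈ Sig) (hr1 : ∀ x ∈ Sig, r x = x)
    (hr2 : ∀ x ∈ Sig, ContinuousAt r x) (m : ℤ) {φ : Coch E3 ℤ 1} {a b c d : ℤ}
    (h : Cob one Sig ∅ (φ - hf_comb a b c d)) :
    Cob one Sig ∅ (pb (fun y => TD m (r y)) φ -
      hf_comb a (b - m * a - m * c) c (d - m * a - m * c)) := by
  have h1 : Cob one Sig ∅ (pb (fun y => TD m (r y)) (φ - hf_comb a b c d)) :=
    Cob.pb (τ := one) (fun y hy => ⟨contAt_ret hr hr1 hr2 (hf_TD_cont m) y hy, TD_mem m (hr y)⟩)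
      (fun y hy => hy.elim) h
  have h2 := ((cl_cob_smul a (tsd_gp hr hr1 hr2 m)).add
    (cl_cob_smul b (tsd_um hr hr1 hr2 m))).add ((cl_cob_smul c (tsd_gp' hr hr1 hr2 m)).add
    (cl_cob_smul d (tsd_um' hr hr1 hr2 m)))
  have e : pb (fun y => TD m (r y)) φ - hf_comb a (b - m * a - m * c) c (d - m * a - m * c) =
      pb (fun y => TD m (r y)) (φ - hf_comb a b c d) +
      (a • (pb (fun y => TD m (r y)) gp - (gp - m • um - m • pb rho3 um)) +
        b • (pb (fun y => TD m (r y)) um - um) +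
        (c • (pb (fun y => TD m (r y)) (pb rho3 gp) - (pb rho3 gp - m • um - m • pb rho3 um)) +
        d • (pb (fun y => TD m (r y)) (pb rho3 um) - pb rho3 um))) := by
    funext t
    simp only [hf_comb, pb, Pi.add_apply, Pi.sub_apply, Pi.smul_apply, smul_eq_mul]
    ring
  rw [e]
  exact h1.add h2

private theorem hf_pb {r : E3 → E3} (hr : ∀ x, r x ∈ Sig) (hr1 : ∀ x ∈ Sig, r x = x)
    (φ : Coch E3 ℤ 1) : pb (fun y => hh (r y)) φ = pb (fun y => TD 1 (r y))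
      (pb (fun y => TB (-1) (r y)) (pb (fun y => TD (-2) (r y)) (pb (fun y => TB 2 (r y)) φ))) := by
  funext t
  simp only [pb]
  congr 1
  funext j
  unfold hh
  rw [hr1 _ (TD_mem 1 (hr _)), hr1 _ (TB_mem (-1) (TD_mem 1 (hr _))),
    hr1 _ (TD_mem (-2) (TB_mem (-1) (TD_mem 1 (hr _))))]

theorem hh_gp {r : E3 → E3} (hr : ∀ x, r x ∈ Sig) (hr1 : ∀ x ∈ Sig, r x = x)
    (hr2 : ∀ x ∈ Sig, ContinuousAt r x) :
    Cob one Sig ∅ (pb (fun y => hh (r y)) gp -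
      ((-1 : ℤ) • gp + (5 : ℤ) • um + (-2 : ℤ) • pb rho3 gp + (5 : ℤ) • pb rho3 um)) := by
  have h0 : Cob one Sig ∅ (gp - hf_comb 1 0 0 0) := by
    have e : gp - hf_comb 1 0 0 0 = 0 := by
      unfold hf_comb
      simp
    rw [e]
    exact Cob.zero _ _ _
  have h4 := hf_D hr hr1 hr2 1 (hf_B hr hr1 hr2 (-1) (hf_D hr hr1 hr2 (-2)
    (hf_B hr hr1 hr2 2 h0)))
  rw [← hf_pb hr hr1] at h4
  norm_num at h4
  exact h4

theorem hh_um' {r : E3 → E3} (hr : ∀ x, r x ∈ Sig) (hr1 : ∀ x ∈ Sig, r x = x)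
    (hr2 : ∀ x ∈ Sig, ContinuousAt r x) :
    Cob one Sig ∅ (pb (fun y => hh (r y)) (pb rho3 um) -
      ((-4 : ℤ) • gp + (11 : ℤ) • um + (-3 : ℤ) • pb rho3 gp + (12 : ℤ) • pb rho3 um)) := by
  have h0 : Cob one Sig ∅ (pb rho3 um - hf_comb 0 0 0 1) := by
    have e : pb rho3 um - hf_comb 0 0 0 1 = 0 := by
      unfold hf_comb
      simp
    rw [e]
    exact Cob.zero _ _ _
  have h4 := hf_D hr hr1 hr2 1 (hf_B hr hr1 hr2 (-1) (hf_D hr hr1 hr2 (-2)
    (hf_B hr hr1 hr2 2 h0)))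
  rw [← hf_pb hr hr1] at h4
  norm_num at h4
  exact h4

end PoolFbd
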