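import Pool.Agent.Work.MP_fbd21a_gt.KapDefs
import Pool.Agent.Work.MP_fbd21a_gt.GrTwo
import Pool.Agent.Work.MP_fbd21a_gt.AcBox
import Pool.Agent.Work.MP_fbd21a_gt.Bx

/-! MODULE HmG. Cohomology of the lower part Hm.
PROOF. Boxes: P = [-5,5]² × [-5,0], L = [-3,-1] × [-1,1] × [0,3], B = [-3,3] × [-1,1] × [1,3],
R' = [1,3] × [-1,1] × [0,3]; Hm = P ∪ L ∪ B ∪ R'. S = P ∪ L ∪ B is acyclic (P ∩ L a box in Z = 0;
(P ∪ L) ∩ B = L ∩ B a box, P ∩ B = ∅). S ∩ R' = C ∪ D, C = P ∩ R' = [1,3] × [-1,1] × {0},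
D = B ∩ R' = [1,3] × [-1,1] × [1,3] (L ∩ R' = ∅), disjoint. gM is a cocycle near Hm: at v 0 ≠ 0 it is 0 near v; at
v ∈ Hm with v 0 = 0: v 2 ≤ 0: gM = 0 near v; v 2 ≥ 1: gM = dd one (st 0 (y 0)) near v.
Potentials: u(y) = if 1/2 ≤ y 2 then st 0 (y 0) else 0 near S (near P: y 2 < 1/2; near L: st 0 (y 0) = 0 as
y 0 < 0; near B: y 2 > 1/2), v = 0 near R' (st 0 (y 0) = 1 constant there). u - v = 0 near C, = 1 near D: e = 1. -/

open Topology Filter Set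

namespace PoolFbd

private def HmS : Set V3 := (bx (-3) (-1) (-1) 1 0 3 ∪ bx (-5) 5 (-5) 5 (-5) 0) ∪
  bx (-3) 3 (-1) 1 1 3

private def HmT : Set V3 := bx 1 3 (-1) 1 0 3

private theorem hmS_acyc : Acyc HmS := by
  unfold HmS
  apply ac3 <;> first
    | exact bx_closed _ _ _ _ _ _
    | exact bx_acyc (by norm_num) (by norm_num) (by norm_num)
    | (rw [bx_inter]; exact bx_empty (by norm_num))
    | (rw [bx_inter]; exact bx_acyc (by norm_num) (by norm_num) (by norm_num))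

private theorem hmS_closed : IsClosed HmS :=
  ((bx_closed _ _ _ _ _ _).union (bx_closed _ _ _ _ _ _)).union (bx_closed _ _ _ _ _ _)

private theorem hm_eq : Hm = HmS ∪ HmT := by
  ext v
  simp only [Hm, HmS, HmT, bx, cub, mem_setOf_eq, mem_union, Fin.forall_fin_succ, abs_le,
    Fin.succ_zero_eq_one, Fin.succ_one_eq_two, IsEmpty.forall_iff, and_true, le_abs]
  constructor
  · rintro ⟨⟨⟨a1, a2⟩, ⟨a3, a4⟩, a5, a6⟩, h | ⟨⟨b1, b2⟩, b3, ⟨b4, b5⟩, h⟩⟩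
    · left; left; right
      exact ⟨⟨a1, a2⟩, ⟨a3, a4⟩, a5, h⟩
    · by_cases h0 : v 2 ≤ 0
      · left; left; right
        exact ⟨⟨a1, a2⟩, ⟨a3, a4⟩, a5, h0⟩
      · rcases h with (h | h) | h
        · right
          exact ⟨⟨h, b2⟩, ⟨b4, b5⟩, by linarith, b3⟩
        · left; left; left
          exact ⟨⟨b1, by linarith⟩, ⟨b4, b5⟩, by linarith, b3⟩
        · left; right
          exact ⟨⟨b1, b2⟩, ⟨b4, b5⟩, h, b3⟩
  · rintro (((⟨⟨a1, a2⟩, ⟨a3, a4⟩, a5, a6⟩ | ⟨⟨a1, a2⟩, ⟨a3, a4⟩, a5, a6⟩) |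
      ⟨⟨a1, a2⟩, ⟨a3, a4⟩, a5, a6⟩) | ⟨⟨a1, a2⟩, ⟨a3, a4⟩, a5, a6⟩)
    · exact ⟨⟨⟨by linarith, by linarith⟩, ⟨by linarith, by linarith⟩, by linarith, by linarith⟩,
        Or.inr ⟨⟨a1, by linarith⟩, a6, ⟨a3, a4⟩, Or.inl (Or.inr (by linarith))⟩⟩
    · exact ⟨⟨⟨a1, a2⟩, ⟨a3, a4⟩, a5, by linarith⟩, Or.inl a6⟩
    · exact ⟨⟨⟨by linarith, by linarith⟩, ⟨by linarith, by linarith⟩, by linarith, by linarith⟩,
        Or.inr ⟨⟨a1, a2⟩, a6, ⟨a3, a4⟩, Or.inr a5⟩⟩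
    · exact ⟨⟨⟨by linarith, by linarith⟩, ⟨by linarith, by linarith⟩, by linarith, by linarith⟩,
        Or.inr ⟨⟨by linarith, a2⟩, a6, ⟨a3, a4⟩, Or.inl (Or.inl a1)⟩⟩

private theorem hm_inter : HmS ∩ HmT = bx 1 3 (-1) 1 0 0 ∪ bx 1 3 (-1) 1 1 3 := by
  ext v
  simp only [HmS, HmT, bx, mem_setOf_eq, mem_union, mem_inter_iff]
  constructor
  · rintro ⟨((⟨⟨a1, a2⟩, ⟨a3, a4⟩, a5, a6⟩ | ⟨⟨a1, a2⟩, ⟨a3, a4⟩, a5, a6⟩) |
      ⟨⟨a1, a2⟩, ⟨a3, a4⟩, a5, a6⟩), ⟨⟨b1, b2⟩, ⟨b3, b4⟩, b5, b6⟩⟩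
    · exfalso; linarith
    · left
      exact ⟨⟨b1, b2⟩, ⟨b3, b4⟩, b5, a6⟩
    · right
      exact ⟨⟨b1, b2⟩, ⟨b3, b4⟩, a5, b6⟩
  · rintro (⟨⟨a1, a2⟩, ⟨a3, a4⟩, a5, a6⟩ | ⟨⟨a1, a2⟩, ⟨a3, a4⟩, a5, a6⟩)
    · refine ⟨Or.inl (Or.inr ?_), ?_⟩
      · exact ⟨⟨by linarith, by linarith⟩, ⟨by linarith, by linarith⟩, by linarith, by linarith⟩
      · exact ⟨⟨by linarith, by linarith⟩, ⟨by linarith, by linarith⟩, by linarith, by linarith⟩
    · refine ⟨Or.inr ?_, ?_⟩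
      · exact ⟨⟨by linarith, by linarith⟩, ⟨by linarith, by linarith⟩, by linarith, by linarith⟩
      · exact ⟨⟨by linarith, by linarith⟩, ⟨by linarith, by linarith⟩, by linarith, by linarith⟩

theorem gM_zero_pos {v : V3} (h : 0 < v 0 ∨ v 0 < 0 ∨ v 2 < 1 / 2) : ZeroAt gM v := by
  rcases h with h | h | h
  · filter_upwards [ev_gt 0 h 0, ev_gt 0 h 1] with t a b
    unfold gM
    rw [st_pos a, st_pos b, sub_self, ite_self]
  · filter_upwards [ev_lt 0 h 0, ev_lt 0 h 1] with t a b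
    unfold gM
    rw [st_neg a, st_neg b, sub_self, ite_self]
  · filter_upwards [ev_lt 2 h 0] with t a
    unfold gM
    rw [if_neg (not_le.2 a)]

open Classical in
private noncomputable def hmU : Coch V3 ℤ 0 := fun t => if 1 / 2 ≤ t 0 2 then st 0 (t 0 0) else 0

theorem grph_Hm : Grph Hm ![gM] := by
  rw [hm_eq]
  refine grph_two (C := bx 1 3 (-1) 1 0 0) (D := bx 1 3 (-1) 1 1 3)
    (Sepd.closed hmS_closed (bx_closed _ _ _ _ _ _)) hmS_acyc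
    (bx_acyc (by norm_num) (by norm_num) (by norm_num))
    (bx_acyc (by norm_num) (by norm_num) (by norm_num))
    (bx_acyc (by norm_num) (by norm_num) (by norm_num))
    (Sepd.closed (bx_closed _ _ _ _ _ _) (bx_closed _ _ _ _ _ _)) ?_ hm_inter gM hmU 0
    ?_ ?_ 1 (Or.inl rfl) ?_ ?_
  · rw [disjoint_iff_inter_eq_empty, bx_inter]
    exact bx_empty (by norm_num)
  · rintro v ((hv | hv) | hv)
    · -- v 0 < 0
      have h1 : v 0 < 0 := by linarith [hv.1.2]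
      filter_upwards [ev_lt 0 h1 0, ev_lt 0 h1 1] with t a b
      rw [Pi.sub_apply, dd_deg_zero]
      simp only [gM, hmU, one, one_smul]
      rw [st_neg a, st_neg b]
      simp
    · have h1 : v 2 < 1 / 2 := by linarith [hv.2.2.2]
      filter_upwards [ev_lt 2 h1 0, ev_lt 2 h1 1] with t a b
      rw [Pi.sub_apply, dd_deg_zero]
      simp only [gM, hmU, one, one_smul]
      simp only [if_neg (not_le.2 a), if_neg (not_le.2 b)]
      simp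
    · have h1 : 1 / 2 < v 2 := by linarith [hv.2.2.1]
      filter_upwards [ev_gt 2 h1 0, ev_gt 2 h1 1] with t a b
      rw [Pi.sub_apply, dd_deg_zero]
      simp only [gM, hmU, one, one_smul]
      simp only [if_pos (le_of_lt a), if_pos (le_of_lt b)]
      simp
  · rw [dd_zero, sub_zero]
    intro v hv
    exact gM_zero_pos (Or.inl (by linarith [hv.1.1]))
  · intro v hv
    have h1 : v 2 < 1 / 2 := by linarith [hv.2.2.2]
    filter_upwards [ev_lt 2 h1 0] with t a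
    show hmU t - 0 = 0
    unfold hmU
    rw [if_neg (not_le.2 a), sub_zero]
  · intro v hv
    have h1 : 1 / 2 < v 2 := by linarith [hv.2.2.1]
    have h2 : 0 < v 0 := by linarith [hv.1.1]
    filter_upwards [ev_gt 2 h1 0, ev_gt 0 h2 0] with t a b
    show hmU t - 0 - 1 = 0
    unfold hmU
    rw [if_pos (le_of_lt a), st_pos b]
    norm_num

end PoolFbd
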