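import Pool.Agent.Work.MP_fbd21a_gt.KapDefs
import Pool.Agent.Work.MP_fbd21a_gt.GrTwo
import Pool.Agent.Work.MP_fbd21a_gt.AcBox
import Pool.Agent.Work.MP_fbd21a_gt.Bx

/-! MODULE HpG. Cohomology of the upper part Hp.
PROOF. Boxes (Icc in V3, acyclic by acyc_box): F = {Y ≥ 1}, G = {Y ≤ -1}, OL = {X ≤ -3}, OT = {Z ≥ 3}, OR = {X ≥ 3},
each intersected with [-5,5]² × [0,5] (Icc with the obvious corners), N = [-1,1] × [-1,1] × [0,1].
Hp = F ∪ G ∪ OL ∪ OT ∪ OR ∪ N. M = OT ∪ F ∪ G ∪ OL ∪ OR is acyclic: add the boxes one at a time with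
Acyc.union (all closed): OT ∩ F box; (OT ∪ F) ∩ G = OT ∩ G box; (OT ∪ F ∪ G) ∩ OL = three boxes OT∩OL, F∩OL, G∩OL whose
union is acyclic (again two unions: the intersections are boxes; F ∩ G = ∅); same for OR (OL ∩ OR = ∅).
(Intersections of Icc boxes: Set.Icc_inter_Icc; acyc_box needs the lower corner ≤ the upper corner.)
M ∩ N = C ∪ D, C = [-1,1] × {-1} × [0,1], D = [-1,1] × {1} × [0,1] boxes, disjoint.
gP is a cocycle near Hp: at v with v 1 ≠ 0 the function st 0 (y 1) is locally constant, gP = 0 near v; at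
v ∈ Hp with v 1 = 0: |v 0| ≥ 3 or v 2 ≥ 3: the condition of gP is false near v, gP = 0; or |v 0| ≤ 1 and v 2 ≤ 1: the
condition holds near v and gP = dd one (st 0 (y 1)).
Potentials for grph_two with S = M, T = N: u = 0 near M (gP = 0 near all points of M: v 1 ≠ 0 or |v 0| ≥ 3 or
v 2 ≥ 3), v = st 0 (y 1) near N. u - v = 0 near C, = -1 near D: e = -1. -/

open Topology Filter Set

namespace PoolFbd

/-- The frame: top, front, back, left, right. -/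
private def HpM : Set V3 := (((bx (-5) 5 (-5) 5 3 5 ∪ bx (-5) 5 1 5 0 5) ∪ bx (-5) 5 (-5) (-1) 0 5) ∪
  bx (-5) (-3) (-5) 5 0 5) ∪ bx 3 5 (-5) 5 0 5

private def HpN : Set V3 := bx (-1) 1 (-1) 1 0 1

private theorem hpM_acyc : Acyc HpM := by
  unfold HpM
  apply ac5 <;> first
    | exact bx_closed _ _ _ _ _ _
    | exact bx_acyc (by norm_num) (by norm_num) (by norm_num)
    | (rw [bx_inter]; exact bx_empty (by norm_num))
    | (rw [bx_inter]; exact bx_acyc (by norm_num) (by norm_num) (by norm_num))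
    | (rw [bx_inter, bx_inter, bx_inter]; exact bx_acyc (by norm_num) (by norm_num) (by norm_num))

private theorem hp_eq : Hp = HpM ∪ HpN := by
  ext v
  simp only [Hp, HpM, HpN, bx, cub, mem_setOf_eq, mem_union, Fin.forall_fin_succ, abs_le,
    Fin.succ_zero_eq_one, Fin.succ_one_eq_two, IsEmpty.forall_iff, and_true, le_abs]
  constructor
  · rintro ⟨⟨⟨a1, a2⟩, ⟨a3, a4⟩, a5, a6⟩, h0, h | h | h | h⟩
    · rcases h with h | h
      · left; right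
        exact ⟨⟨h, a2⟩, ⟨a3, a4⟩, h0, a6⟩
      · left; left; right
        exact ⟨⟨a1, by linarith⟩, ⟨a3, a4⟩, h0, a6⟩
    · left; left; left; left; left
      exact ⟨⟨a1, a2⟩, ⟨a3, a4⟩, h, a6⟩
    · rcases h with h | h
      · left; left; left; left; right
        exact ⟨⟨a1, a2⟩, ⟨h, a4⟩, h0, a6⟩
      · left; left; left; right
        exact ⟨⟨a1, a2⟩, ⟨a3, by linarith⟩, h0, a6⟩
    · by_cases h1 : 1 ≤ v 1
      · left; left; left; left; right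
        exact ⟨⟨a1, a2⟩, ⟨h1, a4⟩, h0, a6⟩
      · by_cases h2 : v 1 ≤ -1
        · left; left; left; right
          exact ⟨⟨a1, a2⟩, ⟨a3, h2⟩, h0, a6⟩
        · right
          exact ⟨⟨h.1.1, h.1.2⟩, ⟨by linarith, by linarith⟩, h0, h.2⟩
  · rintro (((((⟨⟨a1, a2⟩, ⟨a3, a4⟩, a5, a6⟩ | ⟨⟨a1, a2⟩, ⟨a3, a4⟩, a5, a6⟩) |
      ⟨⟨a1, a2⟩, ⟨a3, a4⟩, a5, a6⟩) | ⟨⟨a1, a2⟩, ⟨a3, a4⟩, a5, a6⟩) |
      ⟨⟨a1, a2⟩, ⟨a3, a4⟩, a5, a6⟩) | ⟨⟨a1, a2⟩, ⟨a3, a4⟩, a5, a6⟩)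
    · exact ⟨⟨⟨a1, a2⟩, ⟨a3, a4⟩, by linarith, a6⟩, by linarith, Or.inr (Or.inl a5)⟩
    · exact ⟨⟨⟨a1, a2⟩, ⟨by linarith, a4⟩, by linarith, a6⟩, a5,
        Or.inr (Or.inr (Or.inl (Or.inl a3)))⟩
    · exact ⟨⟨⟨a1, a2⟩, ⟨a3, by linarith⟩, by linarith, a6⟩, a5,
        Or.inr (Or.inr (Or.inl (Or.inr (by linarith))))⟩
    · exact ⟨⟨⟨a1, by linarith⟩, ⟨a3, a4⟩, by linarith, a6⟩, a5,
        Or.inl (Or.inr (by linarith))⟩
    · exact ⟨⟨⟨by linarith, a2⟩, ⟨a3, a4⟩, by linarith, a6⟩, a5, Or.inl (Or.inl a1)⟩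
    · exact ⟨⟨⟨by linarith, by linarith⟩, ⟨by linarith, by linarith⟩, by linarith,
        by linarith⟩, a5, Or.inr (Or.inr (Or.inr ⟨⟨a1, a2⟩, a6⟩))⟩

private theorem hp_inter : HpM ∩ HpN = bx (-1) 1 (-1) (-1) 0 1 ∪ bx (-1) 1 1 1 0 1 := by
  ext v
  simp only [HpM, HpN, bx, mem_setOf_eq, mem_union, mem_inter_iff]
  constructor
  · rintro ⟨((((⟨⟨a1, a2⟩, ⟨a3, a4⟩, a5, a6⟩ | ⟨⟨a1, a2⟩, ⟨a3, a4⟩, a5, a6⟩) |
      ⟨⟨a1, a2⟩, ⟨a3, a4⟩, a5, a6⟩) | ⟨⟨a1, a2⟩, ⟨a3, a4⟩, a5, a6⟩) |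
      ⟨⟨a1, a2⟩, ⟨a3, a4⟩, a5, a6⟩), ⟨⟨b1, b2⟩, ⟨b3, b4⟩, b5, b6⟩⟩
    · exfalso; linarith
    · right
      exact ⟨⟨b1, b2⟩, ⟨a3, b4⟩, b5, b6⟩
    · left
      exact ⟨⟨b1, b2⟩, ⟨b3, a4⟩, b5, b6⟩
    · exfalso; linarith
    · exfalso; linarith
  · rintro (⟨⟨a1, a2⟩, ⟨a3, a4⟩, a5, a6⟩ | ⟨⟨a1, a2⟩, ⟨a3, a4⟩, a5, a6⟩)
    · refine ⟨Or.inl (Or.inl (Or.inr ?_)), ?_⟩
      · exact ⟨⟨by linarith, by linarith⟩, ⟨by linarith, by linarith⟩, by linarith, by linarith⟩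
      · exact ⟨⟨by linarith, by linarith⟩, ⟨by linarith, by linarith⟩, by linarith, by linarith⟩
    · refine ⟨Or.inl (Or.inl (Or.inl (Or.inr ?_))), ?_⟩
      · exact ⟨⟨by linarith, by linarith⟩, ⟨by linarith, by linarith⟩, by linarith, by linarith⟩
      · exact ⟨⟨by linarith, by linarith⟩, ⟨by linarith, by linarith⟩, by linarith, by linarith⟩

private theorem hpM_closed : IsClosed HpM :=
  ((((bx_closed _ _ _ _ _ _).union (bx_closed _ _ _ _ _ _)).union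
    (bx_closed _ _ _ _ _ _)).union (bx_closed _ _ _ _ _ _)).union (bx_closed _ _ _ _ _ _)

theorem gP_zero_pos {v : V3} (h : 0 < v 1 ∨ v 1 < 0 ∨ 2 < |v 0| ∨ 2 < v 2) : ZeroAt gP v := by
  rcases h with h | h | h | h
  · filter_upwards [ev_gt 1 h 0, ev_gt 1 h 1] with t a b
    unfold gP
    rw [st_pos a, st_pos b, sub_self, ite_self]
  · filter_upwards [ev_lt 1 h 0, ev_lt 1 h 1] with t a b
    unfold gP
    rw [st_neg a, st_neg b, sub_self, ite_self]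
  · have h1 : ∀ᶠ t in 𝓝 (fun _ : Fin (1 + 1) => v), 2 < |t 0 0| :=
      ev_coord (continuousAt_const.eventually_lt
        (continuous_abs.comp (continuous_apply 0)).continuousAt h) 0
    filter_upwards [h1] with t a
    unfold gP
    rw [if_neg]
    rintro ⟨b, -⟩
    linarith
  · filter_upwards [ev_gt 2 h 0] with t a
    unfold gP
    rw [if_neg]
    rintro ⟨-, b⟩
    linarith

theorem grph_Hp : Grph Hp ![gP] := by
  rw [hp_eq]
  refine grph_two (C := bx (-1) 1 (-1) (-1) 0 1) (D := bx (-1) 1 1 1 0 1)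
    (Sepd.closed hpM_closed (bx_closed _ _ _ _ _ _)) hpM_acyc
    (bx_acyc (by norm_num) (by norm_num) (by norm_num))
    (bx_acyc (by norm_num) (by norm_num) (by norm_num))
    (bx_acyc (by norm_num) (by norm_num) (by norm_num))
    (Sepd.closed (bx_closed _ _ _ _ _ _) (bx_closed _ _ _ _ _ _)) ?_ hp_inter gP 0
    (fun t => st 0 (t 0 1)) ?_ ?_ (-1) (Or.inr rfl) ?_ ?_
  · rw [disjoint_iff_inter_eq_empty, bx_inter]
    exact bx_empty (by norm_num)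
  · rw [dd_zero, sub_zero]
    rintro v ((((hv | hv) | hv) | hv) | hv)
    · exact gP_zero_pos (Or.inr (Or.inr (Or.inr (by linarith [hv.2.2.1]))))
    · exact gP_zero_pos (Or.inl (by linarith [hv.2.1.1]))
    · exact gP_zero_pos (Or.inr (Or.inl (by linarith [hv.2.1.2])))
    · exact gP_zero_pos (Or.inr (Or.inr (Or.inl (lt_abs.2 (Or.inr (by linarith [hv.1.2]))))))
    · exact gP_zero_pos (Or.inr (Or.inr (Or.inl (lt_abs.2 (Or.inl (by linarith [hv.1.1]))))))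
  · intro v hv
    have h1 : v 0 < 2 := by linarith [hv.1.2]
    have h2 : -2 < v 0 := by linarith [hv.1.1]
    have h3 : v 2 < 2 := by linarith [hv.2.2.2]
    filter_upwards [ev_lt 0 h1 0, ev_gt 0 h2 0, ev_lt 2 h3 0] with t a b c
    have e : gP t = st 0 (t 1 1) - st 0 (t 0 1) :=
      if_pos ⟨abs_le.2 ⟨by linarith, by linarith⟩, by linarith⟩
    rw [Pi.sub_apply, e, dd_deg_zero]
    simp [one]
  · intro v hv
    have h1 : v 1 < 0 := by linarith [hv.2.1.2]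
    filter_upwards [ev_lt 1 h1 0] with t a
    show (0 : ℤ) - st 0 (t 0 1) = 0
    rw [st_neg a, sub_zero]
  · intro v hv
    have h1 : 0 < v 1 := by linarith [hv.2.1.1]
    filter_upwards [ev_gt 1 h1 0] with t a
    show (0 : ℤ) - st 0 (t 0 1) - (-1) = 0
    rw [st_pos a]
    norm_num

end PoolFbd
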