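import Pool.Agent.Work.MP_fbd21a_gt.JRes
import Pool.Agent.Work.MP_fbd21a_gt.Lv
import Pool.Agent.Work.MP_fbd21a_gt.Coef5
import Pool.Agent.Work.MP_fbd21a_gt.Ext3
import Pool.Agent.Work.MP_fbd21a_gt.Glue

/-! MODULE InjI. A rational class with compact support in the interior which dies off F is zero.
PROOF. lv_inj (Z = F; dbl_Q): y = dd τ v near univ, v zero near F. Near bd 4 y = 0, so v is a cocycle near
bd 4: Coc τ (bd 4) (F ∩ bd 4) v; pb io v is a relative cocycle of (E3, K) (res_coc_bd), so by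
KFacts.rat a coboundary, and by ext3_tr v = dd τ g near bd 4, g zero near F ∩ bd 4; glue g (near bd 4) with 0
(near F) to g'. y = dd τ (v - dd τ g') near univ (dd dd g' = 0: LZ_dd_dd' with Z = F), and
v - dd τ g' vanishes near F ∪ bd 4. -/

open Topology Filter Set

namespace PoolFbd

theorem inji {F : Set (Q 4)} {rb : Q 4 → Q 4} {K : Set E3} {τ : Q 4 → Q 4 → ℤˣ} {η : Q 4 → ℤˣ}
    {τ₃ : E3 → E3 → ℤˣ} {η₃ : E3 → ℤˣ} {c : R5} (hS : Surf4 F rb K)
    (hT : SymTw F rb τ η τ₃ η₃) (hK : KFacts K τ₃ η₃ c) {y : Coch (Q 4) ℚ 2}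
    (hy : Coc τ univ (F ∪ bd 4) y) (h : Cob τ Fᶜ ∅ y) : Cob τ univ (F ∪ bd 4) y := by
  have hFcl : IsClosed F := hS.tame.1
  have hFc : IsCompact F := hFcl.isCompact
  have hyF : Coc τ univ F y := hy.mono le_rfl subset_union_left
  obtain ⟨v, hv1, hv2⟩ := lv_inj hS.tame hFc hT.tw hT.nt dbl_Q hyF h
  have hyb : LZ (bd 4) y := hy.1.mono subset_union_right
  have hvb : Coc τ (bd 4) (F ∩ bd 4) v := by
    refine ⟨hv1.mono inter_subset_left, ?_⟩
    exact LZ.congr (hv2.symm.mono (subset_univ _)) hyb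
  have h1 : Coc τ₃ univ K (pb io v) := res_coc_bd hS hT hvb
  have h2 : Cob τ₃ univ K (pb io v) := hK.rat _ h1
  obtain ⟨g, hg1, hg2⟩ := ext3_tr hS hT hvb h2
  obtain ⟨g', hg'1, hg'2⟩ := glue (Sepd.closed hFcl (bd_closed 4)) (0 : Coch (Q 4) ℚ 0) g
    (by rw [zero_sub]; exact hg1.neg)
  rw [sub_zero] at hg'1
  have hg2' : LZ (bd 4) (v - dd τ g') := by
    refine LZ.trans hg2 ?_
    rw [← dd_sub]
    exact hg'2.symm.dd τ
  refine ⟨v - dd τ g', LZ.union (hv1.sub (hg'1.dd τ)) hg2', ?_⟩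
  have h3 : LZ univ (dd τ (dd τ g')) :=
    LZ_dd_dd' (hT.tw.mono fun _ hx => hx.2) hg'1
  have h4 := hv2.add h3
  have e : y - dd τ (v - dd τ g') = y - dd τ v + dd τ (dd τ g') := by
    rw [dd_sub, sub_add]
  rw [e]
  exact h4

end PoolFbd
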