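import Pool.Agent.Work.MP_fbd21a_gt.GeoTw
import Pool.Agent.Work.MP_fbd21a_gt.GrRel

/-! MODULE Thet. The map θ on the classes g i, and relative versions of the facts of Geo3.
rel_of_abs: if φ is zero near K and a coboundary near S (Z = ∅) then it is one relative to K (K ⊆ S,
K is Conn-like: φ = dd ψ near S, ψ locally constant near K so constant there by Grph K (degree 0 part),
subtract the constant). Degree 1.
th_g: θ (g_i · v) ~ Σ_j u_j · ((α i j + c β i j) v) near S relative to K (hα, hβ times v; smulC of an integral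
cochain with v in an R5-module: smulC (smulC u m) .. = smulC u (m • v), and c • smulC g v = smulC g (c • v)).
th_lin: for v : Fin 2 → A: θ (Σ_i g_i v_i) ~ Σ_j u_j ((v M)_j), (v M)_j = Σ_i M_ij v_i.
th_dd: θ commutes with dd one (exactly); th_cob. -/

open Topology Filter Set

namespace PoolFbd

variable {K S R : Set E3} {g u : Fin 2 → Coch E3 ℤ 1} {k : Coch E3 ℤ 1}
  {α β : Matrix (Fin 2) (Fin 2) ℤ} {A : Type} [AddCommGroup A] [Module R5 A] {c : R5} {n : ℕ}

theorem th_lzS (h : Geo3 K S R g u k α β) {φ : Coch E3 A n} (hφ : LZ R φ) :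
    LZ S (tht c φ) := by
  intro x hx
  have hx2 : rho3 x ∈ R := h.S'R (by
    show rho3 (rho3 x) ∈ S
    rw [rho3_rho3]
    exact hx)
  have h2 := (tendsto_pb (n := n + 1) (f := rho3) (x := x) rho3_cont.continuousAt).eventually
    (hφ (rho3 x) hx2)
  filter_upwards [hφ x (h.SR hx), h2] with t a b
  show φ t + c • φ (fun j => rho3 (t j)) = 0
  rw [a, b, smul_zero, add_zero]

theorem th_dd_smul (c : R5) (φ : Coch E3 A n) : dd one (c • φ) = c • dd one φ := by
  funext t
  show (one (t 0) (t 1) : ℤˣ) • c • φ (fun j => t j.succ) +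
      ∑ i : Fin (n + 1), (-1 : ℤ) ^ ((i : ℕ) + 1) • c • φ (fun j => t (i.succ.succAbove j)) =
    c • ((one (t 0) (t 1) : ℤˣ) • φ (fun j => t j.succ) +
      ∑ i : Fin (n + 1), (-1 : ℤ) ^ ((i : ℕ) + 1) • φ (fun j => t (i.succ.succAbove j)))
  rw [smul_add, Finset.smul_sum]
  congr 1
  · simp [one]
  · exact Finset.sum_congr rfl fun i _ => smul_comm _ _ _

theorem th_add (c : R5) (φ ψ : Coch E3 A n) : tht c (φ + ψ) = tht c φ + tht c ψ := by
  funext t
  show φ t + ψ t + c • (φ _ + ψ _) = (φ t + c • φ _) + (ψ t + c • ψ _)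
  rw [smul_add]
  abel

theorem th_neg (c : R5) (φ : Coch E3 A n) : tht c (-φ) = - tht c φ := by
  funext t
  show -φ t + c • (-φ _) = -(φ t + c • φ _)
  rw [smul_neg]
  abel

theorem th_sub (c : R5) (φ ψ : Coch E3 A n) : tht c (φ - ψ) = tht c φ - tht c ψ := by
  rw [sub_eq_add_neg, th_add, th_neg, sub_eq_add_neg]

theorem rel_of_abs (h : Geo3 K S R g u k α β) {φ : Coch E3 A 1} (hφ : LZ K φ)
    (h1 : Cob one S ∅ φ) : Cob one S K φ := by
  obtain ⟨ψ, -, hψ⟩ := h1
  have h2 : LZ K (dd one ψ) := by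
    have h3 := hφ.sub (hψ.mono h.KS)
    rwa [sub_sub_cancel] at h3
  obtain ⟨a, ha⟩ := (h.kK.2.2 A).1 ψ h2
  refine ⟨ψ - cst E3 0 a, ha, ?_⟩
  have e : dd one (cst E3 0 a) = (0 : Coch E3 A 1) := by
    funext t
    simp [dd, cst, one]
  rw [dd_sub, e, sub_zero]
  exact hψ

theorem th_dd (c : R5) (φ : Coch E3 A n) : dd one (tht c φ) = tht c (dd one φ) := by
  unfold tht
  rw [dd_add, th_dd_smul]
  rfl

theorem th_lz (h : Geo3 K S R g u k α β) {φ : Coch E3 A n} (hφ : LZ K φ) : LZ K (tht c φ) := by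
  intro x hx
  have h2 := (tendsto_pb (n := n + 1) (f := rho3) (x := x) rho3_cont.continuousAt).eventually
    (hφ (rho3 x) ((geo_memK h x).1 hx))
  filter_upwards [hφ x hx, h2] with t a b
  show φ t + c • φ (fun j => rho3 (t j)) = 0
  rw [a, b, smul_zero, add_zero]

theorem th_cob (h : Geo3 K S R g u k α β) {φ : Coch E3 A (n + 1)} (hφ : Cob one R K φ) :
    Cob one S K (tht c φ) := by
  obtain ⟨ψ, h1, h2⟩ := hφ
  refine ⟨tht c ψ, th_lz h h1, ?_⟩
  rw [th_dd, ← th_sub]
  exact th_lzS h h2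

theorem th_smulC_lz {E : Type*} [TopologicalSpace E] {B : Type*} [AddCommGroup B] {T : Set E}
    {m : ℕ} {f : Coch E ℤ m} (h : LZ T f) (a : B) : LZ T (smulC f a) := fun x hx => by
  filter_upwards [h x hx] with t ht
  simp [smulC, ht]

theorem th_sum_lz {E : Type*} [TopologicalSpace E] {B : Type*} [AddCommGroup B] {T : Set E}
    {m : ℕ} {ι : Type*} (s : Finset ι) (f : ι → Coch E B m) (h : ∀ i ∈ s, LZ T (f i)) :
    LZ T (∑ i ∈ s, f i) := by
  classical
  induction s using Finset.induction_on with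
  | empty =>
    rw [Finset.sum_empty]
    exact LZ.zero T
  | insert i s hi ih =>
    rw [Finset.sum_insert hi]
    exact (h i (Finset.mem_insert_self i s)).add
      (ih fun j hj => h j (Finset.mem_insert_of_mem hj))

theorem th_sum_cob {E : Type*} [TopologicalSpace E] {B : Type*} [AddCommGroup B] {T Z : Set E}
    {m : ℕ} {τ : E → E → ℤˣ} {ι : Type*} (s : Finset ι) (f : ι → Coch E B m)
    (h : ∀ i ∈ s, Cob τ T Z (f i)) : Cob τ T Z (∑ i ∈ s, f i) := by
  classical
  induction s using Finset.induction_on with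
  | empty =>
    rw [Finset.sum_empty]
    exact Cob.zero τ T Z
  | insert i s hi ih =>
    rw [Finset.sum_insert hi]
    exact (h i (Finset.mem_insert_self i s)).add
      (ih fun j hj => h j (Finset.mem_insert_of_mem hj))

theorem th_smulC_cob {E : Type*} [TopologicalSpace E] {B : Type*} [AddCommGroup B] {T Z : Set E}
    {m : ℕ} {f : Coch E ℤ (m + 1)} (h : Cob one T Z f) (a : B) : Cob one T Z (smulC f a) := by
  obtain ⟨ψ, h1, h2⟩ := h
  refine ⟨smulC ψ a, th_smulC_lz h1 a, ?_⟩
  have e : dd one (smulC ψ a) = smulC (dd one ψ) a := by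
    funext t
    show (one (t 0) (t 1) : ℤˣ) • (ψ (fun j => t j.succ) • a) +
        ∑ i : Fin (m + 1), (-1 : ℤ) ^ ((i : ℕ) + 1) • (ψ (fun j => t (i.succ.succAbove j)) • a) =
      ((one (t 0) (t 1) : ℤˣ) • ψ (fun j => t j.succ) +
        ∑ i : Fin (m + 1), (-1 : ℤ) ^ ((i : ℕ) + 1) • ψ (fun j => t (i.succ.succAbove j))) • a
    rw [add_smul, Finset.sum_smul]
    congr 1
    · simp [one]
    · exact Finset.sum_congr rfl fun i _ => by rw [smul_assoc]
  have e2 : smulC f a - smulC (dd one ψ) a = smulC (f - dd one ψ) a := by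
    funext t
    show f t • a - dd one ψ t • a = (f t - dd one ψ t) • a
    rw [sub_smul]
  rw [e, e2]
  exact th_smulC_lz h2 a

theorem th_lin (h : Geo3 K S R g u k α β) (v : Fin 2 → A) :
    Cob one S K (tht c (∑ i, smulC (g i) (v i)) -
      ∑ j, smulC (u j) (∑ i, mat5 c α β i j • v i)) := by
  have hK1 : LZ K (∑ i, smulC (g i) (v i)) :=
    th_sum_lz _ _ fun i _ => th_smulC_lz (h.gK i) _
  have hK2 : LZ K (∑ j, smulC (u j) (∑ i, mat5 c α β i j • v i)) :=
    th_sum_lz _ _ fun i _ => th_smulC_lz (h.uK i) _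
  refine rel_of_abs h ((th_lz h hK1).sub hK2) ?_
  have key : tht c (∑ i, smulC (g i) (v i)) - ∑ j, smulC (u j) (∑ i, mat5 c α β i j • v i) =
      ∑ i, (smulC (g i - lin2 u (α i)) (v i) +
        smulC (pb rho3 (g i) - lin2 u (β i)) (c • v i)) := by
    funext t
    have e1 : tht c (∑ i, smulC (g i) (v i)) t = ∑ i, (g i t • v i) +
        c • ∑ i, (g i (fun j => rho3 (t j)) • v i) := by
      show (∑ i, smulC (g i) (v i)) t + c • (∑ i, smulC (g i) (v i)) (fun j => rho3 (t j)) = _
      rw [Finset.sum_apply, Finset.sum_apply]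
      rfl
    have e2 : (∑ j, smulC (u j) (∑ i, mat5 c α β i j • v i)) t =
        ∑ j, u j t • (∑ i, mat5 c α β i j • v i) := by
      rw [Finset.sum_apply]
      rfl
    have e3 : (∑ i, (smulC (g i - lin2 u (α i)) (v i) +
        smulC (pb rho3 (g i) - lin2 u (β i)) (c • v i))) t =
        ∑ i, ((g i t - ∑ j, u j t * α i j) • v i +
          (g i (fun j => rho3 (t j)) - ∑ j, u j t * β i j) • (c • v i)) := by
      rw [Finset.sum_apply]
      refine Finset.sum_congr rfl fun i _ => ?_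
      show (g i t - lin2 u (α i) t) • v i +
        (g i (fun j => rho3 (t j)) - lin2 u (β i) t) • (c • v i) = _
      have e4 : ∀ m : Fin 2 → ℤ, lin2 u m t = ∑ j, u j t * m j := by
        intro m
        unfold lin2
        rw [Finset.sum_apply]
        rfl
      rw [e4, e4]
    rw [Pi.sub_apply, e1, e2, e3]
    simp only [Fin.sum_univ_two, mat5]
    module
  rw [key]
  refine th_sum_cob _ _ fun i _ => ?_
  exact (th_smulC_cob (h.hα i) _).add (th_smulC_cob (h.hβ i) _)

end PoolFbd
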