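import Pool.Agent.Work.MP_fbd21a_gt.ISdef
import Pool.Agent.Work.MP_fbd21a_gt.CGlue
import Pool.Agent.Work.MP_fbd21a_gt.Thet
import Pool.Agent.Work.MP_fbd21a_gt.CupL

/-! MODULE IntF. The integral formula on the c-part: Itg3 (x ∪ y) = 2 IS (θ ξ ∪ y₁), where near R
gau σ x = dd one ξ, y₁ = gau σ y. Write S' = rho3⁻¹ S, R' = rho3⁻¹ R, ρ = rho3, T = x ∪ y (3-cocycle near univ).
Near R the gauge factors cancel: T = (dd one ξ) ∪ y₁ (trivial twist) off K, both vanish near K; so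
T = dd one P near R, P = ξ ∪ y₁ (cup with trivial twist; dd one y₁ = 0 near R: cg_coc), P zero near K.
j_cup (Z = K): pb ρ T = (Jx) ∪ (Jy) = c² T = -T near univ. So near R' T = - pb ρ T = dd one (- pb ρ P).
W = P + pb ρ P; pb ρ W = W exactly. Let X be the glue of dd one W (near R) and 0 (near R') (W is a cocycle near
S ∪ S': there T = dd P = -dd pb ρ P). T - X = dd one (- pb ρ P) near univ (near R and near R'). So
Itg3 T = Itg3 X. W = W₁ + W₂ near S ∪ S' with W₁ = W near S, 0 near S' and W₂ = pb ρ W₁; so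
X ~ X₁ + X₂ with X_i the glue of dd W_i (near R) and 0 (near R'), and X₂ + pb ρ X₁ = dd (pb ρ W₁) near univ,
hence Itg3 X₂ = - Itg3 (pb ρ X₁) = Itg3 X₁ (itg3_rho). Itg3 X₁ = IS W (is_eq), total 2 IS (W).
Near S: ρ^* y₁ = c y₁ (cg_theta: θ y₁ = 0), ρ^* ξ = c (ξ - θ ξ), so pb ρ P = c² (ξ - θξ) ∪ y₁ = - ξ ∪ y₁ + θξ ∪ y₁ and
W = θξ ∪ y₁ near S. -/

open Topology Filter Set

namespace PoolFbd

/-- The trivial twist by units. -/
def oneU (R : Type*) [CommRing R] : E3 → E3 → Rˣ := fun _ _ => 1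

variable {K S R : Set E3} {g u : Fin 2 → Coch E3 ℤ 1} {k : Coch E3 ℤ 1}
  {α β : Matrix (Fin 2) (Fin 2) ℤ} {D : Type} [AddCommGroup D] [Module R5 D] {c : R5}

private theorem intf_invt : invt (oneU R5) = oneU R5 := by
  funext x y
  simp [invt, oneU]

private theorem intf_dd1 {A : Type} [AddCommGroup A] [Module R5 A] {n : ℕ} (φ : Coch E3 A n) :
    dd (oneU R5) φ = dd one φ := dd_triv φ

private theorem intf_tw (S : Set E3) : IsTw S (oneU R5) :=
  fun _ _ => Eventually.of_forall fun _ => by simp [oneU]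

private theorem intf_uu (u v : ℤˣ) (a : R5) (b : D) : (u • a) • (v • b) = a • ((u * v) • b) := by
  rcases Int.units_eq_one_or u with h | h <;> rcases Int.units_eq_one_or v with h' | h' <;>
    simp [h, h', Units.smul_def]

/-- Near `R` the gauge factors cancel. -/
private theorem intf_a (h : Geo3 K S R g u k α β) {x : Coch E3 R5 2} (hx : LZ K x)
    (y : Coch E3 D 1) :
    LZ R (cup (rfl : 2 + 1 = 3) (upt R5 (tauS S R)) x y -
      cup (rfl : 2 + 1 = 3) (oneU R5) (gau (sigR S R) x) (gau (sigR S R) y)) := by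
  intro p hp
  by_cases hK : p ∈ K
  · have h1 := cup_left (rfl : 2 + 1 = 3) (τ := upt R5 (tauS S R)) hx y p hK
    have h2 := cup_left (rfl : 2 + 1 = 3) (τ := oneU R5) (hx.gau (sigR S R))
      (gau (sigR S R) y) p hK
    filter_upwards [h1, h2] with t a b
    rw [Pi.sub_apply, a, b, sub_zero]
  · have h1 := sig_triv h p ⟨hp, hK⟩
    have h2 := geo_evtwo (P := fun y z => tauS S R y z = (sigR S R y)⁻¹ * sigR S R z) h1
      (n := 4) 0 2
    filter_upwards [h2] with t ht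
    simp only [Pi.sub_apply, cup, gau, upt_smul, oneU, one_smul]
    have e1 : (t ⟨2, by omega⟩ : E3) = t 2 := rfl
    have e2 : (t ⟨((0 : Fin (2 + 1)) : ℕ), by simp⟩ : E3) = t 0 := rfl
    have e3 : (t ⟨2 + ((0 : Fin (1 + 1)) : ℕ), by simp⟩ : E3) = t 2 := rfl
    rw [e1, e2, e3, ht, intf_uu, Int.units_inv_eq_self, sub_self]

/-- Near `R` the product is the coboundary of `ξ ∪ y₁`. -/
private theorem intf_b (h : Geo3 K S R g u k α β) {ξ : Coch E3 R5 1} (hξ : LZ K ξ)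
    {x₁ : Coch E3 R5 2} (h1 : LZ R (x₁ - dd one ξ)) {y₁ : Coch E3 D 1}
    (hy : LZ R (dd one y₁)) :
    LZ R (cup (rfl : 2 + 1 = 3) (oneU R5) x₁ y₁ -
      dd one (cup (rfl : 1 + 1 = 2) (oneU R5) ξ y₁)) := by
  have e1 := cup_leib (rfl : 1 + 1 = 2) (rfl : 1 + 1 + 1 = 2 + 1) (rfl : 1 + (1 + 1) = 2 + 1)
    (S := R) (Z := K) (intf_tw (R \ K)) hξ y₁
  rw [intf_invt, intf_dd1, intf_dd1] at e1
  have e2 : LZ R (cup (rfl : 1 + 1 + 1 = 2 + 1) (oneU R5) (x₁ - dd one ξ) y₁) :=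
    cup_left _ h1 y₁
  rw [cup_sub_left] at e2
  have e3 : LZ R (cup (rfl : 1 + (1 + 1) = 2 + 1) (oneU R5) ξ (dd one y₁)) := cup_right _ _ hy
  have e4 := (e2.sub e1).add e3
  rw [pow_one, neg_one_smul] at e4
  convert e4 using 1
  abel

private theorem intf_cc (hc : c * c = -1) (z : D) : c • c • z = -z := by
  rw [← mul_smul, hc, neg_one_smul]

/-- The product is anti-invariant. -/
private theorem intf_c (h : Geo3 K S R g u k α β) (hc : c * c = -1) {x : Coch E3 R5 2}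
    (hx : LZ K x) (hxc : CPart (epsR S R) rho3 c x) {y : Coch E3 D 1}
    (hyc : CPart (epsR S R) rho3 c y) :
    LZ univ (cup (rfl : 2 + 1 = 3) (upt R5 (tauS S R)) x y +
      pb rho3 (cup (rfl : 2 + 1 = 3) (upt R5 (tauS S R)) x y)) := by
  have e1 := j_cup (rfl : 2 + 1 = 3) rho3_cont (Z := K) (fun z hz => (geo_memK h z).1 hz)
    (fun z hz => geo_equiv h hz) hx y
  have e2 : LZ univ (cup (rfl : 2 + 1 = 3) (upt R5 (tauS S R))
      (Jop (epsR S R) rho3 x - c • x) (Jop (epsR S R) rho3 y)) := cup_left _ hxc _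
  have e3 : LZ univ (cup (rfl : 2 + 1 = 3) (upt R5 (tauS S R))
      (c • x) (Jop (epsR S R) rho3 y - c • y)) := cup_right _ _ hyc
  rw [cup_sub_left, cup_smul_left] at e2
  rw [cup_sub_right, cup_smul_right, cup_smul_left, cup_smul_left] at e3
  have e4 : c • c • cup (rfl : 2 + 1 = 3) (upt R5 (tauS S R)) x y =
      - cup (rfl : 2 + 1 = 3) (upt R5 (tauS S R)) x y := by
    funext t
    simp only [Pi.smul_apply, Pi.neg_apply]
    exact intf_cc hc _
  rw [e4] at e3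
  have e5 := (e2.add e3).sub e1
  convert e5 using 1
  abel

private theorem intf_pbpb {A : Type} {n : ℕ} (φ : Coch E3 A n) : pb rho3 (pb rho3 φ) = φ := by
  funext t
  simp only [pb, rho3_rho3]

private theorem intf_pbR (h : Geo3 K S R g u k α β) {A : Type} [AddCommGroup A] {n : ℕ}
    {φ : Coch E3 A n} (h1 : LZ R φ) : LZ (rho3 ⁻¹' R) (pb rho3 φ) :=
  have _ := h
  h1.pb fun x hx => ⟨rho3_cont.continuousAt, hx⟩

private theorem intf_pbR' {T : Set E3} {A : Type} [AddCommGroup A] {n : ℕ}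
    {φ : Coch E3 A n} (h1 : LZ (rho3 ⁻¹' T) φ) : LZ T (pb rho3 φ) :=
  h1.pb fun x hx => ⟨rho3_cont.continuousAt, by
    change rho3 (rho3 x) ∈ T
    rw [rho3_rho3]
    exact hx⟩

theorem intf (h : Geo3 K S R g u k α β) (hc : c * c = -1) {ξ : Coch E3 R5 1}
    {x : Coch E3 R5 2} {y : Coch E3 D 1} (hξ : LZ K ξ) (hx : Coc (tauS S R) univ K x)
    (hxc : CPart (epsR S R) rho3 c x) (hxξ : LZ R (gau (sigR S R) x - dd one ξ))
    (hy : Coc (tauS S R) univ K y) (hyc : CPart (epsR S R) rho3 c y) :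
    Coc one S K (cup (rfl : 1 + 1 = 2) (oneU R5) (tht c ξ) (gau (sigR S R) y)) ∧
    Itg3 (cup (rfl : 2 + 1 = 3) (upt R5 (tauS S R)) x y) =
      (2 : R5) • IS S R (cup (rfl : 1 + 1 = 2) (oneU R5) (tht c ξ) (gau (sigR S R) y)) := by

  set y₁ := gau (sigR S R) y with hy₁
  set T : Coch E3 D 3 := cup (rfl : 2 + 1 = 3) (upt R5 (tauS S R)) x y with hT
  set P : Coch E3 D 2 := cup (rfl : 1 + 1 = 2) (oneU R5) ξ y₁ with hP
  have hy1 : LZ R (dd one y₁) := (cg_coc h hc hy.1 hyc).1 hy.2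
  have hTP : LZ R (T - dd one P) := (intf_a h hx.1 y).trans (intf_b h hξ hxξ hy1)
  have hTT : LZ univ (T + pb rho3 T) := intf_c h hc hx.1 hxc hyc
  have hTP' : LZ (rho3 ⁻¹' R) (T + dd one (pb rho3 P)) := by
    have e1 : LZ (rho3 ⁻¹' R) (pb rho3 (T - dd one P)) := intf_pbR h hTP
    have e2 : pb rho3 (T - dd one P) = pb rho3 T - dd one (pb rho3 P) := rfl
    rw [e2] at e1
    have e3 := (hTT.mono (subset_univ (rho3 ⁻¹' R))).sub e1
    convert e3 using 1
    abel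
  have hSR' : S ⊆ rho3 ⁻¹' R := by
    intro z hz
    refine h.S'R ?_
    change rho3 (rho3 z) ∈ S
    rw [rho3_rho3]
    exact hz
  set W : Coch E3 D 2 := P + pb rho3 P with hW
  have hPK : LZ K P := cup_left _ hξ y₁
  have hWK : LZ K W := hPK.add (hPK.pb fun z hz => ⟨rho3_cont.continuousAt, (geo_memK h z).1 hz⟩)
  have hWS : LZ S (dd one W) := by
    have e1 := (hTP'.mono hSR').sub (hTP.mono h.SR)
    rw [hW, dd_add]
    convert e1 using 1
    abel
  have hpW : pb rho3 W = W := by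
    have : pb rho3 W = pb rho3 P + pb rho3 (pb rho3 P) := rfl
    rw [this, intf_pbpb, hW, add_comm]
  -- the form of `W` near `S`
  have hθy : LZ S (pb rho3 y₁ - c • y₁) := by
    have e1 := cg_theta h hc hy.1 hyc
    intro z hz
    filter_upwards [e1 z hz] with t ht
    simp only [tht, Pi.add_apply, Pi.smul_apply] at ht
    rw [← hy₁] at ht
    simp only [Pi.sub_apply, Pi.smul_apply]
    have e2 : c • y₁ t = pb rho3 y₁ t := by
      have e3 := congrArg (fun w => c • w) ht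
      simp only [smul_add, smul_zero, intf_cc hc] at e3
      exact eq_of_sub_eq_zero (by rw [sub_eq_add_neg]; exact e3)
    rw [e2, sub_self]
  have hWθ : LZ S (W - cup (rfl : 1 + 1 = 2) (oneU R5) (tht c ξ) y₁) := by
    have e1 : pb rho3 P = cup (rfl : 1 + 1 = 2) (oneU R5) (pb rho3 ξ) (pb rho3 y₁) := rfl
    have e2 : pb rho3 ξ = c • (ξ - tht c ξ) := by
      funext t
      simp only [tht, Pi.smul_apply, Pi.sub_apply, Pi.add_apply, smul_eq_mul]
      linear_combination (pb rho3 ξ t) * hc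
    have e3 : LZ S (cup (rfl : 1 + 1 = 2) (oneU R5) (c • (ξ - tht c ξ))
        (pb rho3 y₁ - c • y₁)) := cup_right _ _ hθy
    rw [cup_sub_right, cup_smul_right, cup_smul_left, cup_smul_left] at e3
    have e4 : c • c • cup (rfl : 1 + 1 = 2) (oneU R5) (ξ - tht c ξ) y₁ =
        - cup (rfl : 1 + 1 = 2) (oneU R5) (ξ - tht c ξ) y₁ := by
      funext t
      simp only [Pi.smul_apply, Pi.neg_apply]
      exact intf_cc hc _
    have e5 : cup (rfl : 1 + 1 = 2) (oneU R5) (ξ - tht c ξ) y₁ =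
        P - cup (rfl : 1 + 1 = 2) (oneU R5) (tht c ξ) y₁ := cup_sub_left _ _ _ _
    rw [e4, e5] at e3
    rw [hW, e1, e2, cup_smul_left]
    convert e3 using 1
    abel
  have hθK : LZ K (tht c ξ) := th_lz h hξ
  have hcoc : Coc one S K (cup (rfl : 1 + 1 = 2) (oneU R5) (tht c ξ) y₁) := by
    refine ⟨cup_left _ hθK y₁, ?_⟩
    have e1 := hWθ.dd one
    rw [dd_sub] at e1
    have e2 := hWS.sub e1
    rwa [sub_sub_cancel] at e2
  refine ⟨hcoc, ?_⟩
  -- the two halves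
  obtain ⟨W₁, w1, w2⟩ := isd_glueS h hWK
  have w3 : LZ S (dd one W₁) := by
    have e1 := w1.dd one
    rw [dd_sub] at e1
    have e2 := e1.add hWS
    rwa [sub_add_cancel] at e2
  obtain ⟨X, x1, x2⟩ := isd_glueR h w3 (w2.dd one)
  have hXc := isd_coc h x1 x2
  have hIS : IS S R W = Itg3 X := is_eq h ⟨W₁, X, w1, w2, x1, x2, rfl⟩
  have hISθ : IS S R W = IS S R (cup (rfl : 1 + 1 = 2) (oneU R5) (tht c ξ) y₁) :=
    is_congr h ⟨hWK, hWS⟩ (Cob.of_LZ hWθ)
  -- the primitive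
  have hpX : LZ R (pb rho3 X) := intf_pbR' x2
  have hpX' : LZ (rho3 ⁻¹' R) (pb rho3 X - dd one (pb rho3 W₁)) := by
    have e1 : LZ (rho3 ⁻¹' R) (pb rho3 (X - dd one W₁)) := intf_pbR h x1
    exact e1
  have hS1 : LZ S (pb rho3 W₁) := intf_pbR' w2
  have hS2 : LZ (rho3 ⁻¹' S) (pb rho3 W₁ - W) := by
    have e1 : LZ (rho3 ⁻¹' S) (pb rho3 (W₁ - W)) :=
      w1.pb fun z hz => ⟨rho3_cont.continuousAt, hz⟩
    have e2 : pb rho3 (W₁ - W) = pb rho3 W₁ - pb rho3 W := rfl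
    rwa [e2, hpW] at e1
  have hov : LZ (R ∩ rho3 ⁻¹' R) ((P - W₁) - (pb rho3 W₁ - pb rho3 P)) := by
    rw [h.inter]
    refine LZ.union ?_ ?_
    · have e1 := (w1.add hS1).neg
      rw [hW] at e1
      convert e1 using 1
      abel
    · have e1 := (w2.add hS2).neg
      rw [hW] at e1
      convert e1 using 1
      abel
  obtain ⟨Q₀, q1, q2⟩ := glue (Sepd.closed h.cR (isd_cR' h)) _ _ hov
  have hfin : LZ univ (T - (X - pb rho3 X) - dd one Q₀) := by
    refine isd_univ h ?_ ?_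
    · have e1 := q1.dd one
      rw [dd_sub, dd_sub] at e1
      have e2 := ((hTP.sub x1).add hpX).sub e1
      convert e2 using 1
      abel
    · have e1 := q2.dd one
      rw [dd_sub, dd_sub] at e1
      have e2 := ((hTP'.sub x2).add hpX').sub e1
      convert e2 using 1
      abel
  have hTc : LZ univ (dd one T) := by
    refine isd_univ h ?_ ?_
    · have e1 := hTP.dd one
      rw [dd_sub] at e1
      have e2 := e1.add (LZ_dd_dd (IsTw.one R) P)
      rwa [sub_add_cancel] at e2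
    · have e1 := hTP'.dd one
      rw [dd_add] at e1
      have e2 := e1.sub (LZ_dd_dd (IsTw.one (rho3 ⁻¹' R)) (pb rho3 P))
      rwa [add_sub_cancel_right] at e2
  have hpXc : LZ univ (dd one (pb rho3 X)) := by
    have e1 : LZ univ (pb rho3 (dd one X)) :=
      hXc.pb fun z _ => ⟨rho3_cont.continuousAt, mem_univ _⟩
    exact e1
  rw [itg3_congr hTc ⟨Q₀, LZ.empty Q₀, hfin⟩, itg3_sub hXc hpXc, itg3_rho hXc, ← hISθ, hIS,
    sub_neg_eq_add, two_smul]

end PoolFbd
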