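import Pool.Agent.Work.MP_fbd21a_gt.ISdef
import Pool.Agent.Work.MP_fbd21a_gt.AxLoc
import Pool.Agent.Work.MP_fbd21a_gt.CupL

/-! MODULE IsOne. The knot links the surface once.
is_one: χ with Itg3 χ = 1 (itg3_gen). χ = dd one V₁ near R, χ = dd one V₂ near R' = rho3⁻¹ R (Grph R, degree 3; for R' pull
back by rho3). D = V₁ - V₂ is a cocycle near S ∪ S'; D = dd one p near S, D = dd one p' near S' (degree 2). Near K
p - p' is a cocycle: p - p' = c k + dd one w (kK; sum over Fin 1). Put V₂' = V₂ + dd one p', q = p - p' - c k - dd one w (zero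
near K), q̂ = glue of q near S and 0 near S', V₁' = V₁ - dd one q̂. Then V' = V₁' - V₂' is c dd one k near S and 0 near S',
X = χ - dd one V₂' is 0 near R' and dd one V' near R, Itg3 X = 1 (itg3_congr). So IS (smulC (dd one k) c) = 1 (is_eq),
and it is c * IS (dd one k) (is_map with the multiplication by c).
lk_one: near R: smulC nC a = dd one (bR a) off K (ns_R), near R' = dd one (bR' a). cup (dd one k) (dd one b) =
dd one (cup (dd one k) b) for the trivial twist (cup_leib, dd one (dd one k) = 0; everything vanishes near K).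
T = the cup product, P = cup (dd one k) (bR a), P' = cup (dd one k) (bR' a) (degrees 2 + 0): T = dd one P near R, = dd one P'
near R'. V' = P - P' is smulC (dd one k) a near S (br_S), 0 near S' (br_S'); X = T - dd one P'. So Itg3 T = IS (smulC (dd one k) a) =
IS (dd one k) • a (is_map for the homomorphism z ↦ z • a). -/

open Topology Filter Set

namespace PoolFbd

variable {K S R : Set E3} {g u : Fin 2 → Coch E3 ℤ 1} {k : Coch E3 ℤ 1}
  {α β : Matrix (Fin 2) (Fin 2) ℤ}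

private theorem io_pb {A : Type} [AddCommGroup A] {T : Set E3} {n : ℕ} {φ : Coch E3 A n}
    (h : LZ (rho3 ⁻¹' T) φ) : LZ T (pb rho3 φ) :=
  LZ.pb (fun x hx => ⟨rho3_cont.continuousAt, by
    show rho3 (rho3 x) ∈ T
    rwa [rho3_rho3]⟩) h

private theorem io_pb' {A : Type} [AddCommGroup A] {T : Set E3} {n : ℕ} {φ : Coch E3 A n}
    (h : LZ T φ) : LZ (rho3 ⁻¹' T) (pb rho3 φ) :=
  LZ.pb (fun _ hx => ⟨rho3_cont.continuousAt, hx⟩) h

private theorem io_pbpb {A : Type} {n : ℕ} (φ : Coch E3 A n) : pb rho3 (pb rho3 φ) = φ := by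
  funext t
  show φ (fun j => rho3 (rho3 (t j))) = φ t
  congr 1
  funext j
  exact rho3_rho3 _

private theorem io_dd {A : Type} [AddCommGroup A] {n : ℕ} (φ : Coch E3 A n) :
    pb rho3 (dd one φ) = dd one (pb rho3 φ) := (dd_pb rho3 one φ).symm

private theorem io_ddsmul {A : Type} [AddCommGroup A] {n : ℕ} (g : Coch E3 ℤ n) (a : A) :
    dd one (smulC g a) = smulC (dd one g) a := by
  funext t
  show (one (t 0) (t 1) : ℤˣ) • (g (fun j => t j.succ) • a) +
      ∑ i : Fin (n + 1), (-1 : ℤ) ^ ((i : ℕ) + 1) • (g (fun j => t (i.succ.succAbove j)) • a) =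
    ((one (t 0) (t 1) : ℤˣ) • g (fun j => t j.succ) +
      ∑ i : Fin (n + 1), (-1 : ℤ) ^ ((i : ℕ) + 1) • g (fun j => t (i.succ.succAbove j))) • a
  rw [add_smul, Finset.sum_smul]
  congr 1
  · simp [one]
  · exact Finset.sum_congr rfl fun i _ => by rw [smul_assoc]

private theorem io_eq {A : Type} [AddCommGroup A] {T : Set E3} {n : ℕ} {φ ψ : Coch E3 A n}
    (h : LZ T φ) (e : ψ = φ) : LZ T ψ := e ▸ h

private theorem io_ddk (h : Geo3 K S R g u k α β) : LZ K (dd one k) := h.kK.2.1 0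

private theorem io_cock (h : Geo3 K S R g u k α β) : Coc one S K (dd one k) :=
  ⟨io_ddk h, LZ_dd_dd (IsTw.one S) k⟩

private theorem io_d3 (h : Geo3 K S R g u k α β) (χ : Coch E3 ℤ 3) (hχ : LZ R (dd one χ)) :
    ∃ V : Coch E3 ℤ 2, LZ R (χ - dd one V) := by
  obtain ⟨V, -, hV⟩ := (h.gR.2.2 ℤ).2.2.2 1 χ hχ
  exact ⟨V, hV⟩

private theorem io_d2 (h : Geo3 K S R g u k α β) (χ : Coch E3 ℤ 2) (hχ : LZ S (dd one χ)) :
    ∃ V : Coch E3 ℤ 1, LZ S (χ - dd one V) := by
  obtain ⟨V, -, hV⟩ := (h.uS.2.2 ℤ).2.2.2 0 χ hχ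
  exact ⟨V, hV⟩

theorem is_one (h : Geo3 K S R g u k α β) :
    IS S R (dd one k) = 1 ∨ IS S R (dd one k) = -1 := by
  obtain ⟨χ, hχ, hI⟩ := itg3_gen
  obtain ⟨V₁, hV₁⟩ := io_d3 h χ (hχ.mono (subset_univ _))
  obtain ⟨W₂, hW₂⟩ := io_d3 h (pb rho3 χ) (by
    rw [← io_dd]
    exact io_pb (hχ.mono (subset_univ _)))
  have hV₂ : LZ (rho3 ⁻¹' R) (χ - dd one (pb rho3 W₂)) := by
    have h1 := io_pb' hW₂
    have h2 : pb rho3 (pb rho3 χ - dd one W₂) = χ - dd one (pb rho3 W₂) := by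
      rw [← io_dd]
      conv_rhs => rw [← io_pbpb χ]
      rfl
    rwa [h2] at h1
  generalize pb rho3 W₂ = V₂ at hV₂
  have hSR' : S ⊆ rho3 ⁻¹' R := fun x hx => h.S'R (by
    show rho3 (rho3 x) ∈ S
    rwa [rho3_rho3])
  have hS'R' : rho3 ⁻¹' S ⊆ rho3 ⁻¹' R := fun x hx => h.SR hx
  have hDS : LZ S (dd one (V₁ - V₂)) := by
    have h1 := (hV₂.mono hSR').sub (hV₁.mono h.SR)
    rw [dd_sub]
    exact io_eq h1 (by abel)
  have hDS' : LZ (rho3 ⁻¹' S) (dd one (V₁ - V₂)) := by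
    have h1 := (hV₂.mono hS'R').sub (hV₁.mono h.S'R)
    rw [dd_sub]
    exact io_eq h1 (by abel)
  obtain ⟨p, hp⟩ := io_d2 h (V₁ - V₂) hDS
  obtain ⟨r, hr⟩ := io_d2 h (pb rho3 (V₁ - V₂)) (by
    rw [← io_dd]
    exact io_pb hDS')
  have hp' : LZ (rho3 ⁻¹' S) (V₁ - V₂ - dd one (pb rho3 r)) := by
    have h1 := io_pb' hr
    have h2 : pb rho3 (pb rho3 (V₁ - V₂) - dd one r) = V₁ - V₂ - dd one (pb rho3 r) := by
      rw [← io_dd]
      conv_rhs => rw [← io_pbpb (V₁ - V₂)]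
      rfl
    rwa [h2] at h1
  generalize pb rho3 r = p' at hp'
  have hKc : LZ K (dd one (p - p')) := by
    have h1 := (hp'.mono (geo_KS' h)).sub (hp.mono h.KS)
    rw [dd_sub]
    exact io_eq h1 (by abel)
  obtain ⟨v, w, -, hw⟩ := (h.kK.2.2 ℤ).2.1 (p - p') hKc
  have hs : (∑ i, smulC ((![k] : Fin 1 → Coch E3 ℤ 1) i) (v i)) = smulC k (v 0) := by simp
  rw [hs] at hw
  obtain ⟨q, hq1, hq2⟩ := isd_glueS h hw
  have hval : ISval S R (smulC (dd one k) (v 0)) 1 := by
    refine ⟨V₁ - V₂ - dd one p' - dd one q, χ - dd one (V₂ + dd one p'), ?_, ?_, ?_, ?_, ?_⟩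
    · have h1 := hq1.dd one
      have h2 := LZ_dd_dd (IsTw.one S) w
      rw [← io_ddsmul]
      simp only [dd_sub] at h1 ⊢
      have h3 := hp.sub h1
      have h4 := h3.add h2
      exact io_eq h4 (by abel)
    · exact hp'.sub (hq2.dd one)
    · have h1 := LZ_dd_dd (IsTw.one R) q
      rw [dd_add]
      simp only [dd_sub]
      have h2 := hV₁.add h1
      exact io_eq h2 (by abel)
    · have h1 := LZ_dd_dd (IsTw.one (rho3 ⁻¹' R)) p'
      rw [dd_add]
      have h2 := hV₂.sub h1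
      exact io_eq h2 (by abel)
    · rw [← hI]
      refine (itg3_congr hχ ⟨V₂ + dd one p', LZ.empty _, ?_⟩).symm
      rw [sub_sub_cancel, sub_self]
      exact LZ.zero _
  have h1 := is_eq h hval
  have h2 := is_map h (AddMonoidHom.mulRight (v 0)) (io_cock h)
  have h3 : cmap (AddMonoidHom.mulRight (v 0)) (dd one k) = smulC (dd one k) (v 0) := by
    funext t
    show dd one k t * v 0 = dd one k t • v 0
    rw [smul_eq_mul]
  rw [h3, h1] at h2
  exact Int.eq_one_or_neg_one_of_mul_eq_one h2.symm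

private theorem io_c0 {A : Type} [AddCommGroup A] (b : E3 → ℤ) (a : A) {T : Set E3}
    (hb : ∀ x ∈ T, ∀ᶠ t in 𝓝 (fun _ : Fin 2 => x), nS S R (t 0) (t 1) = b (t 1) - b (t 0)) :
    LZ T (smulC (nC S R) a - dd one (fun t : Fin 1 → E3 => b (t 0) • a)) := by
  intro x hx
  filter_upwards [hb x hx] with t ht
  show nS S R (t 0) (t 1) • a - ((one (t 0) (t 1) : ℤˣ) • (b (t 1) • a) +
    ∑ i : Fin 1, (-1 : ℤ) ^ ((i : ℕ) + 1) • (b (t (i.succ.succAbove 0)) • a)) = 0
  rw [ht, Fin.sum_univ_one]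
  have h1 : ((0 : Fin 1).succ.succAbove 0 : Fin 2) = 0 := rfl
  rw [h1]
  simp only [one, sub_smul, one_smul, Fin.val_zero, zero_add, pow_one, neg_smul]
  abel

private theorem io_leib (h : Geo3 K S R g u k α β) {A : Type} [AddCommGroup A]
    (b : Coch E3 A 0) : LZ univ (dd one (cup (rfl : 2 + 0 = 2) (one : E3 → E3 → ℤˣ) (dd one k) b) -
      cup (rfl : 2 + 1 = 3) (one : E3 → E3 → ℤˣ) (dd one k) (dd one b)) := by
  have h1 := cup_leib (S := univ) (Z := K) (τ := (one : E3 → E3 → ℤˣ)) (rfl : 2 + 0 = 2)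
    (rfl : 2 + 1 + 0 = 2 + 1) (rfl : 2 + (0 + 1) = 2 + 1) (IsTw.one _) (io_ddk h) b
  have h2 : dd (invt (one : E3 → E3 → ℤˣ)) (dd one k) = dd one (dd one k) := by
    congr 1
  rw [h2] at h1
  have h3 : LZ univ (cup (rfl : 2 + 1 + 0 = 2 + 1) (one : E3 → E3 → ℤˣ) (dd one (dd one k)) b) :=
    cup_left _ (LZ_dd_dd (IsTw.one univ) k) b
  have h4 := h1.add h3
  refine io_eq h4 ?_
  simp only [even_two, Even.neg_pow, one_pow, one_smul, Nat.add_zero]
  abel

theorem lk_one (h : Geo3 K S R g u k α β) {A : Type} [AddCommGroup A] (a : A) :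
    Itg3 (cup (rfl : 2 + 1 = 3) (one : E3 → E3 → ℤˣ) (dd one k) (smulC (nC S R) a)) =
      IS S R (dd one k) • a := by
  set T : Coch E3 A 3 := cup (rfl : 2 + 1 = 3) (one : E3 → E3 → ℤˣ) (dd one k) (smulC (nC S R) a)
    with hT
  set b : Coch E3 A 0 := fun t => bR S R (t 0) • a with hb
  set b' : Coch E3 A 0 := fun t => bR' S R (t 0) • a with hb'
  set P : Coch E3 A 2 := cup (rfl : 2 + 0 = 2) (one : E3 → E3 → ℤˣ) (dd one k) b with hP
  set P' : Coch E3 A 2 := cup (rfl : 2 + 0 = 2) (one : E3 → E3 → ℤˣ) (dd one k) b' with hP'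
  have both : ∀ {Q : Set E3} {n : ℕ} {φ : Coch E3 A n}, LZ (Q \ K) φ → LZ K φ → LZ Q φ := by
    intro Q n φ h1 h2 x hx
    by_cases hk : x ∈ K
    · exact h2 x hk
    · exact h1 x ⟨hx, hk⟩
  have hTR : LZ R (T - dd one P) := by
    have h1 : LZ R (cup (rfl : 2 + 1 = 3) (one : E3 → E3 → ℤˣ) (dd one k)
        (smulC (nC S R) a - dd one b)) :=
      both (cup_right _ _ (io_c0 (bR S R) a (ns_R h))) (cup_left _ (io_ddk h) _)
    rw [cup_sub_right] at h1
    have h2 := h1.sub ((io_leib h b).mono (subset_univ R))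
    exact io_eq h2 (by abel)
  have hTR' : LZ (rho3 ⁻¹' R) (T - dd one P') := by
    have h1 : LZ (rho3 ⁻¹' R) (cup (rfl : 2 + 1 = 3) (one : E3 → E3 → ℤˣ) (dd one k)
        (smulC (nC S R) a - dd one b')) :=
      both (cup_right _ _ (io_c0 (bR' S R) a (ns_R' h))) (cup_left _ (io_ddk h) _)
    rw [cup_sub_right] at h1
    have h2 := h1.sub ((io_leib h b').mono (subset_univ (rho3 ⁻¹' R)))
    exact io_eq h2 (by abel)
  have hcT : LZ univ (dd one T) := by
    refine isd_univ h ?_ ?_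
    · have h1 := hTR.dd one
      rw [dd_sub] at h1
      have h2 := h1.add (LZ_dd_dd (IsTw.one R) P)
      rwa [sub_add_cancel] at h2
    · have h1 := hTR'.dd one
      rw [dd_sub] at h1
      have h2 := h1.add (LZ_dd_dd (IsTw.one (rho3 ⁻¹' R)) P')
      rwa [sub_add_cancel] at h2
  have hsm : LZ K (smulC (dd one k) a) := by
    intro x hx
    filter_upwards [io_ddk h x hx] with t ht
    simp [smulC, ht]
  have hval : ISval S R (smulC (dd one k) a) (Itg3 T) := by
    refine ⟨P - P', T - dd one P', ?_, ?_, ?_, hTR', ?_⟩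
    · rw [hP, hP', ← cup_sub_right]
      refine both ?_ ((cup_left _ (io_ddk h) _).sub hsm)
      intro x hx
      filter_upwards [ev_coord (n := 3) (br_S h x hx) 2] with t ht
      show dd one k (fun i => t ⟨i.1, by omega⟩) • ((one (t 0) (t ⟨2, by omega⟩) : ℤˣ) •
        (bR S R (t ⟨2 + 0, by omega⟩) • a - bR' S R (t ⟨2 + 0, by omega⟩) • a)) -
        dd one k t • a = 0
      have h1 : (⟨2 + 0, by omega⟩ : Fin 3) = 2 := rfl
      rw [h1, ht, ← sub_smul, add_sub_cancel_left, one_smul]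
      simp [one]
    · rw [hP, hP', ← cup_sub_right]
      refine both (cup_right _ _ ?_) (cup_left _ (io_ddk h) _)
      intro x hx
      filter_upwards [ev_coord (n := 1) (br_S' h x hx) 0] with t ht
      show bR S R (t 0) • a - bR' S R (t 0) • a = 0
      rw [ht.1, ht.2, sub_self]
    · have h1 := hTR
      rw [dd_sub]
      exact io_eq h1 (by abel)
    · refine (itg3_congr hcT ⟨P', LZ.empty _, ?_⟩).symm
      rw [sub_sub_cancel, sub_self]
      exact LZ.zero _
  have h1 := is_eq h hval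
  have h2 := is_map h ((zmultiplesHom A) a) (io_cock h)
  have h3 : cmap ((zmultiplesHom A) a) (dd one k) = smulC (dd one k) a := rfl
  rw [h3, h1] at h2
  exact h2

end PoolFbd
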