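import Pool.Agent.Work.MP_fbd21a_gt.JOp
import Pool.Agent.Work.MP_fbd21a_gt.SphI

/-! MODULE JRes. Restriction to the boundary sphere commutes with everything.
Context: Surf4, SymTw. For x ∈ Kᶜ (so io x ∉ F) near x: τ(io, io) = τ₃ (SymTw.res), η(io y) = η₃ y (resη; Kᶜ is
open), rb (io y) = io (rho3 y) (Surf4.bdry). For x ∈ K everything vanishes since φ vanishes near io x.
So all statements are pointwise near each point of E3.
res_itg: β ∈ Coc τ univ F in degree 2.. general: c, φ with c ∪ φ of degree 3 on Q 4 a cocycle near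
univ: its restriction to the sphere integrates to 0: Itg3 (pb io θ) = Itg (dd one θ) (itg3_ext) and
dd one θ is a germ which vanishes near univ (so a coboundary: Itg_cob). -/

open Topology Filter Set

namespace PoolFbd

variable {F : Set (Q 4)} {rb : Q 4 → Q 4} {K : Set E3} {τ : Q 4 → Q 4 → ℤˣ} {η : Q 4 → ℤˣ}
  {τ₃ : E3 → E3 → ℤˣ} {η₃ : E3 → ℤˣ}

private theorem jres_io (x : E3) : ContinuousAt io x := continuous_subtype_val.continuousAt

theorem res_lz (hS : Surf4 F rb K) {A : Type} [AddCommGroup A] {n : ℕ} {φ : Coch (Q 4) A n}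
    (h : LZ F φ) : LZ K (pb io φ) :=
  LZ.pb (fun x hx => ⟨jres_io x, (hS.fk x).1 hx⟩) h

theorem res_dd (hS : Surf4 F rb K) (hT : SymTw F rb τ η τ₃ η₃) {A : Type} [AddCommGroup A] {n : ℕ}
    {φ : Coch (Q 4) A n} (h : LZ F φ) : LZ univ (dd τ₃ (pb io φ) - pb io (dd τ φ)) := by
  intro x _
  by_cases hx : x ∈ K
  · have h1 : ZeroAt (dd τ₃ (pb io φ)) x := (res_lz hS h x hx).dd τ₃
    have h2 : ZeroAt (pb io (dd τ φ)) x := res_lz hS (h.dd τ) x hx
    filter_upwards [h1, h2] with t e1 e2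
    rw [Pi.sub_apply, e1, e2, sub_zero]
  · have hx' : x.1 ∉ F := fun hF => hx ((hS.fk x).2 hF)
    have h1 := (tendsto_face (fun j : Fin 2 => (⟨j.1, by omega⟩ : Fin (n + 1 + 1))) x).eventually
      (hT.res x hx')
    filter_upwards [h1] with t ht
    have ht' : τ (io (t 0)) (io (t 1)) = τ₃ (t 0) (t 1) := ht
    rw [Pi.sub_apply, sub_eq_zero]
    show τ₃ (t 0) (t 1) • φ (fun j => io (t j.succ)) +
        ∑ i : Fin (n + 1), (-1 : ℤ) ^ ((i : ℕ) + 1) • φ (fun j => io (t (i.succ.succAbove j))) =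
      τ (io (t 0)) (io (t 1)) • φ (fun j => io (t j.succ)) +
        ∑ i : Fin (n + 1), (-1 : ℤ) ^ ((i : ℕ) + 1) • φ (fun j => io (t (i.succ.succAbove j)))
    rw [ht']

theorem res_coc (hS : Surf4 F rb K) (hT : SymTw F rb τ η τ₃ η₃) {A : Type} [AddCommGroup A] {n : ℕ}
    {φ : Coch (Q 4) A n} (h : Coc τ univ F φ) : Coc τ₃ univ K (pb io φ) :=
  ⟨res_lz hS h.1, LZ.congr (res_dd hS hT h.1)
    (LZ.pb (fun x _ => ⟨jres_io x, mem_univ _⟩) h.2)⟩

theorem res_cob (hS : Surf4 F rb K) (hT : SymTw F rb τ η τ₃ η₃) {A : Type} [AddCommGroup A] {n : ℕ}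
    {φ : Coch (Q 4) A n} (h : Cob τ univ F φ) : Cob τ₃ univ K (pb io φ) := by
  cases n with
  | zero => exact LZ.pb (S := univ) (S' := univ) (fun x _ => ⟨jres_io x, mem_univ _⟩) h
  | succ n =>
    obtain ⟨ψ, h1, h2⟩ := h
    refine ⟨pb io ψ, res_lz hS h1, ?_⟩
    have h3 : LZ univ (pb io φ - pb io (dd τ ψ)) :=
      LZ.pb (S := univ) (S' := univ) (φ := φ - dd τ ψ) (fun x _ => ⟨jres_io x, mem_univ _⟩) h2
    exact h3.trans (res_dd hS hT h1).symm

theorem res_j (hS : Surf4 F rb K) (hT : SymTw F rb τ η τ₃ η₃) {A : Type} [AddCommGroup A] {n : ℕ}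
    {φ : Coch (Q 4) A n} (h : LZ F φ) :
    LZ univ (pb io (Jop η rb φ) - Jop η₃ rho3 (pb io φ)) := by
  have hr : ∀ y : E3, rb (io y) = io (rho3 y) := fun y => hS.bdry y.1 y.2
  have e1 : ∀ t : Fin (n + 1) → E3, (pb io (Jop η rb φ) - Jop η₃ rho3 (pb io φ)) t =
      η (io (t 0)) • φ (fun j => rb (io (t j))) - η₃ (t 0) • φ (fun j => rb (io (t j))) := by
    intro t
    show η (io (t 0)) • φ (fun j => rb (io (t j))) - η₃ (t 0) • φ (fun j => io (rho3 (t j))) = _
    simp only [hr]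
  intro x _
  by_cases hx : x ∈ K
  · have h1 := j_lz (η := η) hS.cont (fun y hy => (hS.inv y).1 hy) h
    have h2 : ZeroAt φ (rb (io x)) := h _ ((hS.inv _).1 ((hS.fk x).1 hx))
    have h3 : ContinuousAt (fun y : E3 => rb (io y)) x :=
      (hS.cont.comp continuous_subtype_val).continuousAt
    have h4 := (tendsto_pb (n := n + 1) h3).eventually h2
    filter_upwards [h4] with t ht
    rw [e1]
    have ht' : φ (fun j => rb (io (t j))) = 0 := ht
    rw [ht', smul_zero, smul_zero, sub_zero]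
  · have hx' : x.1 ∉ F := fun hF => hx ((hS.fk x).2 hF)
    have hopen : IsOpen {y : E3 | y.1 ∉ F} :=
      (hS.tame.1.isOpen_compl).preimage continuous_subtype_val
    have h1 : ∀ᶠ t in 𝓝 (fun _ : Fin (n + 1) => x), (t 0).1 ∉ F :=
      ((continuous_apply (0 : Fin (n + 1))).tendsto (fun _ : Fin (n + 1) => x)).eventually
        (hopen.mem_nhds hx')
    filter_upwards [h1] with t ht
    rw [e1, hT.resη (t 0) ht, sub_self]

theorem res_cup (hS : Surf4 F rb K) (hT : SymTw F rb τ η τ₃ η₃) {R D : Type} [CommRing R]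
    [AddCommGroup D] [Module R D] {q p m : ℕ} (hqp : q + p = m) {c : Coch (Q 4) R q}
    (hc : LZ F c) (φ : Coch (Q 4) D p) :
    LZ univ (pb io (cup hqp (upt R τ) c φ) - cup hqp (upt R τ₃) (pb io c) (pb io φ)) := by
  intro x _
  have e1 : ∀ t : Fin (m + 1) → E3, pb io (cup hqp (upt R τ) c φ) t =
      c (fun i => io (t ⟨i.1, by omega⟩)) •
        (τ (io (t 0)) (io (t ⟨q, by omega⟩)) • φ (fun j => io (t ⟨q + j.1, by omega⟩))) := by
    intro t
    unfold pb cup
    rw [upt_smul]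
  have e2 : ∀ t : Fin (m + 1) → E3, cup hqp (upt R τ₃) (pb io c) (pb io φ) t =
      c (fun i => io (t ⟨i.1, by omega⟩)) •
        (τ₃ (t 0) (t ⟨q, by omega⟩) • φ (fun j => io (t ⟨q + j.1, by omega⟩))) := by
    intro t
    unfold cup
    rw [upt_smul]
    rfl
  by_cases hx : x ∈ K
  · have h0 := res_lz hS hc x hx
    have h1 := (tendsto_face (fun i : Fin (q + 1) => (⟨i.1, by omega⟩ : Fin (m + 1))) x).eventually
      h0
    filter_upwards [h1] with t ht
    have ht' : c (fun i => io (t ⟨i.1, by omega⟩)) = 0 := ht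
    rw [Pi.sub_apply, e1, e2, ht', zero_smul, zero_smul, sub_zero]
  · have hx' : x.1 ∉ F := fun hF => hx ((hS.fk x).2 hF)
    have h1 := (tendsto_face (fun j : Fin 2 => (if j = 0 then 0 else ⟨q, by omega⟩ :
      Fin (m + 1))) x).eventually (hT.res x hx')
    filter_upwards [h1] with t ht
    have ht' : τ (io (t 0)) (io (t ⟨q, by omega⟩)) = τ₃ (t 0) (t ⟨q, by omega⟩) := ht
    rw [Pi.sub_apply, e1, e2, ht', sub_self]

private theorem jres_pbdd {A : Type} [AddCommGroup A] {θ : Coch (Q 4) A 3}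
    (h : LZ (bd 4) (dd one θ)) : LZ univ (dd one (pb io θ)) := by
  have h1 : dd one (pb io θ) = pb io (dd one θ) := dd_pb io one θ
  rw [h1]
  exact LZ.pb (fun x _ => ⟨jres_io x, x.2⟩) h

/-- The boundary integral of a product of two classes which extend over the four-cube is zero. -/
theorem res_itg (hS : Surf4 F rb K) (hT : SymTw F rb τ η τ₃ η₃) {R D : Type} [CommRing R]
    [AddCommGroup D] [Module R D] {q p : ℕ} (hqp : q + p = 3) {c : Coch (Q 4) R q}
    (hc : Coc τ univ F c) {φ : Coch (Q 4) D p} (hφ : LZ Fᶜ (dd τ φ)) :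
    Itg3 (cup hqp (upt R τ₃) (pb io c) (pb io φ)) = 0 := by
  have hsub : univ \ F ⊆ Fᶜ := fun x hx => hx.2
  have h1 := cup_coc (S := univ) (Z := F) (τ := upt R τ) hqp
    ((istw_upt hT.tw).mono hsub) (c := c) (φ := φ)
    (by rw [invt_upt]; exact (coc_upt τ _ _ c).2 hc)
    (by rw [dd_upt]; exact hφ.mono hsub)
  have h2 : LZ (bd 4) (dd one (cup hqp (upt R τ) c φ)) := h1.2.mono (subset_univ _)
  have h3 := itg3_ext h2
  rw [Itg_cob (Cob.of_LZ h1.2)] at h3
  rw [h3]
  exact (itg3_congr (jres_pbdd h2) (Cob.of_LZ (res_cup hS hT hqp hc.1 φ))).symm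

/-- Stokes: `w` is zero near `F` and a cocycle near the boundary, `φ` a cocycle off `F`. -/
theorem stokes (hS : Surf4 F rb K) (hT : SymTw F rb τ η τ₃ η₃) {R D : Type} [CommRing R]
    [AddCommGroup D] [Module R D] {q p : ℕ} (hqp : q + p = 3) (h' : q + 1 + p = 4)
    {w : Coch (Q 4) R q} (hw : LZ F w) (hw' : LZ (bd 4) (dd τ w)) {φ : Coch (Q 4) D p}
    (hφ : LZ Fᶜ (dd τ φ)) :
    Itg (cup h' (upt R τ) (dd τ w) φ) = Itg3 (cup hqp (upt R τ₃) (pb io w) (pb io φ)) := by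
  have hsub : univ \ F ⊆ Fᶜ := fun x hx => hx.2
  have hleib := cup_leib (S := univ) (Z := F) (τ := upt R τ) hqp h' (by omega)
    ((istw_upt hT.tw).mono hsub) hw φ
  rw [invt_upt, dd_upt, dd_upt] at hleib
  have hz : LZ univ (cup (show q + (p + 1) = 3 + 1 by omega) (upt R τ) w (dd τ φ)) := by
    have a1 : LZ F (cup (show q + (p + 1) = 3 + 1 by omega) (upt R τ) w (dd τ φ)) :=
      cup_left _ hw _
    have a2 : LZ Fᶜ (cup (show q + (p + 1) = 3 + 1 by omega) (upt R τ) w (dd τ φ)) :=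
      cup_right _ _ hφ
    have := a1.union a2
    rwa [union_compl_self] at this
  have hz2 : LZ univ ((-1 : ℤ) ^ q •
      cup (show q + (p + 1) = 3 + 1 by omega) (upt R τ) w (dd τ φ)) := fun x hx => by
    filter_upwards [hz x hx] with t ht
    rw [Pi.smul_apply, ht, smul_zero]
  have h1 : LZ univ (dd one (cup hqp (upt R τ) w φ) - cup h' (upt R τ) (dd τ w) φ) := by
    have := hleib.add hz2
    refine LZ.congr ?_ this
    have e : ∀ (a b d : Coch (Q 4) D 4), a - b - (a - (b + d) + d) = 0 := by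
      intro a b d; abel
    rw [e]
    exact LZ.zero _
  have h2 : LZ (bd 4) (dd one (cup hqp (upt R τ) w φ)) :=
    LZ.congr (h1.mono (subset_univ _)) (cup_left _ hw' φ)
  have h3 := itg3_ext h2
  have h4 : Coc one univ (bd 4) (dd one (cup hqp (upt R τ) w φ)) :=
    ⟨h2, LZ_dd_dd (IsTw.one univ) _⟩
  rw [← Itg_congr h4 (Cob.of_LZ h1), h3]
  exact itg3_congr (jres_pbdd h2) (Cob.of_LZ (res_cup hS hT hqp hw φ))

end PoolFbd
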