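import Pool.Agent.Work.MP_fbd21a_gt.CGlue
import Pool.Agent.Work.MP_fbd21a_gt.Thet

/-! MODULE KTwo. The two classes of KFacts.two.
zj_exists: PROOF. Let u' = cast of u j to R5 (smulC (u j) 1). Glue u' (near S) and 0 (near S' = rho3⁻¹ S) to ξ
(closed; S ∩ S' = K, u' zero near K): ξ = u' near S, 0 near S', zero near K. dd one ξ vanishes near S (u j is a
cocycle near S: Grph) and near S'. So θ (dd one ξ) = 0 near S and cg_glue gives z with
gau σ z = dd one ξ near R; cg_coc: dd τ z = 0 near univ. θ ξ = u' near S (pb rho3 ξ vanishes near S).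
kf_two: PROOF. u z₁ + v z₂ = dd τ ψ near univ, ψ zero near K; replace ψ by cpr ψ (cpr_dd, cpr_id: the left
side is in the c-part). ψ₁ = gau σ ψ: dd one ψ₁ = a₁ dd ξ₁ + a₂ dd ξ₂ near R (cg_dd), (a₁, a₂) = (u, v). So
ψ₁ - Σ a_j ξ_j is a relative cocycle of (R, K): rel_H1: = Σ g_i v_i + coboundary of (R,K). Apply θ (th_lin,
th_cob, cg_theta: θ ψ₁ = 0 near S, θ ξ_j = u_j): -Σ_j a_j u_j ~ Σ_j u_j (v M)_j on (S, K). rel_H1u:
a_j = - (v M)_j = -Σ_i M_ij v_i, divisible by 5 since all M_ij are. -/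

open Topology Filter Set

namespace PoolFbd

variable {K S R : Set E3} {g u : Fin 2 → Coch E3 ℤ 1} {k : Coch E3 ℤ 1}
  {α β : Matrix (Fin 2) (Fin 2) ℤ} {c : R5}

private theorem kt_u (w : ℤˣ) (a : R5) {A : Type} [AddCommGroup A] [Module R5 A] (x : A) :
    w • (a • x) = a • (w • x) := by
  rcases Int.units_eq_one_or w with h | h
  · rw [h, one_smul, one_smul]
  · rw [h, Units.smul_def, Units.smul_def]
    simp

private theorem kt_gau_smul (σ : E3 → ℤˣ) (a : R5) {n : ℕ} (φ : Coch E3 R5 n) :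
    gau σ (a • φ) = a • gau σ φ := by
  funext t
  exact kt_u _ _ _

private theorem kt_th_smul (a : R5) {n : ℕ} (φ : Coch E3 R5 n) :
    tht c (a • φ) = a • tht c φ := by
  funext t
  show a • φ t + c • a • φ _ = a • (φ t + c • φ _)
  rw [smul_add, smul_comm c a]

private theorem kt_lz_smul {T : Set E3} (a : R5) {n : ℕ} {φ : Coch E3 R5 n} (h : LZ T φ) :
    LZ T (a • φ) := fun x hx => by
  filter_upwards [h x hx] with t ht
  rw [Pi.smul_apply, ht, smul_zero]

theorem zj_exists (h : Geo3 K S R g u k α β) (hc : c * c = -1) (j : Fin 2) :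
    ∃ (ξ : Coch E3 R5 1) (z : Coch E3 R5 2), LZ K ξ ∧ LZ R (gau (sigR S R) z - dd one ξ) ∧
      LZ S (tht c ξ - smulC (u j) (1 : R5)) ∧ Coc (tauS S R) univ K z ∧
      CPart (epsR S R) rho3 c z := by
  have hu' : LZ K (smulC (u j) (1 : R5)) := th_smulC_lz (h.uK j) 1
  have hdu : LZ S (dd one (smulC (u j) (1 : R5))) := by
    have h1 := th_smulC_lz (h.uS.2.1 j) (1 : R5)
    have e : dd one (smulC (u j) (1 : R5)) = smulC (dd one (u j)) (1 : R5) := by
      have := dd_cmap (one : E3 → E3 → ℤˣ) (u j) (Int.castAddHom R5) (fun w a => by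
        rw [Units.smul_def, Units.smul_def, map_zsmul])
      have e1 : ∀ {m : ℕ} (f : Coch E3 ℤ m), cmap (Int.castAddHom R5) f = smulC f (1 : R5) := by
        intro m f
        funext t
        show ((f t : ℤ) : R5) = f t • (1 : R5)
        simp
      rw [e1, e1] at this
      exact this
    rw [e]
    exact h1
  obtain ⟨ξ, h1, h2⟩ := glue (Sepd.closed h.cS (h.cS.preimage rho3_cont))
    (smulC (u j) (1 : R5)) 0 (by rw [h.SS, sub_zero]; exact hu')
  rw [sub_zero] at h2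
  have hξK : LZ K ξ := LZ.congr (h1.mono h.KS) hu'
  have hX1 : LZ S (dd one ξ) := by
    have h3 := (LZ.dd h1 one).add hdu
    rwa [dd_sub, sub_add_cancel] at h3
  have hX2 : LZ (rho3 ⁻¹' S) (dd one ξ) := h2.dd one
  have hth : ∀ {m : ℕ} {f : Coch E3 R5 m}, LZ (rho3 ⁻¹' S) f → LZ S (tht c f - f) := by
    intro m f hf x hx
    have hx2 : rho3 x ∈ rho3 ⁻¹' S := by
      show rho3 (rho3 x) ∈ S
      rw [rho3_rho3]
      exact hx
    have h3 := (tendsto_pb (n := m + 1) (f := rho3) (x := x) rho3_cont.continuousAt).eventually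
      (hf (rho3 x) hx2)
    filter_upwards [h3] with t a
    show f t + c • f (fun j => rho3 (t j)) - f t = 0
    rw [a, smul_zero, add_zero, sub_self]
  obtain ⟨z, z1, z2, z3⟩ := cg_glue h hc (φ₁ := dd one ξ) (hξK.dd one)
    (LZ.congr (hth hX2) hX1)
  refine ⟨ξ, z, hξK, z3, LZ.trans (hth h2) h1, ⟨z1, ?_⟩, z2⟩
  rw [cg_coc h hc z1 z2]
  have h4 := (z3.dd one).add (LZ_dd_dd (IsTw.one R) ξ)
  rwa [dd_sub, sub_add_cancel] at h4

theorem kf_two (h : Geo3 K S R g u k α β) (hc : c * c = -1)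
    (hM : ∀ i j, (5 : R5) ∣ mat5 c α β i j) {ξ₁ ξ₂ : Coch E3 R5 1} {z₁ z₂ : Coch E3 R5 2}
    (x1 : LZ K ξ₁) (x2 : LZ K ξ₂) (y1 : LZ R (gau (sigR S R) z₁ - dd one ξ₁))
    (y2 : LZ R (gau (sigR S R) z₂ - dd one ξ₂)) (t1 : LZ S (tht c ξ₁ - smulC (u 0) (1 : R5)))
    (t2 : LZ S (tht c ξ₂ - smulC (u 1) (1 : R5))) (c1 : Coc (tauS S R) univ K z₁)
    (c2 : Coc (tauS S R) univ K z₂) (p1 : CPart (epsR S R) rho3 c z₁)
    (p2 : CPart (epsR S R) rho3 c z₂) (a b : R5)
    (hab : Cob (tauS S R) univ K (a • z₁ + b • z₂)) : (5 : R5) ∣ a ∧ (5 : R5) ∣ b := by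
  have _ := c1
  have _ := c2
  obtain ⟨ψ, hψK, hψ⟩ := hab
  obtain ⟨q, hq⟩ := half5
  have hrK : ∀ x ∈ K, rho3 x ∈ K := fun x hx => (geo_memK h x).1 hx
  set ψ' := cpr (epsR S R) rho3 c q ψ with hψ'
  have k1 : LZ K ψ' := cpr_lz rho3_cont hrK hψK
  have k2 : CPart (epsR S R) rho3 c ψ' :=
    cpr_cpart hc hq rho3_cont rho3_rho3 h.cK (fun x hx => eps_anti h hx) hψK
  have k3 : LZ univ (a • z₁ + b • z₂ - dd (tauS S R) ψ') := by
    have e1 : LZ univ (dd (tauS S R) ψ' - cpr (epsR S R) rho3 c q (dd (tauS S R) ψ)) :=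
      cpr_dd rho3_cont hrK (fun x hx => geo_equiv h hx.2) hψK
    have e2 : LZ univ (cpr (epsR S R) rho3 c q (a • z₁ + b • z₂) - (a • z₁ + b • z₂)) :=
      cpr_id hc hq (cpart_add (cpart_smul a p1) (cpart_smul b p2))
    have e3 : LZ univ (cpr (epsR S R) rho3 c q (a • z₁ + b • z₂) -
        cpr (epsR S R) rho3 c q (dd (tauS S R) ψ)) := cpr_congr rho3_cont hψ
    exact (e2.symm.trans e3).trans e1.symm
  set ψ₁ := gau (sigR S R) ψ' with hψ₁
  have k4 : LZ K ψ₁ := k1.gau _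
  have k5 : LZ R (dd one ψ₁ - (a • dd one ξ₁ + b • dd one ξ₂)) := by
    have e1 := (cg_dd h k1).symm
    have e2 := (k3.mono (subset_univ R)).gau (sigR S R)
    rw [gau_sub] at e2
    have e2 := e2.symm
    have e3 := (kt_lz_smul a y1).add (kt_lz_smul b y2)
    have e4 := (e1.trans e2)
    have e5 : gau (sigR S R) (a • z₁ + b • z₂) - (a • dd one ξ₁ + b • dd one ξ₂) =
        a • (gau (sigR S R) z₁ - dd one ξ₁) + b • (gau (sigR S R) z₂ - dd one ξ₂) := by
      rw [gau_add, kt_gau_smul, kt_gau_smul]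
      module
    rw [← e5] at e3
    exact e4.trans e3
  -- the relative 1-cocycle of (R, K)
  have k6 : Coc one R K (ψ₁ - (a • ξ₁ + b • ξ₂)) := by
    refine ⟨k4.sub ((kt_lz_smul a x1).add (kt_lz_smul b x2)), ?_⟩
    rw [dd_sub, dd_add, th_dd_smul, th_dd_smul]
    exact k5
  obtain ⟨v, hv⟩ := rel_H1 (h.KS.trans h.SR) h.gR h.gK h.kK k6
  have k7 := th_cob (c := c) h hv
  have k8 := th_lin (c := c) h v
  have k9 : LZ S (tht c ψ₁) := cg_theta h hc k1 k2
  rw [th_sub, th_sub, th_add, kt_th_smul, kt_th_smul] at k7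
  have k10 : Cob one S K (tht c ψ₁) := Cob.of_LZ k9
  have k11 : Cob one S K (a • (tht c ξ₁ - smulC (u 0) (1 : R5)) +
      b • (tht c ξ₂ - smulC (u 1) (1 : R5))) :=
    Cob.of_LZ ((kt_lz_smul a t1).add (kt_lz_smul b t2))
  have k12 : Cob one S K (∑ j, smulC (u j) ((![a, b] : Fin 2 → R5) j +
      ∑ i, mat5 c α β i j • v i)) := by
    have e1 := ((k10.sub k7).sub k11).sub k8
    have e2 : tht c ψ₁ - (tht c ψ₁ - (a • tht c ξ₁ + b • tht c ξ₂) -
        tht c (∑ j, smulC (g j) (v j))) - (a • (tht c ξ₁ - smulC (u 0) (1 : R5)) +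
        b • (tht c ξ₂ - smulC (u 1) (1 : R5))) - (tht c (∑ i, smulC (g i) (v i)) -
        ∑ j, smulC (u j) (∑ i, mat5 c α β i j • v i)) =
        a • smulC (u 0) (1 : R5) + b • smulC (u 1) (1 : R5) +
          ∑ j, smulC (u j) (∑ i, mat5 c α β i j • v i) := by
      module
    rw [e2] at e1
    have e3 : ∑ j, smulC (u j) ((![a, b] : Fin 2 → R5) j + ∑ i, mat5 c α β i j • v i) =
        a • smulC (u 0) (1 : R5) + b • smulC (u 1) (1 : R5) +
          ∑ j, smulC (u j) (∑ i, mat5 c α β i j • v i) := by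
      funext t
      simp only [Fin.sum_univ_two, Pi.add_apply, Pi.smul_apply, smulC, Matrix.cons_val_zero,
        Matrix.cons_val_one, smul_add, zsmul_eq_mul, smul_eq_mul, mul_one]
      ring
    rw [e3]
    exact e1
  have k13 := rel_H1u h.uS k12
  have e0 := congrFun k13 0
  have e1 := congrFun k13 1
  simp only [Matrix.cons_val_zero, Matrix.cons_val_one, Pi.zero_apply] at e0 e1
  have hd : ∀ j, (5 : R5) ∣ ∑ i, mat5 c α β i j • v i := fun j =>
    Finset.dvd_sum fun i _ => Dvd.dvd.mul_right (hM i j) _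
  constructor
  · rw [eq_neg_of_add_eq_zero_left e0]
    exact (hd 0).neg_right
  · rw [eq_neg_of_add_eq_zero_left e1]
    exact (hd 1).neg_right

end PoolFbd
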