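import Pool.Agent.Work.MP_fbd21a_gt.Kap
import Pool.Agent.Work.MP_fbd21a_gt.Pd3
import Pool.Agent.Work.MP_fbd21a_gt.KTwo
import Pool.Agent.Work.MP_fbd21a_gt.Lv
import Pool.Agent.Work.MP_fbd21a_gt.Coef5

/-! MODULE KapU. The integer kap of kap_int is not divisible by 5.
PROOF. Suppose kap = 5 kap'. z, ξ from zj_exists for j = 0: z is not a relative coboundary (kf_two with
a = 1, b = 0 and the z of j = 1: 5 does not divide 1 in R5). cogen5 on Coch E3 R5 2 modulo the relative coboundaries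
vanishing near K: l with l z ≠ 0. psur3 (baer5, twist upt R5 τ, invt_upt etc.): a₀ with Itg3 (z ∪ a₀) = l z ≠ 0.
lv_surj on E3 (Tame K, K compact, KTw.nt + triv_ext + tame_conn for the hypothesis `nowhere
trivial`: given here as hn; dbl_D5): a₁ relative cocycle of (univ, K) with the same pairing. a = cpr a₁.
Itg3 (z ∪ J a₁) = c Itg3 (z ∪ a₁): Itg3 (J z ∪ J a₁) = Itg3 (pb rho3 (z ∪ a₁)) = - Itg3 (z ∪ a₁) (j_cup with
Z = K, itg3_rho) and J z = c z near univ. So Itg3 (z ∪ a) = h(1 - c·c) Itg3 (z ∪ a₁) = Itg3 (z ∪ a₁) ≠ 0.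
c1_vec for a: v with v M = 0 in D5 and gau σ a ~ Σ g_i v_i; kap_int with p = (1, 0):
Itg3 (z ∪ a) = 2 kap • Σ_i α i 1 • v i. By hypothesis h5v, 5 • v i = 0, so this is 2 kap' • Σ α i 1 • (5 • v i) = 0:
contradiction. -/

open Topology Filter Set

namespace PoolFbd

section aux
variable {K S R : Set E3} {g u : Fin 2 → Coch E3 ℤ 1} {k : Coch E3 ℤ 1}
    {α β : Matrix (Fin 2) (Fin 2) ℤ} {c : R5}

private theorem ku_smul_coc {n : ℕ} {Z : Set E3} {τ : E3 → E3 → ℤˣ} (r : R5) {φ : Coch E3 R5 n}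
    (h : LZ Z φ ∧ Cob τ univ Z φ) : LZ Z (r • φ) ∧ Cob τ univ Z (r • φ) := by
  have h0 : ∀ {m : ℕ} {T : Set E3} {χ : Coch E3 R5 m}, LZ T χ → LZ T (r • χ) := by
    intro m T χ hχ x hx
    filter_upwards [hχ x hx] with t ht
    rw [Pi.smul_apply, ht, smul_zero]
  refine ⟨h0 h.1, ?_⟩
  cases n with
  | zero => exact h0 h.2
  | succ n =>
    obtain ⟨ψ, a, b⟩ := h.2
    refine ⟨r • ψ, h0 a, ?_⟩
    have e1 : dd τ (r • ψ) = r • dd τ ψ := by
      rw [← dd_upt (R := R5), ← dd_upt (R := R5)]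
      funext t
      simp only [dd, Pi.smul_apply, smul_add, Finset.smul_sum]
      congr 1
      · exact smul_comm _ _ _
      · exact Finset.sum_congr rfl fun i _ => smul_comm _ _ _
    rw [e1, ← smul_sub]
    exact h0 b

/-- The relative coboundaries vanishing near `K`. -/
private def ku_N (K : Set E3) (τ : E3 → E3 → ℤˣ) : Submodule R5 (Coch E3 R5 2) where
  carrier := {x | LZ K x ∧ Cob τ univ K x}
  add_mem' h1 h2 := ⟨h1.1.add h2.1, h1.2.add h2.2⟩
  zero_mem' := ⟨LZ.zero _, Cob.zero _ _ _⟩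
  smul_mem' r _ h := ku_smul_coc r h

private theorem ku_compact (h : IsClosed K) : IsCompact K := by
  haveI : CompactSpace E3 := isCompact_iff_compactSpace.1 (bd_closed 4).isCompact
  exact h.isCompact

/-- A relative cocycle which is not a relative coboundary pairs nontrivially. -/
private theorem ku_pair (h : Geo3 K S R g u k α β) (ht : Tame K)
    (hn : ∀ p ∈ K, ¬ TrivAt (tauS S R) K p) {z : Coch E3 R5 2}
    (hz : Coc (tauS S R) univ K z) (hz' : ¬ Cob (tauS S R) univ K z) :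
    ∃ a : Coch E3 D5 1, Coc (tauS S R) univ K a ∧
      Itg3 (cup (rfl : 2 + 1 = 3) (upt R5 (tauS S R)) z a) ≠ 0 := by
  have hm : Submodule.Quotient.mk (p := ku_N K (tauS S R)) z ≠ 0 := by
    intro h0
    exact hz' ((Submodule.Quotient.mk_eq_zero _).1 h0).2
  obtain ⟨l, hl⟩ := cogen5 hm
  obtain ⟨a₀, ha1, ha2⟩ := psur3 baer5 h.cK (istw_upt (R := R5) (tau_tw h))
    (l ∘ₗ (ku_N K (tauS S R)).mkQ) (by
      intro x h1 h2
      rw [invt_upt, cob_upt] at h2
      have h3 : (ku_N K (tauS S R)).mkQ x = 0 := (Submodule.Quotient.mk_eq_zero _).2 ⟨h1, h2⟩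
      rw [LinearMap.comp_apply, h3, map_zero])
  rw [dd_upt] at ha1
  obtain ⟨a₁, hb1, hb2⟩ := lv_surj ht (ku_compact h.cK) (tau_tw h) hn dbl_D5 ha1
  refine ⟨a₁, hb1, ?_⟩
  have hzc : Coc (invt (upt R5 (tauS S R))) univ K z := by
    rw [invt_upt, coc_upt]
    exact hz
  have h1 := ha2 z hzc
  have htw : IsTw (univ \ K) (upt R5 (tauS S R)) := by
    refine (istw_upt (tau_tw h)).mono ?_
    exact fun x hx => hx.2
  have h2 : Cob one univ K (cup (rfl : 2 + 1 = 3) (upt R5 (tauS S R)) z (a₀ - a₁)) := by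
    refine cup_cob_right _ htw hzc ?_
    rw [cob_upt]
    exact hb2.mono (fun x hx => hx.2) (subset_refl _)
  rw [cup_sub_right] at h2
  have h3 : LZ univ (dd one (cup (rfl : 2 + 1 = 3) (upt R5 (tauS S R)) z a₀)) := by
    refine (cup_coc _ htw hzc ?_).2
    rw [dd_upt]
    exact ha1.mono fun x hx => hx.2
  rw [← itg3_congr h3 (h2.mono (subset_refl _) (empty_subset _)), h1]
  exact hl

private theorem ku_coc_cup (h : Geo3 K S R g u k α β) {z : Coch E3 R5 2} {D : Type}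
    [AddCommGroup D] [Module R5 D] {a : Coch E3 D 1}
    (hz : Coc (tauS S R) univ K z) (ha : Coc (tauS S R) univ K a) :
    LZ univ (dd one (cup (rfl : 2 + 1 = 3) (upt R5 (tauS S R)) z a)) := by
  have htw : IsTw (univ \ K) (upt R5 (tauS S R)) := by
    refine (istw_upt (tau_tw h)).mono ?_
    exact fun x hx => hx.2
  refine (cup_coc _ htw (Z := K) ?_ ?_).2
  · rw [invt_upt, coc_upt]
    exact hz
  · rw [dd_upt]
    exact ha.2.mono (subset_univ _)

/-- The projection to the c-part does not change the pairing with a class of the c-part. -/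
private theorem ku_cpr (h : Geo3 K S R g u k α β) (hc : c * c = -1) {hh : R5}
    (hh2 : hh + hh = 1) {z : Coch E3 R5 2} (hz : Coc (tauS S R) univ K z)
    (hzc : CPart (epsR S R) rho3 c z) {a : Coch E3 D5 1} (ha : Coc (tauS S R) univ K a) :
    Itg3 (cup (rfl : 2 + 1 = 3) (upt R5 (tauS S R)) z (cpr (epsR S R) rho3 c hh a)) =
      Itg3 (cup (rfl : 2 + 1 = 3) (upt R5 (tauS S R)) z a) := by
  have hK : ∀ x ∈ K, rho3 x ∈ K := fun x hx => (geo_memK h x).1 hx
  have heq : ∀ x ∈ Kᶜ, ∀ᶠ t in 𝓝 (fun _ : Fin 2 => x), tauS S R (rho3 (t 0)) (rho3 (t 1)) =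
      epsR S R (t 0) * tauS S R (t 0) (t 1) * epsR S R (t 1) := fun x hx => geo_equiv h hx
  set Ja := Jop (epsR S R) rho3 a with hJa
  have hJc : Coc (tauS S R) univ K Ja :=
    j_coc rho3_cont (fun _ _ => mem_univ _) hK (fun x hx => geo_equiv h hx.2) ha
  have c1 := ku_coc_cup h hz ha
  have c2 := ku_coc_cup h hz hJc
  have e1 := j_cup (rfl : 2 + 1 = 3) rho3_cont hK heq hz.1 a
  have e2 : LZ univ (cup (rfl : 2 + 1 = 3) (upt R5 (tauS S R))
      (Jop (epsR S R) rho3 z - c • z) Ja) := cup_left _ hzc _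
  rw [cup_sub_left, cup_smul_left] at e2
  have e4 : LZ univ (c • cup (rfl : 2 + 1 = 3) (upt R5 (tauS S R)) z Ja -
      pb rho3 (cup (rfl : 2 + 1 = 3) (upt R5 (tauS S R)) z a)) := by
    have e3 := e1.sub e2
    rw [sub_sub_sub_cancel_left] at e3
    exact e3
  have c3 : LZ univ (dd one (c • cup (rfl : 2 + 1 = 3) (upt R5 (tauS S R)) z Ja)) := by
    have h1 : LZ univ (dd one (pb rho3 (cup (rfl : 2 + 1 = 3) (upt R5 (tauS S R)) z a))) := by
      have h2 : LZ univ (pb rho3 (dd one (cup (rfl : 2 + 1 = 3) (upt R5 (tauS S R)) z a))) :=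
        c1.pb fun x _ => ⟨rho3_cont.continuousAt, mem_univ _⟩
      exact h2
    have h3 := e4.dd one
    rw [dd_sub] at h3
    have h4 := h3.add h1
    rwa [sub_add_cancel] at h4
  have e5 : c • Itg3 (cup (rfl : 2 + 1 = 3) (upt R5 (tauS S R)) z Ja) =
      - Itg3 (cup (rfl : 2 + 1 = 3) (upt R5 (tauS S R)) z a) := by
    rw [← itg3_smul c c2, itg3_congr c3 (Cob.of_LZ e4), itg3_rho c1]
  have e6 : cup (rfl : 2 + 1 = 3) (upt R5 (tauS S R)) z (cpr (epsR S R) rho3 c hh a) =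
      hh • (cup (rfl : 2 + 1 = 3) (upt R5 (tauS S R)) z a -
        c • cup (rfl : 2 + 1 = 3) (upt R5 (tauS S R)) z Ja) := by
    rw [cpr, cup_smul_right, cup_sub_right, cup_smul_right]
  have c4 : LZ univ (dd one (cup (rfl : 2 + 1 = 3) (upt R5 (tauS S R)) z a -
        c • cup (rfl : 2 + 1 = 3) (upt R5 (tauS S R)) z Ja)) := by
    rw [dd_sub]
    exact c1.sub c3
  rw [e6, itg3_smul hh c4, itg3_sub c1 c3, itg3_smul c c2, e5, sub_neg_eq_add, ← two_smul R5,
    ← mul_smul]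
  have h7 : hh * 2 = 1 := by rw [mul_two, hh2]
  rw [h7, one_smul]

end aux

theorem kap_unit {K S R : Set E3} {g u : Fin 2 → Coch E3 ℤ 1} {k : Coch E3 ℤ 1}
    {α β : Matrix (Fin 2) (Fin 2) ℤ} {c : R5} (h : Geo3 K S R g u k α β) (hc : c * c = -1)
    (ht : Tame K) (hn : ∀ p ∈ K, ¬ TrivAt (tauS S R) K p)
    (hM : ∀ i j, (5 : R5) ∣ mat5 c α β i j)
    (h5v : ∀ v : Fin 2 → D5, (∀ j, ∑ i, mat5 c α β i j • v i = 0) → ∀ i, (5 : R5) • v i = 0)
    {kap : ℤ} (hkap : ∀ (D : Type) [AddCommGroup D] [Module R5 D] (ξ : Coch E3 R5 1)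
      (x : Coch E3 R5 2) (y : Coch E3 D 1) (p : Fin 2 → R5) (v : Fin 2 → D), LZ K ξ →
      Coc (tauS S R) univ K x → CPart (epsR S R) rho3 c x →
      LZ R (gau (sigR S R) x - dd one ξ) → Coc (tauS S R) univ K y →
      CPart (epsR S R) rho3 c y → Cob one S K (tht c ξ - ∑ j, smulC (u j) (p j)) →
      Cob one R K (gau (sigR S R) y - ∑ i, smulC (g i) (v i)) →
      Itg3 (cup (rfl : 2 + 1 = 3) (upt R5 (tauS S R)) x y) =
        (2 * kap) • (p 0 • (∑ i, α i 1 • v i) - p 1 • (∑ i, α i 0 • v i))) :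
    ¬ (5 : ℤ) ∣ kap := by

  rintro ⟨kap', hk'⟩
  obtain ⟨ξ, z, x1, y1, t1, c1, p1⟩ := zj_exists h hc 0
  obtain ⟨ξ₂, z₂, x2, y2, t2, c2, p2⟩ := zj_exists h hc 1
  have hz' : ¬ Cob (tauS S R) univ K z := by
    intro h1
    have h2 : Cob (tauS S R) univ K ((1 : R5) • z + (0 : R5) • z₂) := by
      rw [one_smul, zero_smul, add_zero]
      exact h1
    have h3 := (kf_two h hc hM x1 x2 y1 y2 t1 t2 c1 c2 p1 p2 1 0 h2).1
    have h4 : IsUnit (5 : R5) := isUnit_of_dvd_one h3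
    have h5 : (5 : R5) = ((5 : ℕ) : R5) := by norm_num
    rw [h5, PadicInt.isUnit_iff, PadicInt.norm_p] at h4
    norm_num at h4
  obtain ⟨a₁, ha1, ha2⟩ := ku_pair h ht hn c1 hz'
  obtain ⟨hh, hh2⟩ := half5
  have hK : ∀ x ∈ K, rho3 x ∈ K := fun x hx => (geo_memK h x).1 hx
  set a := cpr (epsR S R) rho3 c hh a₁ with had
  have hac : Coc (tauS S R) univ K a :=
    cpr_coc rho3_cont (fun _ _ => mem_univ _) hK (fun x hx => geo_equiv h hx.2) ha1
  have hap : CPart (epsR S R) rho3 c a :=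
    cpr_cpart hc hh2 rho3_cont rho3_rho3 h.cK (fun x hx => eps_anti h hx) ha1.1
  obtain ⟨v, hv1, hv2⟩ := c1_vec h hc hac hap
  have h5 := h5v v hv1
  have h6 := hkap D5 ξ z a ![1, 0] v x1 c1 p1 y1 hac hap (by
    refine Cob.of_LZ ?_
    have e1 : ∑ j, smulC (u j) ((![1, 0] : Fin 2 → R5) j) = smulC (u 0) (1 : R5) := by
      funext t
      simp [Fin.sum_univ_two, smulC]
    rw [e1]
    exact t1) hv2
  rw [had, ku_cpr h hc hh2 c1 p1 ha1] at h6
  apply ha2
  rw [h6, hk']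
  have h7 : ∀ w : D5, (5 : R5) • w = (5 : ℤ) • w := by
    intro w
    have : (5 : R5) = ((5 : ℤ) : R5) := by norm_num
    rw [this, Int.cast_smul_eq_zsmul]
  simp only [Matrix.cons_val_zero, Matrix.cons_val_one, one_smul, zero_smul, sub_zero,
    Fin.sum_univ_two]
  have h8 : (2 * (5 * kap')) • (α 0 1 • v 0 + α 1 1 • v 1) =
      (2 * kap') • (α 0 1 • ((5 : ℤ) • v 0) + α 1 1 • ((5 : ℤ) • v 1)) := by
    simp only [smul_add, ← mul_smul]
    congr 2 <;> ring
  rw [h8, ← h7, ← h7, h5, h5, smul_zero, smul_zero, add_zero, smul_zero]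

end PoolFbd
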