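import Pool.Agent.Work.MP_fbd21a_gt.TmLoc

/-! MODULE TmConn. For connected F the sign twist is nontrivial at all points of F or at none.
PROOF. T = {p ∈ F | TrivAt τ F p}: relatively open in F (the same N works for all points of
N ∩ F). F \ T is relatively open: p ∈ F not in T, take M from tameness (N = univ), pnb_twist,
pnb_nontriv: no point of F ∩ M is in T. F preconnected and F \ T nonempty, so T is empty
(IsPreconnected with the two open sets: union of the N, union of the M). -/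

open Topology Filter Set

namespace PoolFbd

theorem tame_conn {E : Type*} [TopologicalSpace E] {F : Set E} (hF : Tame F)
    (hc : IsPreconnected F) {τ : E → E → ℤˣ} (hτ : IsTw Fᶜ τ) {p₀ : E} (hp₀ : p₀ ∈ F)
    (hn : ¬ TrivAt τ F p₀) : ∀ p ∈ F, ¬ TrivAt τ F p := by
  intro p hp hp1
  set u : Set E := ⋃₀ {N | IsOpen N ∧ TrivOn τ (N \ F)} with hu
  set v : Set E := ⋃₀ {M | IsOpen M ∧ ∀ q ∈ F ∩ M, ¬ TrivAt τ F q} with hv
  have hou : IsOpen u := isOpen_sUnion fun N hN => hN.1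
  have hov : IsOpen v := isOpen_sUnion fun N hN => hN.1
  have huv : F ⊆ u ∪ v := by
    intro q hq
    by_cases hqt : TrivAt τ F q
    · left
      obtain ⟨N, hN, hqN, ht⟩ := hqt
      exact ⟨N, ⟨hN, ht⟩, hqN⟩
    · right
      obtain ⟨M, P₁, P₂, Q₁, Q₂, hqM, -, h⟩ := hF.2 q hq univ isOpen_univ (mem_univ _)
      refine ⟨M, ⟨h.oM, fun r hr => ?_⟩, hqM⟩
      obtain ⟨σ₁, σ₂, t1, t2, t3, t4⟩ := pnb_twist h
        (hτ.mono fun x hx => hx.2) ⟨hq, hqM⟩ hqt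
      exact pnb_nontriv h t1 t2 t3 t4 hr
  obtain ⟨N, hN, hpN, ht⟩ := hp1
  have h1 : (F ∩ u).Nonempty := ⟨p, hp, N, ⟨hN, ht⟩, hpN⟩
  have h2 : (F ∩ v).Nonempty := by
    refine ⟨p₀, hp₀, ?_⟩
    rcases huv hp₀ with h | h
    · obtain ⟨N, ⟨hN, ht⟩, hpN⟩ := h
      exact absurd ⟨N, hN, hpN, ht⟩ hn
    · exact h
  obtain ⟨z, hzF, ⟨N', ⟨hN', ht'⟩, hzN'⟩, M', ⟨hM', hM2⟩, hzM'⟩ := hc u v hou hov huv h1 h2
  exact hM2 z ⟨hzF, hzM'⟩ ⟨N', hN', hzN', ht'⟩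

end PoolFbd
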