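import Pool.Agent.Work.MP_fbd21a_gt.TmBas
import Pool.Agent.Work.MP_fbd21a_gt.Gauge
import Pool.Agent.Work.MP_fbd21a_gt.Glue

/-! MODULE TmExt. Removable singularities: a sign twist off F which is trivial off F near every point
of F is trivial on the complement of F, if E is compact with Conn1.
PROOF. F compact. For each p ∈ F there are an open N_p ∋ p and σ_p with TrivBy τ (N_p \ F) σ_p. Take
a finite subcover N_1..N_m of F and a Lebesgue number: δ > 0 such that every ball B(p, δ), p ∈ F, is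
contained in some N_i. For every y with dist(y, F) < δ/2 choose i(y) with B(y, δ/2) ⊆ N_i(y)
(y is within δ/2 of some p ∈ F); V = {y | infDist y F < δ/2} open. For i, j and z ∈ F with
z ∈ N_i ∩ N_j let c_ij(z) = the constant value of σ_i σ_j on M_z \ F, M_z a small neighbourhood with
Conn0 (M_z \ F) inside N_i ∩ N_j (tame_conn0, trivBy_ratio, sign_const); it does not depend on M_z
(the intersection of two such punctured neighbourhoods contains a third one).
For z ∉ F: c_ij(z) = σ_i(z) σ_j(z).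
For points near p ∈ F: let M be a small Conn0 punctured neighbourhood inside the
intersection of the finitely many N_i with p ∈ N_i and in the ball B(p, δ/4): for y ∈ M one has
p ∈ B(y, δ/2) ⊆ N_i(y), and c_(i(x) i(y))(z) has the same value for all z ∈ M (in F or not).
Define the twist T on E: for x, y both in V: T(x,y) = c_(i(x) i(y))(y); for other pairs: if both are
not in F: g(x) τ(x,y) g(y) with g(x) = σ_i(x)(x) if x ∈ V and g = 1 if x ∉ V; else 1.
Near p ∈ F: T is a cocycle (c_ij c_jk = c_ik at the same z). Near q ∉ F: all points close to q are not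
in F; for x, y close to q, both in V: q need not be in V but c_(i(x)i(y))(y) = σ_i(x)(y) σ_i(y)(y)
and τ(x,y) = σ_i(x)(x) σ_i(x)(y) for x, y close to q (finitely many i; if i = i(x) occurs for x
arbitrarily close to q then q ∈ closure of points with B(x,δ/2) ⊆ N_i, so q ∈ N_i \ F and the
trivialisation σ_i holds near q; choose the neighbourhood of q so small that only such i occur), so
T(x,y) = g(x) τ(x,y) g(y) in all cases near q: a cocycle.
So IsTw univ T, and Conn1 univ applied to Additive ℤˣ: T(x,y) = s(x) s(y) near every point. Near q ∉ F: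
τ(x,y) = g(x) s(x) · g(y) s(y): TrivBy τ Fᶜ (g s). -/

open Topology Filter Set

namespace PoolFbd

private theorem dd_tw {E : Type*} (f : E → E → ℤˣ) (t : Fin (0 + 1 + 1 + 1) → E) :
    dd one (fun t : Fin (0 + 1 + 1) → E => Additive.ofMul (f (t 0) (t 1))) t =
      Additive.ofMul (f (t 1) (t 2) * f (t 0) (t 2) * f (t 0) (t 1)) := by
  have e1 : (fun j : Fin (0 + 1 + 1) => t ((Fin.succ 0 : Fin (0 + 1 + 1 + 1)).succAbove j)) 0 =
      t 0 := rfl
  have e2 : (fun j : Fin (0 + 1 + 1) => t ((Fin.succ 0 : Fin (0 + 1 + 1 + 1)).succAbove j)) 1 =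
      t 2 := rfl
  have e3 : (fun j : Fin (0 + 1 + 1) =>
      t ((Fin.succ (Fin.succ 0) : Fin (0 + 1 + 1 + 1)).succAbove j)) 0 = t 0 := rfl
  have e4 : (fun j : Fin (0 + 1 + 1) =>
      t ((Fin.succ (Fin.succ 0) : Fin (0 + 1 + 1 + 1)).succAbove j)) 1 = t 1 := rfl
  have e5 : t (Fin.succ (0 : Fin (0 + 1 + 1))) = t 1 := rfl
  have e6 : t (Fin.succ (1 : Fin (0 + 1 + 1))) = t 2 := rfl
  simp only [dd, one, one_smul, Fin.sum_univ_succ, Finset.univ_eq_empty, Finset.sum_empty,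
    add_zero, Fin.val_zero, zero_add, pow_one, neg_smul, Fin.val_succ] at e1 e2 e3 e4 ⊢
  rw [e1, e2, e3, e4, e5, e6]
  have h1 : -Additive.ofMul (f (t 0) (t 2)) = Additive.ofMul (f (t 0) (t 2)) := by
    rw [← ofMul_inv, Int.units_inv_eq_self]
  rw [h1, ofMul_mul, ofMul_mul]
  abel

private theorem units_ext1 (a b c : ℤˣ) (h : a * b = c) : b * c * a = 1 := by
  rw [← h]
  rcases Int.units_eq_one_or a with h1 | h1 <;> rcases Int.units_eq_one_or b with h2 | h2 <;>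
    rw [h1, h2] <;> decide

/-- Near a point of `F` the ratios of the trivialisations are constant. -/
private theorem ext_loc {E : Type*} [PseudoMetricSpace E] {F : Set E} (hF : Tame F)
    {τ : E → E → ℤˣ} {U : E → Set E} {σ : E → E → ℤˣ} {ε : ℝ} {s : Finset E} {i : E → E}
    (hUo : ∀ p ∈ s, IsOpen (U p)) (hσ : ∀ p ∈ s, TrivBy τ (U p \ F) (σ p))
    (hε : 0 < ε) (hi : ∀ y z, z ∈ F → dist y z < ε → i y ∈ s ∧ Metric.ball y ε ⊆ U (i y))
    {c : E → E → E → ℤˣ}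
    (hc0 : ∀ a b, ∀ y ∉ F, c a b y = σ a y * σ b y)
    (hc1 : ∀ a b, ∀ y ∈ F, (∃ M : Set E, IsOpen M ∧ y ∈ M ∧ ∀ x ∈ M \ F, σ a x * σ b x = 1) →
      c a b y = 1)
    (hc2 : ∀ a b, ∀ y ∈ F, (¬ ∃ M : Set E, IsOpen M ∧ y ∈ M ∧ ∀ x ∈ M \ F, σ a x * σ b x = 1) →
      c a b y = -1)
    {z : E} (hz : z ∈ F) : ∃ (M : Set E) (d : E → ℤˣ), IsOpen M ∧ z ∈ M ∧ M ⊆ Metric.ball z ε ∧
      ∀ x ∈ M, ∀ y ∈ M, c (i x) (i y) y = d (i x) * d (i y) := by
  classical
  have hW : IsOpen (Metric.ball z ε ∩ ⋂ p ∈ s.filter (fun p => z ∈ U p), U p) := by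
    refine Metric.isOpen_ball.inter ?_
    exact isOpen_biInter_finset fun p hp => hUo p (Finset.mem_filter.1 hp).1
  have hzW : z ∈ Metric.ball z ε ∩ ⋂ p ∈ s.filter (fun p => z ∈ U p), U p :=
    ⟨Metric.mem_ball_self hε, mem_iInter₂.2 fun p hp => (Finset.mem_filter.1 hp).2⟩
  obtain ⟨M, hM, hzM, hMW, hMc⟩ := tame_conn0 hF hz hW hzW
  have hMU : ∀ p ∈ s, z ∈ U p → M \ F ⊆ U p \ F := by
    intro p hp hzp x hx
    exact ⟨mem_iInter₂.1 (hMW hx.1).2 p (Finset.mem_filter.2 ⟨hp, hzp⟩), hx.2⟩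
  have hzi := hi z z hz (by rw [dist_self]; exact hε)
  have hzI : z ∈ U (i z) := hzi.2 (Metric.mem_ball_self hε)
  have hd : ∀ p : E, ∃ e : ℤˣ, p ∈ s → z ∈ U p → ∀ x ∈ M \ F, σ p x * σ (i z) x = e := by
    intro p
    by_cases hp : p ∈ s ∧ z ∈ U p
    · obtain ⟨e, he⟩ := sign_const hMc (s := fun x => σ p x * σ (i z) x)
        (trivBy_ratio (trivBy_mono (hσ p hp.1) (hMU p hp.1 hp.2))
          (trivBy_mono (hσ _ hzi.1) (hMU _ hzi.1 hzI)))
      exact ⟨e, fun _ _ => he⟩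
    · exact ⟨1, fun h1 h2 => absurd ⟨h1, h2⟩ hp⟩
  choose d hd using hd
  refine ⟨M, d, hM, hzM, fun x hx => (hMW hx).1, fun x hx y hy => ?_⟩
  have hI : ∀ x ∈ M, i x ∈ s ∧ z ∈ U (i x) := by
    intro x hx
    have h3 : dist x z < ε := (hMW hx).1
    have h4 := hi x z hz h3
    exact ⟨h4.1, h4.2 (by rw [Metric.mem_ball, dist_comm]; exact h3)⟩
  have hab : ∀ w ∈ M \ F, σ (i x) w * σ (i y) w = d (i x) * d (i y) := by
    intro w hw
    rw [← hd _ (hI x hx).1 (hI x hx).2 w hw, ← hd _ (hI y hy).1 (hI y hy).2 w hw,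
      mul_mul_mul_comm, Int.units_mul_self, mul_one]
  by_cases hyF : y ∈ F
  · rcases Int.units_eq_one_or (d (i x) * d (i y)) with h1 | h1
    · rw [h1]
      refine hc1 _ _ y hyF ⟨M, hM, hy, fun w hw => ?_⟩
      rw [hab w hw, h1]
    · rw [h1]
      refine hc2 _ _ y hyF ?_
      rintro ⟨M', hM', hyM', hM1⟩
      obtain ⟨M'', -, -, hsub, hc''⟩ := tame_conn0 hF hyF (hM.inter hM') ⟨hy, hyM'⟩
      obtain ⟨w, hw⟩ := hc''.1
      have e1 := hM1 w ⟨(hsub hw.1).2, hw.2⟩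
      have e2 := hab w ⟨(hsub hw.1).1, hw.2⟩
      rw [e1, h1] at e2
      revert e2
      decide
  · rw [hc0 _ _ y hyF]
    exact hab y ⟨hy, hyF⟩

theorem triv_ext {E : Type*} [PseudoMetricSpace E] [CompactSpace E]
    (hE : Conn1 (univ : Set E)) {F : Set E} (hF : Tame F) {τ : E → E → ℤˣ} (hτ : IsTw Fᶜ τ)
    (h : ∀ p ∈ F, TrivAt τ F p) : TrivOn τ Fᶜ := by
  classical
  have hFc : IsCompact F := hF.1.isCompact
  have hloc : ∀ p ∈ F, ∃ (U : Set E) (σ : E → ℤˣ), IsOpen U ∧ p ∈ U ∧ TrivBy τ (U \ F) σ := by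
    intro p hp
    obtain ⟨N, h1, h2, σ, h3⟩ := h p hp
    exact ⟨N, σ, h1, h2, h3⟩
  choose! U σ hUo hpU hσ using hloc
  obtain ⟨ε, s, i, hε, hs, hi⟩ := cover_choice hFc U fun p hp => ⟨hUo p hp, hpU p hp⟩
  obtain ⟨c, hc⟩ : ∃ c : E → E → E → ℤˣ, c = fun a b y => if y ∈ F then
    (if ∃ M : Set E, IsOpen M ∧ y ∈ M ∧ ∀ x ∈ M \ F, σ a x * σ b x = 1 then 1 else -1)
    else σ a y * σ b y := ⟨_, rfl⟩
  have hc0 : ∀ a b, ∀ y ∉ F, c a b y = σ a y * σ b y := by
    intro a b y hy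
    rw [hc]
    exact if_neg hy
  have hcl := fun z (hz : z ∈ F) => ext_loc hF (fun p hp => hUo p (hs p hp))
    (fun p hp => hσ p (hs p hp)) hε hi hc0
    (fun a b y hy hM => by rw [hc]; simp only [if_pos hy, if_pos hM])
    (fun a b y hy hM => by rw [hc]; simp only [if_pos hy, if_neg hM]) hz
  set g : E → ℤˣ := fun x => σ (i x) x with hg
  set T₁ : Coch E (Additive ℤˣ) 1 := fun t => Additive.ofMul (c (i (t 0)) (i (t 1)) (t 1)) with hT₁
  set T₂ : Coch E (Additive ℤˣ) 1 :=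
    fun t => Additive.ofMul (g (t 0) * τ (t 0) (t 1) * g (t 1)) with hT₂
  set V : Set E := ⋃₀ {M | IsOpen M ∧ (∀ y ∈ M, ∃ z ∈ F, dist y z < ε) ∧ LZ M (dd one T₁)} with hV
  have hVo : IsOpen V := isOpen_sUnion fun M hM => hM.1
  have hFV : F ⊆ V := by
    intro z hz
    obtain ⟨M, d, hM, hzM, hMb, hd⟩ := hcl z hz
    refine ⟨M, ⟨hM, fun y hy => ⟨z, hz, hMb hy⟩, fun x hx => ?_⟩, hzM⟩
    filter_upwards [ev_all_coord (n := 0 + 1 + 1 + 1) (hM.eventually_mem hx)] with t ht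
    have e := dd_tw (fun x y => c (i x) (i y) y) t
    refine e.trans ?_
    rw [hd _ (ht 1) _ (ht 2), hd _ (ht 0) _ (ht 2), hd _ (ht 0) _ (ht 1)]
    rcases Int.units_eq_one_or (d (i (t 0))) with h1 | h1 <;>
      rcases Int.units_eq_one_or (d (i (t 1))) with h2 | h2 <;>
      rcases Int.units_eq_one_or (d (i (t 2))) with h3 | h3 <;>
      rw [h1, h2, h3] <;> rfl
  have hVε : ∀ y ∈ V, ∃ z ∈ F, dist y z < ε := by
    rintro y ⟨M, hM, hyM⟩
    exact hM.2.1 y hyM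
  have hT₁c : LZ V (dd one T₁) := by
    rintro y ⟨M, hM, hyM⟩
    exact hM.2.2 y hyM
  have hT₂c : LZ Fᶜ (dd one T₂) := by
    intro x hx
    filter_upwards [hτ x hx] with t ht
    have e := dd_tw (fun x y => g x * τ x y * g y) t
    refine e.trans ?_
    have h1 := units_ext1 _ _ _ ht
    have h2 : g (t 1) * τ (t 1) (t 2) * g (t 2) * (g (t 0) * τ (t 0) (t 2) * g (t 2)) *
        (g (t 0) * τ (t 0) (t 1) * g (t 1)) =
        (g (t 0) * g (t 0)) * (g (t 1) * g (t 1)) * (g (t 2) * g (t 2)) *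
          (τ (t 1) (t 2) * τ (t 0) (t 2) * τ (t 0) (t 1)) := by
      simp only [mul_comm, mul_left_comm, mul_assoc]
    rw [h2, h1]
    simp only [Int.units_mul_self, mul_one]
    rfl
  have hag : LZ (V ∩ Fᶜ) (T₁ - T₂) := by
    rintro q ⟨hqV, hqF⟩
    have hall : ∀ᶠ t in 𝓝 (fun _ : Fin (0 + 1 + 1) => q), ∀ p ∈ s, q ∈ U p →
        τ (t 0) (t 1) = (σ p (t 0))⁻¹ * σ p (t 1) := by
      rw [Filter.eventually_all_finset]
      intro p hp
      by_cases hqp : q ∈ U p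
      · filter_upwards [hσ p (hs p hp) q ⟨hqp, hqF⟩] with t ht _
        exact ht
      · exact Eventually.of_forall fun t h => absurd h hqp
    filter_upwards [hall, ev_all_coord (n := 0 + 1 + 1) (hVo.eventually_mem hqV),
      ev_all_coord (n := 0 + 1 + 1) (hF.1.isOpen_compl.eventually_mem hqF),
      ev_all_coord (n := 0 + 1 + 1) (Metric.isOpen_ball.eventually_mem
        (Metric.mem_ball_self (x := q) hε))] with t h1 h2 h3 h4
    have hI : i (t 0) ∈ s ∧ q ∈ U (i (t 0)) := by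
      obtain ⟨z, hz, hd⟩ := hVε _ (h2 0)
      have h5 := hi (t 0) z hz hd
      refine ⟨h5.1, h5.2 ?_⟩
      have h6 := h4 0
      rw [Metric.mem_ball] at h6 ⊢
      rwa [dist_comm]
    have e1 : c (i (t 0)) (i (t 1)) (t 1) = σ (i (t 0)) (t 1) * σ (i (t 1)) (t 1) :=
      hc0 _ _ _ (h3 1)
    have e2 : c (i (t 0)) (i (t 1)) (t 1) = g (t 0) * τ (t 0) (t 1) * g (t 1) := by
      rw [e1, h1 _ hI.1 hI.2, hg]
      simp only
      rw [mul_inv_cancel_left]
    show Additive.ofMul (c (i (t 0)) (i (t 1)) (t 1)) -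
      Additive.ofMul (g (t 0) * τ (t 0) (t 1) * g (t 1)) = 0
    rw [e2, sub_self]
  obtain ⟨C, hC1, hC2⟩ := glue (Sepd.open hVo hF.1.isOpen_compl) T₁ T₂ hag
  have hCc : LZ univ (dd one C) := by
    intro x _
    by_cases hx : x ∈ F
    · have h3 := hC1.dd (one : E → E → ℤˣ)
      rw [dd_sub] at h3
      exact (LZ.congr h3 hT₁c) x (hFV hx)
    · have h3 := hC2.dd (one : E → E → ℤˣ)
      rw [dd_sub] at h3
      exact (LZ.congr h3 hT₂c) x hx
  obtain ⟨ψ, -, hψ⟩ := hE.2 (Additive ℤˣ) C hCc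
  refine ⟨fun y => g y * (ψ (fun _ => y)).toMul, fun x hx => ?_⟩
  filter_upwards [hC2 x hx, hψ x (mem_univ x)] with t h1 h2
  have e1 : C t = T₂ t := sub_eq_zero.1 h1
  have e2 : C t = dd one ψ t := sub_eq_zero.1 h2
  rw [dd_deg_zero] at e2
  simp only [one, one_smul] at e2
  have e3 : g (t 0) * τ (t 0) (t 1) * g (t 1) =
      (ψ fun _ => t 1).toMul / (ψ fun _ => t 0).toMul := by
    rw [← toMul_sub, ← e2, e1]
    rfl
  generalize (ψ fun _ => t 1).toMul = a at e3 ⊢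
  generalize (ψ fun _ => t 0).toMul = b at e3 ⊢
  generalize g (t 0) = g₀ at e3 ⊢
  generalize g (t 1) = g₁ at e3 ⊢
  generalize τ (t 0) (t 1) = τ₀ at e3 ⊢
  rcases Int.units_eq_one_or a with h1 | h1 <;> rcases Int.units_eq_one_or b with h2 | h2 <;>
    rcases Int.units_eq_one_or g₀ with h3 | h3 <;> rcases Int.units_eq_one_or g₁ with h4 | h4 <;>
    rcases Int.units_eq_one_or τ₀ with h5 | h5 <;> rw [h1, h2, h3, h4, h5] at e3 ⊢ <;>
    first | rfl | (revert e3; decide)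

end PoolFbd
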