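import Pool.Agent.Work.MP_fbd21a_gt.Aniso
import Pool.Agent.Work.MP_fbd21a_gt.KapU
import Pool.Agent.Work.MP_fbd21a_gt.Arith
import Pool.Agent.Work.MP_fbd21a_gt.TmConn
import Pool.Agent.Work.MP_fbd21a_gt.TmExt

/-! MODULE KFThm. Assembly of KTw and KFacts for the knot with matrices alM, beM.
PROOF. ktw_of_geo. `nowhere trivial` (hn of kap_unit): KTw.nt, triv_ext (e3_conn1) and tame_conn.
c from sq_neg_one. aniso with kap from kap_int, kap_unit, ar_har; two from zj_exists (twice) and kf_two;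
rat from kf_rat and ar_det. (In KFacts.aniso the cup is written with upt R5 τ₃, literally the same.) -/

open Topology Filter Set

namespace PoolFbd

theorem kf_thm {K S R : Set E3} {g u : Fin 2 → Coch E3 ℤ 1} {k : Coch E3 ℤ 1}
    (h : Geo3 K S R g u k alM beM) (ht : Tame K) (hcK : IsPreconnected K) :
    KTw K (tauS S R) (epsR S R) ∧
      ∃ c : R5, c * c = -1 ∧ KFacts K (tauS S R) (epsR S R) c := by

  haveI : CompactSpace E3 := isCompact_iff_compactSpace.1 (bd_closed 4).isCompact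
  have hk := ktw_of_geo h ht hcK
  refine ⟨hk, ?_⟩
  have hn : ∀ p ∈ K, ¬ TrivAt (tauS S R) K p := by
    have h1 : ∃ p₀ ∈ K, ¬ TrivAt (tauS S R) K p₀ := by
      by_contra hcon
      push Not at hcon
      exact hk.nt (triv_ext e3_conn1 ht hk.tw hcon)
    obtain ⟨p₀, hp₀, hn₀⟩ := h1
    exact tame_conn ht hcK hk.tw hp₀ hn₀
  obtain ⟨c, hc, hc2, hcu⟩ := sq_neg_one
  obtain ⟨kap, hkap⟩ := kap_int h hc
  have hku : ¬ (5 : ℤ) ∣ kap := kap_unit h hc ht hn (ar_div hc2) (ar_5v hc hc2 hcu) hkap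
  refine ⟨c, hc, ?_, ?_, ?_⟩
  · intro b β hb hβ hd hbc hI
    exact aniso h hc hkap (ar_har hc hc2 hcu hku) b β hb hβ hd hbc hI
  · obtain ⟨ξ₁, z₁, x1, y1, t1, c1, p1⟩ := zj_exists h hc 0
    obtain ⟨ξ₂, z₂, x2, y2, t2, c2, p2⟩ := zj_exists h hc 1
    exact ⟨z₁, z₂, c1, c2, p1, p2, fun a b hab =>
      kf_two h hc (ar_div hc2) x1 x2 y1 y2 t1 t2 c1 c2 p1 p2 a b hab⟩
  · exact kf_rat h hc (ar_det hc).1 (ar_det hc).2

end PoolFbd
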