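import Pool.Agent.Work.MP_fbd21a_gt.CGlue
import Pool.Agent.Work.MP_fbd21a_gt.Thet

/-! MODULE KOne. First cohomology of the c-part.
c1_vec: φ relative 1-cocycle in the c-part (coefficients A). φ₁ = gau σ φ near R is a relative cocycle of
(R, K) (cg_coc) so φ₁ - Σ g_i v_i = dd one ψ near R, ψ zero near K (rel_H1). θ φ₁ = 0 near S (cg_theta) and
th_lin, rel_H1u give v M = 0.
c1_zero: if moreover v = 0 (more generally: φ₁ = dd one ψ near R with ψ zero near K) then φ is a
coboundary: θ ψ is locally constant near S (dd θψ = θ φ₁ = 0) and zero near K, so θ ψ = 0 near S (rel_H0);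
cg_glue: Ψ with gau σ Ψ = ψ near R, in the c-part; φ - dd τ Ψ is in the c-part and its gauge
transform vanishes near R, so it vanishes near univ (cg_uniq; dd τ Ψ is in the c-part: j_dd with Z = K).
kf_rat: φ rational. Cast to K5: φ'. φ' = h(φ' - c Jφ') + h(φ' + c Jφ'): two cocycles, in the c-part and the
(-c)-part. Each is a coboundary by c1_vec, c1_zero, since v M = 0 implies v = 0 when det M ≠ 0 (in K5) for
M = mat5 c and mat5 (-c). So φ' = dd τ ψ' near univ; apply a ℚ-linear retraction K5 → ℚ of the inclusion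
(LinearMap.exists_leftInverse_of_injective) to get φ = dd τ ψ. -/

open Topology Filter Set

namespace PoolFbd

variable {K S R : Set E3} {g u : Fin 2 → Coch E3 ℤ 1} {k : Coch E3 ℤ 1}
  {α β : Matrix (Fin 2) (Fin 2) ℤ} {A : Type} [AddCommGroup A] [Module R5 A] {c : R5}

theorem c1_vec (h : Geo3 K S R g u k α β) (hc : c * c = -1) {φ : Coch E3 A 1}
    (hφ : Coc (tauS S R) univ K φ) (hφc : CPart (epsR S R) rho3 c φ) :
    ∃ (v : Fin 2 → A), (∀ j, ∑ i, mat5 c α β i j • v i = 0) ∧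
      Cob one R K (gau (sigR S R) φ - ∑ i, smulC (g i) (v i)) := by
  have k6 : Coc one R K (gau (sigR S R) φ) :=
    ⟨hφ.1.gau _, (cg_coc h hc hφ.1 hφc).1 hφ.2⟩
  obtain ⟨v, hv⟩ := rel_H1 (h.KS.trans h.SR) h.gR h.gK h.kK k6
  refine ⟨v, ?_, hv⟩
  have k7 := th_cob (c := c) h hv
  have k8 := th_lin (c := c) h v
  have k9 : Cob one S K (tht c (gau (sigR S R) φ)) := Cob.of_LZ (cg_theta h hc hφ.1 hφc)
  rw [th_sub] at k7
  have k12 : Cob one S K (∑ j, smulC (u j) (∑ i, mat5 c α β i j • v i)) := by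
    have e1 := (k9.sub k7).sub k8
    have e2 : tht c (gau (sigR S R) φ) - (tht c (gau (sigR S R) φ) -
        tht c (∑ j, smulC (g j) (v j))) - (tht c (∑ i, smulC (g i) (v i)) -
        ∑ j, smulC (u j) (∑ i, mat5 c α β i j • v i)) =
          ∑ j, smulC (u j) (∑ i, mat5 c α β i j • v i) := by
      abel
    rwa [e2] at e1
  have k13 := rel_H1u h.uS k12
  intro j
  exact congrFun k13 j

theorem c1_zero (h : Geo3 K S R g u k α β) (hc : c * c = -1) {φ : Coch E3 A 1}
    (hφ : Coc (tauS S R) univ K φ) (hφc : CPart (epsR S R) rho3 c φ)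
    (h1 : Cob one R K (gau (sigR S R) φ)) : Cob (tauS S R) univ K φ := by
  obtain ⟨ψ, hψK, hψ⟩ := h1
  have k1 : LZ S (dd one (tht c ψ)) := by
    rw [th_dd]
    have e1 : LZ S (tht c (gau (sigR S R) φ - dd one ψ)) := th_lzS h hψ
    rw [th_sub] at e1
    exact LZ.congr e1.symm (cg_theta h hc hφ.1 hφc)
  have k2 : LZ S (tht c ψ) := rel_H0 h.KS h.uS h.kK.1 ⟨th_lz h hψK, k1⟩
  obtain ⟨Ψ, p1, p2, p3⟩ := cg_glue h hc hψK k2
  refine ⟨Ψ, p1, ?_⟩
  have k3 : CPart (epsR S R) rho3 c (φ - dd (tauS S R) Ψ) := by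
    have e1 := cpart_add hφc (cpart_smul (-1) (cg_ddc h p1 p2))
    rwa [neg_one_smul, ← sub_eq_add_neg] at e1
  refine cg_uniq h hc (hφ.1.sub (p1.dd _)) k3 ?_
  rw [gau_sub]
  have e2 : LZ R (gau (sigR S R) (dd (tauS S R) Ψ) - dd one ψ) := by
    have e3 := p3.dd one
    rw [dd_sub] at e3
    exact (cg_dd h p1).trans e3
  exact hψ.trans e2.symm

private theorem k1_vec {c : R5} (hdet : (mat5 c α β).det ≠ 0) {v : Fin 2 → K5}
    (hv : ∀ j, ∑ i, mat5 c α β i j • v i = 0) : v = 0 := by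
  have hinj : Function.Injective (algebraMap R5 K5) := by
    intro a b hab
    exact al5_inj hab
  have h1 : ((mat5 c α β).map (algebraMap R5 K5)).det ≠ 0 := by
    have e : ((mat5 c α β).map (algebraMap R5 K5)).det =
        algebraMap R5 K5 (mat5 c α β).det := by
      rw [RingHom.map_det]
      rfl
    rw [e]
    intro h2
    exact hdet (hinj (by rw [h2, map_zero]))
  refine Matrix.eq_zero_of_vecMul_eq_zero h1 ?_
  funext j
  show ∑ i, v i * algebraMap R5 K5 (mat5 c α β i j) = 0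
  rw [← hv j]
  exact Finset.sum_congr rfl fun i _ => by rw [Algebra.smul_def, mul_comm]

private theorem k1_cob (h : Geo3 K S R g u k α β) {c : R5} (hc : c * c = -1)
    (hdet : (mat5 c α β).det ≠ 0) {φ : Coch E3 K5 1}
    (hφ : Coc (tauS S R) univ K φ) (hφc : CPart (epsR S R) rho3 c φ) :
    Cob (tauS S R) univ K φ := by
  obtain ⟨v, hv, hv2⟩ := c1_vec h hc hφ hφc
  have hv0 := k1_vec hdet hv
  refine c1_zero h hc hφ hφc ?_
  have e : ∑ i, smulC (g i) (v i) = (0 : Coch E3 K5 1) := by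
    funext t
    rw [Finset.sum_apply]
    refine Finset.sum_eq_zero fun i _ => ?_
    show g i t • v i = 0
    rw [hv0]
    simp
  rwa [e, sub_zero] at hv2

theorem kf_rat (h : Geo3 K S R g u k α β) (hc : c * c = -1) (h1 : (mat5 c α β).det ≠ 0)
    (h2 : (mat5 (-c) α β).det ≠ 0) (φ : Coch E3 ℚ 1) (hφ : Coc (tauS S R) univ K φ) :
    Cob (tauS S R) univ K φ := by
  have hrK : ∀ x ∈ K, rho3 x ∈ K := fun x hx => (geo_memK h x).1 hx
  obtain ⟨q, hq⟩ := half5
  have hc' : (-c) * (-c) = (-1 : R5) := by rw [neg_mul_neg, hc]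
  set φ' : Coch E3 K5 1 := cmap (algebraMap ℚ K5) φ with hφ'
  have hcoc' : Coc (tauS S R) univ K φ' := by
    refine ⟨hφ.1.cmap _ (map_zero _), ?_⟩
    have e := dd_cmap (tauS S R) φ (algebraMap ℚ K5).toAddMonoidHom (fun w a => by
      rw [Units.smul_def, Units.smul_def, map_zsmul])
    have e2 : dd (tauS S R) φ' = cmap (algebraMap ℚ K5) (dd (tauS S R) φ) := e
    rw [e2]
    exact hφ.2.cmap _ (map_zero _)
  have hp1 : Cob (tauS S R) univ K (cpr (epsR S R) rho3 c q φ') :=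
    k1_cob h hc h1 (cpr_coc rho3_cont (fun _ _ => mem_univ _) hrK
      (fun x hx => geo_equiv h hx.2) hcoc')
      (cpr_cpart hc hq rho3_cont rho3_rho3 h.cK (fun x hx => eps_anti h hx) hcoc'.1)
  have hp2 : Cob (tauS S R) univ K (cpr (epsR S R) rho3 (-c) q φ') :=
    k1_cob h hc' h2 (cpr_coc rho3_cont (fun _ _ => mem_univ _) hrK
      (fun x hx => geo_equiv h hx.2) hcoc')
      (cpr_cpart hc' hq rho3_cont rho3_rho3 h.cK (fun x hx => eps_anti h hx) hcoc'.1)
  have hsum : Cob (tauS S R) univ K φ' := by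
    have e1 := hp1.add hp2
    have e2 : cpr (epsR S R) rho3 c q φ' + cpr (epsR S R) rho3 (-c) q φ' = φ' := by
      unfold cpr
      have e3 : φ' = (q + q) • φ' := by rw [hq, one_smul]
      conv_rhs => rw [e3]
      module
    rwa [e2] at e1
  obtain ⟨ψ', q1, q2⟩ := hsum
  obtain ⟨F, hF⟩ := LinearMap.exists_leftInverse_of_injective
    (Algebra.linearMap ℚ K5) (LinearMap.ker_eq_bot.2 (algebraMap ℚ K5).injective)
  have hFF : ∀ a : ℚ, F (algebraMap ℚ K5 a) = a := fun a => by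
    have := congrArg (fun G : ℚ →ₗ[ℚ] ℚ => G a) hF
    simpa using this
  refine ⟨cmap F ψ', q1.cmap _ (map_zero F), ?_⟩
  have e := dd_cmap (tauS S R) ψ' F.toAddMonoidHom (fun w a => by
      rw [Units.smul_def, Units.smul_def, map_zsmul])
  have e2 : dd (tauS S R) (cmap F ψ') = cmap F (dd (tauS S R) ψ') := e
  have e3 : φ - cmap F (dd (tauS S R) ψ') = cmap F (φ' - dd (tauS S R) ψ') := by
    funext t
    show φ t - F (dd (tauS S R) ψ' t) = F (algebraMap ℚ K5 (φ t) - dd (tauS S R) ψ' t)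
    rw [map_sub, hFF]
  rw [e2, e3]
  exact q2.cmap _ (map_zero F)

end PoolFbd
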