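import Pool.Agent.Work.MP_fbd21a_gt.IntF
import Pool.Agent.Work.MP_fbd21a_gt.Acom
import Pool.Agent.Work.MP_fbd21a_gt.KOne

/-! MODULE Kap. The intersection form of S: an integer kap with IS (u 0 ∪ u 1 · a) = kap a,
IS (u 1 ∪ u 0 · a) = - kap a, IS (u j ∪ u j · a) = 0.
PROOF. kap = IS (cup11 (u 0) (u 1)) over ℤ; acom: cup11 u v + cup11 v u is a relative coboundary of (S, K), is_cob;
for u = v: 2 IS = 0 in ℤ. Other coefficients: is_map for m ↦ m • a.
kap_bil: bilinear extension: for p : Fin 2 → R5, q : Fin 2 → D,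
cup (trivial twist) (Σ u_j p_j) (Σ u_l q_l) = Σ_{j,l} smulC (cup11 (u j) (u l)) (p_j • q_l) exactly; relative
coboundaries in either factor do not matter (CupL with twist oneU; dd_triv).
kap_int: intf, c1_vec data: θ ξ ~ Σ u_j p_j on (S,K); gau σ y ~ Σ g_i v_i on (R, K), so near S
~ Σ_l u_l (Σ_i α i l • v i) (hα and rel_of_abs). -/

open Topology Filter Set

namespace PoolFbd

variable {K S R : Set E3} {g u : Fin 2 → Coch E3 ℤ 1} {k : Coch E3 ℤ 1}
  {α β : Matrix (Fin 2) (Fin 2) ℤ} {D : Type} [AddCommGroup D] [Module R5 D] {c : R5}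

private theorem kap_invt : invt (oneU R5) = oneU R5 := by
  funext x y
  simp [invt, oneU]

private theorem kap_dd1 {A : Type} [AddCommGroup A] [Module R5 A] {n : ℕ} (φ : Coch E3 A n) :
    dd (oneU R5) φ = dd one φ := dd_triv φ

private theorem kap_tw (S : Set E3) : IsTw S (oneU R5) :=
  fun _ _ => Eventually.of_forall fun _ => by simp [oneU]

private theorem kap_cob {A : Type} [AddCommGroup A] [Module R5 A] {S Z : Set E3} {n : ℕ}
    {φ : Coch E3 A n} (h : Cob one S Z φ) : Cob (oneU R5) S Z φ := by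
  cases n with
  | zero => exact h
  | succ n =>
    obtain ⟨ψ, a, b⟩ := h
    exact ⟨ψ, a, by rw [kap_dd1]; exact b⟩

private theorem kap_uc (h : Geo3 K S R g u k α β) (j : Fin 2) : Coc one S K (u j) :=
  ⟨h.uK j, h.uS.2.1 j⟩

private theorem kap_smul_coc {A : Type} [AddCommGroup A] {S Z : Set E3} {n : ℕ}
    {φ : Coch E3 ℤ n} (h : Coc one S Z φ) (a : A) : Coc one S Z (smulC φ a) := by
  have e1 : smulC φ a = cmap ((AddMonoidHom.flip (smulAddHom ℤ A)) a) φ := rfl
  have e2 : ∀ (g : ℤˣ) (b : ℤ), ((AddMonoidHom.flip (smulAddHom ℤ A)) a) (g • b) =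
      g • ((AddMonoidHom.flip (smulAddHom ℤ A)) a) b := fun g b => by
    rw [Units.smul_def, map_zsmul, Units.smul_def]
  rw [e1]
  refine ⟨h.1.cmap _ (map_zero _), ?_⟩
  rw [dd_cmap one φ _ e2]
  exact h.2.cmap _ (map_zero _)

private theorem kap_smul_cob {A : Type} [AddCommGroup A] {S Z : Set E3} {n : ℕ}
    {φ : Coch E3 ℤ n} (h : Cob one S Z φ) (a : A) : Cob one S Z (smulC φ a) := by
  have e2 : ∀ (g : ℤˣ) (b : ℤ), ((AddMonoidHom.flip (smulAddHom ℤ A)) a) (g • b) =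
      g • ((AddMonoidHom.flip (smulAddHom ℤ A)) a) b := fun g b => by
    rw [Units.smul_def, map_zsmul, Units.smul_def]
  cases n with
  | zero =>
    have e1 : smulC φ a = cmap ((AddMonoidHom.flip (smulAddHom ℤ A)) a) φ := rfl
    rw [e1]
    exact LZ.cmap h _ (map_zero _)
  | succ n =>
    obtain ⟨ψ, b1, b2⟩ := h
    refine ⟨smulC ψ a, ?_, ?_⟩
    · exact b1.cmap ((AddMonoidHom.flip (smulAddHom ℤ A)) a) (map_zero _)
    · have e3 : smulC φ a - dd one (smulC ψ a) =
          cmap ((AddMonoidHom.flip (smulAddHom ℤ A)) a) (φ - dd one ψ) := by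
        have e4 : dd one (smulC ψ a) = cmap ((AddMonoidHom.flip (smulAddHom ℤ A)) a) (dd one ψ) :=
          dd_cmap one ψ _ e2
        rw [e4]
        funext t
        simp [cmap, smulC, sub_smul]
      rw [e3]
      exact b2.cmap _ (map_zero _)

private theorem kap_is_smul (h : Geo3 K S R g u k α β) {V : Coch E3 ℤ 2} (hV : Coc one S K V)
    (a : D) : IS S R (smulC V a) = IS S R V • a :=
  is_map h ((AddMonoidHom.flip (smulAddHom ℤ D)) a) hV

/-- The product of two combinations. -/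
private theorem kap_cup (p : Fin 2 → R5) (q : Fin 2 → D) :
    cup (rfl : 1 + 1 = 2) (oneU R5) (∑ j, smulC (u j) (p j)) (∑ j, smulC (u j) (q j)) =
      ((smulC (cup11 (u 0) (u 0)) (p 0 • q 0) + smulC (cup11 (u 0) (u 1)) (p 0 • q 1)) +
      (smulC (cup11 (u 1) (u 0)) (p 1 • q 0) + smulC (cup11 (u 1) (u 1)) (p 1 • q 1))) := by
  funext t
  have e1 : (fun i : Fin (1 + 1) => t ⟨i.1, by omega⟩) = ![t 0, t 1] := by
    funext i
    fin_cases i <;> rfl
  have e2 : (fun j : Fin (1 + 1) => t ⟨1 + j.1, by omega⟩) = ![t 1, t 2] := by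
    funext i
    fin_cases i <;> rfl
  simp only [cup, e1, e2, oneU, one_smul, Fin.sum_univ_two, Pi.add_apply, smulC, cup11, add_smul,
    smul_add]
  have e3 : ∀ (a b : ℤ) (x : R5) (y : D), (a • x) • (b • y) = (a * b) • (x • y) := by
    intro a b x y
    rw [smul_assoc, smul_comm x b y, mul_smul]
  rw [e3, e3, e3, e3]
  abel

theorem kap_bil (h : Geo3 K S R g u k α β) : ∃ kap : ℤ, ∀ (D : Type) [AddCommGroup D]
    [Module R5 D] (p : Fin 2 → R5) (q : Fin 2 → D) (X : Coch E3 R5 1) (Y : Coch E3 D 1),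
    Coc one S K X → Coc one S K Y → Cob one S K (X - ∑ j, smulC (u j) (p j)) →
    Cob one S K (Y - ∑ j, smulC (u j) (q j)) →
    IS S R (cup (rfl : 1 + 1 = 2) (oneU R5) X Y) = kap • (p 0 • q 1 - p 1 • q 0) := by

  refine ⟨IS S R (cup11 (u 0) (u 1)), ?_⟩
  intro D _ _ p q X Y hX hY hXp hYq
  set Xp := ∑ j, smulC (u j) (p j) with hXpd
  set Yq := ∑ j, smulC (u j) (q j) with hYqd
  have hXpc : Coc one S K Xp := by
    rw [hXpd, Fin.sum_univ_two]
    exact (kap_smul_coc (kap_uc h 0) _).add (kap_smul_coc (kap_uc h 1) _)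
  have hYqc : Coc one S K Yq := by
    rw [hYqd, Fin.sum_univ_two]
    exact (kap_smul_coc (kap_uc h 0) _).add (kap_smul_coc (kap_uc h 1) _)
  have hcc : ∀ (X' : Coch E3 R5 1) (Y' : Coch E3 D 1), Coc one S K X' → Coc one S K Y' →
      Coc one S K (cup (rfl : 1 + 1 = 2) (oneU R5) X' Y') := by
    intro X' Y' h1 h2
    refine cup_coc _ (kap_tw _) ⟨h1.1, ?_⟩ ?_
    · rw [kap_invt, kap_dd1]; exact h1.2
    · rw [kap_dd1]; exact h2.2.mono sdiff_subset
  have s1 : IS S R (cup (rfl : 1 + 1 = 2) (oneU R5) X Y) =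
      IS S R (cup (rfl : 1 + 1 = 2) (oneU R5) Xp Y) := by
    refine is_congr h (hcc X Y hX hY) ?_
    rw [← cup_sub_left]
    refine cup_cob_left _ (kap_tw _) ?_ (hX.sub hXpc).1 ?_
    · rw [kap_invt]; exact kap_cob hXp
    · rw [kap_dd1]; exact hY.2.mono sdiff_subset
  have s2 : IS S R (cup (rfl : 1 + 1 = 2) (oneU R5) Xp Y) =
      IS S R (cup (rfl : 1 + 1 = 2) (oneU R5) Xp Yq) := by
    refine is_congr h (hcc Xp Y hXpc hY) ?_
    rw [← cup_sub_right]
    refine cup_cob_right _ (kap_tw _) ⟨hXpc.1, ?_⟩ ?_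
    · rw [kap_invt, kap_dd1]; exact hXpc.2
    · exact kap_cob (hYq.mono sdiff_subset (empty_subset _))
  have hc : ∀ i j, Coc one S K (cup11 (u i) (u j)) := fun i j =>
    cup11_coc (kap_uc h i) (kap_uc h j)
  have hself : ∀ i, IS S R (cup11 (u i) (u i)) = 0 := by
    intro i
    have e1 := is_add h (hc i i) (hc i i)
    rw [is_cob h (acom (kap_uc h i) (kap_uc h i))] at e1
    omega
  have hanti : IS S R (cup11 (u 1) (u 0)) = - IS S R (cup11 (u 0) (u 1)) := by
    have e1 := is_add h (hc 0 1) (hc 1 0)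
    rw [is_cob h (acom (kap_uc h 0) (kap_uc h 1))] at e1
    omega
  rw [s1, s2, hXpd, hYqd, kap_cup,
    is_add h ((kap_smul_coc (hc 0 0) _).add (kap_smul_coc (hc 0 1) _))
      ((kap_smul_coc (hc 1 0) _).add (kap_smul_coc (hc 1 1) _)),
    is_add h (kap_smul_coc (hc 0 0) _) (kap_smul_coc (hc 0 1) _),
    is_add h (kap_smul_coc (hc 1 0) _) (kap_smul_coc (hc 1 1) _),
    kap_is_smul h (hc 0 0), kap_is_smul h (hc 0 1), kap_is_smul h (hc 1 0),
    kap_is_smul h (hc 1 1), hself, hself, hanti, zero_smul, zero_smul, zero_add, add_zero,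
    neg_smul, smul_sub, ← sub_eq_add_neg]

theorem kap_int (h : Geo3 K S R g u k α β) (hc : c * c = -1) : ∃ kap : ℤ,
    ∀ (D : Type) [AddCommGroup D] [Module R5 D] (ξ : Coch E3 R5 1)
    (x : Coch E3 R5 2) (y : Coch E3 D 1) (p : Fin 2 → R5) (v : Fin 2 → D), LZ K ξ →
    Coc (tauS S R) univ K x → CPart (epsR S R) rho3 c x →
    LZ R (gau (sigR S R) x - dd one ξ) → Coc (tauS S R) univ K y →
    CPart (epsR S R) rho3 c y → Cob one S K (tht c ξ - ∑ j, smulC (u j) (p j)) →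
    Cob one R K (gau (sigR S R) y - ∑ i, smulC (g i) (v i)) →
    Itg3 (cup (rfl : 2 + 1 = 3) (upt R5 (tauS S R)) x y) =
      (2 * kap) • (p 0 • (∑ i, α i 1 • v i) - p 1 • (∑ i, α i 0 • v i)) := by

  obtain ⟨kap, hkap⟩ := kap_bil h
  refine ⟨kap, ?_⟩
  intro D _ _ ξ x y p v hξ hx hxc hxξ hy hyc hp hv
  obtain ⟨i1, i2⟩ := intf h hc hξ hx hxc hxξ hy hyc
  rw [i2]
  have hρS : ∀ z ∈ S, rho3 z ∈ R := by
    intro z hz
    refine h.S'R ?_
    change rho3 (rho3 z) ∈ S
    rw [rho3_rho3]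
    exact hz
  have hX : Coc one S K (tht c ξ) := by
    refine ⟨th_lz h hξ, ?_⟩
    rw [th_dd]
    have e1 := cg_theta h hc hx.1 hxc
    have e2 : LZ S (tht c (gau (sigR S R) x - dd one ξ)) := by
      have e3 : LZ S (pb rho3 (gau (sigR S R) x - dd one ξ)) :=
        hxξ.pb fun z hz => ⟨rho3_cont.continuousAt, hρS z hz⟩
      intro z hz
      filter_upwards [hxξ z (h.SR hz), e3 z hz] with t a b
      simp only [tht, Pi.add_apply, Pi.smul_apply, a, b, smul_zero, add_zero]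
    have e4 : tht c (gau (sigR S R) x - dd one ξ) =
        tht c (gau (sigR S R) x) - tht c (dd one ξ) := by
      funext t
      simp only [tht, Pi.add_apply, Pi.sub_apply, Pi.smul_apply, pb, smul_sub]
      abel
    rw [e4] at e2
    have e5 := e1.sub e2
    rwa [sub_sub_cancel] at e5
  have hY : Coc one S K (gau (sigR S R) y) :=
    ⟨hy.1.gau _, ((cg_coc h hc hy.1 hyc).1 hy.2).mono h.SR⟩
  have hYq : Cob one S K (gau (sigR S R) y - ∑ j, smulC (u j) (∑ i, α i j • v i)) := by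
    have e1 := hv.mono h.SR (subset_refl K)
    refine e1.trans ?_
    have e2 : (∑ i, smulC (g i) (v i) - ∑ j, smulC (u j) (∑ i, α i j • v i)) =
        smulC (g 0 - lin2 u (α 0)) (v 0) + smulC (g 1 - lin2 u (α 1)) (v 1) := by
      funext t
      simp only [Fin.sum_univ_two, Pi.sub_apply, Pi.add_apply, smulC, lin2, sub_smul, add_smul,
        smul_add, smul_eq_mul, mul_smul]
      abel
    rw [e2]
    have hK1 : ∀ i, LZ K (g i - lin2 u (α i)) := by
      intro i
      refine (h.gK i).sub ?_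
      have e3 : lin2 u (α i) = smulC (u 0) (α i 0) + smulC (u 1) (α i 1) := by
        simp only [lin2, Fin.sum_univ_two]
      rw [e3]
      exact (kap_smul_coc (kap_uc h 0) _).1.add (kap_smul_coc (kap_uc h 1) _).1
    have hrel : ∀ i, Cob one S K (smulC (g i - lin2 u (α i)) (v i)) := by
      intro i
      refine rel_of_abs h ?_ (kap_smul_cob (h.hα i) (v i))
      exact (hK1 i).cmap ((AddMonoidHom.flip (smulAddHom ℤ D)) (v i)) (map_zero _)
    exact (hrel 0).add (hrel 1)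
  rw [hkap D p (fun j => ∑ i, α i j • v i) _ _ hX hY hp hYq]
  rw [mul_smul, two_smul, two_smul ℤ]

end PoolFbd
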