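import Pool.Agent.Work.MP_fbd21a_gt.GeoDefs

/-! Explicit geometry: the sphere `E3` is two copies of the cube `[-5,5]^3` glued along their
boundaries by `(X,Y,Z) ~ (X,-Y,-Z)`; `kap` is the first copy, `rho3 ∘ kap` the second one. -/

open Topology Filter Set

namespace PoolFbd

/-- Three-dimensional space with coordinates `X = v 0`, `Y = v 1`, `Z = v 2`. -/
abbrev V3 := Fin 3 → ℝ

/-- Rescaled and clamped vector, coordinates in `[-2,2]`. -/
noncomputable def wv (v : V3) : V3 := fun i => (2 / 5) * max (-5) (min 5 (v i))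

theorem wv_abs (v : V3) (i : Fin 3) : |wv v i| ≤ 2 := by
  unfold wv
  rw [abs_le]
  constructor
  · have := le_max_left (-5 : ℝ) (min 5 (v i)); linarith
  · have : max (-5 : ℝ) (min 5 (v i)) ≤ 5 := max_le (by norm_num) (min_le_left _ _)
    linarith

theorem wv_norm (v : V3) : ‖wv v‖ ≤ 2 := by
  rw [pi_norm_le_iff_of_nonneg (by norm_num)]
  exact fun i => by rw [Real.norm_eq_abs]; exact wv_abs v i

theorem wv_div (v : V3) (i : Fin 3) : wv v i / max 1 ‖wv v‖ ∈ Icc (-1 : ℝ) 1 := by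
  have h1 : 0 < max 1 ‖wv v‖ := lt_of_lt_of_le one_pos (le_max_left _ _)
  have h2 : |wv v i| ≤ max 1 ‖wv v‖ := by
    have := norm_le_pi_norm (wv v) i
    rw [Real.norm_eq_abs] at this
    exact this.trans (le_max_right _ _)
  rw [abs_le] at h2
  constructor
  · rw [le_div_iff₀ h1]; linarith [h2.1]
  · rw [div_le_iff₀ h1]; linarith [h2.2]

theorem wv_top (v : V3) : min 1 (2 - ‖wv v‖) ∈ Icc (-1 : ℝ) 1 :=
  ⟨by have := wv_norm v; exact le_min (by norm_num) (by linarith), min_le_left _ _⟩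

/-- The first copy as a map to the four-cube: `(x0,x1,x2,x3) = (*, Y, Z, X)`. -/
noncomputable def kap4 (v : V3) : Q 4 :=
  ![⟨min 1 (2 - ‖wv v‖), wv_top v⟩, ⟨wv v 1 / max 1 ‖wv v‖, wv_div v 1⟩,
    ⟨wv v 2 / max 1 ‖wv v‖, wv_div v 2⟩, ⟨wv v 0 / max 1 ‖wv v‖, wv_div v 0⟩]

theorem kap4_bd (v : V3) : kap4 v ∈ bd 4 := by
  rcases le_or_gt ‖wv v‖ 1 with h | h
  · exact ⟨0, Or.inr (by simp [kap4]; linarith)⟩
  · have hM : max 1 ‖wv v‖ = ‖wv v‖ := max_eq_right h.le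
    have h0 : 0 < ‖wv v‖ := lt_trans one_pos h
    obtain ⟨i, hi⟩ : ∃ i, ‖wv v i‖ = ‖wv v‖ := by
      by_contra hc
      push Not at hc
      have : ‖wv v‖ < ‖wv v‖ := by
        rw [pi_norm_lt_iff h0]
        exact fun i => lt_of_le_of_ne (norm_le_pi_norm _ i) (hc i)
      exact lt_irrefl _ this
    rw [Real.norm_eq_abs] at hi
    have key : wv v i / max 1 ‖wv v‖ = -1 ∨ wv v i / max 1 ‖wv v‖ = 1 := by
      rw [hM]
      rcases abs_cases (wv v i) with ⟨ha, _⟩ | ⟨ha, _⟩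
      · right; rw [div_eq_one_iff_eq h0.ne']; linarith
      · left; rw [div_eq_iff h0.ne']; linarith
    fin_cases i
    · exact ⟨3, by simpa [kap4] using key⟩
    · exact ⟨1, by simpa [kap4] using key⟩
    · exact ⟨2, by simpa [kap4] using key⟩

/-- The first copy of the cube in the sphere. -/
noncomputable def kap (v : V3) : E3 := ⟨kap4 v, kap4_bd v⟩

/-- Coordinates of the first copy. -/
noncomputable def inv0 (x : E3) : V3 :=
  ![5 / 2 * (2 - |(x.1 0 : ℝ)|) * (x.1 3 : ℝ), 5 / 2 * (2 - |(x.1 0 : ℝ)|) * (x.1 1 : ℝ),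
    5 / 2 * (2 - |(x.1 0 : ℝ)|) * (x.1 2 : ℝ)]

/-- The subset of the first copy with coordinates in `H`. -/
def up (H : Set V3) : Set E3 := {x | 0 ≤ (x.1 0 : ℝ) ∧ inv0 x ∈ H}

/-- The cube `[-5,5]^3`. -/
def cub : Set V3 := {v | ∀ i, |v i| ≤ 5}

/-- Upper half minus the arch. -/
def Hp : Set V3 := {v | v ∈ cub ∧ 0 ≤ v 2 ∧ (3 ≤ |v 0| ∨ 3 ≤ v 2 ∨ 1 ≤ |v 1| ∨
  (|v 0| ≤ 1 ∧ v 2 ≤ 1))}

/-- Lower half plus the arch. -/
def Hm : Set V3 := {v | v ∈ cub ∧ (v 2 ≤ 0 ∨ (|v 0| ≤ 3 ∧ v 2 ≤ 3 ∧ |v 1| ≤ 1 ∧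
  (1 ≤ |v 0| ∨ 1 ≤ v 2)))}

/-- The boundary of the plate. -/
def K0v : Set V3 := {v | v ∈ cub ∧ v 2 = 0 ∧ (|v 0| = 5 ∨ |v 1| = 5)}

/-- The upper half of the boundary of the cube. -/
def Dpv : Set V3 := {v | v ∈ cub ∧ 0 ≤ v 2 ∧ (v 2 = 5 ∨ |v 0| = 5 ∨ |v 1| = 5)}

open Classical in
/-- Class of the upper part: crossing `Y = 0` in the notch. -/
noncomputable def gP : Coch V3 ℤ 1 := fun t =>
  if |t 0 0| ≤ 2 ∧ t 0 2 ≤ 2 then st 0 (t 1 1) - st 0 (t 0 1) else 0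

open Classical in
/-- Class of the lower part: crossing `X = 0` in the beam. -/
noncomputable def gM : Coch V3 ℤ 1 := fun t =>
  if 1 / 2 ≤ t 0 2 then st 0 (t 1 0) - st 0 (t 0 0) else 0

open Classical in
/-- Class of the boundary curve of the plate. -/
noncomputable def kV : Coch V3 ℤ 1 := fun t =>
  if t 0 1 < 0 then st 0 (t 1 0) - st 0 (t 0 0) else 0

/-- The handlebody. -/
def Rk : Set E3 := up Hp ∪ rho3 ⁻¹' up Hm

/-- The unknotted surface. -/
def Sk : Set E3 := up (Hp ∩ Hm)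

/-- Its boundary. -/
def Kk : Set E3 := up K0v

/-- The genus two surface. -/
def Sig : Set E3 := Sk ∪ rho3 ⁻¹' Sk

open Classical in
/-- The class `gP` in the first copy. -/
noncomputable def gp : Coch E3 ℤ 1 := fun t =>
  if 0 < ((t 0).1 0 : ℝ) then gP (fun j => inv0 (t j)) else 0

open Classical in
/-- The class `gM` in the first copy. -/
noncomputable def um : Coch E3 ℤ 1 := fun t =>
  if 0 < ((t 0).1 0 : ℝ) then gM (fun j => inv0 (t j)) else 0

end PoolFbd
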