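import Pool.Agent.Work.MP_fbd21a_gt.KapDefs
import Pool.Agent.Work.MP_fbd21a_gt.GeoTw

/-! MODULE KapF. Elementary facts on kap and inv0. Write x0 = x.1 0 etc.
PROOFS. kap_cont: coordinates continuous (min, max, norm, division by max 1 .. > 0).
inv0_cont: coordinates. kap_nonneg: 2 - ‖wv v‖ ≥ 0. inv0_kap: v in cub: wv v = (2/5) v =: w, m = ‖w‖ ≤ 2. If
m ≤ 1: x0 = 1, (x3,x1,x2) = w, factor 5/2 * (2-1) : v. If m > 1: x0 = 2 - m, 2 - |x0| = m, (x3,x1,x2) = w/m.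
kap_inv0: x ∈ bd 4, x0 ≥ 0: if x0 = 1: w = (x3,x1,x2), ‖w‖ ≤ 1, so kap gives (1, x1, x2, x3) (min 1 (2 - ‖w‖) = 1).
If x0 < 1: some |x_i| = 1 for i ≥ 1, w = (2 - x0)(x3,x1,x2), ‖w‖ = 2 - x0 > 1.
inv0_cub: |inv0 x i| ≤ 5. kap_x0_zero: v in cub: (kap v)_0 = 0 iff some |v i| = 5.
kap_rho: if some |v i| = 5 (v in cub) then rho3 (kap v) = kap (X, -Y, -Z) (both have x0 = 0).
inv0_rho: if x0 = 0 then inv0 (rho3 x) = (X, -Y, -Z) of inv0 x. inv0_X: inv0 x 0 = inv0 (rho3 x) 0 always.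
x0_rho: (rho3 x)_0 = - x0. -/

open Topology Filter Set

namespace PoolFbd

/-- Clamped coordinates in the cube. -/
theorem wv_cub {v : V3} (hv : v ∈ cub) (i : Fin 3) : wv v i = 2 / 5 * v i := by
  have h := abs_le.1 (hv i)
  unfold wv
  rw [min_eq_right h.2, max_eq_right h.1]

private theorem wv_cont : Continuous wv := by
  unfold wv
  fun_prop

theorem kap_val0 (v : V3) : ((kap v).1 0 : ℝ) = min 1 (2 - ‖wv v‖) := by
  simp [kap, kap4]

theorem kap_val1 (v : V3) : ((kap v).1 1 : ℝ) = wv v 1 / max 1 ‖wv v‖ := by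
  simp [kap, kap4]

theorem kap_val2 (v : V3) : ((kap v).1 2 : ℝ) = wv v 2 / max 1 ‖wv v‖ := by
  simp [kap, kap4]

theorem kap_val3 (v : V3) : ((kap v).1 3 : ℝ) = wv v 0 / max 1 ‖wv v‖ := by
  simp [kap, kap4]

theorem inv0_val0 (x : E3) : inv0 x 0 = 5 / 2 * (2 - |(x.1 0 : ℝ)|) * (x.1 3 : ℝ) := rfl

theorem inv0_val1 (x : E3) : inv0 x 1 = 5 / 2 * (2 - |(x.1 0 : ℝ)|) * (x.1 1 : ℝ) := rfl

theorem inv0_val2 (x : E3) : inv0 x 2 = 5 / 2 * (2 - |(x.1 0 : ℝ)|) * (x.1 2 : ℝ) := rfl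

/-- Extensionality in the sphere. -/
theorem e3_ext {x y : E3} (h0 : (x.1 0 : ℝ) = y.1 0) (h1 : (x.1 1 : ℝ) = y.1 1)
    (h2 : (x.1 2 : ℝ) = y.1 2) (h3 : (x.1 3 : ℝ) = y.1 3) : x = y := by
  apply Subtype.ext
  funext i
  apply Subtype.ext
  fin_cases i
  · exact h0
  · exact h1
  · exact h2
  · exact h3

theorem kap_cont : Continuous kap := by
  refine Continuous.subtype_mk ?_ _
  have hn : Continuous fun v : V3 => ‖wv v‖ := wv_cont.norm
  have hw : ∀ i, Continuous fun v : V3 => wv v i := fun i => (continuous_apply i).comp wv_cont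
  have hd : ∀ i, Continuous fun v : V3 =>
      (⟨wv v i / max 1 ‖wv v‖, wv_div v i⟩ : Icc (-1 : ℝ) 1) := fun i =>
    Continuous.subtype_mk ((hw i).div (continuous_const.max hn) fun v =>
      (lt_of_lt_of_le one_pos (le_max_left _ _)).ne') _
  refine continuous_pi fun i => ?_
  fin_cases i
  · exact Continuous.subtype_mk (continuous_const.min (continuous_const.sub hn)) _
  · exact hd 1
  · exact hd 2
  · exact hd 0

theorem e3_coord_cont (i : Fin 4) : Continuous fun x : E3 => (x.1 i : ℝ) :=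
  continuous_subtype_val.comp ((continuous_apply i).comp continuous_subtype_val)

theorem inv0_cont : Continuous inv0 := by
  have h0 := e3_coord_cont 0
  have h1 := e3_coord_cont 1
  have h2 := e3_coord_cont 2
  have h3 := e3_coord_cont 3
  refine continuous_pi fun i => ?_
  fin_cases i
  · exact (continuous_const.mul (continuous_const.sub h0.abs)).mul h3
  · exact (continuous_const.mul (continuous_const.sub h0.abs)).mul h1
  · exact (continuous_const.mul (continuous_const.sub h0.abs)).mul h2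

theorem kap_nonneg (v : V3) : 0 ≤ ((kap v).1 0 : ℝ) := by
  rw [kap_val0]
  have := wv_norm v
  exact le_min (by norm_num) (by linarith)

theorem inv0_kap {v : V3} (hv : v ∈ cub) : inv0 (kap v) = v := by
  have hpos := kap_nonneg v
  have hf : 2 - |((kap v).1 0 : ℝ)| = max 1 ‖wv v‖ := by
    rw [abs_of_nonneg hpos, kap_val0]
    rcases le_total ‖wv v‖ 1 with h | h
    · rw [min_eq_left (by linarith), max_eq_left h]; norm_num
    · rw [min_eq_right (by linarith), max_eq_right h]; ring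
  have hM : max 1 ‖wv v‖ ≠ 0 := (lt_of_lt_of_le one_pos (le_max_left _ _)).ne'
  have key : ∀ i, 5 / 2 * max 1 ‖wv v‖ * (wv v i / max 1 ‖wv v‖) = v i := by
    intro i
    rw [wv_cub hv i]
    field_simp
  funext i
  fin_cases i
  · show inv0 (kap v) 0 = v 0
    rw [inv0_val0, hf, kap_val3]
    exact key 0
  · show inv0 (kap v) 1 = v 1
    rw [inv0_val1, hf, kap_val1]
    exact key 1
  · show inv0 (kap v) 2 = v 2
    rw [inv0_val2, hf, kap_val2]
    exact key 2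

theorem e3_le (x : E3) (i : Fin 4) : |(x.1 i : ℝ)| ≤ 1 := by
  rw [abs_le]
  exact ⟨(x.1 i).2.1, (x.1 i).2.2⟩

theorem e3_one (x : E3) : ∃ i, |(x.1 i : ℝ)| = 1 := by
  obtain ⟨i, hi⟩ := x.2
  refine ⟨i, ?_⟩
  rcases hi with h | h <;> rw [h] <;> norm_num

theorem inv0_cub (x : E3) : inv0 x ∈ cub := by
  have h0 := e3_le x 0
  have key : ∀ j : Fin 4, |5 / 2 * (2 - |(x.1 0 : ℝ)|) * (x.1 j : ℝ)| ≤ 5 := by
    intro j
    have hj := e3_le x j
    have ha := abs_nonneg (x.1 0 : ℝ)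
    have hp : 0 ≤ 5 / 2 * (2 - |(x.1 0 : ℝ)|) := by linarith
    rw [abs_mul, abs_of_nonneg hp]
    calc 5 / 2 * (2 - |(x.1 0 : ℝ)|) * |(x.1 j : ℝ)| ≤ 5 / 2 * (2 - |(x.1 0 : ℝ)|) * 1 :=
          mul_le_mul_of_nonneg_left hj hp
      _ ≤ 5 := by linarith
  intro i
  fin_cases i
  · exact key 3
  · exact key 1
  · exact key 2

theorem kap_inv0 {x : E3} (hx : 0 ≤ (x.1 0 : ℝ)) : kap (inv0 x) = x := by
  have hx1 := e3_le x 0
  rw [abs_of_nonneg hx] at hx1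
  have hp : 0 < 2 - (x.1 0 : ℝ) := by linarith
  have hw0 : wv (inv0 x) 0 = (2 - (x.1 0 : ℝ)) * (x.1 3 : ℝ) := by
    rw [wv_cub (inv0_cub x), inv0_val0, abs_of_nonneg hx]; ring
  have hw1 : wv (inv0 x) 1 = (2 - (x.1 0 : ℝ)) * (x.1 1 : ℝ) := by
    rw [wv_cub (inv0_cub x), inv0_val1, abs_of_nonneg hx]; ring
  have hw2 : wv (inv0 x) 2 = (2 - (x.1 0 : ℝ)) * (x.1 2 : ℝ) := by
    rw [wv_cub (inv0_cub x), inv0_val2, abs_of_nonneg hx]; ring
  have hle : ‖wv (inv0 x)‖ ≤ 2 - (x.1 0 : ℝ) := by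
    rw [pi_norm_le_iff_of_nonneg hp.le]
    have key : ∀ j : Fin 4, |(2 - (x.1 0 : ℝ)) * (x.1 j : ℝ)| ≤ 2 - (x.1 0 : ℝ) := by
      intro j
      rw [abs_mul, abs_of_pos hp]
      have := mul_le_mul_of_nonneg_left (e3_le x j) hp.le
      linarith
    intro i
    rw [Real.norm_eq_abs]
    fin_cases i
    · show |wv (inv0 x) 0| ≤ _
      rw [hw0]; exact key 3
    · show |wv (inv0 x) 1| ≤ _
      rw [hw1]; exact key 1
    · show |wv (inv0 x) 2| ≤ _
      rw [hw2]; exact key 2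
  have hM : max 1 ‖wv (inv0 x)‖ = 2 - (x.1 0 : ℝ) ∧
      min 1 (2 - ‖wv (inv0 x)‖) = (x.1 0 : ℝ) := by
    rcases hx1.lt_or_eq with h | h
    · -- some other coordinate has absolute value one
      obtain ⟨j, hj⟩ := e3_one x
      have hj0 : j ≠ 0 := by
        rintro rfl
        rw [abs_of_nonneg hx] at hj
        linarith
      have hge : 2 - (x.1 0 : ℝ) ≤ ‖wv (inv0 x)‖ := by
        have e : |(2 - (x.1 0 : ℝ)) * (x.1 j : ℝ)| = 2 - (x.1 0 : ℝ) := by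
          rw [abs_mul, abs_of_pos hp, hj, mul_one]
        rw [← e]
        fin_cases j
        · exact absurd rfl hj0
        · show |(2 - (x.1 0 : ℝ)) * (x.1 1 : ℝ)| ≤ _
          rw [← hw1, ← Real.norm_eq_abs]
          exact norm_le_pi_norm _ _
        · show |(2 - (x.1 0 : ℝ)) * (x.1 2 : ℝ)| ≤ _
          rw [← hw2, ← Real.norm_eq_abs]
          exact norm_le_pi_norm _ _
        · show |(2 - (x.1 0 : ℝ)) * (x.1 3 : ℝ)| ≤ _
          rw [← hw0, ← Real.norm_eq_abs]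
          exact norm_le_pi_norm _ _
      have heq := le_antisymm hle hge
      rw [heq]
      constructor
      · exact max_eq_right (by linarith)
      · rw [min_eq_right (by linarith)]; ring
    · have h1 : ‖wv (inv0 x)‖ ≤ 1 := by linarith
      constructor
      · rw [max_eq_left h1]; linarith
      · rw [min_eq_left (by linarith)]; exact h.symm
  refine e3_ext ?_ ?_ ?_ ?_
  · rw [kap_val0, hM.2]
  · rw [kap_val1, hM.1, hw1, mul_div_cancel_left₀ _ hp.ne']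
  · rw [kap_val2, hM.1, hw2, mul_div_cancel_left₀ _ hp.ne']
  · rw [kap_val3, hM.1, hw0, mul_div_cancel_left₀ _ hp.ne']

theorem inv0_bdry (x : E3) : (x.1 0 : ℝ) = 0 ↔ ∃ i, |inv0 x i| = 5 := by
  have h0 := e3_le x 0
  have ha := abs_nonneg (x.1 0 : ℝ)
  constructor
  · intro h
    obtain ⟨j, hj⟩ := e3_one x
    have key : |5 / 2 * (2 - |(x.1 0 : ℝ)|) * (x.1 j : ℝ)| = 5 := by
      rw [abs_mul, hj, h]; norm_num
    fin_cases j
    · exfalso
      have hj' : |(x.1 0 : ℝ)| = 1 := hj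
      rw [h, abs_zero] at hj'
      norm_num at hj'
    · exact ⟨1, key⟩
    · exact ⟨2, key⟩
    · exact ⟨0, key⟩
  · rintro ⟨i, hi⟩
    have key : ∀ j : Fin 4, |5 / 2 * (2 - |(x.1 0 : ℝ)|) * (x.1 j : ℝ)| = 5 →
        (x.1 0 : ℝ) = 0 := by
      intro j h
      have hj := e3_le x j
      have hp : 0 ≤ 5 / 2 * (2 - |(x.1 0 : ℝ)|) := by linarith
      rw [abs_mul, abs_of_nonneg hp] at h
      have h2 : 5 / 2 * (2 - |(x.1 0 : ℝ)|) * |(x.1 j : ℝ)| ≤ 5 / 2 * (2 - |(x.1 0 : ℝ)|) * 1 :=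
        mul_le_mul_of_nonneg_left hj hp
      have h3 : |(x.1 0 : ℝ)| ≤ 0 := by linarith
      exact abs_nonpos_iff.1 h3
    fin_cases i
    · exact key 3 hi
    · exact key 1 hi
    · exact key 2 hi

theorem kap_x0_zero {v : V3} (hv : v ∈ cub) : ((kap v).1 0 : ℝ) = 0 ↔ ∃ i, |v i| = 5 := by
  rw [inv0_bdry, inv0_kap hv]

theorem rho3_val (x : E3) : ((rho3 x).1 0 : ℝ) = -(x.1 0 : ℝ) ∧ ((rho3 x).1 1 : ℝ) = -(x.1 1 : ℝ) ∧
    ((rho3 x).1 2 : ℝ) = -(x.1 2 : ℝ) ∧ ((rho3 x).1 3 : ℝ) = (x.1 3 : ℝ) := by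
  refine ⟨?_, ?_, ?_, ?_⟩ <;> simp [rho3, rho, neg1]

theorem x0_rho (x : E3) : ((rho3 x).1 0 : ℝ) = -(x.1 0 : ℝ) := (rho3_val x).1

theorem inv0_X (x : E3) : inv0 (rho3 x) 0 = inv0 x 0 := by
  obtain ⟨h0, h1, h2, h3⟩ := rho3_val x
  rw [inv0_val0, inv0_val0, h0, h3, abs_neg]

theorem inv0_Y (x : E3) : inv0 (rho3 x) 1 = - inv0 x 1 := by
  obtain ⟨h0, h1, h2, h3⟩ := rho3_val x
  rw [inv0_val1, inv0_val1, h0, h1, abs_neg]
  ring

theorem inv0_Z (x : E3) : inv0 (rho3 x) 2 = - inv0 x 2 := by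
  obtain ⟨h0, h1, h2, h3⟩ := rho3_val x
  rw [inv0_val2, inv0_val2, h0, h2, abs_neg]
  ring

/-- The formula holds everywhere. -/
theorem inv0_rho' (x : E3) : inv0 (rho3 x) = ![inv0 x 0, - inv0 x 1, - inv0 x 2] := by
  funext i
  fin_cases i
  · exact inv0_X x
  · exact inv0_Y x
  · exact inv0_Z x

theorem inv0_rho {x : E3} (hx : (x.1 0 : ℝ) = 0) :
    inv0 (rho3 x) = ![inv0 x 0, - inv0 x 1, - inv0 x 2] := by
  have _ := hx
  exact inv0_rho' x

theorem kap_rho {v : V3} (hv : v ∈ cub) (h : ∃ i, |v i| = 5) :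
    rho3 (kap v) = kap ![v 0, - v 1, - v 2] := by
  have h0 : ((kap v).1 0 : ℝ) = 0 := (kap_x0_zero hv).2 h
  have h1 : 0 ≤ ((rho3 (kap v)).1 0 : ℝ) := by rw [x0_rho, h0, neg_zero]
  rw [← kap_inv0 h1, inv0_rho', inv0_kap hv]

end PoolFbd
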