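import Pool.Agent.Work.MP_fbd21a_gt.FlComb
import Pool.Agent.Work.MP_fbd21a_gt.FlSig
import Pool.Agent.Work.MP_fbd21a_gt.HhF
import Pool.Agent.Work.MP_fbd21a_gt.ChTame

/-! MODULE KnFlat. The knot Kn is locally flat, tame, and parametrised by the circle.
PROOFS. kn_sub: each of the twists TB m, TD m maps Z = Kk ∪ anD ∪ anB ∪ anB' to itself (tw_nu: an annulus is
mapped to itself; tw_off: other points are fixed; in all cases twi ν m x = x or both x and twi ν m x are in the annulus).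
x ∈ Kn: x = hh (hi x), hi x ∈ Kk. kn_flat: flat_comb with S = Sig, f = hi, f' = hh.
gam0 z = (0, im z / m, 0, re z / m) with m = max |re z| |im z| > 0: in Kk, onto Kk, injective, continuous.
kn_circle: γ = hh ∘ gam0 (hh continuous on Sig ⊇ Kk, hh (hi x) = x and hi (hh x) = x).
rho3 (gam0 z) = gam0 (z⁻¹) (complex conjugate), hh_rho. kn_tame: chart_tame' with n = 0 (closed: image of a compact
set, or geo_knot.. : Kn = hi ⁻¹' Kk ∩ Sig). kn_conn: range of a connected space (Circle is the image of ℝ). -/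

open Topology Filter Set

namespace PoolFbd

private theorem kf_kksig {x : E3} (hx : x ∈ Kk) : x ∈ Sig := Or.inl (kk_sk hx)

theorem kn_sig : Kn ⊆ Sig := by
  intro x hx
  have h1 : hi x ∈ Kk := hx
  have h2 := hh_mem (kf_kksig h1)
  rwa [hh_hi] at h2

private theorem kf_tw {ν : ℝ → ℝ → E3} (h : Ann Sig ν) (Z : Set E3)
    (hZ : ∀ x, (∃ l, ∃ s ∈ Icc (0 : ℝ) 1, x = ν l s) → x ∈ Z) (m : ℤ) {x : E3} (hx : x ∈ Z) :
    twi ν m x ∈ Z := by
  by_cases hc : ∃ l, ∃ s ∈ Icc (0 : ℝ) 1, x = ν l s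
  · obtain ⟨l, s, hs, rfl⟩ := hc
    rw [tw_nu h m l hs]
    exact hZ _ ⟨_, s, hs, rfl⟩
  · rw [tw_off m fun l s hs he => hc ⟨l, s, hs, he⟩]
    exact hx

theorem kn_sub : Kn ⊆ Kk ∪ anD ∪ anB ∪ anB' := by
  intro x hx
  have h1 : hi x ∈ Kk ∪ anD ∪ anB ∪ anB' := Or.inl (Or.inl (Or.inl hx))
  have hD : ∀ m : ℤ, ∀ y ∈ Kk ∪ anD ∪ anB ∪ anB', TD m y ∈ Kk ∪ anD ∪ anB ∪ anB' := fun m y hy =>
    kf_tw ann_nuD _ (fun z hz => Or.inl (Or.inl (Or.inr hz))) m hy
  have hB : ∀ m : ℤ, ∀ y ∈ Kk ∪ anD ∪ anB ∪ anB', TB m y ∈ Kk ∪ anD ∪ anB ∪ anB' := fun m y hy =>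
    kf_tw ann_nuB _ (fun z hz => Or.inl (Or.inr hz)) m
      (kf_tw ann_nuB' _ (fun z hz => Or.inr hz) m hy)
  have h2 := hB 2 _ (hD (-2) _ (hB (-1) _ (hD 1 _ h1)))
  have h3 : hh (hi x) ∈ Kk ∪ anD ∪ anB ∪ anB' := h2
  rwa [hh_hi] at h3

theorem kn_flat {p : E3} (hp : p ∈ Kn) : KFlat Kn p := by
  refine flat_comb (S := Sig) (K' := Kk) (f := hi) (f' := hh) hi_cont hh_cont
    (fun x hx => hi_mem hx) (fun x hx => hh_mem hx) (fun x _ => hh_hi x) (fun x _ => hi_hh x)
    kn_sig (fun x _ => Iff.rfl) (kn_sig hp) ?_ (pflat_kk hp)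
  rcases kn_sub hp with ((h | h) | h) | h
  · exact sflat_kk h
  · exact sflat_d h
  · exact sflat_b h
  · exact sflat_b' h

private noncomputable def kfm (z : Circle) : ℝ := max |(z : ℂ).re| |(z : ℂ).im|

private theorem kfm_pos (z : Circle) : 0 < kfm z := by
  rcases (le_max_of_le_left (abs_nonneg (z : ℂ).re) : 0 ≤ kfm z).lt_or_eq with h | h
  · exact h
  · exfalso
    have h1 : |(z : ℂ).re| ≤ 0 := by rw [h]; exact le_max_left _ _
    have h2 : |(z : ℂ).im| ≤ 0 := by rw [h]; exact le_max_right _ _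
    have h3 : (z : ℂ) = 0 := Complex.ext (abs_nonpos_iff.mp h1) (abs_nonpos_iff.mp h2)
    have h4 := z.norm_coe
    rw [h3, norm_zero] at h4
    exact zero_ne_one h4

private theorem kf_re (z : Circle) : (z : ℂ).re / kfm z ∈ Icc (-1 : ℝ) 1 := by
  have h := kfm_pos z
  have h1 : |(z : ℂ).re| ≤ kfm z := le_max_left _ _
  rw [abs_le] at h1
  exact ⟨by rw [le_div_iff₀ h]; linarith [h1.1], by rw [div_le_iff₀ h]; linarith [h1.2]⟩

private theorem kf_im (z : Circle) : (z : ℂ).im / kfm z ∈ Icc (-1 : ℝ) 1 := by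
  have h := kfm_pos z
  have h1 : |(z : ℂ).im| ≤ kfm z := le_max_right _ _
  rw [abs_le] at h1
  exact ⟨by rw [le_div_iff₀ h]; linarith [h1.1], by rw [div_le_iff₀ h]; linarith [h1.2]⟩

private noncomputable def kf4 (z : Circle) : Q 4 :=
  ![⟨0, by norm_num⟩, ⟨(z : ℂ).im / kfm z, kf_im z⟩, ⟨0, by norm_num⟩,
    ⟨(z : ℂ).re / kfm z, kf_re z⟩]

private theorem kf_one (z : Circle) : |(z : ℂ).re / kfm z| = 1 ∨ |(z : ℂ).im / kfm z| = 1 := by
  have h := kfm_pos z
  rcases max_choice |(z : ℂ).re| |(z : ℂ).im| with h1 | h1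
  · left
    have h2 : kfm z = |(z : ℂ).re| := h1
    rw [abs_div, abs_of_pos h, div_eq_one_iff_eq h.ne', h2]
  · right
    have h2 : kfm z = |(z : ℂ).im| := h1
    rw [abs_div, abs_of_pos h, div_eq_one_iff_eq h.ne', h2]

private theorem kf4_bd (z : Circle) : kf4 z ∈ bd 4 := by
  rcases kf_one z with h | h
  · exact ⟨3, ((abs_eq (by norm_num)).mp h).symm⟩
  · exact ⟨1, ((abs_eq (by norm_num)).mp h).symm⟩

private noncomputable def gam0 (z : Circle) : E3 := ⟨kf4 z, kf4_bd z⟩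

private theorem g0 (z : Circle) : ((gam0 z).1 0 : ℝ) = 0 := rfl
private theorem g1 (z : Circle) : ((gam0 z).1 1 : ℝ) = (z : ℂ).im / kfm z := rfl
private theorem g2 (z : Circle) : ((gam0 z).1 2 : ℝ) = 0 := rfl
private theorem g3 (z : Circle) : ((gam0 z).1 3 : ℝ) = (z : ℂ).re / kfm z := rfl

private theorem g_cont : Continuous gam0 := by
  have hm : Continuous kfm :=
    (Complex.continuous_re.comp continuous_subtype_val).abs.max
      (Complex.continuous_im.comp continuous_subtype_val).abs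
  refine Continuous.subtype_mk (continuous_pi fun i => ?_) _
  fin_cases i
  · exact continuous_const
  · exact Continuous.subtype_mk ((Complex.continuous_im.comp continuous_subtype_val).div hm
      fun z => (kfm_pos z).ne') _
  · exact continuous_const
  · exact Continuous.subtype_mk ((Complex.continuous_re.comp continuous_subtype_val).div hm
      fun z => (kfm_pos z).ne') _

private theorem g_mem (z : Circle) : gam0 z ∈ Kk := by
  have e0 : inv0 (gam0 z) 0 = 5 * ((z : ℂ).re / kfm z) := by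
    rw [inv0_val0, g0, g3]; norm_num
  have e1 : inv0 (gam0 z) 1 = 5 * ((z : ℂ).im / kfm z) := by
    rw [inv0_val1, g0, g1]; norm_num
  have e2 : inv0 (gam0 z) 2 = 0 := by
    rw [inv0_val2, g0, g2]; norm_num
  refine ⟨(g0 z).ge, inv0_cub _, e2, ?_⟩
  rw [e0, e1, abs_mul, abs_mul]
  rcases kf_one z with h | h
  · left; rw [h]; norm_num
  · right; rw [h]; norm_num

private theorem g_surj {x : E3} (hx : x ∈ Kk) : ∃ z, gam0 z = x := by
  obtain ⟨h0, _, h2, h3⟩ := hx
  have hx0 : (x.1 0 : ℝ) = 0 := by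
    rw [inv0_bdry]
    rcases h3 with h | h
    · exact ⟨0, h⟩
    · exact ⟨1, h⟩
  have e0 : inv0 x 0 = 5 * (x.1 3 : ℝ) := by rw [inv0_val0, hx0]; norm_num
  have e1 : inv0 x 1 = 5 * (x.1 1 : ℝ) := by rw [inv0_val1, hx0]; norm_num
  have e2 : inv0 x 2 = 5 * (x.1 2 : ℝ) := by rw [inv0_val2, hx0]; norm_num
  have hx2 : (x.1 2 : ℝ) = 0 := by rw [e2] at h2; linarith
  have hmax : max |(x.1 3 : ℝ)| |(x.1 1 : ℝ)| = 1 := by
    have b1 := e3_le x 1
    have b3 := e3_le x 3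
    rw [e0, e1, abs_mul, abs_mul, abs_of_pos (by norm_num : (0 : ℝ) < 5)] at h3
    rcases h3 with h | h
    · have h' : |(x.1 3 : ℝ)| = 1 := by linarith
      rw [h']; exact max_eq_left b1
    · have h' : |(x.1 1 : ℝ)| = 1 := by linarith
      rw [h']; exact max_eq_right b3
  set w : ℂ := ⟨(x.1 3 : ℝ), (x.1 1 : ℝ)⟩ with hw
  have hw0 : w ≠ 0 := by
    intro h
    have h1 : w.re = 0 := by rw [h]; rfl
    have h2 : w.im = 0 := by rw [h]; rfl
    simp only [hw] at h1 h2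
    rw [h1, h2] at hmax
    norm_num at hmax
  have hn : 0 < ‖w‖ := norm_pos_iff.mpr hw0
  let z : Circle := ⟨w / (‖w‖ : ℂ), by
    rw [Submonoid.unitSphere, Submonoid.mem_mk, Subsemigroup.mem_mk, mem_sphere_zero_iff_norm,
      norm_div, Complex.norm_real, norm_norm, div_self hn.ne']⟩
  have hzr : (z : ℂ).re = (x.1 3 : ℝ) / ‖w‖ := by
    change (w / (‖w‖ : ℂ)).re = _
    rw [Complex.div_ofReal_re]
  have hzi : (z : ℂ).im = (x.1 1 : ℝ) / ‖w‖ := by
    change (w / (‖w‖ : ℂ)).im = _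
    rw [Complex.div_ofReal_im]
  have hm : kfm z = 1 / ‖w‖ := by
    unfold kfm
    rw [hzr, hzi, abs_div, abs_div, abs_of_pos hn, max_div_div_right hn.le, hmax]
  refine ⟨z, e3_ext ?_ ?_ ?_ ?_⟩
  · rw [g0, hx0]
  · rw [g1, hzi, hm]; field_simp
  · rw [g2, hx2]
  · rw [g3, hzr, hm]; field_simp

private theorem g_inj : Function.Injective gam0 := by
  intro z w h
  have h1 : (z : ℂ).im / kfm z = (w : ℂ).im / kfm w := by rw [← g1, ← g1, h]
  have h3 : (z : ℂ).re / kfm z = (w : ℂ).re / kfm w := by rw [← g3, ← g3, h]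
  have hz := kfm_pos z
  have hw := kfm_pos w
  have nz : (z : ℂ).re ^ 2 + (z : ℂ).im ^ 2 = 1 := by
    have := z.normSq_coe
    rw [Complex.normSq_apply] at this
    linarith
  have nw : (w : ℂ).re ^ 2 + (w : ℂ).im ^ 2 = 1 := by
    have := w.normSq_coe
    rw [Complex.normSq_apply] at this
    linarith
  have e1 : (z : ℂ).im = (w : ℂ).im / kfm w * kfm z := by rw [← h1]; field_simp
  have e3 : (z : ℂ).re = (w : ℂ).re / kfm w * kfm z := by rw [← h3]; field_simp
  have h4 : kfm z = kfm w := by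
    have h5 : (kfm z) ^ 2 = (kfm w) ^ 2 := by
      rw [e1, e3] at nz
      field_simp at nz
      nlinarith [nz, nw]
    nlinarith [h5]
  apply Subtype.ext
  apply Complex.ext
  · rw [e3, h4]; field_simp
  · rw [e1, h4]; field_simp

private theorem g_rho (z : Circle) : rho3 (gam0 z) = gam0 z⁻¹ := by
  obtain ⟨r0, r1, r2, r3⟩ := rho3_val (gam0 z)
  have hr : ((z⁻¹ : Circle) : ℂ).re = (z : ℂ).re := by
    rw [Circle.coe_inv_eq_conj]; exact Complex.conj_re _
  have him : ((z⁻¹ : Circle) : ℂ).im = -(z : ℂ).im := by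
    rw [Circle.coe_inv_eq_conj]; exact Complex.conj_im _
  have hm : kfm z⁻¹ = kfm z := by
    unfold kfm
    rw [hr, him, abs_neg]
  refine e3_ext ?_ ?_ ?_ ?_
  · rw [r0, g0, g0, neg_zero]
  · rw [r1, g1, g1, hm, him, neg_div]
  · rw [r2, g2, g2, neg_zero]
  · rw [r3, g3, g3, hm, hr]

theorem kn_circle : ∃ γ : Circle → E3, Continuous γ ∧ Function.Injective γ ∧ Set.range γ = Kn ∧
    ∀ z : Circle, rho3 (γ z) = γ z⁻¹ := by
  refine ⟨fun z => hh (gam0 z), ?_, ?_, ?_, ?_⟩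
  · rw [← continuousOn_univ]
    exact hh_cont.comp g_cont.continuousOn fun z _ => kf_kksig (g_mem z)
  · intro z w h
    have h1 : hi (hh (gam0 z)) = hi (hh (gam0 w)) := congrArg hi h
    rw [hi_hh, hi_hh] at h1
    exact g_inj h1
  · ext x
    constructor
    · rintro ⟨z, rfl⟩
      change hi (hh (gam0 z)) ∈ Kk
      rw [hi_hh]
      exact g_mem z
    · intro hx
      obtain ⟨z, hz⟩ := g_surj (show hi x ∈ Kk from hx)
      refine ⟨z, ?_⟩
      change hh (gam0 z) = x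
      rw [hz, hh_hi]
  · intro z
    change rho3 (hh (gam0 z)) = hh (gam0 z⁻¹)
    rw [hh_rho, g_rho]

theorem kn_tame : Tame Kn := by
  have hc : IsClosed Kn := by
    obtain ⟨γ, h1, _, h3, _⟩ := kn_circle
    rw [← h3]
    exact (isCompact_range h1).isClosed
  exact chart_tame' (n := 0) hc fun p hp => kn_flat hp

theorem kn_conn : IsPreconnected Kn := by
  obtain ⟨γ, h1, _, h3, _⟩ := kn_circle
  have h4 : Function.Surjective Circle.exp := Circle.leftInverse_exp_arg.surjective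
  have h5 : range (fun t : ℝ => γ (Circle.exp t)) = Kn := by
    rw [← h3]
    exact h4.range_comp γ
  rw [← h5]
  exact isPreconnected_range (h1.comp Circle.exp.continuous)

end PoolFbd
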