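import Pool.Agent.Work.MP_fbd21a_gt.JRes
import Pool.Agent.Work.MP_fbd21a_gt.Cpr

/-! MODULE Lam. Step (i): classes of H^1(X_B; D5)_c restrict to zero on the knot complement.
PROOF. a with Coc τ univ F a and J a = c a near univ. Lift: choose b₀ : Coch (Q 4) K5 1 with
cmap mk5 b₀ = a and b₀ t = 0 whenever a t = 0 (mk5_surj), so LZ F b₀. b = cpr b₀ (h from half5):
LZ F b, CPart b (cpr_cpart with Z = F, SymTw.anti), and cmap mk5 b = cpr a = a near univ (cpr_map,
cpr_id). mk5 (dd τ b) = dd τ (cmap mk5 b) = dd τ a = 0 near univ, so dd τ b = cmap al5 β near univ where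
β t = the r with al5 r = dd τ b t if there is one, else 0 (mk5_zero_iff, al5_inj); LZ F β as dd τ b
vanishes near F and al5 is injective with al5 0 = 0 (and β t = 0 when dd τ b t = 0).
dd τ β = 0 near univ (al5 injective, dd dd b = 0 near univ: LZ_dd_dd' with Z = F), so Coc τ univ F β.
Restrict to E3: b' = pb io b, β' = pb io β satisfy the hypotheses of KFacts.aniso: LZ K (res_lz),
dd τ₃ b' = cmap al5 β' near univ (res_dd), CPart η₃ rho3 c b' (res_j), Itg3 (β' ∪ cmap mk5 b') = 0: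
cmap mk5 b = a near univ, so it is Itg3 (β' ∪ pb io a) = 0 by res_itg. So Cob τ₃ univ K (cmap mk5 b'),
which is pb io a up to a germ zero near univ. -/

open Topology Filter Set

namespace PoolFbd

private theorem lam_us {A B : Type*} [AddCommGroup A] [AddCommGroup B] [Module R5 A] [Module R5 B]
    (G : A →ₗ[R5] B) (g : ℤˣ) (a : A) : G (g • a) = g • G a := by
  rw [Units.smul_def, Units.smul_def, map_zsmul]

private theorem lam_dd {E A B : Type*} [AddCommGroup A] [AddCommGroup B] [Module R5 A]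
    [Module R5 B] (G : A →ₗ[R5] B) (τ : E → E → ℤˣ) {n : ℕ} (φ : Coch E A n) :
    dd τ (cmap G φ) = cmap G (dd τ φ) :=
  dd_cmap τ φ G.toAddMonoidHom (fun g a => lam_us G g a)

private theorem lam_sec : ∃ s : D5 → K5, s 0 = 0 ∧ ∀ d, mk5 (s d) = d := by
  classical
  refine ⟨fun d => if d = 0 then 0 else (mk5_surj d).choose, by simp, fun d => ?_⟩
  by_cases hd : d = 0
  · simp [hd]
  · simp only [hd, if_false]
    exact (mk5_surj d).choose_spec

private theorem lam_g : ∃ g : K5 → R5, g 0 = 0 ∧ ∀ x, mk5 x = 0 → al5 (g x) = x := by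
  classical
  refine ⟨fun x => if hx : ∃ r : R5, al5 r = x then hx.choose else 0, ?_, fun x hx => ?_⟩
  · have h0 : ∃ r : R5, al5 r = 0 := ⟨0, map_zero _⟩
    simp only
    rw [dif_pos h0]
    apply al5_inj
    rw [h0.choose_spec, map_zero]
  · have h1 := (mk5_zero_iff x).1 hx
    simp only
    rw [dif_pos h1]
    exact h1.choose_spec

private theorem lam_io : ∀ x ∈ (univ : Set E3), ContinuousAt io x ∧ io x ∈ (univ : Set (Q 4)) :=
  fun _ _ => ⟨continuous_subtype_val.continuousAt, mem_univ _⟩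

private theorem lam_tw3 {F : Set (Q 4)} {rb : Q 4 → Q 4} {K : Set E3} {τ : Q 4 → Q 4 → ℤˣ}
    {η : Q 4 → ℤˣ} {τ₃ : E3 → E3 → ℤˣ} {η₃ : E3 → ℤˣ} (hS : Surf4 F rb K)
    (hT : SymTw F rb τ η τ₃ η₃) : IsTw Kᶜ τ₃ := by
  intro y hy
  have hF : io y ∉ F := fun h => hy ((hS.fk y).2 h)
  have h1 := (tendsto_pb (n := 3) (continuous_subtype_val.continuousAt (x := y))).eventually
    (hT.tw (io y) hF)
  have hr := hT.res y hF
  have T : ∀ i j : Fin 3, ∀ᶠ t in 𝓝 (fun _ : Fin 3 => y), τ (io (t i)) (io (t j)) = τ₃ (t i) (t j) := by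
    intro i j
    exact (tendsto_face (![i, j] : Fin 2 → Fin 3) y).eventually hr
  filter_upwards [h1, T 0 1, T 1 2, T 0 2] with t e e1 e2 e3
  rw [← e1, ← e2, ← e3]
  exact e

theorem lam {F : Set (Q 4)} {rb : Q 4 → Q 4} {K : Set E3} {τ : Q 4 → Q 4 → ℤˣ} {η : Q 4 → ℤˣ}
    {τ₃ : E3 → E3 → ℤˣ} {η₃ : E3 → ℤˣ} {c : R5} (hc : c * c = -1) (hS : Surf4 F rb K)
    (hT : SymTw F rb τ η τ₃ η₃) (hK : KFacts K τ₃ η₃ c) {a : Coch (Q 4) D5 1}
    (ha : Coc τ univ F a) (hac : CPart η rb c a) : Cob τ₃ univ K (pb io a) := by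
  obtain ⟨h, hh⟩ := half5
  obtain ⟨s, hs0, hs⟩ := lam_sec
  obtain ⟨g, hg0, hg⟩ := lam_g
  have hFF : ∀ x ∈ F, rb x ∈ F := fun x hx => (hS.inv x).1 hx
  have hb₀ : LZ F (cmap s a) := LZ.cmap ha.1 s hs0
  have hsa : cmap mk5 (cmap s a) = a := by
    funext t
    exact hs (a t)
  obtain ⟨b, hb⟩ : ∃ b, b = cpr η rb c h (cmap s a) := ⟨_, rfl⟩
  have hbF : LZ F b := by
    rw [hb]
    exact cpr_lz hS.cont hFF hb₀
  have hbc : CPart η rb c b := by
    rw [hb]
    exact cpr_cpart hc hh hS.cont hS.invol hS.tame.1 hT.anti hb₀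
  have hba : LZ univ (cmap mk5 b - a) := by
    rw [hb, cpr_map, hsa]
    exact cpr_id hc hh hac
  have hmb : LZ univ (cmap mk5 (dd τ b)) := by
    rw [← lam_dd]
    have h1 : LZ univ (dd τ (cmap mk5 b - a)) := hba.dd τ
    rw [dd_sub] at h1
    exact LZ.congr h1 ha.2
  obtain ⟨β, hβ⟩ : ∃ β, β = cmap g (dd τ b) := ⟨_, rfl⟩
  have hβ1 : LZ univ (dd τ b - cmap al5 β) := by
    intro x hx
    filter_upwards [hmb x hx] with t ht
    rw [Pi.sub_apply, hβ]
    show dd τ b t - al5 (g (dd τ b t)) = 0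
    rw [hg _ ht, sub_self]
  have hβF : LZ F β := by
    rw [hβ]
    exact LZ.cmap (hbF.dd τ) g hg0
  have hTw : IsTw (univ \ F) τ := hT.tw.mono (fun x hx => hx.2)
  have hβd : LZ univ (dd τ β) := by
    have h1 : LZ univ (dd τ (dd τ b)) := LZ_dd_dd' hTw hbF
    have h2 : LZ univ (dd τ (dd τ b - cmap al5 β)) := hβ1.dd τ
    rw [dd_sub] at h2
    have h3 : LZ univ (dd τ (cmap al5 β)) := LZ.congr h2.symm h1
    rw [lam_dd] at h3
    intro x hx
    filter_upwards [h3 x hx] with t ht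
    apply al5_inj
    rw [map_zero]
    exact ht
  have hβc : Coc τ univ F β := ⟨hβF, hβd⟩
  have hfin : Cob τ₃ univ K (cmap mk5 (pb io b)) := by
    refine hK.aniso (pb io b) (pb io β) (res_lz hS hbF) (res_lz hS hβF) ?_ ?_ ?_
    · have h1 : LZ univ (pb io (dd τ b - cmap al5 β)) := LZ.pb lam_io hβ1
      exact (res_dd hS hT hbF).trans h1
    · have h1 : LZ univ (pb io (Jop η rb b - c • b)) := LZ.pb lam_io hbc
      exact (res_j hS hT hbF).symm.trans h1
    · have h0 := res_itg hS hT (R := R5) (D := D5) (q := 2) (p := 1) rfl hβc (φ := a)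
        (ha.2.mono (subset_univ _))
      rw [← h0]
      have hcc : Coc one univ K (cup (rfl : 2 + 1 = 3) (upt R5 τ₃) (pb io β) (pb io a)) := by
        apply cup_coc
        · exact istw_upt ((lam_tw3 hS hT).mono (fun x hx => hx.2))
        · rw [invt_upt, coc_upt]
          exact res_coc hS hT hβc
        · rw [dd_upt]
          exact (res_coc hS hT ha).2.mono (subset_univ _)
      symm
      apply itg3_congr hcc.2
      rw [← cup_sub_right]
      apply Cob.of_LZ
      apply cup_right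
      have h1 : LZ univ (pb io (cmap mk5 b - a)) := LZ.pb lam_io hba
      exact h1.symm
  have h1 : LZ univ (pb io a - cmap mk5 (pb io b)) := by
    have h2 : LZ univ (pb io (cmap mk5 b - a)) := LZ.pb lam_io hba
    exact h2.symm
  exact Cob.congr h1 hfin

end PoolFbd
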