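import Pool.Agent.Work.MP_fbd21a_gt.AxDefs

/-! MODULE LrBaer (MATHLIB ONLY essentially). The module DZ over the Laurent polynomials.
tu_smul: actL (T n) = shfHom (ofAdd n) (AddMonoidAlgebra.lift_single, T n = single n 1).
baer_dz: I ideal of LR, f : I →ₗ[LR] DZ. f₀ : I → ℚ, x ↦ (f x) 0 is ℚ-linear (on I restricted to scalars); extend it to
F₀ : LR →ₗ[ℚ] ℚ (LinearMap.exists_extend). F r := fun k => F₀ (T k * r). F is LR-linear: it is additive and
F (T n * r) k = F₀ (T (k + n) * r) = (T n • F r) k, ℚ-linear (LaurentPolynomial.induction_on or Finsupp sums). For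
x ∈ I: F x k = f₀ (T k x) = (f (T k x)) 0 = (T k • f x) 0 = f x k. baer_c: Module.Baer.of_divisible. -/

open Topology Filter Set LaurentPolynomial

namespace PoolFbd

theorem tu_add (a b : ℤ) : tU (a + b) = tU a * tU b := by
  apply Units.ext
  show (T (a + b) : LR) = T a * T b
  exact T_add a b

theorem tu_zero : tU 0 = 1 := by
  apply Units.ext
  show (T 0 : LR) = 1
  exact T_zero

theorem tu_neg (a : ℤ) : tU (-a) = (tU a)⁻¹ := by
  apply Units.ext
  rfl

theorem t_smul (n : ℤ) (f : DZ) (k : ℤ) : ((T n : LR) • f) k = f (k + n) := by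
  show (actL (T n) f) k = f (k + n)
  have h : actL (T n : LR) = shf n := by
    have h1 : (T n : LR) = AddMonoidAlgebra.single n 1 := rfl
    rw [h1, actL, AddMonoidAlgebra.lift_single, one_smul]
    rfl
  rw [h]
  rfl

theorem tu_smul (n : ℤ) (f : DZ) (k : ℤ) : (tU n • f) k = f (k + n) := by
  exact t_smul n f k

theorem dz_add (f f' : DZ) (k : ℤ) : (f + f') k = f k + f' k := rfl

theorem dz_rat (c : ℚ) (f : DZ) (k : ℤ) : (c • f) k = c * f k := rfl

private theorem c_smul (c : ℚ) (f : DZ) : ((C c : LR) • f) = c • f := by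
  show actL (C c : LR) f = c • f
  have h : actL (C c : LR) = c • (1 : Module.End ℚ DZ) := by
    have h1 : (C c : LR) = algebraMap ℚ LR c := rfl
    rw [h1, AlgHom.commutes]
    rfl
  rw [h]
  rfl

theorem int_smul (a : ℤ) (f : DZ) (k : ℤ) : ((a : LR) • f) k = a * f k := by
  have h1 : (a : LR) = C (a : ℚ) := by
    rw [map_intCast]
  rw [h1, c_smul]
  rfl

/-- extensionality for linear maps from the Laurent polynomials -/
private theorem lin_ext (F : LR → DZ) (hadd : ∀ r r', F (r + r') = F r + F r')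
    (hC : ∀ (c : ℚ) r, F (C c * r) = c • F r) (hT : ∀ (n : ℤ) r k, F (T n * r) k = F r (k + n)) :
    ∀ (a r : LR), F (a * r) = a • F r := by
  intro a
  induction a using LaurentPolynomial.induction_on' with
  | add p q hp hq =>
    intro r
    rw [add_mul, hadd, hp, hq, add_smul]
  | C_mul_T n c =>
    intro r
    rw [mul_assoc, hC]
    have : F (T n * r) = (T n : LR) • F r := by
      funext k
      rw [hT, t_smul]
    rw [this, mul_smul, c_smul]

theorem baer_dz : Module.Baer LR DZ := by
  intro I f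
  let J : Submodule ℚ LR := I.restrictScalars ℚ
  let f₀ : J →ₗ[ℚ] ℚ :=
    { toFun := fun x => (f ⟨x.1, x.2⟩ : DZ) 0
      map_add' := by
        intro x y
        have : (⟨(x + y).1, (x + y).2⟩ : I) = ⟨x.1, x.2⟩ + ⟨y.1, y.2⟩ := rfl
        rw [this, map_add, dz_add]
      map_smul' := by
        intro c x
        have : (⟨(c • x).1, (c • x).2⟩ : I) = (C c : LR) • ⟨x.1, x.2⟩ := by
          apply Subtype.ext
          show c • x.1 = C c * x.1
          rw [LaurentPolynomial.smul_eq_C_mul]
        rw [this, map_smul, c_smul, dz_rat]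
        rfl }
  obtain ⟨F₀, hF₀⟩ := LinearMap.exists_extend f₀
  have hF : ∀ x (hx : x ∈ I), F₀ x = (f ⟨x, hx⟩ : DZ) 0 := by
    intro x hx
    have := congrArg (fun g => g (⟨x, hx⟩ : J)) hF₀
    exact this
  let F : LR → DZ := fun r => fun k : ℤ => F₀ (T k * r)
  have hadd : ∀ r r', F (r + r') = F r + F r' := by
    intro r r'
    funext k
    show F₀ (T k * (r + r')) = F₀ (T k * r) + F₀ (T k * r')
    rw [mul_add, map_add]
  have hC : ∀ (c : ℚ) r, F (C c * r) = c • F r := by
    intro c r
    funext k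
    show F₀ (T k * (C c * r)) = c * F₀ (T k * r)
    rw [mul_left_comm, ← LaurentPolynomial.smul_eq_C_mul, map_smul]
    rfl
  have hT : ∀ (n : ℤ) r k, F (T n * r) k = F r (k + n) := by
    intro n r k
    show F₀ (T k * (T n * r)) = F₀ (T (k + n) * r)
    rw [← mul_assoc, ← T_add]
  refine ⟨{ toFun := F, map_add' := hadd, map_smul' := fun a r => lin_ext F hadd hC hT a r }, ?_⟩
  intro x hx
  funext k
  show F₀ (T k * x) = f ⟨x, hx⟩ k
  rw [hF _ (I.mul_mem_left _ hx)]
  have : (⟨T k * x, I.mul_mem_left (T k) hx⟩ : I) = (T k : LR) • ⟨x, hx⟩ := rfl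
  rw [this, map_smul, t_smul, zero_add]

theorem baer_c : Module.Baer ℤ (AddCircle (1 : ℚ)) := by
  exact Module.Baer.of_divisible _

theorem lr_dom (c : LR) (h : c = T (-1) * c) : c = 0 := by
  have h1 : (1 - T (-1) : LR) * c = 0 := by
    rw [sub_mul, one_mul, ← h, sub_self]
  rcases mul_eq_zero.1 h1 with h2 | h2
  · exfalso
    have h3 : (T 0 : LR) = T (-1) := by
      rw [T_zero]
      exact sub_eq_zero.1 h2
    have h4 := congrArg (fun p : LR => p.coeff 0) h3
    simp only [T_apply] at h4
    norm_num at h4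
  · exact h2

end PoolFbd
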