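import Pool.Agent.Work.MP_fbd21a_gt.StDefs
import Pool.Agent.Work.MP_fbd21a_gt.AxDefs

/-! MODULE PiSph. The complement of a closed subset of the round sphere as a path connected Euclidean
neighbourhood retract, and its identification with the complement in the cube model.
enr_compl: i x = x.1.1, U = {v | v ≠ 0 and v/‖v‖ ∉ K'} (open), q v = v/‖v‖ for v ∈ U, x₀ otherwise.
compl_path: U is open and connected (image of K'ᶜ × (0,∞) under (x,r) ↦ r x), so path connected (open connected subset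
of a normed space: IsOpen.isConnected_iff_isPathConnected); the complement is its image under q
(IsPathConnected.image', continuousOn), or use enr_compl and local path connectedness.
conn0_conn: U open, Conn0 U; if U ⊆ A ∪ B, A, B open, disjoint on U, both meeting U: the 0-cochain φ t = 1 if
t 0 ∈ A ∩ U.. else 0 (values in ℤ) is a cocycle near U, so constant: contradiction.
cemb_exists: ι x = h3.symm x.1, κ x = ⟨h3 x, _⟩ if x ∉ K and x₀ otherwise (continuous at points of the open set Kᶜ). -/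

open Topology Filter Set

namespace PoolFbd

/-- The radial projection off the origin. -/
private noncomputable def pisph_nu (v : {v : EuclideanSpace ℝ (Fin 4) // v ≠ 0}) : Sph3 :=
  ⟨‖v.1‖⁻¹ • v.1, by
    rw [mem_sphere_zero_iff_norm, norm_smul, norm_inv, norm_norm,
      inv_mul_cancel₀ (norm_ne_zero_iff.2 v.2)]⟩

private theorem pisph_nu_cont : Continuous pisph_nu := by
  refine Continuous.subtype_mk ?_ _
  have h0 : Continuous (fun v : {v : EuclideanSpace ℝ (Fin 4) // v ≠ 0} => v.1) :=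
    continuous_subtype_val
  have h1 : Continuous (fun v : {v : EuclideanSpace ℝ (Fin 4) // v ≠ 0} => ‖v.1‖⁻¹) :=
    h0.norm.inv₀ fun v => norm_ne_zero_iff.2 v.2
  exact h1.smul h0

private theorem pisph_ne (x : Sph3) : x.1 ≠ 0 := by
  have h := x.2
  rw [mem_sphere_zero_iff_norm] at h
  intro h0
  rw [h0, norm_zero] at h
  exact zero_ne_one h

private theorem pisph_nu_self (x : Sph3) : pisph_nu ⟨x.1, pisph_ne x⟩ = x := by
  have h := x.2
  rw [mem_sphere_zero_iff_norm] at h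
  apply Subtype.ext
  show ‖x.1‖⁻¹ • x.1 = x.1
  rw [h, inv_one, one_smul]

theorem enr_compl {K' : Set Sph3} (hK : IsClosed K') (x₀ : KnotCompl K') :
    ∃ (i : KnotCompl K' → EuclideanSpace ℝ (Fin 4)) (q : EuclideanSpace ℝ (Fin 4) → KnotCompl K')
      (U : Set (EuclideanSpace ℝ (Fin 4))), Enr i q U := by
  classical
  obtain ⟨U, hU⟩ : ∃ U : Set (EuclideanSpace ℝ (Fin 4)),
      U = Subtype.val '' (pisph_nu ⁻¹' K'ᶜ) := ⟨_, rfl⟩
  have hUo : IsOpen U := by
    rw [hU]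
    have h1 : IsOpen {v : EuclideanSpace ℝ (Fin 4) | v ≠ 0} := isOpen_ne
    exact h1.isOpenMap_subtype_val _ (hK.isOpen_compl.preimage pisph_nu_cont)
  have hUm : ∀ v ∈ U, ∃ h : v ≠ 0, pisph_nu ⟨v, h⟩ ∉ K' := by
    intro v hv
    rw [hU] at hv
    obtain ⟨w, hw, rfl⟩ := hv
    exact ⟨w.2, hw⟩
  refine ⟨fun x => x.1.1, fun v => if h : ∃ h : v ≠ 0, pisph_nu ⟨v, h⟩ ∉ K' then
    ⟨pisph_nu ⟨v, h.1⟩, h.2⟩ else x₀, U, ?_, hUo, ?_, ?_, ?_⟩
  · exact continuous_subtype_val.comp continuous_subtype_val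
  · intro x
    rw [hU]
    refine ⟨⟨x.1.1, pisph_ne x.1⟩, ?_, rfl⟩
    show pisph_nu ⟨x.1.1, pisph_ne x.1⟩ ∉ K'
    rw [pisph_nu_self]
    exact x.2
  · rw [continuousOn_iff_continuous_restrict]
    have h1 : (U.domRestrict fun v => if h : ∃ h : v ≠ 0, pisph_nu ⟨v, h⟩ ∉ K' then
        (⟨pisph_nu ⟨v, h.1⟩, h.2⟩ : KnotCompl K') else x₀) = fun v : U =>
        (⟨pisph_nu ⟨v.1, (hUm v.1 v.2).1⟩, (hUm v.1 v.2).2⟩ : KnotCompl K') := by
      funext v
      show (if h : ∃ h : v.1 ≠ 0, pisph_nu ⟨v.1, h⟩ ∉ K' then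
        (⟨pisph_nu ⟨v.1, h.1⟩, h.2⟩ : KnotCompl K') else x₀) = _
      rw [dif_pos (hUm v.1 v.2)]
    rw [h1]
    refine Continuous.subtype_mk ?_ _
    exact pisph_nu_cont.comp (Continuous.subtype_mk continuous_subtype_val _)
  · intro x
    have h1 : ∃ h : x.1.1 ≠ 0, pisph_nu ⟨x.1.1, h⟩ ∉ K' := ⟨pisph_ne x.1, by
      rw [pisph_nu_self]
      exact x.2⟩
    show (if h : ∃ h : x.1.1 ≠ 0, pisph_nu ⟨x.1.1, h⟩ ∉ K' then
      (⟨pisph_nu ⟨x.1.1, h.1⟩, h.2⟩ : KnotCompl K') else x₀) = x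
    rw [dif_pos h1]
    exact Subtype.ext (pisph_nu_self x.1)

theorem compl_path {K' : Set Sph3} (hK : IsClosed K') (hc : IsConnected K'ᶜ) :
    PathConnectedSpace (KnotCompl K') := by
  haveI : Fact (Module.finrank ℝ (EuclideanSpace ℝ (Fin 4)) = 3 + 1) :=
    ⟨by simp⟩
  haveI : LocallyPathConnectedSpace Sph3 :=
    ChartedSpace.locallyPathConnectedSpace (EuclideanSpace ℝ (Fin 3)) Sph3
  have h1 : IsPathConnected K'ᶜ := (hK.isOpen_compl.isConnected_iff_isPathConnected).1 hc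
  exact isPathConnected_iff_pathConnectedSpace.1 h1

theorem conn0_conn {U : Set E3} (hU : IsOpen U) (h : Conn0 U) : IsConnected U := by
  classical
  refine ⟨h.1, ?_⟩
  intro A B hA hB hUAB hUA hUB
  by_contra hcon
  have hdis : ∀ x ∈ U, x ∈ A → x ∉ B := fun x hx ha hb => hcon ⟨x, hx, ha, hb⟩
  obtain ⟨φ, hφ⟩ : ∃ φ : Coch E3 ℤ 0, φ = fun t => if t 0 ∈ A ∩ U then 1 else 0 := ⟨_, rfl⟩
  have hdd : ∀ t : Fin 2 → E3, dd one φ t = φ (fun _ => t 1) - φ (fun _ => t 0) := by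
    intro t
    have e1 : (fun j : Fin 1 => t j.succ) = fun _ => t 1 := by
      funext j
      fin_cases j
      rfl
    have e2 : (fun j : Fin 1 => t ((0 : Fin 1).succ.succAbove j)) = fun _ => t 0 := by
      funext j
      fin_cases j
      rfl
    have e3 : dd one φ t = (1 : ℤˣ) • φ (fun j : Fin 1 => t j.succ) + ∑ i : Fin 1,
        (-1 : ℤ) ^ ((i : ℕ) + 1) • φ (fun j : Fin 1 => t (i.succ.succAbove j)) := rfl
    rw [e3, Fin.sum_univ_one, e1, e2, one_smul]
    simp only [Fin.val_zero, zero_add, pow_one, neg_smul, one_smul]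
    rw [sub_eq_add_neg]
  have hcoc : LZ U (dd one φ) := by
    intro x hx
    have hx0 : ∀ W : Set E3, IsOpen W → x ∈ W →
        ∀ᶠ t in 𝓝 (fun _ : Fin 2 => x), t 0 ∈ W ∧ t 1 ∈ W := by
      intro W hW hxW
      have h0 := ((continuous_apply (0 : Fin 2)).tendsto (fun _ : Fin 2 => x)).eventually
        (hW.mem_nhds hxW)
      have h1 := ((continuous_apply (1 : Fin 2)).tendsto (fun _ : Fin 2 => x)).eventually
        (hW.mem_nhds hxW)
      exact h0.and h1
    rcases hUAB hx with ha | hb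
    · filter_upwards [hx0 (A ∩ U) (hA.inter hU) ⟨ha, hx⟩] with t ht
      rw [hdd, hφ]
      show (if t 1 ∈ A ∩ U then (1 : ℤ) else 0) - (if t 0 ∈ A ∩ U then (1 : ℤ) else 0) = 0
      rw [if_pos ht.1, if_pos ht.2, sub_self]
    · filter_upwards [hx0 (B ∩ U) (hB.inter hU) ⟨hb, hx⟩] with t ht
      have n0 : t 0 ∉ A ∩ U := fun h0 => hdis _ h0.2 h0.1 ht.1.1
      have n1 : t 1 ∉ A ∩ U := fun h0 => hdis _ h0.2 h0.1 ht.2.1
      rw [hdd, hφ]
      show (if t 1 ∈ A ∩ U then (1 : ℤ) else 0) - (if t 0 ∈ A ∩ U then (1 : ℤ) else 0) = 0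
      rw [if_neg n0, if_neg n1, sub_self]
  obtain ⟨a, ha⟩ := h.2 ℤ φ hcoc
  obtain ⟨x, hxU, hxA⟩ := hUA
  obtain ⟨y, hyU, hyB⟩ := hUB
  have h1 : φ (fun _ => x) - a = 0 := (ha x hxU).self_of_nhds
  have h2 : φ (fun _ => y) - a = 0 := (ha y hyU).self_of_nhds
  have h3 : φ (fun _ => x) = 1 := by
    rw [hφ]
    exact if_pos ⟨hxA, hxU⟩
  have h4 : φ (fun _ => y) = 0 := by
    rw [hφ]
    exact if_neg fun h0 => hdis y hyU h0.1 hyB
  rw [h3] at h1
  rw [h4] at h2
  omega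

theorem cemb_exists {K : Set E3} (hK : IsClosed K) (h3 : E3 ≃ₜ Sph3)
    (x₀ : KnotCompl (h3 '' K)) :
    ∃ (ι : KnotCompl (h3 '' K) → E3) (κ : E3 → KnotCompl (h3 '' K)), CEmb K ι κ := by
  classical
  have hn : ∀ x : E3, x ∉ K → h3 x ∉ h3 '' K := by
    rintro x hx ⟨y, hy, hxy⟩
    exact hx (h3.injective hxy ▸ hy)
  refine ⟨fun x => h3.symm x.1, fun x => if hx : x ∉ K then ⟨h3 x, hn x hx⟩ else x₀,
    ?_, ?_, ?_, ?_, ?_⟩
  · exact h3.symm.continuous.comp continuous_subtype_val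
  · intro x hx
    exact x.2 ⟨h3.symm x.1, hx, h3.apply_symm_apply _⟩
  · intro x hx
    have hco : ContinuousOn (fun x : E3 => if hx : x ∉ K then
        (⟨h3 x, hn x hx⟩ : KnotCompl (h3 '' K)) else x₀) Kᶜ := by
      rw [continuousOn_iff_continuous_restrict]
      have h1 : (Kᶜ : Set E3).domRestrict (fun x : E3 => if hx : x ∉ K then
          (⟨h3 x, hn x hx⟩ : KnotCompl (h3 '' K)) else x₀) =
          fun x : (Kᶜ : Set E3) => (⟨h3 x.1, hn x.1 x.2⟩ : KnotCompl (h3 '' K)) := by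
        funext x
        show (if hx : x.1 ∉ K then (⟨h3 x.1, hn x.1 hx⟩ : KnotCompl (h3 '' K)) else x₀) = _
        have h5 : x.1 ∉ K := x.2
        rw [dif_pos h5]
      rw [h1]
      exact Continuous.subtype_mk (h3.continuous.comp continuous_subtype_val) _
    exact hco.continuousAt (hK.isOpen_compl.mem_nhds hx)
  · intro x
    have h1 : h3.symm x.1 ∉ K := fun h0 => x.2 ⟨h3.symm x.1, h0, h3.apply_symm_apply _⟩
    show (if hx : h3.symm x.1 ∉ K then (⟨h3 (h3.symm x.1), hn _ hx⟩ : KnotCompl (h3 '' K))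
      else x₀) = x
    rw [dif_pos h1]
    exact Subtype.ext (h3.apply_symm_apply _)
  · intro x hx
    show h3.symm (if hx : x ∉ K then (⟨h3 x, hn x hx⟩ : KnotCompl (h3 '' K)) else x₀).1 = x
    rw [dif_pos hx]
    exact h3.symm_apply_apply x

end PoolFbd
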