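import Pool.Agent.Work.MP_fbd21a_gt.PiDefs
import Pool.Agent.Work.MP_fbd21a_gt.Contr

/-! MODULE PiInt. Integrals of integral cocycles along paths.
For Y = unitInterval and Y = unitInterval × unitInterval: Acyc (univ : Set Y) (acyc_of_contraction, c s y = (1 - u s) y
coordinatewise, u the clamp to [0,1], x₀ = 0). So for continuous f : Y → X there is a potential p : Y → ℤ:
n (f (t 0)) (f (t 1)) = p (t 1) - p (t 0) for t near (y, y), all y; it is unique up to a constant (Y connected, locally
constant functions). J γ = p 1 - p 0 for f = γ. Homotopy F : (s,t) ↦ F s t, potential P on the square: P (0, ·) and P (1, ·) are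
potentials of the two paths, P (·, 0) and P (·, 1) are constant (n (x, x) = 0 by the cocycle identity).
trans: a potential P of the composite path gives the potentials t ↦ P (t/2) and t ↦ P ((1 + t)/2) of the two pieces.
local: V with n a b + n b c = n a c for a, b, c ∈ V; p t = n a (γ t). -/

open Topology Filter Set

namespace PoolFbd

private theorem pii_nb {Y : Type*} [TopologicalSpace Y] {n : ℕ} {y : Y}
    {P : (Fin n → Y) → Prop} :
    (∀ᶠ t in 𝓝 (fun _ : Fin n => y), P t) ↔ ∃ V ∈ 𝓝 y, ∀ t : Fin n → Y, (∀ k, t k ∈ V) → P t := by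
  constructor
  · intro h
    rw [nhds_pi] at h
    obtain ⟨I, _, u, hu, hsub⟩ := Filter.mem_pi.1 h
    refine ⟨⋂ k, u k, Filter.iInter_mem.2 hu, fun t ht => ?_⟩
    exact hsub (fun k _ => Set.mem_iInter.1 (ht k) k)
  · rintro ⟨V, hV, h⟩
    have h3 : ∀ᶠ t in 𝓝 (fun _ : Fin n => y), ∀ k : Fin n, t k ∈ V := by
      rw [eventually_all]
      exact fun k => ((continuous_apply k).tendsto (fun _ : Fin n => y)).eventually hV
    exact h3.mono h

/-- `p` is a potential of `m` -/
private def PotI {Y : Type} [TopologicalSpace Y] (m : Y → Y → ℤ) (p : Y → ℤ) : Prop :=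
  ∀ y, ∀ᶠ t in 𝓝 (fun _ : Fin 2 => y), m (t 0) (t 1) = p (t 1) - p (t 0)

private theorem pii_uniq {Y : Type} [TopologicalSpace Y] [PreconnectedSpace Y]
    {m : Y → Y → ℤ} {p p' : Y → ℤ} (h : PotI m p) (h' : PotI m p') (a b : Y) :
    p b - p a = p' b - p' a := by
  have h1 : IsLocallyConstant (fun y => p y - p' y) := by
    rw [IsLocallyConstant.iff_eventually_eq]
    intro y
    obtain ⟨V, hV, hVp⟩ := pii_nb.1 ((h y).and (h' y))
    filter_upwards [hV] with z hz
    have h2 := hVp ![y, z] (fun k => by
      fin_cases k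
      · exact mem_of_mem_nhds hV
      · exact hz)
    simp only [Matrix.cons_val_zero, Matrix.cons_val_one] at h2
    linarith [h2.1, h2.2]
  have h2 := h1.apply_eq_of_isPreconnected isPreconnected_univ (Set.mem_univ a) (Set.mem_univ b)
  linarith

private theorem pii_comp {Y Z : Type} [TopologicalSpace Y] [TopologicalSpace Z]
    {m : Y → Y → ℤ} {p : Y → ℤ} (h : PotI m p) {g : Z → Y} (hg : Continuous g) :
    PotI (fun a b => m (g a) (g b)) (fun z => p (g z)) := fun z =>
  (tendsto_pb hg.continuousAt).eventually (h (g z))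

private theorem pii_ex {Y : Type} [TopologicalSpace Y] (hY : Acyc (univ : Set Y))
    {m : Y → Y → ℤ} (hm : IsAd univ m) : ∃ p, PotI m p := by
  have h1 := (hY.2 ℤ).2 0 (fun t => m (t 0) (t 1)) (fun x hx => by
    filter_upwards [hm x hx] with t ht
    simp only [dd, one, one_smul, Fin.sum_univ_succ, Fin.sum_univ_zero]
    simp [Fin.succAbove]
    linarith)
  obtain ⟨ψ, _, hψ⟩ := h1
  refine ⟨fun y => ψ (fun _ => y), fun y => ?_⟩
  filter_upwards [hψ y (Set.mem_univ y)] with t ht
  simp only [Pi.sub_apply, dd, one, one_smul, Fin.sum_univ_succ, Fin.sum_univ_zero] at ht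
  have e1 : (fun j : Fin 1 => t j.succ) = fun _ => t 1 := by
    funext j
    fin_cases j
    rfl
  have e2 : (fun j : Fin 1 => t ((0 : Fin 1).succ.succAbove j)) = fun _ => t 0 := by
    funext j
    fin_cases j
    rfl
  rw [e1, e2] at ht
  simp at ht
  linarith

private theorem pii_acyc1 : Acyc (univ : Set unitInterval) := by
  refine acyc_of_contraction isCompact_univ (x₀ := 0) (Set.mem_univ _)
    (fun s y => unitInterval.symm (Set.projIcc 0 1 zero_le_one s) * y) ?_ ?_ ?_ ?_
  · refine Continuous.mul ?_ continuous_snd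
    exact unitInterval.continuous_symm.comp (continuous_projIcc.comp continuous_fst)
  · intro x
    simp [Set.projIcc_left]
  · intro x
    simp [Set.projIcc_right]
  · intro s _ x _
    exact Set.mem_univ _

private theorem pii_acyc2 : Acyc (univ : Set (unitInterval × unitInterval)) := by
  refine acyc_of_contraction isCompact_univ (x₀ := 0) (Set.mem_univ _)
    (fun s y => (unitInterval.symm (Set.projIcc 0 1 zero_le_one s) * y.1,
      unitInterval.symm (Set.projIcc 0 1 zero_le_one s) * y.2)) ?_ ?_ ?_ ?_
  · have h1 : Continuous fun p : ℝ × (unitInterval × unitInterval) =>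
        unitInterval.symm (Set.projIcc 0 1 zero_le_one p.1) :=
      unitInterval.continuous_symm.comp (continuous_projIcc.comp continuous_fst)
    exact (h1.mul (continuous_fst.comp continuous_snd)).prodMk
      (h1.mul (continuous_snd.comp continuous_snd))
  · intro x
    simp [Set.projIcc_left]
  · intro x
    simp [Set.projIcc_right]
  · intro s _ x _
    exact Set.mem_univ _

private theorem pii_self {X : Type} [TopologicalSpace X] {n : X → X → ℤ} (hn : IsAd univ n)
    (x : X) : n x x = 0 := by
  have h := (hn x (Set.mem_univ x)).self_of_nhds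
  simp only at h
  linarith

theorem pi_int {X : Type} [TopologicalSpace X] (n : X → X → ℤ) (hn : IsAd univ n) :
    ∃ J : (x y : X) → Path x y → ℤ,
      (∀ (x y : X) (γ γ' : Path x y), γ.Homotopic γ' → J x y γ = J x y γ') ∧
      (∀ (x y z : X) (γ : Path x y) (γ' : Path y z),
        J x z (γ.trans γ') = J x y γ + J y z γ') ∧
      ∀ x₁ : X, ∃ V ∈ 𝓝 x₁, ∀ (a b : X) (γ : Path a b), (∀ t, γ t ∈ V) → J a b γ = n a b := by
  have hpb : ∀ {Y : Type} [TopologicalSpace Y] (f : Y → X), Continuous f →
      IsAd univ (fun a b => n (f a) (f b)) := fun f hf y _ =>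
    (tendsto_pb hf.continuousAt).eventually (hn (f y) (Set.mem_univ _))
  have hex : ∀ (x y : X) (γ : Path x y), ∃ p, PotI (fun a b => n (γ a) (γ b)) p :=
    fun x y γ => pii_ex pii_acyc1 (hpb γ γ.continuous)
  choose p hp using hex
  refine ⟨fun x y γ => p x y γ 1 - p x y γ 0, ?_, ?_, ?_⟩
  · rintro x y γ γ' ⟨F⟩
    obtain ⟨P, hP⟩ := pii_ex pii_acyc2 (hpb (fun z => F z) F.continuous)
    have h0 := pii_comp hP (g := fun t : unitInterval => ((0 : unitInterval), t)) (by fun_prop)
    have h1 := pii_comp hP (g := fun t : unitInterval => ((1 : unitInterval), t)) (by fun_prop)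
    have h2 := pii_comp hP (g := fun s : unitInterval => (s, (0 : unitInterval))) (by fun_prop)
    have h3 := pii_comp hP (g := fun s : unitInterval => (s, (1 : unitInterval))) (by fun_prop)
    have e0 : (fun a b : unitInterval => n (F (0, a)) (F (0, b))) = fun a b => n (γ a) (γ b) := by
      funext a b
      simp
    have e1 : (fun a b : unitInterval => n (F (1, a)) (F (1, b))) = fun a b => n (γ' a) (γ' b) := by
      funext a b
      simp
    have e2 : (fun a b : unitInterval => n (F (a, 0)) (F (b, 0))) = fun _ _ => 0 := by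
      funext a b
      simp [pii_self hn]
    have e3 : (fun a b : unitInterval => n (F (a, 1)) (F (b, 1))) = fun _ _ => 0 := by
      funext a b
      simp [pii_self hn]
    rw [e0] at h0
    rw [e1] at h1
    rw [e2] at h2
    rw [e3] at h3
    have hc : PotI (fun _ _ : unitInterval => (0 : ℤ)) (fun _ => 0) := fun y =>
      Eventually.of_forall fun _ => by simp
    have g0 := pii_uniq (hp x y γ) h0 0 1
    have g1 := pii_uniq (hp x y γ') h1 0 1
    have g2 := pii_uniq h2 hc 0 1
    have g3 := pii_uniq h3 hc 0 1
    linarith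
  · intro x y z γ γ'
    have hP := hp x z (γ.trans γ')
    let g1 : unitInterval → unitInterval := fun t => ⟨(t : ℝ) / 2, by
      constructor
      · linarith [t.2.1]
      · linarith [t.2.2]⟩
    let g2 : unitInterval → unitInterval := fun t => ⟨(1 + (t : ℝ)) / 2, by
      constructor
      · linarith [t.2.1]
      · linarith [t.2.2]⟩
    have hg1 : Continuous g1 := by
      refine Continuous.subtype_mk ?_ _
      fun_prop
    have hg2 : Continuous g2 := by
      refine Continuous.subtype_mk ?_ _
      fun_prop
    have h1 := pii_comp hP hg1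
    have h2 := pii_comp hP hg2
    have f1 : ∀ t, (γ.trans γ') (g1 t) = γ t := by
      intro t
      rw [Path.trans_apply, dif_pos (show ((g1 t : unitInterval) : ℝ) ≤ 1 / 2 by
        change (t : ℝ) / 2 ≤ 1 / 2
        linarith [t.2.2])]
      congr 1
      apply Subtype.ext
      change 2 * ((t : ℝ) / 2) = t
      ring
    have f2 : ∀ t, (γ.trans γ') (g2 t) = γ' t := by
      intro t
      rcases eq_or_lt_of_le t.2.1 with h | h
      · have ht : t = 0 := Subtype.ext h.symm
        rw [Path.trans_apply, dif_pos (show ((g2 t : unitInterval) : ℝ) ≤ 1 / 2 by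
          change (1 + (t : ℝ)) / 2 ≤ 1 / 2
          linarith)]
        refine (congrArg γ (a₂ := 1) (Subtype.ext ?_)).trans ?_
        · change 2 * ((1 + (t : ℝ)) / 2) = 1
          linarith
        · rw [ht, γ'.source, γ.target]
      · rw [Path.trans_apply, dif_neg (show ¬ ((g2 t : unitInterval) : ℝ) ≤ 1 / 2 by
          change ¬ (1 + (t : ℝ)) / 2 ≤ 1 / 2
          linarith)]
        congr 1
        apply Subtype.ext
        change 2 * ((1 + (t : ℝ)) / 2) - 1 = t
        ring
    simp only [f1] at h1
    simp only [f2] at h2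
    have k1 := pii_uniq (hp x y γ) h1 0 1
    have k2 := pii_uniq (hp y z γ') h2 0 1
    have e1 : g1 0 = 0 := by
      apply Subtype.ext
      change ((0 : unitInterval) : ℝ) / 2 = 0
      simp
    have e2 : g2 1 = 1 := by
      apply Subtype.ext
      change (1 + ((1 : unitInterval) : ℝ)) / 2 = 1
      simp
    have e3 : g1 1 = g2 0 := by
      apply Subtype.ext
      change ((1 : unitInterval) : ℝ) / 2 = (1 + ((0 : unitInterval) : ℝ)) / 2
      simp
    rw [e1, e3] at k1
    rw [e2] at k2
    change p x z (γ.trans γ') 1 - p x z (γ.trans γ') 0 =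
      (p x y γ 1 - p x y γ 0) + (p y z γ' 1 - p y z γ' 0)
    linarith
  · intro x₁
    obtain ⟨V, hV, h⟩ := pii_nb.1 (hn x₁ (Set.mem_univ _))
    have h' : ∀ a ∈ V, ∀ b ∈ V, ∀ c ∈ V, n a b + n b c = n a c := by
      intro a ha b hb c hc
      have := h ![a, b, c] (fun k => by
        fin_cases k
        · exact ha
        · exact hb
        · exact hc)
      simpa using this
    refine ⟨V, hV, fun a b γ hγ => ?_⟩
    have ha : a ∈ V := by
      have := hγ 0
      rwa [γ.source] at this
    have h1 : PotI (fun s t => n (γ s) (γ t)) (fun t => n a (γ t)) := fun y =>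
      Eventually.of_forall fun t => by
        have := h' a ha (γ (t 0)) (hγ _) (γ (t 1)) (hγ _)
        linarith
    have h2 := pii_uniq (hp a b γ) h1 0 1
    simp only [γ.source, γ.target, pii_self hn] at h2
    change p a b γ 1 - p a b γ 0 = n a b
    linarith

end PoolFbd
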