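import Pool.Agent.Work.MP_fbd21a_gt.PiChain
import Pool.Agent.Work.MP_fbd21a_gt.PiInt

/-! MODULE PiThm. Existence of the path cocycle with all its properties.
lift: n an additive cocycle near X, J from pi_int. l γ = - J γ (Quotient.lift on path classes; p * q = q.trans p and
additivity; J of the constant path is n x x = 0 or from J (refl.trans refl) = 2 J refl and homotopy). J p.symm = - J p
(p.trans p.symm is homotopic to refl). l (gPC x y) = - (J p_y + J (segP y x) - J p_x) and near the diagonal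
J (segP y x) = n y x = - n x y (seg_loc with N = V of pi_int; n x y + n y x = n x x = 0). So
l (gPC x y) = n x y + s y - s x with s x = - J (bpP x₀ x). -/

open Topology Filter Set

namespace PoolFbd

theorem pco_exists {X E : Type} [TopologicalSpace X] [PathConnectedSpace X]
    [NormedAddCommGroup E] [NormedSpace ℝ E] {i : X → E} {q : E → X} {U : Set E}
    (h : Enr i q U) (x₀ : X) : PCo x₀ (gPC h x₀) := by
  refine ⟨gpc_coc h x₀, fun W hW γ => gpc_chain h x₀ W hW γ, fun n hn => ?_⟩
  obtain ⟨J, hJ1, hJ2, hJ3⟩ := pi_int n hn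
  have hrefl : ∀ x, J x x (Path.refl x) = 0 := by
    intro x
    have h1 := hJ2 x x x (Path.refl x) (Path.refl x)
    have h2 := hJ1 x x ((Path.refl x).trans (Path.refl x)) (Path.refl x)
      ⟨Path.Homotopy.reflTrans _⟩
    linarith
  have hsymm : ∀ (x y : X) (p : Path x y), J y x p.symm = - J x y p := by
    intro x y p
    have h1 := hJ2 x y x p p.symm
    have h2 := hJ1 x x (Path.refl x) (p.trans p.symm) ⟨Path.Homotopy.reflTransSymm p⟩
    rw [hrefl] at h2
    linarith
  let Jq : (x y : X) → Path.Homotopic.Quotient x y → ℤ := fun x y =>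
    Quotient.lift (J x y) (hJ1 x y)
  have hJq : ∀ (x y : X) (p : Path x y), Jq x y (Path.Homotopic.Quotient.mk p) = J x y p :=
    fun _ _ _ => rfl
  have hJqt : ∀ (x y z : X) (p : Path.Homotopic.Quotient x y) (p' : Path.Homotopic.Quotient y z),
      Jq x z (p.trans p') = Jq x y p + Jq y z p' := by
    intro x y z p p'
    induction p using Path.Homotopic.Quotient.ind with | mk p =>
    induction p' using Path.Homotopic.Quotient.ind with | mk p' =>
    rw [← Path.Homotopic.Quotient.mk_trans, hJq, hJq, hJq, hJ2]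
  let l : FundamentalGroup X x₀ →* Multiplicative ℤ :=
    { toFun := fun γ => Multiplicative.ofAdd (- Jq x₀ x₀ γ)
      map_one' := by
        change Multiplicative.ofAdd (- Jq x₀ x₀ (Path.Homotopic.Quotient.mk (Path.refl x₀))) = 1
        rw [hJq, hrefl, neg_zero, ofAdd_zero]
      map_mul' := by
        intro p p'
        change Multiplicative.ofAdd (- Jq x₀ x₀ (Path.Homotopic.Quotient.trans p' p)) = _
        rw [hJqt, ← ofAdd_add]
        congr 1
        ring }
  refine ⟨l, fun x => - J x₀ x (bpP x₀ x), fun x => ?_⟩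
  obtain ⟨V, hV, hVJ⟩ := hJ3 x
  obtain ⟨V', hV', hseg, _⟩ := seg_loc h x hV
  have h1 : ∀ᶠ t in 𝓝 (fun _ : Fin 2 => x), ∀ k : Fin 2, t k ∈ V' := by
    rw [eventually_all]
    exact fun k => ((continuous_apply k).tendsto (fun _ : Fin 2 => x)).eventually hV'
  have h2 : ∀ᶠ t in 𝓝 (fun _ : Fin 2 => x), n (t 0) (t 1) + n (t 1) (t 0) = n (t 0) (t 0) :=
    (tendsto_face (![0, 1, 0] : Fin 3 → Fin 2) x).eventually (hn x (Set.mem_univ x))
  have h3 : ∀ᶠ t in 𝓝 (fun _ : Fin 2 => x), n (t 0) (t 0) + n (t 0) (t 0) = n (t 0) (t 0) :=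
    (tendsto_face (![0, 0, 0] : Fin 3 → Fin 2) x).eventually (hn x (Set.mem_univ x))
  filter_upwards [h1, h2, h3] with t ht1 ht2 ht3
  change - Jq x₀ x₀ (Path.Homotopic.Quotient.mk (((bpP x₀ (t 1)).trans
    (segP h (t 1) (t 0))).trans (bpP x₀ (t 0)).symm)) = _
  rw [hJq, hJ2, hJ2, hsymm, hVJ _ _ _ (fun s => hseg _ (ht1 1) _ (ht1 0) s)]
  linarith

end PoolFbd
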