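import Pool.Agent.Work.MP_fbd21a_gt.NoSmall
import Pool.Agent.Work.MP_fbd21a_gt.BallQ
import Pool.Agent.Work.MP_fbd21a_gt.PiSph
import Pool.Agent.Work.MP_fbd21a_gt.PiThm
import Pool.Agent.Work.MP_fbd21a_gt.AxThm

/-! MODULE MainF. The final theorem.
PROOF. h, h3 from ballq_exists, γ from kn_circle; the knot is h3 ∘ γ with range h3 '' Kn. FlatKnot: kn_flat, knot_trans.
For x₀: Knᶜ is Conn0 (tame_compl, e3_conn1, kn_tame), connected (conn0_conn), its image under h3 is the complement of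
h3 '' Kn; compl_path, enr_compl, pco_exists, cemb_exists, geo_knot, alex_bound: finite and finrank ≤ 2.
If F has genus g ≤ 1: no_small. So 2 ≤ g and finrank ≤ 2 < 2 g. -/

open Topology Filter Set

namespace PoolFbd

theorem main_thm : ∃ γ : Circle → Sph3, Continuous γ ∧ Function.Injective γ ∧
    FlatKnot (range γ) ∧ (∀ z : Circle, rhoS (γ z) = γ z⁻¹) ∧
    ∀ x₀ : KnotCompl (range γ), Module.Finite ℚ (AlexDual (range γ) x₀) ∧
      ∀ (g : ℕ) (F : Set Ball4), FlatSurf g (range γ) F →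
        (∃ rb : Ball4 → Ball4, Continuous rb ∧ (∀ x, rb (rb x) = x) ∧
          (∀ x, rb (sIn x) = sIn (rhoS x)) ∧ rb '' F = F) →
        Module.finrank ℚ (AlexDual (range γ) x₀) < 2 * g := by
  obtain ⟨h, h3, h1, h2, h4, h5⟩ := ballq_exists
  obtain ⟨γ, hγc, hγi, hγr, hγρ⟩ := kn_circle
  have hrange : range (fun z => h3 (γ z)) = h3 '' Kn := by
    rw [← hγr, ← range_comp]
    rfl
  refine ⟨fun z => h3 (γ z), h3.continuous.comp hγc, h3.injective.comp hγi, ?_, ?_, ?_⟩
  · rw [hrange]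
    exact knot_trans (fun p hp => kn_flat hp) h3
  · intro z
    show rhoS (h3 (γ z)) = h3 (γ z⁻¹)
    rw [← hγρ, ← h4]
  · rw [hrange]
    intro x₀
    have hKc : IsClosed (h3 '' Kn) := h3.isClosedMap _ kn_tame.1
    have hconn : IsConnected (h3 '' Kn)ᶜ := by
      have e1 : Conn0 Knᶜ := tame_compl e3_conn1.1 kn_tame
      have e2 : IsConnected Knᶜ := conn0_conn kn_tame.1.isOpen_compl e1
      rw [← image_compl_eq h3.bijective]
      exact e2.image _ h3.continuous.continuousOn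
    have := compl_path hKc hconn
    obtain ⟨i, q, U, hE⟩ := enr_compl hKc x₀
    have hpco := pco_exists hE x₀
    obtain ⟨ι, κ, hC⟩ := cemb_exists kn_tame.1 h3 x₀
    obtain ⟨g, u, k, hgeo⟩ := geo_knot
    have hb := alex_bound hgeo hC hpco
    refine ⟨hb.1, fun n F hF hrb => ?_⟩
    obtain ⟨rb, r1, r2, r3, r4⟩ := hrb
    by_contra hlt
    have hn : n ≤ 1 := by
      have h6 := hb.2
      have h7 : 2 * n ≤ 2 := (not_lt.1 hlt).trans h6
      omega
    exact no_small hn h h3 h1 h2 h4 hF r1 r2 r3 r4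

end PoolFbd
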