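import Pool.Agent.Work.MP_fbd21a_gt.Count2
import Pool.Agent.Work.MP_fbd21a_gt.DdDd

/-! MODULE Mod2. Integral twisted classes modulo two.
PROOF. Reduce modulo 2: x̄_i = cmap (Int.castRingHom (ZMod 2)) (x_i); the sign twist acts trivially on
ZMod 2 valued cochains (u • a = a for a in ZMod 2, u = ±1), so dd τ = dd one there and x̄_i is a relative
cocycle. count2: x̄_i - x̄_j = dd one v̄ near univ, v̄ zero near F ∪ bd 4. Lift v̄ to an integral v with
v t = 0 where v̄ t = 0 (ZMod.val or 0/1). Near univ x_i - x_j - dd τ v is even valued; let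
y t = (x_i - x_j - dd τ v) t / 2 (integer division). y is zero near F ∪ bd; 2 dd τ y = dd τ (..) = 0 near
univ (off F: dd dd v = 0 as τ is a twist there; near F all vanish), so dd τ y = 0.
x_i - x_j - 2 • y = dd τ v near univ. -/

open Topology Filter Set

namespace PoolFbd

private theorem m2_smul (u : ℤˣ) (a : ZMod 2) : u • a = a := by
  rcases Int.units_eq_one_or u with h | h
  · rw [h, one_smul]
  · rw [h, Units.smul_def]
    simp

private theorem m2_dd {E : Type*} (τ : E → E → ℤˣ) {n : ℕ} (φ : Coch E (ZMod 2) n) :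
    dd τ φ = dd one φ := by
  funext t
  simp only [dd, m2_smul]

private theorem m2_cast (u : ℤˣ) (a : ℤ) :
    (Int.castAddHom (ZMod 2)) (u • a) = u • (Int.castAddHom (ZMod 2)) a := by
  rw [m2_smul]
  rcases Int.units_eq_one_or u with h | h
  · rw [h, one_smul]
  · rw [h, Units.smul_def]
    simp

private theorem m2_cob {F : Set (Q 4)} {τ : Q 4 → Q 4 → ℤˣ} (hτ : IsTw Fᶜ τ) :
    IsTw (univ \ (F ∪ bd 4)) τ :=
  hτ.mono fun _ hx hF => hx.2 (Or.inl hF)

theorem mod2 {F : Set (Q 4)} (hF : IsClosed F) {τ : Q 4 → Q 4 → ℤˣ} (hτ : IsTw Fᶜ τ)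
    (hconn : Conn0 (F ∩ bd 4))
    (h4 : ∀ s : Fin 5 → Coch (Q 4) (ZMod 2) 1, (∀ i, LZ F (dd one (s i))) →
      ∃ i j, i ≠ j ∧ Cob one F ∅ (s i - s j))
    (x : Fin 5 → Coch (Q 4) ℤ 2) (hx : ∀ i, Coc τ univ (F ∪ bd 4) (x i)) :
    ∃ i j, i ≠ j ∧ ∃ y : Coch (Q 4) ℤ 2, Coc τ univ (F ∪ bd 4) y ∧
      Cob τ univ (F ∪ bd 4) (x i - x j - (2 : ℤ) • y) := by
  have hxb : ∀ i, Coc one univ (F ∪ bd 4) (cmap (Int.castAddHom (ZMod 2)) (x i)) := by
    intro i
    refine ⟨(hx i).1.cmap _ (map_zero _), ?_⟩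
    rw [← m2_dd τ, dd_cmap _ _ _ m2_cast]
    exact (hx i).2.cmap _ (map_zero _)
  obtain ⟨i, j, hij, vb, hvb1, hvb2⟩ := count2 hF hconn h4 _ hxb
  rw [← m2_dd τ] at hvb2
  -- the lift
  obtain ⟨v, hv, hv0⟩ : ∃ v : Coch (Q 4) ℤ 1, cmap (Int.castAddHom (ZMod 2)) v = vb ∧
      ∀ t, vb t = 0 → v t = 0 := by
    refine ⟨fun t => ((vb t).val : ℤ), ?_, ?_⟩
    · funext t
      simp [cmap]
    · intro t ht
      simp [ht]
  have hvZ : LZ (F ∪ bd 4) v := fun p hp => by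
    filter_upwards [hvb1 p hp] with t ht
    exact hv0 t ht
  obtain ⟨D, hD⟩ : ∃ D : Coch (Q 4) ℤ 2, D = x i - x j - dd τ v := ⟨_, rfl⟩
  have hDb : LZ univ (cmap (Int.castAddHom (ZMod 2)) D) := by
    have e : cmap (Int.castAddHom (ZMod 2)) D = cmap (Int.castAddHom (ZMod 2)) (x i) -
        cmap (Int.castAddHom (ZMod 2)) (x j) - dd τ vb := by
      rw [← hv, dd_cmap _ _ _ m2_cast, hD]
      funext t
      simp [cmap]
    rw [e]
    exact hvb2
  obtain ⟨y, hy⟩ : ∃ y : Coch (Q 4) ℤ 2, y = fun t => D t / 2 := ⟨_, rfl⟩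
  have hDy : LZ univ (D - (2 : ℤ) • y) := fun p hp => by
    filter_upwards [hDb p hp] with t ht
    have h1 : ((D t : ℤ) : ZMod 2) = 0 := ht
    rw [ZMod.intCast_zmod_eq_zero_iff_dvd] at h1
    rw [hy]
    change D t - (2 : ℤ) • (D t / 2) = 0
    rw [smul_eq_mul]
    have h2 : (2 : ℤ) ∣ D t := by exact_mod_cast h1
    omega
  have hDZ : LZ (F ∪ bd 4) D := by
    rw [hD]
    exact ((hx i).1.sub (hx j).1).sub (hvZ.dd τ)
  have hyZ : LZ (F ∪ bd 4) y := fun p hp => by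
    filter_upwards [hDZ p hp] with t ht
    rw [hy]
    change D t / 2 = 0
    rw [ht]
    rfl
  refine ⟨i, j, hij, y, ⟨hyZ, ?_⟩, v, hvZ, ?_⟩
  · have h1 : LZ univ (dd τ D) := by
      rw [hD, dd_sub, dd_sub]
      exact ((hx i).2.sub (hx j).2).sub (LZ_dd_dd' (m2_cob hτ) hvZ)
    have h2 : LZ univ (dd τ ((2 : ℤ) • y)) := by
      have h3 : LZ univ (dd τ ((2 : ℤ) • y) - dd τ D) := by
        rw [← dd_sub]
        exact hDy.symm.dd τ
      exact h3.congr h1
    rw [two_zsmul, dd_add] at h2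
    intro p hp
    filter_upwards [h2 p hp] with t ht
    have h4 : dd τ y t + dd τ y t = 0 := ht
    omega
  · have e : x i - x j - (2 : ℤ) • y - dd τ v = D - (2 : ℤ) • y := by
      rw [hD]
      abel
    rw [e]
    exact hDy

end PoolFbd
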