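import Pool.Agent.Work.MP_fbd21a_gt.PgPot

/-! MODULE PgSurf. First cohomology of the standard surfaces.
Write ê z = e (Quot.mk _ z) : Disk → X, continuous, F = range e = ê '' univ. For a cocycle φ near F: pb ê φ is a
cocycle near univ, disk_pot gives p. ê (bpt g (4 i + s)) = ê (bpt g (4 i + 3 - s)) and
ê (bpt g (4 i + 1 + s)) = ê (bpt g (4 i + 4 - s)) (Quot.sound): side_const gives the two constants
a i = p (bpt (4i + s)) - p (bpt (4i + 3 - s)), b i = p (bpt (4i + 1 + s)) - p (bpt (4i + 4 - s)). bpt g continuous.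
pg_cls: inv φ i = (a i, b i) if φ is a cocycle near F (any choice of p; other cochains: 0). If φ, φ' have the same
invariants, q = p - p' satisfies q z = q w whenever glu g z w, so q factors through Quot: q z = V (ê z) for a function
V : X → A (ê z = ê w iff Quot.mk z = Quot.mk w, Quot.lift). pg_desc with C = univ for φ - φ'.
pg_four: ZMod 2 and g ≤ 1: Fin g → ZMod 2 × ZMod 2 has at most 4 elements, pigeonhole for 5 cocycles.
pg_bd: from the constants at s = 0, 1: p(4i+1) - p(4i+2) = a i = p(4i) - p(4i+3) and p(4i+1) - p(4i+4) = b i =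
p(4i+2) - p(4i+3), so p(4i+4) = p(4i), p(4g) = p(0) (p(j) = p (bpt g j)), bpt g (4g+1) = bpt g 0.
C = {bpt g (4g + s) | s ∈ [0,1]} (compact). q z = if z ∈ C then p z else p (bpt g 0). q is invariant under glu g:
for t ∈ [0, 4g] the point bpt g t lies in C only if it is bpt g 0 or bpt g (4g) (injectivity of bpt g modulo
4g + 1), so q (bpt g t) = p (bpt g 0) in all cases. So q factors through Quot, q z = V (ê z); pg_desc with C, p near C.
pg_conn: Disk is preconnected (convex), image under ê. -/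

open Topology Filter Set

namespace PoolFbd

theorem bpt_cont (g : ℕ) : Continuous (bpt g) := by
  refine Continuous.subtype_mk ?_ _
  refine Complex.continuous_exp.comp ((Complex.continuous_ofReal.comp ?_).mul continuous_const)
  exact (continuous_const.mul continuous_id).div_const _

private theorem bpt_inj {g : ℕ} {t t' : ℝ} (h : bpt g t = bpt g t') :
    ∃ n : ℤ, t = t' + n * (4 * g + 1) := by
  have h1 : Complex.exp ((2 * Real.pi * t / (4 * g + 1) : ℝ) * Complex.I) =
      Complex.exp ((2 * Real.pi * t' / (4 * g + 1) : ℝ) * Complex.I) := congrArg Subtype.val h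
  rw [Complex.exp_eq_exp_iff_exists_int] at h1
  obtain ⟨n, hn⟩ := h1
  have hg : (0 : ℝ) < 4 * g + 1 := by positivity
  have h3 : 2 * Real.pi * t / (4 * g + 1) = 2 * Real.pi * t' / (4 * g + 1) + n * (2 * Real.pi) := by
    generalize 2 * Real.pi * t / (4 * g + 1) = a at hn ⊢
    generalize 2 * Real.pi * t' / (4 * g + 1) = b at hn ⊢
    have h2 := congrArg Complex.im hn
    simpa using h2
  have hpi := Real.pi_pos
  refine ⟨n, ?_⟩
  field_simp at h3
  linarith

variable {X : Type} [MetricSpace X] {g : ℕ} {e : StdSurf g → X}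

private theorem pe_cont {X : Type} [TopologicalSpace X] {e : StdSurf g → X} (he : Continuous e) :
    Continuous fun z : Disk => e (Quot.mk _ z) := he.comp continuous_quot_mk

omit [MetricSpace X] in
private theorem pe_range (e : StdSurf g → X) : (fun z : Disk => e (Quot.mk _ z)) '' univ = range e := by
  rw [image_univ]
  exact (Quot.mk_surjective).range_comp e

private theorem pe_pot (he : Continuous e) {A : Type} [AddCommGroup A] {φ : Coch X A 1}
    (hφ : LZ (range e) (dd one φ)) : ∃ p : Disk → A, ∀ z, ∀ᶠ t in 𝓝 (fun _ : Fin 2 => z),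
      φ (fun j => e (Quot.mk _ (t j))) = p (t 1) - p (t 0) := by
  have h : LZ univ (dd one (pb (fun z : Disk => e (Quot.mk _ z)) φ)) := by
    have e1 : dd one (pb (fun z : Disk => e (Quot.mk _ z)) φ) =
        pb (fun z : Disk => e (Quot.mk _ z)) (dd one φ) := dd_pb _ one φ
    rw [e1]
    exact LZ.pb (S' := range e) (fun z _ => ⟨(pe_cont he).continuousAt, mem_range_self _⟩) hφ
  exact disk_pot h

private theorem pe_side {A : Type} [AddCommGroup A] {φ : Coch X A 1}
    {p : Disk → A} (hp : ∀ z, ∀ᶠ t in 𝓝 (fun _ : Fin 2 => z),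
      φ (fun j => e (Quot.mk _ (t j))) = p (t 1) - p (t 0)) {i : ℕ} (hi : i < g) :
    (∀ s ∈ Icc (0 : ℝ) 1, p (bpt g (4 * i + s)) - p (bpt g (4 * i + 3 - s)) =
      p (bpt g (4 * i)) - p (bpt g (4 * i + 3))) ∧
    ∀ s ∈ Icc (0 : ℝ) 1, p (bpt g (4 * i + 1 + s)) - p (bpt g (4 * i + 4 - s)) =
      p (bpt g (4 * i + 1)) - p (bpt g (4 * i + 4)) := by
  have hb := bpt_cont g
  constructor
  · obtain ⟨a, ha⟩ := side_const (e := fun z : Disk => e (Quot.mk _ z)) hp
      (α := fun s => bpt g (4 * i + s)) (α' := fun s => bpt g (4 * i + 3 - s))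
      (hb.comp (continuous_const.add continuous_id))
      (hb.comp (continuous_const.sub continuous_id))
      (fun s hs => congrArg e (Quot.sound ⟨i, hi, s, hs, Or.inl ⟨rfl, rfl⟩⟩))
    intro s hs
    have h0 := ha 0 ⟨le_rfl, zero_le_one⟩
    simp only [add_zero, sub_zero] at h0
    rw [h0]
    exact ha s hs
  · obtain ⟨a, ha⟩ := side_const (e := fun z : Disk => e (Quot.mk _ z)) hp
      (α := fun s => bpt g (4 * i + 1 + s)) (α' := fun s => bpt g (4 * i + 4 - s))
      (hb.comp (continuous_const.add continuous_id))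
      (hb.comp (continuous_const.sub continuous_id))
      (fun s hs => congrArg e (Quot.sound ⟨i, hi, s, hs, Or.inr ⟨rfl, rfl⟩⟩))
    intro s hs
    have h0 := ha 0 ⟨le_rfl, zero_le_one⟩
    simp only [add_zero, sub_zero] at h0
    rw [h0]
    exact ha s hs

open Classical in
private noncomputable def pep (e : StdSurf g → X) (A : Type) [AddCommGroup A]
    (φ : Coch X A 1) : Disk → A :=
  if h : ∃ p : Disk → A, ∀ z, ∀ᶠ t in 𝓝 (fun _ : Fin 2 => z),
      φ (fun j => e (Quot.mk _ (t j))) = p (t 1) - p (t 0) then h.choose else 0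

private theorem pep_spec (he : Continuous e) {A : Type} [AddCommGroup A] {φ : Coch X A 1}
    (hφ : LZ (range e) (dd one φ)) : ∀ z, ∀ᶠ t in 𝓝 (fun _ : Fin 2 => z),
      φ (fun j => e (Quot.mk _ (t j))) = pep e A φ (t 1) - pep e A φ (t 0) := by
  have h := pe_pot he hφ
  unfold pep
  rw [dif_pos h]
  exact h.choose_spec

omit [MetricSpace X] in
/-- A function on the disk invariant under the gluing descends along an injective map. -/
private theorem pe_desc (hi : Function.Injective e) {A : Type} [AddCommGroup A] (q : Disk → A)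
    (hq : ∀ z w, glu g z w → q z = q w) : ∃ V : X → A, ∀ z, V (e (Quot.mk _ z)) = q z := by
  refine ⟨Function.extend e (Quot.lift q hq) 0, fun z => ?_⟩
  rw [hi.extend_apply]

theorem pg_cls {X : Type} [MetricSpace X] {g : ℕ} {e : StdSurf g → X} (he : Continuous e)
    (hi : Function.Injective e) (A : Type) [AddCommGroup A] :
    ∃ inv : Coch X A 1 → Fin g → A × A, ∀ φ φ' : Coch X A 1, LZ (range e) (dd one φ) →
      LZ (range e) (dd one φ') → inv φ = inv φ' → Cob one (range e) ∅ (φ - φ') := by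
  refine ⟨fun φ i => (pep e A φ (bpt g (4 * (i : ℕ))) - pep e A φ (bpt g (4 * (i : ℕ) + 3)),
    pep e A φ (bpt g (4 * (i : ℕ) + 1)) - pep e A φ (bpt g (4 * (i : ℕ) + 4))),
    fun φ φ' h h' hinv => ?_⟩
  have hp := pep_spec he h
  have hp' := pep_spec he h'
  set p := pep e A φ with hpdef
  set p' := pep e A φ' with hpdef'
  have hq : ∀ z w, glu g z w → (p - p') z = (p - p') w := by
    rintro z w ⟨i, hig, s, hs, hzw⟩
    have h1 := congrFun hinv ⟨i, hig⟩
    simp only [Prod.mk.injEq] at h1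
    obtain ⟨h1, h2⟩ := h1
    obtain ⟨s1, s2⟩ := pe_side hp hig
    obtain ⟨s1', s2'⟩ := pe_side hp' hig
    rcases hzw with ⟨rfl, rfl⟩ | ⟨rfl, rfl⟩
    · have e1 := s1 s hs
      have e2 := s1' s hs
      rw [h1, ← e2] at e1
      simp only [Pi.sub_apply]
      rw [sub_eq_sub_iff_add_eq_add] at e1 ⊢
      rw [e1, add_comm]
    · have e1 := s2 s hs
      have e2 := s2' s hs
      rw [h2, ← e2] at e1
      simp only [Pi.sub_apply]
      rw [sub_eq_sub_iff_add_eq_add] at e1 ⊢
      rw [e1, add_comm]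
  obtain ⟨V, hV⟩ := pe_desc hi (p - p') hq
  have h3 : LZ (range e) (dd one (φ - φ')) := by
    rw [dd_sub]
    exact h.sub h'
  rw [← pe_range e] at h3 ⊢
  refine pg_desc (pe_cont he) isClosed_univ h3 (p - p') V (fun z _ => hV z) fun z _ => ?_
  filter_upwards [hp z, hp' z] with t h4 h5 _ _
  change φ (fun j => e (Quot.mk _ (t j))) - φ' (fun j => e (Quot.mk _ (t j))) =
    (p (t 1) - p' (t 1)) - (p (t 0) - p' (t 0))
  rw [h4, h5]
  abel

theorem pg_four {X : Type} [MetricSpace X] {g : ℕ} (hg : g ≤ 1) {e : StdSurf g → X}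
    (he : Continuous e) (hi : Function.Injective e) (s : Fin 5 → Coch X (ZMod 2) 1)
    (hs : ∀ i, LZ (range e) (dd one (s i))) :
    ∃ i j, i ≠ j ∧ Cob one (range e) ∅ (s i - s j) := by
  obtain ⟨inv, hinv⟩ := pg_cls he hi (ZMod 2)
  have hcard : Fintype.card (Fin g → ZMod 2 × ZMod 2) < Fintype.card (Fin 5) := by
    rw [Fintype.card_fun, Fintype.card_prod, ZMod.card, Fintype.card_fin, Fintype.card_fin]
    calc (2 * 2) ^ g ≤ (2 * 2) ^ 1 := Nat.pow_le_pow_right (by norm_num) hg
      _ < 5 := by norm_num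
  obtain ⟨i, j, hij, h⟩ := Fintype.exists_ne_map_eq_of_card_lt (fun i => inv (s i)) hcard
  exact ⟨i, j, hij, hinv _ _ (hs i) (hs j) h⟩

private theorem bpt_close (g : ℕ) : bpt g (4 * g + 1) = bpt g 0 := by
  apply Subtype.ext
  have hg : (4 * (g : ℝ) + 1) ≠ 0 := by positivity
  change Complex.exp ((2 * Real.pi * (4 * g + 1) / (4 * g + 1) : ℝ) * Complex.I) =
      Complex.exp ((2 * Real.pi * 0 / (4 * g + 1) : ℝ) * Complex.I)
  rw [mul_div_assoc, div_self hg]
  simp

theorem pg_bd {X : Type} [MetricSpace X] {g : ℕ} {e : StdSurf g → X} (he : Continuous e)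
    (hi : Function.Injective e) {A : Type} [AddCommGroup A] {φ : Coch X A 1}
    (hφ : LZ (range e) (dd one φ)) : Cob one (e '' stdBd g) ∅ φ := by
  classical
  obtain ⟨p, hp⟩ := pe_pot he hφ
  -- closing up
  have hstep : ∀ i < g, p (bpt g (4 * ((i + 1 : ℕ) : ℝ))) = p (bpt g (4 * (i : ℝ))) := by
    intro i hig
    obtain ⟨s1, s2⟩ := pe_side hp hig
    have a1 := s1 1 ⟨zero_le_one, le_rfl⟩
    have a2 := s2 1 ⟨zero_le_one, le_rfl⟩
    rw [show (4 * (i : ℝ) + 3 - 1) = 4 * i + 2 by ring] at a1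
    rw [show (4 * (i : ℝ) + 1 + 1) = 4 * i + 2 by ring,
      show (4 * (i : ℝ) + 4 - 1) = 4 * i + 3 by ring] at a2
    have h3 : (4 * ((i + 1 : ℕ) : ℝ)) = 4 * i + 4 := by push_cast; ring
    rw [h3]
    have h4 : p (bpt g (4 * i + 4)) = p (bpt g (4 * i + 1)) -
        (p (bpt g (4 * i + 2)) - p (bpt g (4 * i + 3))) := by rw [a2]; abel
    rw [h4]
    have h5 : p (bpt g (4 * i)) = (p (bpt g (4 * i + 1)) - p (bpt g (4 * i + 2))) +
        p (bpt g (4 * i + 3)) := by rw [a1]; abel
    rw [h5]
    abel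
  have hall : ∀ i ≤ g, p (bpt g (4 * (i : ℝ))) = p (bpt g 0) := by
    intro i
    induction i with
    | zero => intro _; simp
    | succ i ih => intro h; rw [hstep i h, ih (Nat.le_of_succ_le h)]
  set C : Set Disk := (fun s : ℝ => bpt g (4 * g + s)) '' Icc 0 1 with hC
  have hCc : IsClosed C :=
    (isCompact_Icc.image ((bpt_cont g).comp (continuous_const.add continuous_id))).isClosed
  let q : Disk → A := fun z => if z ∈ C then p z else p (bpt g 0)
  have hqt : ∀ t : ℝ, 0 ≤ t → t ≤ 4 * g → q (bpt g t) = p (bpt g 0) := by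
    intro t ht0 ht1
    by_cases hz : bpt g t ∈ C
    · change (if bpt g t ∈ C then p (bpt g t) else p (bpt g 0)) = p (bpt g 0)
      rw [if_pos hz]
      obtain ⟨s, hs, hst⟩ := hz
      obtain ⟨n, hn⟩ := bpt_inj hst
      have hgp : (0 : ℝ) < 4 * g + 1 := by positivity
      have hs0 := hs.1
      have hs1 := hs.2
      have hn0 : (0 : ℝ) ≤ n * (4 * g + 1) := by linarith
      have hn1 : (n : ℝ) * (4 * g + 1) ≤ 4 * g + 1 := by linarith
      have m0 : (0 : ℝ) ≤ n := by
        by_contra hc
        push Not at hc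
        nlinarith
      have m1 : (n : ℝ) ≤ 1 := by
        by_contra hc
        push Not at hc
        nlinarith
      have m0' : (0 : ℤ) ≤ n := by exact_mod_cast m0
      have m1' : n ≤ 1 := by exact_mod_cast m1
      have hn2 : n = 0 ∨ n = 1 := by omega
      rcases hn2 with rfl | rfl
      · have ht : t = 4 * g := by
          push_cast at hn
          linarith
        rw [ht]
        exact hall g le_rfl
      · have ht : t = 0 := by
          push_cast at hn
          linarith
        rw [ht]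
    · change (if bpt g t ∈ C then p (bpt g t) else p (bpt g 0)) = p (bpt g 0)
      rw [if_neg hz]
  have hq : ∀ z w, glu g z w → q z = q w := by
    rintro z w ⟨i, hig, s, hs, hzw⟩
    have hs0 := hs.1
    have hs1 := hs.2
    have hi0 : (0 : ℝ) ≤ i := Nat.cast_nonneg i
    have hi1 : (i : ℝ) + 1 ≤ g := by exact_mod_cast hig
    rcases hzw with ⟨rfl, rfl⟩ | ⟨rfl, rfl⟩
    · rw [hqt _ (by linarith) (by linarith), hqt _ (by linarith) (by linarith)]
    · rw [hqt _ (by linarith) (by linarith), hqt _ (by linarith) (by linarith)]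
  obtain ⟨V, hV⟩ := pe_desc hi q hq
  have himg : (fun z : Disk => e (Quot.mk _ z)) '' C = e '' stdBd g := by
    ext x
    constructor
    · rintro ⟨z, ⟨s, hs, rfl⟩, rfl⟩
      exact ⟨_, ⟨s, hs, rfl⟩, rfl⟩
    · rintro ⟨y, ⟨s, hs, rfl⟩, rfl⟩
      exact ⟨_, ⟨s, hs, rfl⟩, rfl⟩
  have h3 : LZ ((fun z : Disk => e (Quot.mk _ z)) '' C) (dd one φ) := by
    refine hφ.mono ?_
    rintro x ⟨z, _, rfl⟩
    exact ⟨_, rfl⟩
  rw [← himg]
  refine pg_desc (pe_cont he) hCc h3 q V (fun z _ => hV z) fun z _ => ?_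
  filter_upwards [hp z] with t h4 h5 h6
  change φ (fun j => e (Quot.mk _ (t j))) = (if t 1 ∈ C then p (t 1) else p (bpt g 0)) -
    (if t 0 ∈ C then p (t 0) else p (bpt g 0))
  rw [if_pos h5, if_pos h6, h4]

theorem pg_conn {X : Type} [TopologicalSpace X] {g : ℕ} {e : StdSurf g → X}
    (he : Continuous e) : IsPreconnected (range e) := by
  have h1 : range (fun z : Disk => e (Quot.mk _ z)) = range e := (Quot.mk_surjective).range_comp e
  rw [← h1]
  have : PreconnectedSpace Disk :=
    Subtype.preconnectedSpace (convex_closedBall (0 : ℂ) 1).isPreconnected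
  exact isPreconnected_range (pe_cont he)

theorem pg_compact {X : Type} [TopologicalSpace X] {g : ℕ} {e : StdSurf g → X}
    (he : Continuous e) : IsCompact (range e) := by
  have h1 : range (fun z : Disk => e (Quot.mk _ z)) = range e := (Quot.mk_surjective).range_comp e
  rw [← h1]
  exact isCompact_range (pe_cont he)

end PoolFbd
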