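import Pool.Agent.Work.MP_fbd21a_gt.GeoH
import Pool.Agent.Work.MP_fbd21a_gt.KFThm
import Pool.Agent.Work.MP_fbd21a_gt.Final4
import Pool.Agent.Work.MP_fbd21a_gt.KnFlat
import Pool.Agent.Work.MP_fbd21a_gt.PgSurf
import Pool.Agent.Work.MP_fbd21a_gt.ChTrans

/-! MODULE NoSmall. No invariant surface of genus at most one.
PROOF. F' = h ⁻¹' F, rb' = h.symm ∘ rb ∘ h, e' = h.symm ∘ e with e from hF.par. F' = range e', closed (pg_compact).
Surf4 F' rb' Kn: tame: surf_tame; conn: pg_conn; bdry: x = io y for x ∈ bd 4, h (io y) = sIn (h3 y), so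
rb' x = h.symm (sIn (rhoS (h3 y))) = h.symm (sIn (h3 (rho3 y))) = io (rho3 y) = rho x; fk: io x ∈ F' iff sIn (h3 x) ∈ F iff
h3 x ∈ h3 '' Kn (hF.proper, sIn injective). e' '' stdBd g = F' ∩ bd 4 = io '' Kn.
geo_knot, kf_thm (kn_tame, kn_conn): KTw, c, KFacts. k₃ : Coch E3 ℤ 1 with Grph Kn ![k₃];
k = pb rad (smulC k₃ (1 : ZMod 2)): hk by LZ.pb (rad_cont_bd, rad_io). hno: if LZ F' (dd one φ) and
Cob one (F' ∩ bd 4) ∅ (k - φ), then φ is a coboundary near F' ∩ bd 4 (pg_bd), so k is, and pulled back by io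
smulC k₃ 1 is a coboundary near Kn: contradiction to the uniqueness part of Grph Kn ![k₃] (sum over Fin 1, v = 1).
h4: pg_four. Then final4. -/

open Topology Filter Set

namespace PoolFbd

theorem no_small {g : ℕ} (hg : g ≤ 1) (h : Q 4 ≃ₜ Ball4) (h3 : E3 ≃ₜ Sph3)
    (h1 : ∀ x : E3, h (io x) = sIn (h3 x)) (h2 : ∀ x : Q 4, x ∈ bd 4 ↔ h x ∈ range sIn)
    (h4 : ∀ x : E3, h3 (rho3 x) = rhoS (h3 x)) {F : Set Ball4}
    (hF : FlatSurf g (h3 '' Kn) F) {rb : Ball4 → Ball4} (hc : Continuous rb)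
    (hi : ∀ x, rb (rb x) = x) (hb : ∀ x, rb (sIn x) = sIn (rhoS x)) (hr : rb '' F = F) :
    False := by
  obtain ⟨e, hec, hei, her, heb⟩ := hF.par
  have hsin : Function.Injective sIn := fun x y hxy => by
    apply Subtype.ext
    have h5 : (sIn x).1 = (sIn y).1 := by rw [hxy]
    exact h5
  -- the surface in the cube
  obtain ⟨F', hF'⟩ : ∃ F' : Set (Q 4), F' = h ⁻¹' F := ⟨_, rfl⟩
  have hmem : ∀ x, x ∈ F' ↔ h x ∈ F := fun x => by
    rw [hF']
    rfl
  obtain ⟨e', he'⟩ : ∃ e' : StdSurf g → Q 4, e' = fun x => h.symm (e x) := ⟨_, rfl⟩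
  have hec' : Continuous e' := by
    rw [he']
    exact h.symm.continuous.comp hec
  have hei' : Function.Injective e' := by
    rw [he']
    exact h.symm.injective.comp hei
  have her' : range e' = F' := by
    ext x
    rw [hmem, ← her, he']
    constructor
    · rintro ⟨y, rfl⟩
      exact ⟨y, (h.apply_symm_apply _).symm⟩
    · rintro ⟨y, hy⟩
      exact ⟨y, by
        show h.symm (e y) = x
        rw [hy, h.symm_apply_apply]⟩
  have heb' : e' '' stdBd g = F' ∩ bd 4 := by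
    ext x
    have a1 : x ∈ F' ∩ bd 4 ↔ h x ∈ F ∩ range sIn := by
      rw [mem_inter_iff, mem_inter_iff, hmem, h2]
    rw [a1, hF.proper, ← heb, he']
    constructor
    · rintro ⟨y, hy, rfl⟩
      exact ⟨y, hy, (h.apply_symm_apply _).symm⟩
    · rintro ⟨y, hy, hxy⟩
      exact ⟨y, hy, by
        show h.symm (e y) = x
        rw [hxy, h.symm_apply_apply]⟩
  have hFcl : IsClosed F := by
    rw [← her]
    exact (pg_compact hec).isClosed
  have hfk : ∀ x : E3, x ∈ Kn ↔ io x ∈ F' := by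
    intro x
    rw [hmem, h1]
    constructor
    · intro hx
      have a2 : sIn (h3 x) ∈ sIn '' (h3 '' Kn) := ⟨h3 x, ⟨x, hx, rfl⟩, rfl⟩
      rw [← hF.proper] at a2
      exact a2.1
    · intro hx
      have a2 : sIn (h3 x) ∈ F ∩ range sIn := ⟨hx, h3 x, rfl⟩
      rw [hF.proper] at a2
      obtain ⟨y, ⟨z, hz, rfl⟩, hy⟩ := a2
      have a3 := h3.injective (hsin hy)
      rw [← a3]
      exact hz
  have hrF : ∀ y, y ∈ F ↔ rb y ∈ F := by
    intro y
    constructor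
    · intro hy
      rw [← hr]
      exact ⟨y, hy, rfl⟩
    · intro hy
      have a2 : rb (rb y) ∈ rb '' F := ⟨rb y, hy, rfl⟩
      rw [hi, hr] at a2
      exact a2
  have hS : Surf4 F' (fun x => h.symm (rb (h x))) Kn := by
    refine ⟨?_, ?_, ?_, ?_, ?_, ?_, hfk⟩
    · rw [hF']
      exact surf_tame hFcl hF.flat h
    · rw [← her']
      exact pg_conn hec'
    · exact h.symm.continuous.comp (hc.comp h.continuous)
    · intro x
      show h.symm (rb (h (h.symm (rb (h x))))) = x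
      rw [h.apply_symm_apply, hi, h.symm_apply_apply]
    · intro x
      show x ∈ F' ↔ h.symm (rb (h x)) ∈ F'
      rw [hmem, hmem, h.apply_symm_apply]
      exact hrF (h x)
    · intro x hx
      have a1 : h x = sIn (h3 ⟨x, hx⟩) := h1 ⟨x, hx⟩
      show h.symm (rb (h x)) = rho x
      rw [a1, hb, ← h4, ← h1, h.symm_apply_apply]
      rfl
  obtain ⟨g₀, u₀, k₃, hgeo⟩ := geo_knot
  obtain ⟨hKT, c, hcc, hKF⟩ := kf_thm hgeo kn_tame kn_conn
  have hG := hgeo.kK
  have hradK : ∀ x ∈ F' ∩ bd 4, ContinuousAt rad x ∧ rad x ∈ Kn := by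
    rintro x ⟨hx, hxb⟩
    refine ⟨rad_cont_bd hxb, ?_⟩
    have a1 : rad x = ⟨x, hxb⟩ := rad_io ⟨x, hxb⟩
    rw [a1]
    exact (hfk ⟨x, hxb⟩).2 hx
  have hkc : LZ Kn (dd one (smulC k₃ (1 : ZMod 2))) := by
    have a1 : LZ Kn (dd one k₃) := hG.2.1 0
    rw [gaux_dd_smulC]
    exact gaux_LZ_smulC a1 1
  refine final4 hcc hS hKT hKF (pb rad (smulC k₃ (1 : ZMod 2))) ?_ ?_ ?_
  · exact LZ.pb hradK hkc
  · intro φ hφ hcob
    rw [← her'] at hφ
    have a1 := pg_bd hec' hei' hφ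
    rw [heb'] at a1
    have a2 : Cob one (F' ∩ bd 4) ∅ (pb rad (smulC k₃ (1 : ZMod 2))) := by
      have a3 := hcob.add a1
      rwa [sub_add_cancel] at a3
    have hioK : ∀ x ∈ Kn, ContinuousAt io x ∧ io x ∈ F' ∩ bd 4 := fun x hx =>
      ⟨continuous_subtype_val.continuousAt, (hfk x).1 hx, x.2⟩
    have a4 : Cob one Kn ∅ (pb io (pb rad (smulC k₃ (1 : ZMod 2)))) :=
      Cob.pb (Z := (∅ : Set E3)) hioK (fun x hx => absurd hx (notMem_empty x)) a2
    have a5 : pb io (pb rad (smulC k₃ (1 : ZMod 2))) = smulC k₃ (1 : ZMod 2) := by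
      funext t
      simp only [pb, rad_io]
    rw [a5] at a4
    have a6 := (hG.2.2 (ZMod 2)).2.2.1 (fun _ => 1) (by
      rw [Fin.sum_univ_one]
      exact a4)
    have a7 := congrFun a6 0
    exact one_ne_zero a7
  · intro s hs
    rw [← her'] at hs ⊢
    exact pg_four hg hec' hei' s hs

end PoolFbd
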