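import Mathlib

/-! Annuli and twists. -/

open Topology Filter Set

namespace PoolFbd

/-- `ν` parametrises a closed annulus (circle of length one times `[0,1]`) in the closed set
`Sg`, whose interior is relatively open in `Sg`. -/
structure Ann {E : Type*} [PseudoMetricSpace E] (Sg : Set E) (ν : ℝ → ℝ → E) : Prop where
  cl : IsClosed Sg
  cont : ContinuousOn (fun p : ℝ × ℝ => ν p.1 p.2) (univ ×ˢ Icc 0 1)
  mem : ∀ l, ∀ s ∈ Icc (0 : ℝ) 1, ν l s ∈ Sg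
  per : ∀ l s, ν (l + 1) s = ν l s
  inj : ∀ l l', ∀ s ∈ Icc (0 : ℝ) 1, ∀ s' ∈ Icc (0 : ℝ) 1, ν l s = ν l' s' →
    s = s' ∧ ∃ n : ℤ, l' = l + n
  opn : ∃ O : Set E, IsOpen O ∧ O ∩ Sg = {x | ∃ l, ∃ s ∈ Ioo (0 : ℝ) 1, x = ν l s}

open Classical in
/-- The `m`-fold Dehn twist along the annulus. -/
noncomputable def twi {E : Type*} (ν : ℝ → ℝ → E) (m : ℤ) : E → E := fun x =>
  if h : ∃ p : ℝ × ℝ, p.2 ∈ Icc (0 : ℝ) 1 ∧ x = ν p.1 p.2 then
    ν (h.choose.1 + m * h.choose.2) h.choose.2 else x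

end PoolFbd
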