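import Pool.Agent.Work.MP_fbd21a_gt.KapDefs
import Pool.Agent.Work.MP_fbd21a_gt.TwDefs

/-! The annuli used for the Dehn twists, the twists, and the homeomorphism `hh` of the surface. -/

open Topology Filter Set

namespace PoolFbd

/-- X-coordinate of the boundary of the notch rectangle, parameter in `[0,6]`. -/
noncomputable def bX (l : ℝ) : ℝ := max (-1) (min 1 (min (l - 2) (5 - l)))

/-- Z-coordinate of the boundary of the notch rectangle. -/
noncomputable def bZ (l : ℝ) : ℝ := max 0 (min 1 (min l (4 - l)))

/-- The annulus around the notch in the first copy. -/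
noncomputable def nuB (l s : ℝ) : E3 := kap ![bX (6 * Int.fract l), s - 1 / 2, bZ (6 * Int.fract l)]

/-- The annulus around the notch in the second copy. -/
noncomputable def nuB' (l s : ℝ) : E3 := rho3 (nuB l s)

open Classical in
/-- The annulus through both plates. -/
noncomputable def nuD (l s : ℝ) : E3 :=
  if Int.fract l ≤ 1 / 2 then kap ![s - 1 / 2, 20 * Int.fract l - 5, 0]
  else rho3 (kap ![s - 1 / 2, 20 * Int.fract l - 15, 0])

/-- The twist along the two notch annuli. -/
noncomputable def TB (m : ℤ) : E3 → E3 := fun x => twi nuB m (twi nuB' m x)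

/-- The twist along the plate annulus. -/
noncomputable def TD (m : ℤ) : E3 → E3 := twi nuD m

/-- The homeomorphism of the surface. -/
noncomputable def hh : E3 → E3 := fun x => TB 2 (TD (-2) (TB (-1) (TD 1 x)))

/-- Its inverse. -/
noncomputable def hi : E3 → E3 := fun x => TD (-1) (TB 1 (TD 2 (TB (-2) x)))

/-- The knot. -/
def Kn : Set E3 := hi ⁻¹' Kk

/-- Its Seifert surface. -/
def Sn : Set E3 := hi ⁻¹' Sk ∩ Sig

end PoolFbd
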