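import Pool.Agent.Work.MP_fbd21a_gt.PDefs
import Pool.Agent.Work.MP_fbd21a_gt.IntP
import Pool.Agent.Work.MP_fbd21a_gt.SubBox
import Pool.Agent.Work.MP_fbd21a_gt.Oacyc
import Pool.Agent.Work.MP_fbd21a_gt.Gauge
import Pool.Agent.Work.MP_fbd21a_gt.CupL

/-! MODULE PBox. Duality for relatively open boxes U = obox a b.
PROOF. U = ∅: PInj is trivial (LZ ∅; Cob of degree 0 is LZ ∅, else ψ = 0); PSur: φ = 0; every c of the
statement vanishes near univ so l c = 0 (Cob.of_LZ) and Itg 0 = 0 (cup with 0).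
U nonempty. Twist: acyc_obox and tw_trivial give σ : Q n → Rˣ with τ x y = (σ x)⁻¹ σ y near U.
Replacing φ by gau σ φ and c by gau σ⁻¹ c does not change the cochain cup h τ c φ near U
(c σ(t0)⁻¹ σ(tq) φ), reduces dd τ to dd one near U and dd (invt τ) to dd one near U (gau_coc,
gau_cob with S \ Z = univ \ (Uᶜ ∪ bd) ⊆ U). So assume the twist trivial.
U minus bd n is the open box O = obox a' b', a' i = max (a i) (-1), b' i = min (b i) 1, a' i < b' i;
Uᶜ ∪ bd n = Oᶜ. Let c0 = om n (centre of O), Itg (c0 · d) = d (Itg_om).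
p = 0 (q = n): PInj: φ = cst d near U; c0 as R-valued cochain (cmap of Int.cast, i.e. smulC c0 1) is a
relative cocycle of (univ, Oᶜ) (om_supp, om_dd); the product with φ is smulC c0 d up to a germ zero
near univ, so d = 0. PSur: φ = cst (l (smulC c0 1)); for any c: c - smulC c0 r is a coboundary of
(univ, Oᶜ) (subbox_ex), both sides are additive, Itg (smulC c0 r ∪ φ) = r • l (c0) = l (smulC c0 r)
(smulC c0 r = r • smulC c0 1, R-linearity).
p ≥ 1: PInj: Acyc U gives Cob one U ∅ φ. PSur: take φ = 0; q ≠ n, so every c is a coboundary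
(subbox_low) and l c = 0. -/

open Topology Filter Set

namespace PoolFbd

private theorem pbox_box {n : ℕ} {a b : Fin n → ℝ} (h : (obox a b : Set (Q n)).Nonempty) :
    (∀ i, max (a i) (-1) < min (b i) 1) ∧ (obox a b : Set (Q n))ᶜ ∪ bd n =
      (obox (fun i => max (a i) (-1)) (fun i => min (b i) 1))ᶜ := by
  obtain ⟨x, hx⟩ := h
  refine ⟨fun i => ?_, ?_⟩
  · have h1 := hx i
    have h2 := (x i).2
    rw [max_lt_iff, lt_min_iff, lt_min_iff]
    exact ⟨⟨h1.1.trans h1.2, h1.1.trans_le h2.2⟩, h2.1.trans_lt h1.2, by norm_num⟩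
  · ext y
    constructor
    · rintro (hy | hy) hy'
      · apply hy
        intro i
        have := hy' i
        simp only [max_lt_iff, lt_min_iff] at this
        exact ⟨this.1.1, this.2.1⟩
      · obtain ⟨i, hi⟩ := hy
        have := hy' i
        simp only [max_lt_iff, lt_min_iff] at this
        rcases hi with hi | hi
        · exact absurd this.1.2 (by rw [hi]; exact lt_irrefl _)
        · exact absurd this.2.2 (by rw [hi]; exact lt_irrefl _)
    · intro hy
      by_contra hcon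
      apply hy
      rw [mem_union, not_or, mem_compl_iff, not_not] at hcon
      obtain ⟨h1, h2⟩ := hcon
      intro i
      simp only [max_lt_iff, lt_min_iff]
      have h3 := h1 i
      have h4 := (y i).2
      refine ⟨⟨h3.1, lt_of_le_of_ne h4.1 fun he => h2 ⟨i, Or.inl he.symm⟩⟩,
        h3.2, lt_of_le_of_ne h4.2 fun he => h2 ⟨i, Or.inr he⟩⟩

private theorem pbox_sub {n : ℕ} (W : Set (Q n)) :
    (univ : Set (Q n)) \ (Wᶜ ∪ bd n) ⊆ W := by
  intro x hx
  by_contra hxU
  exact hx.2 (Or.inl hxU)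

/-- the centre of the box minus the boundary -/
private noncomputable def pboxC {n : ℕ} (a b : Fin n → ℝ) : Fin n → ℝ :=
  fun i => (max (a i) (-1) + min (b i) 1) / 2

private theorem pbox_ctr {n : ℕ} {a b : Fin n → ℝ} (hab : ∀ i, max (a i) (-1) < min (b i) 1)
    (i : Fin n) : pboxC a b i ∈ Ioo (-1 : ℝ) 1 := by
  have h1 := hab i
  have h2 : (-1 : ℝ) ≤ max (a i) (-1) := le_max_right _ _
  have h3 : min (b i) 1 ≤ (1 : ℝ) := min_le_right _ _
  unfold pboxC
  constructor <;> linarith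

private theorem pbox_supp {n : ℕ} {a b : Fin n → ℝ} (hne : (obox a b : Set (Q n)).Nonempty) :
    LZ ((obox a b)ᶜ ∪ bd n) (om n (pboxC a b)) := by
  obtain ⟨hab, heq⟩ := pbox_box hne
  rw [heq]
  refine (om_supp n (pboxC a b)).mono ?_
  intro x hx
  by_contra hcon
  apply hx
  have hx' : ∀ i, (x i : ℝ) = pboxC a b i := by
    intro i
    by_contra h
    exact hcon ⟨i, h⟩
  intro i
  have h1 := hab i
  rw [hx' i]
  unfold pboxC
  constructor <;> linarith

section

variable {R D : Type} [CommRing R] [AddCommGroup D] [Module R D]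

/-- the twisted generator -/
private noncomputable def pboxG {n : ℕ} (R : Type) [CommRing R] (a b : Fin n → ℝ)
    (σ : Q n → Rˣ) : Coch (Q n) R n := fun t => (σ (t 0) : R) * (om n (pboxC a b) t : R)

private theorem pbox_invt {n : ℕ} {a b : Fin n → ℝ} {τ : Q n → Q n → Rˣ} {σ : Q n → Rˣ}
    (hσ : ∀ x ∈ (obox a b : Set (Q n)), ∀ᶠ t in 𝓝 (fun _ : Fin 2 => x),
      τ (t 0) (t 1) = (σ (t 0))⁻¹ * σ (t 1)) {ρ : Q n → Rˣ} (hρ : ρ = fun y => (σ y)⁻¹) :
    ∀ x ∈ (univ : Set (Q n)) \ ((obox a b)ᶜ ∪ bd n),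
      ∀ᶠ t in 𝓝 (fun _ : Fin 2 => x), invt τ (t 0) (t 1) = (ρ (t 0))⁻¹ * ρ (t 1) := by
  intro x hx
  filter_upwards [hσ x (pbox_sub _ hx)] with t ht
  simp only [invt, hρ]
  rw [ht, mul_inv, inv_inv]

private theorem pbox_gauG {n : ℕ} (a b : Fin n → ℝ) {σ ρ : Q n → Rˣ} (hρ : ρ = fun y => (σ y)⁻¹)
    (r : R) : gau ρ (r • pboxG R a b σ) = smulC (om n (pboxC a b)) r := by
  funext t
  simp only [gau, pboxG, smulC, hρ, Pi.smul_apply, smul_eq_mul, Units.smul_def, zsmul_eq_mul]
  have h1 : (((σ (t 0))⁻¹ : Rˣ) : R) * (σ (t 0) : R) = 1 := Units.inv_mul _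
  calc (((σ (t 0))⁻¹ : Rˣ) : R) * (r * ((σ (t 0) : R) * (om n (pboxC a b) t : R)))
      = ((((σ (t 0))⁻¹ : Rˣ) : R) * (σ (t 0) : R)) * ((om n (pboxC a b) t : R) * r) := by ring
    _ = _ := by rw [h1, one_mul]

private theorem pbox_smulC_coc {n : ℕ} {a b : Fin n → ℝ}
    (hne : (obox a b : Set (Q n)).Nonempty) {A : Type} [AddCommGroup A] (r : A) :
    Coc one univ ((obox a b)ᶜ ∪ bd n) (smulC (om n (pboxC a b)) r) := by
  constructor
  · intro x hx
    filter_upwards [pbox_supp hne x hx] with t ht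
    simp only [smulC]
    rw [ht, zero_smul]
  · have e : dd one (smulC (om n (pboxC a b)) r) = 0 := by
      have h1 := dd_cmap (one : Q n → Q n → ℤˣ) (om n (pboxC a b)) (zmultiplesHom A r) (by
        intro g m
        rw [Units.smul_def, Units.smul_def, map_zsmul])
      rw [om_dd] at h1
      have h2 : (cmap (zmultiplesHom A r) (0 : Coch (Q n) ℤ (n + 1))) = 0 := by
        funext t
        simp [cmap]
      rw [h2] at h1
      exact h1
    rw [e]
    exact LZ.zero _

private theorem pbox_smul_lz {E A : Type*} [TopologicalSpace E] [AddCommGroup A] {R : Type*}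
    [CommRing R] [Module R A] {S : Set E} {n : ℕ} {φ : Coch E A n} (r : R) (h : LZ S φ) :
    LZ S (r • φ) := fun x hx => by
  filter_upwards [h x hx] with t a
  simp [a]

private theorem pbox_G_coc {n : ℕ} {a b : Fin n → ℝ} (hne : (obox a b : Set (Q n)).Nonempty)
    {τ : Q n → Q n → Rˣ} {σ : Q n → Rˣ}
    (hσ : ∀ x ∈ (obox a b : Set (Q n)), ∀ᶠ t in 𝓝 (fun _ : Fin 2 => x),
      τ (t 0) (t 1) = (σ (t 0))⁻¹ * σ (t 1)) (r : R) :
    Coc (invt τ) univ ((obox a b)ᶜ ∪ bd n) (r • pboxG R a b σ) := by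
  obtain ⟨ρ, hρ⟩ : ∃ ρ : Q n → Rˣ, ρ = fun y => (σ y)⁻¹ := ⟨_, rfl⟩
  rw [gau_coc (A := R) (G := Rˣ) (pbox_invt hσ hρ), pbox_gauG a b hρ]
  exact pbox_smulC_coc hne r

private theorem pbox_pair {n q : ℕ} (h : q + 0 = n) {a b : Fin n → ℝ}
    (hne : (obox a b : Set (Q n)).Nonempty) {τ : Q n → Q n → Rˣ} {σ : Q n → Rˣ}
    (hσ : ∀ x ∈ (obox a b : Set (Q n)), ∀ᶠ t in 𝓝 (fun _ : Fin 2 => x),
      τ (t 0) (t 1) = (σ (t 0))⁻¹ * σ (t 1)) {φ : Coch (Q n) D 0} {d : D}
    (hφ : LZ (obox a b) (gau σ φ - cst (Q n) 0 d)) (g : Coch (Q n) R q)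
    (hg : HEq g (pboxG R a b σ)) : Itg (cup h τ g φ) = d := by
  have hq : q = n := by omega
  subst hq
  have hg' := eq_of_heq hg
  subst hg'
  obtain ⟨hab, heq⟩ := pbox_box hne
  have hz : LZ univ (cup h τ (pboxG R a b σ) φ - smulC (om q (pboxC a b)) d) := by
    intro x _
    by_cases hx : x ∈ (obox a b : Set (Q q))
    · have h1 : ∀ᶠ t in 𝓝 (fun _ : Fin (q + 1) => x),
          τ (t 0) (t (Fin.last q)) = (σ (t 0))⁻¹ * σ (t (Fin.last q)) := by
        have h2 : Tendsto (fun (t : Fin (q + 1) → Q q) => (fun j : Fin 2 =>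
            t (if j = 0 then 0 else Fin.last q))) (𝓝 (fun _ => x)) (𝓝 (fun _ => x)) :=
          tendsto_face (fun j : Fin 2 => if j = 0 then 0 else Fin.last q) x
        have h3 := h2.eventually (hσ x hx)
        filter_upwards [h3] with t ht
        simpa using ht
      have h4 : ∀ᶠ t in 𝓝 (fun _ : Fin (q + 1) => x),
          (gau σ φ - cst (Q q) 0 d) (fun _ : Fin (0 + 1) => t (Fin.last q)) = 0 :=
        (tendsto_face (fun _ : Fin (0 + 1) => Fin.last q) x).eventually (hφ x hx)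
      filter_upwards [h1, h4] with t e1 e2
      rw [Pi.sub_apply, sub_eq_zero] at e2 ⊢
      simp only [gau, cst] at e2
      have e3 : cup h τ (pboxG R a b σ) φ t =
          pboxG R a b σ t • (τ (t 0) (t (Fin.last q)) • φ (fun _ => t (Fin.last q))) := by
        unfold cup
        congr 3
        funext j
        have : j = 0 := by omega
        subst this
        rfl
      rw [e3, e1]
      simp only [pboxG, smulC, Units.smul_def, Units.val_mul]
      rw [smul_smul]
      have e4 : (σ (t 0) : R) * (om q (pboxC a b) t : R) *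
          ((((σ (t 0))⁻¹ : Rˣ) : R) * (σ (t (Fin.last q)) : R)) =
          (om q (pboxC a b) t : R) * (σ (t (Fin.last q)) : R) := by
        have h5 : (σ (t 0) : R) * (((σ (t 0))⁻¹ : Rˣ) : R) = 1 := Units.mul_inv _
        calc _ = ((σ (t 0) : R) * (((σ (t 0))⁻¹ : Rˣ) : R)) *
            ((om q (pboxC a b) t : R) * (σ (t (Fin.last q)) : R)) := by ring
          _ = _ := by rw [h5, one_mul]
      rw [e4, mul_smul]
      rw [Units.smul_def] at e2
      rw [e2, Int.cast_smul_eq_zsmul]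
    · have hx' : x ∈ (obox a b : Set (Q q))ᶜ ∪ bd q := Or.inl hx
      have h1 : LZ ((obox a b : Set (Q q))ᶜ ∪ bd q) (pboxG R a b σ) := by
        have := (pbox_G_coc hne hσ (1 : R)).1
        rwa [one_smul] at this
      have h2 := cup_left (τ := τ) h h1 φ x hx'
      filter_upwards [h2, (pbox_smulC_coc hne d).1 x hx'] with t e1 e2
      rw [Pi.sub_apply, e1, e2, sub_zero]
  have hcoc : Coc one univ (bd q) (smulC (om q (pboxC a b)) d) :=
    (pbox_smulC_coc hne d).mono le_rfl subset_union_right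
  have hcob : Cob one univ (bd q) (smulC (om q (pboxC a b)) d - cup h τ (pboxG R a b σ) φ) :=
    Cob.of_LZ hz.symm
  rw [← Itg_congr hcoc hcob, Itg_om (pbox_ctr hab)]

end

theorem pinj_box {R D : Type} [CommRing R] [AddCommGroup D] [Module R D] {n : ℕ}
    (a b : Fin n → ℝ) : PInj R D (obox a b : Set (Q n)) := by
  intro τ hτ q p h φ hφ H
  by_cases hne : (obox a b : Set (Q n)).Nonempty
  · obtain ⟨σ, hσ⟩ := tw_trivial (acyc_obox hne) hτ
    have hσ' : ∀ x ∈ (obox a b : Set (Q n)) \ ∅, ∀ᶠ t in 𝓝 (fun _ : Fin 2 => x),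
      τ (t 0) (t 1) = (σ (t 0))⁻¹ * σ (t 1) := fun x hx => hσ x hx.1
    have h1 : Coc one (obox a b) ∅ (gau σ φ) :=
      (gau_coc hσ' φ).1 ⟨LZ.empty φ, hφ⟩
    cases p with
    | zero =>
      obtain ⟨d, hd⟩ := ((acyc_obox hne).2 D).1 (gau σ φ) h1.2
      have hq : q = n := by omega
      subst hq
      have h2 := pbox_pair h hne hσ hd (pboxG R a b σ) HEq.rfl
      have h3 := H (pboxG R a b σ) (by
        have := pbox_G_coc hne hσ (1 : R)
        rwa [one_smul] at this)
      rw [h3] at h2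
      rw [← h2] at hd
      have h4 : LZ (obox a b) (gau σ φ) := by
        intro x hx
        filter_upwards [hd x hx] with t ht
        simpa [cst] using ht
      show LZ (obox a b) φ
      intro x hx
      filter_upwards [h4 x hx] with t ht
      simp only [gau] at ht
      exact (smul_eq_zero_iff_eq _).1 ht
    | succ m =>
      rw [gau_cob hσ' (LZ.empty φ)]
      exact ((acyc_obox hne).2 D).2 m (gau σ φ) h1.2
  · rw [not_nonempty_iff_eq_empty] at hne
    rw [hne]
    exact Cob.of_LZ (A := D) (G := Rˣ) (fun _ hx => hx.elim)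

theorem psur_box {R D : Type} [CommRing R] [AddCommGroup D] [Module R D] {n : ℕ}
    (a b : Fin n → ℝ) : PSur R D (obox a b : Set (Q n)) := by
  intro τ hτ q p h l hl
  have hzero : ∀ c : Coch (Q n) R q, Itg (cup h τ c (0 : Coch (Q n) D p)) = 0 := fun c =>
    Itg_cob (Cob.of_LZ (cup_right h c (LZ.zero univ)))
  have hdd0 : ∀ S : Set (Q n), LZ S (dd τ (0 : Coch (Q n) D p)) := fun S =>
    (LZ.zero S).dd τ
  by_cases hne : (obox a b : Set (Q n)).Nonempty
  · obtain ⟨hab, heq⟩ := pbox_box hne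
    obtain ⟨σ, hσ⟩ := tw_trivial (acyc_obox hne) hτ
    obtain ⟨ρ, hρ⟩ : ∃ ρ : Q n → Rˣ, ρ = fun y => (σ y)⁻¹ := ⟨_, rfl⟩
    have hρ' := pbox_invt hσ hρ
    by_cases hqn : q = n
    · subst hqn
      have hp : p = 0 := by omega
      subst hp
      obtain ⟨d, hd⟩ : ∃ d, d = l (pboxG R a b σ) := ⟨_, rfl⟩
      obtain ⟨φ, hφ⟩ : ∃ φ : Coch (Q q) D 0, φ = fun t => (ρ (t 0)) • d := ⟨_, rfl⟩
      have hgφ : gau σ φ = cst (Q q) 0 d := by
        funext t
        simp only [gau, cst, hφ, hρ]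
        rw [smul_inv_smul]
      have hσ' : ∀ x ∈ (obox a b : Set (Q q)) \ ∅, ∀ᶠ t in 𝓝 (fun _ : Fin 2 => x),
        τ (t 0) (t 1) = (σ (t 0))⁻¹ * σ (t 1) := fun x hx => hσ x hx.1
      have hφc : LZ (obox a b) (dd τ φ) := by
        refine ((gau_coc hσ' φ).2 ?_).2
        rw [hgφ]
        refine ⟨LZ.empty _, ?_⟩
        have e : dd one (cst (Q q) 0 d) = 0 := by
          funext t
          simp [dd, cst, one]
        rw [e]
        exact LZ.zero _
      have hgz : LZ (obox a b) (gau σ φ - cst (Q q) 0 d) := by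
        rw [hgφ, sub_self]
        exact LZ.zero _
      have hpair := pbox_pair h hne hσ hgz (pboxG R a b σ) HEq.rfl
      refine ⟨φ, hφc, fun c hc => ?_⟩
      have hc1 := (gau_coc (A := R) (G := Rˣ) hρ' c).1 hc
      rw [heq] at hc1
      obtain ⟨r, hr⟩ := subbox_ex hab (fun i => le_max_right _ _) (fun i => min_le_right _ _) hc1
      rw [← heq] at hr
      have hG := pbox_G_coc hne hσ r
      have hLZ : LZ ((obox a b)ᶜ ∪ bd q) (c - r • pboxG R a b σ) := hc.1.sub hG.1
      have hcob : Cob (invt τ) univ ((obox a b)ᶜ ∪ bd q) (c - r • pboxG R a b σ) := by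
        rw [gau_cob (A := R) (G := Rˣ) hρ' hLZ]
        have e : gau ρ (c - r • pboxG R a b σ) = gau ρ c - gau ρ (r • pboxG R a b σ) :=
          gau_sub (A := R) (G := Rˣ) ρ c _
        rw [e, pbox_gauG a b hρ]
        exact hr
      have hsub := pbox_sub (obox a b : Set (Q q))
      have hcob2 := cup_cob_left h (hτ.mono hsub) hcob hLZ (hφc.mono hsub)
      rw [cup_sub_left] at hcob2
      have m1 : Coc one univ (bd q) (cup h τ c φ) :=
        (cup_coc h (hτ.mono hsub) hc (hφc.mono hsub)).mono le_rfl subset_union_right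
      have hG1 : Coc (invt τ) univ ((obox a b)ᶜ ∪ bd q) (pboxG R a b σ) := by
        have := pbox_G_coc hne hσ (1 : R)
        rwa [one_smul] at this
      have m2 : Coc one univ (bd q) (cup h τ (pboxG R a b σ) φ) :=
        (cup_coc h (hτ.mono hsub) hG1 (hφc.mono hsub)).mono le_rfl subset_union_right
      rw [Itg_congr m1 (hcob2.mono le_rfl subset_union_right), cup_smul_left, Itg_smul r m2, hpair]
      have h5 := hl _ hLZ hcob
      rw [map_sub, map_smul, ← hd, sub_eq_zero] at h5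
      exact h5.symm
    · refine ⟨0, hdd0 _, fun c hc => ?_⟩
      rw [hzero]
      have hc1 := (gau_coc (A := R) (G := Rˣ) hρ' c).1 hc
      rw [heq] at hc1
      have h5 := subbox_low hqn hab (fun i => le_max_right _ _) (fun i => min_le_right _ _) hc1
      rw [← heq] at h5
      exact (hl c hc.1 ((gau_cob (A := R) (G := Rˣ) hρ' hc.1).2 h5)).symm
  · rw [not_nonempty_iff_eq_empty] at hne
    refine ⟨0, hdd0 _, fun c hc => ?_⟩
    rw [hzero]
    have hz : LZ univ c := by
      refine hc.1.mono ?_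
      rw [hne, compl_empty, univ_union]
    exact (hl c hc.1 (Cob.of_LZ (A := R) (G := Rˣ) hz)).symm

end PoolFbd
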