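import Pool.Agent.Work.MP_fbd21a_gt.QDefs

/-! Poincaré duality for an open subset `U` of the cube: the two halves of the statement. -/

open Topology Filter Set

namespace PoolFbd

/-- Nondegeneracy: a cocycle near `U` pairing to zero with all compactly supported classes of
`U` minus the boundary is a coboundary. -/
def PInj (R D : Type) [CommRing R] [AddCommGroup D] [Module R D] {n : ℕ} (U : Set (Q n)) : Prop :=
  ∀ τ : Q n → Q n → Rˣ, IsTw U τ → ∀ (q p : ℕ) (h : q + p = n) (φ : Coch (Q n) D p),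
    LZ U (dd τ φ) →
    (∀ c : Coch (Q n) R q, Coc (invt τ) univ (Uᶜ ∪ bd n) c → Itg (cup h τ c φ) = 0) →
    Cob τ U ∅ φ

/-- Surjectivity: every functional on compactly supported classes is a pairing. -/
def PSur (R D : Type) [CommRing R] [AddCommGroup D] [Module R D] {n : ℕ} (U : Set (Q n)) : Prop :=
  ∀ τ : Q n → Q n → Rˣ, IsTw U τ → ∀ (q p : ℕ) (h : q + p = n) (l : Coch (Q n) R q →ₗ[R] D),
    (∀ c : Coch (Q n) R q, LZ (Uᶜ ∪ bd n) c → Cob (invt τ) univ (Uᶜ ∪ bd n) c → l c = 0) →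
    ∃ φ : Coch (Q n) D p, LZ U (dd τ φ) ∧
      ∀ c : Coch (Q n) R q, Coc (invt τ) univ (Uᶜ ∪ bd n) c → Itg (cup h τ c φ) = l c

/-- No compactly supported cohomology above the dimension. -/
def PTop (R : Type) [CommRing R] {n : ℕ} (U : Set (Q n)) : Prop :=
  ∀ τ : Q n → Q n → Rˣ, IsTw U τ → ∀ (m : ℕ), n < m → ∀ c : Coch (Q n) R m,
    Coc (invt τ) univ (Uᶜ ∪ bd n) c → Cob (invt τ) univ (Uᶜ ∪ bd n) c

end PoolFbd
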