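import Pool.Agent.Work.MP_fbd21a_gt.StDefs
import Pool.Agent.Work.MP_fbd21a_gt.AcBox
import Pool.Agent.Work.MP_fbd21a_gt.Contr
import Pool.Agent.Work.MP_fbd21a_gt.NearR

/-! MODULE PgPot. Cocycles on the disk, descent along a quotient of a compact set.
disk_pot: Acyc (univ : Set Disk) by acyc_of_contraction (S = univ compact, c s z = (1 - u s) • z with u the clamp of s
to [0,1]; x₀ = 0), then φ = dd one ψ near univ, p z = ψ (fun _ => z).
side_const: f s = p (α s) - p (α' s) is locally constant on [0,1]: for s' close to s,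
p (α s') - p (α s) = φ ![e (α s), e (α s')] = φ ![e (α' s), e (α' s')] = p (α' s') - p (α' s) (s, s' in [0,1]).
pg_desc: intr_cob with V. Let x₀ = e z₀ ∈ e '' C. The map e restricted to the compact C is closed, so
(IsClosedMap.eventually_nhds_fiber for C → X, or a compactness argument) for x close to x₀ and all z ∈ C with e z = x:
φ ![x, x₀] = V x₀ - q z and φ ![x₀, x] = q z - V x₀ (by hq at the points z₁ ∈ C with e z₁ = x₀, q z₁ = V x₀).
The cocycle identity at (x, x₀, y) gives φ ![x, y] = φ ![x, x₀] + φ ![x₀, y] = V y - V x for x, y ∈ e '' C close to x₀. -/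

open Topology Filter Set

namespace PoolFbd

private theorem pg_dd0 {E A : Type*} [AddCommGroup A] (u : Coch E A 0) (t : Fin 2 → E) :
    dd one u t = u (fun _ => t 1) - u (fun _ => t 0) := by
  have a0 : (fun j : Fin (0 + 1) => t j.succ) = fun _ => t 1 := by
    funext j; fin_cases j; rfl
  have a1 : (fun j : Fin (0 + 1) => t ((Fin.succ 0 : Fin (0 + 1 + 1)).succAbove j)) =
      fun _ => t 0 := by
    funext j; fin_cases j; rfl
  have h : dd one u t = u (fun j : Fin (0 + 1) => t j.succ) +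
      ∑ i : Fin (0 + 1), (-1 : ℤ) ^ ((i : ℕ) + 1) • u (fun j => t (i.succ.succAbove j)) := by
    simp only [dd, one, one_smul]
  rw [h]
  simp only [Fin.sum_univ_succ, Finset.univ_eq_empty, Finset.sum_empty, add_zero]
  rw [a0, a1]
  simp
  abel

private theorem pg_dd1 {E A : Type*} [AddCommGroup A] (u : Coch E A 1) (t : Fin 3 → E) :
    dd one u t = u ![t 1, t 2] - u ![t 0, t 2] + u ![t 0, t 1] := by
  have a0 : (fun j : Fin (1 + 1) => t j.succ) = ![t 1, t 2] := by
    funext j; fin_cases j <;> rfl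
  have a1 : (fun j : Fin (1 + 1) => t ((Fin.succ 0 : Fin (1 + 1 + 1)).succAbove j)) =
      ![t 0, t 2] := by
    funext j; fin_cases j <;> rfl
  have a2 : (fun j : Fin (1 + 1) => t ((Fin.succ (Fin.succ 0) : Fin (1 + 1 + 1)).succAbove j)) =
      ![t 0, t 1] := by
    funext j; fin_cases j <;> rfl
  have h : dd one u t = u (fun j : Fin (1 + 1) => t j.succ) +
      ∑ i : Fin (1 + 1), (-1 : ℤ) ^ ((i : ℕ) + 1) • u (fun j => t (i.succ.succAbove j)) := by
    simp only [dd, one, one_smul]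
  rw [h]
  simp only [Fin.sum_univ_succ, Finset.univ_eq_empty, Finset.sum_empty, add_zero]
  rw [a0, a1, a2]
  simp
  abel

private noncomputable def pgu (s : ℝ) : ℝ := 1 - max 0 (min 1 s)

private theorem pgu_cont : Continuous pgu := by unfold pgu; fun_prop

private theorem pgu_mem (s : ℝ) : 0 ≤ pgu s ∧ pgu s ≤ 1 := by
  unfold pgu
  constructor
  · have : max 0 (min 1 s) ≤ 1 := max_le zero_le_one (min_le_left _ _)
    linarith
  · have : (0 : ℝ) ≤ max 0 (min 1 s) := le_max_left _ _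
    linarith

private theorem pgc_mem (s : ℝ) (z : Disk) : (pgu s : ℂ) * (z : ℂ) ∈ Metric.closedBall (0 : ℂ) 1 := by
  rw [mem_closedBall_zero_iff, norm_mul, Complex.norm_real, Real.norm_eq_abs,
    abs_of_nonneg (pgu_mem s).1]
  have h1 : ‖(z : ℂ)‖ ≤ 1 := mem_closedBall_zero_iff.mp z.2
  have h2 := (pgu_mem s).2
  nlinarith [norm_nonneg (z : ℂ), (pgu_mem s).1]

private theorem disk_acyc : Acyc (univ : Set Disk) := by
  refine acyc_of_contraction isCompact_univ (x₀ := ⟨0, by simp⟩) (mem_univ _)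
    (fun s z => ⟨(pgu s : ℂ) * (z : ℂ), pgc_mem s z⟩) ?_ ?_ ?_ ?_
  · refine Continuous.subtype_mk ?_ _
    exact (Complex.continuous_ofReal.comp (pgu_cont.comp continuous_fst)).mul
      (continuous_subtype_val.comp continuous_snd)
  · intro x
    apply Subtype.ext
    simp [pgu]
  · intro x
    apply Subtype.ext
    simp [pgu]
  · intro s _ x _
    exact mem_univ _

theorem disk_pot {A : Type} [AddCommGroup A] {φ : Coch Disk A 1} (h : LZ univ (dd one φ)) :
    ∃ p : Disk → A, ∀ z, ∀ᶠ t in 𝓝 (fun _ : Fin 2 => z), φ t = p (t 1) - p (t 0) := by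
  obtain ⟨ψ, _, hψ⟩ := (disk_acyc.2 A).2 0 φ h
  refine ⟨fun z => ψ (fun _ => z), fun z => ?_⟩
  filter_upwards [hψ z (mem_univ z)] with t ht
  have h1 : φ t = dd one ψ t := by
    have := sub_eq_zero.mp ht
    exact this
  rw [h1]
  exact pg_dd0 ψ t

theorem side_const {X : Type*} [TopologicalSpace X] {A : Type} [AddCommGroup A] {e : Disk → X}
    {φ : Coch X A 1} {p : Disk → A}
    (hp : ∀ z, ∀ᶠ t in 𝓝 (fun _ : Fin 2 => z), φ (fun j => e (t j)) = p (t 1) - p (t 0))
    {α α' : ℝ → Disk} (hα : Continuous α) (hα' : Continuous α')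
    (h : ∀ s ∈ Icc (0 : ℝ) 1, e (α s) = e (α' s)) :
    ∃ a : A, ∀ s ∈ Icc (0 : ℝ) 1, p (α s) - p (α' s) = a := by
  let _ : TopologicalSpace A := ⊥
  have : DiscreteTopology A := ⟨rfl⟩
  have key : ∀ (β : ℝ → Disk), Continuous β → ∀ s, ∀ᶠ s' in 𝓝 s,
      φ (fun j => e ((![β s, β s'] : Fin 2 → Disk) j)) = p (β s') - p (β s) := by
    intro β hβ s
    have ht : Tendsto (fun s' : ℝ => (![β s, β s'] : Fin 2 → Disk)) (𝓝 s)
        (𝓝 (fun _ : Fin 2 => β s)) := by
      rw [tendsto_pi_nhds]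
      intro j
      fin_cases j
      · exact tendsto_const_nhds
      · exact hβ.tendsto s
    filter_upwards [ht.eventually (hp (β s))] with s' hs'
    exact hs'
  have hc : ContinuousOn (fun s => p (α s) - p (α' s)) (Icc (0 : ℝ) 1) := by
    intro s hs
    refine tendsto_const_nhds.congr' ?_
    have k1 := (key α hα s).filter_mono (nhdsWithin_le_nhds (s := Icc (0 : ℝ) 1))
    have k2 := (key α' hα' s).filter_mono (nhdsWithin_le_nhds (s := Icc (0 : ℝ) 1))
    filter_upwards [k1, k2, self_mem_nhdsWithin] with s' h1 h2 h3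
    have h4 : (fun j => e ((![α s, α s'] : Fin 2 → Disk) j)) =
        fun j => e ((![α' s, α' s'] : Fin 2 → Disk) j) := by
      funext j
      fin_cases j
      · exact h s hs
      · exact h s' h3
    rw [h4, h2] at h1
    rw [sub_eq_sub_iff_add_eq_add]
    rw [sub_eq_sub_iff_add_eq_add] at h1
    rw [add_comm, h1.symm, add_comm]
  refine ⟨p (α 0) - p (α' 0), fun s hs => ?_⟩
  exact isPreconnected_Icc.constant hc hs ⟨le_rfl, zero_le_one⟩

theorem pg_desc {X : Type*} [MetricSpace X] {A : Type} [AddCommGroup A] {e : Disk → X}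
    (he : Continuous e) {C : Set Disk} (hC : IsClosed C) {φ : Coch X A 1}
    (hφ : LZ (e '' C) (dd one φ)) (q : Disk → A) (V : X → A) (hV : ∀ z ∈ C, V (e z) = q z)
    (hq : ∀ z ∈ C, ∀ᶠ t in 𝓝 (fun _ : Fin 2 => z), t 0 ∈ C → t 1 ∈ C →
      φ (fun j => e (t j)) = q (t 1) - q (t 0)) : Cob one (e '' C) ∅ φ := by
  have hCc : IsCompact C := hC.isCompact
  refine intr_cob (hCc.image he).isClosed hφ V fun x₀ hx₀ => ?_
  set G : Set Disk := {z | z ∈ C ∧ ¬ (φ ![e z, x₀] = V x₀ - V (e z) ∧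
    φ ![x₀, e z] = V (e z) - V x₀)} with hG
  have hGC : closure G ⊆ C := closure_minimal (fun z hz => hz.1) hC
  have hcl : IsClosed (e '' closure G) :=
    ((hCc.of_isClosed_subset isClosed_closure hGC).image he).isClosed
  have hx : x₀ ∉ e '' closure G := by
    rintro ⟨z₁, hz₁, hez⟩
    have hz₁C := hGC hz₁
    have a1 : ∀ᶠ z in 𝓝 z₁, z ∈ C → φ ![e z, x₀] = V x₀ - V (e z) := by
      have ht : Tendsto (fun z : Disk => (![z, z₁] : Fin 2 → Disk)) (𝓝 z₁)
          (𝓝 (fun _ : Fin 2 => z₁)) := by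
        rw [tendsto_pi_nhds]
        intro j
        fin_cases j
        · exact tendsto_id
        · exact tendsto_const_nhds
      filter_upwards [ht.eventually (hq z₁ hz₁C)] with z hz hzC
      have h1 := hz hzC hz₁C
      have h2 : (fun j => e ((![z, z₁] : Fin 2 → Disk) j)) = ![e z, x₀] := by
        funext j
        fin_cases j
        · rfl
        · exact hez
      rw [h2] at h1
      rw [h1, ← hez, hV z₁ hz₁C, hV z hzC]
      rfl
    have a2 : ∀ᶠ z in 𝓝 z₁, z ∈ C → φ ![x₀, e z] = V (e z) - V x₀ := by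
      have ht : Tendsto (fun z : Disk => (![z₁, z] : Fin 2 → Disk)) (𝓝 z₁)
          (𝓝 (fun _ : Fin 2 => z₁)) := by
        rw [tendsto_pi_nhds]
        intro j
        fin_cases j
        · exact tendsto_const_nhds
        · exact tendsto_id
      filter_upwards [ht.eventually (hq z₁ hz₁C)] with z hz hzC
      have h1 := hz hz₁C hzC
      have h2 : (fun j => e ((![z₁, z] : Fin 2 → Disk) j)) = ![x₀, e z] := by
        funext j
        fin_cases j
        · exact hez
        · rfl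
      rw [h2] at h1
      rw [h1, ← hez, hV z₁ hz₁C, hV z hzC]
      rfl
    have a3 : ∀ᶠ z in 𝓝 z₁, z ∉ G := by
      filter_upwards [a1, a2] with z h1 h2 hz
      exact hz.2 ⟨h1 hz.1, h2 hz.1⟩
    exact (mem_closure_iff_frequently.mp hz₁) a3
  have hgood : ∀ᶠ x in 𝓝 x₀, x ∈ e '' C → (φ ![x, x₀] = V x₀ - V x ∧
      φ ![x₀, x] = V x - V x₀) := by
    filter_upwards [hcl.isOpen_compl.mem_nhds hx] with x hxn hxC
    obtain ⟨z, hz, rfl⟩ := hxC
    by_contra hcon
    exact hxn ⟨z, subset_closure ⟨hz, hcon⟩, rfl⟩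
  have hcoc : ∀ᶠ p in 𝓝 ((x₀, x₀) : X × X), dd one φ ![p.1, x₀, p.2] = 0 := by
    have ht : Tendsto (fun p : X × X => (![p.1, x₀, p.2] : Fin 3 → X)) (𝓝 (x₀, x₀))
        (𝓝 (fun _ : Fin 3 => x₀)) := by
      rw [tendsto_pi_nhds]
      intro j
      fin_cases j
      · exact continuous_fst.tendsto (x₀, x₀)
      · exact tendsto_const_nhds
      · exact continuous_snd.tendsto (x₀, x₀)
    exact ht.eventually (hφ x₀ hx₀)
  have g1 : ∀ᶠ p in 𝓝 ((x₀, x₀) : X × X), p.1 ∈ e '' C → (φ ![p.1, x₀] = V x₀ - V p.1 ∧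
      φ ![x₀, p.1] = V p.1 - V x₀) := (continuous_fst.tendsto (x₀, x₀)).eventually hgood
  have g2 : ∀ᶠ p in 𝓝 ((x₀, x₀) : X × X), p.2 ∈ e '' C → (φ ![p.2, x₀] = V x₀ - V p.2 ∧
      φ ![x₀, p.2] = V p.2 - V x₀) := (continuous_snd.tendsto (x₀, x₀)).eventually hgood
  have g3 : ∀ᶠ p in 𝓝 ((x₀, x₀) : X × X), p ∈ (e '' C) ×ˢ (e '' C) →
      φ ![p.1, p.2] = V p.2 - V p.1 := by
    filter_upwards [hcoc, g1, g2] with p h0 h1 h2 hpm
    have k1 := (h1 hpm.1).1
    have k2 := (h2 hpm.2).2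
    rw [pg_dd1] at h0
    have h3 : V p.2 - V x₀ - φ ![p.1, p.2] + (V x₀ - V p.1) = 0 := by
      rw [← k1, ← k2]
      exact h0
    have h4 : φ ![p.1, p.2] = (V p.2 - V x₀ - φ ![p.1, p.2] + (V x₀ - V p.1)) +
        φ ![p.1, p.2] := by rw [h3, zero_add]
    rw [h4]
    abel
  rw [eventually_nhdsWithin_iff]
  exact g3

end PoolFbd
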