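import Pool.Agent.Work.MP_fbd21a_gt.PiSeg

/-! MODULE PiChain (MATHLIB ONLY essentially). The path cocycle: cocycle property and chains.
gpc_coc: the multiplication of FundamentalGroup is p * q = q.trans p (FundamentalGroup.mul_def), so
gPC x y * gPC y z = (p_z . seg z y . p_y⁻¹) . (p_y . seg y x . p_x⁻¹) = p_z . seg z y . seg y x . p_x⁻¹ = gPC x z near the
diagonal (seg_trans for (z, y, x)); p_x = bpP x₀ x.
gpc_chain: γ is the class of a loop δ at x₀ (Path.Homotopic.Quotient.ind). For every s in [0,1] a neighbourhood V_s of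
δ s on which W holds for all pairs and small paths are homotopic to segP (seg_loc). Lebesgue number: n ≥ 1 such
that δ maps each [k/n, (k+1)/n] into one V_s. c k = δ (1 - k/n) for k ≤ n (and x₀ for k > n). The subpath of δ from (k)/n to
(k+1)/n is homotopic to segP between its end points; Path.Homotopic.concat_subpath; induction on k:
chP (gPC) c k is the class of δ restricted to [1 - k/n, 1] precomposed with p_(c k): p_(δ(1-k/n)) . δ|[1-k/n,1]
(as p_(x₀) = refl). At k = n it is the class of δ. -/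

open Topology Filter Set

namespace PoolFbd

variable {X E : Type} [TopologicalSpace X] [PathConnectedSpace X] [NormedAddCommGroup E]
  [NormedSpace ℝ E] {i : X → E} {q : E → X} {U : Set E}

private theorem pic_nb {Y : Type*} [TopologicalSpace Y] {n : ℕ} {y : Y}
    {P : (Fin n → Y) → Prop} (h : ∀ᶠ t in 𝓝 (fun _ : Fin n => y), P t) :
    ∃ V ∈ 𝓝 y, ∀ t : Fin n → Y, (∀ k, t k ∈ V) → P t := by
  rw [nhds_pi] at h
  obtain ⟨I, _, u, hu, hsub⟩ := Filter.mem_pi.1 h
  refine ⟨⋂ k, u k, Filter.iInter_mem.2 hu, fun t ht => ?_⟩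
  exact hsub (fun k _ => Set.mem_iInter.1 (ht k) k)

private theorem pic_mul (h : Enr i q U) (x₀ x y z : X)
    (hs : Path.Homotopic ((segP h z y).trans (segP h y x)) (segP h z x)) :
    gPC h x₀ x y * gPC h x₀ y z = gPC h x₀ x z := by
  have e1 : Path.Homotopic.Quotient.mk (segP h z x) =
      (Path.Homotopic.Quotient.mk (segP h z y)).trans (Path.Homotopic.Quotient.mk (segP h y x)) := by
    rw [← Path.Homotopic.Quotient.mk_trans]
    exact (Path.Homotopic.Quotient.eq.2 hs).symm
  change Path.Homotopic.Quotient.trans (Path.Homotopic.Quotient.mk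
    (((bpP x₀ z).trans (segP h z y)).trans (bpP x₀ y).symm)) (Path.Homotopic.Quotient.mk
    (((bpP x₀ y).trans (segP h y x)).trans (bpP x₀ x).symm)) = Path.Homotopic.Quotient.mk
    (((bpP x₀ z).trans (segP h z x)).trans (bpP x₀ x).symm)
  simp only [Path.Homotopic.Quotient.mk_trans, Path.Homotopic.Quotient.mk_symm,
    Path.Homotopic.Quotient.trans_assoc, e1]
  congr 2
  rw [← Path.Homotopic.Quotient.trans_assoc, Path.Homotopic.Quotient.symm_trans,
    Path.Homotopic.Quotient.refl_trans]

theorem gpc_coc (h : Enr i q U) (x₀ : X) : IsTw univ (gPC h x₀) := by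
  intro x _
  have h1 : ∀ᶠ t in 𝓝 (fun _ : Fin 3 => x),
      Path.Homotopic ((segP h (t 2) (t 1)).trans (segP h (t 1) (t 0))) (segP h (t 2) (t 0)) :=
    (tendsto_face (![2, 1, 0] : Fin 3 → Fin 3) x).eventually (seg_trans h x)
  filter_upwards [h1] with t ht
  exact pic_mul h x₀ _ _ _ ht

private theorem pic_end {x₀ : X} {x : X} (hx : x = x₀) (P : Path x x₀) (Q : Path x₀ x₀)
    (hP : P = Q.cast hx rfl) :
    (Path.Homotopic.Quotient.mk (bpP x₀ x)).trans (Path.Homotopic.Quotient.mk P) =
      Path.Homotopic.Quotient.mk Q := by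
  subst hx
  rw [hP]
  have e1 : bpP x x = Path.refl x := by
    unfold bpP
    rw [dif_pos rfl]
    rfl
  rw [e1, Path.Homotopic.Quotient.mk_refl, Path.Homotopic.Quotient.refl_trans]
  rfl

private theorem pic_step (h : Enr i q U) (x₀ x y z : X) (P : Path y z) (Q : Path x z)
    (hs : Path.Homotopic ((segP h x y).trans P) Q) :
    (Path.Homotopic.Quotient.mk (((bpP x₀ x).trans (segP h x y)).trans (bpP x₀ y).symm)).trans
      ((Path.Homotopic.Quotient.mk (bpP x₀ y)).trans (Path.Homotopic.Quotient.mk P)) =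
      (Path.Homotopic.Quotient.mk (bpP x₀ x)).trans (Path.Homotopic.Quotient.mk Q) := by
  have e1 : Path.Homotopic.Quotient.mk Q =
      (Path.Homotopic.Quotient.mk (segP h x y)).trans (Path.Homotopic.Quotient.mk P) := by
    rw [← Path.Homotopic.Quotient.mk_trans]
    exact (Path.Homotopic.Quotient.eq.2 hs).symm
  simp only [Path.Homotopic.Quotient.mk_trans, Path.Homotopic.Quotient.mk_symm,
    Path.Homotopic.Quotient.trans_assoc, e1]
  congr 2
  rw [← Path.Homotopic.Quotient.trans_assoc, Path.Homotopic.Quotient.symm_trans,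
    Path.Homotopic.Quotient.refl_trans]

omit [PathConnectedSpace X] in
private theorem pic_cast {a b c c' : X} (P : Path a b) (Q : Path b c) (R : Path a c)
    (hc : c' = c) (h : Path.Homotopic (P.trans Q) R) :
    Path.Homotopic (P.trans (Q.cast rfl hc)) (R.cast rfl hc) := by
  subst hc
  exact h

theorem gpc_chain (h : Enr i q U) (x₀ : X) (W : X → X → Prop)
    (hW : ∀ x, ∀ᶠ t in 𝓝 (fun _ : Fin 2 => x), W (t 0) (t 1)) (γ : FundamentalGroup X x₀) :
    ∃ (n : ℕ) (c : ℕ → X), c 0 = x₀ ∧ c n = x₀ ∧ (∀ i < n, W (c i) (c (i + 1))) ∧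
      γ = chP (gPC h x₀) c n := by
  obtain ⟨δ, hδ⟩ := Path.Homotopic.Quotient.mk_surjective (X := X) γ
  -- good neighbourhoods
  have hgood : ∀ x : X, ∃ V : Set X, IsOpen V ∧ x ∈ V ∧ (∀ a ∈ V, ∀ b ∈ V, W a b) ∧
      ∀ (a b : X) (γ : Path a b), (∀ t, γ t ∈ V) → Path.Homotopic γ (segP h a b) := by
    intro x
    obtain ⟨V1, hV1, h1⟩ := pic_nb (hW x)
    obtain ⟨V2, hV2, _, h2⟩ := seg_loc h x (Filter.univ_mem : (univ : Set X) ∈ 𝓝 x)
    obtain ⟨V, hVsub, hVo, hxV⟩ := mem_nhds_iff.1 (Filter.inter_mem hV1 hV2)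
    refine ⟨V, hVo, hxV, fun a ha b hb => ?_, fun a b γ hγ => h2 a b γ fun t => (hVsub (hγ t)).2⟩
    have := h1 ![a, b] (fun k => by
      fin_cases k
      · exact (hVsub ha).1
      · exact (hVsub hb).1)
    simpa using this
  choose V hVo hxV hVW hVseg using hgood
  obtain ⟨ε, hε, hleb⟩ := lebesgue_number_lemma_of_metric (s := (univ : Set unitInterval))
    (c := fun x : X => δ ⁻¹' V x) isCompact_univ (fun x => (hVo x).preimage δ.continuous)
    (fun t _ => Set.mem_iUnion.2 ⟨δ t, hxV (δ t)⟩)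
  obtain ⟨m, hm⟩ := exists_nat_one_div_lt hε
  let u : ℕ → unitInterval := fun k => Set.projIcc 0 1 zero_le_one (1 - (k : ℝ) / ((m + 1 : ℕ) : ℝ))
  have hmpos : (0 : ℝ) < ((m + 1 : ℕ) : ℝ) := by positivity
  have huval : ∀ k ≤ m + 1, ((u k : unitInterval) : ℝ) = 1 - (k : ℝ) / ((m + 1 : ℕ) : ℝ) := by
    intro k hk
    have h1 : (k : ℝ) / ((m + 1 : ℕ) : ℝ) ≤ 1 := by
      rw [div_le_one hmpos]
      exact_mod_cast hk
    have h2 : (0 : ℝ) ≤ (k : ℝ) / ((m + 1 : ℕ) : ℝ) := by positivity
    change ((Set.projIcc 0 1 zero_le_one (1 - (k : ℝ) / ((m + 1 : ℕ) : ℝ)) : unitInterval) : ℝ) = _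
    rw [Set.projIcc_of_mem zero_le_one (⟨by linarith, by linarith⟩ :
      (1 - (k : ℝ) / ((m + 1 : ℕ) : ℝ)) ∈ Set.Icc (0 : ℝ) 1)]
  have hu0 : u 0 = 1 := by
    apply Subtype.ext
    rw [huval 0 (by omega)]
    simp
  have hun : u (m + 1) = 0 := by
    apply Subtype.ext
    rw [huval (m + 1) le_rfl, div_self hmpos.ne']
    simp
  have hstep : ∀ k < m + 1, ((u k : unitInterval) : ℝ) - u (k + 1) = 1 / ((m : ℝ) + 1) := by
    intro k hk
    rw [huval k (by omega), huval (k + 1) (by omega)]
    push_cast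
    ring
  have hball : ∀ k < m + 1, ∃ x : X, ∀ s : unitInterval, u (k + 1) ≤ s → s ≤ u k →
      δ s ∈ V x := by
    intro k hk
    obtain ⟨x, hx⟩ := hleb (u (k + 1)) (Set.mem_univ _)
    refine ⟨x, fun s h1 h2 => hx ?_⟩
    rw [Metric.mem_ball, Subtype.dist_eq, Real.dist_eq, abs_of_nonneg (by
      have : ((u (k + 1) : unitInterval) : ℝ) ≤ s := h1
      linarith)]
    have h3 : ((s : unitInterval) : ℝ) ≤ u k := h2
    have h4 := hstep k hk
    linarith
  have hle : ∀ k < m + 1, u (k + 1) ≤ u k := by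
    intro k hk
    have h4 := hstep k hk
    have h5 : (0 : ℝ) < 1 / ((m : ℝ) + 1) := by positivity
    change ((u (k + 1) : unitInterval) : ℝ) ≤ u k
    linarith
  refine ⟨m + 1, fun k => δ (u k), ?_, ?_, ?_, ?_⟩
  · change δ (u 0) = x₀
    rw [hu0, δ.target]
  · change δ (u (m + 1)) = x₀
    rw [hun, δ.source]
  · intro k hk
    obtain ⟨x, hx⟩ := hball k hk
    exact hVW x _ (hx _ (hle k hk) le_rfl) _ (hx _ le_rfl (hle k hk))
  · have key : ∀ k ≤ m + 1, chP (gPC h x₀) (fun k => δ (u k)) k =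
        (Path.Homotopic.Quotient.mk (bpP x₀ (δ (u k)))).trans
          (Path.Homotopic.Quotient.mk ((δ.subpath (u k) 1).cast rfl δ.target.symm)) := by
      intro k
      induction k with
      | zero =>
        intro _
        have hz : ∀ w : unitInterval, w = 1 → (Path.Homotopic.Quotient.mk (bpP x₀ (δ w))).trans
            (Path.Homotopic.Quotient.mk ((δ.subpath w 1).cast rfl δ.target.symm)) =
            Path.Homotopic.Quotient.mk (Path.refl x₀) := by
          intro w hw
          subst hw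
          refine pic_end δ.target _ _ ?_
          ext t
          simp
        exact (hz (u 0) hu0).symm
      | succ k ih =>
        intro hk
        have h1 := ih (by omega)
        obtain ⟨x, hx⟩ := hball k (by omega)
        have h2 : Path.Homotopic (δ.subpath (u (k + 1)) (u k))
            (segP h (δ (u (k + 1))) (δ (u k))) := by
          apply hVseg x
          intro t
          have h3 : δ.subpath (u (k + 1)) (u k) t ∈ Set.range (δ.subpath (u (k + 1)) (u k)) :=
            ⟨t, rfl⟩
          rw [Path.range_subpath_of_le _ _ _ (hle k (by omega))] at h3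
          obtain ⟨s, hs, hst⟩ := h3
          rw [← hst]
          exact hx s hs.1 hs.2
        have h4 : Path.Homotopic ((segP h (δ (u (k + 1))) (δ (u k))).trans (δ.subpath (u k) 1))
            (δ.subpath (u (k + 1)) 1) :=
          (Path.Homotopic.hcomp h2.symm (Path.Homotopic.refl _)).trans
            ⟨Path.Homotopy.subpathTransSubpath δ _ _ _⟩
        have h5 := pic_cast _ _ _ δ.target.symm h4
        change Path.Homotopic.Quotient.trans (gPC h x₀ (δ (u k)) (δ (u (k + 1))))
          (chP (G := FundamentalGroup X x₀) (gPC h x₀) (fun k => δ (u k)) k) = _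
        rw [h1]
        exact pic_step h x₀ _ _ _ _ _ h5
    rw [key (m + 1) le_rfl]
    have hz : ∀ w : unitInterval, w = 0 → (Path.Homotopic.Quotient.mk (bpP x₀ (δ w))).trans
        (Path.Homotopic.Quotient.mk ((δ.subpath w 1).cast rfl δ.target.symm)) =
        Path.Homotopic.Quotient.mk δ := by
      intro w hw
      subst hw
      refine pic_end δ.source _ _ ?_
      ext t
      simp
    exact ((hz (u (m + 1)) hun).trans hδ).symm

end PoolFbd
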