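import Pool.Agent.Work.MP_fbd21a_gt.PiDefs

/-! MODULE PiSeg (MATHLIB ONLY essentially). Straight paths and small paths.
PROOF of seg_loc: continuity of q at i x₁ and openness of U: a ball B around i x₁ with B ⊆ U and q '' B ⊆ N;
V = i ⁻¹' B. For a, b ∈ V the segment stays in B (convex), segP is q of the segment. For a path γ in V from a to b:
the straight line homotopy (s,t) ↦ q ((1 - s) i (γ t) + s lineMap (i a) (i b) t) stays in q '' B, is constant at the
end points, goes from q ∘ i ∘ γ = γ to segP h a b.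
seg_trans: take V₂ from seg_loc for N = univ, V₁ from seg_loc for N = V₂; for a, b, c ∈ V₁ ∩ V₂ the path
(segP a b).trans (segP b c) stays in V₂, so it is homotopic to segP a c.
seg_self: segP x x is homotopic to the constant path (constant path in V). -/

open Topology Filter Set

namespace PoolFbd

variable {X E : Type} [TopologicalSpace X] [PathConnectedSpace X] [NormedAddCommGroup E]
  [NormedSpace ℝ E] {i : X → E} {q : E → X} {U : Set E}

private theorem pis_apply (h : Enr i q U) {x y : X}
    (hs : ∀ t : unitInterval, AffineMap.lineMap (i x) (i y) (t : ℝ) ∈ U) (t : unitInterval) :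
    segP h x y t = q (AffineMap.lineMap (i x) (i y) (t : ℝ)) := by
  unfold segP
  rw [dif_pos hs]
  rfl

theorem seg_loc (h : Enr i q U) (x₁ : X) {N : Set X} (hN : N ∈ 𝓝 x₁) : ∃ V ∈ 𝓝 x₁,
    (∀ a ∈ V, ∀ b ∈ V, ∀ t, segP h a b t ∈ N) ∧
    ∀ (a b : X) (γ : Path a b), (∀ t, γ t ∈ V) → Path.Homotopic γ (segP h a b) := by
  have h1 : U ∈ 𝓝 (i x₁) := h.oU.mem_nhds (h.iU x₁)
  have h2 : q ⁻¹' N ∈ 𝓝 (i x₁) := by
    refine (h.cq.continuousAt h1).preimage_mem_nhds ?_
    rw [h.qi]
    exact hN
  obtain ⟨ε, hε, hball⟩ := Metric.mem_nhds_iff.1 (Filter.inter_mem h1 h2)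
  have hconv := convex_ball (i x₁) ε
  have hline : ∀ a ∈ i ⁻¹' Metric.ball (i x₁) ε, ∀ b ∈ i ⁻¹' Metric.ball (i x₁) ε,
      ∀ t : unitInterval, AffineMap.lineMap (i a) (i b) (t : ℝ) ∈ Metric.ball (i x₁) ε :=
    fun a ha b hb t => hconv.lineMap_mem ha hb t.2
  refine ⟨i ⁻¹' Metric.ball (i x₁) ε, h.ci.continuousAt.preimage_mem_nhds
    (Metric.ball_mem_nhds _ hε), ?_, ?_⟩
  · intro a ha b hb t
    rw [pis_apply h (fun t => (hball (hline a ha b hb t)).1)]
    exact (hball (hline a ha b hb t)).2
  · intro a b γ hγ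
    have ha : a ∈ i ⁻¹' Metric.ball (i x₁) ε := by
      have := hγ 0
      rwa [γ.source] at this
    have hb : b ∈ i ⁻¹' Metric.ball (i x₁) ε := by
      have := hγ 1
      rwa [γ.target] at this
    have hs : ∀ t : unitInterval, AffineMap.lineMap (i a) (i b) (t : ℝ) ∈ U :=
      fun t => (hball (hline a ha b hb t)).1
    have hin : ∀ p : unitInterval × unitInterval, AffineMap.lineMap (i (γ p.2))
        (AffineMap.lineMap (i a) (i b) (p.2 : ℝ)) (p.1 : ℝ) ∈ Metric.ball (i x₁) ε := fun p =>
      hconv.lineMap_mem (hγ p.2) (hline a ha b hb p.2) p.1.2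
    have hcont : Continuous fun p : unitInterval × unitInterval =>
        q (AffineMap.lineMap (i (γ p.2)) (AffineMap.lineMap (i a) (i b) (p.2 : ℝ)) (p.1 : ℝ)) := by
      refine h.cq.comp_continuous ?_ (fun p => (hball (hin p)).1)
      have e1 : Continuous fun p : unitInterval × unitInterval => i (γ p.2) :=
        h.ci.comp (γ.continuous.comp continuous_snd)
      have c1 : Continuous fun p : unitInterval × unitInterval => (p.1 : ℝ) :=
        continuous_subtype_val.comp continuous_fst
      have c2 : Continuous fun p : unitInterval × unitInterval => (p.2 : ℝ) :=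
        continuous_subtype_val.comp continuous_snd
      simp only [AffineMap.lineMap_apply_module]
      exact ((continuous_const.sub c1).smul e1).add
        (c1.smul (((continuous_const.sub c2).smul continuous_const).add
          (c2.smul continuous_const)))
    refine ⟨{ toFun := fun p => q (AffineMap.lineMap (i (γ p.2))
                (AffineMap.lineMap (i a) (i b) (p.2 : ℝ)) (p.1 : ℝ))
              continuous_toFun := hcont
              map_zero_left := ?_
              map_one_left := ?_
              prop' := ?_ }⟩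
    · intro t
      simp [h.qi]
    · intro t
      change _ = segP h a b t
      rw [pis_apply h hs]
      simp
    · intro s t ht
      rcases ht with rfl | ht
      · simp [h.qi]
      · rw [Set.mem_singleton_iff] at ht
        subst ht
        simp [h.qi]

theorem seg_trans (h : Enr i q U) (x₁ : X) : ∀ᶠ t in 𝓝 (fun _ : Fin 3 => x₁),
    Path.Homotopic ((segP h (t 0) (t 1)).trans (segP h (t 1) (t 2))) (segP h (t 0) (t 2)) := by
  obtain ⟨V₂, hV₂, _, h2⟩ := seg_loc h x₁ (Filter.univ_mem : (univ : Set X) ∈ 𝓝 x₁)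
  obtain ⟨V₁, hV₁, h1, _⟩ := seg_loc h x₁ hV₂
  have h3 : ∀ᶠ t in 𝓝 (fun _ : Fin 3 => x₁), ∀ k : Fin 3, t k ∈ V₁ := by
    rw [eventually_all]
    exact fun k => ((continuous_apply k).tendsto (fun _ : Fin 3 => x₁)).eventually hV₁
  filter_upwards [h3] with t ht
  apply h2
  intro s
  rw [Path.trans_apply]
  split_ifs
  · exact h1 _ (ht 0) _ (ht 1) _
  · exact h1 _ (ht 1) _ (ht 2) _

theorem seg_self (h : Enr i q U) (x : X) : Path.Homotopic (segP h x x) (Path.refl x) := by
  obtain ⟨V, hV, _, h2⟩ := seg_loc h x (Filter.univ_mem : (univ : Set X) ∈ 𝓝 x)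
  exact (h2 x x (Path.refl x) (fun _ => mem_of_mem_nhds hV)).symm

end PoolFbd
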