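import Pool.Agent.Work.MP_fbd21a_gt.RkQ
import Pool.Agent.Work.MP_fbd21a_gt.Cpr

/-! MODULE RkK. Over Q_5 the c-part of the compactly supported classes is spanned by one class.
PROOF. x₀ from rkq; e = cmap (algebraMap ℚ K5) x₀ - c • J (that) (K5-valued). Let x be a K5-valued
relative cocycle with J x - c x a relative coboundary. fin_range: x ~ x' with finitely many values in
K5. The ℚ-span of the values has a finite basis b_1..b_m: x' = Σ_k x_k • b_k with ℚ-valued x_k
(coordinates; G-equivariant ℚ-linear), each x_k a relative ℚ-valued cocycle (independence: dd τ x' =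
Σ (dd τ x_k) b_k). x_k ~ a_k x₀ + a'_k J x₀, so x ~ A x₀ + A' J x₀ with A = Σ a_k b_k, A' ∈ K5.
Since J x ~ c x: x = (x + x)/2 ~ (x - c J x)/2 (c² = -1) ~ (A (x₀ - c J x₀) + A' (J x₀ + c x₀))/2
(J J x₀ = -x₀) and J x₀ + c x₀ = c (x₀ - c J x₀) = c e. So x ~ ((A + A' c)/2) • e.
e is a relative cocycle and J e = c e near univ. -/

open Topology Filter Set

namespace PoolFbd

private theorem rkk_j_map {E A B : Type*} [AddCommGroup A] [AddCommGroup B] (G : A →+ B)
    (η : E → ℤˣ) (r : E → E) {n : ℕ} (φ : Coch E A n) :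
    cmap G (Jop η r φ) = Jop η r (cmap G φ) := by
  funext t
  simp only [cmap, Jop, cl_unit_map]

/-- A cochain with finitely many values in `K5` decomposes over rational cochains. -/
private theorem rkk_dec {E : Type*} {n : ℕ} (x : Coch E K5 n) (hx : (range x).Finite) :
    ∃ (m : ℕ) (b : Fin m → K5) (P : Fin m → (K5 →+ ℚ)),
      x = ∑ k, cmap ((AddMonoidHom.mulRight (b k)).comp (algebraMap ℚ K5).toAddMonoidHom)
        (cmap (P k) x) := by
  have : Module.Finite ℚ (Submodule.span ℚ (range x)) :=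
    FiniteDimensional.span_of_finite ℚ hx
  let bas := Module.finBasis ℚ (Submodule.span ℚ (range x))
  have hP : ∀ k, ∃ P : K5 →ₗ[ℚ] ℚ, P ∘ₗ (Submodule.span ℚ (range x)).subtype = bas.coord k :=
    fun k => LinearMap.exists_extend _
  choose P hP using hP
  refine ⟨_, fun k => (bas k : K5), fun k => (P k).toAddMonoidHom, ?_⟩
  funext t
  have hmem : x t ∈ Submodule.span ℚ (range x) := Submodule.subset_span (mem_range_self t)
  have h1 := congrArg (fun v : Submodule.span ℚ (range x) => (v : K5))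
    (bas.sum_repr ⟨x t, hmem⟩)
  simp only [Submodule.coe_sum, Submodule.coe_smul] at h1
  rw [Finset.sum_apply]
  refine h1.symm.trans (Finset.sum_congr rfl fun k _ => ?_)
  have h2 : P k (x t) = bas.repr ⟨x t, hmem⟩ k := by
    have := LinearMap.congr_fun (hP k) ⟨x t, hmem⟩
    exact this
  change _ = (algebraMap ℚ K5) (P k (x t)) * (bas k : K5)
  rw [h2, Algebra.smul_def]

theorem rkk {F : Set (Q 4)} {rb : Q 4 → Q 4} {K : Set E3} {τ : Q 4 → Q 4 → ℤˣ} {η : Q 4 → ℤˣ}
    {τ₃ : E3 → E3 → ℤˣ} {η₃ : E3 → ℤˣ} {c : R5} (hc : c * c = -1) (hS : Surf4 F rb K)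
    (hT : SymTw F rb τ η τ₃ η₃) {x₀ : Coch (Q 4) ℚ 2} (hx₀ : Coc τ univ (F ∪ bd 4) x₀)
    (hsp : ∀ x : Coch (Q 4) ℚ 2, Coc τ univ (F ∪ bd 4) x → ∃ a b : ℚ,
        Cob τ univ (F ∪ bd 4) (x - (a • x₀ + b • Jop η rb x₀))) :
    ∃ e : Coch (Q 4) K5 2, Coc τ univ (F ∪ bd 4) e ∧ CPart η rb c e ∧
      ∀ x : Coch (Q 4) K5 2, Coc τ univ (F ∪ bd 4) x →
        Cob τ univ (F ∪ bd 4) (Jop η rb x - c • x) → ∃ s : K5,
          Cob τ univ (F ∪ bd 4) (x - s • e) := by
  have hFcl : IsClosed F := hS.tame.1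
  have hZc : IsClosed (F ∪ bd 4) := hFcl.union (bd_closed 4)
  have hτ : IsTw (univ \ (F ∪ bd 4)) τ := hT.tw.mono fun _ hx hF => hx.2 (Or.inl hF)
  have hrZ : ∀ x ∈ F ∪ bd 4, rb x ∈ F ∪ bd 4 := by
    rintro x (hx | hx)
    · exact Or.inl ((hS.inv x).mp hx)
    · right
      rw [hS.bdry x hx]
      exact rho_bd x hx
  have heq : ∀ x ∈ univ \ (F ∪ bd 4), ∀ᶠ t in 𝓝 (fun _ : Fin 2 => x),
      τ (rb (t 0)) (rb (t 1)) = η (t 0) * τ (t 0) (t 1) * η (t 1) :=
    fun x hx => hT.equiv x fun hF => hx.2 (Or.inl hF)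
  have hanti : ∀ x ∈ (F ∪ bd 4)ᶜ, η (rb x) = - η x :=
    fun x hx => hT.anti x fun hF => hx (Or.inl hF)
  have hcc : (c : K5) * (c : K5) = -1 := by
    rw [← PadicInt.coe_mul, hc, PadicInt.coe_neg, PadicInt.coe_one]
  have hsm : ∀ φ : Coch (Q 4) K5 2, c • φ = (c : K5) • φ := by
    intro φ
    funext t
    rw [Pi.smul_apply, Pi.smul_apply, Algebra.smul_def, PadicInt.algebraMap_apply, smul_eq_mul]
  obtain ⟨X, hX⟩ : ∃ X : Coch (Q 4) K5 2, X = cmap (algebraMap ℚ K5).toAddMonoidHom x₀ := ⟨_, rfl⟩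
  have hXc : Coc τ univ (F ∪ bd 4) X := by
    rw [hX]
    exact cl_coc_map _ hx₀
  have hJc : Coc τ univ (F ∪ bd 4) (Jop η rb X) :=
    j_coc hS.cont (fun _ _ => mem_univ _) hrZ heq hXc
  have hJJ : LZ univ (Jop η rb (Jop η rb X) + X) := j_j hS.cont hS.invol hZc hanti hXc.1
  refine ⟨X - c • Jop η rb X, hXc.sub (cl_coc_smul c hJc), ?_, ?_⟩
  · intro p hp
    filter_upwards [hJJ p hp] with t ht
    have h1 : Jop η rb (Jop η rb X) t + X t = 0 := ht
    rw [hsm, hsm, j_sub, j_smul]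
    simp only [Pi.sub_apply, Pi.smul_apply, smul_eq_mul]
    linear_combination (-(c : K5)) * h1 + (Jop η rb X t) * hcc
  · intro x hx hxc
    obtain ⟨x', hfin, hx'c, hxx'⟩ := fin_range isCompact_univ hZc.isCompact (subset_univ _) hτ hx
    obtain ⟨m, b, P, hdec⟩ := rkk_dec x' hfin
    have hk : ∀ k, ∃ a a' : ℚ, Cob τ univ (F ∪ bd 4)
        (cmap (P k) x' - (a • x₀ + a' • Jop η rb x₀)) := fun k => hsp _ (cl_coc_map _ hx'c)
    choose a a' hk using hk
    obtain ⟨A, hA⟩ : ∃ A : K5, A = ∑ k, algebraMap ℚ K5 (a k) * b k := ⟨_, rfl⟩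
    obtain ⟨B, hB⟩ : ∃ B : K5, B = ∑ k, algebraMap ℚ K5 (a' k) * b k := ⟨_, rfl⟩
    have h1 : Cob τ univ (F ∪ bd 4) (x' - (A • X + B • Jop η rb X)) := by
      have h2 := cl_cob_sum (τ := τ) (S := univ) (Z := F ∪ bd 4) Finset.univ
        (fun k => cmap ((AddMonoidHom.mulRight (b k)).comp (algebraMap ℚ K5).toAddMonoidHom)
          (cmap (P k) x' - (a k • x₀ + a' k • Jop η rb x₀)))
        (fun k _ => cl_cob_map _ (hk k))
      have e : x' - (A • X + B • Jop η rb X) = ∑ k, cmap ((AddMonoidHom.mulRight (b k)).comp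
          (algebraMap ℚ K5).toAddMonoidHom)
          (cmap (P k) x' - (a k • x₀ + a' k • Jop η rb x₀)) := by
        simp only [cl_map_sub]
        rw [Finset.sum_sub_distrib, ← hdec]
        congr 1
        funext t
        rw [Finset.sum_apply, hX, ← rkk_j_map, hA, hB]
        simp only [Pi.add_apply, Pi.smul_apply, smul_eq_mul, Finset.sum_mul, cmap,
          AddMonoidHom.comp_apply, AddMonoidHom.mulRight_apply, RingHom.toAddMonoidHom_eq_coe,
          AddMonoidHom.coe_coe, map_add, map_mul]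
        rw [← Finset.sum_add_distrib]
        refine Finset.sum_congr rfl fun k _ => ?_
        ring
      rw [e]
      exact h2
    have T1 : Cob τ univ (F ∪ bd 4) (x - (A • X + B • Jop η rb X)) := hxx'.trans h1
    have T3 : Cob τ univ (F ∪ bd 4)
        (Jop η rb x - (A • Jop η rb X + B • Jop η rb (Jop η rb X))) := by
      have := j_cob hS.cont (fun _ _ => mem_univ _) hrZ heq T1
      rwa [j_sub, j_add, j_smul, j_smul] at this
    have T4 : Cob τ univ (F ∪ bd 4) (Jop η rb (Jop η rb X) + X) := Cob.of_LZ hJJ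
    rw [hsm] at hxc
    refine ⟨(A + B * (c : K5)) / 2, ?_⟩
    have e : x - ((A + B * (c : K5)) / 2) • (X - c • Jop η rb X) =
        (1 / 2 : K5) • (((x - (A • X + B • Jop η rb X)) -
          (c : K5) • (Jop η rb x - (A • Jop η rb X + B • Jop η rb (Jop η rb X)))) -
          ((c : K5) * B) • (Jop η rb (Jop η rb X) + X) +
          (c : K5) • (Jop η rb x - (c : K5) • x)) := by
      funext t
      rw [hsm]
      simp only [Pi.sub_apply, Pi.add_apply, Pi.smul_apply, smul_eq_mul]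
      linear_combination (1 / 2 * x t + 1 / 2 * B * Jop η rb X t) * hcc
    rw [e]
    exact cl_cob_smul _ (((T1.sub (cl_cob_smul _ T3)).sub (cl_cob_smul _ T4)).add
      (cl_cob_smul _ hxc))

end PoolFbd
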