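import Pool.Agent.Work.MP_fbd21a_gt.InjI
import Pool.Agent.Work.MP_fbd21a_gt.Mod2
import Pool.Agent.Work.MP_fbd21a_gt.AlgRk
import Pool.Agent.Work.MP_fbd21a_gt.FinR
import Pool.Agent.Work.MP_fbd21a_gt.PDThm
import Pool.Agent.Work.MP_fbd21a_gt.JInt
import Pool.Agent.Work.MP_fbd21a_gt.CLinJ

/-! MODULE RkQ. The rational classes with compact support in the interior complement are spanned by
x₀ and J x₀.
PROOF. Apply alg_rk and alg_J with
V = W = (submodule of Coch (Q 4) ℚ 2 of all φ with Coc τ univ (F ∪ bd 4) φ) modulo (submodule of the φ which are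
moreover Cob τ univ (F ∪ bd 4)), B = additive group of integral relative cocycles, ii = jj = cast to ℚ
(cmap Int.cast) and class, q(v, w) = Itg (cup (2+2=4) (upt ℚ τ) v w) (bilinear, well defined:
cup_cob_left, cup_cob_right, Itg_congr; a cocycle w of (univ, F ∪ bd) is a cocycle near Fᶜ).
hV = hW: fin_range (FinR) with Z = F ∪ bd 4: a representative with finitely many rational values, multiply
by a common denominator N.
hint: Itg of the cast of the integral product is the cast of its Itg (Itg_map).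
hnd: PInj ℚ ℚ for U = Fᶜ (pd, baer_self ℚ; Uᶜ ∪ bd = F ∪ bd): a w orthogonal to all v is a coboundary near
Fᶜ: Cob τ Fᶜ ∅ w; inji: Cob τ univ (F ∪ bd 4) w.
h5: mod2: x i - x j - 2 y = z is a relative coboundary (z = dd τ v near univ is an integral cocycle), so
its class is 0.
J: Jop η rb acts on V (j_coc, j_cob with S = univ, Z = F ∪ bd 4; the equiv hypothesis is used on
univ \ (F ∪ bd) ⊆ Fᶜ), J J = -1 (j_j with Z = F ∪ bd 4: anti on its complement). -/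

open Topology Filter Set

namespace PoolFbd

section
variable (τ : Q 4 → Q 4 → ℤˣ) (Z : Set (Q 4))

/-- Rational relative cocycles. -/
private def rqC : Submodule ℚ (Coch (Q 4) ℚ 2) where
  carrier := {φ | Coc τ univ Z φ}
  add_mem' h h' := Coc.add h h'
  zero_mem' := Coc.zero _ _ _
  smul_mem' r _ h := cl_coc_smul r h

/-- Rational relative coboundaries. -/
private def rqB : Submodule ℚ (rqC τ Z) where
  carrier := {φ | Cob τ univ Z φ.1}
  add_mem' {a b} h h' := Cob.add (τ := τ) (S := univ) (Z := Z) (φ := a.1) (φ' := b.1) h h'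
  zero_mem' := Cob.zero τ univ Z (n := 2) (A := ℚ)
  smul_mem' r a h := cl_cob_smul (τ := τ) (S := univ) (Z := Z) (φ := a.1) r h

/-- Integral relative cocycles. -/
private def rqZ : AddSubgroup (Coch (Q 4) ℤ 2) where
  carrier := {φ | Coc τ univ Z φ}
  add_mem' h h' := Coc.add h h'
  zero_mem' := Coc.zero _ _ _
  neg_mem' h := Coc.neg h

/-- The class of an integral cocycle. -/
private def rqI : rqZ τ Z →+ (rqC τ Z ⧸ rqB τ Z) where
  toFun b := Submodule.Quotient.mk ⟨cmap (Int.castAddHom ℚ) b.1, cl_coc_map _ b.2⟩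
  map_zero' := by
    rw [← Submodule.Quotient.mk_zero]
    congr 1
  map_add' a b := by
    rw [← Submodule.Quotient.mk_add]
    congr 1
    apply Subtype.ext
    funext t
    simp [cmap]

variable {Z}

private theorem rq_lz {φ : Coch (Q 4) ℚ 2} (h : Coc τ univ Z φ) : LZ (univ \ Z) (dd τ φ) :=
  h.2.mono (subset_univ _)

/-- The pairing of cocycles. -/
private noncomputable def rqq (hZ : bd 4 ⊆ Z) (hτ : IsTw (univ \ Z) τ) :
    rqC τ Z →ₗ[ℚ] rqC τ Z →ₗ[ℚ] ℚ :=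
  LinearMap.mk₂ ℚ (fun v w => Itg (cup (rfl : 2 + 2 = 4) (upt ℚ τ) v.1 w.1))
    (fun v v' w => cj_add_left rfl hZ hτ v.2 v'.2 (rq_lz τ w.2))
    (fun r v w => cj_smul_left rfl hZ hτ r v.2 (rq_lz τ w.2))
    (fun v w w' => cj_add_right rfl hZ hτ v.2 (rq_lz τ w.2) (rq_lz τ w'.2))
    (fun r v w => cj_smul_right rfl hZ hτ r v.2 (rq_lz τ w.2))

private theorem rqq_apply (hZ : bd 4 ⊆ Z) (hτ : IsTw (univ \ Z) τ) (v w : rqC τ Z) :
    rqq τ hZ hτ v w = Itg (cup (rfl : 2 + 2 = 4) (upt ℚ τ) v.1 w.1) := rfl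

private theorem rqq_l (hZ : bd 4 ⊆ Z) (hτ : IsTw (univ \ Z) τ) (v w : rqC τ Z)
    (hv : v ∈ rqB τ Z) : rqq τ hZ hτ v w = 0 :=
  cj_cob_left rfl hZ hτ hv v.2.1 (rq_lz τ w.2)

private theorem rqq_r (hZ : bd 4 ⊆ Z) (hτ : IsTw (univ \ Z) τ) (v w : rqC τ Z)
    (hw : w ∈ rqB τ Z) : rqq τ hZ hτ v w = 0 :=
  cj_cob_right rfl hZ hτ v.2 (Cob.mono (subset_univ _) (empty_subset _) hw)

/-- The pairing of classes. -/
private noncomputable def rqQ (hZ : bd 4 ⊆ Z) (hτ : IsTw (univ \ Z) τ) :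
    (rqC τ Z ⧸ rqB τ Z) →ₗ[ℚ] (rqC τ Z ⧸ rqB τ Z) →ₗ[ℚ] ℚ :=
  (rqB τ Z).liftQ (LinearMap.flip ((rqB τ Z).liftQ (LinearMap.flip (rqq τ hZ hτ)) (by
    intro w hw
    rw [LinearMap.mem_ker]
    ext v
    exact rqq_r τ hZ hτ v w hw))) (by
    intro v hv
    rw [LinearMap.mem_ker]
    ext w
    exact rqq_l τ hZ hτ v w hv)

private theorem rqQ_apply (hZ : bd 4 ⊆ Z) (hτ : IsTw (univ \ Z) τ) (v w : rqC τ Z) :
    rqQ τ hZ hτ (Submodule.Quotient.mk v) (Submodule.Quotient.mk w) =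
      Itg (cup (rfl : 2 + 2 = 4) (upt ℚ τ) v.1 w.1) := rfl

end

/-- A common denominator. -/
private theorem rq_den (s : Set ℚ) (hs : s.Finite) : ∃ N : ℕ, 0 < N ∧ ∀ x ∈ s, ∃ m : ℤ,
    (N : ℚ) * x = m := by
  induction s, hs using Set.Finite.induction_on with
  | empty => exact ⟨1, one_pos, fun x hx => hx.elim⟩
  | @insert a s _ _ ih =>
    obtain ⟨N, hN, h⟩ := ih
    refine ⟨N * a.den, Nat.mul_pos hN a.den_pos, fun x hx => ?_⟩
    rcases hx with rfl | hx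
    · refine ⟨N * x.num, ?_⟩
      push_cast
      rw [mul_assoc]
      congr 1
      rw [mul_comm]
      exact Rat.mul_den_eq_num x
    · obtain ⟨m, hm⟩ := h x hx
      refine ⟨m * a.den, ?_⟩
      push_cast
      rw [← hm]
      ring

private theorem rq_hV (τ : Q 4 → Q 4 → ℤˣ) {Z : Set (Q 4)} (hZc : IsClosed Z)
    (hτ : IsTw (univ \ Z) τ) (v : rqC τ Z ⧸ rqB τ Z) :
    ∃ N : ℕ, 0 < N ∧ ∃ b : rqZ τ Z, (N : ℚ) • v = rqI τ Z b := by
  obtain ⟨v, rfl⟩ := Submodule.Quotient.mk_surjective _ v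
  obtain ⟨φ', hfin, hcoc, hcob⟩ := fin_range isCompact_univ hZc.isCompact (subset_univ Z) hτ v.2
  obtain ⟨N, hN, hden⟩ := rq_den _ hfin
  have hden' : ∀ t, ∃ m : ℤ, (N : ℚ) * φ' t = m := fun t => hden _ (mem_range_self t)
  choose b hb using hden'
  have hbm : cmap (Int.castAddHom ℚ) b = (N : ℚ) • φ' := by
    funext t
    exact (hb t).symm
  have hbc : Coc τ univ Z b := by
    refine cl_coc_inj (Int.castAddHom ℚ) Int.cast_injective ?_
    rw [hbm]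
    exact cl_coc_smul _ hcoc
  refine ⟨N, hN, ⟨b, hbc⟩, ?_⟩
  change (N : ℚ) • Submodule.Quotient.mk v = Submodule.Quotient.mk _
  rw [← Submodule.Quotient.mk_smul, Submodule.Quotient.eq]
  change Cob τ univ Z ((N : ℚ) • v.1 - cmap (Int.castAddHom ℚ) b)
  rw [hbm, ← smul_sub]
  exact cl_cob_smul _ hcob

/-- The operator `J` on cocycles. -/
private def rqJ0 (τ : Q 4 → Q 4 → ℤˣ) (Z : Set (Q 4)) (η : Q 4 → ℤˣ) (rb : Q 4 → Q 4)
    (h : ∀ φ : Coch (Q 4) ℚ 2, Coc τ univ Z φ → Coc τ univ Z (Jop η rb φ)) :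
    rqC τ Z →ₗ[ℚ] rqC τ Z where
  toFun v := ⟨Jop η rb v.1, h v.1 v.2⟩
  map_add' v w := by
    apply Subtype.ext
    exact j_add v.1 w.1
  map_smul' r v := by
    apply Subtype.ext
    exact j_smul r v.1

theorem rkq {F : Set (Q 4)} {rb : Q 4 → Q 4} {K : Set E3} {τ : Q 4 → Q 4 → ℤˣ} {η : Q 4 → ℤˣ}
    {τ₃ : E3 → E3 → ℤˣ} {η₃ : E3 → ℤˣ} {c : R5} (hS : Surf4 F rb K)
    (hT : SymTw F rb τ η τ₃ η₃) (hK : KFacts K τ₃ η₃ c) (hconn : Conn0 (F ∩ bd 4))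
    (h4 : ∀ s : Fin 5 → Coch (Q 4) (ZMod 2) 1, (∀ i, LZ F (dd one (s i))) →
      ∃ i j, i ≠ j ∧ Cob one F ∅ (s i - s j)) :
    ∃ x₀ : Coch (Q 4) ℚ 2, Coc τ univ (F ∪ bd 4) x₀ ∧ ∀ x : Coch (Q 4) ℚ 2,
      Coc τ univ (F ∪ bd 4) x → ∃ a b : ℚ,
        Cob τ univ (F ∪ bd 4) (x - (a • x₀ + b • Jop η rb x₀)) := by
  have hFcl : IsClosed F := hS.tame.1
  have hZc : IsClosed (F ∪ bd 4) := hFcl.union (bd_closed 4)
  have hZ : bd 4 ⊆ F ∪ bd 4 := subset_union_right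
  have hτ : IsTw (univ \ (F ∪ bd 4)) τ := hT.tw.mono fun _ hx hF => hx.2 (Or.inl hF)
  have hrZ : ∀ x ∈ F ∪ bd 4, rb x ∈ F ∪ bd 4 := by
    rintro x (hx | hx)
    · exact Or.inl ((hS.inv x).mp hx)
    · right
      rw [hS.bdry x hx]
      exact rho_bd x hx
  have heq : ∀ x ∈ univ \ (F ∪ bd 4), ∀ᶠ t in 𝓝 (fun _ : Fin 2 => x),
      τ (rb (t 0)) (rb (t 1)) = η (t 0) * τ (t 0) (t 1) * η (t 1) :=
    fun x hx => hT.equiv x fun hF => hx.2 (Or.inl hF)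
  have hanti : ∀ x ∈ (F ∪ bd 4)ᶜ, η (rb x) = - η x :=
    fun x hx => hT.anti x fun hF => hx (Or.inl hF)
  -- the rank bound
  have hrk : Module.rank ℚ (rqC τ (F ∪ bd 4) ⧸ rqB τ (F ∪ bd 4)) ≤ 2 := by
    refine alg_rk (rqQ τ hZ hτ) (rqI τ (F ∪ bd 4)) (rqI τ (F ∪ bd 4)) (rq_hV τ hZc hτ)
      (rq_hV τ hZc hτ) ?_ ?_ ?_
    · intro a b
      refine ⟨Itg (cup (rfl : 2 + 2 = 4) (upt ℤ τ) a.1 b.1), ?_⟩
      exact cj_map rfl hZ hτ (Int.castRingHom ℚ) (Int.castAddHom ℚ) (by intro r d; simp) a.2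
        (b.2.2.mono (subset_univ _))
    · intro w hw
      obtain ⟨w, rfl⟩ := Submodule.Quotient.mk_surjective _ w
      rw [Submodule.Quotient.mk_eq_zero]
      change Cob τ univ (F ∪ bd 4) w.1
      refine inji hS hT hK w.2 ?_
      have hpd := (pd (baer_self ℚ) Fᶜ hFcl.isOpen_compl).1 (upt ℚ τ) (istw_upt hT.tw) 2 2 rfl
        w.1 (by rw [dd_upt]; exact w.2.2.mono (subset_univ _)) (by
          intro v hv
          rw [invt_upt, coc_upt, compl_compl] at hv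
          exact hw (Submodule.Quotient.mk ⟨v, hv⟩))
      rwa [cob_upt] at hpd
    · intro x
      obtain ⟨i, j, hij, y, hy, hyc⟩ := mod2 hFcl hT.tw hconn h4 (fun i => (x i).1)
        (fun i => (x i).2)
      refine ⟨i, j, hij, ⟨y, hy⟩, x i - x j - 2 • (⟨y, hy⟩ : rqZ τ (F ∪ bd 4)), by abel, ?_⟩
      intro v
      have hz : rqI τ (F ∪ bd 4) (x i - x j - 2 • (⟨y, hy⟩ : rqZ τ (F ∪ bd 4))) = 0 := by
        refine (Submodule.Quotient.mk_eq_zero _).mpr ?_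
        refine cl_cob_map (τ := τ) (S := univ) (Z := F ∪ bd 4) (Int.castAddHom ℚ) (φ :=
          (x i - x j - 2 • (⟨y, hy⟩ : rqZ τ (F ∪ bd 4)) : rqZ τ (F ∪ bd 4)).1) ?_
        have e : ((x i - x j - 2 • (⟨y, hy⟩ : rqZ τ (F ∪ bd 4)) : rqZ τ (F ∪ bd 4)) :
            Coch (Q 4) ℤ 2) = (x i).1 - (x j).1 - (2 : ℤ) • y := by
          rw [AddSubgroup.coe_sub, AddSubgroup.coe_sub, AddSubgroup.coe_nsmul]
          congr 1
        rw [e]
        exact hyc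
      rw [hz, map_zero]
  -- the operator J
  have hJc : ∀ φ : Coch (Q 4) ℚ 2, Coc τ univ (F ∪ bd 4) φ →
      Coc τ univ (F ∪ bd 4) (Jop η rb φ) :=
    fun φ hφ => j_coc hS.cont (fun _ _ => mem_univ _) hrZ heq hφ
  have hJb : rqB τ (F ∪ bd 4) ≤ (rqB τ (F ∪ bd 4)).comap (rqJ0 τ (F ∪ bd 4) η rb hJc) := by
    intro v hv
    exact j_cob (φ := v.1) hS.cont (fun _ _ => mem_univ _) hrZ heq hv
  obtain ⟨w₀, hw₀⟩ := alg_J hrk
    ((rqB τ (F ∪ bd 4)).mapQ (rqB τ (F ∪ bd 4)) (rqJ0 τ (F ∪ bd 4) η rb hJc) hJb) (by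
      intro w
      obtain ⟨w, rfl⟩ := Submodule.Quotient.mk_surjective _ w
      rw [Submodule.mapQ_apply, Submodule.mapQ_apply, eq_neg_iff_add_eq_zero,
        ← Submodule.Quotient.mk_add, Submodule.Quotient.mk_eq_zero]
      change Cob τ univ (F ∪ bd 4) (Jop η rb (Jop η rb w.1) + w.1)
      exact Cob.of_LZ (j_j hS.cont hS.invol hZc hanti w.2.1))
  obtain ⟨x₀, rfl⟩ := Submodule.Quotient.mk_surjective _ w₀
  refine ⟨x₀.1, x₀.2, fun x hx => ?_⟩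
  obtain ⟨a, b, hab⟩ := hw₀ (Submodule.Quotient.mk ⟨x, hx⟩)
  refine ⟨a, b, ?_⟩
  rw [Submodule.mapQ_apply, ← Submodule.Quotient.mk_smul, ← Submodule.Quotient.mk_smul,
    ← Submodule.Quotient.mk_add, Submodule.Quotient.eq] at hab
  exact hab

end PoolFbd
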