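import Pool.Agent.Work.MP_fbd21a_gt.HpG
import Pool.Agent.Work.MP_fbd21a_gt.HmG
import Pool.Agent.Work.MP_fbd21a_gt.GrInter
import Pool.Agent.Work.MP_fbd21a_gt.UpF

/-! MODULE S0G. The surface Hp ∩ Hm, its boundary curve, the upper hemisphere.
grph_S0: grph_inter with S = Hp, T = Hm, S ∪ T = cub = Icc (-5) 5 acyclic (acyc_box), 5,5,0 in the intersection.
grph_K0: K0v = S ∪ T, S = {v 2 = 0} ∩ ({v 1 = 5} ∪ {|v 0| = 5}) (three sides: union of boxes v 1 = 5 side, v 0 = 5 side,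
v 0 = -5 side, acyclic), T = {v 2 = 0, v 1 = -5} side (box); S ∩ T = the two points (-5,-5,0) =: C, (5,-5,0) =: D.
kV is 0 near S (near v 1 > 0.. : v 1 = 5: condition false; v 0 = ±5: st 0 (y 0) constant) and dd one (st 0 (y 0))
near T (condition v 1 < 0 true): u = 0, v = st 0 (y 0): u - v = 0 at C, -1 at D: e = -1.
acyc_Dp: Dpv = top {v 2 = 5} ∪ {v 0 = 5} ∪ {v 0 = -5} ∪ {v 1 = 5} ∪ {v 1 = -5} (each with |·| ≤ 5, v 2 ≥ 0), add one at a
time: top ∩ {v 0 = ±5} boxes; {v 1 = 5} meets the union of the first three in three boxes (edges) whose union is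
acyclic; {v 1 = -5} the same ({v 1 = 5} ∩ {v 1 = -5} = ∅). -/

open Topology Filter Set

namespace PoolFbd

private theorem hp_hm_union : Hp ∪ Hm = bx (-5) 5 (-5) 5 (-5) 5 := by
  ext v
  constructor
  · intro hv
    have hc : v ∈ cub := hv.elim (fun h => h.1) (fun h => h.1)
    exact ⟨abs_le.1 (hc 0), abs_le.1 (hc 1), abs_le.1 (hc 2)⟩
  · rintro ⟨h0, h1, h2⟩
    have hc : v ∈ cub := by
      intro i
      fin_cases i
      · exact abs_le.2 h0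
      · exact abs_le.2 h1
      · exact abs_le.2 h2
    exact cub_cases hc

theorem grph_S0 : Grph (Hp ∩ Hm) ![gP, gM] := by
  refine grph_inter (Sepd.closed hp_closed hm_closed) grph_Hp grph_Hm ?_ ?_
  · rw [hp_hm_union]
    exact bx_acyc (by norm_num) (by norm_num) (by norm_num)
  · have hc : (![5, 5, 0] : V3) ∈ cub := by
      intro i
      fin_cases i <;> simp
    refine ⟨![5, 5, 0], ⟨hc, ?_, Or.inl ?_⟩, hc, Or.inl ?_⟩
    · simp
    · simp; norm_num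
    · simp

private def K0S : Set V3 := (bx (-5) 5 5 5 0 0 ∪ bx (-5) (-5) (-5) 5 0 0) ∪ bx 5 5 (-5) 5 0 0

private def K0T : Set V3 := bx (-5) 5 (-5) (-5) 0 0

private theorem k0S_acyc : Acyc K0S := by
  unfold K0S
  apply ac3 <;> first
    | exact bx_closed _ _ _ _ _ _
    | exact bx_acyc (by norm_num) (by norm_num) (by norm_num)
    | (rw [bx_inter]; exact bx_empty (by norm_num))
    | (rw [bx_inter]; exact bx_acyc (by norm_num) (by norm_num) (by norm_num))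

private theorem k0S_closed : IsClosed K0S :=
  ((bx_closed _ _ _ _ _ _).union (bx_closed _ _ _ _ _ _)).union (bx_closed _ _ _ _ _ _)

private theorem abs_five {x : ℝ} : |x| = 5 ↔ x = 5 ∨ x = -5 := abs_eq (by norm_num)

private theorem k0_eq : K0v = K0S ∪ K0T := by
  ext v
  simp only [K0v, K0S, K0T, bx, cub, mem_setOf_eq, mem_union, Fin.forall_fin_succ, abs_le,
    Fin.succ_zero_eq_one, Fin.succ_one_eq_two, IsEmpty.forall_iff, and_true, abs_five]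
  constructor
  · rintro ⟨⟨⟨a1, a2⟩, ⟨a3, a4⟩, a5, a6⟩, h0, (h | h) | (h | h)⟩
    · left; right
      exact ⟨⟨h.ge, h.le⟩, ⟨a3, a4⟩, h0.ge, h0.le⟩
    · left; left; right
      exact ⟨⟨h.ge, h.le⟩, ⟨a3, a4⟩, h0.ge, h0.le⟩
    · left; left; left
      exact ⟨⟨a1, a2⟩, ⟨h.ge, h.le⟩, h0.ge, h0.le⟩
    · right
      exact ⟨⟨a1, a2⟩, ⟨h.ge, h.le⟩, h0.ge, h0.le⟩
  · rintro (((⟨⟨a1, a2⟩, ⟨a3, a4⟩, a5, a6⟩ | ⟨⟨a1, a2⟩, ⟨a3, a4⟩, a5, a6⟩) |
      ⟨⟨a1, a2⟩, ⟨a3, a4⟩, a5, a6⟩) | ⟨⟨a1, a2⟩, ⟨a3, a4⟩, a5, a6⟩)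
    · exact ⟨⟨⟨a1, a2⟩, ⟨by linarith, a4⟩, by linarith, by linarith⟩, le_antisymm a6 a5,
        Or.inr (Or.inl (le_antisymm a4 a3))⟩
    · exact ⟨⟨⟨a1, by linarith⟩, ⟨a3, a4⟩, by linarith, by linarith⟩, le_antisymm a6 a5,
        Or.inl (Or.inr (le_antisymm a2 a1))⟩
    · exact ⟨⟨⟨by linarith, a2⟩, ⟨a3, a4⟩, by linarith, by linarith⟩, le_antisymm a6 a5,
        Or.inl (Or.inl (le_antisymm a2 a1))⟩
    · exact ⟨⟨⟨a1, a2⟩, ⟨a3, by linarith⟩, by linarith, by linarith⟩, le_antisymm a6 a5,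
        Or.inr (Or.inr (le_antisymm a4 a3))⟩

private theorem k0_int : K0S ∩ K0T = bx (-5) (-5) (-5) (-5) 0 0 ∪ bx 5 5 (-5) (-5) 0 0 := by
  unfold K0S K0T
  rw [union_inter_distrib_right, union_inter_distrib_right, bx_inter, bx_inter, bx_inter,
    bx_empty (a := max (-5) (-5)) (b := min 5 5) (c := max 5 (-5)) (d := min 5 (-5)) (by norm_num),
    empty_union]
  norm_num

theorem kV_zero {v : V3} (h : 0 < v 1 ∨ v 0 < 0 ∨ 0 < v 0) : ZeroAt kV v := by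
  rcases h with h | h | h
  · filter_upwards [ev_gt 1 h 0] with t a
    unfold kV
    rw [if_neg (not_lt.2 (le_of_lt a))]
  · filter_upwards [ev_lt 0 h 0, ev_lt 0 h 1] with t a b
    unfold kV
    rw [st_neg a, st_neg b, sub_self, ite_self]
  · filter_upwards [ev_gt 0 h 0, ev_gt 0 h 1] with t a b
    unfold kV
    rw [st_pos a, st_pos b, sub_self, ite_self]

theorem grph_K0 : Grph K0v ![kV] := by
  rw [k0_eq]
  refine grph_two (C := bx (-5) (-5) (-5) (-5) 0 0) (D := bx 5 5 (-5) (-5) 0 0)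
    (Sepd.closed k0S_closed (bx_closed _ _ _ _ _ _)) k0S_acyc
    (bx_acyc (by norm_num) (by norm_num) (by norm_num))
    (bx_acyc (by norm_num) (by norm_num) (by norm_num))
    (bx_acyc (by norm_num) (by norm_num) (by norm_num))
    (Sepd.closed (bx_closed _ _ _ _ _ _) (bx_closed _ _ _ _ _ _)) ?_ k0_int kV 0
    (fun t => st 0 (t 0 0)) ?_ ?_ (-1) (Or.inr rfl) ?_ ?_
  · rw [disjoint_iff_inter_eq_empty, bx_inter]
    exact bx_empty (by norm_num)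
  · rw [dd_zero, sub_zero]
    rintro v ((hv | hv) | hv)
    · exact kV_zero (Or.inl (by linarith [hv.2.1.1]))
    · exact kV_zero (Or.inr (Or.inl (by linarith [hv.1.2])))
    · exact kV_zero (Or.inr (Or.inr (by linarith [hv.1.1])))
  · intro v hv
    have h1 : v 1 < 0 := by linarith [hv.2.1.2]
    filter_upwards [ev_lt 1 h1 0] with t a
    have e : kV t = st 0 (t 1 0) - st 0 (t 0 0) := if_pos a
    rw [Pi.sub_apply, e, dd_deg_zero]
    simp [one]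
  · intro v hv
    have h1 : v 0 < 0 := by linarith [hv.1.2]
    filter_upwards [ev_lt 0 h1 0] with t a
    show (0 : ℤ) - st 0 (t 0 0) = 0
    rw [st_neg a, sub_zero]
  · intro v hv
    have h1 : 0 < v 0 := by linarith [hv.1.1]
    filter_upwards [ev_gt 0 h1 0] with t a
    show (0 : ℤ) - st 0 (t 0 0) - (-1) = 0
    rw [st_pos a]
    norm_num

private theorem dp_eq : Dpv = (((bx (-5) 5 (-5) 5 5 5 ∪ bx 5 5 (-5) 5 0 5) ∪
    bx (-5) (-5) (-5) 5 0 5) ∪ bx (-5) 5 5 5 0 5) ∪ bx (-5) 5 (-5) (-5) 0 5 := by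
  ext v
  simp only [Dpv, bx, cub, mem_setOf_eq, mem_union, Fin.forall_fin_succ, abs_le,
    Fin.succ_zero_eq_one, Fin.succ_one_eq_two, IsEmpty.forall_iff, and_true, abs_five]
  constructor
  · rintro ⟨⟨⟨a1, a2⟩, ⟨a3, a4⟩, a5, a6⟩, h0, h | (h | h) | (h | h)⟩
    · left; left; left; left
      exact ⟨⟨a1, a2⟩, ⟨a3, a4⟩, h.ge, h.le⟩
    · left; left; left; right
      exact ⟨⟨h.ge, h.le⟩, ⟨a3, a4⟩, h0, a6⟩
    · left; left; right
      exact ⟨⟨h.ge, h.le⟩, ⟨a3, a4⟩, h0, a6⟩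
    · left; right
      exact ⟨⟨a1, a2⟩, ⟨h.ge, h.le⟩, h0, a6⟩
    · right
      exact ⟨⟨a1, a2⟩, ⟨h.ge, h.le⟩, h0, a6⟩
  · rintro ((((⟨⟨a1, a2⟩, ⟨a3, a4⟩, a5, a6⟩ | ⟨⟨a1, a2⟩, ⟨a3, a4⟩, a5, a6⟩) |
      ⟨⟨a1, a2⟩, ⟨a3, a4⟩, a5, a6⟩) | ⟨⟨a1, a2⟩, ⟨a3, a4⟩, a5, a6⟩) |
      ⟨⟨a1, a2⟩, ⟨a3, a4⟩, a5, a6⟩)
    · exact ⟨⟨⟨a1, a2⟩, ⟨a3, a4⟩, by linarith, a6⟩, by linarith, Or.inl (le_antisymm a6 a5)⟩
    · exact ⟨⟨⟨by linarith, a2⟩, ⟨a3, a4⟩, by linarith, a6⟩, a5,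
        Or.inr (Or.inl (Or.inl (le_antisymm a2 a1)))⟩
    · exact ⟨⟨⟨a1, by linarith⟩, ⟨a3, a4⟩, by linarith, a6⟩, a5,
        Or.inr (Or.inl (Or.inr (le_antisymm a2 a1)))⟩
    · exact ⟨⟨⟨a1, a2⟩, ⟨by linarith, a4⟩, by linarith, a6⟩, a5,
        Or.inr (Or.inr (Or.inl (le_antisymm a4 a3)))⟩
    · exact ⟨⟨⟨a1, a2⟩, ⟨a3, by linarith⟩, by linarith, a6⟩, a5,
        Or.inr (Or.inr (Or.inr (le_antisymm a4 a3)))⟩

theorem acyc_Dp : Acyc Dpv := by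
  rw [dp_eq]
  apply ac5 <;> first
    | exact bx_closed _ _ _ _ _ _
    | exact bx_acyc (by norm_num) (by norm_num) (by norm_num)
    | (rw [bx_inter]; exact bx_empty (by norm_num))
    | (rw [bx_inter]; exact bx_acyc (by norm_num) (by norm_num) (by norm_num))
    | (rw [bx_inter, bx_inter, bx_inter]; exact bx_acyc (by norm_num) (by norm_num) (by norm_num))

end PoolFbd
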