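import Pool.Agent.Work.MP_fbd21a_gt.TmDefs

/-! MODULE SphRad. The radial projection rad : Q 4 → E3.
PROOFS. For x ≠ 0 (nrm x > 0) the point y = x / nrm x has |y i| ≤ 1 and max |y i| = 1, so y ∈ bd 4, and it is
the unique y with x = nrm x · y. So rad x = y (choose_spec), rad is continuous at x (coordinates
x i / nrm x, nrm continuous; `Topology.IsInducing.subtypeVal`, work on the open set nrm > 0).
nrm x = 1 iff x ∈ bd 4. rad (io y) = y. -/

open Topology Filter Set

namespace PoolFbd

private theorem sphrad_abs (x : Q 4) (i : Fin 4) : |(x i : ℝ)| ≤ nrm x := by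
  have h := norm_le_pi_norm (fun i => (x i : ℝ) : Fin 4 → ℝ) i
  simpa [nrm, Real.norm_eq_abs] using h

private theorem sphrad_ex {x : Q 4} (hx : 0 < nrm x) : ∃ i, |(x i : ℝ)| = nrm x := by
  by_contra hcon
  push Not at hcon
  have h : nrm x < nrm x := by
    have := (pi_norm_lt_iff (x := (fun i => (x i : ℝ) : Fin 4 → ℝ)) hx).2 (fun i => by
      rw [Real.norm_eq_abs]
      exact lt_of_le_of_ne (sphrad_abs x i) (hcon i))
    exact this
  exact lt_irrefl _ h

theorem nrm_cont : Continuous nrm := by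
  unfold nrm
  exact continuous_norm.comp (continuous_pi fun i => continuous_subtype_val.comp (continuous_apply i))

theorem nrm_le (x : Q 4) : 0 ≤ nrm x ∧ nrm x ≤ 1 := by
  refine ⟨norm_nonneg _, ?_⟩
  unfold nrm
  rw [pi_norm_le_iff_of_nonneg zero_le_one]
  intro i
  rw [Real.norm_eq_abs, abs_le]
  exact ⟨(x i).2.1, (x i).2.2⟩

theorem nrm_bd (x : Q 4) : nrm x = 1 ↔ x ∈ bd 4 := by
  constructor
  · intro h
    obtain ⟨i, hi⟩ := sphrad_ex (x := x) (by rw [h]; exact one_pos)
    rw [h] at hi
    refine ⟨i, ?_⟩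
    rcases (abs_eq (zero_le_one (α := ℝ))).1 hi with h1 | h1
    · exact Or.inr h1
    · exact Or.inl h1
  · rintro ⟨i, hi⟩
    apply le_antisymm (nrm_le x).2
    refine le_trans (le_of_eq ?_) (sphrad_abs x i)
    rcases hi with h1 | h1 <;> rw [h1] <;> simp

private theorem sphrad_exists {x : Q 4} (hx : 0 < nrm x) :
    ∃ y : E3, ∀ i, (x i : ℝ) = nrm x * (y.1 i : ℝ) ∧ 0 < nrm x := by
  have hb : ∀ i, (x i : ℝ) / nrm x ∈ Icc (-1 : ℝ) 1 := by
    intro i
    have h := abs_le.1 (sphrad_abs x i)
    constructor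
    · rw [le_div_iff₀ hx]
      linarith [h.1]
    · rw [div_le_one hx]
      exact h.2
  refine ⟨⟨fun i => ⟨(x i : ℝ) / nrm x, hb i⟩, ?_⟩, fun i => ⟨?_, hx⟩⟩
  · obtain ⟨i, hi⟩ := sphrad_ex hx
    refine ⟨i, ?_⟩
    rcases abs_choice (x i : ℝ) with h1 | h1
    · right
      rw [h1] at hi
      simp only
      rw [hi, div_self hx.ne']
    · left
      rw [h1] at hi
      simp only
      rw [← hi, div_neg, div_self]
      intro h0
      rw [h0] at hi
      simp at hi
      exact hx.ne' hi.symm
  · simp only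
    rw [mul_div_cancel₀]
    exact hx.ne'

theorem rad_spec {x : Q 4} (hx : 0 < nrm x) (i : Fin 4) : (x i : ℝ) = nrm x * ((rad x).1 i : ℝ) := by
  have h := sphrad_exists hx
  have e : rad x = h.choose := by
    unfold rad
    rw [dif_pos h]
  rw [e]
  exact (h.choose_spec i).1

theorem io_rad {x : Q 4} (hx : x ∈ bd 4) : io (rad x) = x := by
  have h1 : nrm x = 1 := (nrm_bd x).2 hx
  funext i
  apply Subtype.ext
  have h2 := rad_spec (x := x) (by rw [h1]; exact one_pos) i
  rw [h1, one_mul] at h2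
  exact h2.symm

theorem rad_io (y : E3) : rad (io y) = y := by
  apply Subtype.ext
  exact io_rad (x := io y) y.2

theorem rad_cont {x : Q 4} (hx : 0 < nrm x) : ContinuousAt rad x := by
  rw [Topology.IsInducing.subtypeVal.continuousAt_iff, continuousAt_pi]
  intro i
  rw [Topology.IsInducing.subtypeVal.continuousAt_iff]
  have hc : ContinuousAt (fun x : Q 4 => (x i : ℝ) / nrm x) x := by
    apply ContinuousAt.div _ nrm_cont.continuousAt hx.ne'
    exact (continuous_subtype_val.comp (continuous_apply i)).continuousAt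
  refine hc.congr ?_
  have hev : ∀ᶠ y in 𝓝 x, 0 < nrm y := nrm_cont.continuousAt.eventually (lt_mem_nhds hx)
  filter_upwards [hev] with y hy
  simp only [Function.comp]
  rw [rad_spec hy i, mul_comm, mul_div_assoc, div_self hy.ne', mul_one]

theorem rad_cont_bd {x : Q 4} (hx : x ∈ bd 4) : ContinuousAt rad x := by
  apply rad_cont
  rw [(nrm_bd x).2 hx]
  exact one_pos

theorem bd_closed (n : ℕ) : IsClosed (bd n) := by
  have e : bd n = ⋃ i : Fin n, {x : Q n | (x i : ℝ) = -1 ∨ (x i : ℝ) = 1} := by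
    ext x
    simp only [bd, mem_setOf_eq, mem_iUnion]
  rw [e]
  apply isClosed_iUnion_of_finite
  intro i
  have hc : Continuous (fun x : Q n => (x i : ℝ)) := continuous_subtype_val.comp (continuous_apply i)
  exact (isClosed_eq hc continuous_const).union (isClosed_eq hc continuous_const)

end PoolFbd
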