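import Mathlib

/-! Definitions for the statement: the round ball and sphere, the point reflection, standard surfaces,
properly embedded locally flat surfaces, the rational Alexander module of a knot (dual form). -/

open Topology Set

namespace PoolFbd

/-- The closed unit ball of `ℝ⁴`. -/
abbrev Ball4 := Metric.closedBall (0 : EuclideanSpace ℝ (Fin 4)) 1

/-- The unit sphere of `ℝ⁴`. -/
abbrev Sph3 := Metric.sphere (0 : EuclideanSpace ℝ (Fin 4)) 1

/-- The inclusion of the sphere in the ball. -/
def sIn (x : Sph3) : Ball4 := ⟨x.1, Metric.sphere_subset_closedBall x.2⟩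

/-- The point reflection `(x₀,x₁,x₂,x₃) ↦ (-x₀,-x₁,-x₂,x₃)`. -/
noncomputable def rhoE (v : EuclideanSpace ℝ (Fin 4)) : EuclideanSpace ℝ (Fin 4) :=
  !₂[-v 0, -v 1, -v 2, v 3]

theorem rhoE_norm (v : EuclideanSpace ℝ (Fin 4)) : ‖rhoE v‖ = ‖v‖ := by
  simp [EuclideanSpace.norm_eq, rhoE, Fin.sum_univ_four]

/-- The point reflection of the sphere. -/
noncomputable def rhoS (x : Sph3) : Sph3 :=
  ⟨rhoE x.1, by
    have h := x.2
    rw [mem_sphere_zero_iff_norm] at h ⊢
    rw [rhoE_norm, h]⟩

/-- The closed unit disk. -/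
abbrev Disk := Metric.closedBall (0 : ℂ) 1

/-- The boundary of the disk is divided in `4 g + 1` arcs (sides); `bpt g t` is the point with
parameter `t`, the side number `j` being `[j, j + 1]`. -/
noncomputable def bpt (g : ℕ) (t : ℝ) : Disk :=
  ⟨Complex.exp ((2 * Real.pi * t / (4 * g + 1) : ℝ) * Complex.I), by
    rw [mem_closedBall_zero_iff, Complex.norm_exp_ofReal_mul_I]⟩

/-- The identification of the sides `4 i` with `4 i + 2` and `4 i + 1` with `4 i + 3`
(word `a b a⁻¹ b⁻¹`) for `i < g`; the last side is free. -/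
def glu (g : ℕ) (z w : Disk) : Prop := ∃ i < g, ∃ s ∈ Icc (0 : ℝ) 1,
  (z = bpt g (4 * i + s) ∧ w = bpt g (4 * i + 3 - s)) ∨
  (z = bpt g (4 * i + 1 + s) ∧ w = bpt g (4 * i + 4 - s))

/-- The standard compact connected orientable surface of genus `g` with one boundary circle. -/
abbrev StdSurf (g : ℕ) := Quot (glu g)

/-- The boundary circle of the standard surface. -/
def stdBd (g : ℕ) : Set (StdSurf g) :=
  {x | ∃ s ∈ Icc (0 : ℝ) 1, x = Quot.mk _ (bpt g (4 * g + s))}

/-- `K` is a locally flat curve in the sphere. -/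
def FlatKnot (K : Set Sph3) : Prop := ∀ p ∈ K,
  ∃ φ : OpenPartialHomeomorph Sph3 (EuclideanSpace ℝ (Fin 3)), p ∈ φ.source ∧
    ∀ x ∈ φ.source, (x ∈ K ↔ φ x 1 = 0 ∧ φ x 2 = 0)

/-- `F` is a compact connected orientable surface of genus `g` in the ball, properly embedded and
locally flat, with boundary the knot `K`. -/
structure FlatSurf (g : ℕ) (K : Set Sph3) (F : Set Ball4) : Prop where
  par : ∃ e : StdSurf g → Ball4, Continuous e ∧ Function.Injective e ∧ range e = F ∧
    e '' stdBd g = sIn '' K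
  proper : F ∩ range sIn = sIn '' K
  flat : ∀ p ∈ F, ∃ φ : OpenPartialHomeomorph Ball4 (EuclideanHalfSpace 4), p ∈ φ.source ∧
    ∀ x ∈ φ.source, (x ∈ F ↔ (φ x).1 2 = 0 ∧ (φ x).1 3 = 0)

/-- The complement of the knot. -/
abbrev KnotCompl (K : Set Sph3) := {x : Sph3 // x ∉ K}

/-- The group of the knot. -/
abbrev KnotGrp (K : Set Sph3) (x₀ : KnotCompl K) := FundamentalGroup (KnotCompl K) x₀

/-- The dual of the first rational homology of the infinite cyclic cover of the complement: the
homomorphisms from the commutator subgroup of the knot group to `ℚ`. -/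
abbrev AlexDual (K : Set Sph3) (x₀ : KnotCompl K) :=
  Additive (commutator (KnotGrp K x₀)) →+ ℚ

end PoolFbd
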