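import Pool.Agent.Work.MP_fbd21a_gt.TmDefs

/-! The structures describing the sign local systems in dimensions 3 and 4. -/

open Topology Filter Set

namespace PoolFbd

/-- Three-dimensional data: the knot `K`, the sign local system of its complement and the lift
factor `η₃` of the involution `rho3`. -/
structure KTw (K : Set E3) (τ₃ : E3 → E3 → ℤˣ) (η₃ : E3 → ℤˣ) : Prop where
  tame : Tame K
  conn : IsPreconnected K
  ne : K.Nonempty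
  inv : ∀ x, x ∈ K ↔ rho3 x ∈ K
  tw : IsTw Kᶜ τ₃
  nt : ¬ TrivOn τ₃ Kᶜ
  equiv : ∀ x ∈ Kᶜ, ∀ᶠ t in 𝓝 (fun _ : Fin 2 => x),
    τ₃ (rho3 (t 0)) (rho3 (t 1)) = η₃ (t 0) * τ₃ (t 0) (t 1) * η₃ (t 1)
  anti : ∀ x ∈ Kᶜ, η₃ (rho3 x) = - η₃ x

/-- Four-dimensional data: the sign local system `τ` on the complement of `F`, its lift factor `η`
for the involution `rb`, restricting to the three-dimensional data. -/
structure SymTw (F : Set (Q 4)) (rb : Q 4 → Q 4) (τ : Q 4 → Q 4 → ℤˣ) (η : Q 4 → ℤˣ)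
    (τ₃ : E3 → E3 → ℤˣ) (η₃ : E3 → ℤˣ) : Prop where
  tw : IsTw Fᶜ τ
  nt : ∀ p ∈ F, ¬ TrivAt τ F p
  res : ∀ x : E3, x.1 ∉ F → ∀ᶠ t in 𝓝 (fun _ : Fin 2 => x),
    τ (io (t 0)) (io (t 1)) = τ₃ (t 0) (t 1)
  equiv : ∀ x ∈ Fᶜ, ∀ᶠ t in 𝓝 (fun _ : Fin 2 => x),
    τ (rb (t 0)) (rb (t 1)) = η (t 0) * τ (t 0) (t 1) * η (t 1)
  anti : ∀ x ∈ Fᶜ, η (rb x) = - η x
  resη : ∀ x : E3, x.1 ∉ F → η (io x) = η₃ x

/-- The standing hypotheses on the surface and the involution. -/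
structure Surf4 (F : Set (Q 4)) (rb : Q 4 → Q 4) (K : Set E3) : Prop where
  tame : Tame F
  conn : IsPreconnected F
  cont : Continuous rb
  invol : ∀ x, rb (rb x) = x
  inv : ∀ x, x ∈ F ↔ rb x ∈ F
  bdry : ∀ x ∈ bd 4, rb x = rho x
  fk : ∀ x : E3, x ∈ K ↔ io x ∈ F

end PoolFbd
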