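import Pool.Agent.Work.MP_fbd21a_gt.TmLoc
import Pool.Agent.Work.MP_fbd21a_gt.TmExt

/-! MODULE TmUniq. Two sign twists which are nontrivial at every point of F differ by a trivial one.
PROOF. The product twist is trivial at every p ∈ F: take a good neighbourhood M of p (tame), σ's of
pnb_twist for both twists; the products σ₁ σ₁' on P₁ and σ₂ σ₂' on P₂ trivialise the product and agree on
Q₁ and on Q₂ ((-1)(-1) = 1): triv_glue, TrivOn on P₁ ∪ P₂ = M \ F. Then triv_ext. -/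

open Topology Filter Set

namespace PoolFbd

private theorem trivBy_mul {E : Type*} [TopologicalSpace E] {τ τ' : E → E → ℤˣ} {U : Set E}
    {σ σ' : E → ℤˣ} (h : TrivBy τ U σ) (h' : TrivBy τ' U σ') :
    TrivBy (fun x y => τ x y * τ' x y) U (fun x => σ x * σ' x) := by
  intro x hx
  filter_upwards [h x hx, h' x hx] with t h1 h2
  rw [h1, h2, mul_inv, mul_mul_mul_comm]

theorem tw_uniq {E : Type*} [PseudoMetricSpace E] [CompactSpace E]
    (hE : Conn1 (univ : Set E)) {F : Set E} (hF : Tame F) {τ τ' : E → E → ℤˣ}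
    (hτ : IsTw Fᶜ τ) (hτ' : IsTw Fᶜ τ') (hn : ∀ p ∈ F, ¬ TrivAt τ F p)
    (hn' : ∀ p ∈ F, ¬ TrivAt τ' F p) : TrivOn (fun x y => τ x y * τ' x y) Fᶜ := by
  refine triv_ext hE hF ?_ ?_
  · intro x hx
    filter_upwards [hτ x hx, hτ' x hx] with t h1 h2
    rw [← h1, ← h2, mul_mul_mul_comm]
  · intro p hp
    obtain ⟨M, P₁, P₂, Q₁, Q₂, hpM, -, h⟩ := hF.2 p hp univ isOpen_univ (mem_univ _)
    have hsub : M \ F ⊆ Fᶜ := fun x hx => hx.2
    obtain ⟨σ₁, σ₂, t1, t2, t3, t4⟩ := pnb_twist h (hτ.mono hsub) ⟨hp, hpM⟩ (hn p hp)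
    obtain ⟨σ₁', σ₂', t1', t2', t3', t4'⟩ := pnb_twist h (hτ'.mono hsub) ⟨hp, hpM⟩ (hn' p hp)
    refine ⟨M, h.oM, hpM, ?_⟩
    rw [h.hM]
    refine triv_glue h.o1 h.o2 (trivBy_mul t1 t1') (trivBy_mul t2 t2') fun x hx => ?_
    rw [h.hQ] at hx
    rcases hx with hx | hx
    · rw [t3 x hx, t3' x hx]
    · rw [t4 x hx, t4' x hx, neg_mul_neg]

end PoolFbd
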