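import Pool.Agent.Work.MP_fbd21a_gt.TauDefs
import Pool.Agent.Work.MP_fbd21a_gt.TmUniq
import Pool.Agent.Work.MP_fbd21a_gt.TmConn
import Pool.Agent.Work.MP_fbd21a_gt.TmCompl
import Pool.Agent.Work.MP_fbd21a_gt.SphH

/-! MODULE TauRes. Adjusting τ so that it restricts exactly to τ₃ on the boundary sphere.
PROOF. Let τ be as in TauEx. pbt io τ is a twist near Kᶜ in E3, not trivial there: if σ trivialises it near
Kᶜ, then near a point of bd 4 \ F, τ(x,y) = τ(x,x') τ(x',y') τ(y',y) with x' = io (rad x) close to x (cocycle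
identity IsTw near the point, rad_cont_bd, io_rad), so τ is trivialised near bd 4 \ F by
x ↦ σ(rad x) τ(x', x) (check the inverse conventions; all signs are their own inverses), against
hypothesis. By triv_ext (E3, e3_conn1, KTw.tame) some p ∈ K has ¬ TrivAt (pbt io τ) K p, so all do
(tame_conn). Same for τ₃ (KTw.nt). tw_uniq on E3: s : E3 → ℤˣ with
τ(io x, io y) τ₃(x,y) = s x s y near Kᶜ. Put τ'(x,y) = s(rad x) τ(x,y) s(rad y). IsTw Fᶜ τ' (s² = 1),
τ'(io x, io y) = s x s y τ(io x, io y) = τ₃(x,y) near Kᶜ (rad (io x) = x): field res.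
τ' is not trivial near Fᶜ (it would be trivial near bd \ F, hence pbt io τ' = τ₃ trivial near Kᶜ, against
KTw.nt), so by triv_ext (Conn1 univ for Q 4 from acyc_Q) and tame_conn (Surf4.conn) field nt. -/

open Topology Filter Set

namespace PoolFbd

theorem taures_compact : CompactSpace E3 :=
  isCompact_iff_compactSpace.1 (bd_closed 4).isCompact

theorem taures_ev3 {α E : Type*} [TopologicalSpace E] {l : Filter α} {τ : E → E → ℤˣ} {U : Set E}
    {x : E} (hτ : IsTw U τ) (hx : x ∈ U) {f g k : α → E} (hf : Tendsto f l (𝓝 x))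
    (hg : Tendsto g l (𝓝 x)) (hk : Tendsto k l (𝓝 x)) :
    ∀ᶠ a in l, τ (f a) (g a) * τ (g a) (k a) = τ (f a) (k a) := by
  have h : Tendsto (fun a => (![f a, g a, k a] : Fin 3 → E)) l (𝓝 (fun _ => x)) := by
    rw [tendsto_pi_nhds]
    intro i
    fin_cases i
    · exact hf
    · exact hg
    · exact hk
  exact h.eventually (hτ x hx)

theorem taures_ev2 {α E : Type*} [TopologicalSpace E] {l : Filter α} {P : (Fin 2 → E) → Prop}
    {x : E} (hP : ∀ᶠ t in 𝓝 (fun _ : Fin 2 => x), P t) {f g : α → E} (hf : Tendsto f l (𝓝 x))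
    (hg : Tendsto g l (𝓝 x)) : ∀ᶠ a in l, P ![f a, g a] := by
  have h : Tendsto (fun a => (![f a, g a] : Fin 2 → E)) l (𝓝 (fun _ => x)) := by
    rw [tendsto_pi_nhds]
    intro i
    fin_cases i
    · exact hf
    · exact hg
  exact h.eventually hP

private theorem taures_alg (a b c d e f u v : ℤˣ) (h1 : a * b = c) (h2 : c * d = e)
    (h3 : f * a = u) (h4 : u * u = u) (h5 : b = v) : e = f⁻¹ * v * d := by
  have hu : u = 1 := by
    have := congrArg (fun z => z * u⁻¹) h4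
    simpa using this
  rw [hu] at h3
  have h6 : a = f⁻¹ := eq_inv_of_mul_eq_one_right h3
  rw [← h2, ← h1, h5, h6]

/-- a twist off `F` whose restriction to the sphere is trivial near `Kᶜ` is trivial near
`bd 4 \ F` -/
private theorem taures_triv {F : Set (Q 4)} {K : Set E3} (fk : ∀ x : E3, x ∈ K ↔ io x ∈ F)
    {τ : Q 4 → Q 4 → ℤˣ} (hτ : IsTw Fᶜ τ) (h : TrivOn (pbt io τ) Kᶜ) :
    TrivOn τ (bd 4 \ F) := by
  obtain ⟨σ, hσ⟩ := h
  refine ⟨fun x => σ (rad x) * τ (io (rad x)) x, fun x hx => ?_⟩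
  obtain ⟨hxb, hxF⟩ := hx
  have hxF' : x ∈ Fᶜ := hxF
  have hrad : ContinuousAt rad x := rad_cont_bd hxb
  have hrx : rad x ∈ Kᶜ := by
    intro hK
    apply hxF
    have := (fk _).1 hK
    rwa [io_rad hxb] at this
  have t0 : Tendsto (fun t : Fin 2 → Q 4 => t 0) (𝓝 (fun _ => x)) (𝓝 x) :=
    (continuous_apply (0 : Fin 2)).tendsto _
  have t1 : Tendsto (fun t : Fin 2 → Q 4 => t 1) (𝓝 (fun _ => x)) (𝓝 x) :=
    (continuous_apply (1 : Fin 2)).tendsto _
  have r0 : Tendsto (fun t : Fin 2 → Q 4 => rad (t 0)) (𝓝 (fun _ => x)) (𝓝 (rad x)) :=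
    hrad.tendsto.comp t0
  have r1 : Tendsto (fun t : Fin 2 → Q 4 => rad (t 1)) (𝓝 (fun _ => x)) (𝓝 (rad x)) :=
    hrad.tendsto.comp t1
  have hio : Tendsto io (𝓝 (rad x)) (𝓝 x) := by
    have := (continuous_subtype_val (p := fun y : Q 4 => y ∈ bd 4)).tendsto (rad x)
    have e : (rad x).1 = x := io_rad hxb
    rw [e] at this
    exact this
  have i0 : Tendsto (fun t : Fin 2 → Q 4 => io (rad (t 0))) (𝓝 (fun _ => x)) (𝓝 x) := hio.comp r0
  have i1 : Tendsto (fun t : Fin 2 → Q 4 => io (rad (t 1))) (𝓝 (fun _ => x)) (𝓝 x) := hio.comp r1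
  filter_upwards [taures_ev3 hτ hxF' t0 i0 i1, taures_ev3 hτ hxF' t0 i1 t1,
    taures_ev3 hτ hxF' i0 t0 i0, taures_ev3 hτ hxF' i0 i0 i0,
    taures_ev2 (hσ (rad x) hrx) r0 r1] with t h1 h2 h3 h4 h5
  have h5' : τ (io (rad (t 0))) (io (rad (t 1))) = (σ (rad (t 0)))⁻¹ * σ (rad (t 1)) := h5
  have := taures_alg _ _ _ _ _ _ _ _ h1 h2 h3 h4 h5'
  rw [this, mul_inv]
  ac_rfl

theorem tau_res {F : Set (Q 4)} {rb : Q 4 → Q 4} {K : Set E3} (hS : Surf4 F rb K)
    {τ₃ : E3 → E3 → ℤˣ} {η₃ : E3 → ℤˣ} (hK : KTw K τ₃ η₃) {τ : Q 4 → Q 4 → ℤˣ}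
    (hτ : IsTw Fᶜ τ) (hn : ¬ TrivOn τ (bd 4 \ F)) :
    ∃ τ' : Q 4 → Q 4 → ℤˣ, IsTw Fᶜ τ' ∧ (∀ p ∈ F, ¬ TrivAt τ' F p) ∧
      ∀ x : E3, x.1 ∉ F → ∀ᶠ t in 𝓝 (fun _ : Fin 2 => x),
        τ' (io (t 0)) (io (t 1)) = τ₃ (t 0) (t 1) := by
  haveI : CompactSpace E3 := taures_compact
  have hKF : ∀ x : E3, x ∈ Kᶜ ↔ io x ∈ Fᶜ := fun x => not_congr (hS.fk x)
  have htio : IsTw Kᶜ (pbt io τ) :=
    hτ.pbt fun x hx => ⟨continuous_subtype_val.continuousAt, (hKF x).1 hx⟩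
  have hnio : ¬ TrivOn (pbt io τ) Kᶜ := fun h => hn (taures_triv hS.fk hτ h)
  have hall : ∀ {τ : E3 → E3 → ℤˣ}, IsTw Kᶜ τ → ¬ TrivOn τ Kᶜ → ∀ p ∈ K, ¬ TrivAt τ K p := by
    intro τ h1 h2
    have h3 : ∃ p ∈ K, ¬ TrivAt τ K p := by
      by_contra hcon
      push Not at hcon
      exact h2 (triv_ext e3_conn1 hK.tame h1 hcon)
    obtain ⟨p, hp, hp'⟩ := h3
    exact tame_conn hK.tame hK.conn h1 hp hp'
  obtain ⟨s, hs⟩ := tw_uniq e3_conn1 hK.tame htio hK.tw (hall htio hnio) (hall hK.tw hK.nt)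
  have hsq : ∀ u : ℤˣ, u * u = 1 := Int.units_mul_self
  refine ⟨fun x y => s (rad x) * τ x y * s (rad y), ?_, ?_, ?_⟩
  · intro x hx
    filter_upwards [hτ x hx] with t ht
    show s (rad (t 0)) * τ (t 0) (t 1) * s (rad (t 1)) *
      (s (rad (t 1)) * τ (t 1) (t 2) * s (rad (t 2))) = s (rad (t 0)) * τ (t 0) (t 2) * s (rad (t 2))
    rw [← ht]
    have e : s (rad (t 0)) * τ (t 0) (t 1) * s (rad (t 1)) *
        (s (rad (t 1)) * τ (t 1) (t 2) * s (rad (t 2))) =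
        s (rad (t 0)) * (τ (t 0) (t 1) * τ (t 1) (t 2)) * s (rad (t 2)) *
          (s (rad (t 1)) * s (rad (t 1))) := by ac_rfl
    rw [e, hsq, mul_one]
  · have hres : ∀ x : E3, x.1 ∉ F → ∀ᶠ t in 𝓝 (fun _ : Fin 2 => x),
        s (rad (io (t 0))) * τ (io (t 0)) (io (t 1)) * s (rad (io (t 1))) = τ₃ (t 0) (t 1) := by
      intro x hx
      filter_upwards [hs x ((hKF x).2 hx)] with t ht
      have ht' : τ (io (t 0)) (io (t 1)) * τ₃ (t 0) (t 1) = (s (t 0))⁻¹ * s (t 1) := ht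
      rw [rad_io, rad_io]
      rcases Int.units_eq_one_or (s (t 0)) with a | a <;>
        rcases Int.units_eq_one_or (s (t 1)) with b | b <;>
        rcases Int.units_eq_one_or (τ (io (t 0)) (io (t 1))) with c | c <;>
        rcases Int.units_eq_one_or (τ₃ (t 0) (t 1)) with d | d <;>
        rw [a, b, c, d] at ht' ⊢ <;> first | rfl | (revert ht'; decide)
    have htw' : IsTw Fᶜ (fun x y => s (rad x) * τ x y * s (rad y)) := by
      intro x hx
      filter_upwards [hτ x hx] with t ht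
      show s (rad (t 0)) * τ (t 0) (t 1) * s (rad (t 1)) *
        (s (rad (t 1)) * τ (t 1) (t 2) * s (rad (t 2))) =
        s (rad (t 0)) * τ (t 0) (t 2) * s (rad (t 2))
      rw [← ht]
      have e : s (rad (t 0)) * τ (t 0) (t 1) * s (rad (t 1)) *
          (s (rad (t 1)) * τ (t 1) (t 2) * s (rad (t 2))) =
          s (rad (t 0)) * (τ (t 0) (t 1) * τ (t 1) (t 2)) * s (rad (t 2)) *
            (s (rad (t 1)) * s (rad (t 1))) := by ac_rfl
      rw [e, hsq, mul_one]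
    have hnt : ¬ TrivOn (fun x y => s (rad x) * τ x y * s (rad y)) Fᶜ := by
      rintro ⟨σ, hσ⟩
      apply hK.nt
      refine ⟨fun x => σ (io x), fun x hx => ?_⟩
      have hx' : io x ∈ Fᶜ := (hKF x).1 hx
      have c : ContinuousAt io x := continuous_subtype_val.continuousAt
      filter_upwards [hres x hx', (tendsto_pb (n := 2) c).eventually (hσ (io x) hx')] with t h1 h2
      rw [← h1]
      exact h2
    have h3 : ∃ p ∈ F, ¬ TrivAt (fun x y => s (rad x) * τ x y * s (rad y)) F p := by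
      by_contra hcon
      push Not at hcon
      exact hnt (triv_ext (acyc_conn1 (acyc_Q 4)) hS.tame htw' hcon)
    obtain ⟨p, hp, hp'⟩ := h3
    exact tame_conn hS.tame hS.conn htw' hp hp'
  · intro x hx
    filter_upwards [hs x ((hKF x).2 hx)] with t ht
    have ht' : τ (io (t 0)) (io (t 1)) * τ₃ (t 0) (t 1) = (s (t 0))⁻¹ * s (t 1) := ht
    show s (rad (io (t 0))) * τ (io (t 0)) (io (t 1)) * s (rad (io (t 1))) = τ₃ (t 0) (t 1)
    rw [rad_io, rad_io]
    rcases Int.units_eq_one_or (s (t 0)) with a | a <;>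
      rcases Int.units_eq_one_or (s (t 1)) with b | b <;>
      rcases Int.units_eq_one_or (τ (io (t 0)) (io (t 1))) with c | c <;>
      rcases Int.units_eq_one_or (τ₃ (t 0) (t 1)) with d | d <;>
      rw [a, b, c, d] at ht' ⊢ <;> first | rfl | (revert ht'; decide)

end PoolFbd
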