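import Pool.Agent.Work.MP_fbd21a_gt.TmBas
import Pool.Agent.Work.MP_fbd21a_gt.Gauge

/-! MODULE TmLoc. A sign twist near a good neighbourhood.
PROOF of pnb_twist: tw_trivial (Gauge) on the acyclic sets P₁, P₂ gives σ₁, σ₂. On Q₁ and Q₂ (subsets
of both) the ratio σ₁ σ₂ is locally constant (trivBy_ratio), so constant e₁, e₂ (sign_const). Replace σ₂
by e₁ σ₂ (trivBy_smul): e₁ = 1. If e₂ = 1 then σ₁ = σ₂ on Q₁ ∪ Q₂ = P₁ ∩ P₂ (in ℤˣ, e² = 1 so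
σ₁ σ₂ = 1 means σ₁ = σ₂) and triv_glue gives TrivOn τ (M \ F), so TrivAt τ F p, contradiction; so
e₂ = -1 (Int.units_eq_one_or).
PROOF of pnb_nontriv: suppose TrivBy τ (N \ F) σ with p ∈ N open. Take M' from h.sub. On M' ∩ P₁ ⊆ N \ F:
σ σ₁ = e₁ constant, on M' ∩ P₂: σ σ₂ = e₂. At a point of M' ∩ Q₁: e₁ = e₂, at a point of M' ∩ Q₂:
e₁ = -e₂: contradiction. -/

open Topology Filter Set

namespace PoolFbd

variable {E : Type*} [TopologicalSpace E] {F M P₁ P₂ Q₁ Q₂ : Set E}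

private theorem units_aux {a b c : ℤˣ} (h : a * b = c) : a = c * b := by
  rw [← h, mul_assoc, Int.units_mul_self, mul_one]

theorem pnb_twist (h : PNb F M P₁ P₂ Q₁ Q₂) {τ : E → E → ℤˣ} (hτ : IsTw (M \ F) τ) {p : E}
    (hp : p ∈ F ∩ M) (hn : ¬ TrivAt τ F p) : ∃ σ₁ σ₂ : E → ℤˣ, TrivBy τ P₁ σ₁ ∧
      TrivBy τ P₂ σ₂ ∧ (∀ x ∈ Q₁, σ₁ x = σ₂ x) ∧ ∀ x ∈ Q₂, σ₁ x = - σ₂ x := by
  have s1 : P₁ ⊆ M \ F := by rw [h.hM]; exact subset_union_left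
  have s2 : P₂ ⊆ M \ F := by rw [h.hM]; exact subset_union_right
  have q1 : Q₁ ⊆ P₁ ∩ P₂ := by rw [h.hQ]; exact subset_union_left
  have q2 : Q₂ ⊆ P₁ ∩ P₂ := by rw [h.hQ]; exact subset_union_right
  obtain ⟨σ₁, t1⟩ := tw_trivial h.a1 (hτ.mono s1)
  obtain ⟨σ₂, t2⟩ := tw_trivial h.a2 (hτ.mono s2)
  have t1' : TrivBy τ P₁ σ₁ := t1
  have t2' : TrivBy τ P₂ σ₂ := t2
  obtain ⟨e₁, he₁⟩ := sign_const (acyc_conn0 h.b1) (s := fun x => σ₁ x * σ₂ x)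
    (trivBy_ratio (trivBy_mono t1' (q1.trans inter_subset_left))
      (trivBy_mono t2' (q1.trans inter_subset_right)))
  obtain ⟨e₂, he₂⟩ := sign_const (acyc_conn0 h.b2) (s := fun x => σ₁ x * σ₂ x)
    (trivBy_ratio (trivBy_mono t1' (q2.trans inter_subset_left))
      (trivBy_mono t2' (q2.trans inter_subset_right)))
  have a1 : ∀ x ∈ Q₁, σ₁ x = e₁ * σ₂ x := fun x hx => units_aux (he₁ x hx)
  have a2 : ∀ x ∈ Q₂, σ₁ x = e₂ * σ₂ x := fun x hx => units_aux (he₂ x hx)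
  have t3 : TrivBy τ P₂ (fun x => e₁ * σ₂ x) := trivBy_smul t2' e₁
  by_cases hee : e₂ = e₁
  · exfalso
    subst hee
    refine hn ⟨M, h.oM, hp.2, ?_⟩
    rw [h.hM]
    refine triv_glue h.o1 h.o2 t1' t3 fun x hx => ?_
    rw [h.hQ] at hx
    rcases hx with hx | hx
    · exact a1 x hx
    · exact a2 x hx
  · refine ⟨σ₁, fun x => e₁ * σ₂ x, t1', t3, a1, fun x hx => ?_⟩
    have e3 : e₂ = - e₁ := by
      rcases Int.units_eq_one_or e₁ with a | a <;> rcases Int.units_eq_one_or e₂ with b | b <;>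
        rw [a, b] at hee ⊢
      · exact absurd rfl hee
      · rw [neg_neg]
      · exact absurd rfl hee
    rw [a2 x hx, e3, neg_mul]

theorem pnb_nontriv (h : PNb F M P₁ P₂ Q₁ Q₂) {τ : E → E → ℤˣ} {σ₁ σ₂ : E → ℤˣ}
    (h1 : TrivBy τ P₁ σ₁) (h2 : TrivBy τ P₂ σ₂) (hq1 : ∀ x ∈ Q₁, σ₁ x = σ₂ x)
    (hq2 : ∀ x ∈ Q₂, σ₁ x = - σ₂ x) {p : E} (hp : p ∈ F ∩ M) : ¬ TrivAt τ F p := by
  rintro ⟨N, hN, hpN, σ, hσ⟩
  have s1 : P₁ ⊆ M \ F := by rw [h.hM]; exact subset_union_left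
  have s2 : P₂ ⊆ M \ F := by rw [h.hM]; exact subset_union_right
  have q1 : Q₁ ⊆ P₁ ∩ P₂ := by rw [h.hQ]; exact subset_union_left
  have q2 : Q₂ ⊆ P₁ ∩ P₂ := by rw [h.hQ]; exact subset_union_right
  obtain ⟨M', -, -, hM', c1, c2, d1, d2⟩ := h.sub p hp N hN hpN
  obtain ⟨e₁, he₁⟩ := sign_const (acyc_conn0 c1) (s := fun x => σ x * σ₁ x)
    (trivBy_ratio (trivBy_mono hσ fun x hx => ⟨(hM' hx.1).1, (s1 hx.2).2⟩)
      (trivBy_mono h1 inter_subset_right))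
  obtain ⟨e₂, he₂⟩ := sign_const (acyc_conn0 c2) (s := fun x => σ x * σ₂ x)
    (trivBy_ratio (trivBy_mono hσ fun x hx => ⟨(hM' hx.1).1, (s2 hx.2).2⟩)
      (trivBy_mono h2 inter_subset_right))
  obtain ⟨x, hx, hxq⟩ := d1.1
  obtain ⟨y, hy, hyq⟩ := d2.1
  have b1 := he₁ x ⟨hx, (q1 hxq).1⟩
  have b2 := he₂ x ⟨hx, (q1 hxq).2⟩
  have b3 := he₁ y ⟨hy, (q2 hyq).1⟩
  have b4 := he₂ y ⟨hy, (q2 hyq).2⟩
  rw [hq1 x hxq] at b1
  rw [hq2 y hyq] at b3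
  have b5 : e₁ = e₂ := b1.symm.trans b2
  rw [mul_neg] at b3
  rw [b4] at b3
  rw [b5] at b3
  rcases Int.units_eq_one_or e₂ with a | a <;> rw [a] at b3 <;> revert b3 <;> decide

end PoolFbd
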