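import Pool.Agent.Work.MP_fbd21a_gt.TmLoc
import Pool.Agent.Work.MP_fbd21a_gt.Glue
import Pool.Agent.Work.MP_fbd21a_gt.DdDd

/-! MODULE TmV. Vanishing of twisted cohomology in degrees 0 and 1 on a good punctured neighbourhood
on which the sign twist is nontrivial, coefficients in which 2 is invertible.
PROOF. σ₁, σ₂ from pnb_twist. v0: u of degree 0, twisted-locally constant near M \ F. gau σ₁ u is locally
constant near P₁ (gau_coc), so = m₁ on P₁; gau σ₂ u = m₂ on P₂; on Q₁: m₁ = m₂, on Q₂: m₁ = -m₂, so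
m₁ + m₁ = 0, m₁ = 0 by injectivity of doubling; same m₂; so u = 0 near M \ F.
v1: φ of degree 1, twisted cocycle near M \ F. gau σ₁ φ is a cocycle near P₁, = dd one ψ₁ near P₁
(Acyc), so φ = dd τ a₁ near P₁, a₁ = gau σ₁ ψ₁ (σ₁² = 1; gau_cob with Z = ∅). Same a₂ near P₂. Near
P₁ ∩ P₂ = Q₁ ∪ Q₂ a₁ - a₂ is a twisted 0-cocycle, σ₁ • (a₁ - a₂) = cst m₁ near Q₁, cst m₂ near Q₂.
By surjectivity of doubling choose n₁, n₂ with n₁ - n₂ = m₁, n₁ + n₂ = m₂ (n₁ = (m₁+m₂)/2,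
n₂ = (m₂-m₁)/2). Replace a₁ by a₁ - σ₁•n₁ and a₂ by a₂ - σ₂•n₂ (twisted coboundaries of σ_i•n_i vanish near
P_i): the difference on Q₁ is σ₁•(m₁ - n₁ + n₂) = 0 and on Q₂ σ₁•(m₂ - n₁ - n₂) = 0
(σ₂ = σ₁ on Q₁, σ₂ = -σ₁ on Q₂). Glue (Sepd.open). -/

open Topology Filter Set

namespace PoolFbd

variable {E : Type*} [PseudoMetricSpace E] {F M P₁ P₂ Q₁ Q₂ : Set E} {A : Type}
  [AddCommGroup A]

private theorem tmv_gau_iff {S : Set E} {σ : E → ℤˣ} {n : ℕ} {φ : Coch E A n}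
    (h : LZ S (gau σ φ)) : LZ S φ := by
  intro x hx
  filter_upwards [h x hx] with t ht
  have h1 : σ (t 0) • φ t = 0 := ht
  rwa [smul_eq_zero_iff_eq] at h1

private theorem tmv_pt {U : Set E} {σ : E → ℤˣ} {u : Coch E A 0} {m : A}
    (h : LZ U (gau σ u - cst E 0 m)) {x : E} (hx : x ∈ U) : σ x • u (fun _ => x) = m :=
  conn0_pt h hx

private theorem tmv_const {U : Set E} (hU : Acyc U) {τ : E → E → ℤˣ} {σ : E → ℤˣ}
    (hσ : TrivBy τ U σ) {u : Coch E A 0} (hu : LZ U (dd τ u)) :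
    ∃ m : A, LZ U (gau σ u - cst E 0 m) :=
  (hU.2 A).1 (gau σ u) (LZ.congr (dd_gau hσ u) (hu.gau σ))

private theorem tmv_cst {U : Set E} {τ : E → E → ℤˣ} {σ : E → ℤˣ}
    (hσ : TrivBy τ U σ) (m : A) : LZ U (dd τ (gau σ (cst E 0 m))) := by
  intro x hx
  filter_upwards [hσ x hx] with t ht
  rw [dd_deg_zero, ht]
  show ((σ (t 0))⁻¹ * σ (t 1)) • (σ (t 1) • m) - σ (t 0) • m = 0
  rw [smul_smul, mul_assoc, Int.units_mul_self, mul_one, Int.units_inv_eq_self, sub_self]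

private theorem tmv_prim {U : Set E} (hU : Acyc U) {τ : E → E → ℤˣ} {σ : E → ℤˣ}
    (hσ : TrivBy τ U σ) {φ : Coch E A 1} (hφ : LZ U (dd τ φ)) :
    ∃ a : Coch E A 0, LZ U (φ - dd τ a) := by
  have h1 : Cob one U ∅ (gau σ φ) :=
    (hU.2 A).2 0 (gau σ φ) (LZ.congr (dd_gau hσ φ) (hφ.gau σ))
  have h2 : Cob τ U ∅ φ := (gau_cob (fun x hx => hσ x hx.1) (LZ.empty φ)).2 h1
  obtain ⟨a, -, ha⟩ := h2
  exact ⟨a, ha⟩

theorem v0_loc (h : PNb F M P₁ P₂ Q₁ Q₂) {τ : E → E → ℤˣ} (hτ : IsTw (M \ F) τ) {p : E}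
    (hp : p ∈ F ∩ M) (hn : ¬ TrivAt τ F p) (h2 : Function.Bijective (fun a : A => a + a))
    {u : Coch E A 0} (hu : LZ (M \ F) (dd τ u)) : LZ (M \ F) u := by
  have s1 : P₁ ⊆ M \ F := by rw [h.hM]; exact subset_union_left
  have s2 : P₂ ⊆ M \ F := by rw [h.hM]; exact subset_union_right
  have q1 : Q₁ ⊆ P₁ ∩ P₂ := by rw [h.hQ]; exact subset_union_left
  have q2 : Q₂ ⊆ P₁ ∩ P₂ := by rw [h.hQ]; exact subset_union_right
  obtain ⟨σ₁, σ₂, t1, t2, t3, t4⟩ := pnb_twist h hτ hp hn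
  obtain ⟨m₁, hm₁⟩ := tmv_const h.a1 t1 (hu.mono s1)
  obtain ⟨m₂, hm₂⟩ := tmv_const h.a2 t2 (hu.mono s2)
  obtain ⟨x, hx⟩ := h.b1.1
  obtain ⟨y, hy⟩ := h.b2.1
  have e1 := tmv_pt hm₁ (q1 hx).1
  have e2 := tmv_pt hm₂ (q1 hx).2
  have e3 := tmv_pt hm₁ (q2 hy).1
  have e4 := tmv_pt hm₂ (q2 hy).2
  rw [t3 x hx, e2] at e1
  rw [t4 y hy, Units.neg_smul, e4] at e3
  have e5 : m₂ + m₂ = 0 := by
    have : m₂ = - m₂ := e1.trans e3.symm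
    nth_rewrite 2 [this]
    exact add_neg_cancel m₂
  have e6 : m₂ = 0 := h2.1 (by simpa using e5)
  have e7 : m₁ = 0 := by rw [← e1, e6]
  rw [e7] at hm₁
  rw [e6] at hm₂
  have z : ∀ {n : ℕ} (φ : Coch E A n), φ - cst E n (0 : A) = φ := by
    intro n φ
    funext t
    simp [cst]
  rw [z] at hm₁ hm₂
  rw [h.hM]
  exact (tmv_gau_iff hm₁).union (tmv_gau_iff hm₂)

theorem v1_loc (h : PNb F M P₁ P₂ Q₁ Q₂) {τ : E → E → ℤˣ} (hτ : IsTw (M \ F) τ) {p : E}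
    (hp : p ∈ F ∩ M) (hn : ¬ TrivAt τ F p) (h2 : Function.Bijective (fun a : A => a + a))
    {φ : Coch E A 1} (hφ : LZ (M \ F) (dd τ φ)) :
    ∃ ψ : Coch E A 0, LZ (M \ F) (φ - dd τ ψ) := by
  have s1 : P₁ ⊆ M \ F := by rw [h.hM]; exact subset_union_left
  have s2 : P₂ ⊆ M \ F := by rw [h.hM]; exact subset_union_right
  have q1 : Q₁ ⊆ P₁ ∩ P₂ := by rw [h.hQ]; exact subset_union_left
  have q2 : Q₂ ⊆ P₁ ∩ P₂ := by rw [h.hQ]; exact subset_union_right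
  obtain ⟨σ₁, σ₂, t1, t2, t3, t4⟩ := pnb_twist h hτ hp hn
  obtain ⟨a₁, ha₁⟩ := tmv_prim h.a1 t1 (hφ.mono s1)
  obtain ⟨a₂, ha₂⟩ := tmv_prim h.a2 t2 (hφ.mono s2)
  have hd : LZ (P₁ ∩ P₂) (dd τ (a₁ - a₂)) := by
    rw [dd_sub]
    exact LZ.trans (ha₁.mono inter_subset_left).symm (ha₂.mono inter_subset_right)
  obtain ⟨m₁, hm₁⟩ := tmv_const h.b1 (trivBy_mono t1 (q1.trans inter_subset_left)) (hd.mono q1)
  obtain ⟨m₂, hm₂⟩ := tmv_const h.b2 (trivBy_mono t1 (q2.trans inter_subset_left)) (hd.mono q2)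
  obtain ⟨n₁, hn₁⟩ := h2.2 (m₁ + m₂)
  have hn₁' : n₁ + n₁ = m₁ + m₂ := hn₁
  have hag : LZ (P₁ ∩ P₂) ((a₁ - gau σ₁ (cst E 0 n₁)) - (a₂ - gau σ₂ (cst E 0 (n₁ - m₁)))) := by
    rw [h.hQ]
    refine LZ.union ?_ ?_
    · intro x hx
      filter_upwards [hm₁ x hx, ev_coord (n := 0 + 1) (h.q1.eventually_mem hx) 0] with t ht hq
      have e1 : σ₁ (t 0) • (a₁ t - a₂ t) - m₁ = 0 := ht
      have e2 : a₁ t - a₂ t = σ₁ (t 0) • m₁ := by
        rw [← sub_eq_zero.1 e1, smul_smul, Int.units_mul_self, one_smul]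
      show a₁ t - σ₁ (t 0) • n₁ - (a₂ t - σ₂ (t 0) • (n₁ - m₁)) = 0
      rw [← t3 _ hq, smul_sub, ← e2]
      abel
    · intro x hx
      filter_upwards [hm₂ x hx, ev_coord (n := 0 + 1) (h.q2.eventually_mem hx) 0] with t ht hq
      have e1 : σ₁ (t 0) • (a₁ t - a₂ t) - m₂ = 0 := ht
      have e2 : a₁ t - a₂ t = σ₁ (t 0) • m₂ := by
        rw [← sub_eq_zero.1 e1, smul_smul, Int.units_mul_self, one_smul]
      show a₁ t - σ₁ (t 0) • n₁ - (a₂ t - σ₂ (t 0) • (n₁ - m₁)) = 0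
      have e3 : σ₂ (t 0) = - σ₁ (t 0) := by rw [t4 _ hq, neg_neg]
      have e4 : a₁ t - σ₁ (t 0) • n₁ - (a₂ t - σ₂ (t 0) • (n₁ - m₁)) =
          (a₁ t - a₂ t) - σ₁ (t 0) • (n₁ + (n₁ - m₁)) := by
        rw [e3, Units.neg_smul, smul_add]
        abel
      have e5 : n₁ + (n₁ - m₁) = m₂ := by
        rw [← add_sub_assoc, hn₁', add_sub_cancel_left]
      rw [e4, e2, e5, sub_self]
  obtain ⟨c, hc1, hc2⟩ := glue (Sepd.open h.o1 h.o2) _ _ hag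
  refine ⟨c, ?_⟩
  rw [h.hM]
  refine LZ.union ?_ ?_
  · have e1 : LZ P₁ (dd τ a₁ - dd τ c) := by
      have := ((hc1.symm).dd τ).add (tmv_cst t1 n₁)
      rw [dd_sub, dd_sub] at this
      convert this using 1
      abel
    exact ha₁.trans e1
  · have e1 : LZ P₂ (dd τ a₂ - dd τ c) := by
      have := ((hc2.symm).dd τ).add (tmv_cst t2 (n₁ - m₁))
      rw [dd_sub, dd_sub] at this
      convert this using 1
      abel
    exact ha₂.trans e1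

end PoolFbd
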