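import Pool.Agent.Work.MP_fbd21a_gt.TmV

/-! MODULE TmV1. Global version of TmV in degree 1 along the compact set F.
PROOF. For each p ∈ F: M_p ⊆ N good neighbourhood and ψ_p with φ = dd τ ψ_p near M_p \ F (v1_loc).
Finite subcover M_1..M_m, Lebesgue number δ: every B(p, δ), p ∈ F, lies in some M_i. For y with
infDist y F < δ/2 choose i(y) with B(y, δ/2) ⊆ M_i(y); ψ t = ψ_i(t 0) t (0 elsewhere).
Near p ∈ F: i(y) ∈ I = {i | p ∈ M_i} for y within δ/2 of p. Two ψ_i, ψ_j with i, j ∈ I differ by a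
twisted 0-cocycle near (M_i ∩ M_j) \ F; take a good neighbourhood M'' ∋ p inside ⋂_{i∈I} M_i and the
ball: by v0_loc ψ_i - ψ_j vanishes on M'' \ F. So ψ = ψ_i near M'' \ F, φ = dd τ ψ near M'' \ F. N' = union
of these M'' over p ∈ F. -/

open Topology Filter Set

namespace PoolFbd

theorem v1_glob {E : Type*} [PseudoMetricSpace E] {F : Set E} (hF : Tame F)
    (hFc : IsCompact F) {τ : E → E → ℤˣ} (hτ : IsTw Fᶜ τ) (hn : ∀ p ∈ F, ¬ TrivAt τ F p)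
    {A : Type} [AddCommGroup A] (h2 : Function.Bijective (fun a : A => a + a))
    {N : Set E} (hN : IsOpen N) (hFN : F ⊆ N) {φ : Coch E A 1} (hφ : LZ (N \ F) (dd τ φ)) :
    ∃ (ψ : Coch E A 0) (N' : Set E), IsOpen N' ∧ F ⊆ N' ∧ N' ⊆ N ∧
      LZ (N' \ F) (φ - dd τ ψ) := by
  classical
  have hloc : ∀ p ∈ F, ∃ (U : Set E) (ψ : Coch E A 0), IsOpen U ∧ p ∈ U ∧ U ⊆ N ∧
      LZ (U \ F) (φ - dd τ ψ) := by
    intro p hp
    obtain ⟨M, P₁, P₂, Q₁, Q₂, hpM, hMN, h⟩ := hF.2 p hp N hN (hFN hp)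
    obtain ⟨ψ, hψ⟩ := v1_loc h (hτ.mono fun x hx => hx.2) ⟨hp, hpM⟩ (hn p hp) h2
      (hφ.mono (show M \ F ⊆ N \ F from fun x hx => ⟨hMN hx.1, hx.2⟩))
    exact ⟨M, ψ, h.oM, hpM, hMN, hψ⟩
  choose! U Ψ hUo hpU hUN hΨ using hloc
  obtain ⟨ε, s, i, hε, hs, hi⟩ := cover_choice hFc U fun p hp => ⟨hUo p hp, hpU p hp⟩
  set ψ : Coch E A 0 := fun t => Ψ (i (t 0)) t with hψ
  have hmain : ∀ z ∈ F, ∃ M : Set E, IsOpen M ∧ z ∈ M ∧ M ⊆ N ∧ LZ (M \ F) (φ - dd τ ψ) := by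
    intro z hz
    have hW : IsOpen (Metric.ball z ε ∩ ⋂ p ∈ s.filter (fun p => z ∈ U p), U p) := by
      refine Metric.isOpen_ball.inter ?_
      exact isOpen_biInter_finset fun p hp => hUo p (hs p (Finset.mem_filter.1 hp).1)
    have hzW : z ∈ Metric.ball z ε ∩ ⋂ p ∈ s.filter (fun p => z ∈ U p), U p := by
      refine ⟨Metric.mem_ball_self hε, mem_iInter₂.2 fun p hp => (Finset.mem_filter.1 hp).2⟩
    obtain ⟨M, P₁, P₂, Q₁, Q₂, hzM, hMW, h⟩ := hF.2 z hz _ hW hzW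
    have hzi := hi z z hz (by rw [dist_self]; exact hε)
    have hzI : z ∈ U (i z) := hzi.2 (Metric.mem_ball_self hε)
    have hMU : ∀ p ∈ s, z ∈ U p → M ⊆ U p := by
      intro p hp hzp x hx
      exact mem_iInter₂.1 (hMW hx).2 p (Finset.mem_filter.2 ⟨hp, hzp⟩)
    have hMN : M ⊆ N := (hMU (i z) hzi.1 hzI).trans (hUN _ (hs _ hzi.1))
    have hdiff : ∀ p ∈ s, z ∈ U p → LZ (M \ F) (Ψ p - Ψ (i z)) := by
      intro p hp hzp
      refine v0_loc h (hτ.mono fun x hx => hx.2) ⟨hz, hzM⟩ (hn z hz) h2 ?_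
      rw [dd_sub]
      have a1 := (hΨ p (hs p hp)).mono
        (show M \ F ⊆ U p \ F from fun x hx => ⟨hMU p hp hzp hx.1, hx.2⟩)
      have a2 := (hΨ (i z) (hs _ hzi.1)).mono
        (show M \ F ⊆ U (i z) \ F from fun x hx => ⟨hMU (i z) hzi.1 hzI hx.1, hx.2⟩)
      exact a1.symm.trans a2
    have hev : LZ (M \ F) (ψ - Ψ (i z)) := by
      intro x hx
      have hall : ∀ᶠ t in 𝓝 (fun _ : Fin (0 + 1) => x), ∀ p ∈ s, z ∈ U p →
          Ψ p t = Ψ (i z) t := by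
        rw [Filter.eventually_all_finset]
        intro p hp
        by_cases hzp : z ∈ U p
        · filter_upwards [hdiff p hp hzp x hx] with t ht _
          exact sub_eq_zero.1 ht
        · exact Eventually.of_forall fun t h => absurd h hzp
      filter_upwards [hall, ev_coord (n := 0 + 1) (h.oM.eventually_mem hx.1) 0] with t h1 h2
      have h3 : dist (t 0) z < ε := (hMW h2).1
      have h4 := hi (t 0) z hz h3
      have h5 : z ∈ U (i (t 0)) := h4.2 (by rw [Metric.mem_ball, dist_comm]; exact h3)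
      show Ψ (i (t 0)) t - Ψ (i z) t = 0
      rw [h1 _ h4.1 h5, sub_self]
    refine ⟨M, h.oM, hzM, hMN, ?_⟩
    have a2 := (hΨ (i z) (hs _ hzi.1)).mono
      (show M \ F ⊆ U (i z) \ F from fun x hx => ⟨hMU (i z) hzi.1 hzI hx.1, hx.2⟩)
    refine a2.trans ?_
    rw [← dd_sub]
    exact hev.symm.dd τ
  refine ⟨ψ, ⋃₀ {M | IsOpen M ∧ M ⊆ N ∧ LZ (M \ F) (φ - dd τ ψ)}, ?_, ?_, ?_, ?_⟩
  · exact isOpen_sUnion fun M hM => hM.1
  · intro z hz
    obtain ⟨M, h1, h2, h3, h4⟩ := hmain z hz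
    exact ⟨M, ⟨h1, h3, h4⟩, h2⟩
  · exact sUnion_subset fun M hM => hM.2.1
  · rintro x ⟨⟨M, hM, hxM⟩, hxF⟩
    exact hM.2.2 x ⟨hxM, hxF⟩

end PoolFbd
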