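import Pool.Agent.Work.MP_fbd21a_gt.NuB
import Pool.Agent.Work.MP_fbd21a_gt.PLF
import Pool.Agent.Work.MP_fbd21a_gt.BaseG
import Pool.Agent.Work.MP_fbd21a_gt.TsC

/-! MODULE TsB. Action of the twist TB m on the classes gp, um, and their rho3-transforms.
r is a retraction function onto Sig. PROOF. um: picard_lefschetz with ν = nuB, x = um, θ = gp,
U l = ⌊l - 1/3⌋, e = 1: on the annulus um = gM∘inv0: near l₀ with 6 fract l₀ in (1,3) (Z = 1 > 1/2) it is the step of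
X = 6 fract l - 2 at l = 1/3; on Z ≥ 1/2 parts of the sides X = ±1 is constant; where Z < 1/2 near, um = 0 and U is
constant (the step of U is at l = 1/3 mod 1 only); at Z = 1/2 (sides) both expressions are 0. gp on the
annulus: x0 = 1 > 0, |X| ≤ 1 ≤ 2, Z ≤ 1 ≤ 2: step of Y = s - 1/2 at s = 1/2. gp is intrinsically zero at points of Sig
outside the open annulus: for x₀ ∈ Sk with v: Y ≠ 0 fine; Y = 0: |X| ≥ 3 or Z ≥ 3 (condition of gP false near) or
|X| ≤ 1, Z ≤ 1 and v on the rectangle: in the open annulus; for rho3 x₀ ∈ Sk: gp_zero.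
Then twist_inv for ν = nuB' and x = um, gp: um, gp vanish near the annulus nuB' (um_zero, gp_zero: it is in
rho3⁻¹ Sk) and the twist is the identity elsewhere. Compose: pb (twi nuB m ∘ twi nuB' m ∘ r) x =
pb (twi nuB' m ∘ r) (pb (twi nuB m ∘ r) x) exactly, since twi nuB' m (r y) ∈ Sig is fixed by r.
gp: twist_inv for nuB (on the annulus Y is preserved, gp depends only on Y there) and nuB'.
Primed versions: TB m commutes with rho3 (tw_comm with f = rho3, a = 0, both ways; the two twists commute: disjoint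
supports) and pull back by rho3 (Cob.pb with rho3⁻¹ Sig = Sig; r versus rho3∘r∘rho3: both are
retraction functions). -/

open Topology Filter Set

namespace PoolFbd

private theorem tb_pos (l : ℝ) {s : ℝ} (hs : s ∈ Icc (0 : ℝ) 1) : 0 < ((nuB l s).1 0 : ℝ) := by
  obtain ⟨h1, h2, h3, h4⟩ := rect_mem (6 * Int.fract l)
  have hY : |s - 1 / 2| ≤ 1 := by
    rw [abs_le]
    constructor <;> linarith [hs.1, hs.2]
  have hZ' : |bZ (6 * Int.fract l)| ≤ 1 := by
    rw [abs_le]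
    constructor <;> linarith
  have hcub : (![bX (6 * Int.fract l), s - 1 / 2, bZ (6 * Int.fract l)] : V3) ∈ cub :=
    nb_vec_cub h1 hY hZ'
  refine lt_of_le_of_ne (kap_nonneg _) ?_
  intro h5
  obtain ⟨i, hi⟩ := (kap_x0_zero hcub).mp h5.symm
  fin_cases i
  · change |bX _| = 5 at hi; linarith
  · change |s - 1 / 2| = 5 at hi; linarith
  · change |bZ _| = 5 at hi; linarith

private theorem tb_inv (l : ℝ) {s : ℝ} (hs : s ∈ Icc (0 : ℝ) 1) :
    inv0 (nuB l s) = ![bX (6 * Int.fract l), s - 1 / 2, bZ (6 * Int.fract l)] := by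
  obtain ⟨h1, h2, h3, h4⟩ := rect_mem (6 * Int.fract l)
  have hY : |s - 1 / 2| ≤ 1 := by
    rw [abs_le]
    constructor <;> linarith [hs.1, hs.2]
  have hZ' : |bZ (6 * Int.fract l)| ≤ 1 := by
    rw [abs_le]
    constructor <;> linarith
  exact inv0_kap (nb_vec_cub h1 hY hZ')

private theorem tb_disj (l : ℝ) {s : ℝ} (hs : s ∈ Icc (0 : ℝ) 1) (l' : ℝ) {s' : ℝ}
    (hs' : s' ∈ Icc (0 : ℝ) 1) : nuB l s ≠ nuB' l' s' := by
  intro h
  have h1 := tb_pos l hs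
  have h2 := tb_pos l' hs'
  rw [h] at h1
  unfold nuB' at h1
  rw [x0_rho] at h1
  linarith

private theorem tb_comm (m m' : ℤ) (x : E3) :
    twi nuB' m (twi nuB m' x) = twi nuB m' (twi nuB' m x) := by
  by_cases h : ∃ l, ∃ s ∈ Icc (0 : ℝ) 1, x = nuB l s
  · obtain ⟨l, s, hs, rfl⟩ := h
    rw [tw_nu ann_nuB m' l hs, tw_off m (fun l' s' hs' => tb_disj _ hs l' hs'),
      tw_off m (fun l' s' hs' => tb_disj _ hs l' hs'), tw_nu ann_nuB m' l hs]
  · push Not at h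
    by_cases h' : ∃ l, ∃ s ∈ Icc (0 : ℝ) 1, x = nuB' l s
    · obtain ⟨l, s, hs, rfl⟩ := h'
      rw [tw_off m' h, tw_nu ann_nuB' m l hs,
        tw_off m' (fun l' s' hs' => (tb_disj l' hs' _ hs).symm)]
    · push Not at h'
      rw [tw_off m' h, tw_off m h', tw_off m' h]

theorem TB_mem (m : ℤ) {x : E3} (hx : x ∈ Sig) : TB m x ∈ Sig :=
  tw_mem ann_nuB m (tw_mem ann_nuB' m hx)

theorem TB_cont (m : ℤ) : ContinuousOn (TB m) Sig :=
  (tw_cont ann_nuB m).comp (tw_cont ann_nuB' m) fun _ hx => tw_mem ann_nuB' m hx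

theorem TB_add (m m' : ℤ) (x : E3) : TB m (TB m' x) = TB (m + m') x := by
  unfold TB
  rw [tb_comm, tw_add ann_nuB, tw_add ann_nuB']

theorem TB_zero (x : E3) : TB 0 x = x := by
  unfold TB
  rw [tw_zero ann_nuB', tw_zero ann_nuB]

private theorem tb_rinj : Function.Injective rho3 := fun x y hxy => by
  rw [← rho3_rho3 x, hxy, rho3_rho3]

theorem TB_rho (m : ℤ) (x : E3) : rho3 (TB m x) = TB m (rho3 x) := by
  unfold TB
  rw [tw_comm ann_nuB ann_nuB' tb_rinj 0 (fun l s _ => by rw [add_zero]; rfl),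
    tw_comm ann_nuB' ann_nuB tb_rinj 0 (fun l s _ => by rw [add_zero]; exact rho3_rho3 _),
    tb_comm]

/-- The class `gp` vanishes near points of `Sig` outside the open annulus. -/
private theorem tb_gp_off {x₀ : E3} (hx₀ : x₀ ∈ Sig)
    (h : ∀ l, ∀ s ∈ Ioo (0 : ℝ) 1, x₀ ≠ nuB l s) : ZeroAt gp x₀ := by
  rcases hx₀ with hx | hx
  · obtain ⟨hx0, ⟨hcub, hz0, hHp⟩, -, hHm⟩ := hx
    by_cases hY : inv0 x₀ 1 = 0
    · rcases hHp with h1 | h1 | h1 | h1
      · exact bg_van (bg_gP (Or.inr (Or.inl (by linarith))))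
      · exact bg_van (bg_gP (Or.inr (Or.inr (by linarith))))
      · rw [hY, abs_zero] at h1
        exfalso
        linarith
      · exfalso
        have h2 : inv0 x₀ 2 = 0 ∨ |inv0 x₀ 0| = 1 ∨ inv0 x₀ 2 = 1 := by
          rcases hHm with h2 | ⟨-, -, -, h2 | h2⟩
          · exact Or.inl (le_antisymm h2 hz0)
          · exact Or.inr (Or.inl (le_antisymm h1.1 h2))
          · exact Or.inr (Or.inr (le_antisymm h1.2 h2))
        obtain ⟨l, hl0, hl6, hlX, hlZ⟩ := rect_surj h1.1 hz0 h1.2 h2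
        refine h (l / 6) (1 / 2) ⟨by norm_num, by norm_num⟩ ?_
        have hfr : Int.fract (l / 6) = l / 6 := by
          rw [Int.fract_eq_self]
          constructor
          · positivity
          · rw [div_lt_one (by norm_num)]
            exact hl6
        unfold nuB
        rw [hfr, show 6 * (l / 6) = l by ring, hlX, hlZ]
        conv_lhs => rw [← kap_inv0 hx0]
        congr 1
        funext i
        fin_cases i
        · rfl
        · change inv0 x₀ 1 = 1 / 2 - 1 / 2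
          rw [hY]
          norm_num
        · rfl
    · exact bg_van (bg_gP (Or.inl hY))
  · exact gp_zero x₀ (Or.inl (Or.inr hx))

/-- On the second annulus both classes vanish. -/
private theorem tb_prime_sk (l : ℝ) {s : ℝ} (hs : s ∈ Icc (0 : ℝ) 1) : nuB' l s ∈ rho3 ⁻¹' Sk := by
  change rho3 (rho3 (nuB l s)) ∈ Sk
  rw [rho3_rho3]
  exact nb_mem_sk l hs

private theorem tb_um_step (l₀ : ℝ) {s₀ : ℝ} (hs₀ : s₀ ∈ Icc (0 : ℝ) 1) :
    ∀ᶠ p in 𝓝 (((l₀, s₀), (l₀, s₀)) : (ℝ × ℝ) × (ℝ × ℝ)),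
      p.1.2 ∈ Icc (0 : ℝ) 1 → p.2.2 ∈ Icc (0 : ℝ) 1 →
        um ![nuB p.1.1 p.1.2, nuB p.2.1 p.2.2] = ⌊p.2.1 - 1 / 3⌋ - ⌊p.1.1 - 1 / 3⌋ := by
  have c1 : Tendsto (fun p : (ℝ × ℝ) × (ℝ × ℝ) => p.1.1)
      (𝓝 (((l₀, s₀), (l₀, s₀)) : (ℝ × ℝ) × (ℝ × ℝ))) (𝓝 l₀) :=
    (continuous_fst.comp continuous_fst).tendsto (((l₀, s₀), (l₀, s₀)) : (ℝ × ℝ) × (ℝ × ℝ))
  have c2 : Tendsto (fun p : (ℝ × ℝ) × (ℝ × ℝ) => p.2.1)
      (𝓝 (((l₀, s₀), (l₀, s₀)) : (ℝ × ℝ) × (ℝ × ℝ))) (𝓝 l₀) :=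
    (continuous_fst.comp continuous_snd).tendsto (((l₀, s₀), (l₀, s₀)) : (ℝ × ℝ) × (ℝ × ℝ))
  by_cases hf : Int.fract l₀ = 1 / 3
  · -- the step
    have hl₀ : l₀ = ⌊l₀⌋ + 1 / 3 := by
      have := Int.floor_add_fract l₀
      linarith
    have key : ∀ᶠ l in 𝓝 l₀, ∀ s ∈ Icc (0 : ℝ) 1, 1 / 2 ≤ inv0 (nuB l s) 2 ∧
        st 0 (inv0 (nuB l s) 0) = ⌊l - 1 / 3⌋ - ⌊l₀⌋ + 1 := by
      have h1 : ∀ᶠ l in 𝓝 l₀, l ∈ Ioo (l₀ - 1 / 6) (l₀ + 1 / 6) :=
        isOpen_Ioo.mem_nhds ⟨by linarith, by linarith⟩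
      filter_upwards [h1] with l hl s hs
      have hfr : Int.fract l = l - ⌊l₀⌋ := by
        rw [Int.fract_eq_iff]
        refine ⟨by linarith [hl.1], by linarith [hl.2], ⌊l₀⌋, by ring⟩
      have h6 : 1 ≤ 6 * Int.fract l ∧ 6 * Int.fract l ≤ 3 := by
        rw [hfr]
        constructor <;> linarith [hl.1, hl.2]
      obtain ⟨hX, hZ⟩ := nb_r2 h6.1 h6.2
      rw [tb_inv l hs]
      refine ⟨?_, ?_⟩
      · change 1 / 2 ≤ bZ (6 * Int.fract l)
        rw [hZ]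
        norm_num
      · change st 0 (bX (6 * Int.fract l)) = _
        rw [hX, hfr]
        unfold st
        split_ifs with h3
        · have h4 : ⌊l - 1 / 3⌋ = ⌊l₀⌋ := by
            rw [Int.floor_eq_iff]
            constructor <;> linarith [hl.2]
          rw [h4]
          ring
        · have h4 : ⌊l - 1 / 3⌋ = ⌊l₀⌋ - 1 := by
            rw [Int.floor_eq_iff]
            push Not at h3
            push_cast
            constructor <;> linarith [hl.1]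
          rw [h4]
          ring
    filter_upwards [c1.eventually key, c2.eventually key] with p h1 h2 a b
    obtain ⟨h3, h4⟩ := h1 p.1.2 a
    obtain ⟨h5, h6⟩ := h2 p.2.2 b
    rw [tsc_um (tb_pos _ a) h3, h4, h6]
    ring
  · -- no step
    have hne : Int.fract (l₀ - 1 / 3) ≠ 0 := by
      intro h0
      apply hf
      have h1 := Int.floor_add_fract (l₀ - 1 / 3)
      rw [h0, add_zero] at h1
      rw [Int.fract_eq_iff]
      refine ⟨by norm_num, by norm_num, ⌊l₀ - 1 / 3⌋, by linarith⟩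
    have hz : ZeroAt um (nuB l₀ s₀) := by
      refine bg_van (bg_gM ?_)
      rw [tb_inv l₀ hs₀]
      change bX (6 * Int.fract l₀) ≠ 0 ∨ bZ (6 * Int.fract l₀) < 1 / 2
      obtain ⟨h0, h6⟩ := nb_frac l₀
      rcases le_total (6 * Int.fract l₀) 1 with h1 | h1
      · left
        rw [(nb_r1 h0 h1).1]
        norm_num
      · rcases le_total (6 * Int.fract l₀) 3 with h3 | h3
        · left
          rw [(nb_r2 h1 h3).1]
          intro h7
          apply hf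
          linarith
        · rcases le_total (6 * Int.fract l₀) 4 with h4 | h4
          · left
            rw [(nb_r3 h3 h4).1]
            norm_num
          · right
            rw [(nb_r4 h4 h6.le).2]
            norm_num
    filter_upwards [tsc_nu ann_nuB hs₀ hz, c1.eventually (tsc_floor hne),
      c2.eventually (tsc_floor hne)] with p h1 h2 h3 a b
    rw [h1 a b, h2, h3, sub_self]

private theorem tb_gp_step (l₀ : ℝ) {s₀ : ℝ} (hs₀ : s₀ ∈ Ioo (0 : ℝ) 1) :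
    ∀ᶠ p in 𝓝 (((l₀, s₀), (l₀, s₀)) : (ℝ × ℝ) × (ℝ × ℝ)),
      gp ![nuB p.1.1 p.1.2, nuB p.2.1 p.2.2] =
        (open Classical in (if 1 / 2 ≤ p.2.2 then 1 else 0) - (if 1 / 2 ≤ p.1.2 then 1 else 0)) := by
  have c1 : Tendsto (fun p : (ℝ × ℝ) × (ℝ × ℝ) => p.1.2)
      (𝓝 (((l₀, s₀), (l₀, s₀)) : (ℝ × ℝ) × (ℝ × ℝ))) (𝓝 s₀) :=
    (continuous_snd.comp continuous_fst).tendsto (((l₀, s₀), (l₀, s₀)) : (ℝ × ℝ) × (ℝ × ℝ))
  have c2 : Tendsto (fun p : (ℝ × ℝ) × (ℝ × ℝ) => p.2.2)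
      (𝓝 (((l₀, s₀), (l₀, s₀)) : (ℝ × ℝ) × (ℝ × ℝ))) (𝓝 s₀) :=
    (continuous_snd.comp continuous_snd).tendsto (((l₀, s₀), (l₀, s₀)) : (ℝ × ℝ) × (ℝ × ℝ))
  have hnb : ∀ᶠ s in 𝓝 s₀, s ∈ Ioo (0 : ℝ) 1 := isOpen_Ioo.mem_nhds hs₀
  filter_upwards [c1.eventually hnb, c2.eventually hnb] with p h1 h2
  have h1' : p.1.2 ∈ Icc (0 : ℝ) 1 := ⟨h1.1.le, h1.2.le⟩
  have h2' : p.2.2 ∈ Icc (0 : ℝ) 1 := ⟨h2.1.le, h2.2.le⟩
  obtain ⟨r1, r2, r3, -⟩ := rect_mem (6 * Int.fract p.1.1)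
  rw [tsc_gp (tb_pos _ h1') (by rw [tb_inv _ h1']; change |bX _| ≤ 2; linarith)
    (by rw [tb_inv _ h1']; change bZ _ ≤ 2; linarith), tb_inv _ h1', tb_inv _ h2']
  change st 0 (p.2.2 - 1 / 2) - st 0 (p.1.2 - 1 / 2) = _
  unfold st
  congr 1
  · split_ifs with h3 h4 h4
    · rfl
    · exfalso; linarith
    · exfalso; linarith
    · rfl
  · split_ifs with h3 h4 h4
    · rfl
    · exfalso; linarith
    · exfalso; linarith
    · rfl

private theorem tb_pb {r : E3 → E3} (hr : ∀ x, r x ∈ Sig) (hr1 : ∀ x ∈ Sig, r x = x) (m : ℤ)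
    (φ : Coch E3 ℤ 1) : pb (fun y => TB m (r y)) φ =
      pb (fun y => twi nuB' m (r y)) (pb (fun y => twi nuB m (r y)) φ) := by
  funext t
  simp only [pb]
  congr 1
  funext j
  unfold TB
  rw [hr1 _ (tw_mem ann_nuB' m (hr _))]

private theorem tb_pull {r : E3 → E3} (hr : ∀ x, r x ∈ Sig) (hr1 : ∀ x ∈ Sig, r x = x)
    (hr2 : ∀ x ∈ Sig, ContinuousAt r x) (m : ℤ) {φ : Coch E3 ℤ 1} (h : Cob one Sig ∅ φ) :
    Cob one Sig ∅ (pb (fun y => twi nuB' m (r y)) φ) :=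
  Cob.pb (τ := one) (fun y hy => ⟨contAt_ret hr hr1 hr2 (tw_cont ann_nuB' m) y hy,
    tw_mem ann_nuB' m (hr y)⟩) (fun y hy => hy.elim) h

theorem tsb_um {r : E3 → E3} (hr : ∀ x, r x ∈ Sig) (hr1 : ∀ x ∈ Sig, r x = x)
    (hr2 : ∀ x ∈ Sig, ContinuousAt r x) (m : ℤ) :
    Cob one Sig ∅ (pb (fun y => TB m (r y)) um - (um + m • gp)) := by
  have h1 : Cob one Sig ∅ (pb (fun y => twi nuB m (r y)) um - um - (m * 1) • gp) := by
    refine picard_lefschetz ann_nuB hr hr1 hr2 tsc_um_coc tsc_gp_coc (fun l => ⌊l - 1 / 3⌋) 1 ?_ ?_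
      ?_ ?_ m
    · intro l
      have e : l + 1 - 1 / 3 = l - 1 / 3 + 1 := by ring
      rw [e, Int.floor_add_one]
    · intro l₀ s₀ hs₀
      exact tb_um_step l₀ hs₀
    · intro l₀ s₀ hs₀
      exact tb_gp_step l₀ hs₀
    · intro x₀ hx₀ h
      exact nhdsWithin_le_nhds (tsc_pair (tb_gp_off hx₀ h))
  have h2 : Cob one Sig ∅ (pb (fun y => twi nuB' m (r y)) um - um) :=
    twist_inv_zero ann_nuB' hr hr1 hr2 tsc_um_coc m
      fun l s hs => um_zero _ (Or.inl (Or.inr (tb_prime_sk l hs)))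
  have h3 : Cob one Sig ∅ (pb (fun y => twi nuB' m (r y)) gp - gp) :=
    twist_inv_zero ann_nuB' hr hr1 hr2 tsc_gp_coc m
      fun l s hs => gp_zero _ (Or.inl (Or.inr (tb_prime_sk l hs)))
  have h4 := ((tb_pull hr hr1 hr2 m h1).add h2).add (cl_cob_smul m h3)
  have e : pb (fun y => twi nuB' m (r y)) (pb (fun y => twi nuB m (r y)) um) - (um + m • gp) =
      pb (fun y => twi nuB' m (r y)) (pb (fun y => twi nuB m (r y)) um - um - (m * 1) • gp) +
        (pb (fun y => twi nuB' m (r y)) um - um) +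
      m • (pb (fun y => twi nuB' m (r y)) gp - gp) := by
    funext t
    simp only [pb, Pi.add_apply, Pi.sub_apply, Pi.smul_apply, smul_eq_mul]
    ring
  rw [tb_pb hr hr1, e]
  exact h4

theorem tsb_gp {r : E3 → E3} (hr : ∀ x, r x ∈ Sig) (hr1 : ∀ x ∈ Sig, r x = x)
    (hr2 : ∀ x ∈ Sig, ContinuousAt r x) (m : ℤ) :
    Cob one Sig ∅ (pb (fun y => TB m (r y)) gp - gp) := by
  have h1 : Cob one Sig ∅ (pb (fun y => twi nuB m (r y)) gp - gp) := by
    refine twist_inv ann_nuB hr hr1 hr2 tsc_gp_coc m fun x₀ hx₀ => ?_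
    have hY : ∀ y : E3, inv0 (twi nuB m y) 1 = inv0 y 1 := by
      intro y
      by_cases h : ∃ l, ∃ s ∈ Icc (0 : ℝ) 1, y = nuB l s
      · obtain ⟨l, s, hs, rfl⟩ := h
        rw [tw_nu ann_nuB m l hs, tb_inv _ hs, tb_inv _ hs]
        rfl
      · push Not at h
        rw [tw_off m h]
    by_cases hcl : ∃ l, ∃ s ∈ Icc (0 : ℝ) 1, x₀ = nuB l s
    · obtain ⟨l₀, s₀, hs₀, rfl⟩ := hcl
      have hO : IsOpen {x : E3 | 0 < (x.1 0 : ℝ) ∧ |inv0 x 0| < 2 ∧ inv0 x 2 < 2} := by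
        have hi : ∀ i, Continuous fun x : E3 => inv0 x i := fun i =>
          (continuous_apply i).comp inv0_cont
        have h0 : Continuous fun x : E3 => (x.1 0 : ℝ) :=
          continuous_subtype_val.comp ((continuous_apply 0).comp continuous_subtype_val)
        exact (isOpen_lt continuous_const h0).inter ((isOpen_lt (hi 0).abs continuous_const).inter
          (isOpen_lt (hi 2) continuous_const))
      have hmem : ∀ l, nuB l s₀ ∈ {x : E3 | 0 < (x.1 0 : ℝ) ∧ |inv0 x 0| < 2 ∧ inv0 x 2 < 2} := by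
        intro l
        obtain ⟨r1, r2, r3, -⟩ := rect_mem (6 * Int.fract l)
        refine ⟨tb_pos l hs₀, ?_, ?_⟩
        · rw [tb_inv l hs₀]
          change |bX _| < 2
          linarith
        · rw [tb_inv l hs₀]
          change bZ _ < 2
          linarith
      have hT : Tendsto (twi nuB m) (𝓝[Sig] (nuB l₀ s₀)) (𝓝 (nuB (l₀ + m * s₀) s₀)) := by
        have := tw_cont ann_nuB m _ hx₀
        unfold ContinuousWithinAt at this
        rwa [tw_nu ann_nuB m l₀ hs₀] at this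
      have hone : ∀ᶠ y in 𝓝[Sig] (nuB l₀ s₀), (0 < (y.1 0 : ℝ) ∧ |inv0 y 0| < 2 ∧ inv0 y 2 < 2) ∧
          (0 < ((twi nuB m y).1 0 : ℝ) ∧ |inv0 (twi nuB m y) 0| < 2 ∧
            inv0 (twi nuB m y) 2 < 2) := by
        filter_upwards [nhdsWithin_le_nhds (hO.mem_nhds (hmem l₀)),
          hT.eventually (hO.mem_nhds (hmem (l₀ + m * s₀)))] with y a b
        exact ⟨a, b⟩
      rw [nhdsWithin_prod_eq]
      filter_upwards [hone.prod_mk hone] with p hp
      obtain ⟨⟨⟨a1, a2, a3⟩, ⟨b1, b2, b3⟩⟩, -⟩ := hp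
      rw [tsc_gp b1 b2.le b3.le, tsc_gp a1 a2.le a3.le, hY, hY]
    · have hN : ∀ᶠ b in 𝓝 x₀, b ∉ {x | ∃ l, ∃ s ∈ Icc (0 : ℝ) 1, x = nuB l s} :=
        (pl_annclosed ann_nuB).isOpen_compl.mem_nhds hcl
      have hone : ∀ᶠ b in 𝓝[Sig] x₀, twi nuB m b = b := by
        filter_upwards [nhdsWithin_le_nhds hN] with b hb
        exact tw_off m fun l s hs he => hb ⟨l, s, hs, he⟩
      rw [nhdsWithin_prod_eq]
      filter_upwards [hone.prod_mk hone] with p hp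
      rw [hp.1, hp.2]
  have h3 : Cob one Sig ∅ (pb (fun y => twi nuB' m (r y)) gp - gp) :=
    twist_inv_zero ann_nuB' hr hr1 hr2 tsc_gp_coc m
      fun l s hs => gp_zero _ (Or.inl (Or.inr (tb_prime_sk l hs)))
  have h4 := (tb_pull hr hr1 hr2 m h1).add h3
  have e : pb (fun y => twi nuB' m (r y)) (pb (fun y => twi nuB m (r y)) gp) - gp =
      pb (fun y => twi nuB' m (r y)) (pb (fun y => twi nuB m (r y)) gp - gp) +
        (pb (fun y => twi nuB' m (r y)) gp - gp) := by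
    funext t
    simp only [pb, Pi.add_apply, Pi.sub_apply]
    ring
  rw [tb_pb hr hr1, e]
  exact h4

private theorem tb_conj (r : E3 → E3) (m : ℤ) (φ : Coch E3 ℤ 1) :
    pb (fun y => TB m (r y)) (pb rho3 φ) = pb rho3 (pb (fun y => TB m (rho3 (r (rho3 y)))) φ) := by
  funext t
  simp only [pb]
  congr 1
  funext j
  rw [TB_rho, rho3_rho3]

theorem tsb_um' {r : E3 → E3} (hr : ∀ x, r x ∈ Sig) (hr1 : ∀ x ∈ Sig, r x = x)
    (hr2 : ∀ x ∈ Sig, ContinuousAt r x) (m : ℤ) :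
    Cob one Sig ∅ (pb (fun y => TB m (r y)) (pb rho3 um) - (pb rho3 um + m • pb rho3 gp)) := by
  obtain ⟨a, b, c⟩ := tsc_ret hr hr1 hr2
  have h := tsc_rho_sig (tsb_um a b c m)
  rw [tb_conj]
  exact h

theorem tsb_gp' {r : E3 → E3} (hr : ∀ x, r x ∈ Sig) (hr1 : ∀ x ∈ Sig, r x = x)
    (hr2 : ∀ x ∈ Sig, ContinuousAt r x) (m : ℤ) :
    Cob one Sig ∅ (pb (fun y => TB m (r y)) (pb rho3 gp) - pb rho3 gp) := by
  obtain ⟨a, b, c⟩ := tsc_ret hr hr1 hr2
  have h := tsc_rho_sig (tsb_gp a b c m)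
  rw [tb_conj]
  exact h

end PoolFbd
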