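import Pool.Agent.Work.MP_fbd21a_gt.TwDefs

/-! MODULE TwF (MATHLIB ONLY). Properties of the Dehn twists.
PROOFS. per_int: ν (l + n) s = ν l s for integers n. tw_nu: the chosen (l', s') with ν l s = ν l' s' has
s' = s, l' = l + n. tw_off. tw_add: on the annulus ν (l + m' s + m s) s. tw_cont: Sg = N ∪ (Sg minus the open annulus),
N = image of the compact [0,1] × [0,1], both closed; on Sg minus the open annulus the twist is the identity (at s = 0 and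
s = 1, m s is an integer; tw_nu) and on N it is continuous: the map q = ν restricted to [0,1] × [0,1] → N is a
closed surjection. tw_comm: if f : E → E is injective with f (ν l s) = ν' (l + a) s for s in [0,1] (a fixed) and
such that points off N are mapped off N', then f ∘ twi ν m = twi ν' m ∘ f. -/

open Topology Filter Set

namespace PoolFbd

variable {E : Type*} [MetricSpace E] {Sg : Set E} {ν : ℝ → ℝ → E}

theorem per_int (h : Ann Sg ν) (n : ℤ) (l s : ℝ) : ν (l + n) s = ν l s := by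
  have hnat : ∀ (k : ℕ) (l : ℝ), ν (l + k) s = ν l s := by
    intro k
    induction k with
    | zero => intro l; simp
    | succ k ih =>
      intro l
      push_cast
      rw [← add_assoc, h.per, ih]
  obtain ⟨k, rfl | rfl⟩ := n.eq_nat_or_neg
  · exact_mod_cast hnat k l
  · have := hnat k (l - k)
    push_cast
    rw [← sub_eq_add_neg, ← this, sub_add_cancel]

theorem tw_nu (h : Ann Sg ν) (m : ℤ) (l : ℝ) {s : ℝ} (hs : s ∈ Icc (0 : ℝ) 1) :
    twi ν m (ν l s) = ν (l + m * s) s := by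
  have hex : ∃ p : ℝ × ℝ, p.2 ∈ Icc (0 : ℝ) 1 ∧ ν l s = ν p.1 p.2 := ⟨(l, s), hs, rfl⟩
  unfold twi
  rw [dif_pos hex]
  obtain ⟨h1, h2⟩ := hex.choose_spec
  obtain ⟨h3, n, h4⟩ := h.inj l _ s hs _ h1 h2
  rw [h4, ← h3]
  have e : l + n + m * s = l + m * s + n := by ring
  rw [e, per_int h]

theorem tw_off (m : ℤ) {x : E} (hx : ∀ l, ∀ s ∈ Icc (0 : ℝ) 1, x ≠ ν l s) : twi ν m x = x := by
  unfold twi
  rw [dif_neg]
  rintro ⟨p, h1, h2⟩
  exact hx _ _ h1 h2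

private theorem tw_cases (x : E) :
    (∃ l, ∃ s ∈ Icc (0 : ℝ) 1, x = ν l s) ∨ ∀ l, ∀ s ∈ Icc (0 : ℝ) 1, x ≠ ν l s := by
  by_cases h : ∃ l, ∃ s ∈ Icc (0 : ℝ) 1, x = ν l s
  · exact Or.inl h
  · right
    intro l s hs hx
    exact h ⟨l, s, hs, hx⟩

theorem tw_mem (h : Ann Sg ν) (m : ℤ) {x : E} (hx : x ∈ Sg) : twi ν m x ∈ Sg := by
  rcases tw_cases (ν := ν) x with ⟨l, s, hs, rfl⟩ | h1
  · rw [tw_nu h m l hs]
    exact h.mem _ _ hs
  · rw [tw_off m h1]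
    exact hx

theorem tw_zero (h : Ann Sg ν) (x : E) : twi ν 0 x = x := by
  rcases tw_cases (ν := ν) x with ⟨l, s, hs, rfl⟩ | h1
  · rw [tw_nu h 0 l hs]
    simp
  · exact tw_off 0 h1

theorem tw_add (h : Ann Sg ν) (m m' : ℤ) (x : E) : twi ν m (twi ν m' x) = twi ν (m + m') x := by
  rcases tw_cases (ν := ν) x with ⟨l, s, hs, rfl⟩ | h1
  · rw [tw_nu h m' l hs, tw_nu h m _ hs, tw_nu h _ l hs]
    congr 1
    push_cast
    ring
  · rw [tw_off m' h1, tw_off m h1, tw_off _ h1]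

/-- The closed annulus is the image of a square. -/
private theorem ann_image (h : Ann Sg ν) : {x | ∃ l, ∃ s ∈ Icc (0 : ℝ) 1, x = ν l s} =
    (fun p : ℝ × ℝ => ν p.1 p.2) '' (Icc 0 1 ×ˢ Icc 0 1) := by
  ext x
  constructor
  · rintro ⟨l, s, hs, rfl⟩
    refine ⟨(Int.fract l, s), ⟨⟨Int.fract_nonneg l, (Int.fract_lt_one l).le⟩, hs⟩, ?_⟩
    change ν (Int.fract l) s = ν l s
    conv_rhs => rw [← Int.fract_add_floor l]
    rw [per_int h]
  · rintro ⟨p, ⟨_, hp⟩, rfl⟩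
    exact ⟨p.1, p.2, hp, rfl⟩

private theorem tw_cont_ann (h : Ann Sg ν) (m : ℤ) :
    ContinuousOn (twi ν m) {x | ∃ l, ∃ s ∈ Icc (0 : ℝ) 1, x = ν l s} := by
  rw [continuousOn_iff_isClosed]
  intro C hC
  have hg : ContinuousOn (fun p : ℝ × ℝ => ν (p.1 + m * p.2) p.2) (Icc 0 1 ×ˢ Icc 0 1) := by
    have h1 : ContinuousOn (fun p : ℝ × ℝ => ((p.1 + m * p.2, p.2) : ℝ × ℝ))
        (Icc 0 1 ×ˢ Icc 0 1) := by fun_prop
    exact h.cont.comp h1 fun p hp => ⟨mem_univ _, hp.2⟩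
  have hcl : IsClosed ((Icc 0 1 ×ˢ Icc 0 1 : Set (ℝ × ℝ)) ∩
      (fun p : ℝ × ℝ => ν (p.1 + m * p.2) p.2) ⁻¹' C) :=
    hg.preimage_isClosed_of_isClosed (isClosed_Icc.prod isClosed_Icc) hC
  have hcp : IsCompact ((Icc 0 1 ×ˢ Icc 0 1 : Set (ℝ × ℝ)) ∩
      (fun p : ℝ × ℝ => ν (p.1 + m * p.2) p.2) ⁻¹' C) :=
    (isCompact_Icc.prod isCompact_Icc).of_isClosed_subset hcl inter_subset_left
  refine ⟨(fun p : ℝ × ℝ => ν p.1 p.2) '' ((Icc 0 1 ×ˢ Icc 0 1 : Set (ℝ × ℝ)) ∩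
      (fun p : ℝ × ℝ => ν (p.1 + m * p.2) p.2) ⁻¹' C), (hcp.image_of_continuousOn
        (h.cont.mono fun p hp => ⟨mem_univ _, hp.1.2⟩)).isClosed, ?_⟩
  ext x
  constructor
  · rintro ⟨h1, h2⟩
    refine ⟨?_, h2⟩
    rw [ann_image h] at h2
    obtain ⟨p, hp, rfl⟩ := h2
    refine ⟨p, ⟨hp, ?_⟩, rfl⟩
    have h3 : twi ν m (ν p.1 p.2) ∈ C := h1
    rw [tw_nu h m _ hp.2] at h3
    exact h3
  · rintro ⟨⟨p, ⟨hp, hpC⟩, rfl⟩, h2⟩
    refine ⟨?_, h2⟩
    change twi ν m (ν p.1 p.2) ∈ C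
    rw [tw_nu h m _ hp.2]
    exact hpC

theorem tw_cont (h : Ann Sg ν) (m : ℤ) : ContinuousOn (twi ν m) Sg := by
  obtain ⟨O, hO, hOS⟩ := h.opn
  have hNc : IsClosed {x | ∃ l, ∃ s ∈ Icc (0 : ℝ) 1, x = ν l s} := by
    rw [ann_image h]
    exact ((isCompact_Icc.prod isCompact_Icc).image_of_continuousOn
        (h.cont.mono fun p hp => ⟨mem_univ _, hp.2⟩)).isClosed
  have hid : ∀ x ∈ Sg \ O, twi ν m x = x := by
    rintro x ⟨hx, hxO⟩
    rcases tw_cases (ν := ν) x with ⟨l, s, hs, rfl⟩ | h1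
    · rw [tw_nu h m l hs]
      have hs01 : s = 0 ∨ s = 1 := by
        by_contra hc
        push Not at hc
        have hs' : s ∈ Ioo (0 : ℝ) 1 := ⟨lt_of_le_of_ne hs.1 (Ne.symm hc.1),
          lt_of_le_of_ne hs.2 hc.2⟩
        have : ν l s ∈ O ∩ Sg := by
          rw [hOS]
          exact ⟨l, s, hs', rfl⟩
        exact hxO this.1
      rcases hs01 with rfl | rfl
      · simp
      · rw [mul_one, per_int h]
    · exact tw_off m h1
  have hcover : Sg ⊆ {x | ∃ l, ∃ s ∈ Icc (0 : ℝ) 1, x = ν l s} ∪ (Sg \ O) := by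
    intro x hx
    by_cases hxO : x ∈ O
    · left
      have : x ∈ O ∩ Sg := ⟨hxO, hx⟩
      rw [hOS] at this
      obtain ⟨l, s, hs, rfl⟩ := this
      exact ⟨l, s, ⟨hs.1.le, hs.2.le⟩, rfl⟩
    · exact Or.inr ⟨hx, hxO⟩
  have h1 : ContinuousOn (twi ν m) (Sg \ O) := continuousOn_id.congr hid
  exact ((tw_cont_ann h m).union_of_isClosed h1 hNc (h.cl.sdiff hO)).mono hcover

theorem tw_comm {ν' : ℝ → ℝ → E} (h : Ann Sg ν) (h' : Ann Sg ν') {f : E → E}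
    (hf : Function.Injective f) (a : ℝ) (hfν : ∀ l, ∀ s ∈ Icc (0 : ℝ) 1, f (ν l s) = ν' (l + a) s)
    (m : ℤ) (x : E) : f (twi ν m x) = twi ν' m (f x) := by
  rcases tw_cases (ν := ν) x with ⟨l, s, hs, rfl⟩ | h1
  · rw [tw_nu h m l hs, hfν _ _ hs, hfν _ _ hs, tw_nu h' m _ hs]
    congr 1
    ring
  · rw [tw_off m h1, tw_off]
    intro l s hs hx
    have h2 := hfν (l - a) s hs
    rw [sub_add_cancel] at h2
    exact h1 _ _ hs (hf (hx.trans h2.symm))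

end PoolFbd
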